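import Mathlib

set_option autoImplicit false

namespace Pool.Agent.H23.PR

attribute [fun_prop] Primrec

variable {α β γ σ : Type*} [Primcodable α] [Primcodable β] [Primcodable γ] [Primcodable σ]

@[fun_prop] theorem id' : Primrec fun x : α => x := Primrec.id
@[fun_prop] theorem const' (b : β) : Primrec fun _ : α => b := Primrec.const b
@[fun_prop] theorem comp' {f : β → σ} {g : α → β} (hf : Primrec f) (hg : Primrec g) :
    Primrec fun a => f (g a) := hf.comp hg
@[fun_prop] theorem fst' {f : α → β × γ} (hf : Primrec f) : Primrec fun a => (f a).1 :=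
  Primrec.fst.comp hf
@[fun_prop] theorem snd' {f : α → β × γ} (hf : Primrec f) : Primrec fun a => (f a).2 :=
  Primrec.snd.comp hf
@[fun_prop] theorem pair' {f : α → β} {g : α → γ} (hf : Primrec f) (hg : Primrec g) :
    Primrec fun a => (f a, g a) := hf.pair hg
@[fun_prop] theorem add' {f g : α → ℕ} (hf : Primrec f) (hg : Primrec g) :
    Primrec fun a => f a + g a := Primrec.nat_add.comp hf hg
@[fun_prop] theorem sub' {f g : α → ℕ} (hf : Primrec f) (hg : Primrec g) :
    Primrec fun a => f a - g a := Primrec.nat_sub.comp hf hg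
@[fun_prop] theorem mul' {f g : α → ℕ} (hf : Primrec f) (hg : Primrec g) :
    Primrec fun a => f a * g a := Primrec.nat_mul.comp hf hg
@[fun_prop] theorem div' {f g : α → ℕ} (hf : Primrec f) (hg : Primrec g) :
    Primrec fun a => f a / g a := Primrec.nat_div.comp hf hg
@[fun_prop] theorem mod' {f g : α → ℕ} (hf : Primrec f) (hg : Primrec g) :
    Primrec fun a => f a % g a := Primrec.nat_mod.comp hf hg
@[fun_prop] theorem pow' {f g : α → ℕ} (hf : Primrec f) (hg : Primrec g) :
    Primrec fun a => f a ^ g a :=
  (Primrec₂.unpaired'.1 Nat.Primrec.pow).comp hf hg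
@[fun_prop] theorem max' {f g : α → ℕ} (hf : Primrec f) (hg : Primrec g) :
    Primrec fun a => max (f a) (g a) := Primrec.nat_max.comp hf hg
@[fun_prop] theorem min' {f g : α → ℕ} (hf : Primrec f) (hg : Primrec g) :
    Primrec fun a => min (f a) (g a) := Primrec.nat_min.comp hf hg
@[fun_prop] theorem succ' {f : α → ℕ} (hf : Primrec f) : Primrec fun a => Nat.succ (f a) :=
  Primrec.succ.comp hf
@[fun_prop] theorem natPair' {f g : α → ℕ} (hf : Primrec f) (hg : Primrec g) :
    Primrec fun a => Nat.pair (f a) (g a) := Primrec₂.natPair.comp hf hg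
@[fun_prop] theorem unpair' {f : α → ℕ} (hf : Primrec f) : Primrec fun a => Nat.unpair (f a) :=
  Primrec.unpair.comp hf
@[fun_prop] theorem encode' {f : α → β} (hf : Primrec f) :
    Primrec fun a => Encodable.encode (f a) := Primrec.encode.comp hf
@[fun_prop] theorem decode' {f : α → ℕ} (hf : Primrec f) :
    Primrec fun a => (Encodable.decode (f a) : Option β) := Primrec.decode.comp hf
@[fun_prop] theorem ofNat' {δ : Type*} [Denumerable δ] {f : α → ℕ} (hf : Primrec f) :
    Primrec fun a => Denumerable.ofNat δ (f a) := (Primrec.ofNat δ).comp hf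
@[fun_prop] theorem evaln' {k : α → ℕ} {c : α → Nat.Partrec.Code} {n : α → ℕ} (hk : Primrec k)
    (hc : Primrec c) (hn : Primrec n) :
    Primrec fun a => Nat.Partrec.Code.evaln (k a) (c a) (n a) :=
  Nat.Partrec.Code.primrec_evaln.comp ((hk.pair hc).pair hn)
@[fun_prop] theorem cond' {c : α → Bool} {f g : α → σ} (hc : Primrec c) (hf : Primrec f)
    (hg : Primrec g) : Primrec fun a => bif c a then f a else g a := Primrec.cond hc hf hg
@[fun_prop] theorem ite' {c : α → Prop} [DecidablePred c] {f g : α → σ}
    (hc : Primrec fun a => decide (c a)) (hf : Primrec f)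
    (hg : Primrec g) : Primrec fun a => if c a then f a else g a :=
  Primrec.ite hc.primrecPred hf hg
@[fun_prop] theorem and' {f g : α → Bool} (hf : Primrec f) (hg : Primrec g) :
    Primrec fun a => (f a && g a) := Primrec.and.comp hf hg
@[fun_prop] theorem or' {f g : α → Bool} (hf : Primrec f) (hg : Primrec g) :
    Primrec fun a => (f a || g a) := Primrec.or.comp hf hg
@[fun_prop] theorem not' {f : α → Bool} (hf : Primrec f) : Primrec fun a => (!f a) :=
  Primrec.not.comp hf
@[fun_prop] theorem beq' [BEq β] [LawfulBEq β] {f g : α → β} (hf : Primrec f) (hg : Primrec g) :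
    Primrec fun a => (f a == g a) := by
  classical
  exact (Primrec.eq.comp hf hg).decide.of_eq fun a => by
    rw [Bool.eq_iff_iff]; simp
@[fun_prop] theorem ble' {f g : α → ℕ} (hf : Primrec f) (hg : Primrec g) :
    Primrec fun a => Nat.ble (f a) (g a) :=
  (Primrec.nat_le.comp hf hg).decide.of_eq fun a => by
    rw [Bool.eq_iff_iff]; simp
@[fun_prop] theorem blt' {f g : α → ℕ} (hf : Primrec f) (hg : Primrec g) :
    Primrec fun a => Nat.blt (f a) (g a) :=
  (Primrec.nat_lt.comp hf hg).decide.of_eq fun a => by
    rw [Bool.eq_iff_iff]; simp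
@[fun_prop] theorem cons' {f : α → β} {g : α → List β} (hf : Primrec f) (hg : Primrec g) :
    Primrec fun a => f a :: g a := Primrec.list_cons.comp hf hg
@[fun_prop] theorem append' {f g : α → List β} (hf : Primrec f) (hg : Primrec g) :
    Primrec fun a => f a ++ g a := Primrec.list_append.comp hf hg
@[fun_prop] theorem length' {f : α → List β} (hf : Primrec f) :
    Primrec fun a => (f a).length := Primrec.list_length.comp hf
@[fun_prop] theorem range' {f : α → ℕ} (hf : Primrec f) :
    Primrec fun a => List.range (f a) := Primrec.list_range.comp hf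
@[fun_prop] theorem getD' (d : β) {f : α → List β} {g : α → ℕ} (hf : Primrec f)
    (hg : Primrec g) : Primrec fun a => (f a).getD (g a) d := (Primrec.list_getD d).comp hf hg
@[fun_prop] theorem map' {f : α → List β} {g : α → β → σ} (hf : Primrec f)
    (hg : Primrec fun p : α × β => g p.1 p.2) : Primrec fun a => (f a).map (g a) :=
  Primrec.list_map hf hg
@[fun_prop] theorem flatMap' {f : α → List β} {g : α → β → List σ} (hf : Primrec f)
    (hg : Primrec fun p : α × β => g p.1 p.2) : Primrec fun a => (f a).flatMap (g a) :=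
  Primrec.list_flatMap hf hg
@[fun_prop] theorem foldr' {f : α → List β} {g : α → σ} {h : α → β → σ → σ} (hf : Primrec f)
    (hg : Primrec g) (hh : Primrec fun p : α × β × σ => h p.1 p.2.1 p.2.2) :
    Primrec fun a => (f a).foldr (h a) (g a) :=
  Primrec.list_foldr (h := fun a p => h a p.1 p.2) hf hg hh
@[fun_prop] theorem foldl' {f : α → List β} {g : α → σ} {h : α → σ → β → σ} (hf : Primrec f)
    (hg : Primrec g) (hh : Primrec fun p : α × σ × β => h p.1 p.2.1 p.2.2) :
    Primrec fun a => (f a).foldl (h a) (g a) :=
  Primrec.list_foldl (h := fun a p => h a p.1 p.2) hf hg hh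
@[fun_prop] theorem any' {f : α → List β} {p : α → β → Bool} (hf : Primrec f)
    (hp : Primrec fun q : α × β => p q.1 q.2) : Primrec fun a => (f a).any (p a) :=
  (foldr' (g := fun _ => false) (h := fun a b s => p a b || s) hf (const' _)
    (or' (hp.comp (pair' (fst' id') (fst' (snd' id')))) (snd' (snd' id')))).of_eq fun a => by
      induction f a with
      | nil => rfl
      | cons b l ih => simp [ih]
@[fun_prop] theorem all' {f : α → List β} {p : α → β → Bool} (hf : Primrec f)
    (hp : Primrec fun q : α × β => p q.1 q.2) : Primrec fun a => (f a).all (p a) :=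
  (foldr' (g := fun _ => true) (h := fun a b s => p a b && s) hf (const' _)
    (and' (hp.comp (pair' (fst' id') (fst' (snd' id')))) (snd' (snd' id')))).of_eq fun a => by
      induction f a with
      | nil => rfl
      | cons b l ih => simp [ih]
@[fun_prop] theorem filter' {f : α → List β} {p : α → β → Bool} (hf : Primrec f)
    (hp : Primrec fun q : α × β => p q.1 q.2) : Primrec fun a => (f a).filter (p a) :=
  (foldr' (g := fun _ => []) (h := fun a b s => bif p a b then b :: s else s) hf (const' _)
    (cond' (hp.comp (pair' (fst' id') (fst' (snd' id'))))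
      (cons' (fst' (snd' id')) (snd' (snd' id'))) (snd' (snd' id')))).of_eq fun a => by
      induction f a with
      | nil => rfl
      | cons b l ih => simp only [List.foldr_cons, ih, List.filter_cons]; cases p a b <;> rfl
@[fun_prop] theorem natRec' {f : α → ℕ} {g : α → σ} {h : α → ℕ → σ → σ} (hf : Primrec f)
    (hg : Primrec g) (hh : Primrec fun p : α × ℕ × σ => h p.1 p.2.1 p.2.2) :
    Primrec fun a => (Nat.rec (g a) (h a) (f a) : σ) :=
  Primrec.nat_rec' (h := fun a p => h a p.1 p.2) hf hg hh
@[fun_prop] theorem iterate' {f : α → ℕ} {g : α → σ} {h : α → σ → σ} (hf : Primrec f)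
    (hg : Primrec g) (hh : Primrec fun p : α × σ => h p.1 p.2) :
    Primrec fun a => (h a)^[f a] (g a) := Primrec.nat_iterate hf hg hh
@[fun_prop] theorem some' {f : α → β} (hf : Primrec f) : Primrec fun a => some (f a) :=
  Primrec.option_some.comp hf
@[fun_prop] theorem isSome' {f : α → Option β} (hf : Primrec f) :
    Primrec fun a => (f a).isSome := Primrec.option_isSome.comp hf
@[fun_prop] theorem optGetD' {f : α → Option β} {g : α → β} (hf : Primrec f) (hg : Primrec g) :
    Primrec fun a => (f a).getD (g a) := Primrec.option_getD.comp hf hg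
@[fun_prop] theorem optMap' {f : α → Option β} {g : α → β → σ} (hf : Primrec f)
    (hg : Primrec fun p : α × β => g p.1 p.2) : Primrec fun a => (f a).map (g a) :=
  Primrec.option_map hf hg
@[fun_prop] theorem optBind' {f : α → Option β} {g : α → β → Option σ} (hf : Primrec f)
    (hg : Primrec fun p : α × β => g p.1 p.2) : Primrec fun a => (f a).bind (g a) :=
  Primrec.option_bind hf hg
@[fun_prop] theorem take' {f : α → ℕ} {g : α → List β} (hf : Primrec f) (hg : Primrec g) :
    Primrec fun a => (g a).take (f a) := Primrec.list_take.comp hf hg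
@[fun_prop] theorem drop' {f : α → ℕ} {g : α → List β} (hf : Primrec f) (hg : Primrec g) :
    Primrec fun a => (g a).drop (f a) := Primrec.list_drop.comp hf hg
@[fun_prop] theorem reverse' {g : α → List β} (hg : Primrec g) :
    Primrec fun a => (g a).reverse := Primrec.list_reverse.comp hg
@[fun_prop] theorem tail' {g : α → List β} (hg : Primrec g) :
    Primrec fun a => (g a).tail := Primrec.list_tail.comp hg
@[fun_prop] theorem toNat' {g : α → Bool} (hg : Primrec g) :
    Primrec fun a => (g a).toNat := (Primrec.dom_bool Bool.toNat).comp hg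

example : Primrec fun p : ℕ × ℕ => bif (p.1 % 10 == 0 && Nat.ble p.2 3) then [p.1, p.2 + 1]
    else (List.range p.1).map (fun i => 10 * (p.2 / 10) + i) := by fun_prop

example : Primrec fun p : ℕ × ℕ => Encodable.encode (Nat.Partrec.Code.evaln p.1
    (Denumerable.ofNat Nat.Partrec.Code p.2) (Nat.pair p.1 0)) := by fun_prop

example : Primrec fun p : ℕ × List ℕ => p.2.any (fun z => z == p.1) := by fun_prop

end Pool.Agent.H23.PR
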