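import Mathlib
import Pool.Agent.H23.PR

set_option autoImplicit false

namespace Pool.Agent.H23.CTools

open Nat.Partrec (Code)
open Nat.Partrec.Code

/-- Stage approximation of a c.e. predicate. -/
theorem re_stage {α : Type*} [Primcodable α] {p : α → Prop} (hp : REPred p) :
    ∃ R : ℕ → α → Bool, (Primrec fun q : ℕ × α => R q.1 q.2) ∧
      (∀ s t a, s ≤ t → R s a = true → R t a = true) ∧ ∀ a, p a ↔ ∃ s, R s a = true := by
  obtain ⟨c, hc⟩ := exists_code.1 hp
  refine ⟨fun s a => (evaln s c (Encodable.encode a)).isSome, by fun_prop, ?_, ?_⟩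
  · intro s t a hst h
    obtain ⟨x, hx⟩ := Option.isSome_iff_exists.1 h
    exact Option.isSome_iff_exists.2 ⟨x, evaln_mono hst hx⟩
  · intro a
    constructor
    · intro h
      have : Encodable.encode () ∈ eval c (Encodable.encode a) := by
        rw [hc]; simp [h]; exact ⟨(), rfl⟩
      obtain ⟨k, hk⟩ := evaln_complete.1 this
      exact ⟨k, Option.isSome_iff_exists.2 ⟨_, hk⟩⟩
    · rintro ⟨s, hs⟩
      obtain ⟨x, hx⟩ := Option.isSome_iff_exists.1 hs
      have := evaln_sound hx
      rw [hc] at this
      simp at this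
      tauto

theorem re_of_exists {α : Type*} [Primcodable α] (R : α → ℕ → Bool)
    (hR : Computable fun q : α × ℕ => R q.1 q.2) : REPred fun a => ∃ s, R a s = true := by
  have h : Partrec fun a => Nat.rfind fun s => Part.some (R a s) := Partrec.rfind hR.partrec
  refine h.dom_re.of_eq fun a => ?_
  simp [Nat.rfind_dom]

theorem comp_iterate {h : ℕ → ℕ} (hh : Computable h) :
    Computable fun p : ℕ × ℕ => h^[p.1] p.2 :=
  (Computable.nat_rec (h := fun _ q => h q.2) Computable.fst Computable.snd
    (hh.comp (Computable.snd.comp Computable.snd)).to₂).of_eq fun p => by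
      induction p.1 with
      | zero => rfl
      | succ k ih => rw [Function.iterate_succ_apply', ← ih]

/-- Computable dependent choice. -/
theorem comp_dc (R : List ℕ → Bool) (hR : Computable R) (h0 : R [] = true)
    (hs : ∀ L, R L = true → ∃ x, R (x :: L) = true) :
    ∃ f : ℕ → List ℕ, Computable f ∧ f 0 = [] ∧ (∀ k, ∃ x, f (k + 1) = x :: f k) ∧
      ∀ k, R (f k) = true := by
  have hex : ∀ L, ∃ x, (!R L || R (x :: L)) = true := by
    intro L
    cases h : R L
    · exact ⟨0, rfl⟩
    · obtain ⟨x, hx⟩ := hs L h
      exact ⟨x, by simp [hx]⟩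
  have hc : ComputablePred fun p : List ℕ × ℕ => (!R p.1 || R (p.2 :: p.1)) = true := by
    refine ComputablePred.computable_iff.2 ⟨fun p => (!R p.1 || R (p.2 :: p.1)), ?_, rfl⟩
    exact (Primrec.or.to_comp).comp (Primrec.not.to_comp.comp (hR.comp Computable.fst))
      (hR.comp (show Primrec fun p : List ℕ × ℕ => p.2 :: p.1 by fun_prop).to_comp)
  have hn : Computable fun L => Nat.find (hex L) :=
    Computable.find (P := fun L x => (!R L || R (x :: L)) = true) hc hex
  let f : ℕ → List ℕ := fun k => Nat.rec [] (fun _ L => Nat.find (hex L) :: L) k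
  refine ⟨f, ?_, rfl, fun k => ⟨_, rfl⟩, ?_⟩
  · exact Computable.nat_rec (h := fun _ p => Nat.find (hex p.2) :: p.2) Computable.id
      (Computable.const []) ((Primrec.list_cons.to_comp.comp
        (hn.comp (Computable.snd.comp Computable.snd)) (Computable.snd.comp Computable.snd)).to₂)
  · intro k
    induction k with
    | zero => exact h0
    | succ k ih =>
      have := Nat.find_spec (hex (f k))
      show R (Nat.find (hex (f k)) :: f k) = true
      simpa [ih] using this

end Pool.Agent.H23.CTools
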