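import Mathlib
import Pool.Agent.H23.PR
import Pool.Agent.H23.CTools

set_option autoImplicit false

namespace Pool.Agent.H23.RE

open CTools

variable {α β : Type} [Primcodable α] [Primcodable β]

@[fun_prop] theorem testBit' {f g : α → ℕ} (hf : Primrec f) (hg : Primrec g) :
    Primrec fun a => (f a).testBit (g a) :=
  (show Primrec fun a => (f a / 2 ^ g a % 2 == 1) by fun_prop).of_eq fun a => by
    rw [Nat.testBit_eq_decide_div_mod_eq]; rfl

theorem re_bool {f : α → Bool} (hf : Computable f) : REPred fun a => f a = true :=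
  (re_of_exists (fun a _ => f a) (hf.comp Computable.fst)).of_eq fun a => by simp

theorem re_prim {f : α → Bool} (hf : Primrec f) : REPred fun a => f a = true := re_bool hf.to_comp

theorem re_comp {p : β → Prop} (hp : REPred p) {g : α → β} (hg : Computable g) :
    REPred fun a => p (g a) := by
  obtain ⟨R, h1, _, h3⟩ := re_stage hp
  exact (re_of_exists (fun a s => R s (g a)) (h1.to_comp.comp
    (Computable.snd.pair (hg.comp Computable.fst)))).of_eq fun a => (h3 _).symm

theorem re_comp' {p : β → Prop} (hp : REPred p) (g : α → β) (hg : Primrec g) :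
    REPred fun a => p (g a) := re_comp hp hg.to_comp

theorem re_and {p q : α → Prop} (hp : REPred p) (hq : REPred q) : REPred fun a => p a ∧ q a := by
  obtain ⟨R, h1, h2, h3⟩ := re_stage hp
  obtain ⟨S, k1, k2, k3⟩ := re_stage hq
  have e1 : Primrec fun x : α × ℕ => R x.2 x.1 := h1.comp (Primrec.snd.pair Primrec.fst)
  have e2 : Primrec fun x : α × ℕ => S x.2 x.1 := k1.comp (Primrec.snd.pair Primrec.fst)
  refine (re_of_exists (fun a s => R s a && S s a) (Primrec.to_comp (by fun_prop))).of_eq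
    fun a => ?_
  rw [h3, k3]
  simp only [Bool.and_eq_true]
  exact ⟨fun ⟨s, a, b⟩ => ⟨⟨s, a⟩, s, b⟩, fun ⟨⟨s, a⟩, t, b⟩ =>
    ⟨max s t, h2 _ _ _ (le_max_left _ _) a, k2 _ _ _ (le_max_right _ _) b⟩⟩

theorem re_or {p q : α → Prop} (hp : REPred p) (hq : REPred q) : REPred fun a => p a ∨ q a := by
  obtain ⟨R, h1, h2, h3⟩ := re_stage hp
  obtain ⟨S, k1, k2, k3⟩ := re_stage hq
  have e1 : Primrec fun x : α × ℕ => R x.2 x.1 := h1.comp (Primrec.snd.pair Primrec.fst)
  have e2 : Primrec fun x : α × ℕ => S x.2 x.1 := k1.comp (Primrec.snd.pair Primrec.fst)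
  refine (re_of_exists (fun a s => R s a || S s a) (Primrec.to_comp (by fun_prop))).of_eq
    fun a => ?_
  rw [h3, k3]
  simp only [Bool.or_eq_true, exists_or]

theorem re_imp {f : α → Bool} (hf : Primrec f) {q : α → Prop} (hq : REPred q) :
    REPred fun a => f a = true → q a :=
  (re_or (re_prim (f := fun a => !f a) (by fun_prop)) hq).of_eq fun a => by
    cases f a <;> simp

theorem re_ex {p : α → β → Prop} (hp : REPred fun x : α × β => p x.1 x.2) :
    REPred fun a => ∃ b, p a b := by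
  obtain ⟨R, h1, h2, h3⟩ := re_stage hp
  have e1 : Primrec fun x : (α × ℕ) × β => R x.1.2.unpair.2 (x.1.1, x.2) :=
    h1.comp (show Primrec fun x : (α × ℕ) × β => (x.1.2.unpair.2, (x.1.1, x.2)) by fun_prop)
  refine (re_of_exists (fun a s => (((Encodable.decode s.unpair.1 : Option β).map
    fun b => R s.unpair.2 (a, b)).getD false)) (Primrec.to_comp (by fun_prop))).of_eq fun a => ?_
  constructor
  · rintro ⟨s, hs⟩
    cases h : (Encodable.decode s.unpair.1 : Option β) with
    | none => simp [h] at hs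
    | some b => exact ⟨b, (h3 (a, b)).2 ⟨_, by simpa [h] using hs⟩⟩
  · rintro ⟨b, hb⟩
    obtain ⟨s, hs⟩ := (h3 (a, b)).1 hb
    exact ⟨Nat.pair (Encodable.encode b) s, by simpa using hs⟩

theorem re_all {p : α → β → Prop} (hp : REPred fun x : α × β => p x.1 x.2) {l : α → List β}
    (hl : Primrec l) : REPred fun a => ∀ b ∈ l a, p a b := by
  obtain ⟨R, h1, h2, h3⟩ := re_stage hp
  have e1 : Primrec fun x : (α × ℕ) × β => R x.1.2 (x.1.1, x.2) :=
    h1.comp (show Primrec fun x : (α × ℕ) × β => (x.1.2, (x.1.1, x.2)) by fun_prop)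
  refine (re_of_exists (fun a s => (l a).all fun b => R s (a, b))
    (Primrec.to_comp (by fun_prop))).of_eq fun a => ?_
  simp only [List.all_eq_true]
  refine ⟨fun ⟨s, hs⟩ b hb => (h3 (a, b)).2 ⟨s, hs b hb⟩, fun h => ?_⟩
  generalize l a = L at h
  induction L with
  | nil => exact ⟨0, by simp⟩
  | cons b L ih =>
    obtain ⟨s, hs⟩ := ih fun c hc => h c (List.mem_cons_of_mem _ hc)
    obtain ⟨t, ht⟩ := (h3 (a, b)).1 (h b List.mem_cons_self)
    refine ⟨max s t, fun c hc => ?_⟩
    rcases List.mem_cons.1 hc with rfl | hc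
    · exact h2 _ _ _ (le_max_right _ _) ht
    · exact h2 _ _ _ (le_max_left _ _) (hs c hc)

theorem re_ball {p : α → ℕ → Prop} (hp : REPred fun x : α × ℕ => p x.1 x.2) {n : α → ℕ}
    (hn : Primrec n) : REPred fun a => ∀ i < n a, p a i :=
  (re_all hp (l := fun a => List.range (n a)) (by fun_prop)).of_eq fun a => by simp

theorem lt_of_testBit {u i : ℕ} (h : u.testBit i = true) : i < u :=
  lt_of_lt_of_le Nat.lt_two_pow_self (Nat.ge_two_pow_of_testBit h)

theorem re_bits {p : α → ℕ → Prop} (hp : REPred fun x : α × ℕ => p x.1 x.2) {u : α → ℕ}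
    (hu : Primrec u) : REPred fun a => ∀ i, (u a).testBit i = true → p a i :=
  (re_ball (p := fun a i => (u a).testBit i = true → p a i)
    (re_imp (f := fun x : α × ℕ => (u x.1).testBit x.2) (by fun_prop) hp) hu).of_eq fun _ =>
    ⟨fun h i hi => h i (lt_of_testBit hi) hi, fun h i _ hi => h i hi⟩

/-- Uniformization of c.e. relations. -/
theorem uniformize {p : α → ℕ → Prop} (hp : REPred fun x : α × ℕ => p x.1 x.2) :
    ∃ q : α → ℕ → Prop, (REPred fun x : α × ℕ => q x.1 x.2) ∧ (∀ a u, q a u → p a u) ∧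
      (∀ a u v, q a u → q a v → u = v) ∧ ∀ a u, p a u → ∃ v, q a v := by
  obtain ⟨R, h1, h2, h3⟩ := re_stage hp
  have e1 : Primrec fun x : (α × ℕ) × ℕ => R x.2 x.1 := h1.comp (Primrec.snd.pair Primrec.fst)
  have e2 : Primrec fun x : ((α × ℕ) × ℕ) × ℕ => R x.2.unpair.2 (x.1.1.1, x.2.unpair.1) :=
    h1.comp (show Primrec fun x : ((α × ℕ) × ℕ) × ℕ =>
      (x.2.unpair.2, (x.1.1.1, x.2.unpair.1)) by fun_prop)
  refine ⟨fun a u => ∃ s, (R s (a, u) && (List.range (Nat.pair u s)).all
    fun k => !R k.unpair.2 (a, k.unpair.1)) = true,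
    re_of_exists (fun (x : α × ℕ) s => R s x && (List.range (Nat.pair x.2 s)).all
      fun k => !R k.unpair.2 (x.1, k.unpair.1)) (Primrec.to_comp (by fun_prop)), ?_, ?_, ?_⟩
  · rintro a u ⟨s, hs⟩
    simp only [Bool.and_eq_true] at hs
    exact (h3 (a, u)).2 ⟨s, hs.1⟩
  · rintro a u v ⟨s, hs⟩ ⟨t, ht⟩
    simp only [Bool.and_eq_true, List.all_eq_true, List.mem_range, Bool.not_eq_true'] at hs ht
    rcases lt_trichotomy (Nat.pair u s) (Nat.pair v t) with h | h | h
    · have := ht.2 _ h
      simp [hs.1] at this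
    · exact (Nat.pair_eq_pair.1 h).1
    · have := hs.2 _ h
      simp [ht.1] at this
  · intro a u hu
    obtain ⟨s, hs⟩ := (h3 (a, u)).1 hu
    have hex : ∃ k : ℕ, R k.unpair.2 (a, k.unpair.1) = true := ⟨Nat.pair u s, by simpa using hs⟩
    refine ⟨(Nat.find hex).unpair.1, (Nat.find hex).unpair.2, ?_⟩
    simp only [Bool.and_eq_true, List.all_eq_true, List.mem_range, Bool.not_eq_true',
      Nat.pair_unpair]
    exact ⟨Nat.find_spec hex, fun k hk => by simpa using Nat.find_min hex hk⟩

/-- There are only countably many c.e. predicates. -/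
theorem countable_re : {p : α → Prop | REPred p}.Countable := by
  refine (Set.countable_range fun c : Nat.Partrec.Code => fun a : α =>
    (Nat.Partrec.Code.eval c (Encodable.encode a)).Dom).mono fun p hp => ?_
  obtain ⟨c, hc⟩ := Nat.Partrec.Code.exists_code.1 hp
  refine ⟨c, funext fun a => propext ?_⟩
  simp only [hc]
  simp [Part.dom_iff_mem]

end Pool.Agent.H23.RE
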