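import Mathlib

set_option autoImplicit false

namespace Pool.Agent.H23.APTest

open Finset

theorem mem_ap (a d L x : ℕ) (hd : 0 < d) :
    x ∈ (range L).image (fun j => a + d * j) ↔ a ≤ x ∧ ¬ (a + d * L ≤ x) ∧ x % d = a % d := by
  simp only [mem_image, mem_range]
  constructor
  · rintro ⟨j, hj, rfl⟩
    refine ⟨by omega, ?_, by simp⟩
    have : d * j < d * L := Nat.mul_lt_mul_of_pos_left hj hd
    omega
  · rintro ⟨h1, h2, h3⟩
    obtain ⟨j, hj⟩ : d ∣ x - a := (Nat.modEq_iff_dvd' h1).1 h3.symm
    refine ⟨j, ?_, by omega⟩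
    by_contra hc
    have : d * L ≤ d * j := Nat.mul_le_mul_left d (by omega)
    omega

theorem card_ap (a d L n t : ℕ) (hd : d = 0 ∨ t ≤ d)
    (hs : (range L).image (fun j => a + d * j) ⊆ range n) :
    t * ((range L).image (fun j => a + d * j)).card ≤ n + t := by
  rcases hd with rfl | hd
  · have : ((range L).image (fun j => a + 0 * j)).card ≤ 1 := by
      apply card_le_one.2
      simp only [mem_image]
      rintro _ ⟨i, _, rfl⟩ _ ⟨j, _, rfl⟩
      simp
    nlinarith
  · rcases L with _ | L
    · simp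
    · have h1 : a + d * L ∈ range n := hs (mem_image.2 ⟨L, by simp, rfl⟩)
      have h2 : ((range (L + 1)).image (fun j => a + d * j)).card ≤ L + 1 :=
        card_image_le.trans (by simp)
      have h3 : t * L ≤ d * L := Nat.mul_le_mul_right L hd
      simp only [mem_range] at h1
      nlinarith

theorem pos_eq {m : ℕ} (a : Fin m → ℕ) (x y : ℕ)
    (h : (univ.filter fun i => a i ≤ x).card = (univ.filter fun i => a i ≤ y).card) (i : Fin m) :
    a i ≤ x ↔ a i ≤ y := by
  wlog hxy : x ≤ y generalizing x y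
  · exact (this y x h.symm (by omega)).symm
  have hsub : (univ.filter fun i => a i ≤ x) ⊆ (univ.filter fun i => a i ≤ y) := by
    intro j hj; simp only [mem_filter, mem_univ, true_and] at hj ⊢; omega
  have := eq_of_subset_of_card_le hsub h.ge
  have h2 : i ∈ (univ.filter fun i => a i ≤ x) ↔ i ∈ (univ.filter fun i => a i ≤ y) := by
    rw [this]
  simpa using h2

theorem count (n m t B : ℕ) (ht : 1 ≤ t) (htn : t ≤ n) (a d L : Fin m → ℕ)
    (T : Fin m → Finset ℕ) (hT : ∀ i, T i = (range (L i)).image (fun j => a i + d i * j))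
    (hs : ∀ i, T i ⊆ range n)
    (hB : ∀ x ∈ range n, ((range n).filter fun y => ∀ i, y ∈ T i ↔ x ∈ T i).card ≤ B) :
    (n : ℝ) ≤ B * t.factorial * (m + 1) ^ 2 * Real.exp (m * ((1 + 2 * Real.log t) / t)) := by
  classical
  have ht0 : (0 : ℝ) < t := by exact_mod_cast ht
  have hlog : 0 ≤ Real.log t := Real.log_nonneg (by exact_mod_cast ht)
  let big : ℕ → Finset (Fin m) := fun x => univ.filter fun i => (d i = 0 ∨ t ≤ d i) ∧ x ∈ T i
  let φ : ℕ → (ℕ × ℕ × ℕ) × Finset (Fin m) := fun x =>
    ((x % t.factorial, (univ.filter fun i => a i ≤ x).card,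
      (univ.filter fun i => a i + d i * L i ≤ x).card), big x)
  let tgt : Finset ((ℕ × ℕ × ℕ) × Finset (Fin m)) :=
    (range t.factorial ×ˢ range (m + 1) ×ˢ range (m + 1)) ×ˢ (univ : Finset (Fin m)).powerset
  have hmaps : ∀ x ∈ range n, φ x ∈ tgt := by
    intro x _
    simp only [tgt, φ, mem_product, mem_range, mem_powerset, subset_univ, and_true]
    refine ⟨Nat.mod_lt _ t.factorial_pos, Nat.lt_succ_of_le ?_, Nat.lt_succ_of_le ?_⟩
    · exact (card_filter_le _ _).trans (by simp)
    · exact (card_filter_le _ _).trans (by simp)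
  have hsame : ∀ x y, φ y = φ x → ∀ i, y ∈ T i ↔ x ∈ T i := by
    intro x y h i
    simp only [φ, Prod.mk.injEq] at h
    obtain ⟨⟨h1, h2, h3⟩, h4⟩ := h
    by_cases hb : d i = 0 ∨ t ≤ d i
    · have : i ∈ big y ↔ i ∈ big x := by rw [h4]
      simpa [big, hb] using this
    · push Not at hb
      have hd : 0 < d i := Nat.pos_of_ne_zero hb.1
      rw [hT, mem_ap _ _ _ _ hd, mem_ap _ _ _ _ hd, pos_eq a y x h2 i,
        pos_eq (fun i => a i + d i * L i) y x h3 i]
      have hdv : d i ∣ t.factorial := Nat.dvd_factorial hd hb.2.le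
      have : y % d i = x % d i := Nat.ModEq.of_dvd hdv h1
      rw [this]
  have hfib : ∀ p ∈ tgt, (((range n).filter fun x => φ x = p).card : ℝ) ≤ B := by
    intro p _
    rcases ((range n).filter fun x => φ x = p).eq_empty_or_nonempty with he | ⟨x, hx⟩
    · rw [he]; simp
    · have hx' := mem_filter.1 hx
      have : ((range n).filter fun x => φ x = p).card ≤ B := by
        refine le_trans (card_le_card ?_) (hB x hx'.1)
        intro y hy
        have hy' := mem_filter.1 hy
        exact mem_filter.2 ⟨hy'.1, hsame x y (hy'.2.trans hx'.2.symm)⟩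
      exact_mod_cast this
  let w : (ℕ × ℕ × ℕ) × Finset (Fin m) → ℝ := fun p => (1 / (t : ℝ)) ^ p.2.card
  have hw : ∀ p, 0 ≤ w p := fun p => by positivity
  have hup : ∑ x ∈ range n, w (φ x) ≤ B * t.factorial * (m + 1) ^ 2 * Real.exp (m * (1 / t)) := by
    rw [← sum_fiberwise_of_maps_to hmaps]
    calc ∑ p ∈ tgt, ∑ x ∈ (range n).filter (fun x => φ x = p), w (φ x)
        ≤ ∑ p ∈ tgt, B * w p := by
          apply sum_le_sum
          intro p hp
          rw [sum_congr rfl (g := fun _ => w p) (fun x hx => by rw [(mem_filter.1 hx).2]),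
            sum_const, nsmul_eq_mul]
          exact mul_le_mul_of_nonneg_right (hfib p hp) (hw p)
      _ = B * (t.factorial * (m + 1) ^ 2 * (1 + 1 / t) ^ m) := by
          rw [← mul_sum, sum_product]
          congr 1
          have : ∑ A ∈ (univ : Finset (Fin m)).powerset, (1 / (t : ℝ)) ^ A.card
              = (1 + 1 / t) ^ m := by
            have := prod_one_add (f := fun _ : Fin m => (1 / (t : ℝ))) univ
            simp only [prod_const, card_univ, Fintype.card_fin] at this
            exact this.symm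
          simp only [w, this, sum_const, card_product, card_range, nsmul_eq_mul]
          push_cast; ring
      _ ≤ B * (t.factorial * (m + 1) ^ 2 * Real.exp (m * (1 / t))) := by
          gcongr
          rw [Real.exp_nat_mul]
          gcongr
          linarith [Real.add_one_le_exp (1 / (t : ℝ))]
      _ = _ := by ring
  have hsum : (∑ x ∈ range n, ((big x).card : ℝ)) ≤ n * (2 * m / t) := by
    have h1 : ∑ x ∈ range n, (big x).card =
        ∑ i : Fin m, ((range n).filter fun x => (d i = 0 ∨ t ≤ d i) ∧ x ∈ T i).card := by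
      simp only [big, card_filter]
      exact sum_comm
    have h2 : ∀ i : Fin m,
        t * ((range n).filter fun x => (d i = 0 ∨ t ≤ d i) ∧ x ∈ T i).card ≤ 2 * n := by
      intro i
      by_cases hb : d i = 0 ∨ t ≤ d i
      · have h3 := card_ap (a i) (d i) (L i) n t hb (hT i ▸ hs i)
        rw [← hT i] at h3
        have h4 : ((range n).filter fun x => (d i = 0 ∨ t ≤ d i) ∧ x ∈ T i).card ≤ (T i).card :=
          card_le_card fun x hx => (mem_filter.1 hx).2.2
        nlinarith
      · simp [hb]
    have h3 : t * ∑ x ∈ range n, (big x).card ≤ m * (2 * n) := by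
      rw [h1, mul_sum]
      exact (sum_le_sum fun i _ => h2 i).trans (by simp)
    have h4 : (t : ℝ) * ∑ x ∈ range n, ((big x).card : ℝ) ≤ m * (2 * n) := by exact_mod_cast h3
    rw [← mul_div_assoc, le_div_iff₀ ht0]
    linarith
  set u0 : ℝ := -(2 * m / t * Real.log t) with hu0
  have hlow : n * Real.exp u0 ≤ ∑ x ∈ range n, w (φ x) := by
    have h1 : ∀ x, Real.exp u0 * (1 - u0 - (big x).card * Real.log t) ≤ w (φ x) := by
      intro x
      have : w (φ x) = Real.exp u0 * Real.exp (-((big x).card * Real.log t) - u0) := by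
        rw [← Real.exp_add]
        simp only [w, φ]
        rw [show u0 + (-((big x).card * Real.log t) - u0) = (big x).card * (-Real.log t) by ring,
          Real.exp_nat_mul, Real.exp_neg, Real.exp_log ht0, one_div]
      rw [this]
      gcongr
      linarith [Real.add_one_le_exp (-((big x).card * Real.log t) - u0)]
    refine le_trans ?_ (sum_le_sum fun x _ => h1 x)
    rw [← mul_sum, sum_sub_distrib, ← sum_mul, sum_const, card_range, nsmul_eq_mul, mul_comm]
    gcongr
    have := mul_le_mul_of_nonneg_right hsum hlog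
    rw [hu0]; nlinarith
  have hfin := hlow.trans hup
  have : (n : ℝ) = n * Real.exp u0 * Real.exp (-u0) := by
    rw [mul_assoc, ← Real.exp_add]; simp
  rw [this]
  calc (n : ℝ) * Real.exp u0 * Real.exp (-u0)
      ≤ B * t.factorial * (m + 1) ^ 2 * Real.exp (m * (1 / t)) * Real.exp (-u0) := by gcongr
    _ = _ := by
      rw [mul_assoc, ← Real.exp_add]
      congr 2
      rw [hu0]; field_simp

theorem big_class (C : ℝ) (B N : ℕ) : ∃ n : ℕ, N ≤ n ∧ ∀ m : ℕ, (m : ℝ) ≤ C * Real.log n →
    ∀ T : Fin m → Finset ℕ, (∀ i, T i ⊆ range n ∧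
      ∃ a d L : ℕ, T i = (range L).image (fun j => a + d * j)) →
    ∃ x ∈ range n, B < ((range n).filter fun y => ∀ i, y ∈ T i ↔ x ∈ T i).card := by
  obtain ⟨c, hc⟩ := exists_nat_ge C
  let u : ℕ := 10 * c + 1
  let t : ℕ := u ^ 2
  let w : ℕ := B * t.factorial * (6 * c + 1) ^ 2 + t + N + 1
  have hw1 : 1 ≤ w := by simp only [w]; omega
  have hwn : w ≤ w ^ 6 := Nat.le_self_pow (by norm_num) w
  refine ⟨w ^ 6, by simp only [w] at hwn ⊢; omega, fun m hm T hT => ?_⟩
  by_contra hcon
  push Not at hcon
  choose a d L hT' using fun i => (hT i).2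
  have hu1 : 1 ≤ u := by simp only [u]; omega
  have ht1 : 1 ≤ t := Nat.one_le_pow _ _ hu1
  have h := count (w ^ 6) m t B ht1 (by simp only [w] at hwn ⊢; omega) a d L T hT'
    (fun i => (hT i).1) hcon
  have hw0 : (1 : ℝ) ≤ w := by exact_mod_cast hw1
  have hu0 : (1 : ℝ) ≤ u := by exact_mod_cast hu1
  have hlw : 0 ≤ Real.log w := Real.log_nonneg hw0
  have hlw2 : Real.log w ≤ w := (Real.log_le_sub_one_of_pos (by linarith)).trans (by linarith)
  have hm2 : (m : ℝ) ≤ c * (6 * Real.log w) := by
    have : Real.log ((w ^ 6 : ℕ) : ℝ) = 6 * Real.log w := by push_cast; rw [Real.log_pow]; norm_num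
    rw [this] at hm
    exact hm.trans (by gcongr)
  have hc0 : (0 : ℝ) ≤ c := Nat.cast_nonneg c
  have hq : (1 + 2 * Real.log t) / t ≤ 5 / u := by
    have h1 : Real.log t = 2 * Real.log u := by
      simp only [t]; push_cast; rw [Real.log_pow]; norm_num
    have h2 : Real.log u ≤ u := (Real.log_le_sub_one_of_pos (by linarith)).trans (by linarith)
    have h3 : (t : ℝ) = u ^ 2 := by simp only [t]; push_cast; ring
    rw [h1, h3, div_le_div_iff₀ (by positivity) (by positivity)]
    nlinarith
  have hexp : Real.exp (m * ((1 + 2 * Real.log t) / t)) ≤ (w : ℝ) ^ 3 := by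
    have h1 : (m : ℝ) * ((1 + 2 * Real.log t) / t) ≤ 3 * Real.log w := by
      calc (m : ℝ) * ((1 + 2 * Real.log t) / t) ≤ m * (5 / u) := by gcongr
        _ ≤ c * (6 * Real.log w) * (5 / u) := by gcongr
        _ = (10 * c / u) * (3 * Real.log w) := by ring
        _ ≤ 1 * (3 * Real.log w) := by
            gcongr
            rw [div_le_one (by positivity)]
            simp only [u]; push_cast; linarith
        _ = _ := by ring
    calc _ ≤ Real.exp (3 * Real.log w) := Real.exp_le_exp.2 h1
      _ = _ := by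
        rw [show (3 : ℝ) = ((3 : ℕ) : ℝ) by norm_num, Real.exp_nat_mul,
          Real.exp_log (by linarith)]
  have hm3 : (m : ℝ) + 1 ≤ (6 * c + 1) * w := by nlinarith
  have h2 : (w : ℝ) ^ 6 ≤ B * t.factorial * ((6 * c + 1) * w) ^ 2 * (w : ℝ) ^ 3 := by
    push_cast at h
    exact h.trans (by gcongr)
  have h3 : (B : ℝ) * t.factorial * (6 * c + 1) ^ 2 < w := by
    have : B * t.factorial * (6 * c + 1) ^ 2 < w := by simp only [w]; omega
    exact_mod_cast this
  have h4 : (0 : ℝ) < (w : ℝ) ^ 5 := by positivity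
  nlinarith

theorem no_scheme (C : ℝ) (D k N : ℕ) (hk : 1 ≤ k) : ∃ n : ℕ, N ≤ n ∧
      ¬ ∃ m : ℕ, (m : ℝ) ≤ C * (k : ℝ) * Real.log (n : ℝ) ∧
        ∃ T : Fin m → Finset ℕ,
          (∀ i, T i ⊆ Finset.range n ∧
            ∃ a d L : ℕ, T i = (Finset.range L).image (fun j => a + d * j)) ∧
          ∃ J : (Fin m → Bool) → Finset ℕ,
            (∀ o, (J o).card ≤ D * k) ∧
            ∀ S S' : Finset ℕ, S ⊆ Finset.range n → S' ⊆ Finset.range n →
              S.card ≤ k → S'.card ≤ k →
              (fun i => decide (Disjoint (T i) S)) =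
                (fun i => decide (Disjoint (T i) S')) →
              S ∩ J (fun i => decide (Disjoint (T i) S)) =
                S' ∩ J (fun i => decide (Disjoint (T i) S)) →
              S = S' := by
  obtain ⟨n, hn, H⟩ := big_class (C * k) (D * k + 1) N
  refine ⟨n, hn, ?_⟩
  rintro ⟨m, hm, T, hT, J, hJ, hS⟩
  obtain ⟨x, hx, hB⟩ := H m hm T hT
  set K := (range n).filter fun y => ∀ i, y ∈ T i ↔ x ∈ T i with hK
  set o : Fin m → Bool := fun i => decide (Disjoint (T i) {x}) with ho
  have h1 : 1 < (K \ J o).card := by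
    have := le_card_sdiff (J o) K
    have := hJ o
    omega
  obtain ⟨y, hy, z, hz, hyz⟩ := one_lt_card.1 h1
  have hpat : ∀ y ∈ K, (fun i => decide (Disjoint (T i) {y})) = o := by
    intro y hy
    funext i
    have := (mem_filter.1 hy).2 i
    simp only [ho, disjoint_singleton_right, this]
  have hy' := mem_sdiff.1 hy
  have hz' := mem_sdiff.1 hz
  have := hS {y} {z} (by simpa using (mem_filter.1 hy'.1).1)
    (by simpa using (mem_filter.1 hz'.1).1) (by simpa using hk) (by simpa using hk)
    ((hpat y hy'.1).trans (hpat z hz'.1).symm)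
    (by rw [hpat y hy'.1, singleton_inter_of_notMem hy'.2, singleton_inter_of_notMem hz'.2])
  exact hyz (singleton_injective this)

end Pool.Agent.H23.APTest
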