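import Pool.Agent.H23.ATDefs

set_option autoImplicit false

namespace Pool.Agent.H23.AT
open Finset

variable {V : Type} [Fintype V] [DecidableEq V]

def w (v : V) (a : V × V) : ℤ := (if a.1 = v then 1 else 0) - if a.2 = v then 1 else 0

omit [Fintype V] in
theorem eul_iff {F : Finset (V × V)} : Eul F ↔ ∀ v, ∑ a ∈ F, w v a = 0 := by
  simp [Eul, w, sum_sub_distrib, sub_eq_zero]

omit [Fintype V] in
theorem sum_sd (F A : Finset (V × V)) (f : V × V → ℤ) :
    ∑ a ∈ symmDiff F A, f a = ∑ a ∈ F, f a + ∑ a ∈ A, if a ∈ F then -f a else f a := by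
  rw [symmDiff_def, sup_eq_union, sum_union disjoint_sdiff_sdiff, sum_ite, filter_mem_eq_inter,
    filter_notMem_eq_sdiff, ← sum_sdiff (inter_subset_left (s₁ := F) (s₂ := A)),
    sdiff_inter_self_left, inter_comm A, sum_neg_distrib]
  ring

theorem ee_sub (D : Finset (V × V)) :
    (EE D : ℤ) - EO D = ∑ F ∈ D.powerset.filter Eul, (-1) ^ F.card := by
  rw [← sum_filter_add_sum_filter_not _ fun F => Even F.card, filter_filter, filter_filter,
    sum_congr rfl fun F h => (mem_filter.1 h).2.2.neg_one_pow,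
    sum_congr rfl fun F h => (Nat.not_even_iff_odd.1 (mem_filter.1 h).2.2).neg_one_pow]
  simp [EE, EO, sub_eq_add_neg]

open Classical in
theorem invol {ι : Type} (D : Finset (V × V)) (A : ι → Finset (V × V)) (h1 : ∀ i, A i ⊆ D)
    (h2 : ∀ i, Odd (A i).card) (h3 : ∀ i j, i ≠ j → Disjoint (A i) (A j)) :
    (EE D : ℤ) - EO D =
      ∑ F ∈ (D.powerset.filter Eul).filter fun F => ¬ ∃ i, Eul (symmDiff F (A i)), (-1) ^ F.card := by
  rw [ee_sub, ← sum_filter_add_sum_filter_not _ fun F => ∃ i, Eul (symmDiff F (A i)), add_eq_right]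
  have key : ∀ F i, Eul F → Eul (symmDiff F (A i)) →
      (fun j => Eul (symmDiff (symmDiff F (A i)) (A j))) = fun j => Eul (symmDiff F (A j)) := by
    intro F i a b
    funext j
    by_cases e : j = i
    · simp [e, a, b]
    · simp only [eul_iff] at *
      refine propext (forall_congr' fun v => ?_)
      rw [sum_sd, sum_sd _ (A j), a, b, sum_congr rfl
        (g := fun x => if x ∈ F then -w v x else w v x) fun x hx => by
          simp [mem_symmDiff, disjoint_left.1 (h3 j i e) hx]]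
  refine sum_involution (fun F h => symmDiff F (A (mem_filter.1 h).2.choose)) (fun F h => ?_)
    (fun F h _ e => ?_) (fun F h => ?_) fun F h => ?_
  · generalize (mem_filter.1 h).2.choose = i
    have := sum_sd F (A i) fun _ => 1
    have e : Even ((symmDiff F (A i)).card + F.card + (A i).card) := by
      rw [sum_ite] at this
      have := card_filter_add_card_filter_not (s := A i) (· ∈ F)
      simp only [sum_const, smul_neg, nsmul_eq_mul, mul_one] at *
      exact ⟨F.card + ((A i).filter (· ∉ F)).card, by omega⟩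
    have := h2 i
    rcases Nat.even_or_odd F.card with a | a
    · rw [a.neg_one_pow, Odd.neg_one_pow (by grind)]; simp
    · rw [a.neg_one_pow, Even.neg_one_pow (by grind)]; simp
  · have := h2 (mem_filter.1 h).2.choose
    rw [symmDiff_eq_left.1 e] at this
    simp at this
  · have := (mem_filter.1 h).2.choose_spec
    obtain ⟨a, -⟩ := mem_filter.1 h
    refine mem_filter.2 ⟨mem_filter.2 ⟨mem_powerset.2 (symmDiff_le_sup.trans (union_subset
      (mem_powerset.1 (mem_filter.1 a).1) (h1 _))), this⟩, (mem_filter.1 h).2.choose, ?_⟩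
    simpa using (mem_filter.1 a).2
  · have := key F _ (mem_filter.1 (mem_filter.1 h).1).2 (mem_filter.1 h).2.choose_spec
    simp only [this]
    simp

def DF (D F : Finset (V × V)) (p q : V) : Prop := ((p, q) ∈ D ∧ (p, q) ∉ F) ∨ (q, p) ∈ F

instance (D F : Finset (V × V)) (p q : V) : Decidable (DF D F p q) := by unfold DF; infer_instance

def o (D : Finset (V × V)) (p q : V) : V × V := if (p, q) ∈ D then (p, q) else (q, p)

def tri (D : Finset (V × V)) (p q r : V) : Finset (V × V) := {o D p q, o D q r, o D r p}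

section
variable {G : SimpleGraph V} {D F : Finset (V × V)}

omit [Fintype V] in
theorem tri_sum {p q r : V} (h1 : p ≠ q) (h2 : q ≠ r) (h3 : r ≠ p) (f : V × V → ℤ) :
    ∑ a ∈ tri D p q r, f a = f (o D p q) + f (o D q r) + f (o D r p) := by
  rw [tri, sum_insert, sum_pair, add_assoc] <;> simp only [o, mem_insert, mem_singleton] <;> grind

omit [Fintype V] in
theorem tri_eul (hD : IsOri G D) (hF : F ⊆ D) (he : Eul F) {p q r : V} (h1 : p ≠ q) (h2 : q ≠ r)
    (h3 : r ≠ p) (h : (DF D F p q ∧ DF D F q r ∧ DF D F r p) ∨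
      (DF D F q p ∧ DF D F r q ∧ DF D F p r)) : Eul (symmDiff F (tri D p q r)) := by
  rw [eul_iff] at *
  intro v
  have t : ∀ p q, DF D F p q → (if o D p q ∈ F then -w v (o D p q) else w v (o D p q)) = w v (p, q) ∧
      (if o D q p ∈ F then -w v (o D q p) else w v (o D q p)) = w v (p, q) := fun p q h => by
    have := hD.2 p q
    have := hD.2 q p
    have := @hF (q, p)
    have : -w v (q, p) = w v (p, q) := by simp [w]
    unfold o DF at *
    grind
  rw [sum_sd, he, tri_sum h1 h2 h3]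
  rcases h with ⟨a, b, c⟩ | ⟨a, b, c⟩
  · rw [(t _ _ a).1, (t _ _ b).1, (t _ _ c).1]; simp [w]
  · rw [(t _ _ a).2, (t _ _ b).2, (t _ _ c).2]; simp [w]

open Classical in
theorem reduce (hD : IsOri G D) {ι κ : Type} (p q r : ι → V) (c : V → κ) (e : ι → κ)
    (he : Function.Injective e) (hc : ∀ i, c (p i) = e i ∧ c (q i) = e i ∧ c (r i) = e i)
    (ha : ∀ i, G.Adj (p i) (q i) ∧ G.Adj (q i) (r i) ∧ G.Adj (r i) (p i)) :
    ∃ S : Finset (Finset (V × V)), (EE D : ℤ) - EO D = ∑ F ∈ S, (-1) ^ F.card ∧ (∅ ∉ S →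
      ∃ i, Eul (tri D (p i) (q i) (r i))) ∧ ∀ F ∈ S, F ⊆ D ∧ Eul F ∧ ∀ i,
      ¬ ((DF D F (p i) (q i) ∧ DF D F (q i) (r i) ∧ DF D F (r i) (p i)) ∨
        (DF D F (q i) (p i) ∧ DF D F (r i) (q i) ∧ DF D F (p i) (r i))) := by
  have ho : ∀ u v, G.Adj u v → o D u v ∈ D := fun u v h => by
    have := (hD.1 u v).1 h
    unfold o; grind
  refine ⟨_, invol D (fun i => tri D (p i) (q i) (r i)) (fun i => ?_) (fun i => ?_)
    fun i j h => ?_, fun h => ?_, fun F h => ?_⟩
  · simp [tri, insert_subset_iff, ho _ _ (ha i).1, ho _ _ (ha i).2.1, ho _ _ (ha i).2.2]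
  · have := tri_sum (D := D) (ha i).1.ne (ha i).2.1.ne (ha i).2.2.ne fun _ => 1
    simp only [sum_const, nsmul_eq_mul, mul_one] at this
    exact ⟨1, by omega⟩
  · have : ∀ i, ∀ a ∈ tri D (p i) (q i) (r i), c a.1 = e i := fun i a h => by
      have := hc i
      simp only [tri, o, mem_insert, mem_singleton] at h
      grind
    exact disjoint_left.2 fun a h1 h2 => h (he ((this i a h1).symm.trans (this j a h2)))
  · by_contra c
    refine h (mem_filter.2 ⟨mem_filter.2 ⟨by simp, by simp [Eul]⟩, fun ⟨i, e⟩ => c ⟨i, ?_⟩⟩)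
    rwa [← bot_eq_empty, bot_symmDiff] at e
  · obtain ⟨a, b⟩ := mem_filter.1 h
    obtain ⟨a, e⟩ := mem_filter.1 a
    exact ⟨mem_powerset.1 a, e, fun i f => b ⟨i, tri_eul hD (mem_powerset.1 a) e (ha i).1.ne
      (ha i).2.1.ne (ha i).2.2.ne f⟩⟩

omit [Fintype V] in
theorem df_cap (hD : IsOri G D) (hF : F ⊆ D) (he : Eul F) (v : V) (l : List V) (hl : l.Nodup) :
    (l.map fun u => if DF D F v u then 1 else 0).sum ≤ (D.filter fun a => a.1 = v).card := by
  rw [← List.sum_toFinset _ hl, ← card_filter]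
  calc _ ≤ (((D \ F).filter fun a => a.1 = v).image Prod.snd ∪
        (F.filter fun a => a.2 = v).image Prod.fst).card := card_le_card fun u h => by
        rcases (mem_filter.1 h).2 with h | h
        · exact mem_union_left _ (mem_image.2 ⟨(v, u), by simpa using h, rfl⟩)
        · exact mem_union_right _ (mem_image.2 ⟨(u, v), by simpa using h, rfl⟩)
    _ ≤ _ := (card_union_le _ _).trans ((add_le_add card_image_le card_image_le).trans (by
        rw [← he v, ← card_union_of_disjoint (disjoint_filter_filter sdiff_disjoint),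
          ← filter_union, sdiff_union_of_subset hF]))

omit [Fintype V] in
theorem df_adj (hD : IsOri G D) (hF : F ⊆ D) {u v : V} (h : G.Adj u v) :
    (if DF D F u v then 1 else 0) + (if DF D F v u then 1 else 0) = 1 := by
  have := (hD.1 u v).1 h
  have := hD.2 u v
  have := @hF (u, v)
  have := @hF (v, u)
  unfold DF; grind

theorem eul_pred (he : Eul F) (P : V → Prop) [DecidablePred P] :
    (F.filter fun a => P a.1).card = (F.filter fun a => P a.2).card := by
  rw [card_eq_sum_card_fiberwise (f := Prod.fst) (t := univ.filter P) fun a h => by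
    simpa using (mem_filter.1 h).2, card_eq_sum_card_fiberwise (f := Prod.snd) (t := univ.filter P)
    fun a h => by simpa using (mem_filter.1 h).2]
  refine sum_congr rfl fun v h => ?_
  have := (mem_filter.1 h).2
  rw [filter_filter, filter_filter]
  convert he v using 3 <;> grind

omit [Fintype V] in
theorem eul_out (he : Eul F) {u v : V} (h : (u, v) ∈ F) : ∃ x, (v, x) ∈ F := by
  obtain ⟨⟨a, b⟩, h⟩ := card_pos.1 ((card_pos.2 (⟨_, mem_filter.2 ⟨h, rfl⟩⟩ :
    (F.filter fun x => x.2 = v).Nonempty)).trans_eq (he v).symm)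
  obtain ⟨h1, h2⟩ := mem_filter.1 h
  exact ⟨b, h2 ▸ h1⟩

omit [Fintype V] in
theorem eul_in (he : Eul F) {u v : V} (h : (u, v) ∈ F) : ∃ x, (x, u) ∈ F := by
  obtain ⟨⟨a, b⟩, h⟩ := card_pos.1 ((card_pos.2 (⟨_, mem_filter.2 ⟨h, rfl⟩⟩ :
    (F.filter fun x => x.1 = u).Nonempty)).trans_eq (he u))
  obtain ⟨h1, h2⟩ := mem_filter.1 h
  exact ⟨a, h2 ▸ h1⟩

omit [Fintype V] in
theorem tf (hD : IsOri G D) (hF : F ⊆ D) (he : Eul F) {S Y K : V} (h1 : (S, Y) ∈ D)
    (h2 : (Y, K) ∈ D) (h3 : (S, K) ∈ D) (nc : ¬ ((DF D F S Y ∧ DF D F Y K ∧ DF D F K S) ∨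
      (DF D F Y S ∧ DF D F K Y ∧ DF D F S K))) (i : ∀ u, (u, Y) ∈ F → u = S)
    (j : ∀ u, (Y, u) ∈ F → u = K) (no : ∀ a b c d, (a, S) ∈ F → (b, S) ∈ F → (K, c) ∈ F →
      (K, d) ∈ F → a = b ∨ c = d) : (S, Y) ∉ F ∧ (Y, K) ∉ F ∧ (S, K) ∉ F := by
  have a : (S, Y) ∈ F ↔ (Y, K) ∈ F := ⟨fun h => (eul_out he h).elim fun u e => j u e ▸ e,
    fun h => (eul_in he h).elim fun u e => i u e ▸ e⟩
  have n1 := hD.2 _ _ h1
  have n2 := hD.2 _ _ h2
  have n3 := hD.2 _ _ h3
  have b : ¬ ((S, Y) ∈ F ∧ (Y, K) ∈ F ∧ (S, K) ∈ F) := fun ⟨x, y, z⟩ => by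
    obtain ⟨a, a1, b, b1, e⟩ := one_lt_card.1 (((one_lt_card (s := F.filter fun x => x.1 = S)).2
      ⟨_, mem_filter.2 ⟨x, rfl⟩, _, mem_filter.2 ⟨z, rfl⟩, by grind⟩).trans_eq (he S))
    obtain ⟨c, c1, d, d1, e'⟩ := one_lt_card.1 (((one_lt_card (s := F.filter fun x => x.2 = K)).2
      ⟨_, mem_filter.2 ⟨y, rfl⟩, _, mem_filter.2 ⟨z, rfl⟩, by grind⟩).trans_eq (he K).symm)
    rw [mem_filter] at a1 b1 c1 d1
    have := no a.1 b.1 c.2 d.2 (a1.2 ▸ a1.1) (b1.2 ▸ b1.1) (c1.2 ▸ c1.1) (d1.2 ▸ d1.1)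
    grind
  have := @hF (Y, S)
  have := @hF (K, Y)
  have := @hF (K, S)
  unfold DF at nc
  grind

omit [Fintype V] in
theorem tri_not (hD : IsOri G D) {S Y K : V} (h1 : (S, Y) ∈ D) (h2 : (Y, K) ∈ D)
    (h3 : (S, K) ∈ D) : ¬ Eul (tri D S Y K) := fun h => by
  have n1 := hD.2 _ _ h1
  have n2 := hD.2 _ _ h2
  have n3 := hD.2 _ _ h3
  have := eul_iff.1 h S
  rw [tri_sum (by grind) (by grind) (by grind)] at this
  simp only [o, w, h1, h2, n3, if_true, if_false] at this
  grind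

end

theorem at_le {N : ℕ} (G : SimpleGraph (Fin N)) (k : ℕ) : AT G ≤ k ↔
    ∃ D, IsOri G D ∧ EE D ≠ EO D ∧ ∀ v, (D.filter fun a => a.1 = v).card + 1 ≤ k := by
  classical
  refine ⟨fun h => ?_, fun h => Nat.sInf_le h⟩
  obtain ⟨D, a, b, c⟩ := Nat.sInf_mem (s := {k | ∃ D, IsOri G D ∧ EE D ≠ EO D ∧
      ∀ v, (D.filter fun a => a.1 = v).card + 1 ≤ k}) ⟨_, univ.filter fun a => G.Adj a.1 a.2 ∧
      a.1 < a.2, ⟨fun u v => by
        have : G.Adj u v → u ≠ v := G.ne_of_adj
        simp only [mem_filter, mem_univ, true_and, G.adj_comm v]; grind, by simp; grind⟩, by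
    have : ∀ F ⊆ univ.filter fun a : Fin N × Fin N => G.Adj a.1 a.2 ∧ a.1 < a.2, Eul F → F = ∅ :=
      fun F h e => by
        by_contra c
        obtain ⟨a, h1, h2⟩ := exists_min_image F Prod.fst (nonempty_iff_ne_empty.2 c)
        obtain ⟨b, h3⟩ := card_pos.1 ((card_pos.2 (⟨a, mem_filter.2 ⟨h1, rfl⟩⟩ :
          (F.filter fun x => x.1 = a.1).Nonempty)).trans_eq (e a.1))
        have := h2 b (mem_filter.1 h3).1
        have := (mem_filter.1 (h (mem_filter.1 h3).1)).2.2
        have := (mem_filter.1 h3).2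
        omega
    rw [show EO _ = 0 from card_eq_zero.2 (filter_eq_empty_iff.2 fun F h e => by
      simpa [this F (mem_powerset.1 h) e.1] using e.2)]
    exact card_ne_zero.2 ⟨∅, by simp [Eul]⟩,
    fun v => Nat.succ_le_succ (card_le_univ _)⟩
  exact ⟨D, a, b, fun v => (c v).trans h⟩

end Pool.Agent.H23.AT
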