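import Mathlib

set_option autoImplicit false

namespace Pool.Agent.H23.AT
open Finset

variable {V : Type} [Fintype V] [DecidableEq V]

/-- `D` is the arc set of an orientation of `G` -/
def IsOri (G : SimpleGraph V) (D : Finset (V × V)) : Prop :=
  (∀ u v, G.Adj u v ↔ (u, v) ∈ D ∨ (v, u) ∈ D) ∧ ∀ u v, (u, v) ∈ D → (v, u) ∉ D

/-- every vertex has equal out- and in-degree in the arc set `F` -/
def Eul (F : Finset (V × V)) : Prop :=
  ∀ v, (F.filter fun a => a.1 = v).card = (F.filter fun a => a.2 = v).card

instance : DecidablePred (Eul (V := V)) := fun F => by unfold Eul; infer_instance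

/-- number of even spanning Eulerian subgraphs -/
def EE (D : Finset (V × V)) : ℕ := (D.powerset.filter fun F => Eul F ∧ Even F.card).card

/-- number of odd spanning Eulerian subgraphs -/
def EO (D : Finset (V × V)) : ℕ := (D.powerset.filter fun F => Eul F ∧ Odd F.card).card

/-- the Alon-Tarsi number -/
noncomputable def AT (G : SimpleGraph V) : ℕ :=
  sInf {k | ∃ D, IsOri G D ∧ EE D ≠ EO D ∧ ∀ v, (D.filter fun a => a.1 = v).card + 1 ≤ k}

end Pool.Agent.H23.AT
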