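import Mathlib

set_option autoImplicit false

open Finset

namespace Pool.Agent.H23.Adic

variable {R : Type} [CommRing R] {d : ℕ} (b : Module.Basis (Fin d) ℤ R)

noncomputable def nm (x : R) : ℕ := univ.sup fun i => (b.repr x i).natAbs

variable {b}

theorem nm_le {x : R} {H : ℕ} : nm b x ≤ H ↔ ∀ i, (b.repr x i).natAbs ≤ H := by
  simp [nm]

theorem le_nm (x : R) (i : Fin d) : (b.repr x i).natAbs ≤ nm b x := nm_le.1 le_rfl i

theorem nm_pos {x : R} (h : x ≠ 0) : 1 ≤ nm b x := by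
  by_contra c
  refine h (b.repr.injective (Finsupp.ext fun i => ?_))
  have := le_nm (b := b) x i
  simp; omega

theorem nm_add (x y : R) : nm b (x + y) ≤ nm b x + nm b y := nm_le.2 fun i => by
  have := le_nm (b := b) x i
  have := le_nm (b := b) y i
  simp only [map_add, Finsupp.add_apply]; omega

theorem nm_smul_le (m : ℤ) (x : R) : nm b (m • x) ≤ m.natAbs * nm b x := nm_le.2 fun i => by
  simp only [map_smul, Finsupp.smul_apply, smul_eq_mul, Int.natAbs_mul]
  exact Nat.mul_le_mul_left _ (le_nm x i)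

theorem nm_of_smul {m : ℤ} (hm : m ≠ 0) {x : R} {H : ℕ} (h : nm b (m • x) ≤ m.natAbs * H) :
    nm b x ≤ H := nm_le.2 fun i => by
  have := nm_le.1 h i
  simp only [map_smul, Finsupp.smul_apply, smul_eq_mul, Int.natAbs_mul] at this
  exact Nat.le_of_mul_le_mul_left this (Int.natAbs_pos.2 hm)

theorem nm_sum {ι : Type} (s : Finset ι) (f : ι → R) :
    nm b (∑ i ∈ s, f i) ≤ ∑ i ∈ s, nm b (f i) := by
  classical
  induction s using Finset.induction_on with
  | empty => simp [nm]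
  | insert a s h ih => rw [sum_insert h, sum_insert h]; exact (nm_add _ _).trans (by omega)

theorem nm_mul (b : Module.Basis (Fin d) ℤ R) :
    ∃ c, 1 ≤ c ∧ ∀ x y, nm b (x * y) ≤ c * nm b x * nm b y := by
  refine ⟨∑ i, ∑ j, nm b (b i * b j) + 1, by omega, fun x y => ?_⟩
  conv_lhs => rw [← b.sum_repr x, ← b.sum_repr y, sum_mul_sum]
  refine (nm_sum _ _).trans (le_trans ?_ (Nat.mul_le_mul_right _ (Nat.mul_le_mul_right _
    (Nat.le_succ _))))
  rw [sum_mul, sum_mul]
  refine sum_le_sum fun i _ => (nm_sum _ _).trans ?_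
  rw [sum_mul, sum_mul]
  refine sum_le_sum fun j _ => ?_
  rw [smul_mul_smul_comm]
  refine (nm_smul_le _ _).trans ?_
  rw [Int.natAbs_mul, mul_comm, mul_assoc]
  exact Nat.mul_le_mul_left _ (Nat.mul_le_mul (le_nm x i) (le_nm y j))

theorem red (b : Module.Basis (Fin d) ℤ R) {m : ℤ} (hm : m ≠ 0) (x : R) :
    ∃ r, nm b (x - m • r) ≤ m.natAbs := by
  refine ⟨∑ i, (b.repr x i / m) • b i, nm_le.2 fun i => ?_⟩
  have e : b.repr (∑ i, (b.repr x i / m) • b i) i = b.repr x i / m :=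
    congrFun (b.repr_sum_self fun i => b.repr x i / m) i
  simp only [map_sub, map_smul, Finsupp.sub_apply, Finsupp.smul_apply, smul_eq_mul, e]
  rw [← Int.emod_def]
  have := Int.emod_nonneg (b.repr x i) hm
  have := Int.emod_lt_abs (b.repr x i) hm
  rw [Int.abs_eq_natAbs] at this
  omega

theorem box {F : Finset R} {ρ σ : ℕ} (hσ : 1 ≤ σ) (h1 : ∀ x ∈ F, nm b x ≤ ρ)
    (h2 : ∀ x ∈ F, ∀ y ∈ F, x ≠ y → σ ≤ nm b (x - y)) : F.card ≤ (2 * ρ / σ + 1) ^ d := by
  have : (Fintype.piFinset fun _ : Fin d => range (2 * ρ / σ + 1)).card = (2 * ρ / σ + 1) ^ d := by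
    simp
  rw [← this]
  refine card_le_card_of_injOn (fun x i => (b.repr x i + ρ).toNat / σ) (fun x hx => ?_)
    fun x hx y hy e => ?_
  · simp only [mem_coe, Fintype.mem_piFinset, mem_range]
    intro i
    have := nm_le.1 (h1 x hx) i
    exact Nat.lt_succ_of_le (Nat.div_le_div_right (by omega))
  · by_contra c
    refine absurd (h2 x hx y hy c) (not_le.2 (Nat.lt_of_le_pred hσ (nm_le.2 fun i => ?_)))
    have e := congrFun e i
    have a1 := nm_le.1 (h1 x hx) i
    have a2 := nm_le.1 (h1 y hy) i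
    have a3 := Nat.div_add_mod (b.repr x i + ρ).toNat σ
    have a4 := Nat.div_add_mod (b.repr y i + ρ).toNat σ
    have a5 := Nat.mod_lt (b.repr x i + ρ).toNat hσ
    have a6 := Nat.mod_lt (b.repr y i + ρ).toNat hσ
    simp only at e
    rw [e] at a3
    simp only [map_sub, Finsupp.sub_apply, Nat.pred_eq_sub_one]
    omega

theorem box1 {F : Finset R} {ρ : ℕ} (h1 : ∀ x ∈ F, nm b x ≤ ρ) : F.card ≤ (2 * ρ + 1) ^ d := by
  simpa using box le_rfl h1 fun x _ y _ h => nm_pos (sub_ne_zero.2 h)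

theorem fin_ball (b : Module.Basis (Fin d) ℤ R) (ρ : ℕ) :
    ∃ F : Finset R, ∀ x, x ∈ F ↔ nm b x ≤ ρ := by
  have : {x | nm b x ≤ ρ}.Finite := by
    by_contra h
    obtain ⟨F, F1, F2⟩ := Set.Infinite.exists_subset_card_eq h ((2 * ρ + 1) ^ d + 1)
    have := box1 (b := b) (F := F) fun x hx => F1 hx
    omega
  exact ⟨this.toFinset, by simp⟩

variable [IsDomain R]

theorem exists_mul (b : Module.Basis (Fin d) ℤ R) {g : R} (hg : g ≠ 0) :
    ∃ (m : ℤ) (h : R), m ≠ 0 ∧ (m : R) = g * h := by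
  have := Module.Finite.of_basis b
  obtain ⟨c, m, h1, h2⟩ := Algebra.IsAlgebraic.exists_smul_eq_mul ℤ (1 : R) hg
  exact ⟨m, c, h1, by simpa using h2⟩

theorem incong {c : ℕ} (hc : ∀ x y, nm b (x * y) ≤ c * nm b x * nm b y) {g : R} (hg : g ≠ 0)
    {ι : Type} {F : Finset ι} (t : ι → R) (h : ∀ i ∈ F, ∀ j ∈ F, g ∣ t i - t j → i = j) :
    F.card ≤ (2 * (c * nm b g) + 1) ^ d := by
  classical
  obtain ⟨m, u, h1, h2⟩ := exists_mul b hg
  have : ∀ x, ∃ r, nm b (x - r * g) ≤ c * nm b g := fun x => by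
    obtain ⟨r, hr⟩ := red b h1 (x * u)
    refine ⟨r, nm_of_smul h1 ?_⟩
    have : m • (x - r * g) = (x * u - m • r) * g := by
      simp only [zsmul_eq_mul, h2]; ring
    rw [this]
    refine (hc _ _).trans ?_
    rw [mul_comm m.natAbs, mul_right_comm]
    exact Nat.mul_le_mul_left _ hr
  choose r hr using this
  rw [← card_image_of_injOn (f := fun i => t i - r (t i) * g) fun i hi j hj e =>
    h i hi j hj ⟨r (t i) - r (t j), by linear_combination e⟩]
  exact box1 fun x hx => by obtain ⟨i, -, rfl⟩ := mem_image.1 hx; exact hr _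

section
variable {ι : Type} [Fintype ι] {q : R} {A : ι → R}

open Classical in
theorem short (hq : q ≠ 0) (hi : ∀ i j, q ∣ A i - A j → i = j) (hs : ∀ x, ∃ i, q ∣ x - A i) {c : ℕ}
    (c1 : 1 ≤ c) (hc : ∀ x y, nm b (x * y) ≤ c * nm b x * nm b y) {g : R} (hg : g ≠ 0) {ρ : ℕ}
    (hρ : nm b g ≤ ρ) :
    (univ.filter fun a => ∃ f, nm b f ≤ ρ ∧ q ∣ g * A a - f).card ≤ (9 * c * ρ) ^ d := by
  obtain ⟨F, hF⟩ := fin_ball b ρ
  have ex : ∃ σ, ∃ u w, u * g + w * q ≠ 0 ∧ nm b (u * g + w * q) = σ := ⟨_, 1, 0, by simpa, rfl⟩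
  obtain ⟨u, w, x0, hx⟩ := Nat.find_spec ex
  have mn : ∀ u w, u * g + w * q ≠ 0 → Nat.find ex ≤ nm b (u * g + w * q) :=
    fun u w h => Nat.find_min' ex ⟨u, w, h, rfl⟩
  set σ := Nat.find ex
  have s1 : 1 ≤ σ := hx ▸ nm_pos x0
  have s2 : σ ≤ ρ := by simpa using (mn 1 0 (by simpa)).trans (by simpa using hρ)
  have hK : (univ.filter fun a => q ∣ g * A a).card ≤ (2 * (c * σ) + 1) ^ d := by
    have : ∀ a, ∃ s, q ∣ g * A a → g * A a = q * s := fun a => by
      by_cases h : q ∣ g * A a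
      · exact ⟨h.choose, fun _ => h.choose_spec⟩
      · exact ⟨0, fun e => absurd e h⟩
    choose s hs using this
    rw [← hx]
    refine incong hc x0 (fun a => u * s a + w * A a) ?_
    rintro i h1 j h2 ⟨r, hr⟩
    have e1 := hs i (mem_filter.1 h1).2
    have e2 := hs j (mem_filter.1 h2).2
    refine hi i j ⟨r, mul_left_cancel₀ x0 ?_⟩
    linear_combination u * e1 - u * e2 + q * hr
  have hFs : (F.filter fun f => ∃ a, q ∣ g * A a - f).card ≤ (2 * ρ / σ + 1) ^ d :=
    box s1 (fun x h => (hF x).1 (mem_filter.1 h).1) fun x h1 y h2 h => by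
      obtain ⟨i, r, hr⟩ := (mem_filter.1 h1).2
      obtain ⟨j, s, hs⟩ := (mem_filter.1 h2).2
      have : x - y = (A i - A j) * g + (s - r) * q := by linear_combination hs - hr
      rw [this]
      exact mn _ _ (this ▸ sub_ne_zero.2 h)
  calc _ ≤ ((F.filter fun f => ∃ a, q ∣ g * A a - f).biUnion fun f =>
        univ.filter fun a => q ∣ g * A a - f).card := card_le_card fun a h => by
        obtain ⟨f, f1, f2⟩ := (mem_filter.1 h).2
        exact mem_biUnion.2 ⟨f, mem_filter.2 ⟨(hF f).2 f1, a, f2⟩, mem_filter.2 ⟨mem_univ _, f2⟩⟩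
    _ ≤ _ * (2 * (c * σ) + 1) ^ d := card_biUnion_le_card_mul _ _ _ fun f h => by
        obtain ⟨a0, h0⟩ := (mem_filter.1 h).2
        choose t ht using hs
        refine le_trans (card_le_card_of_injOn (fun a => t (A a - A a0)) (fun a ha => ?_)
          fun i _ j _ e => hi i j ?_) hK
        · have := (mem_filter.1 ha).2
          simp only [coe_filter, mem_univ, true_and, Set.mem_ofPred_eq]
          have e := (dvd_sub this h0).sub ((ht (A a - A a0)).mul_left g)
          convert e using 1; ring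
        · have := (ht (A i - A a0)).sub (ht (A j - A a0))
          simp only at e
          rw [e] at this
          convert this using 1; ring
    _ ≤ (2 * ρ / σ + 1) ^ d * (2 * (c * σ) + 1) ^ d := Nat.mul_le_mul_right _ hFs
    _ ≤ _ := by
        rw [← mul_pow]
        refine Nat.pow_le_pow_left ?_ _
        have := Nat.div_mul_le_self (2 * ρ) σ
        have h1 : (2 * ρ / σ + 1) * σ ≤ 3 * ρ := by nlinarith
        have h2 : 2 * (c * σ) + 1 ≤ 3 * c * σ := by nlinarith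
        calc _ ≤ (2 * ρ / σ + 1) * (3 * c * σ) := Nat.mul_le_mul_left _ h2
          _ = 3 * c * ((2 * ρ / σ + 1) * σ) := by ring
          _ ≤ 3 * c * (3 * ρ) := Nat.mul_le_mul_left _ h1
          _ = _ := by ring

open Classical in
theorem short_all (hq : q ≠ 0) (hi : ∀ i j, q ∣ A i - A j → i = j) (hs : ∀ x, ∃ i, q ∣ x - A i)
    {c : ℕ} (c1 : 1 ≤ c) (hc : ∀ x y, nm b (x * y) ≤ c * nm b x * nm b y) (ρ : ℕ) :
    (univ.filter fun a => ∃ f g, (f, g) ≠ 0 ∧ nm b f ≤ ρ ∧ nm b g ≤ ρ ∧ q ∣ g * A a - f).card ≤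
      (27 * c) ^ d * ρ ^ (2 * d) := by
  by_cases r0 : ρ = 0
  · rw [filter_eq_empty_iff.2, card_empty]
    · exact Nat.zero_le _
    rintro a - ⟨f, g, h, h1, h2, -⟩
    refine h (Prod.ext ?_ ?_) <;> by_contra e
    · have := nm_pos (b := b) e; simp only at this; omega
    · have := nm_pos (b := b) e; simp only at this; omega
  have r1 : 1 ≤ ρ := by omega
  have e : (27 * c) ^ d * ρ ^ (2 * d) = (3 * ρ) ^ d * (9 * c * ρ) ^ d := by
    rw [pow_mul, ← mul_pow, ← mul_pow]; congr 1; ring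
  by_cases z : ∃ f, f ≠ 0 ∧ nm b f ≤ ρ ∧ q ∣ f
  · obtain ⟨f, f1, f2, f3⟩ := z
    refine (card_filter_le _ _).trans ((incong hc f1 A fun i _ j _ h =>
      hi i j (f3.trans h)).trans ?_)
    rw [e, ← mul_pow]
    have := Nat.mul_le_mul_left c f2
    exact Nat.pow_le_pow_left (by nlinarith [Nat.mul_le_mul c1 r1]) _
  obtain ⟨F, hF⟩ := fin_ball b ρ
  calc _ ≤ ((F.erase 0).biUnion fun g =>
        univ.filter fun a => ∃ f, nm b f ≤ ρ ∧ q ∣ g * A a - f).card := card_le_card fun a h => by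
        obtain ⟨f, g, f1, f2, f3, f4⟩ := (mem_filter.1 h).2
        refine mem_biUnion.2 ⟨g, mem_erase.2 ⟨?_, (hF g).2 f3⟩,
          mem_filter.2 ⟨mem_univ _, f, f2, f4⟩⟩
        rintro rfl
        exact z ⟨f, by simpa using f1, f2, by simpa using f4⟩
    _ ≤ _ * (9 * c * ρ) ^ d := card_biUnion_le_card_mul _ _ _ fun g h =>
        short hq hi hs c1 hc (mem_erase.1 h).1 ((hF g).1 (mem_erase.1 h).2)
    _ ≤ _ := by
        rw [e]
        exact Nat.mul_le_mul_right _ ((box1 fun x h => (hF x).1 (mem_erase.1 h).2).trans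
          (Nat.pow_le_pow_left (by omega) _))

theorem good {c : ℕ} (hc : ∀ x y, nm b (x * y) ≤ c * nm b x * nm b y) {a : R} {N H : ℕ}
    (hN : N ≠ 0) {f1 g1 f2 g2 : R} (h1 : q ∣ g1 * a - f1) (h2 : q ∣ g2 * a - f2)
    (hd : f1 * g2 - g1 * f2 ≠ 0) (n1 : nm b f1 ≤ H) (n2 : nm b g1 ≤ H) (n3 : nm b f2 ≤ H)
    (n4 : nm b g2 ≤ H) : ∃ f g, (N : R) ∣ g - 1 ∧ q ∣ g * a - f ∧ nm b f ≤ 2 * c * N * H ∧
      nm b g ≤ 2 * c * N * H := by
  obtain ⟨m, u, m0, hm⟩ := exists_mul b hd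
  have mN : m * N ≠ 0 := mul_ne_zero m0 (by exact_mod_cast hN)
  obtain ⟨r, hr⟩ := red b mN (u * (a * g2 - f2))
  obtain ⟨s, hs⟩ := red b mN (u * (f1 - a * g1))
  have key : ∀ x y z : R, nm b x ≤ H → nm b y ≤ H →
      m • z = (u * (a * g2 - f2) - (m * N) • r) * x + (u * (f1 - a * g1) - (m * N) • s) * y →
      nm b z ≤ 2 * c * N * H := fun x y z hx hy e => by
    refine nm_of_smul m0 (e ▸ (nm_add _ _).trans ?_)
    rw [Int.natAbs_mul, Int.natAbs_natCast] at hr hs
    have a1 := (hc _ x).trans (Nat.mul_le_mul (Nat.mul_le_mul_left c hr) hx)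
    have a2 := (hc _ y).trans (Nat.mul_le_mul (Nat.mul_le_mul_left c hs) hy)
    exact (add_le_add a1 a2).trans (le_of_eq (by ring))
  refine ⟨a - N * (r * f1 + s * f2), 1 - N * (r * g1 + s * g2), ⟨-(r * g1 + s * g2), by ring⟩, ?_,
    key f1 f2 _ n1 n3 ?_, key g1 g2 _ n2 n4 ?_⟩
  · have := ((h1.mul_left r).add (h2.mul_left s)).mul_left (-N : R)
    convert this using 1; ring
  · simp only [zsmul_eq_mul, Int.cast_mul, Int.cast_natCast, hm]; ring
  · simp only [zsmul_eq_mul, Int.cast_mul, Int.cast_natCast, hm]; ring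

theorem dich (hq : q ≠ 0) (hs : ∀ x, ∃ i, q ∣ x - A i) (a : R) {k H : ℕ} (hk : 1 ≤ k)
    (h : k ^ d * Fintype.card ι < (H + 1) ^ (2 * d)) :
    (∃ f1 g1 f2 g2, q ∣ g1 * a - f1 ∧ q ∣ g2 * a - f2 ∧ f1 * g2 - g1 * f2 ≠ 0 ∧ nm b f1 ≤ H ∧
      nm b g1 ≤ H ∧ nm b f2 ≤ H ∧ nm b g2 ≤ H) ∨
    ∃ f g, (f, g) ≠ 0 ∧ nm b f ≤ H / k ∧ nm b g ≤ H / k ∧ q ∣ g * a - f := by
  classical
  choose t ht using hs
  let e : (Fin d → Fin (H + 1)) → R := fun u => b.equivFun.symm fun i => u i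
  have er : ∀ u i, b.repr (e u) i = u i := fun u i => by
    simp only [e]; rw [← b.equivFun_apply, LinearEquiv.apply_symm_apply]
  have en : ∀ u v, nm b (e u - e v) ≤ H := fun u v => nm_le.2 fun i => by
    have := (u i).2
    have := (v i).2
    simp only [map_sub, Finsupp.sub_apply, er]; omega
  have ei : ∀ u v, e u = e v → u = v := fun u v h => funext fun i => Fin.ext (by
    have := er u i; rw [h, er] at this; omega)
  obtain ⟨j, hj⟩ := Fintype.exists_lt_card_fiber_of_mul_lt_card (n := k ^ d)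
    (fun p : (Fin d → Fin (H + 1)) × (Fin d → Fin (H + 1)) => t (e p.2 * a - e p.1))
    (by rw [two_mul, pow_add, mul_comm] at h; simpa using h)
  set P := univ.filter fun p : (Fin d → Fin (H + 1)) × (Fin d → Fin (H + 1)) =>
    t (e p.2 * a - e p.1) = j
  have mem : ∀ p ∈ P, ∀ p' ∈ P, q ∣ (e p.2 - e p'.2) * a - (e p.1 - e p'.1) := fun p h p' h' => by
    have a1 := ht (e p.2 * a - e p.1)
    have a2 := ht (e p'.2 * a - e p'.1)
    rw [(mem_filter.1 h).2] at a1
    rw [(mem_filter.1 h').2] at a2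
    convert a1.sub a2 using 1; ring
  obtain ⟨p0, h0, p1, h1, ne⟩ := one_lt_card.1 ((Nat.one_le_pow _ _ hk).trans_lt hj)
  refine or_iff_not_imp_left.2 fun hh => ?_
  have dep : ∀ p ∈ P, (e p1.1 - e p0.1) * (e p.2 - e p0.2) -
      (e p1.2 - e p0.2) * (e p.1 - e p0.1) = 0 := fun p hp => by
    by_contra c
    exact hh ⟨_, _, _, _, mem p1 h1 p0 h0, mem p hp p0 h0, c, en _ _, en _ _, en _ _, en _ _⟩
  set f1 := e p1.1 - e p0.1 with hf1
  set g1 := e p1.2 - e p0.2 with hg1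
  let L : Submodule ℤ (R × R) :=
    { carrier := {v | q ∣ v.2 * a - v.1 ∧ f1 * v.2 - g1 * v.1 = 0}
      add_mem' := fun {x y} hx hy => ⟨by
        convert hx.1.add hy.1 using 1; simp; ring, by
        simp only [Prod.fst_add, Prod.snd_add]; linear_combination hx.2 + hy.2⟩
      zero_mem' := by simp
      smul_mem' := fun m x hx => ⟨by
        convert hx.1.mul_left m using 1; simp; ring, by
        rw [Prod.smul_fst, Prod.smul_snd, zsmul_eq_mul, zsmul_eq_mul]
        linear_combination (m : R) * hx.2⟩ }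
  have := Module.Finite.of_basis b
  have := Module.Free.of_basis b
  have rk : Module.finrank ℤ L ≤ d := by
    have fr : Module.finrank ℤ R = d := by simpa using Module.finrank_eq_card_basis b
    rw [← fr]
    by_cases z : f1 = 0
    · have z' : g1 ≠ 0 := fun z' => ne (Prod.ext (ei _ _ (sub_eq_zero.1 z)).symm
        (ei _ _ (sub_eq_zero.1 z')).symm)
      refine LinearMap.finrank_le_finrank_of_injective (f := (LinearMap.snd ℤ R R).comp L.subtype)
        ((injective_iff_map_eq_zero _).2 fun v hv => Subtype.ext (Prod.ext ?_ hv))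
      simpa [z, z'] using v.2.2
    · refine LinearMap.finrank_le_finrank_of_injective (f := (LinearMap.fst ℤ R R).comp L.subtype)
        ((injective_iff_map_eq_zero _).2 fun v hv => Subtype.ext (Prod.ext hv ?_))
      have hv : v.1.1 = 0 := hv
      simpa [z, hv] using v.2.2
  let β := Module.finBasis ℤ L
  let w : P → L := fun p => ⟨(e p.1.1 - e p0.1, e p.1.2 - e p0.2), mem _ p.2 _ h0, dep _ p.2⟩
  haveI : NeZero k := ⟨by omega⟩
  obtain ⟨x, y, xy, hxy⟩ := Fintype.exists_ne_map_eq_of_card_lt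
    (fun (p : P) i => ((β.repr (w p) i : ℤ) : ZMod k)) (by
      simp only [Fintype.card_pi, ZMod.card, prod_const, card_univ, Fintype.card_fin,
        Fintype.card_coe]
      exact (Nat.pow_le_pow_right hk rk).trans_lt hj)
  have dv : ∀ i, (k : ℤ) ∣ β.repr (w x) i - β.repr (w y) i := fun i =>
    (ZMod.intCast_eq_intCast_iff_dvd_sub _ _ _).1 (congrFun hxy i).symm
  choose z hz using dv
  have kv : (k : ℤ) • β.equivFun.symm z = w x - w y := β.equivFun.injective (by
    rw [map_smul, LinearEquiv.apply_symm_apply]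
    funext i
    simp [β.equivFun_apply, hz])
  set v := β.equivFun.symm z
  have k1 : (k : ℤ) • v.1.1 = e x.1.1 - e y.1.1 := by
    simpa [w] using congrArg (fun u : L => u.1.1) kv
  have k2 : (k : ℤ) • v.1.2 = e x.1.2 - e y.1.2 := by
    simpa [w] using congrArg (fun u : L => u.1.2) kv
  have sm : ∀ u : R, nm b ((k : ℤ) • u) ≤ H → nm b u ≤ H / k := fun u h => nm_le.2 fun i => by
    have := nm_le.1 h i
    simp only [map_smul, Finsupp.smul_apply, smul_eq_mul, Int.natAbs_mul,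
      Int.natAbs_natCast] at this
    exact (Nat.le_div_iff_mul_le hk).2 (by rwa [mul_comm])
  refine ⟨v.1.1, v.1.2, fun c => xy (Subtype.ext (Prod.ext (ei _ _ ?_) (ei _ _ ?_))),
    sm _ (k1 ▸ en _ _), sm _ (k2 ▸ en _ _), v.2.1⟩
  · rw [← sub_eq_zero, ← k1, show v.1.1 = 0 from congrArg Prod.fst c, smul_zero]
  · rw [← sub_eq_zero, ← k2, show v.1.2 = 0 from congrArg Prod.snd c, smul_zero]

end

end Pool.Agent.H23.Adic
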