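import Pool.Agent.H23.Adic

set_option autoImplicit false

open Finset

namespace Pool.Agent.H23.Adic

open Classical in
theorem tail {ι : Type} [Fintype ι] (Y : ι → ℝ) (C : ℕ)
    (h : ∀ s : ℕ, (univ.filter fun a => (s : ℝ) < Y a).card * 2 ^ s ≤ C * Fintype.card ι) :
    ∑ a, Y a ≤ 2 * C * Fintype.card ι := by
  set S := univ.sup fun a => ⌈Y a⌉₊
  calc ∑ a, Y a ≤ ∑ a, ∑ s ∈ range S, if (s : ℝ) < Y a then (1 : ℝ) else 0 := by
        refine sum_le_sum fun a _ => (Nat.le_ceil _).trans ?_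
        rw [← sum_filter, sum_const, nsmul_eq_mul, mul_one, Nat.cast_le]
        refine le_trans (card_range _).ge (card_le_card fun s hs => ?_)
        have := mem_range.1 hs
        exact mem_filter.2 ⟨mem_range.2 (this.trans_le (le_sup (f := fun a => ⌈Y a⌉₊)
          (mem_univ a))), Nat.lt_ceil.1 this⟩
    _ = ∑ s ∈ range S, ((univ.filter fun a => (s : ℝ) < Y a).card : ℝ) := by
        rw [sum_comm]; simp
    _ ≤ ∑ s ∈ range S, (C * Fintype.card ι : ℝ) * (1 / 2) ^ s := sum_le_sum fun s _ => by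
        rw [one_div, inv_pow, ← div_eq_mul_inv, le_div_iff₀ (by positivity)]
        exact_mod_cast h s
    _ ≤ _ := by
        rw [← mul_sum]
        have := sum_geometric_two_le S
        have h2 : (0 : ℝ) ≤ C * Fintype.card ι := by positivity
        nlinarith

theorem lg_mono {N m k : ℕ} (hN : 2 ≤ N) (h : m ≤ k) : Real.logb N m ≤ Real.logb N k := by
  have h1 : (1 : ℝ) < N := by exact_mod_cast hN
  rcases m.eq_zero_or_pos with rfl | hm
  · rcases k.eq_zero_or_pos with rfl | hk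
    · rfl
    · simpa using Real.logb_nonneg h1 (x := k) (by exact_mod_cast hk)
  · exact Real.logb_le_logb_of_le h1 (by exact_mod_cast hm) (by exact_mod_cast h)

theorem lg_pow {N : ℕ} (hN : 2 ≤ N) (t : ℕ) : Real.logb N (N ^ t : ℕ) = t := by
  have h1 : (1 : ℝ) < N := by exact_mod_cast hN
  simp [Real.logb_pow, Real.logb_self_eq_one h1]

variable {R : Type} [CommRing R] [IsDomain R] {d : ℕ}

theorem avg (b : Module.Basis (Fin d) ℤ R) (hd : 1 ≤ d) : ∃ C : ℝ, ∀ (N n : ℕ) (ι : Type)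
    [Fintype ι] (q : R) (A : ι → R) (X : ι → ℝ) (K : ℝ), 2 ≤ N → Fintype.card ι = N ^ n → q ≠ 0 →
    (∀ i j, q ∣ A i - A j → i = j) → (∀ x, ∃ i, q ∣ x - A i) →
    (∀ a, ∃ f g, g ≠ 0 ∧ IsCoprime q g ∧ q ∣ g * A a - f ∧
      d * Real.logb N (max (nm b f) (nm b g) : ℕ) ≤ X a + K) →
    (∀ a f g, (N : R) ∣ g - 1 → q ∣ g * A a - f →
      X a ≤ d * Real.logb N (max (nm b f) (nm b g) : ℕ) + K) →
    |(∑ a, X a) / N ^ n - n / 2| ≤ C + K := by
  classical
  obtain ⟨c, c1, hc⟩ := nm_mul b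
  refine ⟨9 ^ d + d * (2 * c + 1) + d * (27 * c) ^ d, ?_⟩
  intro N n ι _ q A X K hN hι hq hi hs lo up
  have N0 : (0 : ℝ) < (N : ℝ) ^ n := by positivity
  have d0 : (0 : ℝ) < d := by exact_mod_cast hd
  have t1 := tail (fun a => n - 2 * (X a + K)) (9 ^ d) fun s => by
    choose f g g0 gc gd hl using lo
    set F := univ.filter fun a => (s : ℝ) < n - 2 * (X a + K)
    rcases F.eq_empty_or_nonempty with h | h
    · simp [h]
    obtain ⟨a, ha, hm⟩ := exists_max_image F (fun a => max (nm b (f a)) (nm b (g a))) h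
    set H := max (nm b (f a)) (nm b (g a))
    have H1 : 1 ≤ H := (nm_pos (g0 a)).trans (le_max_right _ _)
    have h1 : H ^ (2 * d) * N ^ s ≤ N ^ n := by
      by_contra c
      have := lg_mono hN (not_le.1 c).le
      rw [lg_pow hN, Nat.cast_mul, Real.logb_mul (by positivity) (by positivity), lg_pow hN,
        Nat.cast_pow, Real.logb_pow] at this
      have h2 := (mem_filter.1 ha).2
      have h3 := hl a
      push_cast at this
      linarith
    obtain ⟨B, hB⟩ := fin_ball b H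
    have h2 : F.card ≤ (B ×ˢ B).card := card_le_card_of_injOn (fun a => (f a, g a))
      (fun x hx => by
        have := hm x hx
        simp only [coe_product, Set.mem_prod, mem_coe, hB]
        omega)
      fun x _ y _ e => hi x y ((gc x).dvd_of_dvd_mul_left (by
        have := (gd x).sub (gd y)
        rw [← (Prod.mk.inj e).1, ← (Prod.mk.inj e).2] at this
        convert this using 1; ring))
    have h3 : B.card ≤ (3 * H) ^ d :=
      (box1 fun x hx => (hB x).1 hx).trans (Nat.pow_le_pow_left (by omega) _)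
    rw [card_product] at h2
    calc _ ≤ (3 * H) ^ d * (3 * H) ^ d * N ^ s :=
          Nat.mul_le_mul (h2.trans (Nat.mul_le_mul h3 h3)) (Nat.pow_le_pow_left hN _)
      _ = 9 ^ d * (H ^ (2 * d) * N ^ s) := by
          rw [pow_mul, ← mul_pow, ← mul_assoc (9 ^ d), ← mul_pow]; congr 2; ring
      _ ≤ _ := by rw [hι]; exact Nat.mul_le_mul_left _ h1
  have t2 := tail (fun a => (2 * (X a - K) - n - 2 * d * (2 * c + 1)) / d) ((27 * c) ^ d) fun s => by
    have ex : ∃ H, (2 ^ s) ^ d * Fintype.card ι < (H + 1) ^ (2 * d) :=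
      ⟨_, (Nat.lt_succ_self _).trans_le (Nat.le_self_pow (by omega) _)⟩
    have h1 := Nat.find_spec ex
    have h2 : Nat.find ex ^ (2 * d) ≤ (2 ^ s) ^ d * Fintype.card ι := by
      rcases e : Nat.find ex with _ | H
      · rw [zero_pow (by omega)]; exact Nat.zero_le _
      · exact not_lt.1 (Nat.find_min ex (m := H) (by omega))
    set H := Nat.find ex
    have h3 := short_all hq hi hs c1 hc (H / 2 ^ s)
    refine le_trans (Nat.mul_le_mul_right _ ((card_le_card fun a ha => ?_).trans h3)) ?_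
    · refine mem_filter.2 ⟨mem_univ _, (dich hq hs (A a) Nat.one_le_two_pow h1).resolve_left ?_⟩
      rintro ⟨f1, g1, f2, g2, a1, a2, a3, a4, a5, a6, a7⟩
      obtain ⟨f, g, b1, b2, b3, b4⟩ := good hc (N := N) (by omega) a1 a2 a3 a4 a5 a6 a7
      have e1 := up a f g b1 b2
      have e2 := (mem_filter.1 ha).2
      rw [lt_div_iff₀ d0] at e2
      have e3 : (max (nm b f) (nm b g)) ^ (2 * d) ≤ N ^ (2 * d * (2 * c + 1) + s * d + n) := by
        calc _ ≤ (N ^ (2 * c) * N * H) ^ (2 * d) := Nat.pow_le_pow_left ((max_le b3 b4).trans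
              (Nat.mul_le_mul_right _ (Nat.mul_le_mul_right _
                (Nat.lt_pow_self (by omega)).le))) _
          _ = N ^ (2 * d * (2 * c + 1)) * H ^ (2 * d) := by
              rw [mul_pow, ← pow_succ, ← pow_mul, mul_comm (2 * d)]
          _ ≤ N ^ (2 * d * (2 * c + 1)) * ((N ^ s) ^ d * N ^ n) :=
              Nat.mul_le_mul_left _ (h2.trans (by
                rw [hι]
                exact Nat.mul_le_mul_right _ (Nat.pow_le_pow_left (Nat.pow_le_pow_left hN _) _)))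
          _ = _ := by ring
      have := lg_mono hN e3
      rw [lg_pow hN, Nat.cast_pow, Real.logb_pow] at this
      push_cast at this e1
      linarith
    · rw [mul_assoc]
      refine Nat.mul_le_mul_left _ (Nat.le_of_mul_le_mul_left ?_ (pow_pos (Nat.two_pow_pos s) d))
      refine le_trans ?_ h2
      calc _ ≤ (2 ^ s) ^ d * ((H / 2 ^ s) ^ (2 * d) * (2 ^ s) ^ d) :=
            Nat.mul_le_mul_left _ (Nat.mul_le_mul_left _ (Nat.le_self_pow (by omega) _))
        _ = (H / 2 ^ s * 2 ^ s) ^ (2 * d) := by ring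
        _ ≤ _ := Nat.pow_le_pow_left (Nat.div_mul_le_self _ _) _
  rw [hι] at t1 t2
  rw [← sum_div, div_le_iff₀ d0] at t2
  simp only [sum_sub_distrib, sum_add_distrib, ← mul_sum, sum_const, card_univ, hι, nsmul_eq_mul] at t1 t2
  push_cast at t1 t2
  have p1 : (0 : ℝ) ≤ 9 ^ d := by positivity
  have p2 : (0 : ℝ) ≤ d * (2 * c + 1) := by positivity
  have p3 : (0 : ℝ) ≤ d * (27 * c) ^ d := by positivity
  rw [abs_le, le_sub_iff_add_le, sub_le_iff_le_add, le_div_iff₀ N0, div_le_iff₀ N0]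
  constructor <;> nlinarith [mul_nonneg p1 N0.le, mul_nonneg p2 N0.le, mul_nonneg p3 N0.le]

def val (π : R) (s : ℕ → ℕ) (m : ℕ) : R := ∑ i ∈ range m, s i * π ^ i

section
variable {π : R} {N : ℕ}

theorem val_inj (h0 : π ≠ 0) (hd : ∀ r s : ℕ, r < N → s < N → π ∣ r - s → r = s) {s t : ℕ → ℕ}
    {m : ℕ} (hs : ∀ i < m, s i < N) (ht : ∀ i < m, t i < N) (h : π ^ m ∣ val π s m - val π t m) :
    ∀ i < m, s i = t i := by
  induction m with
  | zero => simp
  | succ m ih =>
    simp only [val, sum_range_succ] at h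
    have h1 := ih (fun i h => hs i (by omega)) (fun i h => ht i (by omega)) (by
      have := ((pow_dvd_pow π m.le_succ).trans h).sub (dvd_mul_left (π ^ m) (s m - t m))
      convert this using 1; simp only [val]; ring)
    rw [sum_congr rfl fun i hi => by rw [h1 i (mem_range.1 hi)]] at h
    have : π ∣ s m - t m := by
      rw [← mul_dvd_mul_iff_left (pow_ne_zero m h0), ← pow_succ]
      convert h using 1; ring
    intro i hi
    rcases Nat.lt_succ_iff_lt_or_eq.1 hi with h | rfl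
    · exact h1 i h
    · exact hd _ _ (hs _ hi) (ht _ hi) this

omit [IsDomain R] in
theorem val_ext (hc : ∀ x, ∃ r < N, π ∣ x - r) {g : R} (hg : ∃ h, π ∣ g * h - 1) (f : R) :
    ∃ s : ℕ → ℕ, (∀ i, s i < N) ∧ ∀ m, π ^ m ∣ g * val π s m - f := by
  obtain ⟨h, hh⟩ := hg
  have : ∀ x, ∃ r < N, ∃ y, x - g * r = π * y := fun x => by
    obtain ⟨r, r1, r2⟩ := hc (h * x)
    refine ⟨r, r1, ?_⟩
    have := (r2.mul_left g).sub (hh.mul_left x)
    show π ∣ _
    convert this using 1; ring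
  choose r r1 y hy using this
  refine ⟨fun i => r (y^[i] f), fun i => r1 _, fun m => ⟨-y^[m] f, ?_⟩⟩
  induction m with
  | zero => simp [val]
  | succ m ih =>
    simp only [val, sum_range_succ, Function.iterate_succ_apply'] at ih ⊢
    linear_combination ih - π ^ m * hy (y^[m] f)

def ex {n : ℕ} (a : Fin n → Fin N) (i : ℕ) : ℕ := if h : i < n then a ⟨i, h⟩ else 0

omit [IsDomain R] in
theorem val_eq {n : ℕ} {a : Fin n → Fin N} {s : ℕ → ℕ} (h : ∀ i : Fin n, s i = a i) :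
    val π s n = val π (ex a) n :=
  sum_congr rfl fun i hi => by rw [ex, dif_pos (mem_range.1 hi), ← h]

theorem ex_lt {n : ℕ} (a : Fin n → Fin N) : ∀ i < n, ex a i < N := fun i h => by
  rw [ex, dif_pos h]; exact (a _).2

omit [IsDomain R] in
theorem cop {g : R} (hg : ∃ h, π ∣ g * h - 1) (n : ℕ) : IsCoprime (π ^ n) g := by
  obtain ⟨h, u, e⟩ := hg
  exact IsCoprime.pow_left ⟨-u, h, by linear_combination e⟩

theorem extend (h0 : π ≠ 0) (hd : ∀ r s : ℕ, r < N → s < N → π ∣ r - s → r = s)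
    (hc : ∀ x, ∃ r < N, π ∣ x - r) {g f : R} (hg : ∃ h, π ∣ g * h - 1) {n : ℕ}
    (a : Fin n → Fin N) (h : π ^ n ∣ g * val π (ex a) n - f) :
    ∃ s : ℕ → ℕ, (∀ i, s i < N) ∧ (∀ i : Fin n, s i = a i) ∧ ∀ m, π ^ m ∣ g * val π s m - f := by
  obtain ⟨s, s1, s2⟩ := val_ext hc hg f
  refine ⟨s, s1, fun i => ?_, s2⟩
  rw [val_inj h0 hd (fun i _ => s1 i) (ex_lt a) ((cop hg n).dvd_of_dvd_mul_left (by
    convert (s2 n).sub h using 1; ring)) i i.2, ex, dif_pos i.2]

end

theorem avg2 (b : Module.Basis (Fin d) ℤ R) (hd : 1 ≤ d) : ∃ C : ℝ, ∀ (N n : ℕ) (π : R)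
    (T : (Fin n → Fin N) → EReal) (K : ℝ), 2 ≤ N → π ≠ 0 → π ∣ N →
    (∀ r s : ℕ, r < N → s < N → π ∣ r - s → r = s) → (∀ x, ∃ r < N, π ∣ x - r) →
    (∀ a (t : ℝ), T a < t → ∃ (s : ℕ → ℕ) (f g : R), (∀ i : Fin n, s i = a i) ∧
      (∃ h, π ∣ g * h - 1) ∧ π ^ n ∣ g * val π s n - f ∧
      d * Real.logb N (max (nm b f) (nm b g) : ℕ) ≤ t + K) →
    (∀ a (s : ℕ → ℕ) (f g : R), (∀ i, s i < N) → (∀ i : Fin n, s i = a i) → (∃ h, π ∣ g * h - 1) →
      (∀ m, π ^ m ∣ g * val π s m - f) →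
      T a ≤ (d * Real.logb N (max (nm b f) (nm b g) : ℕ) + K : ℝ)) →
    |(∑ a, (T a).toReal) / N ^ n - n / 2| ≤ C + K := by
  obtain ⟨C, hC⟩ := avg b hd
  refine ⟨C + 1, fun N n π T K hN h0 hπ hd hc lo up => ?_⟩
  have up' : ∀ a (f g : R), (N : R) ∣ g - 1 → π ^ n ∣ g * val π (ex a) n - f →
      T a ≤ (d * Real.logb N (max (nm b f) (nm b g) : ℕ) + K : ℝ) := fun a f g h1 h2 => by
    have hg : ∃ h, π ∣ g * h - 1 := ⟨1, by simpa using hπ.trans h1⟩
    obtain ⟨s, s1, s2, s3⟩ := extend h0 hd hc hg a h2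
    exact up a s f g s1 s2 hg s3
  have fin : ∀ a, ∃ x : ℝ, T a = x := fun a => by
    refine ⟨_, (EReal.coe_toReal (ne_top_of_le_ne_top (EReal.coe_ne_top _)
      (up' a (val π (ex a) n) 1 (by simp) (by simp))) fun h => ?_).symm⟩
    obtain ⟨s, f, g, -, -, -, a4⟩ := lo a (-K - 1) (h ▸ EReal.bot_lt_coe _)
    have := lg_mono hN (Nat.zero_le (max (nm b f) (nm b g)))
    simp only [Nat.cast_zero, Real.logb_zero] at this
    have := mul_nonneg d.cast_nonneg this
    linarith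
  choose X hX using fin
  simp only [hX, EReal.toReal_coe, EReal.coe_lt_coe_iff, EReal.coe_le_coe_iff] at lo up' ⊢
  rw [add_assoc, add_comm 1]
  refine hC N n _ (π ^ n) (fun a => val π (ex a) n) _ _ hN (by simp) (pow_ne_zero _ h0)
    (fun a a' h => funext fun i => Fin.ext ?_) (fun x => ?_) (fun a => ?_) fun a f g h1 h2 => ?_
  · have := val_inj h0 hd (ex_lt a) (ex_lt a') h i i.2
    rwa [ex, ex, dif_pos i.2, dif_pos i.2] at this
  · obtain ⟨s, s1, s2⟩ := val_ext hc ⟨1, by simp⟩ (g := 1) x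
    refine ⟨fun i => ⟨s i, s1 i⟩, ?_⟩
    rw [← val_eq (s := s) fun _ => rfl, dvd_sub_comm]
    simpa using s2 n
  · obtain ⟨s, f, g, a1, a2, a3, a4⟩ := lo a (X a + 1) (by linarith)
    refine ⟨f, g, ?_, cop a2 n, val_eq (π := π) a1 ▸ a3, by linarith⟩
    rintro rfl
    obtain ⟨h, e⟩ := a2
    have := hd 0 1 (by omega) (by omega) (by simpa using e)
    omega
  · linarith [up' a f g h1 h2]

theorem digits (b : Module.Basis (Fin d) ℤ R) (hd : 1 ≤ d) {π : R} (hb : ∀ i, b i = π ^ i.1)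
    {e : ℤ} {N : ℕ} (hN : 2 ≤ N) (he : e.natAbs = N) (h : π ^ d = e) : π ≠ 0 ∧ π ∣ N ∧
    (∀ r s : ℕ, r < N → s < N → π ∣ r - s → r = s) ∧ ∀ x, ∃ r < N, π ∣ x - r := by
  obtain ⟨d, rfl⟩ : ∃ k, d = k + 1 := ⟨d - 1, by omega⟩
  have b0 : b 0 = 1 := by simp [hb]
  have c0 : ∀ m : ℤ, b.repr m 0 = m := fun m => by
    rw [← zsmul_one, ← b0, map_smul]; simp
  have hπ : π ∣ N := by
    have : π ∣ e := h ▸ dvd_pow_self π (by omega)
    rcases Int.natAbs_eq e with h' | h' <;> rw [h', he] at this <;> simpa using this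
  refine ⟨fun z => ?_, hπ, fun r s h1 h2 ⟨y, hy⟩ => ?_, fun x => ?_⟩
  · have := c0 e
    rw [← h, z] at this
    simp at this; omega
  · have : e ∣ b.repr (π * y) 0 := by
      rw [← b.sum_repr y, mul_sum, map_sum, Finsupp.finset_sum_apply]
      refine dvd_sum fun i _ => ?_
      rw [mul_smul_comm, map_smul, Finsupp.smul_apply, hb, ← pow_succ']
      refine Dvd.dvd.mul_left ?_ _
      by_cases c : i.1 = d
      · rw [c, h, c0]
      · rw [← hb ⟨i + 1, by omega⟩, b.repr_self, Finsupp.single_eq_of_ne (fun h => absurd (congrArg Fin.val h) (Nat.succ_ne_zero _).symm)]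
        exact dvd_zero _
    rw [← hy, show (r : R) - s = ((r - s : ℤ) : R) by simp, c0, ← Int.natAbs_dvd, he] at this
    have := Int.eq_zero_of_abs_lt_dvd this (abs_lt.2 (by omega))
    omega
  · refine ⟨(b.repr x 0 % N).toNat, by
      have := Int.emod_lt_of_pos (b.repr x 0) (b := N) (by omega); omega, ?_⟩
    have e1 : (((b.repr x 0 % N).toNat : ℕ) : R) = b.repr x 0 - N * (b.repr x 0 / N : ℤ) := by
      rw [← Int.cast_natCast, Int.toNat_of_nonneg (Int.emod_nonneg _ (by omega)), Int.emod_def]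
      simp
    have e2 : π ∣ x - b.repr x 0 := by
      conv_rhs => lhs; rw [← b.sum_repr x, Fin.sum_univ_succ]
      rw [b0, zsmul_one, add_sub_cancel_left]
      refine dvd_sum fun i _ => ?_
      rw [hb, zsmul_eq_mul]
      exact (dvd_pow_self π (by simp)).mul_left _
    rw [e1]
    convert e2.add (hπ.mul_right (b.repr x 0 / N : ℤ)) using 1; ring

end Pool.Agent.H23.Adic
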