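import Mathlib

/-! Reduced words in an amalgamated product of two subgroups. -/
namespace Pool.Agent.H23.Amal

open Monoid

variable {G : Type} [Group G]

inductive Rd (H : Bool → Subgroup G) (C : Subgroup G) : Bool → Bool → ℕ → G → Prop
  | one {i : Bool} {g : G} : g ∈ H i → g ∉ C → Rd H C i i 0 g
  | cons {i j : Bool} {n : ℕ} {g w : G} :
      g ∈ H i → g ∉ C → Rd H C (!i) j n w → Rd H C i j (n + 1) (g * w)

variable {H : Bool → Subgroup G} {C : Subgroup G}

theorem Rd.cast {i j : Bool} {n : ℕ} {g g' : G} (h : Rd H C i j n g) (e : g = g') :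
    Rd H C i j n g' := e ▸ h

theorem Rd.append {i j k : Bool} {n m : ℕ} {w v : G} (h : Rd H C i j n w)
    (h' : Rd H C (!j) k m v) : Rd H C i k (n + m + 1) (w * v) := by
  induction h with
  | one h1 h2 => simpa using Rd.cons h1 h2 h'
  | @cons i j n g w h1 h2 _ ih =>
    have := Rd.cons h1 h2 (ih h')
    rw [mul_assoc, show n + 1 + m + 1 = n + m + 1 + 1 by omega]
    exact this

theorem Rd.inv {i j : Bool} {n : ℕ} {w : G} (h : Rd H C i j n w) : Rd H C j i n w⁻¹ := by
  induction h with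
  | one h1 h2 => exact .one (inv_mem h1) (by simpa using h2)
  | @cons i j n g w h1 h2 _ ih =>
    have h3 : Rd H C (!!i) i 0 g⁻¹ := by
      rw [Bool.not_not]; exact .one (inv_mem h1) (by simpa using h2)
    simpa using ih.append h3

theorem Rd.left (hC : ∀ i, C ≤ H i) {i j : Bool} {n : ℕ} {w c : G} (h : Rd H C i j n w)
    (hc : c ∈ C) : Rd H C i j n (c * w) := by
  cases h with
  | one h1 h2 => exact .one (mul_mem (hC _ hc) h1) (by simpa [mul_mem_cancel_left hc] using h2)
  | cons h1 h2 h3 =>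
    rw [← mul_assoc]
    exact .cons (mul_mem (hC _ hc) h1) (by simpa [mul_mem_cancel_left hc] using h2) h3

theorem Rd.right (hC : ∀ i, C ≤ H i) {i j : Bool} {n : ℕ} {w c : G} (h : Rd H C i j n w)
    (hc : c ∈ C) : Rd H C i j n (w * c) := by
  simpa using (h.inv.left hC (inv_mem hc)).inv

theorem Rd.zero {i j : Bool} {w : G} (h : Rd H C i j 0 w) : i = j ∧ w ∈ H i ∧ w ∉ C := by
  cases h with
  | one h1 h2 => exact ⟨rfl, h1, h2⟩

theorem Rd.uncons {i j : Bool} {n : ℕ} {w : G} (h : Rd H C i j (n + 1) w) :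
    ∃ g v, g ∈ H i ∧ g ∉ C ∧ Rd H C (!i) j n v ∧ w = g * v := by
  cases h with
  | cons h1 h2 h3 => exact ⟨_, _, h1, h2, h3, rfl⟩

theorem Rd.snoc {i j : Bool} {n : ℕ} {w : G} (h : Rd H C i j (n + 1) w) :
    ∃ g v, g ∈ H j ∧ g ∉ C ∧ Rd H C i (!j) n v ∧ w = v * g := by
  obtain ⟨g, v, h1, h2, h3, e⟩ := h.inv.uncons
  exact ⟨g⁻¹, v⁻¹, inv_mem h1, by simpa using h2, h3.inv, by rw [← mul_inv_rev, ← e, inv_inv]⟩

/-- The data of an amalgam. -/
structure IsAmal (H : Bool → Subgroup G) (C : Subgroup G) : Prop where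
  le : ∀ i, C ≤ H i
  gen : ∀ g : G, g ∈ Subgroup.closure ((H true : Set G) ∪ H false)
  nf : ∀ {i j : Bool} {n : ℕ} {w : G}, Rd H C i j n w → w ∉ C

theorem nf_of_hom (hC : ∀ i, C ≤ H i)
    (θ : G →* PushoutI (fun i => Subgroup.inclusion (hC i)))
    (hθ : ∀ i (g : H i), θ g = PushoutI.of (φ := fun i => Subgroup.inclusion (hC i)) i g)
    {i j : Bool} {n : ℕ} {w : G} (h : Rd H C i j n w) : w ∉ C := by
  have key : ∃ v : CoprodI.Word (fun i => H i),
      PushoutI.Reduced (fun i => Subgroup.inclusion (hC i)) v ∧ v.fstIdx = some i ∧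
        PushoutI.ofCoprodI v.prod = θ w := by
    have nr : ∀ i (g : H i), (g : G) ∉ C → g ∉ (Subgroup.inclusion (hC i)).range := by
      rintro i g hg ⟨c, rfl⟩
      exact hg c.2
    induction h with
    | @one i g h1 h2 =>
      have ne : (⟨g, h1⟩ : H i) ≠ 1 := fun e => h2 (by rw [show g = 1 from congrArg Subtype.val e]; exact one_mem _)
      refine ⟨.cons ⟨g, h1⟩ .empty (by simp [CoprodI.Word.fstIdx, CoprodI.Word.empty]) ne, ?_,
        CoprodI.Word.fstIdx_cons .., ?_⟩
      · intro x hx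
        simp only [CoprodI.Word.cons, CoprodI.Word.empty, List.mem_singleton] at hx
        subst hx
        exact nr _ _ h2
      · simp [← hθ]
    | @cons i j n g w h1 h2 _ ih =>
      obtain ⟨v, r, f, p⟩ := ih
      have ne : (⟨g, h1⟩ : H i) ≠ 1 := fun e => h2 (by rw [show g = 1 from congrArg Subtype.val e]; exact one_mem _)
      refine ⟨.cons ⟨g, h1⟩ v (by rw [f]; cases i <;> simp) ne, ?_,
        CoprodI.Word.fstIdx_cons .., ?_⟩
      · intro x hx
        simp only [CoprodI.Word.cons, List.mem_cons] at hx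
        rcases hx with rfl | hx
        · exact nr _ _ h2
        · exact r x hx
      · simp [← hθ, p]
  obtain ⟨v, r, f, p⟩ := key
  intro hw
  have := r.eq_empty_of_mem_range (fun i => Subgroup.inclusion_injective (hC i)) (by
    refine ⟨⟨w, hw⟩, ?_⟩
    rw [p, ← PushoutI.of_apply_eq_base _ i, ← hθ]; rfl)
  rw [this] at f
  simp [CoprodI.Word.fstIdx, CoprodI.Word.empty] at f

namespace IsAmal
variable (A : IsAmal H C)
include A

theorem exists_rd (g : G) : g ∈ C ∨ ∃ i j n, Rd H C i j n g := by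
  have step : ∀ k, ∀ h ∈ H k, ∀ g, (g ∈ C ∨ ∃ i j n, Rd H C i j n g) →
      (h * g ∈ C ∨ ∃ i j n, Rd H C i j n (h * g)) := by
    intro k h hk g hg
    have base : ∀ x ∈ H k, x ∈ C ∨ ∃ i j n, Rd H C i j n x := fun x hx => by
      by_cases hx' : x ∈ C
      · exact .inl hx'
      · exact .inr ⟨_, _, _, .one hx hx'⟩
    rcases hg with hg | ⟨i, j, n, hg⟩
    · exact base _ (mul_mem hk (A.le _ hg))
    by_cases hc : h ∈ C
    · exact .inr ⟨_, _, _, hg.left A.le hc⟩
    by_cases e : k = i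
    · subst e
      cases n with
      | zero => exact base _ (mul_mem hk hg.zero.2.1)
      | succ n =>
        obtain ⟨x, v, h1, -, h3, rfl⟩ := hg.uncons
        rw [← mul_assoc]
        by_cases hx : h * x ∈ C
        · exact .inr ⟨_, _, _, h3.left A.le hx⟩
        · exact .inr ⟨_, _, _, .cons (mul_mem hk h1) hx h3⟩
    · have : i = !k := by cases i <;> cases k <;> simp_all
      subst this
      exact .inr ⟨_, _, _, .cons hk hc hg⟩
  refine Subgroup.closure_induction_left (p := fun g _ => g ∈ C ∨ ∃ i j n, Rd H C i j n g)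
    (.inl (one_mem _)) ?_ ?_ (A.gen g)
  · rintro x (hx | hx) y _ hy
    exacts [step _ _ hx _ hy, step _ _ hx _ hy]
  · rintro x (hx | hx) y _ hy
    exacts [step _ _ (inv_mem hx) _ hy, step _ _ (inv_mem hx) _ hy]

theorem not_mem {i j k : Bool} {n : ℕ} {w : G} (h : Rd H C i j (n + 1) w) : w ∉ H k := by
  intro hw
  have hc := A.nf h
  by_cases e : k = i
  · subst e
    obtain ⟨x, v, h1, -, h3, rfl⟩ := h.uncons
    have hv : v ∈ H k := by simpa [mul_mem_cancel_left h1] using hw
    exact A.nf (Rd.cons (inv_mem hv) (by simpa using A.nf h3) h3) (by simp)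
  · have : i = !k := by cases i <;> cases k <;> simp_all
    subst this
    exact A.nf (Rd.cons (inv_mem hw) (by simpa using hc) h) (by simp)

theorem conj_not_mem {i j k : Bool} {n : ℕ} {w y : G} (h : Rd H C i (!j) n w) (hy : y ∈ H j)
    (hc : y ∉ C) : w * y * w⁻¹ ∉ H k := by
  have h1 : Rd H C (!!j) j 0 y := by rw [Bool.not_not]; exact .one hy hc
  exact A.not_mem ((h.append h1).append h.inv)

theorem dec (g : G) (j : Bool) :
    g ∈ H j ∨ ∃ i n w h, Rd H C i (!j) n w ∧ h ∈ H j ∧ g = w * h := by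
  rcases A.exists_rd g with hg | ⟨i, k, n, hg⟩
  · exact .inl (A.le _ hg)
  by_cases e : k = j
  · subst e
    cases n with
    | zero => obtain ⟨rfl, h, -⟩ := hg.zero; exact .inl h
    | succ n =>
      obtain ⟨x, v, h1, -, h3, rfl⟩ := hg.snoc
      exact .inr ⟨_, _, _, _, h3, h1, rfl⟩
  · have : k = !j := by cases j <;> cases k <;> simp_all
    subst this
    exact .inr ⟨_, _, _, 1, hg, one_mem _, by simp⟩

/-- An element outside a factor conjugates only conjugates of `C` into a factor. -/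
theorem key (g : G) (j : Bool) :
    g ∈ H j ∨ ∃ h ∈ H j, ∀ y ∈ H j, ∀ k, g * y * g⁻¹ ∈ H k → h * y * h⁻¹ ∈ C := by
  rcases A.dec g j with hg | ⟨i, n, w, h, hw, hh, rfl⟩
  · exact .inl hg
  refine .inr ⟨h, hh, fun y hy k hk => ?_⟩
  by_contra hc
  exact A.conj_not_mem (k := k) hw (mul_mem (mul_mem hh hy) (inv_mem hh)) hc
    (by simpa [mul_assoc] using hk)

/-- Centralizer of an element of `C` which every element of `H (!j) \ C` moves out of `C`. -/
theorem cent {j : Bool} {a g : G} (ha : a ∈ C) (hu : ∀ c ∈ C, c ≠ 1 → c = a)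
    (hm : ∀ e ∈ H (!j), e ∉ C → e * a * e⁻¹ ∉ C) (hg : g * a * g⁻¹ = a) : g ∈ H j := by
  rcases A.dec g j with h | ⟨i, n, w, h, hw, hh, rfl⟩
  · exact h
  exfalso
  have a1 : a ≠ 1 := by
    rintro rfl
    cases n with
    | zero => obtain ⟨rfl, h1, h2⟩ := hw.zero; exact hm w h1 h2 (by simp)
    | succ n => obtain ⟨x, v, h1, h2, -, -⟩ := hw.snoc; exact hm x h1 h2 (by simp)
  have h1 : h * a * h⁻¹ ∈ C := by
    by_contra hc
    exact A.conj_not_mem (k := j) hw (mul_mem (mul_mem hh (A.le _ ha)) (inv_mem hh)) hc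
      (by rw [show w * (h * a * h⁻¹) * w⁻¹ = a from Eq.trans (by group) hg]; exact A.le _ ha)
  have h2 : h * a * h⁻¹ = a := hu _ h1 (by simpa using a1)
  have h3 : w * a * w⁻¹ = a := by
    calc w * a * w⁻¹ = w * (h * a * h⁻¹) * w⁻¹ := by rw [h2]
      _ = a := Eq.trans (by group) hg
  cases n with
  | zero => obtain ⟨rfl, h4, h5⟩ := hw.zero; exact hm w h4 h5 (by rw [h3]; exact ha)
  | succ n =>
    obtain ⟨x, v, h4, h5, h6, rfl⟩ := hw.snoc
    exact A.conj_not_mem (k := j) h6 (mul_mem (mul_mem h4 (A.le _ ha)) (inv_mem h4)) (hm x h4 h5)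
      (by rw [show v * (x * a * x⁻¹) * v⁻¹ = a from Eq.trans (by group) h3]; exact A.le _ ha)

theorem torsion {g : G} {m : ℕ} (hm : g ^ (m + 1) = 1) : ∃ x k, x * g * x⁻¹ ∈ H k := by
  have main : ∀ n : ℕ, ∀ g : G, g ^ (m + 1) = 1 → ∀ i j, Rd H C i j n g →
      ∃ x k, x * g * x⁻¹ ∈ H k := by
    intro n
    induction n using Nat.strong_induction_on with
    | _ n ih =>
    intro g hm i j hg
    cases n with
    | zero => exact ⟨1, i, by simpa using hg.zero.2.1⟩
    | succ n =>
      by_cases e : i = j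
      · subst e
        obtain ⟨x, v, h1, h2, h3, rfl⟩ := hg.snoc
        cases n with
        | zero => have := h3.zero.1; cases i <;> simp at this
        | succ n =>
          obtain ⟨y, u, h4, h5, h6, rfl⟩ := h3.uncons
          have hm' : (x * y * u) ^ (m + 1) = 1 := by
            rw [show x * y * u = x * (y * u * x) * x⁻¹ by group, conj_pow, hm]; simp
          have : ∃ z k, z * (x * y * u) * z⁻¹ ∈ H k := by
            by_cases hc : x * y ∈ C
            · exact ih n (by omega) _ hm' _ _ (h6.left A.le hc)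
            · exact ih (n + 1) (by omega) _ hm' _ _ (.cons (mul_mem h1 h4) hc h6)
          obtain ⟨z, k, hz⟩ := this
          exact ⟨z * x, k, by rw [show z * x * (y * u * x) * (z * x)⁻¹ = z * (x * y * u) * z⁻¹ by group]; exact hz⟩
      · have e' : i = !j := by cases j <;> cases i <;> simp_all
        subst e'
        have : ∀ m : ℕ, ∃ l, Rd H C (!j) j l (g ^ (m + 1)) := by
          intro m
          induction m with
          | zero => exact ⟨_, by simpa using hg⟩
          | succ m ih => obtain ⟨l, hl⟩ := ih; exact ⟨_, by rw [pow_succ]; exact hl.append hg⟩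
        obtain ⟨l, hl⟩ := this m
        exact absurd (hm ▸ one_mem C) (A.nf hl)
  rcases A.exists_rd g with hg | ⟨i, j, n, hg⟩
  · exact ⟨1, true, by simpa using A.le _ hg⟩
  · exact main n g hm i j hg

theorem injective (f : G →* G) (h1 : ∀ i, ∀ g ∈ H i, g ∉ C → f g ∈ H i ∧ f g ∉ C)
    (h2 : ∀ c ∈ C, f c = 1 → c = 1) : Function.Injective f := by
  rw [injective_iff_map_eq_one]
  intro g hg
  rcases A.exists_rd g with h | ⟨i, j, n, h⟩
  · exact h2 g h hg
  · have : Rd H C i j n (f g) := by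
      clear hg
      induction h with
      | one a b => exact .one (h1 _ _ a b).1 (h1 _ _ a b).2
      | cons a b _ ih => rw [map_mul]; exact .cons (h1 _ _ a b).1 (h1 _ _ a b).2 ih
    exact absurd (hg ▸ one_mem C) (A.nf this)

end IsAmal

end Pool.Agent.H23.Amal
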