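import Pool.Agent.H11.Base1

set_option autoImplicit false

namespace Pool.Agent.H23.BP
open Pool.Agent.H11.PT Finset

/-- exact bin packing `(k, B, a)`, all numbers in unary -/
def BP (y : ℕ × ℕ × List ℕ) : Prop :=
  ∃ β : ℕ → ℕ, (∀ i < y.2.2.length, β i < y.1) ∧
    ∀ b < y.1, ∑ i ∈ range y.2.2.length, (if β i = b then y.2.2.getD i 0 else 0) = y.2.1

theorem four {F : Finset ℕ} (ty h : ℕ → ℕ) (u H : ℕ) (h1 : ∀ i, ty i < 4)
    (e : ∑ i ∈ F, (16 * u + 2 ^ ty i + 16 * h i) = 64 * u + 15 + 16 * H) (h2 : 15 + 16 * H < 16 * u) :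
    ∃ f : ℕ → ℕ, (∀ t < 4, f t ∈ F ∧ ty (f t) = t) ∧ (∀ i ∈ F, i = f (ty i)) ∧
      h (f 0) + h (f 1) + h (f 2) + h (f 3) = H := by
  rw [← sum_fiberwise_of_maps_to (t := range 4) (g := ty) (fun i _ => mem_range.2 (h1 i))] at e
  have a : ∀ t, ∑ i ∈ F with ty i = t, (16 * u + 2 ^ ty i + 16 * h i) =
      16 * (#{i ∈ F | ty i = t} * u) + #{i ∈ F | ty i = t} * 2 ^ t +
        16 * ∑ i ∈ F with ty i = t, h i := fun t => by
    rw [sum_congr rfl (g := fun i => 16 * u + 2 ^ t + 16 * h i) fun i m => by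
      rw [(mem_filter.1 m).2]]
    simp [sum_add_distrib, mul_sum]; ring
  simp only [a, sum_range_succ, range_zero, sum_empty] at e
  have b : ∀ t < 4, #{i ∈ F | ty i = t} = 1 := by
    generalize hn : (fun t => #{i ∈ F | ty i = t}) = n
    simp only [show ∀ t, #{i ∈ F | ty i = t} = n t from fun t => by rw [← hn]] at e ⊢
    have : n 0 + n 1 + n 2 + n 3 < 5 := by
      refine Nat.lt_of_mul_lt_mul_right (a := u) ?_
      simp only [add_mul]; omega
    intro t ht
    interval_cases t <;> omega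
  have c : ∀ t, ∃ x, t < 4 → {i ∈ F | ty i = t} = {x} := fun t => by
    by_cases k : t < 4
    · exact (card_eq_one.1 (b t k)).imp fun _ a _ => a
    · exact ⟨0, fun a => absurd a k⟩
  choose f hf using c
  refine ⟨f, fun t k => mem_filter.1 (hf t k ▸ mem_singleton_self _), fun i m =>
    mem_singleton.1 (hf _ (h1 i) ▸ mem_filter.2 ⟨m, rfl⟩), ?_⟩
  rw [hf 0 (by omega), hf 1 (by omega), hf 2 (by omega), hf 3 (by omega)] at e
  simp at e; omega

theorem pack (K B : ℕ) (s : ℕ → ℕ → ℕ) (v : ℕ → ℕ) (h1 : ∀ t < 4, ∀ b < K, s t b < 4 * K)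
    (h2 : ∀ t < 4, ∀ b < K, ∀ t' < 4, ∀ b' < K, s t b = s t' b' → t = t' ∧ b = b')
    (h3 : ∀ b < K, v (s 0 b) + v (s 1 b) + v (s 2 b) + v (s 3 b) = B) :
    ∃ β : ℕ → ℕ, (∀ i < 4 * K, β i < K) ∧
      ∀ b < K, ∑ i ∈ range (4 * K), (if β i = b then v i else 0) = B := by
  have inj : Set.InjOn (fun p : ℕ × ℕ => s p.1 p.2) (range 4 ×ˢ range K : Finset _) := by
    rintro ⟨t, b⟩ m ⟨t', b'⟩ m' e
    simp at m m'
    simpa using h2 t m.1 b m.2 t' m'.1 b' m'.2 e
  have e : (range 4 ×ˢ range K).image (fun p => s p.1 p.2) = range (4 * K) :=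
    eq_of_subset_of_card_le (fun i m => by
      obtain ⟨p, m', rfl⟩ := mem_image.1 m
      simp at m'
      exact mem_range.2 (h1 _ m'.1 _ m'.2)) (by rw [card_image_of_injOn inj]; simp)
  have : ∀ i, ∃ b, i < 4 * K → b < K ∧ ∃ t < 4, s t b = i := fun i => by
    by_cases k : i < 4 * K
    · obtain ⟨p, m, a⟩ := mem_image.1 (e ▸ mem_range.2 k)
      simp at m
      exact ⟨p.2, fun _ => ⟨m.2, p.1, m.1, a⟩⟩
    · exact ⟨0, fun a => absurd a k⟩
  choose β hβ using this
  refine ⟨β, fun i k => (hβ i k).1, fun b k => ?_⟩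
  rw [← e, sum_image inj, sum_product, ← h3 b k,
    sum_congr rfl (g := fun t => v (s t b)) fun t m => ?_]
  · simp [sum_range_succ]
  · rw [mem_range] at m
    rw [sum_congr rfl (g := fun b' => if b' = b then v (s t b') else 0) fun b' m' => ?_]
    · simp [k]
    · rw [mem_range] at m'
      obtain ⟨a, t', c, d⟩ := hβ _ (h1 t m b' m')
      rw [(h2 _ c _ a _ m _ m' d).2]

def var (φ : List (ℕ × ℕ × ℕ)) (o : ℕ) : ℕ :=
  if o % 3 = 0 then (φ.getD (o / 3) (0, 0, 0)).1 else
  if o % 3 = 1 then (φ.getD (o / 3) (0, 0, 0)).2.1 else (φ.getD (o / 3) (0, 0, 0)).2.2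

def cyc (N a : ℕ) : ℕ := if a < N then a else a - N

def nxt (φ : List (ℕ × ℕ × ℕ)) (o : ℕ) : ℕ := cyc (3 * φ.length) (o + 1 +
  ((List.range (3 * φ.length)).find? fun d =>
    decide (var φ (cyc (3 * φ.length) (o + 1 + d)) = var φ o)).getD 0)

theorem nxt_spec (φ : List (ℕ × ℕ × ℕ)) {o : ℕ} (h : o < 3 * φ.length) :
    ∃ d < 3 * φ.length, nxt φ o = cyc (3 * φ.length) (o + 1 + d) ∧ var φ (nxt φ o) = var φ o ∧
      ∀ j < d, var φ (cyc (3 * φ.length) (o + 1 + j)) ≠ var φ o := by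
  unfold nxt
  cases e : (List.range (3 * φ.length)).find? fun d =>
    decide (var φ (cyc (3 * φ.length) (o + 1 + d)) = var φ o) with
  | none =>
    have := List.find?_eq_none.1 e (3 * φ.length - 1) (by simp; omega)
    rw [show cyc (3 * φ.length) (o + 1 + (3 * φ.length - 1)) = o by unfold cyc; split <;> omega] at this
    simp at this
  | some d =>
    rw [List.find?_range_eq_some] at e
    exact ⟨d, by simpa using e.2.1, rfl, by simpa using e.1, by simpa using e.2.2⟩

theorem nxt_inj (φ : List (ℕ × ℕ × ℕ)) {o o' : ℕ} (h : o < 3 * φ.length) (h' : o' < 3 * φ.length)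
    (e : nxt φ o = nxt φ o') : o = o' := by
  obtain ⟨d, a1, a2, a3, a4⟩ := nxt_spec φ h
  obtain ⟨d', b1, b2, b3, b4⟩ := nxt_spec φ h'
  rw [e] at a2 a3
  rw [a2] at b2
  rcases lt_trichotomy d d' with k | k | k
  · refine absurd ?_ (b4 (d' - d - 1) (by omega))
    rw [show cyc _ (o' + 1 + (d' - d - 1)) = o by unfold cyc at *; split_ifs at * <;> omega]
    omega
  · unfold cyc at b2; split_ifs at b2 <;> omega
  · refine absurd ?_ (a4 (d - d' - 1) (by omega))
    rw [show cyc _ (o + 1 + (d - d' - 1)) = o' by unfold cyc at *; split_ifs at * <;> omega]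
    omega

theorem nxt_con (φ : List (ℕ × ℕ × ℕ)) (x : ℕ → ℕ) (hx : ∀ o < 3 * φ.length, x (nxt φ o) = x o)
    {o o' : ℕ} (h : o < 3 * φ.length) (h' : o' < 3 * φ.length) (e : var φ o' = var φ o) :
    x o' = x o := by
  have : ∀ D < 3 * φ.length, ∀ o < 3 * φ.length,
      var φ (cyc (3 * φ.length) (o + 1 + D)) = var φ o → x (cyc (3 * φ.length) (o + 1 + D)) = x o := by
    intro D
    induction D using Nat.strong_induction_on with
    | _ D ih =>
    intro a o b c
    obtain ⟨d, a1, a2, a3, a4⟩ := nxt_spec φ b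
    rcases lt_trichotomy d D with k | k | k
    · have := ih (D - d - 1) (by omega) (by omega) (nxt φ o) (by rw [a2]; unfold cyc; split <;> omega)
      rw [show cyc _ (nxt φ o + 1 + (D - d - 1)) = cyc (3 * φ.length) (o + 1 + D) by
        rw [a2]; unfold cyc; split_ifs <;> omega] at this
      rw [this (c.trans a3.symm), hx o b]
    · rw [← k, ← a2, hx o b]
    · exact absurd c (a4 D k)
  have := this (cyc (3 * φ.length) (o' + 3 * φ.length - o - 1)) (by unfold cyc; split <;> omega) o h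
  rw [show cyc _ (o + 1 + cyc (3 * φ.length) (o' + 3 * φ.length - o - 1)) = o' by
    unfold cyc; split_ifs <;> omega] at this
  exact this e

def idn (φ : List (ℕ × ℕ × ℕ)) (i : ℕ) : ℕ := if i % 2 = 1 then i / 8 / 3 else 3 * φ.length

def hv (φ : List (ℕ × ℕ × ℕ)) (r i : ℕ) : ℕ :=
  if i % 8 / 2 = 0 then (if i % 2 = 1 ∧ i / 8 % 3 = 0 ∨ i % 2 = 0 ∧ ¬ i / 8 % 3 = 0 then 2 else 0) +
    4 * idn φ i
  else if i % 8 / 2 = 1 then 1 - i % 2 + 4 * (r * (i / 8))
  else if i % 8 / 2 = 2 then 1 - i % 2 + 4 * (r * (r * (i / 8)))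
  else 4 * (r * (r * r) - (idn φ i + r * (i / 8) +
    r * (r * if i % 2 = 1 then i / 8 else nxt φ (i / 8))))

def p2 (t : ℕ) : ℕ := if t = 0 then 1 else if t = 1 then 2 else if t = 2 then 4 else 8

def inst (φ : List (ℕ × ℕ × ℕ)) (r : ℕ) : ℕ × ℕ × List ℕ :=
  (2 * (3 * φ.length), 64 * (4 * (r * (r * r)) + 3) + 15 + 16 * (2 + 4 * (r * (r * r))),
    (List.range (4 * (2 * (3 * φ.length)))).map fun i =>
      16 * (4 * (r * (r * r)) + 3) + p2 (i % 8 / 2) + 16 * hv φ r i)

theorem dig {r a b x y : ℕ} (ha : a < r) (hb : b < r) (e : a + r * x = b + r * y) :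
    a = b ∧ x = y := by
  have := congrArg (· % r) e
  simp only [Nat.add_mul_mod_self_left, Nat.mod_eq_of_lt ha, Nat.mod_eq_of_lt hb] at this
  exact ⟨this, Nat.eq_of_mul_eq_mul_left (by omega : 0 < r) (by omega)⟩

theorem bd {r a b c : ℕ} (ha : a < r) (hb : b < r) (hc : c < r) :
    a + r * b + r * (r * c) ≤ r * (r * r) := by
  have h1 : r * (b + 1) ≤ r * r := Nat.mul_le_mul_left _ hb
  have h2 : r * (r * (c + 1)) ≤ r * (r * r) := Nat.mul_le_mul_left _ (Nat.mul_le_mul_left _ hc)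
  simp only [mul_add, mul_one] at h1 h2; omega

theorem ev (φ : List (ℕ × ℕ × ℕ)) (r a t e i : ℕ) (h : i = 8 * a + 2 * t + e) (ht : t < 4)
    (he : e < 2) : 16 * (4 * (r * (r * r)) + 3) + 2 ^ (i % 8 / 2) + 16 * hv φ r i =
      16 * (4 * (r * (r * r)) + 3) + 2 ^ t + 16 * if t = 0 then
      (if e = 1 ∧ a % 3 = 0 ∨ e = 0 ∧ ¬ a % 3 = 0 then 2 else 0) +
        4 * (if e = 1 then a / 3 else 3 * φ.length)
      else if t = 1 then 1 - e + 4 * (r * a) else if t = 2 then 1 - e + 4 * (r * (r * a))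
      else 4 * (r * (r * r) - ((if e = 1 then a / 3 else 3 * φ.length) + r * a +
        r * (r * if e = 1 then a else nxt φ a))) := by
  simp only [hv, idn, show i % 8 / 2 = t by omega, show i / 8 = a by omega, show i % 2 = e by omega]

theorem inst_iff (φ : List (ℕ × ℕ × ℕ)) : ONE3 φ ↔ BP (inst φ (3 * φ.length + 1)) := by
  obtain ⟨r, hr⟩ : ∃ r, r = 3 * φ.length + 1 := ⟨_, rfl⟩
  have nl : ∀ o < 3 * φ.length, nxt φ o < 3 * φ.length := fun o h => by
    obtain ⟨d, a1, a2, -⟩ := nxt_spec φ h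
    rw [a2]; unfold cyc; split <;> omega
  have il : ∀ i < 8 * (3 * φ.length), idn φ i < r := fun i h => by unfold idn; split <;> omega
  have one : ONE3 φ ↔ ∃ σ : ℕ → Bool, ∀ c < φ.length, (σ (var φ (3 * c))).toNat +
      (σ (var φ (3 * c + 1))).toNat + (σ (var φ (3 * c + 2))).toNat = 1 := by
    refine exists_congr fun σ => ?_
    rw [List.forall_mem_iff_forall_getElem]
    refine forall_congr' fun c => forall_congr' fun h => ?_
    simp [var, show (3 * c + 1) % 3 = 1 by omega, show (3 * c + 2) % 3 = 2 by omega,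
      show (3 * c + 1) / 3 = c by omega, show (3 * c + 2) / 3 = c by omega, h]
  rw [← hr, one, BP]
  simp only [inst, List.length_map, List.length_range]
  have gd : ∀ (β : ℕ → ℕ) b, ∑ i ∈ range (4 * (2 * (3 * φ.length))), (if β i = b then
      ((List.range (4 * (2 * (3 * φ.length)))).map fun i => 16 * (4 * (r * (r * r)) + 3) +
        p2 (i % 8 / 2) + 16 * hv φ r i).getD i 0 else 0) =
      ∑ i ∈ range (4 * (2 * (3 * φ.length))), if β i = b then 16 * (4 * (r * (r * r)) + 3) +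
        2 ^ (i % 8 / 2) + 16 * hv φ r i else 0 := fun β b => sum_congr rfl fun i m => by
    rw [List.getD_eq_getElem _ _ (by simpa using m), List.getElem_map, List.getElem_range]
    have : i % 8 / 2 < 4 := by omega
    generalize i % 8 / 2 = t at *
    interval_cases t <;> rfl
  simp only [gd]
  constructor
  · rintro ⟨σ, hσ⟩
    obtain ⟨x, hx⟩ : ∃ x : ℕ → ℕ, ∀ o, x o = (σ (var φ o)).toNat := ⟨_, fun _ => rfl⟩
    have x1 : ∀ o, x o ≤ 1 := fun o => by rw [hx]; exact Bool.toNat_le _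
    have x2 : ∀ o < 3 * φ.length, x (nxt φ o) = x o := fun o h => by
      rw [hx, hx, (nxt_spec φ h).choose_spec.2.2.1]
    simp only [← hx] at hσ
    obtain ⟨ρ, hρ⟩ : ∃ ρ : ℕ → ℕ, ∀ o, ρ o = 3 * (o / 3) +
      (o % 3 + 2 * x (3 * (o / 3) + 1) + x (3 * (o / 3) + 2)) % 3 := ⟨_, fun _ => rfl⟩
    have r1 : ∀ o < 3 * φ.length, ρ o / 3 = o / 3 ∧ (ρ o % 3 = 0 ↔ x o = 1) := fun o h => by
      have h0 := hσ (o / 3) (by omega)
      have h1 := hρ o
      have h2 : x o = x (3 * (o / 3) + o % 3) := by rw [Nat.div_add_mod]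
      have : o % 3 = 0 ∨ o % 3 = 1 ∨ o % 3 = 2 := by omega
      have h3 : (x (3 * (o / 3) + 1) = 0 ∧ x (3 * (o / 3) + 2) = 0) ∨ (x (3 * (o / 3) + 1) = 1 ∧
        x (3 * (o / 3) + 2) = 0) ∨ (x (3 * (o / 3) + 1) = 0 ∧ x (3 * (o / 3) + 2) = 1) := by omega
      rcases this with e | e | e <;> rcases h3 with ⟨a, b⟩ | ⟨a, b⟩ | ⟨a, b⟩ <;>
        simp only [e, add_zero, a, b] at h0 h1 h2 <;> omega
    refine pack _ _ (fun t b => if t = 0 then 8 * ρ (b / 2) + b % 2 else if t = 1 then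
      8 * (b / 2) + 2 + (b % 2 + x (b / 2) + 1) % 2 else if t = 2 then (if b % 2 = 1 then
      8 * (b / 2) + 4 + x (b / 2) else 8 * nxt φ (b / 2) + 5 - x (b / 2)) else
      8 * (b / 2) + 6 + b % 2) _ (fun t _ b k => ?_) (fun t _ b k t' _ b' k' => ?_) fun b k => ?_
    · have := nl (b / 2) (by omega)
      have := r1 (b / 2) (by omega)
      have := x1 (b / 2)
      split_ifs <;> omega
    · have := x1 (b / 2)
      have := x1 (b' / 2)
      have := @nxt_inj φ (b / 2) (b' / 2) (by omega) (by omega)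
      have : b / 2 = b' / 2 → x (b / 2) = x (b' / 2) := fun e => by rw [e]
      have : nxt φ (b / 2) = b' / 2 → x (b / 2) = x (b' / 2) := fun e => by
        rw [← e, x2 _ (by omega)]
      have : nxt φ (b' / 2) = b / 2 → x (b / 2) = x (b' / 2) := fun e => by
        rw [← e, x2 _ (by omega)]
      have : ρ (b / 2) = ρ (b' / 2) → b / 2 = b' / 2 := fun e => by
        have a := hρ (b / 2)
        have c : b' / 2 / 3 = b / 2 / 3 := by
          rw [← (r1 (b' / 2) (by omega)).1, ← e, (r1 (b / 2) (by omega)).1]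
        rw [e, hρ, c, add_assoc, add_assoc, Nat.add_left_cancel_iff] at a
        have := (show ∀ p q k, p < 3 → q < 3 → (p + k) % 3 = (q + k) % 3 → p = q by omega) _ _ _
          (Nat.mod_lt _ (by omega)) (Nat.mod_lt _ (by omega)) a
        omega
      split_ifs <;> omega
    · obtain ⟨o, e, rfl, he⟩ : ∃ o e, b = 2 * o + e ∧ e < 2 := ⟨b / 2, b % 2, by omega, by omega⟩
      have := nl o (by omega)
      have := r1 o (by omega)
      have := x1 o
      have := bd (r := r) (a := o / 3) (b := o) (c := o) (by omega) (by omega) (by omega)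
      have := bd (r := r) (a := 3 * φ.length) (b := o) (c := nxt φ o) (by omega) (by omega) (by omega)
      simp only [show (2 * o + e) / 2 = o by omega, show (2 * o + e) % 2 = e by omega,
        if_true, show ¬ 1 = 0 by omega, show ¬ 2 = 0 by omega, show ¬ 3 = 0 by omega,
        show ¬ 2 = 1 by omega, show ¬ 3 = 1 by omega, show ¬ 3 = 2 by omega, if_false]
      rw [ev φ r (ρ o) 0 e _ (by omega) (by omega) he,
        ev φ r o 1 ((e + x o + 1) % 2) _ (by omega) (by omega) (by omega),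
        ev φ r (if e = 1 then o else nxt φ o) 2 (if e = 1 then x o else 1 - x o) _
          (by split <;> omega) (by omega) (by split <;> omega),
        ev φ r o 3 e _ (by omega) (by omega) he]
      interval_cases e <;> simp <;> split_ifs <;> omega
  · rintro ⟨β, h1, h2⟩
    have := fun b k => four (F := {i ∈ range (4 * (2 * (3 * φ.length))) | β i = b})
      (fun i => i % 8 / 2) (hv φ r) _ _ (fun i => by omega) (by rw [sum_filter]; exact h2 b k)
      (by omega)
    choose! f f1 f2 f3 using this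
    simp only [mem_filter, mem_range] at f1 f2
    have key : ∀ a < 8 * (3 * φ.length), a % 8 / 2 = 3 →
        idn φ (f (β a) 0) = idn φ a ∧ f (β a) 1 / 8 = a / 8 ∧
        (f (β a) 2 / 8 = if a % 2 = 1 then a / 8 else nxt φ (a / 8)) ∧
        f (β a) 2 % 2 = f (β a) 1 % 2 ∧ (f (β a) 1 % 2 = 1 ↔
          f (β a) 0 % 2 = 1 ∧ f (β a) 0 / 8 % 3 = 0 ∨ f (β a) 0 % 2 = 0 ∧ ¬ f (β a) 0 / 8 % 3 = 0) ∧
        ∀ a' < 8 * (3 * φ.length), a' % 8 / 2 = 3 → ∀ t < 4, f (β a) t = f (β a') t → a = a' := by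
      intro a k e
      have b := h1 a (by omega)
      have g := f3 _ b
      have g0 := f1 _ b 0 (by omega)
      have g1 := f1 _ b 1 (by omega)
      have g2 := f1 _ b 2 (by omega)
      have g3 := f2 _ b a ⟨by omega, rfl⟩
      rw [e] at g3
      rw [← g3] at g
      simp only [hv, g0.2, g1.2, g2.2, e] at g
      obtain ⟨z, hz, zl⟩ : ∃ z, (if a % 2 = 1 then a / 8 else nxt φ (a / 8)) = z ∧ z < r :=
        ⟨_, rfl, by have := nl (a / 8) (by omega); split <;> omega⟩
      rw [hz] at g ⊢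
      have := bd (il a k) (by omega : a / 8 < r) zl
      simp at g
      have d1 := dig (il (f (β a) 0) (by omega)) (il a k) (x := f (β a) 1 / 8 + r * (f (β a) 2 / 8))
        (y := a / 8 + r * z) (by simp only [mul_add]; split_ifs at g <;> omega)
      have d2 := dig (by omega) (by omega) d1.2
      rw [d1.1, d2.1, d2.2] at g
      refine ⟨d1.1, d2.1, d2.2, by split_ifs at g <;> omega, by split_ifs at g <;> omega,
        fun a' k' e' t ht m => ?_⟩
      have b' := h1 a' (by omega)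
      have : β a = β a' := by rw [← (f1 _ b t ht).1.2, m, (f1 _ b' t ht).1.2]
      rw [g3, this, ← e']
      exact (f2 _ b' a' ⟨by omega, rfl⟩).symm
    have ty : ∀ a < 8 * (3 * φ.length), ∀ t < 4, f (β a) t % 8 / 2 = t := fun a k t ht =>
      (f1 _ (h1 a (by omega)) t ht).2
    obtain ⟨x, hx⟩ : ∃ x : ℕ → ℕ, ∀ o, x o = f (β (8 * o + 7)) 1 % 2 := ⟨_, fun _ => rfl⟩
    have x2 : ∀ o < 3 * φ.length, x (nxt φ o) = x o := fun o h => by
      have := nl o h
      obtain ⟨-, a2, -, -, -, a6⟩ := key (8 * o + 7) (by omega) (by omega)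
      obtain ⟨-, b2, b3, b4, -, b6⟩ := key (8 * o + 6) (by omega) (by omega)
      obtain ⟨-, -, c3, c4, -⟩ := key (8 * nxt φ o + 7) (by omega) (by omega)
      have := a6 (8 * o + 6) (by omega) (by omega) 1 (by omega)
      have := b6 (8 * nxt φ o + 7) (by omega) (by omega) 2 (by omega)
      have := ty (8 * o + 7) (by omega) 1 (by omega)
      have := ty (8 * o + 6) (by omega) 1 (by omega)
      have := ty (8 * o + 6) (by omega) 2 (by omega)
      have := ty (8 * nxt φ o + 7) (by omega) 2 (by omega)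
      rw [if_neg (by omega), show (8 * o + 6) / 8 = o by omega] at b3
      rw [if_pos (by omega)] at c3
      rw [hx, hx]; omega
    classical
    have s : ∀ o < 3 * φ.length, (decide (∃ o' < 3 * φ.length, var φ o' = var φ o ∧ x o' = 1)).toNat =
        x o := fun o h => by
      by_cases e : x o = 1
      · rw [decide_eq_true ⟨o, h, rfl, e⟩, e]; rfl
      · rw [decide_eq_false fun ⟨o', a, b, c⟩ => e (nxt_con φ x x2 h a b ▸ c), hx] at *
        simp; omega
    refine ⟨fun v => decide (∃ o' < 3 * φ.length, var φ o' = v ∧ x o' = 1), fun c h => ?_⟩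
    rw [s _ (by omega), s _ (by omega), s _ (by omega), hx, hx, hx]
    obtain ⟨a1, -, -, -, a5, a6⟩ := key (8 * (3 * c) + 7) (by omega) (by omega)
    obtain ⟨b1, -, -, -, b5, b6⟩ := key (8 * (3 * c + 1) + 7) (by omega) (by omega)
    obtain ⟨c1, -, -, -, c5, -⟩ := key (8 * (3 * c + 2) + 7) (by omega) (by omega)
    have := a6 (8 * (3 * c + 1) + 7) (by omega) (by omega) 0 (by omega)
    have := a6 (8 * (3 * c + 2) + 7) (by omega) (by omega) 0 (by omega)
    have := b6 (8 * (3 * c + 2) + 7) (by omega) (by omega) 0 (by omega)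
    have := ty (8 * (3 * c) + 7) (by omega) 0 (by omega)
    have := ty (8 * (3 * c + 1) + 7) (by omega) 0 (by omega)
    have := ty (8 * (3 * c + 2) + 7) (by omega) 0 (by omega)
    have z : ∀ i p, p < 3 → idn φ i = idn φ (8 * (3 * c + p) + 7) → i % 2 = 1 ∧ i / 8 / 3 = c :=
      fun i p _ e => by unfold idn at e; split_ifs at e <;> omega
    have := z _ 0 (by omega) a1
    have := z _ 1 (by omega) b1
    have := z _ 2 (by omega) c1
    generalize f (β (8 * (3 * c) + 7)) 0 = i0, f (β (8 * (3 * c + 1) + 7)) 0 = i1,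
      f (β (8 * (3 * c + 2) + 7)) 0 = i2, f (β (8 * (3 * c) + 7)) 1 = j0,
      f (β (8 * (3 * c + 1) + 7)) 1 = j1, f (β (8 * (3 * c + 2) + 7)) 1 = j2 at *
    omega

theorem bp_sum {y : ℕ × ℕ × List ℕ} (h : BP y) : y.2.2.sum = y.1 * y.2.1 := by
  obtain ⟨β, a, b⟩ := h
  have := sum_congr (s₁ := range y.1) rfl fun j m => b j (mem_range.1 m)
  rw [sum_comm, sum_congr rfl (g := fun i => y.2.2.getD i 0) fun i m => by
    simp [a i (mem_range.1 m)]] at this
  simp only [sum_const, card_range, smul_eq_mul] at this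
  rw [← this]
  generalize y.2.2 = l
  induction l with
  | nil => rfl
  | cons a l ih => simp [sum_range_succ', ih, add_comm]

/-- unary bin packing is NP-hard -/
theorem hard_BP : HardFor InNP (fun y => y.2.2.sum = y.1 * y.2.1 ∧ ∀ a ∈ y.2.2, y.2.1 < 5 * a) BP := by
  have p : PT fun φ => inst φ (3 * φ.length + 1) := by
    unfold inst hv idn nxt cyc var p2; fun_prop
  refine hard_ONE3.red (fun φ => if (inst φ (3 * φ.length + 1)).2.2.sum =
    (inst φ (3 * φ.length + 1)).1 * (inst φ (3 * φ.length + 1)).2.1 then inst φ (3 * φ.length + 1)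
    else (2, 3, [2, 2, 2])) (PT.comp (f := fun y : ℕ × ℕ × List ℕ => if y.2.2.sum = y.1 * y.2.1
      then y else (2, 3, [2, 2, 2])) (by fun_prop) p) fun φ _ => ?_
  rw [inst_iff]
  split_ifs with e
  · refine ⟨⟨e, fun a m => ?_⟩, .rfl⟩
    simp only [inst, List.mem_map] at m ⊢
    obtain ⟨i, -, rfl⟩ := m
    omega
  · refine ⟨by simp, fun h => absurd (bp_sum h) e, fun ⟨β, a, b⟩ => ?_⟩
    have := b 0 (by simp)
    simp [sum_range_succ] at this
    split_ifs at this <;> omega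

end Pool.Agent.H23.BP
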