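import Mathlib
import Pool.Agent.H23.PR

set_option autoImplicit false

namespace Pool.Agent.H23.Bipart

open Nat.Partrec (Code)
open Nat.Partrec.Code

def node (e k j : ℕ) : ℕ := Nat.pair e (Nat.pair k j)
def cE (x : ℕ) : ℕ := (x / 10).unpair.1
def cK (x : ℕ) : ℕ := (x / 10).unpair.2.unpair.1
def cJ (x : ℕ) : ℕ := (x / 10).unpair.2.unpair.2

def run (e q : ℕ) : ℕ :=
  Encodable.encode (evaln q (Denumerable.ofNat Code e) (10 * node e 0 0))

/-- 0 = internal level, 1 = leaf level, 2 = dead level. -/
def status (e k : ℕ) : ℕ :=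
  bif run e (k / 2) == 0 then 0 else
    bif run e (k / 2 - 1) == 0 then
      (bif run e (k / 2) == 1 then (bif k % 2 == 0 then 0 else 1)
        else (bif k % 2 == 0 then 1 else 2))
    else 2

def table : List (List ℕ) :=
  [[2, 3, 5, 8], [3, 4, 5, 7, 9], [0, 3, 4, 5, 9], [0, 1, 2, 6, 8], [1, 2, 6, 7, 8],
   [0, 1, 2, 6, 8], [3, 4, 5, 7, 9], [1, 4, 6, 9], [0, 3, 4, 5, 9], [1, 2, 6, 7, 8]]

def gn (i : ℕ) : List ℕ := table.getD i []

def partG (x : ℕ) : List ℕ :=
  bif status (cE x) (cK x) == 1 then (gn (x % 10)).map (fun i => 10 * (x / 10) + i) else []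

def partC (x : ℕ) : List ℕ :=
  bif x % 10 == 0 && status (cE x) (cK x) == 0 then
    (List.range 4).map (fun r => 10 * node (cE x) (cK x + 1) (4 * cJ x + r)) else []

def partP (x : ℕ) : List ℕ :=
  bif x % 10 == 0 && !(cK x == 0) && status (cE x) (cK x - 1) == 0 then
    [10 * node (cE x) (cK x - 1) (cJ x / 4)] else []

def N (x : ℕ) : List ℕ := partG x ++ partC x ++ partP x

theorem N_primrec : Primrec N := by
  have hs : Primrec fun p : ℕ × ℕ => status p.1 p.2 := by
    unfold status run node; fun_prop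
  have hE : Primrec cE := by unfold cE; fun_prop
  have hK : Primrec cK := by unfold cK; fun_prop
  have hJ : Primrec cJ := by unfold cJ; fun_prop
  have h1 : Primrec fun x => status (cE x) (cK x) := hs.comp (hE.pair hK)
  have h2 : Primrec fun x => status (cE x) (cK x - 1) :=
    hs.comp (hE.pair (show Primrec fun x => cK x - 1 by fun_prop))
  have hG : Primrec partG := by unfold partG gn; fun_prop
  have hC : Primrec partC := by unfold partC node; fun_prop
  have hP : Primrec partP := by unfold partP node; fun_prop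
  unfold N; fun_prop

theorem gn_lt (i : ℕ) : ∀ z ∈ gn i, z < 10 := by
  by_cases h : i < 10
  · interval_cases i <;> decide
  · simp only [gn, List.getD_eq_getElem?_getD, table]
    intro z hz
    rw [List.getElem?_eq_none (by simp; omega)] at hz
    simp at hz

theorem gn_symm : ∀ i < 10, ∀ z < 10, z ∈ gn i → i ∈ gn z := by decide
theorem gn_irrefl : ∀ i < 10, i ∉ gn i := by decide
theorem gn_nodup : ∀ i < 10, (gn i).Nodup := by decide
theorem gn_len : ∀ i < 10, (gn i).length ≤ 5 := by decide

@[simp] theorem cE_node (e k j i : ℕ) (hi : i < 10) : cE (10 * node e k j + i) = e := by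
  have : (10 * node e k j + i) / 10 = node e k j := by omega
  rw [cE, this]; simp [node]
@[simp] theorem cK_node (e k j i : ℕ) (hi : i < 10) : cK (10 * node e k j + i) = k := by
  have : (10 * node e k j + i) / 10 = node e k j := by omega
  rw [cK, this]; simp [node]
@[simp] theorem cJ_node (e k j i : ℕ) (hi : i < 10) : cJ (10 * node e k j + i) = j := by
  have : (10 * node e k j + i) / 10 = node e k j := by omega
  rw [cJ, this]; simp [node]
@[simp] theorem cE_node0 (e k j : ℕ) : cE (10 * node e k j) = e := cE_node e k j 0 (by omega)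
@[simp] theorem cK_node0 (e k j : ℕ) : cK (10 * node e k j) = k := cK_node e k j 0 (by omega)
@[simp] theorem cJ_node0 (e k j : ℕ) : cJ (10 * node e k j) = j := cJ_node e k j 0 (by omega)

theorem eq_node (x : ℕ) : x = 10 * node (cE x) (cK x) (cJ x) + x % 10 := by
  simp only [node, cE, cK, cJ, Nat.pair_unpair]; omega

theorem ext_node {x y : ℕ} (h1 : cE x = cE y) (h2 : cK x = cK y) (h3 : cJ x = cJ y)
    (h4 : x % 10 = y % 10) : x = y := by
  rw [eq_node x, eq_node y, h1, h2, h3, h4]

theorem mem_partG {x y : ℕ} : y ∈ partG x ↔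
    status (cE x) (cK x) = 1 ∧ y / 10 = x / 10 ∧ y % 10 ∈ gn (x % 10) := by
  unfold partG
  by_cases h : status (cE x) (cK x) = 1
  · simp only [h, beq_self_eq_true, cond_true, List.mem_map, true_and]
    constructor
    · rintro ⟨i, hi, rfl⟩
      have := gn_lt _ i hi
      refine ⟨by omega, ?_⟩
      rwa [show (10 * (x / 10) + i) % 10 = i by omega]
    · rintro ⟨h1, h2⟩
      exact ⟨y % 10, h2, by omega⟩
  · have : (status (cE x) (cK x) == 1) = false := by simpa using h
    simp [h, this]

def Par (x y : ℕ) : Prop :=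
  x % 10 = 0 ∧ y % 10 = 0 ∧ status (cE x) (cK x) = 0 ∧ cE y = cE x ∧ cK y = cK x + 1 ∧
    cJ y / 4 = cJ x

theorem mem_partC {x y : ℕ} : y ∈ partC x ↔ Par x y := by
  unfold partC Par
  by_cases h : x % 10 = 0 ∧ status (cE x) (cK x) = 0
  · simp only [h.1, h.2, beq_self_eq_true, Bool.and_self, cond_true, List.mem_map,
      List.mem_range, true_and]
    constructor
    · rintro ⟨r, hr, rfl⟩
      simp only [cE_node0, cK_node0, cJ_node0, true_and]
      omega
    · rintro ⟨h1, h2, h3, h4⟩
      refine ⟨cJ y % 4, by omega, ext_node (by simp [h2]) (by simp [h3]) ?_ (by omega)⟩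
      simp only [cJ_node0]; omega
  · have : (x % 10 == 0 && status (cE x) (cK x) == 0) = false := by
      simpa using h
    simp only [this, cond_false, List.not_mem_nil, false_iff]
    tauto

theorem mem_partP {x y : ℕ} : y ∈ partP x ↔ Par y x := by
  unfold partP Par
  by_cases h : x % 10 = 0 ∧ cK x ≠ 0 ∧ status (cE x) (cK x - 1) = 0
  · have : (x % 10 == 0 && !(cK x == 0) && status (cE x) (cK x - 1) == 0) = true := by
      simp [h.1, h.2.1, h.2.2]
    simp only [this, cond_true, List.mem_singleton]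
    constructor
    · rintro rfl
      simp only [cE_node0, cK_node0, cJ_node0]
      have := h.2.1
      exact ⟨by omega, h.1, h.2.2, trivial, by omega, trivial⟩
    · rintro ⟨h1, h2, h3, h4, h5, h6⟩
      exact ext_node (by simp [h4]) (by simp [h5]) (by simp [h6]) (by omega)
  · have : (x % 10 == 0 && !(cK x == 0) && status (cE x) (cK x - 1) == 0) = false := by
      rw [Bool.eq_false_iff]
      intro hc
      simp only [Bool.and_eq_true, beq_iff_eq, Bool.not_eq_eq_eq_not, Bool.not_true,
        beq_eq_false_iff_ne] at hc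
      exact h ⟨hc.1.1, hc.1.2, hc.2⟩
    simp only [this, cond_false, List.not_mem_nil, false_iff]
    rintro ⟨h1, h2, h3, h4, h5, h6⟩
    apply h
    refine ⟨h2, by omega, ?_⟩
    rw [h4, h5]; simpa using h3

theorem div_eq {x y : ℕ} (h : y / 10 = x / 10) : cE y = cE x ∧ cK y = cK x := by
  simp [cE, cK, h]

theorem mem_N {x y : ℕ} : y ∈ N x ↔
    (status (cE x) (cK x) = 1 ∧ y / 10 = x / 10 ∧ y % 10 ∈ gn (x % 10)) ∨ Par x y ∨ Par y x := by
  simp [N, mem_partG, mem_partC, mem_partP]

theorem N_symm {x y : ℕ} (h : y ∈ N x) : x ∈ N y := by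
  rw [mem_N] at h ⊢
  rcases h with ⟨h1, h2, h3⟩ | h | h
  · left
    rw [(div_eq h2).1, (div_eq h2).2]
    exact ⟨h1, h2.symm, gn_symm _ (by omega) _ (by omega) h3⟩
  · tauto
  · tauto

theorem N_irrefl (x : ℕ) : x ∉ N x := by
  rw [mem_N]
  rintro (⟨_, _, h3⟩ | h | h)
  · exact gn_irrefl _ (by omega) h3
  · have := h.2.2.2.2.1; omega
  · have := h.2.2.2.2.1; omega

theorem N_nodup (x : ℕ) : (N x).Nodup := by
  have hG : (partG x).Nodup := by
    unfold partG
    cases status (cE x) (cK x) == 1
    · simp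
    · exact (gn_nodup _ (by omega)).map (fun a b h => by simpa using h)
  have hC : (partC x).Nodup := by
    unfold partC
    cases (x % 10 == 0 && status (cE x) (cK x) == 0)
    · simp
    · refine List.nodup_range.map (fun a b h => ?_)
      have := congrArg cJ h
      simpa using this
  have hP : (partP x).Nodup := by
    unfold partP
    cases (x % 10 == 0 && !(cK x == 0) && status (cE x) (cK x - 1) == 0) <;> simp
  unfold N
  rw [List.nodup_append, List.nodup_append]
  refine ⟨⟨hG, hC, ?_⟩, hP, ?_⟩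
  · rintro a ha b hb rfl
    have h1 := (div_eq (mem_partG.1 ha).2.1).2
    have h2 := (mem_partC.1 hb).2.2.2.2.1
    omega
  · rintro a ha b hb rfl
    have h2 := (mem_partP.1 hb).2.2.2.2.1
    rcases List.mem_append.1 ha with ha | ha
    · have h1 := (div_eq (mem_partG.1 ha).2.1).2
      omega
    · have h1 := (mem_partC.1 ha).2.2.2.2.1
      omega

theorem N_len (x : ℕ) : (N x).length ≤ 5 := by
  have h5 := gn_len (x % 10) (by omega)
  have h4 : (gn 0).length = 4 := rfl
  unfold N partG partC partP
  by_cases h0 : x % 10 = 0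
  · rw [h0]
    by_cases h1 : status (cE x) (cK x) = 1
    · simp only [h1]
      cases (0 == 0 && !(cK x == 0) && status (cE x) (cK x - 1) == 0) <;> simp [h4]
    · have : (status (cE x) (cK x) == 1) = false := by simpa using h1
      rw [this]
      cases (0 == 0 && !(cK x == 0) && status (cE x) (cK x - 1) == 0) <;>
        cases (0 == 0 && status (cE x) (cK x) == 0) <;> simp
  · have : (x % 10 == 0) = false := by simpa using h0
    rw [this]
    cases (status (cE x) (cK x) == 1) <;> simp [h5]

def G : SimpleGraph ℕ where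
  Adj x y := y ∈ N x
  symm := ⟨fun _ _ h => N_symm h⟩
  loopless := ⟨fun x => N_irrefl x⟩

theorem nbr_eq (x : ℕ) : G.neighborSet x = ↑(N x).toFinset := by
  ext y; simp [G]

theorem nbr_fin (x : ℕ) : (G.neighborSet x).Finite := by
  rw [nbr_eq]; exact Finset.finite_toSet _

theorem nbr_card (x : ℕ) : (G.neighborSet x).ncard = (N x).length := by
  rw [nbr_eq, Set.ncard_coe_finset, List.toFinset_card_of_nodup (N_nodup x)]

theorem cnt (x : ℕ) (W : Set ℕ) (L : List ℕ) (hL : L.Nodup) (h : ∀ z ∈ L, z ∈ N x ∧ z ∈ W) :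
    L.length ≤ (G.neighborSet x ∩ W).ncard := by
  rw [← List.toFinset_card_of_nodup hL, ← Set.ncard_coe_finset]
  apply Set.ncard_le_ncard _ ((nbr_fin x).inter_of_left W)
  intro z hz
  exact h z (by simpa using hz)

def okB (l : List Bool) : Bool :=
  (List.range 10).all fun i =>
    bif l.getD i false then Nat.ble ((gn i).filter fun z => l.getD z false).length 1
    else Nat.ble ((gn i).filter fun z => !l.getD z false).length 3

theorem gadget : ∀ b0 b1 b2 b3 b4 b5 b6 b7 b8 b9 : Bool,
    okB [b0, b1, b2, b3, b4, b5, b6, b7, b8, b9] = true → b0 = false := by decide +kernel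

section
variable (V₁ V₂ : Set ℕ) (hU : V₁ ∪ V₂ = Set.univ)
  (h1 : ∀ x ∈ V₁, (G.neighborSet x ∩ V₁).ncard ≤ 1)
  (h2 : ∀ x ∈ V₂, (G.neighborSet x ∩ V₂).ncard ≤ 3)
include hU h1 h2

theorem leaf_forced (e k j : ℕ) (hs : status e k = 1) : 10 * node e k j ∉ V₁ := by
  classical
  let f : ℕ → Bool := fun i => decide (10 * node e k j + i ∈ V₁)
  have hf : ∀ i < 10, [f 0, f 1, f 2, f 3, f 4, f 5, f 6, f 7, f 8, f 9].getD i false = f i := by
    intro i hi; interval_cases i <;> rfl
  have := gadget (f 0) (f 1) (f 2) (f 3) (f 4) (f 5) (f 6) (f 7) (f 8) (f 9) ?_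
  · simpa [f] using this
  unfold okB
  rw [List.all_eq_true]
  intro i hi
  have hi : i < 10 := List.mem_range.1 hi
  have hN : ∀ z ∈ gn i, 10 * node e k j + z ∈ N (10 * node e k j + i) := by
    intro z hz
    have := gn_lt i z hz
    rw [mem_N]
    left
    rw [cE_node _ _ _ _ hi, cK_node _ _ _ _ hi]
    refine ⟨hs, by omega, ?_⟩
    rwa [show (10 * node e k j + z) % 10 = z by omega,
      show (10 * node e k j + i) % 10 = i by omega]
  rw [hf i hi, List.filter_congr (q := fun z => f z) (fun z hz => hf z (gn_lt i z hz)),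
    List.filter_congr (p := fun z => !List.getD _ z false) (q := fun z => !f z)
      (fun z hz => by rw [hf z (gn_lt i z hz)])]
  have hnd : ∀ p : ℕ → Bool, (((gn i).filter p).map (fun z => 10 * node e k j + z)).Nodup :=
    fun p => ((gn_nodup i hi).filter p).map (fun a b h => by simpa using h)
  cases hfi : f i
  · have hV : 10 * node e k j + i ∈ V₂ := by
      have h3 : 10 * node e k j + i ∈ V₁ ∪ V₂ := hU ▸ Set.mem_univ _
      exact h3.resolve_left (by simpa [f] using hfi)
    have := cnt (10 * node e k j + i) V₂ _ (hnd fun z => !f z) (by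
      intro z hz
      obtain ⟨w, hw, rfl⟩ := List.mem_map.1 hz
      obtain ⟨hw1, hw2⟩ := List.mem_filter.1 hw
      have h3 : 10 * node e k j + w ∈ V₁ ∪ V₂ := hU ▸ Set.mem_univ _
      exact ⟨hN w hw1, h3.resolve_left (by simpa [f] using hw2)⟩)
    have := h2 _ hV
    simp only [cond_false, Nat.ble_eq, List.length_map] at *
    omega
  · have hV : 10 * node e k j + i ∈ V₁ := by simpa [f] using hfi
    have := cnt (10 * node e k j + i) V₁ _ (hnd fun z => f z) (by
      intro z hz
      obtain ⟨w, hw, rfl⟩ := List.mem_map.1 hz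
      obtain ⟨hw1, hw2⟩ := List.mem_filter.1 hw
      exact ⟨hN w hw1, by simpa [f] using hw2⟩)
    have := h1 _ hV
    simp only [cond_true, Nat.ble_eq, List.length_map] at *
    omega

omit hU h1 h2 in
theorem child_cnt (e k j : ℕ) (hs : status e k = 0) (W : Set ℕ)
    (hW : ∀ j', 10 * node e (k + 1) j' ∈ W) : 4 ≤ (G.neighborSet (10 * node e k j) ∩ W).ncard := by
  have := cnt (10 * node e k j) W
    ((List.range 4).map (fun r => 10 * node e (k + 1) (4 * j + r)))
    (List.nodup_range.map (fun a b h => by simpa using congrArg cJ h)) (by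
      intro z hz
      obtain ⟨r, hr, rfl⟩ := List.mem_map.1 hz
      have := List.mem_range.1 hr
      refine ⟨?_, hW _⟩
      rw [mem_N]
      right; left
      simp only [Par, cE_node0, cK_node0, cJ_node0]
      exact ⟨by omega, by omega, hs, trivial, trivial, by omega⟩)
  simpa using this

theorem tree_forced (e D : ℕ) (hl : status e D = 1) (hi : ∀ k < D, status e k = 0) :
    ∀ h k, k + h = D → ∀ j, (10 * node e k j ∈ V₁ ↔ h % 2 = 1) := by
  intro h
  induction h with
  | zero =>
    intro k hk j
    have : k = D := by omega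
    subst this
    simpa using leaf_forced V₁ V₂ hU h1 h2 e k j hl
  | succ h ih =>
    intro k hk j
    have ih' := ih (k + 1) (by omega)
    have hs := hi k (by omega)
    by_cases hp : h % 2 = 1
    · have := child_cnt e k j hs V₁ (fun j' => (ih' j').2 hp)
      constructor
      · intro hV; have := h1 _ hV; omega
      · omega
    · have := child_cnt e k j hs V₂ (fun j' => by
        have h3 : 10 * node e (k + 1) j' ∈ V₁ ∪ V₂ := hU ▸ Set.mem_univ _
        exact h3.resolve_left (fun hc => hp ((ih' j').1 hc)))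
      constructor
      · omega
      · intro _
        have h3 : 10 * node e k j ∈ V₁ ∪ V₂ := hU ▸ Set.mem_univ _
        refine h3.resolve_right fun hV => ?_
        have := h2 _ hV; omega

theorem not_comp : ¬ ComputablePred (fun x : ℕ => x ∈ V₁) := by
  classical
  intro hc
  obtain ⟨c, hc⟩ := exists_code.1 (Partrec.nat_iff.1
    ((Computable.encode.comp hc.decide).partrec))
  let e := Encodable.encode c
  let r := 10 * node e 0 0
  let v := Encodable.encode (decide (r ∈ V₁))
  have hv : v ∈ eval c r := by rw [hc]; exact Part.mem_some _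
  have hex := evaln_complete.1 hv
  have hrun : ∀ q, run e q = Encodable.encode (evaln q c r) := by
    intro q; simp [run, e, r]
  let s := Nat.find hex
  have hs : v ∈ evaln s c r := Nat.find_spec hex
  have hlt : ∀ q < s, run e q = 0 := by
    intro q hq
    rw [hrun]
    rcases hq' : evaln q c r with _ | w
    · rfl
    · exfalso
      have hw : w ∈ evaln q c r := by rw [hq']; rfl
      have := Part.mem_unique (evaln_sound hw) hv
      exact Nat.find_min hex hq (this ▸ hw)
  have hs0 : 0 < s := by
    by_contra h0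
    have : s = 0 := by omega
    rw [this] at hs
    simp [evaln] at hs
  have hrs : run e s = v + 1 := by
    rw [hrun, Option.mem_def.1 hs]; rfl
  have hpre := hlt (s - 1) (by omega)
  have hint : ∀ k < 2 * s, status e k = 0 := by
    intro k hk
    simp [status, hlt (k / 2) (by omega)]
  by_cases hr : r ∈ V₁
  · have hv1 : v = 1 := by simp [v, hr]
    have hl : status e (2 * s) = 1 := by simp [status, hrs, hpre, hv1]
    have := (tree_forced V₁ V₂ hU h1 h2 e (2 * s) hl hint (2 * s) 0 (by omega) 0).1 hr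
    omega
  · have hv0 : v = 0 := by simp [v, hr]
    have e1 : (2 * s + 1) / 2 = s := by omega
    have e2 : (2 * s + 1) % 2 = 1 := by omega
    have hl : status e (2 * s + 1) = 1 := by simp [status, e1, e2, hrs, hpre, hv0]
    have hint' : ∀ k < 2 * s + 1, status e k = 0 := by
      intro k hk
      rcases Nat.lt_succ_iff_lt_or_eq.1 hk with h | rfl
      · exact hint k h
      · simp [status, hrs, hpre, hv0]
    exact hr ((tree_forced V₁ V₂ hU h1 h2 e (2 * s + 1) hl hint' (2 * s + 1) 0 (by omega) 0).2 e2)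

end

theorem main :
    ¬ (∀ (V : Set ℕ) (G : SimpleGraph ℕ) (n₁ n₂ : ℕ),
      ComputablePred (fun x : ℕ => x ∈ V) →
      ComputablePred (fun p : ℕ × ℕ => G.Adj p.1 p.2) →
      (∀ x y : ℕ, G.Adj x y → x ∈ V) →
      (∀ x : ℕ, (G.neighborSet x).Finite) →
      (∃ d : ℕ → ℕ, Computable d ∧ ∀ x ∈ V, (G.neighborSet x).ncard = d x) →
      (∀ x ∈ V, (G.neighborSet x).ncard ≤ n₁ + n₂ + 1) →
      (∃ x ∈ V, (G.neighborSet x).ncard = n₁ + n₂ + 1) →
      ∃ V₁ V₂ : Set ℕ,
        ComputablePred (fun x : ℕ => x ∈ V₁) ∧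
        ComputablePred (fun x : ℕ => x ∈ V₂) ∧
        V₁ ∪ V₂ = V ∧ Disjoint V₁ V₂ ∧
        (∀ x ∈ V₁, (G.neighborSet x ∩ V₁).ncard ≤ n₁) ∧
        (∀ x ∈ V₂, (G.neighborSet x ∩ V₂).ncard ≤ n₂)) := by
  intro H
  have hN := N_primrec
  obtain ⟨V₁, V₂, c1, -, hU, -, h1, h2⟩ := H Set.univ G 1 3
    (ComputablePred.computable_iff.2 ⟨fun _ => true, Computable.const _, by simp⟩)
    (ComputablePred.computable_iff.2 ⟨fun p => (N p.1).any (fun z => z == p.2),
      (show Primrec _ by fun_prop).to_comp, by ext p; simp [G]⟩)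
    (fun _ _ _ => Set.mem_univ _) nbr_fin
    ⟨fun x => (N x).length, (show Primrec _ by fun_prop).to_comp, fun x _ => nbr_card x⟩
    (fun x _ => by rw [nbr_card]; exact N_len x)
    ⟨10 * node 0 1 0, Set.mem_univ _, by
      have r0 : run 0 0 = 0 := by simp [run, evaln]
      have s1 : status 0 1 = 0 := by simp [status, r0]
      have s0 : status 0 0 = 0 := by simp [status, r0]
      rw [nbr_card]
      simp [N, partG, partC, partP, s1, s0]⟩
  exact not_comp V₁ V₂ hU h1 h2 c1

end Pool.Agent.H23.Bipart
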