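import Mathlib

set_option autoImplicit false

namespace Pool.Agent.H23.Bog

def A (p q : ℤ × ℤ) : Prop :=
  p.1 ≤ q.1 + 1 ∧ q.1 ≤ p.1 + 1 ∧ p.2 ≤ q.2 + 1 ∧ q.2 ≤ p.2 + 1 ∧ ¬ (p.1 = q.1 ∧ p.2 = q.2)

def D (p q : ℤ × ℤ) : Prop := ¬ (p.1 = q.1 ∧ p.2 = q.2)

theorem axis {c m p q r : ℤ × ℤ} (h : A c m) (h1 : A c p) (h2 : A c q) (h3 : A c r) (k1 : A m p)
    (k2 : A m q) (k3 : A m r) (d1 : D p q) (d2 : D p r) (d3 : D q r) : c.1 = m.1 ∨ c.2 = m.2 := by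
  unfold A D at *; omega

theorem opp {c e n w s : ℤ × ℤ} (h1 : A c e) (h2 : A c n) (h3 : A c w) (h4 : A c s)
    (a1 : c.1 = e.1 ∨ c.2 = e.2) (a2 : c.1 = n.1 ∨ c.2 = n.2) (a3 : c.1 = w.1 ∨ c.2 = w.2)
    (a4 : c.1 = s.1 ∨ c.2 = s.2) (k1 : A e n) (k2 : A n w) (k3 : A w s) (k4 : A s e) (d1 : D e w)
    (d2 : D n s) : (e.1 + w.1 = 2 * c.1 ∧ e.2 + w.2 = 2 * c.2) ∧
      n.1 + s.1 = 2 * c.1 ∧ n.2 + s.2 = 2 * c.2 := by
  have : ∀ {e : ℤ × ℤ}, A c e → c.1 = e.1 ∨ c.2 = e.2 → (e.1 = c.1 + 1 ∧ e.2 = c.2) ∨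
      (e.1 = c.1 - 1 ∧ e.2 = c.2) ∨ (e.1 = c.1 ∧ e.2 = c.2 + 1) ∨ (e.1 = c.1 ∧ e.2 = c.2 - 1) := by
    unfold A; omega
  unfold A at k1 k2 k3 k4
  unfold D at d1 d2
  rcases this h1 a1 with a | a | a | a <;> rcases this h2 a2 with b | b | b | b <;>
    rcases this h3 a3 with c | c | c | c <;> rcases this h4 a4 with d | d | d | d <;>
    clear this h1 h2 h3 h4 a1 a2 a3 a4 <;> omega

theorem cor {c e n p : ℤ × ℤ} (h1 : A c e) (h2 : A c n) (a1 : c.1 = e.1 ∨ c.2 = e.2)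
    (a2 : c.1 = n.1 ∨ c.2 = n.2) (k : A e n) (h : A c p) (k1 : A e p) (k2 : A n p) :
    p.1 + c.1 = e.1 + n.1 ∧ p.2 + c.2 = e.2 + n.2 := by
  unfold A at *; omega

/-- neighbouring cells -/
def Nb (x y x' y' : ℕ) : Prop :=
  x ≤ x' + 1 ∧ x' ≤ x + 1 ∧ y ≤ y' + 1 ∧ y' ≤ y + 1 ∧ ¬ (x = x' ∧ y = y')

theorem A.symm {p q : ℤ × ℤ} (h : A p q) : A q p := by unfold A at *; omega

theorem win (f : ℕ → ℕ → ℤ × ℤ) (x y : ℕ)
    (h : ∀ i ≤ 2, ∀ j ≤ 2, ∀ i' ≤ 2, ∀ j' ≤ 2, (Nb i j i' j' → A (f (x + i) (y + j)) (f (x + i') (y + j'))) ∧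
      (¬ (i = i' ∧ j = j') → D (f (x + i) (y + j)) (f (x + i') (y + j')))) :
    ((f (x + 1) (y + 1)).1 = (f (x + 2) (y + 1)).1 ∨ (f (x + 1) (y + 1)).2 = (f (x + 2) (y + 1)).2) ∧
    ((f (x + 1) (y + 1)).1 = (f (x + 1) (y + 2)).1 ∨ (f (x + 1) (y + 1)).2 = (f (x + 1) (y + 2)).2) ∧
    ∀ i ≤ 2, ∀ j ≤ 2, (f (x + i) (y + j)).1 = (f x y).1 + i * ((f (x + 1) y).1 - (f x y).1) +
      j * ((f x (y + 1)).1 - (f x y).1) ∧ (f (x + i) (y + j)).2 = (f x y).2 +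
      i * ((f (x + 1) y).2 - (f x y).2) + j * ((f x (y + 1)).2 - (f x y).2) := by
  have a := fun i j i' j' (e : i ≤ 2 ∧ j ≤ 2 ∧ i' ≤ 2 ∧ j' ≤ 2 ∧ Nb i j i' j') =>
    (h i e.1 j e.2.1 i' e.2.2.1 j' e.2.2.2.1).1 e.2.2.2.2
  have d := fun i j i' j' (e : i ≤ 2 ∧ j ≤ 2 ∧ i' ≤ 2 ∧ j' ≤ 2 ∧ ¬ (i = i' ∧ j = j')) =>
    (h i e.1 j e.2.1 i' e.2.2.1 j' e.2.2.2.1).2 e.2.2.2.2
  unfold Nb at a
  have ce := a 1 1 2 1 (by omega)
  have cn := a 1 1 1 2 (by omega)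
  have cw := a 1 1 0 1 (by omega)
  have cs := a 1 1 1 0 (by omega)
  have en := a 2 1 1 2 (by omega)
  have nw := a 1 2 0 1 (by omega)
  have ws := a 0 1 1 0 (by omega)
  have se := a 1 0 2 1 (by omega)
  have ns := d 1 2 1 0 (by omega)
  have ew := d 2 1 0 1 (by omega)
  have e := axis ce cn cs (a 1 1 2 2 (by omega)) en se.symm (a 2 1 2 2 (by omega)) ns
    (d 1 2 2 2 (by omega)) (d 1 0 2 2 (by omega))
  have n := axis cn ce cw (a 1 1 2 2 (by omega)) en.symm nw (a 1 2 2 2 (by omega)) ew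
    (d 2 1 2 2 (by omega)) (d 0 1 2 2 (by omega))
  have w := axis cw cn cs (a 1 1 0 0 (by omega)) nw.symm ws (a 0 1 0 0 (by omega)) ns
    (d 1 2 0 0 (by omega)) (d 1 0 0 0 (by omega))
  have s := axis cs ce cw (a 1 1 0 0 (by omega)) se ws.symm (a 1 0 0 0 (by omega)) ew
    (d 2 1 0 0 (by omega)) (d 0 1 0 0 (by omega))
  have o := opp ce cn cw cs e n w s en nw ws se ew ns
  have c1 := cor ce cn e n en (a 1 1 2 2 (by omega)) (a 2 1 2 2 (by omega))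
    (a 1 2 2 2 (by omega))
  have c2 := cor cn cw n w nw (a 1 1 0 2 (by omega)) (a 1 2 0 2 (by omega))
    (a 0 1 0 2 (by omega))
  have c3 := cor cw cs w s ws (a 1 1 0 0 (by omega)) (a 0 1 0 0 (by omega))
    (a 1 0 0 0 (by omega))
  have c4 := cor cs ce s e se (a 1 1 2 0 (by omega)) (a 1 0 2 0 (by omega))
    (a 2 1 2 0 (by omega))
  refine ⟨e, n, fun i hi j hj => ?_⟩
  simp only [add_zero] at o c1 c2 c3 c4
  clear a d h ce cn cw cs en nw ws se ns ew e n w s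
  interval_cases i <;> interval_cases j <;> (try simp only [add_zero]) <;> omega

/-- cells of the frame -/
def Fr (k B x y : ℕ) : Prop := ¬ (y % 4 = 3 ∧ y < 4 * k ∧ 3 ≤ x ∧ x < 3 + B)

variable {k B n : ℕ} {f : ℕ → ℕ → ℤ × ℤ}

def Emb (k B n : ℕ) (f : ℕ → ℕ → ℤ × ℤ) : Prop :=
  ∀ x < n, ∀ y < n, ∀ x' < n, ∀ y' < n, Fr k B x y → Fr k B x' y' →
    (Nb x y x' y' → A (f x y) (f x' y')) ∧ (¬ (x = x' ∧ y = y') → D (f x y) (f x' y'))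

theorem Emb.win (h : Emb k B n f) (x y : ℕ) (a : x + 2 < n ∧ y + 2 < n ∧
    (x = 0 ∨ 3 + B ≤ x ∨ y % 4 = 0 ∨ 4 * k ≤ y)) : ∀ i ≤ 2, ∀ j ≤ 2, ∀ i' ≤ 2, ∀ j' ≤ 2,
    (Nb i j i' j' → A (f (x + i) (y + j)) (f (x + i') (y + j'))) ∧
      (¬ (i = i' ∧ j = j') → D (f (x + i) (y + j)) (f (x + i') (y + j'))) := fun i _ j _ i' _ j' _ => by
  have := h (x + i) (by omega) (y + j) (by omega) (x + i') (by omega) (y + j') (by omega)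
    (by unfold Fr; omega) (by unfold Fr; omega)
  exact ⟨fun e => this.1 (by unfold Nb at *; omega), fun e => this.2 (by omega)⟩

theorem Emb.id (h : Emb k B n f) (hn : n = 4 * k + B + 6) (h0 : f 0 0 = (0, 0))
    (h1 : f 1 0 = (1, 0)) (h2 : f 0 1 = (0, 1)) :
    ∀ x < n, ∀ y < n, Fr k B x y → (f x y).1 = x ∧ (f x y).2 = y := by
  have a : ∀ s x y, x + y = s → x + 2 < n ∧ y + 2 < n ∧
      (x = 0 ∨ 3 + B ≤ x ∨ y % 4 = 0 ∨ 4 * k ≤ y) → ∀ i ≤ 2, ∀ j ≤ 2,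
      (f (x + i) (y + j)).1 = x + i ∧ (f (x + i) (y + j)).2 = y + j := fun s => by
    induction s with
    | zero =>
      intro x y e w i hi j hj
      obtain ⟨rfl, rfl⟩ : x = 0 ∧ y = 0 := by omega
      simpa [h0, h1, h2] using (Bog.win f 0 0 (h.win 0 0 w)).2.2 i hi j hj
    | succ s ih =>
      intro x y e w i hi j hj
      have b := (Bog.win f x y (h.win x y w)).2.2 i hi j hj
      have : ((f x y).1 = x ∧ (f x y).2 = y) ∧ ((f (x + 1) y).1 = x + 1 ∧ (f (x + 1) y).2 = y) ∧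
          (f x (y + 1)).1 = x ∧ (f x (y + 1)).2 = y + 1 := by
        by_cases c : 0 < x ∧ (y % 4 = 0 ∨ 4 * k ≤ y)
        · obtain ⟨x, rfl⟩ : ∃ z, x = z + 1 := ⟨x - 1, by omega⟩
          have := ih x y (by omega) (by omega)
          simpa [add_assoc, one_add_one_eq_two] using And.intro (this 1 (by omega) 0 (by omega))
            (And.intro (this 2 (by omega) 0 (by omega)) (this 1 (by omega) 1 (by omega)))
        · obtain ⟨y, rfl⟩ : ∃ z, y = z + 1 := ⟨y - 1, by omega⟩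
          have := ih x y (by omega) (by omega)
          simpa [add_assoc, one_add_one_eq_two] using And.intro (this 0 (by omega) 1 (by omega))
            (And.intro (this 1 (by omega) 1 (by omega)) (this 0 (by omega) 2 (by omega)))
      simpa [this] using b
  intro x hx y hy c
  obtain ⟨u, v, i, j, rfl, rfl, e⟩ : ∃ u v i j, x = u + i ∧ y = v + j ∧ i ≤ 2 ∧ j ≤ 2 ∧
      u + 2 < n ∧ v + 2 < n ∧ (u = 0 ∨ 3 + B ≤ u ∨ v % 4 = 0 ∨ 4 * k ≤ v) := by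
    unfold Fr at c
    refine ⟨if x ≤ 2 then 0 else min x (n - 3), if y % 4 < 3 ∧ y < 4 * k then y - y % 4 else
      min y (n - 3), if x ≤ 2 then x else x - min x (n - 3),
      if y % 4 < 3 ∧ y < 4 * k then y % 4 else y - min y (n - 3), ?_⟩
    split_ifs <;> omega
  exact_mod_cast a _ u v rfl e.2.2 i e.1 j e.2.1

/-- every embedding of the frame in the board extends to a symmetry of the board -/
theorem Emb.sym (h : Emb k B n f) (hn : n = 4 * k + B + 6)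
    (r : ∀ x < n, ∀ y < n, 0 ≤ (f x y).1 ∧ (f x y).1 < n ∧ 0 ≤ (f x y).2 ∧ (f x y).2 < n) :
    ∃ T : ℤ × ℤ → ℤ × ℤ, (∀ p q, (A p q → A (T p) (T q)) ∧ (D p q → D (T p) (T q))) ∧
      (∀ p : ℤ × ℤ, 0 ≤ p.1 ∧ p.1 < n ∧ 0 ≤ p.2 ∧ p.2 < n →
        0 ≤ (T p).1 ∧ (T p).1 < n ∧ 0 ≤ (T p).2 ∧ (T p).2 < n) ∧
      ∀ x < n, ∀ y < n, Fr k B x y → (T (f x y)).1 = x ∧ (T (f x y)).2 = y := by
  have w := h.win 0 0 (by omega)
  obtain ⟨a, b, c⟩ := Bog.win f 0 0 w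
  have c1 := c 1 (by omega) 1 (by omega)
  have c2 := c 2 (by omega) 1 (by omega)
  have c3 := c 1 (by omega) 2 (by omega)
  have w1 := (w 1 (by omega) 1 (by omega) 2 (by omega) 1 (by omega)).1 (by unfold Nb; omega)
  have w2 := (w 1 (by omega) 1 (by omega) 1 (by omega) 2 (by omega)).1 (by unfold Nb; omega)
  have w3 := (w 2 (by omega) 1 (by omega) 1 (by omega) 2 (by omega)).1 (by unfold Nb; omega)
  simp only [zero_add, A, Nat.cast_one, Nat.cast_ofNat] at a b c1 c2 c3 w1 w2 w3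
  obtain ⟨a1, a2, b1, b2, e1, e2, e⟩ : ∃ a1 a2 b1 b2 : ℤ, f 1 0 = ((f 0 0).1 + a1, (f 0 0).2 + a2) ∧
      f 0 1 = ((f 0 0).1 + b1, (f 0 0).2 + b2) ∧
      (((a1 = 1 ∨ a1 = -1) ∧ a2 = 0 ∧ b1 = 0 ∧ (b2 = 1 ∨ b2 = -1)) ∨
      (a1 = 0 ∧ (a2 = 1 ∨ a2 = -1) ∧ (b1 = 1 ∨ b1 = -1) ∧ b2 = 0)) :=
    ⟨(f 1 0).1 - (f 0 0).1, (f 1 0).2 - (f 0 0).2, (f 0 1).1 - (f 0 0).1, (f 0 1).2 - (f 0 0).2,
      by simp, by simp, by omega⟩
  obtain ⟨T, hT⟩ : ∃ T : ℤ × ℤ → ℤ × ℤ, ∀ p, T p = (a1 * (p.1 - (f 0 0).1) + a2 * (p.2 - (f 0 0).2),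
    b1 * (p.1 - (f 0 0).1) + b2 * (p.2 - (f 0 0).2)) := ⟨_, fun _ => rfl⟩
  have t1 : ∀ p q, (A p q → A (T p) (T q)) ∧ (D p q → D (T p) (T q)) := fun p q => by
    simp only [hT, A, D]
    rcases e with ⟨rfl | rfl, rfl, rfl, rfl | rfl⟩ | ⟨rfl, rfl | rfl, rfl | rfl, rfl⟩ <;> omega
  have t2 := Emb.id (f := fun x y => T (f x y)) (fun x a y b x' c y' d e g =>
    ⟨fun u => (t1 _ _).1 ((h x a y b x' c y' d e g).1 u),
      fun u => (t1 _ _).2 ((h x a y b x' c y' d e g).2 u)⟩) hn (by simp [hT])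
      (by rw [hT, e1]; ext <;>
        rcases e with ⟨rfl | rfl, rfl, rfl, rfl | rfl⟩ | ⟨rfl, rfl | rfl, rfl | rfl, rfl⟩ <;> simp)
      (by rw [hT, e2]; ext <;>
        rcases e with ⟨rfl | rfl, rfl, rfl, rfl | rfl⟩ | ⟨rfl, rfl | rfl, rfl | rfl, rfl⟩ <;> simp)
  refine ⟨T, t1, fun p m => ?_, t2⟩
  have u := t2 (n - 1) (by omega) (n - 1) (by omega) (by unfold Fr; omega)
  have := r 0 (by omega) 0 (by omega)
  have := r (n - 1) (by omega) (n - 1) (by omega)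
  simp only [hT] at u ⊢
  rcases e with ⟨rfl | rfl, rfl, rfl, rfl | rfl⟩ | ⟨rfl, rfl | rfl, rfl | rfl, rfl⟩ <;> omega

end Pool.Agent.H23.Bog
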