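import Mathlib

set_option autoImplicit false

namespace Pool.Agent.H23.CS

open Finset

theorem bad_le {Y M : Type} [Fintype Y] [Fintype M] [DecidableEq Y] [DecidableEq M] [Nonempty M]
    (n : ℕ) (D : ℕ → Finset Y) (π : ℕ → Y → M) (L : ℕ) (h : ∀ l < L, #(D l) ≤ n)
    (d : ∀ k < L, ∀ l < k, Disjoint (D l) (D k)) :
    (#{f : Y → M | ∀ l < L, ¬ ∀ y ∈ D l, f y = π l y} : ℝ) ≤
      Fintype.card (Y → M) * (1 - 1 / Fintype.card M ^ n) ^ L := by
  induction L with
  | zero => simp
  | succ L ih =>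
    have m : (1 : ℝ) ≤ Fintype.card M := by exact_mod_cast Fintype.card_pos
    set B : Finset (Y → M) := {f : Y → M | ∀ l < L, ¬ ∀ y ∈ D l, f y = π l y}
    have a : #B ≤ #{f ∈ B | ∀ y ∈ D L, f y = π L y} * Fintype.card M ^ n := by
      refine le_trans ?_ (Nat.mul_le_mul_left _ (Nat.pow_le_pow_right Fintype.card_pos
        (h L (by simp))))
      rw [← Fintype.card_coe (D L), ← Fintype.card_fun, ← card_univ, ← card_product]
      refine card_le_card_of_injOn (fun f => ((D L).piecewise (π L) f, fun y => f y))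
        (fun f i => ?_) fun f _ g _ e => funext fun y => ?_
      · simp only [B, coe_product, coe_filter, mem_univ, true_and, Set.mem_prod, Set.mem_ofPred_eq,
          mem_filter, coe_univ, Set.mem_univ, and_true] at i ⊢
        exact ⟨fun l j k => i l j fun y o => by
          rw [← k y o, piecewise_eq_of_notMem _ _ _ (disjoint_left.1 (d L (by simp) l j) o)],
          fun y o => piecewise_eq_of_mem _ _ _ o⟩
      · by_cases o : y ∈ D L
        · exact congrFun (congrArg Prod.snd e) ⟨y, o⟩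
        · simpa [o] using congrFun (congrArg Prod.fst e) y
    have b := card_filter_add_card_filter_not (s := B) fun f => ∀ y ∈ D L, f y = π L y
    have c : ({f : Y → M | ∀ l < L + 1, ¬ ∀ y ∈ D l, f y = π l y} : Finset _) =
        {f ∈ B | ¬ ∀ y ∈ D L, f y = π L y} := by
      ext f; simp only [B, mem_filter, mem_univ, true_and, Nat.forall_lt_succ_right]
    have p : (0 : ℝ) < Fintype.card M ^ n := by positivity
    have q : (0 : ℝ) ≤ 1 - 1 / Fintype.card M ^ n :=
      sub_nonneg.2 ((div_le_one p).2 (one_le_pow₀ m))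
    rw [c, pow_succ, ← mul_assoc]
    refine le_trans ?_ (mul_le_mul_of_nonneg_right (ih (fun l j => h l (by omega))
      fun k j => d k (by omega)) q)
    rw [mul_sub, mul_one, mul_one_div, le_sub_iff_add_le, ← b, add_comm, Nat.cast_add]
    gcongr
    rw [div_le_iff₀ p, ← Nat.cast_add, b]
    exact_mod_cast a

theorem exists_fun {Y M S : Type} [Fintype M] [Nonempty M] [Fintype S]
    (n L : ℕ) (D : S → ℕ → Finset Y) (π : S → ℕ → Y → M) (h : ∀ s, ∀ l < L, #(D s l) ≤ n)
    (d : ∀ s, ∀ k < L, ∀ l < k, Disjoint (D s l) (D s k))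
    (c : (Fintype.card S : ℝ) * (1 - 1 / Fintype.card M ^ n) ^ L < 1) :
    ∃ f : Y → M, ∀ s, ∃ l < L, ∀ y ∈ D s l, f y = π s l y := by
  classical
  let Y0 := univ.biUnion fun s => (range L).biUnion (D s)
  obtain ⟨f, hf⟩ : ∃ f : Y0 → M, ∀ s, ∃ l < L, ∀ y ∈ (D s l).subtype (· ∈ Y0), f y = π s l y := by
    by_contra! e
    have a : (univ : Finset (Y0 → M)) ⊆ univ.biUnion fun s =>
        {f | ∀ l < L, ¬ ∀ y ∈ (D s l).subtype (· ∈ Y0), f y = π s l y} := fun f _ => by
      simpa using e f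
    have b := (Nat.cast_le (α := ℝ)).2 ((card_le_card a).trans card_biUnion_le)
    rw [card_univ, Nat.cast_sum] at b
    have := b.trans (sum_le_card_nsmul _ _ _ fun s _ => bad_le (Y := Y0) n
      (fun l => (D s l).subtype (· ∈ Y0)) (fun l y => π s l y) L (fun l j => (card_subtype _ _).trans_le ((card_filter_le _ _).trans (h s l j)))
      fun k j l i => disjoint_left.2 fun y u v =>
        disjoint_left.1 (d s k j l i) (mem_subtype.1 u) (mem_subtype.1 v))
    have p : (0 : ℝ) < Fintype.card (Y0 → M) := by exact_mod_cast Fintype.card_pos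
    rw [nsmul_eq_mul, card_univ, mul_left_comm] at this
    nlinarith
  refine ⟨fun y => if h : y ∈ Y0 then f ⟨y, h⟩ else Classical.arbitrary M, fun s =>
    (hf s).imp fun l ⟨i, j⟩ => ⟨i, fun y k => ?_⟩⟩
  have : y ∈ Y0 := by simp only [Y0, mem_biUnion, mem_range]; exact ⟨s, mem_univ _, l, i, k⟩
  simpa [this] using j ⟨y, this⟩ (by simpa)

open Subgroup in
theorem step {G : Type} [Group G] (P Q : Subgroup G) [Finite P] [Finite Q] (n L : ℕ) (T : Set G)
    (hT : ∀ g ∈ T, g ∈ Q) (b : ℕ)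
    (h1 : ∀ y ∉ center G, {g ∈ T | g * y * g⁻¹ ∈ P}.ncard ≤ b)
    (h2 : ∀ y, {g ∈ T | ∃ z ∈ center G, g * y * z ∈ P}.ncard ≤ b)
    (big : (L + 2) * (n + 1) ^ 2 * b < T.ncard)
    (num : (Nat.card P * Nat.card Q ^ n : ℝ) * (1 - 1 / Nat.card P ^ n) ^ L < 1) :
    ∃ r : G → G, (∀ x, r x ∈ P) ∧ (∀ p ∈ P, ∀ x, r (p * x) = p * r x) ∧ r 1 = 1 ∧
      (∀ z ∈ center G, r z ∈ center G) ∧ ∀ m ∈ P, ∀ S : Fin n → Q, ∃ g ∈ Q, ∀ i,
        m⁻¹ * r (g * S i) ∈ center G := by
  classical
  have tf : T.Finite := (Set.toFinite (Q : Set G)).subset hT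
  let mk : G → Quotient (QuotientGroup.rightRel P) := Quotient.mk _
  have e : ∀ x y, mk x = mk y ↔ y * x⁻¹ ∈ P := fun x y =>
    Quotient.eq.trans QuotientGroup.rightRel_apply
  have gr : ∀ S : Fin n → Q, ∃ g : ℕ → G, ∀ l < L, g l ∈ T ∧
      (∀ i j, mk (g l * S i) = mk (g l * S j) → (S j : G) * (S i : G)⁻¹ ∈ center G) ∧
      (∀ i, ∀ z ∈ center G, mk (g l * S i) ≠ mk z) ∧
      ∀ k < l, ∀ i j, mk (g k * S i) ≠ mk (g l * S j) := fun S => by
    have : ∀ l < L, ∀ g : ℕ → G, ∃ x ∈ T,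
        (∀ i j, mk (x * S i) = mk (x * S j) → (S j : G) * (S i : G)⁻¹ ∈ center G) ∧
        (∀ i, ∀ z ∈ center G, mk (x * S i) ≠ mk z) ∧
        ∀ k < l, ∀ i j, mk (g k * S i) ≠ mk (x * S j) := fun l hl g => by
      by_contra! k
      have : T ⊆ ⋃ t : (Fin n × Fin n) ⊕ Fin n ⊕ Fin l × Fin n × Fin n, t.elim
          (fun p => {x ∈ T | (S p.2 : G) * (S p.1 : G)⁻¹ ∉ center G ∧
            x * (S p.2 * (S p.1 : G)⁻¹) * x⁻¹ ∈ P})
          (Sum.elim (fun i => {x ∈ T | ∃ z ∈ center G, x * S i * z ∈ P})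
            fun p => {x ∈ T | ∃ z ∈ center G, x * (S p.2.2 * (g p.1 * S p.2.1)⁻¹) * z ∈ P}) := by
        intro x t
        by_contra! c
        simp only [Set.mem_iUnion, not_exists, Sum.forall, Sum.elim_inl, Sum.elim_inr,
          Set.mem_ofPred_eq, t, true_and, not_and, Prod.forall] at c
        obtain ⟨a, a1, i, j, a2⟩ := k x t (fun i j o => by_contra fun u =>
          c.1 i j u (by simpa [mul_assoc] using (e _ _).1 o))
          fun i z u o => c.2.1 i z⁻¹ (inv_mem u) ((e _ _).1 o.symm)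
        exact c.2.2 ⟨a, a1⟩ i j 1 (one_mem _) (by simpa [mul_assoc] using (e _ _).1 a2)
      refine big.not_ge ((Set.ncard_le_ncard this (Set.finite_iUnion fun t => tf.subset (by
        rcases t with t | t | t <;> exact Set.sep_subset _ _))).trans
        ((Set.ncard_iUnion_le_of_fintype _).trans ((sum_le_card_nsmul _ _ b ?_).trans ?_)))
      · rintro (t | t | t) -
        · by_cases u : (S t.2 : G) * (S t.1 : G)⁻¹ ∈ center G
          · simp [u]
          · simpa only [u, Sum.elim_inl, not_false_eq_true, true_and] using h1 _ u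
        exacts [h2 _, h2 _]
      · simp only [card_univ, Fintype.card_sum, Fintype.card_prod, Fintype.card_fin, smul_eq_mul]
        gcongr
        nlinarith [Nat.zero_le n, Nat.zero_le (l * n)]
    choose! F hF using this
    let g : ℕ → G := fun l => Nat.strongRec (fun l ih => F l fun k => if h : k < l then ih k h else 1) l
    refine ⟨g, fun l j => ?_⟩
    have u : g l = F l fun k => if k < l then g k else 1 := by
      simp only [g]; rw [Nat.strongRec_eq]; rfl
    obtain ⟨a1, a2, a3, a4⟩ := hF l j fun k => if k < l then g k else 1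
    exact u ▸ ⟨a1, a2, a3, fun k o => by simpa only [o, if_true] using a4 k o⟩
  choose g hg using gr
  have := Fintype.ofFinite P
  have := Fintype.ofFinite Q
  have o : ∀ x, (mk x).out * x⁻¹ ∈ P := fun x => (e _ _).1 (Quotient.out_eq _).symm
  obtain ⟨f, hf⟩ := exists_fun (M := P) (S := P × (Fin n → Q)) n L
    (fun s l => univ.image fun i => mk (g s.2 l * s.2 i))
    (fun s l y => if h : ∃ i, mk (g s.2 l * s.2 i) = y then
      ⟨s.1⁻¹ * (g s.2 l * s.2 h.choose * y.out⁻¹), mul_mem s.1⁻¹.2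
        ((e _ _).1 ((Quotient.out_eq _).trans h.choose_spec.symm))⟩ else 1)
    (fun s l _ => card_image_le.trans (by simp)) (fun s k i l j => disjoint_left.2 (by
      simpa using fun a b => ((hg s.2 k i).2.2.2 l j a b).symm)) (by simpa using num)
  let σ : Quotient (QuotientGroup.rightRel P) → G := fun y => if y = mk 1 then 1 else
    if h : ∃ z ∈ center G, mk z = y then h.choose else f y * y.out
  refine ⟨fun x => x * (σ (mk x))⁻¹, fun x => (e _ _).1 ?_, fun p i x => ?_, by simp [σ],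
    fun z i => mul_mem i (inv_mem ?_), fun m i S => ?_⟩
  · simp only [σ]
    split_ifs with a c
    exacts [a.symm, c.choose_spec.2, ((e _ _).2 ((mul_assoc (f (mk x) : G) _ _).symm ▸ mul_mem (f _).2 (o x))).symm]
  · simp only [(e (p * x) x).2 (by simpa), mul_assoc]
  · simp only [σ]
    split_ifs with a c
    exacts [one_mem _, c.choose_spec.1, absurd ⟨z, i, rfl⟩ c]
  obtain ⟨l, l1, l2⟩ := hf (⟨m, i⟩, S)
  obtain ⟨a1, a2, a3, -⟩ := hg S l l1
  refine ⟨g S l, hT _ a1, fun j => ?_⟩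
  have u : ∃ i, mk (g S l * S i) = mk (g S l * S j) := ⟨j, rfl⟩
  have := mem_center_iff.1 (a2 _ _ u.choose_spec)
  simp only [σ]
  rw [if_neg (a3 j 1 (one_mem _)), dif_neg fun ⟨z, v, w⟩ => a3 j z v w.symm,
    l2 _ (mem_image_of_mem _ (mem_univ j)), dif_pos u]
  convert a2 _ _ u.choose_spec using 1
  rw [← mul_left_inj (m⁻¹ * g S l), ← this]
  simp [mul_assoc]

end Pool.Agent.H23.CS
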