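import Mathlib

set_option autoImplicit false

namespace Pool.Agent.H23.DIP

open Filter

/-- Bounded commutative integral residuated lattices. -/
class FLew (A : Type) extends Lattice A, BoundedOrder A, CommMonoid A where
  imp : A → A → A
  res : ∀ x y z : A, x * y ≤ z ↔ x ≤ imp y z
  one_eq : (1 : A) = ⊤

/-- Prelinearity. -/
def Prelin (A : Type) [FLew A] : Prop := ∀ x y : A, FLew.imp x y ⊔ FLew.imp y x = 1

/-- Formulas. -/
inductive Fm
  | var (n : ℕ) | and (a b : Fm) | or (a b : Fm) | mul (a b : Fm) | imp (a b : Fm) | zero | one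

/-- The value of a formula. -/
def ev {A : Type} [FLew A] (v : ℕ → A) : Fm → A
  | .var n => v n
  | .and a b => ev v a ⊓ ev v b
  | .or a b => ev v a ⊔ ev v b
  | .mul a b => ev v a * ev v b
  | .imp a b => FLew.imp (ev v a) (ev v b)
  | .zero => ⊥
  | .one => 1

/-- The variables of a formula. -/
def vars : Fm → Set ℕ
  | .var n => {n}
  | .and a b | .or a b | .mul a b | .imp a b => vars a ∪ vars b
  | .zero | .one => ∅

/-- Substitution. -/
def subst (s : ℕ → Fm) : Fm → Fm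
  | .var n => s n
  | .and a b => .and (subst s a) (subst s b)
  | .or a b => .or (subst s a) (subst s b)
  | .mul a b => .mul (subst s a) (subst s b)
  | .imp a b => .imp (subst s a) (subst s b)
  | .zero => .zero
  | .one => .one

/-- Sets of formulas closed under substitution. -/
def Closed (Ax : Set Fm) : Prop := ∀ a ∈ Ax, ∀ s, subst s a ∈ Ax

/-- The consequence relation of the class `C` of algebras, extended by the axioms `Ax`. -/
def Cons (C : ∀ (A : Type) [FLew A], Prop) (Ax Γ : Set Fm) (φ : Fm) : Prop :=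
  ∀ (A : Type) [FLew A], C A → ∀ v : ℕ → A, (∀ a ∈ Ax ∪ Γ, ev v a = 1) → ev v φ = 1

/-- The deductive interpolation property. -/
def HasDIP (R : Set Fm → Fm → Prop) : Prop :=
  ∀ Γ φ, R Γ φ → ∃ Δ : Set Fm, (∀ d ∈ Δ, vars d ⊆ (⋃ a ∈ Γ, vars a) ∩ vars φ) ∧
    (∀ d ∈ Δ, R Γ d) ∧ R Δ φ

section
variable {A : Type} [FLew A]

theorem imp_one (x y : A) : FLew.imp x y = 1 ↔ x ≤ y := by
  rw [FLew.one_eq, ← top_le_iff, ← FLew.res, ← FLew.one_eq, one_mul]

theorem one_imp (x : A) : FLew.imp 1 x = x :=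
  le_antisymm (by simpa using (FLew.res _ 1 x).2 le_rfl) ((FLew.res _ _ _).1 (by simp))

theorem mul_mono {x y : A} (h : x ≤ y) (z : A) : x * z ≤ y * z :=
  (FLew.res _ _ _).2 (h.trans ((FLew.res _ _ _).1 le_rfl))

theorem mul_le (x y : A) : x * y ≤ y := by
  simpa using mul_mono (FLew.one_eq (A := A) ▸ le_top : x ≤ 1) y

theorem mul_one_iff (x y : A) : x * y = 1 ↔ x = 1 ∧ y = 1 :=
  ⟨fun h => by
    have := mul_le x y
    have := mul_comm x y ▸ mul_le y x
    simp_all [FLew.one_eq], fun h => by simp [h]⟩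

theorem ev_subst (v : ℕ → A) (s : ℕ → Fm) (a : Fm) :
    ev v (subst s a) = ev (fun n => ev v (s n)) a := by
  induction a <;> simp_all [ev, subst]

theorem ev_congr {v w : ℕ → A} {a : Fm} (h : ∀ n ∈ vars a, v n = w n) : ev v a = ev w a := by
  induction a <;> simp_all [ev, vars, or_imp, forall_and]

/-- The formulas true under a valuation. -/
def tr (v : ℕ → A) : Set Fm := {a | ev v a = 1}

end

def p4 (a : Fm) : Fm := (a.mul a).mul (a.mul a)
def nb (a : Fm) : Fm := (p4 a).imp .zero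
def cj : List Fm → Fm
  | [] => .one
  | a :: l => a.mul (cj l)

theorem ev_cj {A : Type} [FLew A] (v : ℕ → A) (l : List Fm) :
    ev v (cj l) = 1 ↔ ∀ a ∈ l, ev v a = 1 := by
  induction l <;> simp_all [cj, ev, mul_one_iff]

theorem vars_cj (l : List Fm) (X : Set ℕ) : vars (cj l) ⊆ X ↔ ∀ a ∈ l, vars a ⊆ X := by
  induction l <;> simp_all [cj, vars]

/-- Nontrivial nilpotent algebras. -/
def Nil (A : Type) [FLew A] : Prop := (⊥ : A) ≠ 1 ∧ ∀ x : A, x ≠ 1 → x * x * (x * x) = ⊥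

theorem Nil.nb {A : Type} [FLew A] (h : Nil A) (v : ℕ → A) (a : Fm) : nb a ∈ tr v ↔ a ∉ tr v := by
  simp only [tr, DIP.nb, p4, ev, Set.mem_ofPred_eq, imp_one, le_bot_iff]
  exact ⟨fun e f => h.1 (by simpa [f] using e.symm), h.2 _⟩

/-- Families of truth sets closed under ultralimits and amalgamation. -/
structure Good (C : ∀ (A : Type) [FLew A], Prop) (M : Set (Set Fm)) : Prop where
  mod : ∀ T ∈ M, ∃ (A : Type) (_ : FLew A), C A ∧ Nil A ∧ (∀ w : ℕ → A, tr w ∈ M) ∧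
    ∃ v : ℕ → A, T = tr v
  lim : ∀ (ι : Type) (U : Ultrafilter ι) (T : ι → Set Fm), (∀ i, T i ∈ M) →
    {a | ∀ᶠ i in U, a ∈ T i} ∈ M
  ap : ∀ T ∈ M, ∀ T' ∈ M, ∀ X Y : Set ℕ, (∀ a, vars a ⊆ X ∩ Y → (a ∈ T ↔ a ∈ T')) →
    ∃ T'' ∈ M, (∀ a, vars a ⊆ X → (a ∈ T'' ↔ a ∈ T)) ∧ ∀ a, vars a ⊆ Y → (a ∈ T'' ↔ a ∈ T')

variable {C : ∀ (A : Type) [FLew A], Prop} {M : Set (Set Fm)}

theorem Good.compact (G : Good C M) {Γ : Set Fm}
    (h : ∀ l : List Fm, (∀ a ∈ l, a ∈ Γ) → ∃ T ∈ M, ∀ a ∈ l, a ∈ T) : ∃ T ∈ M, Γ ⊆ T := by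
  choose T h1 h2 using fun s : Finset Γ => h (s.toList.map (↑)) (by simp +contextual)
  exact ⟨_, G.lim _ (Ultrafilter.of atTop) T h1, fun a ha => Ultrafilter.of_le _
    ((eventually_ge_atTop {⟨a, ha⟩}).mono fun s hs => h2 s a (by simpa [ha] using hs))⟩

theorem Good.closed (G : Good C M) : Closed (⋂₀ M) := fun a ha s T hT => by
  obtain ⟨A, _, -, -, h, v, rfl⟩ := G.mod T hT
  exact (ev_subst v s a).trans (ha _ (h _))

theorem Good.cons (G : Good C M) (Γ : Set Fm) (φ : Fm) :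
    Cons C (⋂₀ M) Γ φ ↔ ∀ T ∈ M, Γ ⊆ T → φ ∈ T := by
  refine ⟨fun h T hT g => ?_, fun h A _ _ v g => ?_⟩
  · obtain ⟨A, _, c, -, k, v, rfl⟩ := G.mod T hT
    exact h A c v fun a ha => ha.elim (fun ha => ha _ (k v)) fun ha => g ha
  by_contra n
  obtain ⟨T, hT, k⟩ := G.compact (Γ := insert (nb φ) Γ) fun l hl => by
    classical
    by_contra! e
    have : ev v ((p4 (cj (l.filter (· ∈ Γ)))).imp φ) = 1 := g _ (.inl fun T hT => by
      obtain ⟨B, _, -, b, -, w, rfl⟩ := G.mod T hT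
      by_cases c : ev w (cj (l.filter (· ∈ Γ))) = 1
      · obtain ⟨a, a1, a2⟩ := e _ hT
        rcases hl a a1 with rfl | a3
        · rw [b.nb, not_not] at a2
          exact (imp_one _ _).2 ((show ev w φ = 1 from a2) ▸ FLew.one_eq (A := B) ▸ le_top)
        · exact absurd ((ev_cj _ _).1 c a (by simp [a1, a3])) a2
      · exact (imp_one _ _).2 ((b.2 _ c).le.trans bot_le))
    have c := (ev_cj v (l.filter (· ∈ Γ))).2 fun a ha => g a (.inr (by simp_all))
    simp [ev, p4, c, one_imp, n] at this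
  obtain ⟨B, _, -, b, -, w, rfl⟩ := G.mod T hT
  exact (b.nb _ _).1 (k (.inl rfl)) (h _ hT fun a ha => k (.inr ha))

theorem Good.dip (G : Good C M) : HasDIP (Cons C (⋂₀ M)) := fun Γ φ h => by
  simp only [G.cons] at h ⊢
  refine ⟨{d | vars d ⊆ (⋃ a ∈ Γ, vars a) ∩ vars φ ∧ ∀ T ∈ M, Γ ⊆ T → d ∈ T}, fun d h => h.1,
    fun d h => h.2, fun T hT g => ?_⟩
  obtain ⟨A, _, -, a, -, v, rfl⟩ := G.mod T hT
  obtain ⟨T', hT', k⟩ := G.compact
    (Γ := Γ ∪ {d | vars d ⊆ (⋃ a ∈ Γ, vars a) ∩ vars φ ∧ d ∈ tr v}) fun l hl => by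
    classical
    by_contra! e
    refine (a.nb v (cj (l.filter (· ∉ Γ)))).1 (g ⟨?_, fun T hT i => ?_⟩)
      ((ev_cj _ _).2 fun d hd => ((hl d (by simp_all)).resolve_left (by simp_all)).2)
    · simpa [nb, p4, vars, -Set.subset_inter_iff] using (vars_cj (l.filter (· ∉ Γ)) _).2
        fun d hd => ((hl d (by simp_all)).resolve_left (by simp_all)).1
    obtain ⟨B, _, -, b, -, w, rfl⟩ := G.mod T hT
    obtain ⟨d, d1, d2⟩ := e _ hT
    exact (b.nb _ _).2 fun c => d2 (by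
      by_cases j : d ∈ Γ
      exacts [i j, (ev_cj _ _).1 c d (by simp [d1, j])])
  obtain ⟨T'', h1, h2, h3⟩ := G.ap _ hT' _ hT (⋃ a ∈ Γ, vars a) (vars φ) fun d hd => by
    obtain ⟨B, _, -, b, -, w, rfl⟩ := G.mod _ hT'
    refine ⟨fun i => by_contra fun j => (b.nb _ _).1 (k (.inr ⟨?_, (a.nb _ _).2 j⟩)) i,
      fun i => k (.inr ⟨hd, i⟩)⟩
    simpa [nb, p4, vars, -Set.subset_inter_iff] using hd
  exact (h3 _ le_rfl).1 (h _ h1 fun d hd => (h2 d (Set.subset_biUnion_of_mem hd)).2 (k (.inl hd)))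

/-- A finite nilpotent algebra whose elements are told apart by formulas in one variable. -/
theorem good_fin (A : Type) [FLew A] [Finite A] (c : C A) (n : Nil A)
    (h : ∀ x y : A, x ≠ y → ∃ a, ¬ (a ∈ tr (fun _ => x) ↔ a ∈ tr fun _ => y)) :
    Good C (Set.range (tr (A := A))) where
  mod := by rintro _ ⟨v, rfl⟩; exact ⟨A, _, c, n, fun w => ⟨w, rfl⟩, v, rfl⟩
  lim ι U T hT := by
    choose v hv using hT
    choose w hw using fun k => Ultrafilter.eventually_exists_iff.1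
      (show ∀ᶠ i in U, ∃ x, v i k = x from .of_forall fun i => ⟨_, rfl⟩)
    have : ∀ a, ∀ᶠ i in U, ev (v i) a = ev w a := fun a => by
      induction a with
      | var k => exact hw k
      | zero => simp [ev]
      | one => simp [ev]
      | _ a b i j => filter_upwards [i, j] with x i j using by simp [ev, i, j]
    refine ⟨w, Set.ext fun a => ⟨fun i => (this a).mono fun x j => hv x ▸ j.trans i, fun i => ?_⟩⟩
    obtain ⟨x, j, k⟩ := ((this a).and i).exists
    exact j.symm.trans (hv x ▸ k :)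
  ap := by
    classical
    rintro _ ⟨v, rfl⟩ _ ⟨w, rfl⟩ X Y g
    refine ⟨_, ⟨fun k => if k ∈ X then v k else w k, rfl⟩, fun a ha => ?_, fun a ha => ?_⟩
    · exact (ev_congr fun k hk => if_pos (ha hk)).congr_left
    refine (ev_congr fun k hk => ?_).congr_left
    split_ifs with e
    · by_contra f
      obtain ⟨b, b2⟩ := h _ _ f
      have : ∀ b, vars (subst (fun _ => .var k) b) ⊆ X ∩ Y := fun b => by
        clear * - e ha hk
        induction b <;> simp_all [subst, vars, ha hk]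
      exact b2 (by simpa [tr, ev_subst, ev] using g _ (this b))
    · rfl

end Pool.Agent.H23.DIP
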