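import Mathlib
import Pool.Agent.H23.DIP

set_option autoImplicit false

namespace Pool.Agent.H23.DIP

/-- Totally ordered algebras. -/
def Tot (A : Type) [FLew A] : Prop := ∀ x y : A, x ≤ y ∨ y ≤ x

section
variable {A : Type} [FLew A]

theorem imp_mul (x y : A) : FLew.imp x y * x ≤ y := (FLew.res _ _ _).2 le_rfl

theorem le_one' (x : A) : x ≤ 1 := FLew.one_eq (A := A) ▸ le_top

theorem mul_mono' {x y : A} (z : A) (h : x ≤ y) : z * x ≤ z * y := by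
  simpa only [mul_comm] using mul_mono h z

theorem mul_le' (x y : A) : x * y ≤ x := mul_comm x y ▸ mul_le y x

theorem mul_sup_le {x y z w : A} (h1 : x * y ≤ w) (h2 : x * z ≤ w) : x * (y ⊔ z) ≤ w := by
  rw [mul_comm, FLew.res] at *
  exact sup_le h1 h2

theorem sup_pow {x y : A} (h : x ⊔ y = 1) (n : ℕ) : x ^ n ⊔ y = 1 := by
  induction n with
  | zero => simp [FLew.one_eq]
  | succ n i =>
    refine le_antisymm (le_one' _) (i.ge.trans (sup_le ?_ le_sup_right))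
    rw [← mul_one (x ^ n), ← h]
    exact mul_sup_le (by rw [← pow_succ]; exact le_sup_left) ((mul_le _ _).trans le_sup_right)

theorem ev_hom {B : Type} [FLew B] (f : A → B) (h0 : f ⊥ = ⊥) (h1 : f 1 = 1)
    (hm : ∀ x y, f (x * y) = f x * f y) (hi : ∀ x y, f (FLew.imp x y) = FLew.imp (f x) (f y))
    (hs : ∀ x y, f (x ⊔ y) = f x ⊔ f y) (hn : ∀ x y, f (x ⊓ y) = f x ⊓ f y) (v : ℕ → A) (a : Fm) :
    ev (fun n => f (v n)) a = f (ev v a) := by
  induction a <;> simp_all [ev]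

/-- The order modulo a submonoid. -/
def Md (F : Submonoid A) (x y : A) : Prop := ∃ f ∈ F, f * x ≤ y

theorem Md.of_le (F : Submonoid A) {x y : A} (h : x ≤ y) : Md F x y := ⟨1, F.one_mem, by simpa⟩

theorem Md.trans {F : Submonoid A} {x y z : A} (h : Md F x y) (k : Md F y z) : Md F x z := by
  obtain ⟨f, f1, f2⟩ := h
  obtain ⟨g, g1, g2⟩ := k
  exact ⟨g * f, F.mul_mem g1 f1, mul_assoc g f x ▸ (mul_mono' g f2).trans g2⟩

theorem Md.res (F : Submonoid A) (x y z : A) : Md F (x * y) z ↔ Md F x (FLew.imp y z) := by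
  simp only [Md, ← FLew.res, mul_assoc]

theorem Md.mul {F : Submonoid A} {x y : A} (h : Md F x y) (z : A) : Md F (x * z) (y * z) :=
  (Md.res _ _ _ _).2 (h.trans ((Md.res _ _ _ _).1 (.of_le _ le_rfl)))

theorem Md.inf {F : Submonoid A} {x y z : A} (h : Md F x y) (k : Md F x z) : Md F x (y ⊓ z) := by
  obtain ⟨f, f1, f2⟩ := h
  obtain ⟨g, g1, g2⟩ := k
  exact ⟨g * f, F.mul_mem g1 f1, le_inf ((mul_mono (mul_le _ _) _).trans f2)
    ((mul_mono (mul_le' _ _) _).trans g2)⟩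

theorem Md.sup {F : Submonoid A} {x y z : A} (h : Md F x z) (k : Md F y z) : Md F (x ⊔ y) z := by
  obtain ⟨f, f1, f2⟩ := h
  obtain ⟨g, g1, g2⟩ := k
  exact ⟨g * f, F.mul_mem g1 f1, mul_sup_le ((mul_mono (mul_le _ _) _).trans f2)
    ((mul_mono (mul_le' _ _) _).trans g2)⟩

theorem exists_prime (p : Prelin A) {a : A} (ha : a ≠ 1) :
    ∃ F : Submonoid A, ¬ Md F 1 a ∧ ∀ x y, Md F x y ∨ Md F y x := by
  obtain ⟨F, -, hF⟩ := zorn_le_nonempty₀ {F : Submonoid A | ¬ Md F 1 a} (fun c hc hd y hy =>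
    ⟨sSup c, fun ⟨f, f1, f2⟩ => by
      obtain ⟨G, g1, g2⟩ := (Submonoid.mem_sSup_of_directedOn ⟨y, hy⟩ hd.directedOn).1 f1
      exact hc g1 ⟨f, g2, f2⟩, fun z hz => le_sSup hz⟩) ⊥ fun ⟨f, f1, f2⟩ => by
    rw [Submonoid.mem_bot.1 f1, mul_one] at f2
    exact ha (le_antisymm (le_one' _) f2)
  refine ⟨F, hF.1, fun x y => by_contra fun n => ?_⟩
  rw [not_or] at n
  have key : ∀ x y : A, ¬ Md F x y → ∃ f ∈ F, ∃ n : ℕ, f * FLew.imp x y ^ n ≤ a := fun x y n => by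
    by_contra! e
    refine n ⟨FLew.imp x y, hF.2 (y := F ⊔ Submonoid.powers (FLew.imp x y)) ?_ le_sup_left
      (Submonoid.mem_sup_right (Submonoid.mem_powers _)), imp_mul _ _⟩
    rintro ⟨f, f1, f2⟩
    obtain ⟨g, g1, _, ⟨k, rfl⟩, rfl⟩ := Submonoid.mem_sup.1 f1
    exact e g g1 k (by simpa using f2)
  obtain ⟨f, f1, i, f2⟩ := key _ _ n.1
  obtain ⟨g, g1, j, g2⟩ := key _ _ n.2
  refine hF.1 ⟨f * g, F.mul_mem f1 g1, ?_⟩
  rw [← sup_pow ((sup_comm _ _).trans (sup_pow (p x y) i)) j]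
  exact mul_sup_le ((mul_mono (mul_le _ _) _).trans g2) ((mul_mono (mul_le' _ _) _).trans f2)

/-- The congruence of a submonoid. -/
def sd (F : Submonoid A) : Setoid A where
  r x y := Md F x y ∧ Md F y x
  iseqv := ⟨fun _ => ⟨.of_le _ le_rfl, .of_le _ le_rfl⟩, fun h => ⟨h.2, h.1⟩,
    fun h k => ⟨h.1.trans k.1, k.2.trans h.2⟩⟩

theorem Md.mul₂ {F : Submonoid A} {x y z w : A} (h : Md F x y) (k : Md F z w) :
    Md F (x * z) (y * w) := (h.mul z).trans (by simpa only [mul_comm] using k.mul y)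

theorem Md.imp₂ {F : Submonoid A} {x y z w : A} (h : Md F y x) (k : Md F z w) :
    Md F (FLew.imp x z) (FLew.imp y w) :=
  (Md.res _ _ _ _).1 ((Md.mul₂ (.of_le _ le_rfl) h).trans ((Md.of_le _ (imp_mul _ _)).trans k))

instance (F : Submonoid A) : LE (Quotient (sd F)) where
  le := Quotient.lift₂ (Md F) fun _ _ _ _ h k => propext
    ⟨fun e => h.2.trans (e.trans k.1), fun e => h.1.trans (e.trans k.2)⟩

instance (F : Submonoid A) : FLew (Quotient (sd F)) where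
  lt x y := x ≤ y ∧ ¬ y ≤ x
  lt_iff_le_not_ge _ _ := Iff.rfl
  le_refl := by rintro ⟨x⟩; exact .of_le _ le_rfl
  le_trans := by rintro ⟨x⟩ ⟨y⟩ ⟨z⟩; exact Md.trans
  le_antisymm := by rintro ⟨x⟩ ⟨y⟩ h k; exact Quotient.sound ⟨h, k⟩
  sup := Quotient.map₂ (· ⊔ ·) fun _ _ h _ _ k =>
    ⟨(h.1.trans (.of_le _ le_sup_left)).sup (k.1.trans (.of_le _ le_sup_right)),
     (h.2.trans (.of_le _ le_sup_left)).sup (k.2.trans (.of_le _ le_sup_right))⟩
  le_sup_left := by rintro ⟨x⟩ ⟨y⟩; exact .of_le _ le_sup_left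
  le_sup_right := by rintro ⟨x⟩ ⟨y⟩; exact .of_le _ le_sup_right
  sup_le := by rintro ⟨x⟩ ⟨y⟩ ⟨z⟩; exact Md.sup
  inf := Quotient.map₂ (· ⊓ ·) fun _ _ h _ _ k =>
    ⟨((Md.of_le _ inf_le_left).trans h.1).inf ((Md.of_le _ inf_le_right).trans k.1),
     ((Md.of_le _ inf_le_left).trans h.2).inf ((Md.of_le _ inf_le_right).trans k.2)⟩
  inf_le_left := by rintro ⟨x⟩ ⟨y⟩; exact .of_le _ inf_le_left
  inf_le_right := by rintro ⟨x⟩ ⟨y⟩; exact .of_le _ inf_le_right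
  le_inf := by rintro ⟨x⟩ ⟨y⟩ ⟨z⟩; exact Md.inf
  top := Quotient.mk _ 1
  bot := Quotient.mk _ ⊥
  le_top := by rintro ⟨x⟩; exact .of_le _ (le_one' _)
  bot_le := by rintro ⟨x⟩; exact .of_le _ bot_le
  mul := Quotient.map₂ (· * ·) fun _ _ h _ _ k => ⟨h.1.mul₂ k.1, h.2.mul₂ k.2⟩
  one := Quotient.mk _ 1
  mul_assoc := by rintro ⟨x⟩ ⟨y⟩ ⟨z⟩; exact congrArg (Quotient.mk _) (mul_assoc x y z)
  mul_comm := by rintro ⟨x⟩ ⟨y⟩; exact congrArg (Quotient.mk _) (mul_comm x y)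
  one_mul := by rintro ⟨x⟩; exact congrArg (Quotient.mk _) (one_mul x)
  mul_one := by rintro ⟨x⟩; exact congrArg (Quotient.mk _) (mul_one x)
  imp := Quotient.map₂ FLew.imp fun _ _ h _ _ k => ⟨h.2.imp₂ k.1, h.1.imp₂ k.2⟩
  res := by rintro ⟨x⟩ ⟨y⟩ ⟨z⟩; exact Md.res F x y z
  one_eq := rfl

theorem ev_quot (F : Submonoid A) (v : ℕ → A) (a : Fm) :
    ev (fun n => Quotient.mk (sd F) (v n)) a = Quotient.mk (sd F) (ev v a) :=
  ev_hom _ rfl rfl (fun _ _ => rfl) (fun _ _ => rfl) (fun _ _ => rfl) (fun _ _ => rfl) v a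

/-- A formula failing in a prelinear algebra fails in a chain satisfying all its tautologies. -/
theorem exists_chain (p : Prelin A) {φ : Fm} {v : ℕ → A} (h : ev v φ ≠ 1) :
    ∃ (B : Type) (_ : FLew B), Tot B ∧ (∃ w : ℕ → B, ev w φ ≠ 1) ∧
      ∀ ψ, (∀ v : ℕ → A, ev v ψ = 1) → ∀ w : ℕ → B, ev w ψ = 1 := by
  obtain ⟨F, h1, h2⟩ := exists_prime p h
  refine ⟨Quotient (sd F), inferInstance, by rintro ⟨x⟩ ⟨y⟩; exact h2 x y,
    ⟨fun n => Quotient.mk _ (v n), fun e => h1 ?_⟩,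
    fun ψ k w => ?_⟩
  · rw [ev_quot F v] at e
    exact (Quotient.exact e).2
  · have := ev_quot F (fun n => (w n).out) ψ
    simp only [Quotient.out_eq, k] at this
    exact this

theorem Tot.prelin (t : Tot A) : Prelin A := fun x y => by
  rcases t x y with h | h <;> simp [(imp_one _ _).2 h, FLew.one_eq]

end

end Pool.Agent.H23.DIP
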