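import Pool.Agent.H23.ChipDefs
import Pool.Agent.H11.Base1

set_option autoImplicit false

namespace Pool.Agent.H23.Chip
open Finset Relation

section
variable {N : ℕ} (A : Fin N → Fin N → Prop) [DecidableRel A]

def app (x : Fin N → ℤ) (g : Fin N → ℕ) : Fin N → ℤ :=
  fun w => x w - dg A w * g w + ∑ u, if A u w then (g u : ℤ) else 0

def S (x : Fin N → ℤ) (g g' : Fin N → ℕ) : Prop :=
  ∃ v, (dg A v : ℤ) ≤ app A x g v ∧ g' = g + Pi.single v 1

variable {A} {x : Fin N → ℤ}

theorem app_zero : app A x 0 = x := by funext w; simp [app]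

theorem app_single (g : Fin N → ℕ) (v : Fin N) :
    app A x (g + Pi.single v 1) = fire A (app A x g) v := by
  funext w
  have : ∀ u, (if A u w then (((g + Pi.single v 1 : Fin N → ℕ) u : ℕ) : ℤ) else 0) =
      (if A u w then (g u : ℤ) else 0) + if u = v then (if A v w then 1 else 0) else 0 := fun u => by
    by_cases h : u = v <;> split <;> simp_all
  simp only [app, fire, this, sum_add_distrib, sum_ite_eq', mem_univ, if_true]
  by_cases h : w = v <;> simp [h] <;> ring

theorem sum_app (g : Fin N → ℕ) : ∑ w, app A x g w = ∑ w, x w := by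
  simp only [app, sum_add_distrib, sum_sub_distrib]
  rw [sum_comm]
  simp [dg, ← sum_filter]

theorem step_iff (hA : ∀ v, ¬ A v v) {y : Fin N → ℤ} :
    Step A x y ↔ ∃ v, (dg A v : ℤ) ≤ x v ∧ y = fire A x v := by
  simp [Step, fire, hA]

theorem lift (hA : ∀ v, ¬ A v v) {g g' : Fin N → ℕ} (h : ReflTransGen (S A x) g g') :
    ReflTransGen (Step A) (app A x g) (app A x g') := by
  induction h with
  | refl => rfl
  | tail _ h ih =>
    obtain ⟨v, h1, rfl⟩ := h
    exact ih.tail ((step_iff hA).2 ⟨v, h1, app_single _ _⟩)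

theorem unlift (hA : ∀ v, ¬ A v v) {g : Fin N → ℕ} {y : Fin N → ℤ}
    (h : ReflTransGen (Step A) (app A x g) y) :
    ∃ g', ReflTransGen (S A x) g g' ∧ g ≤ g' ∧ y = app A x g' := by
  induction h with
  | refl => exact ⟨g, .refl, le_rfl, rfl⟩
  | tail _ h ih =>
    obtain ⟨g', h1, h2, rfl⟩ := ih
    obtain ⟨v, h3, rfl⟩ := (step_iff hA).1 h
    exact ⟨_, h1.tail ⟨v, h3, rfl⟩, h2.trans le_self_add, (app_single _ _).symm⟩

theorem app_le {g g' : Fin N → ℕ} (h : g ≤ g') {v : Fin N} (e : g v = g' v) :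
    app A x g v ≤ app A x g' v := by
  simp only [app, e]
  gcongr with u
  split
  · exact_mod_cast h u
  · rfl

theorem succ_le {g g' : Fin N → ℕ} (h : g ≤ g') {v : Fin N} (e : g v ≠ g' v) :
    g + Pi.single v 1 ≤ g' := fun w => by
  have : g w ≤ g' w := h w
  by_cases c : w = v
  · subst c; simp; omega
  · simpa [c] using this

theorem lap {g g0 : Fin N → ℕ} (h : ReflTransGen (S A x) 0 g) (h0 : ∀ v, app A x g0 v < dg A v) :
    g ≤ g0 := by
  induction h with
  | refl => exact zero_le
  | tail _ h ih =>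
    obtain ⟨v, h1, rfl⟩ := h
    exact succ_le ih fun e => absurd (h1.trans (app_le ih e)) (not_le.2 (h0 v))

theorem halt_iff (hA : ∀ v, ¬ A v v) :
    (¬ ∃ s : ℕ → Fin N → ℤ, s 0 = x ∧ ∀ i, Step A (s i) (s (i + 1))) ↔
      ∃ g, ∀ v, app A x g v < dg A v := by
  refine ⟨fun h => ?_, fun ⟨g0, h0⟩ ⟨s, h1, h2⟩ => ?_⟩
  · by_contra! c
    choose v hv using c
    exact h ⟨fun i => app A x ((fun g => g + Pi.single (v g) 1)^[i] 0), app_zero, fun i => by
      simp only [Function.iterate_succ_apply']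
      exact (step_iff hA).2 ⟨_, hv _, app_single _ _⟩⟩
  · have : ∀ i, ∃ g, ReflTransGen (S A x) 0 g ∧ s i = app A x g ∧ ∑ v, g v = i := fun i => by
      induction i with
      | zero => exact ⟨0, .refl, by rw [h1, app_zero], by simp⟩
      | succ i ih =>
        obtain ⟨g, a, b, c⟩ := ih
        obtain ⟨v, d, e⟩ := (step_iff hA).1 (h2 i)
        exact ⟨_, a.tail ⟨v, b ▸ d, rfl⟩, by rw [e, b, app_single], by simp [sum_add_distrib, c]⟩
    obtain ⟨g, a, -, c⟩ := this (∑ v, g0 v + 1)
    have := sum_le_sum fun v (_ : v ∈ univ) => lap a h0 v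
    omega

theorem not_reach (hA : ∀ v, ¬ A v v) {r : Fin N} (hr : (dg A r : ℤ) ≤ x r) {g0 : Fin N → ℕ}
    (h0 : ∀ v, app A x g0 v < dg A v) : ¬ ReflTransGen (Step A) (fire A x r) x := fun h => by
  have : ∀ k, ∃ g, ReflTransGen (S A x) 0 g ∧ x = app A x g ∧ k ≤ g r := fun k => by
    induction k with
    | zero => exact ⟨0, .refl, app_zero.symm, le_rfl⟩
    | succ k ih =>
      obtain ⟨g, a, b, c⟩ := ih
      obtain ⟨g', d, e, f⟩ := unlift (x := x) (y := x) (g := g + Pi.single r 1) hA
        (by rwa [app_single, ← b])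
      have : _ ≤ g' r := e r
      exact ⟨g', (a.tail ⟨r, b ▸ hr, rfl⟩).trans d, f, by simp at this; omega⟩
  obtain ⟨g, a, -, c⟩ := this (g0 r + 1)
  have : g r ≤ g0 r := lap a h0 r
  omega

theorem period {r : Fin N} (ht : ∀ u v, A u v → v = r ∨ u < v) (hd : ∀ v, 1 ≤ dg A v) :
    ∃ p : Fin N → ℕ, 1 ≤ p r ∧ app A x p = x := by
  have : ∀ k, ∃ p : Fin N → ℕ, 1 ≤ p r ∧ ∀ v ≠ r, v.1 < k →
      dg A v * p v = ∑ u, if A u v then p u else 0 := fun k => by
    induction k with
    | zero => exact ⟨1, le_rfl, by simp⟩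
    | succ k ih =>
      obtain ⟨p, a, b⟩ := ih
      by_cases c : ∃ w ≠ r, w.1 = k
      · obtain ⟨w, w1, rfl⟩ := c
        refine ⟨fun u => if u = w then ∑ u, if A u w then p u else 0 else dg A w * p u, by
          simpa [w1.symm, Nat.one_le_iff_ne_zero] using ⟨by have := hd w; omega, by omega⟩,
          fun v h1 h2 => ?_⟩
        have : ∀ u, (if A u v then (if u = w then ∑ u, if A u w then p u else 0 else dg A w * p u)
            else 0) = dg A w * if A u v then p u else 0 := fun u => by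
          split
          · rw [if_neg]
            rintro rfl
            have := (ht _ _ ‹_›).resolve_left h1
            omega
          · simp
        simp only [this, ← mul_sum]
        split
        · subst v; rfl
        · rw [← b v h1 (by omega)]; ring
      · exact ⟨p, a, fun v h1 h2 => b v h1 (by by_contra e; exact c ⟨v, h1, by omega⟩)⟩
  obtain ⟨p, a, b⟩ := this N
  have c : ∀ v ≠ r, app A x p v = x v := fun v h => by
    have := congrArg (Nat.cast : ℕ → ℤ) (b v h v.2)
    push_cast at this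
    simp [app, this]
  refine ⟨p, a, funext fun v => ?_⟩
  by_cases h : v = r
  · have := sum_app (A := A) (x := x) p
    rw [← add_sum_erase _ _ (mem_univ r), ← add_sum_erase _ _ (mem_univ r),
      sum_congr rfl fun v h => c v (mem_erase.1 h).1] at this
    exact h ▸ add_right_cancel this
  · exact c v h

theorem reach (hA : ∀ v, ¬ A v v) {r : Fin N} (ht : ∀ u v, A u v → v = r ∨ u < v)
    (hx : ∀ v ≠ r, 0 ≤ x v ∧ x v < dg A v) (hr : 1 ≤ dg A r)
    (h0 : ¬ ∃ g, ∀ v, app A x g v < dg A v) : ReflTransGen (Step A) (fire A x r) x := by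
  obtain ⟨p, p1, p2⟩ := period (x := x) ht fun v => by
    by_cases h : v = r
    · rwa [h]
    · have := hx v h; omega
  have key : ∀ k (g : Fin N → ℕ), g ≤ p → ∑ v, g v + k = ∑ v, p v → ReflTransGen (S A x) g p := by
    intro k
    induction k with
    | zero =>
      intro g a b
      rw [show g = p from funext fun v => (sum_eq_sum_iff_of_le fun v _ => a v).1 b v (mem_univ v)]
    | succ k ih =>
      intro g a b
      obtain ⟨v, v1, v2⟩ : ∃ v, g v ≠ p v ∧ (dg A v : ℤ) ≤ app A x g v := by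
        by_contra! c
        by_cases e : g r = p r
        · have : ∀ v, g v = p v := fun v => by
            induction v using WellFoundedLT.induction with | _ v ih => ?_
            by_contra f
            have vr : v ≠ r := fun h => f (h ▸ e)
            have h1 := c v f
            have h2 := congrFun p2 v
            have h3 : (g v : ℤ) + 1 ≤ p v := by have : g v ≤ p v := a v; omega
            have := hx v vr
            simp only [app] at h1 h2
            rw [sum_congr rfl (g := fun u => if A u v then (p u : ℤ) else 0) fun u _ => by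
              split
              · rw [ih u ((ht _ _ ‹_›).resolve_left vr)]
              · rfl] at h1
            nlinarith
          simp [this] at b
        · refine h0 ⟨g, fun v => ?_⟩
          by_cases f : g v = p v
          · have := app_le (A := A) (x := x) a f
            have := hx v fun h => e (h ▸ f)
            rw [p2] at *; omega
          · exact c v f
      exact .head ⟨v, v2, rfl⟩ (ih _ (succ_le a v1) (by simp [sum_add_distrib]; omega))
  have h1 : 0 + Pi.single r 1 ≤ p := succ_le zero_le (by simp; omega)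
  obtain ⟨k, hk⟩ := Nat.exists_eq_add_of_le (sum_le_sum fun v (_ : v ∈ univ) => h1 v)
  have := lift hA (key k _ h1 hk.symm)
  rwa [app_single, app_zero, p2] at this

end

open Pool.Agent.H11.PT

abbrev F := List (ℕ × ℕ × ℕ)

def nv (φ : F) : ℕ := (φ.map fun c => c.1 + c.2.1 + c.2.2).sum + 1
def K (φ : F) : ℕ := φ.length * (nv φ + 1)
def M (φ : F) : ℕ := K φ + 3 * nv φ + 2
def cl (φ : F) (t : ℕ) : ℕ × ℕ × ℕ := φ.getD (t / (nv φ + 1)) (0, 0, 0)
def In (φ : F) (c t : ℕ) : Prop :=
  t < K φ ∧ (c = (cl φ t).1 ∨ c = (cl φ t).2.1 ∨ c = (cl φ t).2.2)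
instance (φ : F) (c t : ℕ) : Decidable (In φ c t) := by unfold In; infer_instance
def tgt (φ : F) (v t : ℕ) : ℕ :=
  if v < M φ then (if t + 1 = M φ ∧ v + 1 < M φ then v + 1 else if In φ v t then M φ + t
    else 2 * M φ + t) else if v < 2 * M φ then 2 * M φ + t else 0
def ed (φ : F) : List (ℕ × ℕ) :=
  (List.range (3 * M φ)).flatMap fun v => (List.range (M φ)).map fun t => (v, tgt φ v t)
def X (φ : F) (v : ℕ) : ℕ :=
  if v = 0 then (K φ + 1) * (M φ - 1) - nv φ else if v < M φ then M φ - 1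
    else if v < M φ + K φ then 0 else if v < 2 * M φ then M φ - 1 else 0
def xs (φ : F) : List ℕ := (List.range (3 * M φ)).map (X φ)

@[fun_prop] theorem pt_M : PT M := by unfold M K nv; fun_prop
@[fun_prop] theorem pt_ed : PT ed := by unfold ed tgt In cl M K nv; fun_prop
@[fun_prop] theorem pt_xs : PT xs := by unfold xs X M K nv; fun_prop

variable {φ : F}

abbrev G (φ : F) := arc (3 * M φ) (ed φ)

theorem hM : M φ = K φ + 3 * nv φ + 2 := rfl

theorem In.lt {c t : ℕ} (h : In φ c t) : t < K φ := h.1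

theorem G_iff {u w : Fin (3 * M φ)} : G φ u w ↔ ∃ t < M φ, tgt φ u t = w := by
  simp only [G, arc, ed, List.mem_flatMap, List.mem_map, List.mem_range, Prod.mk.injEq]
  refine ⟨fun ⟨_, _, _, t, h1, h2, h3⟩ => ⟨t, h1, h2 ▸ h3⟩,
    fun ⟨t, h1, h2⟩ => ⟨?_, u, u.2, t, h1, rfl, h2⟩⟩
  rintro rfl
  have := hM (φ := φ)
  unfold tgt at h2
  split_ifs at h2 <;> omega

theorem tgt_lt (v : ℕ) {t : ℕ} (h : t < M φ) : tgt φ v t < 3 * M φ := by
  unfold tgt; split_ifs <;> omega

theorem dg_eq (v : Fin (3 * M φ)) : dg (G φ) v = if v.1 < 2 * M φ then M φ else 1 := by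
  have := hM (φ := φ)
  split
  · refine Eq.trans ?_ (card_range (M φ))
    refine (card_bij (fun t h => ⟨tgt φ v t, tgt_lt _ (mem_range.1 h)⟩) (fun t h => ?_)
      (fun t h t' h' e => ?_) fun w h => ?_).symm
    · exact mem_filter.2 ⟨mem_univ _, G_iff.2 ⟨t, mem_range.1 h, rfl⟩⟩
    · have := mem_range.1 h
      have := mem_range.1 h'
      simp only [Fin.mk.injEq, tgt] at e
      split_ifs at e <;> omega
    · obtain ⟨t, h1, h2⟩ := G_iff.1 (mem_filter.1 h).2
      exact ⟨t, mem_range.2 h1, Fin.ext h2⟩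
  · refine card_eq_one.2 ⟨⟨0, by omega⟩, ext fun w => ?_⟩
    simp only [mem_filter, mem_univ, true_and, G_iff, mem_singleton, Fin.ext_iff, tgt]
    simp only [if_neg (show ¬ v.1 < M φ by omega), if_neg ‹¬ v.1 < 2 * M φ›]
    exact ⟨fun ⟨_, _, h⟩ => h.symm, fun h => ⟨0, by omega, h.symm⟩⟩

theorem x_eq (v : Fin (3 * M φ)) : chips _ (xs φ) v = X φ v := by
  simp [chips, xs, List.getD_eq_getElem?_getD]

theorem x0 (h : φ ≠ []) : (X φ 0 : ℤ) = (K φ + 1) * (M φ - 1) - nv φ ∧ M φ ≤ X φ 0 := by
  have := hM (φ := φ)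
  have h1 : 1 ≤ K φ := Nat.mul_pos (List.length_pos_iff.2 h) (by omega)
  have h2 := Nat.mul_le_mul_right (M φ - 1) (show 2 ≤ K φ + 1 by omega)
  simp only [X, if_true]
  refine ⟨?_, by omega⟩
  rw [Nat.cast_sub (by omega), Nat.cast_mul, Nat.cast_sub (by omega)]
  simp

theorem budget (h : φ ≠ []) (g : Fin (3 * M φ) → ℕ) :
    ∑ v, ((dg (G φ) v : ℤ) - 1 - app (G φ) (chips _ (xs φ)) g v) = nv φ := by
  have := hM (φ := φ)
  rw [sum_sub_distrib, sum_app, ← sum_sub_distrib]
  let f := fun i : ℕ => (if i = 0 then (M φ : ℤ) - 1 - X φ 0 else 0) +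
    if i ∈ Ico (M φ) (M φ + K φ) then (M φ : ℤ) - 1 else 0
  have e : ∀ v : Fin (3 * M φ), (dg (G φ) v : ℤ) - 1 - chips _ (xs φ) v = f v := fun v => by
    by_cases z : v.1 = 0
    · simp [f, x_eq, dg_eq, z]; omega
    · simp only [f, x_eq, dg_eq, X, mem_Ico, z, if_false]
      split_ifs <;> omega
  rw [sum_congr rfl fun v _ => e v, Fin.sum_univ_eq_sum_range f (3 * M φ), sum_add_distrib,
    sum_ite_eq', sum_ite_mem, inter_eq_right.2 fun i h => by simp at *; omega,
    if_pos (by simp; omega), (x0 h).1]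
  simp; ring

theorem cl_ok (hd : Dist3 φ) {t : ℕ} (h : t < K φ) : cl φ t ∈ φ ∧
    (cl φ t).1 + (cl φ t).2.1 + (cl φ t).2.2 < nv φ ∧ (cl φ t).1 ≠ (cl φ t).2.1 ∧
    (cl φ t).1 ≠ (cl φ t).2.2 ∧ (cl φ t).2.1 ≠ (cl φ t).2.2 := by
  have : cl φ t ∈ φ := by
    rw [cl, List.getD_eq_getElem _ _ ((Nat.div_lt_iff_lt_mul (by omega)).2 h)]
    exact List.getElem_mem _
  exact ⟨this, Nat.lt_succ_of_le (List.single_le_sum (by simp) _ (List.mem_map.2 ⟨_, this, rfl⟩)),
    hd _ this⟩

def ex (g : Fin (3 * M φ) → ℕ) (i : ℕ) : ℤ := if h : i < 3 * M φ then g ⟨i, h⟩ else 0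

theorem ex_sum (g : Fin (3 * M φ) → ℕ) (i : ℕ) :
    ∑ u : Fin (3 * M φ), (if u.1 = i then (g u : ℤ) else 0) = ex g i := by
  unfold ex
  split
  · rw [sum_eq_single ⟨i, ‹_›⟩] <;> simp +contextual [Fin.ext_iff]
  · exact sum_eq_zero fun u _ => if_neg (by omega)

theorem app_chain (g : Fin (3 * M φ) → ℕ) {v : Fin (3 * M φ)} {c : ℕ} (h : v.1 = c + 1)
    (h' : c + 1 < M φ) :
    app (G φ) (chips _ (xs φ)) g v = M φ - 1 - M φ * ex g (c + 1) + ex g c := by
  rw [app, x_eq, dg_eq, if_pos (by omega), X, if_neg (by omega), if_pos (by omega), ← ex_sum g c,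
    Nat.cast_sub (by omega), ← h, ex, dif_pos v.2]
  congr 1
  refine sum_congr rfl fun u _ => if_congr ?_ rfl rfl
  rw [G_iff]
  refine ⟨fun ⟨t, h1, h2⟩ => ?_, fun e => ⟨M φ - 1, by omega, ?_⟩⟩
  · unfold tgt at h2; split_ifs at h2 <;> omega
  · unfold tgt; rw [if_pos (by omega), if_pos (by omega)]; omega

theorem G_el {u v : Fin (3 * M φ)} {t : ℕ} (h : v.1 = M φ + t) (h' : t < M φ) :
    G φ u v ↔ u.1 < M φ ∧ In φ u t := by
  have := hM (φ := φ)
  rw [G_iff]
  refine ⟨fun ⟨s, h1, h2⟩ => ?_, fun e => ⟨t, h', ?_⟩⟩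
  · unfold tgt at h2
    split_ifs at h2 with a b c <;> try omega
    exact ⟨a, (show s = t by omega) ▸ c⟩
  · have := e.2.lt
    unfold tgt; rw [if_pos e.1, if_neg (by omega), if_pos e.2, h]

theorem app_el (hd : Dist3 φ) (g : Fin (3 * M φ) → ℕ) {v : Fin (3 * M φ)} {t : ℕ}
    (h : v.1 = M φ + t) (h' : t < K φ) : app (G φ) (chips _ (xs φ)) g v =
      ex g (cl φ t).1 + ex g (cl φ t).2.1 + ex g (cl φ t).2.2 - M φ * g v := by
  have := hM (φ := φ)
  obtain ⟨-, c⟩ := cl_ok hd h'
  rw [app, x_eq, dg_eq, if_pos (by omega), X, if_neg (by omega), if_neg (by omega),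
    if_pos (by omega), ← ex_sum g, ← ex_sum g, ← ex_sum g, ← sum_add_distrib, ← sum_add_distrib,
    sum_congr rfl fun u _ => ?_]
  · simp only [Nat.cast_zero, zero_sub]; exact neg_add_eq_sub _ _
  simp only [G_el h (show t < M φ by omega), In]
  split_ifs <;> omega

theorem stable_iff (h : φ ≠ []) (hd : Dist3 φ) :
    (∃ g, ∀ v, app (G φ) (chips _ (xs φ)) g v < dg (G φ) v) ↔ ONE3 φ := by
  have hm := hM (φ := φ)
  refine ⟨fun ⟨g, hg⟩ => ?_, fun ⟨σ, hσ⟩ => ?_⟩
  · have hb := budget h g
    set z := fun v => (dg (G φ) v : ℤ) - 1 - app (G φ) (chips _ (xs φ)) g v with hz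
    have z0 : ∀ v, 0 ≤ z v := fun v => by have := hg v; simp only [hz]; omega
    have dig : ∀ c < nv φ, 0 ≤ M φ * ex g (c + 1) - ex g c ∧
        M φ * ex g (c + 1) - ex g c ≤ nv φ := fun c hc => by
      have a := z0 ⟨c + 1, by omega⟩
      have b := single_le_sum (fun v _ => z0 v) (mem_univ ⟨c + 1, by omega⟩)
      rw [hb] at b
      simp only [hz, app_chain g (v := ⟨c + 1, by omega⟩) rfl (by omega), dg_eq] at a b
      rw [if_pos (by omega)] at a b
      constructor <;> linarith
    refine ⟨fun c => decide (M φ * ex g (c + 1) - ex g c = 1), fun c hc => ?_⟩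
    obtain ⟨j, hj, rfl⟩ := List.getElem_of_mem hc
    have lt : ∀ w < nv φ + 1, j * (nv φ + 1) + w < K φ := fun w hw => by
      have := Nat.mul_le_mul_right (nv φ + 1) (Nat.succ_le_of_lt hj)
      unfold K; nlinarith
    obtain ⟨w, hw, e⟩ : ∃ w, ∃ hw : w < nv φ + 1,
        z ⟨M φ + (j * (nv φ + 1) + w), by have := lt w hw; omega⟩ = 0 := by
      by_contra! c
      have := card_nsmul_le_sum (univ.map ⟨fun w : Fin (nv φ + 1) => (⟨M φ + (j * (nv φ + 1) + w),
        by have := lt w w.2; omega⟩ : Fin (3 * M φ)), fun a b e => by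
          simpa [Fin.ext_iff] using e⟩) z 1 fun v hv => by
        obtain ⟨w, -, rfl⟩ := mem_map.1 hv
        exact Int.add_one_le_of_lt ((z0 _).lt_of_ne (c w w.2).symm)
      have := this.trans (sum_le_sum_of_subset_of_nonneg (subset_univ _) fun v _ _ => z0 v)
      rw [show ∑ v, z v = nv φ from hb] at this
      simp at this
    have e1 : cl φ (j * (nv φ + 1) + w) = φ[j] := by
      rw [cl, add_comm (j * _), Nat.add_mul_div_right _ _ (by omega), Nat.div_eq_of_lt hw, zero_add,
        List.getD_eq_getElem]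
    have := (cl_ok hd (lt w hw)).2
    simp only [hz, app_el hd g (v := ⟨_, _⟩) rfl (lt w hw), dg_eq, e1] at e this
    rw [if_pos (by have := lt w hw; omega)] at e
    have a := dig φ[j].1 (by omega)
    have b := dig φ[j].2.1 (by omega)
    have c := dig φ[j].2.2 (by omega)
    generalize (g ⟨M φ + (j * (nv φ + 1) + w), _⟩ : ℤ) = k at e
    have q : (M φ * ex g (φ[j].1 + 1) - ex g φ[j].1) + (M φ * ex g (φ[j].2.1 + 1) - ex g φ[j].2.1) +
        (M φ * ex g (φ[j].2.2 + 1) - ex g φ[j].2.2) - 1 = M φ *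
        (ex g (φ[j].1 + 1) + ex g (φ[j].2.1 + 1) + ex g (φ[j].2.2 + 1) - k - 1) := by linarith
    have := Int.eq_zero_of_abs_lt_dvd ⟨_, q⟩ (abs_lt.2 (by omega))
    simp only [Bool.toNat, Bool.cond_decide]
    split_ifs <;> omega
  · obtain ⟨H, H1, H2⟩ : ∃ H : ℕ → ℕ, (∀ c, 1 ≤ H c) ∧ ∀ c < M φ,
        H c + (if c < nv φ then (σ c).toNat else 0) = M φ * H (c + 1) := by
      have : ∀ L (s : ℕ → ℕ), (∀ c, s c ≤ 1) → ∃ H : ℕ → ℕ, (∀ c, 1 ≤ H c) ∧ ∀ c < L,
          H c + s c = M φ * H (c + 1) := fun L => by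
        induction L with
        | zero => exact fun _ _ => ⟨1, fun _ => le_rfl, by simp⟩
        | succ L ih =>
          intro s hs
          obtain ⟨H, a, b⟩ := ih (fun c => s (c + 1)) fun c => hs _
          have := Nat.mul_le_mul_left (M φ) (a 0)
          have := hs 0
          refine ⟨fun c => c.rec (M φ * H 0 - s 0) fun c _ => H c, ?_, ?_⟩
          · rintro (_ | c)
            · simp only [Nat.rec_zero]; omega
            · exact a c
          · rintro (_ | c) hc
            · simp only [Nat.rec_zero]; omega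
            · exact b c (by omega)
      exact this _ _ fun c => by split <;> simp [Bool.toNat_le]
    let g1 : Fin (3 * M φ) → ℕ := fun v => if v.1 < M φ then H v else if v.1 < M φ + K φ then
      H ((cl φ (v - M φ)).1 + 1) + H ((cl φ (v - M φ)).2.1 + 1) + H ((cl φ (v - M φ)).2.2 + 1) - 1
      else 0
    let g : Fin (3 * M φ) → ℕ := fun v => if v.1 < 2 * M φ then g1 v else
      ∑ u, if G φ u v then g1 u else 0
    have hg : ∀ c < M φ, ex g c = H c := fun c hc => by
      rw [ex, dif_pos (by omega)]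
      simp only [g, g1]
      rw [if_pos (by omega), if_pos hc]
    have key : ∀ v : Fin (3 * M φ), v.1 ≠ 0 →
        0 ≤ (dg (G φ) v : ℤ) - 1 - app (G φ) (chips _ (xs φ)) g v ∧
        (dg (G φ) v : ℤ) - 1 - app (G φ) (chips _ (xs φ)) g v ≤
          if v.1 ∈ Ico 1 (nv φ + 1) then 1 else 0 := fun v hv => by
      by_cases a : v.1 < M φ
      · obtain ⟨c, hc⟩ := Nat.exists_eq_succ_of_ne_zero hv
        have := congrArg (Nat.cast : ℕ → ℤ) (H2 c (by omega))
        have := Bool.toNat_le (σ c)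
        rw [app_chain g hc (by omega), dg_eq, if_pos (by omega), hg _ (by omega), hg _ (by omega)]
        push_cast at *
        simp only [mem_Ico]
        split_ifs at * <;> constructor <;> first | omega | linarith
      rw [if_neg (by simp; omega)]
      by_cases b : v.1 < M φ + K φ
      · obtain ⟨c1, c2⟩ := cl_ok hd (show v - M φ < K φ by omega)
        have := hσ _ c1
        have e1 := H2 (cl φ (v - M φ)).1 (by omega)
        have e2 := H2 (cl φ (v - M φ)).2.1 (by omega)
        have e3 := H2 (cl φ (v - M φ)).2.2 (by omega)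
        rw [if_pos (by omega)] at e1 e2 e3
        have := H1 ((cl φ (v - M φ)).1 + 1)
        rw [app_el hd g (t := v - M φ) (by omega) (by omega), dg_eq, if_pos (by omega),
          hg _ (by omega), hg _ (by omega), hg _ (by omega)]
        simp only [g, g1]
        rw [if_pos (by omega), if_neg a, if_pos b, Nat.cast_sub (by omega)]
        zify at *
        constructor <;> linarith
      by_cases c : v.1 < 2 * M φ
      · rw [app, x_eq, dg_eq, if_pos c, X, if_neg hv, if_neg a, if_neg b, if_pos c,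
          sum_eq_zero fun u _ => if_neg fun e => by
            have := ((G_el (t := v - M φ) (by omega) (by omega)).1 e).2.lt; omega]
        simp only [g, g1]
        rw [if_pos c, if_neg a, if_neg b]
        omega
      · rw [app, x_eq, dg_eq, if_neg c, X, if_neg hv, if_neg a, if_neg b, if_neg c,
          sum_congr rfl (g := fun u => if G φ u v then (g1 u : ℤ) else 0) fun u _ => by
            split
            · obtain ⟨t, h1, h2⟩ := G_iff.1 ‹_›
              simp only [g]
              rw [if_pos]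
              unfold tgt at h2; split_ifs at h2 <;> omega
            · rfl]
        simp only [g]
        rw [if_neg c]
        simp
    refine ⟨g, fun v => ?_⟩
    by_cases hv : v.1 = 0
    · have hb := budget h g
      rw [← add_sum_erase _ _ (mem_univ v)] at hb
      have := (sum_le_sum fun u hu => (key u fun e =>
        (mem_erase.1 hu).1 (Fin.ext (e.trans hv.symm))).2).trans
        (sum_le_sum_of_subset_of_nonneg (erase_subset v univ) fun u _ _ => by positivity)
      rw [Fin.sum_univ_eq_sum_range (fun i => if i ∈ Ico 1 (nv φ + 1) then (1 : ℤ) else 0),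
        sum_ite_mem, inter_eq_right.2 fun i h => by simp at *; omega] at this
      simp at this hb
      omega
    · have := (key v hv).1
      omega

theorem hard_ne : HardFor InNP (fun φ => φ ≠ [] ∧ Dist3 φ) ONE3 :=
  hard_ONE3.red (fun φ => bif φ.isEmpty then [(0, 1, 2)] else φ) (by fun_prop) fun φ h => by
    cases φ with
    | nil => exact ⟨⟨by simp, by simp [Dist3]⟩, fun _ => ⟨fun v => v == 0, by simp⟩,
        fun _ => ⟨fun _ => true, by simp⟩⟩
    | cons a φ => exact ⟨⟨by simp, h⟩, Iff.rfl⟩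

end Pool.Agent.H23.Chip
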