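import Mathlib

set_option autoImplicit false

namespace Pool.Agent.H23.Chip

/-- the simple digraph on `0, …, N-1` given by a list of arcs (loops ignored, no multiplicity) -/
def arc (N : ℕ) (E : List (ℕ × ℕ)) (u v : Fin N) : Prop := u ≠ v ∧ (u.1, v.1) ∈ E

instance (N : ℕ) (E : List (ℕ × ℕ)) : DecidableRel (arc N E) := fun u v => by
  unfold arc; infer_instance

variable {N : ℕ} (A : Fin N → Fin N → Prop) [DecidableRel A]

/-- out-degree -/
def dg (v : Fin N) : ℕ := (Finset.univ.filter (A v)).card

/-- the distribution after firing `v` -/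
def fire (x : Fin N → ℤ) (v : Fin N) : Fin N → ℤ :=
  fun w => x w - (if w = v then (dg A v : ℤ) else 0) + if A v w then 1 else 0

/-- `y` arises from `x` by one legal firing -/
def Step (x y : Fin N → ℤ) : Prop := ∃ v, 0 ≤ fire A x v v ∧ y = fire A x v

/-- the chip-distribution given by a list -/
def chips (N : ℕ) (l : List ℕ) : Fin N → ℤ := fun v => l.getD v 0

end Pool.Agent.H23.Chip
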