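import Pool.Agent.H23.Amal

/-! Baumslag's finitely presented metabelian group over `F_2`, amalgamated with `S_3`. -/
namespace Pool.Agent.H23.CoH

open Polynomial

abbrev K := RatFunc (ZMod 2)

noncomputable def w (m : ℤ × ℤ) : K := RatFunc.X ^ m.1 * (1 + RatFunc.X) ^ m.2

theorem X1 : (1 + RatFunc.X : K) = algebraMap (ZMod 2)[X] K (1 + X) := by simp

theorem X1ne : (1 + RatFunc.X : K) ≠ 0 := by
  rw [X1]; exact RatFunc.algebraMap_ne_zero (by
    intro h; have := congrArg (eval 0) h; simp at this)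

theorem w_add (m n : ℤ × ℤ) : w (m + n) = w m * w n := by
  simp only [w, Prod.fst_add, Prod.snd_add, zpow_add₀ (show (RatFunc.X : K) ≠ 0 from RatFunc.X_ne_zero), zpow_add₀ X1ne]; ring

@[simp] theorem w_zero : w 0 = 1 := by simp [w]

theorem two_K : (2 : K) = 0 := by
  have : ((2 : ℕ) : K) = 0 := (CharP.cast_eq_zero_iff K 2 2).2 dvd_rfl
  simpa using this

theorem poly_eq {a b : ℕ} (ha : Odd a) (h : (X ^ a + 1 : (ZMod 2)[X]) = (1 + X) ^ b) :
    a = 1 ∧ b = 1 := by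
  have a0 : a ≠ 0 := by rintro rfl; simp at ha
  have h1 := congrArg natDegree h
  rw [show (X ^ a + 1 : (ZMod 2)[X]) = X ^ a + C 1 by simp, natDegree_X_pow_add_C,
    add_comm (1 : (ZMod 2)[X]), show (X + 1 : (ZMod 2)[X]) = X + C 1 by simp,
    (monic_X_add_C 1).natDegree_pow, natDegree_X_add_C, mul_one] at h1
  subst h1
  have h2 := congrArg (fun p => coeff p 1) h
  simp only [coeff_add, coeff_X_pow, coeff_one, coeff_one_add_X_pow, Nat.choose_one_right] at h2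
  rw [ha.natCast_zmod_two] at h2
  by_cases e : 1 = a
  · exact ⟨e.symm, e.symm⟩
  · simp [e] at h2

theorem tri {a1 a2 a3 : ℕ} (h : (0 : ZMod 2) ^ a3 = 0 ^ a2 + 0 ^ a1)
    (ha : a1 = 0 ∨ a2 = 0 ∨ a3 = 0) :
    (a1 = 0 ∧ a2 = 0 ∧ a3 ≠ 0) ∨ (a1 = 0 ∧ a3 = 0 ∧ a2 ≠ 0) ∨ (a2 = 0 ∧ a3 = 0 ∧ a1 ≠ 0) := by
  rcases a1 with _ | a1 <;> rcases a2 with _ | a2 <;> rcases a3 with _ | a3 <;> simp_all

theorem sunit {m n : ℤ × ℤ} (h : w n = 1 + w m) (hm : Odd m.1) (hn : Even n.1) :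
    (m = (1, 0) ∧ n = (0, 1)) ∨ (m = (1, -1) ∧ n = (0, -1)) := by
  obtain ⟨i, j⟩ := m
  obtain ⟨k, l⟩ := n
  simp only at hm hn
  obtain ⟨a1, a2, a3, e1, e2, ha⟩ : ∃ a1 a2 a3 : ℕ, i = a1 - a2 ∧ k = a3 - a2 ∧
      (a1 = 0 ∨ a2 = 0 ∨ a3 = 0) :=
    ⟨(i - min i (min 0 k)).toNat, (- min i (min 0 k)).toNat, (k - min i (min 0 k)).toNat,
      by omega, by omega, by omega⟩
  obtain ⟨b1, b2, b3, f1, f2, hb⟩ : ∃ b1 b2 b3 : ℕ, j = b1 - b2 ∧ l = b3 - b2 ∧
      (b1 = 0 ∨ b2 = 0 ∨ b3 = 0) :=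
    ⟨(j - min j (min 0 l)).toNat, (- min j (min 0 l)).toNat, (l - min j (min 0 l)).toNat,
      by omega, by omega, by omega⟩
  have hp : (X ^ a3 * (1 + X) ^ b3 : (ZMod 2)[X]) =
      X ^ a2 * (1 + X) ^ b2 + X ^ a1 * (1 + X) ^ b1 := by
    apply RatFunc.algebraMap_injective
    have := congrArg (· * w (a2, b2)) h
    simp only [add_mul, one_mul, ← w_add, Prod.mk_add_mk] at this
    rw [show k + a2 = a3 by omega, show l + b2 = b3 by omega, show i + a2 = a1 by omega,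
      show j + b2 = b1 by omega] at this
    simpa [w] using this
  have h0 := congrArg (eval 0) hp
  have h1 := congrArg (eval 1) hp
  simp only [eval_mul, eval_pow, eval_X, eval_add, eval_one, add_zero, one_pow, mul_one, one_mul,
    show (1 + 1 : ZMod 2) = 0 from rfl] at h0 h1
  obtain ⟨c, hc⟩ := hm
  obtain ⟨c', hc'⟩ := hn
  have A : a2 = 0 ∧ a3 = 0 := by have := tri h0 ha; omega
  obtain ⟨rfl, rfl⟩ := A
  have ho : Odd a1 := ⟨c.toNat, by omega⟩
  simp only [pow_zero, one_mul] at hp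
  rcases tri h1 hb with ⟨rfl, rfl, -⟩ | ⟨rfl, rfl, -⟩ | ⟨rfl, rfl, -⟩
  · obtain ⟨rfl, rfl⟩ := poly_eq ho (b := b3) (by rw [hp]; ring)
    left; simp [e1, e2, f1, f2]
  · obtain ⟨rfl, rfl⟩ := poly_eq ho (b := b2) (by
      have h2 : (2 : (ZMod 2)[X]) = 0 := by
        simpa using (CharP.cast_eq_zero_iff (ZMod 2)[X] 2 2).2 dvd_rfl
      simp only [pow_zero, mul_one] at hp
      linear_combination hp + (X : (ZMod 2)[X]) ^ a1 * h2)
    right; simp [e1, e2, f1, f2]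
  · exfalso
    simp only [pow_zero, left_eq_add, mul_eq_zero, pow_eq_zero_iff', X_ne_zero, false_and,
      false_or] at hp
    have := congrArg (eval 0) hp.1
    simp at this

/-- The affine model of Baumslag's group. -/
@[ext] structure Af where
  r : K
  m : ℤ × ℤ

noncomputable instance : Mul Af := ⟨fun x y => ⟨x.r + w x.m * y.r, x.m + y.m⟩⟩
noncomputable instance : One Af := ⟨⟨0, 0⟩⟩
noncomputable instance : Inv Af := ⟨fun x => ⟨-(w (-x.m) * x.r), -x.m⟩⟩
@[simp] theorem mul_r (x y : Af) : (x * y).r = x.r + w x.m * y.r := rfl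
@[simp] theorem mul_m (x y : Af) : (x * y).m = x.m + y.m := rfl
@[simp] theorem one_r : (1 : Af).r = 0 := rfl
@[simp] theorem one_m : (1 : Af).m = 0 := rfl
@[simp] theorem inv_r (x : Af) : x⁻¹.r = -(w (-x.m) * x.r) := rfl
@[simp] theorem inv_m (x : Af) : x⁻¹.m = -x.m := rfl

noncomputable instance : Group Af := Group.ofLeftAxioms
  (fun x y z => by ext1 <;> simp [w_add, add_assoc, mul_add, mul_assoc])
  (fun x => by ext1 <;> simp) (fun x => by ext1 <;> simp)

noncomputable def mH : Af →* Multiplicative (ℤ × ℤ) where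
  toFun x := .ofAdd x.m
  map_one' := rfl
  map_mul' _ _ := rfl

theorem pow_m (x : Af) (n : ℤ) : (x ^ n).m = n • x.m := by
  have := congrArg Multiplicative.toAdd (map_zpow mH x n)
  simpa [mH] using this

theorem conj_Af (x y : Af) (hy : y.m = 0) : x * y * x⁻¹ = ⟨w x.m * y.r, 0⟩ := by
  ext1
  · simp [hy, ← mul_assoc, ← w_add]
  · simp [hy]

theorem Af_tors {x : Af} {n : ℕ} (h : x ^ (2 * n + 1) = 1) : x = 1 := by
  have h1 : x.m = 0 := by
    have := pow_m x (2 * n + 1 : ℕ)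
    rw [zpow_natCast, h, one_m] at this
    exact (smul_eq_zero.1 this.symm).resolve_left (by omega)
  have h2 : x ^ 2 = 1 := by
    rw [sq]; ext1
    · simp [h1, ← two_mul, two_K]
    · simp [h1]
  rwa [pow_succ, pow_mul, h2, one_pow, one_mul] at h

/-- Frobenius. -/
noncomputable def Fr : Af →* Af where
  toFun x := ⟨x.r ^ 2, x.m + x.m⟩
  map_one' := by ext1 <;> simp
  map_mul' x y := by
    ext1
    · simp only [mul_r, w_add]; linear_combination (x.r * w x.m * y.r) * two_K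
    · simp only [mul_m]; abel

theorem Fr_inj : Function.Injective Fr := by
  rw [injective_iff_map_eq_one]
  intro x h
  have h1 : x.r ^ 2 = 0 := congrArg Af.r h
  have h2 : x.m + x.m = 0 := congrArg Af.m h
  ext1
  · simpa using h1
  · rw [← two_nsmul] at h2; exact (smul_eq_zero.1 h2).resolve_left (by omega)

/-- The relations. -/
structure Rel {Γ : Type} [Group Γ] (a s t d : Γ) : Prop where
  r1 : a * a = 1
  r2 : s * t = t * s
  r3 : a * (t * a * t⁻¹) = t * a * t⁻¹ * a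
  r4 : s * a * s⁻¹ = a * (t * a * t⁻¹)
  r5 : d * d * d = 1
  r6 : a * d * a * d = 1

open FreeGroup in
def rels : Set (FreeGroup (Fin 4)) :=
  {of 0 * of 0, of 1 * of 2 * (of 2 * of 1)⁻¹,
    of 0 * (of 2 * of 0 * (of 2)⁻¹) * (of 2 * of 0 * (of 2)⁻¹ * of 0)⁻¹,
    of 1 * of 0 * (of 1)⁻¹ * (of 0 * (of 2 * of 0 * (of 2)⁻¹))⁻¹,
    of 3 * of 3 * of 3, of 0 * of 3 * of 0 * of 3}

instance : Finite rels := by unfold rels; infer_instance

abbrev P := PresentedGroup rels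

def a : P := .of 0
def s : P := .of 1
def t : P := .of 2
def d : P := .of 3

theorem rel : Rel a s t d := by
  have h : ∀ x ∈ rels, PresentedGroup.mk rels x = 1 := fun x hx => PresentedGroup.one_of_mem hx
  refine ⟨h (.of 0 * .of 0) (by simp [rels]), mul_inv_eq_one.1 ?_, mul_inv_eq_one.1 ?_,
    mul_inv_eq_one.1 ?_, h (.of 3 * .of 3 * .of 3) (by simp [rels]),
    h (.of 0 * .of 3 * .of 0 * .of 3) (by simp [rels])⟩
  · exact h (.of 1 * .of 2 * (.of 2 * .of 1)⁻¹) (by simp only [rels]; tauto)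
  · exact h (.of 0 * (.of 2 * .of 0 * (.of 2)⁻¹) * (.of 2 * .of 0 * (.of 2)⁻¹ * .of 0)⁻¹)
      (by simp only [rels]; tauto)
  · exact h (.of 1 * .of 0 * (.of 1)⁻¹ * (.of 0 * (.of 2 * .of 0 * (.of 2)⁻¹))⁻¹)
      (by simp only [rels]; tauto)

def lift {Γ : Type} [Group Γ] {a s t d : Γ} (h : Rel a s t d) : P →* Γ :=
  PresentedGroup.toGroup (f := ![a, s, t, d]) (by
    intro r hr
    simp only [rels, Set.mem_insert_iff, Set.mem_singleton_iff] at hr
    rcases hr with rfl | rfl | rfl | rfl | rfl | rfl <;>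
      simp only [map_mul, map_inv, FreeGroup.lift_apply_of, mul_inv_eq_one]
    exacts [h.r1, h.r2, h.r3, h.r4, h.r5, h.r6])

section
variable {Γ : Type} [Group Γ] {a' s' t' d' : Γ} (h : Rel a' s' t' d')
@[simp] theorem lift_a : lift h a = a' := PresentedGroup.toGroup.of _
@[simp] theorem lift_s : lift h s = s' := PresentedGroup.toGroup.of _
@[simp] theorem lift_t : lift h t = t' := PresentedGroup.toGroup.of _
@[simp] theorem lift_d : lift h d = d' := PresentedGroup.toGroup.of _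
end

theorem gen (U : Subgroup P) (ha : a ∈ U) (hs : s ∈ U) (ht : t ∈ U) (hd : d ∈ U) (g : P) :
    g ∈ U := by
  have := PresentedGroup.closure_range_of rels
  have h2 : Subgroup.closure (Set.range (PresentedGroup.of : Fin 4 → P)) ≤ U := by
    rw [Subgroup.closure_le]
    rintro _ ⟨i, rfl⟩
    fin_cases i
    exacts [ha, hs, ht, hd]
  exact h2 (this ▸ Subgroup.mem_top g)

theorem d_ne : d ≠ 1 := by
  have h : Rel (Γ := Equiv.Perm (Fin 5)) (Equiv.swap 0 1 * Equiv.swap 2 3)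
      (Equiv.swap 0 1 * Equiv.swap 0 2) (Equiv.swap 0 2 * Equiv.swap 0 1)
      (Equiv.swap 0 1 * Equiv.swap 0 4) := by
    constructor <;> decide
  intro e
  have := congrArg (lift h) e
  rw [lift_d, map_one] at this
  revert this; decide

noncomputable def ρ : P →* Af := lift (a := ⟨1, 0⟩) (s := ⟨0, (0, 1)⟩) (t := ⟨0, (1, 0)⟩) (d := 1)
  ⟨by ext1 <;> simp [one_add_one_eq_two, two_K], by ext1 <;> simp,
    by rw [conj_Af _ _ rfl]; ext1 <;> simp [add_comm],
    by rw [conj_Af _ _ rfl, conj_Af _ _ rfl]; ext1 <;> simp [w], by simp,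
    by ext1 <;> simp [one_add_one_eq_two, two_K]⟩

@[simp] theorem ρ_a : ρ a = ⟨1, 0⟩ := lift_a _
@[simp] theorem ρ_s : ρ s = ⟨0, (0, 1)⟩ := lift_s _
@[simp] theorem ρ_t : ρ t = ⟨0, (1, 0)⟩ := lift_t _
@[simp] theorem ρ_d : ρ d = 1 := lift_d _

end Pool.Agent.H23.CoH
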