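import Pool.Agent.H23.CoH1

namespace Pool.Agent.H23.CoH

open Amal Monoid Polynomial

def B : Subgroup P := Subgroup.closure {a, s, t}
def D : Subgroup P := Subgroup.closure {a, d}
def C : Subgroup P where
  carrier := {x | x = 1 ∨ x = a}
  one_mem' := .inl rfl
  mul_mem' := by
    rintro x y (rfl | rfl) (rfl | rfl) <;> simp [rel.r1]
  inv_mem' := by
    rintro x (rfl | rfl)
    · simp
    · exact .inr (inv_eq_of_mul_eq_one_right rel.r1)

theorem mem_C {x : P} : x ∈ C ↔ x = 1 ∨ x = a := Iff.rfl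
theorem aB : a ∈ B := Subgroup.subset_closure (by simp)
theorem sB : s ∈ B := Subgroup.subset_closure (by simp)
theorem tB : t ∈ B := Subgroup.subset_closure (by simp)
theorem aD : a ∈ D := Subgroup.subset_closure (by simp)
theorem dD : d ∈ D := Subgroup.subset_closure (by simp)

def H : Bool → Subgroup P
  | true => B
  | false => D

theorem hC : ∀ i, C ≤ H i := by
  rintro (_ | _) x (rfl | rfl)
  exacts [one_mem _, aD, one_mem _, aB]

theorem amal : IsAmal H C := by
  refine ⟨hC, gen _ ?_ ?_ ?_ ?_, ?_⟩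
  · exact Subgroup.subset_closure (.inl aB)
  · exact Subgroup.subset_closure (.inl sB)
  · exact Subgroup.subset_closure (.inl tB)
  · exact Subgroup.subset_closure (.inr dD)
  let φ := fun i => Subgroup.inclusion (hC i)
  let f := PushoutI.of (φ := φ) true
  let g := PushoutI.of (φ := φ) false
  have e : f ⟨a, aB⟩ = g ⟨a, aD⟩ :=
    (PushoutI.of_apply_eq_base φ true ⟨a, .inr rfl⟩).trans
      (PushoutI.of_apply_eq_base φ false ⟨a, .inr rfl⟩).symm
  have R : Rel (f ⟨a, aB⟩) (f ⟨s, sB⟩) (f ⟨t, tB⟩) (g ⟨d, dD⟩) := by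
    refine ⟨?_, ?_, ?_, ?_, ?_, ?_⟩
    · rw [← map_mul, ← map_one f]; exact congrArg f (Subtype.ext rel.r1)
    · rw [← map_mul, ← map_mul]; exact congrArg f (Subtype.ext rel.r2)
    · simp only [← map_mul, ← map_inv]; exact congrArg f (Subtype.ext rel.r3)
    · simp only [← map_mul, ← map_inv]; exact congrArg f (Subtype.ext rel.r4)
    · simp only [← map_mul]; rw [← map_one g]; exact congrArg g (Subtype.ext rel.r5)
    · rw [e]; simp only [← map_mul]; rw [← map_one g]; exact congrArg g (Subtype.ext rel.r6)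
  refine fun {_ _ _ _} => nf_of_hom hC (lift R) ?_
  rintro (_ | _) ⟨x, hx⟩
  · refine Subgroup.closure_induction (p := fun x hx => lift R x = g ⟨x, hx⟩) ?_ ?_ ?_ ?_ hx
    · rintro x (rfl | rfl)
      · rw [lift_a, e]
      · rw [lift_d]
    · rw [map_one]; exact (map_one g).symm
    · intro x y hx hy h1 h2; rw [map_mul, h1, h2, ← map_mul]; rfl
    · intro x hx h1; rw [map_inv, h1, ← map_inv]; rfl
  · refine Subgroup.closure_induction (p := fun x hx => lift R x = f ⟨x, hx⟩) ?_ ?_ ?_ ?_ hx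
    · rintro x (rfl | rfl | rfl)
      · rw [lift_a]
      · rw [lift_s]
      · rw [lift_t]
    · rw [map_one]; exact (map_one f).symm
    · intro x y hx hy h1 h2; rw [map_mul, h1, h2, ← map_mul]; rfl
    · intro x hx h1; rw [map_inv, h1, ← map_inv]; rfl

theorem ainv : a⁻¹ = a := inv_eq_of_mul_eq_one_right rel.r1
theorem ad : a * d * a⁻¹ = d⁻¹ := by rw [ainv]; exact eq_inv_of_mul_eq_one_left rel.r6
theorem d3 : d ^ 3 = 1 := by rw [← rel.r5, pow_succ, sq]
theorem adk (k : ℤ) : a * d ^ k = d ^ (-k) * a := by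
  rw [← mul_inv_eq_iff_eq_mul, ← conj_zpow, ad]; group

theorem mem_D {e : P} (h : e ∈ D) : ∃ k : ℤ, e = d ^ k ∨ e = d ^ k * a := by
  refine Subgroup.closure_induction (p := fun e _ => ∃ k : ℤ, e = d ^ k ∨ e = d ^ k * a)
    ?_ ⟨0, by simp⟩ ?_ ?_ h
  · rintro x (rfl | rfl)
    exacts [⟨0, by simp⟩, ⟨1, by simp⟩]
  · rintro x y _ _ ⟨k, rfl | rfl⟩ ⟨l, rfl | rfl⟩
    · exact ⟨k + l, .inl (by group)⟩
    · exact ⟨k + l, .inr (by group)⟩
    · exact ⟨k - l, .inr (by rw [mul_assoc, adk]; group)⟩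
    · exact ⟨k - l, .inl (by rw [mul_assoc, ← mul_assoc a, adk, mul_assoc, rel.r1]; group)⟩
  · rintro x _ ⟨k, rfl | rfl⟩
    · exact ⟨-k, .inl (by group)⟩
    · exact ⟨k, .inr (by rw [mul_inv_rev, ainv, ← zpow_neg, adk, neg_neg])⟩

theorem dk3 (k : ℤ) : (d ^ k) ^ 3 = 1 := by
  rw [← zpow_natCast, ← zpow_mul, mul_comm, zpow_mul, zpow_natCast, d3, one_zpow]
theorem dka (k : ℤ) : (d ^ k * a) ^ 2 = 1 := by
  rw [sq, mul_assoc, ← mul_assoc a, adk, mul_assoc, rel.r1]; group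
theorem C2 {x : P} (h : x ∈ C) : x ^ 2 = 1 := by
  rcases h with rfl | rfl <;> simp [sq, rel.r1]
theorem one_of_23 {Γ : Type} [Group Γ] {x : Γ} (h2 : x ^ 2 = 1) (h3 : x ^ 3 = 1) : x = 1 := by
  rwa [pow_succ, h2, one_mul] at h3

theorem D_move (e : P) (he : e ∈ D) (hc : e ∉ C) : e * a * e⁻¹ ∉ C := by
  have key : ∀ k : ℤ, d ^ k * a * (d ^ k)⁻¹ ∈ C → d ^ k = 1 := by
    intro k h
    rw [mul_assoc, ← zpow_neg, adk, neg_neg, ← mul_assoc,
      mul_mem_cancel_right (show a ∈ C from .inr rfl), ← sq] at h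
    have h4 := C2 h
    have h3 := dk3 k
    rw [← pow_mul, show 2 * 2 = 3 + 1 from rfl, pow_succ, h3, one_mul] at h4
    exact h4
  intro h
  obtain ⟨k, rfl | rfl⟩ := mem_D he
  · exact hc (.inl (key k h))
  · refine hc (.inr ?_)
    rw [key k (by rwa [show d ^ k * a * a * (d ^ k * a)⁻¹ = d ^ k * a * (d ^ k)⁻¹ by group] at h),
      one_mul]

/-! Baumslag's argument -/
def an (n : ℕ) : P := t ^ n * a * (t ^ n)⁻¹

theorem an_succ (n : ℕ) : an (n + 1) = t * an n * t⁻¹ := by simp only [an]; group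
theorem st : Commute s t := rel.r2
theorem s_an (n : ℕ) : s * an n * s⁻¹ = an n * an (n + 1) := by
  have h : s * t ^ n * s⁻¹ = t ^ n := by rw [(st.pow_right n).eq]; group
  calc s * an n * s⁻¹ = (s * t ^ n * s⁻¹) * (s * a * s⁻¹) * (s * t ^ n * s⁻¹)⁻¹ := by
        simp only [an]; group
    _ = _ := by rw [h, rel.r4]; simp only [an]; group

theorem comm_shift {i j : ℕ} (h : Commute (an 0) (an j)) : Commute (an i) (an (i + j)) := by
  induction i with
  | zero => simpa using h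
  | succ i ih =>
    rw [show i + 1 + j = i + j + 1 by omega, an_succ, an_succ]
    exact ih.conj t

theorem comm0 (n : ℕ) : Commute (an 0) (an n) := by
  induction n using Nat.strong_induction_on with
  | _ n ih =>
  rcases n with _ | _ | n
  · rfl
  · have := rel.r3; simpa [an, Commute, SemiconjBy] using this
  have h1 := (ih (n + 1) (by omega)).conj s
  rw [s_an, s_an] at h1
  have h2 : Commute (an 1) (an (n + 1) * an (n + 1 + 1)) := by
    refine Commute.mul_right ?_ ?_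
    · simpa [add_comm] using comm_shift (i := 1) (ih n (by omega))
    · simpa [add_comm] using comm_shift (i := 1) (ih (n + 1) (by omega))
  have h3 := h1.mul_left h2.inv_left
  have h4 := (ih (n + 1) (by omega)).inv_right.mul_right (by simpa using h3)
  simpa using h4

theorem comm (i j : ℕ) : Commute (an i) (an j) := by
  rcases le_total i j with h | h <;> obtain ⟨k, rfl⟩ := Nat.exists_eq_add_of_le h
  exacts [comm_shift (comm0 k), (comm_shift (comm0 k)).symm]

theorem an2 (n : ℕ) : an n * an n = 1 := by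
  calc an n * an n = t ^ n * (a * a) * (t ^ n)⁻¹ := by simp only [an]; group
    _ = 1 := by simp [rel.r1]

theorem ρ_an (n : ℕ) : ρ (an n) = ⟨RatFunc.X ^ n, 0⟩ := by
  simp only [an, map_mul, map_inv, map_pow]
  rw [conj_Af _ _ (by simp), ← zpow_natCast (ρ t), pow_m]
  simp [w]

def M : Subgroup P := Subgroup.closure (Set.range an)
theorem anM (n : ℕ) : an n ∈ M := Subgroup.subset_closure ⟨n, rfl⟩
theorem aM : a ∈ M := by simpa [an] using anM 0
theorem MB : M ≤ B := by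
  rw [M, Subgroup.closure_le]
  rintro _ ⟨n, rfl⟩
  exact mul_mem (mul_mem (pow_mem tB _) aB) (inv_mem (pow_mem tB _))

theorem M_form {x : P} (h : x ∈ M) :
    ∃ S : Finset ℕ, x = S.noncommProd an (fun i _ j _ _ => comm i j) := by
  have step : ∀ n (S : Finset ℕ), ∃ S' : Finset ℕ,
      an n * S.noncommProd an (fun i _ j _ _ => comm i j) =
        S'.noncommProd an (fun i _ j _ _ => comm i j) := by
    intro n S
    by_cases hn : n ∈ S
    · refine ⟨S.erase n, ?_⟩
      rw [← Finset.mul_noncommProd_erase S hn an, ← mul_assoc, an2, one_mul]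
    · exact ⟨insert n S, (Finset.noncommProd_insert_of_notMem S n an _ hn).symm⟩
  refine Subgroup.closure_induction_left
    (p := fun x _ => ∃ S : Finset ℕ, x = S.noncommProd an (fun i _ j _ _ => comm i j))
    ⟨∅, rfl⟩ ?_ ?_ h
  · rintro _ ⟨n, rfl⟩ y _ ⟨S, rfl⟩; exact step n S
  · rintro _ ⟨n, rfl⟩ y _ ⟨S, rfl⟩; rw [inv_eq_of_mul_eq_one_right (an2 n)]; exact step n S

theorem ρ_form (S : Finset ℕ) : ρ (S.noncommProd an (fun i _ j _ _ => comm i j)) =
    ⟨algebraMap (ZMod 2)[X] K (∑ i ∈ S, X ^ i), 0⟩ := by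
  induction S using Finset.induction_on with
  | empty => ext1 <;> simp
  | insert n S hn ih =>
    rw [Finset.noncommProd_insert_of_notMem S n an _ hn, map_mul, ih, ρ_an, Finset.sum_insert hn]
    ext1 <;> simp

theorem M_m {x : P} (h : x ∈ M) : (ρ x).m = 0 := by
  obtain ⟨S, rfl⟩ := M_form h; rw [ρ_form]

theorem M_inj {x : P} (h : x ∈ M) (e : ρ x = 1) : x = 1 := by
  obtain ⟨S, rfl⟩ := M_form h
  rw [ρ_form] at e
  have h1 : (∑ i ∈ S, X ^ i : (ZMod 2)[X]) = 0 :=
    RatFunc.algebraMap_injective _ ((congrArg Af.r e).trans (map_zero _).symm)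
  obtain rfl : S = ∅ := by
    refine Finset.eq_empty_of_forall_notMem fun n hn => ?_
    have := congrArg (fun p => coeff p n) h1
    simp [coeff_X_pow, hn] at this
  rfl

theorem M_a {x : P} (h : x ∈ M) : Commute x a := by
  refine Subgroup.closure_induction (p := fun x _ => Commute x a) ?_ (.one_left _)
    (fun _ _ _ _ => .mul_left) (fun _ _ => .inv_left) h
  rintro _ ⟨n, rfl⟩; simpa [an] using comm n 0

theorem M_conj {g : P} (hg : ∀ n, g * an n * g⁻¹ ∈ M) {x : P} (h : x ∈ M) : g * x * g⁻¹ ∈ M := by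
  refine Subgroup.closure_induction (p := fun x _ => g * x * g⁻¹ ∈ M) ?_ (by simp) ?_ ?_ h
  · rintro _ ⟨n, rfl⟩; exact hg n
  · intro x y _ _ h1 h2; convert mul_mem h1 h2 using 1; group
  · intro x _ h1; convert inv_mem h1 using 1; group

theorem M_t {x : P} (h : x ∈ M) : t * x * t⁻¹ ∈ M := M_conj (fun n => an_succ n ▸ anM _) h
theorem M_s {x : P} (h : x ∈ M) : s * x * s⁻¹ ∈ M :=
  M_conj (fun n => s_an n ▸ mul_mem (anM _) (anM _)) h
theorem M_τ {x : P} (h : x ∈ M) (k : ℕ) : (s * t) ^ k * x * ((s * t) ^ k)⁻¹ ∈ M := by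
  induction k with
  | zero => simpa using h
  | succ k ih => convert M_s (M_t ih) using 1; rw [pow_succ']; simp [mul_assoc]

def N : Subgroup P where
  carrier := {x | ∃ k : ℕ, (s * t) ^ k * x * ((s * t) ^ k)⁻¹ ∈ M}
  one_mem' := ⟨0, by simp⟩
  mul_mem' := by
    rintro x y ⟨k, hk⟩ ⟨l, hl⟩
    refine ⟨k + l, ?_⟩
    convert mul_mem (M_τ hk l) (M_τ hl k) using 1
    group
  inv_mem' := by
    rintro x ⟨k, hk⟩
    exact ⟨k, by convert inv_mem hk using 1; group⟩

theorem N_conj {g : P} (hg : Commute g (s * t)) (h : ∀ x ∈ M, ∃ l : ℕ,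
    (s * t) ^ l * (g * x * g⁻¹) * ((s * t) ^ l)⁻¹ ∈ M) {x : P} (hx : x ∈ N) :
    g * x * g⁻¹ ∈ N := by
  obtain ⟨k, hk⟩ := hx
  obtain ⟨l, hl⟩ := h _ hk
  refine ⟨l + k, ?_⟩
  convert hl using 1
  have := (hg.pow_right k).eq
  calc (s * t) ^ (l + k) * (g * x * g⁻¹) * ((s * t) ^ (l + k))⁻¹
      = (s * t) ^ l * ((s * t) ^ k * g) * x * ((s * t) ^ k * g)⁻¹ * ((s * t) ^ l)⁻¹ := by group
    _ = _ := by rw [← this]; group

theorem B_form {g : P} (h : g ∈ B) : ∃ n ∈ N, ∃ i j : ℤ, g = n * (t ^ i * s ^ j) := by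
  have cs : Commute s (s * t) := (Commute.refl s).mul_right st
  have ct : Commute t (s * t) := st.symm.mul_right (Commute.refl t)
  have step : ∀ (i j : ℤ), (∀ x ∈ N, t ^ i * s ^ j * x * (t ^ i * s ^ j)⁻¹ ∈ N) →
      ∀ y, (∃ n ∈ N, ∃ i j : ℤ, y = n * (t ^ i * s ^ j)) →
      ∃ n ∈ N, ∃ i' j' : ℤ, t ^ i * s ^ j * y = n * (t ^ i' * s ^ j') := by
    rintro i j hN _ ⟨n, hn, k, l, rfl⟩
    refine ⟨_, hN n hn, i + k, j + l, ?_⟩
    have := (st.zpow_zpow j k).eq
    calc t ^ i * s ^ j * (n * (t ^ k * s ^ l))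
        = t ^ i * s ^ j * n * (t ^ i * s ^ j)⁻¹ * (t ^ i * (s ^ j * t ^ k) * s ^ l) := by group
      _ = _ := by rw [this]; group
  have aN : a ∈ N := ⟨0, by simpa using aM⟩
  refine Subgroup.closure_induction_left
    (p := fun g _ => ∃ n ∈ N, ∃ i j : ℤ, g = n * (t ^ i * s ^ j)) ⟨1, one_mem _, 0, 0, by simp⟩
    ?_ ?_ h
  · rintro x (rfl | rfl | rfl) y _ hy
    · obtain ⟨n, hn, i, j, rfl⟩ := hy
      exact ⟨_, mul_mem aN hn, i, j, by group⟩
    · simpa using step 0 1 (fun x hx => by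
        simpa using N_conj cs (fun x hx => ⟨0, by simpa using M_s hx⟩) hx) y hy
    · simpa using step 1 0 (fun x hx => by
        simpa using N_conj ct (fun x hx => ⟨0, by simpa using M_t hx⟩) hx) y hy
  · rintro x (rfl | rfl | rfl) y _ hy
    · obtain ⟨n, hn, i, j, rfl⟩ := hy
      exact ⟨_, mul_mem (inv_mem aN) hn, i, j, by group⟩
    · simpa using step 0 (-1) (fun x hx => by
        simpa using N_conj cs.inv_left (fun x hx => ⟨1, by
          convert M_t hx using 1; rw [st.eq]; group⟩) hx) y hy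
    · simpa using step (-1) 0 (fun x hx => by
        simpa using N_conj ct.inv_left (fun x hx => ⟨1, by
          convert M_s hx using 1; group⟩) hx) y hy

theorem B_N {g : P} (h : g ∈ B) (e : (ρ g).m = 0) : g ∈ N := by
  obtain ⟨n, hn, i, j, rfl⟩ := B_form h
  have h1 : (ρ n).m = 0 := by
    obtain ⟨k, hk⟩ := hn
    simpa using M_m hk
  simp only [map_mul, map_zpow, mul_m, h1, pow_m, ρ_t, ρ_s, zero_add, Prod.smul_mk, smul_eq_mul,
    mul_one, mul_zero, Prod.mk_add_mk, add_zero, Prod.mk_eq_zero] at e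
  simpa [e.1, e.2] using hn

theorem B_inj {g g' : P} (h : g ∈ B) (h' : g' ∈ B) (e : ρ g = ρ g') : g = g' := by
  have e' : ρ (g * g'⁻¹) = 1 := by simp [e]
  obtain ⟨k, hk⟩ := B_N (mul_mem h (inv_mem h')) (by rw [e']; rfl)
  have := M_inj hk (by rw [map_mul, map_mul, e']; simp)
  rw [mul_inv_eq_one, mul_eq_left, mul_inv_eq_one] at this
  exact this

theorem B_conj {g g' n : P} (h : g ∈ B) (h' : g' ∈ B) (hn : n ∈ B) (e : (ρ g).m = (ρ g').m)
    (en : (ρ n).m = 0) : g * n * g⁻¹ = g' * n * g'⁻¹ := by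
  refine B_inj (mul_mem (mul_mem h hn) (inv_mem h)) (mul_mem (mul_mem h' hn) (inv_mem h')) ?_
  simp only [map_mul, map_inv]
  rw [conj_Af _ _ en, conj_Af _ _ en, e]

theorem B_tors {x : P} {n : ℕ} (hx : x ∈ B) (h : x ^ (2 * n + 1) = 1) : x = 1 :=
  B_inj hx (one_mem _) (by rw [map_one]; exact Af_tors (by rw [← map_pow, h, map_one]))

theorem no5 {g : P} (h : g ^ 5 = 1) : g = 1 := by
  obtain ⟨x, k, hx⟩ := amal.torsion (m := 4) h
  have h5 : (x * g * x⁻¹) ^ 5 = 1 := by rw [conj_pow, h]; simp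
  have : x * g * x⁻¹ = 1 := by
    cases k
    · obtain ⟨k, e | e⟩ := mem_D hx <;> rw [e] at h5 ⊢
      · have h3 := dk3 k
        rw [show 5 = 3 + 2 from rfl, pow_add, h3, one_mul] at h5
        exact one_of_23 h5 h3
      · rwa [show 5 = 2 * 2 + 1 from rfl, pow_succ, pow_mul, dka, one_pow, one_mul] at h5
    · exact B_tors (n := 2) hx h5
  simpa using this

end Pool.Agent.H23.CoH
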