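import Pool.Agent.H23.CoH2

namespace Pool.Agent.H23.CoH

open Amal Monoid

def φ : P →* P := lift (a := a) (s := s * s) (t := t * t) (d := d)
  ⟨rel.r1, ((st.mul_left st).mul_right (st.mul_left st)).eq,
    by
      have := (comm 0 2).eq
      simpa [an, sq] using this,
    by
      have h0 := s_an 0
      have h1 := s_an 1
      have h2 : t * t * a * (t * t)⁻¹ = an 2 := by simp [an, sq]
      have h3 : an 0 = a := by simp [an]
      rw [h3] at h0
      calc s * s * a * (s * s)⁻¹ = s * (s * a * s⁻¹) * s⁻¹ := by group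
        _ = s * (a * an 1) * s⁻¹ := by rw [h0]
        _ = (s * a * s⁻¹) * (s * an 1 * s⁻¹) := by group
        _ = a * (an 1 * an 1) * an 2 := by rw [h0, h1]; group
        _ = _ := by rw [an2, h2, mul_one],
    rel.r5, rel.r6⟩

theorem φ_a : φ a = a := lift_a _
theorem φ_s : φ s = s * s := lift_s _
theorem φ_t : φ t = t * t := lift_t _
theorem φ_d : φ d = d := lift_d _

theorem ρφ (g : P) : ρ (φ g) = Fr (ρ g) := by
  have k : ∀ x, ρ (φ x) = Fr (ρ x) → x ∈ (ρ.comp φ).eqLocus (Fr.comp ρ) := fun _ h => h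
  refine gen ((ρ.comp φ).eqLocus (Fr.comp ρ)) ?_ ?_ ?_ ?_ g <;> apply k <;> simp only [φ_a, φ_s, φ_t, φ_d, map_mul] <;>
    ext1 <;> simp [Fr]

theorem φ_inj : Function.Injective φ := by
  refine amal.injective φ ?_ ?_
  · rintro (_ | _) g hg hc
    · have : φ g = g := by
        obtain ⟨k, rfl | rfl⟩ := mem_D hg <;> simp [φ_a, φ_d]
      rw [this]; exact ⟨hg, hc⟩
    · refine ⟨?_, fun h => hc ?_⟩
      · refine (show B ≤ B.comap φ from ?_) hg
        rw [B, Subgroup.closure_le]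
        rintro x (rfl | rfl | rfl) <;> simp only [SetLike.mem_coe, Subgroup.mem_comap]
        · rw [φ_a]; exact aB
        · rw [φ_s]; exact mul_mem sB sB
        · rw [φ_t]; exact mul_mem tB tB
      · rcases h with h | h
        · exact .inl (B_inj hg (one_mem _) (Fr_inj (by rw [← ρφ, h]; simp)))
        · exact .inr (B_inj hg aB (Fr_inj (by rw [← ρφ, ← ρφ, h, φ_a])))
  · rintro c (rfl | rfl) h
    · rfl
    · rwa [φ_a] at h

/-- parity character -/
noncomputable def χ : P →* Multiplicative (ZMod 2) where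
  toFun g := .ofAdd ((ρ g).m.1 : ZMod 2)
  map_one' := by simp
  map_mul' x y := by simp [ofAdd_add]

theorem χφ (g : P) : χ (φ g) = 1 := by
  simp only [χ, MonoidHom.coe_mk, OneHom.coe_mk, ρφ, Fr, Prod.fst_add, Int.cast_add]
  rw [CharTwo.add_self_eq_zero]; rfl

theorem χ_t : χ t ≠ 1 := by simp [χ]

theorem a_ne : a ≠ 1 := fun h => by
  have := congrArg (fun g => (ρ g).r) h
  simp at this

theorem an1 : an 1 ∉ C := by
  rintro (h | h) <;> have := congrArg (fun g => (ρ g).r) h <;> simp only [ρ_an] at this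
  · simp [RatFunc.X_ne_zero] at this
  · apply X1ne
    simp only [pow_one, ρ_a] at this
    rw [this, one_add_one_eq_two, two_K]

theorem rig3 (ψ : P →* P) (hi : Function.Injective ψ) (hχ : ∀ g, χ (ψ g) = χ g)
    (hd : ψ d ∈ D) (ha : ψ a = a) : Function.Surjective ψ := by
  have hM : ∀ x ∈ M, ψ x ∈ B := fun x hx =>
    amal.cent (j := true) (a := a) (.inr rfl) (fun c hc h => hc.resolve_left h) D_move (by
      have := (M_a hx).map ψ
      rw [ha] at this
      rw [this.eq]; group)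
  have hB : ∀ g, (∀ x ∈ M, g * x * g⁻¹ ∈ M) → ψ g ∈ B := by
    intro g hg
    rcases amal.key (ψ g) true with h | ⟨h, -, hh⟩
    · exact h
    exfalso
    have k : ∀ x ∈ M, x ≠ 1 → h * ψ x * h⁻¹ = a := fun x hx x1 =>
      (hh _ (hM x hx) true (by
        rw [← map_inv, ← map_mul, ← map_mul]; exact hM _ (hg x hx))).resolve_left (by
        simpa using fun e => x1 (hi (by rw [e, map_one])))
    have := (k _ (anM 1) (fun e => an1 (.inl e))).trans (k _ aM a_ne).symm
    exact an1 (.inr (hi (by simpa using this)))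
  have hs := hB s fun _ => M_s
  have ht := hB t fun _ => M_t
  have hu : w (ρ (ψ s)).m = 1 + w (ρ (ψ t)).m := by
    have := congrArg (fun g => ρ (ψ g)) rel.r4
    simp only [map_mul, map_inv, ha] at this
    rw [conj_Af _ _ (by simp), conj_Af _ _ (by simp)] at this
    simpa using congrArg Af.r this
  have h1 : Odd (ρ (ψ t)).m.1 := by
    have := hχ t
    simp only [χ, MonoidHom.coe_mk, OneHom.coe_mk, ρ_t, EmbeddingLike.apply_eq_iff_eq,
      Int.cast_one] at this
    exact (ZMod.intCast_eq_one_iff_odd).1 this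
  have h2 : Even (ρ (ψ s)).m.1 := by
    have := hχ s
    simp only [χ, MonoidHom.coe_mk, OneHom.coe_mk, ρ_s, EmbeddingLike.apply_eq_iff_eq,
      Int.cast_zero] at this
    exact (ZMod.intCast_eq_zero_iff_even).1 this
  obtain ⟨u, v, uB, vB, uΓ, vΓ, um, vm⟩ : ∃ u v, u ∈ B ∧ v ∈ B ∧ u ∈ ψ.range ∧ v ∈ ψ.range ∧
      (ρ u).m = (1, 0) ∧ (ρ v).m = (0, 1) := by
    rcases sunit hu h1 h2 with ⟨e1, e2⟩ | ⟨e1, e2⟩
    · exact ⟨_, _, ht, hs, ⟨_, rfl⟩, ⟨_, rfl⟩, e1, e2⟩
    · exact ⟨ψ t * (ψ s)⁻¹, (ψ s)⁻¹, mul_mem ht (inv_mem hs), inv_mem hs, ⟨t * s⁻¹, by simp⟩,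
        ⟨s⁻¹, by simp⟩, by simp [e1, e2], by simp [e2]⟩
  have aΓ : a ∈ ψ.range := ⟨a, ha⟩
  have pm : ∀ (x : P) (k : ℕ), (ρ (x ^ k)).m = (k : ℤ) • (ρ x).m := fun x k => by
    rw [map_pow, ← zpow_natCast, pow_m]
  have MΓ : M ≤ ψ.range := by
    rw [M, Subgroup.closure_le]
    rintro _ ⟨n, rfl⟩
    rw [an, B_conj (pow_mem tB n) (pow_mem uB n) aB (by rw [pm, pm, um, ρ_t]) (by simp)]
    exact mul_mem (mul_mem (pow_mem uΓ _) aΓ) (inv_mem (pow_mem uΓ _))
  have NΓ : ∀ x ∈ B, (ρ x).m = 0 → x ∈ ψ.range := by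
    intro x hx e
    obtain ⟨k, hk⟩ := B_N hx e
    rw [B_conj (pow_mem (mul_mem sB tB) k) (pow_mem (mul_mem vB uB) k) hx
      (by rw [pm, pm]; simp [um, vm]) e] at hk
    have hp := pow_mem (mul_mem vΓ uΓ) k
    simpa [mul_mem_cancel_left hp, mul_mem_cancel_right (inv_mem hp)] using MΓ hk
  have sΓ : s ∈ ψ.range := by
    simpa [mul_mem_cancel_right (inv_mem vΓ)] using
      NΓ (s * v⁻¹) (mul_mem sB (inv_mem vB)) (by simp [vm])
  have tΓ : t ∈ ψ.range := by
    simpa [mul_mem_cancel_right (inv_mem uΓ)] using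
      NΓ (t * u⁻¹) (mul_mem tB (inv_mem uB)) (by simp [um])
  have dΓ : d ∈ ψ.range := by
    have h3 : ψ d ^ 3 = 1 := by rw [← map_pow, d3, map_one]
    have n1 : ψ d ≠ 1 := fun e => d_ne (hi (by rw [e, map_one]))
    obtain ⟨k, e | e⟩ := mem_D hd
    · refine ⟨d ^ k, ?_⟩
      rw [map_zpow, e, ← zpow_mul]
      have d3' : d ^ (3 : ℤ) = 1 := by rw [← d3, ← zpow_natCast]; rfl
      obtain ⟨q, rfl | rfl | rfl⟩ : ∃ q, k = 3 * q ∨ k = 3 * q + 1 ∨ k = 3 * q + 2 :=
        ⟨k / 3, by omega⟩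
      · exact absurd (by rw [e, zpow_mul, d3', one_zpow]) n1
      · rw [show (3 * q + 1) * (3 * q + 1) = 3 * (3 * q * q + 2 * q) + 1 by ring, zpow_add_one,
          zpow_mul, d3']; simp
      · rw [show (3 * q + 2) * (3 * q + 2) = 3 * (3 * q * q + 4 * q + 1) + 1 by ring, zpow_add_one,
          zpow_mul, d3']; simp
    · exact absurd (one_of_23 (e ▸ dka k) h3) n1
  exact gen ψ.range aΓ sΓ tΓ dΓ

theorem rig_conj (ψ : P →* P) (x : P) (hi : Function.Injective ψ) (hχ : ∀ g, χ (ψ g) = χ g)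
    (h : ∀ ψ' : P →* P, Function.Injective ψ' → (∀ g, χ (ψ' g) = χ g) →
      (∀ g, ψ' g = x * ψ g * x⁻¹) → Function.Surjective ψ') : Function.Surjective ψ := by
  have := h ((MulAut.conj x).toMonoidHom.comp ψ) ((MulAut.conj x).injective.comp hi)
    (fun g => by simp [hχ]) (fun g => rfl)
  intro y
  obtain ⟨g, hg⟩ := this (x * y * x⁻¹)
  exact ⟨g, by simpa using hg⟩

theorem rig2 (ψ : P →* P) (hi : Function.Injective ψ) (hχ : ∀ g, χ (ψ g) = χ g)
    (hd : ψ d ∈ D) : Function.Surjective ψ := by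
  have h3 : ψ d ^ 3 = 1 := by rw [← map_pow, d3, map_one]
  have n1 : ψ d ≠ 1 := fun e => d_ne (hi (by rw [e, map_one]))
  have ha : ψ a ∈ D := by
    rcases amal.key (ψ a) false with h | ⟨h, -, hh⟩
    · exact h
    exfalso
    have := C2 (hh _ hd false (by
      rw [← map_inv, ← map_mul, ← map_mul, ad, map_inv]; exact inv_mem hd))
    rw [conj_pow] at this
    exact n1 (one_of_23 (by simpa using this) h3)
  obtain ⟨k, e | e⟩ := mem_D ha
  · exact absurd (hi ((one_of_23 (by rw [← map_pow, C2 (.inr rfl), map_one]) (e ▸ dk3 k)).trans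
      (map_one _).symm)) a_ne
  refine rig_conj ψ (d ^ k) hi hχ fun ψ' h1 h2 h4 => rig3 ψ' h1 h2 ?_ ?_
  · rw [h4]; exact mul_mem (mul_mem (zpow_mem dD _) hd) (inv_mem (zpow_mem dD _))
  · rw [h4, e, mul_assoc, mul_assoc, ← zpow_neg, adk, neg_neg, ← mul_assoc, ← mul_assoc,
      ← pow_three', dk3, one_mul]

theorem rig (ψ : P →* P) (hi : Function.Injective ψ) (hχ : ∀ g, χ (ψ g) = χ g) :
    Function.Surjective ψ := by
  have h3 : ψ d ^ 3 = 1 := by rw [← map_pow, d3, map_one]
  have n1 : ψ d ≠ 1 := fun e => d_ne (hi (by rw [e, map_one]))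
  obtain ⟨x, k, hx⟩ := amal.torsion (m := 2) h3
  cases k
  · exact rig_conj ψ x hi hχ fun ψ' h1 h2 h4 => rig2 ψ' h1 h2 (h4 d ▸ hx)
  · have := B_tors (n := 1) hx (by rw [conj_pow, h3]; simp)
    exact absurd (by simpa using this) n1

/-! The groups `S ⊇ T`. -/
open DihedralGroup

abbrev D5 := DihedralGroup 5

def sg : D5 →* Multiplicative (ZMod 2) where
  toFun x := match x with
    | r _ => 1
    | sr _ => .ofAdd 1
  map_one' := rfl
  map_mul' := by decide

def ι : Multiplicative (ZMod 2) →* D5 where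
  toFun c := if c = 1 then 1 else sr 0
  map_one' := rfl
  map_mul' := by decide

abbrev S := P × D5

noncomputable def T : Subgroup S := (χ.comp (MonoidHom.fst _ _)).eqLocus (sg.comp (MonoidHom.snd _ _))

theorem mem_T {x : S} : x ∈ T ↔ χ x.1 = sg x.2 := Iff.rfl

noncomputable def σ : P →* T := ((MonoidHom.id P).prod (ι.comp χ)).codRestrict T (fun g => by
  have : ∀ c, c = sg (ι c) := by decide
  exact this (χ g))

noncomputable def π : T →* P := (MonoidHom.fst _ _).comp T.subtype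

noncomputable def z (k : ZMod 5) : T := ⟨(1, r k), by rw [mem_T, map_one]; rfl⟩

theorem ker_π {x : T} (h : π x = 1) : ∃ k, x = z k := by
  obtain ⟨⟨g, y⟩, hx⟩ := x
  obtain rfl : g = 1 := h
  rw [mem_T, map_one] at hx
  cases y with
  | r k => exact ⟨k, rfl⟩
  | sr k => exact absurd hx (show ¬ (1 : Multiplicative (ZMod 2)) = .ofAdd 1 by decide)

theorem T_cohopf (ψ : T →* T) (hi : Function.Injective ψ) : Function.Surjective ψ := by
  obtain ⟨k, hk⟩ : ∃ k, ψ (z 1) = z k := ker_π (no5 (by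
    rw [← map_pow, ← map_pow, show z 1 ^ 5 = 1 from Subtype.ext (Prod.ext (by simp [z])
      (by simp [z]; decide))]; simp))
  have k0 : k ≠ 0 := by
    rintro rfl
    have := congrArg (fun x : T => x.1.2) (hi (hk.trans (map_one ψ).symm))
    revert this; simp [z]; decide
  have zr : ∀ l, ∃ n : ℕ, ψ (z 1 ^ n) = z l := by
    intro l
    obtain ⟨n, hn⟩ : ∃ n : Fin 5, (r k : D5) ^ (n : ℕ) = r l := by clear hk; revert k0; revert k l; decide
    exact ⟨n, by rw [map_pow, hk]; exact Subtype.ext (Prod.ext (by simp [z]) hn)⟩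
  have hs := rig (π.comp (ψ.comp σ)) (by
    rw [injective_iff_map_eq_one]
    intro g hg
    obtain ⟨l, hl⟩ := ker_π hg
    obtain ⟨n, hn⟩ := zr l
    have := congrArg π (hi (hl.trans hn.symm))
    simpa [π, σ, z] using this) (by
    intro g
    have key : ∀ x : T, x * z 1 * x⁻¹ = if χ (π x) = 1 then z 1 else (z 1)⁻¹ := by
      rintro ⟨⟨g, y⟩, hx⟩
      have h1 : χ g = sg y := hx
      have : ∀ y : D5, y * r 1 * y⁻¹ = if sg y = 1 then r 1 else (r 1)⁻¹ := by decide
      refine Subtype.ext (Prod.ext ?_ ?_)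
      · split_ifs <;> simp [z]
      · change y * r 1 * y⁻¹ = _
        rw [this y, show π ⟨(g, y), hx⟩ = g from rfl, h1]
        split_ifs <;> rfl
    have h1 := congrArg (fun x : T => (ψ x).1.2) (key (σ g))
    have h2 : χ (π (ψ (σ g))) = sg (ψ (σ g)).1.2 := (ψ (σ g)).2
    rw [MonoidHom.comp_apply, MonoidHom.comp_apply, h2]
    simp only [map_mul, map_inv, hk, show π (σ g) = g from rfl, apply_ite ψ] at h1
    have : ∀ (k : ZMod 5) (y : D5) (c : Multiplicative (ZMod 2)), k ≠ 0 →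
      y * r k * y⁻¹ = (if c = 1 then r k else (r k)⁻¹) → sg y = c := by decide
    refine this k _ _ k0 ?_
    split_ifs at h1 ⊢ <;> exact h1)
  intro x
  obtain ⟨g, hg⟩ := hs (π x)
  obtain ⟨l, hl⟩ := ker_π (x := (ψ (σ g))⁻¹ * x) (by
    rw [map_mul, map_inv, ← hg]; simp)
  obtain ⟨n, hn⟩ := zr l
  exact ⟨σ g * z 1 ^ n, by rw [map_mul, hn, ← hl]; group⟩

theorem S_not : ∃ f : S →* S, Function.Injective f ∧ ¬ Function.Surjective f := by
  refine ⟨φ.prodMap (MonoidHom.id _), φ_inj.prodMap Function.injective_id, fun h => ?_⟩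
  obtain ⟨x, hx⟩ := h (t, 1)
  exact χ_t ((congrArg (fun x : S => χ x.1) hx).symm.trans (χφ _))

theorem T_ker : T = ((χ.comp (MonoidHom.fst _ _)) / (sg.comp (MonoidHom.snd _ _))).ker := by
  ext x; simp [mem_T, div_eq_one]

instance : T.Normal := T_ker ▸ inferInstance
instance : T.FiniteIndex := T_ker ▸ inferInstance

open scoped commutatorElement in
theorem fp_prod (G G' : Type) [Group G] [Group G'] [Group.IsFinitelyPresented G]
    [Group.IsFinitelyPresented G'] [hG : Group.FG G] [hG' : Group.FG G'] :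
    Group.IsFinitelyPresented (G × G') := by
  obtain ⟨A, hA, fA⟩ := Group.fg_iff.1 hG
  obtain ⟨A', hA', fA'⟩ := Group.fg_iff.1 hG'
  let R : Set (Coprod G G') := Set.image2 (fun x y => ⁅(Coprod.inl x : Coprod G G'), (Coprod.inr y : Coprod G G')⁆) A A'
  refine Group.IsFinitelyPresented.of_surjective (Coprod.toProd) Coprod.toProd_surjective
    ⟨R, fA.image2 _ fA', le_antisymm ?_ ?_⟩
  · refine Subgroup.normalClosure_le_normal ?_
    rintro _ ⟨x, -, y, -, rfl⟩
    simp [commutatorElement_def]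
  · let q := QuotientGroup.mk' (Subgroup.normalClosure R)
    have c : ∀ x y, Commute (q (Coprod.inl x)) (q (Coprod.inr y)) := by
      intro x y
      refine Subgroup.closure_induction (k := A)
        (p := fun x _ => Commute (q (Coprod.inl x)) (q (Coprod.inr y))) ?_ (by simp)
        (fun _ _ _ _ h1 h2 => by simpa using h1.mul_left h2)
        (fun _ _ h1 => by simpa using h1.inv_left) (hA ▸ Subgroup.mem_top x)
      intro x hx
      refine Subgroup.closure_induction (k := A')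
        (p := fun y _ => Commute (q (Coprod.inl x)) (q (Coprod.inr y))) ?_ (by simp)
        (fun _ _ _ _ h1 h2 => by simpa using h1.mul_right h2)
        (fun _ _ h1 => by simpa using h1.inv_right) (hA' ▸ Subgroup.mem_top y)
      intro y hy
      rw [← commutatorElement_eq_one_iff_commute, ← map_commutatorElement]
      exact (QuotientGroup.eq_one_iff _).2 (Subgroup.subset_normalClosure ⟨x, hx, y, hy, rfl⟩)
    intro x hx
    have e : (MonoidHom.noncommCoprod (q.comp Coprod.inl) (q.comp Coprod.inr) c).comp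
        Coprod.toProd = q := by ext <;> simp
    rw [← QuotientGroup.eq_one_iff, ← QuotientGroup.mk'_apply]
    change q x = 1
    rw [← e, MonoidHom.comp_apply, hx, map_one]

instance : Group.FG P := Group.fg_of_surjective (PresentedGroup.mk_surjective rels)

instance S_fp : Group.IsFinitelyPresented S := fp_prod P D5

theorem T_fg : T.FG := (Group.fg_iff_subgroup_fg T).1 inferInstance

end Pool.Agent.H23.CoH
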