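import Pool.Agent.H23.CoH3

namespace Pool.Agent.H23.CoH

noncomputable def T' : Subsemigroup S := T.toSubmonoid.toSubsemigroup

theorem mem_T' {x : S} : x ∈ T' ↔ x ∈ T := Iff.rfl

theorem T'_fg : ∃ A : Finset S, Subsemigroup.closure (A : Set S) = T' := by
  classical
  obtain ⟨A, hA⟩ := (Subgroup.fg_iff_submonoid_fg T).1 T_fg
  refine ⟨insert 1 A, le_antisymm ?_ fun x hx => ?_⟩
  · rw [Subsemigroup.closure_le]
    intro x hx
    rcases Finset.mem_insert.1 hx with rfl | hx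
    · exact T.one_mem
    · exact show x ∈ T.toSubmonoid from hA ▸ Submonoid.subset_closure hx
  · have hx' : x ∈ Submonoid.closure (A : Set S) := hA ▸ hx
    refine Submonoid.closure_induction
      (motive := fun x _ => x ∈ Subsemigroup.closure ((insert 1 A : Finset S) : Set S)) ?_ ?_ ?_ hx'
    · exact fun x hx => Subsemigroup.subset_closure (Finset.mem_insert_of_mem hx)
    · exact Subsemigroup.subset_closure (Finset.mem_insert_self _ _)
    · exact fun _ _ _ _ => Subsemigroup.mul_mem _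

theorem T'_co (f : T' →ₙ* T') (h : Function.Injective f) : Function.Surjective f :=
  T_cohopf (MonoidHom.mk' (fun x => f x) (fun x y => map_mul f x y)) h

theorem out {u v : S} (hu : u ∉ T) (hv : v ∉ T) : u⁻¹ * v ∈ T ∧ v * u⁻¹ ∈ T := by
  simp only [mem_T, Prod.fst_mul, Prod.snd_mul, map_mul, Prod.fst_inv, Prod.snd_inv, map_inv] at *
  revert hu hv
  generalize χ u.1 = a, χ v.1 = b, sg u.2 = c, sg v.2 = e
  revert a b c e; decide

theorem t_out : ((t, 1) : S) ∉ T := by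
  rw [mem_T, map_one]; exact χ_t

theorem S_not' : ¬ ∀ f : S →ₙ* S, Function.Injective f → Function.Surjective f := fun h => by
  obtain ⟨f, h1, h2⟩ := S_not
  exact h2 (h f h1)

theorem main1 : ¬ (∀ (S : Type) [Semigroup S] (T : Subsemigroup S),
      (∃ G : Finset S, Subsemigroup.closure (G : Set S) = T) →
      (∃ F : Finset S, ∀ u : S, u ∉ T → ∃ v ∈ F, v ∉ T ∧
        ((u = v ∨ ∃ t ∈ T, u = v * t) ∧ (v = u ∨ ∃ t ∈ T, v = u * t)) ∧
        ((u = v ∨ ∃ t ∈ T, u = t * v) ∧ (v = u ∨ ∃ t ∈ T, v = t * u))) →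
      (∀ f : T →ₙ* T, Function.Injective f → Function.Surjective f) →
      ∀ f : S →ₙ* S, Function.Injective f → Function.Surjective f) := fun h =>
  S_not' (h S T' T'_fg ⟨{(t, 1)}, fun u hu => ⟨(t, 1), by simp, t_out,
    ⟨.inr ⟨_, (out t_out hu).1, by group⟩, .inr ⟨_, (out hu t_out).1, by group⟩⟩,
    ⟨.inr ⟨_, (out t_out hu).2, by group⟩, .inr ⟨_, (out hu t_out).2, by group⟩⟩⟩⟩ T'_co)

theorem main2 : ¬ (∀ (S : Type) [Semigroup S] (T : Subsemigroup S) (Hrel : S → S → Prop),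
      (∀ u v : S, Hrel u v ↔
        ((v = u ∨ ∃ t ∈ T, v = u * t) ∧ (u = v ∨ ∃ t ∈ T, u = v * t) ∧
         (v = u ∨ ∃ t ∈ T, v = t * u) ∧ (u = v ∨ ∃ t ∈ T, u = t * v))) →
      (∃ A : Finset S, Subsemigroup.closure (A : Set S) = T) →
      (∃ F : Finset S, ∀ u : S, u ∉ T → ∃ f ∈ F, Hrel u f) →
      (∀ f : T →ₙ* T, Function.Injective f → Function.Surjective f) →
      (∀ u : S, u ∉ T →
        ∀ G : Set ({h : S // Hrel u h} → {h : S // Hrel u h}),
          (∀ g : {h : S // Hrel u h} → {h : S // Hrel u h}, g ∈ G ↔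
            (g = id ∨ ∃ t ∈ T,
              (∀ h : {h : S // Hrel u h}, ∃ h' : {h : S // Hrel u h}, h'.1 * t = h.1) ∧
              ∀ h : {h : S // Hrel u h}, (g h).1 = h.1 * t)) →
          ∀ φ : ({h : S // Hrel u h} → {h : S // Hrel u h}) →
                ({h : S // Hrel u h} → {h : S // Hrel u h}),
            (∀ g ∈ G, φ g ∈ G) →
            (∀ g ∈ G, ∀ g' ∈ G, φ (g ∘ g') = φ g ∘ φ g') →
            Set.InjOn φ G →
            ∀ g ∈ G, ∃ g' ∈ G, φ g' = g) →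
      ∀ f : S →ₙ* S, Function.Injective f → Function.Surjective f) := fun h => by
  refine S_not' (h S T' (fun u v => u⁻¹ * v ∈ T) ?_ T'_fg
    ⟨{(t, 1)}, fun u hu => ⟨(t, 1), by simp, (out hu t_out).1⟩⟩ T'_co ?_)
  · intro u v
    refine ⟨fun h => ?_, ?_⟩
    · have h' : v * u⁻¹ ∈ T := (inferInstance : T.Normal).mem_comm h
      exact ⟨.inr ⟨_, h, by group⟩, .inr ⟨_, T.inv_mem h, by group⟩, .inr ⟨_, h', by group⟩,
        .inr ⟨_, T.inv_mem h', by group⟩⟩
    · rintro ⟨rfl | ⟨x, hx, rfl⟩, -⟩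
      · simp
      · simpa using mem_T'.1 hx
  intro u _ G hG ψ h1 h2 h3
  let R : T → {h : S // u⁻¹ * h ∈ T} → {h : S // u⁻¹ * h ∈ T} :=
    fun x h => ⟨h.1 * x, by rw [← mul_assoc]; exact mul_mem h.2 x.2⟩
  have hR : ∀ g, g ∈ G ↔ ∃ x, R x = g := by
    intro g
    rw [hG]
    constructor
    · rintro (rfl | ⟨x, hx, -, e⟩)
      · exact ⟨1, funext fun h => Subtype.ext (mul_one _)⟩
      · exact ⟨⟨x, hx⟩, funext fun h => Subtype.ext (e h).symm⟩
    · rintro ⟨x, rfl⟩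
      exact .inr ⟨x, x.2, fun h => ⟨R x⁻¹ h, by simp [R]⟩, fun h => rfl⟩
  have Ri : Function.Injective R := fun x y e =>
    Subtype.ext (mul_left_cancel (congrArg (fun g => (g ⟨u, by simp⟩).1) e))
  have Rm : ∀ x y, R (x * y) = R y ∘ R x := fun x y =>
    funext fun h => Subtype.ext (mul_assoc _ _ _).symm
  have RG : ∀ x, R x ∈ G := fun x => (hR _).2 ⟨x, rfl⟩
  choose f hf using fun x => (hR _).1 (h1 _ (RG x))
  have hs := T_cohopf (MonoidHom.mk' f fun x y => Ri (by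
    rw [hf, Rm, Rm, h2 _ (RG _) _ (RG _), hf, hf])) (fun x y e => Ri (h3 (RG _) (RG _) (by
      rw [← hf, ← hf]; exact congrArg R e)))
  intro g hg
  obtain ⟨x, rfl⟩ := (hR g).1 hg
  obtain ⟨y, rfl⟩ := hs x
  exact ⟨R y, RG y, (hf y).symm⟩

end Pool.Agent.H23.CoH
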