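import Mathlib

set_option autoImplicit false

namespace Pool.Agent.H23.Dilw

open Finset Filter
open Classical

variable {A : Type} [PartialOrder A]

theorem surj {t : Finset A} {n : ℕ} {f : A → ℕ} (ht : ∀ x ∈ t, ∀ y ∈ t, x ≤ y → x = y)
    (hc : n ≤ t.card) (h1 : ∀ x ∈ t, f x < n)
    (h2 : ∀ x ∈ t, ∀ y ∈ t, f x = f y → x ≤ y ∨ y ≤ x) : ∀ i < n, ∃ x ∈ t, f x = i := by
  intro i hi
  have := surjOn_of_injOn_of_card_le (s := t) (t := range n) f
    (fun x hx => by simpa using h1 x hx) (fun x hx y hy e => (h2 x hx y hy e).elim (ht x hx y hy)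
      fun h => (ht y hy x hx h).symm) (by simpa using hc)
  exact this (by simpa using hi)

theorem fin_dilworth (s : Finset A) : ∀ n : ℕ,
    (∀ t ⊆ s, (∀ x ∈ t, ∀ y ∈ t, x ≤ y → x = y) → t.card ≤ n) →
    ∃ f : A → ℕ, (∀ x ∈ s, f x < n) ∧ ∀ x ∈ s, ∀ y ∈ s, f x = f y → x ≤ y ∨ y ≤ x := by
  induction s using Finset.strongInduction with
  | H s ih =>
  intro n hn
  rcases s.eq_empty_or_nonempty with rfl | hs
  · exact ⟨fun _ => 0, by simp, by simp⟩
  obtain ⟨a, ha⟩ := s.exists_maximal hs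
  obtain ⟨m, rfl⟩ : ∃ m, n = m + 1 := ⟨n - 1, by
    have := hn {a} (by simpa using ha.1) (by simp)
    rw [card_singleton] at this
    omega⟩
  have key : ∀ K : Finset A, a ∈ K → (∀ x ∈ K, ∀ y ∈ K, x ≤ y ∨ y ≤ x) →
      (∀ t ⊆ s \ K, (∀ x ∈ t, ∀ y ∈ t, x ≤ y → x = y) → t.card ≤ m) →
      ∃ f : A → ℕ, (∀ x ∈ s, f x < m + 1) ∧ ∀ x ∈ s, ∀ y ∈ s, f x = f y → x ≤ y ∨ y ≤ x := by
    intro K h1 h2 h3
    obtain ⟨f, f1, f2⟩ := ih (s \ K) ⟨sdiff_subset, fun h => by simpa [h1] using h ha.1⟩ m h3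
    refine ⟨fun z => if z ∈ K then m else f z, fun x hx => ?_, fun x hx y hy e => ?_⟩
    · dsimp only
      split_ifs with h
      · omega
      · exact (f1 x (mem_sdiff.2 ⟨hx, h⟩)).trans (by omega)
    · by_cases p : x ∈ K <;> by_cases q : y ∈ K <;> simp only [p, q, if_true, if_false] at e
      · exact h2 x p y q
      · have := f1 y (mem_sdiff.2 ⟨hy, q⟩); omega
      · have := f1 x (mem_sdiff.2 ⟨hx, p⟩); omega
      · exact f2 x (mem_sdiff.2 ⟨hx, p⟩) y (mem_sdiff.2 ⟨hy, q⟩) e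
  by_contra hne
  have h0 : ¬ _ := fun h => hne (key {a} (by simp) (by simp) h)
  push Not at h0
  obtain ⟨t0, t1, t2, t3⟩ := h0
  obtain ⟨f, f1, f2⟩ := ih (s \ {a}) ⟨sdiff_subset, fun h => by simpa using h ha.1⟩ (m + 1)
    fun t ht => hn t (ht.trans sdiff_subset)
  let G : ℕ → Finset A := fun i => {z ∈ s \ {a} | f z = i ∧ ∃ t ⊆ s \ {a},
    (∀ x ∈ t, ∀ y ∈ t, x ≤ y → x = y) ∧ m < t.card ∧ z ∈ t}
  have hG : ∀ t ⊆ s \ {a}, (∀ x ∈ t, ∀ y ∈ t, x ≤ y → x = y) → m < t.card →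
      ∀ i < m + 1, ∃ z ∈ t, z ∈ G i := fun t h1 h2 h3 i hi => by
    obtain ⟨z, z1, z2⟩ := surj h2 h3 (fun x hx => f1 x (h1 hx))
      (fun x hx y hy => f2 x (h1 hx) y (h1 hy)) i hi
    exact ⟨z, z1, mem_filter.2 ⟨h1 z1, z2, t, h1, h2, h3, z1⟩⟩
  have : ∀ i, ∃ x, i < m + 1 → x ∈ G i ∧ ∀ z ∈ G i, z ≤ x := fun i => by
    by_cases hi : i < m + 1
    · obtain ⟨z, -, hz⟩ := hG t0 t1 t2 t3 i hi
      obtain ⟨x, hx⟩ := (G i).exists_maximal ⟨z, hz⟩
      refine ⟨x, fun _ => ⟨hx.1, fun y hy => ?_⟩⟩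
      have p := mem_filter.1 hx.1
      have q := mem_filter.1 hy
      exact (f2 y q.1 x p.1 (q.2.1.trans p.2.1.symm)).elim id (hx.2 hy)
    · exact ⟨a, fun h => absurd h hi⟩
  choose x hx using this
  have x1 : ∀ i < m + 1, ∀ j < m + 1, x i ≤ x j → i = j := fun i hi j hj h => by
    obtain ⟨p, q, t, h1, h2, h3, h4⟩ := mem_filter.1 (hx j hj).1
    obtain ⟨z, z1, z2⟩ := hG t h1 h2 h3 i hi
    have := h2 z z1 _ h4 (((hx i hi).2 z z2).trans h)
    rw [← q, ← this, (mem_filter.1 z2).2.1]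
  have x2 : ∀ i < m + 1, x i ∈ s ∧ x i ≠ a := fun i hi => by
    simpa using (mem_filter.1 (hx i hi).1).1
  have : ∃ i < m + 1, x i ≤ a := by
    by_contra h
    push Not at h
    have := hn (insert a ((range (m + 1)).image x)) (by
      intro z hz
      simp only [mem_insert, mem_image, mem_range] at hz
      rcases hz with rfl | ⟨i, hi, rfl⟩
      exacts [ha.1, (x2 i hi).1]) (by
      intro y hy z hz e
      simp only [mem_insert, mem_image, mem_range] at hy hz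
      rcases hy with rfl | ⟨i, hi, rfl⟩ <;> rcases hz with rfl | ⟨j, hj, rfl⟩
      · rfl
      · exact absurd (ha.2 (x2 j hj).1 e) (h j hj)
      · exact absurd e (h i hi)
      · rw [x1 i hi j hj e])
    rw [card_insert_of_notMem (by
      simp only [mem_image, mem_range]
      rintro ⟨i, hi, e⟩
      exact (x2 i hi).2 e), card_image_of_injOn fun i hi j hj e =>
        x1 i (by simpa using hi) j (by simpa using hj) e.le, card_range] at this
    omega
  obtain ⟨i, hi, hia⟩ := this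
  refine hne (key (insert a {z ∈ s \ {a} | f z = i ∧ z ≤ x i}) (by simp) ?_ fun t h1 h2 => ?_)
  · intro y hy z hz
    simp only [mem_insert, mem_filter] at hy hz
    rcases hy with rfl | hy <;> rcases hz with rfl | hz
    · exact Or.inl le_rfl
    · exact Or.inr (hz.2.2.trans hia)
    · exact Or.inl (hy.2.2.trans hia)
    · exact f2 y hy.1 z hz.1 (hy.2.1.trans hz.2.1.symm)
  · by_contra h3
    obtain ⟨z, z1, z2⟩ := hG t (fun z hz => by
      have := mem_sdiff.1 (h1 hz)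
      exact mem_sdiff.2 ⟨this.1, fun e => this.2 (mem_insert.2 (Or.inl (mem_singleton.1 e)))⟩) h2 (not_le.1 h3) i hi
    exact (mem_sdiff.1 (h1 z1)).2 (mem_insert_of_mem (mem_filter.2
      ⟨(mem_filter.1 z2).1, (mem_filter.1 z2).2.1, (hx i hi).2 z z2⟩))

theorem cluster {ι B C : Type} [Finite C] (U : Ultrafilter ι) (t : ι → B → C) :
    ∃ c : B → C, ∀ x, ∀ᶠ i in U, t i x = c x := by
  have : ∀ x, ∃ c, ∀ᶠ i in U, t i x = c := fun x => by
    obtain ⟨c, hc⟩ := (U.map fun i => t i x).eq_pure_of_finite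
    refine ⟨c, ?_⟩
    have : {c} ∈ U.map fun i => t i x := by rw [hc]; simp
    exact this
  exact ⟨fun x => (this x).choose, fun x => (this x).choose_spec⟩

theorem dilworth (B : Set A) (n : ℕ)
    (h : ∀ t : Finset A, (∀ x ∈ t, x ∈ B) → (∀ x ∈ t, ∀ y ∈ t, x ≤ y → x = y) → t.card ≤ n) :
    ∃ f : A → Fin (n + 1), (∀ x ∈ B, f x ≠ Fin.last n) ∧
      ∀ x ∈ B, ∀ y ∈ B, f x = f y → x ≤ y ∨ y ≤ x := by
  choose f f1 f2 using fun s : Finset A => fin_dilworth {x ∈ s | x ∈ B} n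
    fun t ht => h t fun x hx => (mem_filter.1 (ht hx)).2
  obtain ⟨c, hc⟩ := cluster (Ultrafilter.of (atTop : Filter (Finset A)))
    fun s x => Fin.ofNat (n + 1) (f s x)
  have k : ∀ x ∈ B, ∀ᶠ s in (Ultrafilter.of (atTop : Filter (Finset A)) : Filter (Finset A)),
      x ∈ s.filter (· ∈ B) ∧ (c x : ℕ) = f s x := fun x hx => by
    filter_upwards [hc x, Ultrafilter.of_le _ (eventually_ge_atTop {x})] with s h1 h2
    have : x ∈ s.filter (· ∈ B) := mem_filter.2 ⟨h2 (mem_singleton_self x), hx⟩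
    refine ⟨this, ?_⟩
    rw [← h1, Fin.val_ofNat, Nat.mod_eq_of_lt ((f1 s x this).trans (by omega))]
  refine ⟨c, fun x hx e => ?_, fun x hx y hy e => ?_⟩
  · obtain ⟨s, h1, h2⟩ := (k x hx).exists
    have := f1 s x h1
    rw [← h2, e] at this
    simp at this
  · obtain ⟨s, h1, h2⟩ := ((k x hx).and (k y hy)).exists
    exact f2 s x h1.1 y h2.1 (by rw [← h1.2, ← h2.2, e])

end Pool.Agent.H23.Dilw
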