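import Mathlib
import Pool.Agent.H23.Dilw

set_option autoImplicit false

namespace Pool.Agent.H23.Decomp

open Filter Pool.Agent.H23.Dilw
open Classical

/-- Computably bounded effectively closed classes: the paths through a computable tree that is
`g`-bounded for a computable `g`. -/
def CB (P : Set (ℕ → ℕ)) : Prop :=
  ∃ (T : Set (List ℕ)) (g : List ℕ → ℕ), ComputablePred (· ∈ T) ∧ Computable g ∧
    (∀ σ τ, σ <+: τ → τ ∈ T → σ ∈ T) ∧ (∀ σ i, σ ++ [i] ∈ T → i < g σ) ∧
    P = {x | ∀ n, (List.range n).map x ∈ T}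

/-- Decompositions into `k` chains. -/
def ChainDec (A : Type) [PartialOrder A] (k : ℕ) : Set (A → Fin k) :=
  {f | ∀ x y, f x = f y → x ≤ y ∨ y ≤ x}

/-- Decompositions into `k` antichains. -/
def AntiDec (A : Type) [PartialOrder A] (k : ℕ) : Set (A → Fin k) :=
  {f | ∀ x y, f x = f y → x ≤ y → x = y}

variable {A : Type} [PartialOrder A] {k : ℕ}

theorem fin_of_set {S : Type} (h : Countable (Set S)) : Finite S := by
  rw [← Cardinal.mk_lt_aleph0_iff]
  exact (Cardinal.cantor _).trans_le (Cardinal.mk_set ▸ Cardinal.mk_le_aleph0)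

def Vec (g : A → Fin k) : Set (Fin k → A) :=
  {X | (∀ i, g (X i) = i) ∧ ∀ i j, X i ≤ X j → i = j}

theorem splice {t f : A → Fin k} (ht : t ∈ ChainDec A k) (hf : f ∈ ChainDec A k) {X : Fin k → A}
    (hX : ∀ i j, X i ≤ X j → i = j) : ∃ s ∈ ChainDec A k, (∀ z j, z ≤ X j → s z = t z) ∧
      ∀ z, (∀ j, ¬ z ≤ X j) → ∃ j, f z = f (X j) ∧ s z = t (X j) := by
  have inj : ∀ f ∈ ChainDec A k, Function.Injective (f ∘ X) := fun f hf i j e =>
    (hf _ _ e).elim (hX i j) fun h => (hX j i h).symm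
  choose w hw using Finite.injective_iff_surjective.1 (inj f hf)
  have key : ∀ y z, (∃ j, y ≤ X j) → (¬ ∃ j, z ≤ X j) → t y = t (X (w (f z))) → y ≤ z := by
    rintro y z ⟨j, hj⟩ hz e
    have h1 : y ≤ X (w (f z)) := (ht _ _ e).elim id fun h => by rwa [hX _ _ (h.trans hj)]
    exact h1.trans ((hf _ _ (hw (f z))).resolve_right fun h => hz ⟨_, h⟩)
  refine ⟨fun z => if ∃ j, z ≤ X j then t z else t (X (w (f z))), fun y z e => ?_,
    fun z j h => if_pos ⟨j, h⟩, fun z h => ⟨w (f z), (hw _).symm, if_neg (not_exists.2 h)⟩⟩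
  by_cases p : ∃ j, y ≤ X j <;> by_cases q : ∃ j, z ≤ X j <;>
    simp only [p, q, if_true, if_false] at e
  · exact ht _ _ e
  · exact Or.inl (key y z p q e)
  · exact Or.inr (key z y q p e.symm)
  · exact hf _ _ (by rw [← hw (f y), ← hw (f z), inj t ht e])

theorem join {g : A → Fin k} (hg : g ∈ ChainDec A k) (X Y : Vec g) :
    ∃ Z : Vec g, X.1 ≤ Z.1 ∧ ∀ i, X.1 i ≤ Y.1 i → Z.1 i = Y.1 i := by
  have h : ∀ i, ¬ X.1 i ≤ Y.1 i → Y.1 i ≤ X.1 i := fun i h =>
    (hg _ _ ((X.2.1 i).trans (Y.2.1 i).symm)).resolve_left h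
  have h1 : ∀ i, X.1 i ≤ if X.1 i ≤ Y.1 i then Y.1 i else X.1 i := fun i => by
    split_ifs with a; exacts [a, le_rfl]
  have h2 : ∀ i, Y.1 i ≤ if X.1 i ≤ Y.1 i then Y.1 i else X.1 i := fun i => by
    split_ifs with a; exacts [le_rfl, h i a]
  refine ⟨⟨fun i => if X.1 i ≤ Y.1 i then Y.1 i else X.1 i, fun i => ?_, fun i j e => ?_⟩, h1,
    fun i a => if_pos a⟩
  · dsimp only
    split_ifs; exacts [Y.2.1 i, X.2.1 i]
  · by_cases a : X.1 j ≤ Y.1 j
    · exact Y.2.2 i j ((h2 i).trans (e.trans_eq (if_pos a)))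
    · exact X.2.2 i j ((h1 i).trans (e.trans_eq (if_neg a)))

theorem tight_inc {g : A → Fin k} (hg : g ∈ ChainDec A k) (i : Fin k) (X : ℕ → Vec g)
    (h1 : ∀ n, (X n).1 i ≤ (X (n + 1)).1 i)
    (h2 : ∀ n, ∃ f ∈ ChainDec A k, f ((X n).1 i) ≠ f ((X (n + 1)).1 i)) :
    ¬ (ChainDec A k).Countable := by
  intro hc
  obtain ⟨c, hc⟩ := hc.exists_eq_range ⟨g, hg⟩
  choose J J1 J2 using join hg
  let U : ℕ → Vec g := fun n => Nat.rec (X 0) (fun n u => J u (X (n + 1))) n
  have U1 : Monotone fun n => (U n).1 := monotone_nat_of_le_succ fun n => J1 _ _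
  have U2 : ∀ n, (U n).1 i = (X n).1 i := fun n => by
    induction n with
    | zero => rfl
    | succ n ih => exact J2 _ _ _ (ih.trans_le (h1 n))
  have step : ∀ n (t : ChainDec A k), ∃ s : ChainDec A k, (∀ z j, z ≤ (U n).1 j → s.1 z = t.1 z) ∧
      s.1 ((U (n + 1)).1 i) ≠ c n ((U (n + 1)).1 i) := fun n t => by
    obtain ⟨f, hf, e⟩ := h2 n
    rw [← U2, ← U2] at e
    obtain ⟨s, s1, s2, s3⟩ := splice t.2 hg (U n).2.2
    obtain ⟨r, r1, r2, r3⟩ := splice t.2 hf (U n).2.2
    have o : ∀ j, ¬ (U (n + 1)).1 i ≤ (U n).1 j := fun j h => by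
      obtain rfl := (U (n + 1)).2.2 _ _ (h.trans (U1 n.le_succ j))
      exact e (congrArg f (le_antisymm (U1 n.le_succ _) h))
    obtain ⟨a, a1, a2⟩ := s3 _ o
    obtain ⟨b, b1, b2⟩ := r3 _ o
    rw [(U n).2.1, (U (n + 1)).2.1] at a1
    subst a1
    by_cases p : s ((U (n + 1)).1 i) = c n ((U (n + 1)).1 i)
    · refine ⟨⟨r, r1⟩, r2, fun q => e ?_⟩
      have := t.2 _ _ (a2.symm.trans (p.trans (q.symm.trans b2)))
      rw [b1, this.elim ((U n).2.2 _ _) fun h => ((U n).2.2 _ _ h).symm]
    · exact ⟨⟨s, s1⟩, s2, p⟩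
  choose S S1 S2 using step
  let t : ℕ → ChainDec A k := fun n => Nat.rec ⟨g, hg⟩ (fun n u => S n u) n
  obtain ⟨χ, hχ⟩ := cluster (hyperfilter ℕ) fun n => (t n).1
  have : χ ∈ ChainDec A k := fun x y e => by
    obtain ⟨n, p, q⟩ := ((hχ x).and (hχ y)).exists
    exact (t n).2 x y (p.trans (e.trans q.symm))
  obtain ⟨n, rfl⟩ := hc ▸ this
  obtain ⟨m, p, q⟩ := ((hχ ((U (n + 1)).1 i)).and (Nat.hyperfilter_le_atTop
    (eventually_ge_atTop (n + 1)))).exists
  refine S2 n (t n) (Eq.trans ?_ p)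
  clear p
  induction m, (q : n + 1 ≤ m) using Nat.le_induction with
  | base => rfl
  | succ m h ih => exact ih.trans (S1 m (t m) _ i (U1 h i)).symm

theorem chain_dich (hc : (ChainDec A k).Countable) : (ChainDec A k).Finite := by
  rcases (ChainDec A k).eq_empty_or_nonempty with h | ⟨g, hg⟩
  · simp [h]
  let ev : A → ChainDec A k → Fin k := fun x f => f.1 x
  have h1 : ∀ i, (ev '' {x | ∃ X : Vec g, X.1 i = x}).Finite := fun i => by
    by_contra h
    have e := Set.Infinite.natEmbedding _ h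
    choose x hx hx' using fun n => (e n).2
    choose X hX using hx
    have d : ∀ m n, m ≠ n → ∃ f ∈ ChainDec A k, f ((X m).1 i) ≠ f ((X n).1 i) := fun m n h => by
      by_contra h'
      push Not at h'
      refine h (e.injective (Subtype.ext ?_))
      rw [← hx', ← hx', ← hX, ← hX]
      exact funext fun f => h' f.1 f.2
    obtain ⟨φ, h | h⟩ := exists_increasing_or_nonincreasing_subseq (· ≤ ·) fun n => (X n).1 i
    · exact tight_inc hg i (X ∘ φ) (fun n => h _ _ n.lt_succ_self)
        (fun n => d _ _ (φ.strictMono n.lt_succ_self).ne) hc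
    · have E : ChainDec Aᵒᵈ k = ChainDec A k := Set.ext fun f =>
        ⟨fun h x y e => (h x y e).symm, fun h x y e => (h x y e).symm⟩
      refine tight_inc (A := Aᵒᵈ) (E ▸ hg) i
        (fun n => ⟨(X (φ n)).1, (X _).2.1, fun a b h => ((X _).2.2 b a h).symm⟩)
        (fun n => (hg _ _ (((X _).2.1 i).trans ((X _).2.1 i).symm)).resolve_left
          (h _ _ n.lt_succ_self)) (fun n => ?_) (E ▸ hc)
      rw [E]
      exact d _ _ (φ.strictMono n.lt_succ_self).ne
  have h2 : ∀ i, {x | g x = i ∧ ∀ X : Vec g, X.1 i ≠ x}.Finite := fun i => by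
    obtain ⟨n, rfl⟩ : ∃ n, k = n + 1 := ⟨k - 1, by have := i.pos; omega⟩
    set S := {x | g x = i ∧ ∀ X : Vec g, X.1 i ≠ x}
    obtain ⟨f, f1, f2⟩ := dilworth {x | g x ≠ i ∨ x ∈ S} n fun t t1 t2 => by
      by_contra h
      have := Finset.surjOn_of_injOn_of_card_le (s := t) (t := Finset.univ) g (by simp)
        (fun x hx y hy e => (hg _ _ e).elim (t2 x hx y hy) fun h => (t2 y hy x hx h).symm)
        (by simpa using h)
      choose X X1 X2 using fun j => this (Finset.mem_coe.2 (Finset.mem_univ j))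
      refine ((t1 _ (X1 i)).resolve_left (not_not.2 (X2 i))).2 ⟨X, X2, fun a b e => ?_⟩ rfl
      rw [← X2 a, t2 _ (X1 a) _ (X1 b) e, X2 b]
    let F : Set S → ChainDec A (n + 1) := fun T =>
      ⟨fun x => if g x ≠ i ∨ x ∈ Subtype.val '' T then f x else Fin.last n, fun x y e => by
        have a : ∀ x, g x ≠ i ∨ x ∈ Subtype.val '' T → x ∈ {x | g x ≠ i ∨ x ∈ S} := fun x h =>
          h.imp_right fun ⟨y, _, e⟩ => e ▸ y.2
        dsimp only at e
        split_ifs at e with p q q
        · exact f2 x (a x p) y (a y q) e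
        · exact absurd e (f1 x (a x p))
        · exact absurd e.symm (f1 y (a y q))
        · exact hg x y ((not_not.1 (not_or.1 p).1).trans (not_not.1 (not_or.1 q).1).symm)⟩
    have := hc.to_subtype
    refine fin_of_set (Function.Injective.countable (f := F) fun T T' e => Set.ext fun x => ?_)
    have e := congrFun (congrArg Subtype.val e) x
    have a := f1 x (Or.inr x.2)
    simp only [F, x.2.1, ne_eq, not_true, false_or, Subtype.val_injective.mem_set_image] at e
    by_cases p : x ∈ T <;> by_cases q : x ∈ T' <;> simp_all [eq_comm]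
  have h3 : (Set.range ev).Finite := by
    refine ((Set.finite_iUnion h1).union ((Set.finite_iUnion h2).image ev)).subset ?_
    rintro _ ⟨x, rfl⟩
    by_cases h : ∃ X : Vec g, X.1 (g x) = x
    · exact Or.inl (Set.mem_iUnion.2 ⟨_, x, h, rfl⟩)
    · exact Or.inr ⟨x, Set.mem_iUnion.2 ⟨_, rfl, not_exists.1 h⟩, rfl⟩
  have := h3.to_subtype
  exact Finite.of_injective (fun (f : ChainDec A k) (e : Set.range ev) => e.1 f) fun f f' e =>
    Subtype.ext (funext fun x => congrFun e ⟨_, x, rfl⟩)

theorem anti_dich (hc : (AntiDec A k).Countable) : (AntiDec A k).Finite := by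
  rcases (AntiDec A k).eq_empty_or_nonempty with h | ⟨f0, hf0⟩
  · simp [h]
  let B : (A → Fin k) → A → Finset (Fin k) := fun f x => Finset.univ.filter fun c => ∃ y < x, f y = c
  have B1 : ∀ f ∈ AntiDec A k, ∀ x, f x ∉ B f x := fun f hf x h => by
    obtain ⟨y, h1, h2⟩ := (Finset.mem_filter.1 h).2
    exact h1.ne (hf y x h2 h1.le)
  have B2 : ∀ f x y, x < y → insert (f x) (B f x) ⊆ B f y := fun f x y h c hc => by
    simp only [B, Finset.mem_insert, Finset.mem_filter, Finset.mem_univ, true_and] at hc ⊢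
    rcases hc with rfl | ⟨z, h1, h2⟩
    exacts [⟨x, h, rfl⟩, ⟨z, h1.trans h, h2⟩]
  let M : Set (A → ℕ) := {m | (∀ x y, x < y → m x < m y) ∧ ∀ x, m x < k}
  have B3 : ∀ f ∈ AntiDec A k, (fun x => (B f x).card) ∈ M := fun f hf =>
    ⟨fun x y h => by
      have := Finset.card_le_card (B2 f x y h)
      rwa [Finset.card_insert_of_notMem (B1 f hf x)] at this, fun x => by
      have := Finset.card_le_univ (insert (f x) (B f x))
      rwa [Finset.card_insert_of_notMem (B1 f hf x), Fintype.card_fin] at this⟩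
  have mn : ∀ φ : (A → ℕ) → ℕ, ∃ m ∈ M, ∀ m' ∈ M, φ m ≤ φ m' := fun φ =>
    ⟨_, Function.argminOn_mem φ M ⟨_, B3 f0 hf0⟩, fun _ h => Function.argminOn_le φ M h⟩
  obtain ⟨h, hM, h1⟩ : ∃ h ∈ M, ∀ m ∈ M, ∀ x, h x ≤ m x := by
    choose a a1 a2 using fun x => mn fun m => m x
    exact ⟨fun x => a x x, ⟨fun x y e => (a2 x _ (a1 y)).trans_lt ((a1 y).1 x y e),
      fun x => (a1 x).2 x⟩, fun m hm x => a2 x m hm⟩
  obtain ⟨H, HM, H1⟩ : ∃ H ∈ M, ∀ m ∈ M, ∀ x, m x ≤ H x := by
    choose a a1 a2 using fun x => mn fun m => k - m x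
    have : ∀ m ∈ M, ∀ x, m x ≤ a x x := fun m hm x => by
      have := a2 x m hm
      have := hm.2 x
      omega
    exact ⟨fun x => a x x, ⟨fun x y e => ((a1 x).1 x y e).trans_le (this _ (a1 x) y),
      fun x => (a1 x).2 x⟩, this⟩
  have hH := h1 H HM
  let g : ℕ → A → ℕ := fun v x => if h x ≤ v then h x else H x
  have gM : ∀ v, g v ∈ M := fun v => ⟨fun x y e => by
      have := hM.1 x y e
      have := HM.1 x y e
      have := hH y
      simp only [g]
      split_ifs <;> omega, fun x => by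
      have := hM.2 x
      have := HM.2 x
      simp only [g]
      split_ifs <;> omega⟩
  let V : ℕ → Set A := fun v => {x | g v x = v ∨ g v x = v + 1}
  let Q : ℕ → Type := fun v => Quot fun x y : V v => x.1 < y.1
  have fQ : ∀ v : {v // v + 1 < k}, Finite (Q v) := fun ⟨v, hv⟩ => by
    let F : Set (Q v) → AntiDec A k := fun T =>
      ⟨fun x => ⟨if ∃ hx : x ∈ V v, Quot.mk _ ⟨x, hx⟩ ∈ T then 2 * v + 1 - g v x else g v x, by
        split_ifs with p
        · obtain ⟨p | p, -⟩ := p <;> omega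
        · exact (gM v).2 x⟩, fun x y e l => by
        by_contra ne
        have lt := lt_of_le_of_ne l ne
        have := (gM v).1 x y lt
        simp only [Fin.mk.injEq] at e
        split_ifs at e with p q q
        · obtain ⟨p | p, -⟩ := p <;> obtain ⟨q | q, -⟩ := q <;> omega
        · obtain ⟨p, p'⟩ := p
          have hy : y ∈ V v := by rcases p with p | p <;> [right; left] <;> omega
          exact q ⟨hy, Quot.sound (r := fun x y : V v => x.1 < y.1) (a := ⟨x, p⟩) (b := ⟨y, hy⟩) lt ▸ p'⟩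
        · obtain ⟨q, q'⟩ := q
          have hx : x ∈ V v := by rcases q with q | q <;> [right; left] <;> omega
          exact p ⟨hx, Quot.sound (r := fun x y : V v => x.1 < y.1) (a := ⟨x, hx⟩) (b := ⟨y, q⟩) lt ▸ q'⟩
        · omega⟩
    have := hc.to_subtype
    refine fin_of_set (Function.Injective.countable (f := F) fun T T' e => Set.ext ?_)
    rintro ⟨x, hx⟩
    have e := congrFun (congrArg Subtype.val e) x
    simp only [F, Fin.mk.injEq, hx, exists_true_left] at e
    split_ifs at e with p q q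
    · exact iff_of_true p q
    · rcases hx with a | a <;> omega
    · rcases hx with a | a <;> omega
    · exact iff_of_false p q
  let L : (A → Fin k) → ℕ → A → Finset (Fin k) := fun f v x =>
    if h x = v then if H x = v then insert (f x) (B f x) else {f x} else B f x
  have tc : ∀ f ∈ AntiDec A k, ∀ x, H x = h x → (B f x).card = h x := fun f hf x e =>
    le_antisymm ((H1 _ (B3 f hf) x).trans e.le) (h1 _ (B3 f hf) x)
  let Φ : AntiDec A k → ∀ v : {v // v + 1 < k}, Q v → Finset (Fin k) := fun f v =>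
    Quot.lift (fun x => L f v x) fun x y e => by
      have a := (gM v).1 _ _ e
      have a1 := HM.1 _ _ e
      have a2 := hH x
      have a3 := hH y
      have : h x = v ∧ H x = v ∧ h y = v + 1 ∧ H y = v + 1 := by
        have p : g v x = v ∨ g v x = v + 1 := x.2
        have q : g v y = v ∨ g v y = v + 1 := y.2
        simp only [g] at p q a
        split_ifs at p q a <;> omega
      simp only [L]
      rw [if_pos this.1, if_pos this.2.1, if_neg (by omega)]
      refine Finset.eq_of_subset_of_card_le (B2 _ _ _ e) ?_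
      rw [Finset.card_insert_of_notMem (B1 _ f.2 _), tc _ f.2 _ (by omega), tc _ f.2 _ (by omega)]
      omega
  have : Finite {v // v + 1 < k} := (Set.finite_lt_nat k).subset fun v (hv : v + 1 < k) =>
    Nat.lt_of_succ_lt hv
  refine Finite.of_injective Φ fun f f' e => Subtype.ext (funext fun x => ?_)
  have E : ∀ v, v + 1 < k → x ∈ V v → L f v x = L f' v x := fun v hv hx =>
    congrFun (congrFun e ⟨v, hv⟩) (Quot.mk _ ⟨x, hx⟩)
  have a := hH x
  have b := HM.2 x
  have c : x ∈ V (h x) := Or.inl (if_pos le_rfl)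
  by_cases t : H x = h x
  · have e1 : B f x = B f' x := by
      rcases Nat.eq_zero_or_pos (h x) with z | z
      · rw [Finset.card_eq_zero.1 ((tc _ f.2 x t).trans z),
          Finset.card_eq_zero.1 ((tc _ f'.2 x t).trans z)]
      · have := E (h x - 1) (by omega) (Or.inr ((if_neg (by omega)).trans (by omega)))
        simp only [L] at this
        rwa [if_neg (by omega), if_neg (by omega)] at this
    have e2 : f.1 x ∈ insert (f'.1 x) (B f' x) := by
      by_cases z : h x + 1 < k
      · have := E _ z c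
        simp only [L, t, if_true] at this
        exact this ▸ Finset.mem_insert_self _ _
      · rw [Finset.eq_univ_of_card (insert (f'.1 x) (B f' x)) (by
          rw [Finset.card_insert_of_notMem (B1 _ f'.2 _), tc _ f'.2 x t, Fintype.card_fin]
          omega)]
        exact Finset.mem_univ _
    exact (Finset.mem_insert.1 e2).resolve_right (e1 ▸ B1 _ f.2 x)
  · have := E _ (by omega) c
    simpa [L, t] using this

theorem no_map {D P : Type} [Countable P] [Infinite P] (h : Countable D → Finite D) :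
    ¬ ∃ F : D → P, Function.Surjective F ∧ ∀ p, (F ⁻¹' {p}).Finite := by
  rintro ⟨F, h1, h2⟩
  have := h (Set.countable_univ_iff.1 ((Set.countable_iUnion fun p => (h2 p).countable).mono
    fun x _ => Set.mem_iUnion.2 ⟨F x, rfl⟩))
  exact not_finite_iff_infinite.2 ‹_› (Finite.of_surjective F h1)

theorem main : (∀ (A : Type) [PartialOrder A] (k : ℕ),
    ((ChainDec A k).Countable → (ChainDec A k).Finite) ∧
    ((AntiDec A k).Countable → (AntiDec A k).Finite)) ∧
    ∃ P : Set (ℕ → ℕ), CB P ∧ ∀ (A : Type) [PartialOrder A] (k : ℕ),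
    (¬ ∃ F : ChainDec A k → P, Function.Surjective F ∧ ∀ p, (F ⁻¹' {p}).Finite) ∧
    (¬ ∃ F : AntiDec A k → P, Function.Surjective F ∧ ∀ p, (F ⁻¹' {p}).Finite) := by
  have e : ∀ (x : ℕ → ℕ) n, ((List.range n).map x).sum = ∑ i ∈ Finset.range n, x i := fun x n => rfl
  refine ⟨fun A _ k => ⟨chain_dich, anti_dich⟩, _,
    ⟨{σ | σ.sum ≤ 1}, fun _ => 2, ?_, Computable.const _, ?_, ?_, rfl⟩, fun A _ k => ?_⟩
  · have : Primrec fun σ : List ℕ => σ.sum :=
      (Primrec.list_foldr Primrec.id (Primrec.const 0) (Primrec.nat_add.comp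
        (Primrec.fst.comp Primrec.snd) (Primrec.snd.comp Primrec.snd)).to₂).of_eq fun σ => rfl
    exact (Primrec.nat_le.comp this (Primrec.const 1)).computablePred
  · rintro σ _ ⟨τ, rfl⟩ h
    simp only [Set.mem_ofPred_eq, List.sum_append] at h ⊢
    omega
  · intro σ i h
    simp only [Set.mem_ofPred_eq, List.sum_append, List.sum_singleton] at h ⊢
    omega
  · have : Countable {x : ℕ → ℕ | ∀ n, (List.range n).map x ∈ {σ : List ℕ | σ.sum ≤ 1}} := by
      refine ((Set.countable_range fun n => Pi.single n 1).insert 0).mono fun x hx => ?_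
      by_cases h : x = 0
      · exact Or.inl h
      obtain ⟨n, hn⟩ := Function.ne_iff.1 h
      refine Or.inr ⟨n, funext fun m => ?_⟩
      have a : ∑ i ∈ {n, m}, x i ≤ 1 := le_trans (Finset.sum_le_sum_of_subset fun i hi => by
        simp only [Finset.mem_insert, Finset.mem_singleton, Finset.mem_range] at hi ⊢
        omega) ((e x (n + m + 1)).ge.trans (hx _))
      have b : x n ≠ 0 := hn
      by_cases p : m = n
      · subst p
        simp at a ⊢
        omega
      · rw [Finset.sum_pair (Ne.symm p)] at a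
        simp [p]
        omega
    have : Infinite {x : ℕ → ℕ | ∀ n, (List.range n).map x ∈ {σ : List ℕ | σ.sum ≤ 1}} :=
      Infinite.of_injective (fun n : ℕ => ⟨Pi.single n 1, fun m => by
        simp only [Set.mem_ofPred_eq, e, Finset.sum_pi_single']
        split_ifs <;> omega⟩) fun a b h => by
        by_contra p
        simpa [p] using congrFun (congrArg Subtype.val h) a
    exact ⟨no_map chain_dich, no_map anti_dich⟩

end Pool.Agent.H23.Decomp
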