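import Mathlib

set_option autoImplicit false

open Set FirstOrder FirstOrder.Language

namespace Pool.Agent.H23

variable {L : FirstOrder.Language.{0, 0}} {M : Type} [L.Structure M]

/-- definable (with parameters) predicates of an environment -/
def Df (L : FirstOrder.Language.{0, 0}) {M : Type} [L.Structure M] (p : (ℕ → M) → Prop) : Prop :=
  (univ : Set M).Definable L {v | p v}

def Tm (L : FirstOrder.Language.{0, 0}) {M : Type} [L.Structure M] (t : (ℕ → M) → M) : Prop :=
  (univ : Set M).DefinableFun L t

theorem Tm.var (i : ℕ) : Tm L fun v : ℕ → M => v i := DefinableFun.proj L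
theorem Tm.const (c : M) : Tm L fun _ : ℕ → M => c := definableFun_const L _ (mem_univ _)

variable {p q : (ℕ → M) → Prop} {s t u : (ℕ → M) → M}

theorem Df.and (h : Df L p) (k : Df L q) : Df L fun v => p v ∧ q v := Definable.inter h k
theorem Df.or (h : Df L p) (k : Df L q) : Df L fun v => p v ∨ q v := Definable.union h k
theorem Df.not (h : Df L p) : Df L fun v => ¬ p v := Definable.compl h
theorem Df.imp (h : Df L p) (k : Df L q) : Df L fun v => p v → q v := by
  simpa only [imp_iff_not_or] using h.not.or k
theorem Df.iff (h : Df L p) (k : Df L q) : Df L fun v => p v ↔ q v := by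
  simpa only [iff_def] using (h.imp k).and (k.imp h)
theorem Df.ex {p : M → (ℕ → M) → Prop} (h : Df L fun w => p (w 0) fun i => w (i + 1)) :
    Df L fun v => ∃ x, p x v := by
  have := (Definable.preimage_comp (fun n : ℕ => (Nat.casesOn n (Sum.inr ()) Sum.inl : ℕ ⊕ Unit))
    h).exists_of_finite
  unfold Df
  convert this using 1
  ext v
  exact ⟨fun ⟨x, a⟩ => ⟨fun _ => x, a⟩, fun ⟨x, a⟩ => ⟨x (), a⟩⟩
theorem Df.all {p : M → (ℕ → M) → Prop} (h : Df L fun w => p (w 0) fun i => w (i + 1)) :
    Df L fun v => ∀ x, p x v := by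
  simpa only [not_exists, not_not] using (Df.ex (p := fun x v => ¬ p x v) h.not).not
theorem Df.fall {ι : Type} [Finite ι] {p : ι → (ℕ → M) → Prop} (h : ∀ i, Df L (p i)) :
    Df L fun v => ∀ i, p i v := by
  have := definable_iInter_of_finite h
  unfold Df
  convert this using 1
  ext v; simp
theorem Df.eq (h : Tm L s) (k : Tm L t) : Df L fun v => s v = t v := DefinableFun.ofPred_eq h k

theorem Df.fin {n : ℕ} (h : Df L p) :
    (univ : Set M).Definable L {v : Fin (n + 1) → M | p fun i => v (Fin.ofNat _ i)} :=
  Definable.preimage_comp (fun i => Fin.ofNat _ i) h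

theorem Df.app2 {r : M → M → Prop} (h : Df L fun v => r (v 0) (v 1)) (a : Tm L s) (b : Tm L t) :
    Df L fun v => r (s v) (t v) :=
  Definable.preimage_map (F := fun v => ![s v, t v]) (fun i => by fin_cases i <;> assumption)
    (h.fin (n := 1))

theorem Df.app3 {r : M → M → M → Prop} (h : Df L fun v => r (v 0) (v 1) (v 2)) (a : Tm L s)
    (b : Tm L t) (c : Tm L u) : Df L fun v => r (s v) (t v) (u v) :=
  Definable.preimage_map (F := fun v => ![s v, t v, u v]) (fun i => by fin_cases i <;> assumption)
    (h.fin (n := 2))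

theorem Df.le [LE M] [L.IsOrdered] [L.OrderedStructure M] (a : Tm L s) (b : Tm L t) :
    Df L fun v => s v ≤ t v :=
  Df.app2 (r := (· ≤ ·)) (Definable.mono (empty_definable_iff.2
    ⟨Relations.formula₂ leSymb (Term.var 0) (Term.var 1), by ext v; simp⟩) (empty_subset _)) a b

theorem Df.lt [Preorder M] [L.IsOrdered] [L.OrderedStructure M] (a : Tm L s) (b : Tm L t) :
    Df L fun v => s v < t v := by
  simpa only [lt_iff_le_not_ge] using (Df.le a b).and (Df.le b a).not

end Pool.Agent.H23
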