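import Mathlib
import Pool.Agent.H23.Df

set_option autoImplicit false

open Set FirstOrder FirstOrder.Language

namespace Pool.Agent.H23.DefPo

def C : Type := Lex (ℕ → Bool)

noncomputable instance : LinearOrder C := inferInstanceAs (LinearOrder (Lex (ℕ → Bool)))
instance : CoeFun C fun _ => ℕ → Bool := ⟨fun x => x⟩

theorem lt_iff {x y : C} : x < y ↔ ∃ i, (∀ j < i, x j = y j) ∧ x i < y i := Iff.rfl

noncomputable def dec : ℕ → ℕ × Finset ℕ := (exists_surjective_nat _).choose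
theorem dec_surj : Function.Surjective dec := (exists_surjective_nat _).choose_spec

noncomputable def q (k : ℕ) : C :=
  toLex fun i => if i < (dec k).1 then decide (i ∈ (dec k).2) else decide (i = (dec k).1)
noncomputable def r (k : ℕ) : C :=
  toLex fun i => if i < (dec k).1 then decide (i ∈ (dec k).2) else true

theorem q_ap (k i : ℕ) :
    q k i = if i < (dec k).1 then decide (i ∈ (dec k).2) else decide (i = (dec k).1) := rfl
theorem r_ap (k i : ℕ) : r k i = if i < (dec k).1 then decide (i ∈ (dec k).2) else true := rfl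

theorem cyl (k : ℕ) (x : C) : (q k ≤ x ∧ x ≤ r k) ↔ ∀ i ≤ (dec k).1, x i = q k i := by
  have e : ∀ i ≤ (dec k).1, q k i = r k i := fun i hi => by
    rw [q_ap, r_ap]
    split_ifs with h
    · rfl
    · simp; omega
  constructor
  · rintro ⟨a, b⟩ i
    induction i using Nat.strong_induction_on with
    | _ i ih =>
      intro hi
      by_contra h
      rcases lt_or_gt_of_ne h with h | h
      · exact a.not_gt (lt_iff.2 ⟨i, fun j hj => ih j hj (by omega), h⟩)
      · exact b.not_gt (lt_iff.2 ⟨i, fun j hj => by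
          rw [ih j hj (by omega), e j (by omega)], e i hi ▸ h⟩)
  · intro h
    refine ⟨Pi.toLex_monotone fun i => ?_, Pi.toLex_monotone fun i => ?_⟩
    · by_cases c : i ≤ (dec k).1
      · exact (h i c).ge
      · show q k i ≤ x i
        rw [q_ap, if_neg (by omega), decide_eq_false (by omega)]; exact bot_le
    · by_cases c : i ≤ (dec k).1
      · exact ((h i c).trans (e i c)).le
      · show x i ≤ r k i
        rw [r_ap, if_neg (by omega)]; exact le_top

theorem exk (x : C) (n : ℕ) (h : x n = true) :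
    ∃ k, (dec k).1 = n ∧ ∀ i ≤ n, x i = q k i := by
  obtain ⟨k, hk⟩ := dec_surj (n, (Finset.range n).filter fun i => x i = true)
  refine ⟨k, by rw [hk], fun i hi => ?_⟩
  rw [q_ap, hk]
  split_ifs with c
  · simp [c]
  · rw [show i = n by omega, h]; simp

theorem dense {x y : C} (h : x < y) : ∃ k, x < q k ∧ q k ≤ y := by
  obtain ⟨n, a, b⟩ := lt_iff.1 h
  obtain ⟨k, c, d⟩ := exk y n (by revert b; cases y n <;> simp)
  exact ⟨k, lt_iff.2 ⟨n, fun j hj => (a j hj).trans (d j hj.le), d n le_rfl ▸ b⟩,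
    ((cyl k y).2 (c ▸ d)).1⟩

inductive P : Type
  | ch : C → P
  | A : ℕ → P
  | B : ℕ → P
  | M : Fin 3 → P
  | U : ℕ → Fin 3 → P
  | T : Bool → P

open P

noncomputable def pA (k : ℕ) (τ : Fin 3) : ℕ := if τ = 1 then (dec k).1.unpair.1 else k
noncomputable def pB (k : ℕ) (τ : Fin 3) : ℕ := if τ = 2 then (dec k).1.unpair.2 else k
def cut (k : ℕ) (τ : Fin 3) (x : C) : Prop := (τ = 1 ∧ x < q k) ∨ (τ = 2 ∧ x ≤ r k)

def lt : P → P → Prop
  | ch x, ch y => x < y
  | ch x, U k τ => cut k τ x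
  | A i, U k τ => i = pA k τ
  | B i, U k τ => i = pB k τ
  | M σ, U _ τ => σ = τ
  | A _, T b => b = true
  | B _, T b => b = false
  | _, _ => False

theorem lt_tr {a b c : P} (h : lt a b) (k : lt b c) : lt a c := by
  cases a <;> cases b <;> simp only [lt] at h <;> cases c <;> simp only [lt] at k ⊢
  · exact h.trans k
  · exact k.imp (fun k => ⟨k.1, h.trans k.2⟩) fun k => ⟨k.1, h.le.trans k.2⟩

theorem lt_ir (a : P) : ¬ lt a a := by cases a <;> simp [lt]

instance : PartialOrder P where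
  le a b := a = b ∨ lt a b
  lt := lt
  le_refl _ := Or.inl rfl
  le_trans := by
    rintro a b c (rfl | h) (rfl | k)
    exacts [Or.inl rfl, Or.inr k, Or.inr h, Or.inr (lt_tr h k)]
  lt_iff_le_not_ge a b := ⟨fun h => ⟨Or.inr h, by
      rintro (rfl | k)
      exacts [lt_ir _ h, lt_ir _ (lt_tr h k)]⟩,
    fun h => h.1.resolve_left fun e => h.2 (Or.inl e.symm)⟩
  le_antisymm := by
    rintro a b (rfl | h) (e | k)
    exacts [rfl, rfl, e.symm, absurd (lt_tr h k) (lt_ir _)]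

theorem lt_def {a b : P} : a < b ↔ lt a b := Iff.rfl
theorem le_def {a b : P} : a ≤ b ↔ a = b ∨ lt a b := Iff.rfl
theorem ch_le {x y : C} : ch x ≤ ch y ↔ x ≤ y := by
  rw [le_def, le_iff_eq_or_lt, ch.injEq]; rfl

theorem mA {a : P} : a < T true ↔ ∃ i, a = A i := by cases a <;> simp [lt_def, lt]
theorem mB {a : P} : a < T false ↔ ∃ i, a = B i := by cases a <;> simp [lt_def, lt]
theorem mM {a : P} {τ : Fin 3} : M τ < a ↔ ∃ k, a = U k τ := by
  cases a <;> simp [lt_def, lt, eq_comm]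

def Id (a b : P) : Prop := ∃ u, M 0 < u ∧ a < u ∧ b < u

theorem id_iff {i j : ℕ} : Id (A i) (B j) ↔ i = j := by
  simp only [Id, mM]
  constructor
  · rintro ⟨_, ⟨k, rfl⟩, a, b⟩
    simp only [lt_def, lt, pA, pB] at a b
    simp_all
  · rintro rfl
    exact ⟨_, ⟨i, rfl⟩, by simp [lt_def, lt, pA], by simp [lt_def, lt, pB]⟩

def ρ (x a b : P) : Prop := ∃ u w a' b', M 1 < u ∧ M 2 < w ∧ a < u ∧ b < w ∧ a' < T true ∧
  b' < T false ∧ b' < u ∧ a' < w ∧ Id a' b' ∧ ¬ x ≤ u ∧ x ≤ w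

theorem ρ_iff (x : C) (i j : ℕ) : ρ (ch x) (A i) (B j) ↔ x (Nat.pair i j) = true := by
  simp only [ρ, mM, mA, mB]
  constructor
  · rintro ⟨_, _, _, _, ⟨k, rfl⟩, ⟨l, rfl⟩, a, b, ⟨i', rfl⟩, ⟨j', rfl⟩, c, d, e, f, g⟩
    simp [lt_def, le_def, lt, pA, pB, cut, id_iff] at a b c d e f g
    subst c d e
    have := (cyl _ x).1 ⟨f, g⟩ _ le_rfl
    rw [a, b, Nat.pair_unpair, this, q_ap]
    simp
  · intro h
    obtain ⟨k, a, b⟩ := exk x _ h
    have := (cyl k x).2 (a ▸ b)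
    refine ⟨_, _, _, _, ⟨k, rfl⟩, ⟨k, rfl⟩, ?_, ?_, ⟨k, rfl⟩, ⟨k, rfl⟩, ?_, ?_, id_iff.2 rfl, ?_, ?_⟩
      <;> simp [lt_def, le_def, lt, pA, pB, cut, a, this]

def test : Fin 6 → P → P → Prop
  | 0, b, p => b ≤ p
  | 1, b, p => ∃ a, a < T true ∧ Id a b ∧ a ≤ p
  | 2, b, p => ∃ u, M 1 < u ∧ b < u ∧ p ≤ u
  | 3, _, p => M 0 ≤ p
  | 4, _, p => M 1 ≤ p
  | 5, _, p => M 2 ≤ p

theorem test_inj {x y : P} (h : ∀ σ j, test σ (B j) x ↔ test σ (B j) y) : x = y := by
  have h0 : ∀ j, B j ≤ x ↔ B j ≤ y := h 0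
  have h1 : ∀ j, A j ≤ x ↔ A j ≤ y := fun j => by
    have : ∀ z, test 1 (B j) z ↔ A j ≤ z := fun z =>
      ⟨fun ⟨_, a, b, c⟩ => by obtain ⟨i, rfl⟩ := mA.1 a; exact id_iff.1 b ▸ c,
        fun a => ⟨_, mA.2 ⟨j, rfl⟩, id_iff.2 rfl, a⟩⟩
    rw [← this, ← this, h]
  have h2 : ∀ j, x ≤ U j 1 ↔ y ≤ U j 1 := fun j => by
    have : ∀ z, test 2 (B j) z ↔ z ≤ U j 1 := fun z =>
      ⟨fun ⟨_, a, b, c⟩ => by
        obtain ⟨i, rfl⟩ := mM.1 a
        simp [lt_def, lt, pB] at b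
        exact b ▸ c, fun a => ⟨_, mM.2 ⟨j, rfl⟩, by simp [lt_def, lt, pB], a⟩⟩
    rw [← this, ← this, h]
  have h3 : ∀ τ, M τ ≤ x ↔ M τ ≤ y := fun τ => by
    fin_cases τ
    exacts [h 3 0, h 4 0, h 5 0]
  clear h
  cases x <;> cases y <;> simp [le_def, lt] at h0 h1 h3 ⊢
  case ch.ch x y =>
    simp only [le_def, lt, cut, reduceCtorEq, false_or, true_and, Fin.reduceEq, false_and,
      or_false] at h2
    rcases lt_trichotomy x y with c | c | c
    · obtain ⟨k, a, b⟩ := dense c; exact absurd ((h2 k).1 a) b.not_gt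
    · exact c
    · obtain ⟨k, a, b⟩ := dense c; exact absurd ((h2 k).2 a) b.not_gt
  case U.U k σ l τ =>
    subst h3
    fin_cases σ <;> simp_all [pA, pB]
  case T.T a b => cases a <;> cases b <;> simp_all
  all_goals first
    | assumption
    | exact absurd (h0.symm.trans h1) (by simp)
    | exact Nat.succ_ne_self _ ((h1 _).2 h0)
    | exact Nat.succ_ne_self _ ((h0 _).2 h1)
    | exact Nat.succ_ne_self _ ((h1 _).1 h0)
    | exact Nat.succ_ne_self _ ((h0 _).1 h1)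

instance str : Language.order.Structure P := orderStructure P
instance : Language.order.OrderedStructure P := ⟨fun _ => Iff.rfl⟩

theorem dId : Df Language.order fun v : ℕ → P => Id (v 0) (v 1) :=
  .ex (.and (.lt (.const _) (.var _)) (.and (.lt (.var _) (.var _)) (.lt (.var _) (.var _))))

theorem dρ : Df Language.order fun v : ℕ → P => ρ (v 0) (v 1) (v 2) := by
  refine .ex (.ex (.ex (.ex ?_)))
  repeat' first
    | exact .lt (.var _) (.var _)
    | exact .lt (.const _) (.var _)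
    | exact .lt (.var _) (.const _)
    | exact .le (.var _) (.var _)
    | exact dId.app2 (.var _) (.var _)
    | apply Df.and
    | apply Df.not

theorem dtest (σ : Fin 6) : Df Language.order fun v : ℕ → P => test σ (v 0) (v 1) := by
  fin_cases σ
  · exact .le (.var _) (.var _)
  · exact .ex (.and (.lt (.var _) (.const _)) (.and (dId.app2 (.var _) (.var _))
      (.le (.var _) (.var _))))
  · exact .ex (.and (.lt (.const _) (.var _)) (.and (.lt (.var _) (.var _))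
      (.le (.var _) (.var _))))
  · exact .le (.const _) (.var _)
  · exact .le (.const _) (.var _)
  · exact .le (.const _) (.var _)

theorem dseq (x : ℕ → P) : Df Language.order fun v : ℕ → P => ∃ n, v 0 = A n ∧ v 1 = x n := by
  classical
  let z : Fin 6 → C := fun σ n => decide (test σ (B n.unpair.2) (x n.unpair.1))
  have hz : ∀ σ n j, ρ (ch (z σ)) (A n) (B j) ↔ test σ (B j) (x n) := fun σ n j => by
    rw [ρ_iff]; simp [z]
  have : Df Language.order fun v : ℕ → P => v 0 < T true ∧ ∀ σ, ∀ b, b < T false →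
      (test σ b (v 1) ↔ ρ (ch (z σ)) (v 0) b) :=
    .and (.lt (.var _) (.const _)) (.fall fun σ => .all (.imp (.lt (.var _) (.const _))
      (.iff ((dtest σ).app2 (.var _) (.var _)) (dρ.app3 (.const _) (.var _) (.var _)))))
  convert this using 2 with v
  simp only [mA, mB]
  constructor
  · rintro ⟨n, a, b⟩
    refine ⟨⟨n, a⟩, ?_⟩
    rintro σ _ ⟨j, rfl⟩
    rw [a, b, hz]
  · rintro ⟨⟨n, a⟩, b⟩
    exact ⟨n, a, test_inj fun σ j => by rw [b σ _ ⟨j, rfl⟩, a, hz]⟩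

theorem dgraph (f : P → P) {Z : Set P} (hZ : Z.Countable) (hne : Z.Nonempty) :
    Df Language.order fun v : ℕ → P => v 0 ∈ Z ∧ f (v 0) = v 1 := by
  obtain ⟨x, rfl⟩ := hZ.exists_eq_range hne
  have : Df Language.order fun v : ℕ → P => ∃ a, (∃ n, a = A n ∧ v 0 = x n) ∧
      ∃ n, a = A n ∧ v 1 = f (x n) :=
    .ex (.and (Df.app2 (r := fun a b => ∃ n, a = A n ∧ b = x n) (dseq x) (.var _) (.var _))
      (Df.app2 (r := fun a b => ∃ n, a = A n ∧ b = f (x n)) (dseq _) (.var _) (.var _)))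
  convert this using 2 with v
  constructor
  · rintro ⟨⟨n, a⟩, b⟩
    exact ⟨_, ⟨n, rfl, a.symm⟩, n, rfl, by rw [a, b]⟩
  · rintro ⟨_, ⟨n, rfl, a⟩, m, b, c⟩
    rw [← A.inj b] at c
    exact ⟨⟨n, a.symm⟩, by rw [a, c]⟩

def Z0 : Set P := range (ch ∘ q) ∪ (range ch)ᶜ

theorem Z0_c : Z0.Countable := by
  refine (countable_range _).union ((((((countable_range A).union (countable_range B)).union
    (countable_range M)).union (countable_range fun p : ℕ × Fin 3 => U p.1 p.2)).union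
    (countable_range T)).mono fun p hp => ?_)
  cases p <;> simp at hp ⊢

def I (f : P → P) (Z : Set P) (x : P) : Set P :=
  {y | ∀ d ∈ Z, (d ≤ x → f d ≤ y) ∧ (x ≤ d → y ≤ f d)}

theorem exc (f : P → P) : {x : C | (I f Z0 (ch x)).Nontrivial}.Countable := by
  have two : ∀ d, {x : C | d ∈ I f Z0 (ch x) ∧ (I f Z0 (ch x)).Nontrivial}.Countable := by
    intro d
    set S := {x : C | d ∈ I f Z0 (ch x) ∧ (I f Z0 (ch x)).Nontrivial}
    have no : ∀ x ∈ S, ∀ y ∈ S, ∀ z ∈ S, x < y → y < z → False := fun x a y b z c xy yz => by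
      obtain ⟨k, k1, k2⟩ := dense xy
      obtain ⟨l, l1, l2⟩ := dense yz
      have e : ∀ w ∈ I f Z0 (ch y), w = d := fun w hw => le_antisymm
        (((hw _ (Or.inl ⟨l, rfl⟩)).2 (ch_le.2 l1.le)).trans ((c.1 _ (Or.inl ⟨l, rfl⟩)).1 (ch_le.2 l2)))
        (((a.1 _ (Or.inl ⟨k, rfl⟩)).2 (ch_le.2 k1.le)).trans ((hw _ (Or.inl ⟨k, rfl⟩)).1 (ch_le.2 k2)))
      obtain ⟨u, hu, w, hw, uw⟩ := b.2
      exact uw ((e u hu).trans (e w hw).symm)
    rcases S.eq_empty_or_nonempty with h | ⟨a, ha⟩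
    · rw [h]; exact countable_empty
    have s1 : {x ∈ S | x < a}.Subsingleton := fun x hx y hy => by
      rcases lt_trichotomy x y with c | c | c
      exacts [(no x hx.1 y hy.1 a ha c hy.2).elim, c, (no y hy.1 x hx.1 a ha c hx.2).elim]
    have s2 : {x ∈ S | a < x}.Subsingleton := fun x hx y hy => by
      rcases lt_trichotomy x y with c | c | c
      exacts [(no a ha x hx.1 y hy.1 hx.2 c).elim, c, (no a ha y hy.1 x hx.1 hy.2 c).elim]
    refine ((s1.countable.union s2.countable).insert a).mono fun x hx => ?_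
    rcases lt_trichotomy x a with c | c | c
    exacts [Or.inr (Or.inl ⟨hx, c⟩), Or.inl c, Or.inr (Or.inr ⟨hx, c⟩)]
  refine (Z0_c.biUnion fun d _ => two d).mono fun x hx => ?_
  obtain ⟨u, hu, w, hw, uw⟩ := id hx
  by_cases c : u ∈ range ch
  swap
  · exact mem_biUnion (Or.inr c) ⟨hu, hx⟩
  by_cases d : w ∈ range ch
  swap
  · exact mem_biUnion (Or.inr d) ⟨hw, hx⟩
  obtain ⟨u, rfl⟩ := c
  obtain ⟨w, rfl⟩ := d
  have key : ∀ u w, ch u ∈ I f Z0 (ch x) → ch w ∈ I f Z0 (ch x) → u < w →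
      ∃ d ∈ Z0, d ∈ I f Z0 (ch x) := fun u w hu hw h => by
    obtain ⟨k, a, b⟩ := dense h
    exact ⟨_, Or.inl ⟨k, rfl⟩, fun d hd => ⟨fun e => ((hu d hd).1 e).trans (ch_le.2 a.le),
      fun e => (ch_le.2 b).trans ((hw d hd).2 e)⟩⟩
  obtain ⟨d, a, b⟩ : ∃ d ∈ Z0, d ∈ I f Z0 (ch x) :=
    (lt_or_gt_of_ne fun e => uw (congrArg ch e)).elim (key u w hu hw) (key w u hw hu)
  exact mem_biUnion a ⟨b, hx⟩

theorem main : ∃ (M : Type) (_ : PartialOrder M) (_ : Language.order.Structure M)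
      (_ : Language.order.OrderedStructure M),
      Infinite M ∧
      ∀ f : M → M, Monotone f →
        (Set.univ : Set M).Definable Language.order {v : Fin 2 → M | f (v 0) = v 1} := by
  refine ⟨P, inferInstance, str, inferInstance, Infinite.of_injective A fun _ _ => A.inj,
    fun f hf => ?_⟩
  set Z := Z0 ∪ ch '' {x : C | (I f Z0 (ch x)).Nontrivial}
  have g := dgraph f (Z := Z) (Z0_c.union ((exc f).image _)) ⟨_, Or.inl (Or.inl ⟨0, rfl⟩)⟩
  have g' : ∀ {s t : (ℕ → P) → P}, Tm Language.order s → Tm Language.order t →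
      Df Language.order fun v => s v ∈ Z ∧ f (s v) = t v :=
    fun a b => Df.app2 (r := fun a b => a ∈ Z ∧ f a = b) g a b
  have : Df Language.order fun v : ℕ → P => (v 0 ∈ Z ∧ f (v 0) = v 1) ∨
      ((¬ ∃ y, v 0 ∈ Z ∧ f (v 0) = y) ∧ ∀ d y, (d ∈ Z ∧ f d = y) →
        (d ≤ v 0 → y ≤ v 1) ∧ (v 0 ≤ d → v 1 ≤ y)) :=
    .or g (.and (.not (.ex (g' (.var _) (.var _)))) (.all (.all (.imp (g' (.var _) (.var _))
      (.and (.imp (.le (.var _) (.var _)) (.le (.var _) (.var _)))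
        (.imp (.le (.var _) (.var _)) (.le (.var _) (.var _))))))))
  convert this.fin (n := 1) using 1
  ext v
  change f (v 0) = v 1 ↔ (v 0 ∈ Z ∧ f (v 0) = v 1) ∨
      ((¬ ∃ y, v 0 ∈ Z ∧ f (v 0) = y) ∧ ∀ d y, (d ∈ Z ∧ f d = y) →
        (d ≤ v 0 → y ≤ v 1) ∧ (v 0 ≤ d → v 1 ≤ y))
  by_cases h : v 0 ∈ Z
  · simp [h]
  simp only [h, false_and, exists_false, not_false_eq_true, true_and, false_or]
  constructor
  · rintro e d _ ⟨-, rfl⟩
    exact ⟨fun a => e ▸ hf a, fun a => e ▸ hf a⟩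
  · intro e
    obtain ⟨x, hx⟩ : v 0 ∈ range ch := by_contra fun a => h (Or.inl (Or.inr a))
    refine not_nontrivial_iff.1 (fun a => h (Or.inr ⟨x, a, hx⟩)) ?_ ?_
    · exact fun d _ => hx ▸ ⟨fun a => hf a, fun a => hf a⟩
    · exact fun d hd => hx ▸ e d _ ⟨Or.inl hd, rfl⟩

end Pool.Agent.H23.DefPo
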