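import Mathlib
import Pool.Agent.H23.Df

set_option autoImplicit false

open Set FirstOrder FirstOrder.Language

namespace Pool.Agent.H23

variable {R : Type} [Ring R] [FirstOrder.Ring.CompatibleRing R] {s t : (ℕ → R) → R}

theorem Tm.add (a : Tm Language.ring s) (b : Tm Language.ring t) :
    Tm Language.ring fun v => s v + t v := by
  have := DefinableFun.comp (A := (univ : Set R)) (g := fun v => ![s v, t v])
    (fun i => by fin_cases i <;> assumption)
    (DefinableFun.fun_symbol (M := R) FirstOrder.Ring.addFunc).of_empty
  simpa [Tm] using this

theorem Tm.mul (a : Tm Language.ring s) (b : Tm Language.ring t) :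
    Tm Language.ring fun v => s v * t v := by
  have := DefinableFun.comp (A := (univ : Set R)) (g := fun v => ![s v, t v])
    (fun i => by fin_cases i <;> assumption)
    (DefinableFun.fun_symbol (M := R) FirstOrder.Ring.mulFunc).of_empty
  simpa [Tm] using this

theorem Tm.neg (a : Tm Language.ring s) : Tm Language.ring fun v => - s v := by
  have := DefinableFun.comp (A := (univ : Set R)) (g := fun v => ![s v])
    (fun i => by fin_cases i; assumption)
    (DefinableFun.fun_symbol (M := R) FirstOrder.Ring.negFunc).of_empty
  simpa [Tm] using this

theorem Tm.sub (a : Tm Language.ring s) (b : Tm Language.ring t) :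
    Tm Language.ring fun v => s v - t v := by
  simpa only [sub_eq_add_neg] using a.add b.neg

theorem Df.dvd (a : Tm Language.ring s) (b : Tm Language.ring t) :
    Df Language.ring fun v => s v ∣ t v :=
  Df.app2 (r := fun x y => ∃ c, y = x * c)
    (Df.ex (Df.eq (Tm.var 2) ((Tm.var 1).mul (Tm.var 0)))) a b

end Pool.Agent.H23
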