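import Pool.Agent.H23.Heis

/-! A division ring with a ring topology that has no coarser Hausdorff division ring topology. -/
namespace Pool.Agent.H23.DivTop

open Heis Filter Topology nonZeroDivisors

instance : UniqueProds HZ := by
  let _ : LinearOrder HZ := LinearOrder.lift' (fun g => toLex (g.x, toLex (g.y, g.z)))
    fun g g' e => by
      simp only [EmbeddingLike.apply_eq_iff_eq, Prod.mk.injEq] at e
      exact H.ext e.1 e.2.1 e.2.2
  have : MulLeftStrictMono HZ := ⟨fun a b c (h : toLex (b.x, toLex (b.y, b.z)) < toLex (c.x, toLex (c.y, c.z))) =>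
    show toLex ((a * b).x, toLex ((a * b).y, (a * b).z)) <
      toLex ((a * c).x, toLex ((a * c).y, (a * c).z)) by
    simp only [Prod.Lex.toLex_lt_toLex, mul_x, mul_y, mul_z] at h ⊢
    rcases h with h | ⟨h, h' | ⟨h', h''⟩⟩
    · exact .inl (by omega)
    · exact .inr ⟨by omega, .inl (by omega)⟩
    · exact .inr ⟨by omega, .inr ⟨by omega, by rw [h']; omega⟩⟩⟩
  infer_instance

noncomputable def box (n : ℕ) : Finset HZ :=
  (Finset.Icc (-n : ℤ) n ×ˢ Finset.Icc (-n : ℤ) n ×ˢ Finset.Icc (-n ^ 2 : ℤ) (n ^ 2)).map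
    ⟨fun p => ⟨p.1, p.2.1, p.2.2⟩, fun _ _ e =>
      Prod.ext (congrArg H.x e) (Prod.ext (congrArg H.y e) (congrArg H.z e))⟩

theorem mem_box {n : ℕ} {g : HZ} : g ∈ box n ↔ |g.x| ≤ n ∧ |g.y| ≤ n ∧ |g.z| ≤ n ^ 2 := by
  simp only [box, Finset.mem_map, Finset.mem_product, Finset.mem_Icc, abs_le]
  exact ⟨by rintro ⟨p, h, rfl⟩; exact h, fun h => ⟨(g.x, g.y, g.z), h, rfl⟩⟩

theorem card_box (n : ℕ) : (box n).card = (2 * n + 1) * ((2 * n + 1) * (2 * n ^ 2 + 1)) := by
  simp only [box, Finset.card_map, Finset.card_product, Int.card_Icc]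
  rw [show (n + 1 - -n : ℤ) = (2 * n + 1 : ℕ) by push_cast; ring,
    show (n ^ 2 + 1 - -n ^ 2 : ℤ) = (2 * n ^ 2 + 1 : ℕ) by push_cast; ring]
  simp only [Int.toNat_natCast]

theorem box_mul {n k : ℕ} {g h : HZ} (hg : g ∈ box n) (hh : h ∈ box k) : g * h ∈ box (n + k) := by
  rw [mem_box] at *
  refine ⟨(abs_add_le _ _).trans (by push_cast; omega), (abs_add_le _ _).trans (by push_cast; omega),
    (abs_add_three _ _ _).trans ?_⟩
  have : |g.x * h.y| ≤ n * k := by
    rw [abs_mul]; exact mul_le_mul hg.1 hh.2.1 (abs_nonneg _) (by positivity)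
  have h0 : (0 : ℤ) ≤ n * k := by positivity
  change _ + |g.x * h.y| ≤ _
  push_cast; nlinarith [hg.2.2, hh.2.2]

theorem box_all (S : Finset HZ) : ∃ k, S ⊆ box k := by
  refine ⟨S.sup fun g => g.x.natAbs + g.y.natAbs + g.z.natAbs, fun g hg => mem_box.2 ?_⟩
  have := Finset.le_sup (f := fun g : HZ => g.x.natAbs + g.y.natAbs + g.z.natAbs) hg
  generalize (S.sup fun g => g.x.natAbs + g.y.natAbs + g.z.natAbs) = k at this
  have h2 : (k : ℤ) ≤ k ^ 2 := by exact_mod_cast Nat.le_self_pow two_ne_zero k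
  simp only [← Int.natCast_natAbs] at *
  omega

variable (D : Type) [DivisionRing D]

abbrev A := MonoidAlgebra D HZ

theorem ore : Nonempty (OreLocalization.OreSet (A D)⁰) := by
  classical
  refine OreLocalization.nonempty_oreSet_iff_of_noZeroDivisors.2 fun r s => ?_
  obtain ⟨k, hk⟩ := box_all (r.coeff.support ∪ s.1.coeff.support)
  let S : ℕ → Submodule D (A D) := fun n => MonoidAlgebra.supported D D (box n : Set HZ)
  have e : ∀ n, S n ≃ₗ[D] (box n : Set HZ) →₀ D := fun n =>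
    MonoidAlgebra.supportedEquivFinsupp _
  have fin : ∀ n, Module.Finite D (S n) := fun n => .equiv (e n).symm
  have rk : ∀ n, Module.finrank D (S n) = (box n).card := fun n => by
    rw [(e n).finrank_eq]; simp
  have mm : ∀ n (x : S n) (y : A D), y.coeff.support ⊆ box k → x.1 * y ∈ S (n + k) := by
    intro n x y hy g hg
    obtain ⟨a, ha, b, hb, rfl⟩ := Finset.mem_mul.1 (MonoidAlgebra.support_coeff_mul_subset _ _ hg)
    exact box_mul (x.2 ha) (hy hb)
  let L : (S (10 * k) × S (10 * k)) →ₗ[D] S (10 * k + k) :=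
    { toFun := fun p => ⟨p.1 * r - p.2 * s, sub_mem (mm _ _ _ (Finset.union_subset_left hk))
        (mm _ _ _ (Finset.union_subset_right hk))⟩
      map_add' := fun p q => Subtype.ext (by simp [add_mul]; abel)
      map_smul' := fun c p => Subtype.ext (by simp [smul_sub, smul_mul_assoc]) }
  obtain ⟨p, hp, p0⟩ := Submodule.exists_mem_ne_zero_of_ne_bot (L.ker_ne_bot_of_finrank_lt (by
    rw [Module.finrank_prod, rk, rk, card_box, card_box]
    have : 0 ≤ k ^ 3 := by positivity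
    ring_nf; omega))
  have h : p.1.1 * r = p.2.1 * s := sub_eq_zero.1 (congrArg Subtype.val hp)
  refine ⟨p.2, ⟨p.1, mem_nonZeroDivisors_of_ne_zero fun h0 => p0 ?_⟩, h⟩
  rw [h0, zero_mul, eq_comm, mul_eq_zero] at h
  exact Prod.ext (Subtype.ext h0) (Subtype.ext (h.resolve_right (nonZeroDivisors.ne_zero s.2)))

variable [CharZero D]

noncomputable def ρ : A D →+* Module.End ℚ (ℤ → D) := MonoidAlgebra.liftNCRingHom
  (Module.toModuleEnd ℚ (ℤ → D))
  { toFun := fun g =>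
      { toFun := fun m n => (2 : ℚ) ^ (g.z + g.y * n) • m (n + g.x)
        map_add' := fun m m' => by ext n; simp
        map_smul' := fun c m => by ext n; simp [smul_comm c] }
    map_one' := LinearMap.ext fun m => funext fun n => by simp
    map_mul' := fun g h => LinearMap.ext fun m => funext fun n => by
      change (2 : ℚ) ^ ((g * h).z + (g * h).y * n) • m (n + (g.x + h.x)) =
        (2 : ℚ) ^ (g.z + g.y * n) • (2 : ℚ) ^ (h.z + h.y * (n + g.x)) • m (n + g.x + h.x)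
      rw [smul_smul, ← zpow_add₀ two_ne_zero, add_assoc n]
      congr 2
      simp; ring }
  fun d g => LinearMap.ext fun m => funext fun n => mul_smul_comm _ _ _

theorem ρ_single (g : HZ) (d : D) (m : ℤ → D) (n : ℤ) :
    ρ D (.single g d) m n = d * (2 : ℚ) ^ (g.z + g.y * n) • m (n + g.x) := by
  rw [ρ, MonoidAlgebra.liftNCRingHom_single]; rfl

def W : AddSubgroup (A D) where
  carrier := {r | ∀ m : ℤ → D, (∀ n > 0, m n = 0) → ∀ n ≥ 0, ρ D r m n = 0}
  zero_mem' := fun _ _ _ _ => by simp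
  add_mem' := fun h h' m hm n hn => by simp [h m hm n hn, h' m hm n hn]
  neg_mem' := fun h m hm n hn => by simp [h m hm n hn]

structure Spec {D D' : Type} [DivisionRing D] [DivisionRing D'] (ι : D →+* D')
    (W : AddSubgroup D') : Prop where
  mul : ∀ x ∈ W, ∀ y ∈ W, x * y ∈ W
  left : ∀ d, ∀ y ∈ W, ι d * y ∈ W
  right : ∀ d, ∀ y ∈ W, y * ι d ∈ W
  zero : ∀ d, ι d ∈ W → d = 0
  ex : ∃ a u v, a - 1 ∈ W ∧ u ∈ W ∧ v ∈ W ∧ u * a⁻¹ * v - 1 ∈ W

structure St where
  D : Type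
  [r : DivisionRing D]
  [c : CharZero D]

attribute [instance] St.r St.c

theorem spec {D' : Type} [DivisionRing D'] (j : A D →+* D') (ji : Function.Injective j) :
    Spec (j.comp MonoidAlgebra.singleOneRingHom) ((W D).map j.toAddMonoidHom) := by
  refine ⟨?_, ?_, ?_, ?_, ?_⟩
  · rintro _ ⟨x, hx, rfl⟩ _ ⟨y, hy, rfl⟩
    refine ⟨x * y, fun m hm n hn => ?_, map_mul j _ _⟩
    rw [map_mul]; exact hx _ (fun n hn => hy m hm n hn.le) n hn
  · rintro d _ ⟨y, hy, rfl⟩
    refine ⟨.single 1 d * y, fun m hm n hn => ?_, map_mul j _ _⟩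
    rw [map_mul, Module.End.mul_apply, ρ_single]; simp [hy m hm n hn]
  · rintro d _ ⟨y, hy, rfl⟩
    refine ⟨y * .single 1 d, fun m hm n hn => ?_, map_mul j _ _⟩
    rw [map_mul]; exact hy _ (fun n hn => by rw [ρ_single]; simp [hm n hn]) n hn
  · rintro d ⟨y, hy, e⟩
    obtain rfl : y = .single 1 d := ji e
    simpa [ρ_single] using hy (Pi.single 0 1) (fun n hn => Pi.single_eq_of_ne hn.ne' _) 0 le_rfl
  let s : HZ → A D := fun g => .single g 1
  have sm : ∀ g h, s g * s h = s (g * h) := fun g h => by simp [s, MonoidAlgebra.single_mul_single]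
  have hs : ∀ g m n, ρ D (s g) m n = (2 : ℚ) ^ (g.z + g.y * n) • m (n + g.x) := fun g m n => by
    rw [ρ_single, one_mul]
  let x := s ⟨0, 1, 0⟩
  have a0 : j (1 + 1 - x) ≠ 0 := fun e => by
    have := congrArg (fun r => ρ D r 1 0) (ji (e.trans (map_zero j).symm))
    simp [x, hs] at this
  refine ⟨j (1 + 1 - x), j (s ⟨1, 0, 0⟩), j ((1 + 1 - x) * ((x - 1) * s ⟨-1, 0, 0⟩)),
    ⟨1 + 1 - x - 1, fun m hm n hn => ?_, by simp⟩, ⟨_, fun m hm n hn => ?_, rfl⟩,
    ⟨_, fun m hm n hn => ?_, rfl⟩, ⟨s ⟨0, 1, 1⟩ - 1 - 1, fun m hm n hn => ?_, ?_⟩⟩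
  · rcases hn.eq_or_lt with rfl | hn
    · simp [x, hs]
    · simp [x, hs, hm n hn]
  · rw [hs, hm _ (by simp; omega), smul_zero]
  · obtain rfl | rfl | hn : n = 0 ∨ n = 1 ∨ 1 < n := by omega
    · simp [x, hs]
    · simp [x, hs, two_smul]
    · simp [x, hs, hm (n + -1) (by omega)]
  · rcases hn.eq_or_lt with rfl | hn
    · simp [hs, two_smul]
    · simp [hs, hm n hn]
  · rw [map_mul j (1 + 1 - x), mul_assoc, inv_mul_cancel_left₀ a0, ← map_mul, sub_mul, mul_sub, one_mul,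
      sm, sm, sm, show (⟨1, 0, 0⟩ * ⟨-1, 0, 0⟩ : HZ) = 1 by ext1 <;> simp,
      show (⟨1, 0, 0⟩ * (⟨0, 1, 0⟩ * ⟨-1, 0, 0⟩) : HZ) = ⟨0, 1, 1⟩ by ext1 <;> simp]
    simp [s, ← MonoidAlgebra.one_def]

theorem step (S : St) : ∃ (S' : St) (ι : S.D →+* S'.D) (W : AddSubgroup S'.D), Spec ι W := by
  obtain ⟨D⟩ := S
  obtain ⟨o⟩ := ore D
  let j : A D →+* OreLocalization (A D)⁰ (A D) := OreLocalization.numeratorRingHom
  have ji : Function.Injective j := OreLocalization.numeratorHom_inj (by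
    intro x hx; exact hx.1)
  have : CharZero (OreLocalization (A D)⁰ (A D)) :=
    (RingHom.charZero_iff (j.comp MonoidAlgebra.singleOneRingHom).injective).1 inferInstance
  exact ⟨⟨OreLocalization (A D)⁰ (A D)⟩, _, _, spec D j ji⟩

theorem tower : ∃ (T : ℕ → St) (ι : ∀ n, (T n).D →+* (T (n + 1)).D)
    (W : ∀ n, AddSubgroup (T (n + 1)).D), ∀ n, Spec (ι n) (W n) := by
  choose nx ι W₀ sp using step
  exact ⟨fun n => Nat.rec ⟨ℚ⟩ (fun _ => nx) n, fun _ => ι _, fun _ => W₀ _, fun _ => sp _⟩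

def tr (T : ℕ → St) (ι : ∀ n, (T n).D →+* (T (n + 1)).D) (i j : ℕ) (h : i ≤ j) :
    (T i).D →+* (T j).D :=
  Nat.leRec (motive := fun j _ => (T i).D →+* (T j).D) (RingHom.id (T i).D)
    (fun j _ g => (ι j).comp g) h

theorem main : ¬ (∀ (K : Type) [DivisionRing K] (τ : TopologicalSpace K),
      @IsTopologicalRing K τ _ → @T2Space K τ →
      ∃ σ : TopologicalSpace K, τ ≤ σ ∧ @IsTopologicalRing K σ _ ∧ @T2Space K σ ∧
        ∀ x : K, x ≠ 0 → @ContinuousAt K K σ σ (fun y => y⁻¹) x) := by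
  intro hmain
  obtain ⟨T, ι, W₀, sp⟩ := tower
  let f := tr T ι
  have fs : ∀ i j (h : i ≤ j) x, f i (j + 1) (h.trans j.le_succ) x = ι j (f i j h x) :=
    fun i j h x => by simp only [f, tr]; rw [Nat.leRec_succ _ _ h]; rfl
  have f0 : ∀ i x, f i i le_rfl x = x := fun i x => by simp only [f, tr]; rw [Nat.leRec_self]; rfl
  have : DirectedSystem (fun i => (T i).D) (fun i j h => f i j h) := ⟨f0, by
    intro k j i hij hjk x
    induction hjk with
    | refl => exact f0 _ _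
    | step h ih => rw [fs _ _ h, fs _ _ (hij.trans h), ih]⟩
  let K := DirectLimit (fun i => (T i).D) f
  let o := DirectLimit.Ring.of (fun i => (T i).D) f
  have oι : ∀ n x, o (n + 1) (ι n x) = o n x := fun n x => by
    rw [← DirectLimit.Ring.of_f (f := f) n.le_succ x, fs n n le_rfl, f0]
  let E : ℕ → Subring K := fun n => (o n).range
  have Em : Monotone E := monotone_nat_of_le_succ fun n _ ⟨x, e⟩ => ⟨_, (oι n x).trans e⟩
  have Ea : ∀ x : K, ∃ n, x ∈ E n := DirectLimit.induction _ fun n x => ⟨n, x, rfl⟩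
  let w : ℕ → AddSubgroup K := fun n => (W₀ n).map (o (n + 1)).toAddMonoidHom
  have wE : ∀ n, ∀ x ∈ w n, x ∈ E (n + 1) := fun n _ ⟨x, _, e⟩ => ⟨x, e⟩
  have wl : ∀ n, ∀ d ∈ E n, ∀ y ∈ w n, d * y ∈ w n ∧ y * d ∈ w n := by
    rintro n _ ⟨d, rfl⟩ _ ⟨y, hy, rfl⟩
    rw [← oι]
    exact ⟨⟨_, (sp _).left d y hy, map_mul (o (n + 1)) _ _⟩,
      ⟨_, (sp _).right d y hy, map_mul (o (n + 1)) _ _⟩⟩
  have wm : ∀ n m, ∀ x ∈ w n, ∀ y ∈ w m, x * y ∈ w (max n m) := by
    intro n m x hx y hy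
    rcases lt_trichotomy n m with h | rfl | h
    · rw [max_eq_right h.le]; exact (wl m x (Em h (wE n x hx)) y hy).1
    · obtain ⟨x, hx, rfl⟩ := hx
      obtain ⟨y, hy, rfl⟩ := hy
      rw [max_self]
      exact ⟨_, (sp _).mul x hx y hy, map_mul (o (n + 1)) _ _⟩
    · rw [max_eq_left h.le]; exact (wl n y (Em h (wE m y hy)) x hx).2
  have w0 : ∀ n, ∀ d ∈ E n, d ∈ w n → d = 0 := by
    rintro n _ ⟨d, rfl⟩ ⟨y, hy, e⟩
    rw [← oι] at e
    obtain rfl : y = ι n d := (o (n + 1)).injective e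
    rw [(sp _).zero d hy, map_zero]
  let U : ℕ → AddSubgroup K := fun m => ⨆ n : {n // m ≤ n}, w n
  have wU : ∀ {m n}, m ≤ n → w n ≤ U m := fun {m n} h => le_iSup (fun n : {n // m ≤ n} => w n) ⟨n, h⟩
  have Ua : Antitone U := fun m m' h => iSup_le fun n => wU (h.trans n.2)
  have Ui : ∀ m (g : K →+ K) (V : AddSubgroup K), (∀ n ≥ m, ∀ y ∈ w n, g y ∈ V) →
      ∀ y ∈ U m, g y ∈ V := fun m g V h =>
    (iSup_le fun n => h n.1 n.2 : U m ≤ V.comap g)
  have B : RingSubgroupsBasis U := by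
    refine ⟨fun i j => ⟨max i j, le_inf (Ua (le_max_left _ _)) (Ua (le_max_right _ _))⟩,
      fun i => ⟨i, ?_⟩, fun x i => ?_, fun x i => ?_⟩
    · rintro _ ⟨x, hx, y, hy, rfl⟩
      exact Ui i (AddMonoidHom.mulLeft x) _ (fun n hn y hy => Ui i (AddMonoidHom.mulRight y) _
        (fun m hm x hx => wU (le_max_of_le_left hm) (wm m n x hx y hy)) x hx) y hy
    · obtain ⟨n, hn⟩ := Ea x
      exact ⟨max i n, Ui _ (AddMonoidHom.mulLeft x) _ fun m hm y hy =>
        wU (le_of_max_le_left hm) (wl m x (Em (le_of_max_le_right hm) hn) y hy).1⟩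
    · obtain ⟨n, hn⟩ := Ea x
      exact ⟨max i n, Ui _ (AddMonoidHom.mulRight x) _ fun m hm y hy =>
        wU (le_of_max_le_left hm) (wl m x (Em (le_of_max_le_right hm) hn) y hy).2⟩
  have sep : ∀ m, ∀ x ∈ E m, x ∈ U m → x = 0 := by
    intro m x hx hU
    let P : ℕ → AddSubgroup K := fun k => Nat.rec ⊥ (fun k P => P ⊔ w (m + k)) k
    have Pm : Monotone P := monotone_nat_of_le_succ fun k => le_sup_left
    have PE : ∀ k, P k ≤ (E (m + k)).toAddSubgroup := fun k => by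
      induction k with
      | zero => exact bot_le
      | succ k ih => exact sup_le (ih.trans fun y hy => Em (Nat.le_succ _) hy) (wE _)
    obtain ⟨k, hk⟩ := (AddSubgroup.mem_iSup_of_directed Pm.directed_le).1
      ((iSup_le fun n => le_iSup_of_le (n.1 - m + 1) (le_sup_of_le_right (by
        rw [Nat.add_sub_cancel' n.2])) : U m ≤ ⨆ k, P k) hU)
    induction k with
    | zero => exact hk
    | succ k ih =>
      obtain ⟨p, hp, y, hy, rfl⟩ := AddSubgroup.mem_sup.1 hk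
      have := w0 _ y (by simpa using sub_mem (Em (Nat.le_add_right m k) hx) (PE k hp)) hy
      exact ih (by rwa [this, add_zero])
  obtain ⟨σ, le, r, t2, hc⟩ := hmain K B.topology B.toRingFilterBasis.isTopologicalRing (by
    let := B.topology
    have := B.toRingFilterBasis.isTopologicalRing
    refine IsTopologicalAddGroup.t2Space_of_zero_sep fun x x0 => ?_
    obtain ⟨n, hn⟩ := Ea x
    exact ⟨U n, B.hasBasis_nhds_zero.mem_of_mem trivial, fun h => x0 (sep n x hn h)⟩)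
  have lim : ∀ x : ℕ → K, (∀ n, x n ∈ w n) → Tendsto x atTop (𝓝 0) := fun x hx =>
    (B.hasBasis_nhds_zero.tendsto_right_iff.2 fun i _ =>
      (eventually_ge_atTop i).mono fun n hn => wU hn (hx n)).mono_right (nhds_mono le)
  choose a u v h1 h2 h3 h4 using fun n => (sp n).ex
  have l1 := (lim _ fun n => ⟨_, h1 n, rfl⟩).add_const 1
  have l4 := (lim _ fun n => ⟨_, h4 n, rfl⟩).add_const 1
  simp only [RingHom.toAddMonoidHom_eq_coe, AddMonoidHom.coe_coe, map_sub, map_one, sub_add_cancel,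
    zero_add, map_mul, map_inv₀] at l1 l4
  have l5 := ((lim _ fun n => ⟨_, h2 n, rfl⟩).mul ((hc 1 one_ne_zero).tendsto.comp l1)).mul
    (lim _ fun n => ⟨_, h3 n, rfl⟩)
  exact one_ne_zero ((tendsto_nhds_unique l4 l5).trans (mul_zero _))

end Pool.Agent.H23.DivTop
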