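import Pool.Agent.H23.DkDefs

set_option autoImplicit false

namespace Pool.Agent.H23.Dk
open Finset

def ia (c B : ℕ) (τ : ℕ → ℕ) (u v : ℕ) : Prop := u ≠ v ∧ ((u < c ∧ v < c) ∨ (u < c ∧ u + τ v < B) ∨
  (v < c ∧ v + τ u < B) ∨ (c ≤ u ∧ c ≤ v ∧ τ u = τ v))

instance (c B : ℕ) (τ : ℕ → ℕ) (u v : ℕ) : Decidable (ia c B τ u v) := by unfold ia; infer_instance

def Dm (c B : ℕ) (τ : ℕ → ℕ) (T : Finset ℕ) : ℤ :=
  ∑ u ∈ T, ∑ v ∈ T, if ia c B τ u v then 1 else 0

variable {c B Y : ℕ} {τ : ℕ → ℕ} {P : ℕ → Prop}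

theorem mod_id (T1 T2 : Finset ℕ) (h1 : ∀ u ∈ T1, u < c) (h2 : ∀ u ∈ T2, c ≤ u) :
    Dm c B τ (T1 ∪ T2) = #T1 ^ 2 - #T1 - #T2 ^ 2 - #T2 + 2 * ∑ v ∈ T2,
      ((#{u ∈ T1 | u + τ v < B} : ℤ) + #{u ∈ T2 | τ u ≤ τ v}) := by
  have d : Disjoint T1 T2 := disjoint_left.2 fun u a b => by have := h1 u a; have := h2 u b; omega
  have e1 : ∑ u ∈ T1, ∑ v ∈ T1, (if ia c B τ u v then 1 else 0 : ℤ) =
      ∑ u ∈ T1, ∑ v ∈ T1, (1 - if u = v then 1 else 0 : ℤ) :=
    sum_congr rfl fun u a => sum_congr rfl fun v b => by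
      by_cases e : u = v <;> simp [ia, e, h1 u a, h1 v b]
  have e2 : ∑ u ∈ T1, ∑ v ∈ T2, (if ia c B τ u v then 1 else 0 : ℤ) =
      ∑ v ∈ T2, ∑ u ∈ T1, (if u + τ v < B then 1 else 0 : ℤ) := by
    rw [sum_comm]
    exact sum_congr rfl fun v b => sum_congr rfl fun u a => if_congr (by
      have := h1 u a; have := h2 v b; unfold ia; omega) rfl rfl
  have e3 : ∑ v ∈ T2, ∑ u ∈ T1, (if ia c B τ v u then 1 else 0 : ℤ) =
      ∑ v ∈ T2, ∑ u ∈ T1, (if u + τ v < B then 1 else 0 : ℤ) :=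
    sum_congr rfl fun v b => sum_congr rfl fun u a => if_congr (by
      have := h1 u a; have := h2 v b; unfold ia; omega) rfl rfl
  have e4 : ∑ u ∈ T2, ∑ v ∈ T2, (if ia c B τ u v then 1 else 0 : ℤ) =
      ∑ u ∈ T2, ∑ v ∈ T2, ((if τ v ≤ τ u then 1 else 0) + (if τ u ≤ τ v then 1 else 0) - 1 -
        if u = v then 1 else 0 : ℤ) :=
    sum_congr rfl fun u a => sum_congr rfl fun v b => by
      have := h2 u a; have := h2 v b
      by_cases e : u = v
      · simp [ia, e]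
      · unfold ia; split_ifs <;> omega
  have e5 := sum_comm (s := T2) (t := T2) (f := fun u v => (if τ u ≤ τ v then 1 else 0 : ℤ))
  simp only [Dm, sum_union d, sum_add_distrib, e1, e2, e3, e4, sum_sub_distrib, e5, card_filter,
    Nat.cast_sum, Nat.cast_ite, Nat.cast_one, Nat.cast_zero]
  simp +contextual only [sum_ite_eq, sum_const, nsmul_eq_mul, if_true, sum_congr rfl]
  ring

structure Md (c B Y : ℕ) (τ : ℕ → ℕ) (P : ℕ → Prop) : Prop where
  h0 : Y < B ∧ B ≤ c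
  h1 : ∀ u < c + Y, u < c + τ u ∧ τ u ≤ B
  h2 : ∀ u, τ u < B → P (τ u)
  h3 : ∀ u s, u < c + s → P s → τ u ≤ s

theorem Md.le (h : Md c B Y τ P) {T : Finset ℕ} (e : T ⊆ range (c + Y)) (x : B < #T) :
    (#T : ℤ) ^ 2 + Dm c B τ T ≤ (2 * B + 2 * c - 1) * #T - 2 * B * c ∧
    ((#T : ℤ) ^ 2 + Dm c B τ T = (2 * B + 2 * c - 1) * #T - 2 * B * c →
      ∃ y ≤ Y, #T = c + y ∧ (y = 0 ∨ P y)) := by
  obtain ⟨T1, T2, rfl, h1, h2⟩ : ∃ T1 T2, T = T1 ∪ T2 ∧ (∀ u ∈ T1, u < c) ∧ ∀ u ∈ T2, c ≤ u :=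
    ⟨_, _, (filter_union_filter_not_eq (· < c) T).symm, by simp, by simp⟩
  have d : Disjoint T1 T2 := disjoint_left.2 fun u a b => by have := h1 u a; have := h2 u b; omega
  have h4 : ∀ u ∈ T2, u < c + Y := fun u a => mem_range.1 (e (mem_union_right _ a))
  have c1 : #T1 ≤ c := (card_le_card fun u a => mem_range.2 (h1 u a)).trans_eq (card_range _)
  have c2 : #T2 ≤ Y := by
    simpa using card_le_card fun u a => mem_Ico.2 ⟨h2 u a, h4 u a⟩
  have k : ∀ v ∈ T2, #{u ∈ T1 | u + τ v < B} + τ v ≤ B ∧ #{u ∈ T2 | τ u ≤ τ v} ≤ τ v := fun v a => by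
    have := h.h1 v (h4 v a)
    have := card_le_card (s := {u ∈ T1 | u + τ v < B}) (t := range (B - τ v)) fun u a => by
      simp at a ⊢; omega
    have := card_le_card (s := {u ∈ T2 | τ u ≤ τ v}) (t := Ico c (c + τ v)) fun u a => by
      rw [mem_filter] at a
      have := h.h1 u (h4 u a.1)
      exact mem_Ico.2 ⟨h2 u a.1, by omega⟩
    simp at *; omega
  have k1 : ∀ v ∈ T2, (#{u ∈ T1 | u + τ v < B} : ℤ) + #{u ∈ T2 | τ u ≤ τ v} ≤ B := fun v a => by
    have := k v a; omega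
  have k2 := sum_le_sum k1
  have k3 : (0 : ℤ) ≤ (c - #T1) * (#T1 + #T2 - B - 1) := by
    rw [card_union_of_disjoint d] at x
    exact mul_nonneg (by omega) (by omega)
  rw [mod_id T1 T2 h1 h2, card_union_of_disjoint d]
  simp only [sum_const, nsmul_eq_mul, Nat.cast_add] at k2 ⊢
  have c1' : (#T1 : ℤ) ≤ c := by omega
  refine ⟨by nlinarith, fun q => ⟨_, c2, by
    have : (c : ℤ) ≤ #T1 := by nlinarith
    omega, ?_⟩⟩
  rcases T2.eq_empty_or_nonempty with rfl | n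
  · simp
  obtain ⟨v, a, b⟩ := exists_max_image T2 τ n
  have := (sum_eq_sum_iff_of_le k1).1 (by simp only [sum_const, nsmul_eq_mul]; nlinarith) v a
  have := k v a
  have := h.h0
  rw [filter_true_of_mem b] at *
  exact .inr ((by omega : τ v = #T2) ▸ h.h2 v (by omega))

theorem Md.eq (h : Md c B Y τ P) {y : ℕ} (e : y ≤ Y) (p : P y) :
    ((c + y : ℕ) : ℤ) ^ 2 + Dm c B τ (range (c + y)) = (2 * B + 2 * c - 1) * (c + y : ℕ) - 2 * B * c := by
  rw [show range (c + y) = range c ∪ Ico c (c + y) by ext; simp; omega,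
    mod_id _ _ (by simp) (by simp +contextual), sum_congr rfl (g := fun _ => (B : ℤ)) fun v a => ?_]
  · simp; ring
  rw [mem_Ico] at a
  have := h.h0
  have := h.h1 v (by omega)
  have := h.h3 v y a.2 p
  rw [show {u ∈ range c | u + τ v < B} = range (B - τ v) by ext; simp; omega,
    show {u ∈ Ico c (c + y) | τ u ≤ τ v} = Ico c (c + τ v) from ext fun u => by
      simp only [mem_filter, mem_Ico]
      exact ⟨fun a => ⟨a.1.1, by have := h.h1 u (by omega); omega⟩, fun a =>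
        ⟨by omega, h.h3 _ _ a.2 (h.h2 _ (by omega))⟩⟩]
  simp; omega

theorem cog {m : ℕ} {H : SimpleGraph A} (U : Finset A) (n : U.Nonempty)
    (h : ∀ V ⊆ U, V.Nonempty → ∃ v ∈ V, ∀ a ∈ V, ∀ b ∈ V, (a = v ∨ H.Adj v a) → H.Adj a b →
      b = v ∨ H.Adj v b ∨ ∀ z ∈ V, z = v ∨ H.Adj v z) : Bld m H U := by
  classical
  induction U using Finset.strongInduction with
  | _ U ih =>
  obtain ⟨v, a, b⟩ := h U subset_rfl n
  have k := fun V (e : V ⊂ U) n => ih V e n fun W f => h W (f.trans e.subset)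
  by_cases c : ∀ z ∈ U, z = v ∨ H.Adj v z
  · rcases (U.erase v).eq_empty_or_nonempty with e | e
    · rw [← insert_erase a, e]; exact .one v
    · rw [← insert_erase a, insert_eq]
      exact .join _ _ (.one v) (k _ (erase_ssubset a) e) (by simp)
        (by simpa using fun w e m => (c w m).resolve_left e)
  · rw [← filter_union_filter_not_eq (fun z => z = v ∨ H.Adj v z) U]
    refine .union _ _ (k _ (filter_ssubset.2 (by simpa using c)) ⟨v, by simp [a]⟩)
      (k _ (filter_ssubset.2 ⟨v, a, by simp⟩) (by simpa [filter_nonempty_iff] using c))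
      (disjoint_filter_filter_not _ _ _) fun u x w y z => ?_
    rw [mem_filter] at x y
    have := b u x.1 w y.1 x.2 z
    tauto

theorem two_edges (H : SimpleGraph A) [DecidableRel H.Adj] (S : Finset A) :
    2 * ((H.induce (S : Set A)).edgeSet.ncard : ℤ) = ∑ a ∈ S, ∑ b ∈ S, if H.Adj a b then 1 else 0 := by
  classical
  have := (H.induce (S : Set A)).sum_degrees_eq_twice_card_edges
  rw [← Set.ncard_coe_finset, SimpleGraph.coe_edgeFinset] at this
  rw [← sum_coe_sort S]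
  refine (by exact_mod_cast this.symm : _ = ((∑ v : (S : Set A), (H.induce (S : Set A)).degree v : ℕ) : ℤ)).trans ?_
  push_cast
  refine sum_congr rfl fun a _ => ?_
  rw [← sum_coe_sort S, ← SimpleGraph.card_neighborFinset_eq_degree, SimpleGraph.neighborFinset_eq_filter,
    card_filter]
  push_cast
  rfl

theorem glob (m : ℕ) (x D : ℕ → ℕ → ℤ) :
    ∑ i ∈ range m, ∑ j ∈ range m, ∑ i' ∈ range m, ∑ j' ∈ range m,
      (if i = i' ∧ j = j' then D i j else if i ≠ i' ∧ j ≠ j' then x i j * x i' j' else 0) =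
    (∑ i ∈ range m, ∑ j ∈ range m, x i j) ^ 2 - ∑ i ∈ range m, (∑ j ∈ range m, x i j) ^ 2 -
      ∑ j ∈ range m, (∑ i ∈ range m, x i j) ^ 2 +
      ∑ i ∈ range m, ∑ j ∈ range m, (x i j ^ 2 + D i j) := by
  have e : ∀ i j i' j', (if i = i' ∧ j = j' then D i j else if i ≠ i' ∧ j ≠ j' then x i j * x i' j'
      else 0) = x i j * x i' j' - (if i = i' then x i j * x i j' else 0) -
      (if j = j' then x i j * x i' j else 0) +
      (if i = i' then if j = j' then x i j ^ 2 + D i j else 0 else 0) := fun i j i' j' => by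
    by_cases a : i = i' <;> by_cases b : j = j' <;> simp [a, b, sq]
  simp only [e]
  simp +contextual only [sum_add_distrib, sum_sub_distrib, sum_ite_irrel, sum_const_zero, sum_ite_eq,
    if_true, sum_congr rfl, sq, sum_mul, mul_sum]
  rw [sum_comm (f := fun j i => ∑ i' ∈ range m, x i' j * x i j)]
  simp only [mul_comm]

end Pool.Agent.H23.Dk
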