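import Pool.Agent.H23.Dk1

set_option autoImplicit false

namespace Pool.Agent.H23.Dk
open Finset

def ad (c B : ℕ) (τ : ℕ → ℕ → ℕ → ℕ) (a b : A) : Prop :=
  (a.1 = b.1 ∧ a.2.1 = b.2.1 ∧ ia c B (τ a.1 a.2.1) a.2.2 b.2.2) ∨ (a.1 ≠ b.1 ∧ a.2.1 ≠ b.2.1)

instance (c B : ℕ) (τ : ℕ → ℕ → ℕ → ℕ) (a b : A) : Decidable (ad c B τ a b) := by
  unfold ad; infer_instance

def DD (c B : ℕ) (τ : ℕ → ℕ → ℕ → ℕ) (S : Finset A) : ℤ :=
  ∑ a ∈ S, ∑ b ∈ S, if ad c B τ a b then 1 else 0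

def val (m c B W : ℤ) : ℤ := (m * (m * (c + W))) ^ 2 - 2 * m * (m * (c + W)) ^ 2 +
  (2 * B + 2 * c - 1) * (m * (m * (c + W))) - 2 * B * c * m ^ 2

variable {m c B W Z L : ℕ} {τ : ℕ → ℕ → ℕ → ℕ} {P : ℕ → ℕ → ℕ → Prop} {S : Finset A}

theorem cells (h : S ⊆ range m ×ˢ range m ×ˢ range L) {T : ℕ → ℕ → Finset ℕ}
    (e : ∀ i < m, ∀ j < m, T i j = {u ∈ range L | (i, j, u) ∈ S}) :
    (#S : ℤ) = ∑ i ∈ range m, ∑ j ∈ range m, (#(T i j) : ℤ) ∧ DD c B τ S = #S ^ 2 -
      ∑ i ∈ range m, (∑ j ∈ range m, (#(T i j) : ℤ)) ^ 2 -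
      ∑ j ∈ range m, (∑ i ∈ range m, (#(T i j) : ℤ)) ^ 2 +
      ∑ i ∈ range m, ∑ j ∈ range m, ((#(T i j) : ℤ) ^ 2 + Dm c B (τ i j) (T i j)) := by
  have k : ∀ φ : A → ℤ, ∑ a ∈ S, φ a = ∑ i ∈ range m, ∑ j ∈ range m, ∑ u ∈ T i j, φ (i, j, u) := by
    intro φ
    rw [← inter_eq_right.2 h, ← filter_mem_eq_inter, sum_filter, sum_product]
    refine sum_congr rfl fun i a => ?_
    rw [sum_product]
    exact sum_congr rfl fun j b => by rw [e i (mem_range.1 a) j (mem_range.1 b), sum_filter]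
  have k1 : (#S : ℤ) = ∑ i ∈ range m, ∑ j ∈ range m, (#(T i j) : ℤ) := by simpa using k fun _ => 1
  refine ⟨k1, ?_⟩
  rw [k1, ← glob, DD]
  simp only [k]
  refine sum_congr rfl fun i _ => sum_congr rfl fun j _ => ?_
  rw [sum_comm]
  refine sum_congr rfl fun i' _ => ?_
  rw [sum_comm]
  refine sum_congr rfl fun j' _ => ?_
  by_cases a : i = i' <;> by_cases b : j = j' <;> simp [ad, a, b, Dm]

theorem sys1 (h : ∀ i j, Md c B (W + Z) (τ i j) (P i j)) (y : ℕ → ℕ → ℕ)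
    (h1 : ∀ i < m, ∀ j < m, y i j ≤ W + Z ∧ P i j (y i j))
    (h2 : ∀ i < m, ∑ j ∈ range m, y i j = m * W) (h3 : ∀ j < m, ∑ i ∈ range m, y i j = m * W) :
    ∃ S ⊆ range m ×ˢ range m ×ˢ range (c + (W + Z)), #S = m * (m * (c + W)) ∧
      DD c B τ S = val m c B W := by
  obtain ⟨e1, e2⟩ := cells (c := c) (B := B) (τ := τ) (T := fun i j => range (c + y i j))
    (filter_subset (fun a => a.2.2 < c + y a.1 a.2.1) (range m ×ˢ range m ×ˢ range (c + (W + Z))))
    fun i a j b => by have := h1 i a j b; ext; simp [a, b]; omega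
  have r : ∀ i ∈ range m, ∑ j ∈ range m, ((c + y i j : ℕ) : ℤ) = m * (c + W) := fun i a => by
    rw [← Nat.cast_sum, sum_add_distrib, h2 i (mem_range.1 a)]; simp [mul_add]
  have r' : ∀ j ∈ range m, ∑ i ∈ range m, ((c + y i j : ℕ) : ℤ) = m * (c + W) := fun i a => by
    rw [← Nat.cast_sum, sum_add_distrib, h3 i (mem_range.1 a)]; simp [mul_add]
  simp only [card_range] at e1 e2
  rw [sum_congr rfl r, sum_const, card_range, nsmul_eq_mul] at e1
  refine ⟨_, filter_subset _ _, by exact_mod_cast e1, ?_⟩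
  rw [e2, e1, sum_congr rfl fun i a => congrArg (· ^ 2) (r i a),
    sum_congr rfl fun i a => congrArg (· ^ 2) (r' i a), sum_congr rfl fun i a => sum_congr rfl
      fun j b => (h i j).eq (h1 i (mem_range.1 a) j (mem_range.1 b)).1
        (h1 i (mem_range.1 a) j (mem_range.1 b)).2]
  simp +contextual only [sum_sub_distrib, ← mul_sum, r, sum_congr rfl, sum_const, card_range,
    nsmul_eq_mul, val]
  ring

theorem sys2 (h : ∀ i j, Md c B (W + Z) (τ i j) (P i j)) (hc : B + m * (m * Z) < c + (W + Z))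
    (hW : m * Z < W + Z) (e : S ⊆ range m ×ˢ range m ×ˢ range (c + (W + Z)))
    (e1 : #S ≤ m * (m * (c + W))) (e2 : val m c B W ≤ DD c B τ S) : ∃ y : ℕ → ℕ → ℕ,
    (∀ i < m, ∀ j < m, P i j (y i j)) ∧ (∀ i < m, ∑ j ∈ range m, y i j = m * W) ∧
      ∀ j < m, ∑ i ∈ range m, y i j = m * W := by
  obtain ⟨S', s1, s2, s3⟩ := exists_subsuperset_card_eq e e1 (by simp; gcongr; omega)
  replace e2 : val m c B W ≤ DD c B τ S' := e2.trans <| (sum_le_sum fun a _ =>
    sum_le_sum_of_subset_of_nonneg s1 fun _ _ _ => by positivity).trans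
    (sum_le_sum_of_subset_of_nonneg s1 fun _ _ _ => by positivity)
  obtain ⟨T, hT⟩ : ∃ T : ℕ → ℕ → Finset ℕ, ∀ i j, T i j = {u ∈ range (c + (W + Z)) | (i, j, u) ∈ S'} :=
    ⟨_, fun _ _ => rfl⟩
  obtain ⟨k1, k2⟩ := cells (c := c) (B := B) (τ := τ) s2 fun i _ j _ => hT i j
  have t1 : ∀ i j, T i j ⊆ range (c + (W + Z)) := fun i j => hT i j ▸ filter_subset _ _
  have t2 : ∀ i j, (0 : ℤ) ≤ c + (W + Z) - #(T i j) := fun i j => by
    have := card_le_card (t1 i j); simp at this; omega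
  rw [s3] at k1 k2
  push_cast at k1 k2
  have t3 : ∀ i ∈ range m, ∀ j ∈ range m, B < #(T i j) := fun i a j b => by
    have := (single_le_sum (fun j _ => t2 i j) b).trans
      (single_le_sum (f := fun i => ∑ j ∈ range m, (c + (W + Z) - #(T i j) : ℤ))
        (fun i _ => sum_nonneg fun j _ => t2 i j) a)
    simp only [sum_sub_distrib, ← k1, sum_const, card_range, nsmul_eq_mul] at this
    zify at hc ⊢; linarith
  have q : ∀ R : ℕ → ℤ, ∑ i ∈ range m, R i = m * (m * (c + W)) → ∑ i ∈ range m, R i ^ 2 =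
      ∑ i ∈ range m, (R i - m * (c + W)) ^ 2 + m * (m * (c + W)) ^ 2 := fun R e => by
    simp only [sub_sq, sum_add_distrib, sum_sub_distrib, ← sum_mul, ← mul_sum, e, sum_const,
      card_range, nsmul_eq_mul]
    ring
  have q1 := fun i a j b => (h i j).le (t1 i j) (t3 i a j b)
  have q2 := fun i a => sum_le_sum fun j b => (q1 i a j b).1
  have q3 := sum_le_sum q2
  have q4 : ∑ i ∈ range m, ∑ j ∈ range m, ((2 * B + 2 * c - 1) * #(T i j) - 2 * B * c : ℤ) =
      (2 * B + 2 * c - 1) * (m * (m * (c + W))) - 2 * B * c * m ^ 2 := by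
    simp only [sum_sub_distrib, ← mul_sum, ← k1, sum_const, card_range, nsmul_eq_mul]; ring
  rw [q _ k1.symm, q _ (sum_comm.trans k1.symm)] at k2
  have p1 := fun (R : ℕ → ℤ) i (_ : i ∈ range m) => sq_nonneg (R i - m * (c + W))
  have p2 := sum_nonneg (p1 fun i => ∑ j ∈ range m, (#(T i j) : ℤ))
  have p3 := sum_nonneg (p1 fun j => ∑ i ∈ range m, (#(T i j) : ℤ))
  unfold val at e2
  have r1 := (sum_eq_zero_iff_of_nonneg (p1 _)).1 (le_antisymm (by linarith) p2)
  have r2 := (sum_eq_zero_iff_of_nonneg (p1 _)).1 (le_antisymm (by linarith) p3)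
  choose! y y1 y2 y3 using fun i a j b => (q1 i a j b).2 ((sum_eq_sum_iff_of_le fun j b =>
    (q1 i a j b).1).1 ((sum_eq_sum_iff_of_le q2).1 (le_antisymm q3 (by linarith)) i a) j b)
  have r : ∀ {y : ℕ → ℕ} {t : ℕ → ℕ}, (∀ j ∈ range m, t j = c + y j) →
      (∑ j ∈ range m, (t j : ℤ) - m * (c + W)) ^ 2 = 0 → ∑ j ∈ range m, y j = m * W := by
    intro y t a b
    rw [sq_eq_zero_iff, ← Nat.cast_sum, sum_congr rfl a, sum_add_distrib] at b
    simp only [sum_const, card_range, smul_eq_mul, Nat.cast_add, Nat.cast_mul] at b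
    zify at b ⊢; linarith
  have r3 := fun i a => r (y2 i a) (r1 i a)
  refine ⟨y, fun i a j b => (y3 i (mem_range.2 a) j (mem_range.2 b)).resolve_left fun z => ?_,
    fun i a => r3 i (mem_range.2 a), fun j b => r (fun i a => y2 i a j (mem_range.2 b))
    (r2 j (mem_range.2 b))⟩
  have := single_le_sum (f := fun j => (W + Z - y i j : ℤ)) (fun j b => by
    have := y1 i (mem_range.2 a) j b; omega) (mem_range.2 b)
  simp only [sum_sub_distrib, ← Nat.cast_sum, r3 i (mem_range.2 a), z, sum_const, card_range,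
    nsmul_eq_mul] at this
  zify at hW; push_cast at this; linarith

def alp (M a : ℕ) : ℕ := a + M * (a * a)

theorem alp_le {M a n : ℕ} (h : a < n) : alp M a ≤ alp M n := by unfold alp; gcongr

theorem alp_eq {k n a : ℕ} {b : ℕ → ℕ} (ha : a < n) (hb : ∀ j < k, b j < n)
    (h : ∑ j ∈ range k, alp (k * n + 1) (b j) = k * alp (k * n + 1) a) : ∀ j < k, b j = a := by
  have h1 : ∑ j ∈ range k, b j ≤ k * n := by
    simpa using sum_le_card_nsmul (range k) b n fun j m => (hb j (mem_range.1 m)).le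
  have h2 := Nat.mul_le_mul_left k ha.le
  simp only [alp, sum_add_distrib, ← mul_sum, mul_add, mul_left_comm k] at h
  have h3 := congrArg (· % (k * n + 1)) h
  simp only [Nat.add_mul_mod_self_left] at h3
  rw [Nat.mod_eq_of_lt (by omega), Nat.mod_eq_of_lt (by omega)] at h3
  rw [h3, Nat.add_right_inj, Nat.mul_right_inj (by omega)] at h
  have := (sum_eq_zero_iff_of_nonneg (s := range k) fun j _ => sq_nonneg ((b j : ℤ) - a)).1 (by
    zify at h h3
    simp only [sub_sq]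
    simp only [sum_add_distrib, sum_sub_distrib, ← sum_mul, ← mul_sum, h3, sq, h, sum_const,
      card_range, nsmul_eq_mul]
    ring)
  intro j e
  have := pow_eq_zero_iff two_ne_zero |>.1 (this j (mem_range.2 e))
  omega

end Pool.Agent.H23.Dk
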