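import Pool.Agent.H25.W1Defs

set_option autoImplicit false

namespace Pool.Agent.H23.Dk

/-- vertex names -/
abbrev A := ℕ × ℕ × ℕ

/-- vertices, edges, the size bound `k`, the required number of edges -/
abbrev Inst := List A × List (A × A) × ℕ × ℕ

/-- the simple graph with the listed undirected edges -/
def G (E : List (A × A)) : SimpleGraph A := SimpleGraph.fromRel fun u v => (u, v) ∈ E

/-- the subgraph of `H` induced on the vertex set is produced by a construction sequence of width
at most `m`: single vertex, disjoint union, complete join, substitution into a graph `Q` on at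
most `m` vertices -/
inductive Bld (m : ℕ) (H : SimpleGraph A) : Finset A → Prop
  | one (v : A) : Bld m H {v}
  | union (U W : Finset A) : Bld m H U → Bld m H W → Disjoint U W →
      (∀ u ∈ U, ∀ w ∈ W, ¬ H.Adj u w) → Bld m H (U ∪ W)
  | join (U W : Finset A) : Bld m H U → Bld m H W → Disjoint U W →
      (∀ u ∈ U, ∀ w ∈ W, H.Adj u w) → Bld m H (U ∪ W)
  | subst (r : ℕ) (Q : SimpleGraph (Fin r)) (f : Fin r → Finset A) : r ≤ m → (∀ i, Bld m H (f i)) →
      (∀ i j, i ≠ j → Disjoint (f i) (f j) ∧ ∀ u ∈ f i, ∀ w ∈ f j, (H.Adj u w ↔ Q.Adj i j)) →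
      Bld m H (Finset.univ.biUnion f)

/-- modular-width of the input graph -/
noncomputable def mw (I : Inst) : ℕ := sInf {m | Bld m (G I.2.1) I.1.toFinset}

/-- Densest `k`-Subgraph, decision form -/
def DkS (I : Inst) : Prop :=
  ∃ S : Finset A, (∀ v ∈ S, v ∈ I.1) ∧ S.card ≤ I.2.2.1 ∧
    I.2.2.2 ≤ ((G I.2.1).induce (S : Set A)).edgeSet.ncard

end Pool.Agent.H23.Dk
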