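import Mathlib

set_option autoImplicit false

namespace Pool.Agent.H23.Ent
open ENNReal Classical

variable {Ω Ω' : Type} (p : Ω → ℝ≥0∞)

noncomputable def m (r : Setoid Ω) (ω : Ω) : ℝ≥0∞ := ∑' η, if r η ω then p η else 0

noncomputable def L (x : ℝ≥0∞) : ℝ≥0∞ := .ofReal (-Real.log x.toReal)

noncomputable def HH (r : Setoid Ω) : ℝ≥0∞ := ∑' ω, p ω * L (m p r ω)

variable {p}

theorem m_le (hp : ∑' ω, p ω = 1) (r : Setoid Ω) (ω : Ω) : m p r ω ≤ 1 :=
  hp ▸ ENNReal.tsum_le_tsum fun η => by split_ifs <;> simp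

theorem m_ne {ω : Ω} (h : p ω ≠ 0) (r : Setoid Ω) : m p r ω ≠ 0 :=
  ne_bot_of_le_ne_bot h (le_trans (by simp) (ENNReal.le_tsum ω))

theorem m_congr {r : Setoid Ω} {ω η : Ω} (h : r ω η) : m p r ω = m p r η :=
  tsum_congr fun _ => if_congr ⟨fun e => r.trans' e h, fun e => r.trans' e (r.symm' h)⟩ rfl rfl

theorem real {x : ℝ≥0∞} (h0 : x ≠ 0) (h1 : x ≤ 1) :
    ∃ y : ℝ, 0 < y ∧ y ≤ 1 ∧ x = .ofReal y ∧ 0 ≤ -Real.log y := by
  have t : x ≠ ⊤ := ne_top_of_le_ne_top one_ne_top h1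
  have := toReal_pos h0 t
  have u : x.toReal ≤ 1 := by simpa using toReal_mono one_ne_top h1
  exact ⟨_, this, u, (ofReal_toReal t).symm, neg_nonneg.2 (Real.log_nonpos this.le u)⟩

theorem HH_mono (hp : ∑' ω, p ω = 1) {r s : Setoid Ω}
    (h : ∀ ω η, p ω ≠ 0 → p η ≠ 0 → r ω η → s ω η) : HH p s ≤ HH p r :=
  ENNReal.tsum_le_tsum fun ω => by
    by_cases e : p ω = 0
    · simp [e]
    refine mul_le_mul_right (ofReal_le_ofReal (neg_le_neg (Real.log_le_log (toReal_pos (m_ne e r)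
      (ne_top_of_le_ne_top one_ne_top (m_le hp r ω))) (toReal_mono (ne_top_of_le_ne_top one_ne_top
      (m_le hp s ω)) (ENNReal.tsum_le_tsum fun η => ?_))))) _
    by_cases c : p η = 0
    · simp [c]
    · split_ifs with a b <;> first | rfl | exact (b (h _ _ c e a)).elim | simp

theorem pt {A T R S : ℝ≥0∞} (A0 : A ≠ 0) (A1 : A ≤ 1) (T0 : T ≠ 0) (T1 : T ≤ 1) (R0 : R ≠ 0)
    (R1 : R ≤ 1) (S0 : S ≠ 0) (S1 : S ≤ 1) :
    L A + L T + 1 ≤ L R + L S + R * S / (T * A) ∧ L R + L S ≤ L (R * S / T) + L T := by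
  obtain ⟨a, a0, -, rfl, a1⟩ := real A0 A1
  obtain ⟨t, t0, -, rfl, t1⟩ := real T0 T1
  obtain ⟨r, r0, -, rfl, r1⟩ := real R0 R1
  obtain ⟨s, s0, -, rfl, s1⟩ := real S0 S1
  rw [← ofReal_mul r0.le, ← ofReal_mul t0.le, ← ofReal_div_of_pos (by positivity),
    ← ofReal_div_of_pos t0]
  simp only [L, toReal_ofReal a0.le, toReal_ofReal t0.le, toReal_ofReal r0.le, toReal_ofReal s0.le,
    toReal_ofReal (show 0 ≤ r * s / t by positivity)]
  rw [← ofReal_add r1 s1, ← ofReal_add a1 t1, ← ofReal_one, ← ofReal_add (by positivity) one_pos.le,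
    ← ofReal_add (by positivity) (by positivity)]
  have := Real.log_le_sub_one_of_pos (show 0 < r * s / (t * a) by positivity)
  refine ⟨ofReal_le_ofReal ?_, le_trans (ofReal_le_ofReal ?_) ofReal_add_le⟩ <;>
    rw [Real.log_div (by positivity) (by positivity), Real.log_mul r0.ne' s0.ne'] at *
  · rw [Real.log_mul t0.ne' a0.ne'] at this
    linarith
  · linarith

/-- the conditionally independent copy over `t` -/
noncomputable def cp (p : Ω → ℝ≥0∞) (t : Setoid Ω) (x : Ω × Ω) : ℝ≥0∞ :=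
  if t x.2 x.1 then p x.1 * p x.2 / m p t x.1 else 0

theorem cp_fst (hp : ∑' ω, p ω = 1) (t : Setoid Ω) (G : Ω → ℝ≥0∞) :
    ∑' x, cp p t x * G x.1 = ∑' ω, p ω * G ω := by
  rw [ENNReal.tsum_prod']
  refine tsum_congr fun ω => ?_
  have : ∀ η, cp p t (ω, η) = p ω / m p t ω * if t η ω then p η else 0 := fun η => by
    simp only [cp]; split_ifs <;> simp [div_eq_mul_inv, mul_right_comm]
  simp only [this, ENNReal.tsum_mul_right, ENNReal.tsum_mul_left]
  by_cases e : p ω = 0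
  · simp [e]
  · rw [← m, ENNReal.div_mul_cancel (m_ne e t) (ne_top_of_le_ne_top one_ne_top (m_le hp t ω))]

theorem cp_snd (hp : ∑' ω, p ω = 1) (t : Setoid Ω) (G : Ω → ℝ≥0∞) :
    ∑' x, cp p t x * G x.2 = ∑' ω, p ω * G ω := by
  rw [← cp_fst hp t G, ← (Equiv.prodComm Ω Ω).tsum_eq]
  refine tsum_congr fun x => congrArg (· * _) ?_
  simp only [cp, Equiv.prodComm_apply, Prod.snd_swap, Prod.fst_swap]
  split_ifs with a b b
  · rw [m_congr a, mul_comm]
  · exact (b (t.symm' a)).elim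
  · exact (a (t.symm' b)).elim
  · rfl

theorem cp_one (hp : ∑' ω, p ω = 1) (t : Setoid Ω) : ∑' x, cp p t x = 1 := by
  simpa [hp] using cp_fst hp t fun _ => 1

theorem submod (hp : ∑' ω, p ω = 1) {r s t : Setoid Ω} (h1 : r ≤ t) (h2 : s ≤ t) :
    HH p (r ⊓ s) + HH p t ≤ HH p r + HH p s := by
  have k : ∑' ω, p ω * (m p r ω * m p s ω / (m p t ω * m p (r ⊓ s) ω)) ≤ 1 := by
    have : ∀ ω, p ω * (m p r ω * m p s ω / (m p t ω * m p (r ⊓ s) ω)) = ∑' x : Ω × Ω,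
        if r x.1 ω ∧ s x.2 ω then p x.1 * p x.2 * p ω / (m p t ω * m p (r ⊓ s) ω) else 0 := fun ω => by
      rw [ENNReal.tsum_prod', m, m, div_eq_mul_inv, ← ENNReal.tsum_mul_right,
        ← ENNReal.tsum_mul_right, ← ENNReal.tsum_mul_left]
      refine tsum_congr fun η => ?_
      rw [← ENNReal.tsum_mul_left, ← ENNReal.tsum_mul_right, ← ENNReal.tsum_mul_left]
      refine tsum_congr fun ζ => ?_
      by_cases a : r η ω <;> by_cases b : s ζ ω <;> simp [a, b, div_eq_mul_inv]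
      ring
    rw [tsum_congr this, ENNReal.tsum_comm, ← cp_one hp t]
    refine ENNReal.tsum_le_tsum fun x => ?_
    by_cases c : ∃ ω, r x.1 ω ∧ s x.2 ω
    · obtain ⟨ω, a, b⟩ := c
      have : ∀ η, (if r x.1 η ∧ s x.2 η then p x.1 * p x.2 * p η / (m p t η * m p (r ⊓ s) η) else 0)
          = p x.1 * p x.2 / (m p t x.1 * m p (r ⊓ s) ω) * if (r ⊓ s) η ω then p η else 0 := fun η => by
        have e : (r ⊓ s) η ω ↔ r x.1 η ∧ s x.2 η :=
          ⟨fun e => ⟨r.trans' a (r.symm' e.1), s.trans' b (s.symm' e.2)⟩,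
            fun e => ⟨r.trans' (r.symm' e.1) a, s.trans' (s.symm' e.2) b⟩⟩
        by_cases c : r x.1 η ∧ s x.2 η
        · rw [if_pos c, if_pos (e.2 c), m_congr (h1 c.1), m_congr (e.2 c), div_eq_mul_inv,
            div_eq_mul_inv, mul_right_comm]
        · rw [if_neg c, if_neg (mt e.1 c), mul_zero]
      rw [tsum_congr this, ENNReal.tsum_mul_left, ← m, cp,
        if_pos (t.trans' (h2 b) (t.symm' (h1 a))), div_eq_mul_inv, div_eq_mul_inv,
        ENNReal.mul_inv (.inr (ne_top_of_le_ne_top one_ne_top (m_le hp _ _)))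
          (.inl (ne_top_of_le_ne_top one_ne_top (m_le hp _ _))), mul_assoc, mul_assoc _⁻¹]
      exact mul_le_mul_right (mul_le_of_le_one_right' (ENNReal.inv_mul_le_one _)) _
    · simp [show ∀ ω, ¬ (r x.1 ω ∧ s x.2 ω) from fun ω e => c ⟨ω, e⟩]
  rw [← ENNReal.add_le_add_iff_right one_ne_top]
  refine le_trans ?_ (add_le_add_right k _)
  simp only [HH]
  rw [← hp, ← ENNReal.tsum_add, ← ENNReal.tsum_add, ← ENNReal.tsum_add, ← ENNReal.tsum_add]
  refine ENNReal.tsum_le_tsum fun ω => ?_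
  by_cases e : p ω = 0
  · simp [e]
  have := mul_le_mul_right (pt (m_ne e (r ⊓ s)) (m_le hp _ ω) (m_ne e t) (m_le hp _ ω) (m_ne e r)
    (m_le hp _ ω) (m_ne e s) (m_le hp _ ω)).1 (p ω)
  simpa only [mul_add, mul_one] using this

theorem push {q : Ω' → ℝ≥0∞} (φ : Ω' → Ω) (h : ∀ G : Ω → ℝ≥0∞, ∑' x, q x * G (φ x) = ∑' ω, p ω * G ω)
    (r : Setoid Ω) : HH q (r.comap φ) = HH p r := by
  rw [HH, HH, ← h]
  refine tsum_congr fun x => congrArg (_ * L ·) ?_
  simpa [m, Setoid.comap_rel] using h fun η => if r η (φ x) then 1 else 0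

theorem indep (hp : ∑' ω, p ω = 1) {r s t : Setoid Ω} (h1 : r ≤ t) (h2 : s ≤ t) :
    HH p r + HH p s ≤ HH (cp p t) (r.comap Prod.fst ⊓ s.comap Prod.snd) + HH p t := by
  rw [HH, HH, HH, HH, ← cp_fst hp t, ← cp_snd hp t fun ω => L (m p s ω),
    ← cp_fst hp t fun ω => L (m p t ω), ← ENNReal.tsum_add, ← ENNReal.tsum_add]
  refine ENNReal.tsum_le_tsum fun x => ?_
  by_cases e : cp p t x = 0
  · simp [e]
  have ⟨a, b, c⟩ : t x.2 x.1 ∧ p x.1 ≠ 0 ∧ p x.2 ≠ 0 := by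
    unfold cp at e
    split_ifs at e with a <;> simp_all
  have : m (cp p t) (r.comap Prod.fst ⊓ s.comap Prod.snd) x = m p r x.1 * m p s x.2 / m p t x.1 := by
    rw [m, ENNReal.tsum_prod', m, m, div_eq_mul_inv, ← ENNReal.tsum_mul_right,
      ← ENNReal.tsum_mul_right]
    refine tsum_congr fun η => ?_
    rw [← ENNReal.tsum_mul_left, ← ENNReal.tsum_mul_right]
    refine tsum_congr fun ζ => ?_
    rw [if_congr (show (r.comap Prod.fst ⊓ s.comap Prod.snd) (η, ζ) x ↔ r η x.1 ∧ s ζ x.2 from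
      Iff.rfl) rfl rfl]
    by_cases u : r η x.1 <;> by_cases v : s ζ x.2 <;> simp [u, v]
    rw [cp, if_pos (t.trans' (h2 v) (t.trans' a (t.symm' (h1 u)))), m_congr (h1 u), div_eq_mul_inv]
  rw [this, ← mul_add, ← mul_add]
  exact mul_le_mul_right (pt one_ne_zero le_rfl (m_ne b t) (m_le hp _ _) (m_ne b r) (m_le hp _ _)
    (m_ne c s) (m_le hp _ _)).2 _

section vars
open Finset
variable {ι : Type} (A : ι → Ω → ℕ)

def rel (S : Finset ι) : Setoid Ω :=
  ⟨fun ω η => ∀ i ∈ S, A i ω = A i η, fun _ _ _ => rfl, fun a i h => (a i h).symm,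
    fun a b i h => (a i h).trans (b i h)⟩

noncomputable def F (p : Ω → ℝ≥0∞) (S : Finset ι) : ℝ := (HH p (rel A S)).toReal

variable {A} [DecidableEq ι]

theorem rel_union (S T : Finset ι) : rel A (S ∪ T) = rel A S ⊓ rel A T :=
  Setoid.ext fun _ _ => forall_mem_union

theorem fin (hp : ∑' ω, p ω = 1) (h : ∀ i, HH p (rel A {i}) ≠ ⊤) (S : Finset ι) :
    HH p (rel A S) ≠ ⊤ := by
  induction S using Finset.induction with
  | empty => simp [HH, m, show ∀ η ω, rel A ∅ η ω from fun _ _ _ => by simp, hp, L]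
  | insert i S _ ih =>
    rw [insert_eq, rel_union]
    exact ne_top_of_le_ne_top (add_ne_top.2 ⟨h i, ih⟩)
      (le_self_add.trans (submod (t := ⊤) hp le_top le_top))

theorem F_mono (hp : ∑' ω, p ω = 1) (h : ∀ i, HH p (rel A {i}) ≠ ⊤) (S T : Finset ι) (e : S ⊆ T) :
    F A p S ≤ F A p T :=
  toReal_mono (fin hp h T) (HH_mono hp fun _ _ _ _ a i b => a i (e b))

theorem F_sub (hp : ∑' ω, p ω = 1) (h : ∀ i, HH p (rel A {i}) ≠ ⊤) (S T U W : Finset ι)
    (e : U = S ∪ T ∧ W ⊆ S ∧ W ⊆ T) : F A p U + F A p W ≤ F A p S + F A p T := by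
  rw [F, F, F, F, ← toReal_add (fin hp h _) (fin hp h _), ← toReal_add (fin hp h _) (fin hp h _),
    e.1, rel_union]
  exact toReal_mono (add_ne_top.2 ⟨fin hp h _, fin hp h _⟩)
    (submod hp (fun _ _ a i b => a i (e.2.1 b)) fun _ _ a i b => a i (e.2.2 b))

/-- the Zhang-Yeung inequality -/
theorem zy (hp : ∑' ω, p ω = 1) (h : ∀ i, HH p (rel A {i}) ≠ ⊤) (a b c d : ι) :
    F A p {a} + 2 * F A p {c} + 2 * F A p {d} + F A p {a, b} + 4 * F A p {a, c, d} +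
      F A p {b, c, d} ≤ 3 * F A p {c, d} + 3 * F A p {a, c} + 3 * F A p {a, d} + F A p {b, c} +
        F A p {b, d} := by
  let t := rel A {c, d}
  let B : Fin 5 → Ω × Ω → ℕ :=
    ![fun x => A a x.1, fun x => A a x.2, fun x => A b x.2, fun x => A c x.2, fun x => A d x.2]
  have hq := cp_one hp t
  have sp : ∀ x, cp p t x ≠ 0 → A c x.2 = A c x.1 ∧ A d x.2 = A d x.1 := fun x e => by
    have : t x.2 x.1 := by_contra fun n => e (if_neg n)
    exact ⟨this c (by simp), this d (by simp)⟩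
  have cg : ∀ (S : Finset (Fin 5)) (r : Setoid (Ω × Ω)), (∀ x y, A c x.2 = A c x.1 →
      A d x.2 = A d x.1 → A c y.2 = A c y.1 → A d y.2 = A d y.1 → (rel B S x y ↔ r x y)) →
      HH (cp p t) (rel B S) = HH (cp p t) r := fun S r e => le_antisymm
    (HH_mono hq fun x y u v => (e x y (sp x u).1 (sp x u).2 (sp y v).1 (sp y v).2).2)
    (HH_mono hq fun x y u v => (e x y (sp x u).1 (sp x u).2 (sp y v).1 (sp y v).2).1)
  have e1 : ∀ (S : Finset (Fin 5)) (T : Finset ι), (∀ x y : Ω × Ω, A c x.2 = A c x.1 →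
      A d x.2 = A d x.1 → A c y.2 = A c y.1 → A d y.2 = A d y.1 →
      ((∀ i ∈ S, B i x = B i y) ↔ ∀ i ∈ T, A i x.1 = A i y.1)) →
      HH (cp p t) (rel B S) = HH p (rel A T) := fun S T e =>
    (cg S ((rel A T).comap Prod.fst) e).trans (push _ (cp_fst hp t) _)
  have e2 : ∀ (S : Finset (Fin 5)) (T : Finset ι), (∀ x y : Ω × Ω,
      ((∀ i ∈ S, B i x = B i y) ↔ ∀ i ∈ T, A i x.2 = A i y.2)) →
      HH (cp p t) (rel B S) = HH p (rel A T) := fun S T e =>
    (cg S ((rel A T).comap Prod.snd) fun x y _ _ _ _ => e x y).trans (push _ (cp_snd hp t) _)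
  have f0 := e1 {0} {a} (by simp [B])
  have f1 := e2 {1} {a} (by simp [B])
  have f2 := e2 {2} {b} (by simp [B])
  have f3 := e2 {3} {c} (by simp [B])
  have f4 := e2 {4} {d} (by simp [B])
  have h' : ∀ i, HH (cp p t) (rel B {i}) ≠ ⊤ := by
    simp only [Fin.forall_fin_succ, IsEmpty.forall_iff, and_true]
    exact ⟨f0 ▸ h _, f1 ▸ h _, f2 ▸ h _, f3 ▸ h _, f4 ▸ h _⟩
  have i := indep hp (r := rel A {a, c, d}) (s := rel A {a, b, c, d}) (t := t)
    (fun _ _ e i b => e i (mem_insert_of_mem b))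
    fun _ _ e i b => e i (mem_insert_of_mem (mem_insert_of_mem b))
  rw [← cg {0, 1, 2, 3, 4} _ fun x y => by
    change _ → _ → _ → _ → ((∀ i ∈ _, B i x = B i y) ↔
      (∀ i ∈ _, A i x.1 = A i y.1) ∧ ∀ i ∈ _, A i x.2 = A i y.2)
    simp [B]; grind] at i
  replace i := toReal_mono (add_ne_top.2 ⟨fin hq h' _, fin hp h _⟩) i
  rw [toReal_add (fin hp h _) (fin hp h _), toReal_add (fin hq h' _) (fin hp h _)] at i
  have s := F_sub hq h'
  have s1 := s {0, 3} {2, 3} {0, 2, 3} {3} (by decide)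
  have s2 := s {0, 4} {2, 4} {0, 2, 4} {4} (by decide)
  have s3 := s {0, 2, 3} {0, 2, 4} {0, 2, 3, 4} {0, 2} (by decide)
  have s4 := s {0, 3} {1, 3} {0, 1, 3} {3} (by decide)
  have s5 := s {0, 4} {1, 4} {0, 1, 4} {4} (by decide)
  have s6 := s {0, 1, 3} {0, 1, 4} {0, 1, 3, 4} {0, 1} (by decide)
  have s7 := s {0, 2, 3, 4} {1, 2, 3, 4} {0, 1, 2, 3, 4} {2, 3, 4} (by decide)
  have s8 := s {0, 1, 3, 4} {1, 2, 3, 4} {0, 1, 2, 3, 4} {1, 3, 4} (by decide)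
  have s9 := s {0, 1} {0, 2} {0, 1, 2} {0} (by decide)
  have s10 := s {0, 1, 2} {1, 2, 3, 4} {0, 1, 2, 3, 4} {1, 2} (by decide)
  simp only [F, f0, f3, f4, e1 {0, 3} {a, c} (by simp [B]; grind),
    e1 {0, 4} {a, d} (by simp [B]; grind), e2 {2, 3} {b, c} (by simp [B]),
    e2 {2, 4} {b, d} (by simp [B]), e2 {1, 3} {a, c} (by simp [B]), e2 {1, 4} {a, d} (by simp [B]),
    e2 {1, 2, 3, 4} {a, b, c, d} (by simp [B]), e2 {2, 3, 4} {b, c, d} (by simp [B]),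
    e2 {1, 3, 4} {a, c, d} (by simp [B]), e2 {1, 2} {a, b} (by simp [B])] at s1 s2 s3 s4 s5 s6 s7 s8 s9 s10 ⊢
  linarith

end vars

end Pool.Agent.H23.Ent
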