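import Mathlib

set_option autoImplicit false

namespace Pool.Agent.H23.Eq
open Finset

variable (adj mem : ℕ → ℕ → Bool) (w : ℕ → ℕ) (n N lo : ℕ)

def ok (t : ℕ) (a : List ℕ) : Bool :=
  t != 0 || (List.range N).any fun j => (List.range n).all fun i => a.contains i == mem j i

def go : ℕ → ℕ → List ℕ → Bool
  | 0, t, a => ok mem n N t a
  | k + 1, t, a => bif decide (t < lo) then ok mem n N t a else
      go k t a && (decide (t < w k) || go k (t - w k) (k :: a))

def go2 : ℕ → List ℕ → Bool
  | 0, a => (List.range N).any fun j => a.all (mem j)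
  | k + 1, a => go2 k a && (!a.all (adj k) || go2 k (k :: a))

variable {adj mem w n N lo}

theorem go_ok (h0 : 0 < lo) (k : ℕ) : ∀ t a, go mem w n N lo k t a = true → (∀ i < k, lo ≤ w i) →
    ∀ S ⊆ range k, ∑ i ∈ S, w i = t → ∃ j < N, ∀ i < n, (i ∈ a ∨ i ∈ S) ↔ mem j i = true := by
  have z : ∀ a, ok mem n N 0 a = true → ∃ j < N, ∀ i < n, (i ∈ a ∨ i ∈ (∅ : Finset ℕ)) ↔
      mem j i = true := fun a h => by
    simp only [ok, bne_self_eq_false, Bool.false_or, List.any_eq_true, List.all_eq_true,
      List.mem_range, beq_iff_eq] at h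
    obtain ⟨j, x, y⟩ := h
    exact ⟨j, x, fun i b => by simp [← y i b]⟩
  induction k with
  | zero =>
    intro t a h _ S s e
    obtain rfl := subset_empty.1 s
    exact z a (by simpa [← e, go] using h)
  | succ k ih =>
    intro t a h p S s e
    rw [go] at h
    by_cases c : t < lo
    · obtain rfl : S = ∅ := eq_empty_of_forall_notMem fun i b => by
        have := single_le_sum (f := w) (fun _ _ => Nat.zero_le _) b
        have := p i (mem_range.1 (s b))
        omega
      obtain rfl : 0 = t := e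
      exact z a (by simpa [c] using h)
    simp only [c, decide_false, cond_false, Bool.and_eq_true, Bool.or_eq_true, decide_eq_true_eq] at h
    have q : S.erase k ⊆ range k := fun i b => by
      have := mem_range.1 (s (mem_erase.1 b).2)
      have := (mem_erase.1 b).1
      exact mem_range.2 (by omega)
    by_cases b : k ∈ S
    · have := add_sum_erase S w b
      obtain ⟨j, x, y⟩ := ih _ _ (h.2.resolve_left (by omega)) (fun i d => p i (by omega)) _ q
        (by omega)
      refine ⟨j, x, fun i d => Iff.trans ?_ (y i d)⟩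
      by_cases f : i = k <;> simp [f, b]
    · rw [erase_eq_of_notMem b] at q
      exact ih _ _ h.1 (fun i d => p i (by omega)) _ q e

theorem go2_ok (k : ℕ) : ∀ a, go2 adj mem N k a = true → ∀ S ⊆ range k,
    (∀ x ∈ S, ∀ y ∈ a, adj x y = true) → (∀ x ∈ S, ∀ y ∈ S, x ≠ y → adj x y = true) →
      ∃ j < N, ∀ i, i ∈ a ∨ i ∈ S → mem j i = true := by
  induction k with
  | zero =>
    intro a h S s _ _
    obtain rfl := subset_empty.1 s
    simpa [go2] using h
  | succ k ih =>
    intro a h S s e1 e2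
    simp only [go2, Bool.and_eq_true, Bool.or_eq_true, Bool.not_eq_true'] at h
    have q : S.erase k ⊆ range k := fun i b => by
      have := mem_range.1 (s (mem_erase.1 b).2)
      have := (mem_erase.1 b).1
      exact mem_range.2 (by omega)
    by_cases b : k ∈ S
    · obtain ⟨j, x, y⟩ := ih _ (h.2.resolve_left (by simpa using e1 k b)) _ q (fun x c y d => by
        obtain rfl | d := List.mem_cons.1 d
        exacts [e2 _ (mem_erase.1 c).2 _ b (mem_erase.1 c).1, e1 _ (mem_erase.1 c).2 _ d])
        fun x c y d => e2 _ (mem_erase.1 c).2 _ (mem_erase.1 d).2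
      refine ⟨j, x, fun i d => y i ?_⟩
      by_cases f : i = k <;> simp [f]
      exact d
    · rw [erase_eq_of_notMem b] at q
      exact ih _ h.1 _ q e1 e2

def A (mem : ℕ → ℕ → Bool) (n j : ℕ) : Finset (Fin n) := univ.filter fun i => mem j i = true

variable {G : SimpleGraph (Fin n)}

theorem mx (hG : ∀ x y : Fin n, x ≠ y → (¬ G.Adj x y ↔ adj x y = true))
    (c1 : go2 adj mem N n [] = true)
    (c3 : ∀ j < N, ∀ x : Fin n, mem j x = true → ∀ y : Fin n, mem j y = true → x ≠ y → adj x y = true)
    (c4 : ∀ j < N, ∀ x : Fin n, mem j x = true ∨ ∃ y : Fin n, mem j y = true ∧ adj x y = false)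
    (S : Finset (Fin n)) :
    Maximal (fun s : Finset (Fin n) => G.IsIndepSet (s : Set (Fin n))) S ↔ ∃ j < N, S = A mem n j := by
  have i : ∀ j < N, G.IsIndepSet (A mem n j : Set (Fin n)) := fun j a x b y c d =>
    (hG x y d).2 (c3 j a x (by simpa [A] using b) y (by simpa [A] using c) d)
  constructor
  · intro h
    obtain ⟨j, a, b⟩ := go2_ok n [] c1 (S.map Fin.valEmbedding) (fun x c => by
      obtain ⟨y, -, rfl⟩ := mem_map.1 c
      exact mem_range.2 y.2) (by simp) fun x c y d e => by
        obtain ⟨x, c', rfl⟩ := mem_map.1 c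
        obtain ⟨y, d', rfl⟩ := mem_map.1 d
        have f : x ≠ y := fun f => e (f ▸ rfl)
        exact (hG x y f).1 (h.1 c' d' f)
    have s : S ≤ A mem n j := fun x c => by
      simpa [A] using b x (.inr (mem_map_of_mem _ c))
    exact ⟨j, a, le_antisymm s (h.2 (i j a) s)⟩
  · rintro ⟨j, a, rfl⟩
    refine ⟨i j a, fun T t s x b => ?_⟩
    obtain c | ⟨y, c, d⟩ := c4 j a x
    · simpa [A] using c
    · by_cases f : x = y
      · simpa [A, f] using c
      · have := (hG x y f).1 (t b (s (by simpa [A] using c)) f)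
        simp [d] at this

theorem equi {t : ℕ} (h0 : 0 < lo) (ht : 0 < t) (c2 : go mem w n N lo n t [] = true)
    (c5 : ∀ j < N, ∑ i ∈ A mem n j, w i = t) (c6 : ∀ i < n, lo ≤ w i) :
    ∃ φ : Fin n → ℝ, (∀ v, 0 < φ v) ∧ ∀ S : Finset (Fin n),
      (∃ j < N, S = A mem n j) ↔ ∑ v ∈ S, φ v = 1 := by
  have p : (0 : ℝ) < t := by exact_mod_cast ht
  refine ⟨fun v => w v / t, fun v => div_pos (by exact_mod_cast h0.trans_le (c6 v v.2)) p, fun S => ?_⟩
  rw [← sum_div, div_eq_one_iff_eq p.ne', ← Nat.cast_sum, Nat.cast_inj]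
  refine ⟨by rintro ⟨j, a, rfl⟩; exact c5 j a, fun h => ?_⟩
  obtain ⟨j, a, b⟩ := go_ok h0 n t [] c2 c6 (S.map Fin.valEmbedding) (fun x c => by
    obtain ⟨y, -, rfl⟩ := mem_map.1 c
    exact mem_range.2 y.2) (by simpa using h)
  refine ⟨j, a, ext fun x => ?_⟩
  simpa [A, Fin.val_inj] using b x x.2

theorem odd {M : ℕ} (hM : Odd M) (e : ∀ x : Fin n, Even #{j ∈ range M | mem j x = true})
    (K : Finset (Fin n)) (h : ∀ j < M, #(K ∩ A mem n j) = 1) : False := by
  have : ∑ j ∈ range M, #(K ∩ A mem n j) = ∑ x ∈ K, #{j ∈ range M | mem j x = true} := by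
    simp only [card_filter]
    rw [sum_comm]
    refine sum_congr rfl fun j _ => ?_
    rw [← card_filter]
    congr 1
    ext x
    simp [A]
  rw [sum_congr rfl fun j a => h j (mem_range.1 a)] at this
  have := this ▸ even_sum _ fun x _ => e x
  simp at this
  exact Nat.not_even_iff_odd.2 hM this

end Pool.Agent.H23.Eq
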