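import Pool.Agent.H23.Eq1

set_option autoImplicit false

namespace Pool.Agent.H23.Eq
open Finset

theorem gp_equi {n N : ℕ} (H : SimpleGraph (Fin n)) (K : Fin N → Finset (Fin n)) (hN : 0 < N)
    (cl : ∀ j, ∀ x ∈ K j, ∀ y ∈ K j, x ≠ y → H.Adj x y)
    (st : ∀ j, ∃ x ∈ K j, ∀ y, H.Adj x y → y ∈ K j)
    (ce : ∀ x y, H.Adj x y → ∃ j, x ∈ K j ∧ y ∈ K j) (cv : ∀ x, ∃ j, x ∈ K j) :
    ∃ φ : Fin n → ℝ, (∀ v, 0 < φ v) ∧ ∀ S : Finset (Fin n),
      Maximal (fun s : Finset (Fin n) => H.IsIndepSet (s : Set (Fin n))) S ↔ ∑ v ∈ S, φ v = 1 := by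
  have p : 0 < ∑ j : Fin N, (n + 2) ^ j.val :=
    sum_pos (fun _ _ => by positivity) ⟨⟨0, hN⟩, mem_univ _⟩
  have p' : (0 : ℝ) < (∑ j : Fin N, (n + 2) ^ j.val : ℕ) := by exact_mod_cast p
  refine ⟨fun v => (∑ j : Fin N, if v ∈ K j then (n + 2) ^ j.val else 0 : ℕ) /
    (∑ j : Fin N, (n + 2) ^ j.val : ℕ), fun v => div_pos ?_ p', fun S => ?_⟩
  · obtain ⟨j, a⟩ := cv v
    exact_mod_cast sum_pos' (fun _ _ => Nat.zero_le _) ⟨j, mem_univ _, by simp [a]⟩
  rw [← sum_div, div_eq_one_iff_eq p'.ne', ← Nat.cast_sum, Nat.cast_inj, sum_comm,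
    sum_congr rfl fun j _ => show _ = #(S ∩ K j) * (n + 2) ^ j.val by
      rw [← sum_filter, sum_const, filter_mem_eq_inter, smul_eq_mul]]
  refine ⟨fun h => sum_congr rfl fun j _ => ?_, fun h => ?_⟩
  · have : (S ∩ K j).Nonempty := by
      obtain ⟨x, a, b⟩ := st j
      by_contra c
      have d : ∀ y ∈ S, ¬ H.Adj x y := fun y e f => c ⟨y, mem_inter.2 ⟨e, b y f⟩⟩
      exact c ⟨x, mem_inter.2 ⟨h.2 (y := insert x S) (by
        simp only [coe_insert]
        exact Set.pairwise_insert.2 ⟨h.1, fun y e _ => ⟨d y e, fun f => d y e f.symm⟩⟩)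
          (subset_insert _ _) (mem_insert_self _ _), a⟩⟩
    obtain ⟨x, a⟩ := this
    rw [card_eq_one.2 ⟨x, eq_singleton_iff_unique_mem.2 ⟨a, fun y b => ?_⟩⟩, one_mul]
    by_contra o
    exact h.1 (mem_inter.1 b).1 (mem_inter.1 a).1 o (cl j _ (mem_inter.1 b).2 _ (mem_inter.1 a).2 o)
  · have l : ∀ j, #(S ∩ K j) < n + 2 := fun j => by
      have := card_le_univ (S ∩ K j)
      simp at this
      omega
    have e : (fun j => (⟨_, l j⟩ : Fin (n + 2))) = fun _ => 1 :=
      finFunctionFinEquiv.injective (Fin.ext (by simpa [finFunctionFinEquiv_apply] using h))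
    have e : ∀ j, #(S ∩ K j) = 1 := fun j => by simpa using congrArg Fin.val (congrFun e j)
    refine ⟨fun x a y b c d => ?_, fun T t s x a => ?_⟩
    · obtain ⟨j, f, g⟩ := ce x y d
      exact c (card_le_one.1 (e j).le _ (mem_inter.2 ⟨a, f⟩) _ (mem_inter.2 ⟨b, g⟩))
    · obtain ⟨j, f⟩ := cv x
      obtain ⟨y, g⟩ := card_pos.1 ((e j).symm ▸ one_pos : 0 < #(S ∩ K j))
      by_contra o
      have c : x ≠ y := fun c => o (c ▸ (mem_inter.1 g).1)
      exact t a (s (mem_inter.1 g).1) c (cl j _ f _ (mem_inter.1 g).2 c)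

def mk (i : ℕ) : ℕ := 319149194436133091683982023771258340770775872849182595439887449938080443989597530631705039340270204833118905619244452051263825033889027 / 256 ^ i % 256
def w (i : ℕ) : ℕ := 553683552809086704631088707477588896291687723570770306553261656989477544419674222402299477587424624223891552347122227061117693980467194534795481755802773843086214540591565736996529409405472609681560535104262179477047804445686161838091258869564026626166533104421602658870906672578025533162604879407386651924929790702866429176733175899461171349549661668293750805078647238795482668716933388690727889508209003233596728721804215765712992656718031324218992698097787025200510617549134649961040462228646213762177299947443544139798605874434774575518804326276151355320775158808477825301764614983293084308333753278223318301482976720989422574214606051019338407327005602163247790067475 / 1099511627776 ^ i % 1099511627776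
def adj (i j : ℕ) : Bool := i != j && ((decide (i < 21) && decide (j < 21) && mk i &&& mk j != 0) ||
  mk i &&& mk j == mk i || mk i &&& mk j == mk j)
def mem (j i : ℕ) : Bool := bif decide (j < 7) then decide (i < 21) && (mk i).testBit j else
  mk i &&& mk (j + 14) == mk i

def H : SimpleGraph (Fin 56) where
  Adj x y := adj x y = true
  symm := ⟨by decide +kernel⟩
  loopless := ⟨by decide +kernel⟩

theorem mH (S : Finset (Fin 56)) : Maximal (fun s : Finset (Fin 56) => Hᶜ.IsIndepSet (s : Set (Fin 56))) S ↔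
    ∃ j < 42, S = A mem 56 j := mx (adj := adj) (fun x y a => by simp [H, a])
      (by decide +kernel) (by decide +kernel) (by decide +kernel) S

theorem e1 : ∃ φ : Fin 56 → ℝ, (∀ v, 0 < φ v) ∧ ∀ S : Finset (Fin 56),
    (∃ j < 42, S = A mem 56 j) ↔ ∑ v ∈ S, φ v = 1 :=
  equi (w := w) (lo := 997091214) (t := 6000000000) (by omega) (by omega) (by decide +kernel)
    (by decide +kernel) (by decide +kernel)

theorem e2 : ∃ φ : Fin 56 → ℝ, (∀ v, 0 < φ v) ∧ ∀ S : Finset (Fin 56),
    Maximal (fun s : Finset (Fin 56) => H.IsIndepSet (s : Set (Fin 56))) S ↔ ∑ v ∈ S, φ v = 1 := by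
  refine gp_equi H (fun j : Fin 35 => A mem 56 (j + 7)) (by omega) ?_ ?_ ?_ ?_ <;>
    simp only [A, H, mem_filter, mem_univ, true_and] <;> decide +kernel

theorem main : ¬ (∀ (V : Type) [Fintype V] (G : SimpleGraph V),
      (∀ H : SimpleGraph V, (H = G ∨ H = Gᶜ) →
        ∃ φ : V → ℝ, (∀ v, 0 < φ v) ∧
          ∀ S : Finset V,
            (Maximal (fun s : Finset V => H.IsIndepSet (s : Set V)) S ↔ ∑ v ∈ S, φ v = 1)) →
      (∀ H : SimpleGraph V, (H = G ∨ H = Gᶜ) →
        ∃ n : ℕ, ∃ U : V → Finset (Fin n),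
          (∀ v, (U v).Nonempty) ∧
          (∀ u v, u ≠ v → (H.Adj u v ↔ ¬ Disjoint (U u) (U v))) ∧
          ∀ S : Finset V, Maximal (fun s : Finset V => H.IsIndepSet (s : Set V)) S →
            (∀ u ∈ S, ∀ v ∈ S, u ≠ v → Disjoint (U u) (U v)) ∧
            S.biUnion U = Finset.univ)) := fun h => by
  obtain ⟨n, U, a, -, b⟩ := h _ H (by
    rintro _ (rfl | rfl)
    · exact e2
    · obtain ⟨φ, a, b⟩ := e1
      exact ⟨φ, a, fun S => (mH S).trans (b S)⟩) _ (.inr rfl)
  obtain ⟨p, -⟩ := a 0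
  refine odd (M := 7) (mem := mem) (by decide) (by decide +kernel) (univ.filter fun x => p ∈ U x)
    fun j i => ?_
  obtain ⟨c, d⟩ := b _ ((mH _).2 ⟨j, by omega, rfl⟩)
  obtain ⟨x, x1, x2⟩ := mem_biUnion.1 (d ▸ mem_univ p)
  refine card_eq_one.2 ⟨x, eq_singleton_iff_unique_mem.2 ⟨by simp [x1, x2], fun y z => ?_⟩⟩
  by_contra o
  simp only [mem_inter, mem_filter, mem_univ, true_and] at z
  exact disjoint_left.1 (c y z.2 x x1 o) z.1 x2

end Pool.Agent.H23.Eq
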