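import Mathlib

set_option autoImplicit false

namespace Pool.Agent.H23.F3
open List

variable {τ : Type}

section
variable (a b : τ → ℕ)

def dl (l : List τ) : ℤ := (l.map fun t => (b t : ℤ) - a t).sum

def V : ℤ → List τ → Prop
  | _, [] => True
  | g, t :: l => (a t : ℤ) ≤ g ∧ V (g + (b t - a t)) l

def G : ℤ → List (List τ × ℕ) → Prop
  | _, [] => True
  | g, p :: P => V a b g p.1 ∧ V a b (g + p.2 * dl a b p.1 - dl a b p.1) p.1 ∧
      G (g + p.2 * dl a b p.1) P

def Bd (K : ℤ) : ℤ → List τ → Prop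
  | _, [] => True
  | g, t :: l => g < K ∧ Bd K (g + (b t - a t)) l

end

def ex (P : List (List τ × ℕ)) : List τ := P.flatMap fun p => (replicate p.2 p.1).flatten

variable {a b a' b' : τ → ℕ} {g g' s K K' : ℤ} {l l' : List τ} {p : ℕ}

@[simp] theorem dl_nil : dl a b [] = 0 := rfl
@[simp] theorem dl_cons (t : τ) : dl a b (t :: l) = b t - a t + dl a b l := by simp [dl]
@[simp] theorem dl_app : dl a b (l ++ l') = dl a b l + dl a b l' := by simp [dl]
theorem dl_perm (h : l ~ l') : dl a b l = dl a b l' := (h.map _).sum_eq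
theorem dl_neg : dl b a l = - dl a b l := by induction l <;> simp [*]; ring
@[simp] theorem dl_rev : dl a b l.reverse = dl a b l := dl_perm (reverse_perm _)
@[simp] theorem dl_rep (x : ℕ) : dl a b (replicate x l).flatten = x * dl a b l := by
  induction x <;> simp [replicate_succ, *]; ring

theorem dl_le (hb : ∀ t, b t ≤ p) : dl a b l ≤ (p * l.length : ℕ) := by
  induction l with
  | nil => simp
  | cons t l ih => have := hb t; simp [mul_add] at *; omega

theorem dl_ge (ha : ∀ t, a t ≤ p) : -(p * l.length : ℕ) ≤ dl a b l := by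
  have := dl_le (a := b) (l := l) ha
  rw [dl_neg] at this; omega

theorem V.mono (h : V a b g l) (e : g ≤ g') : V a b g' l := by
  induction l generalizing g g' with
  | nil => trivial
  | cons t l ih => exact ⟨h.1.trans e, ih h.2 (by omega)⟩

theorem V_app : V a b g (l ++ l') ↔ V a b g l ∧ V a b (g + dl a b l) l' := by
  induction l generalizing g with
  | nil => simp [V]
  | cons t l ih => simp [V, ih, and_assoc, add_assoc]

theorem Bd_app : Bd a b K g (l ++ l') ↔ Bd a b K g l ∧ Bd a b K (g + dl a b l) l' := by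
  induction l generalizing g with
  | nil => simp [Bd]
  | cons t l ih => simp [Bd, ih, and_assoc, add_assoc]

theorem Bd.mono (h : Bd a b K g l) (e : K ≤ K') : Bd a b K' g l := by
  induction l generalizing g with
  | nil => trivial
  | cons t l ih => exact ⟨h.1.trans_le e, ih h.2⟩

theorem V_big (ha : ∀ t, a t ≤ p) (h : ((p * l.length : ℕ) : ℤ) ≤ g) : V a b g l := by
  induction l generalizing g with
  | nil => trivial
  | cons t l ih =>
    have := ha t
    simp only [length_cons, mul_add] at h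
    exact ⟨by omega, ih (by omega)⟩

theorem V.nonneg (h : V a b g l) (e : 0 ≤ g) : 0 ≤ g + dl a b l := by
  induction l generalizing g with
  | nil => simpa
  | cons t l ih => have := ih h.2 (by have := h.1; omega); simp; omega

theorem V.rev (h : V a b g l) : V b a (g + dl a b l) l.reverse := by
  induction l generalizing g with
  | nil => trivial
  | cons t l ih =>
    rw [reverse_cons, V_app, dl_rev, dl_neg (a := a), dl_cons, ← add_assoc]
    exact ⟨ih h.2, by have := h.1; omega, trivial⟩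

theorem ex_cons (q : List τ × ℕ) (P : List (List τ × ℕ)) :
    ex (q :: P) = (replicate q.2 q.1).flatten ++ ex P := rfl

theorem G_app {P Q : List (List τ × ℕ)} :
    G a b g (P ++ Q) ↔ G a b g P ∧ G a b (g + dl a b (ex P)) Q := by
  induction P generalizing g with
  | nil => simp [G, ex]
  | cons q P ih => simp [G, ih, ex_cons, and_assoc, add_assoc]

theorem G.sound {P : List (List τ × ℕ)} (h : G a b g P) : V a b g (ex P) := by
  induction P generalizing g with
  | nil => trivial
  | cons q P ih =>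
    obtain ⟨w, x⟩ := q
    rw [ex_cons, V_app, dl_rep]
    refine ⟨?_, ih h.2.2⟩
    obtain ⟨h1, h2, -⟩ := h
    simp only at h1 h2 ⊢
    clear ih
    induction x generalizing g with
    | zero => trivial
    | succ x ih =>
      rw [replicate_succ, flatten_cons, V_app]
      refine ⟨h1, ?_⟩
      cases x with
      | zero => trivial
      | succ x =>
        refine ih ?_ (h2.mono (by push_cast; linarith))
        rcases le_total 0 (dl a b w) with e | e
        · exact h1.mono (by omega)
        · exact h2.mono (by push_cast; nlinarith)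

def NF (a b a' b' : τ → ℕ) (Λ N : ℕ) (g s : ℤ) (l : List τ) : Prop :=
  ∃ P, G a b g P ∧ G a' b' s P ∧ ex P ~ l ∧ P.length ≤ N ∧ ∀ q ∈ P, q.1.length ≤ Λ

variable {Λ N N' : ℕ}

theorem NF.app (h : NF a b a' b' Λ N g s l)
    (h' : NF a b a' b' Λ N' (g + dl a b l) (s + dl a' b' l) l') :
    NF a b a' b' Λ (N + N') g s (l ++ l') := by
  obtain ⟨P, h1, h2, h3, h4, h5⟩ := h
  obtain ⟨Q, k1, k2, k3, k4, k5⟩ := h'
  refine ⟨P ++ Q, G_app.2 ⟨h1, by rwa [dl_perm h3]⟩, G_app.2 ⟨h2, by rwa [dl_perm h3]⟩,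
    by rw [ex, flatMap_append]; exact h3.append k3, by simp; omega, forall_mem_append.2 ⟨h5, k5⟩⟩

theorem NF.of (h : NF a b a' b' Λ N g s l) (e : l ~ l') (e' : N ≤ N') : NF a b a' b' Λ N' g s l' :=
  h.imp fun _ h => ⟨h.1, h.2.1, h.2.2.1.trans e, h.2.2.2.1.trans e', h.2.2.2.2⟩

theorem NF.swap (h : NF a b a' b' Λ N g s l) : NF a' b' a b Λ N s g l :=
  h.imp fun _ h => ⟨h.2.1, h.1, h.2.2⟩

theorem NF.nil : NF a b a' b' Λ N g s [] := ⟨[], trivial, trivial, .refl _, by simp, by simp⟩

theorem short (hΛ : 1 ≤ Λ) (h : V a b g l) (h' : V a' b' s l) : NF a b a' b' Λ l.length g s l := by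
  induction l generalizing g s with
  | nil => exact .nil
  | cons t l ih =>
    refine (NF.app (l := [t]) (N := 1) ⟨[([t], 1)], ?_, ?_, by simp [ex], le_rfl, by simpa⟩
      (ih ?_ ?_)).of (.refl _) (by simp; omega)
    · simp [G, V, h.1]
    · simp [G, V, h'.1]
    · simpa using h.2
    · simpa using h'.2

def Sg (a b : τ → ℕ) (C : List (List τ)) : Prop :=
  (∀ w ∈ C, 0 ≤ dl a b w) ∨ ∀ w ∈ C, dl a b w ≤ 0

theorem dl_pos {C : List (List τ)} (h : ∀ w ∈ C, 0 ≤ dl a b w) : 0 ≤ dl a b C.flatten := by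
  induction C with
  | nil => simp
  | cons w C ih => simp at h ⊢; have := ih h.2; omega

theorem dl_np {C : List (List τ)} (h : ∀ w ∈ C, dl a b w ≤ 0) : dl a b C.flatten ≤ 0 := by
  have := dl_pos (a := b) (b := a) (C := C) fun w m => by rw [dl_neg]; have := h w m; omega
  rw [dl_neg] at this; omega

theorem Sg.sub {C C' : List (List τ)} (h : Sg a b C) (e : C' ⊆ C) : Sg a b C' :=
  h.imp (fun h w m => h w (e m)) fun h w m => h w (e m)

theorem Sg.two {C C1 C2 : List (List τ)} (h : Sg a b C) (e : C1 ⊆ C) (e' : C2 ⊆ C) :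
    (0 ≤ dl a b C1.flatten ∧ 0 ≤ dl a b C2.flatten) ∨
      (dl a b C1.flatten ≤ 0 ∧ dl a b C2.flatten ≤ 0) :=
  h.imp (fun h => ⟨dl_pos fun w m => h w (e m), dl_pos fun w m => h w (e' m)⟩)
    fun h => ⟨dl_np fun w m => h w (e m), dl_np fun w m => h w (e' m)⟩

theorem blk (W C : List (List τ)) (h : ∀ w ∈ C, w ∈ W ∧ w.length ≤ Λ) (s1 : Sg a b C)
    (s2 : Sg a' b' C) (v1 : ∀ w ∈ C, V a b (min g (g + dl a b C.flatten)) w)
    (v2 : ∀ w ∈ C, V a' b' (min s (s + dl a' b' C.flatten)) w) :
    NF a b a' b' Λ W.length g s C.flatten := by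
  classical
  induction W generalizing C g s with
  | nil =>
    obtain rfl : C = [] := eq_nil_iff_forall_not_mem.2 fun w m => by simpa using (h w m).1
    exact .nil
  | cons w W ih =>
    by_cases m : w ∈ C
    swap
    · exact (ih C (fun u k => ⟨(mem_cons.1 (h u k).1).resolve_left fun e => m (e ▸ k), (h u k).2⟩)
        s1 s2 v1 v2).of (.refl _) (by simp)
    obtain ⟨x, e⟩ : ∃ x, C.count w = x + 1 := ⟨_, (Nat.succ_pred_eq_of_pos (count_pos_iff.2 m)).symm⟩
    have pm : replicate (x + 1) w ++ C.filter (fun u => !(u == w)) ~ C := by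
      rw [← e, ← filter_beq]; exact filter_append_perm _ _
    have key : ∀ {a b : τ → ℕ} {g : ℤ}, Sg a b C →
        (∀ u ∈ C, V a b (min g (g + dl a b C.flatten)) u) → G a b g [(w, x + 1)] ∧
        ∀ u ∈ C.filter (fun u => !(u == w)), V a b (min (g + dl a b (replicate (x + 1) w).flatten)
          (g + dl a b (replicate (x + 1) w).flatten +
            dl a b (C.filter (fun u => !(u == w))).flatten)) u := by
      intro a b g s v
      have e1 := dl_perm (a := a) (b := b) pm.flatten
      have e2 : (0 ≤ dl a b w ∧ 0 ≤ dl a b (C.filter (fun u => !(u == w))).flatten ∧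
          0 ≤ x * dl a b w) ∨ (dl a b w ≤ 0 ∧ dl a b (C.filter (fun u => !(u == w))).flatten ≤ 0 ∧
          x * dl a b w ≤ 0) := s.imp (fun s => ⟨s w m, dl_pos fun u k => s u (mem_of_mem_filter k),
          mul_nonneg (by omega) (s w m)⟩) fun s => ⟨s w m, dl_np fun u k => s u (mem_of_mem_filter k),
          mul_nonpos_of_nonneg_of_nonpos (by omega) (s w m)⟩
      simp only [flatten_append, dl_app, dl_rep, Nat.cast_add, add_mul, Nat.cast_one, one_mul,
        G] at e1 ⊢
      generalize (x : ℤ) * dl a b w = y at *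
      exact ⟨⟨(v w m).mono (by omega), (v w m).mono (by omega), trivial⟩,
        fun u k => (v u (mem_of_mem_filter k)).mono (by omega)⟩
    refine (NF.app (N := 1) ⟨[(w, x + 1)], (key s1 v1).1, (key s2 v2).1, by simp [ex], le_rfl,
      by simpa using (h w m).2⟩ (ih _ (fun u k => ?_) (s1.sub (filter_subset_self _))
      (s2.sub (filter_subset_self _)) (key s1 v1).2 (key s2 v2).2)).of
      (by rw [← flatten_append]; exact pm.flatten) (by simp; omega)
    simp only [mem_filter, Bool.not_eq_eq_eq_not, Bool.not_true, beq_eq_false_iff_ne] at k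
    exact ⟨(mem_cons.1 (h u k.1).1).resolve_left k.2, (h u k.1).2⟩

theorem gen (W C : List (List τ)) (h : ∀ w ∈ C, w ∈ W ∧ w.length ≤ Λ) (s1 : Sg a b C)
    (v1 : ∀ w ∈ C, V a b (min g (g + dl a b C.flatten)) w)
    (v2 : ∀ w ∈ C, V a' b' (min s (s + dl a' b' C.flatten)) w) :
    NF a b a' b' Λ (W.length + W.length) g s C.flatten := by
  have pm := filter_append_perm (fun w => decide (0 ≤ dl a' b' w)) C
  generalize e1 : C.filter _ = C1 at pm
  generalize e2 : C.filter _ = C2 at pm
  have m1 : ∀ w ∈ C1, 0 ≤ dl a' b' w := fun w m => by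
    rw [← e1] at m; simpa using (mem_filter.1 m).2
  have m2 : ∀ w ∈ C2, dl a' b' w ≤ 0 := fun w m => by
    rw [← e2] at m
    have := (mem_filter.1 m).2
    simp at this; omega
  have c1 : C1 ⊆ C := e1 ▸ filter_subset_self _
  have c2 : C2 ⊆ C := e2 ▸ filter_subset_self _
  have f1 := dl_perm (a := a) (b := b) pm.flatten
  have f2 := dl_perm (a := a') (b := b') pm.flatten
  have := s1.two c1 c2
  have := dl_pos m1
  have := dl_np m2
  simp only [flatten_append, dl_app] at f1 f2
  refine ((blk W C1 (fun w m => h w (c1 m)) (s1.sub c1) (.inl m1) (fun w m => ?_) fun w m => ?_).app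
    (blk W C2 (fun w m => h w (c2 m)) (s1.sub c2) (.inr m2) (fun w m => ?_) fun w m => ?_)).of
    (by rw [← flatten_append]; exact pm.flatten) le_rfl
  · exact (v1 w (c1 m)).mono (by omega)
  · exact (v2 w (c1 m)).mono (by omega)
  · exact (v1 w (c2 m)).mono (by omega)
  · exact (v2 w (c2 m)).mono (by omega)

theorem pig {β : Type} (S : Finset β) (f : ℕ → β) (n : ℕ) (h : S.card ≤ n) (m : ∀ i ≤ n, f i ∈ S) :
    ∃ i j, i < j ∧ j ≤ n ∧ f i = f j := by
  obtain ⟨i, a, j, b, c, d⟩ := Finset.exists_ne_map_eq_of_card_lt_of_maps_to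
    (s := Finset.range (n + 1)) (t := S) (f := f) (by simp; omega) fun i k => m i (by simp at k; omega)
  simp at a b
  rcases lt_or_gt_of_ne c with e | e
  · exact ⟨i, j, e, by omega, d⟩
  · exact ⟨j, i, e, by omega, d.symm⟩

theorem cut (l : List τ) {i j : ℕ} (h : i ≤ j) :
    l = l.take i ++ (l.take j).drop i ++ l.drop j := by
  conv_lhs => rw [← take_append_drop j l, ← take_append_drop i (l.take j), take_take, min_eq_left h]

theorem ord (ha : ∀ t, a t ≤ p) (hb : ∀ t, b t ≤ p) (h1 : -p < g) (h2 : g ≤ p)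
    (h3 : 0 ≤ g + dl a b l) : (∃ t l', l ~ t :: l' ∧ a t ≤ b t ∧ 0 ≤ g + dl a b l') ∨
      ∃ l', l ~ l' ∧ ∀ i, -p < g + dl a b (l'.take i) ∧ g + dl a b (l'.take i) ≤ p := by
  induction hn : l.length generalizing l g with
  | zero => exact .inr ⟨l, .refl _, by simp [length_eq_zero_iff.1 hn, h1, h2]⟩
  | succ n ih =>
    by_cases e : ∃ t ∈ l, -p < g + (b t - a t) ∧ g + (b t - a t) ≤ p
    · obtain ⟨t, m, e⟩ := e
      obtain ⟨u, v, rfl⟩ := append_of_mem m
      rcases ih (l := u ++ v) e.1 e.2 (by simp at *; omega) (by simp at *; omega) with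
        ⟨t', l', c, d, f⟩ | ⟨l', c, d⟩
      · exact .inl ⟨t', t :: l', perm_middle.trans ((c.cons _).trans (.swap _ _ _)), d,
          by simp; omega⟩
      · refine .inr ⟨t :: l', perm_middle.trans (c.cons _), fun i => ?_⟩
        cases i with
        | zero => simp [h1, h2]
        | succ i => simpa [add_assoc] using d i
    · obtain ⟨t, l, rfl⟩ := exists_cons_of_length_eq_add_one hn
      have k : ∀ u ∈ t :: l, (g ≤ 0 → b u < a u) ∧ (0 < g → a u < b u) := fun u m => by
        have := ha u; have := hb u; have := not_and_or.1 fun c => e ⟨u, m, c⟩; omega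
      have k1 := dl_pos (a := a) (b := b) (C := l.map fun u => [u])
      have k2 := dl_np (a := a) (b := b) (C := l.map fun u => [u])
      rw [← flatMap_def, flatMap_singleton'] at k1 k2
      have := k t (by simp)
      simp only [forall_mem_map, dl_cons, dl_nil] at k1 k2 h3
      by_cases c : 0 < g
      · have := k1 fun u m => by have := k u (by simp [m]); omega
        exact .inl ⟨t, l, .refl _, by omega, by omega⟩
      · have := k2 fun u m => by have := k u (by simp [m]); omega
        omega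

theorem grp0 (hp : 1 ≤ p) (ha : ∀ t, a t ≤ p) (hb : ∀ t, b t ≤ p) (h : 0 ≤ dl a b l) :
    ∃ C : List (List τ), C.flatten ~ l ∧ ∀ w ∈ C, w.length ≤ 2 * p ∧ 0 ≤ dl a b w := by
  induction hn : l.length using Nat.strong_induction_on generalizing l with
  | _ n ih =>
  subst hn
  by_cases c : l.length ≤ 2 * p
  · exact ⟨[l], by simp, by simp [c, h]⟩
  obtain ⟨w, l', e, w1, w2, w3, w4⟩ : ∃ w l', l ~ w ++ l' ∧ 0 < w.length ∧ w.length ≤ 2 * p ∧
      0 ≤ dl a b w ∧ 0 ≤ dl a b l' := by
    rcases ord (g := 0) (l := l) ha hb (by omega) (by omega) (by omega) with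
      ⟨t, l', c, d, f⟩ | ⟨l', c, d⟩
    · exact ⟨[t], l', c, by simp, by simp; omega, by simpa, by omega⟩
    obtain ⟨i, j, e, f, k⟩ := pig (Finset.Ioc (-p : ℤ) p) (fun i => dl a b (l'.take i)) (2 * p)
      (by simp; omega) fun i _ => by simpa using d i
    have q := cut l' e.le
    have q1 := congrArg (dl a b) (cut (l'.take j) e.le)
    have q2 := congrArg (dl a b) q
    have := dl_perm (a := a) (b := b) c
    have := c.length_eq
    simp only [dl_app, take_take, min_eq_left e.le, min_self, drop_take_self, dl_nil] at q1 q2 k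
    refine ⟨(l'.take j).drop i, l'.take i ++ l'.drop j, c.trans ?_, by simp; omega, by simp; omega,
      by omega, by simp; omega⟩
    conv_lhs => rw [q]
    rw [← append_assoc]
    exact perm_append_comm.append_right _
  obtain ⟨C, c1, c2⟩ := ih _ (by have := e.length_eq; simp at this; omega) w4 rfl
  exact ⟨w :: C, (c1.append_left w).trans e.symm, by simpa [w2, w3] using c2⟩

theorem free (W : List (List τ)) (hW : ∀ w : List τ, w.length ≤ Λ → w ∈ W) (hp : 1 ≤ p)
    (ha : ∀ t, a t ≤ p) (hb : ∀ t, b t ≤ p) (ha' : ∀ t, a' t ≤ p) (hΛ : 2 * p ≤ Λ)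
    (hK : (p * (2 * p) : ℕ) ≤ K) (h1 : K ≤ g) (h2 : K ≤ g + dl a b l) (h3 : K ≤ s)
    (h4 : K ≤ s + dl a' b' l) : NF a b a' b' Λ (W.length + W.length) g s l := by
  obtain ⟨C, c1, c2, c3⟩ : ∃ C : List (List τ), C.flatten ~ l ∧ (∀ w ∈ C, w.length ≤ 2 * p) ∧
      Sg a b C := by
    rcases le_total 0 (dl a b l) with e | e
    · obtain ⟨C, c, d⟩ := grp0 hp ha hb e
      exact ⟨C, c, fun w m => (d w m).1, .inl fun w m => (d w m).2⟩
    · obtain ⟨C, c, d⟩ := grp0 (l := l) hp hb ha (by rw [dl_neg]; omega)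
      exact ⟨C, c, fun w m => (d w m).1, .inr fun w m => by
        have := (d w m).2; rw [dl_neg] at this; omega⟩
  refine (gen W C (fun w m => ?_) c3 (fun w m => V_big ha ?_) fun w m => V_big ha' ?_).of c1 le_rfl
  · have := (c2 w m).trans hΛ; exact ⟨hW w this, this⟩
  all_goals
    have := Nat.mul_le_mul_left p (c2 w m)
    rw [dl_perm c1]; omega

end Pool.Agent.H23.F3
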