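import Pool.Agent.H23.F3a

set_option autoImplicit false

namespace Pool.Agent.H23.F3
open List

variable {τ : Type} {a b a' b' : τ → ℕ} {g s K : ℤ} {l : List τ} {p Λ N B : ℕ}

theorem ins (W : List (List τ)) (hΛ : 1 ≤ Λ) (u : List τ) (C : List (List τ)) (h : V a b g u)
    (h' : V a' b' s u) (hC : ∀ c ∈ C, (c ∈ W ∧ c.length ≤ Λ) ∧ dl a b c = 0 ∧ dl a' b' c = 0 ∧
      ∃ m, V a b (g + dl a b (u.take m)) c ∧ V a' b' (s + dl a' b' (u.take m)) c) :
    NF a b a' b' Λ ((u.length + 1) * (W.length + 1)) g s (C.flatten ++ u) := by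
  classical
  have z : ∀ {a b : τ → ℕ} {C : List (List τ)}, (∀ c ∈ C, dl a b c = 0) → dl a b C.flatten = 0 :=
    fun h => le_antisymm (dl_np fun c m => (h c m).le) (dl_pos fun c m => (h c m).ge)
  have k : ∀ g s (C : List (List τ)), (∀ c ∈ C, (c ∈ W ∧ c.length ≤ Λ) ∧ dl a b c = 0 ∧
      dl a' b' c = 0 ∧ V a b g c ∧ V a' b' s c) → NF a b a' b' Λ W.length g s C.flatten :=
    fun g s C h => blk W C (fun c m => (h c m).1) (.inl fun c m => (h c m).2.1.ge)
      (.inl fun c m => (h c m).2.2.1.ge)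
      (fun c m => by simpa [z fun c m => (h c m).2.1] using (h c m).2.2.2.1)
      fun c m => by simpa [z fun c m => (h c m).2.2.1] using (h c m).2.2.2.2
  induction u generalizing g s C with
  | nil => exact (k g s C (by simpa using hC)).of (by simp) (by simp)
  | cons t u ih =>
    have pm := filter_append_perm (fun c => decide (V a b g c ∧ V a' b' s c)) C
    generalize e1 : C.filter _ = C1 at pm
    generalize e2 : C.filter _ = C2 at pm
    have m1 : ∀ c ∈ C1, c ∈ C ∧ V a b g c ∧ V a' b' s c := fun c m => by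
      rw [← e1] at m; simpa using m
    have m2 : ∀ c ∈ C2, c ∈ C ∧ ¬ (V a b g c ∧ V a' b' s c) := fun c m => by
      rw [← e2, mem_filter] at m; exact ⟨m.1, by simpa [-not_and, not_and_or] using m.2⟩
    have n1 := k g s C1 fun c m => by have := hC c (m1 c m).1; have := m1 c m; tauto
    have n2 := short (l := [t]) (b := b) (b' := b') hΛ ⟨h.1, trivial⟩ ⟨h'.1, trivial⟩
    have n3 := ih C2 h.2 h'.2 fun c m => by
      obtain ⟨c1, c2, c3, j, c4⟩ := hC c (m2 c m).1
      refine ⟨c1, c2, c3, ?_⟩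
      cases j with
      | zero => exact absurd (by simpa using c4) (m2 c m).2
      | succ j => exact ⟨j, by simpa [add_assoc] using c4⟩
    have z1 := z fun c m => (hC c (m1 c m).1).2.1
    have z2 := z fun c m => (hC c (m1 c m).1).2.2.1
    refine (n1.app (NF.app (l := [t]) (N := 1) (by rwa [z1, z2, add_zero, add_zero])
      (by simpa [z1, z2] using n3))).of ?_ (by simp [add_mul]; omega)
    refine .trans ?_ (pm.flatten.append_right _)
    rw [flatten_append, append_assoc]
    exact Perm.append_left _ (show t :: (C2.flatten ++ u) ~ _ from perm_middle.symm)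

theorem Bd.tk (h : Bd a b K g l) (h' : V a b g l) {i : ℕ} (e : i < l.length) :
    0 ≤ g + dl a b (l.take i) ∧ g + dl a b (l.take i) < K := by
  rw [← take_append_drop i l, drop_eq_getElem_cons e] at h h'
  exact ⟨le_trans (by omega) (V_app.1 h').2.1, (Bd_app.1 h).2.1⟩

theorem corner0 (h : V a b g l) (h' : V a' b' s l) (k : Bd a b B g l) (k' : Bd a' b' B s l) :
    ∃ (u : List τ) (C : List (List τ)), C.flatten ++ u ~ l ∧ V a b g u ∧ V a' b' s u ∧
      u.length ≤ (B * B + 1) * (B * B) ∧ (∀ c ∈ C, c.length ≤ B * B ∧ dl a b c = 0 ∧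
        dl a' b' c = 0 ∧ ∃ m, V a b (g + dl a b (u.take m)) c ∧
        V a' b' (s + dl a' b' (u.take m)) c) ∧
      ∀ m, ∃ m', dl a b (u.take m') = dl a b (l.take m) ∧
        dl a' b' (u.take m') = dl a' b' (l.take m) := by
  induction hn : l.length using Nat.strong_induction_on generalizing l with
  | _ n ih =>
  subst hn
  by_cases c : l.length ≤ (B * B + 1) * (B * B)
  · exact ⟨l, [], .refl _, h, h', c, by simp, fun m => ⟨m, rfl, rfl⟩⟩
  obtain ⟨st, hst⟩ : ∃ st : ℕ → ℤ × ℤ, ∀ i, st i =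
    (g + dl a b (l.take i), s + dl a' b' (l.take i)) := ⟨_, fun _ => rfl⟩
  have pg := fun f : ℕ → ℕ => fun hf : ∀ i ≤ B * B, f i < l.length =>
    pig (Finset.Ico (0 : ℤ) B ×ˢ Finset.Ico (0 : ℤ) B) (fun i => st (f i)) (B * B) (by simp)
      fun i e => by simpa [hst] using ⟨k.tk h (hf i e), k'.tk h' (hf i e)⟩
  generalize B * B = Q at *
  obtain ⟨q, q1, q2⟩ : ∃ q ≤ Q, ∀ m, q * Q < m → m ≤ (q + 1) * Q → ∃ j < m, st j = st m := by
    by_contra! e
    choose! f f1 f2 f3 using e
    obtain ⟨i, j, e1, e2, e3⟩ := pg f fun i e => by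
      have := f2 i e
      have := Nat.mul_le_mul_right Q (Nat.succ_le_succ e)
      simp only [Nat.succ_eq_add_one] at this; omega
    have := f2 i (by omega)
    have := f1 j e2
    have := Nat.mul_le_mul_right Q (Nat.succ_le_of_lt e1)
    exact f3 j e2 (f i) (by simp only [Nat.succ_eq_add_one] at this; omega) e3
  have q3 : ∀ m ≤ (q + 1) * Q, ∃ j ≤ q * Q, st j = st m := fun m => by
    induction m using Nat.strong_induction_on with
    | _ m ih =>
    intro e
    by_cases e' : m ≤ q * Q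
    · exact ⟨m, e', rfl⟩
    · obtain ⟨j, j1, j2⟩ := q2 m (by omega) e
      exact j2 ▸ ih j j1 (by omega)
  have q4 := Nat.mul_le_mul_right Q (Nat.succ_le_succ q1)
  simp only [Nat.succ_eq_add_one, add_mul, one_mul] at q3 q4 c
  obtain ⟨i, j, e1, e2, e3⟩ := pg (fun i => q * Q + i) fun i e => by omega
  generalize hi : q * Q + i = i' at e3
  generalize hj : q * Q + j = j' at e3
  have ij : i' ≤ j' := by omega
  have e := cut l ij
  have e4 := cut (l.take j') ij
  simp only [take_take, min_eq_left ij, min_self, drop_take_self, append_nil] at e4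
  simp only [hst, Prod.mk.injEq, add_right_inj] at e3 q3
  obtain ⟨c, hc⟩ : ∃ c, c = (l.take j').drop i' := ⟨_, rfl⟩
  rw [← hc] at e e4
  have d1 : dl a b c = 0 := by have := congrArg (dl a b) e4; simp at this; omega
  have d2 : dl a' b' c = 0 := by have := congrArg (dl a' b') e4; simp at this; omega
  rw [e] at h h' k k'
  simp only [V_app, Bd_app, dl_app, d1, d2, add_zero] at h h' k k'
  have tk : ∀ m ≤ i', (l.take i' ++ l.drop j').take m = l.take m := fun m e => by
    rw [take_append_of_le_length (by simp; omega), take_take, min_eq_left e]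
  obtain ⟨u, C, u1, u2, u3, u4, u5, u6⟩ := ih _ (by simp; omega) (l := l.take i' ++ l.drop j')
    (V_app.2 ⟨h.1.1, h.2⟩) (V_app.2 ⟨h'.1.1, h'.2⟩) (Bd_app.2 ⟨k.1.1, k.2⟩)
    (Bd_app.2 ⟨k'.1.1, k'.2⟩) rfl
  refine ⟨u, c :: C, ?_, u2, u3, by simpa [add_mul] using u4, forall_mem_cons.2
    ⟨⟨by simp [hc]; omega, d1, d2, ?_⟩, u5⟩, fun m => ?_⟩
  · conv_rhs => rw [e]
    rw [flatten_cons, append_assoc]
    exact (u1.append_left _).trans (by
      rw [← append_assoc]; exact perm_append_comm.append_right _)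
  · obtain ⟨m, m1, m2⟩ := u6 i'
    rw [tk _ le_rfl] at m1 m2
    exact ⟨m, m1 ▸ h.1.2, m2 ▸ h'.1.2⟩
  by_cases x : m ≤ j'
  · obtain ⟨j, j1, j2⟩ := q3 m (by omega)
    have := u6 j
    rwa [tk j (by omega), j2.1, j2.2] at this
  · have := u6 (i' + (m - j'))
    rw [take_append, take_take, length_take, min_eq_right (by omega : i' ≤ _),
      min_eq_left (by omega : i' ≤ l.length), Nat.add_sub_cancel_left] at this
    rw [show m = j' + (m - j') by omega, take_add]
    simpa only [dl_app, e3] using this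

theorem corner (W : List (List τ)) (hW : ∀ w : List τ, w.length ≤ Λ → w ∈ W) (hΛ : 1 ≤ Λ)
    (hB : B * B ≤ Λ) (h : V a b g l) (h' : V a' b' s l) (k : Bd a b B g l) (k' : Bd a' b' B s l) :
    NF a b a' b' Λ (((B * B + 1) * (B * B) + 1) * (W.length + 1)) g s l := by
  obtain ⟨u, C, u1, u2, u3, u4, u5, -⟩ := corner0 h h' k k'
  exact (ins W hΛ u C u2 u3 fun c m => ⟨⟨hW _ ((u5 c m).1.trans hB), (u5 c m).1.trans hB⟩,
    (u5 c m).2⟩).of u1 (Nat.mul_le_mul_right _ (by omega))

theorem spl (ha : ∀ t, a t ≤ p) (g : ℤ) (l : List τ) : Bd a b (K + p) g l ∨ ∃ l1 l2 l3,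
    l = l1 ++ (l2 ++ l3) ∧ Bd a b (K + p) g l1 ∧ K ≤ g + dl a b l1 ∧
      K ≤ g + dl a b l1 + dl a b l2 ∧ Bd a b (K + p) (g + dl a b l1 + dl a b l2) l3 := by
  have f : ∀ (l : List τ) (g : ℤ), (∃ l2 l3, l = l2 ++ l3 ∧ K ≤ g + dl a b l2 ∧ Bd a b (K + p) (g + dl a b l2) l3) ∨
      (g < K ∧ Bd a b K g l) := fun l => by
    induction l with
    | nil =>
      exact fun g => (le_or_gt K g).imp (fun e => ⟨[], [], rfl, by simpa, trivial⟩)
        fun e => ⟨e, trivial⟩
    | cons t l ih =>
      intro g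
      rcases ih (g + (b t - a t)) with ⟨l2, l3, rfl, e⟩ | e
      · exact .inl ⟨t :: l2, l3, rfl, by simpa [add_assoc] using e⟩
      · exact (le_or_gt K g).imp (fun c => ⟨[], _, rfl, by simpa, by have := ha t; simp; omega,
          by simpa using e.2.mono (by omega)⟩) fun c => ⟨c, c, e.2⟩
  induction l generalizing g with
  | nil => exact .inl trivial
  | cons t l ih =>
    by_cases c : K ≤ g
    · obtain ⟨l2, l3, e, k⟩ := (f (t :: l) g).resolve_right (by omega)
      exact .inr ⟨[], l2, l3, e, trivial, by simpa, by simpa using k⟩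
    · rcases ih (g + (b t - a t)) with e | ⟨l1, l2, l3, rfl, e⟩
      · exact .inl ⟨by omega, e⟩
      · exact .inr ⟨t :: l1, l2, l3, rfl, ⟨by omega, e.1⟩, by simpa [add_assoc] using e.2⟩

theorem NF.spl {N1 N2 : ℕ} (ha : ∀ t, a' t ≤ p) (P : ℤ → List τ → Prop)
    (hP : ∀ g l l', P g (l ++ l') → P g l ∧ P (g + dl a b l) l')
    (h1 : ∀ g s l, P g l → V a b g l → V a' b' s l → Bd a' b' (K + p) s l → NF a b a' b' Λ N1 g s l)
    (h2 : ∀ g s l, P g l → V a b g l → V a' b' s l → K ≤ s → K ≤ s + dl a' b' l →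
      NF a b a' b' Λ N2 g s l) (k : P g l) (h : V a b g l) (h' : V a' b' s l) :
    NF a b a' b' Λ (N1 + (N2 + N1)) g s l := by
  rcases F3.spl (b := b') (K := K) ha s l with e | ⟨l1, l2, l3, rfl, e1, e2, e3, e4⟩
  · exact (h1 _ _ _ k h h' e).of (.refl _) (by omega)
  · simp only [V_app] at h h'
    have k1 := hP _ _ _ k
    have k2 := hP _ _ _ k1.2
    exact (h1 _ _ _ k1.1 h.1 h'.1 e1).app ((h2 _ _ _ k2.1 h.2.1 h'.2.1 e2 e3).app
      (h1 _ _ _ k2.2 h.2.2 h'.2.2 e4))

theorem pump (k : ℕ) (h : V a b g l) (e : K ≤ g + k) : (∃ v l', l ~ v ++ l' ∧ v.length ≤ k ∧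
    (∀ t ∈ v, a t < b t) ∧ V a b g v ∧ K ≤ g + dl a b v ∧ V a b (g + dl a b v) l') ∨
    (g < K ∧ l.countP (fun t => a t < b t) ≤ k) := by
  induction k generalizing g l with
  | zero => exact .inl ⟨[], l, .refl _, le_rfl, by simp, trivial, by simpa using e, by simpa⟩
  | succ k ih =>
    by_cases c : K ≤ g
    · exact .inl ⟨[], l, .refl _, by simp, by simp, trivial, by simpa, by simpa⟩
    by_cases d : ∃ t ∈ l, a t < b t ∧ (a t : ℤ) ≤ g
    · obtain ⟨t, m, d1, d2⟩ := d
      obtain ⟨u, v, rfl⟩ := append_of_mem m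
      rw [V_app] at h
      rcases ih (g := g + (b t - a t)) (l := u ++ v) (V_app.2 ⟨h.1.mono (by omega),
        h.2.2.mono (by omega)⟩) (by omega) with ⟨w, l', f1, f2, f3, f4, f5⟩ | f
      · exact .inl ⟨t :: w, l', perm_middle.trans (f1.cons _), by simpa, by simpa [d1], ⟨d2, f4⟩,
          by simpa [add_assoc] using f5⟩
      · exact .inr ⟨by omega, by simp [d1] at f ⊢; omega⟩
    · refine .inr ⟨by omega, ?_⟩
      have : ∀ (l : List τ) g', g' ≤ g → V a b g' l → (∀ t ∈ l, a t < b t → g < a t) →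
          l.countP (fun t => a t < b t) = 0 := fun l => by
        induction l with
        | nil => simp
        | cons t l ih =>
          intro g' x y z
          have := z t (by simp)
          have := y.1
          rw [countP_cons_of_neg (by simp; omega)]
          exact ih _ (by omega) y.2 fun t m => z t (by simp [m])
      rw [this l g le_rfl h fun t m x => not_le.1 fun y => d ⟨t, m, x, y⟩]; omega

theorem cnt (hb : ∀ t, b t ≤ p) : (l.countP (fun t => a t ≠ b t) : ℤ) + dl a b l ≤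
    (p * l.countP (fun t => a t < b t) : ℕ) + l.countP (fun t => a t < b t) := by
  induction l with
  | nil => simp
  | cons t l ih =>
    have := hb t
    simp only [countP_cons, dl_cons, mul_add, decide_eq_true_eq] at *
    split_ifs <;> omega

theorem cnt' (hb : ∀ t, b t ≤ p) : dl a b l ≤ (p * l.countP (fun t => a t < b t) : ℕ) := by
  induction l with
  | nil => simp
  | cons t l ih =>
    have := hb t
    simp only [countP_cons, dl_cons, mul_add, decide_eq_true_eq] at *
    split_ifs <;> omega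

structure Par (p Λ k J B : ℕ) : Prop where
  h0 : 1 ≤ p
  h1 : p * (2 * p) ≤ k
  h2 : p * k + 2 * k ≤ J
  h3 : k + p * k + p * J < B
  h4 : 2 * (p * k) + k + 2 * p ≤ B
  h5 : 2 * p ≤ Λ
  h6 : B * B ≤ Λ

variable {k J N0 : ℕ} {W : List (List τ)}

theorem few (r : Par p Λ k J B) (hW : ∀ w : List τ, w.length ≤ Λ → w ∈ W) (hb : ∀ t, b t ≤ p)
    (ha' : ∀ t, a' t ≤ p) (h0 : N0 = ((B * B + 1) * (B * B) + 1) * (W.length + 1)) (j : ℕ)
    (h : V a b g l) (h' : V a' b' s l) (c : l.countP (fun t => a t ≠ b t) ≤ j)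
    (e : g + (p * j : ℕ) < B) :
    NF a b a' b' Λ ((j + 1) * (N0 + (W.length + W.length + N0) + 1)) g s l := by
  have hΛ : 1 ≤ Λ := by have := r.h0; have := r.h5; omega
  have z : ∀ l : List τ, (∀ t ∈ l, a t = b t) → dl a b l = 0 := fun l h => by
    induction l with
    | nil => rfl
    | cons t l ih => simp at h ⊢; rw [ih h.2, h.1]; simp
  have n : ∀ (g s : ℤ) l, g < B → (∀ t ∈ l, a t = b t) → V a b g l → V a' b' s l →
      NF a b a' b' Λ (N0 + (W.length + W.length + N0)) g s l := fun g s l e1 e2 =>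
    NF.spl (K := p) ha' (fun g l => g < B ∧ ∀ t ∈ l, a t = b t) (fun g l l' h => by
      rw [forall_mem_append] at h
      exact ⟨⟨h.1, h.2.1⟩, by rw [z l h.2.1]; simpa using h.1, h.2.2⟩) (fun g s l c v v' d => by
      refine h0 ▸ corner W hW hΛ r.h6 v v' ?_ (d.mono (by have := r.h4; omega))
      clear v v' d
      induction l with
      | nil => trivial
      | cons t l ih => simp at c; exact ⟨c.1, by simpa [c.2.1] using ih ⟨c.1, c.2.2⟩⟩)
      (fun g s l c v v' d d' => by
        have f : (l.map fun t => [t]).flatten = l := by rw [← flatMap_def, flatMap_singleton']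
        have := gen (g := g) (s := s) (a := a) (b := b) (a' := a') (b' := b') W (l.map fun t => [t])
          (by simpa using fun t _ => ⟨hW _ hΛ, hΛ⟩) (.inl (by simpa using fun t m => (c.2 t m).le))
          (by
            rw [f, z l c.2]
            simp only [forall_mem_map, add_zero, min_self]
            intro t m
            obtain ⟨u, w, rfl⟩ := append_of_mem m
            have := (V_app.1 v).2.1
            rw [z u fun t m => c.2 t (by simp [m])] at this
            exact ⟨by simpa using this, trivial⟩)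
          (by rw [f]; simpa [V] using fun t _ => by have := ha' t; omega)
        rwa [f] at this) ⟨e1, e2⟩
  induction j generalizing g s l with
  | zero => exact (n g s l (by simpa using e) (by simpa using c) h h').of (.refl _) (by omega)
  | succ j ih =>
    have e1 := takeWhile_append_dropWhile (p := fun t => decide (a t = b t)) (l := l)
    have e2 := fun t m => of_decide_eq_true (mem_takeWhile_imp (p := fun t => decide (a t = b t))
      (l := l) (x := t) m)
    have e3 := head?_dropWhile_not (fun t => decide (a t = b t)) l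
    generalize l.takeWhile _ = u, l.dropWhile _ = v at *
    subst e1
    simp only [V_app, mul_add] at h h' e
    cases v with
    | nil => exact (n g s _ (by omega) e2 h.1 h'.1).of (by simp) (by simp [add_mul]; omega)
    | cons t v =>
      have := hb t
      refine ((n g s u (by omega) e2 h.1 h'.1).app (NF.app (l := [t]) (N := 1)
        (short hΛ ⟨h.2.1, trivial⟩ ⟨h'.2.1, trivial⟩) (ih (by simpa using h.2.2)
        (by simpa using h'.2.2) ?_ (by simp [z u e2] at e ⊢; omega)))).of (.refl _)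
        (by simp [add_mul]; omega)
      simp [countP_cons] at e3 c ⊢
      simp [e3] at c; omega

theorem mid (r : Par p Λ k J B) (hW : ∀ w : List τ, w.length ≤ Λ → w ∈ W) (ha : ∀ t, a t ≤ p)
    (hb : ∀ t, b t ≤ p) (ha' : ∀ t, a' t ≤ p) (hb' : ∀ t, b' t ≤ p)
    (h0 : N0 = ((B * B + 1) * (B * B) + 1) * (W.length + 1)) (g0 : 0 ≤ g)
    (h : V a b g l) (h' : V a' b' s l) (e : (2 * (p * k) + k : ℕ) ≤ s)
    (e' : (2 * (p * k) + k : ℕ) ≤ s + dl a' b' l) : NF a b a' b' Λ ((J + 1) *
      (N0 + (W.length + W.length + N0) + 1) + (k + (W.length + W.length + k))) g s l := by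
  have hΛ : 1 ≤ Λ := by have := r.h0; have := r.h5; omega
  have := r.h2
  have := r.h3
  have := h.nonneg g0
  rcases pump (K := k) k h (by omega) with ⟨v, l', v1, v2, v3, v4, v5, v6⟩ | ⟨c, d⟩
  swap
  · have := cnt (a := a) (l := l) hb
    have := Nat.mul_le_mul_left p d
    exact (few r hW hb ha' h0 J h h' (by omega) (by omega)).of (.refl _) (by omega)
  have d1 := dl_perm (a := a) (b := b) v1
  have d2 := dl_perm (a := a') (b := b') v1
  rw [dl_app] at d1 d2
  rcases pump (K := k) k v6.rev (by omega) with ⟨u, w, u1, u2, u3, u4, u5, -⟩ | ⟨c, d⟩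
  swap
  · have e1 := cnt (a := b) (l := l) ha
    have e2 := cnt' (a := b) (l := l) ha
    have e3 : l.countP (fun t => b t < a t) = l'.countP (fun t => b t < a t) := by
      rw [v1.countP_eq, countP_append, countP_eq_zero.2 fun t m => by have := v3 t m; simp; omega,
        zero_add]
    rw [e3, dl_neg] at e1 e2
    rw [countP_reverse] at d
    have := Nat.mul_le_mul_left p d
    simp only [ne_comm (b := a _)] at e1
    exact (few r hW hb ha' h0 J h h' (by omega) (by omega)).of (.refl _) (by omega)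
  have f1 := dl_perm (a := a) (b := b) u1
  have f2 := dl_perm (a := a') (b := b') u1
  have := Nat.mul_le_mul_left p v2
  have := Nat.mul_le_mul_left p u2
  have := dl_ge (b := b') (l := v) ha'
  have := dl_le (a := a') (l := u) hb'
  have u6 := u4.rev
  simp only [dl_app, dl_rev, dl_neg (a := a) (l := u)] at f1 f2 u5 u6
  refine ((short hΛ v4 (V_big ha' (by omega))).app (NF.app (l := w) (free (K := k) W hW r.h0 ha hb
    ha' r.h5 (by exact_mod_cast r.h1) v5 (by omega) (by omega) (by omega)) (short hΛ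
    (u6.mono (by omega)) (V_big ha' (by simp; omega))))).of ?_ (by simp; omega)
  exact .trans (.append_left _ (perm_append_comm.trans (((reverse_perm _).append_right _).trans
    (u1.symm.trans (reverse_perm _))))) v1.symm

theorem nf (r : Par p Λ k J B) (hW : ∀ w : List τ, w.length ≤ Λ → w ∈ W) (ha : ∀ t, a t ≤ p)
    (hb : ∀ t, b t ≤ p) (ha' : ∀ t, a' t ≤ p) (hb' : ∀ t, b' t ≤ p) {N5 : ℕ}
    (h0 : N0 = ((B * B + 1) * (B * B) + 1) * (W.length + 1)) (h5 : N5 = (J + 1) *
      (N0 + (W.length + W.length + N0) + 1) + (k + (W.length + W.length + k))) (g0 : 0 ≤ g)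
    (h : V a b g l) (h' : V a' b' s l) :
    NF a b a' b' Λ (N0 + (N5 + N0) + (N5 + (N0 + (N5 + N0)))) g s l := by
  have hΛ : 1 ≤ Λ := by have := r.h0; have := r.h5; omega
  have := r.h4
  refine NF.spl (K := (2 * (p * k) + k : ℕ)) ha' (fun g l => 0 ≤ g ∧ V a b g l)
    (fun g l l' h => ⟨⟨h.1, (V_app.1 h.2).1⟩, (V_app.1 h.2).1.nonneg h.1, (V_app.1 h.2).2⟩)
    (fun g s l c v v' d => ?_) (fun g s l c v v' d d' => h5 ▸ mid r hW ha hb ha' hb' h0 c.1 v v' d d')
    ⟨g0, h⟩ h h'
  cases l with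
  | nil => exact .nil
  | cons t l =>
  refine (NF.spl (K := (2 * (p * k) + k : ℕ)) ha (fun s l => (0 ≤ s ∧ V a' b' s l) ∧ Bd a' b' B s l)
    (fun g l l' h => ⟨⟨⟨h.1.1, (V_app.1 h.1.2).1⟩, (Bd_app.1 h.2).1⟩, ⟨(V_app.1 h.1.2).1.nonneg h.1.1,
      (V_app.1 h.1.2).2⟩, (Bd_app.1 h.2).2⟩) (fun s g l c v v' d => ?_)
    (fun s g l c v v' d d' => h5 ▸ mid r hW ha' hb' ha hb h0 c.1.1 v v' d d')
    ⟨⟨le_trans (by omega) v'.1, v'⟩, d.mono (by omega)⟩ v' v).swap
  exact h0 ▸ corner W hW hΛ r.h6 v v' c.2 (d.mono (by omega))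

end Pool.Agent.H23.F3
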