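import Pool.Agent.H23.Ori3
import Pool.Agent.H25.FPT2

set_option autoImplicit false

namespace Pool.Agent.H23.F3
open List Relation Pool.Agent.H11.PT Pool.Agent.H23.Ori Pool.Agent.H25.FP

def dot (u : List ℕ) (y : ℕ → ℕ) : ℕ := ((range u.length).map fun i => u.getD i 0 * y i).sum

abbrev Row := (List ℕ × ℕ) × (List ℕ × ℕ)

def Sat (y : ℕ → ℕ) (r : Row) : Prop := dot r.1.1 y + r.1.2 ≤ dot r.2.1 y + r.2.2

theorem dot_map (k : ℕ) (f y : ℕ → ℕ) :
    dot ((range k).map f) y = ((range k).map fun i => f i * y i).sum := by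
  simp only [dot, length_map, length_range]
  exact congrArg _ (map_congr_left fun i m => by simp [mem_range.1 m])

theorem dot_le {u : List ℕ} {y : ℕ → ℕ} {X : ℕ} (h : u.length ≤ X) (h' : ∀ c ∈ u, c ≤ X)
    (e : ∀ i, y i ≤ 1) : dot u y ≤ X * X := by
  refine (sum_le_card_nsmul _ X fun c m => ?_).trans (by simpa using Nat.mul_le_mul_right _ h)
  obtain ⟨i, k, rfl⟩ := mem_map.1 m
  rw [getD_eq_getElem _ _ (mem_range.1 k)]
  exact (Nat.mul_le_mul (h' _ (getElem_mem _)) (e i)).trans (by simp)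

theorem dot_two (u : List ℕ) {y z x : ℕ → ℕ} (h : ∀ i < u.length, x i = 2 * y i + z i) :
    dot u x = 2 * dot u y + dot u z := by
  simp only [dot, ← sum_map_mul_left, ← sum_map_add]
  exact congrArg _ (map_congr_left fun i m => by rw [h i (mem_range.1 m)]; ring)

theorem dot_zero (u : List ℕ) : dot u (fun _ => 0) = 0 := by simp [dot]

def Nd (R : List Row) (F M a : ℕ) : List (ℕ × List ℕ) :=
  (1, replicate R.length F) :: range (2 * M + 1) ×ˢ enumL (2 * F + 1) R.length a

def Ed (R : List Row) (X F M a : ℕ) (u v : ℕ × List ℕ) : Prop :=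
  v ∈ Nd R F M a ∧ v.1 = u.1 * 2 ∧ ∃ ε ∈ enumL 2 X a, ∀ i ∈ range R.length,
    dot (R.getD i default).1.1 (ε.getD · 0) + (R.getD i default).1.2 / u.1 + u.2.getD i 0 +
      2 * ((R.getD i default).2.2 / u.1 / 2) + F ≤ dot (R.getD i default).2.1 (ε.getD · 0) +
      (R.getD i default).2.2 / u.1 + 2 * ((R.getD i default).1.2 / u.1 / 2) + 2 * v.2.getD i 0

def So (R : List Row) (F : ℕ) (y : ℕ → ℕ) (u : ℕ × List ℕ) : Prop :=
  ∀ i ∈ range R.length, dot (R.getD i default).1.1 y + (R.getD i default).1.2 / u.1 + u.2.getD i 0 ≤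
    dot (R.getD i default).2.1 y + (R.getD i default).2.2 / u.1 + F

def ILP (R : List Row) (X M a : ℕ) : Prop :=
  ∃ v ∈ Nd R (2 * (X * X) + 2) M a, ReflTransGen (Ed R X (2 * (X * X) + 2) M a)
    (1, replicate R.length (2 * (X * X) + 2)) v ∧ So R (2 * (X * X) + 2) (fun _ => 0) v

theorem So_iff {R : List Row} {F : ℕ} {y : ℕ → ℕ} :
    So R F y (1, replicate R.length F) ↔ ∀ r ∈ R, Sat y r := by
  rw [forall_mem_iff_forall_getElem]
  refine ⟨fun h i e => ?_, fun h i e => ?_⟩
  · simpa [e, Sat] using h i (mem_range.2 e)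
  · rw [mem_range] at e
    simpa [e, Sat] using h i e

variable {R : List Row} {X M a : ℕ}

theorem ILP.sound (h : ILP R X M a) : ∃ y, ∀ r ∈ R, Sat y r := by
  obtain ⟨v, -, h, e⟩ := h
  simp only [← So_iff (F := 2 * (X * X) + 2)]
  generalize ((1, _) : ℕ × List ℕ) = u at h ⊢
  induction h using ReflTransGen.head_induction_on with
  | refl => exact ⟨_, e⟩
  | head h _ ih =>
    obtain ⟨y, ih⟩ := ih
    obtain ⟨-, h1, ε, -, h2⟩ := h
    refine ⟨fun i => 2 * y i + ε.getD i 0, fun i m => ?_⟩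
    have := h2 i m
    have := ih i m
    rw [h1, ← Nat.div_div_eq_div_mul, ← Nat.div_div_eq_div_mul] at this
    rw [dot_two _ fun _ _ => rfl, dot_two _ fun _ _ => rfl]
    omega

theorem pw {b e X : ℕ} (h : b ≤ X) (h' : e ≤ X) : b ^ e ≤ 2 ^ (X * X) :=
  ((Nat.pow_le_pow_left (Nat.le_succ_of_le h) _).trans
    (Nat.pow_le_pow_right (by omega) h')).trans (succ_pow_le X X le_rfl)

theorem ILP.complete (ha : 2 ^ ((4 * (X * X) + 5) * (4 * (X * X) + 5)) ≤ a) (hR : R.length ≤ X)
    (h : ∀ r ∈ R, (r.1.1.length ≤ X ∧ ∀ c ∈ r.1.1, c ≤ X) ∧ r.2.1.length ≤ X ∧ ∀ c ∈ r.2.1, c ≤ X)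
    {y : ℕ → ℕ} (hy : ∀ i, y i ≤ M) (e : ∀ r ∈ R, Sat y r) : ILP R X M a := by
  have hX := Nat.le_mul_self X
  have key : ∀ b (u : ℕ × List ℕ) (y : ℕ → ℕ), u ∈ Nd R (2 * (X * X) + 2) M a → (∀ i, y i ≤ b) →
      u.1 * b ≤ M → (∀ i, u.2.getD i 0 ≤ 2 * (2 * (X * X) + 2)) → So R (2 * (X * X) + 2) y u →
      ∃ v ∈ Nd R (2 * (X * X) + 2) M a, ReflTransGen (Ed R X (2 * (X * X) + 2) M a) u v ∧
        So R (2 * (X * X) + 2) (fun _ => 0) v := fun b => by
    induction b using Nat.strong_induction_on with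
    | _ b ih =>
    intro u y m hy hb hu s
    rcases Nat.eq_zero_or_pos b with rfl | b0
    · exact ⟨u, m, .refl, (funext fun i => by simpa using hy i : y = fun _ => 0) ▸ s⟩
    obtain ⟨ε, hε⟩ : ∃ ε, ε = (range X).map fun i => y i % 2 := ⟨_, rfl⟩
    have e1 : ∀ i, ε.getD i 0 ≤ 1 := fun i => by
      by_cases c : i < X <;> simp [hε, c]; omega
    have : ∀ i, ∃ t ≤ 2 * (2 * (X * X) + 2), i ∈ range R.length →
        dot (R.getD i default).1.1 (ε.getD · 0) + (R.getD i default).1.2 / u.1 + u.2.getD i 0 +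
        2 * ((R.getD i default).2.2 / u.1 / 2) + (2 * (X * X) + 2) ≤
        dot (R.getD i default).2.1 (ε.getD · 0) + (R.getD i default).2.2 / u.1 +
        2 * ((R.getD i default).1.2 / u.1 / 2) + 2 * t ∧
        dot (R.getD i default).1.1 (y · / 2) + (R.getD i default).1.2 / u.1 / 2 + t ≤
        dot (R.getD i default).2.1 (y · / 2) + (R.getD i default).2.2 / u.1 / 2 +
          (2 * (X * X) + 2) := fun i => by
      by_cases c : i ∈ range R.length
      swap
      · exact ⟨0, by omega, fun d => absurd d c⟩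
      have s := s i c
      have := hu i
      obtain ⟨k1, k2⟩ := h (R.getD i default) (by
        rw [getD_eq_getElem _ _ (mem_range.1 c)]; exact getElem_mem _)
      generalize R.getD i default = r at *
      have := dot_le k1.1 k1.2 e1
      have := dot_le k2.1 k2.2 e1
      rw [dot_two r.1.1 (y := (y · / 2)) (z := (ε.getD · 0)) fun i d => by
        simp [hε, d.trans_le k1.1]; omega, dot_two r.2.1 (y := (y · / 2)) (z := (ε.getD · 0))
        fun i d => by simp [hε, d.trans_le k2.1]; omega] at s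
      exact ⟨(dot r.1.1 (ε.getD · 0) + r.1.2 / u.1 % 2 + u.2.getD i 0 + (2 * (X * X) + 2) + 1 -
        dot r.2.1 (ε.getD · 0) - r.2.2 / u.1 % 2) / 2, by omega, fun _ => by omega⟩
    choose t t1 t2 using this
    have g : ∀ i ∈ range R.length, ((range R.length).map t).getD i 0 = t i := fun i m => by
      simp [mem_range.1 m]
    have := Nat.mul_le_mul_left u.1 b0
    have m' : (u.1 * 2, (range R.length).map t) ∈ Nd R (2 * (X * X) + 2) M a :=
      mem_cons_of_mem _ (mem_product.2 ⟨by simp; omega, mem_enumL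
        ((pw (by omega) (by omega)).trans ha) _ (by simp) (by
          simpa using fun i _ => Nat.lt_succ_of_le (t1 i))⟩)
    obtain ⟨v, v1, v2, v3⟩ := ih (b / 2) (by omega) _ (y · / 2) m'
      (fun i => Nat.div_le_div_right (hy i)) (le_trans (by
        rw [mul_assoc]; exact Nat.mul_le_mul_left _ (by omega)) hb) (fun i => by
        by_cases c : i < R.length <;> simp [c, t1]) fun i m => by
        simpa only [g i m, ← Nat.div_div_eq_div_mul] using (t2 i m).2
    exact ⟨v, v1, .head ⟨m', rfl, ε, mem_enumL ((pw (by omega) (by omega)).trans ha) _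
      (by simp [hε]) (by simp [hε]; omega), fun i m => by simpa only [g i m] using (t2 i m).1⟩ v2, v3⟩
  exact key M _ y mem_cons_self hy (by simp) (fun i => by
    by_cases c : i < R.length <;> simp [c]) (So_iff.2 e)

variable {α : Type} [Enc α]

@[fun_prop] theorem dcLe {f g : α → ℕ} (hf : PT f) (hg : PT g) :
    PT fun x => dc (f x ≤ g x) := dc_of (dcNot (dcLt hg hf)) fun _ => not_lt

@[fun_prop] theorem pt_ilp {R : α → List Row} {X M a : α → ℕ} (hR : PT R) (hX : PT X) (hM : PT M)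
    (ha : PT a) : PT fun x => dc (ILP (R x) (X x) (M x) (a x)) := by
  refine dcEx (by unfold Nd; fun_prop) (dcAnd (pt_rtg (N := fun y : α × ℕ × List ℕ =>
    Nd (R y.1) (2 * (X y.1 * X y.1) + 2) (M y.1) (a y.1)) (by unfold Nd; fun_prop) ?_ (by fun_prop)
    (by fun_prop) (fun _ => mem_cons_self) fun _ _ _ h _ => h.1) ?_)
  · unfold Ed Nd dot; fun_prop
  · unfold So dot; fun_prop

end Pool.Agent.H23.F3
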