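import Pool.Agent.H23.F3b

set_option autoImplicit false

namespace Pool.Agent.H23.F3
open List

variable {τ : Type} {a b c : τ → ℕ} {g : ℤ} {l : List τ}

def sm (f : τ → ℕ) (l : List τ) : ℕ := (l.map f).sum

@[simp] theorem sm_nil : sm a [] = 0 := rfl
@[simp] theorem sm_cons (t : τ) : sm a (t :: l) = a t + sm a l := by simp [sm]
@[simp] theorem sm_app (l' : List τ) : sm a (l ++ l') = sm a l + sm a l' := by simp [sm]
theorem sm_perm {l' : List τ} (h : l ~ l') : sm a l = sm a l' := (h.map _).sum_eq
theorem dl_sm : dl a b l = sm b l - sm a l := by induction l <;> simp [*]; ring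

theorem V_iff : V a b g l ↔ ∀ i < l.length, (sm a (l.take (i + 1)) : ℤ) ≤ g + sm b (l.take i) := by
  induction l generalizing g with
  | nil => simp [V]
  | cons t l ih =>
    simp only [V, ih, length_cons, Nat.forall_lt_succ_left, take_succ_cons, sm_cons, take_zero,
      sm_nil]
    exact and_congr (by omega) (forall₂_congr fun i _ => by omega)

theorem V_map {σ : Type} (f : σ → τ) (l : List σ) :
    V a b g (l.map f) ↔ V (fun t => a (f t)) (fun t => b (f t)) g l := by
  induction l generalizing g <;> simp [V, *]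

theorem pack (s : τ → ℕ) (S : Finset ℕ)
    (h : l.Pairwise fun i j => s i + a i ≤ s j ∨ s j + a j ≤ s i)
    (e : ∀ j ∈ l, Finset.Ico (s j) (s j + a j) ⊆ S) : sm a l ≤ S.card := by
  induction l generalizing S with
  | nil => simp
  | cons t l ih =>
    rw [pairwise_cons] at h
    have := ih (S \ Finset.Ico (s t) (s t + a t)) h.2 fun j m x k => Finset.mem_sdiff.2
      ⟨e j (by simp [m]) k, by have := h.1 j m; simp at k ⊢; omega⟩
    have := Finset.card_sdiff_add_card_eq_card (e t (by simp))
    simp at this ⊢; omega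

theorem pack' (s : τ → ℕ) {x y : ℕ} (hxy : x ≤ y)
    (h : l.Pairwise fun i j => s i + a i ≤ s j ∨ s j + a j ≤ s i)
    (e : ∀ j ∈ l, x ≤ s j ∧ s j + a j ≤ y) : x + sm a l ≤ y := by
  have := pack s (Finset.Ico x y) h fun j m => Finset.Ico_subset_Ico (e j m).1 (e j m).2
  simp at this; omega

theorem build (S : τ → ℕ) (T : ℕ) (σ : List τ) (t A : ℕ) (h0 : A ≤ t) (h1 : t ≤ T)
    (h : ∀ u j v, σ = u ++ j :: v → A + sm a u + a j ≤ S j ∧ S j + b j + sm c (j :: v) ≤ T ∧ t ≤ S j)
    (k : σ.Pairwise fun i j => S i + b i ≤ S j) : ∃ z l, t + z ≤ T ∧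
      l ~ σ.map some ++ replicate z none ∧ V (·.elim 0 a) (·.elim 1 b) (t - A) l ∧
      V (·.elim 1 b) (·.elim 0 c) (T - sm c σ - t) l := by
  induction σ generalizing t A with
  | nil => exact ⟨0, [], h1, .refl _, trivial, trivial⟩
  | cons j σ ih =>
    obtain ⟨e1, e2, e3⟩ := h [] j σ rfl
    rw [pairwise_cons] at k
    simp only [sm_nil, sm_cons] at e1 e2
    obtain ⟨z, l, l1, l2, l3, l4⟩ := ih (S j + b j) (A + a j) (by omega) (by omega)
      (fun u i v e => by
        have := h (j :: u) i v (by simp [e])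
        have := k.1 i (by simp [e])
        simp only [sm_cons] at *; omega) k.2
    obtain ⟨m, hm⟩ := Nat.exists_eq_add_of_le e3
    refine ⟨m + z, replicate m none ++ some j :: l, by omega, ?_, ?_⟩
    · rw [map_cons, cons_append, replicate_add]
      exact perm_middle.trans (.cons _ ((l2.append_left _).trans (perm_append_comm_assoc _ _ _)))
    · clear h ih e3
      induction m generalizing t with
      | zero => exact ⟨⟨by simp; omega, l3.mono (by simp; omega)⟩, by simp; omega,
          l4.mono (by simp; omega)⟩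
      | succ m ih =>
        have := ih (t + 1) (by omega) (by omega) (by omega)
        exact ⟨⟨by simp; omega, this.1.mono (by simp; omega)⟩, by simp; omega,
          this.2.mono (by simp)⟩

variable {n : ℕ} (p : Fin n → Fin 3 → ℕ) (T : ℕ)

def Feas : Prop := ∃ s : Fin n → Fin 3 → ℕ,
  (∀ j, s j 0 + p j 0 ≤ s j 1 ∧ s j 1 + p j 1 ≤ s j 2) ∧
  (∀ (i : Fin 3) (j j' : Fin n), j ≠ j' → s j i + p j i ≤ s j' i ∨ s j' i + p j' i ≤ s j i) ∧
  (∀ j, s j 2 + p j 2 ≤ T)

def Ord (z : ℕ) : Prop := ∃ l, l ~ (finRange n).map some ++ replicate z none ∧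
  V (·.elim 0 (p · 0)) (·.elim 1 (p · 1)) 0 l ∧
  V (·.elim 1 (p · 1)) (·.elim 0 (p · 2)) (T - sm (p · 2) (finRange n)) l

variable {p T}

theorem Feas.ord (h : Feas p T) : sm (p · 2) (finRange n) ≤ T ∧ ∃ z ≤ T, Ord p T z := by
  obtain ⟨s, h1, h2, h3⟩ := h
  have d : ∀ i {l : List (Fin n)}, l.Nodup → l.Pairwise fun j j' =>
    s j i + p j i ≤ s j' i ∨ s j' i + p j' i ≤ s j i := fun i l h => h.imp (h2 i _ _)
  refine ⟨by simpa using pack' (s · 2) T.zero_le (d 2 (nodup_finRange n)) (by simpa using h3), ?_⟩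
  have e1 := mergeSort_perm (finRange n) fun i j => 2 * s i 1 + p i 1 ≤ 2 * s j 1 + p j 1
  have e2 := pairwise_mergeSort (le := fun i j => 2 * s i 1 + p i 1 ≤ 2 * s j 1 + p j 1)
    (fun _ _ _ => by simp; omega) (fun _ _ => by simp; omega) (finRange n)
  generalize mergeSort _ _ = σ at e1 e2
  have e3 := e1.symm.nodup (nodup_finRange n)
  have e4 : σ.Pairwise fun i j => s i 1 + p i 1 ≤ s j 1 :=
    (e2.and (d 1 e3)).imp fun h => by simp at h; omega
  obtain ⟨z, l, l1, l2, l3, l4⟩ := build (a := (p · 0)) (b := (p · 1)) (c := (p · 2)) (s · 1) T σ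
    0 0 le_rfl T.zero_le (by
      rintro u j v rfl
      simp only [pairwise_append, pairwise_cons] at e4
      have := h1 j
      have := h3 j
      have f1 := pack' (a := (p · 0)) (l := u ++ [j]) (s · 0) (s j 1).zero_le
        (d 0 (e3.sublist (by simp))) fun i m => by
          have := h1 i
          rcases mem_append.1 m with m | m
          · have := e4.2.2 i m j (by simp); omega
          · simp at m; subst m; omega
      have f2 := pack' (a := (p · 2)) (l := j :: v) (x := s j 1 + p j 1) (y := T) (s · 2) (by omega)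
        (d 2 (e3.sublist (by simp))) fun i m => by
          have := h1 i
          have := h3 i
          rcases mem_cons.1 m with m | m
          · subst m; omega
          · have := e4.2.1.1 i m; omega
      simp at f1 f2 ⊢; omega) e4
  exact ⟨z, by omega, l, l2.trans ((e1.map _).append_right _), by simpa using l3,
    by simpa [sm_perm e1] using l4⟩

theorem Ord.feas {z : ℕ} (e : sm (p · 2) (finRange n) ≤ T) (h : Ord p T z) : Feas p T := by
  obtain ⟨l, h, h1, h2⟩ := h
  have m : ∀ j, l.idxOf (some j) < l.length := fun j => idxOf_lt_length_iff.2 (h.symm.subset (by simp))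
  have k : ∀ (f : Option (Fin n) → ℕ) j, sm f (l.take (l.idxOf (some j) + 1)) =
      sm f (l.take (l.idxOf (some j))) + f (some j) := fun f j => by
    simp [take_succ_eq_append_getElem (m j)]
  have o : ∀ (f : Option (Fin n) → ℕ) {i j}, i ≤ j → sm f (l.take i) ≤ sm f (l.take j) :=
    fun f i j h => ((take_sublist_take_left h).map f).sum_le_sum (by simp)
  have d : ∀ (f : Option (Fin n) → ℕ) j j', j ≠ j' → sm f (l.take (l.idxOf (some j))) + f (some j) ≤
      sm f (l.take (l.idxOf (some j'))) ∨ sm f (l.take (l.idxOf (some j'))) + f (some j') ≤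
      sm f (l.take (l.idxOf (some j))) := fun f j j' h => by
    rw [← k, ← k]
    exact (lt_or_gt_of_ne fun e => h (by
      simpa using (idxOf_inj (y := some j') (idxOf_lt_length_iff.1 (m j))).1 e)).imp (o f) (o f)
  rw [V_iff] at h1 h2
  refine ⟨fun j => ![sm (·.elim 0 (p · 0)) (l.take (l.idxOf (some j))),
    sm (·.elim 1 (p · 1)) (l.take (l.idxOf (some j))), T - sm (p · 2) (finRange n) +
    sm (·.elim 0 (p · 2)) (l.take (l.idxOf (some j)))], fun j => ?_, fun i j j' h => ?_, fun j => ?_⟩
  · have := h1 _ (m j)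
    have := h2 _ (m j)
    simp [k] at *; omega
  · fin_cases i
    · simpa using d (·.elim 0 (p · 0)) j j' h
    · simpa using d (·.elim 1 (p · 1)) j j' h
    · simpa [add_assoc] using d (·.elim 0 (p · 2)) j j' h
  · have := o (·.elim 0 (p · 2)) (Nat.succ_le_of_lt (m j))
    rw [take_length, sm_perm h, k] at this
    simp [sm, Function.comp_def] at *; omega

end Pool.Agent.H23.F3
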