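import Pool.Agent.H23.F3c
import Pool.Agent.H23.F3d

set_option autoImplicit false

namespace Pool.Agent.H23.F3
open List Pool.Agent.H25.FP

theorem NF.out {τ σ : Type} {a b a' b' : τ → ℕ} {f : σ → τ} {Λ N : ℕ} {g s : ℤ} {l : List σ}
    (h : NF (fun t => a (f t)) (fun t => b (f t)) (fun t => a' (f t)) (fun t => b' (f t)) Λ N g s l) :
    ∃ P, G a b g P ∧ G a' b' s P ∧ ex P ~ l.map f ∧ P.length ≤ N ∧
      ∀ x ∈ P, (∃ w : List σ, w.length ≤ Λ ∧ x.1 = w.map f) ∧ x.2 ≤ l.length := by
  obtain ⟨P, h1, h2, h3, h4, h5⟩ := h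
  have k : ∀ {a b : τ → ℕ} (P : List (List σ × ℕ)) g, G (fun t => a (f t)) (fun t => b (f t)) g P →
      G a b g ((P.filter fun x => !x.1.isEmpty).map fun x => (x.1.map f, x.2)) := fun {a b} P => by
    induction P with
    | nil => exact fun _ _ => trivial
    | cons x P ih =>
      obtain ⟨w, x⟩ := x
      intro g h
      have e : dl a b (w.map f) = dl (fun t => a (f t)) (fun t => b (f t)) w := by
        simp [dl, Function.comp_def]
      cases w with
      | nil => simpa using ih _ h.2.2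
      | cons t w =>
        rw [filter_cons_of_pos (by simp), map_cons]
        exact ⟨(V_map ..).2 h.1, (V_map ..).2 (e ▸ h.2.1), e ▸ ih _ h.2.2⟩
  have k' : ex ((P.filter fun x => !x.1.isEmpty).map fun x => (x.1.map f, x.2)) = (ex P).map f := by
    clear h1 h2 h3 h4 h5
    induction P with
    | nil => rfl
    | cons x P ih =>
      obtain ⟨w, x⟩ := x
      cases w <;> simp [ex_cons, ih, -flatten_replicate_replicate, map_flatten]
  refine ⟨_, k P g h1, k P s h2, k' ▸ h3.map f, by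
    simpa using (length_filter_le _ _).trans h4, fun x m => ?_⟩
  obtain ⟨x, m', rfl⟩ := mem_map.1 m
  replace m := mem_filter.1 m'
  refine ⟨⟨_, h5 x m.1, rfl⟩, ?_⟩
  obtain ⟨u, v, rfl⟩ := append_of_mem m.1
  have := Nat.mul_le_mul_left x.2 (length_pos_iff.2 (by simpa using m.2) : 0 < x.1.length)
  rw [← h3.length_eq]
  simp [ex] at this ⊢; omega

def co (φ : List ℕ → ℕ) (ws : List (List ℕ)) (m : ℕ) : List ℕ :=
  (range m).map fun i => φ (ws.getD i [])

def PP (ws : List (List ℕ)) (y : ℕ → ℕ) (m : ℕ) : List (List ℕ × ℕ) :=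
  (range m).map fun i => (ws.getD i [], y i)

def vr (a b : ℕ → ℕ) (g : ℕ) (ws : List (List ℕ)) : List Row :=
  (range ws.length).flatMap fun i => (range 2).flatMap fun f =>
    (range (ws.getD i []).length).map fun j =>
      ((co (sm a) ws (i + f), sm a ((ws.getD i []).take (j + 1)) + f * sm b (ws.getD i [])),
        co (sm b) ws (i + f), g + sm b ((ws.getD i []).take j) + f * sm a (ws.getD i []))

variable {a b : ℕ → ℕ} {ws : List (List ℕ)} {y : ℕ → ℕ} {q g T : ℕ} {jb : List ℕ}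

theorem dot_co {φ : List ℕ → ℕ} (h0 : φ [] = 0) (h : ∀ l l', φ (l ++ l') = φ l + φ l') (m : ℕ) :
    dot (co φ ws m) y = φ (ex (PP ws y m)) := by
  have : ∀ x w, φ (replicate x w).flatten = φ w * x := fun x w => by
    induction x <;> simp [replicate_succ, mul_add, add_comm, *]
  rw [co, dot_map]
  induction m with
  | zero => exact h0.symm
  | succ m ih => simp [range_succ, PP, ex, h, this] at ih ⊢; omega

theorem vr_iff : (∀ r ∈ vr a b g ws, Sat y r) ↔ G a b g (PP ws y ws.length) := by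
  have : ∀ m, G a b g (PP ws y m) ↔ ∀ i < m, ∀ f < 2,
      V a b (g + dl a b (ex (PP ws y (i + f))) - f * dl a b (ws.getD i [])) (ws.getD i []) := by
    intro m
    induction m with
    | zero => simp [PP, G]
    | succ m ih =>
      have e : PP ws y (m + 1) = PP ws y m ++ [(ws.getD m [], y m)] := by simp [PP, range_succ]
      rw [Nat.forall_lt_succ_right, ← ih, Nat.forall_lt_succ_right, Nat.forall_lt_succ_right, e, G_app]
      simp [G, ex, add_assoc]
  simp only [this, vr, forall_mem_flatMap, forall_mem_map, mem_range, V_iff, Sat,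
    dot_co sm_nil fun _ => sm_app, dl_sm]
  refine forall₂_congr fun i _ => forall₂_congr fun f _ => forall₂_congr fun j _ => ?_
  zify
  constructor <;> intro <;> linarith

def rows (q : ℕ) (jb : List ℕ) (g : ℕ) (ws : List (List ℕ)) : List Row :=
  vr (· % q) (· / q % q) 0 ws ++ (vr (· / q % q) (· / q / q % q) g ws ++
    ((co (countP (· != q)) ws ws.length, 0), [], jb.countP (· != q)) ::
    (range (q * q * q)).map fun t => (([], jb.count t), co (count t) ws ws.length, 0))

def OrdN (q : ℕ) (jb : List ℕ) (g z : ℕ) : Prop := ∃ l, l ~ jb ++ replicate z q ∧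
  V (· % q) (· / q % q) 0 l ∧ V (· / q % q) (· / q / q % q) g l

theorem rows_iff : (∀ r ∈ rows q jb g ws, Sat y r) ↔ G (· % q) (· / q % q) 0 (PP ws y ws.length) ∧
    G (· / q % q) (· / q / q % q) g (PP ws y ws.length) ∧
    (ex (PP ws y ws.length)).countP (· != q) ≤ jb.countP (· != q) ∧
    ∀ t < q * q * q, jb.count t ≤ (ex (PP ws y ws.length)).count t := by
  simp only [rows, forall_mem_append, vr_iff, forall_mem_cons, forall_mem_map, mem_range]
  simp [Sat, dot_co countP_nil fun _ _ => countP_append, dot_co count_nil fun _ _ => count_append,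
    show dot [] y = 0 from rfl]

theorem rows_sound (h : ∀ t ∈ jb, t < q * q * q) (e : ∀ r ∈ rows q jb g ws, Sat y r) :
    ∃ z, OrdN q jb g z := by
  obtain ⟨e1, e2, e3, e4⟩ := rows_iff.1 e
  have k := subperm_append_diff_self_of_count_le fun t m => e4 t (h t m)
  rw [← k.countP_eq, countP_append] at e3
  generalize List.diff _ jb = r at k e3
  rw [(eq_replicate_iff (a := q) (l := r)).2 ⟨rfl, fun t m => by
    simpa using countP_eq_zero.1 (show countP (· != q) r = 0 by omega) t m⟩] at k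
  exact ⟨_, _, k.symm, e1.sound, e2.sound⟩

theorem len_fm {α β : Type} {l : List α} {f : α → List β} {c : ℕ} (h : ∀ x ∈ l, (f x).length ≤ c) :
    (l.flatMap f).length ≤ l.length * c := by
  rw [length_flatMap]
  simpa using sum_le_card_nsmul (l.map fun x => (f x).length) c (by simpa using h)

theorem rows_size {N Λ X : ℕ} (hq : 0 < q) (h : ws.length ≤ N) (h' : ∀ w ∈ ws, w.length ≤ Λ)
    (hX : 2 * (N * (2 * Λ)) + q * q * q + 1 + N + Λ * q ≤ X) : (rows q jb g ws).length ≤ X ∧
    ∀ r ∈ rows q jb g ws, (r.1.1.length ≤ X ∧ ∀ c ∈ r.1.1, c ≤ X) ∧ r.2.1.length ≤ X ∧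
      ∀ c ∈ r.2.1, c ≤ X := by
  have w : ∀ i, (ws.getD i []).length ≤ Λ := fun i => by
    by_cases c : i < ws.length
    · rw [getD_eq_getElem _ _ c]; exact h' _ (getElem_mem _)
    · rw [getD_eq_default _ _ (by omega)]; simp
  have := Nat.le_mul_of_pos_right Λ hq
  have c : ∀ (φ : List ℕ → ℕ) m, m ≤ ws.length → (∀ w, φ w ≤ w.length * q) →
      (co φ ws m).length ≤ X ∧ ∀ c ∈ co φ ws m, c ≤ X := fun φ m e k => ⟨by simp [co]; omega, by
    simp only [co, forall_mem_map]
    exact fun i _ => (k _).trans ((Nat.mul_le_mul_right _ (w i)).trans (by omega))⟩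
  have s : ∀ (f : ℕ → ℕ) (w : List ℕ), sm (f · % q) w ≤ w.length * q := fun f w => by
    simpa [sm] using sum_le_card_nsmul (w.map (f · % q)) q (by
      simpa using fun x _ => (Nat.mod_lt _ hq).le)
  have v : ∀ (f f' : ℕ → ℕ) g, (vr (f · % q) (f' · % q) g ws).length ≤ N * (2 * Λ) ∧
      ∀ r ∈ vr (f · % q) (f' · % q) g ws, (r.1.1.length ≤ X ∧ ∀ c ∈ r.1.1, c ≤ X) ∧
      r.2.1.length ≤ X ∧ ∀ c ∈ r.2.1, c ≤ X := fun f f' g => by
    refine ⟨(len_fm (c := 2 * Λ) fun i _ => (len_fm (c := Λ) fun _ _ => by simpa using w i).trans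
      (by simp)).trans (Nat.mul_le_mul_right _ (by simpa)), ?_⟩
    simp only [vr, forall_mem_flatMap, forall_mem_map, mem_range]
    exact fun i _ e _ _ _ => ⟨c _ _ (by omega) (s f), c _ _ (by omega) (s f')⟩
  have v1 := v id (· / q) 0
  have v2 := v (· / q) (· / q / q) g
  simp only [rows, forall_mem_append, forall_mem_cons, forall_mem_map, length_append, id] at v1 v2 ⊢
  refine ⟨by simp; omega, v1.2, v2.2, ⟨c _ _ le_rfl fun w => countP_le_length.trans
    (Nat.le_mul_of_pos_right _ hq), by simp⟩, fun t _ => ⟨by simp, c _ _ le_rfl fun w =>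
    count_le_length.trans (Nat.le_mul_of_pos_right _ hq)⟩⟩

def pK (p : ℕ) : ℕ := p * (2 * p)
def pJ (p : ℕ) : ℕ := p * pK p + 2 * pK p
def pB (p : ℕ) : ℕ := 2 * (p * pK p) + pK p + p * pJ p + 2 * p
def pL (p : ℕ) : ℕ := pB p * pB p + 2 * p
def pW (p a : ℕ) : ℕ := (pL p + 1) * a
def p0 (p a : ℕ) : ℕ := ((pB p * pB p + 1) * (pB p * pB p) + 1) * (pW p a + 1)
def p5 (p a : ℕ) : ℕ :=
  (pJ p + 1) * (p0 p a + (pW p a + pW p a + p0 p a) + 1) + (pK p + (pW p a + pW p a + pK p))
def pN (p a : ℕ) : ℕ := p0 p a + (p5 p a + p0 p a) + (p5 p a + (p0 p a + (p5 p a + p0 p a)))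
def pX (p a : ℕ) : ℕ := 2 * (pN p a * (2 * pL p)) + p * p * p + 1 + pN p a + pL p * p + pW p a
def e1 (p : ℕ) : ℕ := (p * p * p + pL p) * (p * p * p + pL p)
def e2 (p a : ℕ) : ℕ := (4 * (pX p a * pX p a) + 5) * (4 * (pX p a * pX p a) + 5)
def WL (q a : ℕ) : List (List ℕ) := (range (pL q + 1)).flatMap fun n => enumL (q * q * q) n a

def Alg (q : ℕ) (jb : List ℕ) (g T a a' : ℕ) : Prop := ∃ n ∈ range (pN q a + 1),
  ∃ sk ∈ enumL (WL q a).length n a',
    ILP (rows q jb g (sk.map fun i => (WL q a).getD i [])) (pX q a) (jb.length + T) a'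

theorem Alg.sound {a a' : ℕ} (h : ∀ t ∈ jb, t < q * q * q) (e : Alg q jb g T a a') :
    ∃ z, OrdN q jb g z :=
  let ⟨_, _, _, _, e⟩ := e; let ⟨_, e⟩ := e.sound; rows_sound h e

theorem OrdN.alg {z : ℕ} (hq : 2 ≤ q) (h : ∀ t ∈ jb, t < q * q * q) (hz : z ≤ T)
    (e : OrdN q jb g z) : Alg q jb g T (2 ^ e1 q) (2 ^ e2 q (2 ^ e1 q)) := by
  obtain ⟨l, e, v, v'⟩ := e
  have q3 : q < q * q * q := by nlinarith [Nat.mul_le_mul hq hq]
  have : NeZero (q * q * q) := ⟨by omega⟩
  lift l to List (Fin (q * q * q)) using fun t m => by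
    rcases mem_append.1 (e.subset m) with m | m
    · exact h t m
    · exact eq_of_mem_replicate m ▸ q3
  have w1 : ∀ w : List (Fin (q * q * q)), w.length ≤ pL q → w.map Fin.val ∈ WL q (2 ^ e1 q) :=
    fun w k => mem_flatMap.2 ⟨w.length, by simp; omega, mem_enumL (pw (by omega) (by omega)) _
      (by simp) (by simp)⟩
  have w2 : (WL q (2 ^ e1 q)).length ≤ pW q (2 ^ e1 q) := by
    simpa [pW, WL] using len_fm (l := range (pL q + 1)) (c := 2 ^ e1 q) fun n _ =>
      (enumL_inv (q * q * q) n _).1.trans (max_le le_rfl Nat.one_le_two_pow)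
  generalize 2 ^ e1 q = a at *
  have md : ∀ x, x % q ≤ q := fun x => (Nat.mod_lt _ (by omega)).le
  obtain ⟨P, g1, g2, g3, g4, g5⟩ := NF.out (a := (· % q)) (b := (· / q % q)) (a' := (· / q % q))
    (b' := (· / q / q % q)) (f := Fin.val) (nf (p := q) (Λ := pL q) (k := pK q) (J := pJ q)
    (B := pB q) (N0 := p0 q a) (N5 := p5 q a) (W := (WL q a).map (·.map (Fin.ofNat _)) ++
      replicate (pW q a - (WL q a).length) []) ⟨by omega, le_rfl, le_rfl, by unfold pB; omega,
      by unfold pB; omega, by unfold pL; omega, by unfold pL; omega⟩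
    (fun w k => mem_append_left _ (mem_map.2 ⟨_, w1 w k, by simp [Function.comp_def]⟩))
    (fun _ => md _) (fun _ => md _) (fun _ => md _) (fun _ => md _)
    (by simp [p0, Nat.add_sub_cancel' w2]) (by simp [p5, Nat.add_sub_cancel' w2]) le_rfl
    ((V_map Fin.val l).1 v) ((V_map Fin.val l).1 v'))
  have hX := Nat.le_mul_self (pX q a)
  have x1 : 2 * (pN q a * (2 * pL q)) + q * q * q + 1 + pN q a + pL q * q + pW q a = pX q a := rfl
  have m : ∀ w ∈ P.map Prod.fst, w ∈ WL q a ∧ w.length ≤ pL q := by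
    simp only [forall_mem_map]
    intro x m
    obtain ⟨w, k, e⟩ := (g5 x m).1
    exact e ▸ ⟨w1 w k, by simpa⟩
  have g4 : (P.map Prod.fst).length ≤ pN q a := by simpa [pN] using g4
  refine ⟨(P.map Prod.fst).length, mem_range.2 (by omega), (P.map Prod.fst).map (WL q a).idxOf,
    mem_enumL (pw (by omega) (by omega)) _ (by simp) (forall_mem_map.2 fun w k =>
      idxOf_lt_length_iff.2 (m w k).1), ?_⟩
  rw [map_map, map_congr_left (g := id) fun w k => by
    simp [idxOf_lt_length_iff.2 (m w k).1], map_id]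
  have s := rows_size (jb := jb) (g := g) (X := pX q a) (by omega : 0 < q) g4 (fun w k => (m w k).2)
    (by omega)
  have g3 := g3.trans e
  refine ILP.complete le_rfl s.1 s.2 (y := fun i => (P.getD i ([], 0)).2) (fun i => ?_)
    (rows_iff.2 ?_)
  · have := e.length_eq
    by_cases c : i < P.length
    · rw [getD_eq_getElem _ _ c]
      have := (g5 _ (getElem_mem c)).2
      simp at *; omega
    · rw [getD_eq_default _ _ (by omega)]; simp
  rw [show PP _ _ _ = P from ext_getElem (by simp [PP]) fun i _ k => by simp [PP, k]]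
  exact ⟨g1, g2, by simp [g3.countP_eq, countP_replicate], fun t _ => by simp [g3.count_eq]⟩

end Pool.Agent.H23.F3
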