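import Pool.Agent.H23.F3e

set_option autoImplicit false

namespace Pool.Agent.H23.F3
open List Pool.Agent.H11.PT Pool.Agent.H23.Ori Pool.Agent.H25.FP Polynomial

variable {α β γ : Type} [Enc α] [Enc β]

theorem pad1 {e : α → ℕ} (he : PT e) :
    RM (fun x => sz x + 2 ^ e x) bits fun x => (x, 2 ^ e x) := by
  have k : ∀ (n : ℕ) (x : α) (c : ℕ), (List.replicate n ()).foldl
      (fun (s : α × ℕ) (_ : Unit) => (s.1, s.2 + s.2)) (x, c) = (x, 2 ^ n * c) := by
    intro n
    induction n with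
    | zero => simp
    | succ n ih => intro x c; rw [List.replicate_succ, List.foldl_cons, ih, pow_succ]; congr 1; ring
  simpa only [k, mul_one] using RM.fold (μ := fun x => sz x + 2 ^ e x) (fun x => Nat.le_add_right _ _)
    (fun (s : α × ℕ) (_ : Unit) => (s.1, s.2 + s.2)) (by fun_prop)
    (l := fun x => List.replicate (e x) ()) (i := fun x => (x, 1)) (by fun_prop) (C 2 * X + C 2)
    (fun x n => by
      rw [List.take_replicate, k]
      have : 2 ^ min n (e x) ≤ 2 ^ e x := Nat.pow_le_pow_right (by omega) (min_le_right _ _)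
      simp only [sz_pair, sz_nat, eval_add, eval_mul, eval_C, eval_X]; omega)

theorem pt_bd {e : α → ℕ} (he : PT e) : ∃ c d, ∀ x, e x ≤ c * (sz x + 1) ^ d := by
  obtain ⟨q, h⟩ := he.out
  obtain ⟨c, d, k⟩ := poly_bound q
  exact ⟨c, d, fun x => by have := h x; have := k (sz x) 0; simp at *; omega⟩

theorem run_tm {P : Pg} {a b : List Bool} {t : ℕ} (h : Run P (cs a E) (cs b E) t) :
    Nonempty (Turing.TM2OutputsInTime (mach P) a (some b) t) := by
  obtain ⟨t0, ht, e⟩ := h.sim (N := bd P) (trn (bd P) P id none) le_rfl id none (fun _ => rfl)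
  refine ⟨⟨⟨t0, ?_⟩, ht⟩⟩
  have h1 : Turing.initList (mach P) a = cf (bd P) (some (ent P)) (cs a E) := by
    unfold Turing.initList cf
    congr 1
    funext j
    rw [cs_E_eq]
    split_ifs with h1 h2 h2
    · rfl
    · exact absurd h1 h2
    · exact absurd h2 h1
    · rfl
  have h2 : Turing.haltList (mach P) b = cf (bd P) none (cs b E) := by
    unfold Turing.haltList cf
    congr 1
    funext j
    rw [cs_E_eq]
    split_ifs with h1 h2 h2
    · rfl
    · exact absurd h1 h2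
    · exact absurd h2 h1
    · rfl
  rw [h1, Option.map_some, h2]
  exact e

theorem pad2 {κ : List Bool → ℕ} (hκ : PT κ) {e : ℕ → ℕ} {e' : ℕ × ℕ → ℕ} (he : PT e) (he' : PT e')
    {W : (List Bool × ℕ) × ℕ → Bool} (hW : PT W) : ∃ f : ℕ → ℕ, Computable f ∧ ∃ (c : ℕ) (P : Pg),
      ∀ w, Run P (cs w E) (cs [W ((w, 2 ^ e (κ w)), 2 ^ e' (κ w, 2 ^ e (κ w)))] E)
        (f (κ w) * (w.length + 1) ^ c) := by
  obtain ⟨P0, q0, h0⟩ := RT.raw
  obtain ⟨P1, q1, h1⟩ := pad1 (e := fun w => e (κ w)) (by fun_prop)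
  obtain ⟨P2, q2, h2⟩ := RM.comp (fun x => Nat.le_add_right _ _)
    (RT.comp (f := fun b => b) RT.boolOut hW)
    (pad1 (e := fun y : List Bool × ℕ => e' (κ y.1, y.2)) (by fun_prop))
  obtain ⟨c, d, k⟩ := pt_bd he
  obtain ⟨c', d', k'⟩ := pt_bd he'
  obtain ⟨c0, d0, k0⟩ := poly_bound (q0 + (q1 + q2).comp (X + q0 + C 2))
  obtain ⟨F, f1, f2⟩ : ∃ F : ℕ → ℕ, Primrec F ∧ ∀ n, 2 ^ e n ≤ F n := ⟨_, prim_pow.comp
    (.const 2) (Primrec.nat_mul.comp (.const c) (prim_pow.comp (Primrec.succ.comp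
    (Primrec.succ.comp (Primrec.nat_mul.comp (.const 2) .id))) (.const d))), fun n =>
    Nat.pow_le_pow_right (by omega) (by simpa using k n)⟩
  obtain ⟨F', f3, f4⟩ : ∃ F' : ℕ → ℕ, Primrec F' ∧ ∀ n, 2 ^ e' (n, 2 ^ e n) ≤ F' n := ⟨_, prim_pow.comp
    (.const 2) (Primrec.nat_mul.comp (.const c') (prim_pow.comp (Primrec.nat_mul.comp (.const 4)
    (Primrec.succ.comp (Primrec.nat_add.comp .id f1))) (.const d'))), fun n =>
    Nat.pow_le_pow_right (by omega) ((k' _).trans (Nat.mul_le_mul_left _ (Nat.pow_le_pow_left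
      (by have := f2 n; simp; omega) _)))⟩
  refine ⟨_, (Primrec.nat_mul.comp (.const c0) (prim_pow.comp (Primrec.succ.comp
    (Primrec.nat_add.comp (Primrec.nat_mul.comp (.const 2) f1) f3)) (.const d0))).to_comp, d0,
    .seq P0 (.seq P1 P2), fun w => ((h0 w).seq ((h1 w).seq (h2 _))).mono (le_trans ?_ (k0 _ _))⟩
  have := (h0 w).len 0
  have := f2 (κ w)
  have := f4 (κ w)
  have a := fun q => ev_mono q (Nat.le_add_right w.length (2 * F (κ w) + F' (κ w)))
  have := a q0
  simp only [eval_add, eval_comp, eval_X, eval_C, cs, sz_pair, sz_nat] at *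
  exact add_le_add (a _) (add_le_add (ev_mono _ (by unfold sz; omega)) (ev_mono _ (by unfold sz; omega)))

section
variable {p a : α → ℕ} (hp : PT p)
include hp
@[fun_prop] theorem tK : PT fun x => pK (p x) := by unfold pK; fun_prop
@[fun_prop] theorem tJ : PT fun x => pJ (p x) := by unfold pJ; fun_prop
@[fun_prop] theorem tB : PT fun x => pB (p x) := by unfold pB; fun_prop
@[fun_prop] theorem tL : PT fun x => pL (p x) := by unfold pL; fun_prop
@[fun_prop] theorem tW (ha : PT a) : PT fun x => pW (p x) (a x) := by unfold pW; fun_prop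
@[fun_prop] theorem t0 (ha : PT a) : PT fun x => p0 (p x) (a x) := by unfold p0; fun_prop
@[fun_prop] theorem t5 (ha : PT a) : PT fun x => p5 (p x) (a x) := by unfold p5; fun_prop
@[fun_prop] theorem tN (ha : PT a) : PT fun x => pN (p x) (a x) := by unfold pN; fun_prop
@[fun_prop] theorem tX (ha : PT a) : PT fun x => pX (p x) (a x) := by unfold pX; fun_prop
@[fun_prop] theorem tWL (ha : PT a) : PT fun x => WL (p x) (a x) := by unfold WL; fun_prop
@[fun_prop] theorem tR {j : α → List ℕ} {w : α → List (List ℕ)} (hj : PT j) (ha : PT a) (hw : PT w) :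
    PT fun x => rows (p x) (j x) (a x) (w x) := by unfold rows vr co sm; fun_prop
@[fun_prop] theorem tA {j : α → List ℕ} {g T b : α → ℕ} (hj : PT j) (hg : PT g) (hT : PT T)
    (ha : PT a) (hb : PT b) : PT fun x => dc (Alg (p x) (j x) (g x) (T x) (a x) (b x)) := by
  unfold Alg; fun_prop
end

def jbs (q : ℕ) (L : List ℕ) : List ℕ := (range (L.length / 3)).map fun j =>
  L.getD (3 * j) 0 + q * (L.getD (3 * j + 1) 0 + q * L.getD (3 * j + 2) 0)

theorem jbs_eq (q : ℕ) (L : List (Fin 3 → ℕ)) :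
    jbs q (L.map ofFn).flatten = L.map fun f => f 0 + q * (f 1 + q * f 2) := by
  induction L with
  | nil => rfl
  | cons f L ih =>
    rw [map_cons, map_cons, ← ih, flatten_cons]
    generalize (L.map ofFn).flatten = M
    simp [jbs, ofFn_succ, show (M.length + 1 + 1 + 1) / 3 = M.length / 3 + 1 by omega,
      range_succ_eq_map, mul_add]

def kp (w : List Bool) : ℕ := (decN w).tail.foldr max 0

def Dec (w : List Bool) (a b : ℕ) : Prop :=
  sm (· / (kp w + 2) / (kp w + 2) % (kp w + 2)) (jbs (kp w + 2) (decN w).tail) ≤ (decN w).headD 0 ∧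
  Alg (kp w + 2) (jbs (kp w + 2) (decN w).tail) ((decN w).headD 0 -
    sm (· / (kp w + 2) / (kp w + 2) % (kp w + 2)) (jbs (kp w + 2) (decN w).tail))
    ((decN w).headD 0) a b

theorem feas_iff {n T q : ℕ} {p : Fin n → Fin 3 → ℕ} {j : List ℕ} (hq : 2 ≤ q) (h : ∀ j i, p j i < q)
    (e : j = (finRange n).map fun j => p j 0 + q * (p j 1 + q * p j 2)) : Feas p T ↔
    sm (· / q / q % q) j ≤ T ∧ Alg q j (T - sm (· / q / q % q) j) T (2 ^ e1 q)
      (2 ^ e2 q (2 ^ e1 q)) := by
  obtain ⟨f, hf⟩ : ∃ f : Option (Fin n) → ℕ, f = (·.elim q fun j => p j 0 + q * (p j 1 + q * p j 2)) :=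
    ⟨_, rfl⟩
  have d : ∀ x y, x < q → (x + q * y) / q = y := fun x y h => by
    rw [Nat.add_mul_div_left _ _ (by omega), Nat.div_eq_of_lt h, zero_add]
  have m := fun j i => Nat.mod_eq_of_lt (h j i)
  have q0 : q / q = 1 := Nat.div_self (by omega)
  have f0 : (fun t => f t % q) = (·.elim 0 (p · 0)) := funext fun t => by cases t <;> simp [hf, m]
  have f1 : (fun t => f t / q % q) = (·.elim 1 (p · 1)) := funext fun t => by
    cases t <;> simp [hf, m, d, h, q0, Nat.mod_eq_of_lt hq]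
  have f2 : (fun t => f t / q / q % q) = (·.elim 0 (p · 2)) := funext fun t => by
    cases t <;> simp [hf, m, d, h, q0, Nat.div_eq_of_lt hq]
  have f3 : sm (· / q / q % q) j = sm (p · 2) (finRange n) := by
    simp [e, sm, Function.comp_def, m, d, h]
  have f4 : ∀ z, j ++ replicate z q = ((finRange n).map some ++ replicate z none).map f := by
    simp [e, hf]
  have f5 : ∀ t ∈ j, t < q * q * q := by
    rw [e, forall_mem_map]
    intro i _
    have := h i 0
    have := Nat.mul_le_mul_left q (Nat.succ_le_of_lt (h i 2))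
    have := Nat.mul_le_mul_left q (show p i 1 + q * p i 2 + 1 ≤ q * q by have := h i 1; nlinarith)
    nlinarith
  rw [f3]
  constructor
  · intro k
    obtain ⟨k, z, hz, l, l1, l2, l3⟩ := k.ord
    exact ⟨k, OrdN.alg hq f5 hz ⟨l.map f, f4 z ▸ l1.map f, by rwa [V_map, f0, f1],
      by rwa [V_map, f1, f2, Nat.cast_sub k]⟩⟩
  · rintro ⟨k, k'⟩
    obtain ⟨z, l, l1, l2, l3⟩ := k'.sound f5
    rw [f4] at l1
    obtain ⟨l, rfl, l4⟩ := (congrFun₂ (eq_map_comp_perm f) _ _).ge l1
    exact Ord.feas k ⟨l, l4, by rwa [V_map, f0, f1] at l2, by rwa [V_map, f1, f2, Nat.cast_sub k] at l3⟩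

theorem main : ∃ f : ℕ → ℕ, Computable f ∧ ∃ c : ℕ, ∃ tm : Turing.FinTM2,
    ∃ e₀ : tm.Γ tm.k₀ ≃ Bool, ∃ e₁ : tm.Γ tm.k₁ ≃ Bool,
    ∀ (n : ℕ) (p : Fin n → Fin 3 → ℕ) (T : ℕ) (w : List Bool),
      w = encN (T :: (ofFn fun j : Fin n => ofFn fun i : Fin 3 => p j i).flatten) →
      ∃ b : Bool, (b = true ↔ Feas p T) ∧
        Nonempty (Turing.TM2OutputsInTime tm (w.map e₀.symm) (some [e₁.symm b])
          (f (Finset.univ.sup fun x : Fin n × Fin 3 => p x.1 x.2) * (w.length + 1) ^ c)) := by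
  have hκ : PT kp := PT.foldr_add (g := fun _ => max) (by fun_prop) (by fun_prop) (by fun_prop)
    (fun _ b => b) 0 (by fun_prop) fun _ _ _ => by simp; omega
  obtain ⟨f, hf, c, P, h⟩ := pad2 hκ (e := fun k => e1 (k + 2)) (e' := fun k => e2 (k.1 + 2) k.2)
    (by unfold e1; fun_prop) (by unfold e2; fun_prop) (W := fun y => dc (Dec y.1.1 y.1.2 y.2))
    (by unfold Dec jbs sm; fun_prop)
  refine ⟨f, hf, c, mach P, .refl _, .refl _, fun n p T w e => ?_⟩
  have d : decN w = T :: ((ofFn p).map ofFn).flatten := by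
    simpa [e, decN, map_ofFn, Function.comp_def] using decN_encN _ []
  have k : ∀ x, kp w ≤ x ↔ ∀ j i, p j i ≤ x := fun x => by
    have : ∀ L : List ℕ, L.foldr max 0 ≤ x ↔ ∀ a ∈ L, a ≤ x := fun L => by induction L <;> simp [*]
    simp only [kp, d, tail_cons, this, forall_mem_flatten, forall_mem_map, forall_mem_ofFn_iff]
  rw [show Finset.univ.sup _ = kp w from eq_of_forall_ge_iff fun x => by simp [k]]
  refine ⟨dc (Dec w _ _), ?_, run_tm (a := w.map id) (by rw [map_id]; exact h w)⟩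
  rw [dc_iff, Dec, d]
  exact (feas_iff (by omega) (fun j i => by have := (k _).1 le_rfl j i; omega)
    (by rw [tail_cons, jbs_eq, ofFn_eq_map, map_map]; rfl)).symm

end Pool.Agent.H23.F3
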