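import Pool.Agent.H23.Heis

/-! Finitary linear groups over `F_2`. -/
namespace Pool.Agent.H23.FGL

open Filter Topology

abbrev F2 := ZMod 2
abbrev V := ℕ →₀ F2
abbrev GLV := V ≃ₗ[F2] V

def Gall : Subgroup GLV where
  carrier := {g | ∃ n, ∀ v, ∀ i ≥ n, g v i = v i}
  one_mem' := ⟨0, fun _ _ _ => rfl⟩
  mul_mem' := fun ⟨n, h⟩ ⟨m, h'⟩ => ⟨max n m, fun v i hi =>
    (h _ i (le_of_max_le_left hi)).trans (h' v i (le_of_max_le_right hi))⟩
  inv_mem' := fun {g} ⟨n, h⟩ => ⟨n, fun v i hi => by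
    rw [← h _ i hi]; exact congrArg (· i) (g.apply_symm_apply v)⟩

def G0 : Subgroup GLV where
  carrier := {g | g ∈ Gall ∧ ∃ n, ∀ i ≥ n, g (Finsupp.single i 1) = Finsupp.single i 1}
  one_mem' := ⟨one_mem _, 0, fun _ _ => rfl⟩
  mul_mem' := fun {g g'} ⟨a, n, h⟩ ⟨b, m, h'⟩ => ⟨mul_mem a b, max n m, fun i hi => by
    rw [LinearEquiv.mul_apply, h' i (le_of_max_le_right hi), h i (le_of_max_le_left hi)]⟩
  inv_mem' := fun {g} ⟨a, n, h⟩ => ⟨inv_mem a, n, fun i hi => g.symm_apply_eq.2 (h i hi).symm⟩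

theorem two (v : V) : v + v = 0 := by ext i; simp [CharTwo.add_self_eq_zero]

/-- transvection -/
noncomputable def T (v : V) (φ : V →ₗ[F2] F2) (h : φ v = 0) : GLV :=
  LinearEquiv.ofInvolutive (LinearMap.id + φ.smulRight v) fun u => by
    simp [h, add_assoc, two]

theorem T_apply (v : V) (φ : V →ₗ[F2] F2) (h : φ v = 0) (u : V) : T v φ h u = u + φ u • v := rfl

theorem T_all (v : V) (φ : V →ₗ[F2] F2) (h : φ v = 0) : T v φ h ∈ Gall := by
  obtain ⟨n, hn⟩ := v.support.bddAbove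
  refine ⟨n + 1, fun u i hi => ?_⟩
  have : v i = 0 := by_contra fun e => by have := hn (Finsupp.mem_support_iff.2 e); omega
  simp [T_apply, this]

theorem T_0 (v : V) (y : ℕ) (h : v y = 0) : T v (Finsupp.lapply y) h ∈ G0 :=
  ⟨T_all _ _ _, y + 1, fun i hi => by simp [T_apply, Finsupp.single_eq_of_ne (show y ≠ i by omega)]⟩

variable (G : Subgroup GLV) (h1 : G ≤ Gall) (h2 : G0 ≤ G)
include h1 h2

theorem key (F : Finset G) : ∃ n : ℕ, (∀ g ∈ F, ∀ v, ∀ i ≥ n, g.1 v i = v i) ∧
    ∀ h ∈ Subgroup.centralizer (Subgroup.centralizer (F : Set G) : Set G),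
      (∀ v, ∀ i ≥ n, h.1 v i = v i) ∧ ∀ v, (∀ g ∈ F, g.1 v = v) → h.1 v = v := by
  choose m hm using fun g : G => h1 g.2
  have hn : ∀ g ∈ F, ∀ v, ∀ i ≥ F.sup m, g.1 v i = v i :=
    fun g hg v i hi => hm g v i ((Finset.le_sup hg).trans hi)
  refine ⟨F.sup m, hn, fun h hh => ?_⟩
  have c : ∀ v y, v y = 0 → (∀ g ∈ F, g.1 v = v) → F.sup m ≤ y → ∀ u : V,
      u y • h.1 v = h.1 u y • v := by
    intro v y hv hF hy u
    have := hh ⟨_, h2 (T_0 v y hv)⟩ fun g hg => Subtype.ext (LinearEquiv.ext fun u => by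
      simp [T_apply, hF g hg, hn g hg u y hy])
    have := congrArg (fun g : G => g.1 u) this
    simpa [T_apply, eq_comm] using this
  have fix : ∀ v, (∀ g ∈ F, g.1 v = v) → h.1 v = v := by
    intro v hv
    obtain ⟨k, hk⟩ := v.support.bddAbove
    have := c v (max (k + 1) (max (F.sup m) (m h))) (by_contra fun e => by
      have := hk (Finsupp.mem_support_iff.2 e); omega) hv (by omega)
      (Finsupp.single (max (k + 1) (max (F.sup m) (m h))) 1)
    rw [hm h _ _ (by omega)] at this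
    simpa using this
  refine ⟨fun u y hy => ?_, fix⟩
  obtain ⟨v, w, hvw, e⟩ := Finite.exists_ne_map_eq_of_infinite
    fun v : V => (v y, fun (g : F) (i : Fin (F.sup m)) => g.1.1 v i - v i)
  simp only [Prod.mk.injEq] at e
  have hF : ∀ g ∈ F, g.1 (v - w) = v - w := fun g hg => by
    ext i
    rcases lt_or_ge i (F.sup m) with hi | hi
    · have := congrFun (congrFun e.2 ⟨g, hg⟩) ⟨i, hi⟩
      simp only [map_sub, Finsupp.sub_apply] at this ⊢
      linear_combination this
    · exact hn g hg _ i hi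
  have := c (v - w) y (by simp [e.1]) hF hy u
  rw [fix _ hF] at this
  exact (smul_left_injective F2 (sub_ne_zero.2 hvw) this).symm

theorem center : Subgroup.center G = ⊥ := by
  obtain ⟨n, -, h⟩ := key G h1 h2 ∅
  refine eq_bot_iff.2 fun g hg => Subtype.ext (LinearEquiv.ext fun v => ?_)
  exact (h g (fun x _ => Subgroup.mem_center_iff.1 hg x)).2 v (by simp)

theorem fdc (F : Finset G) :
    (Subgroup.centralizer (Subgroup.centralizer (F : Set G) : Set G) : Set G).Finite := by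
  obtain ⟨n, hn, h⟩ := key G h1 h2 F
  let ρ : V → (F → Fin n → F2) := fun v g i => g.1.1 v i - v i
  let s := Function.invFun ρ
  refine Set.Finite.of_finite_image (f := fun g : G => fun (t : F → Fin n → F2) (i : Fin n) =>
    g.1 (s t) i) (Set.toFinite _) fun g hg g' hg' e => Subtype.ext (LinearEquiv.ext fun v => ?_)
  have e1 : ρ (s (ρ v)) = ρ v := Function.invFun_eq ⟨v, rfl⟩
  have hF : ∀ g ∈ F, g.1 (v - s (ρ v)) = v - s (ρ v) := fun g hg => by
    ext i
    rcases lt_or_ge i n with hi | hi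
    · have := congrFun (congrFun e1 ⟨g, hg⟩) ⟨i, hi⟩
      simp only [ρ] at this
      simp only [map_sub, Finsupp.sub_apply]
      linear_combination -this
    · exact hn g hg _ i hi
  have e2 : g.1 (s (ρ v)) = g'.1 (s (ρ v)) := by
    ext i
    rcases lt_or_ge i n with hi | hi
    · exact congrFun (congrFun e (ρ v)) ⟨i, hi⟩
    · rw [(h g hg).1 _ i hi, (h g' hg').1 _ i hi]
  have a := (h g hg).2 _ hF
  have b := (h g' hg').2 _ hF
  rw [map_sub] at a b
  rw [eq_add_of_sub_eq a, eq_add_of_sub_eq b, e2]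

omit h1 h2

instance : Countable G0 := by
  choose n hn using fun g : G0 => g.2.2
  refine Function.Injective.countable (β := Σ n : ℕ, Fin n → V)
    (f := fun g => ⟨n g, fun i => g.1 (Finsupp.single i 1)⟩) fun g g' e => ?_
  have e1 : n g = n g' := congrArg Sigma.fst e
  refine Subtype.ext (LinearEquiv.toLinearMap_injective (Finsupp.lhom_ext' fun i =>
    LinearMap.ext_ring ?_))
  change g.1 (Finsupp.single i 1) = g'.1 (Finsupp.single i 1)
  rcases lt_or_ge i (n g) with hi | hi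
  · have := congrArg (fun p : Σ n : ℕ, Fin n → V => if h : i < p.1 then p.2 ⟨i, h⟩ else 0) e
    simpa [hi, e1 ▸ hi] using this
  · rw [hn g i hi, hn g' i (e1 ▸ hi)]

theorem uncountable : ¬ Countable Gall := fun _ => by
  let φ : (ℕ → F2) → V →ₗ[F2] F2 := fun a => Finsupp.linearCombination F2 fun i => Nat.rec 0 (fun j _ => a j) i
  have := Function.Injective.countable (α := ℕ → F2) (β := Gall)
    (f := fun a => ⟨T (Finsupp.single 0 1) (φ a) (by simp [φ]), T_all _ _ _⟩) fun a b e => by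
      ext j
      simpa [T_apply, φ] using congrArg (fun g : Gall => g.1 (Finsupp.single (j + 1) 1) 0) e
  exact (Cardinal.aleph0_lt_continuum).not_ge
    ((show Cardinal.continuum = Cardinal.mk (ℕ → F2) by
      clear this; simp).trans_le Cardinal.mk_le_aleph0)

theorem coarse : ∃ t : TopologicalSpace G0, @IsTopologicalGroup G0 t _ ∧ @T2Space G0 t ∧
    ∃ b : G0, ¬ IsOpen[t] {x | x * b * x⁻¹ = 1 * b * 1⁻¹} := by
  classical
  obtain ⟨t, tg, t2, ht⟩ := Heis.exists_top (G := G0) (fun F : Finset V =>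
    { carrier := {g | ∀ v ∈ F, g.1 v = v}
      one_mem' := fun _ _ => rfl
      mul_mem' := fun h h' v hv => by simp [h v hv, h' v hv]
      inv_mem' := fun {g} h v hv => g.1.symm_apply_eq.2 (h v hv).symm })
    (fun i j => ⟨i ∪ j, fun g h v hv => h v (by simp [hv]), fun g h v hv => h v (by simp [hv])⟩)
    (fun g F => ⟨F.image g.1.symm, fun x hx v hv => by
      have := hx _ (Finset.mem_image_of_mem _ hv)
      change g.1 (x.1 (g.1.symm v)) = v
      rw [this]; simp⟩)
    (fun x hx => Subtype.ext (LinearEquiv.ext fun v => hx {v} v (by simp)))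
  refine ⟨t, tg, t2, ⟨_, T_0 (Finsupp.single 0 1) 1 (by simp)⟩, fun h => ?_⟩
  obtain ⟨F, hF⟩ := (ht _).1 (h.mem_nhds rfl)
  obtain ⟨k, hk⟩ := (F.biUnion Finsupp.support).bddAbove
  have := hF (a := ⟨_, T_0 (Finsupp.single 1 1) (k + 2) (by simp)⟩) fun v hv => by
    have : v (k + 2) = 0 := by_contra fun e => by
      have := hk (Finset.mem_biUnion.2 ⟨v, hv, Finsupp.mem_support_iff.2 e⟩); omega
    simp [T_apply, this]
  simp only [Set.mem_ofPred_eq, one_mul, inv_one, mul_one, mul_inv_eq_iff_eq_mul] at this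
  simpa [T_apply] using congrArg (fun g : G0 => g.1 (Finsupp.single (k + 2) 1) 0) this

end Pool.Agent.H23.FGL
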