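import Mathlib

set_option autoImplicit false

namespace Pool.Agent.H23.GK
open SimpleGraph

variable {V : Type} {G : SimpleGraph V}

theorem walk_of (p : ℕ → V) (L : ℕ) (h : ∀ i < L, G.Adj (p i) (p (i + 1))) :
    ∃ w : G.Walk (p 0) (p L), w.support = (List.range (L + 1)).map p ∧
      w.edges = (List.range L).map fun i => s(p i, p (i + 1)) := by
  induction L with
  | zero => exact ⟨.nil, by simp, by simp⟩
  | succ L ih =>
    obtain ⟨w, h1, h2⟩ := ih fun i hi => h i (by omega)
    exact ⟨w.concat (h L (by omega)), by simp [h1, List.range_succ], by simp [h2, List.range_succ]⟩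

theorem cycle_of (p : ℕ → V) (L : ℕ) (hL : 2 ≤ L) (h : ∀ i < L, G.Adj (p i) (p (i + 1)))
    (h0 : G.Adj (p L) (p 0)) (hi : ∀ i ≤ L, ∀ j ≤ L, p i = p j → i = j) :
    ∃ c : G.Walk (p L) (p L), c.IsCycle ∧ c.length = L + 1 ∧ (∀ v, v ∈ c.support ↔ ∃ i ≤ L, p i = v) ∧
      s(p L, p 0) ∈ c.edges ∧ ∀ i < L, s(p i, p (i + 1)) ∈ c.edges := by
  obtain ⟨w, h1, h2⟩ := walk_of p L h
  refine ⟨.cons h0 w, (Walk.cons_isCycle_iff _ _).2 ⟨?_, ?_⟩, ?_, fun v => ?_, by simp,
    fun i hi => ?_⟩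
  · rw [Walk.isPath_def, h1]
    exact List.Nodup.map_on (fun i a j b => hi i (by simpa [Nat.lt_succ_iff] using a) j
      (by simpa [Nat.lt_succ_iff] using b)) List.nodup_range
  · rw [h2]
    simp only [List.mem_map, List.mem_range, Sym2.eq_iff, not_exists, not_and]
    rintro i a (⟨b, c⟩ | ⟨b, c⟩)
    · have := hi _ (by omega) _ (by omega) b; omega
    · have := hi _ (by omega) _ (by omega) b
      have := hi _ (by omega) _ (by omega) c; omega
  · rw [Walk.length_cons, ← Walk.length_edges, h2]; simp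
  · simp only [Walk.support_cons, h1, List.mem_cons, List.mem_map, List.mem_range, Nat.lt_succ_iff]
    exact ⟨fun h => h.elim (fun e => ⟨L, le_rfl, e.symm⟩) id, .inr⟩
  · simp only [Walk.edges_cons, h2, List.mem_cons, List.mem_map, List.mem_range]
    exact .inr ⟨i, hi, rfl⟩

theorem lip (θ : V → ℤ) {s t u v : V} (w : G.Walk u v) (hn : w.edges.Nodup)
    (h : ∀ x ∈ w.support, ∀ y ∈ w.support, G.Adj x y → s(x, y) ≠ s(s, t) → θ x - θ y ≤ 1) :
    (s(s, t) ∉ w.edges → (θ u - θ v).natAbs ≤ w.length) ∧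
    (s(s, t) ∈ w.edges → (θ s - θ t).natAbs + 1 ≤ w.length + (θ u - θ v).natAbs) := by
  induction w with
  | nil => simp
  | @cons u x v a w ih =>
    simp only [Walk.edges_cons, List.nodup_cons, List.mem_cons, Walk.length_cons,
      Walk.support_cons] at hn h ⊢
    obtain ⟨i1, i2⟩ := ih hn.2 fun x h1 y h2 => h x (.inr h1) y (.inr h2)
    by_cases e : s(u, x) = s(s, t)
    · have := i1 (e ▸ hn.1)
      refine ⟨fun c => (c (.inl e.symm)).elim, fun _ => ?_⟩
      rcases Sym2.eq_iff.1 e with ⟨rfl, rfl⟩ | ⟨rfl, rfl⟩ <;> omega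
    · have h1 := h u (.inl rfl) x (.inr w.start_mem_support) a e
      have h2 := h x (.inr w.start_mem_support) u (.inl rfl) a.symm (by rwa [Sym2.eq_swap])
      refine ⟨fun c => ?_, fun c => ?_⟩
      · have := i1 fun c' => c (.inr c'); omega
      · have := i2 (c.resolve_left (Ne.symm e)); omega

theorem closed {S : Set V} (P : V → Prop) (h : ∀ x ∈ S, ∀ y ∈ S, G.Adj x y → P x → P y)
    {x y : S} (r : (G.induce S).Reachable x y) (hx : P x) : P y := by
  obtain ⟨w⟩ := r
  induction w with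
  | nil => exact hx
  | cons a _ ih => exact ih (h _ (Subtype.prop _) _ (Subtype.prop _) a hx)

theorem conn {S : Set V} {r : V} (hr : r ∈ S)
    (h : ∀ P : V → Prop, P r → (∀ x y, P x → y ∈ S → G.Adj x y → P y) → ∀ x ∈ S, P x) :
    (G.induce S).Connected := by
  rw [connected_iff_exists_forall_reachable]
  refine ⟨⟨r, hr⟩, fun w => ?_⟩
  obtain ⟨_, h⟩ := h (fun x => ∃ hx : x ∈ S, (G.induce S).Reachable ⟨r, hr⟩ ⟨x, hx⟩)
    ⟨hr, .refl _⟩ (fun x y ⟨hx, a⟩ hy b => ⟨hy, a.trans (Adj.reachable b)⟩) w.1 w.2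
  exact h

theorem card_support [DecidableEq V] {u : V} {c : G.Walk u u} (h : c.IsCycle) :
    c.support.toFinset.card ≤ c.length := by
  cases c with
  | nil => exact absurd rfl h.ne_nil
  | cons a w =>
    simp only [Walk.support_cons, List.toFinset_cons, Walk.length_cons]
    rw [Finset.insert_eq_of_mem (by simp), ← Walk.length_support]
    exact List.toFinset_card_le _

end Pool.Agent.H23.GK
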