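import Mathlib

/-! Group topologies on a countable direct power, indexed by subgroups of the factor. -/
namespace Pool.Agent.H23.GTop

open Filter Topology Function

variable {F : Type} [Group F]

/-- Products of at most `n` elements of `S`. -/
def Bd {Γ : Type} [Group Γ] (S : Set Γ) (n : ℕ) (y : Γ) : Prop :=
  ∃ l : List Γ, l.length ≤ n ∧ (∀ z ∈ l, z ∈ S) ∧ l.prod = y

theorem Bd.of_mem {S : Set F} {y : F} (h : y ∈ S) : Bd S 1 y := ⟨[y], by simp, by simpa, by simp⟩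
theorem Bd.mul {S : Set F} {m n : ℕ} {x y : F} (h : Bd S m x) (h' : Bd S n y) :
    Bd S (m + n) (x * y) := by
  obtain ⟨l, a, b, rfl⟩ := h
  obtain ⟨l', a', b', rfl⟩ := h'
  exact ⟨l ++ l', by simp; omega, fun z hz => (List.mem_append.1 hz).elim (b z) (b' z), by simp⟩
theorem Bd.mono {S : Set F} {m n : ℕ} {x : F} (h : Bd S m x) (hn : m ≤ n) : Bd S n x := by
  obtain ⟨l, a, b⟩ := h; exact ⟨l, a.trans hn, b⟩
theorem Bd.inv {S : Set F} (hS : ∀ z ∈ S, z⁻¹ ∈ S) {m : ℕ} {x : F} (h : Bd S m x) : Bd S m x⁻¹ := by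
  obtain ⟨l, a, b, rfl⟩ := h
  refine ⟨(l.map (·⁻¹)).reverse, by simpa, ?_, (List.prod_inv_reverse l).symm⟩
  intro z hz
  simp only [List.mem_reverse, List.mem_map] at hz
  obtain ⟨w, hw, rfl⟩ := hz
  exact hS _ (b w hw)

def SS (K : Subgroup F) (x : F) : Set F := {z | z ∈ K ∨ ∃ h ∈ K, z = x * h * x⁻¹}

/-- `L` is uniformly boundedly generated by `K` and any conjugate of `K` from `L \ K`. -/
def Step (K L : Subgroup F) : Prop := K < L ∧ ∃ N, ∀ x ∈ L, x ∉ K → ∀ y ∈ L, Bd (SS K x) N y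

theorem step_of_two {K L : Subgroup F} (hlt : K < L) (w : F)
    (h : ∀ y ∈ L, y ∉ K → ∃ b ∈ K, w * b * y ∈ K)
    (h' : ∀ x ∈ L, x ∉ K → ∃ k ∈ K, x * k * x⁻¹ ∉ K) : Step K L := by
  refine ⟨hlt, 3, fun x hx hx' y hy => ?_⟩
  by_cases hy' : y ∈ K
  · exact (Bd.of_mem (.inl hy')).mono (by omega)
  obtain ⟨k, hk, hk'⟩ := h' x hx hx'
  obtain ⟨b, hb, e⟩ := h y hy hy'
  obtain ⟨b0, hb0, e0⟩ := h _ (mul_mem (mul_mem hx (hlt.le hk)) (inv_mem hx)) hk'
  have := ((Bd.of_mem (S := SS K x) (.inl (mul_mem (inv_mem hb) hb0))).mul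
    (Bd.of_mem (.inr ⟨k, hk, rfl⟩))).mul (Bd.of_mem (.inl (mul_mem (inv_mem e0) e)))
  convert this using 1
  group

variable (F) in
def G : Subgroup (ℕ → F) where
  carrier := {x | (mulSupport x).Finite}
  one_mem' := by simp
  mul_mem' := fun ha hb => (ha.union hb).subset (mulSupport_mul _ _)
  inv_mem' := fun ha => by simpa [mulSupport] using ha

instance [Countable F] : Countable (G F) := by
  classical
  have : Countable (Additive F) := inferInstanceAs (Countable F)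
  refine Function.Injective.countable (β := ℕ →₀ Additive F)
    (f := fun x => Finsupp.ofSupportFinite (fun n => Additive.ofMul (x.1 n)) x.2) ?_
  intro x y h
  ext n
  exact DFunLike.congr_fun h n

noncomputable def sg (n : ℕ) : F →* G F :=
  (MonoidHom.mulSingle (fun _ : ℕ => F) n).codRestrict _
    fun _ => (Set.finite_singleton n).subset (Pi.mulSupport_mulSingle_subset)

theorem sg_apply (n : ℕ) (y : F) (m : ℕ) : (sg n y).1 m = if m = n then y else 1 := by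
  simp [sg, Pi.mulSingle_apply]

def V (L : Subgroup F) (A : ℕ → Set ℕ) : Set (G F) :=
  {x | (∀ n, x.1 n ∈ L) ∧ ∃ c : ℕ → ℕ, Set.InjOn c (mulSupport x.1) ∧ ∀ n, x.1 n ≠ 1 → n ∈ A (c n)}

theorem V_mono {L L' : Subgroup F} (h : L ≤ L') {A B : ℕ → Set ℕ} (hA : ∀ i, A i ⊆ B i) :
    V L A ⊆ V L' B := fun _ ⟨h1, c, h2, h3⟩ =>
  ⟨fun n => h (h1 n), c, h2, fun n hn => hA _ (h3 n hn)⟩

noncomputable abbrev UF : Ultrafilter ℕ := hyperfilter ℕ

@[reducible] def basis (L : Subgroup F) : GroupFilterBasis (G F) where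
  sets := {U | ∃ A : ℕ → Set ℕ, (∀ i, A i ∈ UF) ∧ U = V L A}
  nonempty := ⟨_, fun _ => Set.univ, fun _ => univ_mem, rfl⟩
  inter_sets := by
    rintro _ _ ⟨A, hA, rfl⟩ ⟨B, hB, rfl⟩
    exact ⟨_, ⟨fun i => A i ∩ B i, fun i => inter_mem (hA i) (hB i), rfl⟩,
      Set.subset_inter (V_mono le_rfl fun _ => Set.inter_subset_left)
        (V_mono le_rfl fun _ => Set.inter_subset_right)⟩
  one' := by
    rintro _ ⟨A, -, rfl⟩
    exact ⟨fun _ => one_mem _, id, Set.injOn_id _, fun n hn => absurd rfl hn⟩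
  mul' := by
    classical
    rintro _ ⟨A, hA, rfl⟩
    refine ⟨_, ⟨fun i => A (2 * i) ∩ A (2 * i + 1), fun i => inter_mem (hA _) (hA _), rfl⟩, ?_⟩
    rintro _ ⟨x, ⟨x1, c, x2, x3⟩, y, ⟨y1, d, y2, y3⟩, rfl⟩
    have k : ∀ n, (x * y).1 n ≠ 1 → x.1 n = 1 → y.1 n ≠ 1 := fun n h1 h2 h3 => h1 (by simp [h2, h3])
    refine ⟨fun n => mul_mem (x1 n) (y1 n), fun n => if x.1 n = 1 then 2 * d n + 1 else 2 * c n,
      ?_, ?_⟩
    · intro m hm n hn e
      by_cases a : x.1 m = 1 <;> by_cases b : x.1 n = 1 <;> simp only [a, b, if_true, if_false] at e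
      · exact y2 (k m hm a) (k n hn b) (by omega)
      · omega
      · omega
      · exact x2 a b (by omega)
    · intro n hn
      by_cases a : x.1 n = 1 <;> simp only [a, if_true, if_false]
      exacts [(y3 n (k n hn a)).2, (x3 n a).1]
  inv' := by
    rintro _ ⟨A, hA, rfl⟩
    refine ⟨_, ⟨A, hA, rfl⟩, ?_⟩
    rintro x ⟨x1, c, x2, x3⟩
    exact ⟨fun n => inv_mem (x1 n), c, by simpa [mulSupport] using x2, by simpa using x3⟩
  conj' := by
    rintro g _ ⟨A, hA, rfl⟩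
    refine ⟨_, ⟨fun i => A i ∩ (mulSupport g.1)ᶜ, fun i => inter_mem (hA _)
      (Set.Finite.compl_mem_hyperfilter g.2), rfl⟩, ?_⟩
    rintro x hx
    have : g * x * g⁻¹ = x := by
      ext n
      obtain ⟨-, c, -, x3⟩ := hx
      by_cases a : x.1 n = 1
      · simp [a]
      · have : g.1 n = 1 := by simpa using (x3 n a).2
        simp [this]
    simp only [Set.mem_preimage, this]
    exact V_mono le_rfl (fun _ => Set.inter_subset_left) hx

def τ (L : Subgroup F) : GroupTopology (G F) :=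
  @GroupTopology.mk _ _ (basis L).topology (basis L).isTopologicalGroup

def N (t : GroupTopology (G F)) : Filter (G F) := @nhds _ t.toTopologicalSpace 1

theorem mem_N {L : Subgroup F} {U : Set (G F)} :
    U ∈ N (τ L) ↔ ∃ A : ℕ → Set ℕ, (∀ i, A i ∈ UF) ∧ V L A ⊆ U := by
  refine ((basis L).nhds_one_hasBasis.mem_iff).trans ⟨?_, ?_⟩
  · rintro ⟨_, ⟨A, hA, rfl⟩, h⟩; exact ⟨A, hA, h⟩
  · rintro ⟨A, hA, h⟩; exact ⟨_, ⟨A, hA, rfl⟩, h⟩

theorem le_iff {s t : GroupTopology (G F)} : s ≤ t ↔ N s ≤ N t := by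
  refine ⟨fun h => nhds_mono h, fun h => ?_⟩
  have := @continuous_of_continuousAt_one (G F) s.toTopologicalSpace _ s.toIsTopologicalGroup
    (G F) (G F →* G F) _ t.toTopologicalSpace t.toIsTopologicalGroup.toContinuousMul _ _
    (MonoidHom.id _) h
  exact continuous_id_iff_le.1 this

theorem sg_mem {L : Subgroup F} {A : ℕ → Set ℕ} {n : ℕ} (hn : n ∈ A 0) {y : F} (hy : y ∈ L) :
    sg n y ∈ V L A := by
  refine ⟨fun m => ?_, fun _ => 0, ?_, fun m hm => ?_⟩
  · rw [sg_apply]; split_ifs; exacts [hy, one_mem _]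
  · intro a ha b hb _
    have k : ∀ a, a ∈ mulSupport (sg n y).1 → a = n := fun a ha => by
      by_contra e; exact ha (by rw [sg_apply, if_neg e])
    rw [k a ha, k b hb]
  · by_cases e : m = n
    · exact e ▸ hn
    · exact absurd (by rw [sg_apply, if_neg e]) hm

theorem τ_le {L L' : Subgroup F} : τ L ≤ τ L' ↔ L ≤ L' := by
  rw [le_iff]
  refine ⟨fun h y hy => ?_, fun h U hU => ?_⟩
  · obtain ⟨A, hA, h1⟩ := mem_N.1 (h (mem_N.2 ⟨fun _ => Set.univ, fun _ => univ_mem, le_rfl⟩))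
    obtain ⟨n, hn⟩ := Ultrafilter.nonempty_of_mem (hA 0)
    simpa [sg_apply] using (h1 (sg_mem hn hy)).1 n
  · obtain ⟨A, hA, h1⟩ := mem_N.1 hU
    exact mem_N.2 ⟨A, hA, (V_mono h fun _ => le_rfl).trans h1⟩

theorem τ_lt {L L' : Subgroup F} : τ L < τ L' ↔ L < L' := by
  simp only [lt_iff_le_not_ge, τ_le]

theorem τ_t2 (L : Subgroup F) : @T2Space _ (τ L).toTopologicalSpace := by
  refine (@GroupFilterBasis.t2Space_iff_sInter_subset _ _ (τ L).toTopologicalSpace (basis L)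
    rfl).2 fun x hx => ?_
  obtain ⟨-, c, -, h⟩ := hx _ ⟨fun _ => (mulSupport x.1)ᶜ,
    fun _ => Set.Finite.compl_mem_hyperfilter x.2, rfl⟩
  ext n
  by_contra a
  exact h n a a

theorem prod_mem (U : ℕ → Set (G F)) (h1 : ∀ i, 1 ∈ U i)
    (hU : ∀ i, ∀ a ∈ U (i + 1), ∀ b ∈ U (i + 1), a * b ∈ U i) (c : ℕ → ℕ) (k : ℕ) :
    ∀ (x : G F) (m : ℕ), (mulSupport x.1).ncard = k → Set.InjOn c (mulSupport x.1) →
      (∀ n, x.1 n ≠ 1 → m ≤ c n ∧ sg n (x.1 n) ∈ U (c n + 1)) → x ∈ U m := by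
  have anti : Antitone U := antitone_nat_of_succ_le fun i a ha => by
    simpa using hU i a ha 1 (h1 _)
  induction k with
  | zero =>
    intro x m hk _ _
    rw [Set.ncard_eq_zero x.2, mulSupport_eq_empty_iff] at hk
    rw [show x = 1 from Subtype.ext hk]; exact h1 _
  | succ k ih =>
    intro x m hk hc hx
    obtain ⟨n, hn, hmin⟩ := Set.exists_min_image _ c x.2 (Set.nonempty_of_ncard_ne_zero (by omega))
    let x' := (sg n (x.1 n))⁻¹ * x
    have e : ∀ j, x'.1 j = if j = n then 1 else x.1 j := by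
      intro j
      simp only [x', Subgroup.coe_mul, Subgroup.coe_inv, Pi.mul_apply, Pi.inv_apply, sg_apply]
      split_ifs with a <;> simp [*]
    have s : mulSupport x'.1 = mulSupport x.1 \ {n} := by
      ext j; simp only [mem_mulSupport, e]; split_ifs <;> simp [*]
    have := ih x' (c n + 1) (by rw [s, Set.ncard_sdiff_singleton_of_mem hn, hk]; rfl)
      (hc.mono (s ▸ Set.sdiff_subset)) (by
        intro j hj
        have hj' : j ∈ mulSupport x.1 \ {n} := s ▸ hj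
        have jn : j ≠ n := hj'.2
        rw [e, if_neg jn]
        exact ⟨lt_of_le_of_ne (hmin j hj'.1) fun h => jn (hc hn hj'.1 h).symm, (hx j hj'.1).2⟩)
    have := hU _ _ (hx n hn).2 _ this
    exact anti (hx n hn).1 (by simpa [x'] using this)

theorem cover {K L : Subgroup F} (h : Step K L) : τ K ⋖ τ L := by
  refine ⟨τ_lt.2 h.1, fun σ h1 h2 => h2.not_ge ?_⟩
  obtain ⟨-, M, hM⟩ := h
  let := σ.toTopologicalSpace
  have := σ.toIsTopologicalGroup
  have split : ∀ U ∈ N σ, ∃ W ∈ N σ, ∀ a ∈ W, ∀ b ∈ W, a * b ∈ U := fun U hU =>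
    exists_nhds_one_split hU
  have pw : ∀ M : ℕ, ∀ U ∈ N σ, ∃ W ∈ N σ, ∀ y, Bd W M y → y ∈ U := by
    intro M
    induction M with
    | zero =>
      refine fun U hU => ⟨U, hU, ?_⟩
      rintro _ ⟨l, a, -, rfl⟩
      rw [List.length_eq_zero_iff.1 (Nat.le_zero.1 a)]
      exact mem_of_mem_nhds hU
    | succ M ih =>
      intro U hU
      obtain ⟨W, hW, a⟩ := split U hU
      obtain ⟨W', hW', b⟩ := ih W hW
      refine ⟨W ∩ W', inter_mem hW hW', ?_⟩
      rintro _ ⟨l, c, d, rfl⟩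
      cases l with
      | nil => exact mem_of_mem_nhds hU
      | cons z l =>
        exact a _ (d z (by simp)).1 _ (b _ ⟨l, by simpa using c, fun w hw => (d w (by simp [hw])).2,
          rfl⟩)
  obtain ⟨A, hA, hn⟩ : ∃ A : ℕ → Set ℕ, (∀ i, A i ∈ UF) ∧ V K A ∉ N σ := by
    by_contra hc
    push Not at hc
    refine h1.not_ge (le_iff.2 fun U hU => ?_)
    obtain ⟨A, hA, h⟩ := mem_N.1 hU
    exact mem_of_superset (hc A hA) h
  have s1 : ∀ U ∈ N σ, {n | ∀ y ∈ L, sg n y ∈ U} ∈ UF := by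
    intro U hU
    obtain ⟨W, hW, w⟩ := pw M U hU
    obtain ⟨W', hW', w'⟩ := pw 3 W hW
    have hW2 : W' ∩ W'⁻¹ ∈ N σ := inter_mem hW' (inv_mem_nhds_one _ hW')
    obtain ⟨B, hB, b⟩ := mem_N.1 (le_iff.1 h1.le hW')
    by_contra hc
    have hc' := Ultrafilter.compl_mem_iff_notMem.2 hc
    have hV := le_iff.1 h2.le (mem_N.2 ⟨fun i => A i ∩ (B 0 ∩ {n | ∀ y ∈ L, sg n y ∈ U}ᶜ),
      fun i => inter_mem (hA i) (inter_mem (hB 0) hc'), le_rfl⟩)
    obtain ⟨x, ⟨⟨x1, x2⟩, x3, c, x4, x5⟩, x6⟩ := Set.not_subset.1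
      fun hs => hn (mem_of_superset (inter_mem hW2 hV) hs)
    obtain ⟨n, hn⟩ : ∃ n, x.1 n ∉ K := by
      by_contra hk
      push Not at hk
      exact x6 ⟨hk, c, x4, fun n hn => (x5 n hn).1⟩
    obtain ⟨-, n1, n2⟩ := x5 n fun e => hn (e ▸ one_mem _)
    refine n2 fun y hy => w _ ?_
    obtain ⟨l, l1, l2, rfl⟩ := hM _ (x3 n) hn y hy
    refine ⟨l.map (sg n), by simpa, ?_, (map_list_prod _ _).symm⟩
    intro z0 hz0
    obtain ⟨z, hz, rfl⟩ := List.mem_map.1 hz0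
    rcases l2 z hz with hz | ⟨k, hk, rfl⟩
    · exact w' _ ((Bd.of_mem (b (sg_mem n1 hz))).mono (by omega))
    · have : sg n (x.1 n * k * (x.1 n)⁻¹) = x * sg n k * x⁻¹ := by
        ext j
        simp only [Subgroup.coe_mul, Subgroup.coe_inv, Pi.mul_apply, Pi.inv_apply, sg_apply]
        split_ifs <;> simp [*]
      rw [this]
      exact w' _ (((Bd.of_mem x1).mul (Bd.of_mem (b (sg_mem n1 hk)))).mul (Bd.of_mem x2))
  refine le_iff.2 fun U hU => ?_
  choose! f f1 f2 using split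
  have hf : ∀ i, f^[i] U ∈ N σ := fun i => by
    induction i with
    | zero => exact hU
    | succ i ih => rw [iterate_succ_apply']; exact f1 _ ih
  refine mem_N.2 ⟨fun i => {n | ∀ y ∈ L, sg n y ∈ f^[i + 1] U}, fun i => s1 _ (hf _), ?_⟩
  rintro x ⟨x1, c, x2, x3⟩
  exact prod_mem (fun i => f^[i] U) (fun i => mem_of_mem_nhds (hf i))
    (fun i => by simp only [iterate_succ_apply']; exact f2 _ (hf i)) c _ x 0 rfl x2
    fun n hn => ⟨Nat.zero_le _, x3 n hn _ (x1 n)⟩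

end Pool.Agent.H23.GTop
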