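import Pool.Agent.H23.GTop

namespace Pool.Agent.H23.GTop

open Filter Topology Function

abbrev R := Matrix (Fin 2) (Fin 2) ℚ

@[ext] structure F where
  v : R
  g : Rˣ

instance : Mul F := ⟨fun x y => ⟨x.v + x.g * y.v * (x.g⁻¹ : Rˣ), x.g * y.g⟩⟩
instance : One F := ⟨⟨0, 1⟩⟩
instance : Inv F := ⟨fun x => ⟨-((x.g⁻¹ : Rˣ) * x.v * x.g), x.g⁻¹⟩⟩
theorem mul_v (x y : F) : (x * y).v = x.v + x.g * y.v * (x.g⁻¹ : Rˣ) := rfl
@[simp] theorem mul_g (x y : F) : (x * y).g = x.g * y.g := rfl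
@[simp] theorem one_v : (1 : F).v = 0 := rfl
@[simp] theorem one_g : (1 : F).g = 1 := rfl
theorem inv_v (x : F) : x⁻¹.v = -((x.g⁻¹ : Rˣ) * x.v * x.g) := rfl
@[simp] theorem inv_g (x : F) : x⁻¹.g = x.g⁻¹ := rfl

instance : Group F := Group.ofLeftAxioms
  (fun x y z => by
    refine F.ext ?_ (mul_assoc _ _ _)
    simp only [mul_v, mul_g, Units.val_mul, mul_inv_rev]; noncomm_ring)
  (fun x => F.ext (by simp [mul_v]) (one_mul _))
  (fun x => F.ext (by simp only [mul_v, inv_v, inv_g, inv_inv, one_v]; abel) (inv_mul_cancel _))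

instance : Countable F := by
  have : Countable R := inferInstanceAs (Countable (Fin 2 → Fin 2 → ℚ))
  exact Function.Injective.countable (f := fun x : F => (x.v, (x.g : R)))
    fun x y h => F.ext (congrArg Prod.fst h) (Units.ext (congrArg Prod.snd h))

def U (a : ℚ) : Rˣ := ⟨!![1, a; 0, 1], !![1, -a; 0, 1], by simp [Matrix.one_fin_two],
  by simp [Matrix.one_fin_two]⟩
def Dg (s t : ℚ) (hs : s ≠ 0) (ht : t ≠ 0) : Rˣ := ⟨!![s, 0; 0, t], !![s⁻¹, 0; 0, t⁻¹],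
  by simp [Matrix.one_fin_two, hs, ht], by simp [Matrix.one_fin_two, hs, ht]⟩
def W : Rˣ := ⟨!![0, 1; 1, 0], !![0, 1; 1, 0], by simp [Matrix.one_fin_two],
  by simp [Matrix.one_fin_two]⟩

theorem ent (g : Rˣ) (i j : Fin 2) :
    (g⁻¹ : Rˣ).1 i 0 * g.1 0 j + (g⁻¹ : Rˣ).1 i 1 * g.1 1 j = if i = j then 1 else 0 := by
  have := congrFun (congrFun g.inv_mul i) j
  rwa [Matrix.mul_apply, Fin.sum_univ_two, Matrix.one_apply] at this

theorem inv10 {g : Rˣ} (h : g.1 1 0 = 0) : g.1 0 0 ≠ 0 ∧ g.1 1 1 ≠ 0 ∧ (g⁻¹ : Rˣ).1 1 0 = 0 := by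
  have h1 := ent g 0 0
  have h2 := ent g 1 0
  have h3 := ent g 1 1
  simp only [h, mul_zero, add_zero, if_true, one_ne_zero, if_false, mul_eq_zero] at h1 h2 h3
  have a : g.1 0 0 ≠ 0 := fun e => by simp [e] at h1
  have b := h2.resolve_right a
  exact ⟨a, fun e => by simp [b, e] at h3, b⟩

theorem inv01 {g : Rˣ} (h : g.1 0 1 = 0) : (g⁻¹ : Rˣ).1 0 1 = 0 := by
  have h1 := ent g 1 1
  have h2 := ent g 0 1
  simp only [h, mul_zero, zero_add, if_true, zero_ne_one, if_false, mul_eq_zero] at h1 h2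
  exact h2.resolve_right fun e => by simp [e] at h1

def K3 : Subgroup F where
  carrier := {x | x.v.trace = 0}
  one_mem' := by simp
  mul_mem' := fun {x y} hx hy => by
    simp only [Set.mem_ofPred_eq, mul_v, Matrix.trace_add] at *
    rw [hx, Matrix.trace_units_conj, hy, add_zero]
  inv_mem' := fun {x} hx => by
    simp only [Set.mem_ofPred_eq, inv_v, Matrix.trace_neg] at *
    rw [Matrix.trace_units_conj', hx, neg_zero]

def K2 : Subgroup F where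
  carrier := {x | x.v = 0}
  one_mem' := rfl
  mul_mem' := fun {x y} (hx : x.v = 0) (hy : y.v = 0) => by simp [mul_v, hx, hy]
  inv_mem' := fun {x} (hx : x.v = 0) => by simp [inv_v, hx]

def K1 : Subgroup F where
  carrier := {x | x ∈ K2 ∧ x.g.1 1 0 = 0}
  one_mem' := ⟨rfl, rfl⟩
  mul_mem' := fun {x y} hx hy => ⟨mul_mem hx.1 hy.1, by
    simp [Matrix.mul_apply, Fin.sum_univ_two, hx.2, hy.2]⟩
  inv_mem' := fun {x} hx => ⟨inv_mem hx.1, (inv10 hx.2).2.2⟩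

theorem diag_comm {g : Rˣ} (h : g.1 0 1 = 0) (h' : g.1 1 0 = 0) (a : ℚ) :
    g.1 * !![a, 0; 0, -a] = !![a, 0; 0, -a] * g.1 := by
  ext i j; fin_cases i <;> fin_cases j <;>
    simp [Matrix.mul_apply, Fin.sum_univ_two, h, h', mul_comm]

def M (A : AddSubgroup ℚ) : Subgroup F where
  carrier := {x | (∃ a ∈ A, x.v = !![a, 0; 0, -a]) ∧ x.g.1 0 1 = 0 ∧ x.g.1 1 0 = 0}
  one_mem' := ⟨⟨0, zero_mem _, by ext i j; fin_cases i <;> fin_cases j <;> simp⟩, rfl, rfl⟩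
  mul_mem' := fun {x y} ⟨⟨a, ha, e⟩, h1, h2⟩ ⟨⟨b, hb, f⟩, h3, h4⟩ =>
    ⟨⟨a + b, add_mem ha hb, by
      rw [mul_v, e, f, diag_comm h1 h2, mul_assoc, Units.mul_inv, mul_one]
      simp [add_comm]⟩,
      by simp [Matrix.mul_apply, Fin.sum_univ_two, h1, h3],
      by simp [Matrix.mul_apply, Fin.sum_univ_two, h2, h4]⟩
  inv_mem' := fun {x} ⟨⟨a, ha, e⟩, h1, h2⟩ =>
    ⟨⟨-a, neg_mem ha, by
      rw [inv_v, e, mul_assoc, ← diag_comm h1 h2, ← mul_assoc, Units.inv_mul, one_mul]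
      simp⟩, inv01 h1, (inv10 h2).2.2⟩

theorem M_le {A B : AddSubgroup ℚ} : M A ≤ M B ↔ A ≤ B := by
  refine ⟨fun h a ha => ?_, fun h x ⟨⟨a, ha, e⟩, h'⟩ => ⟨⟨a, h ha, e⟩, h'⟩⟩
  obtain ⟨⟨b, hb, e⟩, -⟩ := h (show (⟨!![a, 0; 0, -a], 1⟩ : F) ∈ M A from ⟨⟨a, ha, rfl⟩, rfl, rfl⟩)
  have : a = b := congrFun (congrFun e 0) 0
  exact this ▸ hb

theorem mem_K0 {x : F} : x ∈ M ⊥ ↔ x ∈ K1 ∧ x.g.1 0 1 = 0 := by
  have : (!![0, 0; 0, -0] : R) = 0 := by ext i j; fin_cases i <;> fin_cases j <;> simp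
  constructor
  · rintro ⟨⟨a, rfl, e⟩, h1, h2⟩; exact ⟨⟨e.trans this, h2⟩, h1⟩
  · rintro ⟨⟨e, h2⟩, h1⟩; exact ⟨⟨0, rfl, e.trans this.symm⟩, h1, h2⟩

theorem conj_eq {x h t : F} (e : x * h * x⁻¹ = t) (i j : Fin 2) :
    x.g.1 i 0 * h.g.1 0 j + x.g.1 i 1 * h.g.1 1 j = t.g.1 i 0 * x.g.1 0 j + t.g.1 i 1 * x.g.1 1 j := by
  have := congrArg (fun y : F => y.g.1 i j) (mul_inv_eq_iff_eq_mul.1 e)
  simpa [Matrix.mul_apply, Fin.sum_univ_two] using this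

theorem step01 : Step (M ⊥) K1 := by
  refine step_of_two (lt_of_le_of_ne (fun x hx => (mem_K0.1 hx).1) fun e => ?_) ⟨0, U (-1)⟩ ?_ ?_
  · have : (⟨0, U 1⟩ : F) ∈ M ⊥ := e ▸ ⟨rfl, rfl⟩
    simpa [U] using this.2.1
  · intro y hy hy'
    have hb : y.g.1 0 1 ≠ 0 := fun e => hy' (mem_K0.2 ⟨hy, e⟩)
    have m : (⟨0, Dg _ _ (inv10 hy.2).2.1 hb⟩ : F) ∈ M ⊥ := mem_K0.2 ⟨⟨rfl, rfl⟩, rfl⟩
    refine ⟨_, m, mem_K0.2 ⟨mul_mem (mul_mem ⟨rfl, rfl⟩ (mem_K0.1 m).1) hy, ?_⟩⟩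
    simp [U, Dg, Matrix.mul_apply, Fin.sum_univ_two, mul_comm]
  · intro x hx hx'
    refine ⟨⟨0, Dg 1 2 one_ne_zero two_ne_zero⟩, mem_K0.2 ⟨⟨rfl, rfl⟩, rfl⟩,
      fun h => hx' (mem_K0.2 ⟨hx, ?_⟩)⟩
    have h0 := conj_eq (x := x) (h := ⟨0, Dg 1 2 one_ne_zero two_ne_zero⟩) rfl 0 0
    have h1 := conj_eq (x := x) (h := ⟨0, Dg 1 2 one_ne_zero two_ne_zero⟩) rfl 0 1
    rw [h.2.1] at h0 h1
    generalize (x * _ * x⁻¹).g.1 0 0 = s at h0 h1
    simp [Dg, (inv10 hx.2).1] at h0 h1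
    rw [h0] at h1
    linarith

theorem step12 : Step K1 K2 := by
  refine step_of_two (lt_of_le_of_ne (fun x hx => hx.1) fun e => ?_) ⟨0, W⟩ ?_ ?_
  · have : (⟨0, W⟩ : F) ∈ K1 := e ▸ (rfl : (⟨0, W⟩ : F).v = 0)
    simpa [W] using this.2
  · intro y hy hy'
    have hb : y.g.1 1 0 ≠ 0 := fun e => hy' ⟨hy, e⟩
    refine ⟨⟨0, U (-(y.g.1 0 0 / y.g.1 1 0))⟩, ⟨rfl, rfl⟩,
      mul_mem (mul_mem (show _ ∈ K2 from rfl) (show _ ∈ K2 from rfl)) hy, ?_⟩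
    simp [U, W, Matrix.mul_apply, Fin.sum_univ_two, hb]
  · intro x hx hx'
    refine ⟨⟨0, U 1⟩, ⟨rfl, rfl⟩, fun h => hx' ⟨hx, ?_⟩⟩
    have h0 := conj_eq (x := x) (h := ⟨0, U 1⟩) rfl 1 0
    have h1 := conj_eq (x := x) (h := ⟨0, U 1⟩) rfl 1 1
    rw [h.2] at h0 h1
    generalize (x * _ * x⁻¹).g.1 1 1 = s at h0 h1
    simp [U] at h0 h1
    by_contra c
    have : s = 1 := mul_right_cancel₀ c (by linarith)
    subst this
    exact c (by linarith)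

theorem step23 : Step K2 K3 := by
  refine ⟨lt_of_le_of_ne (fun x (hx : x.v = 0) => show x.v.trace = 0 by simp [hx]) fun e => ?_,
    31, fun x hx hx' y hy => ?_⟩
  · have : (⟨!![0, 1; 0, 0], 1⟩ : F) ∈ K2 := e ▸ (by simp : (!![0, 1; 0, 0] : R).trace = 0)
    simpa using congrFun (congrFun this 0) 1
  have sym : ∀ z ∈ SS K2 x, z⁻¹ ∈ SS K2 x := by
    rintro z (hz | ⟨h, hh, rfl⟩)
    exacts [.inl (inv_mem hz), .inr ⟨h⁻¹, inv_mem hh, by group⟩]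
  have k2 : ∀ g : Rˣ, Bd (SS K2 x) 1 ⟨0, g⟩ := fun g => .of_mem (.inl rfl)
  have add : ∀ {m n : ℕ} {v w : R}, Bd (SS K2 x) m ⟨v, 1⟩ → Bd (SS K2 x) n ⟨w, 1⟩ →
      Bd (SS K2 x) (m + n) ⟨v + w, 1⟩ := fun h h' => by
    convert h.mul h' using 1; exact F.ext (by simp [mul_v]) (by simp)
  have cj : ∀ {m : ℕ} {v : R} (g : Rˣ), Bd (SS K2 x) m ⟨v, 1⟩ →
      Bd (SS K2 x) (m + 2) ⟨g * v * (g⁻¹ : Rˣ), 1⟩ := fun {m v} g h => by
    convert ((k2 g).mul h).mul (k2 g⁻¹) using 1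
    · omega
    · exact F.ext (by simp [mul_v]) (by simp)
  have neg : ∀ {m : ℕ} {v : R}, Bd (SS K2 x) m ⟨v, 1⟩ → Bd (SS K2 x) m ⟨-v, 1⟩ := fun h => by
    convert h.inv sym using 1; exact F.ext (by simp [inv_v]) (by simp)
  have base : ∀ g : Rˣ, Bd (SS K2 x) 2 ⟨x.v - g * x.v * (g⁻¹ : Rˣ), 1⟩ := fun g => by
    convert (Bd.of_mem (S := SS K2 x) (.inr ⟨⟨0, x.g⁻¹ * g * x.g⟩, rfl, rfl⟩)).mul (k2 g⁻¹) using 1
    refine F.ext ?_ (by simp [mul_assoc])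
    simp only [mul_v, inv_v, mul_g, inv_g, Units.val_mul, mul_inv_rev, inv_inv, mul_zero, zero_mul,
      add_zero, zero_add, mul_neg, neg_mul, mul_assoc, Units.mul_inv_cancel_left, sub_eq_add_neg,
      Units.mul_inv, mul_one]
  have form : ∀ v : R, v.trace = 0 → v = !![v 0 0, v 0 1; v 1 0, -v 0 0] := fun v h => by
    rw [Matrix.trace_fin_two] at h
    ext i j; fin_cases i <;> fin_cases j <;> simp
    linarith
  obtain ⟨p, q, r, hv⟩ : ∃ p q r, x.v = !![p, q; r, -p] := ⟨_, _, _, form _ hx⟩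
  rw [hv] at base
  obtain ⟨l, l0, hl⟩ : ∃ l : ℚ, l ≠ 0 ∧ Bd (SS K2 x) 6 ⟨!![0, l; 0, 0], 1⟩ := by
    by_cases hr : r = 0
    · by_cases hq : q = 0
      · refine ⟨2 * p, fun e => hx' ?_, Bd.mono (m := 2) ?_ (by omega)⟩
        · show x.v = 0
          rw [hv, hr, hq, show p = 0 by linarith]
          ext i j; fin_cases i <;> fin_cases j <;> simp
        · convert base (U 1) using 2
          ext i j; fin_cases i <;> fin_cases j <;> simp [U, hr, hq]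
          ring
      · refine ⟨-q, neg_ne_zero.2 hq, Bd.mono (m := 2) ?_ (by omega)⟩
        convert base (Dg 2 1 two_ne_zero one_ne_zero) using 2
        ext i j; fin_cases i <;> fin_cases j <;> simp [Dg, hr]
        all_goals ring
    · refine ⟨-2 * r, by simpa, ?_⟩
      convert add (base (U 1)) (neg (cj (U 1) (base (U 1)))) using 2
      ext i j; fin_cases i <;> fin_cases j <;> simp [U]
      all_goals ring
  have e : ∀ a : ℚ, Bd (SS K2 x) 8 ⟨!![0, a; 0, 0], 1⟩ := fun a => by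
    by_cases ha : a = 0
    · convert (k2 1).mono (by omega : 1 ≤ 8) using 2
      ext i j; fin_cases i <;> fin_cases j <;> simp [ha]
    · convert cj (Dg (a / l) 1 (div_ne_zero ha l0) one_ne_zero) hl using 2
      ext i j; fin_cases i <;> fin_cases j <;> simp [Dg, l0]
  have f : ∀ a : ℚ, Bd (SS K2 x) 10 ⟨!![0, 0; a, 0], 1⟩ := fun a => by
    convert cj W (e a) using 2
    ext i j; fin_cases i <;> fin_cases j <;> simp [W]
  have h : ∀ a : ℚ, Bd (SS K2 x) 12 ⟨!![a, -a; a, -a], 1⟩ := fun a => by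
    convert cj (U 1) (f a) using 2
    ext i j; fin_cases i <;> fin_cases j <;> simp [U]
  obtain ⟨p, q, r, hw⟩ : ∃ p q r, y.v = !![p, q; r, -p] := ⟨_, _, _, form _ hy⟩
  convert (add (add (h p) (e (q + p))) (f (r - p))).mul (k2 y.g) using 1
  refine F.ext ?_ (by simp)
  rw [hw]; simp [mul_v]

theorem M_lt (A : AddSubgroup ℚ) : M A < K3 := by
  refine lt_of_le_of_ne (fun x ⟨⟨a, _, e⟩, _⟩ => show x.v.trace = 0 by simp [e]) fun e => ?_
  have : (⟨0, W⟩ : F) ∈ M A := e ▸ (by simp : (0 : R).trace = 0)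
  simpa [W] using this.2.1

def ch (j : ℕ) : AddSubgroup ℚ := AddSubgroup.zmultiples (2 ^ j)

theorem ch_anti : StrictAnti ch := by
  refine strictAnti_nat_of_succ_lt fun j => lt_of_le_of_ne ?_ fun e => ?_
  · rw [ch, AddSubgroup.zmultiples_le]
    exact ⟨2, by simp [pow_succ']⟩
  · obtain ⟨k, hk⟩ : (2 ^ j : ℚ) ∈ ch (j + 1) := e ▸ AddSubgroup.mem_zmultiples _
    simp only [pow_succ', zsmul_eq_mul, ← mul_assoc] at hk
    have : (k : ℚ) * 2 = 1 := mul_right_cancel₀ (b := 2 ^ j) (by positivity) (by simpa using hk)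
    have : k * 2 = 1 := by exact_mod_cast this
    omega

theorem main : ∃ (G : Type) (_ : Group G), Countable G ∧ Infinite G ∧
      (∃ t : GroupTopology G, @T2Space G t.toTopologicalSpace ∧ t.toTopologicalSpace ≠ ⊥) ∧
      ∃ (k : ℕ) (τ : Fin (k + 1) → GroupTopology G),
        (∀ i : Fin k, τ i.castSucc ⋖ τ i.succ) ∧
        (∀ i : Fin (k + 1), @T2Space G (τ i).toTopologicalSpace) ∧
        ∃ S : Set (GroupTopology G), S.Infinite ∧ IsChain (· ≤ ·) S ∧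
          ∀ s ∈ S, τ 0 < s ∧ s < τ (Fin.last k) := by
  have lt : ∀ {A B}, A < B → τ (M A) < τ (M B) := fun h => by
    simpa only [τ_lt, lt_iff_le_not_ge, M_le, τ_le] using h
  have anti : StrictAnti fun j => τ (M (ch j)) := fun i j h => lt (ch_anti h)
  refine ⟨G F, inferInstance, inferInstance, ?_, ⟨τ K3, τ_t2 _, fun e => ?_⟩, 3,
    ![τ (M ⊥), τ K1, τ K2, τ K3], ?_, ?_, Set.range fun j => τ (M (ch j)),
    Set.infinite_range_of_injective anti.injective, ?_, ?_⟩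
  · refine Infinite.of_injective (fun a : ℚ => sg 0 (⟨!![a, 0; 0, 0], 1⟩ : F)) fun a b h => ?_
    simpa [sg_apply] using congrArg (fun x : G F => (x.1 0).v 0 0) h
  · exact (τ_lt.2 (M_lt ⊥)).ne_bot (GroupTopology.toTopologicalSpace_injective e)
  · intro i; fin_cases i
    exacts [cover step01, cover step12, cover step23]
  · intro i; fin_cases i <;> exact τ_t2 _
  · exact anti.antitone.isChain_range
  · rintro _ ⟨j, rfl⟩
    exact ⟨lt ((ch_anti (Nat.lt_succ_self j)).bot_lt), τ_lt.2 (M_lt _)⟩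

end Pool.Agent.H23.GTop
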