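import Mathlib

set_option autoImplicit false

namespace Pool.Agent.H23

/-- Codes for oracle programs. -/
inductive OCode : Type
  | zero : OCode
  | succ : OCode
  | left : OCode
  | right : OCode
  | oracle : OCode
  | pair : OCode → OCode → OCode
  | comp : OCode → OCode → OCode
  | prec : OCode → OCode → OCode
  | rfind : OCode → OCode

namespace OCode

def enc : OCode → ℕ
  | zero => Nat.pair 0 0
  | succ => Nat.pair 1 0
  | left => Nat.pair 2 0
  | right => Nat.pair 3 0
  | oracle => Nat.pair 4 0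
  | pair a b => Nat.pair 5 (Nat.pair (enc a) (enc b))
  | comp a b => Nat.pair 6 (Nat.pair (enc a) (enc b))
  | prec a b => Nat.pair 7 (Nat.pair (enc a) (enc b))
  | rfind a => Nat.pair 8 (enc a)

theorem enc_inj : Function.Injective enc := by
  intro a
  induction a with
  | zero => intro b h; cases b <;> simp_all [enc, Nat.pair_eq_pair]
  | succ => intro b h; cases b <;> simp_all [enc, Nat.pair_eq_pair]
  | left => intro b h; cases b <;> simp_all [enc, Nat.pair_eq_pair]
  | right => intro b h; cases b <;> simp_all [enc, Nat.pair_eq_pair]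
  | oracle => intro b h; cases b <;> simp_all [enc, Nat.pair_eq_pair]
  | pair a1 a2 ih1 ih2 =>
    intro b h
    cases b <;> simp only [enc, Nat.pair_eq_pair] at h <;> try omega
    rw [ih1 h.2.1, ih2 h.2.2]
  | comp a1 a2 ih1 ih2 =>
    intro b h
    cases b <;> simp only [enc, Nat.pair_eq_pair] at h <;> try omega
    rw [ih1 h.2.1, ih2 h.2.2]
  | prec a1 a2 ih1 ih2 =>
    intro b h
    cases b <;> simp only [enc, Nat.pair_eq_pair] at h <;> try omega
    rw [ih1 h.2.1, ih2 h.2.2]
  | rfind a1 ih1 =>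
    intro b h
    cases b <;> simp only [enc, Nat.pair_eq_pair] at h <;> try omega
    rw [ih1 h.2]

instance : Countable OCode := enc_inj.countable

instance : Nonempty OCode := ⟨zero⟩

/-- Evaluation of an oracle program. -/
def eval : OCode → (ℕ →. ℕ) → (ℕ →. ℕ)
  | zero, _ => fun _ => 0
  | succ, _ => Nat.succ
  | left, _ => fun n => (Nat.unpair n).1
  | right, _ => fun n => (Nat.unpair n).2
  | oracle, g => g
  | pair a b, g => fun n => (Nat.pair <$> eval a g n <*> eval b g n)
  | comp a b, g => fun n => eval b g n >>= eval a g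
  | prec a b, g => fun p =>
        let (x, n) := Nat.unpair p
        n.rec (eval a g x) fun y IH => do
          let i ← IH
          eval b g (Nat.pair x (Nat.pair y i))
  | rfind a, g => fun x => Nat.rfind fun n => (fun m => m = 0) <$> eval a g (Nat.pair x n)

theorem exists_code {g f : ℕ →. ℕ} (h : TuringReducible f g) : ∃ c : OCode, eval c g = f := by
  have h' : Nat.RecursiveIn {g} f := RecursiveIn.iff_nat.1 h
  induction h' with
  | zero => exact ⟨zero, rfl⟩
  | succ => exact ⟨succ, rfl⟩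
  | left => exact ⟨left, rfl⟩
  | right => exact ⟨right, rfl⟩
  | oracle g' hg => exact ⟨oracle, by simp at hg; subst hg; rfl⟩
  | pair hf hh ih1 ih2 =>
    obtain ⟨a, rfl⟩ := ih1 (RecursiveIn.iff_nat.2 hf)
    obtain ⟨b, rfl⟩ := ih2 (RecursiveIn.iff_nat.2 hh)
    exact ⟨pair a b, rfl⟩
  | comp hf hh ih1 ih2 =>
    obtain ⟨a, rfl⟩ := ih1 (RecursiveIn.iff_nat.2 hf)
    obtain ⟨b, rfl⟩ := ih2 (RecursiveIn.iff_nat.2 hh)
    exact ⟨comp a b, rfl⟩
  | prec hf hh ih1 ih2 =>
    obtain ⟨a, rfl⟩ := ih1 (RecursiveIn.iff_nat.2 hf)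
    obtain ⟨b, rfl⟩ := ih2 (RecursiveIn.iff_nat.2 hh)
    exact ⟨prec a b, rfl⟩
  | rfind hf ih1 =>
    obtain ⟨a, rfl⟩ := ih1 (RecursiveIn.iff_nat.2 hf)
    exact ⟨rfind a, rfl⟩

theorem eval_reducible (c : OCode) (g : ℕ →. ℕ) : TuringReducible (eval c g) g := by
  apply RecursiveIn.iff_nat.2
  induction c with
  | zero => exact .zero
  | succ => exact .succ
  | left => exact .left
  | right => exact .right
  | oracle => exact .oracle g (by simp)
  | pair a b ih1 ih2 => exact .pair ih1 ih2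
  | comp a b ih1 ih2 => exact .comp ih1 ih2
  | prec a b ih1 ih2 => exact .prec ih1 ih2
  | rfind a ih => exact .rfind ih

/-- Use principle: a convergent computation depends on finitely many oracle values. -/
theorem use (c : OCode) (f : ℕ →. ℕ) : ∀ (n v : ℕ), v ∈ eval c f n →
    ∃ m, ∀ f' : ℕ →. ℕ, (∀ i < m, f' i = f i) → v ∈ eval c f' n := by
  induction c with
  | zero => intro n v h; exact ⟨0, fun _ _ => h⟩
  | succ => intro n v h; exact ⟨0, fun _ _ => h⟩
  | left => intro n v h; exact ⟨0, fun _ _ => h⟩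
  | right => intro n v h; exact ⟨0, fun _ _ => h⟩
  | oracle => intro n v h; exact ⟨n + 1, fun f' hf => by
      show v ∈ f' n
      rw [hf n (Nat.lt_succ_self n)]; exact h⟩
  | pair a b ih1 ih2 =>
    intro n v h
    simp only [eval, Seq.seq, Part.map_eq_map, Part.bind_eq_bind, Part.mem_bind_iff,
      Part.mem_map_iff] at h ⊢
    obtain ⟨_, ⟨x, hx, rfl⟩, y, hy, rfl⟩ := h
    obtain ⟨m1, h1⟩ := ih1 n x hx
    obtain ⟨m2, h2⟩ := ih2 n y hy
    refine ⟨max m1 m2, fun f' hf => ⟨_, ⟨x, h1 f' fun i hi => hf i (by omega), rfl⟩, y,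
      h2 f' fun i hi => hf i (by omega), rfl⟩⟩
  | comp a b ih1 ih2 =>
    intro n v h
    simp only [eval, Part.bind_eq_bind, Part.mem_bind_iff] at h ⊢
    obtain ⟨x, hx, hv⟩ := h
    obtain ⟨m1, h1⟩ := ih2 n x hx
    obtain ⟨m2, h2⟩ := ih1 x v hv
    exact ⟨max m1 m2, fun f' hf => ⟨x, h1 f' fun i hi => hf i (by omega),
      h2 f' fun i hi => hf i (by omega)⟩⟩
  | prec a b ih1 ih2 =>
    intro p v h
    simp only [eval] at h ⊢
    generalize (Nat.unpair p).1 = x at h ⊢
    generalize (Nat.unpair p).2 = k at h ⊢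
    induction k generalizing v with
    | zero => exact ih1 x v h
    | succ k ihk =>
      simp only [Part.bind_eq_bind, Part.mem_bind_iff] at h ⊢
      obtain ⟨i, hi, hv⟩ := h
      obtain ⟨m1, h1⟩ := ihk i hi
      obtain ⟨m2, h2⟩ := ih2 _ v hv
      exact ⟨max m1 m2, fun f' hf => ⟨i, h1 f' fun j hj => hf j (by omega),
        h2 f' fun j hj => hf j (by omega)⟩⟩
  | rfind a ih =>
    intro x v h
    simp only [eval, Nat.mem_rfind, Part.map_eq_map, Part.mem_map_iff] at h ⊢
    obtain ⟨⟨w, hw, hw0⟩, hlt⟩ := h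
    obtain ⟨m1, h1⟩ := ih _ w hw
    have : ∀ k : ℕ, ∃ m, k < v → ∀ f' : ℕ →. ℕ, (∀ i < m, f' i = f i) →
        ∃ u ∈ eval a f' (Nat.pair x k), decide (u = 0) = false := by
      intro k
      by_cases hk : k < v
      · obtain ⟨u, hu, hu0⟩ := hlt hk
        obtain ⟨m, hm⟩ := ih _ u hu
        exact ⟨m, fun _ f' hf => ⟨u, hm f' hf, hu0⟩⟩
      · exact ⟨0, fun h => absurd h hk⟩
    choose M hM using this
    refine ⟨max m1 ((Finset.range v).sup M), fun f' hf => ⟨⟨w, h1 f' fun i hi => hf i (by omega),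
      hw0⟩, fun {k} hk => hM k hk f' fun i hi => hf i ?_⟩⟩
    have : M k ≤ (Finset.range v).sup M := Finset.le_sup (f := M) (Finset.mem_range.2 hk)
    omega

end OCode

end Pool.Agent.H23
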