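import Mathlib
import Pool.Agent.H23.OCode
import Pool.Agent.H23.RE

set_option autoImplicit false

namespace Pool.Agent.H23.TNF

open CTools RE OCode

/-- The first `n` values of `g`. -/
def pre (g : ℕ → ℕ) (n : ℕ) : List ℕ := (List.range n).map g

theorem pre_succ (g : ℕ → ℕ) (n : ℕ) : pre g (n + 1) = pre g n ++ [g n] := by
  simp [pre, List.range_succ]

@[simp] theorem pre_length (g : ℕ → ℕ) (n : ℕ) : (pre g n).length = n := by simp [pre]

theorem pre_get (g : ℕ → ℕ) {n i : ℕ} (h : i < n) : (pre g n)[i]? = some (g i) := by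
  simp [pre, h]

theorem pre_getD (g : ℕ → ℕ) {n i : ℕ} (h : i < n) (d : ℕ) : (pre g n).getD i d = g i := by
  simp [pre, h]

def lst (τ : List ℕ) : ℕ →. ℕ := fun i => Part.ofOption τ[i]?

theorem partrec_eval (c : OCode) : Partrec fun p : List ℕ × ℕ => eval c (lst p.1) p.2 := by
  induction c with
  | zero => exact (Computable.const 0).partrec
  | succ => exact (Computable.succ.comp Computable.snd).partrec
  | left => exact (show Primrec fun p : List ℕ × ℕ => p.2.unpair.1 by fun_prop).to_comp.partrec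
  | right => exact (show Primrec fun p : List ℕ × ℕ => p.2.unpair.2 by fun_prop).to_comp.partrec
  | oracle => exact Computable.ofOption (Primrec.list_getElem?.to_comp)
  | pair a b iha ihb =>
    refine (iha.bind ((ihb.comp Computable.fst).map
      (show Primrec fun q : ((List ℕ × ℕ) × ℕ) × ℕ => Nat.pair q.1.2 q.2 by
        fun_prop).to_comp.to₂).to₂).of_eq fun p => ?_
    simp only [eval, Seq.seq, Part.map_eq_map, Part.bind_eq_bind]
    ext v
    simp [Part.mem_bind_iff]
  | comp a b iha ihb =>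
    exact ihb.bind (iha.comp ((Computable.fst.comp Computable.fst).pair Computable.snd)).to₂
  | prec a b iha ihb =>
    exact (Partrec.nat_rec (f := fun p : List ℕ × ℕ => p.2.unpair.2)
      (g := fun p => eval a (lst p.1) p.2.unpair.1)
      (h := fun p q => eval b (lst p.1) (Nat.pair p.2.unpair.1 (Nat.pair q.1 q.2)))
      (Primrec.to_comp (by fun_prop))
      (iha.comp (show Primrec fun p : List ℕ × ℕ => (p.1, p.2.unpair.1) by fun_prop).to_comp)
      (ihb.comp (show Primrec fun p : (List ℕ × ℕ) × ℕ × ℕ =>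
        (p.1.1, Nat.pair p.1.2.unpair.1 (Nat.pair p.2.1 p.2.2)) by fun_prop).to_comp).to₂).of_eq
      fun p => rfl
  | rfind a iha =>
    exact Partrec.rfind ((iha.comp (show Primrec fun p : (List ℕ × ℕ) × ℕ =>
      (p.1.1, Nat.pair p.1.2 p.2) by fun_prop).to_comp).map
        (show Primrec fun q : ((List ℕ × ℕ) × ℕ) × ℕ => decide (q.2 = 0) from
          (show Primrec fun q : ((List ℕ × ℕ) × ℕ) × ℕ => q.2 == 0 by fun_prop).of_eq
            fun _ => rfl).to_comp.to₂).to₂

theorem re_mem {α : Type} [Primcodable α] {f : α →. ℕ} (hf : Partrec f) :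
    REPred fun p : α × ℕ => p.2 ∈ f p.1 := by
  have : Partrec fun p : α × ℕ => (f p.1).bind fun v =>
      Part.ofOption (bif v == p.2 then some 0 else none : Option ℕ) :=
    (hf.comp Computable.fst).bind (Computable.ofOption (show Primrec fun q : (α × ℕ) × ℕ =>
      (bif q.2 == q.1.2 then some 0 else none : Option ℕ) by fun_prop).to_comp).to₂
  refine this.dom_re.of_eq fun p => ?_
  simp only [Part.dom_iff_mem, Part.mem_bind_iff, Part.mem_ofOption]
  constructor
  · rintro ⟨_, v, h1, h2⟩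
    by_cases h : v = p.2
    · exact h ▸ h1
    · simp [beq_eq_false_iff_ne.2 h] at h2
  · exact fun h => ⟨0, p.2, h, by simp⟩

/-- The graph of a program on finite oracles is c.e. -/
theorem re_eval (c : OCode) : REPred fun p : (List ℕ × ℕ) × ℕ => p.2 ∈ eval c (lst p.1.1) p.1.2 :=
  re_mem (partrec_eval c)

theorem eval_mono (c : OCode) {f g : ℕ →. ℕ} (h : ∀ i v, v ∈ f i → v ∈ g i) :
    ∀ n v, v ∈ eval c f n → v ∈ eval c g n := by
  induction c with
  | zero => exact fun _ _ h => h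
  | succ => exact fun _ _ h => h
  | left => exact fun _ _ h => h
  | right => exact fun _ _ h => h
  | oracle => exact h
  | pair a b ih1 ih2 =>
    intro n v hv
    simp only [eval, Seq.seq, Part.map_eq_map, Part.bind_eq_bind, Part.mem_bind_iff,
      Part.mem_map_iff] at hv ⊢
    obtain ⟨_, ⟨x, hx, rfl⟩, y, hy, rfl⟩ := hv
    exact ⟨_, ⟨x, ih1 _ _ hx, rfl⟩, y, ih2 _ _ hy, rfl⟩
  | comp a b ih1 ih2 =>
    intro n v hv
    simp only [eval, Part.bind_eq_bind, Part.mem_bind_iff] at hv ⊢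
    obtain ⟨x, hx, hv⟩ := hv
    exact ⟨x, ih2 _ _ hx, ih1 _ _ hv⟩
  | prec a b ih1 ih2 =>
    intro p v hv
    simp only [eval] at hv ⊢
    generalize (Nat.unpair p).1 = x at hv ⊢
    generalize (Nat.unpair p).2 = k at hv ⊢
    induction k generalizing v with
    | zero => exact ih1 x v hv
    | succ k ihk =>
      simp only [Part.bind_eq_bind, Part.mem_bind_iff] at hv ⊢
      obtain ⟨i, hi, hv⟩ := hv
      exact ⟨i, ihk i hi, ih2 _ _ hv⟩
  | rfind a ih =>
    intro x v hv
    simp only [eval, Nat.mem_rfind, Part.map_eq_map, Part.mem_map_iff] at hv ⊢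
    obtain ⟨⟨w, hw, hw0⟩, hlt⟩ := hv
    exact ⟨⟨w, ih _ _ hw, hw0⟩, fun {k} hk => let ⟨u, a, b⟩ := hlt hk; ⟨u, ih _ _ a, b⟩⟩

theorem eval_of_lst (c : OCode) (g : ℕ → ℕ) (τ : List ℕ) (h : τ = pre g τ.length) {x v : ℕ}
    (hv : v ∈ eval c (lst τ) x) : v ∈ eval c (g : ℕ →. ℕ) x := by
  refine eval_mono c (fun i w hw => ?_) x v hv
  simp only [lst, Part.mem_ofOption, Option.mem_def] at hw
  have hi : i < τ.length := (List.getElem?_eq_some_iff.1 hw).1
  rw [h, pre_get g hi] at hw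
  simp [← Option.some.inj hw]

theorem eval_of_pre (c : OCode) (g : ℕ → ℕ) (n : ℕ) {x v : ℕ}
    (hv : v ∈ eval c (lst (pre g n)) x) : v ∈ eval c (g : ℕ →. ℕ) x :=
  eval_of_lst c g _ (by simp) hv

theorem exists_pre (c : OCode) (g : ℕ → ℕ) {x v : ℕ} (hv : v ∈ eval c (g : ℕ →. ℕ) x) :
    ∃ m, ∀ n, m ≤ n → v ∈ eval c (lst (pre g n)) x := by
  obtain ⟨m, hm⟩ := use c _ x v hv
  refine ⟨m, fun n hn => hm _ fun i hi => ?_⟩
  simp [lst, pre_get g (show i < n by omega)]

variable {O : Set (ℕ →. ℕ)}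

theorem rin_prim {F : ℕ → ℕ} (hF : Primrec F) : Nat.RecursiveIn O F :=
  (Primrec.nat_iff.1 hF).recursiveIn

theorem rin_comp {F G : ℕ → ℕ} (hF : Nat.RecursiveIn O F) (hG : Nat.RecursiveIn O G) :
    Nat.RecursiveIn O (fun n => F (G n) : ℕ → ℕ) :=
  (Nat.RecursiveIn.comp hF hG).of_eq fun n => by simp

theorem rin_pair {F G : ℕ → ℕ} (hF : Nat.RecursiveIn O F) (hG : Nat.RecursiveIn O G) :
    Nat.RecursiveIn O (fun n => Nat.pair (F n) (G n) : ℕ → ℕ) :=
  (Nat.RecursiveIn.pair hF hG).of_eq fun n => by simp [Seq.seq]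

theorem rin_pre {g : ℕ → ℕ} (hg : Nat.RecursiveIn O g) :
    Nat.RecursiveIn O (fun n => Encodable.encode (pre g n) : ℕ → ℕ) := by
  have h1 : Nat.RecursiveIn O (fun p : ℕ => (fun q : ℕ => Encodable.encode
      (Denumerable.ofNat (List ℕ) q.unpair.1 ++ [q.unpair.2]))
        (Nat.pair p.unpair.2.unpair.2 (g p.unpair.2.unpair.1)) : ℕ → ℕ) :=
    rin_comp (rin_prim (F := fun q : ℕ => Encodable.encode
      (Denumerable.ofNat (List ℕ) q.unpair.1 ++ [q.unpair.2])) (by fun_prop))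
      (rin_pair (rin_prim (F := fun p : ℕ => p.unpair.2.unpair.2) (by fun_prop))
        (rin_comp hg (rin_prim (F := fun p : ℕ => p.unpair.2.unpair.1) (by fun_prop))))
  have h2 := Nat.RecursiveIn.comp (Nat.RecursiveIn.prec (Nat.RecursiveIn.zero (O := O)) h1)
    (rin_prim (O := O) (F := fun n => Nat.pair 0 n) (by fun_prop))
  refine h2.of_eq fun n => ?_
  simp only [PFun.coe_val, Part.bind_eq_bind, Part.bind_some, Nat.unpair_pair]
  induction n with
  | zero => rfl
  | succ n ih => simp only [ih, Part.bind_some, pre_succ]; simp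

/-- A function with a c.e. graph relative to initial segments of `g` is reducible to `g`. -/
theorem tr_of_re (f g : ℕ → ℕ) (W : ℕ → ℕ → List ℕ → Prop)
    (hW : REPred fun p : ℕ × ℕ × List ℕ => W p.1 p.2.1 p.2.2)
    (h1 : ∀ x, ∃ n, W x (f x) (pre g n)) (h2 : ∀ x v n, W x v (pre g n) → v = f x) :
    TuringReducible (f : ℕ →. ℕ) (g : ℕ →. ℕ) := by
  obtain ⟨R, k1, _, k3⟩ := re_stage hW
  have hg : Nat.RecursiveIn {(g : ℕ →. ℕ)} g := .oracle _ rfl
  have e1 : Primrec fun q : ℕ => R q.unpair.1.unpair.2.unpair.2.unpair.2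
      (q.unpair.1.unpair.1, q.unpair.1.unpair.2.unpair.2.unpair.1,
        Denumerable.ofNat (List ℕ) q.unpair.2) :=
    k1.comp (show Primrec fun q : ℕ => (q.unpair.1.unpair.2.unpair.2.unpair.2,
      (q.unpair.1.unpair.1, q.unpair.1.unpair.2.unpair.2.unpair.1,
        Denumerable.ofNat (List ℕ) q.unpair.2)) by fun_prop)
  have e2 := rin_comp (O := {(g : ℕ →. ℕ)}) (rin_prim (F := fun q : ℕ =>
    bif R q.unpair.1.unpair.2.unpair.2.unpair.2
      (q.unpair.1.unpair.1, q.unpair.1.unpair.2.unpair.2.unpair.1,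
        Denumerable.ofNat (List ℕ) q.unpair.2) then 0 else 1) (by fun_prop))
    (rin_pair (rin_prim Primrec.id) (rin_comp (rin_pre hg)
      (rin_prim (F := fun p : ℕ => p.unpair.2.unpair.1) (by fun_prop))))
  have e3 := Nat.RecursiveIn.comp (rin_prim (F := fun k : ℕ => k.unpair.2.unpair.1) (by fun_prop))
    (Nat.RecursiveIn.rfind e2)
  refine RecursiveIn.iff_nat.2 (e3.of_eq_tot fun x => ?_)
  have hex : ∃ k : ℕ, R k.unpair.2.unpair.2 (x, k.unpair.2.unpair.1, pre g k.unpair.1) = true := by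
    obtain ⟨n, hn⟩ := h1 x
    obtain ⟨s, hs⟩ := (k3 (x, f x, pre g n)).1 hn
    exact ⟨Nat.pair n (Nat.pair (f x) s), by simpa using hs⟩
  simp only [Part.bind_eq_bind, Part.mem_bind_iff, Nat.mem_rfind]
  refine ⟨Nat.find hex, ⟨by simp [Nat.find_spec hex], fun {m} hm => ?_⟩, ?_⟩
  · have := Nat.find_min hex hm
    simp only [Bool.not_eq_true] at this
    simp [this]
  · simpa using (h2 x _ _ ((k3 (x, _, _)).2 ⟨_, Nat.find_spec hex⟩)).symm

end Pool.Agent.H23.TNF
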