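import Mathlib
import Pool.Agent.H23.TNF

set_option autoImplicit false

namespace Pool.Agent.H23.Rel

open RE TNF
open Classical
open Nat.Partrec (Code)

variable {α β : Type} [Primcodable α] [Primcodable β] {g : ℕ → ℕ}

/-- Predicates that are c.e. relative to `g`. -/
def SE (g : ℕ → ℕ) (p : α → Prop) : Prop :=
  ∃ W : α → List ℕ → Prop, (REPred fun x : α × List ℕ => W x.1 x.2) ∧
    (∀ a n m, n ≤ m → W a (pre g n) → W a (pre g m)) ∧ ∀ a, p a ↔ ∃ n, W a (pre g n)

theorem SE.of_eq {p q : α → Prop} (h : SE g p) (e : ∀ a, p a ↔ q a) : SE g q :=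
  (funext fun a => propext (e a) : p = q) ▸ h

theorem se_re {p : α → Prop} (h : REPred p) : SE g p :=
  ⟨fun a _ => p a, re_comp' h _ (by fun_prop), fun _ _ _ _ h => h, by simp⟩

theorem se_prim {f : α → Bool} (hf : Primrec f) : SE g fun a => f a = true := se_re (re_prim hf)

theorem se_comp {p : β → Prop} (hp : SE g p) (f : α → β) (hf : Primrec f) :
    SE g fun a => p (f a) := by
  obtain ⟨W, h1, h2, h3⟩ := hp
  exact ⟨fun a => W (f a), re_comp' h1 (fun x : α × List ℕ => (f x.1, x.2)) (by fun_prop),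
    fun a => h2 _, fun a => h3 _⟩

theorem se_and {p q : α → Prop} (hp : SE g p) (hq : SE g q) : SE g fun a => p a ∧ q a := by
  obtain ⟨W, h1, h2, h3⟩ := hp
  obtain ⟨V, k1, k2, k3⟩ := hq
  refine ⟨fun a τ => W a τ ∧ V a τ, re_and h1 k1,
    fun a n m h x => ⟨h2 a n m h x.1, k2 a n m h x.2⟩, fun a => ?_⟩
  simp only [h3, k3]
  exact ⟨fun ⟨⟨n, x⟩, m, y⟩ => ⟨max n m, h2 _ _ _ (le_max_left _ _) x,
    k2 _ _ _ (le_max_right _ _) y⟩, fun ⟨n, x, y⟩ => ⟨⟨n, x⟩, n, y⟩⟩

theorem se_or {p q : α → Prop} (hp : SE g p) (hq : SE g q) : SE g fun a => p a ∨ q a := by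
  obtain ⟨W, h1, h2, h3⟩ := hp
  obtain ⟨V, k1, k2, k3⟩ := hq
  exact ⟨fun a τ => W a τ ∨ V a τ, re_or h1 k1,
    fun a n m h x => x.imp (h2 a n m h) (k2 a n m h), fun a => by simp only [h3, k3, exists_or]⟩

theorem se_ex {p : α → β → Prop} (hp : SE g fun x : α × β => p x.1 x.2) :
    SE g fun a => ∃ b, p a b := by
  obtain ⟨W, h1, h2, h3⟩ := hp
  refine ⟨fun a τ => ∃ b, W (a, b) τ, re_ex (re_comp' h1
    (fun x : (α × List ℕ) × β => ((x.1.1, x.2), x.1.2)) (by fun_prop)),
    fun a n m h ⟨b, x⟩ => ⟨b, h2 _ n m h x⟩, fun a => ?_⟩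
  rw [exists_comm]
  exact exists_congr fun b => h3 (a, b)

theorem se_ball {p : α → ℕ → Prop} (hp : SE g fun x : α × ℕ => p x.1 x.2) {n : α → ℕ}
    (hn : Primrec n) : SE g fun a => ∀ i < n a, p a i := by
  obtain ⟨W, h1, h2, h3⟩ := hp
  refine ⟨fun a τ => ∀ i < n a, W (a, i) τ, re_ball (p := fun (x : α × List ℕ) i => W (x.1, i) x.2)
    (re_comp' h1 (fun x : (α × List ℕ) × ℕ => ((x.1.1, x.2), x.1.2)) (by fun_prop)) (by fun_prop),
    fun a n m h x i hi => h2 _ n m h (x i hi), fun a =>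
      ⟨fun h => ?_, fun ⟨k, h⟩ i hi => (h3 (a, i)).2 ⟨k, h i hi⟩⟩⟩
  choose! f hf using fun i hi => (h3 (a, i)).1 (h i hi)
  exact ⟨(Finset.range (n a)).sup f, fun i hi =>
    h2 _ _ _ (Finset.le_sup (Finset.mem_range.2 hi)) (hf i hi)⟩

/-- The graph of the oracle. -/
theorem se_or_graph : SE g fun x : ℕ × ℕ => g x.1 = x.2 := by
  refine ⟨fun x τ => (Nat.blt x.1 τ.length && τ.getD x.1 0 == x.2) = true, re_prim (by fun_prop),
    fun a n m h x => ?_, fun a => ⟨fun h => ⟨a.1 + 1, ?_⟩, fun ⟨n, h⟩ => ?_⟩⟩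
  all_goals simp only [Bool.and_eq_true, Nat.blt_eq, pre_length, beq_iff_eq] at *
  · rw [pre_getD g x.1] at x
    exact ⟨by omega, by rw [pre_getD g (by omega), x.2]⟩
  · exact ⟨by omega, by rw [pre_getD g (by omega), h]⟩
  · rw [← h.2, pre_getD g h.1]

theorem se_val {f h : α → ℕ} (hf : Primrec f) (hh : Primrec h) : SE g fun a => g (f a) = h a :=
  se_comp se_or_graph (fun a => (f a, h a)) (by fun_prop)

theorem se_ne {f h : α → ℕ} (hf : Primrec f) (hh : Primrec h) : SE g fun a => g (f a) ≠ h a :=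
  (se_ex (p := fun a v => g (f a) = v ∧ (!(v == h a)) = true)
    (se_and (se_val (by fun_prop) (by fun_prop)) (se_prim (by fun_prop)))).of_eq fun a => by simp

theorem tr_of_se {f : ℕ → ℕ} (h : SE g fun x : ℕ × ℕ => f x.1 = x.2) :
    TuringReducible (f : ℕ →. ℕ) (g : ℕ →. ℕ) := by
  obtain ⟨W, h1, -, h3⟩ := h
  exact tr_of_re f g (fun x v τ => W (x, v) τ) (re_comp' h1
    (fun p : ℕ × ℕ × List ℕ => ((p.1, p.2.1), p.2.2)) (by fun_prop))
    (fun x => (h3 (x, f x)).1 rfl) fun x v n h => ((h3 (x, v)).2 ⟨n, h⟩).symm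

theorem se_of_tr {f : ℕ → ℕ} (h : TuringReducible (f : ℕ →. ℕ) (g : ℕ →. ℕ)) :
    SE g fun x : ℕ × ℕ => f x.1 = x.2 := by
  obtain ⟨c, hc⟩ := OCode.exists_code h
  refine ⟨fun x τ => x.2 ∈ OCode.eval c (lst τ) x.1, re_comp' (re_eval c)
    (fun p : (ℕ × ℕ) × List ℕ => ((p.2, p.1.1), p.1.2)) (by fun_prop), fun a n m h x => ?_,
    fun a => ⟨fun h => ?_, fun ⟨n, h⟩ => ?_⟩⟩
  · refine eval_mono c (fun i v hv => ?_) _ _ x
    simp only [lst, Part.mem_ofOption, Option.mem_def] at hv ⊢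
    have hi : i < n := by simpa using (List.getElem?_eq_some_iff.1 hv).1
    rwa [pre_get g (by omega), ← pre_get g hi]
  · obtain ⟨m, hm⟩ := exists_pre c g (x := a.1) (v := a.2) (by rw [hc]; simp [h])
    exact ⟨m, hm m le_rfl⟩
  · have := eval_of_pre c g n h
    rw [hc] at this
    exact (by simpa using this : a.2 = f a.1).symm

/-- Recursion along a relatively c.e. total functional step relation. -/
theorem se_rec [Inhabited β] {S : ℕ → β → β → Prop}
    (hS : SE g fun x : ℕ × β × β => S x.1 x.2.1 x.2.2) (b : β) (h : ∀ s x, ∃! y, S s x y) :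
    ∃ σ : ℕ → β, σ 0 = b ∧ (∀ s, S s (σ s) (σ (s + 1))) ∧ SE g fun x : ℕ × β => σ x.1 = x.2 := by
  choose G G1 G2 using h
  let σ : ℕ → β := fun n => Nat.rec b G n
  refine ⟨σ, rfl, fun s => G1 s _, SE.of_eq (p := fun x : ℕ × β => ∃ L : List β,
    (L.getD 0 default == b && L.getD x.1 default == x.2) = true ∧
    ∀ s < x.1, S s (L.getD s default) (L.getD (s + 1) default)) (se_ex (se_and
      (se_prim (by fun_prop)) (se_ball (p := fun (x : (ℕ × β) × List β) s =>
        S s (x.2.getD s default) (x.2.getD (s + 1) default)) (se_comp hS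
          (fun x : ((ℕ × β) × List β) × ℕ => (x.2, x.1.2.getD x.2 default,
            x.1.2.getD (x.2 + 1) default)) (by fun_prop)) (by fun_prop)))) fun x => ?_⟩
  simp only [Bool.and_eq_true, beq_iff_eq]
  constructor
  · rintro ⟨L, ⟨h1, h2⟩, h3⟩
    have : ∀ s ≤ x.1, L.getD s default = σ s := fun s hs => by
      induction s with
      | zero => exact h1
      | succ s ih => exact G2 s (σ s) _ (by have := h3 s hs; rwa [ih (by omega)] at this)
    rw [← h2, this _ le_rfl]
  · intro h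
    have e : ∀ s ≤ x.1, ((List.range (x.1 + 1)).map σ).getD s default = σ s := fun s hs => by
      simp [List.getD, Nat.lt_succ_of_le hs]
    exact ⟨(List.range (x.1 + 1)).map σ, ⟨e 0 (by omega), (e _ le_rfl).trans h⟩, fun s hs => by
      rw [e s hs.le, e _ hs]; exact G1 s _⟩

/-- The characteristic function of a set. -/
noncomputable def chi (A : Set ℕ) : ℕ → ℕ := fun n => if n ∈ A then 1 else 0

/-- The Turing jump, as the universal set c.e. in `X`: `⟨e, x⟩` belongs to it if the `e`-th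
program halts on `⟨x, σ⟩` for some initial segment `σ` of the characteristic function of `X`. -/
def jump (X : Set ℕ) : Set ℕ :=
  {n | ∃ k, ((Denumerable.ofNat Code n.unpair.1).eval
    (Nat.pair n.unpair.2 (Encodable.encode ((List.range k).map (chi X))))).Dom}

theorem exists_jump {W : ℕ → List ℕ → Prop} (h : REPred fun x : ℕ × List ℕ => W x.1 x.2) :
    ∃ e, ∀ X x, Nat.pair e x ∈ jump X ↔ ∃ k, W x (pre (chi X) k) := by
  obtain ⟨c, hc⟩ := Nat.Partrec.Code.exists_code.1 h
  refine ⟨Encodable.encode c, fun X x => exists_congr fun k => ?_⟩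
  simp only [Nat.unpair_pair, Denumerable.ofNat_encode, hc]
  rw [show Nat.pair x (Encodable.encode ((List.range k).map (chi X))) =
    Encodable.encode (x, pre (chi X) k) from rfl]
  simp [Part.dom_iff_mem]

/-- Membership in the jump through positive and negative premises. -/
theorem exists_rule {R : ℕ → List ℕ → List ℕ → Prop}
    (h : REPred fun x : ℕ × List ℕ × List ℕ => R x.1 x.2.1 x.2.2) :
    ∃ e, ∀ X x, Nat.pair e x ∈ jump X ↔
      ∃ P N, R x P N ∧ (∀ p ∈ P, p ∈ X) ∧ ∀ p ∈ N, p ∉ X := by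
  obtain ⟨e, he⟩ := exists_jump (W := fun x τ => ∃ q : List ℕ × List ℕ, R x q.1 q.2 ∧
    (q.1.all (fun p => τ.getD p 2 == 1) && q.2.all fun p => τ.getD p 2 == 0) = true)
    (re_ex (re_and (re_comp' h (fun y : (ℕ × List ℕ) × List ℕ × List ℕ => (y.1.1, y.2))
      (by fun_prop)) (re_prim (by fun_prop))))
  refine ⟨e, fun X x => (he X x).trans ?_⟩
  simp only [Bool.and_eq_true, List.all_eq_true, beq_iff_eq, Prod.exists]
  have k : ∀ k p, (pre (chi X) k).getD p 2 = if p < k then chi X p else 2 := fun k p => by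
    split_ifs with a
    · exact pre_getD _ a _
    · simp [List.getD, List.getElem?_eq_none (show (pre (chi X) k).length ≤ p by simpa using a)]
  simp only [k, chi]
  constructor
  · rintro ⟨n, P, N, h1, h2, h3⟩
    refine ⟨P, N, h1, fun p hp => ?_, fun p hp => ?_⟩
    · have := h2 p hp; split_ifs at this <;> simp_all
    · have := h3 p hp; split_ifs at this <;> simp_all
  · rintro ⟨P, N, h1, h2, h3⟩
    refine ⟨(P ++ N).sum + 1, P, N, h1, fun p hp => ?_, fun p hp => ?_⟩
    · have := List.le_sum_of_mem (List.mem_append_left N hp)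
      rw [if_pos (by omega), if_pos (h2 p hp)]
    · have := List.le_sum_of_mem (List.mem_append_right P hp)
      rw [if_pos (by omega), if_neg (h3 p hp)]

theorem re_univ : REPred fun x : ℕ × α =>
    ((Denumerable.ofNat Code x.1).eval (Encodable.encode x.2)).Dom :=
  (Nat.Partrec.Code.eval_part.comp (Primrec.to_comp (by fun_prop))
    (Primrec.to_comp (by fun_prop))).dom_re

theorem exists_index {p : α → Prop} (h : REPred p) :
    ∃ e, ∀ a, p a ↔ ((Denumerable.ofNat Code e).eval (Encodable.encode a)).Dom := by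
  obtain ⟨c, hc⟩ := Nat.Partrec.Code.exists_code.1 h
  refine ⟨Encodable.encode c, fun a => ?_⟩
  simp [hc, Part.dom_iff_mem]

/-- A total function with c.e. graph is computable. -/
theorem comp_of_re {f : ℕ → ℕ} (h : REPred fun x : ℕ × ℕ => f x.1 = x.2) : Computable f :=
  RecursiveIn.partrec_of_oracle (fun _ h => Set.mem_singleton_iff.1 h ▸ (Computable.const 0).partrec)
    (tr_of_se (g := fun _ => 0) (se_re h))

end Pool.Agent.H23.Rel
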