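import Mathlib
import Pool.Agent.H23.SE

set_option autoImplicit false

namespace Pool.Agent.H23.Rel

open RE TNF CTools
open Classical
open Nat.Partrec (Code)

variable {α β : Type} [Primcodable α] [Primcodable β] {g : ℕ → ℕ}

theorem se_pre : SE g fun x : ℕ × List ℕ => pre g x.1 = x.2 :=
  (se_and (se_prim (f := fun x : ℕ × List ℕ => x.2.length == x.1) (by fun_prop))
    (se_ball (p := fun (x : ℕ × List ℕ) i => g i = x.2.getD i 0) (se_val (by fun_prop) (by fun_prop))
      (n := fun x => x.1) (by fun_prop))).of_eq fun x => by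
    simp only [beq_iff_eq]
    constructor
    · rintro ⟨h1, h2⟩
      refine List.ext_getElem (by simp [h1]) fun i a b => ?_
      rw [← List.getD_eq_getElem _ 0 b, ← h2 i (h1 ▸ b)]
      simp [pre]
    · rintro h
      rw [← h]
      exact ⟨by simp, fun i hi => (pre_getD g hi 0).symm⟩

/-- A primitive recursive test on an initial segment of the oracle. -/
theorem se_test {n : α → ℕ} (hn : Primrec n) {t : α → List ℕ → Bool}
    (ht : Primrec fun x : α × List ℕ => t x.1 x.2) : SE g fun a => t a (pre g (n a)) = true :=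
  (se_ex (p := fun a τ => pre g (n a) = τ ∧ t a τ = true) (se_and (se_comp se_pre
    (fun x : α × List ℕ => (n x.1, x.2)) (by fun_prop)) (se_prim ht))).of_eq fun a => by simp

theorem take_pre {k s : ℕ} (h : k ≤ s) : (pre g s).take k = pre g k := by
  simp [pre, ← List.map_take, List.take_range, h]

theorem se_stage {p : α → Prop} (h : SE g p) : ∃ t : α → ℕ → List ℕ → Bool,
    (Primrec fun x : (α × ℕ) × List ℕ => t x.1.1 x.1.2 x.2) ∧
      (∀ a s s', s ≤ s' → t a s (pre g s) = true → t a s' (pre g s') = true) ∧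
      ∀ a, p a ↔ ∃ s, t a s (pre g s) = true := by
  obtain ⟨W, h1, h2, h3⟩ := h
  obtain ⟨R, k1, k2, k3⟩ := re_stage h1
  have e : Primrec fun x : ((α × ℕ) × List ℕ) × ℕ => R x.1.1.2 (x.1.1.1, x.1.2.take x.2) :=
    k1.comp (show Primrec fun x : ((α × ℕ) × List ℕ) × ℕ =>
      (x.1.1.2, (x.1.1.1, x.1.2.take x.2)) by fun_prop)
  refine ⟨fun a s τ => (List.range (s + 1)).any fun k => R s (a, τ.take k), by fun_prop, ?_,
    fun a => (h3 a).trans ?_⟩ <;> simp only [List.any_eq_true, List.mem_range]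
  · rintro a s s' h ⟨k, a1, a2⟩
    rw [take_pre (by omega)] at a2
    exact ⟨k, by omega, by rw [take_pre (by omega)]; exact k2 _ _ _ h a2⟩
  · refine ⟨fun ⟨n, h⟩ => ?_, fun ⟨s, k, a1, a2⟩ => ⟨k, (k3 (a, _)).2 ⟨s, ?_⟩⟩⟩
    · obtain ⟨s, hs⟩ := (k3 (a, _)).1 h
      exact ⟨max s n, n, by omega, by
        rw [take_pre (le_max_right _ _)]; exact k2 _ _ _ (le_max_left _ _) hs⟩
    · rwa [take_pre (by omega)] at a2

theorem se_jump {X : Set ℕ} : SE (chi X) (· ∈ jump X) :=
  se_ex (p := fun (n : ℕ) (k : ℕ) => ((Denumerable.ofNat Code n.unpair.1).eval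
    (Nat.pair n.unpair.2 (Encodable.encode ((List.range k).map (chi X))))).Dom)
    ((se_ex (p := fun (x : ℕ × ℕ) τ => pre (chi X) x.2 = τ ∧ ((Denumerable.ofNat Code x.1.unpair.1).eval
      (Encodable.encode (x.1.unpair.2, τ))).Dom) (se_and (se_comp se_pre
        (fun x : (ℕ × ℕ) × List ℕ => (x.1.2, x.2)) (by fun_prop)) (se_re (re_comp' re_univ
          (fun x : (ℕ × ℕ) × List ℕ => (x.1.1.unpair.1, x.1.1.unpair.2, x.2))
            (by fun_prop))))).of_eq fun x => by simp only [exists_eq_left']; rfl)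

/-- Relatively c.e. predicates are many-one reducible to the jump. -/
theorem to_jump {X : Set ℕ} {p : α → Prop} (h : SE (chi X) p) :
    ∃ e, ∀ a, p a ↔ Nat.pair e (Encodable.encode a) ∈ jump X := by
  obtain ⟨W, h1, -, h3⟩ := h
  obtain ⟨e, he⟩ := exists_jump (W := fun x τ => ∃ a, (x == Encodable.encode a) = true ∧ W a τ)
    (re_ex (re_and (re_prim (by fun_prop)) (re_comp' h1
      (fun x : (ℕ × List ℕ) × α => (x.2, x.1.2)) (by fun_prop))))
  exact ⟨e, fun a => by simp [he, h3]⟩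

theorem se_mem {X : Set ℕ} {f : α → ℕ} (hf : Primrec f) : SE (chi X) fun a => f a ∈ X :=
  (se_val (h := fun _ => 1) hf (by fun_prop)).of_eq fun a => by simp [chi]

theorem se_nmem {X : Set ℕ} {f : α → ℕ} (hf : Primrec f) : SE (chi X) fun a => f a ∉ X :=
  (se_val (h := fun _ => 0) hf (by fun_prop)).of_eq fun a => by simp [chi]

theorem se_up {X : Set ℕ} {p : α → Prop} (h : SE (chi X) p) : SE (chi (jump X)) p := by
  obtain ⟨e, he⟩ := to_jump h
  exact (se_mem (f := fun a => Nat.pair e (Encodable.encode a)) (by fun_prop)).of_eq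
    fun a => (he a).symm

theorem se_neg {X : Set ℕ} {p : α → Prop} (h : SE (chi X) p) :
    SE (chi (jump X)) fun a => ¬ p a := by
  obtain ⟨e, he⟩ := to_jump h
  exact (se_nmem (f := fun a => Nat.pair e (Encodable.encode a)) (by fun_prop)).of_eq
    fun a => (he a).not.symm

theorem tr_chi {A : Set ℕ} (h1 : SE g (· ∈ A)) (h2 : SE g (· ∉ A)) :
    TuringReducible (chi A : ℕ →. ℕ) (g : ℕ →. ℕ) :=
  tr_of_se ((se_or (se_and (se_comp h1 Prod.fst Primrec.fst)
    (se_prim (f := fun x : ℕ × ℕ => x.2 == 1) (by fun_prop))) (se_and (se_comp h2 Prod.fst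
      Primrec.fst) (se_prim (f := fun x : ℕ × ℕ => x.2 == 0) (by fun_prop)))).of_eq fun x => by
    by_cases h : x.1 ∈ A <;> simp [chi, h, @eq_comm _ x.2])

/-- Transitivity. -/
theorem se_trans {f : ℕ → ℕ} (h : SE g fun x : ℕ × ℕ => f x.1 = x.2) {p : α → Prop}
    (hp : SE f p) : SE g p := by
  obtain ⟨W, h1, -, h3⟩ := hp
  refine (se_ex (p := fun a τ => W a τ ∧ ∀ i < τ.length, f i = τ.getD i 0) (se_and (se_re h1)
    (se_ball (p := fun (x : α × List ℕ) i => f i = x.2.getD i 0) (se_comp h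
      (fun x : (α × List ℕ) × ℕ => (x.2, x.1.2.getD x.2 0)) (by fun_prop))
      (by fun_prop)))).of_eq fun a => Iff.trans ⟨fun ⟨τ, a1, a2⟩ => ⟨τ.length, ?_⟩,
        fun ⟨n, a1⟩ => ⟨_, a1, fun i hi => (pre_getD f (by simpa using hi) 0).symm⟩⟩ (h3 a).symm
  rwa [show pre f τ.length = τ from List.ext_getElem (by simp) fun i a b => by
    rw [← List.getD_eq_getElem _ 0 b, ← a2 i b]; simp [pre]]

theorem se_unif {p : α → ℕ → Prop} (hp : SE g fun x : α × ℕ => p x.1 x.2) :
    ∃ q : α → ℕ → Prop, (SE g fun x : α × ℕ => q x.1 x.2) ∧ (∀ a u, q a u → p a u) ∧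
      (∀ a u v, q a u → q a v → u = v) ∧ ∀ a u, p a u → ∃ v, q a v := by
  obtain ⟨t, h1, -, h3⟩ := se_stage hp
  let T : α → ℕ → Bool := fun a c => t (a, c.unpair.1) c.unpair.2 (pre g c.unpair.2)
  refine ⟨fun a u => ∃ s, T a (Nat.pair u s) = true ∧ ∀ c < Nat.pair u s, (!T a c) = true,
    se_ex (se_and (SE.of_eq (se_test (n := fun x : (α × ℕ) × ℕ => x.2) (by fun_prop)
      (t := fun x τ => t x.1 x.2 τ) h1) fun x => by simp [T])
      (se_ball (p := fun (x : (α × ℕ) × ℕ) c => (!T x.1.1 c) = true)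
        (se_test (n := fun x : ((α × ℕ) × ℕ) × ℕ => x.2.unpair.2) (by fun_prop)
          (t := fun x τ => !t (x.1.1.1, x.2.unpair.1) x.2.unpair.2 τ) (Primrec.not.comp (h1.comp
            (g := fun x : (((α × ℕ) × ℕ) × ℕ) × List ℕ =>
              (((x.1.1.1.1, x.1.2.unpair.1), x.1.2.unpair.2), x.2)) (by fun_prop))))
        (by fun_prop))), ?_, ?_, ?_⟩
  · rintro a u ⟨s, hs, -⟩
    exact (h3 (a, u)).2 ⟨s, by simpa [T] using hs⟩
  · rintro a u v ⟨s, hs, hs'⟩ ⟨r, hr, hr'⟩
    rcases lt_trichotomy (Nat.pair u s) (Nat.pair v r) with h | h | h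
    · simpa [hs] using hr' _ h
    · exact (Nat.pair_eq_pair.1 h).1
    · simpa [hr] using hs' _ h
  · intro a u hu
    obtain ⟨s, hs⟩ := (h3 (a, u)).1 hu
    have hex : ∃ c, T a c = true := ⟨Nat.pair u s, by simpa [T] using hs⟩
    refine ⟨(Nat.find hex).unpair.1, (Nat.find hex).unpair.2, ?_⟩
    rw [Nat.pair_unpair]
    exact ⟨Nat.find_spec hex, fun c hc => by simpa using Nat.find_min hex hc⟩

/-- The iterated jumps of the empty set. -/
def J : ℕ → Set ℕ
  | 0 => ∅
  | n + 1 => jump (J n)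

/-- The classes `Σ⁰ₙ` of the arithmetical hierarchy: `Σ⁰₀` is computable, and a `Σ⁰ₙ₊₁` predicate
is the projection of a predicate whose negation is `Σ⁰ₙ`. -/
def Sg : ℕ → ∀ (α : Type) [Primcodable α], (α → Prop) → Prop
  | 0, _, _, p => ComputablePred p
  | n + 1, α, _, p => ∃ q : α × ℕ → Prop, Sg n (α × ℕ) (fun x => ¬ q x) ∧ ∀ a, p a ↔ ∃ y, q (a, y)

theorem re_of_se {p : α → Prop} (h : SE (chi ∅) p) : REPred p := by
  obtain ⟨W, h1, -, h3⟩ := h
  refine (re_ex (p := fun a (k : ℕ) => W a ((List.range k).map fun _ => 0))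
    (re_comp' h1 (fun x : α × ℕ => (x.1, (List.range x.2).map fun _ => 0))
    (by fun_prop))).of_eq fun a => Iff.trans ?_ (h3 a).symm
  simp only [pre, show chi ∅ = fun _ => 0 from funext fun _ => by simp [chi]]

/-- Post's theorem. -/
theorem post (n : ℕ) : ∀ (α : Type) [Primcodable α] (p : α → Prop),
    Sg (n + 1) α p ↔ SE (chi (J n)) p := by
  induction n with
  | zero =>
    intro α _ p
    refine ⟨fun ⟨q, h1, h2⟩ => se_re ((re_ex (p := fun a y => q (a, y))
      ((h1.not.of_eq fun _ => not_not).to_re)).of_eq fun a => (h2 a).symm), fun h => ?_⟩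
    obtain ⟨R, h1, -, h3⟩ := re_stage (re_of_se h)
    exact ⟨fun x => R x.2 x.1 = true, (ComputablePred.computable_iff.2 ⟨fun x : α × ℕ => R x.2 x.1,
      (h1.comp (Primrec.snd.pair Primrec.fst)).to_comp, rfl⟩).not, h3⟩
  | succ n ih =>
    intro α _ p
    refine ⟨fun ⟨q, h1, h2⟩ => (se_ex (p := fun a y => q (a, y)) ((se_neg ((ih _ _).1 h1)).of_eq
      fun _ => not_not)).of_eq fun a => (h2 a).symm, fun ⟨W, h1, _, h3⟩ => ?_⟩
    obtain ⟨R, k1, k2, k3⟩ := re_stage h1
    obtain ⟨t, t1, t2, t3⟩ := se_stage (se_jump (X := J n))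
    obtain ⟨d, d1, d2⟩ : ∃ d : ℕ → List ℕ × ℕ, Primrec d ∧ Function.Surjective d :=
      ⟨_, Primrec.ofNat _, (Denumerable.eqv _).symm.surjective⟩
    have e : Primrec fun x : α × ℕ => R (d x.2).2 (x.1, (d x.2).1) :=
      k1.comp (show Primrec fun x : α × ℕ => ((d x.2).2, (x.1, (d x.2).1)) by fun_prop)
    refine ⟨fun x => ¬ ((!R (d x.2).2 (x.1, (d x.2).1)) = true ∨ ∃ i,
      Nat.blt i (d x.2).1.length = true ∧ ((!((d x.2).1.getD i 0 == 1)) = true ∨
        (!t i (d x.2).2 (pre (chi (J n)) (d x.2).2)) = true) ∧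
      ((!((d x.2).1.getD i 0 == 0)) = true ∨ i ∈ J (n + 1))), (ih _ _).2 (SE.of_eq
      (se_or (se_prim (by fun_prop)) (se_ex (se_and (se_prim (by fun_prop)) (se_and
        (se_or (se_prim (by fun_prop)) (se_test (n := fun x : (α × ℕ) × ℕ => (d x.1.2).2)
          (by fun_prop) (t := fun x τ => !t x.2 (d x.1.2).2 τ) (Primrec.not.comp (t1.comp
            (g := fun x : ((α × ℕ) × ℕ) × List ℕ => ((x.1.2, (d x.1.1.2).2), x.2)) (by fun_prop)))))
        (se_or (se_prim (by fun_prop)) (se_comp se_jump Prod.snd Primrec.snd))))))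
      fun _ => not_not.symm), fun a => (h3 a).trans ?_⟩
    simp only [not_or, not_exists, not_and_or, Nat.blt_eq, Bool.not_eq_true', Bool.not_eq_false,
      beq_iff_eq, ← imp_iff_not_or]
    constructor
    · rintro ⟨m, h⟩
      obtain ⟨s, hs⟩ := (k3 (a, _)).1 h
      choose! u hu using fun i => (t3 i).1
      obtain ⟨y, hy⟩ := d2 (pre (chi (J (n + 1))) m, max s ((Finset.range m).sup u))
      refine ⟨y, by rw [hy]; exact k2 _ _ _ (le_max_left _ _) hs, fun i hi => ?_⟩
      simp only [hy, pre_length] at hi ⊢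
      rw [pre_getD _ hi]
      by_cases b : i ∈ J (n + 1)
      · exact Or.inl ⟨if_pos b, t2 _ _ _ ((Finset.le_sup (Finset.mem_range.2 hi)).trans
          (le_max_right _ _)) (hu i b)⟩
      · exact Or.inr ⟨if_neg b, b⟩
    · rintro ⟨y, h4, h5⟩
      refine ⟨(d y).1.length, ?_⟩
      rw [show pre (chi (J (n + 1))) (d y).1.length = (d y).1 from
        List.ext_getElem (by simp) fun i a b => ?_]
      · exact (k3 (a, _)).2 ⟨_, h4⟩
      rw [← List.getD_eq_getElem _ 0 b]
      simp only [pre, List.getElem_map, List.getElem_range, chi]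
      rcases h5 i b with ⟨c, c'⟩ | ⟨c, c'⟩
      · rw [c, if_pos (show i ∈ J (n + 1) from (t3 i).2 ⟨_, c'⟩)]
      · rw [c, if_neg c']

end Pool.Agent.H23.Rel
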