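import Mathlib
import Pool.Agent.H23.Post

set_option autoImplicit false

namespace Pool.Agent.H23.Rel

open RE TNF CTools
open Classical
open Nat.Partrec (Code)

theorem limit_seq (σ : ℕ → List ℕ) (h : ∀ s, ∃ ρ b, σ (s + 1) = σ s ++ ρ ++ [b]) :
    (∀ m n, m ≤ n → σ m <+: σ n) ∧ (∀ n, n ≤ (σ n).length) ∧
    ∀ n τ, τ <+: σ n → τ = pre (fun x => (σ (x + 1)).getD x 0) τ.length := by
  have p1 : ∀ m n, m ≤ n → σ m <+: σ n := fun m n a => by
    induction n, a using Nat.le_induction with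
    | base => exact List.prefix_rfl
    | succ n _ ih =>
      obtain ⟨ρ, b, e⟩ := h n
      exact ih.trans ⟨ρ ++ [b], by rw [e, List.append_assoc]⟩
  have p2 : ∀ n, n ≤ (σ n).length := fun n => by
    induction n with
    | zero => simp
    | succ n ih =>
      obtain ⟨ρ, b, e⟩ := h n
      simp [e]; omega
  refine ⟨p1, p2, fun n τ h => List.ext_getElem (by simp) fun i h1 _ => ?_⟩
  have a := p2 (i + 1)
  simp only [pre, List.getElem_map, List.getElem_range]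
  rw [List.getD_eq_getElem _ _ (by omega), (h.trans (p1 _ _ (le_max_left n (i + 1)))).getElem,
    (p1 _ _ (le_max_right n (i + 1))).getElem]

/-- A low 1-generic sequence. -/
theorem low_generic : ∃ f : ℕ → ℕ, (∀ x, f x ≤ 1) ∧ (SE (chi (J 1)) fun x : ℕ × ℕ => f x.1 = x.2) ∧
    (∀ p : ℕ → Prop, SE f p → SE (chi (J 1)) fun x => ¬ p x) ∧
    ∀ W : List ℕ → Prop, REPred W →
      (∀ σ, (∀ b ∈ σ, b ≤ 1) → ∃ ρ, (∀ b ∈ ρ, b ≤ 1) ∧ W (σ ++ ρ)) → ∃ n, W (pre f n) := by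
  obtain ⟨A, rA, hA⟩ : ∃ A : ℕ → ℕ × List ℕ → Prop, (REPred fun x : ℕ × ℕ × List ℕ => A x.1 x.2) ∧
      ∀ p, REPred p → ∃ e, ∀ a, p a ↔ A e a := ⟨_, re_univ, fun p => exists_index⟩
  obtain ⟨d, d1, d2⟩ : ∃ d : ℕ → List ℕ, Primrec d ∧ Function.Surjective d :=
    ⟨_, Primrec.ofNat _, (Denumerable.eqv _).symm.surjective⟩
  obtain ⟨q, q1, q2, q3, q4⟩ := uniformize (p := fun (a : ℕ × List ℕ) u =>
    ((d u).all fun b => Nat.ble b 1) = true ∧ A a.1.unpair.1 (a.1.unpair.2, a.2 ++ d u))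
    (re_and (re_prim (by fun_prop)) (re_comp' rA (fun x : (ℕ × List ℕ) × ℕ =>
      (x.1.1.unpair.1, x.1.1.unpair.2, x.1.2 ++ d x.2)) (by fun_prop)))
  simp only [List.all_eq_true, Nat.ble_eq] at q2 q4
  have q' : REPred fun x : (ℕ × List ℕ × List ℕ) × ℕ => q (x.1.1, x.1.2.1) x.2 :=
    re_comp' q1 (fun x : (ℕ × List ℕ × List ℕ) × ℕ => ((x.1.1, x.1.2.1), x.2)) (by fun_prop)
  obtain ⟨σ, s0, s1, s2⟩ := se_rec (g := chi (J 1)) (S := fun s σ τ =>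
    ((¬ ∃ u, q (s, σ) u) ∧ (τ == σ ++ [] ++ [0]) = true) ∨
      ∃ u, q (s, σ) u ∧ (τ == σ ++ d u ++ [0]) = true)
    (se_or (se_and (se_neg (X := J 0) (se_re (re_ex q'))) (se_prim (by fun_prop)))
      (se_re (re_ex (re_and q' (re_prim (by fun_prop)))))) [] fun s σ => by
    simp only [beq_iff_eq]
    by_cases a : ∃ u, q (s, σ) u
    · obtain ⟨u, a⟩ := id a
      exact ⟨_, Or.inr ⟨u, a, rfl⟩, fun τ b => b.elim (fun b => absurd ⟨u, a⟩ b.1)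
        fun ⟨v, b, c⟩ => q3 _ _ _ b a ▸ c⟩
    · exact ⟨_, Or.inl ⟨a, rfl⟩, fun τ b => b.elim (·.2) fun ⟨v, b, _⟩ => absurd ⟨v, b⟩ a⟩
  simp only [beq_iff_eq] at s1
  obtain ⟨p1, p2, p3⟩ := limit_seq σ fun s => (s1 s).elim (fun h => ⟨_, _, h.2⟩)
    fun ⟨_, h⟩ => ⟨_, _, h.2⟩
  have p4 : ∀ n, ∀ b ∈ σ n, b ≤ 1 := fun n => by
    induction n with
    | zero => simp [s0]
    | succ n ih =>
      rcases s1 n with ⟨-, e⟩ | ⟨u, a, e⟩ <;> rw [e] <;> intro b hb <;>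
        simp only [List.mem_append, List.mem_singleton, List.not_mem_nil, or_false] at hb
      · rcases hb with hb | rfl
        exacts [ih b hb, by omega]
      · rcases hb with (hb | hb) | rfl
        exacts [ih b hb, (q2 _ _ a).1 b hb, by omega]
  have p5 : ∀ s u, q (s, σ s) u → ∃ n, A s.unpair.1 (s.unpair.2,
      pre (fun x => (σ (x + 1)).getD x 0) n) := fun s u a => by
    rcases s1 s with ⟨b, -⟩ | ⟨v, b, e⟩
    · exact absurd ⟨u, a⟩ b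
    · exact ⟨_, p3 _ _ ⟨_, e.symm⟩ ▸ (q2 _ _ b).2⟩
  refine ⟨fun x => (σ (x + 1)).getD x 0, fun x => ?_, SE.of_eq (p := fun x : ℕ × ℕ => ∃ τ,
    σ (x.1 + 1) = τ ∧ (τ.getD x.1 0 == x.2) = true) (se_ex (se_and (se_comp s2
      (fun x : (ℕ × ℕ) × List ℕ => (x.1.1 + 1, x.2)) (by fun_prop)) (se_prim (by fun_prop))))
      fun x => by simp, fun p ⟨W, w1, w2, w3⟩ => ?_, fun W w1 w2 => ?_⟩
  · have a := p2 (x + 1)
    dsimp only
    rw [List.getD_eq_getElem _ _ (by omega)]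
    exact p4 _ _ (List.getElem_mem _)
  · obtain ⟨e, he⟩ := hA _ w1
    refine (se_ex (p := fun x τ => σ (Nat.pair e x) = τ ∧ ¬ ∃ u, q (Nat.pair e x, τ) u) (se_and
      (se_comp s2 (fun x : ℕ × List ℕ => (Nat.pair e x.1, x.2)) (by fun_prop))
      (se_neg (X := J 0) (se_re (re_ex (re_comp' q1 (fun x : (ℕ × List ℕ) × ℕ =>
        ((Nat.pair e x.1.1, x.1.2), x.2)) (by fun_prop))))))).of_eq fun x => ?_
    rw [exists_eq_left', w3]
    refine not_congr ⟨fun ⟨u, a⟩ => (p5 _ u a).imp fun n b => (he (x, pre _ n)).2 (by simpa only [Nat.unpair_pair] using b),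
      fun ⟨n, a⟩ => ?_⟩
    obtain ⟨ρ, hρ⟩ := p1 _ _ (le_max_left (Nat.pair e x) n)
    obtain ⟨u, rfl⟩ := d2 ρ
    refine q4 _ u ⟨fun c hc => p4 _ c (hρ ▸ List.mem_append_right _ hc), ?_⟩
    simp only [Nat.unpair_pair, hρ]
    rw [p3 _ _ List.prefix_rfl]
    exact (he (x, _)).1 (w2 _ _ _ ((le_max_right _ _).trans (p2 _)) a)
  · obtain ⟨e, he⟩ := hA (fun x => W x.2) (re_comp' w1 _ Primrec.snd)
    obtain ⟨ρ, a, b⟩ := w2 _ (p4 (Nat.pair e 0))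
    obtain ⟨u, rfl⟩ := d2 ρ
    obtain ⟨v, hv⟩ := q4 (Nat.pair e 0, σ (Nat.pair e 0)) u ⟨a, by simpa using (he (0, _)).1 b⟩
    exact (p5 _ v hv).imp fun n c => (he (0, pre _ n)).2 (by simpa only [Nat.unpair_pair] using c)

end Pool.Agent.H23.Rel
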