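import Mathlib

namespace Pool.Agent.H23.HM
open Filter Topology MeasureTheory Set

/-- `G` carries a group norm in which every element is joined to `0` by a path that
strictly lowers the norm. -/
def Nice (G : Type) [AddCommGroup G] : Prop :=
  ∃ ν : AddGroupNorm G, ∀ g : G, ∃ γ : ℝ → G, γ 0 = g ∧ γ 1 = 0 ∧
    (∀ v ∈ Icc (0 : ℝ) 1, Tendsto (fun u => ν (γ u - γ v)) (𝓝[Icc 0 1] v) (𝓝 0)) ∧
    ∀ u ∈ Ioc (0 : ℝ) 1, ν (γ u) < ν g ∨ (g = 0 ∧ γ u = 0)

theorem Nice.final {G : Type} [AddCommGroup G] (h : Nice G) :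
    ∃ _ : TopologicalSpace G, IsTopologicalAddGroup G ∧ T2Space G ∧ PathConnectedSpace G ∧
      ∀ (x : G) (U : Set G), IsOpen U → x ∈ U → ∃ V : Set G, IsOpen V ∧ x ∈ V ∧
        closure V ⊆ U ∧ IsPathConnected (closure V) := by
  obtain ⟨ν, h⟩ := h
  let _ := ν.toNormedAddCommGroup
  have key : ∀ (x y : G) (S : Set G), y ∈ S → x ∈ S → (∀ z, ‖z - x‖ < ‖y - x‖ → z ∈ S) →
      JoinedIn S x y := fun x y S hy hx hS => by
    obtain ⟨γ, h0, h1, h2, h3⟩ := h (y - x)
    refine (JoinedIn.ofLine (f := fun u => γ u + x) (ContinuousOn.add (fun v hv =>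
      tendsto_iff_norm_sub_tendsto_zero.2 (h2 v hv)) continuousOn_const) (by simp [h0])
      (by simp [h1]) ?_).symm
    rintro _ ⟨u, hu, rfl⟩
    rcases hu.1.eq_or_lt with rfl | h4
    · simpa [h0] using hy
    rcases h3 u ⟨h4, hu.2⟩ with h5 | h5
    · exact hS _ (by rwa [add_sub_cancel_right])
    · simpa [h5.2] using hx
  refine ⟨inferInstance, inferInstance, inferInstance, ⟨⟨0⟩, fun x y =>
    (key x y univ trivial trivial fun _ _ => trivial).joined⟩, fun x U hU hx => ?_⟩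
  obtain ⟨r, hr, h1⟩ := Metric.nhds_basis_closedBall.mem_iff.1 (hU.mem_nhds hx)
  have h2 := subset_closure (Metric.mem_ball_self (x := x) hr)
  refine ⟨Metric.ball x r, Metric.isOpen_ball, Metric.mem_ball_self hr,
    Metric.closure_ball_subset_closedBall.trans h1, x, h2, fun y hy =>
      key x y _ hy h2 fun z hz => subset_closure (mem_ball_iff_norm.2 (hz.trans_le ?_))⟩
  exact mem_closedBall_iff_norm.1 (Metric.closure_ball_subset_closedBall hy)

theorem Nice.prod {G A B : Type} [AddCommGroup G] [AddCommGroup A] [AddCommGroup B]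
    (e : (A × B) ≃+ G) (hA : Nice A) (hB : Nice B) : Nice G := by
  obtain ⟨ν, hA⟩ := hA
  obtain ⟨ρ, hB⟩ := hB
  refine ⟨⟨⟨fun g => ν (e.symm g).1 + ρ (e.symm g).2, by simp, fun a b => ?_, fun a => by simp⟩,
    fun g hg => ?_⟩, fun g => ?_⟩
  · have := map_add_le_add ν (e.symm a).1 (e.symm b).1
    have := map_add_le_add ρ (e.symm a).2 (e.symm b).2
    simp only [map_add, Prod.fst_add, Prod.snd_add]
    linarith
  · have h := (add_eq_zero_iff_of_nonneg (apply_nonneg ν _) (apply_nonneg ρ _)).1 hg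
    exact e.symm.map_eq_zero_iff.1 (Prod.ext (eq_zero_of_map_eq_zero ν h.1)
      (eq_zero_of_map_eq_zero ρ h.2))
  obtain ⟨γ, a0, a1, a2, a3⟩ := hA (e.symm g).1
  obtain ⟨η, b0, b1, b2, b3⟩ := hB (e.symm g).2
  refine ⟨fun u => e (γ u, η u), by simp [a0, b0], by simp [a1, b1, Prod.mk_zero_zero],
    fun v hv => ?_, fun u hu => ?_⟩
  · have := (a2 v hv).add (b2 v hv)
    rw [add_zero] at this
    refine this.congr fun u => ?_
    change _ = ν (e.symm _).1 + ρ (e.symm _).2
    simp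
  · change ν (e.symm _).1 + ρ (e.symm _).2 < ν (e.symm _).1 + ρ (e.symm _).2 ∨ _
    simp only [AddEquiv.symm_apply_apply]
    rcases a3 u hu with h | h <;> rcases b3 u hu with k | k
    · exact .inl (add_lt_add h k)
    · exact .inl (by simpa [k.1, k.2] using h)
    · exact .inl (by simpa [h.1, h.2] using k)
    · exact .inr ⟨e.symm.map_eq_zero_iff.1 (Prod.ext h.1 k.1), by
        simp [h.2, k.2, Prod.mk_zero_zero]⟩

noncomputable def μ : Measure ℝ := volume.toFinite
instance : IsFiniteMeasure μ := inferInstanceAs (IsFiniteMeasure volume.toFinite)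

variable {K : Type} [NormedAddCommGroup K]

noncomputable def St : (ℝ →₀ K) →+ (ℝ → K) :=
  Finsupp.liftAddHom fun s => (indicatorHom K (Ici s)).comp (Pi.constAddMonoidHom ℝ K)

theorem St_single (s : ℝ) (a : K) (t : ℝ) :
    St (Finsupp.single s a) t = if s ≤ t then a else 0 := by
  simp [St, indicatorHom, indicator_apply]

theorem St_apply (f : ℝ →₀ K) (t : ℝ) :
    St f t = ∑ s ∈ f.support, if s ≤ t then f s else 0 := by
  conv_lhs => rw [← f.sum_single, Finsupp.sum, map_sum, Finset.sum_apply]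
  simp [St_single]

theorem St_int (f : ℝ →₀ K) : Integrable (St f) μ := by
  induction f using Finsupp.induction_linear with
  | zero => simp
  | add f g hf hg => simpa using hf.add hg
  | single s a =>
    rw [show St (Finsupp.single s a) = (Ici s).indicator fun _ => a from
      funext fun t => by simp [St_single, indicator_apply]]
    exact (integrable_const a).indicator measurableSet_Ici

theorem St_min {f : ℝ →₀ K} (hf : f ≠ 0) : ∃ t0 t1, t0 < t1 ∧ (∀ t < t0, St f t = 0) ∧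
    ∀ t ∈ Ico t0 t1, St f t ≠ 0 := by
  have hne := Finsupp.support_nonempty_iff.2 hf
  obtain ⟨t0, h0, h1⟩ := f.support.exists_min_image id hne
  obtain ⟨t1, h2, h3⟩ : ∃ t1, t0 < t1 ∧ ∀ s ∈ f.support.erase t0, t1 ≤ s := by
    rcases (f.support.erase t0).eq_empty_or_nonempty with h | h
    · exact ⟨t0 + 1, by simp, by simp [h]⟩
    · obtain ⟨t1, h4, h5⟩ := (f.support.erase t0).exists_min_image id h
      rw [Finset.mem_erase] at h4
      exact ⟨t1, lt_of_le_of_ne (h1 _ h4.2) h4.1.symm, h5⟩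
  refine ⟨t0, t1, h2, fun t ht => ?_, fun t ht => ?_⟩
  · rw [St_apply]
    exact Finset.sum_eq_zero fun s hs => if_neg (ht.trans_le (h1 s hs)).not_ge
  · rw [St_apply, Finset.sum_eq_single_of_mem t0 h0 fun s hs h =>
      if_neg (ht.2.trans_le (h3 s (Finset.mem_erase.2 ⟨h, hs⟩))).not_ge, if_pos ht.1]
    exact Finsupp.mem_support_iff.1 h0

theorem repr (K0 : AddSubgroup K) (Z : Finset ℝ) : ∀ F : ℝ → K, (∀ t, F t ∈ K0) →
    (∀ t t', (∀ z ∈ Z, z ≤ t ↔ z ≤ t') → F t = F t') → (∀ t, (∀ z ∈ Z, t < z) → F t = 0) →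
    ∃ f : ℝ →₀ K, (∀ s, f s ∈ K0) ∧ St f = F := by
  induction Z using Finset.induction_on_max with
  | empty => exact fun F _ _ h => ⟨0, fun _ => K0.zero_mem, funext fun t => by
      simp [h t (by simp)]⟩
  | insert m Z hm ih =>
    intro F h1 h2 h3
    obtain ⟨t1, h4, h5⟩ : ∃ t1 < m, ∀ z ∈ Z, z ≤ t1 := by
      rcases Z.eq_empty_or_nonempty with rfl | h
      · exact ⟨m - 1, by simp, by simp⟩
      · exact ⟨Z.max' h, hm _ (Z.max'_mem h), fun z hz => Z.le_max' z hz⟩
    let ρ : ℝ → ℝ := fun t => if t < m then t else t1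
    have r1 : ∀ t, ρ t < m := fun t => by
      simp only [ρ]
      split_ifs <;> assumption
    have r2 : ∀ t, ∀ z ∈ Z, z ≤ ρ t ↔ z ≤ t := fun t z hz => by
      simp only [ρ]
      split_ifs with h
      · rfl
      · exact iff_of_true (h5 z hz) ((hm z hz).le.trans (not_lt.1 h))
    obtain ⟨f, h6, h7⟩ := ih (fun t => F (ρ t)) (fun _ => h1 _) (fun t t' h => h2 _ _ (by
      simp only [Finset.forall_mem_insert]
      exact ⟨iff_of_false (r1 t).not_ge (r1 t').not_ge, fun z hz => by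
        rw [r2 t z hz, r2 t' z hz, h z hz]⟩)) fun t h => h3 _ (by
      simp only [Finset.forall_mem_insert]
      exact ⟨r1 t, fun z hz => not_le.1 fun k => (h z hz).not_ge ((r2 t z hz).1 k)⟩)
    refine ⟨f + Finsupp.single m (F m - F t1), fun s => K0.add_mem (h6 s) ?_, funext fun t => ?_⟩
    · rw [Finsupp.single_apply]
      split_ifs
      exacts [K0.sub_mem (h1 _) (h1 _), K0.zero_mem]
    · rw [map_add, Pi.add_apply, h7, St_single]
      by_cases h : t < m
      · simp [ρ, h, h.not_ge]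
      · simp only [ρ, h, not_lt.1 h, if_true, if_false, add_sub_cancel]
        refine h2 _ _ fun z hz => ?_
        have : z ≤ m := (Finset.mem_insert.1 hz).elim le_of_eq fun k => (hm z k).le
        exact iff_of_true this (this.trans (not_lt.1 h))

theorem int_lt {F G : ℝ → ℝ} (hF : Integrable F μ) (hG : Integrable G μ) (h : F ≤ G) {a b : ℝ}
    (hab : a < b) (h1 : ∀ t ∈ Ioo a b, F t < G t) : ∫ t, F t ∂μ < ∫ t, G t ∂μ := by
  rw [← sub_pos, ← integral_sub hG hF]
  refine (integral_pos_iff_support_of_nonneg (fun t => sub_nonneg.2 (h t)) (hG.sub hF)).2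
    (lt_of_lt_of_le (pos_iff_ne_zero.2 fun k => ?_)
      (measure_mono (s := Ioo a b) fun t ht => (sub_pos.2 (h1 t ht)).ne'))
  have := absolutelyContinuous_toFinite (volume : Measure ℝ) k
  simp [hab.not_ge] at this

noncomputable def nn (t0 u t : ℝ) : ℕ := if t ≤ t0 then 0 else ⌊u⁻¹ - 1 - (t - t0)⁻¹⌋₊

theorem nn_step (t0 u : ℝ) : ∃ Z : Finset ℝ, ∀ t t', (∀ z ∈ Z, z ≤ t ↔ z ≤ t') →
    nn t0 u t = nn t0 u t' := by
  have key : ∀ (t : ℝ) (k : ℕ), k ≠ 0 → (k ≤ nn t0 u t ↔
      k < ⌈u⁻¹ - 1⌉₊ ∧ t0 + (u⁻¹ - 1 - k)⁻¹ ≤ t) := fun t k hk => by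
    rw [Nat.lt_ceil, nn]
    split_ifs with h
    · refine iff_of_false (by omega) fun ⟨h1, h2⟩ => ?_
      have := inv_pos.2 (sub_pos.2 h1)
      linarith
    have h0 := sub_pos.2 (not_le.1 h)
    have h1 := inv_pos.2 h0
    rw [Nat.le_floor_iff' hk, ← le_sub_iff_add_le']
    refine ⟨fun h2 => ⟨by linarith, (inv_le_comm₀ (by linarith) h0).2 (by linarith)⟩,
      fun ⟨h2, h3⟩ => ?_⟩
    have := (inv_le_comm₀ (sub_pos.2 h2) h0).1 h3
    linarith
  refine ⟨(Finset.range ⌈u⁻¹ - 1⌉₊).image fun k : ℕ => t0 + (u⁻¹ - 1 - k)⁻¹, fun t t' h =>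
    eq_of_forall_le_iff fun k => ?_⟩
  by_cases hk : k = 0
  · simp [hk]
  rw [key t k hk, key t' k hk]
  exact and_congr_right fun h1 => h _ (Finset.mem_image_of_mem _ (Finset.mem_range.2 h1))

theorem floor_ev {x : ℝ} (hx : ∀ k : ℕ, x ≠ k) : ∀ᶠ y in 𝓝 x, ⌊y⌋₊ = ⌊x⌋₊ := by
  rcases lt_or_ge x 1 with h | h
  · filter_upwards [Iio_mem_nhds h] with y hy
    rw [Nat.floor_eq_zero.2 h, Nat.floor_eq_zero.2 hy]
  · filter_upwards [Ioo_mem_nhds (lt_of_le_of_ne (Nat.floor_le (by linarith)) (hx _).symm)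
      (Nat.lt_floor_add_one x)] with y hy
    exact Nat.floor_eq_on_Ico _ _ ⟨hy.1.le, hy.2⟩

theorem nice_of_hm {G : Type} [AddCommGroup G] (K0 : AddSubgroup K) (a : ℕ → K → K)
    (a1 : ∀ n x, a n x ∈ K0) (a2 : ∀ x, a 0 x = 0) (a3 : ∀ n x, ‖a n x‖ ≤ ‖x‖)
    (a4 : ∀ x, Tendsto (fun n => a n x) atTop (𝓝 x)) (j : G →+ (ℝ →₀ K))
    (hj : Function.Injective j) (hs : ∀ f : ℝ →₀ K, (∀ s, f s ∈ K0) → ∃ g, j g = f) :
    Nice G := by
  have I : ∀ g, Integrable (fun t => ‖St (j g) t‖) μ := fun g => (St_int _).norm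
  have inj : ∀ g, ∫ t, ‖St (j g) t‖ ∂μ = 0 → g = 0 := fun g hg => by
    by_contra h
    obtain ⟨t0, t1, h1, -, h2⟩ := St_min ((map_eq_zero_iff j hj).not.2 h)
    have := int_lt (integrable_zero _ _ _) (I g) (fun t => norm_nonneg _) h1
      fun t ht => norm_pos_iff.2 (h2 t (Ioo_subset_Ico_self ht))
    simp [hg] at this
  refine ⟨⟨⟨fun g => ∫ t, ‖St (j g) t‖ ∂μ, by simp, fun g h => ?_, fun g => by simp⟩, inj⟩,
    fun g => ?_⟩
  · rw [← integral_add (I g) (I h)]
    exact integral_mono (I _) ((I g).add (I h)) fun t => by simpa using norm_add_le _ _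
  by_cases hg : g = 0
  · exact ⟨fun _ => 0, hg.symm, rfl, fun _ _ => by simpa using tendsto_const_nhds,
      fun _ _ => .inr ⟨hg, rfl⟩⟩
  obtain ⟨t0, t1, h1, h2, h3⟩ := St_min ((map_eq_zero_iff j hj).not.2 hg)
  have a5 : ∀ n, a n 0 = 0 := fun n => norm_le_zero_iff.1 (by simpa using a3 n 0)
  let F : ℝ → ℝ → K := fun u t => if u = 0 then St (j g) t else a (nn t0 u t) (St (j g) t)
  have F0 : ∀ t, F 0 t = St (j g) t := fun t => if_pos rfl
  have F1 : ∀ u ≠ 0, ∀ t, F u t = a (nn t0 u t) (St (j g) t) := fun u hu t => if_neg hu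
  have F2 : ∀ u t, ‖F u t‖ ≤ ‖St (j g) t‖ := fun u t => by
    simp only [F]
    split_ifs
    exacts [le_rfl, a3 _ _]
  have : ∀ u, ∃ h, St (j h) = F u ∧ (u = 0 → h = g) := fun u => by
    by_cases hu : u = 0
    · exact ⟨g, funext fun t => by simp [F, hu], fun _ => rfl⟩
    obtain ⟨Z, hZ⟩ := nn_step t0 u
    obtain ⟨f, h4, h5⟩ := repr K0 (insert t0 (Z ∪ (j g).support)) (F u)
      (fun t => F1 u hu t ▸ a1 _ _) (fun t t' h => by
        rw [F1 u hu, F1 u hu, hZ t t' fun z hz => h z (by simp [hz]), St_apply, St_apply]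
        exact congrArg _ (Finset.sum_congr rfl fun s hs => by
          simp only [h s (Finset.mem_insert_of_mem (Finset.mem_union_right _ hs))]))
      fun t h => by rw [F1 u hu, h2 t (h t0 (by simp)), a5]
    obtain ⟨h, rfl⟩ := hs f h4
    exact ⟨h, h5, fun k => absurd k hu⟩
  choose γ hγ h0 using this
  refine ⟨γ, h0 0 rfl, inj _ ?_, fun v hv => ?_, fun u hu => .inl ?_⟩
  · have : ∀ t, St (j (γ 1)) t = 0 := fun t => by
      rw [hγ, F1 1 one_ne_zero, ← a2 (St (j g) t), nn]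
      split_ifs with h
      · rfl
      · rw [Nat.floor_eq_zero.2]
        have := inv_pos.2 (sub_pos.2 (not_le.1 h))
        simp only [inv_one]
        linarith
    simp [this]
  · change Tendsto (fun u => ∫ t, ‖St (j (γ u - γ v)) t‖ ∂μ) _ _
    refine (tendsto_integral_filter_of_dominated_convergence (f := fun _ => 0)
      (fun t => 2 * ‖St (j g) t‖)
      (Eventually.of_forall fun u => (I _).1) (Eventually.of_forall fun u =>
        Eventually.of_forall fun t => ?_) ((I g).const_mul 2) ?_).trans_eq (by simp)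
    · simp only [map_sub, Pi.sub_apply, hγ, norm_norm]
      linarith [norm_sub_le (F u t) (F v t), F2 u t, F2 v t]
    have hc : (insert t0 (range fun k : ℕ => t0 + (v⁻¹ - 1 - k)⁻¹)).Countable :=
      (countable_range _).insert _
    filter_upwards [(ae_toFinite (μ := volume)).le (hc.ae_notMem volume)] with t ht
    simp only [map_sub, Pi.sub_apply, hγ]
    rw [← tendsto_iff_norm_sub_tendsto_zero]
    simp only [mem_insert_iff, mem_range, not_or, not_exists] at ht
    rcases lt_or_gt_of_ne ht.1 with h | h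
    · have : ∀ u, F u t = 0 := fun u => norm_le_zero_iff.1 (by simpa [h2 t h] using F2 u t)
      simpa [this] using tendsto_const_nhds
    by_cases hv0 : v = 0
    · subst hv0
      refine Tendsto.mono_left ?_ (nhdsWithin_mono _ Icc_subset_Ici_self)
      rw [← Ioi_insert, nhdsWithin_insert, tendsto_sup]
      refine ⟨tendsto_pure_nhds (fun u => F u t) 0, ?_⟩
      rw [F0]
      refine ((a4 _).comp (tendsto_nat_floor_atTop.comp (tendsto_atTop_add_const_right _
        (-1 - (t - t0)⁻¹) tendsto_inv_nhdsGT_zero))).congr' ?_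
      filter_upwards [self_mem_nhdsWithin] with u hu
      rw [F1 u (ne_of_gt hu), nn, if_neg h.not_ge]
      simp only [Function.comp]
      congr 2
      ring
    · refine Tendsto.mono_left (tendsto_const_nhds.congr' ?_) nhdsWithin_le_nhds
      have hcont : ContinuousAt (fun u : ℝ => u⁻¹ - 1 - (t - t0)⁻¹) v := by
        fun_prop (disch := assumption)
      filter_upwards [hcont.eventually (floor_ev fun k hk => ht.2 k (by
        rw [show v⁻¹ - 1 - k = (t - t0)⁻¹ by linarith]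
        simp)), isOpen_ne.mem_nhds hv0] with u h4 h5
      rw [F1 u h5, F1 v hv0, nn, nn, if_neg h.not_ge, if_neg h.not_ge, h4]
  · refine int_lt (I _) (I g) (fun t => by simpa [hγ] using F2 u t)
      (lt_min h1 (lt_add_of_pos_right t0 hu.1)) fun t ht => ?_
    rw [hγ, F1 u hu.1.ne', nn, if_neg ht.1.not_ge, Nat.floor_eq_zero.2, a2, norm_zero]
    · exact norm_pos_iff.2 (h3 t ⟨ht.1.le, ht.2.trans_le (min_le_left _ _)⟩)
    · have := inv_anti₀ (sub_pos.2 ht.1)
        (sub_le_iff_le_add'.2 (ht.2.trans_le (min_le_right _ _)).le)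
      linarith

end Pool.Agent.H23.HM
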