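import Mathlib

namespace Pool.Agent.H23.HM
open Cardinal Set Submodule Function

variable {G D ι : Type} [AddCommGroup G] [AddCommGroup D]

noncomputable abbrev lc (x : ι → G) : (ι →₀ ℤ) →ₗ[ℤ] G := Finsupp.linearCombination ℤ x

def Indep (x : ι → G) : Prop := ∀ a, lc x a = 0 → ∀ i, a i • x i = 0

def Dv (D : Type) [AddCommGroup D] : Prop := ∀ n : ℤ, n ≠ 0 → ∀ d : D, ∃ e, n • e = d

theorem lc_zero {x : ι → G} {a : ι →₀ ℤ} (h : ∀ i, a i • x i = 0) : lc x a = 0 := by
  rw [Finsupp.linearCombination_apply]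
  exact Finset.sum_eq_zero fun i _ => h i

theorem map_lc (r : G →+ D) (x : ι → G) (a : ι →₀ ℤ) : r (lc x a) = lc (fun i => r (x i)) a := by
  simp [Finsupp.linearCombination_apply, Finsupp.sum, map_sum]

theorem Dv.ext (h : Dv D) {A : Type} [AddCommGroup A] (f : A →+ G) (hf : Injective f)
    (g : A →+ D) : ∃ r : G →+ D, ∀ a, r (f a) = g a := by
  let _ : DivisibleBy D ℤ := divisibleByOfSMulRightSurj D ℤ fun {n} hn d => h n hn d
  obtain ⟨r, hr⟩ := (Module.Baer.of_divisible D).extension_property_addMonoidHom f hf g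
  exact ⟨r, fun a => DFunLike.congr_fun hr a⟩

theorem Dv.finsupp (h : Dv D) (ι : Type) : Dv (ι →₀ D) := fun n hn d => by
  induction d using Finsupp.induction_linear with
  | zero => exact ⟨0, smul_zero _⟩
  | add f g hf hg =>
    obtain ⟨a, rfl⟩ := hf
    obtain ⟨b, rfl⟩ := hg
    exact ⟨a + b, smul_add _ _ _⟩
  | single i d =>
    obtain ⟨e, rfl⟩ := h n hn d
    exact ⟨.single i e, Finsupp.smul_single _ _ _⟩

theorem Indep.lift {x : ι → G} (hx : Indep x) (hs : Surjective (lc x)) (θ : ι → D)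
    (h : ∀ i (n : ℤ), n • x i = 0 → n • θ i = 0) : ∃ r : G →+ D, ∀ i, r (x i) = θ i := by
  refine ⟨(lc x).toAddMonoidHom.liftOfSurjective hs ⟨(lc θ).toAddMonoidHom, fun a ha =>
    lc_zero fun i => h i _ (hx a ha i)⟩, fun i => ?_⟩
  have := (lc x).toAddMonoidHom.liftOfRightInverse_comp_apply _ (rightInverse_surjInv hs)
    ⟨(lc θ).toAddMonoidHom, fun a ha => lc_zero fun i => h i _ (hx a ha i)⟩ (.single i 1)
  simpa using this

theorem Indep.ext {x : ι → G} (hx : Indep x) (hD : Dv D) (θ : ι → D)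
    (h : ∀ i (n : ℤ), n • x i = 0 → n • θ i = 0) : ∃ r : G →+ D, ∀ i, r (x i) = θ i := by
  obtain ⟨r, hr⟩ := hD.ext ((LinearMap.ker (lc x)).liftQ (lc x) le_rfl).toAddMonoidHom
    (LinearMap.ker_eq_bot.1 (ker_liftQ_eq_bot _ _ _ le_rfl))
    ((LinearMap.ker (lc x)).liftQ (lc θ) fun a ha =>
      lc_zero fun i => h i _ (hx a ha i)).toAddMonoidHom
  exact ⟨r, fun i => by simpa using hr (Submodule.Quotient.mk (.single i 1))⟩

theorem Indep.comp {κ : Type} {x : ι → G} (hx : Indep x) {f : κ → ι} (hf : Injective f) :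
    Indep (x ∘ f) := fun a ha k => by
  have := hx (a.mapDomain f) ((Finsupp.linearCombination_mapDomain _ _ _).trans ha) (f k)
  rwa [Finsupp.mapDomain_apply hf] at this

theorem Indep.of_top {α : Type} [LinearOrder α] {x : ι → G} (ρ : ι → α)
    (h : ∀ p (n : ℤ), n • x p ∈ span ℤ (x '' {q | q ≠ p ∧ ρ q ≤ ρ p}) → n • x p = 0) :
    Indep x := by
  classical
  intro a ha
  by_contra h0
  obtain ⟨p, h1, h2⟩ := (a.support.filter fun i => a i • x i ≠ 0).exists_max_image ρ (by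
    push Not at h0
    obtain ⟨i, hi⟩ := h0
    exact ⟨i, Finset.mem_filter.2 ⟨Finsupp.mem_support_iff.2 fun k => hi (by simp [k]), hi⟩⟩)
  rw [Finset.mem_filter] at h1
  refine h1.2 (h p _ ?_)
  rw [Finsupp.linearCombination_apply, Finsupp.sum, ← Finset.add_sum_erase _ _ h1.1,
    add_eq_zero_iff_eq_neg] at ha
  rw [ha]
  refine neg_mem (sum_mem fun q hq => ?_)
  rw [Finset.mem_erase] at hq
  by_cases h3 : a q • x q = 0
  · simp [h3]
  · exact smul_mem _ _ (subset_span ⟨q, ⟨hq.1, h2 q (Finset.mem_filter.2 ⟨hq.2, h3⟩)⟩, rfl⟩)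

theorem Indep.of_tri {D' : Type} [AddCommGroup D'] {x : ι → G} (ρ : ι → ℕ) (π : ι → G →+ D')
    (h1 : ∀ p q, q ≠ p → ρ q ≤ ρ p → π p (x q) = 0)
    (h2 : ∀ p (n : ℤ), n • π p (x p) = 0 → n • x p = 0) : Indep x := by
  refine .of_top ρ fun p n hn => h2 p n ?_
  rw [← map_zsmul]
  refine (span_le (p := LinearMap.ker (π p).toIntLinearMap)).2 ?_ hn
  rintro _ ⟨q, hq, rfl⟩
  exact h1 p q hq.1 hq.2

theorem rec_exists {G : Type} [LinearOrder ι] [WellFoundedLT ι] (P : ι → Set G → G → Prop)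
    (h : ∀ i (S : Set G), #S ≤ #(Iio i) → ∃ y, P i S y) :
    ∃ z : ι → G, ∀ i, P i (z '' Iio i) (z i) := by
  let F : ∀ i, (∀ j, j < i → G) → G := fun i f =>
    (h i (range fun j : Iio i => f j j.2) mk_range_le).choose
  refine ⟨wellFounded_lt.fix F, fun i => ?_⟩
  rw [image_eq_range, wellFounded_lt.fix_eq]
  exact (h i _ mk_range_le).choose_spec

theorem Indep.of_lt [LinearOrder ι] {x : ι → G}
    (h : ∀ p (n : ℤ), n • x p ∈ span ℤ (x '' Iio p) → n • x p = 0) : Indep x :=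
  .of_top id fun p n hn => h p n (span_mono (image_mono fun _ hq => lt_of_le_of_ne hq.2 hq.1) hn)

theorem greedy (G : Type) [AddCommGroup G] : ∃ z : G → G, Indep z ∧
    ∀ x ≠ 0, ∃ (n : ℤ) (a : G →₀ ℤ), n • x = lc z a ∧ n • x ≠ 0 := by
  obtain ⟨_, _⟩ := exists_wellFoundedLT G
  obtain ⟨z, hz⟩ := rec_exists (fun (x : G) S y => (∀ n : ℤ, n • y ∈ span ℤ S → n • y = 0) ∧
      (y = x ∨ ∃ n : ℤ, n • x ∈ span ℤ S ∧ n • x ≠ 0)) fun x S _ => by
    by_cases h : ∃ n : ℤ, n • x ∈ span ℤ S ∧ n • x ≠ 0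
    · exact ⟨0, by simp, .inr h⟩
    · exact ⟨x, by simpa using h, .inl rfl⟩
  refine ⟨z, .of_lt fun p => (hz p).1, fun x hx => ?_⟩
  rcases (hz x).2 with h | ⟨n, h1, h2⟩
  · exact ⟨1, .single x 1, by simp [h], by simpa using hx⟩
  · obtain ⟨a, -, ha⟩ := (Finsupp.mem_span_image_iff_linearCombination _).1 h1
    exact ⟨n, a, ha.symm, h2⟩

theorem ord_iff {x : G} {y : D} (h : addOrderOf x = addOrderOf y) (n : ℤ) :
    n • x = 0 ↔ n • y = 0 := by
  rw [← addOrderOf_dvd_iff_zsmul_eq_zero, ← addOrderOf_dvd_iff_zsmul_eq_zero, h]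

theorem emb (G : Type) [AddCommGroup G] (hD : Dv D) (ho : ∀ n, ∃ d : D, addOrderOf d = n) :
    ∃ φ : G →+ (G →₀ D), Injective φ := by
  classical
  choose θ hθ using ho
  obtain ⟨z, h1, h2⟩ := greedy G
  have k : ∀ (x : G) (n : ℤ), n • Finsupp.single x (θ (addOrderOf (z x))) = 0 ↔ n • z x = 0 :=
    fun x n => by rw [Finsupp.smul_single, Finsupp.single_eq_zero, ord_iff (hθ _)]
  obtain ⟨φ, hφ⟩ := h1.ext (hD.finsupp G) _ fun x n => (k x n).2
  have h3 : Indep fun x => φ (z x) := .of_tri (fun _ => 0) (fun x => Finsupp.applyAddHom x)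
    (fun p q h _ => by simp [hφ, h.symm]) fun p n h => by
      rw [hφ, Finsupp.smul_single, Finsupp.single_eq_zero]
      simpa [hφ] using h
  refine ⟨φ, (injective_iff_map_eq_zero φ).2 fun x hx => by_contra fun h => ?_⟩
  obtain ⟨n, a, h4, h5⟩ := h2 x h
  refine h5 (h4.trans (lc_zero fun i => (k i _).1 (hφ i ▸ h3 a ?_ i)))
  rw [← map_lc, ← h4, map_zsmul, hx, smul_zero]

theorem dv_circ (F : Type) [Field F] [LinearOrder F] [IsStrictOrderedRing F] :
    Dv (AddCircle (1 : F)) := fun n hn d => by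
  induction d using QuotientAddGroup.induction_on with
  | H d =>
    refine ⟨((d / n : F) : AddCircle (1 : F)), ?_⟩
    rw [← AddCircle.coe_zsmul, zsmul_eq_mul, mul_div_cancel₀ _ (by exact_mod_cast hn)]

theorem pick {l : Cardinal} (hl : ℵ₀ < l) (hW : ∀ m : ℕ, m ≠ 0 → l ≤ #(range fun g : G => m • g))
    (S : Set G) (hS : #S < l) (N : ℕ) : ∃ y, (∀ n : ℤ, n • y ∈ span ℤ S → n • y = 0) ∧
      (addOrderOf y = 0 ∨ N < addOrderOf y) := by
  have : Fact ((0 : ℚ) < 1) := ⟨one_pos⟩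
  have hD : Dv (ℚ × AddCircle (1 : ℚ)) := fun n hn d => by
    obtain ⟨e, he⟩ := dv_circ ℚ n hn d.2
    exact ⟨(d.1 / n, e), Prod.ext (by simp; field_simp) he⟩
  have hY : #(span ℤ S) < l := by
    rw [← Subtype.range_val (s := S), ← Finsupp.range_linearCombination]
    refine (mk_range_le (f := lc (Subtype.val : S → G))).trans_lt ?_
    rcases isEmpty_or_nonempty S with h | h
    · simpa using one_lt_aleph0.trans hl
    · simpa [mk_finsupp_of_infinite'] using ⟨hS, hl⟩
  obtain ⟨φ, hφ⟩ := emb (span ℤ S) hD fun n => by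
    rcases n.eq_zero_or_pos with rfl | h
    · exact ⟨(1, 0), addOrderOf_eq_zero_iff'.2 fun k hk e => hk.ne' (by
        simpa using congrArg Prod.fst e)⟩
    · exact ⟨(0, ((1 / n : ℚ) : AddCircle (1 : ℚ))), by
        rw [Prod.addOrderOf_mk, AddCircle.addOrderOf_period_div h]; simp⟩
  obtain ⟨r, hr⟩ := (hD.finsupp _).ext (span ℤ S).subtype.toAddMonoidHom Subtype.val_injective φ
  by_contra h
  push Not at h
  have k : ∀ y, r y = 0 → N.factorial • y = 0 := fun y hy => by
    obtain ⟨h1, h2⟩ := h y fun n hn => congrArg Subtype.val (hφ (a₁ := ⟨_, hn⟩) (a₂ := 0)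
      ((hr _).symm.trans (by simp [hy])))
    exact addOrderOf_dvd_iff_nsmul_eq_zero.1 (Nat.dvd_factorial (Nat.pos_of_ne_zero h1) h2)
  refine (hW _ N.factorial_ne_zero).not_gt (lt_of_le_of_lt ((mk_le_mk_of_subset
    (t := range fun w => N.factorial • invFun r w) ?_).trans mk_range_le) ?_)
  · rintro _ ⟨g, rfl⟩
    refine ⟨r g, ?_⟩
    rw [← sub_eq_zero, ← smul_sub]
    exact k _ (by rw [map_sub, invFun_eq (f := r) ⟨g, rfl⟩, sub_self])
  · have : Countable (AddCircle (1 : ℚ)) := QuotientAddGroup.mk_surjective.countable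
    rw [mk_finsupp_of_infinite']
    exact max_lt hY (mk_le_aleph0.trans_lt hl)

theorem prufer (m : ℕ) : m ≠ 0 → ∀ (B : Type) [AddCommGroup B], (∀ b : B, m • b = 0) →
    ∃ (ι : Type) (x : ι → B), Indep x ∧ Surjective (lc x) := by
  induction m using induction_on_primes with
  | zero => exact fun h => absurd rfl h
  | one => exact fun _ B _ h => ⟨Empty, Empty.elim, fun _ _ i => i.elim, fun b =>
      ⟨0, by simpa using (h b).symm⟩⟩
  | prime_mul p m hp ih =>
    intro h0 B _ hB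
    have hp' : Prime (p : ℤ) := Nat.prime_iff_prime_int.1 hp
    obtain ⟨ι, y, h1, h2⟩ := ih (right_ne_zero_of_mul h0) (nsmulAddMonoidHom (α := B) p).range
      (by rintro ⟨_, b, rfl⟩; exact Subtype.ext (by simpa [mul_comm p, mul_smul] using hB b))
    have : ∀ i, ∃ x : B, p • x = y i ∧ ∀ n : ℤ, ∃ k : ℤ, (n = 0 → k = 0) ∧
        (n • y i = 0 → n • x = k • y i) := fun i => by
      by_cases h : (p : ℤ) ∣ addOrderOf (y i)
      · obtain ⟨x, hx⟩ := (y i).2
        refine ⟨x, hx, fun n => ⟨n / p, fun k => by simp [k], fun hn => ?_⟩⟩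
        obtain ⟨k, rfl⟩ := h.trans (addOrderOf_dvd_iff_zsmul_eq_zero.2 hn)
        rw [Int.mul_ediv_cancel_left _ hp'.ne_zero, ← hx, mul_comm, mul_smul]
        simp
      · obtain ⟨u, v, h3⟩ := (hp'.coprime_iff_not_dvd.2 h)
        refine ⟨u • y i, ?_, fun n => ⟨n * u, fun k => by simp [k], fun _ => (mul_smul ..).symm⟩⟩
        have h4 : (addOrderOf (y i) : ℤ) • (y i : B) = 0 :=
          congrArg Subtype.val ((addOrderOf_dvd_iff_zsmul_eq_zero (x := y i)).1 dvd_rfl)
        rw [← natCast_zsmul, ← mul_smul, mul_comm, eq_sub_of_add_eq h3, sub_smul, mul_smul, h4]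
        simp
    choose x hx k k0 hk using this
    have h3 : ∀ a, (lc y a : B) = p • lc x a := fun a =>
      (map_lc (AddSubgroup.subtype _) y a).trans
        (((map_lc (nsmulAddMonoidHom p) x a).trans (by simp [hx])).symm)
    have h4 : Indep x := fun a ha => by
      have h5 := h1 a (Subtype.ext (by rw [h3, ha]; simp))
      have h6 := h1 (.onFinset a.support (fun i => k i (a i)) fun i hi =>
        Finsupp.mem_support_iff.2 fun e => hi (k0 i _ e)) (Subtype.ext (by
          rw [Finsupp.linearCombination_onFinset]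
          rw [Finsupp.linearCombination_apply, Finsupp.sum] at ha
          simp only [AddSubgroup.val_finsetSum, AddSubgroup.coe_zsmul]
          exact (Finset.sum_congr rfl fun i _ => (hk i _ (h5 i)).symm).trans ha))
      exact fun i => (hk i _ (h5 i)).trans (congrArg Subtype.val (h6 i))
    let H := LinearMap.range (lc x)
    have h5 : ∀ q : B ⧸ H, ∃ b : B, H.mkQ b = q ∧ p • b = 0 ∧ (q = 0 → b = 0) := fun q => by
      by_cases hq : q = 0
      · exact ⟨0, by simp [hq], by simp, fun _ => rfl⟩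
      obtain ⟨b, rfl⟩ := H.mkQ_surjective q
      obtain ⟨a, ha⟩ := h2 ⟨p • b, b, rfl⟩
      refine ⟨b - lc x a, ?_, ?_, fun e => absurd e hq⟩
      · rw [map_sub, sub_eq_self]
        exact (Submodule.Quotient.mk_eq_zero _).2 ⟨a, rfl⟩
      · rw [smul_sub, ← h3, ha, sub_self]
    choose s s1 s2 s3 using h5
    have s4 : ∀ (q : B ⧸ H) (n : ℤ), n • q = 0 → q = 0 ∨ (p : ℤ) ∣ n := fun q n hn => by
      refine or_iff_not_imp_right.2 fun h => ?_
      obtain ⟨u, v, h6⟩ := hp'.coprime_iff_not_dvd.2 h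
      rw [← one_smul ℤ q, ← h6, add_smul, mul_smul, mul_smul, hn, ← s1 q, natCast_zsmul,
        ← map_nsmul, s2]
      simp
    obtain ⟨z, h6, h7⟩ := greedy (B ⧸ H)
    have e : ∀ a : ι ⊕ B ⧸ H →₀ ℤ, lc (Sum.elim x fun q => s (z q)) a =
        lc x (Finsupp.sumFinsuppAddEquivProdFinsupp a).1 +
          lc (fun q => s (z q)) (Finsupp.sumFinsuppAddEquivProdFinsupp a).2 := fun a => by
      induction a using Finsupp.induction_linear with
      | zero => simp
      | add f g hf hg => simp only [map_add, hf, hg, Prod.fst_add, Prod.snd_add]; abel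
      | single i n =>
        rcases i with i | i <;> simp [Finsupp.sumFinsuppAddEquivProdFinsupp,
          Finsupp.comapDomain_single_of_not_mem_range]
    have e2 : ∀ a, H.mkQ (lc (fun q => s (z q)) a) = lc z a := fun a =>
      (map_lc H.mkQ.toAddMonoidHom _ a).trans (by simp [s1])
    have e3 : ∀ a, H.mkQ (lc x a) = 0 := fun a => (Submodule.Quotient.mk_eq_zero _).2 ⟨a, rfl⟩
    refine ⟨_, Sum.elim x fun q => s (z q), fun a ha => ?_, fun b => ?_⟩
    · rw [e] at ha
      have h8 := congrArg H.mkQ ha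
      rw [map_add, e2, e3, zero_add, map_zero] at h8
      have h9 : ∀ q, (Finsupp.sumFinsuppAddEquivProdFinsupp a).2 q • s (z q) = 0 := fun q => by
        rcases s4 _ _ (h6 _ h8 q) with h | ⟨c, h⟩
        · rw [s3 _ h, smul_zero]
        · rw [h, mul_comm, mul_smul, natCast_zsmul, s2, smul_zero]
      rw [lc_zero h9, add_zero] at ha
      rintro (i | q)
      exacts [h4 _ ha i, h9 q]
    · obtain ⟨a, ha⟩ : ∃ a, lc z a = H.mkQ b := by
        by_cases h : H.mkQ b = 0
        · exact ⟨0, by simp [h]⟩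
        obtain ⟨n, a, h8, h9⟩ := h7 _ h
        obtain ⟨u, v, h10⟩ := (hp'.coprime_iff_not_dvd (n := n)).2 fun ⟨c, hc⟩ => h9 (by
          rw [hc, mul_comm, mul_smul, ← s1 (H.mkQ b), natCast_zsmul, ← map_nsmul, s2]
          simp)
        refine ⟨v • a, ?_⟩
        rw [map_smul, ← h8, ← mul_smul, eq_sub_of_add_eq' h10, sub_smul, mul_smul,
          ← s1 (H.mkQ b), natCast_zsmul, ← map_nsmul, s2]
        simp
      obtain ⟨c, hc⟩ := (Submodule.Quotient.eq H).1 ((e2 a).trans ha).symm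
      exact ⟨Finsupp.sumFinsuppAddEquivProdFinsupp.symm (c, a), by
        rw [e, AddEquiv.apply_symm_apply, hc, sub_add_cancel]⟩

end Pool.Agent.H23.HM
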