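import Mathlib
import Pool.Agent.H23.HM1
import Pool.Agent.H23.HM2

namespace Pool.Agent.H23.HM
open Cardinal Set Submodule Function Filter Topology

variable {G ι : Type} [AddCommGroup G]

theorem reidx {γ : Type} (o : ι → γ) (h : ∀ i, continuum ≤ #{j | o j = o i}) :
    ∃ b : ι × ℝ ≃ ι, ∀ p, o (b p) = o p.1 := by
  have : ∀ c, Nonempty ({p : ι × ℝ // o p.1 = c} ≃ {i // o i = c}) := fun c => by
    refine ⟨(Equiv.prodSubtypeFstEquivSubtypeProd (p := fun i => o i = c)).trans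
      (Cardinal.eq.1 ?_).some⟩
    rcases isEmpty_or_nonempty {i // o i = c} with h0 | ⟨⟨i, rfl⟩⟩
    · simp
    · rw [mk_prod, lift_id, lift_id, mk_real]
      exact mul_eq_left (aleph0_le_continuum.trans (h i)) (h i) continuum_ne_zero
  exact ⟨Equiv.ofFiberEquiv fun c => (this c).some, Equiv.ofFiberEquiv_map _⟩

theorem small {γ : Type} [Countable γ] (o : ι → γ) (S : Set ι) :
    #{i | i ∈ S ∧ #{j | j ∈ S ∧ o j = o i} < continuum} < continuum := by
  let A : γ → Set ι := fun c => {i | (i ∈ S ∧ o i = c) ∧ #{j | j ∈ S ∧ o j = c} < continuum}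
  refine (mk_le_mk_of_subset (t := ⋃ c, A c) fun i hi =>
    mem_iUnion.2 ⟨o i, ⟨hi.1, rfl⟩, hi.2⟩).trans_lt (mk_iUnion_le_sum_mk.trans_lt
      ((sum_lt_prod _ (fun _ => continuum) fun c => ?_).trans_le ?_))
  · rcases (A c).eq_empty_or_nonempty with h | ⟨i, hi⟩
    · simpa [h] using continuum_pos
    · exact (mk_le_mk_of_subset fun j hj => hj.1).trans_lt hi.2
  · rw [prod_const']
    exact (power_le_power_left continuum_ne_zero mk_le_aleph0).trans continuum_power_aleph0.le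

theorem mem_range_of {K : Type} [AddCommGroup K] {j : G →+ (ℝ →₀ K)} {κ : ι → K}
    (h : ∀ i t, ∃ g, j g = .single t (κ i)) (f : ℝ →₀ K)
    (hf : ∀ s, f s ∈ AddSubgroup.closure (range κ)) : ∃ g, j g = f := by
  rw [← f.sum_single]
  refine sum_mem (S := j.range) fun t _ => (AddSubgroup.closure_le
    (j.range.comap (Finsupp.singleAddHom t))).2 ?_ (hf t)
  rintro _ ⟨i, rfl⟩
  exact h i t

theorem niceB (x : ι → G) (h1 : Indep x) (h2 : Surjective (lc x))
    (h3 : ∀ i, continuum ≤ #{j | addOrderOf (x j) = addOrderOf (x i)}) : Nice G := by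
  classical
  obtain ⟨b, hb⟩ := reidx (fun i => addOrderOf (x i)) h3
  have k : ∀ i (n : ℤ), n • Finsupp.single (b.symm i).2 (x (b.symm i).1) = 0 ↔ n • x i = 0 :=
    fun i n => by
      rw [Finsupp.smul_single, Finsupp.single_eq_zero, ← ord_iff (hb _), Equiv.apply_symm_apply]
  obtain ⟨j, hj⟩ := h1.lift h2 _ fun i n => (k i n).2
  let _ := (1 : AddGroupNorm G).toNormedAddCommGroup
  refine nice_of_hm ⊤ (fun n y => if n = 0 then 0 else y) (fun _ _ => trivial) (fun _ => rfl)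
    (fun n y => by split_ifs <;> simp) (fun y => tendsto_const_nhds.congr' ?_) j
    ((injective_iff_map_eq_zero j).2 fun g hg => ?_) fun f _ => mem_range_of (κ := x)
      (fun i t => ⟨x (b (i, t)), by simp [hj]⟩) f fun s => ?_
  · filter_upwards [eventually_ne_atTop 0] with n hn using (if_neg hn).symm
  · obtain ⟨a, rfl⟩ := h2 g
    refine lc_zero fun i => ?_
    obtain ⟨⟨i, t⟩, rfl⟩ := b.surjective i
    have hf : Injective fun i => b (i, t) := fun _ _ e => congrArg Prod.fst (b.injective e)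
    rw [ord_iff (hb _)]
    refine h1 (a.comapDomain _ hf.injOn) ((Eq.trans ?_ (DFunLike.congr_fun hg t))) i
    clear hg
    induction a using Finsupp.induction_linear with
    | zero => simp
    | add f g h4 h5 => simp [Finsupp.comapDomain_add_of_injective hf, h4, h5]
    | single q n =>
      obtain ⟨⟨i', t'⟩, rfl⟩ := b.surjective q
      by_cases e : t' = t
      · subst e
        rw [Finsupp.comapDomain_single (fun i => b (i, t'))]
        simp [hj]
      · rw [Finsupp.comapDomain_single_of_not_mem_range]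
        · simp [hj, e]
        · exact fun ⟨_, h⟩ => e (congrArg Prod.snd (b.injective h)).symm
  · obtain ⟨a, ha⟩ := h2 (f s)
    rw [← ha, ← Submodule.span_int_eq_addSubgroupClosure, ← Finsupp.range_linearCombination]
    exact ⟨a, rfl⟩

abbrev T := AddCircle (1 : ℝ)

theorem delta {n o : ℕ} (h : o = 0 ∨ n < o) :
    ∃ δ : ℝ, 0 < δ ∧ δ ≤ 1 / (n + 1) ∧ addOrderOf (δ : T) = o := by
  rcases h with rfl | h
  · refine ⟨(√2 - 1) / (n + 1 : ℕ), div_pos (by simp [Real.lt_sqrt]) (by positivity), ?_,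
      addOrderOf_eq_zero_iff'.2 fun k hk e => ?_⟩
    · push_cast
      gcongr
      linarith [Real.sqrt_two_lt_three_halves]
    · rw [← AddCircle.coe_nsmul, AddCircle.coe_eq_zero_iff] at e
      obtain ⟨m, hm⟩ := e
      refine (((irrational_sqrt_two.sub_natCast 1).div_natCast (m := n + 1)
        (by simp)).natCast_mul hk.ne').ne_int m ?_
      simpa using hm.symm
  · have h1 : (n : ℝ) + 1 ≤ o := by exact_mod_cast h
    exact ⟨1 / o, one_div_pos.2 (lt_of_lt_of_le (by positivity) h1),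
      one_div_le_one_div_of_le (by positivity) h1,
      AddCircle.addOrderOf_period_div (by omega)⟩

theorem coe_le (x : ℝ) : ‖(x : T)‖ ≤ |x| := QuotientAddGroup.norm_mk_le_norm

theorem approx (y : T) {δ : ℝ} (hδ : 0 < δ) :
    ∃ c : ℤ, ‖c • (δ : T)‖ ≤ ‖y‖ ∧ ‖c • (δ : T) - y‖ ≤ δ := by
  have key : ∀ u : ℝ, 0 ≤ u → ∃ c : ℤ, ‖c • (δ : T)‖ ≤ u ∧ ‖c • (δ : T) - u‖ ≤ δ := fun u hu => by
    have h1 := (le_div_iff₀ hδ).1 (Int.floor_le (u / δ))
    have h2 := (div_lt_iff₀ hδ).1 (Int.lt_floor_add_one (u / δ))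
    have h3 : (0 : ℝ) ≤ ⌊u / δ⌋ * δ := by positivity
    refine ⟨⌊u / δ⌋, ?_, ?_⟩
    · rw [← AddCircle.coe_zsmul, zsmul_eq_mul]
      exact (coe_le _).trans (abs_le.2 ⟨by linarith, h1⟩)
    · rw [← AddCircle.coe_zsmul, zsmul_eq_mul, ← AddCircle.coe_sub]
      exact (coe_le _).trans (abs_le.2 ⟨by linarith, by linarith⟩)
  induction y using QuotientAddGroup.induction_on with
  | H y =>
    have h1 : ((y - round y : ℝ) : T) = y := by
      rw [AddCircle.coe_sub, (AddCircle.coe_eq_zero_iff (x := ((round y : ℤ) : ℝ)) 1).2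
        ⟨round y, by simp⟩,
        sub_zero]
    rw [UnitAddCircle.norm_eq, ← h1]
    rcases le_total 0 (y - round y) with h | h
    · simpa only [abs_of_nonneg h] using key _ h
    · obtain ⟨c, h2, h3⟩ := key _ (neg_nonneg.2 h)
      refine ⟨-c, by simpa [abs_of_nonpos h] using h2, ?_⟩
      rwa [← norm_neg, AddCircle.coe_neg, neg_sub, neg_sub_comm, ← neg_smul] at h3

def KK (I : Type) := ℕ → I →₀ T
noncomputable instance (I : Type) : AddCommGroup (KK I) :=
  inferInstanceAs (AddCommGroup (ℕ → I →₀ T))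

theorem wt_le (k : ℕ) (y : T) : (1 / 2 : ℝ) ^ k * ‖y‖ ≤ (1 / 2) ^ k :=
  mul_le_of_le_one_right (by positivity) ((AddCircle.norm_le_half_period 1 one_ne_zero).trans
    (by norm_num))

theorem bdd {I : Type} (f : KK I) :
    BddAbove (range fun p : ℕ × I => (1 / 2 : ℝ) ^ p.1 * ‖f p.1 p.2‖) :=
  ⟨1, by rintro _ ⟨p, rfl⟩; exact (wt_le _ _).trans (pow_le_one₀ (by norm_num) (by norm_num))⟩

noncomputable instance (I : Type) [Nonempty I] : NormedAddCommGroup (KK I) :=
  AddGroupNorm.toNormedAddCommGroup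
    { toFun f := ⨆ p : ℕ × I, (1 / 2 : ℝ) ^ p.1 * ‖f p.1 p.2‖
      map_zero' := by
        change ⨆ p : ℕ × I, (1 / 2 : ℝ) ^ p.1 * ‖(0 : T)‖ = 0
        simp
      add_le' f g := ciSup_le fun p => le_trans (by
        rw [← mul_add]
        exact mul_le_mul_of_nonneg_left (norm_add_le _ _) (by positivity))
        (add_le_add (le_ciSup (bdd f) p) (le_ciSup (bdd g) p))
      neg' f := iSup_congr fun p => congrArg _ (norm_neg (f p.1 p.2))
      eq_zero_of_map_eq_zero' f h := funext fun k => Finsupp.ext fun i =>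
        norm_le_zero_iff.1 (nonpos_of_mul_nonpos_right
          ((le_ciSup (bdd f) (k, i)).trans h.le) (by positivity)) }

theorem KK.le {I : Type} [Nonempty I] (f : KK I) (k i) : (1 / 2 : ℝ) ^ k * ‖f k i‖ ≤ ‖f‖ :=
  le_ciSup (bdd f) (k, i)

theorem KK.norm_le {I : Type} [Nonempty I] {f : KK I} {c : ℝ}
    (h : ∀ k i, (1 / 2 : ℝ) ^ k * ‖f k i‖ ≤ c) : ‖f‖ ≤ c :=
  ciSup_le fun p : ℕ × I => h p.1 p.2

noncomputable def κ0 {I : Type} (δ : I × ℕ × ℕ → ℝ) (p : I × ℕ × ℕ) : ℕ →₀ I →₀ T :=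
  .single p.2.2 (.single p.1 (δ p : T)) + .single (p.2.1.pair p.2.2 + 1) (.single p.1 (δ p : T))

theorem dense_K {I : Type} [Nonempty I] (δ : I × ℕ × ℕ → ℝ) (h1 : ∀ p, 0 < δ p)
    (h2 : ∀ p, δ p ≤ 1 / (p.2.1 + 1)) (y : KK I) {ε : ℝ} (hε : 0 < ε) :
    ∃ y' ∈ AddSubgroup.closure (G := KK I) (range fun p => ⇑(κ0 δ p)),
      ‖y'‖ ≤ ‖y‖ ∧ ‖y' - y‖ ≤ ε := by
  classical
  by_cases hy : y = 0
  · exact ⟨0, zero_mem _, by simp, by simp [hy, hε.le]⟩
  obtain ⟨M, hM⟩ := exists_pow_lt_of_lt_one (lt_min hε (norm_pos_iff.2 hy))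
    (by norm_num : (1 / 2 : ℝ) < 1)
  obtain ⟨n0, h3⟩ := exists_nat_one_div_lt hε
  let n := max n0 M
  have h4 : ∀ k i, δ (i, n, k) ≤ ε := fun k i => (h2 _).trans
    ((one_div_le_one_div_of_le (by positivity) (by simp [n])).trans h3.le)
  choose c c1 c2 using fun k i => approx (y k i) (h1 (i, n, k))
  let y' : KK I := ∑ k ∈ Finset.range M, ∑ i ∈ (y k).support, c k i • ⇑(κ0 δ (i, n, k))
  have h5 : ∀ k < M, ∀ i, y' k i = c k i • (δ (i, n, k) : T) := fun k hk i => by
    have h6 : ∀ k', ¬ n.pair k' + 1 = k := fun k' => by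
      have := Nat.left_le_pair n k'
      omega
    change (∑ k ∈ Finset.range M, ∑ i ∈ (y k).support, c k i • ⇑(κ0 δ (i, n, k))) k i = _
    rw [Finset.sum_apply, Finset.sum_eq_single_of_mem k (Finset.mem_range.2 hk) fun k' _ e => by
      simp [κ0, e, h6]]
    simp only [κ0, Finset.sum_apply, Pi.smul_apply, Finsupp.add_apply, Finsupp.single_eq_same,
      Finsupp.single_eq_of_ne' (h6 k), add_zero, Finsupp.smul_single, Finsupp.finsetSum_apply,
      Finsupp.single_apply, Finset.sum_ite_eq']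
    split_ifs with h
    · rfl
    · exact (norm_le_zero_iff.1 (by simpa [Finsupp.notMem_support_iff.1 h] using c1 k i)).symm
  have h6 : ∀ k, ¬ k < M → ∀ u : T, (1 / 2 : ℝ) ^ k * ‖u‖ ≤ min ε ‖y‖ := fun k hk u =>
    (wt_le _ _).trans ((pow_le_pow_of_le_one (by norm_num) (by norm_num) (not_lt.1 hk)).trans hM.le)
  refine ⟨y', sum_mem fun k _ => sum_mem fun i _ => zsmul_mem
    (AddSubgroup.subset_closure (mem_range_self _)) _, KK.norm_le fun k i => ?_, KK.norm_le fun k i => ?_⟩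
  · by_cases hk : k < M
    · exact le_trans (mul_le_mul_of_nonneg_left (h5 k hk i ▸ c1 k i) (by positivity)) (y.le k i)
    · exact (h6 k hk _).trans (min_le_right _ _)
  · by_cases hk : k < M
    · refine (mul_le_of_le_one_left (norm_nonneg _) (pow_le_one₀ (by norm_num)
        (by norm_num))).trans (le_trans ?_ (h4 k i))
      change ‖y' k i - y k i‖ ≤ _
      rw [h5 k hk]
      exact c2 k i
    · exact (h6 k hk _).trans (min_le_left _ _)

theorem family (hc : continuum ≤ #G) (hW : ∀ m : ℕ, m ≠ 0 → #G ≤ #(range fun g : G => m • g)) :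
    ∃ (x : (G × ℕ × ℕ) × ℝ → G) (o : G × ℕ × ℕ → ℕ), Indep x ∧ (∀ q, addOrderOf (x q) = o q.1) ∧
      ∀ p, o p = 0 ∨ p.2.1 < o p := by
  have h0 := aleph0_lt_continuum.trans_le hc
  obtain ⟨e⟩ : Nonempty ((#G).ord.ToType ≃ (#G).ord.ToType × ℕ) :=
    Cardinal.eq.1 (by simpa using (Cardinal.mul_eq_left h0.le h0.le aleph0_ne_zero).symm)
  obtain ⟨z, hz⟩ := rec_exists (fun (i : (#G).ord.ToType) (S : Set G) y =>
    (∀ n : ℤ, n • y ∈ span ℤ S → n • y = 0) ∧ (addOrderOf y = 0 ∨ (e i).2 < addOrderOf y))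
    fun i S hS => pick h0 hW S (hS.trans_lt (mk_Iio_toType_ord_lt i)) _
  let o := fun i => ((e i).2, addOrderOf (z i))
  let L := {i // continuum ≤ #{j | o j = o i}}
  obtain ⟨b, hb⟩ := reidx (fun i : L => o i.1) fun i => i.2.trans (mk_le_of_injective
    (f := fun j => ⟨⟨j.1, by rw [j.2]; exact i.2⟩, j.2⟩) fun _ _ h =>
      Subtype.ext (congrArg (·.1.1) h))
  have : ∀ n, Nonempty (G × ℕ ↪ {i : L | (e i.1).2 = n}) := fun n => by
    rw [← Cardinal.le_def, mk_prod, lift_id, lift_id, mk_nat,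
      Cardinal.mul_eq_left h0.le h0.le aleph0_ne_zero]
    by_contra h
    refine (add_lt_of_lt h0.le (not_le.1 h) ((small o univ).trans_le hc)).not_ge ?_
    refine le_trans ?_ ((mk_union_le (Subtype.val '' {i : L | (e i.1).2 = n}) _).trans
      (add_le_add mk_image_le le_rfl))
    refine (mk_ord_toType _).ge.trans (mk_le_of_injective (f := fun i => ⟨e.symm (i, n), ?_⟩)
      fun _ _ h => congrArg Prod.fst (e.symm.injective (congrArg Subtype.val h)))
    by_cases h : continuum ≤ #{j | o j = o (e.symm (i, n))}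
    · exact .inl ⟨⟨_, h⟩, congrArg Prod.snd (e.apply_symm_apply _), rfl⟩
    · exact .inr ⟨trivial, by simpa using h⟩
  let w : G × ℕ × ℕ → L := fun p => ((this p.2.1).some (p.1, p.2.2)).1
  have w1 : ∀ p, (e (w p).1).2 = p.2.1 := fun p => ((this p.2.1).some (p.1, p.2.2)).2
  have w2 : Injective w := by
    rintro ⟨i, n, k⟩ ⟨i', n', k'⟩ h
    obtain rfl : n = n' := (w1 _).symm.trans ((congrArg (fun a : L => (e a.1).2) h).trans (w1 _))
    obtain ⟨rfl, rfl⟩ := Prod.ext_iff.1 ((this n).some.injective (Subtype.ext h))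
    rfl
  exact ⟨z ∘ fun q => (b (w q.1, q.2)).1, fun p => addOrderOf (z (w p).1),
    (Indep.of_lt fun p => (hz p).1).comp (Subtype.val_injective.comp (b.injective.comp
      (w2.prodMap injective_id))), fun q => congrArg Prod.snd (hb (w q.1, q.2)),
    fun p => w1 p ▸ (hz (w p).1).2⟩

theorem niceW (hc : continuum ≤ #G) (hW : ∀ m : ℕ, m ≠ 0 → #G ≤ #(range fun g : G => m • g)) :
    Nice G := by
  classical
  obtain ⟨x, o, h1, h2, h3⟩ := family hc hW
  choose δ d1 d2 d3 using fun p => delta (h3 p)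
  let θ : (G × ℕ × ℕ) × ℝ → ℝ →₀ ℕ →₀ G →₀ T := fun q => .single q.2 (κ0 δ q.1)
  let π : (G × ℕ × ℕ) × ℝ → (ℝ →₀ ℕ →₀ G →₀ T) →+ T := fun q =>
    (Finsupp.applyAddHom q.1.1).comp ((Finsupp.applyAddHom (q.1.2.1.pair q.1.2.2 + 1)).comp
      (Finsupp.applyAddHom q.2))
  have lt : ∀ n k : ℕ, k < n.pair k + 1 := fun n k => Nat.lt_succ_of_le (Nat.right_le_pair n k)
  have k1 : ∀ q, π q (θ q) = δ q.1 := fun q => by simp [π, θ, κ0, (lt _ _).ne']
  have k2 : ∀ q (n : ℤ), n • (δ q.1 : T) = 0 → n • θ q = 0 := fun q n h => by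
    simp only [θ, κ0, smul_add, Finsupp.smul_single, h, Finsupp.single_zero, add_zero]
  have k3 : ∀ q (n : ℤ), n • x q = 0 ↔ n • (δ q.1 : T) = 0 := fun q =>
    ord_iff ((h2 q).trans (d3 _).symm)
  have h4 : Indep θ := .of_tri (fun q => q.1.2.1.pair q.1.2.2) π (by
    rintro ⟨⟨i, n, k⟩, t⟩ ⟨⟨i', n', k'⟩, t'⟩ h h'
    by_cases ht : t = t'
    · by_cases hi : i = i'
      · have : n'.pair k' ≠ n.pair k := fun e => h (by simp_all)
        have h5 := lt n' k'
        simp only at h'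
        simp [π, θ, κ0, this.symm, show n.pair k + 1 ≠ k' by omega, ht]
      · simp only [π, θ, κ0, ht, AddMonoidHom.comp_apply, Finsupp.applyAddHom_apply,
          Finsupp.single_eq_same, Finsupp.add_apply, Finsupp.single_apply (a := k'),
          Finsupp.single_apply (a := n'.pair k' + 1)]
        split_ifs <;> simp [hi]
    · simp [π, θ, ht]) fun q n h => k2 q n (k1 q ▸ h)
  obtain ⟨r, hr⟩ := h1.ext ((((dv_circ ℝ).finsupp _).finsupp _).finsupp _) θ
    fun q n h => k2 q n ((k3 q n).1 h)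
  let H := LinearMap.range (lc x)
  obtain ⟨φ, hφ⟩ := emb (G ⧸ H) (dv_circ ℝ) fun n =>
    (delta n.eq_zero_or_pos).imp' _ fun _ h => h.2.2
  let e : G →+ (G →₀ T) :=
    (Finsupp.mapDomain.addMonoidHom Quotient.out).comp (φ.comp H.mkQ.toAddMonoidHom)
  have e1 : ∀ g, e g = 0 ↔ g ∈ H := fun g =>
    (map_eq_zero_iff ((Finsupp.mapDomain.addMonoidHom Quotient.out).comp φ)
      ((Finsupp.mapDomain_injective Quotient.out_injective).comp hφ)).trans
      (Submodule.Quotient.mk_eq_zero H)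
  let j : G →+ (ℝ →₀ KK G) := (Finsupp.mapRange.addMonoidHom Finsupp.coeFnAddHom).comp r +
    (Finsupp.singleAddHom 0).comp ((Pi.constAddMonoidHom ℕ (G →₀ T)).comp e)
  have j1 : ∀ g t k, j g t k = r g t k + (Finsupp.single (0 : ℝ) fun _ : ℕ => e g) t k :=
    fun _ _ _ => rfl
  choose a a1 a2 a3 using fun (n : ℕ) (y : KK G) => dense_K δ d1 d2 y (Nat.one_div_pos_of_nat (n := n))
  refine nice_of_hm _ (fun n y => if n = 0 then 0 else a n y) (fun n y => ?_) (fun _ => rfl)
    (fun n y => ?_) (fun y => ?_) j ((injective_iff_map_eq_zero j).2 fun g hg => ?_)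
    (mem_range_of (κ := fun p => ⇑(κ0 δ p)) fun p t => ⟨x (p, t), ?_⟩)
  · split_ifs
    exacts [zero_mem _, a1 _ _]
  · split_ifs
    exacts [by simp, a2 _ _]
  · refine (tendsto_iff_norm_sub_tendsto_zero.2 (squeeze_zero (fun _ => norm_nonneg _)
      (fun n => a3 n y) tendsto_one_div_add_atTop_nhds_zero_nat)).congr' ?_
    filter_upwards [eventually_ne_atTop 0] with n hn using (if_neg hn).symm
  · obtain ⟨k, hk⟩ := Infinite.exists_notMem_finset (r g 0).support
    have h5 : e g = 0 := by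
      have := j1 g 0 k
      rw [hg, Finsupp.notMem_support_iff.1 hk, zero_add, Finsupp.single_eq_same] at this
      exact this.symm
    obtain ⟨c, rfl⟩ := (e1 g).1 h5
    refine lc_zero fun q => (k3 q _).2 ?_
    rw [← k1, ← map_zsmul, h4 c, map_zero]
    rw [← funext hr, ← map_lc]
    refine Finsupp.ext fun t => Finsupp.ext fun k => ?_
    have := j1 (lc x c) t k
    rw [hg, h5] at this
    exact (this.trans (by simp [← Pi.zero_def])).symm
  · refine Finsupp.ext fun s => funext fun k => ?_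
    refine (j1 _ s k).trans ?_
    rw [hr, (e1 _).2 ⟨.single (p, t) 1, by simp⟩]
    simp only [θ, ← Pi.zero_def, Finsupp.single_apply]
    split_ifs <;> simp

end Pool.Agent.H23.HM
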