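import Mathlib
import Pool.Agent.H23.HM3

namespace Pool.Agent.H23.HM
open Cardinal Set Submodule Function

variable {G : Type} [AddCommGroup G]

theorem mk_span_le (S : Set G) {l : Cardinal} (h0 : ℵ₀ ≤ l) (hS : #S ≤ l) : #(span ℤ S) ≤ l := by
  rw [← Subtype.range_val (s := S), ← Finsupp.range_linearCombination]
  refine (mk_range_le (f := lc (Subtype.val : S → G))).trans ?_
  rcases isEmpty_or_nonempty S with h | h
  · simpa using one_le_aleph0.trans h0
  · simpa [mk_finsupp_of_infinite'] using ⟨hS, h0⟩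

theorem nice_main (hc : ∀ m : ℕ, m ≠ 0 → continuum ≤ #(range fun g : G => m • g)) : Nice G := by
  classical
  obtain ⟨_, ⟨m, hm, rfl⟩, hmin⟩ := Cardinal.lt_wf.has_min
    ((fun m : ℕ => #(range fun g : G => m • g)) '' {m | m ≠ 0}) ⟨_, 1, one_ne_zero, rfl⟩
  have h0 := aleph0_le_continuum.trans (hc m hm)
  choose s hs using fun w : range fun g : G => m • g => w.2
  have hS : #(range s) ≤ _ := mk_range_le
  obtain ⟨ι, x0, p1, p2⟩ := prufer m hm (nsmulAddMonoidHom (α := G) m).ker fun b => Subtype.ext b.2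
  let x : ι → G := fun i => x0 i
  have e0 : ∀ a, lc x a = lc x0 a := fun a => (map_lc (AddSubgroup.subtype _) x0 a).symm
  have x1 : Indep x := fun a ha i => congrArg Subtype.val (p1 a (Subtype.ext (e0 a ▸ ha)) i)
  have x2 : ∀ a, m • lc x a = 0 := fun a => e0 a ▸ (lc x0 a).2
  have : ∀ g : G, ∃ a, m • g = 0 → lc x a = g := fun g => by
    by_cases h : m • g = 0
    · obtain ⟨a, ha⟩ := p2 ⟨g, h⟩
      exact ⟨a, fun _ => by rw [e0, ha]⟩
    · exact ⟨0, fun k => absurd k h⟩
  choose rep hrep using this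
  let J0 : Set ι := ⋃ g : span ℤ (range s), (rep g).support
  let J := J0 ∪ {i | i ∈ J0ᶜ ∧ #{j | j ∈ J0ᶜ ∧ addOrderOf (x j) = addOrderOf (x i)} < continuum}
  have hJ : #J ≤ #(range fun g : G => m • g) := by
    refine (mk_union_le _ _).trans (add_le_of_le h0 ((mk_iUnion_le _).trans
      (mul_le_of_le h0 (mk_span_le _ h0 hS) (ciSup_le' fun g => ?_)))
      ((small _ _).le.trans (hc m hm)))
    exact (finset_card_lt_aleph0 _).le.trans h0
  let A := span ℤ (range s ∪ x '' J)
  let B := span ℤ (x '' Jᶜ)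
  have hA : #A ≤ _ := mk_span_le _ h0 ((mk_union_le _ _).trans
    (add_le_of_le h0 hS (mk_image_le.trans hJ)))
  have hAB : IsCompl A B := by
    refine ⟨disjoint_def.2 fun y h1 h2 => ?_, codisjoint_iff.2 (eq_top_iff'.2 fun g => ?_)⟩
    · simp only [A, span_union] at h1
      obtain ⟨g, h3, c, h4, rfl⟩ := mem_sup.1 h1
      obtain ⟨a, h5, rfl⟩ := (Finsupp.mem_span_image_iff_linearCombination _).1 h4
      obtain ⟨b, h6, h7⟩ := (Finsupp.mem_span_image_iff_linearCombination _).1 h2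
      have h8 := hrep g (by rw [← sub_eq_iff_eq_add.2 h7, smul_sub, x2, x2, sub_zero])
      have h9 := x1 (b - (rep g + a)) (by rw [map_sub, map_add, h8, h7, sub_self])
      rw [← h7]
      refine lc_zero fun i => ?_
      by_cases hi : i ∈ J
      · rw [(Finsupp.mem_supported' _ _).1 h6 i (not_not.2 hi), zero_smul]
      · have k1 := (Finsupp.mem_supported' _ _).1 h5 i hi
        have k2 : rep g i = 0 := Finsupp.notMem_support_iff.1 fun k =>
          hi (.inl (mem_iUnion.2 ⟨⟨g, h3⟩, k⟩))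
        simpa [k1, k2] using h9 i
    · have h1 := hrep (g - s ⟨_, g, rfl⟩) (by rw [smul_sub, sub_eq_zero]; exact (hs ⟨_, g, rfl⟩).symm)
      rw [eq_sub_iff_add_eq.1 h1 |>.symm]
      refine add_mem ?_ (mem_sup_left (subset_span (.inl ⟨_, rfl⟩)))
      rw [Finsupp.linearCombination_apply]
      refine sum_mem fun i _ => smul_mem _ _ ?_
      by_cases hi : i ∈ J
      · exact mem_sup_left (subset_span (.inr ⟨i, hi, rfl⟩))
      · exact mem_sup_right (subset_span ⟨i, hi, rfl⟩)
  have hW : ∀ k : ℕ, k ≠ 0 → #(range fun g : G => m • g) ≤ #(range fun a : A => k • a) :=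
    fun k hk => by
      refine (not_lt.1 (hmin _ ⟨k * m, mul_ne_zero hk hm, rfl⟩)).trans
        ((mk_le_mk_of_subset ?_).trans (mk_image_le (f := Subtype.val)))
      rintro _ ⟨g, rfl⟩
      refine ⟨_, ⟨m • ⟨s ⟨_, g, rfl⟩, subset_span (.inl ⟨_, rfl⟩)⟩, rfl⟩, ?_⟩
      exact (congrArg (k • ·) (hs ⟨_, g, rfl⟩)).trans (mul_smul k m g).symm
  let y : ↥Jᶜ → B := fun i => ⟨x i, subset_span ⟨i, i.2, rfl⟩⟩
  have e1 : ∀ a, (lc y a : G) = lc (x ∘ Subtype.val) a := map_lc B.subtype.toAddMonoidHom y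
  have e2 : ∀ i, addOrderOf (y i) = addOrderOf (x i) := fun i =>
    (addOrderOf_injective B.subtype.toAddMonoidHom Subtype.val_injective _).symm
  refine Nice.prod (prodEquivOfIsCompl A B hAB).toAddEquiv
    (niceW ((hc m hm).trans ((hW 1 one_ne_zero).trans mk_range_le)) fun k hk => hA.trans (hW k hk))
    (niceB y (fun a ha i => Subtype.ext (x1.comp Subtype.val_injective a
      ((e1 a).symm.trans (congrArg Subtype.val ha)) i)) (fun b => ?_) fun i => ?_)
  · have h := b.2
    simp only [B, image_eq_range, ← Finsupp.range_linearCombination] at h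
    obtain ⟨a, ha⟩ := h
    exact ⟨a, Subtype.ext ((e1 a).trans ha)⟩
  · have h1 : i.1 ∉ J0 := fun h => i.2 (.inl h)
    have h2 := not_lt.1 fun h => i.2 (.inr ⟨h1, h⟩)
    refine h2.trans (mk_le_of_injective (f := fun j => ⟨⟨j.1, ?_⟩, ?_⟩)
      fun _ _ h => Subtype.ext (congrArg (·.1.1) h))
    · rintro (h | h)
      · exact j.2.1 h
      · exact h2.not_gt (j.2.2 ▸ h.2)
    · exact (e2 _).trans (j.2.2.trans (e2 _).symm)

theorem alg (hM : ∀ H : AddSubgroup G, H ≠ ⊤ →
      (∀ τ : TopologicalSpace G, @IsTopologicalAddGroup G τ _ → @T2Space G τ →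
        @IsClosed G τ H) → continuum ≤ #(G ⧸ H))
    (hE : ∀ m : ℕ, m ≠ 0 → ∃ g : G, m • g ≠ 0) (m : ℕ) (hm : m ≠ 0) :
    continuum ≤ #(range fun g : G => m • g) := by
  obtain ⟨g, hg⟩ := hE m hm
  refine (hM (nsmulAddMonoidHom m).ker (fun h => hg (h.ge (AddSubgroup.mem_top g)))
    fun τ _ _ => isClosed_eq (continuous_nsmul m) continuous_const).trans_eq
    (mk_congr (QuotientAddGroup.quotientKerEquivRange _).toEquiv)

end Pool.Agent.H23.HM
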