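import Mathlib

set_option autoImplicit false

namespace Pool.Agent.H23.HSC

/-- Intuitionistic propositional formulas. -/
inductive Fm
  | var (n : ℕ) | and (a b : Fm) | or (a b : Fm) | imp (a b : Fm) | bot | top

/-- Substitution. -/
def subst (s : ℕ → Fm) : Fm → Fm
  | .var n => s n
  | .and a b => .and (subst s a) (subst s b)
  | .or a b => .or (subst s a) (subst s b)
  | .imp a b => .imp (subst s a) (subst s b)
  | .bot => .bot
  | .top => .top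

/-- The value of a formula in a Heyting algebra. -/
def ev {A : Type} [HeytingAlgebra A] (v : ℕ → A) : Fm → A
  | .var n => v n
  | .and a b => ev v a ⊓ ev v b
  | .or a b => ev v a ⊔ ev v b
  | .imp a b => ev v a ⇨ ev v b
  | .bot => ⊥
  | .top => ⊤

/-- Deductive systems: structural finitary consequence relations. -/
structure DS (R : Set Fm → Fm → Prop) : Prop where
  refl : ∀ Γ φ, φ ∈ Γ → R Γ φ
  cut : ∀ Γ Δ φ, (∀ δ ∈ Δ, R Γ δ) → R Δ φ → R Γ φ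
  str : ∀ Γ φ s, R Γ φ → R (subst s '' Γ) (subst s φ)
  fin : ∀ Γ φ, R Γ φ → ∃ Δ ⊆ Γ, Δ.Finite ∧ R Δ φ

/-- Admissibility of the rule `Γ / φ`. -/
def Adm (R : Set Fm → Fm → Prop) (Γ : Set Fm) (φ : Fm) : Prop :=
  ∀ s, (∀ γ ∈ Γ, R ∅ (subst s γ)) → R ∅ (subst s φ)

/-- Structural completeness. -/
def SC (R : Set Fm → Fm → Prop) : Prop := ∀ Γ φ, Γ.Finite → Adm R Γ φ → R Γ φ

/-- Hereditary structural completeness. -/
def IsHSC (R : Set Fm → Fm → Prop) : Prop :=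
  ∀ R', DS R' → (∀ Γ φ, R Γ φ → R' Γ φ) → SC R'

/-- The table of a binary operation. -/
def tab {A : Type} {n : ℕ} (e : A ≃ Fin n) (o : A → A → A) : List (List ℕ) :=
  List.ofFn fun i => List.ofFn fun j => (e (o (e.symm i) (e.symm j)) : ℕ)

/-- Codes of finite algebras. -/
abbrev Code := List (List ℕ) × List (List ℕ) × List (List ℕ) × ℕ × ℕ

/-- The operation tables of a finite Heyting algebra. -/
def code {A : Type} [HeytingAlgebra A] {n : ℕ} (e : A ≃ Fin n) : Code :=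
  (tab e (· ⊓ ·), tab e (· ⊔ ·), tab e (· ⇨ ·), e ⊥, e ⊤)

theorem subst_subst (s t : ℕ → Fm) (a : Fm) :
    subst s (subst t a) = subst (fun i => subst s (t i)) a := by
  induction a <;> simp_all [subst]

def rho (k i : ℕ) : Fm := if i < k then .var i else .bot

theorem ev_rho (a : Fm) : ∀ᶠ k in Filter.atTop, subst (rho k) a = a := by
  induction a with
  | var n => exact (Filter.eventually_gt_atTop n).mono fun k h => by simp [subst, rho, h]
  | bot => simp [subst]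
  | top => simp [subst]
  | _ a b i j => filter_upwards [i, j] with k i j using by simp [subst, i, j]

theorem ds_fam {M : Set (Set Fm)} (h : ∀ T ∈ M, ∀ s, subst s ⁻¹' T ∈ M) :
    DS fun Γ φ => ∃ Δ ⊆ Γ, Δ.Finite ∧ ∀ T ∈ M, Δ ⊆ T → φ ∈ T where
  refl _ φ g := ⟨{φ}, by simpa, by simp, by simp⟩
  cut Γ Δ φ g := fun ⟨E, e1, e2, e3⟩ => by
    choose! D d1 d2 d3 using g
    exact ⟨⋃ δ ∈ E, D δ, by simpa using fun δ e => d1 δ (e1 e), e2.biUnion fun δ e => d2 δ (e1 e),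
      fun T t k => e3 T t fun δ e => d3 δ (e1 e) T t ((Set.subset_biUnion_of_mem e).trans k)⟩
  str _ _ s := fun ⟨E, e1, e2, e3⟩ => ⟨_, Set.image_mono e1, e2.image _, fun T t k =>
    e3 _ (h T t s) (Set.image_subset_iff.1 k)⟩
  fin _ _ := fun ⟨E, e1, e2, e3⟩ => ⟨E, e1, e2, E, le_rfl, e2, e3⟩

variable {A : Type} [HeytingAlgebra A]

theorem ev_subst (v : ℕ → A) (s : ℕ → Fm) (a : Fm) :
    ev v (subst s a) = ev (fun n => ev v (s n)) a := by
  induction a <;> simp_all [ev, subst]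

def ac (m : ℕ) (s : ℕ → Fm) (v : ℕ → A) (i : ℕ) : A := if i < m then ev v (s i) else ⊥

theorem ev_ac (m : ℕ) (s : ℕ → Fm) (v : ℕ → A) (a : Fm) :
    ev (ac m s v) a = ev v (subst s (subst (rho m) a)) := by
  rw [ev_subst, ev_subst]
  congr 1
  ext i
  unfold ac rho
  split_ifs <;> rfl

theorem rep [Finite A] (T : Set Fm) (k : ℕ) : ∃ Δ ⊆ subst (rho k) '' T, Δ.Finite ∧
    ∀ ψ ∈ T, ∃ δ ∈ Δ, ∀ v : ℕ → A, ev v δ = ev v (subst (rho k) ψ) := by
  let F : Fm → (Fin k → A) → A := fun ψ a => ev (fun i => if h : i < k then a ⟨i, h⟩ else ⊥) ψ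
  have e : ∀ ψ (v : ℕ → A), ev v (subst (rho k) ψ) = F ψ fun i => v i := fun ψ v => by
    rw [ev_subst]
    congr 1
    ext i
    unfold rho
    split_ifs <;> rfl
  obtain ⟨Δ, h1, h2, h3⟩ := Set.exists_subset_image_finite_and.1
    (⟨F '' T, le_rfl, Set.toFinite _, rfl⟩ : ∃ U ⊆ F '' T, U.Finite ∧ U = F '' T)
  refine ⟨_, Set.image_mono h1, h2.image _, fun ψ g => ?_⟩
  obtain ⟨δ, d1, d2⟩ : F ψ ∈ F '' Δ := h3 ▸ ⟨ψ, g, rfl⟩
  exact ⟨_, ⟨δ, d1, rfl⟩, fun v => by rw [e, e, d2]⟩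

variable (W : Set (ℕ → A)) (m : ℕ)

def Z (s : ℕ → Fm) (a : Fm) : Prop := ∀ w ∈ W, ev w (subst s a) = ⊤
def B (Γ : Set Fm) (φ : Fm) : Prop := ∀ s, (∀ γ ∈ Γ, Z W s γ) → Z W s φ
def z (q : ℕ → Fm) (a : Fm) : Prop := ∀ w ∈ W, ev (ac m q w) a = ⊤
def y (p r : ℕ → Fm) (a : Fm) : Prop := ∀ w ∈ W, ev (ac m p (ac m r w)) a = ⊤

def Crit : Prop := ∀ S : Set (ℕ → Fm), ∀ q ∈ S, ∀ φ, ¬ z W m q φ →
  ∃ p, (∀ ψ, z W m q ψ → ∀ r ∈ S, y W m p r ψ) ∧ ∃ r ∈ S, ¬ y W m p r φ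

theorem z_iff (q : ℕ → Fm) (a : Fm) : z W m q a ↔ Z W q (subst (rho m) a) := by
  simp only [z, Z, ev_ac]

theorem y_iff (p r : ℕ → Fm) (a : Fm) : y W m p r a ↔ z W m r (subst p (subst (rho m) a)) := by
  simp only [y, z, ev_ac m p]

variable {W m} [Finite A]

theorem sep {R : Set Fm → Fm → Prop} (d : DS R) (h : ∀ Γ φ, Γ.Finite → B W Γ φ → R Γ φ)
    {Γ : Set Fm} {φ : Fm} {k : ℕ} (n : ¬ R Γ (subst (rho k) φ)) :
    ∃ s, (∀ ψ, R Γ (subst (rho k) ψ) → z W k s ψ) ∧ ¬ z W k s φ := by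
  obtain ⟨Δ, d1, d2, d3⟩ := rep (A := A) {ψ | R Γ (subst (rho k) ψ)} k
  obtain ⟨s, s1, s2⟩ : ∃ s, (∀ γ ∈ Δ, Z W s γ) ∧ ¬ Z W s (subst (rho k) φ) := by
    by_contra! g
    exact n (d.cut _ _ _ (fun δ e => by obtain ⟨_, i, rfl⟩ := d1 e; exact i) (h _ _ d2 g))
  refine ⟨s, fun ψ g => (z_iff _ _ _ _).2 fun w e => ?_, by rwa [z_iff]⟩
  obtain ⟨δ, e1, e2⟩ := d3 ψ g
  rw [ev_subst, ← e2, ← ev_subst, s1 δ e1 w e]

theorem crit_iff (hW : W.Finite) (hm : Nat.card A ^ Nat.card W ≤ m) :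
    (∀ R, DS R → (∀ Γ φ, Γ.Finite → B W Γ φ → R Γ φ) → SC R) ↔ Crit W m := by
  refine ⟨fun h S q hq φ n => ?_, fun h R d e Γ φ f a => by_contra fun n => ?_⟩
  · obtain ⟨Δ, d1, d2, d3⟩ := rep (A := A) {ψ | z W m q ψ} m
    have r : ∀ ψ, z W m q (subst .var (subst (rho m) ψ)) ↔ z W m q ψ := fun ψ => by
      simp only [z, ev_subst]
      congr! 4
      ext i
      unfold rho ac
      split_ifs with g <;> simp [ev, g]
    have := h _ (ds_fam (M := {T | ∃ p, ∃ U ⊆ S, (U = S ∨ U = {q}) ∧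
      T = {ψ | ∀ r ∈ U, z W m r (subst p ψ)}}) (by
        rintro _ ⟨p, U, u, u', rfl⟩ s
        exact ⟨fun i => subst p (s i), U, u, u', by
          ext; simp only [Set.mem_preimage, Set.mem_ofPred_eq, subst_subst]⟩))
      (fun Γ ψ f b => ⟨Γ, le_rfl, f, by
        rintro _ ⟨p, U, -, -, rfl⟩ g r i
        simp only [z_iff, Z, subst_subst] at g ⊢
        exact b _ fun γ j => g j r i⟩) Δ (subst (rho m) φ) d2
    obtain ⟨s, s0⟩ := not_forall.1 fun g => by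
      obtain ⟨E, e1, -, e2⟩ := this g
      refine n ((r _).1 (e2 _ ⟨.var, {q}, by simpa, .inr rfl, rfl⟩ (fun δ i => ?_) q rfl))
      obtain ⟨ψ, j, rfl⟩ := d1 (e1 i)
      rintro _ rfl
      exact (r _).2 j
    obtain ⟨s1, s2⟩ := Classical.not_imp.1 s0
    obtain ⟨p, r, r1, r2⟩ : ∃ p, ∃ r ∈ S, ¬ z W m r (subst p (subst s (subst (rho m) φ))) := by
      by_contra! g
      exact s2 ⟨∅, le_rfl, by simp, by rintro _ ⟨p, U, u, -, rfl⟩ - r i; exact g p r (u i)⟩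
    refine ⟨fun i => subst p (s i), fun ψ g t i => ?_, r, r1, by rwa [y_iff, ← subst_subst]⟩
    obtain ⟨δ, e1, e2⟩ := d3 ψ g
    obtain ⟨E, e3, -, e4⟩ := s1 δ e1
    have := e4 _ ⟨p, S, le_rfl, .inl rfl, rfl⟩ (e3.trans (by simp)) t i
    rw [subst_subst] at this
    exact (y_iff _ _ _ _ _).2 fun w j => by rw [ev_subst, ← e2, ← ev_subst, this w j]
  obtain ⟨k, k1, k2⟩ := ((ev_rho φ).and ((Filter.eventually_all_finite f).2
    fun γ _ => ev_rho γ)).exists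
  obtain ⟨s, s1, s2⟩ := sep d e (k1.symm ▸ n : ¬ R Γ (subst (rho k) φ))
  have := hW.to_subtype
  obtain ⟨ι⟩ : Nonempty ((W → A) ↪ Fin m) := by
    have := Fintype.ofFinite (W → A)
    exact Function.Embedding.nonempty_of_card_le (by rwa [← Nat.card_eq_fintype_card, Nat.card_fun,
      Fintype.card_fin])
  let r : ℕ → ℕ := fun i => ι fun w => ac k s w.1 i
  let q : ℕ → Fm := fun j => subst s (rho k (Function.invFun r j))
  have q0 : ∀ j, ∀ w : ℕ → A, ev w (q j) = ac k s w (Function.invFun r j) := fun j w =>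
    (ev_ac k s w (.var _)).symm
  have l : ∀ p (w : ℕ → A) ψ, ev (ac m p w) (subst (fun i => .var (r i)) ψ) =
      ev w (subst (fun i => p (r i)) ψ) := fun p w ψ => by
    simp only [ev_subst, ev, ac, r, Fin.is_lt, if_true]
  have q1 : ∀ ψ, z W m q (subst (fun i => .var (r i)) ψ) ↔ z W k s ψ := fun ψ => by
    simp only [z, l, ev_subst, q0]
    congr! 4 with w j
    ext i
    exact congrFun (ι.injective (Fin.ext (Function.invFun_eq (f := r) ⟨i, rfl⟩))) ⟨w, j⟩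
  obtain ⟨p, p1, t, t1, t2⟩ := h {t | ∀ ψ, R ∅ (subst (rho m) ψ) → z W m t ψ} q (fun ψ g => by
    have := d.str _ _ (rho k) (d.str _ _ (fun j => .var (Function.invFun r j)) g)
    have := s1 _ (d.cut _ _ _ (by simp) this)
    simp only [z_iff, Z, ev_subst, ev, q] at this ⊢
    exact this) _ (by rwa [q1])
  refine t2 fun w j => (l _ _ _).trans (t1 _ ?_ w j)
  rw [subst_subst]
  refine a _ fun γ i => by_contra fun g => ?_
  rw [← subst_subst] at g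
  obtain ⟨u, u1, u2⟩ := sep d e g
  exact u2 fun w j => (l _ _ _).symm.trans
    (p1 _ ((q1 _).2 (s1 _ ((k2 γ i).symm ▸ d.refl _ _ i))) u u1 w j)

end Pool.Agent.H23.HSC
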