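import Mathlib
import Pool.Agent.H23.HSC
import Pool.Agent.H23.PR

set_option autoImplicit false

namespace Pool.Agent.H23.HSC

def dig (n x i : ℕ) : ℕ := x / n ^ i % n

theorem exists_dig (n k : ℕ) (f : ℕ → ℕ) (h : ∀ i < k, f i < n) :
    ∃ x < n ^ k, ∀ i < k, dig n x i = f i :=
  ⟨_, (finFunctionFinEquiv fun i : Fin k => (⟨f i, h i i.2⟩ : Fin n)).2, fun i l => by
    have := finFunctionFinEquiv_symm_apply_val
      (finFunctionFinEquiv fun i : Fin k => (⟨f i, h i i.2⟩ : Fin n)) ⟨i, l⟩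
    simpa [dig] using this.symm⟩

def al (k : ℕ) (p : ℕ → Bool) : Bool := (List.range k).all p
def an (k : ℕ) (p : ℕ → Bool) : Bool := (List.range k).any p
def mem (C f : ℕ) : Bool := dig 2 C f == 1
def op (T : List (List ℕ)) (x y : ℕ) : ℕ := (T.getD x []).getD y 0

@[simp] theorem al_iff (k : ℕ) (p : ℕ → Bool) : al k p = true ↔ ∀ i < k, p i = true := by simp [al]
@[simp] theorem an_iff (k : ℕ) (p : ℕ → Bool) : an k p = true ↔ ∃ i < k, p i = true := by simp [an]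

theorem exists_mem (k : ℕ) (P : ℕ → Prop) : ∃ C < 2 ^ k, ∀ i < k, mem C i = true ↔ P i := by
  classical
  obtain ⟨C, h, g⟩ := exists_dig 2 k (fun i => if P i then 1 else 0) fun i _ => by split_ifs <;> simp
  exact ⟨C, h, fun i l => by simp [mem, g i l]⟩

def im (a b : Bool) : Bool := !a || b

@[simp] theorem im_iff (a b : Bool) : im a b = true ↔ (a = true → b = true) := by
  cases a <;> simp [im]

variable (t : Code) (n m : ℕ) (L : List ℕ)

def cls (C : ℕ) : Bool := al (n ^ n ^ m) fun h => im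
  ((an m fun i => al (n ^ m) fun a => dig n h a == dig n a i) ||
    (al (n ^ m) fun a => dig n h a == t.2.2.2.1) || (al (n ^ m) fun a => dig n h a == t.2.2.2.2) ||
    an (n ^ n ^ m) fun f => an (n ^ n ^ m) fun g => mem C f && mem C g &&
      ((al (n ^ m) fun a => dig n h a == op t.1 (dig n f a) (dig n g a)) ||
      (al (n ^ m) fun a => dig n h a == op t.2.1 (dig n f a) (dig n g a)) ||
      (al (n ^ m) fun a => dig n h a == op t.2.2.1 (dig n f a) (dig n g a)))) (mem C h)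

def cl (f : ℕ) : Bool := al (2 ^ n ^ n ^ m) fun C => im (cls t n m C) (mem C f)
def sb (p : ℕ) : Bool := al m fun i => cl t n m (dig (n ^ n ^ m) p i)
def act (p a b : ℕ) : Bool := al m fun i => dig n b i == dig n (dig (n ^ n ^ m) p i) a
def zz (q g : ℕ) : Bool :=
  L.all fun w => al (n ^ m) fun a => im (act n m q w a) (dig n g a == t.2.2.2.2)
def yy (p r g : ℕ) : Bool := L.all fun w => al (n ^ m) fun a => im (act n m r w a)
  (al (n ^ m) fun b => im (act n m p a b) (dig n g b == t.2.2.2.2))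

def crit : Bool := al (2 ^ (n ^ n ^ m) ^ m) fun S =>
  im (al ((n ^ n ^ m) ^ m) fun r => im (mem S r) (sb t n m r)) (al ((n ^ n ^ m) ^ m) fun q =>
    im (mem S q) (al (n ^ n ^ m) fun f => im (cl t n m f) (im (!zz t n m L q f)
      (an ((n ^ n ^ m) ^ m) fun p => sb t n m p && (al (n ^ n ^ m) fun g => im (cl t n m g)
        (im (zz t n m L q g) (al ((n ^ n ^ m) ^ m) fun r => im (mem S r) (yy t n m L p r g)))) &&
        an ((n ^ n ^ m) ^ m) fun r => mem S r && !yy t n m L p r f))))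

section
variable {α : Type} [Primcodable α] {t : α → Code} {n m f g h : α → ℕ} {L : α → List ℕ}

@[fun_prop] theorem dig_pr (a : Primrec f) (b : Primrec g) (c : Primrec h) :
    Primrec fun x => dig (f x) (g x) (h x) := by unfold dig; fun_prop
@[fun_prop] theorem al_pr {p : α → ℕ → Bool} (a : Primrec f)
    (b : Primrec fun q : α × ℕ => p q.1 q.2) : Primrec fun x => al (f x) (p x) := by
  unfold al; fun_prop
@[fun_prop] theorem an_pr {p : α → ℕ → Bool} (a : Primrec f)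
    (b : Primrec fun q : α × ℕ => p q.1 q.2) : Primrec fun x => an (f x) (p x) := by
  unfold an; fun_prop
@[fun_prop] theorem mem_pr (a : Primrec f) (b : Primrec g) : Primrec fun x => mem (f x) (g x) := by
  unfold mem; fun_prop
@[fun_prop] theorem op_pr {T : α → List (List ℕ)} (a : Primrec T) (b : Primrec g) (c : Primrec h) :
    Primrec fun x => op (T x) (g x) (h x) := by unfold op; fun_prop
@[fun_prop] theorem im_pr {f g : α → Bool} (a : Primrec f) (b : Primrec g) :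
    Primrec fun x => im (f x) (g x) := by unfold im; fun_prop
@[fun_prop] theorem cls_pr (a : Primrec t) (b : Primrec n) (c : Primrec m) (d : Primrec f) :
    Primrec fun x => cls (t x) (n x) (m x) (f x) := by unfold cls; fun_prop
@[fun_prop] theorem cl_pr (a : Primrec t) (b : Primrec n) (c : Primrec m) (d : Primrec f) :
    Primrec fun x => cl (t x) (n x) (m x) (f x) := by unfold cl; fun_prop
@[fun_prop] theorem sb_pr (a : Primrec t) (b : Primrec n) (c : Primrec m) (d : Primrec f) :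
    Primrec fun x => sb (t x) (n x) (m x) (f x) := by unfold sb; fun_prop
@[fun_prop] theorem act_pr (b : Primrec n) (c : Primrec m) (d : Primrec f) (e : Primrec g)
    (k : Primrec h) : Primrec fun x => act (n x) (m x) (f x) (g x) (h x) := by unfold act; fun_prop
@[fun_prop] theorem zz_pr (a : Primrec t) (b : Primrec n) (c : Primrec m) (l : Primrec L)
    (d : Primrec f) (e : Primrec g) : Primrec fun x => zz (t x) (n x) (m x) (L x) (f x) (g x) := by
  unfold zz; fun_prop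
@[fun_prop] theorem yy_pr (a : Primrec t) (b : Primrec n) (c : Primrec m) (l : Primrec L)
    (d : Primrec f) (e : Primrec g) (k : Primrec h) :
    Primrec fun x => yy (t x) (n x) (m x) (L x) (f x) (g x) (h x) := by unfold yy; fun_prop
theorem crit_pr (a : Primrec t) (b : Primrec n) (c : Primrec m) (l : Primrec L) :
    Primrec fun x => crit (t x) (n x) (m x) (L x) := by unfold crit; fun_prop
end

variable {A : Type} [HeytingAlgebra A] {n : ℕ} (e : A ≃ Fin n)

include e in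
theorem npos : 0 < n := (e ⊥).pos

omit [HeytingAlgebra A] in
theorem op_tab (o : A → A → A) (x y : A) : op (tab e o) (e x) (e y) = e (o x y) := by
  simp [op, tab, List.getD_eq_getElem?_getD]

def vl (a i : ℕ) : A := if i < m then e.symm ⟨dig n a i, Nat.mod_lt _ (npos e)⟩ else ⊥

def R (φ : Fm) (f : ℕ) : Prop := f < n ^ n ^ m ∧ ∀ a < n ^ m, dig n f a = e (ev (vl m e a) φ)
def RS (s : ℕ → Fm) (p : ℕ) : Prop :=
  p < (n ^ n ^ m) ^ m ∧ ∀ i < m, R m e (s i) (dig (n ^ n ^ m) p i)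

theorem ex_R (φ : Fm) : ∃ f, R m e φ f := exists_dig _ _ _ fun _ _ => Fin.is_lt _

theorem ex_RS (s : ℕ → Fm) : ∃ p, RS m e s p := by
  choose f h using fun i => ex_R m e (s i)
  obtain ⟨p, p1, p2⟩ := exists_dig _ m f fun i _ => (h i).1
  exact ⟨p, p1, fun i l => (p2 i l).symm ▸ h i⟩

theorem ex_pt (v : ℕ → A) : ∃ b < n ^ m, ∀ i, vl m e b i = if i < m then v i else ⊥ := by
  obtain ⟨b, b1, b2⟩ := exists_dig n m (fun i => e (v i)) fun _ _ => Fin.is_lt _
  refine ⟨b, b1, fun i => ?_⟩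
  unfold vl
  split_ifs with h <;> simp [b2, h]

variable {m e}

theorem cl_iff {f : ℕ} (hf : f < n ^ n ^ m) : cl (code e) n m f = true ↔ ∃ φ, R m e φ f := by
  simp only [cl, cls, al_iff, an_iff, im_iff, Bool.or_eq_true, Bool.and_eq_true, beq_iff_eq, code]
  refine ⟨fun h => ?_, ?_⟩
  · obtain ⟨C, c1, c2⟩ := exists_mem (n ^ n ^ m) fun f => ∃ φ, R m e φ f
    refine (c2 f hf).1 (h C c1 fun x l k => (c2 x l).2 ?_)
    rcases k with ((⟨i, j, k⟩ | k) | k) | ⟨f, i, g, j, ⟨a, b⟩, k⟩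
    · exact ⟨.var i, l, fun a c => by simp [k a c, ev, vl, j]⟩
    · exact ⟨.bot, l, k⟩
    · exact ⟨.top, l, k⟩
    obtain ⟨φ, -, a⟩ := (c2 f i).1 a
    obtain ⟨ψ, -, b⟩ := (c2 g j).1 b
    rcases k with (k | k) | k
    · exact ⟨φ.and ψ, l, fun x y => by rw [k x y, a x y, b x y, op_tab, ev]⟩
    · exact ⟨φ.or ψ, l, fun x y => by rw [k x y, a x y, b x y, op_tab, ev]⟩
    · exact ⟨φ.imp ψ, l, fun x y => by rw [k x y, a x y, b x y, op_tab, ev]⟩
  rintro ⟨φ, h⟩ C - k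
  clear hf
  induction φ generalizing f with
  | var i =>
    by_cases j : i < m
    · exact k f h.1 (.inl (.inl (.inl ⟨i, j, fun a c => by simp [h.2 a c, ev, vl, j]⟩)))
    · exact k f h.1 (.inl (.inl (.inr fun a c => by simp [h.2 a c, ev, vl, j])))
  | bot => exact k f h.1 (.inl (.inl (.inr h.2)))
  | top => exact k f h.1 (.inl (.inr h.2))
  | _ φ ψ i j =>
    obtain ⟨x, a⟩ := ex_R m e φ
    obtain ⟨y, b⟩ := ex_R m e ψ
    refine k f h.1 (.inr ⟨x, a.1, y, b.1, ⟨i a, j b⟩, ?_⟩)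
    simp +contextual only [h.2, a.2, b.2, op_tab, ev]
    simp

theorem sb_iff {p : ℕ} (hp : p < (n ^ n ^ m) ^ m) : sb (code e) n m p = true ↔ ∃ s, RS m e s p := by
  have : ∀ i, dig (n ^ n ^ m) p i < n ^ n ^ m := fun i => Nat.mod_lt _ (pow_pos (npos e) _)
  simp only [sb, al_iff, cl_iff (this _)]
  refine ⟨fun h => ?_, fun ⟨s, h⟩ i l => ⟨_, h.2 i l⟩⟩
  have : Inhabited Fm := ⟨.bot⟩
  choose! s h using h
  exact ⟨s, hp, h⟩

theorem act_iff {s : ℕ → Fm} {p a : ℕ} (h : RS m e s p) (l : a < n ^ m) (b : ℕ) :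
    act n m p a b = true ↔ vl m e b = ac m s (vl m e a) := by
  simp only [act, al_iff, beq_iff_eq, funext_iff, ac]
  refine forall_congr' fun i => ?_
  by_cases j : i < m
  · simp [j, (h.2 i j).2 a l, vl, Equiv.symm_apply_eq, Fin.ext_iff]
  · simp [j, vl]

theorem all_act {s : ℕ → Fm} {p a : ℕ} (h : RS m e s p) (l : a < n ^ m) {P : ℕ → Prop}
    {Q : (ℕ → A) → Prop} (k : ∀ b < n ^ m, P b ↔ Q (vl m e b)) :
    (∀ b < n ^ m, act n m p a b = true → P b) ↔ Q (ac m s (vl m e a)) := by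
  simp only [act_iff h l]
  obtain ⟨b, b1, b2⟩ := ex_pt m e fun i => ev (vl m e a) (s i)
  have : vl m e b = ac m s (vl m e a) := funext b2
  exact ⟨fun g => this ▸ (k b b1).1 (g b b1 this), fun g b i j => (k b i).2 (j ▸ g)⟩

theorem R.top {φ : Fm} {f : ℕ} (h : R m e φ f) (b : ℕ) (l : b < n ^ m) :
    dig n f b = e ⊤ ↔ ev (vl m e b) φ = ⊤ := by simp [h.2 b l, Fin.val_inj]

variable {L} (hL : ∀ a ∈ L, a < n ^ m)
include hL

theorem zz_iff {s : ℕ → Fm} {φ : Fm} {q f : ℕ} (h : RS m e s q) (k : R m e φ f) :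
    zz (code e) n m L q f = true ↔ z (vl m e '' {a | a ∈ L}) m s φ := by
  simp only [zz, z, List.all_eq_true, al_iff, im_iff, beq_iff_eq, code, Set.forall_mem_image]
  exact forall₂_congr fun w i => all_act h (hL w i) (Q := fun v => ev v φ = ⊤) k.top

theorem yy_iff {s u : ℕ → Fm} {φ : Fm} {p r f : ℕ} (g : RS m e u p) (h : RS m e s r)
    (k : R m e φ f) : yy (code e) n m L p r f = true ↔ y (vl m e '' {a | a ∈ L}) m u s φ := by
  simp only [yy, y, List.all_eq_true, al_iff, im_iff, beq_iff_eq, code, Set.forall_mem_image]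
  exact forall₂_congr fun w i => all_act h (hL w i) (Q := fun v => ev (ac m u v) φ = ⊤)
    fun b j => all_act g j (Q := fun v => ev v φ = ⊤) k.top

theorem crit_code : crit (code e) n m L = true ↔ Crit (vl m e '' {a | a ∈ L}) m := by
  simp only [crit, al_iff, an_iff, im_iff, Bool.and_eq_true, Bool.not_eq_true', ← Bool.not_eq_true]
  refine ⟨fun h S q hq φ k => ?_, fun h S _ c q q1 q2 f f1 f2 k => ?_⟩
  · obtain ⟨C, c1, c2⟩ := exists_mem ((n ^ n ^ m) ^ m) fun r => ∃ s ∈ S, RS m e s r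
    obtain ⟨q', q1⟩ := ex_RS m e q
    obtain ⟨f, f1⟩ := ex_R m e φ
    obtain ⟨p, p1, ⟨p2, p3⟩, r, r1, r2, r3⟩ := h C c1
      (fun r i j => (sb_iff i).2 (((c2 r i).1 j).imp fun _ => And.right)) q' q1.1
      ((c2 _ q1.1).2 ⟨q, hq, q1⟩) f f1.1 ((cl_iff f1.1).2 ⟨_, f1⟩) (by rwa [zz_iff hL q1 f1])
    obtain ⟨u, u1⟩ := (sb_iff p1).1 p2
    obtain ⟨s, s1, s2⟩ := (c2 r r1).1 r2
    refine ⟨u, fun ψ i s j => ?_, s, s1, by rwa [← yy_iff hL u1 s2 f1]⟩
    obtain ⟨g, g1⟩ := ex_R m e ψ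
    obtain ⟨r, r1⟩ := ex_RS m e s
    exact (yy_iff hL u1 r1 g1).1 (p3 g g1.1 ((cl_iff g1.1).2 ⟨_, g1⟩) ((zz_iff hL q1 g1).2 i)
      r r1.1 ((c2 r r1.1).2 ⟨s, j, r1⟩))
  obtain ⟨s, s1⟩ := (sb_iff q1).1 (c q q1 q2)
  obtain ⟨φ, g⟩ := (cl_iff f1).1 f2
  obtain ⟨u, u1, v, ⟨r, r1, r2⟩, u2⟩ := h {s | ∃ r, mem S r = true ∧ RS m e s r} s ⟨q, q2, s1⟩ φ
    (by rwa [← zz_iff hL s1 g])
  obtain ⟨p, p1⟩ := ex_RS m e u
  refine ⟨p, p1.1, ⟨(sb_iff p1.1).2 ⟨_, p1⟩, fun x x1 x2 x3 r r1 r2 => ?_⟩, r, r2.1, r1,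
    by rwa [yy_iff hL p1 r2 g]⟩
  obtain ⟨ψ, i⟩ := (cl_iff x1).1 x2
  obtain ⟨v, j⟩ := (sb_iff r1).1 (c r r1 r2)
  exact (yy_iff hL p1 j i).2 (u1 ψ ((zz_iff hL s1 i).1 x3) v ⟨r, r2, j⟩)

end Pool.Agent.H23.HSC
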