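import Mathlib
import Pool.Agent.H23.OCode

set_option autoImplicit false

namespace Pool.Agent.H23.Hechler

open PiNat

/-- Accessibility of a set of strings from a node. -/
inductive Large (D : Set (List ℕ)) : List ℕ → Prop
  | base (σ : List ℕ) : σ ∈ D → Large D σ
  | step (σ : List ℕ) (k : ℕ → ℕ) : (∀ i, i ≤ k i) → (∀ i, Large D (k i :: σ)) → Large D σ

/-- Extensions of a node that obey a lower bound. -/
inductive Ext (g : List ℕ → ℕ) (σ : List ℕ) : List ℕ → Prop
  | refl : Ext g σ σ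
  | cons (τ : List ℕ) (n : ℕ) : Ext g σ τ → g τ ≤ n → Ext g σ (n :: τ)

theorem Ext.trans {g : List ℕ → ℕ} {σ τ ρ : List ℕ} (h1 : Ext g σ τ) (h2 : Ext g τ ρ) :
    Ext g σ ρ := by
  induction h2 with
  | refl => exact h1
  | cons τ' n _ hn ih => exact .cons _ _ ih hn

theorem Ext.mono {g g' : List ℕ → ℕ} (hg : ∀ ρ, g ρ ≤ g' ρ) {σ τ : List ℕ} (h : Ext g' σ τ) :
    Ext g σ τ := by
  induction h with
  | refl => exact .refl
  | cons τ' n _ hn ih => exact .cons _ _ ih ((hg _).trans hn)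

theorem Ext.length_le {g : List ℕ → ℕ} {σ τ : List ℕ} (h : Ext g σ τ) :
    σ.length ≤ τ.length := by
  induction h with
  | refl => exact le_rfl
  | cons τ' n _ hn ih => simp; omega

theorem Large.meet {D : Set (List ℕ)} {σ : List ℕ} (h : Large D σ) (g : List ℕ → ℕ) :
    ∃ τ ∈ D, Ext g σ τ := by
  induction h with
  | base σ hσ => exact ⟨σ, hσ, .refl⟩
  | step σ k hk _ ih =>
    obtain ⟨τ, hτ, he⟩ := ih (g σ)
    exact ⟨τ, hτ, (Ext.cons σ _ .refl (hk _)).trans he⟩

theorem Large.mono {D D' : Set (List ℕ)} (hD : D ⊆ D') {σ : List ℕ} (h : Large D σ) :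
    Large D' σ := by
  induction h with
  | base σ hσ => exact .base σ (hD hσ)
  | step σ k hk _ ih => exact .step σ k hk ih

theorem avoid (D : Set (List ℕ)) :
    ∃ g : List ℕ → ℕ, ∀ σ τ, ¬ Large D σ → Ext g σ τ → τ ∉ D := by
  have : ∀ ρ : List ℕ, ∃ b : ℕ, ¬ Large D ρ → ∀ n, b ≤ n → ¬ Large D (n :: ρ) := by
    intro ρ
    by_contra hc
    push Not at hc
    choose k hk using fun b => (hc b).2
    exact (hc 0).1 (.step ρ k (fun i => (hk i).1) (fun i => (hk i).2))
  choose g hg using this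
  refine ⟨g, fun σ τ hσ he => ?_⟩
  have : ¬ Large D τ := by
    induction he with
    | refl => exact hσ
    | cons τ' n _ hn ih => exact hg τ' ih n hn
  exact fun h => this (.base τ h)

/-- The set of branches of a condition. -/
def Cond (σ : List ℕ) (g : List ℕ → ℕ) : Set (ℕ → ℕ) :=
  {f | res f σ.length = σ ∧ ∀ n, σ.length ≤ n → g (res f n) ≤ f n}

theorem Cond.ext {σ : List ℕ} {g : List ℕ → ℕ} {f : ℕ → ℕ} (h : f ∈ Cond σ g) (n : ℕ)
    (hn : σ.length ≤ n) : Ext g σ (res f n) := by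
  induction n, hn using Nat.le_induction with
  | base => rw [h.1]; exact .refl
  | succ n hn ih => exact .cons _ _ ih (h.2 n hn)

theorem Cond.sub {σ τ : List ℕ} {g : List ℕ → ℕ} (he : Ext g σ τ) : Cond τ g ⊆ Cond σ g := by
  induction he with
  | refl => exact le_rfl
  | cons τ' n _ hn ih =>
    intro f hf
    apply ih
    obtain ⟨h1, h2⟩ := hf
    simp only [List.length_cons, res_succ, List.cons.injEq] at h1 h2
    refine ⟨h1.2, fun m hm => ?_⟩
    rcases hm.eq_or_lt with rfl | hlt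
    · rw [h1.2, h1.1]; exact hn
    · exact h2 m hlt

theorem Cond.mono {σ : List ℕ} {g g' : List ℕ → ℕ} (hg : ∀ ρ, g ρ ≤ g' ρ) :
    Cond σ g' ⊆ Cond σ g := fun _ hf => ⟨hf.1, fun n hn => (hg _).trans (hf.2 n hn)⟩

theorem exists_res (σ : List ℕ) : ∃ f : ℕ → ℕ, res f σ.length = σ := by
  induction σ with
  | nil => exact ⟨fun _ => 0, rfl⟩
  | cons a σ ih =>
    obtain ⟨f, hf⟩ := ih
    refine ⟨Function.update f σ.length a, ?_⟩
    simp only [List.length_cons, res_succ, Function.update_self, List.cons.injEq, true_and]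
    rw [← hf, res_length]
    apply res_eq_res.2
    intro m hm
    exact Function.update_of_ne hm.ne _ _

theorem exists_next (next : List ℕ → ℕ) : ∃ f : ℕ → ℕ, ∀ n, f n = next (res f n) := by
  let L : ℕ → List ℕ := fun n => Nat.rec [] (fun _ l => next l :: l) n
  refine ⟨fun n => next (L n), fun n => ?_⟩
  have : ∀ n, res (fun n => next (L n)) n = L n := by
    intro n
    induction n with
    | zero => rfl
    | succ n ih => rw [res_succ, ih]
  rw [this]

theorem Cond.nonempty (σ : List ℕ) (g : List ℕ → ℕ) : (Cond σ g).Nonempty := by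
  obtain ⟨f0, h0⟩ := exists_res σ
  obtain ⟨f, hf⟩ := exists_next (fun ρ => if ρ.length < σ.length then f0 ρ.length else g ρ)
  refine ⟨f, ?_, fun n hn => ?_⟩
  · rw [← h0, res_length]
    apply res_eq_res.2
    intro m hm
    rw [hf m, res_length, if_pos hm]
  · rw [hf n, res_length, if_neg (by omega)]

/-- Strings forcing the program to produce the first `n` bits of `y`. -/
def DD (c : OCode) (y : ℕ → Bool) (n : ℕ) : Set (List ℕ) :=
  {τ | ∀ f : ℕ → ℕ, res f τ.length = τ → ∀ i < n, (y i).toNat ∈ c.eval (PFun.lift f) i}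

theorem DD_congr (c : OCode) {y y' : ℕ → Bool} {n : ℕ} (h : ∀ i < n, y i = y' i) :
    DD c y n = DD c y' n := by
  ext τ
  constructor
  · intro H f hf i hi; rw [← h i hi]; exact H f hf i hi
  · intro H f hf i hi; rw [h i hi]; exact H f hf i hi

theorem DD_anti (c : OCode) (y : ℕ → Bool) {m n : ℕ} (h : m ≤ n) : DD c y n ⊆ DD c y m :=
  fun _ H f hf i hi => H f hf i (by omega)

theorem DD_of_eval (c : OCode) (y : ℕ → Bool) (f : ℕ → ℕ)
    (h : c.eval (PFun.lift f) = PFun.lift (fun n => (y n).toNat)) (n b : ℕ) :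
    ∃ m, b ≤ m ∧ res f m ∈ DD c y n := by
  have : ∀ i, ∃ m, ∀ f' : ℕ →. ℕ, (∀ j < m, f' j = PFun.lift f j) →
      (y i).toNat ∈ c.eval f' i := by
    intro i
    apply OCode.use
    rw [h]; simp [PFun.lift]
  choose M hM using this
  refine ⟨max b ((Finset.range n).sup M), le_max_left _ _, fun f' hf' i hi => hM i _ ?_⟩
  intro j hj
  rw [res_length] at hf'
  have h1 : M i ≤ (Finset.range n).sup M := Finset.le_sup (f := M) (Finset.mem_range.2 hi)
  have := res_eq_res.1 hf' (m := j) (by omega)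
  simp [PFun.lift, this]

theorem exists_path (c : OCode) (σ : List ℕ) (h : ∀ n, ∃ y, Large (DD c y n) σ) :
    ∃ X : ℕ → Bool, ∀ n, Large (DD c X n) σ := by
  let K : ℕ → Set (ℕ → Bool) := fun n => {y | Large (DD c y n) σ}
  have hcl : ∀ n, IsClosed (K n) := by
    intro n
    have : K n = (fun (y : ℕ → Bool) (i : Fin n) => y i) ⁻¹'
        ((fun (y : ℕ → Bool) (i : Fin n) => y i) '' K n) := by
      ext y
      constructor
      · intro hy; exact ⟨y, hy, rfl⟩
      · rintro ⟨y', hy', he⟩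
        show Large (DD c y n) σ
        rw [DD_congr c (y' := y') (fun i hi => (congrFun he ⟨i, hi⟩).symm)]
        exact hy'
    rw [this]
    exact (isClosed_discrete _).preimage (by fun_prop)
  obtain ⟨X, hX⟩ := IsCompact.nonempty_iInter_of_sequence_nonempty_isCompact_isClosed K
    (fun n y hy => Large.mono (DD_anti c y (Nat.le_succ n)) hy) h (hcl 0).isCompact hcl
  exact ⟨X, fun n => Set.mem_iInter.1 hX n⟩

open Classical in
/-- The canonical limit sequence attached to a node and a program. -/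
noncomputable def XX (σ : List ℕ) (c : OCode) : ℕ → Bool :=
  if h : ∃ X : ℕ → Bool, ∀ n, Large (DD c X n) σ then h.choose else fun _ => false

theorem step (Q : Set (ℕ → Bool)) (hQ : IsClosed Q) (hX : ∀ σ c, XX σ c ∉ Q)
    (c : OCode) (σ : List ℕ) (g : List ℕ → ℕ) :
    ∃ p : List ℕ × (List ℕ → ℕ), Cond p.1 p.2 ⊆ Cond σ g ∧ σ.length < p.1.length ∧
      ∀ f ∈ Cond p.1 p.2, ∀ y ∈ Q,
        c.eval (PFun.lift f) ≠ PFun.lift (fun n => (y n).toNat) := by
  suffices H : ∃ p : List ℕ × (List ℕ → ℕ), Cond p.1 p.2 ⊆ Cond σ g ∧ σ.length ≤ p.1.length ∧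
      ∀ f ∈ Cond p.1 p.2, ∀ y ∈ Q,
        c.eval (PFun.lift f) ≠ PFun.lift (fun n => (y n).toNat) by
    obtain ⟨⟨τ, g'⟩, h1, h2, h3⟩ := H
    have hs : Cond (g' τ :: τ) g' ⊆ Cond τ g' := Cond.sub (.cons τ _ .refl le_rfl)
    exact ⟨⟨g' τ :: τ, g'⟩, hs.trans h1, by simp at h2 ⊢; omega, fun f hf => h3 f (hs hf)⟩
  by_cases hc : ∀ n, ∃ y, Large (DD c y n) σ
  · have hex := exists_path c σ hc
    have hL : ∀ n, Large (DD c (XX σ c) n) σ := by
      unfold XX; rw [dif_pos hex]; exact hex.choose_spec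
    obtain ⟨n, hn⟩ : ∃ n, ∀ y : ℕ → Bool, (∀ i < n, y i = XX σ c i) → y ∉ Q := by
      have ho : Qᶜ ∈ nhds (XX σ c) := hQ.isOpen_compl.mem_nhds (hX σ c)
      rw [nhds_pi, Filter.mem_pi] at ho
      obtain ⟨I, hI, t, ht, hsub⟩ := ho
      obtain ⟨n, hn⟩ := hI.bddAbove
      refine ⟨n + 1, fun y hy => hsub ?_⟩
      intro i hi
      rw [hy i (Nat.lt_succ_of_le (hn hi))]
      exact mem_of_mem_nhds (ht i)
    obtain ⟨τ, hτ, he⟩ := (hL n).meet g
    refine ⟨⟨τ, g⟩, Cond.sub he, he.length_le, fun f hf y hy heq => hn y (fun i hi => ?_) hy⟩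
    have := hτ f hf.1 i hi
    rw [heq] at this
    simp only [PFun.lift, Part.mem_some_iff] at this
    revert this
    cases y i <;> cases XX σ c i <;> simp
  · push Not at hc
    obtain ⟨n, hn⟩ := hc
    let ex : (Fin n → Bool) → ℕ → Bool := fun s i => if h : i < n then s ⟨i, h⟩ else false
    choose G hG using fun s : Fin n → Bool => avoid (DD c (ex s) n)
    refine ⟨⟨σ, fun ρ => max (g ρ) (Finset.univ.sup fun s => G s ρ)⟩,
      Cond.mono fun ρ => le_max_left _ _, le_rfl, fun f hf y _ heq => ?_⟩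
    obtain ⟨m, hm, hD⟩ := DD_of_eval c y f heq n σ.length
    have he := Cond.ext hf m hm
    let s : Fin n → Bool := fun i => y i
    have h1 : Ext (G s) σ (res f m) := he.mono fun ρ =>
      (Finset.le_sup (f := fun s => G s ρ) (Finset.mem_univ s)).trans (le_max_right _ _)
    apply hG s σ _ (hn _) h1
    rw [DD_congr c (y' := y) (fun i hi => by simp [ex, s, hi])]
    exact hD

theorem generic (Q : Set (ℕ → Bool)) (hQ : IsClosed Q) (hX : ∀ σ c, XX σ c ∉ Q)
    (h : ℕ → ℕ) : ∃ f : ℕ → ℕ, (∀ n, h n ≤ f n) ∧ ∀ c : OCode, ∀ y ∈ Q,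
      c.eval (PFun.lift f) ≠ PFun.lift (fun n => (y n).toNat) := by
  obtain ⟨e, he⟩ := exists_surjective_nat OCode
  choose nx h1 h2 h3 using step Q hQ hX
  let s : ℕ → List ℕ × (List ℕ → ℕ) := fun n =>
    Nat.rec ([], fun ρ => h ρ.length) (fun k p => nx (e k) p.1 p.2) n
  have hs : ∀ k, s (k + 1) = nx (e k) (s k).1 (s k).2 := fun _ => rfl
  let C : ℕ → Set (ℕ → ℕ) := fun k => Cond (s k).1 (s k).2
  have hanti : Antitone C := antitone_nat_of_succ_le fun k => h1 (e k) _ _
  have hlen : ∀ k, k ≤ (s k).1.length := by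
    intro k
    induction k with
    | zero => exact Nat.zero_le _
    | succ k ih => have := h2 (e k) (s k).1 (s k).2; rw [hs]; omega
  choose F hF using fun k => Cond.nonempty (s k).1 (s k).2
  let f : ℕ → ℕ := fun n => F (n + 1) n
  have hagree : ∀ m n, n < m → f n = F m n := by
    intro m n hnm
    have a1 : F m ∈ C (n + 1) := hanti hnm (hF m)
    have a2 : F (n + 1) ∈ C (n + 1) := hF (n + 1)
    exact res_eq_res.1 (a2.1.trans a1.1.symm) (hlen (n + 1))
  have hres : ∀ m n, n ≤ m → res f n = res (F m) n := fun m n hnm =>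
    res_eq_res.2 fun i hi => hagree m i (by omega)
  have hfC : ∀ k, f ∈ C k := by
    intro k
    refine ⟨?_, fun n hn => ?_⟩
    · have a1 : F (max k (s k).1.length) ∈ C k := hanti (le_max_left _ _) (hF _)
      rw [hres _ _ (le_max_right k _)]
      exact a1.1
    · have a1 : F (max k (n + 1)) ∈ C k := hanti (le_max_left _ _) (hF _)
      rw [hres (max k (n + 1)) n (by omega), hagree (max k (n + 1)) n (by omega)]
      exact a1.2 n hn
  refine ⟨f, fun n => ?_, fun c y hy => ?_⟩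
  · have := (hfC 0).2 n (Nat.zero_le _)
    simpa [s] using this
  · obtain ⟨k, rfl⟩ := he c
    exact h3 (e k) (s k).1 (s k).2 f (hfC (k + 1)) y hy

theorem main :
    ∃ P : Set (ℕ → ℕ), IsClosed P ∧
      ∀ Q : Set (ℕ → Bool), IsClosed Q →
        ¬ ((∀ x ∈ P, ∃ y ∈ Q,
              TuringReducible (PFun.lift (fun n => (y n).toNat)) (PFun.lift x)) ∧
           (∀ y ∈ Q, ∃ x ∈ P,
              TuringReducible (PFun.lift x) (PFun.lift (fun n => (y n).toNat)))) := by
  classical
  obtain ⟨e, he⟩ := exists_surjective_nat (List ℕ × OCode × OCode)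
  let v : ℕ → Part ℕ := fun n =>
    (e n).2.2.eval (PFun.lift fun i => (XX (e n).1 (e n).2.1 i).toNat) n
  let h : ℕ → ℕ := fun n => if hd : (v n).Dom then (v n).get hd + 1 else 0
  refine ⟨{f | ∀ n, h n ≤ f n}, ?_, fun Q hQ ⟨H1, H2⟩ => ?_⟩
  · have : {f : ℕ → ℕ | ∀ n, h n ≤ f n} = ⋂ n, (fun f : ℕ → ℕ => f n) ⁻¹' {a | h n ≤ a} := by
      ext f; simp
    rw [this]
    exact isClosed_iInter fun n => (isClosed_discrete _).preimage (continuous_apply n)
  · have hX : ∀ σ c, XX σ c ∉ Q := by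
      intro σ c hq
      obtain ⟨x, hx, hr⟩ := H2 _ hq
      obtain ⟨c', hc'⟩ := OCode.exists_code hr
      obtain ⟨n, hn⟩ := he (σ, c, c')
      have hv : v n = Part.some (x n) := by
        simp only [v, hn, hc']; rfl
      have h1 : h n = x n + 1 := by
        have hd : (v n).Dom := by rw [hv]; trivial
        simp only [h, dif_pos hd]
        congr 1
        exact Part.get_eq_iff_eq_some.2 hv
      have := hx n
      omega
    obtain ⟨f, hf, hg⟩ := generic Q hQ hX h
    obtain ⟨y, hy, hr⟩ := H1 f hf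
    obtain ⟨c, hc⟩ := OCode.exists_code hr
    exact hg c y hy hc

end Pool.Agent.H23.Hechler
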