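import Mathlib

/-! Heisenberg groups of a biadditive pairing and linear group topologies on them. -/
namespace Pool.Agent.H23.Heis

open Filter Topology Pointwise

section sub
variable {G ι : Type} [Group G] [Nonempty ι] (U : ι → Subgroup G)
  (hd : ∀ i j, ∃ k, U k ≤ U i ∧ U k ≤ U j) (hc : ∀ g i, ∃ j, ∀ x ∈ U j, g * x * g⁻¹ ∈ U i)

@[reducible] def basis : GroupFilterBasis G where
  sets := Set.range fun i => (U i : Set G)
  nonempty := Set.range_nonempty _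
  inter_sets := by
    rintro _ _ ⟨i, rfl⟩ ⟨j, rfl⟩
    obtain ⟨k, h1, h2⟩ := hd i j
    exact ⟨_, ⟨k, rfl⟩, Set.subset_inter h1 h2⟩
  one' := by rintro _ ⟨i, rfl⟩; exact (U i).one_mem
  mul' := by
    rintro _ ⟨i, rfl⟩
    exact ⟨_, ⟨i, rfl⟩, by rintro _ ⟨x, hx, y, hy, rfl⟩; exact (U i).mul_mem hx hy⟩
  inv' := by rintro _ ⟨i, rfl⟩; exact ⟨_, ⟨i, rfl⟩, fun x hx => (U i).inv_mem hx⟩
  conj' := by
    rintro g _ ⟨i, rfl⟩
    obtain ⟨j, h⟩ := hc g i
    exact ⟨_, ⟨j, rfl⟩, h⟩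

include hd hc in
theorem exists_top (h1 : ∀ x, (∀ i, x ∈ U i) → x = 1) :
    ∃ t : TopologicalSpace G, @IsTopologicalGroup G t _ ∧ @T2Space G t ∧
      ∀ s, s ∈ @nhds G t 1 ↔ ∃ i, (U i : Set G) ⊆ s := by
  refine ⟨(basis U hd hc).topology, (basis U hd hc).isTopologicalGroup,
    (@GroupFilterBasis.t2Space_iff_sInter_subset _ _ (basis U hd hc).topology (basis U hd hc)
      rfl).2 fun x hx => h1 x fun i => hx _ ⟨i, rfl⟩, fun s => ?_⟩
  refine ((basis U hd hc).nhds_one_hasBasis.mem_iff).trans ⟨?_, ?_⟩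
  · rintro ⟨_, ⟨i, rfl⟩, h⟩; exact ⟨i, h⟩
  · rintro ⟨i, h⟩; exact ⟨_, ⟨i, rfl⟩, h⟩
end sub

variable {V C : Type} [AddCommGroup V] [AddCommGroup C]

@[ext] structure H (β : V →+ V →+ C) where
  x : V
  y : V
  z : C

variable {β : V →+ V →+ C}

instance : Mul (H β) := ⟨fun a b => ⟨a.x + b.x, a.y + b.y, a.z + b.z + β a.x b.y⟩⟩
instance : One (H β) := ⟨⟨0, 0, 0⟩⟩
instance : Inv (H β) := ⟨fun a => ⟨-a.x, -a.y, -a.z + β a.x a.y⟩⟩
@[simp] theorem mul_x (a b : H β) : (a * b).x = a.x + b.x := rfl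
@[simp] theorem mul_y (a b : H β) : (a * b).y = a.y + b.y := rfl
@[simp] theorem mul_z (a b : H β) : (a * b).z = a.z + b.z + β a.x b.y := rfl
@[simp] theorem one_x : (1 : H β).x = 0 := rfl
@[simp] theorem one_y : (1 : H β).y = 0 := rfl
@[simp] theorem one_z : (1 : H β).z = 0 := rfl
@[simp] theorem inv_x (a : H β) : a⁻¹.x = -a.x := rfl
@[simp] theorem inv_y (a : H β) : a⁻¹.y = -a.y := rfl
@[simp] theorem inv_z (a : H β) : a⁻¹.z = -a.z + β a.x a.y := rfl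

instance : Group (H β) := Group.ofLeftAxioms
  (fun a b c => by ext1 <;> simp <;> abel) (fun a => by ext1 <;> simp) (fun a => by ext1 <;> simp)

theorem comm_eq (a b : H β) : a * b * a⁻¹ * b⁻¹ = ⟨0, 0, β a.x b.y - β b.x a.y⟩ := by
  ext1 <;> simp
  abel

/-! ### The Markov topology -/

abbrev F2 := ZMod 2

noncomputable def I : Submodule F2 (ℕ → F2) where
  carrier := {f | ∀ᶠ n in hyperfilter ℕ, f n = 0}
  zero_mem' := Eventually.of_forall fun _ => rfl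
  add_mem' := fun {f g} hf hg => (Eventually.and hf hg).mono fun n h => by simp [h.1, h.2]
  smul_mem' := fun c {f} hf => Eventually.mono hf fun n h => by simp [h]

theorem exists_lam : ∃ l : (ℕ → F2) →ₗ[F2] F2, ∀ n, l (Pi.single n 1) = 1 := by
  obtain ⟨g, hg⟩ := LinearMap.exists_leftInverse_of_injective
    (Finsupp.lcoeFun : (ℕ →₀ F2) →ₗ[F2] ℕ → F2) (LinearMap.ker_eq_bot.2 DFunLike.coe_injective)
  refine ⟨(Finsupp.linearCombination F2 fun _ => (1 : F2)).comp g, fun n => ?_⟩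
  have := LinearMap.congr_fun hg (Finsupp.single n 1)
  simp only [LinearMap.comp_apply, Finsupp.lcoeFun_apply, Finsupp.single_eq_pi_single,
    LinearMap.id_apply] at this
  simp [this]

noncomputable def e (n : ℕ) : I := ⟨Pi.single n 1,
  mem_of_superset (Set.Finite.compl_mem_hyperfilter (Set.finite_singleton n))
    fun _ hm => Pi.single_eq_of_ne hm _⟩

theorem exists_β : ∃ β : I →+ I →+ F2, ∀ n v, β (e n) v = v.1 n ∧ β v (e n) = v.1 n := by
  obtain ⟨l, hl⟩ := exists_lam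
  have k : ∀ n (v : ℕ → F2), l (Pi.single n 1 * v) = v n := fun n v => by
    rw [show Pi.single n 1 * v = v n • (Pi.single n 1 : ℕ → F2) by
      ext m; by_cases h : m = n <;> simp [h], map_smul, hl]; simp
  refine ⟨AddMonoidHom.mk' (fun u => AddMonoidHom.mk' (fun v => l (u.1 * v.1))
    fun v w => by simp [mul_add]) fun u v => by ext w; simp [add_mul], fun n v => ⟨k n _, ?_⟩⟩
  exact (congrArg l (mul_comm _ _)).trans (k n _)

theorem markov : ¬ (∀ (G : Type) [Group G], Cardinal.mk G ≤ 2 ^ Cardinal.continuum →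
      ∀ (E : Set (Set G)), E.Countable →
        ∃ t : TopologicalSpace G, @IsTopologicalGroup G t _ ∧ @T2Space G t ∧
          ∀ e ∈ E, @closure G t e = @closure G
            (sSup {s : TopologicalSpace G | @IsTopologicalGroup G s _ ∧ @T2Space G s}) e) := by
  classical
  intro h
  obtain ⟨β, hβ⟩ := exists_β
  let a : ℕ → H β := fun n => ⟨e n, 0, 0⟩
  let b : ℕ → H β := fun n => ⟨0, e n, 0⟩
  obtain ⟨t, tg, t2, ht⟩ := h (H β) (by
    refine le_trans ?_ (Cardinal.cantor _).le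
    refine (Cardinal.mk_le_of_injective (β := (ℕ → F2) × (ℕ → F2) × F2)
      (f := fun g => (g.x.1, g.y.1, g.z)) fun g g' e => ?_).trans (by simp)
    simp only [Prod.mk.injEq] at e
    exact H.ext (Subtype.ext e.1) (Subtype.ext e.2.1) e.2.2) {Set.range a, Set.range b}
    (Set.toFinite _).countable
  have ev : ∀ F : Finset I, ∃ n, ∀ w ∈ F, w.1 n = 0 := fun F =>
    ((eventually_all_finset F).2 fun w _ => w.2).exists
  have up : ∀ E ∈ ({Set.range a, Set.range b} : Set (Set (H β))), ∀ (U : Finset I → Subgroup (H β)),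
      Antitone U → (∀ g F, ∃ F', ∀ x ∈ U F', g * x * g⁻¹ ∈ U F) → (∀ x, (∀ F, x ∈ U F) → x = 1) →
      (∀ F, ∃ x ∈ E, x ∈ U F) → (1 : H β) ∈ closure E := by
    intro E hE U h1 h2 h3 h4
    obtain ⟨s, sg, s2, hs⟩ := exists_top U (fun i j => ⟨i ∪ j, h1 Finset.subset_union_left,
      h1 Finset.subset_union_right⟩) h2 h3
    rw [ht E hE]
    refine closure.mono (t₁ := s) (le_sSup (And.intro sg s2)) ((@mem_closure_iff_nhds _ s _ _).2 ?_)
    intro O hO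
    obtain ⟨F, hF⟩ := (hs O).1 hO
    obtain ⟨x, hx, hx'⟩ := h4 F
    exact ⟨x, hF hx', hx⟩
  have ha := up _ (.inl rfl) (fun F =>
    { carrier := {g | g.y = 0 ∧ g.z = 0 ∧ ∀ w ∈ F, β g.x w = 0}
      one_mem' := by simp
      mul_mem' := fun h h' => by simp +contextual [h.1, h.2.1, h'.1, h'.2.1, h.2.2, h'.2.2]
      inv_mem' := fun h => by simp +contextual [h.1, h.2.1, h.2.2] })
    (fun F F' hF g hg => ⟨hg.1, hg.2.1, fun w hw => hg.2.2 w (hF hw)⟩)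
    (fun g F => ⟨insert g.y F, fun x hx => by
      have : g * x * g⁻¹ = x := by
        rw [← mul_inv_eq_one, comm_eq, hx.1, hx.2.2 _ (Finset.mem_insert_self _ _)]; ext1 <;> simp
      rw [this]; exact ⟨hx.1, hx.2.1, fun w hw => hx.2.2 w (Finset.mem_insert_of_mem hw)⟩⟩)
    (fun x hx => H.ext (Subtype.ext (funext fun n => (hβ n _).2.symm.trans
      ((hx {e n}).2.2 _ (by simp)))) (hx ∅).1 (hx ∅).2.1)
    (fun F => (ev F).elim fun n hn =>
      ⟨a n, ⟨n, rfl⟩, rfl, rfl, fun w hw => (hβ n w).1.trans (hn w hw)⟩)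
  have hb := up _ (.inr rfl) (fun F =>
    { carrier := {g | g.x = 0 ∧ g.z = 0 ∧ ∀ w ∈ F, β w g.y = 0}
      one_mem' := by simp
      mul_mem' := fun h h' => by simp +contextual [h.1, h.2.1, h'.1, h'.2.1, h.2.2, h'.2.2]
      inv_mem' := fun h => by simp +contextual [h.1, h.2.1, h.2.2] })
    (fun F F' hF g hg => ⟨hg.1, hg.2.1, fun w hw => hg.2.2 w (hF hw)⟩)
    (fun g F => ⟨insert g.x F, fun x hx => by
      have : g * x * g⁻¹ = x := by
        rw [← mul_inv_eq_one, comm_eq, hx.1, hx.2.2 _ (Finset.mem_insert_self _ _)]; ext1 <;> simp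
      rw [this]; exact ⟨hx.1, hx.2.1, fun w hw => hx.2.2 w (Finset.mem_insert_of_mem hw)⟩⟩)
    (fun x hx => H.ext (hx ∅).1 (Subtype.ext (funext fun n => (hβ n _).1.symm.trans
      ((hx {e n}).2.2 _ (by simp)))) (hx ∅).2.1)
    (fun F => (ev F).elim fun n hn =>
      ⟨b n, ⟨n, rfl⟩, rfl, rfl, fun w hw => (hβ n w).2.trans (hn w hw)⟩)
  let z : H β := ⟨0, 0, 1⟩
  have z1 : ({z}ᶜ : Set (H β)) ∈ 𝓝 1 :=
    isOpen_compl_singleton.mem_nhds fun e => zero_ne_one (congrArg H.z e)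
  have c2 : Continuous fun p : H β × H β => p.1 * p.2 * p.1⁻¹ * p.2⁻¹ := by fun_prop
  obtain ⟨O, hO, O', hO', hh⟩ := mem_nhds_prod_iff.1
    (c2.continuousAt (x := (1, 1)).preimage_mem_nhds (by simpa only [one_mul, inv_one] using z1))
  have big : ∀ (c : ℕ → H β) (d : I → H β), (1 : H β) ∈ closure (Set.range c) →
      (∀ n w, c n * d w * (c n)⁻¹ * (d w)⁻¹ = ⟨0, 0, w.1 n⟩) → ∀ O ∈ 𝓝 (1 : H β),
      {n | c n ∈ O} ∈ hyperfilter ℕ := by
    intro c d hc hcd O hO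
    by_contra hn
    let w : I := ⟨fun n => if c n ∈ O then 1 else 0,
      mem_of_superset (Ultrafilter.compl_mem_iff_notMem.2 hn) fun n hn => if_neg hn⟩
    have c1 : Continuous fun x : H β => x * d w * x⁻¹ * (d w)⁻¹ := by fun_prop
    obtain ⟨_, ⟨h1, h2⟩, n, rfl⟩ := mem_closure_iff_nhds.1 hc _ (inter_mem hO
      (c1.continuousAt (x := 1).preimage_mem_nhds (by simpa only [one_mul, inv_one, mul_one, mul_inv_cancel] using z1)))
    exact h2 ((hcd n w).trans (by simp [w, h1, z]))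
  obtain ⟨n, h1, h2⟩ := Ultrafilter.nonempty_of_mem (inter_mem
    (big a (fun w => ⟨0, w, 0⟩) ha (fun n w => by simp [comm_eq, a, (hβ n w).1]) O hO)
    (big b (fun w => ⟨w, 0, 0⟩) hb (fun n w => by simp [comm_eq, b, (hβ n w).2]) O' hO'))
  exact hh (Set.mk_mem_prod h1 h2) (by simp [comm_eq, a, b, z, (hβ n _).1]; simp [e])

/-! ### The precompact Markov topology -/

abbrev HZ := H (AddMonoidHom.mul : ℤ →+ ℤ →+ ℤ)

def Γ (m : ℕ) : Subgroup HZ where
  carrier := {g | (m : ℤ) ∣ g.x ∧ (m : ℤ) ∣ g.y ∧ (m : ℤ) ∣ g.z}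
  one_mem' := by simp
  mul_mem' := fun h h' => ⟨h.1.add h'.1, h.2.1.add h'.2.1, (h.2.2.add h'.2.2).add (h.1.mul_right _)⟩
  inv_mem' := fun h => ⟨h.1.neg_right, h.2.1.neg_right, h.2.2.neg_right.add (h.1.mul_right _)⟩

theorem padic {p : ℕ} (hp : 1 < p) : ∃ t : TopologicalSpace HZ,
    (@IsTopologicalGroup HZ t _ ∧ @T2Space HZ t ∧
      ∀ U ∈ @nhds HZ t 1, ∃ F : Finset HZ, (F : Set HZ) * U = Set.univ) ∧
    ∀ U ∈ @nhds HZ t 1, ∃ n, ∀ v : ℤ, (p : ℤ) ^ n ∣ v → (⟨0, 0, v⟩ : HZ) ∈ U := by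
  classical
  have anti : ∀ {i j}, i ≤ j → Γ (p ^ j) ≤ Γ (p ^ i) := fun {i j} h g hg => by
    have : ((p ^ i : ℕ) : ℤ) ∣ (p ^ j : ℕ) := Int.natCast_dvd_natCast.2 (pow_dvd_pow p h)
    exact ⟨this.trans hg.1, this.trans hg.2.1, this.trans hg.2.2⟩
  obtain ⟨t, tg, t2, ht⟩ := exists_top (fun n => Γ (p ^ n))
    (fun i j => ⟨max i j, anti (le_max_left _ _), anti (le_max_right _ _)⟩)
    (fun g i => ⟨i, fun x hx => by
      rw [← inv_mul_cancel_right (g * x * g⁻¹) x, comm_eq]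
      exact mul_mem ⟨by simp, by simp, (hx.2.1.mul_left _).sub (hx.1.mul_right _)⟩ hx⟩)
    (fun x hx => by
      have k : ∀ v : ℤ, (∀ n, ((p ^ n : ℕ) : ℤ) ∣ v) → v = 0 := fun v hv =>
        Int.eq_zero_of_dvd_of_natAbs_lt_natAbs (hv v.natAbs) (Nat.lt_pow_self hp)
      exact H.ext (k _ fun n => (hx n).1) (k _ fun n => (hx n).2.1) (k _ fun n => (hx n).2.2))
  refine ⟨t, ⟨tg, t2, fun U hU => ?_⟩, fun U hU => ?_⟩
  · obtain ⟨n, hn⟩ := (ht U).1 hU
    have m0 : ((p ^ n : ℕ) : ℤ) ≠ 0 := by positivity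
    generalize p ^ n = m at hn m0
    let S := Finset.Ico (0 : ℤ) |m|
    have hS : ∀ v : ℤ, v % m ∈ S := fun v =>
      Finset.mem_Ico.2 ⟨Int.emod_nonneg _ m0, Int.emod_lt_abs _ m0⟩
    refine ⟨(S ×ˢ S ×ˢ S).image fun q => ⟨q.1, q.2.1, q.2.2⟩, Set.eq_univ_of_forall fun g => ?_⟩
    refine ⟨⟨g.x % m, g.y % m, g.z % m⟩, Finset.mem_image.2 ⟨(_, _, _), by simp [hS], rfl⟩,
      _, hn ?_, mul_inv_cancel_left _ _⟩
    have d : ∀ v : ℤ, (m : ℤ) ∣ v - v % m := fun v => Int.dvd_self_sub_emod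
    refine ⟨by simpa [neg_add_eq_sub] using d g.x, by simpa [neg_add_eq_sub] using d g.y, ?_⟩
    have := (d g.z).sub ((d g.y).mul_left (g.x % m))
    simp only [mul_z, inv_z, inv_x, AddMonoidHom.mul_apply]
    exact this.trans (dvd_of_eq (by ring))
  · obtain ⟨n, hn⟩ := (ht U).1 hU
    exact ⟨n, fun v hv => hn ⟨by simp, by simp, by simpa using hv⟩⟩

theorem fact_pow {M : Type} [Monoid M] [Finite M] (x : M) :
    ∃ N : ℕ, ∀ n ≥ N, x ^ n.factorial = x ^ N.factorial := by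
  obtain ⟨i, j, hij, h⟩ := Finite.exists_ne_map_eq_of_infinite fun n : ℕ => x ^ n
  wlog lt : i < j generalizing i j
  · exact this j i hij.symm h.symm (by omega)
  obtain ⟨d, rfl⟩ := Nat.exists_eq_add_of_lt lt
  have k : ∀ c k, i ≤ k → x ^ (k + c * (d + 1)) = x ^ k := by
    intro c k hk
    obtain ⟨k, rfl⟩ := Nat.exists_eq_add_of_le hk
    induction c with
    | zero => simp
    | succ c ih =>
      rw [show i + k + (c + 1) * (d + 1) = (i + d + 1) + (k + c * (d + 1)) by ring, pow_add, ← h,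
        ← pow_add, ← add_assoc, ih]
  refine ⟨i + d + 1, fun n hn => ?_⟩
  have d1 : d + 1 ∣ (i + d + 1).factorial := Nat.dvd_factorial (by omega) (by omega)
  obtain ⟨c, hc⟩ := (Nat.dvd_sub (d1.trans (Nat.factorial_dvd_factorial hn)) d1)
  have := Nat.factorial_le hn
  rw [← k c (i + d + 1).factorial ((Nat.self_le_factorial _).trans' (by omega))]
  rw [mul_comm c, ← hc, Nat.add_sub_cancel' this]

theorem sin {G : Type} [Group G] [TopologicalSpace G] [IsTopologicalGroup G]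
    (h : ∀ U ∈ 𝓝 (1 : G), ∃ F : Finset G, (F : Set G) * U = Set.univ) :
    ∀ O ∈ 𝓝 (1 : G), ∃ O' ∈ 𝓝 (1 : G), ∀ g, ∀ x ∈ O', g * x * g⁻¹ ∈ O := by
  intro O hO
  obtain ⟨U, hU, h4⟩ := exists_nhds_one_split4 hO
  obtain ⟨F, hF⟩ := h (U ∩ U⁻¹) (inter_mem hU (inv_mem_nhds_one _ hU))
  refine ⟨{x | ∀ f ∈ F, f⁻¹ * x * f ∈ U}, (eventually_all_finset F).2 fun f _ =>
    (by fun_prop : Continuous fun x => f⁻¹ * x * f).continuousAt.preimage_mem_nhds
      (by simpa using hU), fun g x hx => ?_⟩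
  obtain ⟨f, hf, u, hu, e⟩ : g⁻¹ ∈ (F : Set G) * (U ∩ U⁻¹) := hF ▸ trivial
  obtain rfl : g = (f * u)⁻¹ := by rw [show f * u = g⁻¹ from e, inv_inv]
  simpa [mul_assoc] using h4 hu.2 (hx f hf) hu.1 (mem_of_mem_nhds hU)

theorem precompact : ¬ (∀ (G : Type) [Group G],
      Cardinal.mk G ≤ 2 ^ Cardinal.continuum →
      (∃ t : TopologicalSpace G,
        @IsTopologicalGroup G t _ ∧ @T2Space G t ∧
          ∀ U ∈ @nhds G t 1, ∃ F : Finset G, (F : Set G) * U = Set.univ) →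
      ∀ ℰ : Set (Set G), ℰ.Countable →
        ∃ t : TopologicalSpace G,
          (@IsTopologicalGroup G t _ ∧ @T2Space G t ∧
            ∀ U ∈ @nhds G t 1, ∃ F : Finset G, (F : Set G) * U = Set.univ) ∧
          ∀ E ∈ ℰ,
            @closure G t E =
              ⋂₀ {C : Set G | E ⊆ C ∧
                ∀ s : TopologicalSpace G,
                  (@IsTopologicalGroup G s _ ∧ @T2Space G s ∧
                    ∀ U ∈ @nhds G s 1, ∃ F : Finset G, (F : Set G) * U = Set.univ) →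
                  @IsClosed G s C}) := by
  intro h
  have : Countable HZ := Function.Injective.countable (f := fun g : HZ => (g.x, g.y, g.z))
    fun g g' e => by simp only [Prod.mk.injEq] at e; exact H.ext e.1 e.2.1 e.2.2
  let c : ℤ → HZ := fun v => ⟨0, 0, v⟩
  let a : ℕ → ℤ := fun n => 3 ^ n.factorial
  let A : Set HZ := Set.range fun n => c (a n)
  let B : Set HZ := Set.range fun n => c (1 - a n)
  obtain ⟨t, ⟨tg, t2, tp⟩, ht⟩ := h HZ (Cardinal.mk_le_aleph0.trans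
    (Cardinal.aleph0_le_continuum.trans (Cardinal.cantor _).le))
    ((padic (p := 2) one_lt_two).imp fun _ h => h.1) {A, B} (Set.toFinite _).countable
  have up : ∀ E ∈ ({A, B} : Set (Set HZ)), ∀ p : ℕ, 1 < p →
      (∀ n, ∃ v, (p : ℤ) ^ n ∣ v ∧ c v ∈ E) → (1 : HZ) ∈ closure E := by
    intro E hE p hp hv
    obtain ⟨s, hs, hs'⟩ := padic hp
    rw [ht E hE]
    rintro C ⟨h1, h2⟩
    refine @closure_minimal _ s _ _ h1 (h2 s hs) _ ((@mem_closure_iff_nhds _ s _ _).2 fun O hO => ?_)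
    obtain ⟨n, hn⟩ := hs' O hO
    obtain ⟨v, v1, v2⟩ := hv n
    exact ⟨_, hn v v1, v2⟩
  have ha := up A (.inl rfl) 3 (by omega) fun n =>
    ⟨_, pow_dvd_pow _ (Nat.self_le_factorial n), n, rfl⟩
  have hb := up B (.inr rfl) 2 (by omega) fun n => ⟨_, ?_, (2 ^ n).totient, rfl⟩
  swap
  · obtain ⟨k, hk⟩ := Nat.dvd_factorial (Nat.totient_pos.2 (by positivity : 0 < 2 ^ n)) le_rfl
    have := (Nat.ModEq.pow_totient (Nat.Coprime.pow_right n (by decide : Nat.Coprime 3 2))).pow k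
    rw [← pow_mul, ← hk, one_pow] at this
    simpa [a] using this.dvd
  have big : ∀ v : ℕ → ℤ, (∀ n, v n ≠ 0) → (1 : HZ) ∈ closure (Set.range fun n => c (v n)) →
      ∀ O ∈ 𝓝 (1 : HZ), ∀ N, ∃ n ≥ N, c (v n) ∈ O := by
    intro v v0 hv O hO N
    have : ((fun n => c (v n)) '' Set.Iio N)ᶜ ∈ 𝓝 (1 : HZ) :=
      ((Set.finite_Iio N).image _).isClosed.isOpen_compl.mem_nhds
        fun ⟨n, _, e⟩ => v0 n (congrArg H.z e)
    obtain ⟨_, ⟨h1, h2⟩, n, rfl⟩ := mem_closure_iff_nhds.1 hv _ (inter_mem hO this)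
    exact ⟨n, not_lt.1 fun hn => h2 ⟨n, hn, rfl⟩, h1⟩
  obtain ⟨O, hO, h4⟩ := exists_nhds_one_split4 (show ({c 1}ᶜ : Set HZ) ∈ 𝓝 1 from
    isOpen_compl_singleton.mem_nhds fun e => zero_ne_one (congrArg H.z e))
  obtain ⟨O1, hO1, s1⟩ := sin tp O hO
  obtain ⟨O2, hO2, s2⟩ := exists_nhds_split_inv (inter_mem (inv_mem_nhds_one _ hO) hO1)
  obtain ⟨F, hF⟩ := tp O2⁻¹ (inv_mem_nhds_one _ hO2)
  choose f hf u hu e using fun i : ℕ => show (⟨-i, 0, 0⟩ : HZ) ∈ (F : Set HZ) * O2⁻¹ from hF ▸ trivial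
  obtain ⟨i, j, hij, hh⟩ := Finite.exists_ne_map_eq_of_infinite fun i => (⟨f i, hf i⟩ : F)
  have hh : f i = f j := congrArg Subtype.val hh
  have m1 := s2 _ (hu i) _ (hu j)
  have : (u i)⁻¹ / (u j)⁻¹ = ⟨i - j, 0, 0⟩ := by
    rw [eq_inv_mul_iff_mul_eq.2 (e i), eq_inv_mul_iff_mul_eq.2 (e j), hh, div_inv_eq_mul,
      mul_inv_rev, inv_inv, mul_assoc, mul_inv_cancel_left]
    ext1 <;> simp
    ring
  rw [this] at m1
  have m0 : ((i : ℤ) - j).natAbs ≠ 0 := by omega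
  have : NeZero ((i : ℤ) - j).natAbs := ⟨m0⟩
  obtain ⟨N, hN⟩ := fact_pow (3 : ZMod ((i : ℤ) - j).natAbs)
  obtain ⟨n, n1, n2⟩ := big a (fun n => by positivity) ha O hO N
  obtain ⟨m, k1, k2⟩ := big (fun n => 1 - a n) (fun n => (sub_neg.2
    (one_lt_pow₀ (by omega) n.factorial_ne_zero)).ne) hb O hO N
  obtain ⟨k, hk⟩ : (i : ℤ) - j ∣ a n - a m := by
    rw [← Int.natAbs_dvd, ← ZMod.intCast_eq_intCast_iff_dvd_sub]
    simp [a, hN n n1, hN m k1]
  refine h4 n2 k2 (s1 ⟨0, k, 0⟩ _ m1.2) m1.1 ?_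
  rw [mul_assoc, comm_eq]
  ext1 <;> simp [c]
  linarith

end Pool.Agent.H23.Heis
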