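import Mathlib

set_option autoImplicit false

open Finset

namespace Pool.Agent.H23.Hru

section gen
variable {W : Type}

open Classical in
noncomputable def ec (E : W → W → Prop) (X : Finset W) : ℕ :=
  ((X ×ˢ X).filter fun p => E p.1 p.2).card

noncomputable def δ (E : W → W → Prop) (X : Finset W) : ℤ := 2 * X.card - ec E X

def K (E : W → W → Prop) (S : Set W) : Prop :=
  ∀ X : Finset W, ↑X ⊆ S → X.Nonempty → ∃ d : ℕ, (d : ℤ) ≤ δ E X ∧ 2 ≤ d ∧ 8 * X.card ≤ 2 ^ d + 8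

open Classical in
noncomputable def fl (X : Finset W) (S : Set W) : Finset W := X.filter (· ∈ S)

@[simp] theorem mem_fl {X : Finset W} {S : Set W} {x : W} : x ∈ fl X S ↔ x ∈ X ∧ x ∈ S := by
  simp [fl]

theorem fl_sub (X : Finset W) (S : Set W) : ↑(fl X S) ⊆ S := fun _ hx => (mem_fl.1 hx).2

theorem fl_sub' (X : Finset W) (S : Set W) : fl X S ⊆ X := fun _ hx => (mem_fl.1 hx).1

def Cl (E : W → W → Prop) (A S : Set W) : Prop :=
  ∀ X : Finset W, ↑X ⊆ S → ¬ ↑X ⊆ A → δ E (fl X A) < δ E X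

variable {E : W → W → Prop}

@[simp] theorem δ_empty : δ E ∅ = 0 := by simp [δ, ec]

theorem δ_le (X : Finset W) : δ E X ≤ 2 * X.card := by unfold δ; omega

theorem δ_map {W' : Type} [DecidableEq W'] {F : W' → W' → Prop} (ψ : W → W') (X : Finset W)
    (hi : Set.InjOn ψ X) (he : ∀ x ∈ X, ∀ y ∈ X, F (ψ x) (ψ y) ↔ E x y) :
    δ F (X.image ψ) = δ E X := by
  classical
  unfold δ ec
  rw [card_image_of_injOn hi]
  congr 2
  symm
  refine card_bij (fun p _ => (ψ p.1, ψ p.2)) ?_ ?_ ?_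
  · intro p hp
    simp only [mem_filter, mem_product] at hp ⊢
    exact ⟨⟨mem_image_of_mem _ hp.1.1, mem_image_of_mem _ hp.1.2⟩, (he _ hp.1.1 _ hp.1.2).2 hp.2⟩
  · intro p hp q hq h
    simp only [mem_filter, mem_product, Prod.mk.injEq] at hp hq h
    exact Prod.ext (hi hp.1.1 hq.1.1 h.1) (hi hp.1.2 hq.1.2 h.2)
  · intro q hq
    simp only [mem_filter, mem_product, mem_image] at hq
    obtain ⟨⟨⟨a, ha, e1⟩, ⟨b, hb, e2⟩⟩, h⟩ := hq
    refine ⟨(a, b), ?_, Prod.ext e1 e2⟩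
    simp only [mem_filter, mem_product]
    exact ⟨⟨ha, hb⟩, (he a ha b hb).1 (by rw [e1, e2]; exact h)⟩

theorem δ_congr {F : W → W → Prop} (X : Finset W) (he : ∀ x ∈ X, ∀ y ∈ X, F x y ↔ E x y) :
    δ F X = δ E X := by
  classical
  have := δ_map (E := E) (F := F) id X (Set.injOn_id _) he
  rwa [image_id] at this

theorem K.congr {F : W → W → Prop} {S : Set W} (h : K E S)
    (he : ∀ x ∈ S, ∀ y ∈ S, F x y ↔ E x y) : K F S := fun X hX hne => by
  rw [δ_congr X fun x hx y hy => he x (hX hx) y (hX hy)]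
  exact h X hX hne

theorem Cl.congr {F : W → W → Prop} {A S : Set W} (h : Cl E A S)
    (he : ∀ x ∈ S, ∀ y ∈ S, F x y ↔ E x y) : Cl F A S := fun X hX hne => by
  rw [δ_congr X fun x hx y hy => he x (hX hx) y (hX hy),
    δ_congr (E := E) _ fun x hx y hy => he x (hX (mem_fl.1 hx).1) y (hX (mem_fl.1 hy).1)]
  exact h X hX hne

theorem K.mono {S T : Set W} (h : K E S) (hT : T ⊆ S) : K E T := fun X hX => h X (hX.trans hT)

theorem Cl.mono {A S T : Set W} (h : Cl E A S) (hT : T ⊆ S) : Cl E A T :=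
  fun X hX => h X (hX.trans hT)

theorem sub_aux [DecidableEq W] (X Y : Finset W) :
    ec E X + ec E Y ≤ ec E (X ∪ Y) + ec E (X ∩ Y) ∧
    ((∀ x ∈ X ∪ Y, ∀ y ∈ X ∪ Y, E x y → (x ∈ X ∧ y ∈ X) ∨ (x ∈ Y ∧ y ∈ Y)) →
      ec E X + ec E Y = ec E (X ∪ Y) + ec E (X ∩ Y)) := by
  classical
  unfold ec
  rw [← card_union_add_card_inter]
  have h1 : ((X ×ˢ X).filter fun p => E p.1 p.2) ∩ ((Y ×ˢ Y).filter fun p => E p.1 p.2) =
      (((X ∩ Y) ×ˢ (X ∩ Y)).filter fun p => E p.1 p.2) := by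
    ext p; simp only [mem_inter, mem_filter, mem_product]; tauto
  have h2 : ((X ×ˢ X).filter fun p => E p.1 p.2) ∪ ((Y ×ˢ Y).filter fun p => E p.1 p.2) ⊆
      (((X ∪ Y) ×ˢ (X ∪ Y)).filter fun p => E p.1 p.2) := by
    intro p; simp only [mem_union, mem_filter, mem_product]; tauto
  rw [h1]
  refine ⟨by have := card_le_card h2; convert Nat.add_le_add_right this _, fun h => ?_⟩
  congr 2
  refine subset_antisymm (by convert h2) fun p hp => ?_
  simp only [mem_filter, mem_product] at hp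
  have := h _ hp.1.1 _ hp.1.2 hp.2
  simp only [mem_union, mem_filter, mem_product]
  tauto

theorem submod [DecidableEq W] (X Y : Finset W) :
    δ E (X ∪ Y) + δ E (X ∩ Y) ≤ δ E X + δ E Y := by
  have h1 := (sub_aux (E := E) X Y).1
  have h2 := card_union_add_card_inter X Y
  unfold δ
  omega

theorem modular [DecidableEq W] (X Y : Finset W)
    (h : ∀ x ∈ X ∪ Y, ∀ y ∈ X ∪ Y, E x y → (x ∈ X ∧ y ∈ X) ∨ (x ∈ Y ∧ y ∈ Y)) :
    δ E (X ∪ Y) + δ E (X ∩ Y) = δ E X + δ E Y := by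
  have h1 := (sub_aux (E := E) X Y).2 h
  have h2 := card_union_add_card_inter X Y
  unfold δ
  omega

theorem Cl.le {A S : Set W} (h : Cl E A S) (X : Finset W) (hX : ↑X ⊆ S) :
    δ E (fl X A) ≤ δ E X := by
  by_cases hA : ↑X ⊆ A
  · have : fl X A = X := by ext x; simp only [mem_fl]; exact ⟨(·.1), fun h => ⟨h, hA h⟩⟩
    rw [this]
  · exact (h X hX hA).le

theorem Cl.trans {A B S : Set W} (hAB : A ⊆ B) (h1 : Cl E A B) (h2 : Cl E B S) : Cl E A S := by
  intro X hX hA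
  have e : fl X A = fl (fl X B) A := by
    ext x; simp only [mem_fl]; exact ⟨fun h => ⟨⟨h.1, hAB h.2⟩, h.2⟩, fun h => ⟨h.1.1, h.2⟩⟩
  by_cases hB : ↑X ⊆ B
  · exact h1 X hB hA
  · rw [e]
    exact (h1.le _ (fl_sub _ _)).trans_lt (h2 X hX hB)

/-- no edges across -/
def Free (E : W → W → Prop) (B C : Set W) : Prop :=
  ∀ x ∈ B ∪ C, ∀ y ∈ B ∪ C, E x y → (x ∈ B ∧ y ∈ B) ∨ (x ∈ C ∧ y ∈ C)

theorem Free.symm {B C : Set W} (h : Free E B C) : Free E C B := fun x hx y hy e =>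
  (h x (Set.union_comm C B ▸ hx) y (Set.union_comm C B ▸ hy) e).symm

theorem split {B C : Set W} (h : Free E B C) (X : Finset W) (hX : ↑X ⊆ B ∪ C) :
    δ E X + δ E (fl (fl X C) (B ∩ C)) = δ E (fl X B) + δ E (fl X C) ∧
    X.card + (fl (fl X C) (B ∩ C)).card = (fl X B).card + (fl X C).card := by
  classical
  have e1 : fl X B ∪ fl X C = X := by
    ext x; simp only [mem_union, mem_fl]
    exact ⟨fun h => h.elim (·.1) (·.1), fun h => (hX h).imp (⟨h, ·⟩) (⟨h, ·⟩)⟩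
  have e2 : fl X B ∩ fl X C = fl (fl X C) (B ∩ C) := by
    ext x; simp only [mem_inter, mem_fl, Set.mem_inter_iff]; tauto
  constructor
  · have := modular (E := E) (fl X B) (fl X C) (by
      rw [e1]
      intro x hx y hy e
      simp only [mem_fl]
      have := h x (hX hx) y (hX hy) e
      tauto)
    rwa [e1, e2] at this
  · have := card_union_add_card_inter (fl X B) (fl X C)
    rwa [e1, e2] at this

theorem amal_cl {B C : Set W} (h : Free E B C) (hC : Cl E (B ∩ C) C) : Cl E B (B ∪ C) := by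
  intro X hX hB
  obtain ⟨a, -⟩ := split h X hX
  have := hC (fl X C) (fl_sub _ _) fun h' => hB fun x hx =>
    (hX hx).elim id fun hc => (h' (mem_coe.2 (mem_fl.2 ⟨hx, hc⟩))).1
  omega

theorem amal_K_aux {B C : Set W} (h : Free E B C) (kB : K E B) (kC : K E C)
    (hC : Cl E (B ∩ C) C) (X : Finset W) (hX : ↑X ⊆ B ∪ C) (h1 : ¬ ↑X ⊆ B)
    (h2 : (fl X C).card ≤ (fl X B).card) :
    ∃ d : ℕ, (d : ℤ) ≤ δ E X ∧ 2 ≤ d ∧ 8 * X.card ≤ 2 ^ d + 8 := by
  obtain ⟨a, b⟩ := split h X hX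
  obtain ⟨x, hx, hx'⟩ := Set.not_subset.1 h1
  have hxC : x ∈ fl X C := mem_fl.2 ⟨hx, (hX hx).resolve_left hx'⟩
  have n1 : (fl X B).Nonempty := card_pos.1 ((card_pos.2 ⟨x, hxC⟩).trans_le h2)
  obtain ⟨d, d1, d2, d3⟩ := kB (fl X B) (fl_sub _ _) n1
  by_cases hA : fl (fl X C) (B ∩ C) = ∅
  · obtain ⟨d', e1, e2, -⟩ := kC (fl X C) (fl_sub _ _) ⟨x, hxC⟩
    rw [hA] at a b
    simp only [δ_empty, card_empty] at a b
    have : 2 ^ 2 ≤ 2 ^ d := Nat.pow_le_pow_right (by norm_num) d2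
    refine ⟨d + 2, by push_cast; omega, by omega, ?_⟩
    rw [pow_add]
    omega
  · have e := hC (fl X C) (fl_sub _ _) fun h' => hx' (h' hxC).1
    have := card_pos.2 (nonempty_iff_ne_empty.2 hA)
    refine ⟨d + 1, by push_cast; omega, by omega, ?_⟩
    rw [pow_succ]
    omega

theorem amal_K {B C : Set W} (h : Free E B C) (kB : K E B) (kC : K E C)
    (hB : Cl E (B ∩ C) B) (hC : Cl E (B ∩ C) C) : K E (B ∪ C) := by
  intro X hX hne
  by_cases h1 : ↑X ⊆ B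
  · exact kB X h1 hne
  by_cases h2 : ↑X ⊆ C
  · exact kC X h2 hne
  rcases le_total (fl X C).card (fl X B).card with h3 | h3
  · exact amal_K_aux h kB kC hC X hX h1 h3
  · exact amal_K_aux h.symm kC kB (Set.inter_comm B C ▸ hB) X (Set.union_comm B C ▸ hX) h2 h3

theorem cl_empty {S : Set W} (h : K E S) : Cl E ∅ S := fun X hX hne => by
  obtain ⟨x, hx, -⟩ := Set.not_subset.1 hne
  obtain ⟨d, d1, d2, -⟩ := h X hX ⟨x, hx⟩
  have : fl X ∅ = ∅ := by ext; simp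
  rw [this, δ_empty]
  omega

theorem K_iso {S : Set W} (h : ∀ x ∈ S, ∀ y ∈ S, ¬ E x y) : K E S := fun X hX hne => by
  have h1 : ec E X = 0 := by
    classical
    unfold ec
    rw [card_eq_zero, filter_eq_empty_iff]
    intro p hp
    exact h _ (hX (mem_product.1 hp).1) _ (hX (mem_product.1 hp).2)
  have h2 := card_pos.2 hne
  refine ⟨2 * X.card, by simp [δ, h1], by omega, ?_⟩
  have : ∀ n : ℕ, 8 * n ≤ 2 ^ (2 * n) + 8 := by
    intro n
    induction n with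
    | zero => simp
    | succ n ih =>
      rcases n with _ | n
      · norm_num
      · have : 2 ^ 2 ≤ 2 ^ (2 * (n + 1)) := Nat.pow_le_pow_right (by norm_num) (by omega)
        rw [show 2 * (n + 1 + 1) = 2 * (n + 1) + 2 by ring, pow_add]
        omega
  exact this _

/-- adding isolated points -/
theorem add_iso {B N : Set W} (kB : K E B) (hd : Disjoint B N)
    (h : ∀ x ∈ B ∪ N, ∀ y ∈ B ∪ N, E x y → x ∈ B ∧ y ∈ B) : K E (B ∪ N) ∧ Cl E B (B ∪ N) := by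
  have f : Free E B N := fun x hx y hy e => Or.inl (h x hx y hy e)
  have kN : K E N := K_iso fun x hx y hy e =>
    Set.disjoint_left.1 hd (h x (Or.inr hx) y (Or.inr hy) e).1 hx
  have e : B ∩ N = ∅ := hd.inter_eq
  exact ⟨amal_K f kB kN (e ▸ cl_empty kB) (e ▸ cl_empty kN), amal_cl f (e ▸ cl_empty kN)⟩

theorem K_map {W' : Type} {F : W' → W' → Prop} (ψ : W → W') {B : Set W}
    (hi : Set.InjOn ψ B) (he : ∀ x ∈ B, ∀ y ∈ B, F (ψ x) (ψ y) ↔ E x y) (h : K E B) :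
    K F (ψ '' B) := by
  classical
  intro X hX hne
  obtain ⟨Y, hY, rfl⟩ := Finset.subset_set_image_iff.1 hX
  rw [δ_map (E := E) ψ Y (hi.mono hY) (fun x hx y hy => he x (hY hx) y (hY hy)),
    card_image_of_injOn (hi.mono hY)]
  exact h Y hY (by simpa using hne)

theorem Cl_map {W' : Type} {F : W' → W' → Prop} (ψ : W → W') {A B : Set W} (hAB : A ⊆ B)
    (hi : Set.InjOn ψ B) (he : ∀ x ∈ B, ∀ y ∈ B, F (ψ x) (ψ y) ↔ E x y) (h : Cl E A B) :
    Cl F (ψ '' A) (ψ '' B) := by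
  classical
  intro X hX hne
  obtain ⟨Y, hY, rfl⟩ := Finset.subset_set_image_iff.1 hX
  have e : fl (Y.image ψ) (ψ '' A) = (fl Y A).image ψ := by
    ext z
    simp only [mem_fl, mem_image, Set.mem_image]
    constructor
    · rintro ⟨⟨y, hy, rfl⟩, a, ha, e⟩
      exact ⟨y, ⟨hy, hi (hAB ha) (hY hy) e ▸ ha⟩, rfl⟩
    · rintro ⟨y, ⟨hy, ha⟩, rfl⟩
      exact ⟨⟨y, hy, rfl⟩, y, ha, rfl⟩
  have s : ↑(fl Y A) ⊆ B := fun x hx => hY (mem_fl.1 hx).1
  have := h Y hY fun h' => hne (by rw [coe_image]; exact Set.image_mono h')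
  have e1 := δ_map (E := E) ψ Y (hi.mono hY) (fun x hx y hy => he x (hY hx) y (hY hy))
  have e2 := δ_map (E := E) ψ _ (hi.mono s) (fun x hx y hy => he x (s hx) y (s hy))
  rw [e, e1, e2]; exact this

/-- closures exist -/
theorem closure [DecidableEq W] (h : K E Set.univ) (A : Finset W) :
    ∃ B : Finset W, A ⊆ B ∧ Cl E ↑B Set.univ ∧ (∀ X, A ⊆ X → δ E B ≤ δ E X) ∧
      B.card ≤ 2 ^ (2 * A.card) + 1 := by
  classical
  have h0 : ∀ X : Finset W, 0 ≤ δ E X := fun X => by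
    rcases X.eq_empty_or_nonempty with rfl | hne
    · simp
    · obtain ⟨d, d1, -⟩ := h X (Set.subset_univ _) hne
      omega
  obtain ⟨m, ⟨B0, b1, b2⟩, hm⟩ := Int.exists_least_of_bdd (P := fun m => ∃ X, A ⊆ X ∧ δ E X = m)
    ⟨0, fun z ⟨X, _, e⟩ => e ▸ h0 X⟩ ⟨_, A, subset_rfl, rfl⟩
  have bd : ∀ X : Finset W, δ E X = m → X.card ≤ 2 ^ (2 * A.card) + 1 := fun X e => by
    rcases X.eq_empty_or_nonempty with rfl | hne
    · simp
    · obtain ⟨d, d1, -, d3⟩ := h X (Set.subset_univ _) hne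
      have a1 := hm _ ⟨A, subset_rfl, rfl⟩
      have a2 := δ_le (E := E) A
      have : 2 ^ d ≤ 2 ^ (2 * A.card) := Nat.pow_le_pow_right (by norm_num) (by omega)
      have : 0 < 2 ^ d := by positivity
      omega
  obtain ⟨n, ⟨B, c1, c2, c3⟩, hn⟩ := Int.exists_greatest_of_bdd
    (P := fun n => ∃ X, A ⊆ X ∧ δ E X = m ∧ (X.card : ℤ) = n)
    ⟨(2 ^ (2 * A.card) + 1 : ℕ), fun z ⟨X, _, e, e'⟩ => e' ▸ Int.ofNat_le.2 (bd X e)⟩
    ⟨_, B0, b1, b2, rfl⟩
  refine ⟨B, c1, fun X _ hX => ?_, fun X hX => c2 ▸ hm _ ⟨X, hX, rfl⟩, bd B c2⟩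
  have s := submod (E := E) X B
  have e : fl X (B : Set W) = X ∩ B := by ext; simp
  have a1 := hm _ ⟨X ∪ B, c1.trans subset_union_right, rfl⟩
  have a2 : δ E (X ∪ B) ≠ m := fun e' => by
    have := hn _ ⟨X ∪ B, c1.trans subset_union_right, e', rfl⟩
    have h3 : B ⊂ X ∪ B := ⟨subset_union_right, fun h4 => hX fun x hx =>
      h4 (mem_union_left _ hx)⟩
    have := card_lt_card h3
    omega
  rw [e]; omega

end gen

end Pool.Agent.H23.Hru
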