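import Mathlib
import Pool.Agent.H23.Hru1

set_option autoImplicit false

open Set

namespace Pool.Agent.H23.Hru

abbrev V := ℕ × ℕ

abbrev Task := (ℕ →₀ ℤ) × Finset ((V ⊕ ℕ) × (V ⊕ ℕ))

theorem exists_code : ∃ code : ℕ → Task, ∀ τ N, ∃ n, N ≤ n ∧ code n = τ := by
  obtain ⟨f, hf⟩ := exists_surjective_nat (Task × ℕ)
  refine ⟨fun n => (f n).1, fun τ N => ?_⟩
  choose g hg using hf
  have hinf : (range fun i : ℕ => g (τ, i)).Infinite :=
    infinite_range_of_injective fun i j hij => by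
      have := congrArg f hij
      simpa [hg] using this
  obtain ⟨_, ⟨i, rfl⟩, hi⟩ := hinf.exists_gt N
  exact ⟨_, hi.le, by simp [hg]⟩

noncomputable def code : ℕ → Task := exists_code.choose

noncomputable def lev (x : V) : ℤ := (code x.1).1 x.2

def cd (t : ℕ) (x : V) : V ⊕ ℕ := if x.1 = t then Sum.inr x.2 else Sum.inl x

theorem cd_inj (t : ℕ) : Function.Injective (cd t) := by
  intro x y h
  unfold cd at h
  split_ifs at h with h1 h2 h2
  · exact Prod.ext (h1.trans h2.symm) (Sum.inr_injective h)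
  · exact Sum.inl_injective h

def newE (t : ℕ) (x y : V) : Prop :=
  (x.1 = t ∨ y.1 = t) ∧ x.1 ≤ t ∧ y.1 ≤ t ∧ (cd t x, cd t y) ∈ (code t).2

def C (t : ℕ) : Set V := {x | x.1 < t}

def good (t : ℕ) (E : V → V → Prop) : Prop :=
  K (fun x y => E x y ∨ newE t x y) (C (t + 1)) ∧
    Cl (fun x y => E x y ∨ newE t x y) (C t) (C (t + 1)) ∧ ∀ x y, newE t x y → lev y = lev x + 1

def Es : ℕ → V → V → Prop
  | 0 => fun _ _ => False
  | t + 1 => fun x y => Es t x y ∨ (good t (Es t) ∧ newE t x y)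

def E (x y : V) : Prop := ∃ t, Es t x y

theorem Es_mem : ∀ t x y, Es t x y → x.1 < t ∧ y.1 < t
  | 0, _, _, h => h.elim
  | t + 1, x, y, h => by
    rcases h with h | ⟨-, -, h1, h2, -⟩
    · have := Es_mem t x y h; omega
    · omega

theorem Es_mono {s t : ℕ} (h : s ≤ t) {x y : V} (e : Es s x y) : Es t x y := by
  induction h with
  | refl => exact e
  | step _ ih => exact Or.inl ih

theorem Es_back {s t : ℕ} (h : s ≤ t) {x y : V} (hx : x.1 < s) (hy : y.1 < s) (e : Es t x y) :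
    Es s x y := by
  induction h with
  | refl => exact e
  | step h ih =>
    rcases e with e | ⟨-, e, -⟩
    · exact ih e
    · have : s ≤ _ := h
      omega

theorem E_iff {t : ℕ} {x y : V} (hx : x ∈ C t) (hy : y ∈ C t) : E x y ↔ Es t x y :=
  ⟨fun ⟨s, h⟩ => (le_total s t).elim (fun a => Es_mono a h) (fun a => Es_back a hx hy h),
    fun h => ⟨t, h⟩⟩

theorem E_lev {x y : V} : E x y → lev y = lev x + 1 := by
  rintro ⟨t, h⟩
  induction t with
  | zero => exact h.elim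
  | succ t ih =>
    rcases h with h | ⟨g, h⟩
    · exact ih h
    · exact g.2.2 x y h

theorem C_sub {s t : ℕ} (h : s ≤ t) : C s ⊆ C t := fun _ hx => lt_of_lt_of_le hx h

theorem stage (t : ℕ) : K E (C t) ∧ (K E (C (t + 1)) ∧ Cl E (C t) (C (t + 1))) := by
  have step : ∀ t, K E (C t) → K E (C (t + 1)) ∧ Cl E (C t) (C (t + 1)) := by
    intro t ih
    by_cases g : good t (Es t)
    · have : ∀ x ∈ C (t + 1), ∀ y ∈ C (t + 1), E x y ↔ (Es t x y ∨ newE t x y) :=
        fun x hx y hy => by rw [E_iff hx hy]; simp [Es, g]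
      exact ⟨g.1.congr this, g.2.1.congr this⟩
    · have e : C t ∪ (C (t + 1) \ C t) = C (t + 1) := union_sdiff_cancel (C_sub (by omega))
      have := add_iso (E := E) (N := C (t + 1) \ C t) ih disjoint_sdiff_right (by
        rw [e]
        intro x hx y hy h
        rw [E_iff hx hy] at h
        simp only [Es, g, false_and, or_false] at h
        exact Es_mem t x y h)
      rwa [e] at this
  have : ∀ t, K E (C t) := fun t => by
    induction t with
    | zero => intro X hX ⟨x, hx⟩; exact absurd (hX hx) (Nat.not_lt_zero _)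
    | succ t ih => exact (step t ih).1
  exact ⟨this t, step t (this t)⟩

theorem exists_C (X : Finset V) : ∃ t, ↑X ⊆ C t :=
  ⟨X.sup Prod.fst + 1, fun _ hx => Nat.lt_succ_of_le (Finset.le_sup (f := Prod.fst) hx)⟩

theorem K_univ : K E univ := fun X _ hne => by
  obtain ⟨t, ht⟩ := exists_C X
  exact (stage t).1 X ht hne

theorem Cl_C (t : ℕ) : Cl E (C t) univ := fun X _ hX => by
  obtain ⟨s, hs⟩ := exists_C X
  have : ∀ n, Cl E (C t) (C (t + n)) := fun n => by
    induction n with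
    | zero => exact fun X h1 h2 => absurd h1 h2
    | succ n ih => exact ih.trans (C_sub (by omega)) (stage (t + n)).2.2
  exact this s X (hs.trans (C_sub (by omega))) hX

/-- an embedding on a set, preserving edges and levels -/
structure Emb {W : Type} (F : W → W → Prop) (lv : W → ℤ) (ψ : W → V) (B : Set W) : Prop where
  inj : InjOn ψ B
  edge : ∀ x ∈ B, ∀ y ∈ B, E (ψ x) (ψ y) ↔ F x y
  lev : ∀ x ∈ B, lev (ψ x) = lv x
  cl : Cl E (ψ '' B) univ

theorem ext {W : Type} {F : W → W → Prop} {lv : W → ℤ} {ψ : W → V} {A B : Finset W}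
    (hAB : A ⊆ B) (kB : K F ↑B) (cB : Cl F ↑A ↑B)
    (lB : ∀ x ∈ B, ∀ y ∈ B, F x y → lv y = lv x + 1) (h : Emb F lv ψ ↑A) (T : ℕ) :
    ∃ ψ' : W → V, EqOn ψ' ψ ↑A ∧ Emb F lv ψ' ↑B ∧ ∀ b ∈ B, b ∉ A → T ≤ (ψ' b).1 := by
  classical
  obtain ⟨idx, hidx⟩ := Set.countable_iff_exists_injOn.1 B.countable_toSet
  obtain ⟨t0, ht0⟩ := exists_C (A.image ψ)
  set θ : W → V ⊕ ℕ := fun w => if w ∈ A then Sum.inl (ψ w) else Sum.inr (idx w) with hθ
  obtain ⟨t, ht, hc⟩ := exists_code.choose_spec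
    (∑ b ∈ B, Finsupp.single (idx b) (lv b),
      ((B ×ˢ B).filter fun p => F p.1 p.2).image fun p => (θ p.1, θ p.2)) (max T t0)
  change code t = _ at hc
  set ψ' : W → V := fun w => if w ∈ A then ψ w else (t, idx w) with hψ
  have hA : ∀ a ∈ A, (ψ a).1 < t := fun a ha =>
    lt_of_lt_of_le (ht0 (Finset.mem_coe.2 (Finset.mem_image_of_mem _ ha))) (le_of_max_le_right ht)
  have e1 : ∀ a ∈ A, ψ' a = ψ a := fun a ha => if_pos ha
  have e2 : ∀ a, a ∉ A → ψ' a = (t, idx a) := fun a ha => if_neg ha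
  have hcd : ∀ w, cd t (ψ' w) = θ w := fun w => by
    by_cases hw : w ∈ A
    · simp only [e1 w hw, hθ, if_pos hw, cd, if_neg (hA w hw).ne]
    · simp only [e2 w hw, hθ, if_neg hw, cd, if_true]
  have inj : InjOn ψ' ↑B := fun u hu v hv e => by
    by_cases h1 : u ∈ A <;> by_cases h2 : v ∈ A
    · rw [e1 u h1, e1 v h2] at e; exact h.inj h1 h2 e
    · rw [e1 u h1, e2 v h2] at e; have := hA u h1; rw [e] at this; exact absurd this (lt_irrefl _)
    · rw [e2 u h1, e1 v h2] at e; have := hA v h2; rw [← e] at this; exact absurd this (lt_irrefl _)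
    · rw [e2 u h1, e2 v h2] at e; exact hidx hu hv (Prod.ext_iff.1 e).2
  have hle : ∀ w, (ψ' w).1 ≤ t := fun w => by
    by_cases hw : w ∈ A
    · rw [e1 w hw]; exact (hA w hw).le
    · rw [e2 w hw]
  have hlev : ∀ w ∈ B, lev (ψ' w) = lv w := fun w hw => by
    by_cases h1 : w ∈ A
    · rw [e1 w h1]; exact h.lev w h1
    · rw [e2 w h1]
      simp only [lev, hc, Finsupp.finsetSum_apply]
      rw [Finset.sum_eq_single w]
      · simp
      · intro b hb hne
        exact Finsupp.single_eq_of_ne' fun e => hne (hidx hb hw e)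
      · exact fun h => absurd hw h
  have hnew : ∀ x y, (cd t x, cd t y) ∈ (code t).2 ↔
      ∃ u ∈ B, ∃ v ∈ B, F u v ∧ ψ' u = x ∧ ψ' v = y := fun x y => by
    simp only [hc, Finset.mem_image, Finset.mem_filter, Finset.mem_product, Prod.mk.injEq, ← hcd,
      (cd_inj t).eq_iff]
    exact ⟨fun ⟨p, ⟨⟨a, b⟩, c⟩, d, e⟩ => ⟨_, a, _, b, c, d, e⟩,
      fun ⟨u, a, v, b, c, d, e⟩ => ⟨(u, v), ⟨⟨a, b⟩, c⟩, d, e⟩⟩
  set E' : V → V → Prop := fun x y => Es t x y ∨ newE t x y with hE'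
  have f1 : ∀ u ∈ (B : Set W), ∀ v ∈ (B : Set W), E' (ψ' u) (ψ' v) ↔ F u v := by
    intro u hu v hv
    have a : (∃ u' ∈ B, ∃ v' ∈ B, F u' v' ∧ ψ' u' = ψ' u ∧ ψ' v' = ψ' v) ↔ F u v :=
      ⟨fun ⟨u', a, v', b, c, d, e⟩ => inj a hu d ▸ inj b hv e ▸ c, fun c => ⟨u, hu, v, hv, c, rfl, rfl⟩⟩
    by_cases h1 : u ∈ A ∧ v ∈ A
    · have b1 := hA u h1.1
      have b2 := hA v h1.2
      rw [e1 u h1.1, e1 v h1.2, ← h.edge u h1.1 v h1.2, E_iff (t := t) b1 b2]
      exact ⟨fun c => c.resolve_right fun c => by have := c.1; omega, Or.inl⟩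
    · have b : (ψ' u).1 = t ∨ (ψ' v).1 = t := by
        rcases not_and_or.1 h1 with h1 | h1
        · left; rw [e2 u h1]
        · right; rw [e2 v h1]
      simp only [hE', newE, hnew, a]
      refine ⟨fun c => c.elim (fun c => ?_) (·.2.2.2), fun c => Or.inr ⟨b, hle u, hle v, c⟩⟩
      have := Es_mem t _ _ c
      omega
  have f2 : ∀ x y, E' x y → (x ∈ C t ∧ y ∈ C t) ∨ (x ∈ ψ' '' B ∧ y ∈ ψ' '' B) := by
    rintro x y (c | ⟨-, -, -, c⟩)
    · exact Or.inl (Es_mem t x y c)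
    · obtain ⟨u, a, v, b, -, rfl, rfl⟩ := (hnew x y).1 c
      exact Or.inr ⟨mem_image_of_mem _ a, mem_image_of_mem _ b⟩
  have f3 : C t ∩ ψ' '' B = ψ' '' A := by
    ext x
    constructor
    · rintro ⟨a, w, hw, rfl⟩
      refine mem_image_of_mem _ (by_contra fun h1 => ?_)
      rw [e2 w h1] at a
      exact lt_irrefl t a
    · rintro ⟨w, hw, rfl⟩
      exact ⟨by rw [e1 w hw]; exact hA w hw, mem_image_of_mem _ (hAB hw)⟩
  have f4 : ψ' '' A = ψ '' A := image_congr e1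
  have f5 : ∀ x ∈ C t, ∀ y ∈ C t, E' x y ↔ E x y := fun x hx y hy => by
    rw [E_iff hx hy]
    exact ⟨fun c => c.resolve_right fun c => by
      have := c.1; have : x.1 < t := hx; have : y.1 < t := hy; omega, Or.inl⟩
  have fr : Free E' (C t) (ψ' '' B) := fun x _ y _ e => f2 x y e
  have k1 : K E' (C t) := (stage t).1.congr f5
  have k2 : K E' (ψ' '' B) := K_map ψ' inj f1 kB
  have c1 : Cl E' (C t ∩ ψ' '' B) (C t) := by
    rw [f3, f4]; exact (h.cl.mono (subset_univ _)).congr f5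
  have c2 : Cl E' (C t ∩ ψ' '' B) (ψ' '' B) := by
    rw [f3]; exact Cl_map ψ' hAB inj f1 cB
  have sub : C t ∪ ψ' '' B ⊆ C (t + 1) := by
    rintro x (hx | ⟨w, -, rfl⟩)
    · exact C_sub (by omega) hx
    · exact Nat.lt_succ_of_le (hle w)
  have e : (C t ∪ ψ' '' B) ∪ (C (t + 1) \ (C t ∪ ψ' '' B)) = C (t + 1) := union_sdiff_cancel sub
  have ai := add_iso (E := E') (N := C (t + 1) \ (C t ∪ ψ' '' B)) (amal_K fr k1 k2 c1 c2)
    disjoint_sdiff_right fun x _ y _ c => (f2 x y c).elim (fun c => ⟨Or.inl c.1, Or.inl c.2⟩)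
      fun c => ⟨Or.inr c.1, Or.inr c.2⟩
  rw [e] at ai
  have g : good t (Es t) := by
    refine ⟨ai.1, (amal_cl fr c2).trans subset_union_left ai.2, ?_⟩
    rintro x y ⟨-, -, -, c⟩
    obtain ⟨u, a, v, b, c', rfl, rfl⟩ := (hnew x y).1 c
    rw [hlev u a, hlev v b, lB u a v b c']
  have f6 : ∀ x ∈ C (t + 1), ∀ y ∈ C (t + 1), E x y ↔ E' x y :=
    fun x hx y hy => by rw [E_iff hx hy]; simp [Es, g, hE']
  refine ⟨ψ', e1, ⟨inj, fun u hu v hv => ?_, hlev, ?_⟩, fun b _ hb => ?_⟩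
  · rw [f6 _ (Nat.lt_succ_of_le (hle u)) _ (Nat.lt_succ_of_le (hle v)), f1 u hu v hv]
  · have c3 := amal_cl fr.symm (inter_comm _ _ ▸ c1)
    rw [union_comm] at c3
    exact ((c3.trans subset_union_right ai.2).congr f6).trans
      (subset_union_right.trans sub) (Cl_C _)
  · rw [e2 b hb]; exact le_of_max_le_left ht

end Pool.Agent.H23.Hru
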