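import Mathlib
import Pool.Agent.H23.Hru2

set_option autoImplicit false

open Set

namespace Pool.Agent.H23.Hru

theorem bf {α : Type} [Countable α] [Nonempty α] (P : Set (α × α) → Prop)
    (hb : ∀ R, P R → ∀ p ∈ R, ∀ q ∈ R, p.1 = q.1 ↔ p.2 = q.2)
    (h1 : ∀ R, P R → ∀ x, ∃ R', R ⊆ R' ∧ P R' ∧ ∃ y, (x, y) ∈ R')
    (h2 : ∀ R, P R → ∀ y, ∃ R', R ⊆ R' ∧ P R' ∧ ∃ x, (x, y) ∈ R')
    (R : Set (α × α)) (hR : P R) : ∃ g : Equiv.Perm α, (∀ p ∈ R, g p.1 = p.2) ∧
      ∀ x y, ∃ R', P R' ∧ (x, g x) ∈ R' ∧ (y, g y) ∈ R' := by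
  obtain ⟨en, hen⟩ := exists_surjective_nat α
  have step : ∀ (R : {R // P R}) (x : α), ∃ R' : {R // P R}, R.1 ⊆ R'.1 ∧ (∃ y, (x, y) ∈ R'.1) ∧
      ∃ y, (y, x) ∈ R'.1 := fun R x => by
    obtain ⟨R1, a, b, y, c⟩ := h1 R.1 R.2 x
    obtain ⟨R2, a', b', c'⟩ := h2 R1 b x
    exact ⟨⟨R2, b'⟩, a.trans a', ⟨y, a' c⟩, c'⟩
  choose nx s1 s2 s3 using step
  let S : ℕ → {R // P R} := fun n => Nat.rec ⟨R, hR⟩ (fun n R => nx R (en n)) n
  have mono : Monotone fun n => (S n).1 := monotone_nat_of_le_succ fun n => s1 _ _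
  have d1 : ∀ x, ∃ y n, (x, y) ∈ (S n).1 := fun x => by
    obtain ⟨n, rfl⟩ := hen x
    obtain ⟨y, hy⟩ := s2 (S n) (en n)
    exact ⟨y, n + 1, hy⟩
  have two : ∀ p q : α × α, (∃ n, p ∈ (S n).1) → (∃ n, q ∈ (S n).1) →
      ∃ n, p ∈ (S n).1 ∧ q ∈ (S n).1 := fun p q ⟨m, a⟩ ⟨n, b⟩ =>
    ⟨max m n, mono (le_max_left _ _) a, mono (le_max_right _ _) b⟩
  choose f hf using d1
  have key : ∀ x (p : α × α), (∃ n, p ∈ (S n).1) → (x = p.1 ↔ f x = p.2) := fun x p hp => by
    obtain ⟨n, a, b⟩ := two _ _ (hf x) hp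
    exact hb _ (S n).2 _ a _ b
  refine ⟨Equiv.ofBijective f ⟨fun x y h => (key x _ (hf y)).2 h, fun y => ?_⟩,
    fun p hp => (key _ p ⟨0, hp⟩).1 rfl, fun x y => ?_⟩
  · obtain ⟨n, rfl⟩ := hen y
    obtain ⟨x, hx⟩ := s3 (S n) (en n)
    exact ⟨x, (key x _ ⟨n + 1, hx⟩).1 rfl⟩
  · obtain ⟨n, a, b⟩ := two _ _ (hf x) (hf y)
    exact ⟨_, (S n).2, a, b⟩

structure PI (k : ℤ) (R : Set (V × V)) : Prop where
  fin : R.Finite
  bij : ∀ p ∈ R, ∀ q ∈ R, p.1 = q.1 ↔ p.2 = q.2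
  edge : ∀ p ∈ R, ∀ q ∈ R, E p.2 q.2 ↔ E p.1 q.1
  lev : ∀ p ∈ R, lev p.2 = lev p.1 + k
  c1 : Cl E (Prod.fst '' R) univ
  c2 : Cl E (Prod.snd '' R) univ

theorem PI.symm {k : ℤ} {R : Set (V × V)} (h : PI k R) : PI (-k) (Prod.swap '' R) where
  fin := h.fin.image _
  bij := by rintro _ ⟨p, a, rfl⟩ _ ⟨q, b, rfl⟩; exact (h.bij p a q b).symm
  edge := by rintro _ ⟨p, a, rfl⟩ _ ⟨q, b, rfl⟩; exact (h.edge p a q b).symm
  lev := by rintro _ ⟨p, a, rfl⟩; have := h.lev p a; simp only [Prod.fst_swap, Prod.snd_swap]; omega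
  c1 := by rw [image_image]; exact h.c2
  c2 := by rw [image_image]; exact h.c1

theorem PI.forth {k : ℤ} {R : Set (V × V)} (h : PI k R) (x : V) (T : ℕ) :
    ∃ R', R ⊆ R' ∧ PI k R' ∧ (∃ y, (x, y) ∈ R') ∧ ∀ p ∈ R', p ∉ R → T ≤ p.2.1 := by
  classical
  have : ∀ a : V, ∃ b : V, a ∈ Prod.fst '' R → (a, b) ∈ R := fun a => by
    by_cases ha : a ∈ Prod.fst '' R
    · obtain ⟨p, hp, rfl⟩ := ha
      exact ⟨p.2, fun _ => hp⟩
    · exact ⟨a, fun h => absurd h ha⟩
  choose ψ hψ using this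
  set A := (h.fin.image Prod.fst).toFinset with hA
  have eA : (A : Set V) = Prod.fst '' R := Finite.coe_toFinset _
  obtain ⟨B, b1, b2, -⟩ := closure K_univ (insert x A)
  have hp : ∀ p ∈ R, ψ p.1 = p.2 := fun p hp =>
    (h.bij _ (hψ _ (mem_image_of_mem _ hp)) p hp).1 rfl
  have em : Emb E (fun v => Hru.lev v + k) ψ ↑A := by
    rw [eA]
    refine ⟨fun a ha b hb e => (h.bij _ (hψ a ha) _ (hψ b hb)).2 e,
      fun a ha b hb => h.edge _ (hψ a ha) _ (hψ b hb), fun a ha => h.lev _ (hψ a ha), ?_⟩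
    rw [image_image, image_congr hp]
    exact h.c2
  have AB : A ⊆ B := (Finset.subset_insert _ _).trans b1
  obtain ⟨ψ', e1, e2, e3⟩ := ext AB (K_univ.mono (subset_univ _))
    (eA ▸ h.c1.mono (subset_univ _)) (fun u _ v _ e => by rw [E_lev e]; ring) em T
  refine ⟨(fun b => (b, ψ' b)) '' B, fun p hp' => ?_, ⟨B.finite_toSet.image _, ?_, ?_, ?_, ?_, ?_⟩,
    ⟨ψ' x, mem_image_of_mem _ (b1 (Finset.mem_insert_self _ _))⟩, ?_⟩
  · have a : p.1 ∈ (A : Set V) := eA ▸ mem_image_of_mem _ hp'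
    exact ⟨p.1, AB a, Prod.ext rfl ((e1 a).trans (hp p hp'))⟩
  · rintro _ ⟨u, a, rfl⟩ _ ⟨v, b, rfl⟩
    exact ⟨fun e => congrArg ψ' e, fun e => e2.inj a b e⟩
  · rintro _ ⟨u, a, rfl⟩ _ ⟨v, b, rfl⟩
    exact e2.edge u a v b
  · rintro _ ⟨u, a, rfl⟩
    exact e2.lev u a
  · rw [image_image, image_id']; exact b2
  · rw [image_image]; exact e2.cl
  · rintro _ ⟨u, a, rfl⟩ hn
    refine e3 u a fun hu => hn ?_
    show (u, ψ' u) ∈ R
    rw [e1 hu]
    exact hψ u (eA ▸ hu)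

/-- automorphisms shifting the level by `k` -/
def Au (k : ℤ) (g : Equiv.Perm V) : Prop :=
  (∀ x y, E (g x) (g y) ↔ E x y) ∧ ∀ x, lev (g x) = lev x + k

theorem Au.mul {k j : ℤ} {g h : Equiv.Perm V} (a : Au k g) (b : Au j h) : Au (k + j) (g * h) :=
  ⟨fun x y => (a.1 _ _).trans (b.1 _ _), fun x => by
    rw [Equiv.Perm.mul_apply, a.2, b.2]; ring⟩

theorem Au.inv {k : ℤ} {g : Equiv.Perm V} (a : Au k g) : Au (-k) g⁻¹ :=
  ⟨fun x y => by rw [← a.1]; simp, fun x => by have := a.2 (g⁻¹ x); simp at this ⊢; omega⟩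

theorem PI.homog {k : ℤ} {R : Set (V × V)} (h : PI k R) :
    ∃ g, Au k g ∧ ∀ p ∈ R, g p.1 = p.2 := by
  obtain ⟨g, a, b⟩ := bf (PI k) (fun _ h => h.bij) (fun R h x => by
    obtain ⟨R', a, b, c, -⟩ := h.forth x 0
    exact ⟨R', a, b, c⟩) (fun R h y => by
    obtain ⟨R', a, b, ⟨x, c⟩, -⟩ := h.symm.forth y 0
    refine ⟨Prod.swap '' R', fun p hp => ⟨p.swap, a (mem_image_of_mem _ hp), rfl⟩, ?_,
      x, _, c, rfl⟩
    simpa using b.symm) R h
  refine ⟨g, ⟨fun x y => ?_, fun x => ?_⟩, a⟩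
  · obtain ⟨R', c, d, e⟩ := b x y
    exact c.edge _ d _ e
  · obtain ⟨R', c, d, -⟩ := b x x
    exact c.lev _ d

theorem exists_shift (k : ℤ) : ∃ g, Au k g := by
  have : PI k ∅ := ⟨finite_empty, by simp, by simp, by simp,
    by rw [image_empty]; exact cl_empty K_univ, by rw [image_empty]; exact cl_empty K_univ⟩
  exact this.homog.imp fun _ h => h.1

theorem cl_single {W : Type} {F : W → W → Prop} {S : Set W} (h : K F S) (x : W) :
    Cl F {x} S := fun X hX hn => by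
  obtain ⟨y, hy, hy'⟩ := not_subset.1 hn
  obtain ⟨d, d1, d2, d3⟩ := h X hX ⟨y, hy⟩
  by_cases hx : x ∈ X
  · have e : fl X {x} = {x} := by ext z; simp only [mem_fl, mem_singleton_iff, Finset.mem_singleton]; exact ⟨(·.2), fun h => ⟨h ▸ hx, h⟩⟩
    have a := δ_le (E := F) {x}
    have b : 1 < X.card := Finset.one_lt_card.2 ⟨y, hy, x, hx, hy'⟩
    have c : d ≠ 2 := by rintro rfl; omega
    rw [e]
    rw [Finset.card_singleton] at a
    omega
  · have e : fl X {x} = ∅ := by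
      ext z; simp only [mem_fl, mem_singleton_iff, Finset.notMem_empty, iff_false]
      rintro ⟨a, rfl⟩; exact hx a
    rw [e, δ_empty]
    omega

theorem sep {x y : V} (h : x ≠ y) : ∃ g, Au 0 g ∧ g x = x ∧ g y ≠ y := by
  have : PI 0 {(x, x)} := ⟨finite_singleton _, by simp, by simp, by simp,
    by rw [image_singleton]; exact cl_single K_univ _,
    by rw [image_singleton]; exact cl_single K_univ _⟩
  obtain ⟨R, a, b, ⟨z, c⟩, d⟩ := this.forth y (y.1 + 1)
  obtain ⟨g, e, f⟩ := b.homog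
  refine ⟨g, e, f _ (a rfl), fun h' => ?_⟩
  have := d _ c fun e => h (Prod.ext_iff.1 e).1.symm
  rw [← (h'.symm.trans (f _ c) : y = z)] at this
  exact absurd this (Nat.not_succ_le_self _)

theorem K_edge (s : Bool) : K (fun u v : Bool => u = s ∧ v = !s) ↑(Finset.univ : Finset Bool) := by
  intro X _ hne
  have h1 : X.card ≤ 2 := X.card_le_univ
  have h2 := Finset.card_pos.2 hne
  have h3 : ec (fun u v : Bool => u = s ∧ v = !s) X ≤ 1 := by
    refine Finset.card_le_one.2 fun p hp q hq => ?_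
    simp only [Finset.mem_filter] at hp hq
    exact Prod.ext (hp.2.1.trans hq.2.1.symm) (hp.2.2.trans hq.2.2.symm)
  by_cases h4 : X.card = 2
  · exact ⟨3, by unfold δ; omega, by omega, by omega⟩
  · have h5 : ec (fun u v : Bool => u = s ∧ v = !s) X = 0 := by
      unfold ec
      rw [Finset.card_eq_zero, Finset.eq_empty_iff_forall_notMem]
      intro p hp
      simp only [Finset.mem_filter, Finset.mem_product] at hp
      have : 1 < X.card := Finset.one_lt_card.2 ⟨_, hp.1.1, _, hp.1.2, by simp [hp.2.1, hp.2.2]⟩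
      omega
    exact ⟨2, by unfold δ; omega, by omega, by omega⟩

theorem nbr (y : V) (T : ℕ) : (∃ u, E y u ∧ T ≤ u.1) ∧ ∃ u, E u y ∧ T ≤ u.1 := by
  have key : ∀ s : Bool, ∃ ψ : Bool → V, ψ true = y ∧ E (ψ s) (ψ !s) ∧ T ≤ (ψ false).1 := by
    intro s
    have em : Emb (fun u v : Bool => u = s ∧ v = !s)
        (fun b => if b then lev y else if s then lev y + 1 else lev y - 1) (fun _ => y)
        ↑({true} : Finset Bool) := by
      rw [Finset.coe_singleton]
      refine ⟨injOn_singleton _ _, ?_, ?_, by rw [image_singleton]; exact cl_single K_univ _⟩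
      · rintro _ rfl _ rfl
        refine iff_of_false (fun e => ?_) (by cases s <;> simp)
        have := E_lev e
        omega
      · rintro _ rfl; rfl
    obtain ⟨ψ, a, b, c⟩ := ext (Finset.subset_univ _) (K_edge s)
      (by rw [Finset.coe_singleton]; exact cl_single (K_edge s) _)
      (by rintro u - v - ⟨a, b⟩; rw [a, b]; cases s <;> simp) em T
    exact ⟨ψ, a (by simp), (b.edge _ (by simp) _ (by simp)).2 ⟨rfl, rfl⟩, c _ (by simp) (by simp)⟩
  obtain ⟨ψ, a, b, c⟩ := key true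
  obtain ⟨ψ', a', b', c'⟩ := key false
  exact ⟨⟨_, a ▸ b, c⟩, _, a' ▸ b', c'⟩

theorem no22 {p q u v : V} (h1 : p ≠ q) (h2 : u ≠ v) (a : E p u) (b : E p v) (c : E q u)
    (d : E q v) : False := by
  classical
  have a' := E_lev a
  have b' := E_lev b
  have c' := E_lev c
  have dj : Disjoint ({p, q} : Finset V) {u, v} := by
    simp only [Finset.disjoint_insert_left, Finset.disjoint_singleton_left, Finset.mem_insert,
      Finset.mem_singleton, not_or]
    refine ⟨⟨?_, ?_⟩, ?_, ?_⟩ <;> rintro rfl <;> omega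
  have c4 : (({p, q} : Finset V) ∪ {u, v}).card = 4 := by
    rw [Finset.card_union_of_disjoint dj, Finset.card_pair h1, Finset.card_pair h2]
  have e4 : 4 ≤ ec E (({p, q} : Finset V) ∪ {u, v}) := by
    have : (({p, q} : Finset V) ×ˢ ({u, v} : Finset V)).card = 4 := by
      rw [Finset.card_product, Finset.card_pair h1, Finset.card_pair h2]
    rw [← this]
    refine Finset.card_le_card fun r hr => ?_
    simp only [Finset.mem_filter, Finset.mem_product, Finset.mem_union] at hr ⊢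
    refine ⟨⟨Or.inl hr.1, Or.inr hr.2⟩, ?_⟩
    simp only [Finset.mem_insert, Finset.mem_singleton] at hr
    obtain ⟨e1 | e1, e2 | e2⟩ := hr <;> rw [e1, e2] <;> assumption
  obtain ⟨n, n1, -, n3⟩ := K_univ (({p, q} : Finset V) ∪ {u, v}) (subset_univ _) (by simp)
  unfold δ at n1
  have : 2 ^ n ≤ 2 ^ 4 := Nat.pow_le_pow_right (by norm_num) (by omega)
  omega

theorem determ (y : V) : ∃ F : Finset V, (∀ x ∈ F, lev x = 0) ∧
    ∀ g h : Equiv.Perm V, Au 0 g → Au 0 h → (∀ x ∈ F, g x = h x) → g y = h y := by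
  classical
  have : ∀ n : ℤ, ∀ y, lev y = n → ∃ F : Finset V, (∀ x ∈ F, lev x = 0) ∧
      ∀ g h : Equiv.Perm V, Au 0 g → Au 0 h → (∀ x ∈ F, g x = h x) → g y = h y := by
    intro n
    induction n using Int.induction_on with
    | zero => exact fun y hy => ⟨{y}, by simpa using hy, fun g h _ _ e => e y (by simp)⟩
    | succ n ih =>
      intro y hy
      obtain ⟨u, a, -⟩ := (nbr y 0).2
      obtain ⟨v, b, c⟩ := (nbr y (u.1 + 1)).2
      obtain ⟨F1, f1, g1⟩ := ih u (by have := E_lev a; omega)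
      obtain ⟨F2, f2, g2⟩ := ih v (by have := E_lev b; omega)
      refine ⟨F1 ∪ F2, fun x hx => (Finset.mem_union.1 hx).elim (f1 x) (f2 x),
        fun g h hg hh e => by_contra fun hne => ?_⟩
      have e1 := g1 g h hg hh fun x hx => e x (Finset.mem_union_left _ hx)
      have e2 := g2 g h hg hh fun x hx => e x (Finset.mem_union_right _ hx)
      have uv : g u ≠ g v := fun e => by rw [g.injective e] at c; omega
      exact no22 uv hne ((hg.1 _ _).2 a) (e1 ▸ (hh.1 _ _).2 a) ((hg.1 _ _).2 b)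
        (e2 ▸ (hh.1 _ _).2 b)
    | pred n ih =>
      intro y hy
      obtain ⟨u, a, -⟩ := (nbr y 0).1
      obtain ⟨v, b, c⟩ := (nbr y (u.1 + 1)).1
      obtain ⟨F1, f1, g1⟩ := ih u (by have := E_lev a; omega)
      obtain ⟨F2, f2, g2⟩ := ih v (by have := E_lev b; omega)
      refine ⟨F1 ∪ F2, fun x hx => (Finset.mem_union.1 hx).elim (f1 x) (f2 x),
        fun g h hg hh e => by_contra fun hne => ?_⟩
      have e1 := g1 g h hg hh fun x hx => e x (Finset.mem_union_left _ hx)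
      have e2 := g2 g h hg hh fun x hx => e x (Finset.mem_union_right _ hx)
      have uv : g u ≠ g v := fun e => by rw [g.injective e] at c; omega
      exact no22 hne uv ((hg.1 _ _).2 a) ((hg.1 _ _).2 b) (e1 ▸ (hh.1 _ _).2 a)
        (e2 ▸ (hh.1 _ _).2 b)
  exact this _ y rfl

theorem cut (f : V → ℤ) (hf : ∀ u v, E u v → f u ≤ f v + 1 ∧ f v ≤ f u + 1) {A B : Finset V}
    (hA : ∀ a ∈ A, f a = 0) (hAB : A ⊆ B) (hB : ∀ X, A ⊆ X → δ E B ≤ δ E X) {y : V} (hy : y ∈ B) :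
    f y ≤ B.card := by
  classical
  by_contra! h
  obtain ⟨j, hj, hj'⟩ : ∃ j ∈ Finset.Icc (1 : ℤ) B.card, j ∉ B.image f := by
    by_contra! h'
    have s : insert (f y) (Finset.Icc (1 : ℤ) B.card) ⊆ B.image f :=
      Finset.insert_subset (Finset.mem_image_of_mem _ hy) h'
    have := (Finset.card_le_card s).trans Finset.card_image_le
    rw [Finset.card_insert_of_notMem (by simp only [Finset.mem_Icc]; omega)] at this
    simp at this
  have hne : ∀ b ∈ B, f b ≠ j := fun b hb e => hj' (e ▸ Finset.mem_image_of_mem _ hb)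
  rw [Finset.mem_Icc] at hj
  have e1 : B.filter (f · < j) ∪ B.filter (j < f ·) = B := by
    ext b
    simp only [Finset.mem_union, Finset.mem_filter]
    exact ⟨fun h => h.elim (·.1) (·.1), fun h => (hne b h).lt_or_gt.imp (⟨h, ·⟩) (⟨h, ·⟩)⟩
  have e2 : B.filter (f · < j) ∩ B.filter (j < f ·) = ∅ := by
    ext b
    simp only [Finset.mem_inter, Finset.mem_filter, Finset.notMem_empty, iff_false]
    omega
  have m := modular (E := E) (B.filter (f · < j)) (B.filter (j < f ·)) (by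
    rw [e1]
    intro u hu v hv e
    have := hf u v e
    have := hne u hu
    have := hne v hv
    simp only [Finset.mem_filter, hu, hv, true_and]
    omega)
  rw [e1, e2, δ_empty] at m
  have a := hB (B.filter (f · < j)) fun a ha =>
    Finset.mem_filter.2 ⟨hAB ha, by rw [hA a ha]; omega⟩
  obtain ⟨d, d1, d2, -⟩ := K_univ (B.filter (j < f ·)) (subset_univ _)
    ⟨y, Finset.mem_filter.2 ⟨hy, by omega⟩⟩
  omega

theorem olig (n : ℕ) (hn : 1 ≤ n) : ∃ (Cd : Type) (_ : Finite Cd) (has : (Fin n → V) → Cd → Prop),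
    (∀ x, (∀ i, lev (x i) = 0) → ∃ c, has x c) ∧
    ∀ x y c, has x c → has y c → ∃ g, Au 0 g ∧ ∀ i, g (x i) = y i := by
  classical
  set N := 2 ^ (2 * n) + 1 with hN
  refine ⟨(Fin N → Fin N → Prop) × (Fin N → Fin N → Prop) × (Fin N → Icc (-N : ℤ) N) ×
    (Fin n → Fin N), inferInstance, fun x c => ∃ b : Fin N → V, Cl E (range b) univ ∧
      (∀ i j, c.1 i j ↔ E (b i) (b j)) ∧ (∀ i j, c.2.1 i j ↔ b i = b j) ∧
      (∀ i, (c.2.2.1 i).1 = lev (b i)) ∧ ∀ i, b (c.2.2.2 i) = x i, fun x hx => ?_, ?_⟩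
  · obtain ⟨B, b1, b2, b3, b4⟩ := closure K_univ (Finset.univ.image x)
    have c1 : (Finset.univ.image x).card ≤ n := Finset.card_image_le.trans (by simp)
    have c2 : B.card ≤ N := b4.trans (by
      have : 2 ^ (2 * (Finset.univ.image x).card) ≤ 2 ^ (2 * n) :=
        Nat.pow_le_pow_right (by norm_num) (by omega)
      omega)
    have hx' : ∀ i, x i ∈ B := fun i => b1 (Finset.mem_image_of_mem _ (Finset.mem_univ i))
    have : Nonempty B := ⟨⟨_, hx' ⟨0, hn⟩⟩⟩
    obtain ⟨b, hb⟩ : ∃ b : Fin N → B, Function.Surjective b :=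
      Function.exists_surjective_iff.2 ⟨inferInstance,
        Function.Embedding.nonempty_of_card_le (by simpa using c2)⟩
    have l0 : ∀ a ∈ Finset.univ.image x, lev a = 0 := fun a ha => by
      obtain ⟨i, -, rfl⟩ := Finset.mem_image.1 ha
      exact hx i
    have l1 : ∀ i, lev (b i) ∈ Icc (-N : ℤ) N := fun i => by
      have u1 := cut lev (fun u v e => by have := E_lev e; omega) l0 b1 b3 (b i).2
      have u2 := cut (fun v => - lev v) (fun u v e => by have := E_lev e; omega)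
        (fun a ha => by simp [l0 a ha]) b1 b3 (b i).2
      constructor <;> omega
    choose pos hpos using fun i => hb ⟨x i, hx' i⟩
    refine ⟨(fun i j => E (b i) (b j), fun i j => (b i).1 = b j, fun i => ⟨_, l1 i⟩, pos),
      fun i => b i, ?_, fun _ _ => Iff.rfl, fun _ _ => Iff.rfl, fun _ => rfl,
      fun i => congrArg Subtype.val (hpos i)⟩
    have : range (fun i => (b i).1) = ↑B := by
      rw [← Function.comp_def, range_comp, hb.range_eq, image_univ, Subtype.range_coe_subtype]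
      rfl
    rwa [this]
  · rintro x y c ⟨b, b1, b2, b3, b4, b5⟩ ⟨d, d1, d2, d3, d4, d5⟩
    have : PI 0 (range fun i => (b i, d i)) := by
      refine ⟨finite_range _, ?_, ?_, ?_, ?_, ?_⟩
      · rintro _ ⟨i, rfl⟩ _ ⟨j, rfl⟩; exact (b3 i j).symm.trans (d3 i j)
      · rintro _ ⟨i, rfl⟩ _ ⟨j, rfl⟩; exact (d2 i j).symm.trans (b2 i j)
      · rintro _ ⟨i, rfl⟩; simp only [← b4, ← d4, add_zero]
      · rw [← range_comp]; exact b1
      · rw [← range_comp]; exact d1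
    obtain ⟨g, a, e⟩ := this.homog
    exact ⟨g, a, fun i => by rw [← b5, ← d5]; exact e _ ⟨_, rfl⟩⟩

theorem lev0_inf : {x : V | lev x = 0}.Infinite := by
  intro h
  obtain ⟨t, ht⟩ := exists_C h.toFinset
  obtain ⟨g, hg⟩ := exists_shift (1 - lev (0, 0))
  obtain ⟨u, a, b⟩ := (nbr (g (0, 0)) t).2
  have := E_lev a
  rw [hg.2] at this
  have : u ∈ C t := ht (by simp; omega)
  exact absurd this (not_lt.2 b)

end Pool.Agent.H23.Hru
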