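import Mathlib

set_option autoImplicit false

open Cardinal Set Topology Filter
open scoped Pointwise

namespace Pool.Agent.H23.Indep2

universe u

/-- the closure of a set in a Hausdorff space is bounded by the number of ultrafilters on it -/
theorem mk_closure_le {X : Type u} [TopologicalSpace X] [T2Space X] (S : Set X) :
    #(closure S) ≤ (2 : Cardinal.{u}) ^ ((2 : Cardinal.{u}) ^ #S) := by
  classical
  have h : ∀ x : closure S, ∃ u : Ultrafilter X, S ∈ u ∧ (u : Filter X) ≤ 𝓝 x.1 := fun x =>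
    mem_closure_iff_ultrafilter.1 x.2
  choose u hu using h
  let f : closure S → Set (Set S) := fun x => {A | Subtype.val '' A ∈ u x}
  have hf : Function.Injective f := by
    intro x y hxy
    have : (u x : Filter X) ≤ u y := by
      intro A hA
      have h1 : (Subtype.val ⁻¹' A : Set S) ∈ f y := by
        show Subtype.val '' (Subtype.val ⁻¹' A : Set S) ∈ u y
        rw [Subtype.image_preimage_coe]
        exact inter_mem (hu y).1 hA
      rw [← hxy] at h1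
      have h2 : Subtype.val '' (Subtype.val ⁻¹' A : Set S) ∈ u x := h1
      rw [Subtype.image_preimage_coe] at h2
      exact mem_of_superset h2 inter_subset_right
    have h3 : (u x : Filter X) ≤ 𝓝 y.1 := this.trans (hu y).2
    exact Subtype.ext (eq_of_nhds_neBot ⟨fun hb => by
      have : (u x : Filter X) ≤ 𝓝 x.1 ⊓ 𝓝 y.1 := le_inf (hu x).2 h3
      rw [hb] at this
      exact (u x).neBot.ne (le_bot_iff.1 this)⟩)
  have := mk_le_of_injective hf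
  simpa [mk_set] using this

/-- From closed sets missing the pieces of a countable cover, get a countably infinite set
closed in both topologies. -/
theorem exists_closed {X : Type u} (t1 t2 : TopologicalSpace X) (h1 : @T1Space X t1)
    (h2 : @T1Space X t2) (F : ℕ → Set X) (hF : ∀ x, ∃ n, x ∈ F n)
    (good : Set X → Prop) (hinf : ∀ L, good L → L.Infinite) (L0 : Set X) (hL0 : good L0)
    (step : ∀ L, good L → ∀ n, ∃ K1 K2 L', IsClosed[t1] K1 ∧ IsClosed[t2] K2 ∧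
      Disjoint K1 (F n) ∧ Disjoint K2 (F n) ∧ good L' ∧ L' ⊆ L ∧ L' ⊆ K1 ∧ L' ⊆ K2) :
    ∃ C : Set X, C.Countable ∧ C.Infinite ∧ IsClosed[t1] C ∧ IsClosed[t2] C := by
  classical
  choose K1 K2 L' hK using step
  let L : ℕ → {L // good L} := fun n =>
    Nat.rec ⟨L0, hL0⟩ (fun n p => ⟨L' p.1 p.2 n, (hK p.1 p.2 n).2.2.2.2.1⟩) n
  have hLs : ∀ n, (L (n + 1)).1 = L' (L n).1 (L n).2 n := fun n => rfl
  have hanti : Antitone fun n => (L n).1 := by
    apply antitone_nat_of_succ_le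
    intro n
    rw [hLs]
    exact (hK _ _ n).2.2.2.2.2.1
  have hx : ∀ n, ∃ x, x ∈ (L n).1 := fun n => (hinf _ (L n).2).nonempty
  choose x hx using hx
  have key : ∀ (t : TopologicalSpace X) (_ : @T1Space X t) (K : ℕ → Set X),
      (∀ n, IsClosed[t] (K n)) → (∀ n, Disjoint (K n) (F n)) → (∀ n, (L (n + 1)).1 ⊆ K n) →
      IsClosed[t] (range x) := by
    intro t ht K hc hd hs
    letI := t
    rw [← closure_subset_iff_isClosed]
    intro g hg
    obtain ⟨n, hn⟩ := hF g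
    have hsub : range x ⊆ (x '' Iic n) ∪ K n := by
      rintro _ ⟨m, rfl⟩
      by_cases hm : m ≤ n
      · exact Or.inl ⟨m, hm, rfl⟩
      · exact Or.inr (hs n (hanti (by omega : n + 1 ≤ m) (hx m)))
    have hcl : IsClosed ((x '' Iic n) ∪ K n) :=
      ((finite_Iic n).image x).isClosed.union (hc n)
    rcases closure_minimal hsub hcl hg with h | h
    · exact image_subset_range _ _ h
    · exact absurd hn (disjoint_left.1 (hd n) h)
  refine ⟨range x, countable_range x, ?_, ?_, ?_⟩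
  · intro hfin
    have : ∀ g ∈ range x, ∃ n, ∀ m, n ≤ m → x m ≠ g := by
      intro g _
      obtain ⟨n, hn⟩ := hF g
      refine ⟨n + 1, fun m hm he => ?_⟩
      have h3 : x m ∈ (L (n + 1)).1 := hanti hm (hx m)
      rw [hLs] at h3
      have h4 := (hK _ _ n).2.2.2.2.2.2.1 h3
      exact disjoint_left.1 (hK (L n).1 (L n).2 n).2.2.1 h4 (he ▸ hn)
    choose! N hN using this
    obtain ⟨M, hM⟩ := (hfin.image N).bddAbove
    exact hN (x M) ⟨M, rfl⟩ M (hM ⟨x M, ⟨M, rfl⟩, rfl⟩) rfl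
  · exact key t1 h1 (fun n => K1 (L n).1 (L n).2 n) (fun n => (hK _ _ n).1)
      (fun n => (hK _ _ n).2.2.1) (fun n => by rw [hLs]; exact (hK _ _ n).2.2.2.2.2.2.1)
  · exact key t2 h2 (fun n => K2 (L n).1 (L n).2 n) (fun n => (hK _ _ n).2.1)
      (fun n => (hK _ _ n).2.2.2.1) (fun n => by rw [hLs]; exact (hK _ _ n).2.2.2.2.2.2.2)

section
variable {G : Type u} [AddCommGroup G]

/-- small subsets -/
def Sm (S : Set G) : Prop := #S < #G

theorem Sm.mono {S T : Set G} (h : Sm T) (hs : S ⊆ T) : Sm S :=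
  (mk_le_mk_of_subset hs).trans_lt h

theorem Sm.union (hG : ℵ₀ ≤ #G) {S T : Set G} (h : Sm S) (h' : Sm T) : Sm (S ∪ T) :=
  (mk_union_le S T).trans_lt (add_lt_of_lt hG h h')

theorem Sm.add (hG : ℵ₀ ≤ #G) {S T : Set G} (h : Sm S) (h' : Sm T) : Sm (S + T) := by
  have : #(S + T : Set G) ≤ #S * #T := by
    rw [← Set.image2_add]
    exact mk_image2_le
  exact this.trans_lt (mul_lt_of_lt hG h h')

theorem Sm.closure (hG : IsStrongLimit #G) (t : TopologicalSpace G) (ht : @T2Space G t)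
    {S : Set G} (h : Sm S) : Sm (closure[t] S) := by
  letI := t
  exact (mk_closure_le S).trans_lt (hG.isStrongPrelimit (hG.isStrongPrelimit h))

theorem inf_of_not_sm (hG : ℵ₀ ≤ #G) {S : Set G} (h : ¬ Sm S) : S.Infinite := by
  intro hf
  exact h ((Set.Finite.lt_aleph0 hf).trans_le hG)

theorem not_sm_diff (hG : ℵ₀ ≤ #G) {S T : Set G} (h : ¬ Sm S) (h' : Sm T) : ¬ Sm (S \ T) := by
  intro h2
  exact h ((h2.union hG h').mono (fun x hx => by by_cases hT : x ∈ T <;> simp [hx, hT]))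

theorem sm_trans {S : Set G} (x : G) : Sm ((fun y => x + y) ⁻¹' S) ↔ Sm S := by
  unfold Sm
  have : #((fun y => x + y) ⁻¹' S) = #S :=
    mk_preimage_of_injective_of_subset_range _ _ (add_right_injective x)
      (fun y _ => ⟨y - x, by simp⟩)
  rw [this]

theorem sep (hG : IsStrongLimit #G) (t : TopologicalSpace G) (hg : @IsTopologicalAddGroup G t _)
    {S : Set G} {x : G} (hx : x ∉ closure[t] S) :
    ∃ K O : Set G, IsClosed[t] K ∧ IsOpen[t] O ∧ x ∈ O ∧ O ⊆ K ∧ Disjoint K S := by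
  letI := t
  have h1 : (closure S)ᶜ ∈ 𝓝 x := isClosed_closure.isOpen_compl.mem_nhds hx
  obtain ⟨K, hK, hKc, hKs⟩ := exists_mem_nhds_isClosed_subset h1
  exact ⟨K, interior K, hKc, isOpen_interior, mem_interior_iff_mem_nhds.2 hK, interior_subset,
    disjoint_left.2 fun y hy hyS => hKs hy (subset_closure hyS)⟩

theorem thick (t : TopologicalSpace G) (hg : @IsTopologicalAddGroup G t _) {W : Set G}
    (hW : IsOpen[t] W) (h0 : (0 : G) ∈ W) (S : Set G) :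
    IsClosed[t] (S + W)ᶜ ∧ Disjoint (S + W)ᶜ S := by
  letI := t
  refine ⟨(hW.add_left).isClosed_compl, disjoint_left.2 fun y hy hyS => hy ⟨y, hyS, 0, h0, by simp⟩⟩

theorem half (t : TopologicalSpace G) (hg : @IsTopologicalAddGroup G t _) {V : Set G}
    (hV : IsOpen[t] V) (h0 : (0 : G) ∈ V) :
    ∃ W, IsOpen[t] W ∧ (0 : G) ∈ W ∧ ∀ a ∈ W, ∀ b ∈ W, a - b ∈ V := by
  letI := t
  obtain ⟨W, hW, h⟩ := exists_nhds_half_neg (hV.mem_nhds h0)
  exact ⟨interior W, isOpen_interior, mem_interior_iff_mem_nhds.2 hW,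
    fun a ha b hb => h a (interior_subset ha) b (interior_subset hb)⟩

theorem open_trans (t : TopologicalSpace G) (hg : @IsTopologicalAddGroup G t _) {O : Set G}
    (hO : IsOpen[t] O) (x : G) : IsOpen[t] ((fun y => x + y) ⁻¹' O) := by
  letI := t
  exact hO.preimage (continuous_const.add continuous_id)

variable (hG : IsStrongLimit #G) (F : ℕ → Set G) (hF : ∀ x, ∃ n, x ∈ F n) (hFs : ∀ n, Sm (F n))
include hG hF hFs

theorem case1 (t1 t2 : TopologicalSpace G) (g1 : @IsTopologicalAddGroup G t1 _)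
    (g2 : @IsTopologicalAddGroup G t2 _) (h1 : @T2Space G t1) (h2 : @T2Space G t2)
    (H : ∀ V1 V2, IsOpen[t1] V1 → IsOpen[t2] V2 → (0 : G) ∈ V1 → (0 : G) ∈ V2 →
      ¬ Sm (V1 ∩ V2)) :
    ∃ C : Set G, C.Countable ∧ C.Infinite ∧ IsClosed[t1] C ∧ IsClosed[t2] C := by
  have H' : ∀ V1 V2, IsOpen[t1] V1 → IsOpen[t2] V2 → (V1 ∩ V2).Nonempty → ¬ Sm (V1 ∩ V2) := by
    rintro V1 V2 o1 o2 ⟨x, hx1, hx2⟩ hs
    refine H _ _ (open_trans t1 g1 o1 x) (open_trans t2 g2 o2 x) (by simpa using hx1)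
      (by simpa using hx2) ?_
    rw [← preimage_inter]
    exact (sm_trans x).2 hs
  refine exists_closed t1 t2 (@T2Space.t1Space _ t1 h1) (@T2Space.t1Space _ t2 h2) F hF
    (fun L => ∃ V1 V2, IsOpen[t1] V1 ∧ IsOpen[t2] V2 ∧ (V1 ∩ V2).Nonempty ∧ L = V1 ∩ V2)
    ?_ Set.univ ⟨Set.univ, Set.univ, @isOpen_univ _ t1, @isOpen_univ _ t2, ⟨0, by simp⟩, by simp⟩ ?_
  · rintro L ⟨V1, V2, o1, o2, hne, rfl⟩
    exact inf_of_not_sm hG.aleph0_le (H' _ _ o1 o2 hne)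
  · rintro L ⟨V1, V2, o1, o2, hne, rfl⟩ n
    have hs : Sm (closure[t1] (F n) ∪ closure[t2] (F n)) :=
      ((hFs n).closure hG t1 h1).union hG.aleph0_le ((hFs n).closure hG t2 h2)
    obtain ⟨x, hx, hx'⟩ :=
      (inf_of_not_sm hG.aleph0_le (not_sm_diff hG.aleph0_le (H' _ _ o1 o2 hne) hs)).nonempty
    obtain ⟨K1, O1, c1, oo1, x1, s1, d1⟩ := sep hG t1 g1 (fun h => hx' (Or.inl h))
    obtain ⟨K2, O2, c2, oo2, x2, s2, d2⟩ := sep hG t2 g2 (fun h => hx' (Or.inr h))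
    exact ⟨K1, K2, (V1 ∩ O1) ∩ (V2 ∩ O2), c1, c2, d1, d2,
      ⟨_, _, @IsOpen.inter _ t1 _ _ o1 oo1, @IsOpen.inter _ t2 _ _ o2 oo2,
        ⟨x, ⟨hx.1, x1⟩, ⟨hx.2, x2⟩⟩, rfl⟩,
      fun y hy => ⟨hy.1.1, hy.2.1⟩, fun y hy => s1 hy.1.2, fun y hy => s2 hy.2.2⟩

theorem case2 (t1 t2 : TopologicalSpace G) (g1 : @IsTopologicalAddGroup G t1 _)
    (g2 : @IsTopologicalAddGroup G t2 _) (h1 : @T2Space G t1) (h2 : @T2Space G t2)
    (V1 V2 : Set G) (o1 : IsOpen[t1] V1) (o2 : IsOpen[t2] V2) (z1 : (0 : G) ∈ V1)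
    (z2 : (0 : G) ∈ V2) (hs : Sm (V1 ∩ V2))
    (H : ∀ V, IsOpen[t2] V → (0 : G) ∈ V → ¬ Sm V) :
    ∃ C : Set G, C.Countable ∧ C.Infinite ∧ IsClosed[t1] C ∧ IsClosed[t2] C := by
  classical
  have H' : ∀ V, IsOpen[t2] V → V.Nonempty → ¬ Sm V := by
    rintro V o ⟨x, hx⟩ hs
    exact H _ (open_trans t2 g2 o x) (by simpa using hx) ((sm_trans x).2 hs)
  obtain ⟨W1, w1, y1, a1⟩ := half t1 g1 o1 z1
  obtain ⟨W2, w2, y2, a2⟩ := half t2 g2 o2 z2
  have hsm : ∀ S : Set G, Sm S → Sm (W2 ∩ (S + W1)) := by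
    intro S hS
    let r : G → G := fun f => if h : ∃ w ∈ W1, f + w ∈ W2 then f + h.choose else 0
    have hr : Sm (r '' S) := mk_image_le.trans_lt hS
    refine (hr.add hG.aleph0_le hs).mono ?_
    rintro y ⟨hy, f, hf, w, hw, rfl⟩
    have h : ∃ w ∈ W1, f + w ∈ W2 := ⟨w, hw, hy⟩
    have hr' : r f = f + h.choose := by simp only [r, dif_pos h]
    refine ⟨r f, ⟨f, hf, rfl⟩, w - h.choose, ⟨a1 _ hw _ h.choose_spec.1, ?_⟩, ?_⟩
    · have := a2 _ hy _ h.choose_spec.2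
      simpa using this
    · simp only [hr']; abel
  refine exists_closed t1 t2 (@T2Space.t1Space _ t1 h1) (@T2Space.t1Space _ t2 h2) F hF
    (fun L => ∃ O S, IsOpen[t2] O ∧ O.Nonempty ∧ O ⊆ W2 ∧ Sm S ∧ L = O \ S)
    ?_ (W2 \ (V1 ∩ V2)) ⟨W2, _, w2, ⟨0, y2⟩, subset_rfl, hs, rfl⟩ ?_
  · rintro L ⟨O, S, o, hne, -, hS, rfl⟩
    exact inf_of_not_sm hG.aleph0_le (not_sm_diff hG.aleph0_le (H' _ o hne) hS)
  · rintro L ⟨O, S, o, hne, hsub, hS, rfl⟩ n
    obtain ⟨x, hx, hx'⟩ := (inf_of_not_sm hG.aleph0_le (not_sm_diff hG.aleph0_le (H' _ o hne)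
      ((hFs n).closure hG t2 h2))).nonempty
    obtain ⟨K2, O2, c2, oo2, x2, s2, d2⟩ := sep hG t2 g2 hx'
    obtain ⟨c1, d1⟩ := thick t1 g1 w1 y1 (F n)
    refine ⟨_, K2, (O ∩ O2) \ (S ∪ (W2 ∩ (F n + W1))), c1, c2, d1, d2,
      ⟨_, _, @IsOpen.inter _ t2 _ _ o oo2, ⟨x, hx, x2⟩, fun y hy => hsub hy.1,
        hS.union hG.aleph0_le (hsm _ (hFs n)), rfl⟩,
      fun y hy => ⟨hy.1.1, fun h => hy.2 (Or.inl h)⟩,
      fun y hy h => hy.2 (Or.inr ⟨hsub hy.1.1, h⟩), fun y hy => s2 hy.1.2⟩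

theorem case3 (t1 t2 : TopologicalSpace G) (g1 : @IsTopologicalAddGroup G t1 _)
    (g2 : @IsTopologicalAddGroup G t2 _) (h1 : @T2Space G t1) (h2 : @T2Space G t2)
    (V1 V2 : Set G) (o1 : IsOpen[t1] V1) (o2 : IsOpen[t2] V2) (z1 : (0 : G) ∈ V1)
    (z2 : (0 : G) ∈ V2) (s1 : Sm V1) (s2 : Sm V2) :
    ∃ C : Set G, C.Countable ∧ C.Infinite ∧ IsClosed[t1] C ∧ IsClosed[t2] C := by
  have hu : ¬ Sm (Set.univ : Set G) := by simp [Sm]
  refine exists_closed t1 t2 (@T2Space.t1Space _ t1 h1) (@T2Space.t1Space _ t2 h2) F hF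
    (fun L => ∃ S, Sm S ∧ L = Set.univ \ S)
    ?_ (Set.univ \ V1) ⟨V1, s1, rfl⟩ ?_
  · rintro L ⟨S, hS, rfl⟩
    exact inf_of_not_sm hG.aleph0_le (not_sm_diff hG.aleph0_le hu hS)
  · rintro L ⟨S, hS, rfl⟩ n
    obtain ⟨c1, d1⟩ := thick t1 g1 o1 z1 (F n)
    obtain ⟨c2, d2⟩ := thick t2 g2 o2 z2 (F n)
    exact ⟨_, _, Set.univ \ (S ∪ ((F n + V1) ∪ (F n + V2))), c1, c2, d1, d2,
      ⟨_, hS.union hG.aleph0_le (((hFs n).add hG.aleph0_le s1).union hG.aleph0_le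
        ((hFs n).add hG.aleph0_le s2)), rfl⟩,
      fun y hy => ⟨trivial, fun h => hy.2 (Or.inl h)⟩,
      fun y hy h => hy.2 (Or.inr (Or.inl h)), fun y hy h => hy.2 (Or.inr (Or.inr h))⟩

theorem main (t1 t2 : TopologicalSpace G) (g1 : @IsTopologicalAddGroup G t1 _)
    (g2 : @IsTopologicalAddGroup G t2 _) (h1 : @T2Space G t1) (h2 : @T2Space G t2) :
    ∃ C : Set G, C.Countable ∧ C.Infinite ∧ IsClosed[t1] C ∧ IsClosed[t2] C := by
  by_cases H : ∀ V1 V2, IsOpen[t1] V1 → IsOpen[t2] V2 → (0 : G) ∈ V1 → (0 : G) ∈ V2 →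
      ¬ Sm (V1 ∩ V2)
  · exact case1 hG F hF hFs t1 t2 g1 g2 h1 h2 H
  push Not at H
  obtain ⟨V1, V2, o1, o2, z1, z2, hs⟩ := H
  by_cases H2 : ∀ V, IsOpen[t2] V → (0 : G) ∈ V → ¬ Sm V
  · exact case2 hG F hF hFs t1 t2 g1 g2 h1 h2 V1 V2 o1 o2 z1 z2 hs H2
  by_cases H1 : ∀ V, IsOpen[t1] V → (0 : G) ∈ V → ¬ Sm V
  · obtain ⟨C, a, b, c, d⟩ :=
      case2 hG F hF hFs t2 t1 g2 g1 h2 h1 V2 V1 o2 o1 z2 z1 (by rwa [inter_comm]) H1
    exact ⟨C, a, b, d, c⟩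
  push Not at H1 H2
  obtain ⟨U1, a1, b1, c1⟩ := H1
  obtain ⟨U2, a2, b2, c2⟩ := H2
  exact case3 hG F hF hFs t1 t2 g1 g2 h1 h2 U1 U2 a1 a2 b1 b2 c1 c2

end

/-- the tower of cardinals -/
noncomputable def b : ℕ → Cardinal.{0}
  | 0 => ℵ₀
  | n + 1 => 2 ^ b n

theorem b_lt (n : ℕ) : b n < b (n + 1) := cantor _

theorem b_inf (n : ℕ) : ℵ₀ ≤ b n := by
  induction n with
  | zero => exact le_rfl
  | succ n ih => exact ih.trans (b_lt n).le

/-- index type of size the supremum of the tower -/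
def J : Type := Σ n : ℕ, (b n).out

theorem mk_J : #J = Cardinal.sum b := by
  simp [J, mk_sigma]

theorem b_lt_J (n : ℕ) : b n < #J := by
  rw [mk_J]
  exact (b_lt n).trans_le (le_sum b (n + 1))

theorem sl_J : IsStrongLimit #J := by
  refine ⟨(b_lt_J 0).ne_bot, fun c hc => ?_⟩
  by_cases h : ∃ n, c ≤ b n
  · obtain ⟨n, hn⟩ := h
    exact (power_le_power_left two_ne_zero hn).trans_lt (b_lt_J (n + 1))
  · push Not at h
    exfalso
    have h0 : ℵ₀ ≤ c := (h 0).le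
    have : Cardinal.sum b ≤ Cardinal.sum fun _ : ℕ => c := sum_le_sum _ _ fun n => (h n).le
    rw [sum_const', mk_nat, aleph0_mul_eq h0, ← mk_J] at this
    exact absurd hc (not_lt.2 this)

instance : Infinite J := by
  rw [infinite_iff]
  exact (b_lt_J 0).le

theorem mk_G : #(J →₀ ℤ) = #J := by
  rw [mk_finsupp_of_infinite]
  simp

theorem cover : ∃ F : ℕ → Set (J →₀ ℤ), (∀ x, ∃ n, x ∈ F n) ∧ ∀ n, Sm (F n) := by
  obtain ⟨e⟩ := Cardinal.eq.1 mk_G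
  refine ⟨fun n => {x | (e x).1 = n}, fun x => ⟨_, rfl⟩, fun n => ?_⟩
  unfold Sm
  rw [mk_G]
  refine lt_of_le_of_lt ?_ (b_lt_J n)
  have : #{x : J →₀ ℤ | (e x).1 = n} ≤ #(range fun y : (b n).out => e.symm ⟨n, y⟩) := by
    apply mk_le_mk_of_subset
    intro x hx
    have hx' : (e x).1 = n := hx
    subst hx'
    exact ⟨(e x).2, by simp⟩
  exact this.trans (mk_range_le.trans (mk_out _).le)

end Pool.Agent.H23.Indep2
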