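import Mathlib
import Pool.Agent.H23.PR
import Pool.Agent.H23.CTools

set_option autoImplicit false

namespace Pool.Agent.H23.IsoGrp

open FreeGroup Filter

abbrev W (n : ℕ) := List (Fin n × Bool)

variable {n : ℕ}

def wd (n i : ℕ) : W n := (Encodable.decode i.unpair.1 : Option (W n)).getD []

theorem wd_encode (w : W n) (k : ℕ) : wd n (Nat.pair (Encodable.encode w) k) = w := by
  simp [wd]

def prods (g : List (W n × ℕ)) (m : ℕ) : List (W n × ℕ) :=
  Nat.rec [([], 0)] (fun _ P => ([], 0) ::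
    P.flatMap (fun p => g.map (fun γ => (γ.1 ++ p.1, γ.2 + p.2)))) m

def gens (n : ℕ) (a : ℕ → ℕ) (k : ℕ) : List (W n × ℕ) :=
  (List.range k).flatMap fun i =>
    [(wd n i, (a i + 1) * 2 ^ (k - 1 - i)), (invRev (wd n i), (a i + 1) * 2 ^ (k - 1 - i))]

def check (R : ℕ → W n → Bool) (g : List (W n × ℕ)) (S s : ℕ) (w : W n) (b : ℕ) : Bool :=
  Nat.ble b S && (prods g S).all fun p => Nat.ble b p.2 || R s (invRev w ++ p.1)

def av (L : List ℕ) (i : ℕ) : ℕ := (L.reverse.getD i 0).unpair.1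

def okL (R : ℕ → W n → Bool) (L : List ℕ) : Bool :=
  (List.range L.length).all fun i =>
    check R (gens n (av L) L.length) (2 ^ L.length) (L.getD 0 0).unpair.2 (wd n i)
      (av L i * 2 ^ (L.length - 1 - i)) && (!R i (wd n i) || Nat.blt 0 (av L i))

@[fun_prop] theorem invRev_prim {α : Type*} [Primcodable α] {f : α → W n} (hf : Primrec f) :
    Primrec fun a => invRev (f a) := by
  unfold invRev; fun_prop

@[fun_prop] theorem wd_prim {α : Type*} [Primcodable α] {f : α → ℕ} (hf : Primrec f) :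
    Primrec fun a => wd n (f a) := by
  unfold wd; fun_prop

@[fun_prop] theorem av_prim {α : Type*} [Primcodable α] {f : α → List ℕ} {g : α → ℕ}
    (hf : Primrec f) (hg : Primrec g) : Primrec fun a => av (f a) (g a) := by
  unfold av; fun_prop

@[fun_prop] theorem prods_prim {α : Type*} [Primcodable α] {f : α → List (W n × ℕ)} {g : α → ℕ}
    (hf : Primrec f) (hg : Primrec g) : Primrec fun a => prods (f a) (g a) := by
  unfold prods; fun_prop

theorem okL_prim (R : ℕ → W n → Bool) (hR : Primrec fun q : ℕ × W n => R q.1 q.2) :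
    Primrec (okL R) := by
  have hR' : ∀ {α : Type} [Primcodable α] {f : α → ℕ} {g : α → W n}, Primrec f → Primrec g →
      Primrec fun a => R (f a) (g a) := fun hf hg => hR.comp (hf.pair hg)
  have hg : Primrec fun L : List ℕ => gens n (av L) L.length := by unfold gens; fun_prop
  have hc : Primrec fun q : (List (W n × ℕ) × ℕ × ℕ) × W n × ℕ =>
      check R q.1.1 q.1.2.1 q.1.2.2 q.2.1 q.2.2 := by
    unfold check
    refine PR.and' (by fun_prop) (PR.all' (by fun_prop) (PR.or' (by fun_prop)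
      (hR' (by fun_prop) (by fun_prop))))
  unfold okL
  refine PR.all' (by fun_prop) (PR.and' ?_ (PR.or' (PR.not' (hR' (by fun_prop) (by fun_prop)))
    (by fun_prop)))
  exact hc.comp (g := fun q : List ℕ × ℕ => ((gens n (av q.1) q.1.length, 2 ^ q.1.length,
    (q.1.getD 0 0).unpair.2), wd n q.2, av q.1 q.2 * 2 ^ (q.1.length - 1 - q.2)))
    (((hg.comp Primrec.fst).pair (by fun_prop)).pair (by fun_prop))

variable (N : Subgroup (FreeGroup (Fin n))) [N.Normal]

def pr (w : W n) : FreeGroup (Fin n) ⧸ N := QuotientGroup.mk (FreeGroup.mk w)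

@[simp] theorem pr_nil : pr N [] = 1 := rfl
@[simp] theorem pr_append (u v : W n) : pr N (u ++ v) = pr N u * pr N v := by
  simp [pr, ← FreeGroup.mul_mk]
@[simp] theorem pr_inv (u : W n) : pr N (invRev u) = (pr N u)⁻¹ := by
  simp [pr, ← FreeGroup.inv_mk]
theorem pr_eq_one (u : W n) : pr N u = 1 ↔ FreeGroup.mk u ∈ N := QuotientGroup.eq_one_iff _
omit [N.Normal] in
theorem pr_surj (x : FreeGroup (Fin n) ⧸ N) : ∃ w, pr N w = x := by
  obtain ⟨y, rfl⟩ := QuotientGroup.mk_surjective x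
  exact ⟨y.toWord, by rw [pr, FreeGroup.mk_toWord]⟩

inductive Rep (g : List (W n × ℕ)) : FreeGroup (Fin n) ⧸ N → ℕ → Prop
  | nil : Rep g 1 0
  | cons (γ : W n × ℕ) (x : FreeGroup (Fin n) ⧸ N) (c : ℕ) :
      γ ∈ g → Rep g x c → Rep g (pr N γ.1 * x) (γ.2 + c)

variable {N}

theorem Rep.mul {g : List (W n × ℕ)} {x y : FreeGroup (Fin n) ⧸ N} {c d : ℕ}
    (h1 : Rep N g x c) (h2 : Rep N g y d) : Rep N g (x * y) (c + d) := by
  induction h1 with
  | nil => simpa using h2
  | cons γ x c hγ _ ih => rw [mul_assoc, add_assoc]; exact .cons γ _ _ hγ ih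

theorem Rep.single {g : List (W n × ℕ)} {γ : W n × ℕ} (h : γ ∈ g) : Rep N g (pr N γ.1) γ.2 := by
  simpa using Rep.cons γ 1 0 h (.nil (N := N))

theorem Rep.inv {g : List (W n × ℕ)} (hg : ∀ γ ∈ g, (invRev γ.1, γ.2) ∈ g)
    {x : FreeGroup (Fin n) ⧸ N} {c : ℕ} (h : Rep N g x c) : Rep N g x⁻¹ c := by
  induction h with
  | nil => simpa using Rep.nil
  | cons γ x c hγ _ ih =>
    have := ih.mul (Rep.single (hg γ hγ))
    simpa [add_comm] using this

theorem Rep.lower {g : List (W n × ℕ)} (F : FreeGroup (Fin n) ⧸ N → ℕ) (h1 : F 1 = 0)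
    (h2 : ∀ x y, F (x * y) ≤ F x + F y) (h3 : ∀ γ ∈ g, F (pr N γ.1) ≤ γ.2)
    {x : FreeGroup (Fin n) ⧸ N} {c : ℕ} (h : Rep N g x c) : F x ≤ c := by
  induction h with
  | nil => omega
  | cons γ x c hγ _ ih => have := h2 (pr N γ.1) x; have := h3 γ hγ; omega

theorem Rep.eq_one {g : List (W n × ℕ)} (hg : ∀ γ ∈ g, 1 ≤ γ.2)
    {x : FreeGroup (Fin n) ⧸ N} {c : ℕ} (h : Rep N g x c) (hc : c = 0) : x = 1 := by
  cases h with
  | nil => rfl
  | cons γ x c hγ _ => have := hg γ hγ; omega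

theorem prods_sound {g : List (W n × ℕ)} (m : ℕ) : ∀ p ∈ prods g m, Rep N g (pr N p.1) p.2 := by
  induction m with
  | zero => intro p hp; simp [prods] at hp; subst hp; exact .nil
  | succ m ih =>
    intro p hp
    have : prods g (m + 1) = ([], 0) ::
      (prods g m).flatMap (fun p => g.map (fun γ => (γ.1 ++ p.1, γ.2 + p.2))) := rfl
    rw [this] at hp
    simp only [List.mem_cons, List.mem_flatMap, List.mem_map] at hp
    rcases hp with rfl | ⟨q, hq, γ, hγ, rfl⟩
    · exact .nil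
    · simpa using Rep.cons γ _ _ hγ (ih q hq)

theorem prods_complete {g : List (W n × ℕ)} (hg : ∀ γ ∈ g, 1 ≤ γ.2)
    {x : FreeGroup (Fin n) ⧸ N} {c : ℕ} (h : Rep N g x c) :
    ∀ m, c ≤ m → ∃ p ∈ prods g m, pr N p.1 = x ∧ p.2 = c := by
  induction h with
  | nil => intro m _; exact ⟨([], 0), by cases m <;> simp [prods], rfl, rfl⟩
  | cons γ x c hγ _ ih =>
    intro m hm
    have := hg γ hγ
    obtain ⟨m, rfl⟩ : ∃ m', m = m' + 1 := ⟨m - 1, by omega⟩
    obtain ⟨p, hp, h1, h2⟩ := ih m (by omega)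
    refine ⟨(γ.1 ++ p.1, γ.2 + p.2), ?_, by simp [h1], by simp [h2]⟩
    have : prods g (m + 1) = ([], 0) ::
      (prods g m).flatMap (fun p => g.map (fun γ => (γ.1 ++ p.1, γ.2 + p.2))) := rfl
    rw [this]
    simp only [List.mem_cons, List.mem_flatMap, List.mem_map]
    exact Or.inr ⟨p, hp, γ, hγ, rfl⟩

variable (N) in
noncomputable def bar (g : List (W n × ℕ)) (S : ℕ) (x : FreeGroup (Fin n) ⧸ N) : ℕ :=
  sInf {c | c = S ∨ Rep N g x c}

theorem bar_spec (g : List (W n × ℕ)) (S : ℕ) (x : FreeGroup (Fin n) ⧸ N) :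
    bar N g S x = S ∨ Rep N g x (bar N g S x) :=
  Nat.sInf_mem (s := {c | c = S ∨ Rep N g x c}) ⟨S, Or.inl rfl⟩

theorem bar_le_S (g : List (W n × ℕ)) (S : ℕ) (x : FreeGroup (Fin n) ⧸ N) : bar N g S x ≤ S :=
  Nat.sInf_le (Or.inl rfl)

theorem bar_le_rep {g : List (W n × ℕ)} (S : ℕ) {x : FreeGroup (Fin n) ⧸ N} {c : ℕ}
    (h : Rep N g x c) : bar N g S x ≤ c := Nat.sInf_le (Or.inr h)

theorem le_bar {g : List (W n × ℕ)} {S b : ℕ} {x : FreeGroup (Fin n) ⧸ N} (h1 : b ≤ S)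
    (h2 : ∀ c, Rep N g x c → b ≤ c) : b ≤ bar N g S x := by
  rcases bar_spec g S x with h | h
  · omega
  · exact h2 _ h

theorem bar_one (g : List (W n × ℕ)) (S : ℕ) : bar N g S 1 = 0 :=
  Nat.le_zero.1 (bar_le_rep S .nil)

theorem bar_mul (g : List (W n × ℕ)) (S : ℕ) (x y : FreeGroup (Fin n) ⧸ N) :
    bar N g S (x * y) ≤ bar N g S x + bar N g S y := by
  have := bar_le_S g S (x * y)
  rcases bar_spec g S x with h | h
  · omega
  rcases bar_spec g S y with h' | h'
  · omega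
  exact bar_le_rep S (h.mul h')

theorem bar_inv {g : List (W n × ℕ)} (hg : ∀ γ ∈ g, (invRev γ.1, γ.2) ∈ g) (S : ℕ)
    (x : FreeGroup (Fin n) ⧸ N) : bar N g S x⁻¹ = bar N g S x := by
  have : ∀ x : FreeGroup (Fin n) ⧸ N, bar N g S x⁻¹ ≤ bar N g S x := fun x =>
    le_bar (bar_le_S _ _ _) fun c hc => bar_le_rep S (hc.inv hg)
  exact le_antisymm (this x) (by simpa using this x⁻¹)

theorem bar_pos {g : List (W n × ℕ)} (hg : ∀ γ ∈ g, 1 ≤ γ.2) {S : ℕ} (hS : 1 ≤ S)
    {x : FreeGroup (Fin n) ⧸ N} (hx : x ≠ 1) : 1 ≤ bar N g S x :=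
  le_bar hS fun _ hc => Nat.pos_of_ne_zero fun h0 => hx (hc.eq_one hg h0)

theorem mem_gens {a : ℕ → ℕ} {k : ℕ} {γ : W n × ℕ} : γ ∈ gens n a k ↔
    ∃ i < k, (γ.1 = wd n i ∨ γ.1 = invRev (wd n i)) ∧ γ.2 = (a i + 1) * 2 ^ (k - 1 - i) := by
  simp only [gens, List.mem_flatMap, List.mem_range, List.mem_cons, List.not_mem_nil, or_false,
    Prod.ext_iff]
  constructor
  · rintro ⟨i, hi, h | h⟩
    · exact ⟨i, hi, Or.inl h.1, h.2⟩
    · exact ⟨i, hi, Or.inr h.1, h.2⟩
  · rintro ⟨i, hi, h | h, h2⟩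
    · exact ⟨i, hi, Or.inl ⟨h, h2⟩⟩
    · exact ⟨i, hi, Or.inr ⟨h, h2⟩⟩

theorem gens_pos (a : ℕ → ℕ) (k : ℕ) : ∀ γ ∈ gens n a k, 1 ≤ γ.2 := by
  intro γ h
  obtain ⟨i, _, _, h2⟩ := mem_gens.1 h
  rw [h2]; exact Nat.mul_pos (by omega) (by positivity)

theorem gens_inv (a : ℕ → ℕ) (k : ℕ) : ∀ γ ∈ gens n a k, (invRev γ.1, γ.2) ∈ gens n a k := by
  intro γ h
  obtain ⟨i, hi, h1, h2⟩ := mem_gens.1 h
  refine mem_gens.2 ⟨i, hi, ?_, h2⟩
  rcases h1 with h1 | h1 <;> simp [h1]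

theorem gens_congr {a a' : ℕ → ℕ} {k : ℕ} (h : ∀ i < k, a i = a' i) :
    gens n a k = gens n a' k := by
  unfold gens
  apply List.flatMap_congr
  intro i hi
  rw [h i (List.mem_range.1 hi)]

variable (N) in
noncomputable def B (a : ℕ → ℕ) (k : ℕ) (x : FreeGroup (Fin n) ⧸ N) : ℕ :=
  bar N (gens n a k) (2 ^ k) x

theorem B_succ_le (a : ℕ → ℕ) (k : ℕ) (x : FreeGroup (Fin n) ⧸ N) :
    B N a (k + 1) x ≤ 2 * B N a k x := by
  have key : ∀ c, Rep N (gens n a k) x c → Rep N (gens n a (k + 1)) x (2 * c) := by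
    intro c hc
    induction hc with
    | nil => exact .nil
    | cons γ x c hγ _ ih =>
      obtain ⟨i, hi, h1, h2⟩ := mem_gens.1 hγ
      have := Rep.cons (γ.1, 2 * γ.2) x _ (mem_gens.2 ⟨i, by omega, h1, by
        rw [h2, show k + 1 - 1 - i = (k - 1 - i) + 1 by omega, pow_succ]; ring⟩) ih
      simpa [mul_add] using this
  rcases bar_spec (gens n a k) (2 ^ k) x with h | h
  · have := bar_le_S (gens n a (k + 1)) (2 ^ (k + 1)) x
    unfold B; rw [h]; rw [pow_succ] at this ⊢; omega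
  · exact bar_le_rep _ (key _ h)

theorem B_gen (a : ℕ → ℕ) {k i : ℕ} (hi : i < k) :
    B N a k (pr N (wd n i)) ≤ (a i + 1) * 2 ^ (k - 1 - i) :=
  bar_le_rep _ (Rep.single (γ := (wd n i, _)) (mem_gens.2 ⟨i, hi, Or.inl rfl, rfl⟩))

theorem B_succ_ge (a : ℕ → ℕ) (k : ℕ) (h : 2 * B N a k (pr N (wd n k)) ≤ a k + 1)
    (x : FreeGroup (Fin n) ⧸ N) : 2 * B N a k x ≤ B N a (k + 1) x := by
  apply le_bar
  · have := bar_le_S (gens n a k) (2 ^ k) x
    unfold B; rw [pow_succ]; omega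
  intro c hc
  refine Rep.lower (fun x => 2 * B N a k x) (by simp [B, bar_one]) (fun x y => ?_) ?_ hc
  · have := bar_mul (gens n a k) (2 ^ k) x y
    simp only [B]; omega
  · intro γ hγ
    obtain ⟨i, hi, h1, h2⟩ := mem_gens.1 hγ
    have h3 : B N a k (pr N γ.1) = B N a k (pr N (wd n i)) := by
      rcases h1 with h1 | h1
      · rw [h1]
      · rw [h1, pr_inv]; exact bar_inv (gens_inv a k) _ _
    show 2 * B N a k (pr N γ.1) ≤ γ.2
    rw [h3, h2]
    rcases Nat.lt_succ_iff_lt_or_eq.1 hi with hi | rfl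
    · have := B_gen (N := N) a hi
      rw [show k + 1 - 1 - i = (k - 1 - i) + 1 by omega, pow_succ]; nlinarith
    · simpa using h

section stage
variable {R : ℕ → W n → Bool} (hm : ∀ s t w, s ≤ t → R s w = true → R t w = true)
  (hR : ∀ w, FreeGroup.mk w ∉ N ↔ ∃ s, R s w = true)
include hR

theorem check_sound {g : List (W n × ℕ)} (hg : ∀ γ ∈ g, 1 ≤ γ.2) {S s b : ℕ} {w : W n}
    (h : check R g S s w b = true) : b ≤ bar N g S (pr N w) := by
  simp only [check, Bool.and_eq_true, Nat.ble_eq, List.all_eq_true, Bool.or_eq_true] at h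
  refine le_bar h.1 fun c hc => ?_
  by_cases hcS : c ≤ S
  · obtain ⟨p, hp, h1, h2⟩ := prods_complete hg hc S hcS
    rcases h.2 p hp with h3 | h3
    · omega
    · exfalso
      apply (hR _).2 ⟨s, h3⟩
      rw [← pr_eq_one]; simp [h1]
  · omega

include hm
theorem check_ev {g : List (W n × ℕ)} {S b : ℕ} {w : W n} (h : b ≤ bar N g S (pr N w)) :
    ∀ᶠ s in atTop, check R g S s w b = true := by
  have h1 : b ≤ S := h.trans (bar_le_S _ _ _)
  have : ∀ p ∈ (prods g S).toFinset, ∀ᶠ s in atTop, b ≤ p.2 ∨ R s (invRev w ++ p.1) = true := by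
    intro p hp
    by_cases hp1 : pr N p.1 = pr N w
    · have := bar_le_rep S (hp1 ▸ prods_sound (N := N) S p (List.mem_toFinset.1 hp))
      exact Eventually.of_forall fun s => Or.inl (by omega)
    · obtain ⟨s, hs⟩ := (hR (invRev w ++ p.1)).1 (by
        rw [← pr_eq_one, pr_append, pr_inv, inv_mul_eq_one]; exact fun h => hp1 h.symm)
      filter_upwards [eventually_ge_atTop s] with t ht using Or.inr (hm s t _ ht hs)
  filter_upwards [(Filter.eventually_all_finset _).2 this] with s hs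
  simp only [check, Bool.and_eq_true, Nat.ble_eq, List.all_eq_true, Bool.or_eq_true]
  exact ⟨h1, fun p hp => hs p (List.mem_toFinset.2 hp)⟩

omit hm hR in
theorem av_cons_lt (x : ℕ) (L : List ℕ) {i : ℕ} (hi : i < L.length) : av (x :: L) i = av L i := by
  simp [av, List.getD_eq_getElem?_getD, List.getElem?_append_left, hi]

omit hm hR in
theorem av_cons_eq (x : ℕ) (L : List ℕ) : av (x :: L) L.length = x.unpair.1 := by
  simp [av, List.getD_eq_getElem?_getD]

omit hm in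
theorem okL_sound {L : List ℕ} (h : okL R L = true) {i : ℕ} (hi : i < L.length) :
    av L i * 2 ^ (L.length - 1 - i) ≤ B N (av L) L.length (pr N (wd n i)) ∧
      (R i (wd n i) = true → 0 < av L i) := by
  simp only [okL, List.all_eq_true, List.mem_range, Bool.and_eq_true, Bool.or_eq_true,
    Bool.not_eq_eq_eq_not, Bool.not_true, Nat.blt_eq] at h
  refine ⟨check_sound hR (gens_pos _ _) (h i hi).1, fun h' => ?_⟩
  rcases (h i hi).2 with h2 | h2
  · simp [h'] at h2
  · exact h2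

theorem okL_step (L : List ℕ) (h : okL R L = true) : ∃ x, okL R (x :: L) = true := by
  set k := L.length with hk
  let a0 := 2 * B N (av L) k (pr N (wd n k))
  let a : ℕ → ℕ := fun i => if i < k then av L i else a0
  have ha : ∀ s i, i < k + 1 → av (Nat.pair a0 s :: L) i = a i := by
    intro s i hi
    rcases Nat.lt_succ_iff_lt_or_eq.1 hi with hi | rfl
    · simp [a, hi, av_cons_lt _ _ hi]
    · simp [a, hk, av_cons_eq]
  have hB : ∀ x, B N a k x = B N (av L) k x := by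
    intro x; unfold B; rw [gens_congr (a' := av L) (fun i hi => by simp [a, hi])]
  have hge := B_succ_ge (N := N) a k (by rw [hB]; simp [a, a0])
  have hev : ∀ i ∈ Finset.range (k + 1), ∀ᶠ s in atTop,
      check R (gens n a (k + 1)) (2 ^ (k + 1)) s (wd n i) (a i * 2 ^ (k + 1 - 1 - i)) = true := by
    intro i hi
    apply check_ev hm hR
    refine le_trans ?_ (hge _)
    rw [hB]
    rcases Nat.lt_succ_iff_lt_or_eq.1 (Finset.mem_range.1 hi) with hi | rfl
    · have := (okL_sound hR h hi).1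
      rw [show k + 1 - 1 - i = (k - 1 - i) + 1 by omega, pow_succ]
      simp only [a, hi, if_true]
      rw [← hk] at this
      nlinarith
    · simp [a, a0]
  obtain ⟨s, hs⟩ := ((Filter.eventually_all_finset _).2 hev).exists
  refine ⟨Nat.pair a0 s, ?_⟩
  simp only [okL, List.all_eq_true, List.mem_range, Bool.and_eq_true, Bool.or_eq_true,
    Bool.not_eq_eq_eq_not, Bool.not_true, Nat.blt_eq, List.length_cons, ← hk]
  intro i hi
  rw [gens_congr (ha s), ha s i hi]
  refine ⟨by simpa using hs i (Finset.mem_range.2 hi), ?_⟩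
  cases hRi : R i (wd n i)
  · exact Or.inl rfl
  right
  rcases Nat.lt_succ_iff_lt_or_eq.1 hi with hi | rfl
  · simpa [a, hi] using (okL_sound hR h hi).2 hRi
  · have : 1 ≤ B N (av L) k (pr N (wd n k)) := bar_pos (gens_pos _ _) Nat.one_le_two_pow
      (fun h1 => (hR _).2 ⟨_, hRi⟩ ((pr_eq_one N _).1 h1))
    simp only [a, a0, lt_self_iff_false, if_false]; omega

theorem exists_seq (hp : Primrec fun q : ℕ × W n => R q.1 q.2) :
    ∃ a : ℕ → ℕ, Computable a ∧ (∀ k i, i < k →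
      a i * 2 ^ (k - 1 - i) ≤ B N a k (pr N (wd n i))) ∧ ∀ i, R i (wd n i) = true → 0 < a i := by
  obtain ⟨f, hf, h0, hs, hok⟩ := CTools.comp_dc (okL R) (okL_prim R hp).to_comp rfl
    (okL_step hm hR)
  have hlen : ∀ k, (f k).length = k := by
    intro k
    induction k with
    | zero => simp [h0]
    | succ k ih => obtain ⟨x, hx⟩ := hs k; simp [hx, ih]
  let a : ℕ → ℕ := fun i => av (f (i + 1)) i
  have ha : ∀ k i, i < k → av (f k) i = a i := by
    intro k i hi
    induction k, hi using Nat.le_induction with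
    | base => rfl
    | succ k hk ih =>
      obtain ⟨x, hx⟩ := hs k
      rw [hx, av_cons_lt _ _ (by rw [hlen]; omega), ih]
  refine ⟨a, ?_, fun k i hi => ?_, fun i hi => ?_⟩
  · exact (show Primrec fun q : List ℕ × ℕ => av q.1 q.2 by fun_prop).to_comp.comp
      ((hf.comp Computable.succ).pair Computable.id)
  · have := (okL_sound hR (hok k) (i := i) (by rw [hlen]; exact hi)).1
    rw [hlen, ha k i hi] at this
    unfold B at this ⊢
    rwa [gens_congr (ha k)] at this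
  · exact (okL_sound hR (hok (i + 1)) (i := i) (by rw [hlen]; omega)).2 hi

end stage

variable (N) in
noncomputable def ell (a : ℕ → ℕ) (x : FreeGroup (Fin n) ⧸ N) : ℝ :=
  ⨅ k : ℕ, (B N a k x : ℝ) / 2 ^ k

theorem ell_bdd (a : ℕ → ℕ) (x : FreeGroup (Fin n) ⧸ N) :
    BddBelow (Set.range fun k : ℕ => (B N a k x : ℝ) / 2 ^ k) :=
  ⟨0, by rintro _ ⟨k, rfl⟩; positivity⟩

theorem ell_le (a : ℕ → ℕ) (x : FreeGroup (Fin n) ⧸ N) (k : ℕ) :
    ell N a x ≤ (B N a k x : ℝ) / 2 ^ k := ciInf_le (ell_bdd a x) k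

theorem B_anti (a : ℕ → ℕ) (x : FreeGroup (Fin n) ⧸ N) :
    Antitone fun k : ℕ => (B N a k x : ℝ) / 2 ^ k := by
  apply antitone_nat_of_succ_le
  intro k
  have : (B N a (k + 1) x : ℝ) ≤ 2 * B N a k x := by exact_mod_cast B_succ_le a k x
  rw [div_le_div_iff₀ (by positivity) (by positivity), pow_succ]
  have : (0 : ℝ) < 2 ^ k := by positivity
  nlinarith

theorem ell_nonneg (a : ℕ → ℕ) (x : FreeGroup (Fin n) ⧸ N) : 0 ≤ ell N a x :=
  le_ciInf fun k => by positivity

theorem ell_one (a : ℕ → ℕ) : ell N a 1 = 0 := by simp [ell, B, bar_one]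

theorem ell_inv (a : ℕ → ℕ) (x : FreeGroup (Fin n) ⧸ N) : ell N a x⁻¹ = ell N a x := by
  simp [ell, B, bar_inv (gens_inv a _)]

theorem ell_mul (a : ℕ → ℕ) (x y : FreeGroup (Fin n) ⧸ N) :
    ell N a (x * y) ≤ ell N a x + ell N a y := by
  apply le_ciInf_add_ciInf
  intro i j
  have h1 := B_anti a x (le_max_left i j)
  have h2 := B_anti a y (le_max_right i j)
  have h3 := ell_le a (x * y) (max i j)
  have h4 : (B N a (max i j) (x * y) : ℝ) ≤ B N a (max i j) x + B N a (max i j) y := by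
    exact_mod_cast bar_mul _ _ x y
  have h5 : (B N a (max i j) (x * y) : ℝ) / 2 ^ (max i j) ≤
      B N a (max i j) x / 2 ^ (max i j) + B N a (max i j) y / 2 ^ (max i j) := by
    rw [← add_div]; gcongr
  simp only at h1 h2
  linarith

theorem ell_bounds (a : ℕ → ℕ)
    (h : ∀ k i, i < k → a i * 2 ^ (k - 1 - i) ≤ B N a k (pr N (wd n i))) (i : ℕ) :
    (a i : ℝ) / 2 ^ (i + 1) ≤ ell N a (pr N (wd n i)) ∧
      ell N a (pr N (wd n i)) ≤ (a i + 1 : ℝ) / 2 ^ (i + 1) := by
  constructor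
  · apply le_ciInf
    intro k
    refine le_trans ?_ (B_anti a _ (le_max_left k (i + 1)))
    obtain ⟨d, hd⟩ : ∃ d, max k (i + 1) = i + 1 + d := ⟨max k (i + 1) - (i + 1), by omega⟩
    have := h (i + 1 + d) i (by omega)
    rw [show i + 1 + d - 1 - i = d by omega] at this
    have h2 : (a i : ℝ) * 2 ^ d ≤ B N a (i + 1 + d) (pr N (wd n i)) := by exact_mod_cast this
    simp only [hd]
    rw [div_le_div_iff₀ (by positivity) (by positivity), pow_add (2 : ℝ) (i + 1) d]
    have : (0 : ℝ) < 2 ^ (i + 1) := by positivity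
    nlinarith
  · refine (ell_le a _ (i + 1)).trans ?_
    have := B_gen (N := N) a (Nat.lt_succ_self i)
    rw [show i.succ - 1 - i = 0 by omega] at this
    have h2 : (B N a (i + 1) (pr N (wd n i)) : ℝ) ≤ a i + 1 := by
      exact_mod_cast (by simpa using this)
    gcongr

end Pool.Agent.H23.IsoGrp
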