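import Mathlib
import Pool.Agent.H23.IsoGrp

set_option autoImplicit false

namespace Pool.Agent.H23.IsoGrp

open FreeGroup Filter UniformSpace

theorem metric_action {G : Type} [Group G] (l : G → ℝ) (h1 : l 1 = 0)
    (hinv : ∀ x, l x⁻¹ = l x) (hmul : ∀ x y, l (x * y) ≤ l x + l y)
    (hpos : ∀ x, l x = 0 → x = 1) :
    ∃ (X : Type) (_ : MetricSpace X) (_ : CompleteSpace X) (ι : G → X), DenseRange ι ∧
      (∀ x y, dist (ι x) (ι y) = l (x⁻¹ * y)) ∧
      ∃ φ : G →* (X ≃ᵢ X), ∀ g x, φ g (ι x) = ι (g * x) := by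
  let : MetricSpace G :=
    { dist := fun x y => l (x⁻¹ * y)
      dist_self := fun x => by simp [h1]
      dist_comm := fun x y => by rw [← hinv]; simp
      dist_triangle := fun x y z => by
        have := hmul (x⁻¹ * y) (y⁻¹ * z)
        simpa [mul_assoc] using this
      eq_of_dist_eq_zero := fun {x y} h => inv_mul_eq_one.1 (hpos _ h) }
  have hd : ∀ x y : G, dist x y = l (x⁻¹ * y) := fun _ _ => rfl
  have hiso : ∀ g : G, Isometry (fun x : G => g • x) := fun g =>
    Isometry.of_dist_eq fun x y => by simp [hd, mul_assoc]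
  have : UniformContinuousConstSMul G G := ⟨fun g => (hiso g).uniformContinuous⟩
  have : IsIsometricSMul G (Completion G) := ⟨fun g => (hiso g).completion_map⟩
  refine ⟨Completion G, inferInstance, inferInstance, fun x => (x : Completion G),
    Completion.denseRange_coe, fun x y => by rw [Completion.dist_eq, hd],
    { toFun := fun g => IsometryEquiv.constSMul g
      map_one' := by ext x; simp
      map_mul' := fun g h => by ext x; simp [mul_smul] }, fun g x => ?_⟩
  show g • (x : Completion G) = ((g * x : G) : Completion G)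
  rw [← Completion.coe_smul]; rfl

theorem main (n : ℕ) (N : Subgroup (FreeGroup (Fin n))) (hN : N.Normal)
    (hre : REPred (fun w : List (Fin n × Bool) => FreeGroup.mk w ∉ N)) :
      ∃ (X : Type) (_ : MetricSpace X) (_ : CompleteSpace X) (s : ℕ → X),
        DenseRange s ∧
        (∃ q : ℕ × ℕ × ℕ → ℕ, Computable q ∧
          ∀ i j k : ℕ, |dist (s i) (s j) - (q (i, j, k) : ℝ) / 2 ^ k| ≤ 1 / 2 ^ k) ∧
        ∃ φ : FreeGroup (Fin n) →* (X ≃ᵢ X), φ.ker = N ∧
          ∀ g : FreeGroup (Fin n), ∃ h : ℕ × ℕ → ℕ, Computable h ∧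
            ∀ i k : ℕ, dist (φ g (s i)) (s (h (i, k))) ≤ 1 / 2 ^ k := by
  obtain ⟨R, hp, hm, hR⟩ := CTools.re_stage hre
  obtain ⟨a, hac, ha1, ha2⟩ := exists_seq (N := N) hm hR hp
  have hb := ell_bounds (N := N) a ha1
  have hpos : ∀ x : FreeGroup (Fin n) ⧸ N, ell N a x = 0 → x = 1 := by
    intro x hx
    by_contra h1
    obtain ⟨w, rfl⟩ := pr_surj N x
    obtain ⟨s, hs⟩ := (hR w).1 (fun h => h1 ((pr_eq_one N w).2 h))
    have h2 := ha2 (Nat.pair (Encodable.encode w) s)
      (by rw [wd_encode]; exact hm s _ w (Nat.right_le_pair _ _) hs)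
    have h3 := (hb (Nat.pair (Encodable.encode w) s)).1
    rw [wd_encode, hx] at h3
    have : (0 : ℝ) < a (Nat.pair (Encodable.encode w) s) := by exact_mod_cast h2
    have : (0 : ℝ) < a (Nat.pair (Encodable.encode w) s) /
      2 ^ (Nat.pair (Encodable.encode w) s + 1) := by positivity
    linarith
  obtain ⟨X, iX, cX, ι, hd, hdist, φ, hφ⟩ :=
    metric_action (ell N a) (ell_one a) (ell_inv a) (ell_mul a) hpos
  have hsurj : Function.Surjective fun i => pr N (wd n i) := by
    intro x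
    obtain ⟨w, rfl⟩ := pr_surj N x
    exact ⟨Nat.pair (Encodable.encode w) 0, by simp [wd_encode]⟩
  let m : ℕ × ℕ × ℕ → ℕ := fun p =>
    Nat.pair (Encodable.encode (invRev (wd n p.1) ++ wd n p.2.1)) p.2.2
  have hmp : Primrec m := by simp only [m]; fun_prop
  refine ⟨X, iX, cX, fun i => ι (pr N (wd n i)), ?_,
    ⟨fun p => a (m p) / 2 ^ (m p + 1 - p.2.2), ?_, fun i j k => ?_⟩,
    φ.comp (QuotientGroup.mk' N), ?_, fun g => ?_⟩
  · have : Set.range (fun i => ι (pr N (wd n i))) = Set.range ι := hsurj.range_comp ι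
    unfold DenseRange; rw [this]; exact hd
  · exact (show Primrec fun q : ℕ × ℕ × ℕ => q.1 / 2 ^ (q.2.1 + 1 - q.2.2) by fun_prop).to_comp.comp
      ((hac.comp hmp.to_comp).pair (hmp.to_comp.pair (Computable.snd.comp Computable.snd)))
  · obtain ⟨h1, h2⟩ := hb (m (i, j, k))
    have hk : k ≤ m (i, j, k) := Nat.right_le_pair _ _
    have hw : pr N (wd n (m (i, j, k))) = (pr N (wd n i))⁻¹ * pr N (wd n j) := by
      simp [m, wd_encode]
    rw [hw] at h1 h2
    rw [hdist]
    obtain ⟨d, hd'⟩ : ∃ d, m (i, j, k) + 1 = k + d := ⟨m (i, j, k) + 1 - k, by omega⟩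
    simp only
    rw [hd'] at h1 h2
    rw [show m (i, j, k) + 1 - k = d by omega]
    generalize a (m (i, j, k)) = A at h1 h2 ⊢
    generalize ell N a _ = e at h1 h2 ⊢
    have hD : 0 < 2 ^ d := by positivity
    have e1 : A / 2 ^ d * 2 ^ d ≤ A := Nat.div_mul_le_self _ _
    have e2 : A + 1 ≤ (A / 2 ^ d + 1) * 2 ^ d := by
      have := Nat.lt_div_mul_add (a := A) hD
      nlinarith
    generalize A / 2 ^ d = Q at e1 e2 ⊢
    have e1' : (Q : ℝ) * 2 ^ d ≤ A := by exact_mod_cast e1
    have e2' : (A : ℝ) + 1 ≤ (Q + 1) * 2 ^ d := by exact_mod_cast e2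
    have p1 : (0 : ℝ) < 2 ^ k := by positivity
    have p2 : (0 : ℝ) < 2 ^ d := by positivity
    have f1 : (Q : ℝ) / 2 ^ k ≤ A / 2 ^ (k + d) := by
      rw [div_le_div_iff₀ (by positivity) (by positivity), pow_add]; nlinarith
    have f2 : ((A : ℝ) + 1) / 2 ^ (k + d) ≤ (Q + 1) / 2 ^ k := by
      rw [div_le_div_iff₀ (by positivity) (by positivity), pow_add]; nlinarith
    have f3 : ((Q : ℝ) + 1) / 2 ^ k = Q / 2 ^ k + 1 / 2 ^ k := add_div _ _ _
    have f4 : (0 : ℝ) < 1 / 2 ^ k := by positivity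
    rw [abs_le]; constructor <;> linarith
  · ext g
    rw [MonoidHom.mem_ker, MonoidHom.comp_apply, QuotientGroup.mk'_apply,
      ← QuotientGroup.eq_one_iff g]
    constructor
    · intro h
      have h1 := hφ (g : FreeGroup (Fin n) ⧸ N) 1
      rw [h] at h1
      have h2 : ι 1 = ι ((g : FreeGroup (Fin n) ⧸ N) * 1) := h1
      have h3 := hdist 1 ((g : FreeGroup (Fin n) ⧸ N) * 1)
      rw [← h2, dist_self] at h3
      simpa using hpos _ h3.symm
    · intro h; rw [h, MonoidHom.map_one]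
  · refine ⟨fun p => Nat.pair (Encodable.encode (g.toWord ++ wd n p.1)) 0,
      (show Primrec _ by fun_prop).to_comp, fun i k => ?_⟩
    simp only [MonoidHom.comp_apply, QuotientGroup.mk'_apply, hφ, wd_encode, pr_append]
    rw [show pr N g.toWord = (g : FreeGroup (Fin n) ⧸ N) by rw [pr, FreeGroup.mk_toWord],
      dist_self]
    positivity

end Pool.Agent.H23.IsoGrp
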