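import Mathlib
import Pool.Agent.H23.Chain

set_option autoImplicit false

namespace Pool.Agent.H23.DIP

/-- Cancellative chains. -/
def Canc (A : Type) [FLew A] : Prop := Tot A ∧ ∀ x y z : A, z ≠ ⊥ → x * z ≤ y * z → x ≤ y

theorem bot_mul' {A : Type} [FLew A] (x : A) : ⊥ * x = ⊥ := le_bot_iff.1 (mul_le' _ _)
theorem mul_bot' {A : Type} [FLew A] (x : A) : x * ⊥ = ⊥ := le_bot_iff.1 (mul_le _ _)
theorem le_imp' {A : Type} [FLew A] (x y : A) : y ≤ FLew.imp x y := (FLew.res _ _ _).1 (mul_le' _ _)

theorem Canc.mul_ne {A : Type} [FLew A] (c : Canc A) {x y : A} (h : x ≠ ⊥) (k : y ≠ ⊥) :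
    x * y ≠ ⊥ := fun e => h (le_bot_iff.1 (c.2 _ _ _ k (by rw [e, bot_mul'])))

theorem Canc.imp_bot {A : Type} [FLew A] (c : Canc A) {x : A} (h : x ≠ ⊥) : FLew.imp x ⊥ = ⊥ :=
  by_contra fun e => c.mul_ne e h (le_bot_iff.1 (imp_mul _ _))

variable {ι : Type} [LinearOrder ι] [WellFoundedLT ι] (A : ι → Type) [∀ i, FLew (A i)]

/-- The lexicographic product. -/
def LP (_ : ∀ i, Canc (A i) ∧ (1 : A i) ≠ ⊥) : Type :=
  {x : ∀ i, A i // (∀ i, x i ≠ ⊥) ∨ ∀ i, x i = ⊥}

variable {A} {c : ∀ i, Canc (A i) ∧ (1 : A i) ≠ ⊥}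

noncomputable instance : LinearOrder (LP A c) where
  le x y := ∀ i, (∀ j < i, x.1 j = y.1 j) → x.1 i ≤ y.1 i
  le_refl _ _ _ := le_rfl
  le_trans x y z h k i e := by
    have : ∀ j, j < i → x.1 j = y.1 j := fun j => by
      induction j using WellFoundedLT.induction with
      | ind j n =>
        exact fun l => le_antisymm (h j fun m o => n m o (o.trans l))
          (e j l ▸ k j fun m o => (n m o (o.trans l)).symm.trans (e m (o.trans l)))
    exact (h i this).trans (k i fun j l => (this j l).symm.trans (e j l))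
  le_antisymm x y h k := Subtype.ext (funext fun j => by
    induction j using WellFoundedLT.induction with
    | ind j n => exact le_antisymm (h j n) (k j fun m o => (n m o).symm))
  le_total x y := by
    refine or_iff_not_imp_left.2 fun h k e => ?_
    obtain ⟨i, h⟩ := not_forall.1 h
    obtain ⟨h1, h2⟩ := Classical.not_imp.1 h
    rcases lt_trichotomy k i with l | rfl | l
    exacts [(h1 k l).ge, ((c k).1.1 _ _).resolve_left h2, absurd (e i l).ge h2]
  toDecidableLE := Classical.decRel _

open Classical in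
/-- The residual. -/
noncomputable def rs (x y : ∀ i, A i) (i : ι) : A i :=
  if ∀ j < i, FLew.imp (x j) (y j) * x j = y j then FLew.imp (x i) (y i) else 1

omit [WellFoundedLT ι] in
theorem rs_bot {x : ∀ i, A i} (h : ∀ i, x i = ⊥) (y : ∀ i, A i) (i : ι) : rs x y i = 1 := by
  simp [rs, h i, imp_one]

omit [WellFoundedLT ι] in
theorem rs_bot' (c : ∀ i, Canc (A i) ∧ (1 : A i) ≠ ⊥) {x y : ∀ i, A i} (h : ∀ i, x i ≠ ⊥)
    (k : ∀ i, y i = ⊥) (i : ι) : rs x y i = ⊥ := by
  simp [rs, k, fun i => (c i).1.imp_bot (h i), bot_mul']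

noncomputable instance : FLew (LP A c) where
  top := ⟨1, .inl fun i => (c i).2⟩
  bot := ⟨⊥, .inr fun _ => rfl⟩
  le_top _ _ _ := le_one' _
  bot_le _ _ _ := bot_le
  mul x y := ⟨x.1 * y.1, by
    rcases x.2 with h | h
    · rcases y.2 with k | k
      exacts [.inl fun i => (c i).1.mul_ne (h i) (k i), .inr fun i => by simp [k i, mul_bot']]
    · exact .inr fun i => by simp [h i, bot_mul']⟩
  one := ⟨1, .inl fun i => (c i).2⟩
  mul_assoc _ _ _ := Subtype.ext (mul_assoc _ _ _)
  mul_comm _ _ := Subtype.ext (mul_comm _ _)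
  one_mul _ := Subtype.ext (one_mul _)
  mul_one _ := Subtype.ext (mul_one _)
  imp x y := ⟨rs x.1 y.1, by
    rcases x.2 with h | h
    · rcases y.2 with k | k
      · refine .inl fun i e => ?_
        unfold rs at e
        split_ifs at e
        exacts [k i (le_bot_iff.1 (e ▸ le_imp' _ _)), (c i).2 e]
      · exact .inr (rs_bot' c h k)
    · exact .inl fun i => rs_bot h _ i ▸ (c i).2⟩
  res w x y := by
    change (∀ i, (∀ j < i, w.1 j * x.1 j = y.1 j) → w.1 i * x.1 i ≤ y.1 i) ↔
      ∀ i, (∀ j < i, w.1 j = rs x.1 y.1 j) → w.1 i ≤ rs x.1 y.1 i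
    rcases x.2 with h | h
    · refine ⟨fun k i e => ?_, fun k i e => ?_⟩
      · unfold rs
        split_ifs with l
        · refine (FLew.res _ _ _).1 (k i fun j m => ?_)
          rw [e j m, rs, if_pos fun n o => l n (o.trans m), l j m]
        · exact le_one' _
      · have a : ∀ j < i, FLew.imp (x.1 j) (y.1 j) = w.1 j := fun j m => le_antisymm
          ((c j).1.2 _ _ _ (h j) (e j m ▸ imp_mul _ _)) ((FLew.res _ _ _).1 (e j m).le)
        have := k i fun j m => by
          rw [rs, if_pos fun n o => by rw [a n (o.trans m), e n (o.trans m)], a j m]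
        rwa [rs, if_pos fun n o => by rw [a n o, e n o], ← FLew.res] at this
    · simp [rs_bot h, h, mul_bot', le_one']
  one_eq := rfl

theorem LP.canc : Canc (LP A c) := ⟨le_total, fun x y z h k i e => by
  rcases z.2 with l | l
  · exact (c i).1.2 _ _ _ (l i) (k i fun j m => congrArg (· * z.1 j) (e j m))
  · exact absurd (Subtype.ext (funext l)) h⟩

open Classical in
/-- The embedding of a factor. -/
noncomputable def LP.emb (c : ∀ i, Canc (A i) ∧ (1 : A i) ≠ ⊥) (i : ι) (a : A i) : LP A c :=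
  ⟨Function.update (fun _ => if a = ⊥ then ⊥ else 1) i a, by
    by_cases h : a = ⊥
    · exact .inr fun j => by by_cases e : j = i <;> [subst e; skip] <;> simp [*]
    · exact .inl fun j => by by_cases e : j = i <;> [subst e; skip] <;> simp [*, (c _).2]⟩

theorem LP.ev_emb (i : ι) (v : ℕ → A i) (φ : Fm) (h : ev (fun n => LP.emb c i (v n)) φ = 1) :
    ev v φ = 1 := by
  have m : ∀ x y, x ≤ y → LP.emb c i x ≤ LP.emb c i y := fun x y h j _ => by
    by_cases e : j = i
    · subst e; simpa [LP.emb]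
    · by_cases k : y = ⊥
      · simp [LP.emb, k, le_bot_iff.1 (k ▸ h)]
      · simp [LP.emb, e, k, le_one']
  rw [ev_hom (LP.emb c i)] at h
  · exact Eq.trans (by simp [LP.emb]) (congrFun (congrArg Subtype.val h) i)
  · exact Subtype.ext (funext fun j => by by_cases e : j = i <;> [subst e; skip] <;> simp [*, LP.emb] <;> rfl)
  · exact Subtype.ext (funext fun j => by
      by_cases e : j = i <;> [subst e; skip] <;> simp [*, LP.emb, (c _).2] <;> rfl)
  · refine fun x y => Subtype.ext (funext fun j => ?_)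
    change _ = (LP.emb c i x).1 j * (LP.emb c i y).1 j
    by_cases e : j = i
    · subst e; simp [LP.emb]
    · by_cases k : x = ⊥
      · simp [LP.emb, e, k, bot_mul']
      · by_cases l : y = ⊥
        · simp [LP.emb, e, l, mul_bot']
        · simp [LP.emb, e, l, k, (c i).1.mul_ne k l]
  · refine fun x y => Subtype.ext (funext fun j => ?_)
    change _ = rs (LP.emb c i x).1 (LP.emb c i y).1 j
    by_cases k : x = ⊥
    · rw [rs_bot fun j => by by_cases e : j = i <;> [subst e; skip] <;> simp [*, LP.emb],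
        (imp_one _ _).2 (k ▸ bot_le)]
      by_cases e : j = i <;> [subst e; skip] <;> simp [*, LP.emb, (c _).2]
    by_cases l : y = ⊥
    · rw [rs_bot' c (fun j => by
        by_cases e : j = i <;> [subst e; skip] <;> simp [*, LP.emb, (c _).2])
        (fun j => by by_cases e : j = i <;> [subst e; skip] <;> simp [*, LP.emb]), l,
        (c i).1.imp_bot k]
      by_cases e : j = i <;> [subst e; skip] <;> simp [*, LP.emb]
    have : FLew.imp x y ≠ ⊥ := fun e => l (le_bot_iff.1 (e ▸ le_imp' _ _))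
    by_cases e : j = i
    · subst e
      rw [rs, if_pos fun n o => by simp [LP.emb, o.ne, k, l, one_imp]]
      simp [LP.emb]
    · simp [LP.emb, rs, e, k, l, this, one_imp]
  · exact fun x y => ((c i).1.1 x y).elim
      (fun h => by rw [sup_eq_right.2 h, sup_eq_right.2 (m _ _ h)])
      fun h => by rw [sup_eq_left.2 h, sup_eq_left.2 (m _ _ h)]
  · exact fun x y => ((c i).1.1 x y).elim
      (fun h => by rw [inf_eq_left.2 h, inf_eq_left.2 (m _ _ h)])
      fun h => by rw [inf_eq_right.2 h, inf_eq_right.2 (m _ _ h)]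

end Pool.Agent.H23.DIP
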