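import Mathlib

set_option autoImplicit false

open Set

namespace Pool.Agent.H23.MU1

section Kat
variable {Y : Type} (D : Y → Y → ℝ)

structure PM : Prop where
  refl : ∀ p, D p p = 0
  symm : ∀ p q, D p q = D q p
  tri : ∀ p q r, D p r ≤ D p q + D q r

structure Kat (F : Y → ℝ) : Prop where
  lip : ∀ p q, F p ≤ F q + D q p
  sum : ∀ p q, D p q ≤ F p + F q

variable {D}

theorem PM.nonneg (h : PM D) (p q : Y) : 0 ≤ D p q := by
  have := h.tri p q p
  rw [h.refl, h.symm q p] at this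
  linarith

theorem PM.kat (h : PM D) (p : Y) : Kat D (D p) :=
  ⟨fun q r => h.tri p r q, fun q r => by rw [h.symm p q]; exact h.tri q p r⟩

noncomputable def kd (F G : Y → ℝ) : ℝ := ⨆ r, |F r - G r|

theorem kd_bdd [Nonempty Y] (h : PM D) {F G : Y → ℝ} (hF : Kat D F) (hG : Kat D G) :
    BddAbove (range fun r => |F r - G r|) := by
  obtain ⟨r0⟩ := ‹Nonempty Y›
  refine ⟨F r0 + G r0, ?_⟩
  rintro _ ⟨r, rfl⟩
  have a1 := hF.lip r r0
  have a2 := hG.lip r r0
  have a3 := hF.sum r0 r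
  have a4 := hG.sum r0 r
  rw [abs_le]
  constructor <;> linarith

theorem le_kd [Nonempty Y] (h : PM D) {F G : Y → ℝ} (hF : Kat D F) (hG : Kat D G) (r : Y) :
    |F r - G r| ≤ kd F G := le_ciSup (kd_bdd h hF hG) r

theorem kd_le [Nonempty Y] {F G : Y → ℝ} {c : ℝ} (hc : ∀ r, |F r - G r| ≤ c) : kd F G ≤ c :=
  ciSup_le hc

theorem kd_pt [Nonempty Y] (h : PM D) {F : Y → ℝ} (hF : Kat D F) (q : Y) :
    kd F (D q) = F q := by
  apply le_antisymm
  · apply kd_le
    intro r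
    have a1 := hF.lip r q
    have a2 := hF.sum q r
    rw [abs_le]
    constructor <;> linarith
  · have := le_kd h hF (h.kat q) q
    rw [h.refl, sub_zero] at this
    exact (le_abs_self _).trans this

theorem pm_kd [Nonempty Y] (h : PM D) (Φ : Y → Y → ℝ) (hΦ : ∀ p, Kat D (Φ p)) :
    PM (fun p q => kd (Φ p) (Φ q)) := by
  refine ⟨fun p => by simp [kd], fun p q => by simp only [kd, abs_sub_comm], fun p q r => ?_⟩
  apply kd_le
  intro s
  have a1 := le_kd h (hΦ p) (hΦ q) s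
  have a2 := le_kd h (hΦ q) (hΦ r) s
  exact (abs_sub_le _ (Φ q s) _).trans (add_le_add a1 a2)

end Kat

section Ext
variable {H : Type} [Group H]

def act (h : H) (p : H × ℕ) : H × ℕ := (h * p.1, p.2)

theorem act_act (h g : H) (p : H × ℕ) : act h (act g p) = act (h * g) p := by
  simp [act, mul_assoc]

@[simp] theorem act_one (p : H × ℕ) : act 1 p = p := by simp [act]

def Inv (D : H × ℕ → H × ℕ → ℝ) : Prop := ∀ h p q, D (act h p) (act h q) = D p q

theorem Inv.move {D : H × ℕ → H × ℕ → ℝ} (hi : Inv D) (h : H) (p q : H × ℕ) :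
    D p (act h q) = D (act h⁻¹ p) q := by
  rw [← hi h⁻¹, act_act, inv_mul_cancel, act_one]

open Classical in
noncomputable def phi (D : H × ℕ → H × ℕ → ℝ) (F : H × ℕ → ℝ) (n : ℕ) (p : H × ℕ) :
    H × ℕ → ℝ :=
  if p.2 = n then fun r => F (act p.1⁻¹ r) else D p

noncomputable def ext (D : H × ℕ → H × ℕ → ℝ) (F : H × ℕ → ℝ) (n : ℕ) (p q : H × ℕ) : ℝ :=
  kd (phi D F n p) (phi D F n q)

variable {D : H × ℕ → H × ℕ → ℝ} {F : H × ℕ → ℝ}

theorem kat_phi (h : PM D) (hi : Inv D) (hF : Kat D F) (n : ℕ) (p : H × ℕ) :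
    Kat D (phi D F n p) := by
  unfold phi
  split_ifs
  · exact ⟨fun q r => by rw [← hi p.1⁻¹ r q]; exact hF.lip _ _,
      fun q r => by rw [← hi p.1⁻¹ q r]; exact hF.sum _ _⟩
  · exact h.kat p

theorem pm_ext (h : PM D) (hi : Inv D) (hF : Kat D F) (n : ℕ) : PM (ext D F n) :=
  pm_kd h _ (kat_phi h hi hF n)

theorem phi_act (hi : Inv D) (n : ℕ) (g : H) (p r : H × ℕ) :
    phi D F n (act g p) (act g r) = phi D F n p r := by
  unfold phi
  by_cases hp : p.2 = n
  · have : (act g p).2 = n := hp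
    rw [if_pos hp, if_pos this, act_act]
    simp [act]
  · have : ¬ (act g p).2 = n := hp
    rw [if_neg hp, if_neg this]
    exact hi g p r

theorem inv_ext (hi : Inv D) (n : ℕ) : Inv (ext D F n) := by
  intro g p q
  unfold ext kd
  have hs : Function.Surjective (act g : H × ℕ → H × ℕ) := fun r =>
    ⟨act g⁻¹ r, by rw [act_act, mul_inv_cancel, act_one]⟩
  rw [← hs.iSup_comp]
  simp only [phi_act hi]

theorem ext_old (h : PM D) (n : ℕ) {p q : H × ℕ} (hp : p.2 ≠ n) (hq : q.2 ≠ n) :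
    ext D F n p q = D p q := by
  unfold ext phi
  rw [if_neg hp, if_neg hq]
  exact kd_pt h (h.kat p) q

theorem ext_new (h : PM D) (hF : Kat D F) (n : ℕ) {q : H × ℕ} (hq : q.2 ≠ n) :
    ext D F n (1, n) q = F q := by
  unfold ext phi
  rw [if_pos rfl, if_neg hq]
  simp only [inv_one, act_one]
  exact kd_pt h hF q

theorem ext_lip (n : ℕ) (g : H) (c : ℝ) (h1 : ∀ r, F (act g r) ≤ F r + c)
    (h2 : ∀ r, F (act g⁻¹ r) ≤ F r + c) : ext D F n (1, n) (g, n) ≤ c := by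
  unfold ext phi
  rw [if_pos rfl, if_pos rfl]
  apply kd_le
  intro r
  simp only [inv_one, act_one]
  have a1 := h2 r
  have a2 := h1 (act g⁻¹ r)
  rw [act_act, mul_inv_cancel, act_one] at a2
  rw [abs_le]
  constructor <;> linarith

end Ext

/-- codes -/
noncomputable def code : ℕ → (ℕ × List ℚ) × ℕ := fun n =>
  (Encodable.decode (α := (ℕ × List ℚ) × ℕ) n).getD ((0, []), 0)

theorem code_inf (t : ℕ × List ℚ) (N : ℕ) : ∃ n, N ≤ n ∧ (code n).1 = t := by
  have hinf : (range fun i : ℕ => Encodable.encode ((t, i) : (ℕ × List ℚ) × ℕ)).Infinite :=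
    infinite_range_of_injective fun i j hij => by
      simpa using Encodable.encode_injective hij
  obtain ⟨_, ⟨i, rfl⟩, hi⟩ := hinf.exists_gt N
  exact ⟨_, hi.le, by simp only [code, Encodable.encodek, Option.getD_some]⟩

def Good (e : ℕ → ℕ → ℝ) (n : ℕ) (t : ℕ × (ℕ → ℝ)) : Prop :=
  t.1 ≤ n ∧ ∀ a ≤ t.1, ∀ b ≤ t.1, e a b ≤ t.2 a + t.2 b

noncomputable def raw (n : ℕ) : ℕ × (ℕ → ℝ) :=
  ((code n).1.1, fun a => (((code n).1.2.getD a 0 : ℚ) : ℝ))

open Classical in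
noncomputable def dat' (e : ℕ → ℕ → ℝ) (n : ℕ) : ℕ × (ℕ → ℝ) :=
  if Good e n (raw n) then raw n else (0, fun _ => 0)

noncomputable def mn (t : ℕ × (ℕ → ℝ)) (u : ℕ → ℝ) : ℝ :=
  (Finset.range (t.1 + 1)).inf' ⟨0, by simp⟩ fun a => t.2 a + u a

theorem mn_le (t : ℕ × (ℕ → ℝ)) (u : ℕ → ℝ) {a : ℕ} (ha : a ≤ t.1) : mn t u ≤ t.2 a + u a :=
  Finset.inf'_le (fun a => t.2 a + u a) (Finset.mem_range.2 (Nat.lt_succ_of_le ha))

theorem mn_eq (t : ℕ × (ℕ → ℝ)) (u : ℕ → ℝ) : ∃ a ≤ t.1, mn t u = t.2 a + u a := by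
  obtain ⟨a, ha, h⟩ := Finset.exists_mem_eq_inf' (s := Finset.range (t.1 + 1)) ⟨0, by simp⟩
    (fun a => t.2 a + u a)
  exact ⟨a, Nat.lt_succ_iff.1 (Finset.mem_range.1 ha), h⟩

theorem mn_congr (t : ℕ × (ℕ → ℝ)) {u v : ℕ → ℝ} (h : ∀ a ≤ t.1, u a = v a) :
    mn t u = mn t v := by
  unfold mn
  apply Finset.inf'_congr _ rfl
  intro a ha
  rw [h a (Nat.lt_succ_iff.1 (Finset.mem_range.1 ha))]

/-- stages of the universal countable pseudometric -/
noncomputable def e : ℕ → ℕ → ℕ → ℝ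
  | 0 => fun _ _ => 0
  | n + 1 => fun a b =>
      if a = n + 1 then (if b = n + 1 then 0 else mn (dat' (e n) n) fun c => e n c b)
      else if b = n + 1 then mn (dat' (e n) n) fun c => e n c a else e n a b

noncomputable def dat (n : ℕ) : ℕ × (ℕ → ℝ) := dat' (e n) n

theorem e00 (n : ℕ) : e n 0 0 = 0 := by
  induction n with
  | zero => rfl
  | succ n ih => simp [e, ih]

theorem good_dat (n : ℕ) : Good (e n) n (dat n) := by
  unfold dat dat'
  split_ifs with h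
  · exact h
  · refine ⟨Nat.zero_le _, fun a ha b hb => ?_⟩
    simp only [Nat.le_zero] at ha hb
    subst ha hb
    simp [e00]

/-- Lipschitz constants -/
noncomputable def L (n : ℕ) : ℝ := 1 + ∑ a ∈ Finset.range (n + 1), (a : ℝ) * (1 + |e a a 0|)

theorem L_zero : L 0 = 1 := by simp [L]

theorem L_mono : Monotone L := by
  apply monotone_nat_of_le_succ
  intro n
  unfold L
  rw [Finset.sum_range_succ _ (n + 1)]
  have : (0 : ℝ) ≤ ((n + 1 : ℕ) : ℝ) * (1 + |e (n + 1) (n + 1) 0|) := by positivity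
  linarith

theorem one_le_L (n : ℕ) : 1 ≤ L n := L_zero ▸ L_mono (Nat.zero_le n)

theorem le_L (n : ℕ) : (n : ℝ) * (1 + |e n n 0|) ≤ L n := by
  unfold L
  have := Finset.single_le_sum (f := fun a : ℕ => (a : ℝ) * (1 + |e a a 0|))
    (s := Finset.range (n + 1)) (fun a _ => by positivity) (Finset.self_mem_range_succ n)
  linarith

theorem nat_le_L (n : ℕ) : (n : ℝ) ≤ L n := by
  have := le_L n
  have h2 : (0 : ℝ) ≤ n * |e n n 0| := by positivity
  linarith

end Pool.Agent.H23.MU1
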