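import Pool.Agent.H23.MU1

set_option autoImplicit false

open Set

namespace Pool.Agent.H23.MU1

variable {H : Type} [Group H]

structure Nrm (ρ : H → ℝ) : Prop where
  one : ρ 1 = 0
  inv : ∀ g, ρ g⁻¹ = ρ g
  mul : ∀ g h, ρ (g * h) ≤ ρ g + ρ h
  conj : ∀ g : H, ∀ ε : ℝ, 0 < ε → ∃ δ : ℝ, 0 < δ ∧ ∀ h, ρ h < δ → ρ (g⁻¹ * h * g) ≤ ε

theorem Nrm.nonneg {ρ : H → ℝ} (h : Nrm ρ) (g : H) : 0 ≤ ρ g := by
  have := h.mul g g⁻¹
  rw [mul_inv_cancel, h.one, h.inv] at this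
  linarith

noncomputable def P (D : H × ℕ → H × ℕ → ℝ) (n : ℕ) (p : H × ℕ) : ℝ :=
  mn (dat n) fun a => D (1, a) p

noncomputable def Zt (ρ : H → ℝ) (D : H × ℕ → H × ℕ → ℝ) (n : ℕ) (z : (H × ℕ) × ℝ)
    (p : H × ℕ) : ℝ :=
  ⨅ h : H, (L (n + 1) * ρ h + z.2 + D (act h z.1) p)

def Ach (D : H × ℕ → H × ℕ → ℝ) (n : ℕ) (z : (H × ℕ) × ℝ) : Prop :=
  z.1.2 ≤ n ∧ ∃ m ≤ n, D z.1 (1, m) ≤ z.2

def Adm (ρ : H → ℝ) (D : H × ℕ → H × ℕ → ℝ) (n : ℕ) (z : (H × ℕ) × ℝ) : Prop :=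
  z.1.2 ≤ n ∧ 0 ≤ z.2 ∧ (∀ m ≤ n, P D n (1, m) ≤ z.2 + D z.1 (1, m)) ∧
    (∀ a ≤ (dat n).1, D z.1 (1, a) ≤ z.2 + (dat n).2 a) ∧
    ∀ h, D (act h z.1) z.1 ≤ 2 * z.2 + L (n + 1) * ρ h

def Act (ρ : H → ℝ) (tg : ℕ → (H × ℕ) × ℝ) (D : H × ℕ → H × ℕ → ℝ) (n j : ℕ) : Prop :=
  ¬ Ach D n (tg j) ∧ (∀ i < j, Ach D n (tg i)) ∧ Adm ρ D n (tg j)

open Classical in
noncomputable def FF (ρ : H → ℝ) (tg : ℕ → (H × ℕ) × ℝ) (D : H × ℕ → H × ℕ → ℝ) (n : ℕ) :
    H × ℕ → ℝ :=
  if hc : ∃ j, Act ρ tg D n j then fun p => min (P D n p) (Zt ρ D n (tg hc.choose) p)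
  else P D n

noncomputable def DD (ρ : H → ℝ) (tg : ℕ → (H × ℕ) × ℝ) : ℕ → H × ℕ → H × ℕ → ℝ
  | 0 => fun p q => ρ (p.1⁻¹ * q.1)
  | n + 1 => ext (DD ρ tg n) (FF ρ tg (DD ρ tg n) n) (n + 1)

structure St (ρ : H → ℝ) (D : H × ℕ → H × ℕ → ℝ) (n : ℕ) : Prop where
  pm : PM D
  inv : Inv D
  lip : ∀ a ≤ n, ∀ h, D (1, a) (h, a) ≤ L a * ρ h
  eq : ∀ a ≤ n, ∀ b ≤ n, D (1, a) (1, b) = e n a b
  base : ∀ h, D (1, 0) (h, 0) = ρ h

section step
variable {ρ : H → ℝ} (hρ : Nrm ρ) {D : H × ℕ → H × ℕ → ℝ} {n : ℕ} (s : St ρ D n)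
include hρ s

theorem lipP {a : ℕ} (ha : a ≤ n) (h : H) (p : H × ℕ) :
    D (1, a) (act h p) ≤ D (1, a) p + L (n + 1) * ρ h := by
  rw [s.inv.move]
  have a1 := s.pm.tri (act h⁻¹ (1, a)) (1, a) p
  have a2 : D (act h⁻¹ (1, a)) (1, a) ≤ L a * ρ h := by
    rw [s.pm.symm, ← hρ.inv h]
    simpa [act] using s.lip a ha h⁻¹
  have a3 : L a * ρ h ≤ L (n + 1) * ρ h :=
    mul_le_mul_of_nonneg_right (L_mono (by omega)) (hρ.nonneg h)
  linarith

theorem P_kat : Kat D (P D n) := by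
  obtain ⟨hk, hg⟩ := good_dat n
  constructor
  · intro p q
    obtain ⟨a, ha, h⟩ := mn_eq (dat n) fun a => D (1, a) q
    have a1 := mn_le (dat n) (fun a => D (1, a) p) ha
    have a2 := s.pm.tri (1, a) q p
    unfold P
    linarith
  · intro p q
    obtain ⟨a, ha, h⟩ := mn_eq (dat n) fun a => D (1, a) p
    obtain ⟨b, hb, h'⟩ := mn_eq (dat n) fun a => D (1, a) q
    have a1 := hg a ha b hb
    rw [← s.eq a (ha.trans hk) b (hb.trans hk)] at a1
    have a2 := s.pm.tri p (1, a) q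
    have a3 := s.pm.tri (1, a) (1, b) q
    have a4 := s.pm.symm p (1, a)
    unfold P
    linarith

theorem P_lip (h : H) (p : H × ℕ) : P D n (act h p) ≤ P D n p + L (n + 1) * ρ h := by
  obtain ⟨hk, -⟩ := good_dat n
  obtain ⟨a, ha, h1⟩ := mn_eq (dat n) fun a => D (1, a) p
  have a1 := mn_le (dat n) (fun a => D (1, a) (act h p)) ha
  have a2 := lipP hρ s (ha.trans hk) h p
  unfold P
  linarith

variable {z : (H × ℕ) × ℝ} (hz : Adm ρ D n z)
include hz

theorem Zt_le (p : H × ℕ) (h : H) :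
    Zt ρ D n z p ≤ L (n + 1) * ρ h + z.2 + D (act h z.1) p := by
  refine ciInf_le ⟨0, ?_⟩ h
  rintro _ ⟨g, rfl⟩
  have := s.pm.nonneg (act g z.1) p
  have := mul_nonneg (zero_le_one.trans (one_le_L (n + 1))) (hρ.nonneg g)
  have := hz.2.1
  show 0 ≤ _
  linarith

omit hρ s hz in
theorem le_Zt (p : H × ℕ) {c : ℝ}
    (hc : ∀ h, c ≤ L (n + 1) * ρ h + z.2 + D (act h z.1) p) : c ≤ Zt ρ D n z p :=
  le_ciInf hc

theorem Zt_lip1 (p q : H × ℕ) : Zt ρ D n z p ≤ Zt ρ D n z q + D q p := by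
  rw [← sub_le_iff_le_add]
  apply le_Zt
  intro h
  have a1 := Zt_le hρ s hz p h
  have a2 := s.pm.tri (act h z.1) q p
  linarith

theorem Zt_lip (g : H) (p : H × ℕ) :
    Zt ρ D n z (act g p) ≤ Zt ρ D n z p + L (n + 1) * ρ g := by
  rw [← sub_le_iff_le_add]
  apply le_Zt
  intro h
  have a1 := Zt_le hρ s hz (act g p) (g * h)
  rw [← act_act, s.inv] at a1
  have a2 := mul_le_mul_of_nonneg_left (hρ.mul g h) (zero_le_one.trans (one_le_L (n + 1)))
  linarith

theorem Zt_sum (p q : H × ℕ) : D p q ≤ Zt ρ D n z p + Zt ρ D n z q := by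
  rw [← sub_le_iff_le_add]
  apply le_Zt
  intro h
  rw [sub_le_comm]
  apply le_Zt
  intro g
  have a1 := hz.2.2.2.2 (g⁻¹ * h)
  rw [← act_act, ← s.inv.move] at a1
  have a2 := s.pm.tri p (act h z.1) q
  have a3 := s.pm.tri (act h z.1) (act g z.1) q
  have a4 := s.pm.symm p (act h z.1)
  have a5 := hρ.mul g⁻¹ h
  rw [hρ.inv] at a5
  have a6 := mul_le_mul_of_nonneg_left a5 (zero_le_one.trans (one_le_L (n + 1)))
  linarith

theorem PZ_sum (p q : H × ℕ) : D p q ≤ P D n p + Zt ρ D n z q := by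
  obtain ⟨hk, -⟩ := good_dat n
  rw [← sub_le_iff_le_add']
  apply le_Zt
  intro h
  obtain ⟨a, ha, h1⟩ := mn_eq (dat n) fun a => D (1, a) p
  have a1 := hz.2.2.2.1 a ha
  have a2 := lipP hρ s (ha.trans hk) h z.1
  have a3 := s.pm.tri p (1, a) q
  have a4 := s.pm.tri (1, a) (act h z.1) q
  have a5 := s.pm.symm p (1, a)
  have a6 := s.pm.symm z.1 (1, a)
  unfold P
  linarith

theorem P_le_Zt {m : ℕ} (hm : m ≤ n) : P D n (1, m) ≤ Zt ρ D n z (1, m) := by
  apply le_Zt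
  intro h
  have a1 := hz.2.2.1 m hm
  have a2 := lipP hρ s hm h⁻¹ (act h z.1)
  rw [act_act, inv_mul_cancel, act_one, hρ.inv] at a2
  have a3 := s.pm.symm z.1 (1, m)
  have a4 := s.pm.symm (act h z.1) (1, m)
  linarith

theorem Zt_z : Zt ρ D n z z.1 ≤ z.2 := by
  have := Zt_le hρ s hz z.1 1
  rw [act_one, s.pm.refl, hρ.one] at this
  linarith

omit hz

variable (tg : ℕ → (H × ℕ) × ℝ)

theorem FF_kat : Kat D (FF ρ tg D n) := by
  unfold FF
  split_ifs with hc
  · have hz := hc.choose_spec.2.2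
    constructor
    · intro p q
      have a1 := (P_kat hρ s).lip p q
      have a2 := Zt_lip1 hρ s hz p q
      rcases le_total (P D n q) (Zt ρ D n (tg hc.choose) q) with h | h
      · rw [min_eq_left h]; exact (min_le_left _ _).trans a1
      · rw [min_eq_right h]; exact (min_le_right _ _).trans a2
    · intro p q
      have a1 := (P_kat hρ s).sum p q
      have a2 := Zt_sum hρ s hz p q
      have a3 := PZ_sum hρ s hz p q
      have a4 := PZ_sum hρ s hz q p
      rw [s.pm.symm q p] at a4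
      rcases le_total (P D n q) (Zt ρ D n (tg hc.choose) q) with h | h <;>
      rcases le_total (P D n p) (Zt ρ D n (tg hc.choose) p) with h' | h' <;>
      simp only [min_eq_left, min_eq_right, h, h'] <;> linarith
  · exact P_kat hρ s

theorem FF_lip (h : H) (p : H × ℕ) :
    FF ρ tg D n (act h p) ≤ FF ρ tg D n p + L (n + 1) * ρ h := by
  unfold FF
  split_ifs with hc
  · have hz := hc.choose_spec.2.2
    have a1 := P_lip hρ s h p
    have a2 := Zt_lip hρ s hz h p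
    beta_reduce
    rcases le_total (P D n p) (Zt ρ D n (tg hc.choose) p) with h | h
    · rw [min_eq_left h]; exact (min_le_left _ _).trans a1
    · rw [min_eq_right h]; exact (min_le_right _ _).trans a2
  · exact P_lip hρ s h p

theorem FF_one {m : ℕ} (hm : m ≤ n) : FF ρ tg D n (1, m) = P D n (1, m) := by
  unfold FF
  split_ifs with hc
  · exact min_eq_left (P_le_Zt hρ s hc.choose_spec.2.2 hm)
  · rfl

theorem st_step : St ρ (ext D (FF ρ tg D n) (n + 1)) (n + 1) := by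
  have hK := FF_kat hρ s tg
  have hpm := pm_ext s.pm s.inv hK (n + 1)
  obtain ⟨hk, -⟩ := good_dat n
  have hP : ∀ b ≤ n, P D n (1, b) = mn (dat' (e n) n) fun c => e n c b := fun b hb =>
    mn_congr _ fun a ha => s.eq a (ha.trans hk) b hb
  refine ⟨hpm, inv_ext s.inv _, fun a ha h => ?_, fun a ha b hb => ?_, fun h => ?_⟩
  · rcases Nat.lt_or_eq_of_le ha with ha | rfl
    · rw [ext_old s.pm _ (by simp; omega) (by simp; omega)]
      exact s.lip a (by omega) h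
    · apply ext_lip
      · exact FF_lip hρ s tg h
      · intro r
        rw [← hρ.inv h]
        exact FF_lip hρ s tg h⁻¹ r
  · rcases Nat.lt_or_eq_of_le ha with ha | rfl <;> rcases Nat.lt_or_eq_of_le hb with hb | rfl
    · rw [ext_old s.pm _ (by simp; omega) (by simp; omega), s.eq a (by omega) b (by omega)]
      simp [e, ha.ne, hb.ne]
    · rw [hpm.symm, ext_new s.pm hK _ (by simp; omega), FF_one hρ s tg (by omega), hP a (by omega)]
      simp [e, ha.ne]
    · rw [ext_new s.pm hK _ (by simp; omega), FF_one hρ s tg (by omega), hP b (by omega)]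
      simp [e, hb.ne]
    · rw [hpm.refl]
      simp [e]
  · rw [ext_old s.pm _ (by simp) (by simp)]
    exact s.base h

end step

variable {ρ : H → ℝ} (hρ : Nrm ρ) (tg : ℕ → (H × ℕ) × ℝ)
include hρ

theorem st (n : ℕ) : St ρ (DD ρ tg n) n := by
  induction n with
  | zero =>
    refine ⟨⟨fun p => by simp [DD, hρ.one], fun p q => ?_, fun p q r => ?_⟩, fun h p q => ?_,
      fun a ha h => ?_, fun a _ b _ => by simp [DD, e, hρ.one], fun h => by simp [DD]⟩
    · simp only [DD]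
      rw [← hρ.inv]; simp
    · simp only [DD]
      have := hρ.mul (p.1⁻¹ * q.1) (q.1⁻¹ * r.1)
      simpa [mul_assoc] using this
    · simp [DD, act, mul_assoc]
    · obtain rfl : a = 0 := by omega
      simp [DD, L_zero]
  | succ n ih => exact st_step hρ ih tg

theorem DD_stab {n N : ℕ} (hN : n ≤ N) {p q : H × ℕ} (hp : p.2 ≤ n) (hq : q.2 ≤ n) :
    DD ρ tg N p q = DD ρ tg n p q := by
  induction N, hN using Nat.le_induction with
  | base => rfl
  | succ N hN ih =>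
    rw [← ih]
    exact ext_old (st hρ tg N).pm _ (by omega) (by omega)

theorem ach_mono {n N : ℕ} (hN : n ≤ N) {z : (H × ℕ) × ℝ} (h : Ach (DD ρ tg n) n z) :
    Ach (DD ρ tg N) N z := by
  obtain ⟨h1, m, hm, h2⟩ := h
  exact ⟨h1.trans hN, m, hm.trans hN, by rwa [DD_stab hρ tg hN h1 hm]⟩

theorem ach_all (hpos : ∀ j, 0 < (tg j).2) (j : ℕ) : ∃ n, Ach (DD ρ tg n) n (tg j) := by
  induction j using Nat.strong_induction_on with
  | _ j ih =>
  by_contra hno
  push Not at hno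
  obtain ⟨k, hk1, hk2⟩ : ∃ k, (tg j).1.2 ≤ k ∧ ∀ i < j, Ach (DD ρ tg k) k (tg i) := by
    choose! N hN using ih
    refine ⟨(tg j).1.2 + ∑ i ∈ Finset.range j, N i, by omega, fun i hi => ?_⟩
    refine ach_mono hρ tg ?_ (hN i hi)
    have := Finset.single_le_sum (f := N) (fun a _ => Nat.zero_le _) (Finset.mem_range.2 hi)
    omega
  set z := (tg j).1 with hz
  set ε := (tg j).2 with hε
  have hεp : 0 < ε := hpos j
  have plain : ∀ n, k ≤ n → ¬ ∃ i, Act ρ tg (DD ρ tg n) n i := by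
    intro n hn hc
    have h1 := hc.choose_spec
    have h2 : hc.choose = j := by
      rcases lt_trichotomy hc.choose j with h | h | h
      · exact absurd (ach_mono hρ tg hn (hk2 _ h)) h1.1
      · exact h
      · exact absurd (h1.2.1 j h) (hno n)
    apply hno (n + 1)
    refine ⟨hk1.trans (hn.trans (Nat.le_succ n)), n + 1, le_rfl, ?_⟩
    have s := st hρ tg n
    rw [(st hρ tg (n + 1)).pm.symm]
    show ext _ _ _ _ _ ≤ _
    rw [ext_new s.pm (FF_kat hρ s tg) _ (Nat.lt_succ_of_le (hk1.trans hn)).ne]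
    unfold FF
    rw [dif_pos hc]
    refine (min_le_right _ _).trans ?_
    have := Zt_z hρ s h1.2.2
    rw [h2] at this ⊢
    exact this
  have indep : ∀ n, k ≤ n → ∀ m ≤ n, ∃ a ≤ k,
      DD ρ tg n z (1, a) + DD ρ tg n (1, a) (1, m) ≤ DD ρ tg n z (1, m) := by
    intro n hn
    induction n, hn using Nat.le_induction with
    | base => exact fun m hm => ⟨m, hm, by rw [(st hρ tg k).pm.refl]; simp⟩
    | succ n hn ih =>
      intro m hm
      have s := st hρ tg n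
      have s' := st hρ tg (n + 1)
      rcases Nat.lt_or_eq_of_le hm with hm | rfl
      · obtain ⟨a, ha, h⟩ := ih m (by omega)
        refine ⟨a, ha, ?_⟩
        rw [DD_stab hρ tg (Nat.le_succ n) (p := z) (by omega) (by simp; omega),
          DD_stab hρ tg (Nat.le_succ n) (p := z) (by omega) (by simp; omega),
          DD_stab hρ tg (Nat.le_succ n) (p := (1, a)) (by simp; omega) (by simp; omega)]
        exact h
      · have key : ∀ q : H × ℕ, q.2 ≤ n → DD ρ tg (n + 1) q (1, n + 1) = P (DD ρ tg n) n q := by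
          intro q hq
          rw [s'.pm.symm]
          show ext _ _ _ _ _ = _
          rw [ext_new s.pm (FF_kat hρ s tg) _ (by omega)]
          unfold FF
          rw [dif_neg (plain n hn)]
        obtain ⟨b, hb, h1⟩ := mn_eq (dat n) fun a => DD ρ tg n (1, a) z
        obtain ⟨a, ha, h2⟩ := ih b (hb.trans (good_dat n).1)
        refine ⟨a, ha, ?_⟩
        rw [key z (by omega), key (1, a) (by simp; omega),
          DD_stab hρ tg (Nat.le_succ n) (p := z) (by omega) (by simp; omega)]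
        have a1 := mn_le (dat n) (fun c => DD ρ tg n (1, c) (1, a)) hb
        have a2 := s.pm.symm (1, a) (1, b)
        have a3 := s.pm.symm z (1, b)
        unfold P
        linarith
  -- modulus
  obtain ⟨C, hC⟩ : ∃ C : ℝ, ∀ h, DD ρ tg k (act h z) z ≤ 2 * ε + C * ρ h := by
    have s := st hρ tg k
    have hL : 0 < L z.2 := zero_lt_one.trans_le (one_le_L _)
    obtain ⟨δ, hδ, hd⟩ := hρ.conj z.1 (2 * ε / L z.2) (by positivity)
    refine ⟨L z.2 * (2 * ρ z.1 / δ + 1), fun h => ?_⟩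
    have a1 : DD ρ tg k (act h z) z ≤ L z.2 * ρ (z.1⁻¹ * h * z.1) := by
      rw [s.pm.symm, ← s.inv z.1⁻¹, act_act]
      have := s.lip z.2 hk1 (z.1⁻¹ * h * z.1)
      simpa [act] using this
    have h0 := hρ.nonneg h
    have h1 := hρ.nonneg z.1
    by_cases hh : ρ h < δ
    · have a2 := mul_le_mul_of_nonneg_left (hd h hh) hL.le
      rw [mul_div_cancel₀ _ hL.ne'] at a2
      have : 0 ≤ L z.2 * (2 * ρ z.1 / δ + 1) * ρ h := by positivity
      linarith
    · push Not at hh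
      have a2 := hρ.mul (z.1⁻¹ * h) z.1
      have a3 := hρ.mul z.1⁻¹ h
      rw [hρ.inv] at a3
      have a4 : 2 * ρ z.1 ≤ 2 * ρ z.1 / δ * ρ h := by
        rw [div_mul_eq_mul_div, le_div_iff₀ hδ]
        exact mul_le_mul_of_nonneg_left hh (by positivity)
      have a5 : ρ (z.1⁻¹ * h * z.1) ≤ (2 * ρ z.1 / δ + 1) * ρ h := by linarith
      have a6 := mul_le_mul_of_nonneg_left a5 hL.le
      linarith
  have hq : ∀ a : ℕ, ∃ q : ℚ, DD ρ tg k z (1, a) < q ∧
      (q : ℝ) < DD ρ tg k z (1, a) + ε := fun a => exists_rat_btwn (by linarith)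
  choose q hq using hq
  obtain ⟨n, hn, hc⟩ := code_inf (k, List.ofFn fun i : Fin (k + 1) => q i) (k + ⌈C⌉₊)
  have hkn : k ≤ n := by omega
  have s := st hρ tg n
  have hr1 : (raw n).1 = k := by simp [raw, hc]
  have hr2 : ∀ a ≤ k, (raw n).2 a = q a := by
    intro a ha
    simp only [raw, hc]
    rw [List.getD_eq_getElem _ _ (by simp; omega)]
    simp only [List.getElem_ofFn]
  have hst : ∀ a ≤ k, DD ρ tg n z (1, a) = DD ρ tg k z (1, a) := fun a ha =>
    DD_stab hρ tg hkn hk1 ha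
  have hg : Good (e n) n (raw n) := by
    refine ⟨hr1 ▸ hkn, fun a ha b hb => ?_⟩
    rw [hr1] at ha hb
    rw [hr2 a ha, hr2 b hb, ← s.eq a (ha.trans hkn) b (hb.trans hkn)]
    have a1 := s.pm.tri (1, a) z (1, b)
    have a2 := s.pm.symm (1, a) z
    have a3 := (hq a).1
    have a4 := (hq b).1
    rw [← hst a ha] at a3
    rw [← hst b hb] at a4
    linarith
  have hd : dat n = raw n := by unfold dat dat'; rw [if_pos hg]
  apply plain n hkn
  refine ⟨j, hno n, fun i hi => ach_mono hρ tg hkn (hk2 i hi), hk1.trans hkn, hεp.le,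
    fun m hm => ?_, fun a ha => ?_, fun h => ?_⟩
  · obtain ⟨a, ha, h⟩ := indep n hkn m hm
    have a1 := mn_le (dat n) (fun c => DD ρ tg n (1, c) (1, m)) (a := a) (by rw [hd, hr1]; exact ha)
    rw [hd, hr2 a ha, ← hd] at a1
    have a2 := (hq a).2
    rw [← hst a ha] at a2
    unfold P
    linarith
  · rw [hd, hr1] at ha
    rw [hd, hr2 a ha, hst a ha]
    have := (hq a).1
    linarith
  · rw [DD_stab hρ tg hkn (p := act h z) hk1 hk1]
    have a1 := hC h
    have a2 : C ≤ L (n + 1) := by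
      have b1 := nat_le_L (n + 1)
      have b2 := Nat.le_ceil C
      have b3 : ((⌈C⌉₊ : ℕ) : ℝ) ≤ ((n + 1 : ℕ) : ℝ) := by exact_mod_cast (by omega)
      linarith
    have a3 := mul_le_mul_of_nonneg_right a2 (hρ.nonneg h)
    linarith

/-- the limit pseudometric -/
noncomputable def el (a b : ℕ) : ℝ := e (max a b) a b

theorem exists_D (u : ℕ → H) (hu : ∀ g : H, ∀ ε : ℝ, 0 < ε → ∃ i, ρ (g⁻¹ * u i) < ε) :
    ∃ D : H × ℕ → H × ℕ → ℝ, PM D ∧ Inv D ∧ (∀ a h, D (1, a) (h, a) ≤ L a * ρ h) ∧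
      (∀ a b, D (1, a) (1, b) = el a b) ∧ (∀ h, D (1, 0) (h, 0) = ρ h) ∧
      ∀ p, ∀ ε : ℝ, 0 < ε → ∃ m, D p (1, m) < ε := by
  obtain ⟨c, hc⟩ := exists_surjective_nat (ℕ × ℕ × ℕ)
  let tg : ℕ → (H × ℕ) × ℝ := fun j => ((u (c j).1, (c j).2.1), 1 / (((c j).2.2 : ℝ) + 1))
  let D : H × ℕ → H × ℕ → ℝ := fun p q => DD ρ tg (max p.2 q.2) p q
  have hD : ∀ N p q, p.2 ≤ N → q.2 ≤ N → D p q = DD ρ tg N p q := fun N p q hp hq =>
    (DD_stab hρ tg (max_le hp hq) (le_max_left _ _) (le_max_right _ _)).symm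
  have hpm : PM D := by
    refine ⟨fun p => (st hρ tg _).pm.refl p, fun p q => ?_, fun p q r => ?_⟩
    · rw [hD (p.2 + q.2) p q (by omega) (by omega), hD (p.2 + q.2) q p (by omega) (by omega)]
      exact (st hρ tg _).pm.symm _ _
    · rw [hD (p.2 + q.2 + r.2) p q (by omega) (by omega),
        hD (p.2 + q.2 + r.2) q r (by omega) (by omega),
        hD (p.2 + q.2 + r.2) p r (by omega) (by omega)]
      exact (st hρ tg _).pm.tri _ _ _
  have hinv : Inv D := fun h p q => (st hρ tg _).inv h p q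
  have hlip : ∀ a h, D (1, a) (h, a) ≤ L a * ρ h := fun a h =>
    (st hρ tg _).lip a (le_max_left _ _) h
  refine ⟨D, hpm, hinv, hlip,
    fun a b => (st hρ tg _).eq a (le_max_left _ _) b (le_max_right _ _),
    fun h => (st hρ tg _).base h, fun p ε hε => ?_⟩
  have hL : 0 < L p.2 := zero_lt_one.trans_le (one_le_L _)
  obtain ⟨i, hi⟩ := hu p.1 (ε / 2 / L p.2) (by positivity)
  obtain ⟨r, hr⟩ := exists_nat_one_div_lt (show 0 < ε / 2 by positivity)
  obtain ⟨j, hj⟩ := hc (i, p.2, r)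
  obtain ⟨n, h1, m, hm, h2⟩ := ach_all hρ tg (fun j => by positivity) j
  have htg : tg j = ((u i, p.2), 1 / ((r : ℝ) + 1)) := by simp only [tg, hj]
  rw [htg] at h1 h2
  refine ⟨m, ?_⟩
  rw [← hD n (u i, p.2) (1, m) h1 hm] at h2
  have a1 := hpm.tri p (u i, p.2) (1, m)
  have a2 : D p (u i, p.2) ≤ L p.2 * ρ (p.1⁻¹ * u i) := by
    rw [← hinv p.1⁻¹]
    simpa [act] using hlip p.2 (p.1⁻¹ * u i)
  have a3 := mul_lt_mul_of_pos_left hi hL
  rw [mul_div_cancel₀ _ hL.ne'] at a3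
  linarith

end Pool.Agent.H23.MU1
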