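import Pool.Agent.H23.MU2

set_option autoImplicit false

open Set Filter Topology UniformSpace

namespace Pool.Agent.H23.MU1

theorem nrm_unit : Nrm (fun _ : PUnit.{1} => (0 : ℝ)) :=
  ⟨rfl, fun _ => rfl, fun _ _ => by simp, fun _ ε hε => ⟨1, one_pos, fun _ _ => hε.le⟩⟩

theorem pm_el : PM el := by
  obtain ⟨D, h, -, -, he, -⟩ := exists_D nrm_unit (fun _ => 1) (fun _ ε hε => ⟨0, hε⟩)
  exact ⟨fun a => by rw [← he]; exact h.refl _, fun a b => by rw [← he, ← he]; exact h.symm _ _,
    fun a b c => by rw [← he, ← he, ← he]; exact h.tri _ _ _⟩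

/-- pseudometric space from a `PM` -/
@[reducible] noncomputable def PM.toP {Y : Type} {D : Y → Y → ℝ} (h : PM D) :
    PseudoMetricSpace Y where
  dist := D
  dist_self := h.refl
  dist_comm := h.symm
  dist_triangle := h.tri

/-- the countable space -/
def X0 : Type := ℕ

noncomputable instance : PseudoMetricSpace X0 := pm_el.toP

instance : Countable X0 := inferInstanceAs (Countable ℕ)

abbrev X : Type := Completion X0

noncomputable def x (n : ℕ) : X := ((show X0 from n : X0) : X)

theorem dense_x : DenseRange x := Completion.denseRange_coe (α := X0)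

theorem dist_x (a b : ℕ) : dist (x a) (x b) = el a b := Completion.dist_eq _ _

/-- the universal group -/
def G : Type := X ≃ᵢ X

noncomputable instance : Group G := inferInstanceAs (Group (X ≃ᵢ X))

def G.ev (g : G) : X ≃ᵢ X := g

theorem ev_mul (g h : G) (p : X) : (g * h).ev p = g.ev (h.ev p) := rfl

theorem ev_inv (g : G) (p : X) : g.ev (g⁻¹.ev p) = p := by
  rw [← ev_mul, mul_inv_cancel]; rfl

noncomputable def tm (g h : G) (n : ℕ) : ℝ := dist (g.ev (x n)) (h.ev (x n)) / L n

theorem L_pos (n : ℕ) : 0 < L n := zero_lt_one.trans_le (one_le_L n)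

theorem tm_le (g h : G) (n : ℕ) (hn : n ≠ 0) :
    tm g h n ≤ (dist (g.ev (x 0)) (h.ev (x 0)) + 2) / n := by
  unfold tm
  have hn' : (0 : ℝ) < n := by positivity
  rw [div_le_div_iff₀ (L_pos n) hn']
  have a1 := dist_triangle4 (g.ev (x n)) (g.ev (x 0)) (h.ev (x 0)) (h.ev (x n))
  rw [IsometryEquiv.dist_eq, IsometryEquiv.dist_eq, dist_comm (x 0), dist_x] at a1
  have a2 : el n 0 ≤ |e n n 0| := by
    unfold el; rw [max_eq_left (Nat.zero_le n)]; exact le_abs_self _
  have a3 := le_L n
  set d := dist (g.ev (x 0)) (h.ev (x 0))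
  have d0 : 0 ≤ d := dist_nonneg
  set t := |e n n 0|
  have t0 : 0 ≤ t := abs_nonneg _
  calc dist (g.ev (x n)) (h.ev (x n)) * n ≤ (d + 2 * t) * n := by
        apply mul_le_mul_of_nonneg_right _ hn'.le; linarith
    _ ≤ (d + 2) * (n * (1 + t)) := by nlinarith [mul_nonneg d0 t0, mul_nonneg (mul_nonneg d0 t0) hn'.le]
    _ ≤ (d + 2) * L n := mul_le_mul_of_nonneg_left a3 (by linarith)

theorem tm_bdd (g h : G) : BddAbove (range (tm g h)) := by
  refine ⟨dist (g.ev (x 0)) (h.ev (x 0)) + 2, ?_⟩
  rintro _ ⟨n, rfl⟩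
  by_cases hn : n = 0
  · subst hn; simp [tm, L_zero]
  · refine (tm_le g h n hn).trans (div_le_self (by positivity) ?_)
    exact_mod_cast Nat.one_le_iff_ne_zero.2 hn

noncomputable def dG (g h : G) : ℝ := ⨆ n, tm g h n

theorem le_dG (g h : G) (n : ℕ) : tm g h n ≤ dG g h := le_ciSup (tm_bdd g h) n

noncomputable instance : MetricSpace G where
  dist := dG
  dist_self g := by simp [dG, tm]
  dist_comm g h := by simp only [dG, tm, dist_comm]
  dist_triangle g h k := by
    apply ciSup_le
    intro n
    refine le_trans ?_ (add_le_add (le_dG g h n) (le_dG h k n))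
    unfold tm
    rw [← add_div]
    exact div_le_div_of_nonneg_right (dist_triangle _ _ _) (L_pos n).le
  eq_of_dist_eq_zero {g h} hd := by
    have h1 : ∀ n, g.ev (x n) = h.ev (x n) := by
      intro n
      have := le_dG g h n
      have hd' : dG g h = 0 := hd
      rw [hd', tm, div_le_iff₀ (L_pos n), zero_mul] at this
      exact dist_le_zero.1 this
    have h2 : (g.ev : X → X) = h.ev :=
      dense_x.equalizer g.ev.continuous h.ev.continuous (funext h1)
    exact IsometryEquiv.ext (congrFun h2)

theorem dist_G (g h : G) : dist g h = dG g h := rfl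

theorem left_inv (k g h : G) : dist (k * g) (k * h) = dist g h := by
  simp only [dist_G, dG, tm, ev_mul, IsometryEquiv.dist_eq]

theorem tendsto_iff {α : Type} (l : Filter α) (f : α → G) (g : G) :
    Tendsto f l (𝓝 g) ↔ ∀ n, Tendsto (fun i => (f i).ev (x n)) l (𝓝 (g.ev (x n))) := by
  constructor
  · intro h n
    rw [tendsto_iff_dist_tendsto_zero] at h ⊢
    refine squeeze_zero (fun _ => dist_nonneg) (fun i => ?_) (by simpa using h.const_mul (L n))
    have := le_dG (f i) g n
    rw [tm, div_le_iff₀ (L_pos n), mul_comm] at this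
    exact this
  · intro h
    rw [Metric.tendsto_nhds]
    intro ε hε
    obtain ⟨N, hN⟩ := exists_nat_gt (3 / (ε / 2))
    have h1 : ∀ᶠ i in l, ∀ n ∈ Finset.range (N + 1),
        dist ((f i).ev (x n)) (g.ev (x n)) < min 1 (ε / 2) := by
      rw [Filter.eventually_all_finset]
      intro n _
      exact Metric.tendsto_nhds.1 (h n) _ (by positivity)
    filter_upwards [h1] with i hi
    refine lt_of_le_of_lt (ciSup_le fun n => ?_) (half_lt_self hε)
    by_cases hn : n ≤ N
    · have a1 := (hi n (Finset.mem_range.2 (by omega))).le.trans (min_le_right _ _)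
      exact (div_le_self dist_nonneg (one_le_L n)).trans a1
    · have a1 := (hi 0 (by simp)).le.trans (min_le_left _ _)
      refine (tm_le _ _ n (by omega)).trans ?_
      have hn' : (N : ℝ) < n := by exact_mod_cast (by omega)
      have h3 : (0 : ℝ) < 3 / (ε / 2) := by positivity
      rw [div_le_iff₀ (by linarith)]
      rw [div_lt_iff₀ (by positivity)] at hN
      nlinarith

theorem tendsto_all {α : Type} {l : Filter α} {f : α → G} {g : G} (h : Tendsto f l (𝓝 g))
    (p : X) : Tendsto (fun i => (f i).ev p) l (𝓝 (g.ev p)) := by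
  rw [Metric.tendsto_nhds]
  intro ε hε
  obtain ⟨n, hn⟩ := dense_x.exists_dist_lt p (show 0 < ε / 3 by positivity)
  filter_upwards [Metric.tendsto_nhds.1 ((tendsto_iff l f g).1 h n) (ε / 3) (by positivity)]
    with i hi
  have a1 := dist_triangle4 ((f i).ev p) ((f i).ev (x n)) (g.ev (x n)) (g.ev p)
  rw [IsometryEquiv.dist_eq, IsometryEquiv.dist_eq, dist_comm (x n)] at a1
  linarith

instance : IsTopologicalGroup G where
  continuous_mul := by
    rw [continuous_iff_continuousAt]
    rintro ⟨g, h⟩
    rw [ContinuousAt, tendsto_iff]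
    intro n
    have h1 := tendsto_all (continuous_fst.tendsto (g, h)) (h.ev (x n))
    have h2 := tendsto_all (continuous_snd.tendsto (g, h)) (x n)
    rw [tendsto_iff_dist_tendsto_zero] at h1 h2 ⊢
    refine squeeze_zero (fun _ => dist_nonneg) (fun i => ?_) (by simpa using h2.add h1)
    simp only [ev_mul]
    refine (dist_triangle _ (i.1.ev (h.ev (x n))) _).trans ?_
    rw [IsometryEquiv.dist_eq]
  continuous_inv := by
    rw [continuous_iff_continuousAt]
    intro g
    rw [ContinuousAt, tendsto_iff]
    intro n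
    have h1 := tendsto_all (tendsto_id (x := 𝓝 g)) (g⁻¹.ev (x n))
    rw [tendsto_iff_dist_tendsto_zero] at h1 ⊢
    refine h1.congr fun i => ?_
    rw [← i.ev.dist_eq (i⁻¹.ev (x n)), ev_inv, ev_inv, dist_comm]
    rfl

instance : TopologicalSpace.SeparableSpace G := by
  have hi : IsInducing (fun g : G => fun n => g.ev (x n)) := by
    rw [isInducing_iff_nhds]
    intro g
    apply le_antisymm
    · rw [← tendsto_iff_comap, tendsto_pi_nhds]
      exact (tendsto_iff _ id g).1 tendsto_id
    · rw [← tendsto_id']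
      refine (tendsto_iff _ id g).2 ?_
      rw [← tendsto_pi_nhds]
      exact tendsto_comap
  haveI : SecondCountableTopology X := UniformSpace.secondCountable_of_separable X
  haveI := hi.secondCountableTopology
  infer_instance

theorem ext_iso (Y : Type) [PseudoMetricSpace Y] (ι : X0 → Y) (hι : Isometry ι)
    (hd : DenseRange ι) : ∃ E : X ≃ᵢ Completion Y, ∀ n : X0, E (n : X) = (ι n : Completion Y) := by
  have h1 : Isometry (Completion.map ι) := hι.completion_map
  have h2 : ∀ n : X0, Completion.map ι (n : X) = (ι n : Completion Y) := fun n =>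
    Completion.map_coe hι.uniformContinuous n
  have h3 : Function.Surjective (Completion.map ι) := by
    rw [← range_eq_univ, ← h1.isClosedEmbedding.isClosed_range.closure_eq]
    have h4 : DenseRange (fun n : X0 => (ι n : Completion Y)) :=
      Completion.denseRange_coe.comp hd (Completion.continuous_coe Y)
    refine Dense.closure_eq (Dense.mono ?_ h4)
    rintro _ ⟨n, rfl⟩
    exact ⟨n, h2 n⟩
  exact ⟨⟨Equiv.ofBijective _ ⟨h1.injective, h3⟩, h1⟩, h2⟩

theorem ext_act (Y : Type) [PseudoMetricSpace Y] (H : Type) [Group H] (a : H → Y → Y)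
    (h1 : ∀ p, a 1 p = p) (h2 : ∀ g h p, a g (a h p) = a (g * h) p) (hi : ∀ g, Isometry (a g)) :
    ∃ ψ : H →* (Completion Y ≃ᵢ Completion Y), ∀ g (p : Y), ψ g p = (a g p : Completion Y) := by
  have m : ∀ g h p, Completion.map (a g) (Completion.map (a h) p) = Completion.map (a (g * h)) p := by
    intro g h p
    have := Completion.map_comp (hi g).uniformContinuous (hi h).uniformContinuous
    have e2 : a g ∘ a h = a (g * h) := funext (h2 g h)
    rw [e2] at this
    exact congrFun this p
  have o : ∀ p, Completion.map (a 1) p = p := by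
    intro p
    have e2 : a 1 = id := funext h1
    rw [e2, Completion.map_id]; rfl
  refine ⟨MonoidHom.mk' (fun g => ⟨⟨Completion.map (a g), Completion.map (a g⁻¹),
    fun p => by rw [m, inv_mul_cancel, o], fun p => by rw [m, mul_inv_cancel, o]⟩,
    (hi g).completion_map⟩) fun g h => IsometryEquiv.ext fun p => (m g h p).symm, fun g p => ?_⟩
  exact Completion.map_coe (hi g).uniformContinuous p

/-- type synonym -/
def YY (H : Type) : Type := H × ℕ

theorem embed (H : Type) [Group H] [MetricSpace H] [IsTopologicalGroup H]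
    [TopologicalSpace.SeparableSpace H] (hl : ∀ g a b : H, dist (g * a) (g * b) = dist a b) :
    ∃ φ : H →* G, ∀ a b, dist (φ a) (φ b) = dist a b := by
  have hρ : Nrm (fun h : H => dist 1 h) := by
    refine ⟨dist_self _, fun g => ?_, fun g h => ?_, fun g ε hε => ?_⟩
    · rw [← hl g, mul_one, mul_inv_cancel, dist_comm]
    · refine (dist_triangle _ g _).trans ?_
      rw [← hl g 1 h, mul_one]
    · have hc : Continuous fun h : H => g⁻¹ * h * g := by fun_prop
      obtain ⟨δ, hδ, h⟩ := Metric.continuous_iff.1 hc 1 ε hε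
      refine ⟨δ, hδ, fun a ha => ?_⟩
      have := h a (by rwa [dist_comm])
      rw [mul_one, inv_mul_cancel, dist_comm] at this
      exact this.le
  haveI : Nonempty H := ⟨1⟩
  obtain ⟨D, hpm, hinv, hlip, he, hb, hden⟩ := exists_D hρ (TopologicalSpace.denseSeq H)
    (fun g ε hε => by
      obtain ⟨i, hi⟩ := (TopologicalSpace.denseRange_denseSeq H).exists_dist_lt g hε
      exact ⟨i, by rwa [← hl g, mul_one, mul_inv_cancel_left]⟩)
  letI : PseudoMetricSpace (YY H) := hpm.toP
  obtain ⟨E, hE⟩ := ext_iso (YY H) (fun n => ((1 : H), (show ℕ from n)))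
    (Isometry.of_dist_eq fun a b => he a b)
    (Metric.denseRange_iff.2 fun p ε hε => hden p ε hε)
  obtain ⟨ψ, hψ⟩ := ext_act (YY H) H act act_one act_act
    (fun g => Isometry.of_dist_eq fun p q => hinv g p q)
  let φ : H →* G := MonoidHom.mk' (fun g => (E.trans ((ψ g).trans E.symm) : X ≃ᵢ X))
    fun g h => IsometryEquiv.ext fun p => by
      show E.symm (ψ (g * h) (E p)) = E.symm (ψ g (E (E.symm (ψ h (E p)))))
      rw [map_mul, IsometryEquiv.apply_symm_apply]; rfl
  have hv : ∀ h n, dist ((1 : G).ev (x n)) ((φ h).ev (x n)) = D (1, n) (h, n) := by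
    intro h n
    show dist (x n) (E.symm (ψ h (E (x n)))) = _
    rw [← E.dist_eq, IsometryEquiv.apply_symm_apply]
    unfold x
    rw [hE, hψ, Completion.dist_eq]
    show D (1, n) (h * 1, n) = _
    rw [mul_one]
  have key : ∀ h, dist (1 : G) (φ h) = dist 1 h := by
    intro h
    apply le_antisymm
    · apply ciSup_le
      intro n
      rw [tm, hv, div_le_iff₀ (L_pos n), mul_comm]
      exact hlip n h
    · have := le_dG 1 (φ h) 0
      rwa [tm, hv, L_zero, div_one, hb] at this
  refine ⟨φ, fun a b => ?_⟩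
  rw [← left_inv (φ a)⁻¹, inv_mul_cancel, ← map_inv, ← map_mul, key, ← hl a, mul_one,
    mul_inv_cancel_left]

end Pool.Agent.H23.MU1
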