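import Mathlib

namespace Pool.Agent.H23.MaxRing
open Filter Topology Pointwise

abbrev F2 := ZMod 2
abbrev V := ℕ →₀ F2

def E := Module.End F2 V
noncomputable instance : Ring E := inferInstanceAs (Ring (Module.End F2 V))
instance : TopologicalSpace E := ⊥
instance : DiscreteTopology E := ⟨rfl⟩

def W := V
noncomputable instance : AddCommGroup W := inferInstanceAs (AddCommGroup V)

noncomputable def φ : W →+ ((V →ₗ[F2] F2) → F2) where
  toFun v f := f v
  map_zero' := funext fun f => f.map_zero
  map_add' v w := funext fun f => map_add f v w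

noncomputable instance : TopologicalSpace W := .induced φ inferInstance
instance : IsTopologicalAddGroup W := topologicalAddGroup_induced φ

theorem φ_inj : Function.Injective φ := fun _ _ h =>
  Finsupp.ext fun k => congrFun h (Finsupp.lapply k)

instance : T2Space W := T2Space.of_injective_continuous φ_inj continuous_induced_dom

theorem cf (f : V →ₗ[F2] F2) : Continuous fun w : W => f w :=
  (continuous_apply f).comp (continuous_induced_dom (f := φ))

def ap (a : E) : Module.End F2 V := a

def R := E × W
noncomputable instance : AddCommGroup R := inferInstanceAs (AddCommGroup (E × W))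
@[reducible] noncomputable def τ0 : TopologicalSpace R := inferInstanceAs (TopologicalSpace (E × W))

noncomputable instance : NonUnitalRing R where
  mul a b := (a.1 * b.1, ap a.1 b.2)
  left_distrib _ _ _ := Prod.ext (mul_add _ _ _) (map_add (ap _) _ _)
  right_distrib _ _ _ := Prod.ext (add_mul _ _ _) rfl
  zero_mul _ := Prod.ext (zero_mul _) rfl
  mul_zero _ := Prod.ext (mul_zero _) (map_zero (ap _))
  mul_assoc _ _ _ := Prod.ext (mul_assoc _ _ _) rfl

theorem t2 : @T2Space R τ0 := inferInstanceAs (T2Space (E × W))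

theorem ring0 : @IsTopologicalRing R τ0 _ := by
  let _ := τ0
  have : IsTopologicalAddGroup R := inferInstanceAs (IsTopologicalAddGroup (E × W))
  have h1 : Continuous (Y := W) fun p : E × W => ap p.1 p.2 := by
    refine continuous_prod_of_discrete_left.2 fun a => continuous_induced_rng.2 ?_
    exact continuous_pi fun f => cf (f.comp (ap a))
  have h2 : Continuous fun p : E × E => p.1 * p.2 := continuous_of_discreteTopology
  exact { continuous_mul := Continuous.prodMk
            (h2.comp ((continuous_fst.comp continuous_fst).prodMk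
              (continuous_fst.comp continuous_snd)))
            (h1.comp ((continuous_fst.comp continuous_fst).prodMk
              (continuous_snd.comp continuous_snd))) }

def L : Set R := {r | r.1 = 0}

theorem L_open : IsOpen[τ0] L :=
  (isOpen_discrete ({0} : Set E)).preimage (continuous_fst (X := E) (Y := W))

theorem L_closed : IsClosed[τ0] L :=
  (isClosed_discrete ({0} : Set E)).preimage (continuous_fst (X := E) (Y := W))

noncomputable def e (n : ℕ) : R := (0, Finsupp.single n 1)

theorem not_compact : ¬ @IsCompact R τ0 L := by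
  let _ := τ0
  intro h
  obtain ⟨x, -, hx⟩ := h.ultrafilter_le_nhds ((hyperfilter ℕ).map e)
    (le_principal_iff.2 (mem_map.2 (Eventually.of_forall fun _ => rfl)))
  have k : ∀ (f : V →ₗ[F2] F2) (c : F2), (∀ᶠ n in cofinite, f (Finsupp.single n 1) = c) →
      f x.2 = c := fun f c hc => by
    have h1 : Tendsto (fun n => f (e n).2) (hyperfilter ℕ) (𝓝 (f x.2)) :=
      (((cf f).comp (continuous_snd (X := E) (Y := W))).tendsto x).comp hx
    exact tendsto_nhds_unique h1 (tendsto_const_nhds.congr'
      ((hc.filter_mono hyperfilter_le_cofinite).mono fun n hn => hn.symm))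
  have h0 : x.2 = 0 := Finsupp.ext fun j => k (Finsupp.lapply j) 0 <|
    (eventually_cofinite_ne j).mono fun n hn => Finsupp.single_eq_of_ne hn.symm
  have h1 := k (Finsupp.linearCombination F2 fun _ => 1) 1 (Eventually.of_forall fun n => by simp)
  rw [h0] at h1
  exact zero_ne_one ((map_zero _).symm.trans h1)

theorem seq (U : Set V) (hU : ∀ t : Finset V, ∃ x, ∀ y ∈ t, x + y ∉ U) :
    ∃ a : Module.End F2 V, ∀ v, a v ∈ U → v = 0 := by
  classical
  choose g hg using hU
  let Φ : ℕ → Finset V := fun n => Nat.rec {0} (fun _ t => t ∪ t.image (g t + ·)) n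
  let a : Module.End F2 V := Finsupp.linearCombination F2 fun n => g (Φ n)
  have key : ∀ n (v : V), (∀ k ≥ n, v k = 0) → a v ∈ Φ n ∧ (a v ∈ U → v = 0) := by
    intro n
    induction n with
    | zero =>
      intro v hv
      obtain rfl : v = 0 := Finsupp.ext fun k => hv k (Nat.zero_le k)
      exact ⟨by simp [Φ], fun _ => rfl⟩
    | succ n ih =>
      intro v hv
      by_cases h0 : v n = 0
      · have := ih v fun k hk => (eq_or_lt_of_le hk).elim (fun h => h ▸ h0) (hv k)
        exact ⟨Finset.mem_union_left _ this.1, this.2⟩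
      · have h1 : v n = 1 := by
          generalize v n = c at h0
          revert c; decide
        have := (ih (v - Finsupp.single n 1) fun k hk => by
          rcases eq_or_lt_of_le hk with rfl | h
          · simp [h1]
          · simp [hv k h, Finsupp.single_eq_of_ne h.ne']).1
        have h2 : a v = g (Φ n) + a (v - Finsupp.single n 1) := by
          simp [a]
        rw [h2]
        exact ⟨Finset.mem_union_right _ (Finset.mem_image_of_mem _ this),
          fun h => (hg _ _ this h).elim⟩
  refine ⟨a, fun v => (key (v.support.sup id + 1) v fun k hk => ?_).2⟩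
  by_contra h
  have := Finset.le_sup (f := id) (Finsupp.mem_support_iff.2 h)
  simp only [id] at this
  omega

theorem nd0 : {0} ∉ @nhds R τ0 0 := by
  intro h
  have h1 : {0} ∈ 𝓝 (0 : W) := by
    have c : Continuous fun w : W => ((0, w) : E × W) := continuous_const.prodMk continuous_id
    exact mem_of_superset (c.continuousAt.preimage_mem_nhds (x := 0) h)
      fun w hw => congrArg Prod.snd hw
  rw [nhds_induced, nhds_pi] at h1
  obtain ⟨s, hs, h2⟩ := mem_comap.1 h1
  obtain ⟨I, hI, t, ht, h3⟩ := mem_pi.1 hs
  have := hI.to_subtype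
  obtain ⟨v, w, h4, h5⟩ := Finite.exists_ne_map_eq_of_infinite fun (v : V) (i : I) => i.1 v
  refine h4 (sub_eq_zero.1 (h2 (h3 fun i hi => ?_)))
  have h6 : φ (v - w : V) i = φ 0 i :=
    ((map_sub i v w).trans (sub_eq_zero.2 (congrFun h5 ⟨i, hi⟩))).trans (map_zero i).symm
  exact h6 ▸ mem_of_mem_nhds (ht i)

theorem exists_max : ∃ τ : TopologicalSpace R, @IsTopologicalRing R τ _ ∧
    {0} ∉ @nhds R τ 0 ∧ τ ≤ τ0 ∧
    ∀ s : TopologicalSpace R, @IsTopologicalRing R s _ → {0} ∉ @nhds R s 0 → s ≤ τ → s = τ := by
  obtain ⟨τ, h1, h2⟩ := zorn_le_nonempty₀ (α := (TopologicalSpace R)ᵒᵈ)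
    {s | @IsTopologicalRing R s _ ∧ {0} ∉ @nhds R s 0} (fun c hc hcc y hy => by
      refine ⟨@sInf (TopologicalSpace R) _ c, ⟨?_, ?_⟩,
        fun z hz => @sInf_le (TopologicalSpace R) _ c z hz⟩
      · let _ := @sInf (TopologicalSpace R) _ c
        exact { toContinuousAdd := continuousAdd_sInf fun t ht => (hc ht).1.toContinuousAdd
                toContinuousMul := continuousMul_sInf fun t ht => (hc ht).1.toContinuousMul
                toContinuousNeg := continuousNeg_sInf fun t ht => (hc ht).1.toContinuousNeg }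
      · intro h
        rw [nhds_sInf] at h
        obtain ⟨t, ht, h⟩ := (mem_biInf_of_directed (s := (c : Set (TopologicalSpace R)))
          (f := fun t => @nhds R t 0) (fun a ha b hb => (hcc.total ha hb).elim
            (fun h => ⟨b, hb, nhds_mono h, le_rfl⟩) fun h => ⟨a, ha, le_rfl, nhds_mono h⟩)
          ⟨y, hy⟩).1 h
        exact (hc ht).2 h) τ0 ⟨ring0, nd0⟩
  exact ⟨τ, h2.1.1, h2.1.2, h1, fun s h3 h4 h5 => le_antisymm h5 (h2.2 ⟨h3, h4⟩ h5)⟩

theorem nd_iff (s : TopologicalSpace R) (h : @IsTopologicalRing R s _) :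
    s ≠ ⊥ ↔ {0} ∉ @nhds R s 0 := by
  refine not_congr ⟨fun h1 => ?_, fun h1 => ?_⟩
  · have : DiscreteTopology R := ⟨h1⟩
    exact (isOpen_discrete _).mem_nhds rfl
  · exact (discreteTopology_iff_isOpen_singleton_zero.2
      ((isOpen_singleton_iff_nhds_eq_pure _).2 (le_antisymm (le_pure_iff.2 h1) (pure_le_nhds _)))).1

theorem main : ∃ u : UniformSpace R, @IsUniformAddGroup R u _ ∧
    @IsTopologicalRing R u.toTopologicalSpace _ ∧ @T2Space R u.toTopologicalSpace ∧
    u.toTopologicalSpace ≠ ⊥ ∧
    (∀ s : TopologicalSpace R, @IsTopologicalRing R s _ → @T2Space R s → s ≠ ⊥ →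
      s ≤ u.toTopologicalSpace → s = u.toTopologicalSpace) ∧ ¬ @CompleteSpace R u := by
  obtain ⟨τ, h1, h2, h3, h4⟩ := exists_max
  let u : UniformSpace R := IsTopologicalAddGroup.rightUniformSpace R
  have hu : IsUniformAddGroup R := isUniformAddGroup_of_addCommGroup
  have c : @Continuous R R τ τ0 id := continuous_id_iff_le.2 h3
  refine ⟨u, hu, h1, @T2Space.of_injective_continuous _ _ τ τ0 t2 id Function.injective_id c,
    (nd_iff τ h1).2 h2, fun s a _ b d => h4 s a ((nd_iff s a).1 b) d, fun hc => not_compact ?_⟩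
  have tb : TotallyBounded L := by
    rw [totallyBounded_iff_subset_finite_iUnion_nhds_zero]
    intro U hU
    by_contra h
    obtain ⟨a, ha⟩ := seq {v | ((0, -v) : R) ∈ U} fun t => by
      by_contra h5
      push Not at h5
      refine h ⟨(fun y : V => ((0, y) : R)) '' t, t.finite_toSet.image _, fun r hr => ?_⟩
      obtain ⟨y, hy, h6⟩ := h5 (-r.2)
      refine Set.mem_biUnion ⟨y, hy, rfl⟩ ⟨_, h6, Prod.ext ?_ ?_⟩
      · exact (add_zero _).trans hr.symm
      · exact (show ∀ y z : V, y + -(-z + y) = z from fun _ _ => by abel) y r.2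
    refine h2 (mem_of_superset (inter_mem ((L_open.mono h3).mem_nhds rfl)
      ((continuous_const_mul (M := R) (-a, 0)).continuousAt.preimage_mem_nhds
        (x := 0) (by rwa [mul_zero]))) fun r hr => Prod.ext hr.1 (ha r.2 ?_))
    have h7 : (show R from (-a, 0)) * r = (0, -a r.2) :=
      Prod.ext ((congrArg _ hr.1).trans (mul_zero _)) rfl
    exact (congrArg (· ∈ U) h7).mp hr.2
  simpa using @IsCompact.image _ _ τ τ0 _ id
    (tb.isCompact_of_isClosed (L_closed.mono h3)) c

end Pool.Agent.H23.MaxRing
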