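import Mathlib
import Pool.Agent.H23.DIP

set_option autoImplicit false

namespace Pool.Agent.H23.DIP

open Filter Classical

/-- Chains with a symmetric monotone ternary relation. -/
class Tri (I : Type) extends LinearOrder I where
  t : I
  f : I → I → I
  t_le : ∀ i, t ≤ i
  comm : ∀ i j, f i j = f j i
  sym : ∀ i j k, f i j ≤ k ↔ f i k ≤ j

inductive N (I : Type)
  | z | b (i : I) | a (i : I) | o

open Tri N

section
variable {I : Type} [Tri I]

def N.le : N I → N I → Prop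
  | z, _ => True
  | _, o => True
  | b i, b j => i ≤ j
  | b _, a _ => True
  | a i, a j => j ≤ i
  | _, _ => False

noncomputable instance : LinearOrder (N I) where
  le := N.le
  le_refl x := by cases x <;> simp [N.le]
  le_trans x y w := by cases x <;> cases y <;> cases w <;> simp [N.le] <;> grind
  le_antisymm x y := by cases x <;> cases y <;> simp [N.le] <;> grind
  le_total x y := by cases x <;> cases y <;> simp [N.le] <;> grind
  toDecidableLE := Classical.decRel _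

theorem N.le_def (x y : N I) : x ≤ y ↔ N.le x y := Iff.rfl

noncomputable def N.mul : N I → N I → N I
  | o, x => x
  | x, o => x
  | a i, a j => b (f i j)
  | a i, b k => if k ≤ i then z else b t
  | b k, a i => if k ≤ i then z else b t
  | _, _ => z

noncomputable def N.imp : N I → N I → N I
  | o, x => x
  | z, _ => o
  | _, o => o
  | a i, z => b i
  | b i, z => a i
  | a i, b k => a (f i k)
  | a i, a j => if j ≤ i then o else a t
  | b i, b k => if i ≤ k then o else a t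
  | b _, a _ => o

noncomputable instance : FLew (N I) where
  top := o
  bot := z
  le_top x := by cases x <;> trivial
  bot_le x := by cases x <;> trivial
  mul := N.mul
  one := o
  imp := N.imp
  mul_assoc x y w := by
    change N.mul (N.mul _ _) _ = N.mul _ (N.mul _ _)
    cases x <;> cases y <;> cases w <;> simp only [N.mul] <;> (try split_ifs) <;>
      simp_all [t_le] <;> grind [Tri.sym, Tri.comm]
  mul_comm x y := by
    change N.mul _ _ = N.mul _ _
    cases x <;> cases y <;> simp [N.mul, Tri.comm]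
  one_mul _ := rfl
  mul_one x := by cases x <;> rfl
  res x y w := by
    change N.le (N.mul _ _) _ ↔ N.le _ (N.imp _ _)
    cases x <;> cases y <;> cases w <;> simp only [N.mul, N.imp] <;> (try split_ifs) <;>
      simp_all [N.le, t_le] <;> grind [Tri.sym, Tri.comm]
  one_eq := rfl

theorem N.prelin : Prelin (N I) := fun x y => (le_total x y).elim
  (fun h => by rw [(imp_one _ _).2 h, FLew.one_eq, top_sup_eq])
  fun h => by rw [(imp_one _ _).2 h, FLew.one_eq, sup_top_eq]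

theorem N.nil : Nil (N I) := ⟨nofun, fun x h => by
  cases x
  exacts [rfl, rfl, rfl, absurd rfl h]⟩

end

section
variable {ι : Type} {U : Ultrafilter ι}

/-- Closure of a relation under eventual equality. -/
def Ev {A : ι → Type} {B : Type} (U : Ultrafilter ι) (C : (∀ i, A i) → B → Prop) (x : ∀ i, A i)
    (y : B) : Prop := ∃ x', (∀ᶠ i in U, x i = x' i) ∧ C x' y

variable {A : ι → Type} {B : Type} {C : (∀ i, A i) → B → Prop}

theorem Ev.of {x : ∀ i, A i} {y : B} (h : C x y) : Ev U C x y := ⟨x, .of_forall fun _ => rfl, h⟩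

theorem Ev.ite {c : ι → Prop} {c' : Prop} [∀ i, Decidable (c i)] [Decidable c']
    (h : (∀ᶠ i in U, c i) ↔ c') {x x' : ∀ i, A i} {y y' : B} (p : Ev U C x y) (q : Ev U C x' y') :
    Ev U C (fun i => if c i then x i else x' i) (if c' then y else y') := by
  split_ifs with e
  · obtain ⟨w, a, b⟩ := p
    exact ⟨w, by filter_upwards [a, h.2 e] with i a c using by simp [a, c], b⟩
  · obtain ⟨w, a, b⟩ := q
    refine ⟨w, ?_, b⟩
    filter_upwards [a, U.eventually_not.2 (mt h.1 e)] with i a c using by simp [a, c]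

theorem Ev.bin {g : ∀ i, A i → A i → A i} {g' : B → B → B}
    (h : ∀ x y x' y', C x y → C x' y' → Ev U C (fun i => g i (x i) (x' i)) (g' y y'))
    {x x' : ∀ i, A i} {y y' : B} : Ev U C x y → Ev U C x' y' →
      Ev U C (fun i => g i (x i) (x' i)) (g' y y') := by
  rintro ⟨u, a, b⟩ ⟨u', a', b'⟩
  obtain ⟨w, c, d⟩ := h _ _ _ _ b b'
  exact ⟨w, by filter_upwards [a, a', c] with i a a' c using by rw [a, a', c], d⟩

theorem Ev.rel {g : ∀ i, A i → A i → Prop} {g' : B → B → Prop}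
    (h : ∀ x y x' y', C x y → C x' y' → ((∀ᶠ i in U, g i (x i) (x' i)) ↔ g' y y'))
    {x x' : ∀ i, A i} {y y' : B} : Ev U C x y → Ev U C x' y' →
      ((∀ᶠ i in U, g i (x i) (x' i)) ↔ g' y y') := by
  rintro ⟨u, a, b⟩ ⟨u', a', b'⟩
  exact (eventually_congr (by filter_upwards [a, a'] with i a a' using by rw [a, a'])).trans
    (h _ _ _ _ b b')

variable {I : ι → Type} [∀ i, Tri (I i)] {J : Type} [Tri J] {R : (∀ i, I i) → J → Prop}

inductive CN (R : (∀ i, I i) → J → Prop) : (∀ i, N (I i)) → N J → Prop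
  | z : CN R (fun _ => z) z
  | o : CN R (fun _ => o) o
  | a {g : ∀ i, I i} {j : J} : R g j → CN R (fun i => a (g i)) (a j)
  | b {g : ∀ i, I i} {j : J} : R g j → CN R (fun i => b (g i)) (b j)

omit [Tri J] in
theorem cn_tot (h : ∀ g, ∃ j, R g j) (x : ∀ i, N (I i)) : ∃ y, Ev U (CN R) x y := by
  let g : ∀ i, I i := fun i => match x i with | a j => j | b j => j | _ => t
  obtain ⟨j, hj⟩ := h g
  have : ∀ᶠ i in U, x i = z ∨ x i = o ∨ x i = a (g i) ∨ x i = b (g i) :=
    .of_forall fun i => by cases e : x i <;> simp [g, e]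
  simp only [Ultrafilter.eventually_or] at this
  rcases this with e | e | e | e
  exacts [⟨_, _, e, .z⟩, ⟨_, _, e, .o⟩, ⟨_, _, e, .a hj⟩, ⟨_, _, e, .b hj⟩]

theorem cn_ev (h1 : ∀ {x y x' y'}, R x y → R x' y' → ((∀ᶠ i in U, x i ≤ x' i) ↔ y ≤ y'))
    (h2 : R (fun _ => t) t)
    (h3 : ∀ {x y x' y'}, R x y → R x' y' → R (fun i => f (x i) (x' i)) (f y y'))
    {v : ∀ i, ℕ → N (I i)} {w : ℕ → N J} (h : ∀ n, Ev U (CN R) (v · n) (w n)) (φ : Fm) :
    (∀ᶠ i in U, φ ∈ tr (v i)) ↔ φ ∈ tr w := by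
  have le : ∀ {x x' y y'}, Ev U (CN R) x y → Ev U (CN R) x' y' →
      ((∀ᶠ i in U, x i ≤ x' i) ↔ y ≤ y') := Ev.rel (g := fun _ => (· ≤ ·)) (g' := (· ≤ ·)) (by
    rintro _ _ _ _ (_ | _ | p | p) (_ | _ | q | q) <;> simp only [N.le_def, N.le] <;>
      first | exact h1 p q | exact h1 q p | simp [U.neBot.ne])
  have k : Ev U (CN R) (fun i => ev (v i) φ) (ev w φ) := by
    induction φ with
    | var n => exact h n
    | zero => exact .of .z
    | one => exact .of .o
    | and x y p q => simpa only [ev, min_def] using Ev.ite (le p q) p q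
    | or x y p q => simpa only [ev, max_def] using Ev.ite (le p q) q p
    | mul x y p q =>
      refine Ev.bin (g := fun _ => N.mul) (g' := N.mul) ?_ p q
      rintro _ _ _ _ (_ | _ | p | p) (_ | _ | q | q) <;> first
        | exact .of .z | exact .of .o | exact .of (.a p) | exact .of (.b p) | exact .of (.a q)
        | exact .of (.b q) | exact .of (.b (h3 p q))
        | exact Ev.ite (h1 q p) (.of .z) (.of (.b h2)) | exact Ev.ite (h1 p q) (.of .z) (.of (.b h2))
    | imp x y p q =>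
      refine Ev.bin (g := fun _ => N.imp) (g' := N.imp) ?_ p q
      rintro _ _ _ _ (_ | _ | p | p) (_ | _ | q | q) <;> first
        | exact .of .z | exact .of .o | exact .of (.a p) | exact .of (.b p) | exact .of (.a q)
        | exact .of (.b q) | exact .of (.a (h3 p q))
        | exact Ev.ite (h1 q p) (.of .o) (.of (.a h2)) | exact Ev.ite (h1 p q) (.of .o) (.of (.a h2))
  simp only [tr, Set.mem_ofPred_eq, FLew.one_eq, ← top_le_iff]
  exact le (.of .o) k

end

/-- Discrete total preorders with a least element and a marked subset. -/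
class Disc (L : Type) [Preorder L] where
  e : L
  σ : L → L
  π : L → L
  χ : L → Prop
  tot : ∀ x y : L, x ≤ y ∨ y ≤ x
  e_le : ∀ x, e ≤ x
  σ_le : ∀ x y, σ x ≤ y ↔ ¬ y ≤ x
  π1 : ∀ x, x ≤ σ (π x)
  π2 : ∀ x, σ (π x) ≤ x ∨ π x ≤ e
  χ_eq : ∀ x y, x ≤ y → y ≤ x → χ x → χ y

open Disc

theorem σ_mono {L : Type} [Preorder L] [Disc L] (x y : L) : σ x ≤ σ y ↔ x ≤ y := by
  rw [σ_le, σ_le, not_not]

theorem π_le {L : Type} [Preorder L] [Disc L] (x y : L) : π x ≤ y ↔ x ≤ σ y :=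
  ⟨fun h => (π1 x).trans ((σ_mono _ _).2 h), fun h => (π2 x).elim
    (fun k => (σ_mono _ _).1 (k.trans h)) fun k => k.trans (e_le _)⟩

theorem exists_quot (P : Type) [Preorder P] [Disc P] : ∃ (L : Type) (_ : LinearOrder L)
    (_ : Disc L) (q : P → L), (∀ x y, q x ≤ q y ↔ x ≤ y) ∧ q e = e ∧ (∀ x, q (σ x) = σ (q x)) ∧
      (∀ x, q (π x) = π (q x)) ∧ ∀ x, χ (q x) ↔ χ x := by
  have : @Std.Total P (· ≤ ·) := ⟨tot⟩
  refine ⟨Antisymmetrization P (· ≤ ·), inferInstance,
    { e := Quotient.mk _ e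
      σ := Quotient.map σ fun x y h => ⟨(σ_mono _ _).2 h.1, (σ_mono _ _).2 h.2⟩
      π := Quotient.map π fun x y h => ⟨(π_le _ _).2 (h.1.trans (π1 _)),
        (π_le _ _).2 (h.2.trans (π1 _))⟩
      χ := Quotient.lift χ fun x y h => propext ⟨χ_eq _ _ h.1 h.2, χ_eq _ _ h.2 h.1⟩
      tot := le_total
      e_le := by rintro ⟨x⟩; exact e_le x
      σ_le := by rintro ⟨x⟩ ⟨y⟩; exact σ_le x y
      π1 := by rintro ⟨x⟩; exact π1 x
      π2 := by rintro ⟨x⟩; exact π2 x
      χ_eq := by rintro ⟨x⟩ ⟨y⟩; exact χ_eq x y }, Quotient.mk _, fun _ _ => Iff.rfl, rfl,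
    fun _ => rfl, fun _ => rfl, fun _ => Iff.rfl⟩

inductive Ix (L : Type)
  | s | p (j : L) | m (k : L)

open Ix

section
variable {L : Type} [LinearOrder L] [Disc L]

def Ix.le : Ix L → Ix L → Prop
  | s, _ => True
  | p i, p j => i ≤ j
  | p _, m _ => True
  | m i, m j => j ≤ i
  | _, _ => False

noncomputable def ad (i j : L) : L :=
  if i ≤ j then (if j ≤ i ∧ χ i then σ (σ j) else σ j) else σ i

noncomputable def sb (i k : L) : L :=
  if k ≤ σ i then e else if k ≤ σ (σ i) ∧ χ i then i else π k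

theorem sb_le (i j k : L) : (k ≤ i ∨ sb i k ≤ j) ↔ k ≤ ad i j := by
  have := σ_le i
  have := σ_le j
  have := σ_le (σ i)
  have := σ_le (σ j)
  have := e_le j
  have := π_le k j
  unfold ad sb
  grind

theorem ad_comm (i j : L) : ad i j = ad j i := by
  unfold ad
  grind

noncomputable def Ix.F : Ix L → Ix L → Ix L
  | s, s => m e
  | s, p j => m j
  | p j, s => m j
  | p i, p j => m (ad i j)
  | s, m k => if k ≤ e then s else p k
  | m k, s => if k ≤ e then s else p k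
  | p i, m k => if k ≤ i then s else p (sb i k)
  | m k, p i => if k ≤ i then s else p (sb i k)
  | m _, m _ => s

noncomputable instance : Tri (Ix L) where
  le := Ix.le
  le_refl x := by cases x <;> simp [Ix.le]
  le_trans x y w := by cases x <;> cases y <;> cases w <;> simp [Ix.le] <;> grind
  le_antisymm x y := by cases x <;> cases y <;> simp [Ix.le] <;> grind
  le_total x y := by cases x <;> cases y <;> simp [Ix.le] <;> grind
  toDecidableLE := Classical.decRel _
  t := s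
  f := Ix.F
  t_le _ := trivial
  comm x y := by cases x <;> cases y <;> simp [Ix.F, ad_comm]
  sym x y w := by
    change Ix.le (Ix.F _ _) _ ↔ Ix.le (Ix.F _ _) _
    have k : ∀ (c : Prop) [Decidable c] (x : L) y, Ix.le (if c then s else p x) y ↔
        c ∨ Ix.le (p x) y := fun c _ x y => by split_ifs <;> simp [Ix.le, *]
    have k' : ∀ x y : L, x ≤ e ∨ x ≤ y ↔ x ≤ y := fun x y => or_iff_right_of_imp (·.trans (e_le y))
    cases x <;> cases y <;> cases w <;> simp only [Ix.F, k] <;>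
      simp only [Ix.le, k', sb_le, ad_comm, or_false, or_true]

end

section
variable {ι : Type} {U : Ultrafilter ι} {L : ι → Type} [∀ i, LinearOrder (L i)] [∀ i, Disc (L i)]
  {K : Type} [LinearOrder K] [Disc K]

structure Lim (U : Ultrafilter ι) (q : (∀ i, L i) → K) : Prop where
  le : ∀ x y, (∀ᶠ i in U, x i ≤ y i) ↔ q x ≤ q y
  he : q (fun _ => e) = e
  hσ : ∀ x, q (fun i => σ (x i)) = σ (q x)
  hπ : ∀ x, q (fun i => π (x i)) = π (q x)
  hχ : ∀ x, (∀ᶠ i in U, χ (x i)) ↔ χ (q x)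

inductive CI (q : (∀ i, L i) → K) : (∀ i, Ix (L i)) → Ix K → Prop
  | s : CI q (fun _ => s) s
  | p (g : ∀ i, L i) {j : K} : q g = j → CI q (fun i => p (g i)) (p j)
  | m (g : ∀ i, L i) {j : K} : q g = j → CI q (fun i => m (g i)) (m j)

variable {q : (∀ i, L i) → K}

omit [∀ i, LinearOrder (L i)] [LinearOrder K] [Disc K] in
theorem ci_tot [∀ i, Nonempty (L i)] (x : ∀ i, Ix (L i)) : ∃ y, Ev U (CI q) x y := by
  let g : ∀ i, L i := fun i => match x i with | p j => j | m j => j | _ => Classical.arbitrary _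
  have : ∀ᶠ i in U, x i = s ∨ x i = p (g i) ∨ x i = m (g i) :=
    .of_forall fun i => by cases e : x i <;> simp [g, e]
  simp only [Ultrafilter.eventually_or] at this
  rcases this with e | e | e
  exacts [⟨_, _, e, .s⟩, ⟨_, _, e, .p g rfl⟩, ⟨_, _, e, .m g rfl⟩]

theorem Lim.ite (h : Lim U q) {c : ι → Prop} {c' : Prop} [∀ i, Decidable (c i)] [Decidable c']
    (k : (∀ᶠ i in U, c i) ↔ c') (x y : ∀ i, L i) :
    q (fun i => if c i then x i else y i) = if c' then q x else q y := by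
  obtain ⟨w, a, b⟩ := Ev.ite (C := fun x y => q x = y) k (.of (x := x) rfl) (.of (x := y) rfl)
  exact b ▸ le_antisymm ((h.le _ _).1 (a.mono fun _ => le_of_eq)) ((h.le _ _).1
    (a.mono fun _ => ge_of_eq))

theorem Lim.ev (h : Lim U q) {v : ∀ i, ℕ → N (Ix (L i))} {w : ℕ → N (Ix K)}
    (k : ∀ n, Ev U (CN (Ev U (CI q))) (v · n) (w n)) (φ : Fm) :
    (∀ᶠ i in U, φ ∈ tr (v i)) ↔ φ ∈ tr w := by
  have a1 : ∀ x y, q (fun i => ad (x i) (y i)) = ad (q x) (q y) := fun x y => by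
    unfold ad
    rw [h.ite (h.le _ _), h.ite (c' := q y ≤ q x ∧ χ (q x)) (by rw [eventually_and, h.le, h.hχ]),
      h.hσ, h.hσ, h.hσ]
  have a2 : ∀ x y, q (fun i => sb (x i) (y i)) = sb (q x) (q y) := fun x y => by
    unfold sb
    rw [h.ite (c' := q y ≤ σ (q x)) (by rw [h.le, h.hσ]), h.ite (c' := q y ≤ σ (σ (q x)) ∧ χ (q x))
      (by rw [eventually_and, h.le, h.hχ, h.hσ, h.hσ]), h.he, h.hπ]
  have a3 : ∀ x, (∀ᶠ i in U, x i ≤ e) ↔ q x ≤ e := fun x => by rw [h.le, h.he]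
  refine cn_ev (Ev.rel (g := fun _ => Ix.le) (g' := Ix.le) ?_) (.of .s)
    (Ev.bin (g := fun _ => Ix.F) (g' := Ix.F) ?_) k φ
  · rintro _ _ _ _ (_ | ⟨x, rfl⟩ | ⟨x, rfl⟩) (_ | ⟨y, rfl⟩ | ⟨y, rfl⟩) <;> simp only [Ix.le] <;>
      first | exact h.le _ _ | simp [U.neBot.ne]
  · rintro _ _ _ _ (_ | ⟨x, rfl⟩ | ⟨x, rfl⟩) (_ | ⟨y, rfl⟩ | ⟨y, rfl⟩) <;> first
      | exact .of .s | exact .of (.m _ h.he) | exact .of (.m _ rfl) | exact .of (.m _ (a1 _ _))
      | exact Ev.ite (a3 _) (.of .s) (.of (.p _ rfl))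
      | exact Ev.ite (h.le _ _) (.of .s) (.of (.p _ (a2 _ _)))

end

section
variable {L K : Type} [LinearOrder L] [Disc L] [LinearOrder K] [Disc K]

structure Emb (g : L → K) : Prop where
  le : ∀ x y, g x ≤ g y ↔ x ≤ y
  he : g e = e
  hσ : ∀ x, g (σ x) = σ (g x)
  hπ : ∀ x, g (π x) = π (g x)
  hχ : ∀ x, χ (g x) ↔ χ x

def mp (g : L → K) : N (Ix L) → N (Ix K)
  | z => z
  | o => o
  | a s => a s
  | a (p j) => a (p (g j))
  | a (m j) => a (m (g j))
  | b s => b s
  | b (p j) => b (p (g j))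
  | b (m j) => b (m (g j))

theorem Emb.tr {g : L → K} (h : Emb g) (v : ℕ → N (Ix L)) (φ : Fm) :
    φ ∈ tr (fun n => mp g (v n)) ↔ φ ∈ tr v := by
  refine ((Lim.ev (U := pure ()) (L := fun _ => L) (q := fun x => g (x ()))
    ⟨fun _ _ => (h.le _ _).symm, h.he, fun _ => h.hσ _, fun _ => h.hπ _, fun _ => (h.hχ _).symm⟩
    (v := fun _ => v) (w := fun n => mp g (v n)) (fun n => ?_) φ).symm.trans Iff.rfl)
  rcases v n with _ | (_ | j | j) | (_ | j | j) | _
  exacts [.of .z, .of (.b (.of .s)), .of (.b (.of (.p (fun _ => j) rfl))),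
    .of (.b (.of (.m (fun _ => j) rfl))), .of (.a (.of .s)), .of (.a (.of (.p (fun _ => j) rfl))),
    .of (.a (.of (.m (fun _ => j) rfl))), .of .o]

/-- Partial isomorphisms. -/
structure PI (R : L → K → Prop) : Prop where
  le : ∀ x y x' y', R x y → R x' y' → (x ≤ x' ↔ y ≤ y')
  he : R e e
  hσ : ∀ x y, R x y → R (σ x) (σ y)
  hπ : ∀ x y, R x y → R (π x) (π y)
  hχ : ∀ x y, R x y → (χ x ↔ χ y)

def Am (_ : L → K → Prop) := L ⊕ K

theorem PI.amalg {R : L → K → Prop} (h : PI R) : ∃ (M : Type) (_ : LinearOrder M) (_ : Disc M)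
    (g : L → M) (g' : K → M), Emb g ∧ Emb g' ∧ ∀ x y, R x y → g x = g' y := by
  have h1 := h.le
  let le : Am R → Am R → Prop
    | .inl x, .inl y => x ≤ y
    | .inr x, .inr y => x ≤ y
    | .inl x, .inr y => ∃ r r', R r r' ∧ x ≤ r ∧ r' ≤ y
    | .inr y, .inl x => (∃ r r', R r r' ∧ y ≤ r' ∧ r ≤ x) ∨ ¬ ∃ r r', R r r' ∧ x ≤ r ∧ r' ≤ y
  let _ : Preorder (Am R) :=
    { le := le
      le_refl := by rintro (x | x) <;> exact le_rfl
      le_trans := by rintro (x | x) (y | y) (w | w) <;> simp only [le] <;> grind }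
  have d : ∀ x y : Am R, x ≤ y ↔ le x y := fun _ _ => Iff.rfl
  let _ : Disc (Am R) :=
    { e := .inl e
      σ := Sum.map σ σ
      π := Sum.map π π
      χ := Sum.elim χ χ
      tot := by rintro (x | x) (y | y) <;> simp only [d, le] <;> grind
      e_le := by
        rintro (x | x)
        exacts [e_le x, ⟨_, _, h.he, le_rfl, e_le _⟩]
      σ_le := by
        rintro (x | x) (y | y) <;> simp only [d, le, Sum.map_inl, Sum.map_inr, σ_le]
        · refine ⟨by grind, fun k => ?_⟩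
          obtain ⟨r, r', a, b, c⟩ := not_not.1 (not_or.1 k).2
          have := h.hσ _ _ a
          have := σ_le r' y
          have := σ_le r (σ r)
          grind
        · refine ⟨by grind [σ_le], fun k => or_iff_not_imp_right.2 fun j => ?_⟩
          obtain ⟨r, r', a, b, c⟩ := not_not.1 j
          have := h.hπ _ _ a
          have := π_le r' x
          have := σ_le x r'
          have := σ_le (π r) y
          have := π1 r
          grind
      π1 := by rintro (x | x) <;> exact π1 x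
      π2 := by
        rintro (x | x)
        exacts [π2 x, (π2 x).imp_right fun k => .inl ⟨_, _, h.he, k, le_rfl⟩]
      χ_eq := by
        have := h.hχ
        rintro (x | x) (y | y) <;> simp only [d, le, Sum.elim_inl, Sum.elim_inr] <;> grind }
  obtain ⟨M, _, _, q, q1, q2, q3, q4, q5⟩ := exists_quot (Am R)
  have k : ∀ x y, R x y → q (.inl x) = q (.inr y) := fun x y r => le_antisymm
    ((q1 _ _).2 ⟨_, _, r, le_rfl, le_rfl⟩) ((q1 _ _).2 (.inl ⟨_, _, r, le_rfl, le_rfl⟩))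
  exact ⟨M, _, _, fun x => q (.inl x), fun x => q (.inr x), ⟨fun _ _ => q1 _ _, q2,
    fun x => q3 (.inl x), fun x => q4 (.inl x), fun x => q5 (.inl x)⟩, ⟨fun _ _ => q1 _ _,
    (k _ _ h.he).symm.trans q2, fun x => q3 (.inr x), fun x => q4 (.inr x), fun x => q5 (.inr x)⟩, k⟩

theorem lt_σ (x : L) : ¬ σ x ≤ x := by simp [σ_le]

theorem pair_pi {V : N (Ix L) → N (Ix K) → Prop} (h0 : V z z)
    (h1 : ∀ {x y x' y'}, V x y → V x' y' → V (x.mul x') (y.mul y'))
    (h2 : ∀ {x y x' y'}, V x y → V x' y' → V (x.imp x') (y.imp y'))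
    (h3 : ∀ {x y x' y'}, V x y → V x' y' → (x.le x' ↔ y.le y')) (c : ¬ χ (e : L)) (c' : ¬ χ (e : K)) :
    ((∃ j k, V (a (p j)) (a (p k))) → PI fun j k => V (a (p j)) (a (p k))) ∧
    ∀ {M : Type} (g : L → M) (g' : K → M) [LinearOrder M] [Disc M], g e = g' e →
      (∀ j k, V (a (p j)) (a (p k)) → g j = g' k) → ∀ x y, V x y → mp g x = mp g' y := by
  have cm : ∀ {i j i' j'}, V (a i) (a j) → V (a i') (a j') → V (a (i.F i')) (a (j.F j')) :=
    fun u v => h2 (h1 u v) h0
  have l : ∀ {M : Type} [LinearOrder M] [Disc M] (x y : Ix M), x ≤ y ↔ x.le y := fun _ _ => Iff.rfl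
  have F : ∀ {M : Type} [LinearOrder M] [Disc M] (x y : Ix M), f x y = x.F y := fun _ _ => rfl
  have T : ∀ {M : Type} [LinearOrder M] [Disc M], (t : Ix M) = s := rfl
  refine ⟨fun ⟨j, k, u⟩ => ?_, fun g g' _ _ e1 e2 => ?_⟩
  · have t1 : V (a s) (a s) := by
      simpa [N.mul, N.imp, l, F, T, Ix.F, Ix.le] using h2 (h2 u h0) (h1 (h1 u u) u)
    have n : ∀ {M : Type} [LinearOrder M] [Disc M] (x : M), ¬ ad x x ≤ x ∧ ¬ ad x x ≤ e ∧
        ¬ σ x ≤ e ∧ ad (ad x x) x = σ (ad x x) ∧ sb x (σ x) = e ∧ (ad x x ≤ σ x ↔ ¬ χ x) ∧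
        (¬ χ (e : M) → ad e x = σ x ∧ (¬ x ≤ e → sb e x = π x)) ∧ (x ≤ e → π x = e) :=
      fun {M} _ _ x => by
      have := lt_σ x
      have := lt_σ (σ x)
      have := e_le x
      have := e_le (π x)
      have := π_le x e
      have := lt_σ (e : M)
      unfold ad sb
      grind
    have o1 : V (a (p e)) (a (p e)) := by
      have u' := cm t1 (cm u u)
      simp only [Ix.F, n, if_false] at u'
      simpa only [Ix.F, n, if_false, lt_σ] using cm u' (cm u' u)
    have m1 : ∀ {j k}, V (a (p j)) (a (p k)) → V (a (m (σ j))) (a (m (σ k))) := fun u => by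
      simpa only [Ix.F, ((n _).2.2.2.2.2.2.1 c).1, ((n _).2.2.2.2.2.2.1 c').1] using cm o1 u
    refine ⟨fun _ _ _ _ u v => h3 v u, o1, fun j k u => ?_, fun j k u => ?_, fun j k u => ?_⟩
    · simpa only [Ix.F, n, if_false] using cm t1 (m1 u)
    · have e1 : j ≤ e ↔ k ≤ e := h3 o1 u
      by_cases e2 : j ≤ e
      · rwa [(n _).2.2.2.2.2.2.2 e2, (n _).2.2.2.2.2.2.2 (e1.1 e2)]
      · simpa only [Ix.F, e2, mt e1.2 e2, if_false, ((n _).2.2.2.2.2.2.1 c).2 e2,
          ((n _).2.2.2.2.2.2.1 c').2 (mt e1.2 e2)] using cm o1 (cm t1 u)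
    · simpa only [Ix.F, N.le, l, Ix.le, n, not_iff_not] using h3 (cm u u) (m1 u)
  have A : ∀ i y, V (a i) y → mp g (a i) = mp g' y := fun i y u => by
    have q1 := h3 u h0
    have q2 := h3 (h2 h0 h0) u
    have q3 := h3 u (h2 u h0)
    have q4 := h3 (h1 (h1 u u) u) h0
    have q5 := h3 (h2 u h0) (h1 (h1 u u) u)
    rcases i with _ | j | j <;> rcases y with _ | (_ | k | k) | (_ | k | k) | _ <;>
      simp [N.mul, N.imp, N.le, l, F, T, Ix.F, Ix.le] at q1 q2 q3 q4 q5 <;> simp only [mp]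
    · rw [e2 _ _ u]
    have t1 : V (a s) (a s) := by
      simpa [N.mul, N.imp, l, F, T, Ix.F, Ix.le] using h2 (h2 u h0) (h1 u u)
    have v := cm t1 u
    have w := h3 t1 v
    simp only [Ix.F] at v w
    split_ifs at v w with d1 d2 d2 <;> simp only [N.le, l, Ix.le, false_iff, true_iff,
      not_true] at w
    · rw [d1.antisymm (e_le _), d2.antisymm (e_le _), e1]
    · rw [e2 _ _ v]
  rintro (_ | i | i | _) y u
  · have := h3 u h0
    cases y <;> simp_all [N.le, mp]
  · have := A _ _ (h2 u h0)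
    rcases i with _ | j | j <;> rcases y with _ | (_ | k | k) | (_ | k | k) | _ <;>
      simp_all [N.imp, mp]
  · exact A _ _ u
  · have := h3 (h2 h0 h0) u
    cases y <;> simp_all [N.le, N.imp, mp]

theorem pair_tr {v : ℕ → N (Ix L)} {w : ℕ → N (Ix K)} {W : Set ℕ}
    (h : ∀ φ, vars φ ⊆ W → (φ ∈ tr v ↔ φ ∈ tr w)) (c : ¬ χ (e : L)) (c' : ¬ χ (e : K)) :
    ∃ V : N (Ix L) → N (Ix K) → Prop, (∀ n ∈ W, V (v n) (w n)) ∧
    ((∃ j k, V (a (p j)) (a (p k))) → PI fun j k => V (a (p j)) (a (p k))) ∧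
    ∀ {M : Type} (g : L → M) (g' : K → M) [LinearOrder M] [Disc M], g e = g' e →
      (∀ j k, V (a (p j)) (a (p k)) → g j = g' k) → ∀ x y, V x y → mp g x = mp g' y := by
  refine ⟨fun x y => ∃ φ, vars φ ⊆ W ∧ ev v φ = x ∧ ev w φ = y, fun n hn =>
    ⟨.var n, Set.singleton_subset_iff.2 hn, rfl, rfl⟩, pair_pi (V := fun x y => ∃ φ, vars φ ⊆ W ∧ ev v φ = x ∧ ev w φ = y)
    ⟨.zero, Set.empty_subset _, rfl, rfl⟩
    @?_ @?_ @?_ c c'⟩ <;> rintro _ _ _ _ ⟨x, i, rfl, rfl⟩ ⟨y, j, rfl, rfl⟩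
  · exact ⟨x.mul y, Set.union_subset i j, rfl, rfl⟩
  · exact ⟨x.imp y, Set.union_subset i j, rfl, rfl⟩
  · exact (imp_one _ _).symm.trans ((h (x.imp y) (Set.union_subset i j)).trans (imp_one _ _))

theorem iter_le (i j : ℕ) : σ^[i] (e : L) ≤ σ^[j] e ↔ i ≤ j :=
  (strictMono_nat_of_lt_succ (f := fun n => σ^[n] (e : L)) fun n => by
    rw [Function.iterate_succ_apply', ← not_le]; exact lt_σ _).le_iff_le

end

/-- The truth sets of the class attached to `S`. -/
def Mod (S : Set ℕ) : Set (Set Fm) := {T | ∃ (L : Type) (_ : LinearOrder L) (_ : Disc L),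
  (∀ n, χ ((σ : L → L)^[n] e) ↔ n ∈ S) ∧ ∃ v : ℕ → N (Ix L), T = tr v}

theorem good_mod {C : ∀ (A : Type) [FLew A], Prop} (hC : ∀ (A : Type) [FLew A], Prelin A → C A)
    {S : Set ℕ} (h : 0 ∉ S) : Good C (Mod S) where
  mod := by
    rintro _ ⟨L, _, _, k, v, rfl⟩
    exact ⟨_, _, hC _ N.prelin, N.nil, fun w => ⟨L, _, _, k, w, rfl⟩, v, rfl⟩
  lim ι U T hT := by
    choose L i1 i2 k v hv using hT
    let _ : Preorder (∀ i, L i) :=
      { le := fun x y => ∀ᶠ i in U, x i ≤ y i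
        le_refl := fun x => .of_forall fun _ => le_rfl
        le_trans := fun x y w a b => (a.and b).mono fun _ c => c.1.trans c.2
        lt := fun x y => (∀ᶠ i in U, x i ≤ y i) ∧ ¬ ∀ᶠ i in U, y i ≤ x i
        lt_iff_le_not_ge := fun _ _ => Iff.rfl }
    let _ : Disc (∀ i, L i) :=
      { e := fun _ => e
        σ := fun x i => σ (x i)
        π := fun x i => π (x i)
        χ := fun x => ∀ᶠ i in U, χ (x i)
        tot := fun x y => U.eventually_or.1 (.of_forall fun _ => tot _ _)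
        e_le := fun x => .of_forall fun _ => e_le _
        σ_le := fun x y => (eventually_congr (.of_forall fun _ => σ_le _ _)).trans U.eventually_not
        π1 := fun x => .of_forall fun _ => π1 _
        π2 := fun x => U.eventually_or.1 (.of_forall fun _ => π2 _)
        χ_eq := fun x y a b c => (a.and (b.and c)).mono fun _ d => χ_eq _ _ d.1 d.2.1 d.2.2 }
    obtain ⟨M, _, _, q, q1, q2, q3, q4, q5⟩ := exists_quot (∀ i, L i)
    have l : Lim U q := ⟨fun _ _ => (q1 _ _).symm, q2, q3, q4, fun _ => (q5 _).symm⟩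
    have : ∀ i, Nonempty (L i) := fun i => ⟨e⟩
    choose w hw using fun n => cn_tot (U := U) (ci_tot (U := U) (q := q)) (v · n)
    refine ⟨M, _, _, fun n => ?_, w, Set.ext fun φ => by simp only [hv]; exact l.ev hw φ⟩
    have : σ^[n] (e : M) = q fun i => σ^[n] e := by
      induction n with
      | zero => exact q2.symm
      | succ n ih => simp only [Function.iterate_succ_apply', ih, l.hσ]
    rw [this, ← l.hχ]
    simp [k]
  ap := by
    rintro _ ⟨L, _, _, k, v, rfl⟩ _ ⟨K, _, _, k', w, rfl⟩ X Y g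
    obtain ⟨V, v1, v2, v3⟩ := pair_tr g (mt (k 0).1 h) (mt (k' 0).1 h)
    obtain ⟨R, r1, r2⟩ : ∃ R : L → K → Prop, PI R ∧ ∀ j k, V (a (p j)) (a (p k)) → R j k := by
      by_cases c : ∃ j k, V (a (p j)) (a (p k))
      · exact ⟨_, v2 c, fun _ _ => id⟩
      refine ⟨fun j k => ∃ n, j = σ^[n] e ∧ k = σ^[n] e, ⟨?_, ⟨0, rfl, rfl⟩, ?_, ?_, ?_⟩,
        fun j k u => absurd ⟨j, k, u⟩ c⟩
      · rintro _ _ _ _ ⟨i, rfl, rfl⟩ ⟨j, rfl, rfl⟩
        rw [iter_le, iter_le]
      · rintro _ _ ⟨i, rfl, rfl⟩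
        exact ⟨i + 1, by simp only [Function.iterate_succ_apply', and_self]⟩
      · have : ∀ {M : Type} [LinearOrder M] [Disc M] (i : ℕ), π (σ^[i] (e : M)) = σ^[i - 1] e :=
          fun i => by
          rcases i with _ | i
          · exact le_antisymm ((π_le _ _).2 (e_le _)) (e_le _)
          · rw [Function.iterate_succ_apply']
            exact le_antisymm ((π_le _ _).2 le_rfl) ((σ_mono _ _).1 (π1 _))
        rintro _ _ ⟨i, rfl, rfl⟩
        exact ⟨i - 1, this i, this i⟩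
      · rintro _ _ ⟨i, rfl, rfl⟩
        rw [k, k']
    obtain ⟨M, _, _, f, f', e1, e2, e3⟩ := r1.amalg
    refine ⟨_, ⟨M, _, _, fun n => ?_, fun n => if n ∈ X then mp f (v n) else mp f' (w n), rfl⟩,
      fun φ i => Iff.trans (ev_congr fun n j => if_pos (i j)).congr_left (e1.tr v φ),
      fun φ i => Iff.trans (ev_congr fun n j => ?_).congr_left (e2.tr w φ)⟩
    · rw [← k, ← e1.hχ, ← e1.he, Function.Semiconj.iterate_right e1.hσ]
    · split_ifs with c
      exacts [v3 f f' (e3 _ _ r1.he) (fun j k u => e3 _ _ (r2 _ _ u)) _ _ (v1 n ⟨c, i j⟩), rfl]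

theorem mod_inj {S S' : Set ℕ} (h : 0 ∉ S) (h' : 0 ∉ S')
    (k : ∀ Γ φ, (∀ T ∈ Mod S, Γ ⊆ T → φ ∈ T) → ∀ T ∈ Mod S', Γ ⊆ T → φ ∈ T) : S = S' := by
  let _ : Disc ℕ :=
    { e := 0, σ := (· + 1), π := (· - 1), χ := (· ∈ S'), tot := le_total, e_le := Nat.zero_le
      σ_le := by omega, π1 := by omega, π2 := by omega
      χ_eq := fun x y a b => a.antisymm b ▸ id }
  have c : ∀ n, χ ((σ : ℕ → ℕ)^[n] e) ↔ n ∈ S' := fun n => by
    rw [show (σ : ℕ → ℕ)^[n] e = n from (Nat.succ_iterate 0 n).trans (zero_add n)]; rfl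
  let w : ℕ → N (Ix ℕ) := fun _ => a (p 0)
  obtain ⟨_, ⟨L, _, _, d, v, rfl⟩, g⟩ : ∃ T ∈ Mod S, tr w ⊆ T := by
    by_contra! g
    exact N.nil.1 (k (tr w) .zero (fun T i j => absurd j (g T i)) _ ⟨ℕ, _, _, c, w, rfl⟩ le_rfl)
  obtain ⟨V, v1, v2, v3⟩ := pair_tr (W := Set.univ) (v := v) (w := w) (fun φ _ => ⟨fun i =>
    by_contra fun j => (N.nil.nb _ _).1 (g ((N.nil.nb _ _).2 j)) i, fun i => g i⟩)
    (mt (d 0).1 h) (mt (c 0).1 h')
  have u := v1 0 trivial
  have := v3 (fun _ => 0) (fun _ => 0) rfl (fun _ _ _ => rfl) _ _ u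
  obtain ⟨j, hj⟩ : ∃ j, v 0 = a (p j) := by
    revert this
    rcases v 0 with _ | (_ | j | j) | (_ | j | j) | _ <;> simp [mp, w]
  have r := v2 ⟨j, 0, hj ▸ u⟩
  refine Set.ext fun n => (d n).symm.trans ((r.hχ _ _ ?_).trans (c n))
  induction n with
  | zero => exact r.he
  | succ n ih => simpa only [Function.iterate_succ_apply'] using r.hσ _ _ ih

theorem uncountable {C : ∀ (A : Type) [FLew A], Prop}
    (hC : ∀ (A : Type) [FLew A], Prelin A → C A) : ¬ Set.Countable {R : Set Fm → Fm → Prop |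
      ∃ Ax : Set Fm, Closed Ax ∧ R = Cons C Ax ∧ HasDIP R} := fun h => by
  have z : ∀ S : Set ℕ, 0 ∉ Nat.succ '' S := by simp
  have u : ¬ Countable (Set ℕ) := fun _ => (exists_surjective_nat (Set ℕ)).elim
    Function.cantor_surjective
  refine u (Set.countable_univ_iff.1 ((h.preimage_of_injOn
    (f := fun S : Set ℕ => Cons C (⋂₀ Mod (Nat.succ '' S))) fun S _ S' _ e => ?_).mono
      fun S _ => by exact ⟨_, (good_mod hC (z S)).closed, rfl, (good_mod hC (z S)).dip⟩))
  exact Nat.succ_injective.image_injective (mod_inj (z S) (z S') fun Γ φ i =>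
    ((good_mod hC (z S')).cons Γ φ).1 (cast (congrFun (congrFun e Γ) φ)
      (((good_mod hC (z S)).cons Γ φ).2 i)))

end Pool.Agent.H23.DIP
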