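import Mathlib
import Pool.Agent.H23.PR
import Pool.Agent.H23.CTools

set_option autoImplicit false

namespace Pool.Agent.H23.SPair

open Nat.Partrec (Code)
open Nat.Partrec.Code

theorem generic {C ι : Type} [Countable ι] [Nonempty ι] (le : C → C → Prop) (hr : ∀ p, le p p)
    (ht : ∀ p q r, le p q → le q r → le p r) (p0 : C) (D : ι → C → Prop)
    (hD : ∀ i p, ∃ q, le p q ∧ D i q) :
    ∃ c : ℕ → C, (∀ m n, m ≤ n → le (c m) (c n)) ∧ ∀ i, ∃ n, D i (c n) := by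
  obtain ⟨e, he⟩ := exists_surjective_nat ι
  choose nx h1 h2 using hD
  let c : ℕ → C := fun n => Nat.rec p0 (fun k p => nx (e k) p) n
  refine ⟨c, fun m n h => ?_, fun i => ?_⟩
  · induction n, h using Nat.le_induction with
    | base => exact hr _
    | succ n _ ih => exact ht _ _ _ ih (h1 (e n) (c n))
  · obtain ⟨k, rfl⟩ := he i
    exact ⟨k + 1, h2 (e k) (c k)⟩

theorem re_fun {α : Type} [Primcodable α] {p : α → Prop} (h : REPred p) :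
    ∃ f : α →. ℕ, Partrec f ∧ ∀ a, (f a).Dom ↔ p a :=
  ⟨_, h.map (Computable.const 0).to₂, fun a => by simp [Part.dom_iff_mem]⟩

def Wc (α : Type) [Primcodable α] (c : Code) : Set α := {a | (eval c (Encodable.encode a)).Dom}

theorem exists_Wc {α : Type} [Primcodable α] {W : Set α}
    (h : ∃ f : α →. ℕ, Partrec f ∧ ∀ a, (f a).Dom ↔ a ∈ W) : ∃ c, Wc α c = W := by
  obtain ⟨f, hf, h⟩ := h
  obtain ⟨c, hc⟩ := exists_code.1 hf
  refine ⟨c, Set.ext fun a => ?_⟩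
  rw [← h, Wc, Set.mem_ofPred_eq, hc]
  simp [Part.dom_iff_mem]

def sib (y : ℕ) : ℕ := if y % 2 = 0 then y + 1 else y - 1

structure Cond where
  P : Finset (Bool × ℕ)
  N : Finset (Bool × ℕ)
  disj : ∀ u ∈ P, u ∉ N
  sat : ∀ s y, (s, y) ∈ P → (s, sib y) ∈ P ∨ (s, sib y) ∈ N
  clo : ∀ s y, (s, y) ∈ P → (s, sib y) ∈ P → (!s, (y / 2).unpair.1) ∈ P

def Le (p q : Cond) : Prop := p.P ⊆ q.P ∧ p.N ⊆ q.N

theorem sib_sib (y : ℕ) : sib (sib y) = y := by unfold sib; split_ifs <;> omega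
theorem sib_ne (y : ℕ) : sib y ≠ y := by unfold sib; split_ifs <;> omega
theorem sib_div (y : ℕ) : sib y / 2 = y / 2 := by unfold sib; split_ifs <;> omega

theorem addN (p : Cond) (F : Finset (Bool × ℕ)) (hF : ∀ u ∈ F, u ∉ p.P) :
    ∃ q, Le p q ∧ q.P = p.P ∧ F ⊆ q.N :=
  ⟨⟨p.P, p.N ∪ F, fun u hu h => by
      rcases Finset.mem_union.1 h with h | h
      · exact p.disj u hu h
      · exact hF u h hu,
    fun s y h => (p.sat s y h).imp id (fun h => Finset.mem_union_left _ h), p.clo⟩,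
    ⟨le_rfl, Finset.subset_union_left⟩, rfl, Finset.subset_union_right⟩

theorem addP (p : Cond) (s : Bool) (y : ℕ) (h : (s, y) ∉ p.N) :
    ∃ q, Le p q ∧ q.P = insert (s, y) p.P := by
  by_cases hP : (s, y) ∈ p.P
  · exact ⟨p, ⟨le_rfl, le_rfl⟩, (Finset.insert_eq_of_mem hP).symm⟩
  have hs : (s, sib y) ∉ p.P := fun h' => by
    have := p.sat s _ h'
    rw [sib_sib] at this
    tauto
  refine ⟨⟨insert (s, y) p.P, insert (s, sib y) p.N, ?_, ?_, ?_⟩,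
    ⟨Finset.subset_insert _ _, Finset.subset_insert _ _⟩, rfl⟩
  · intro u hu hn
    rcases Finset.mem_insert.1 hu with rfl | hu <;> rcases Finset.mem_insert.1 hn with hn | hn
    · exact sib_ne y (congrArg Prod.snd hn).symm
    · exact h hn
    · exact hs (hn ▸ hu)
    · exact p.disj u hu hn
  · intro s' y' hu
    rcases Finset.mem_insert.1 hu with hu | hu
    · cases hu; exact Or.inr (Finset.mem_insert_self _ _)
    · exact (p.sat s' y' hu).imp Finset.mem_insert_of_mem Finset.mem_insert_of_mem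
  · intro s' y' hu0 hv0
    rcases Finset.mem_insert.1 hu0 with hu | hu
    · rcases Finset.mem_insert.1 hv0 with hv | hv
      · cases hu; exact absurd (congrArg Prod.snd hv) (sib_ne _)
      · cases hu; exact absurd hv hs
    · rcases Finset.mem_insert.1 hv0 with hv | hv
      · obtain ⟨rfl, rfl⟩ := Prod.mk.inj hv
        rw [sib_sib] at hs; exact absurd hu hs
      · exact Finset.mem_insert_of_mem (p.clo s' y' hu hv)

theorem fresh (F : Finset (Bool × ℕ)) : ∃ b, ∀ s y, b ≤ y → (s, y) ∉ F := by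
  refine ⟨F.sup Prod.snd + 1, fun s y hy h => ?_⟩
  have := Finset.le_sup (f := Prod.snd) h
  simp only at this
  omega

theorem addKids (p : Cond) (s : Bool) (u : ℕ) (h : (s, u) ∈ p.P) :
    ∃ q, Le p q ∧ ∃ k, (!s, 2 * Nat.pair u k) ∈ q.P ∧ (!s, 2 * Nat.pair u k + 1) ∈ q.P := by
  obtain ⟨k, hk⟩ := fresh p.N
  have hk' := Nat.right_le_pair u k
  obtain ⟨y, hy⟩ : ∃ y, y = 2 * Nat.pair u k := ⟨_, rfl⟩
  have e1 : sib y = y + 1 := by unfold sib; split_ifs <;> omega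
  have e2 : sib (y + 1) = y := by unfold sib; split_ifs <;> omega
  have e3 : (y / 2).unpair.1 = u := by rw [hy]; simp
  have e4 : ((y + 1) / 2).unpair.1 = u := by rw [show (y + 1) / 2 = y / 2 by omega, e3]
  refine ⟨⟨insert (!s, y) (insert (!s, y + 1) p.P), p.N, ?_, ?_, ?_⟩,
    ⟨(Finset.subset_insert _ _).trans (Finset.subset_insert _ _), le_rfl⟩, k, by simp [hy],
    by simp [hy]⟩
  · intro v hv hn
    simp only [Finset.mem_insert] at hv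
    rcases hv with rfl | rfl | hv
    · exact hk _ _ (by omega) hn
    · exact hk _ _ (by omega) hn
    · exact p.disj v hv hn
  · intro s' y' hu
    simp only [Finset.mem_insert] at hu ⊢
    rcases hu with hu | hu | hu
    · cases hu; simp [e1]
    · cases hu; simp [e2]
    · have := p.sat s' y' hu; tauto
  · intro s' y' hu hv
    simp only [Finset.mem_insert] at hu hv ⊢
    rcases hu with hu | hu | hu
    · cases hu; simp [e3, h]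
    · cases hu; simp [e4, h]
    · rcases hv with hv | hv | hv
      · obtain ⟨rfl, h2⟩ := Prod.mk.inj hv
        rw [← sib_div, h2]; simp [e3, h]
      · obtain ⟨rfl, h2⟩ := Prod.mk.inj hv
        rw [← sib_div, h2]; simp [e4, h]
      · exact Or.inr (Or.inr (p.clo s' y' hu hv))

def D : (Bool × ℕ) ⊕ (Bool × Code) ⊕ (Code × Code) ⊕ (Code × ℕ) → Cond → Prop
  | .inl u, q => u ∈ q.N ∨ (u ∈ q.P ∧ ∃ k, (!u.1, 2 * Nat.pair u.2 k) ∈ q.P ∧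
      (!u.1, 2 * Nat.pair u.2 k + 1) ∈ q.P)
  | .inr (.inl (s, c)), q => ∃ a, ((s, a) ∈ q.P ∧ a ∉ Wc ℕ c) ∨ ((s, a) ∈ q.N ∧ a ∈ Wc ℕ c)
  | .inr (.inr (.inl (c, d))), q =>
      (∃ x a, (false, a) ∈ q.P ∧ (x, a) ∈ Wc (ℕ × ℕ) c ∧
        ∀ b, (x, b) ∈ Wc (ℕ × ℕ) d → (true, b) ∈ q.N) ∨
      (∀ x a, (false, a) ∉ q.N → (x, a) ∈ Wc (ℕ × ℕ) c →
        {b | (x, b) ∈ Wc (ℕ × ℕ) d}.Infinite ∨ ∃ b, (x, b) ∈ Wc (ℕ × ℕ) d ∧ (true, b) ∈ q.P)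
  | .inr (.inr (.inr (d, x))), q => {b | (x, b) ∈ Wc (ℕ × ℕ) d}.Infinite →
      ∃ b, (x, b) ∈ Wc (ℕ × ℕ) d ∧ (true, b) ∈ q.P

theorem Le.trans' (p q r : Cond) (h1 : Le p q) (h2 : Le q r) : Le p r :=
  ⟨h1.1.trans h2.1, h1.2.trans h2.2⟩

theorem dense (i : (Bool × ℕ) ⊕ (Bool × Code) ⊕ (Code × Code) ⊕ (Code × ℕ)) (p : Cond) :
    ∃ q, Le p q ∧ D i q := by
  rcases i with ⟨s, u⟩ | ⟨s, c⟩ | ⟨c, d⟩ | ⟨d, x⟩
  · by_cases h : (s, u) ∈ p.P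
    · obtain ⟨q, h1, h2⟩ := addKids p s u h
      exact ⟨q, h1, Or.inr ⟨h1.1 h, h2⟩⟩
    · obtain ⟨q, h1, _, h3⟩ := addN p {(s, u)} (by simpa using h)
      exact ⟨q, h1, Or.inl (h3 (by simp))⟩
  · obtain ⟨a, ha⟩ := fresh (p.P ∪ p.N)
    have ha' := ha s a le_rfl
    simp only [Finset.mem_union, not_or] at ha'
    by_cases h : a ∈ Wc ℕ c
    · obtain ⟨q, h1, _, h3⟩ := addN p {(s, a)} (by simpa using ha'.1)
      exact ⟨q, h1, a, Or.inr ⟨h3 (by simp), h⟩⟩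
    · obtain ⟨q, h1, h2⟩ := addP p s a ha'.2
      exact ⟨q, h1, a, Or.inl ⟨by simp [h2], h⟩⟩
  · by_cases h : ∀ x a, (false, a) ∉ p.N → (x, a) ∈ Wc (ℕ × ℕ) c →
        {b | (x, b) ∈ Wc (ℕ × ℕ) d}.Infinite ∨ ∃ b, (x, b) ∈ Wc (ℕ × ℕ) d ∧ (true, b) ∈ p.P
    · exact ⟨p, ⟨le_rfl, le_rfl⟩, Or.inr h⟩
    · push Not at h
      obtain ⟨x, a, h1, h2, h3, h4⟩ := h
      obtain ⟨q, hq1, hq2⟩ := addP p false a h1
      obtain ⟨r, hr1, hr2, hr3⟩ := addN q (h3.toFinset.image fun b => (true, b)) (by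
        intro u hu
        obtain ⟨b, hb, rfl⟩ := Finset.mem_image.1 hu
        rw [hq2]
        simpa using h4 b (by simpa using hb))
      refine ⟨r, Le.trans' _ _ _ hq1 hr1, Or.inl ⟨x, a, by simp [hr2, hq2], h2, fun b hb => ?_⟩⟩
      exact hr3 (Finset.mem_image.2 ⟨b, by simpa using hb, rfl⟩)
  · by_cases h : {b | (x, b) ∈ Wc (ℕ × ℕ) d}.Infinite
    · obtain ⟨k, hk⟩ := fresh p.N
      obtain ⟨b, hb, hkb⟩ := h.exists_gt k
      obtain ⟨q, h1, h2⟩ := addP p true b (hk _ _ hkb.le)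
      exact ⟨q, h1, fun _ => ⟨b, hb, by simp [h2]⟩⟩
    · exact ⟨p, ⟨le_rfl, le_rfl⟩, fun h' => absurd h' h⟩

theorem main :
    ∃ A B : Set ℕ,
      (∃ W : Set (ℕ × List ℕ),
        (∃ f : ℕ × List ℕ →. ℕ, Partrec f ∧ ∀ p : ℕ × List ℕ, (f p).Dom ↔ p ∈ W) ∧
        ∀ x : ℕ, x ∈ A ↔ ∃ l : List ℕ, (x, l) ∈ W ∧ ∀ y ∈ l, y ∈ B) ∧
      (∃ W : Set (ℕ × List ℕ),
        (∃ f : ℕ × List ℕ →. ℕ, Partrec f ∧ ∀ p : ℕ × List ℕ, (f p).Dom ↔ p ∈ W) ∧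
        ∀ x : ℕ, x ∈ B ↔ ∃ l : List ℕ, (x, l) ∈ W ∧ ∀ y ∈ l, y ∈ A) ∧
      (¬ ∃ f : ℕ →. ℕ, Partrec f ∧ ∀ n : ℕ, (f n).Dom ↔ n ∈ A) ∧
      (¬ ∃ f : ℕ →. ℕ, Partrec f ∧ ∀ n : ℕ, (f n).Dom ↔ n ∈ B) ∧
      ∀ C : Set ℕ,
        (∃ W : Set (ℕ × ℕ),
          (∃ f : ℕ × ℕ →. ℕ, Partrec f ∧ ∀ p : ℕ × ℕ, (f p).Dom ↔ p ∈ W) ∧
          ∀ x : ℕ, x ∈ C ↔ ∃ y ∈ A, (x, y) ∈ W) →
        (∃ W : Set (ℕ × ℕ),
          (∃ f : ℕ × ℕ →. ℕ, Partrec f ∧ ∀ p : ℕ × ℕ, (f p).Dom ↔ p ∈ W) ∧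
          ∀ x : ℕ, x ∈ C ↔ ∃ y ∈ B, (x, y) ∈ W) →
        ∃ f : ℕ →. ℕ, Partrec f ∧ ∀ n : ℕ, (f n).Dom ↔ n ∈ C := by
  obtain ⟨c, hc, hD⟩ := generic Le (fun p => ⟨le_rfl, le_rfl⟩) Le.trans'
    ⟨∅, ∅, by simp, by simp, by simp⟩ D dense
  let S : Bool → Set ℕ := fun s => {y | ∃ n, (s, y) ∈ (c n).P}
  have hneg : ∀ n s y, (s, y) ∈ (c n).N → y ∉ S s := by
    rintro n s y h ⟨m, hm⟩
    exact (c (max m n)).disj _ ((hc _ _ (le_max_left m n)).1 hm) ((hc _ _ (le_max_right m n)).2 h)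
  let W : Set (ℕ × List ℕ) := {p | ∃ k, p.2 = [2 * Nat.pair p.1 k, 2 * Nat.pair p.1 k + 1]}
  have hW : ∃ f : ℕ × List ℕ →. ℕ, Partrec f ∧ ∀ p : ℕ × List ℕ, (f p).Dom ↔ p ∈ W := by
    apply re_fun
    refine (CTools.re_of_exists (fun (p : ℕ × List ℕ) k =>
      p.2 == [2 * Nat.pair p.1 k, 2 * Nat.pair p.1 k + 1])
      (show Primrec _ by fun_prop).to_comp).of_eq fun p => by simp [W]
  have hen : ∀ s x, x ∈ S s ↔ ∃ l : List ℕ, (x, l) ∈ W ∧ ∀ y ∈ l, y ∈ S (!s) := by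
    intro s x
    constructor
    · intro hx
      obtain ⟨n, hn | ⟨_, k, h1, h2⟩⟩ := hD (.inl (s, x))
      · exact absurd hx (hneg n s x hn)
      · refine ⟨[2 * Nat.pair x k, 2 * Nat.pair x k + 1], ⟨k, rfl⟩, ?_⟩
        simp only [List.mem_cons, List.not_mem_nil, or_false]
        rintro y (rfl | rfl)
        · exact ⟨n, h1⟩
        · exact ⟨n, h2⟩
    · rintro ⟨l, ⟨k, hk⟩, hl⟩
      simp only at hk
      subst hk
      obtain ⟨m, hm⟩ := hl (2 * Nat.pair x k) (by simp)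
      obtain ⟨n, hn⟩ := hl (2 * Nat.pair x k + 1) (by simp)
      have e1 : sib (2 * Nat.pair x k) = 2 * Nat.pair x k + 1 := by
        unfold sib; split_ifs <;> omega
      have := (c (max m n)).clo _ _ ((hc _ _ (le_max_left m n)).1 hm)
        (e1 ▸ (hc _ _ (le_max_right m n)).1 hn)
      exact ⟨max m n, by simpa using this⟩
  have hnre : ∀ s, ¬ ∃ f : ℕ →. ℕ, Partrec f ∧ ∀ n : ℕ, (f n).Dom ↔ n ∈ S s := by
    intro s h
    obtain ⟨e, he⟩ := exists_Wc h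
    obtain ⟨n, a, ⟨h1, h2⟩ | ⟨h1, h2⟩⟩ := hD (.inr (.inl (s, e)))
    · exact h2 (he ▸ ⟨n, h1⟩)
    · exact hneg n s a h1 (he ▸ h2)
  refine ⟨S false, S true, ⟨W, hW, hen false⟩, ⟨W, hW, hen true⟩, hnre false, hnre true, ?_⟩
  rintro C ⟨W1, hW1, h1⟩ ⟨W2, hW2, h2⟩
  obtain ⟨c1, rfl⟩ := exists_Wc hW1
  obtain ⟨c2, rfl⟩ := exists_Wc hW2
  obtain ⟨n, ⟨x, a, ha, hxa, hb⟩ | hn⟩ := hD (.inr (.inr (.inl (c1, c2))))
  · obtain ⟨b, hb1, hb2⟩ := (h2 x).1 ((h1 x).2 ⟨a, ⟨n, ha⟩, hxa⟩)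
    exact absurd hb1 (hneg n true b (hb b hb2))
  have hC : ∀ x, x ∈ C ↔ ∃ a, (false, a) ∉ (c n).N ∧ (x, a) ∈ Wc (ℕ × ℕ) c1 := by
    intro x
    constructor
    · intro hx
      obtain ⟨a, ha, hxa⟩ := (h1 x).1 hx
      exact ⟨a, fun h => hneg n false a h ha, hxa⟩
    · rintro ⟨a, ha, hxa⟩
      rcases hn x a ha hxa with h | ⟨b, hb1, hb2⟩
      · obtain ⟨m, hm⟩ := hD (.inr (.inr (.inr (c2, x))))
        obtain ⟨b, hb1, hb2⟩ := hm h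
        exact (h2 x).2 ⟨b, ⟨m, hb2⟩, hb1⟩
      · exact (h2 x).2 ⟨b, ⟨n, hb2⟩, hb1⟩
  obtain ⟨f, hf, hf'⟩ := hW1
  obtain ⟨R, hR1, -, hR3⟩ := CTools.re_stage hf.dom_re
  apply re_fun
  obtain ⟨l, hl⟩ : ∃ l : List (Bool × ℕ), ∀ u, u ∈ l ↔ u ∈ (c n).N := ⟨(c n).N.toList, by simp⟩
  refine (CTools.re_of_exists (fun (x : ℕ) k =>
    !(l.any fun u => u == (false, k.unpair.1)) && R k.unpair.2 (x, k.unpair.1))
    (PR.and' (by fun_prop) (hR1.comp (g := fun q : ℕ × ℕ => (q.2.unpair.2, (q.1, q.2.unpair.1)))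
      (by fun_prop))).to_comp).of_eq fun x => ?_
  rw [hC]
  simp only [Bool.and_eq_true, Bool.not_eq_eq_eq_not, Bool.not_true, List.any_eq_false,
    beq_iff_eq, ← hf', hR3, ← hl]
  constructor
  · rintro ⟨k, h3, h4⟩
    exact ⟨_, fun h => h3 _ h rfl, _, h4⟩
  · rintro ⟨a, h3, s, h4⟩
    exact ⟨Nat.pair a s, by rintro u hu rfl; simp [h3] at hu, by simpa using h4⟩

end Pool.Agent.H23.SPair
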