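import Mathlib
import Pool.Agent.H23.PR
import Pool.Agent.H23.CTools
import Pool.Agent.H23.SPair

set_option autoImplicit false

namespace Pool.Agent.H23.NonCot

open Nat.Partrec (Code)
open SPair (generic re_fun Wc exists_Wc)

/-- A computable family of rules defines an effective `Π⁰₂` class. -/
theorem pi2 {ι : Type} [Denumerable ι] (ok : ι → Bool) (hyp : ι → List ℕ) (okc : ι → Bool)
    (con : ι → ℕ → List ℕ) (h1 : Primrec ok) (h2 : Primrec hyp) (h3 : Primrec okc)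
    (h4 : Primrec fun p : ι × ℕ => con p.1 p.2) :
    ∃ U V : ℕ × List ℕ → Prop, REPred U ∧ REPred V ∧ ∀ X : Set ℕ,
      (∀ i : ℕ, (∃ l : List ℕ, U (i, l) ∧ ∀ k ∈ l, k ∈ X) →
          ∃ l : List ℕ, V (i, l) ∧ ∀ k ∈ l, k ∈ X) ↔
      ∀ j, ok j = true → (∀ k ∈ hyp j, k ∈ X) → okc j = true ∧ ∃ m, ∀ k ∈ con j m, k ∈ X := by
  refine ⟨fun p => ∃ _s : ℕ, (ok (Denumerable.ofNat ι p.1) && (hyp (Denumerable.ofNat ι p.1) == p.2)) = true,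
    fun p => ∃ s : ℕ, (okc (Denumerable.ofNat ι p.1) && (con (Denumerable.ofNat ι p.1) s == p.2)) = true,
    CTools.re_of_exists _ (show Primrec _ by fun_prop).to_comp,
    CTools.re_of_exists _ (show Primrec _ from ?_).to_comp, fun X => ⟨fun h j hj hX => ?_, ?_⟩⟩
  · have : Primrec fun q : (ℕ × List ℕ) × ℕ => con (Denumerable.ofNat ι q.1.1) q.2 :=
      h4.comp (show Primrec fun q : (ℕ × List ℕ) × ℕ => (Denumerable.ofNat ι q.1.1, q.2) by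
        fun_prop)
    fun_prop
  · obtain ⟨l, ⟨s, hs⟩, hl⟩ := h (Encodable.encode j) ⟨hyp j, ⟨0, by simp [hj]⟩, hX⟩
    simp only [Denumerable.ofNat_encode, Bool.and_eq_true, beq_iff_eq] at hs
    exact ⟨hs.1, s, hs.2 ▸ hl⟩
  · rintro h i ⟨l, ⟨_, hs⟩, hl⟩
    simp only [Bool.and_eq_true, beq_iff_eq] at hs
    obtain ⟨h5, m, hm⟩ := h _ hs.1 (hs.2 ▸ hl)
    exact ⟨_, ⟨m, by simp [h5]⟩, hm⟩

def par (t : ℕ) : ℕ := (t - 1).unpair.2
def lab (t : ℕ) : List ℕ := Denumerable.ofNat (List ℕ) (t - 1).unpair.1.unpair.1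
def wt (y s n : ℕ) : ℕ := 2 * Nat.pair y (Nat.pair s n) + 1

theorem wt_inj {y s n y' s' n' : ℕ} (h : wt y s n = wt y' s' n') : y = y' ∧ s = s' ∧ n = n' := by
  unfold wt at h
  have : Nat.pair y (Nat.pair s n) = Nat.pair y' (Nat.pair s' n') := by omega
  simpa [Nat.pair_eq_pair] using this

theorem wt_ne (y s n t : ℕ) : wt y s n ≠ 2 * t := by unfold wt; omega

theorem le_wt (y s n : ℕ) : n ≤ wt y s n := by
  have := Nat.right_le_pair y (Nat.pair s n)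
  have := Nat.right_le_pair s n
  unfold wt; omega

theorem par_iter (n t : ℕ) : par^[n] t ≤ t - n := by
  induction n with
  | zero => simp
  | succ n ih =>
    rw [Function.iterate_succ_apply']
    have := Nat.unpair_right_le (par^[n] t - 1)
    unfold par at *
    omega

structure Good (X : Set ℕ) : Prop where
  h1 : ∀ t, 2 * t ∈ X → 2 * par t ∈ X ∧ ∀ y ∈ lab t, y ∈ X
  h2 : ∀ y s n, wt y s n ∈ X → y < 2 * s ∧ y ∈ X ∧ 2 * s ∈ X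
  h3 : ∀ y s n n', wt y s n ∈ X → wt y s n' ∈ X → n = n'
  h4 : ∀ y s n t, wt y s n ∈ X → 2 * t ∈ X → par^[n] t = s → y ∈ lab t

structure Sol (X : Set ℕ) : Prop where
  good : Good X
  root : 0 ∈ X
  kid : ∀ s, 2 * s ∈ X → ∃ a, 2 * (Nat.pair a s + 1) ∈ X
  wit : ∀ y s, y < 2 * s → y ∈ X → 2 * s ∈ X → ∃ n, wt y s n ∈ X

theorem anti {X Y : Set ℕ} (hX : Sol X) (hY : Sol Y) (h : X ⊆ Y) : X = Y := by
  refine Set.Subset.antisymm h fun y hy => ?_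
  have h1 : ∀ k, ∃ s, k ≤ s ∧ 2 * s ∈ X := by
    intro k
    induction k with
    | zero => exact ⟨0, le_rfl, hX.root⟩
    | succ k ih =>
      obtain ⟨s, h1, h2⟩ := ih
      obtain ⟨a, ha⟩ := hX.kid s h2
      exact ⟨_, by have := Nat.right_le_pair a s; omega, ha⟩
  obtain ⟨s, hs1, hs2⟩ := h1 (y + 1)
  obtain ⟨n, hn⟩ := hY.wit y s (by omega) hy (h hs2)
  have h2 : ∀ k, ∃ t, 2 * t ∈ X ∧ par^[k] t = s := by
    intro k
    induction k with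
    | zero => exact ⟨s, hs2, rfl⟩
    | succ k ih =>
      obtain ⟨t, h1, h2⟩ := ih
      obtain ⟨a, ha⟩ := hX.kid t h1
      exact ⟨_, ha, by rw [Function.iterate_succ_apply]; simpa [par] using h2⟩
  obtain ⟨t, ht1, ht2⟩ := h2 n
  exact (hX.good.h1 t ht1).2 y (hY.good.h4 y s n t hn (h ht1) ht2)

theorem sol_pi2 : ∃ U V : ℕ × List ℕ → Prop, REPred U ∧ REPred V ∧ ∀ X : Set ℕ,
      (∀ i : ℕ, (∃ l : List ℕ, U (i, l) ∧ ∀ k ∈ l, k ∈ X) →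
          ∃ l : List ℕ, V (i, l) ∧ ∀ k ∈ l, k ∈ X) ↔ Sol X := by
  obtain ⟨U, V, hU, hV, h⟩ := pi2 (ι := ℕ × ℕ × ℕ × ℕ × ℕ)
    (fun j => bif j.1 == 3 then Nat.blt j.2.1 (2 * j.2.2.1) else
      bif j.1 == 6 then par^[j.2.2.2.1] j.2.2.2.2 == j.2.2.1 else Nat.ble j.1 5)
    (fun j => bif j.1 == 0 then [] else bif j.1 == 1 then [2 * j.2.1] else
      bif j.1 == 2 then [2 * j.2.1] else bif j.1 == 3 then [j.2.1, 2 * j.2.2.1] else
      bif j.1 == 4 then [wt j.2.1 j.2.2.1 j.2.2.2.1] else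
      bif j.1 == 5 then [wt j.2.1 j.2.2.1 j.2.2.2.1, wt j.2.1 j.2.2.1 j.2.2.2.2] else
        [wt j.2.1 j.2.2.1 j.2.2.2.1, 2 * j.2.2.2.2])
    (fun j => bif j.1 == 4 then Nat.blt j.2.1 (2 * j.2.2.1) else
      bif j.1 == 5 then j.2.2.2.1 == j.2.2.2.2 else
      bif j.1 == 6 then (lab j.2.2.2.2).any (fun z => z == j.2.1) else true)
    (fun j m => bif j.1 == 0 then [0] else bif j.1 == 1 then 2 * par j.2.1 :: lab j.2.1 else
      bif j.1 == 2 then [2 * (Nat.pair m j.2.1 + 1)] else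
      bif j.1 == 3 then [wt j.2.1 j.2.2.1 m] else
      bif j.1 == 4 then [j.2.1, 2 * j.2.2.1] else [])
    (by unfold par; fun_prop) (by unfold wt; fun_prop) (by unfold lab; fun_prop)
    (by unfold par lab wt; fun_prop)
  refine ⟨U, V, hU, hV, fun X => (h X).trans ⟨fun H => ⟨⟨?_, ?_, ?_, ?_⟩, ?_, ?_, ?_⟩, ?_⟩⟩
  · intro t ht
    simpa using H (1, t, 0, 0, 0) (by simp) (by simpa using ht)
  · intro y s n hw
    simpa [Nat.blt_eq] using H (4, y, s, n, 0) (by simp) (by simpa using hw)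
  · intro y s n n' h1 h2
    simpa using H (5, y, s, n, n') (by simp) (by simp [h1, h2])
  · intro y s n t h1 h2 h3
    simpa using H (6, y, s, n, t) (by simp [h3]) (by simp [h1, h2])
  · simpa using H (0, 0, 0, 0, 0) (by simp) (by simp)
  · intro s hs
    simpa using H (2, s, 0, 0, 0) (by simp) (by simpa using hs)
  · intro y s h1 h2 h3
    simpa using H (3, y, s, 0, 0) (by simp [Nat.blt_eq, h1]) (by simp [h2, h3])
  · rintro H ⟨i, y, s, n, t⟩ h1 h2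
    obtain rfl | rfl | rfl | rfl | rfl | rfl | rfl | hi :
      i = 0 ∨ i = 1 ∨ i = 2 ∨ i = 3 ∨ i = 4 ∨ i = 5 ∨ i = 6 ∨ 6 < i := by omega
    · simpa using H.root
    · simpa using H.good.h1 y (by simpa using h2)
    · simpa using H.kid y (by simpa using h2)
    · simp [Nat.blt_eq] at h1 h2
      simpa using H.wit y s h1 h2.1 h2.2
    · simpa [Nat.blt_eq] using H.good.h2 y s n (by simpa using h2)
    · simp at h2
      simpa using H.good.h3 y s n t h2.1 h2.2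
    · simp at h1 h2
      simpa using H.good.h4 y s n t h2.1 h2.2 h1
    · have e3 : (i == 3) = false := by simp; omega
      have e6 : (i == 6) = false := by simp; omega
      simp [e3, e6] at h1
      omega

structure Cond where
  P : Finset ℕ
  N : Finset ℕ
  disj : ∀ u ∈ P, u ∉ N
  good : Good (P : Set ℕ)
  root : 0 ∈ P

def Le (p q : Cond) : Prop := p.P ⊆ q.P ∧ p.N ⊆ q.N

theorem Le.rfl' (p : Cond) : Le p p := ⟨le_rfl, le_rfl⟩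
theorem Le.trans' (p q r : Cond) (h1 : Le p q) (h2 : Le q r) : Le p r :=
  ⟨h1.1.trans h2.1, h1.2.trans h2.2⟩

theorem addN (p : Cond) (y : ℕ) (h : y ∉ p.P) : ∃ q, Le p q ∧ q.P = p.P ∧ y ∈ q.N :=
  ⟨⟨p.P, insert y p.N, fun u hu h' => by
      rcases Finset.mem_insert.1 h' with rfl | h'
      · exact h hu
      · exact p.disj u hu h', p.good, p.root⟩,
    ⟨le_rfl, Finset.subset_insert _ _⟩, rfl, Finset.mem_insert_self _ _⟩

theorem fresh (p : Cond) : ∃ b, ∀ y, b ≤ y → y ∉ p.P ∧ y ∉ p.N := by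
  refine ⟨(p.P ∪ p.N).sup id + 1, fun y hy => ⟨fun h => ?_, fun h => ?_⟩⟩
  · have := Finset.le_sup (f := id) (Finset.mem_union_left p.N h)
    simp only [id] at this hy; omega
  · have := Finset.le_sup (f := id) (Finset.mem_union_right p.P h)
    simp only [id] at this hy; omega

theorem addKid (p : Cond) (s : ℕ) (h : 2 * s ∈ p.P) :
    ∃ q a, Le p q ∧ q.N = p.N ∧ 2 * (Nat.pair a s + 1) ∈ q.P ∧ 2 * (Nat.pair a s + 1) ∉ p.P := by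
  obtain ⟨b, hb⟩ := fresh p
  obtain ⟨a, ha⟩ : ∃ a, a = Nat.pair (Encodable.encode p.P.toList) b := ⟨_, rfl⟩
  obtain ⟨t, ht⟩ : ∃ t, t = Nat.pair a s + 1 := ⟨_, rfl⟩
  have e1 : par t = s := by simp [par, ht]
  have e2 : lab t = p.P.toList := by simp [lab, ht, ha]
  have e3 : b ≤ 2 * t := by
    have := Nat.left_le_pair a s
    have := Nat.right_le_pair (Encodable.encode p.P.toList) b
    omega
  have g := p.good
  refine ⟨⟨insert (2 * t) p.P, p.N, ?_, ⟨?_, ?_, ?_, ?_⟩, Finset.mem_insert_of_mem p.root⟩, a,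
    ⟨Finset.subset_insert _ _, le_rfl⟩, rfl, by simp [ht], ht ▸ (hb _ e3).1⟩
  · intro u hu
    rcases Finset.mem_insert.1 hu with rfl | hu
    · exact (hb _ e3).2
    · exact p.disj u hu
  all_goals simp only [Finset.coe_insert, Set.mem_insert_iff, Finset.mem_coe, wt_ne, false_or]
  · rintro u (hu | hu)
    · obtain rfl : u = t := by omega
      rw [e1, e2]
      exact ⟨Or.inr h, fun y hy => Or.inr (Finset.mem_toList.1 hy)⟩
    · exact ⟨Or.inr (g.h1 u hu).1, fun y hy => Or.inr ((g.h1 u hu).2 y hy)⟩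
  · intro y s n hw
    exact ⟨(g.h2 y s n hw).1, Or.inr (g.h2 y s n hw).2.1, Or.inr (g.h2 y s n hw).2.2⟩
  · exact g.h3
  · rintro y s n u hw (hu | hu) h3
    · obtain rfl : u = t := by omega
      rw [e2]
      exact Finset.mem_toList.2 (g.h2 y s n hw).2.1
    · exact g.h4 y s n u hw hu h3

theorem addW (p : Cond) (y s : ℕ) : ∃ q, Le p q ∧ (∀ t, 2 * t ∈ q.P → 2 * t ∈ p.P) ∧
    (y < 2 * s → 2 * s ∈ p.P → y ∈ q.N ∨ ∃ n, wt y s n ∈ q.P) := by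
  by_cases h0 : y < 2 * s ∧ 2 * s ∈ p.P
  swap
  · exact ⟨p, Le.rfl' p, fun _ h => h, fun h1 h2 => absurd ⟨h1, h2⟩ h0⟩
  by_cases h1 : y ∈ p.P
  swap
  · obtain ⟨q, h2, h3, h4⟩ := addN p y h1
    exact ⟨q, h2, fun t ht => h3 ▸ ht, fun _ _ => Or.inl h4⟩
  by_cases h2 : ∃ n, wt y s n ∈ p.P
  · exact ⟨p, Le.rfl' p, fun _ h => h, fun _ _ => Or.inr h2⟩
  obtain ⟨b, hb⟩ := fresh p
  have g := p.good
  refine ⟨⟨insert (wt y s b) p.P, p.N, ?_, ⟨?_, ?_, ?_, ?_⟩, Finset.mem_insert_of_mem p.root⟩,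
    ⟨Finset.subset_insert _ _, le_rfl⟩, ?_, fun _ _ => Or.inr ⟨b, by simp⟩⟩
  · intro u hu
    rcases Finset.mem_insert.1 hu with rfl | hu
    · exact (hb _ (le_wt _ _ _)).2
    · exact p.disj u hu
  all_goals simp only [Finset.coe_insert, Set.mem_insert_iff, Finset.mem_coe, (wt_ne _ _ _ _).symm,
    false_or, Finset.mem_insert]
  · intro u hu
    exact ⟨(g.h1 u hu).1, fun y hy => Or.inr ((g.h1 u hu).2 y hy)⟩
  · rintro y' s' n (hw | hw)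
    · obtain ⟨rfl, rfl, rfl⟩ := wt_inj hw
      exact ⟨h0.1, Or.inr h1, h0.2⟩
    · exact ⟨(g.h2 _ _ n hw).1, Or.inr (g.h2 _ _ n hw).2.1, (g.h2 _ _ n hw).2.2⟩
  · rintro y' s' n n' (hw | hw) (hw' | hw')
    · exact (wt_inj hw).2.2.trans (wt_inj hw').2.2.symm
    · obtain ⟨rfl, rfl, rfl⟩ := wt_inj hw
      exact absurd ⟨_, hw'⟩ h2
    · obtain ⟨rfl, rfl, rfl⟩ := wt_inj hw'
      exact absurd ⟨_, hw⟩ h2
    · exact g.h3 _ _ _ _ hw hw'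
  · rintro y' s' n t (hw | hw) ht h3
    · obtain ⟨rfl, rfl, rfl⟩ := wt_inj hw
      have := par_iter n t
      have h5 : ¬ n ≤ 2 * t := fun h => (hb _ h).1 ht
      omega
    · exact g.h4 _ _ _ _ hw ht h3
  · exact fun t h => h

theorem addWs (p : Cond) (L : List (ℕ × ℕ)) : ∃ q, Le p q ∧ (∀ t, 2 * t ∈ q.P → 2 * t ∈ p.P) ∧
    ∀ u ∈ L, u.1 < 2 * u.2 → 2 * u.2 ∈ p.P → u.1 ∈ q.N ∨ ∃ n, wt u.1 u.2 n ∈ q.P := by
  induction L with
  | nil => exact ⟨p, Le.rfl' p, fun _ h => h, by simp⟩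
  | cons u L ih =>
    obtain ⟨q, h1, h2, h3⟩ := ih
    obtain ⟨r, h4, h5, h6⟩ := addW q u.1 u.2
    refine ⟨r, Le.trans' _ _ _ h1 h4, fun t ht => h2 t (h5 t ht), fun v hv hv1 hv2 => ?_⟩
    rcases List.mem_cons.1 hv with rfl | hv
    · exact h6 hv1 (h1.1 hv2)
    · exact (h3 v hv hv1 hv2).imp (fun h => h4.2 h) fun ⟨n, h⟩ => ⟨n, h4.1 h⟩

theorem complete (p : Cond) : ∃ q, Le p q ∧
    ∀ y s, y < 2 * s → 2 * s ∈ q.P → y ∈ q.N ∨ ∃ n, wt y s n ∈ q.P := by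
  obtain ⟨b, hb⟩ := fresh p
  obtain ⟨q, h1, h2, h3⟩ := addWs p ((List.range b).product (List.range b))
  refine ⟨q, h1, fun y s hy hs => h3 (y, s) ?_ hy (h2 s hs)⟩
  have : ¬ b ≤ 2 * s := fun h => (hb _ h).1 (h2 s hs)
  exact List.pair_mem_product.2 ⟨List.mem_range.2 (by omega), List.mem_range.2 (by omega)⟩

theorem Good.anc {X : Set ℕ} (g : Good X) (n t : ℕ) (h : 2 * t ∈ X) : 2 * par^[n] t ∈ X := by
  induction n with
  | zero => exact h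
  | succ n ih => rw [Function.iterate_succ_apply']; exact (g.h1 _ ih).1

theorem good_union {X Y : Set ℕ} (gX : Good X) (gY : Good Y)
    (h : ∀ y s, y < 2 * s → 2 * s ∈ X → 2 * s ∈ Y → y ∈ X ∨ y ∈ Y →
      ∃ n, wt y s n ∈ X ∧ wt y s n ∈ Y) : Good (X ∪ Y) := by
  have k1 : ∀ y s n, wt y s n ∈ X → 2 * s ∈ Y → wt y s n ∈ Y := by
    intro y s n hw hs
    obtain ⟨a, b, c⟩ := gX.h2 y s n hw
    obtain ⟨m, h1, h2⟩ := h y s a c hs (Or.inl b)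
    rwa [gX.h3 y s n m hw h1]
  have k2 : ∀ y s n, wt y s n ∈ Y → 2 * s ∈ X → wt y s n ∈ X := by
    intro y s n hw hs
    obtain ⟨a, b, c⟩ := gY.h2 y s n hw
    obtain ⟨m, h1, h2⟩ := h y s a hs c (Or.inr b)
    rwa [gY.h3 y s n m hw h2]
  refine ⟨?_, ?_, ?_, ?_⟩
  · rintro t (ht | ht)
    · exact ⟨Or.inl (gX.h1 t ht).1, fun y hy => Or.inl ((gX.h1 t ht).2 y hy)⟩
    · exact ⟨Or.inr (gY.h1 t ht).1, fun y hy => Or.inr ((gY.h1 t ht).2 y hy)⟩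
  · rintro y s n (hw | hw)
    · exact ⟨(gX.h2 y s n hw).1, Or.inl (gX.h2 y s n hw).2.1, Or.inl (gX.h2 y s n hw).2.2⟩
    · exact ⟨(gY.h2 y s n hw).1, Or.inr (gY.h2 y s n hw).2.1, Or.inr (gY.h2 y s n hw).2.2⟩
  · rintro y s n n' (hw | hw) (hw' | hw')
    · exact gX.h3 _ _ _ _ hw hw'
    · exact gX.h3 _ _ _ _ hw (k2 _ _ _ hw' (gX.h2 _ _ _ hw).2.2)
    · exact gY.h3 _ _ _ _ hw (k1 _ _ _ hw' (gY.h2 _ _ _ hw).2.2)
    · exact gY.h3 _ _ _ _ hw hw'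
  · rintro y s n t (hw | hw) (ht | ht) h3
    · exact gX.h4 _ _ _ _ hw ht h3
    · exact gY.h4 _ _ _ _ (k1 _ _ _ hw (h3 ▸ gY.anc n t ht)) ht h3
    · exact gX.h4 _ _ _ _ (k2 _ _ _ hw (h3 ▸ gX.anc n t ht)) ht h3
    · exact gY.h4 _ _ _ _ hw ht h3

def En (c : Code) (p : Cond) (j : ℕ) : Prop :=
  ∃ l, (j, l) ∈ Wc (ℕ × List ℕ) c ∧ ∀ k ∈ l, k ∈ p.P

def Th (g s : Code) (x : ℕ) (E : List ℕ) : Prop :=
  ∃ l, (x, l) ∈ Wc (ℕ × List ℕ) s ∧ ∀ k ∈ l, ∃ m, (k, m) ∈ Wc (ℕ × List ℕ) g ∧ ∀ j ∈ m, j ∈ E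

def Fo (c : Code) (E : List ℕ) (q : Cond) : Prop := ∀ r, Le q r → ∀ j ∈ E, ¬ En c r j

def D : ℕ ⊕ (ℕ × ℕ) ⊕ (Code × List ℕ) ⊕ (Code × Code × Code) → Cond → Prop
  | .inl s, q => (s ∈ q.P ∨ s ∈ q.N) ∧ (2 * s ∈ q.N ∨ ∃ a, 2 * (Nat.pair a s + 1) ∈ q.P)
  | .inr (.inl (y, s)), q => y < 2 * s → 2 * s ∈ q.N ∨ y ∈ q.N ∨ ∃ n, wt y s n ∈ q.P
  | .inr (.inr (.inl (c, E))), q => (∃ j ∈ E, En c q j) ∨ Fo c E q
  | .inr (.inr (.inr (c, g, s))), q => (∃ x ∈ q.N, ∃ E, Th g s x E ∧ Fo c E q) ∨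
      ∃ x ∈ q.P, ∀ r, Le q r → ∀ E, Th g s x E → ¬ Fo c E r

theorem decide' (p : Cond) (y : ℕ) : ∃ q, Le p q ∧ (y ∈ q.P ∨ y ∈ q.N) := by
  by_cases h : y ∈ p.P
  · exact ⟨p, Le.rfl' p, Or.inl h⟩
  · obtain ⟨q, h1, _, h2⟩ := addN p y h
    exact ⟨q, h1, Or.inr h2⟩

theorem dense (i : ℕ ⊕ (ℕ × ℕ) ⊕ (Code × List ℕ) ⊕ (Code × Code × Code)) (p : Cond) :
    ∃ q, Le p q ∧ D i q := by
  rcases i with s | ⟨y, s⟩ | ⟨c, E⟩ | ⟨c, g, s⟩
  · obtain ⟨q, h1, h2⟩ := decide' p s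
    obtain ⟨r, h3, h4 | h4⟩ := decide' q (2 * s)
    · obtain ⟨t, a, h5, _, h6, _⟩ := addKid r s h4
      have := Le.trans' _ _ _ h3 h5
      exact ⟨t, Le.trans' _ _ _ h1 this, h2.imp (fun h => this.1 h) (fun h => this.2 h),
        Or.inr ⟨a, h6⟩⟩
    · exact ⟨r, Le.trans' _ _ _ h1 h3, h2.imp (fun h => h3.1 h) (fun h => h3.2 h), Or.inl h4⟩
  · obtain ⟨q, h1, h2 | h2⟩ := decide' p (2 * s)
    · obtain ⟨r, h3, _, h4⟩ := addW q y s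
      exact ⟨r, Le.trans' _ _ _ h1 h3, fun h => Or.inr (h4 h h2)⟩
    · exact ⟨q, h1, fun _ => Or.inl h2⟩
  · by_cases h : Fo c E p
    · exact ⟨p, Le.rfl' p, Or.inr h⟩
    · simp only [Fo, not_forall, not_not] at h
      obtain ⟨r, h1, j, h2, h3⟩ := h
      exact ⟨r, h1, Or.inl ⟨j, h2, h3⟩⟩
  · obtain ⟨r, h1, hr⟩ := complete p
    obtain ⟨r', a, h2, h3, h4, h5⟩ := addKid r 0 r.root
    obtain ⟨x, hx⟩ : ∃ x, x = 2 * (Nat.pair a 0 + 1) := ⟨_, rfl⟩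
    rw [← hx] at h4 h5
    by_cases h : ∀ q, Le r' q → ∀ E, Th g s x E → ¬ Fo c E q
    · exact ⟨r', Le.trans' _ _ _ h1 h2, Or.inr ⟨x, h4, h⟩⟩
    simp only [not_forall, not_not] at h
    obtain ⟨q, h6, E, h7, h8⟩ := h
    have h9 := Le.trans' _ _ _ h2 h6
    let q' : Cond := ⟨r.P, q.N ∪ (q.P \ r.P), fun u hu h => by
      rcases Finset.mem_union.1 h with h | h
      · exact q.disj u (h9.1 hu) h
      · exact (Finset.mem_sdiff.1 h).2 hu, r.good, r.root⟩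
    have h10 : Le r q' := ⟨le_rfl, h9.2.trans Finset.subset_union_left⟩
    refine ⟨q', Le.trans' _ _ _ h1 h10, Or.inl ⟨x, Finset.mem_union_right _
      (Finset.mem_sdiff.2 ⟨h6.1 h4, h5⟩), E, h7, ?_⟩⟩
    rintro t ht j hj ⟨l, hl1, hl2⟩
    have hN : ∀ u ∈ t.P, u ∉ q.N := fun u hu h => t.disj u hu (ht.2 (Finset.mem_union_left _ h))
    refine h8 ⟨t.P ∪ q.P, q.N, fun u hu => ?_, ?_, Finset.mem_union_left _ t.root⟩
      ⟨Finset.subset_union_right, le_rfl⟩ j hj ⟨l, hl1, fun k hk => Finset.mem_union_left _ (hl2 k hk)⟩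
    · rcases Finset.mem_union.1 hu with hu | hu
      · exact hN u hu
      · exact q.disj u hu
    · rw [Finset.coe_union]
      refine good_union t.good q.good fun y s hy h1 h2 h3 => ?_
      have h4 : 2 * s ∈ r.P := by
        by_contra h
        exact t.disj _ h1 (ht.2 (Finset.mem_union_right _ (Finset.mem_sdiff.2 ⟨h2, h⟩)))
      rcases hr y s hy h4 with h | ⟨n, h⟩
      · rcases h3 with h3 | h3
        · exact absurd (h9.2 h) (hN y h3)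
        · exact absurd (h9.2 h) (q.disj y h3)
      · exact ⟨n, ht.1 h, h9.1 h⟩

theorem p0good : Good (({0} : Finset ℕ) : Set ℕ) := by
  have hw : ∀ y s n, wt y s n ∉ (({0} : Finset ℕ) : Set ℕ) := by simp [wt]
  refine ⟨fun t ht => ?_, fun y s n h => absurd h (hw _ _ _), fun y s n _ h => absurd h (hw _ _ _),
    fun y s n _ h => absurd h (hw _ _ _)⟩
  obtain rfl : t = 0 := by simpa using ht
  simp [par, lab]

theorem main :
    ∃ (U V : ℕ × List ℕ → Prop), REPred U ∧ REPred V ∧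
      (∀ X Y : Set ℕ,
        (∀ i : ℕ, (∃ l : List ℕ, U (i, l) ∧ ∀ k ∈ l, k ∈ X) →
          ∃ l : List ℕ, V (i, l) ∧ ∀ k ∈ l, k ∈ X) →
        (∀ i : ℕ, (∃ l : List ℕ, U (i, l) ∧ ∀ k ∈ l, k ∈ Y) →
          ∃ l : List ℕ, V (i, l) ∧ ∀ k ∈ l, k ∈ Y) →
        X ⊆ Y → X = Y) ∧
      ∃ A : Set ℕ,
        (∀ i : ℕ, (∃ l : List ℕ, U (i, l) ∧ ∀ k ∈ l, k ∈ A) →
          ∃ l : List ℕ, V (i, l) ∧ ∀ k ∈ l, k ∈ A) ∧
        ∀ C : Set ℕ,
          (∃ W : ℕ × List ℕ → Prop, REPred W ∧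
            ∀ n : ℕ, n ∈ C ↔ ∃ l : List ℕ, W (n, l) ∧ ∀ k ∈ l, k ∉ C) →
          ¬ ((∃ W : ℕ × List ℕ → Prop, REPred W ∧
                ∀ n : ℕ, n ∈ A ↔ ∃ l : List ℕ, W (n, l) ∧ ∀ k ∈ l, k ∈ C) ∧
             (∃ W : ℕ × List ℕ → Prop, REPred W ∧
                ∀ n : ℕ, n ∈ C ↔ ∃ l : List ℕ, W (n, l) ∧ ∀ k ∈ l, k ∈ A)) := by
  obtain ⟨U, V, hU, hV, hS⟩ := sol_pi2
  refine ⟨U, V, hU, hV, fun X Y hX hY => anti ((hS X).1 hX) ((hS Y).1 hY), ?_⟩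
  obtain ⟨c, hc, hD⟩ := generic Le Le.rfl' Le.trans' ⟨{0}, ∅, by simp, p0good, by simp⟩ D dense
  let A : Set ℕ := {y | ∃ n, y ∈ (c n).P}
  have hneg : ∀ n y, y ∈ (c n).N → y ∉ A := by
    rintro n y h ⟨m, hm⟩
    exact (c (max m n)).disj _ ((hc _ _ (le_max_left m n)).1 hm) ((hc _ _ (le_max_right m n)).2 h)
  have hfin : ∀ (l : List ℕ) n, (∀ k ∈ l, k ∈ A) → ∃ m, n ≤ m ∧ ∀ k ∈ l, k ∈ (c m).P := by
    intro l n
    induction l with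
    | nil => exact fun _ => ⟨n, le_rfl, by simp⟩
    | cons a l ih =>
      intro h
      obtain ⟨m, h1, h2⟩ := ih fun k hk => h k (List.mem_cons_of_mem _ hk)
      obtain ⟨m', h3⟩ := h a List.mem_cons_self
      refine ⟨max m m', h1.trans (le_max_left _ _), fun k hk => ?_⟩
      rcases List.mem_cons.1 hk with rfl | hk
      · exact (hc _ _ (le_max_right _ _)).1 h3
      · exact (hc _ _ (le_max_left _ _)).1 (h2 k hk)
  refine ⟨A, (hS A).2 ⟨⟨?_, ?_, ?_, ?_⟩, ⟨0, (c 0).root⟩, ?_, ?_⟩, ?_⟩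
  · rintro t ⟨n, hn⟩
    exact ⟨⟨n, ((c n).good.h1 t hn).1⟩, fun y hy => ⟨n, ((c n).good.h1 t hn).2 y hy⟩⟩
  · rintro y s k ⟨n, hn⟩
    obtain ⟨h1, h2, h3⟩ := (c n).good.h2 y s k hn
    exact ⟨h1, ⟨n, h2⟩, ⟨n, h3⟩⟩
  · intro y s k k' h1 h2
    obtain ⟨m, _, h⟩ := hfin [wt y s k, wt y s k'] 0 (by simp [h1, h2])
    exact (c m).good.h3 y s k k' (h _ (by simp)) (h _ (by simp))
  · intro y s k t h1 h2
    obtain ⟨m, _, h⟩ := hfin [wt y s k, 2 * t] 0 (by simp [h1, h2])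
    exact (c m).good.h4 y s k t (h _ (by simp)) (h _ (by simp))
  · intro s hs
    obtain ⟨n, _, h | ⟨a, h⟩⟩ := hD (.inl s)
    · exact absurd hs (hneg _ _ h)
    · exact ⟨a, n, h⟩
  · intro y s h1 h2 h3
    obtain ⟨n, hn⟩ := hD (.inr (.inl (y, s)))
    rcases hn h1 with h | h | ⟨k, h⟩
    · exact absurd h3 (hneg _ _ h)
    · exact absurd h2 (hneg _ _ h)
    · exact ⟨k, n, h⟩
  rintro C ⟨G, hG, h1⟩ ⟨⟨S, hS, h2⟩, F, hF, h3⟩
  obtain ⟨g, hg⟩ := exists_Wc (W := {p | G p}) (re_fun hG)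
  obtain ⟨s, hs⟩ := exists_Wc (W := {p | S p}) (re_fun hS)
  obtain ⟨f, hf⟩ := exists_Wc (W := {p | F p}) (re_fun hF)
  obtain ⟨n, ⟨x, hx, E, ⟨l, hl1, hl2⟩, hE⟩ | ⟨x, hx, hn⟩⟩ := hD (.inr (.inr (.inr (f, g, s))))
  · rw [hs] at hl1
    refine hneg n x hx ((h2 x).2 ⟨l, hl1, fun k hk => ?_⟩)
    obtain ⟨m, hm1, hm2⟩ := hl2 k hk
    rw [hg] at hm1
    refine (h1 k).2 ⟨m, hm1, fun j hj hC => ?_⟩
    obtain ⟨l', h4, h5⟩ := (h3 j).1 hC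
    obtain ⟨n', h6, h7⟩ := hfin l' n h5
    exact hE (c n') (hc _ _ h6) j (hm2 j hj) ⟨l', by rw [hf]; exact h4, h7⟩
  · obtain ⟨l, h4, h5⟩ := (h2 x).1 ⟨n, hx⟩
    choose! M hM1 hM2 using fun k (hk : k ∈ C) => (h1 k).1 hk
    obtain ⟨n', ⟨j, hj, l', h6, h7⟩ | h6⟩ := hD (.inr (.inr (.inl (f, l.flatMap M))))
    · obtain ⟨k, hk, hj⟩ := List.mem_flatMap.1 hj
      rw [hf] at h6
      exact hM2 k (h5 k hk) j hj ((h3 j).2 ⟨l', h6, fun k hk => ⟨n', h7 k hk⟩⟩)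
    · refine hn (c (max n n')) (hc _ _ (le_max_left _ _)) (l.flatMap M)
        ⟨l, by rw [hs]; exact h4, fun k hk => ⟨M k, by rw [hg]; exact hM1 k (h5 k hk),
          fun j hj => List.mem_flatMap.2 ⟨k, hk, hj⟩⟩⟩ fun r hr => ?_
      exact h6 r (Le.trans' _ _ _ (hc _ _ (le_max_right _ _)) hr)

end Pool.Agent.H23.NonCot
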