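import Mathlib

set_option autoImplicit false

open Set Filter Topology

namespace Pool.Agent.H23.Olig

variable {Ω : Type}

/-- abstract back-and-forth system with finitely many classes -/
structure Sys (E : ∀ k : ℕ, (Fin k → Ω) → (Fin k → Ω) → Prop) : Prop where
  symm : ∀ {k x y}, E k x y → E k y x
  trans : ∀ {k x y z}, E k x y → E k y z → E k x z
  fin : ∀ k, ∃ F : Finset (Fin k → Ω), ∀ x, ∃ y ∈ F, E k x y
  res : ∀ {k x y}, E (k + 1) x y → E k (x ∘ Fin.castSucc) (y ∘ Fin.castSucc)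
  ext : ∀ {k} (x : Fin (k + 1) → Ω) (y : Fin k → Ω), E k (x ∘ Fin.castSucc) y →
    ∃ y', y' ∘ Fin.castSucc = y ∧ E (k + 1) x y'

variable {E : ∀ k : ℕ, (Fin k → Ω) → (Fin k → Ω) → Prop}

theorem limit (h : Sys E) (y : ∀ k, Fin k → Ω) (k0 : ℕ)
    (hy : ∀ k, E k (y (k + 1) ∘ Fin.castSucc) (y k)) (z0 : Fin k0 → Ω) (h0 : E k0 (y k0) z0) :
    ∃ z : ℕ → Ω, (∀ i : Fin k0, z i = z0 i) ∧ ∀ k, E (k0 + k) (y (k0 + k)) fun i => z i := by
  have step : ∀ k (p : {w : Fin (k0 + k) → Ω // E _ (y (k0 + k)) w}),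
      ∃ q : {w : Fin (k0 + (k + 1)) → Ω // E _ (y (k0 + (k + 1))) w},
        q.1 ∘ Fin.castSucc = p.1 := fun k p => by
    obtain ⟨w, a, b⟩ := h.ext (y (k0 + k + 1)) p.1 (h.trans (hy _) p.2)
    exact ⟨⟨w, b⟩, a⟩
  choose f hf using step
  let w : ∀ k, {w : Fin (k0 + k) → Ω // E _ (y (k0 + k)) w} := fun k =>
    Nat.rec ⟨z0, h0⟩ (fun k p => f k p) k
  have coh : ∀ m k (hk : k ≤ m) (i : ℕ) (hi : i < k0 + k),
      (w m).1 ⟨i, by omega⟩ = (w k).1 ⟨i, hi⟩ := by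
    intro m k hk i hi
    induction m, hk using Nat.le_induction with
    | base => rfl
    | succ m hm ih => exact (congrFun (hf m (w m)) (⟨i, by omega⟩ : Fin (k0 + m))).trans ih
  refine ⟨fun i => (w (i + 1)).1 ⟨i, by omega⟩, fun i => coh (i + 1) 0 (by omega) i i.2, fun k => ?_⟩
  have : (fun i : Fin (k0 + k) => (w (i + 1)).1 ⟨i, by omega⟩) = (w k).1 := funext fun i =>
    (coh (i + 1 + k) (i + 1) (by omega) i (by omega)).symm.trans (coh (i + 1 + k) k (by omega) i i.2)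
  rw [this]
  exact (w k).2

theorem Sys.res' (h : Sys E) {x y : ℕ → Ω} {k m : ℕ} (hk : k ≤ m)
    (e : E m (fun i => x i) fun i => y i) : E k (fun i => x i) fun i => y i := by
  induction m, hk using Nat.le_induction with
  | base => exact e
  | succ m _ ih => exact ih (h.res e)

theorem ulimit (h : Sys E) {I : Type} (U : Ultrafilter I) (x : I → ℕ → Ω) :
    ∃ z : ℕ → Ω, ∀ k, ∀ᶠ t in (U : Filter I), E k (fun i => x t i) fun i => z i := by
  have h1 : ∀ k, ∃ y : Fin k → Ω, ∀ᶠ t in (U : Filter I), E k (fun i => x t i) y := by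
    intro k
    obtain ⟨F, hF⟩ := h.fin k
    have : (⋃ y ∈ (F : Set (Fin k → Ω)), {t | E k (fun i => x t i) y}) ∈ U :=
      univ_mem' fun t => by simpa using hF _
    obtain ⟨y, -, hy⟩ := (Ultrafilter.finite_biUnion_mem_iff F.finite_toSet).1 this
    exact ⟨y, hy⟩
  choose y hy using h1
  have h2 : ∀ k, E k (y (k + 1) ∘ Fin.castSucc) (y k) := fun k => by
    obtain ⟨t, a, b⟩ := ((hy (k + 1)).and (hy k)).exists
    exact h.trans (h.symm (h.res a)) b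
  obtain ⟨t, a⟩ := (hy 0).exists
  obtain ⟨z, -, hz⟩ := limit h y 0 h2 (y 0) (h.trans (h.symm a) a)
  refine ⟨z, fun k => (hy k).mono fun t ht => h.trans ht ?_⟩
  have := hz k
  rwa [Nat.zero_add] at this

/-- The key compactness lemma. -/
theorem key [Countable Ω] [Nonempty Ω] (h : Sys E) {M : Type} [Mul M] (c : M → Ω → Ω)
    (hc : ∀ a b x, c (a * b) x = c a (c b x))
    (hcl : ∀ f : Ω → Ω, (∀ F : Finset Ω, ∃ g, ∀ x ∈ F, c g x = f x) → ∃ g, c g = f)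
    (real : ∀ k x y, E k x y → ∃ g, Function.Injective (c g) ∧ ∀ i, c g (x i) = y i)
    (U : Ultrafilter M) (s : M) (a : Ω) (ha : ∀ᶠ t in (U : Filter M), c t a ≠ c s a) :
    ∃ u w : M, c u a ≠ c (w * s) a ∧ ∀ F : Finset Ω, ∀ᶠ t in (U : Filter M),
      ∃ g, (∀ x ∈ F, c g x = c w x) ∧ ∀ x ∈ F, c (g * t) x = c u x := by
  classical
  obtain ⟨e, he⟩ := exists_surjective_nat (Ω ⊕ Ω)
  choose ι hι using he
  obtain ⟨z, hz⟩ := ulimit h U fun t n => Sum.elim (c t) id (e n)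
  have main : ∀ F : Finset Ω, ∀ᶠ t in (U : Filter M), ∃ g, Function.Injective (c g) ∧
      (∀ x ∈ F, c g x = z (ι (.inr x))) ∧ ∀ x ∈ F, c (g * t) x = z (ι (.inl x)) := by
    intro F
    filter_upwards [hz (F.sup (fun x => ι (.inr x)) + F.sup (fun x => ι (.inl x)) + 1)] with t ht
    obtain ⟨g, g1, g2⟩ := real _ _ _ ht
    refine ⟨g, g1, fun x hx => ?_, fun x hx => ?_⟩
    · have := Finset.le_sup (f := fun x => ι (.inr x)) hx
      simpa [hι] using g2 ⟨ι (.inr x), by omega⟩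
    · have := Finset.le_sup (f := fun x => ι (.inl x)) hx
      simpa [hι, hc] using g2 ⟨ι (.inl x), by omega⟩
  obtain ⟨u, hu⟩ := hcl (fun x => z (ι (.inl x))) fun F => by
    obtain ⟨t, g, -, -, h3⟩ := (main F).exists
    exact ⟨g * t, h3⟩
  obtain ⟨w, hw⟩ := hcl (fun x => z (ι (.inr x))) fun F => by
    obtain ⟨t, g, -, h2, -⟩ := (main F).exists
    exact ⟨g, h2⟩
  refine ⟨u, w, ?_, fun F => (main F).mono fun t ⟨g, _, h2, h3⟩ => ⟨g, hw ▸ h2, hu ▸ h3⟩⟩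
  obtain ⟨t, ⟨g, h1, h2, h3⟩, h4⟩ := ((main {a, c s a}).and ha).exists
  rw [hc, hu, hw]
  intro h5
  apply h4
  apply h1
  rw [← hc, h3 a (by simp), h2 _ (by simp)]
  exact h5

/-- Minimality: any semigroup topology coarser than the pointwise one that separates points
having different values is finer than the pointwise one. -/
theorem minimal [Countable Ω] [Nonempty Ω] (h : Sys E) {M : Type} [Mul M] (c : M → Ω → Ω)
    (hc : ∀ a b x, c (a * b) x = c a (c b x))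
    (hcl : ∀ f : Ω → Ω, (∀ F : Finset Ω, ∃ g, ∀ x ∈ F, c g x = f x) → ∃ g, c g = f)
    (real : ∀ k x y, E k x y → ∃ g, Function.Injective (c g) ∧ ∀ i, c g (x i) = y i)
    [TopologicalSpace M] [T2Space M] [ContinuousMul M]
    (hco : ∀ s : M, ∀ W ∈ 𝓝 s, ∃ F : Finset Ω, ∀ t, (∀ x ∈ F, c t x = c s x) → t ∈ W)
    (s : M) (a : Ω) : ∀ᶠ t in 𝓝 s, c t a = c s a := by
  by_contra hno
  have hne : (𝓝 s ⊓ 𝓟 {t | c t a ≠ c s a}).NeBot := by
    rw [← frequently_iff_neBot]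
    exact not_eventually.1 hno
  let U := Ultrafilter.of (𝓝 s ⊓ 𝓟 {t | c t a ≠ c s a})
  have hU : (U : Filter M) ≤ 𝓝 s ⊓ 𝓟 {t | c t a ≠ c s a} := Ultrafilter.of_le _
  obtain ⟨u, w, h1, h2⟩ := key h c hc hcl real U s a
    (le_principal_iff.1 (hU.trans inf_le_right))
  obtain ⟨A, B, hA, hB, hAB⟩ := t2_separation_nhds (show u ≠ w * s from fun e => h1 (e ▸ rfl))
  obtain ⟨P, hP, Q, hQ, hPQ⟩ := mem_nhds_prod_iff.1
    (continuous_mul.continuousAt (x := (w, s)) hB)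
  obtain ⟨F1, hF1⟩ := hco u A hA
  obtain ⟨F2, hF2⟩ := hco w P hP
  classical
  obtain ⟨t, ⟨g, g1, g2⟩, ht⟩ := ((h2 (F1 ∪ F2)).and (hU.trans inf_le_left hQ)).exists
  exact disjoint_left.1 hAB (hF1 (g * t) fun x hx => g2 x (by simp [hx]))
    (hPQ (mk_mem_prod (hF2 g fun x hx => g1 x (by simp [hx])) ht))

end Pool.Agent.H23.Olig
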