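import Pool.Agent.H23.OriDefs

set_option autoImplicit false

namespace Pool.Agent.H23.Ori
open Relation

section
variable {V D : Type} {t h : D → V} {S S' : D → Prop} {x y z : V} {p q : List D}

theorem Wk.mono (w : Wk t h S x p y) (e : ∀ d ∈ p, S d → S' d) : Wk t h S' x p y := by
  induction p generalizing x with
  | nil => exact w
  | cons d p ih => exact ⟨e d (by simp) w.1, w.2.1, ih w.2.2 fun d a => e d (by simp [a])⟩

theorem Wk.mem (w : Wk t h S x p y) : ∀ d ∈ p, S d := by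
  induction p generalizing x with
  | nil => simp
  | cons d p ih => simpa using ⟨w.1, ih w.2.2⟩

theorem Wk.app (w : Wk t h S x p y) (w' : Wk t h S y q z) : Wk t h S x (p ++ q) z := by
  induction p generalizing x with
  | nil => cases w; exact w'
  | cons d p ih => exact ⟨w.1, w.2.1, ih w.2.2⟩

theorem Wk.rev (w : Wk t h S x p y) : Wk h t S y p.reverse x := by
  induction p generalizing x with
  | nil => exact Eq.symm w
  | cons d p ih =>
    rw [List.reverse_cons]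
    exact (ih w.2.2).app ⟨w.1, rfl, w.2.1⟩

theorem Wk.suf (w : Wk t h S z p y) (n : (z :: p.map h).Nodup) (m : x ∈ z :: p.map h) :
    ∃ r, r.Sublist p ∧ Wk t h S x r y ∧ (x :: r.map h).Nodup := by
  induction p generalizing z with
  | nil => simp at m; subst m; exact ⟨_, .refl _, w, n⟩
  | cons d p ih =>
    rcases List.mem_cons.1 m with rfl | m
    · exact ⟨_, .refl _, w, n⟩
    · obtain ⟨r, a, b⟩ := ih w.2.2 n.of_cons m
      exact ⟨r, a.cons _, b⟩

theorem Wk.path (w : Wk t h S x p y) :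
    ∃ r, r.Sublist p ∧ Wk t h S x r y ∧ (x :: r.map h).Nodup := by
  induction p generalizing x with
  | nil => exact ⟨_, .refl _, w, by simp⟩
  | cons d p ih =>
    obtain ⟨r, a, b, c⟩ := ih w.2.2
    by_cases m : x ∈ h d :: r.map h
    · obtain ⟨r', a', b'⟩ := b.suf c m
      exact ⟨r', (a'.trans a).cons _, b'⟩
    · exact ⟨d :: r, a.cons₂ _, ⟨w.1, w.2.1, b⟩, List.nodup_cons.2 ⟨m, c⟩⟩

/-- one step -/
def St (t h : D → V) (S : D → Prop) (u v : V) : Prop := ∃ d, S d ∧ t d = u ∧ h d = v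

/-- reachability -/
def Re (t h : D → V) (S : D → Prop) (u v : V) : Prop := ∃ p, Wk t h S u p v

theorem re_iff : Re t h S x y ↔ ReflTransGen (St t h S) x y := by
  refine ⟨?_, fun r => ?_⟩
  · rintro ⟨p, w⟩
    induction p generalizing x with
    | nil => cases w; rfl
    | cons d p ih => exact .head ⟨d, w.1, w.2.1, rfl⟩ (ih w.2.2)
  · induction r using ReflTransGen.head_induction_on with
    | refl => exact ⟨[], rfl⟩
    | head a _ ih =>
      obtain ⟨d, a, b, rfl⟩ := a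
      obtain ⟨p, w⟩ := ih
      exact ⟨d :: p, a, b, w⟩

theorem Re.refl : Re t h S x x := ⟨[], rfl⟩
theorem Re.trans (a : Re t h S x y) (b : Re t h S y z) : Re t h S x z :=
  a.elim fun _ w => b.elim fun _ w' => ⟨_, w.app w'⟩
theorem Re.one {d : D} (a : S d) : Re t h S (t d) (h d) := ⟨[d], a, rfl, rfl⟩
theorem Re.mono (a : Re t h S x y) (e : ∀ d, S d → S' d) : Re t h S' x y :=
  a.elim fun p w => ⟨p, w.mono fun d _ => e d⟩
theorem Re.sim (a : Re t h S x y) (e : ∀ d, S d → Re t h S' (t d) (h d)) : Re t h S' x y := by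
  obtain ⟨p, w⟩ := a
  induction p generalizing x with
  | nil => cases w; exact .refl
  | cons d p ih => obtain ⟨a, rfl, c⟩ := w; exact (e d a).trans (ih c)

theorem Re.closed (a : Re t h S x y) (P : V → Prop) (e : ∀ d, S d → P (t d) → P (h d)) (hx : P x) :
    P y := by
  obtain ⟨p, w⟩ := a
  induction p generalizing x with
  | nil => cases w; exact hx
  | cons d p ih => obtain ⟨a, rfl, c⟩ := w; exact ih (e d a hx) c

theorem Wk.lev {le : V → V → Prop} (r : ∀ a, le a a) (tr : ∀ a b c, le a b → le b c → le a c)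
    (up : ∀ d, S d → le (t d) (h d)) (w : Wk t h S x p y) :
    le x y ∧ ∀ d ∈ p, le x (t d) ∧ le (h d) y := by
  induction p generalizing x with
  | nil => cases w; simp [r]
  | cons d p ih =>
    obtain ⟨a, rfl, c⟩ := w
    obtain ⟨i, j⟩ := ih c
    have := up d a
    simp only [List.forall_mem_cons]
    exact ⟨tr _ _ _ this i, ⟨r _, i⟩, fun e he => ⟨tr _ _ _ this (j e he).1, (j e he).2⟩⟩

/-- the last move inside a level -/
def Ex (t h : D → V) (S : D → Prop) (le : V → V → Prop) (b u v : V) (o : List D) : Prop :=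
  (o = [] ∧ u = b ∧ v = b) ∨ ∃ d, o = [d] ∧ S d ∧ t d = u ∧ h d = v ∧ ¬ le v u

theorem Wk.split (le : V → V → Prop) (w : Wk t h S x p y) :
    ∃ p1 o p2 u v, p = p1 ++ o ++ p2 ∧ Wk t h (fun d => S d ∧ le (h d) (t d)) x p1 u ∧
      Ex t h S le y u v o ∧ Wk t h S v p2 y ∧ (o = [] → p2 = []) := by
  induction p generalizing x with
  | nil => cases w; exact ⟨[], [], [], _, _, rfl, rfl, .inl ⟨rfl, rfl, rfl⟩, rfl, id⟩
  | cons d p ih =>
    obtain ⟨a, rfl, c⟩ := w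
    by_cases e : le (h d) (t d)
    · obtain ⟨p1, o, p2, u, v, rfl, i⟩ := ih c
      exact ⟨d :: p1, o, p2, u, v, rfl, ⟨⟨a, e⟩, rfl, i.1⟩, i.2⟩
    · exact ⟨[], [d], p, _, _, rfl, rfl, .inr ⟨d, rfl, a, rfl, rfl, e⟩, c, by simp⟩

end

section
variable {V D : Type} (t1 h1 t2 h2 : D → V) (A1 A2 : D → Prop) (cf : D → D → Prop)
  (le : V → V → Prop)

/-- two walks without conflict -/
def CW (x b y c : V) : Prop :=
  ∃ p q, Wk t1 h1 A1 x p b ∧ Wk t2 h2 A2 y q c ∧ ∀ d ∈ p, ∀ e ∈ q, ¬ cf d e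

def Step (I : V → V → V → V → Prop) (b c : V) (u v : V × V) : Prop :=
  ((¬ le u.2 u.1 ∨ u.2 = c) ∧ St t1 h1 A1 u.1 v.1 ∧ v.2 = u.2) ∨
  ((¬ le u.1 u.2 ∨ u.1 = b) ∧ St t2 h2 A2 u.2 v.2 ∧ v.1 = u.1) ∨
  (le u.1 u.2 ∧ le u.2 u.1 ∧ ∃ x y o1 o2, le u.1 x ∧ le x u.1 ∧ le u.1 y ∧ le y u.1 ∧
    I u.1 x u.2 y ∧ Ex t1 h1 A1 le b x v.1 o1 ∧
    Ex t2 h2 A2 le c y v.2 o2 ∧ ∀ d ∈ o1, ∀ e ∈ o2, ¬ cf d e)

variable {t1 h1 t2 h2 A1 A2 cf le}

theorem dp {I : V → V → V → V → Prop} (r : ∀ a, le a a) (tr : ∀ a b c, le a b → le b c → le a c)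
    (u1 : ∀ d, A1 d → le (t1 d) (h1 d)) (u2 : ∀ d, A2 d → le (t2 d) (h2 d))
    (hc : ∀ d e, A1 d → A2 e → cf d e → le (t1 d) (t2 e) ∧ le (t2 e) (t1 d) ∧
      le (h1 d) (h2 e) ∧ le (h2 e) (h1 d))
    (hI : ∀ x x' y y', le x y → le y x → le x x' → le x' x → le x y' → le y' x → (I x x' y y' ↔
      CW t1 h1 t2 h2 (fun d => A1 d ∧ le (h1 d) (t1 d)) (fun d => A2 d ∧ le (h2 d) (t2 d)) cf
        x x' y y')) (x b y c : V) :
    CW t1 h1 t2 h2 A1 A2 cf x b y c ↔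
      ReflTransGen (Step t1 h1 t2 h2 A1 A2 cf le I b c) (x, y) (b, c) := by
  refine ⟨?_, fun a => ?_⟩
  · rintro ⟨p, q, w1, w2, n⟩
    induction hk : p.length + q.length using Nat.strong_induction_on generalizing x y p q with
    | _ k ih =>
    subst hk
    by_cases c1 : p ≠ [] ∧ (¬ le y x ∨ y = c)
    · obtain ⟨d, p, rfl⟩ := List.exists_cons_of_ne_nil c1.1
      exact .head (b := (h1 d, y)) (.inl ⟨c1.2, ⟨d, w1.1, w1.2.1, rfl⟩, rfl⟩) (ih _ (by simp) _ _ p q w1.2.2 w2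
        (fun d a => n d (by simp [a])) rfl)
    by_cases c2 : q ≠ [] ∧ (¬ le x y ∨ x = b)
    · obtain ⟨d, q, rfl⟩ := List.exists_cons_of_ne_nil c2.1
      exact .head (b := (x, h2 d)) (.inr (.inl ⟨c2.2, ⟨d, w2.1, w2.2.1, rfl⟩, rfl⟩))
        (ih _ (by simp) _ _ p q w1 w2.2.2 (fun d a e b => n d a e (by simp [b])) rfl)
    by_cases c3 : p = []
    · subst c3
      cases w1
      have : q = [] := by simpa using c2
      subst this
      cases w2; rfl
    have c4 : q ≠ [] := by rintro rfl; exact c1 ⟨c3, .inr w2⟩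
    have e1 : le y x := by by_contra e; exact c1 ⟨c3, .inl e⟩
    have e2 : le x y := by by_contra e; exact c2 ⟨c4, .inl e⟩
    obtain ⟨p1, o1, p2, x1, x2, rfl, a1, a2, a3, a4⟩ := w1.split le
    obtain ⟨q1, o2, q2, y1, y2, rfl, b1, b2, b3, b4⟩ := w2.split le
    have f1 := (a1.lev r tr fun d a => u1 d a.1).1
    have f2 := (a1.rev.lev r tr fun d a => a.2).1
    have g1 := tr _ _ _ e2 (b1.lev r tr fun d a => u2 d a.1).1
    have g2 := tr _ _ _ (b1.rev.lev r tr fun d a => a.2).1 e1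
    refine .head (b := (x2, y2)) (.inr (.inr ⟨e2, e1, x1, y1, o1, o2, f1, f2, g1, g2,
      (hI _ _ _ _ e2 e1 f1 f2 g1 g2).2 ⟨p1, q1, a1, b1, fun d a e b => n d (by simp [a]) e
      (by simp [b])⟩, a2, b2, fun d a e b => n d (by simp [a]) e (by simp [b])⟩))
      (ih _ ?_ _ _ p2 q2 a3 b3 (fun d a e b => n d (by simp [a]) e (by simp [b])) rfl)
    cases o1 <;> cases p1 <;> simp_all <;> omega
  · suffices ∀ u, ReflTransGen (Step t1 h1 t2 h2 A1 A2 cf le I b c) u (b, c) →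
        CW t1 h1 t2 h2 A1 A2 cf u.1 b u.2 c from this _ a
    intro u a
    induction a using ReflTransGen.head_induction_on with
    | refl => exact ⟨[], [], rfl, rfl, by simp⟩
    | @head u v a _ ih =>
    obtain ⟨p, q, w1, w2, n⟩ := ih
    rcases a with ⟨a, ⟨d, s1, s2, s3⟩, e⟩ | ⟨a, ⟨d, s1, s2, s3⟩, e⟩ |
      ⟨e2, e1, x1, y1, o1, o2, f1, f2, g1, g2, i, a2, b2, m⟩
    · rw [← s3] at w1; rw [e] at w2
      rcases a with a | a
      · refine ⟨d :: p, q, ⟨s1, s2, w1⟩, w2, List.forall_mem_cons.2 ⟨fun e b c => a ?_, n⟩⟩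
        exact tr _ _ _ ((w2.lev r tr u2).2 e b).1 (s2 ▸ (hc d e s1 (w2.mem e b) c).2.1)
      · exact ⟨d :: p, [], ⟨s1, s2, w1⟩, a, by simp⟩
    · rw [← s3] at w2; rw [e] at w1
      rcases a with a | a
      · refine ⟨p, d :: q, w1, ⟨s1, s2, w2⟩, fun e b =>
          List.forall_mem_cons.2 ⟨fun c => a ?_, n e b⟩⟩
        exact tr _ _ _ ((w1.lev r tr u1).2 e b).1 (s2 ▸ (hc e d (w1.mem e b) s1 c).1)
      · exact ⟨[], d :: q, a, ⟨s1, s2, w2⟩, by simp⟩
    obtain ⟨p1, q1, a1, b1, k⟩ := (hI _ _ _ _ e2 e1 f1 f2 g1 g2).1 i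
    have key : ∀ {t h : D → V} {A : D → Prop} {x x1 x2 b : V} {p1 o p : List D},
        (∀ d, A d → le (t d) (h d)) → Wk t h (fun d => A d ∧ le (h d) (t d)) x p1 x1 →
        Ex t h A le b x1 x2 o → Wk t h A x2 p b → le u.1 x1 → le x1 u.1 →
        ∃ p', p' ⊆ p ∧ Wk t h A x (p1 ++ (o ++ p')) b ∧
          (∀ d ∈ p1, le (h d) u.1 ∧ le (t d) u.1) ∧ (∀ d ∈ o, ¬ le (h d) u.1 ∧ le (t d) u.1) ∧
          ∀ d ∈ p', ¬ le (t d) u.1 ∧ ¬ le (h d) u.1 := by
      intro t h A x x1 x2 b p1 o p up a1 a2 a3 f1 f2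
      have l1 : ∀ d ∈ p1, le (h d) u.1 ∧ le (t d) u.1 := fun d a => by
        have := tr _ _ _ ((a1.lev r tr fun d a => up d a.1).2 d a).2 f2
        exact ⟨this, tr _ _ _ (up d (a1.mem d a).1) this⟩
      have a1 := a1.mono (S' := A) fun _ _ a => a.1
      rcases a2 with ⟨rfl, rfl, rfl⟩ | ⟨d, rfl, s1, rfl, rfl, s4⟩
      · exact ⟨[], by simp, by simpa, l1, by simp, by simp⟩
      · have s5 : ¬ le (h d) u.1 := fun e => s4 (tr _ _ _ e f1)
        refine ⟨p, by simp, a1.app ⟨s1, rfl, a3⟩, l1, by simp [s5, f2], fun e a => ?_⟩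
        have : ¬ le (t e) u.1 := fun f => s5 (tr _ _ _ ((a3.lev r tr up).2 e a).1 f)
        exact ⟨this, fun f => this (tr _ _ _ (up e (a3.mem e a)) f)⟩
    obtain ⟨p', j0, j1, j2, j3, j4⟩ := key u1 a1 a2 w1 f1 f2
    obtain ⟨q', k0, k1, k2, k3, k4⟩ := key u2 b1 b2 w2 g1 g2
    refine ⟨_, _, j1, k1, fun d a e b c => ?_⟩
    obtain ⟨c1, c2, c3, c4⟩ := hc d e (j1.mem d a) (k1.mem e b) c
    simp only [List.mem_append] at a b
    rcases a with a | a | a <;> rcases b with b | b | b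
    · exact k d a e b c
    · exact (k3 e b).1 (tr _ _ _ c4 (j2 d a).1)
    · exact (k4 e b).2 (tr _ _ _ c4 (j2 d a).1)
    · exact (j3 d a).1 (tr _ _ _ c3 (k2 e b).1)
    · exact m d a e b c
    · exact (k4 e b).1 (tr _ _ _ c2 (j3 d a).2)
    · exact (j4 d a).1 (tr _ _ _ c1 (k2 e b).2)
    · exact (j4 d a).1 (tr _ _ _ c1 (k3 e b).2)
    · exact n d (j0 a) e (k0 b) c

end

end Pool.Agent.H23.Ori
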