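import Pool.Agent.H23.Ori1

set_option autoImplicit false

namespace Pool.Agent.H23.Ori
open Relation

variable {V D : Type} {t h : D → V} {rv : D → D} {S K : D → Prop} {x y x' y' : V} {p q : List D}

structure Inv (t h : D → V) (rv : D → D) : Prop where
  rr : ∀ d, rv (rv d) = d
  ne : ∀ d, rv d ≠ d
  tr : ∀ d, t (rv d) = h d

theorem Inv.hr (i : Inv t h rv) (d : D) : h (rv d) = t d := by rw [← i.tr, i.rr]

theorem Wk.cons' (i : Inv t h rv) (w : Wk t h S x p y) :
    ∃ r, r ⊆ p ∧ Wk t h S x r y ∧ ∀ d ∈ r, rv d ∉ r := by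
  obtain ⟨r, a, b, c⟩ := w.path
  refine ⟨r, a.subset, b, ?_⟩
  clear a w
  induction r generalizing x with
  | nil => simp
  | cons e r ih =>
    obtain ⟨-, rfl, b⟩ := b
    have c1 := (List.nodup_cons.1 c).1
    have := ih b c.of_cons
    intro d a f
    simp only [List.mem_cons, List.map_cons, List.mem_map, not_or, not_exists, not_and] at a f c1
    rcases a with rfl | a <;> rcases f with f | f
    · exact i.ne _ f
    · exact c1.2 _ f (i.hr _)
    · exact c1.2 _ a (by rw [← f, i.tr])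
    · exact this d a f

/-- connectivity in the underlying graph without the edge of `f` -/
def U (t h : D → V) (rv : D → D) (K : D → Prop) (f : D) (u v : V) : Prop :=
  Re t h (fun g => (K g ∨ K (rv g)) ∧ ¬ g = f ∧ ¬ g = rv f) u v

theorem U.symm (i : Inv t h rv) {f : D} (a : U t h rv K f x y) : U t h rv K f y x := by
  refine Re.closed a (fun z => U t h rv K f z x) (fun d b c => Re.trans ?_ c) .refl
  have := Re.one (t := t) (h := h) (S := fun g => (K g ∨ K (rv g)) ∧ ¬ g = f ∧ ¬ g = rv f)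
    (d := rv d) ⟨by rw [i.rr]; exact b.1.symm, fun e => b.2.2 (by rw [← e, i.rr]),
      fun e => b.2.1 (by rw [← i.rr d, e, i.rr])⟩
  rwa [i.tr, i.hr] at this

theorem U.rev (i : Inv t h rv) {f : D} (a : U t h rv K f x y) : U t h rv K (rv f) x y :=
  Re.mono a fun d b => ⟨b.1, b.2.2, by rw [i.rr]; exact b.2.1⟩

theorem Wk.pre {f : D} (w : Wk t h K x p y) (a : f ∈ p) (b : rv f ∉ p) :
    U t h rv K f x (t f) := by
  induction p generalizing x with
  | nil => simp at a
  | cons d p ih =>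
    obtain ⟨c, rfl, w⟩ := w
    by_cases e : d = f
    · subst e; exact .refl
    · simp only [List.mem_cons, not_or] at a b
      exact Re.trans (.one ⟨.inl c, e, fun e => b.1 e.symm⟩) (ih w (a.resolve_left (Ne.symm e)) b.2)

theorem Wk.avoid {f : D} (w : Wk t h K x p y) (a : f ∉ p) (b : rv f ∉ p) : U t h rv K f x y :=
  ⟨p, w.mono fun d e c => ⟨.inl c, fun e' => a (e' ▸ e), fun e' => b (e' ▸ e)⟩⟩

theorem Wk.post {f : D} (w : Wk t h K x p y) (a : f ∈ p) (b : rv f ∉ p) :
    U t h rv K f (h f) y := by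
  induction p generalizing x with
  | nil => simp at a
  | cons d p ih =>
    obtain ⟨c, rfl, w⟩ := w
    simp only [List.mem_cons, not_or] at a b
    by_cases e : f ∈ p
    · exact ih w e b.2
    · obtain rfl := a.resolve_right e
      exact w.avoid e b.2

def Cond (t h : D → V) (rv : D → D) (K : D → Prop) (x x' y y' : V) : Prop :=
  Re t h K x x' ∧ Re t h K y y' ∧ ∀ f, K f → K (rv f) →
    U t h rv K f x x' ∨ U t h rv K f y y' ∨ U t h rv K f x y

theorem bridge (i : Inv t h rv) (ls : ∀ d, K d → Re t h K (h d) (t d)) {f : D}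
    (a : ¬ Re t h (fun d => K d ∧ ¬ d = f) (t f) (h f))
    (b : ¬ Re t h (fun d => K d ∧ ¬ d = rv f) (h f) (t f)) : ¬ U t h rv K f (t f) (h f) := by
  set X := Re t h (fun d => K d ∧ ¬ d = f) (t f) with hX
  set Y := Re t h (fun d => K d ∧ ¬ d = rv f) (h f) with hY
  have sy : ∀ u v, Re t h K u v → Re t h K v u := fun u v c =>
    c.closed (fun z => Re t h K z u) (fun d e g => (ls d e).trans g) .refl
  have dj : ∀ z, X z → ¬ Y z := fun z c e => by
    refine b ((sy _ _ (Re.mono c fun _ a => a.1)).closed (fun z => X z ∧ Y z)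
      (fun d k g => ?_) ⟨c, e⟩).2
    have g1 : ¬ d = f := by rintro rfl; exact b g.2
    have g2 : ¬ d = rv f := by rintro rfl; exact a (i.tr f ▸ g.1)
    exact ⟨Re.trans g.1 (.one ⟨k, g1⟩), Re.trans g.2 (.one ⟨k, g2⟩)⟩
  have cl : ∀ d, K d → X (t d) ∨ Y (t d) → X (h d) ∨ Y (h d) := fun d k g => by
    by_cases g1 : d = f
    · subst g1; exact .inr .refl
    by_cases g2 : d = rv f
    · subst g2; rw [i.hr]; exact .inl .refl
    exact g.imp (fun g => Re.trans g (.one ⟨k, g1⟩)) fun g => Re.trans g (.one ⟨k, g2⟩)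
  intro u
  refine a (Re.closed u X (fun d ⟨k, g1, g2⟩ g => ?_) .refl)
  rcases k with k | k
  · exact Re.trans g (.one ⟨k, g1⟩)
  · have := (ls _ k).closed (fun z => X z ∨ Y z) cl (.inl (by rwa [i.hr]))
    rw [i.tr] at this
    refine this.resolve_right fun e => dj _ g (Re.trans e ?_)
    have := Re.one (t := t) (h := h) (S := fun d => K d ∧ ¬ d = rv f) (d := rv d)
      ⟨k, fun e => g1 (by rw [← i.rr d, e, i.rr])⟩
    rwa [i.tr, i.hr] at this

theorem br (i : Inv t h rv) (fin : {d | K d}.Finite) (ls : ∀ d, K d → Re t h K (h d) (t d)) :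
    CW t h t h K K (fun d e => e = rv d) x x' y y' ↔ Cond t h rv K x x' y y' := by
  constructor
  · rintro ⟨p, q, w1, w2, n⟩
    refine ⟨⟨p, w1⟩, ⟨q, w2⟩, fun f _ _ => ?_⟩
    by_cases a : f ∉ p ∧ rv f ∉ p
    · exact .inl (w1.avoid a.1 a.2)
    by_cases b : f ∉ q ∧ rv f ∉ q
    · exact .inr (.inl (w2.avoid b.1 b.2))
    refine .inr (.inr ?_)
    have key : ∀ f, f ∈ p → f ∈ q → U t h rv K f x y := fun f a b =>
      Re.trans (w1.pre a fun c => n _ c _ b (i.rr f).symm) ((w2.pre b fun c => n _ a _ c rfl).symm i)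
    by_cases c : f ∈ p
    · exact key f c (by have := n f c (rv f); grind)
    · have c' : rv f ∈ p := by grind
      have := (key _ c' (by have := n _ c' f; have := i.rr f; grind)).rev i
      rwa [i.rr] at this
  induction hk : {d | K d}.ncard using Nat.strong_induction_on generalizing K with
  | _ k ih =>
  subst hk
  rintro ⟨r1, r2, c⟩
  by_cases e : ∃ f, K f ∧ K (rv f) ∧ Re t h (fun d => K d ∧ ¬ d = f) (t f) (h f)
  · obtain ⟨f, e1, e2, e3⟩ := e
    have sm : ∀ {u v}, Re t h K u v → Re t h (fun d => K d ∧ ¬ d = f) u v := fun a =>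
      a.sim fun d k => by
        by_cases g : d = f
        · subst g; exact e3
        · exact .one ⟨k, g⟩
    have um : ∀ {g u v}, U t h rv K g u v → U t h rv (fun d => K d ∧ ¬ d = f) g u v := fun a =>
      Re.mono a fun d k => ⟨by have := i.rr d; have := i.ne f; have := k.1; grind, k.2⟩
    obtain ⟨p, q, w1, w2, n⟩ := ih _ (Set.ncard_lt_ncard ⟨fun d a => a.1, fun a => (a e1).2 rfl⟩ fin)
      (fin.subset fun d a => a.1) (fun d a => sm (ls d a.1)) rfl
      ⟨sm r1, sm r2, fun g a b => (c g a.1 b.1).imp um (.imp um um)⟩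
    exact ⟨p, q, w1.mono fun _ _ a => a.1, w2.mono fun _ _ a => a.1, n⟩
  obtain ⟨p, w1⟩ := r1
  obtain ⟨q, w2⟩ := r2
  obtain ⟨p, -, w1, n1⟩ := w1.cons' i
  obtain ⟨q, -, w2, n2⟩ := w2.cons' i
  refine ⟨p, q, w1, w2, ?_⟩
  rintro f a _ b rfl
  have k1 := w1.mem f a
  have k2 := w2.mem _ b
  refine bridge i ls (f := f) (fun g => e ⟨f, k1, k2, g⟩)
    (fun g => e ⟨rv f, k2, by rwa [i.rr], by rwa [i.tr, i.hr]⟩) ?_
  have a1 := (w1.pre a (n1 f a)).symm i
  have a2 := (w1.post a (n1 f a)).symm i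
  have b1 := (w2.pre b (n2 _ b)).rev i
  have b2 := (w2.post b (n2 _ b)).rev i
  rw [i.rr, i.tr] at b1
  rw [i.rr, i.hr] at b2
  rcases c f k1 k2 with c | c | c
  · exact Re.trans a1 (Re.trans c a2)
  · exact Re.trans b2 (Re.trans (c.symm i) b1)
  · exact Re.trans a1 (Re.trans c b1)

/-- the two-paths problem in a mixed graph -/
theorem two (i : Inv t h rv) (fin : {d | K d}.Finite) :
    CW t h t h K K (fun d e => e = rv d) x x' y y' ↔
      ReflTransGen (Step t h t h K K (fun d e => e = rv d) (Re t h K)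
        (Cond t h rv fun d => K d ∧ Re t h K (h d) (t d)) x' y') (x, y) (x', y') := by
  refine dp (fun _ => .refl) (fun _ _ _ => .trans) (fun _ => .one) (fun _ => .one) ?_
    (fun _ _ _ _ _ _ _ _ _ _ => (br i (fin.subset fun d a => a.1) ?_).symm) _ _ _ _
  · rintro d _ a b rfl
    have a := Re.one (t := t) (h := h) a
    have b := Re.one (t := t) (h := h) b
    rw [i.tr, i.hr] at *
    exact ⟨a, b, b, a⟩
  · rintro d ⟨a, p, w⟩
    refine ⟨p, w.mono fun e b c => ⟨c, ?_⟩⟩
    have := (w.lev (fun _ => Re.refl) (fun _ _ _ => Re.trans) fun _ => Re.one).2 e b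
    exact this.2.trans ((Re.one a).trans this.1)

end Pool.Agent.H23.Ori
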