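import Pool.Agent.H23.Ori2
import Pool.Agent.H11.PT3

set_option autoImplicit false

namespace Pool.Agent.H23.Ori
open Relation Pool.Agent.H11.PT

noncomputable def dc (P : Prop) : Bool := @decide P (Classical.propDecidable P)

@[simp] theorem dc_iff {P : Prop} : dc P = true ↔ P := by simp [dc]

theorem dc_eq {P : Prop} {b : Bool} (h : b = true ↔ P) : b = dc P := by
  rw [Bool.eq_iff_iff, dc_iff, h]

variable {α β : Type} [Enc α] [Enc β] {p q : α → Prop}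

theorem dc_of (h : PT fun x => dc (p x)) (e : ∀ x, p x ↔ q x) : PT fun x => dc (q x) :=
  h.of_eq fun x => by rw [e]

@[fun_prop] theorem dcAnd (hp : PT fun x => dc (p x)) (hq : PT fun x => dc (q x)) :
    PT fun x => dc (p x ∧ q x) := (hp.and hq).of_eq fun x => dc_eq (by simp)
@[fun_prop] theorem dcOr (hp : PT fun x => dc (p x)) (hq : PT fun x => dc (q x)) :
    PT fun x => dc (p x ∨ q x) := (hp.or hq).of_eq fun x => dc_eq (by simp)
@[fun_prop] theorem dcNot (hp : PT fun x => dc (p x)) : PT fun x => dc (¬ p x) :=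
  hp.not.of_eq fun x => dc_eq (by simp [← Bool.not_eq_true])
@[fun_prop] theorem dcTrue {f : α → Bool} (hp : PT f) : PT fun x => dc (f x = true) :=
  hp.of_eq fun x => dc_eq (by simp)
@[fun_prop] theorem dcEq [Inj β] {f g : α → β} (hf : PT f) (hg : PT g) :
    PT fun x => dc (f x = g x) := by
  classical exact (PT.decEq hf hg).of_eq fun x => dc_eq (by simp)
@[fun_prop] theorem dcLt {f g : α → ℕ} (hf : PT f) (hg : PT g) :
    PT fun x => dc (f x < g x) := (PT.decLt hf hg).of_eq fun x => dc_eq (by simp)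
@[fun_prop] theorem dcMem [Inj β] {f : α → β} {g : α → List β} (hf : PT f) (hg : PT g) :
    PT fun x => dc (f x ∈ g x) := by
  classical exact (PT.decMem hg hf).of_eq fun x => dc_eq (by simp)
@[fun_prop] theorem dcEx {l : α → List β} {r : α → β → Prop} (hl : PT l)
    (hr : PT fun y : α × β => dc (r y.1 y.2)) : PT fun x => dc (∃ b, b ∈ l x ∧ r x b) :=
  (PT.any (p := fun x b => dc (r x b)) hl hr).of_eq fun x => dc_eq (by simp)
@[fun_prop] theorem dcAll {l : α → List β} {r : α → β → Prop} (hl : PT l)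
    (hr : PT fun y : α × β => dc (r y.1 y.2)) : PT fun x => dc (∀ b, b ∈ l x → r x b) :=
  (PT.all (p := fun x b => dc (r x b)) hl hr).of_eq fun x => dc_eq (by simp)

theorem pt_rtg [Inj β] {N : α → List β} {R : α → β → β → Prop} {u v : α → β} (hN : PT N)
    (hR : PT fun y : α × β × β => dc (R y.1 y.2.1 y.2.2)) (hu : PT u) (hv : PT v)
    (h0 : ∀ x, u x ∈ N x) (h1 : ∀ x a b, R x a b → a ∈ N x → b ∈ N x) :
    PT fun x => dc (ReflTransGen (R x) (u x) (v x)) := by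
  obtain ⟨r, rfl⟩ : ∃ r : α → β → β → Bool, R = fun x a b => r x a b = true :=
    ⟨fun x a b => dc (R x a b), by simp⟩
  replace hR : PT fun y : α × β × β => r y.1 y.2.1 y.2.2 := hR.of_eq fun _ => (dc_eq .rfl).symm
  have a : PT fun x => (fun S => (N x).filter fun a => dc (∃ b ∈ v x :: S, r x a b = true))^[
      (N x).length] [] :=
    PT.iterate (g := fun x S => (N x).filter fun a => dc (∃ b ∈ v x :: S, r x a b = true))
      (by fun_prop) (by fun_prop) (by fun_prop) (fun x S => S.Sublist (N x)) N hN (by simp)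
      (fun _ _ _ => List.filter_sublist) fun _ _ => sz_sublist
  refine dc_of (dcMem hu (PT.cons hv a)) fun x => ?_
  have b : ∀ k a, a ∈ N x → (a ∈ v x :: (fun S => (N x).filter fun a =>
      dc (∃ b ∈ v x :: S, r x a b = true))^[k] [] ↔
      ∃ p, Wk Prod.fst Prod.snd (fun d => r x d.1 d.2 = true) a p (v x) ∧ p.length ≤ k) := by
    intro k
    induction k with
    | zero => exact fun a _ => ⟨fun h => ⟨[], by simpa [Wk] using h, le_rfl⟩, fun ⟨p, a, b⟩ => by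
        obtain rfl : p = [] := by simpa using b
        simpa [Wk] using a⟩
    | succ k ih =>
      intro a m
      rw [Function.iterate_succ_apply', List.mem_cons, List.mem_filter, dc_iff]
      refine ⟨?_, fun ⟨p, a, b⟩ => ?_⟩
      · rintro (h | ⟨-, b, c, e⟩)
        · exact ⟨[], h, by simp⟩
        · obtain ⟨p, f, g⟩ := (ih b (h1 x _ _ e m)).1 c
          exact ⟨(a, b) :: p, ⟨e, rfl, f⟩, by simpa⟩
      · cases p with
        | nil => exact .inl a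
        | cons d p =>
          obtain ⟨e, rfl, f⟩ := a
          exact .inr ⟨m, _, (ih _ (h1 x _ _ e m)).2 ⟨p, f, by simpa using b⟩, e⟩
  rw [b _ _ (h0 x)]
  have c : (fun a b => r x a b = true) = St Prod.fst Prod.snd fun d => r x d.1 d.2 = true := by
    ext a b; simp [St]
  beta_reduce
  rw [c, ← re_iff]
  refine ⟨fun ⟨p, a, _⟩ => ⟨p, a⟩, fun ⟨p, a⟩ => ?_⟩
  obtain ⟨p, -, a, n⟩ := a.path
  refine ⟨p, a, ?_⟩
  have : ∀ (p : List (β × β)) a, a ∈ N x →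
      Wk Prod.fst Prod.snd (fun d => r x d.1 d.2 = true) a p (v x) → p.map Prod.snd ⊆ N x := by
    intro p
    induction p with
    | nil => simp
    | cons d p ih =>
      rintro _ m ⟨e, rfl, f⟩
      have := h1 x _ _ e m
      simpa [this] using ih _ this f
  simpa using (n.of_cons.subperm (this p _ (h0 x) a)).length_le

variable [Inj β] {t h t2 h2 : α → β → ℕ} {S S2 : α → β → Prop} {DL : α → List β} {u v b c : α → ℕ}

theorem pt_re (hD : PT DL) (ht : PT fun y : α × β => t y.1 y.2) (hh : PT fun y : α × β => h y.1 y.2)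
    (hS : PT fun y : α × β => dc (S y.1 y.2)) (m : ∀ x d, S x d → d ∈ DL x) (hu : PT u)
    (hv : PT v) : PT fun x => dc (Re (t x) (h x) (S x) (u x) (v x)) := by
  obtain ⟨r, rfl⟩ : ∃ r : α → β → Bool, S = fun x a => r x a = true :=
    ⟨fun x a => dc (S x a), by simp⟩
  replace hS : PT fun y : α × β => r y.1 y.2 := hS.of_eq fun _ => (dc_eq .rfl).symm
  refine dc_of (pt_rtg (N := fun x => u x :: (DL x).map (h x))
    (R := fun x => St (t x) (h x) fun a => r x a = true) (by fun_prop) ?_ hu hv (by simp) ?_)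
    fun _ => re_iff.symm
  · refine dc_of (p := fun y : α × ℕ × ℕ => ∃ d ∈ DL y.1, r y.1 d = true ∧ t y.1 d = y.2.1 ∧
      h y.1 d = y.2.2) (by fun_prop) fun y => ⟨fun ⟨d, a⟩ => ⟨d, a.2⟩, fun ⟨d, a⟩ => ⟨d, m _ _ a.1, a⟩⟩
  · rintro x a _ ⟨d, e, -, rfl⟩ -
    exact List.mem_cons_of_mem _ (List.mem_map_of_mem (m x d e))

theorem pt_step {le : α → ℕ → ℕ → Prop} {I : α → ℕ → ℕ → ℕ → ℕ → Prop} {rv : β → β}
    (hD : PT DL) (ht : PT fun y : α × β => t y.1 y.2) (hh : PT fun y : α × β => h y.1 y.2)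
    (ht2 : PT fun y : α × β => t2 y.1 y.2) (hh2 : PT fun y : α × β => h2 y.1 y.2)
    (hS : PT fun y : α × β => dc (S y.1 y.2)) (m : ∀ x d, S x d → d ∈ DL x)
    (hS2 : PT fun y : α × β => dc (S2 y.1 y.2)) (m2 : ∀ x d, S2 x d → d ∈ DL x) (hr : PT rv)
    (hl : PT fun y : α × ℕ × ℕ => dc (le y.1 y.2.1 y.2.2))
    (hI : PT fun y : α × ℕ × ℕ × ℕ × ℕ => dc (I y.1 y.2.1 y.2.2.1 y.2.2.2.1 y.2.2.2.2))
    (hu : PT u) (hv : PT v) (hb : PT b) (hc : PT c) :
    PT fun x => dc (ReflTransGen (Step (t x) (h x) (t2 x) (h2 x) (S x) (S2 x)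
      (fun d e => e = rv d) (le x) (I x) (b x) (c x)) (u x, v x) (b x, c x)) := by
  obtain ⟨r, rfl⟩ : ∃ r : α → β → Bool, S = fun x a => r x a = true :=
    ⟨fun x a => dc (S x a), by simp⟩
  replace hS : PT fun y : α × β => r y.1 y.2 := hS.of_eq fun _ => (dc_eq .rfl).symm
  obtain ⟨r2, rfl⟩ : ∃ r : α → β → Bool, S2 = fun x a => r x a = true :=
    ⟨fun x a => dc (S2 x a), by simp⟩
  replace hS2 : PT fun y : α × β => r2 y.1 y.2 := hS2.of_eq fun _ => (dc_eq .rfl).symm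
  obtain ⟨l, rfl⟩ : ∃ r : α → ℕ → ℕ → Bool, le = fun x a b => r x a b = true :=
    ⟨fun x a b => dc (le x a b), by simp⟩
  replace hl : PT fun y : α × ℕ × ℕ => l y.1 y.2.1 y.2.2 := hl.of_eq fun _ => (dc_eq .rfl).symm
  obtain ⟨i, rfl⟩ : ∃ r : α → ℕ → ℕ → ℕ → ℕ → Bool, I = fun x a b c d => r x a b c d = true :=
    ⟨fun x a b c d => dc (I x a b c d), by simp⟩
  replace hI : PT fun y : α × ℕ × ℕ × ℕ × ℕ => i y.1 y.2.1 y.2.2.1 y.2.2.2.1 y.2.2.2.2 :=
    hI.of_eq fun _ => (dc_eq .rfl).symm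
  refine pt_rtg (N := fun x => (u x :: b x :: (DL x).map (h x)) ×ˢ
    (v x :: c x :: (DL x).map (h2 x))) (by fun_prop) ?_ (by fun_prop) (by fun_prop)
    (fun x => List.mem_product.2 (by simp)) ?_
  · have e1 : ∀ {t h : α → β → ℕ} {r : α → β → Bool}, (PT fun y : α × β => t y.1 y.2) →
        (PT fun y : α × β => h y.1 y.2) → (PT fun y : α × β => r y.1 y.2) →
        (∀ x d, r x d = true → d ∈ DL x) →
        PT fun y : α × ℕ × ℕ => dc (St (t y.1) (h y.1) (fun a => r y.1 a = true) y.2.1 y.2.2) :=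
      fun {t h r} _ _ _ m => dc_of (p := fun y : α × ℕ × ℕ => ∃ d ∈ DL y.1, r y.1 d = true ∧
        t y.1 d = y.2.1 ∧ h y.1 d = y.2.2) (by fun_prop)
        fun y => ⟨fun ⟨d, a⟩ => ⟨d, a.2⟩, fun ⟨d, a⟩ => ⟨d, m _ _ a.1, a⟩⟩
    have e2 : ∀ {t h : α → β → ℕ} {r : α → β → Bool} {b : α → ℕ}, (PT fun y : α × β => t y.1 y.2) →
        (PT fun y : α × β => h y.1 y.2) → (PT fun y : α × β => r y.1 y.2) → PT b →
        (∀ x d, r x d = true → d ∈ DL x) →
        PT fun y : α × ℕ × ℕ × List β => dc (Ex (t y.1) (h y.1) (fun a => r y.1 a = true)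
          (fun a b => l y.1 a b = true) (b y.1) y.2.1 y.2.2.1 y.2.2.2) :=
      fun {t h r b} _ _ _ _ m => dc_of (p := fun y : α × ℕ × ℕ × List β =>
        (y.2.2.2 = [] ∧ y.2.1 = b y.1 ∧ y.2.2.1 = b y.1) ∨ ∃ d ∈ DL y.1, y.2.2.2 = [d] ∧
        r y.1 d = true ∧ t y.1 d = y.2.1 ∧ h y.1 d = y.2.2.1 ∧ ¬ l y.1 y.2.2.1 y.2.1 = true)
        (by fun_prop) fun y => or_congr .rfl
          ⟨fun ⟨d, a⟩ => ⟨d, a.2⟩, fun ⟨d, a⟩ => ⟨d, m _ _ a.2.1, a⟩⟩
    have s1 := e1 ht hh hS m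
    have s2 := e1 ht2 hh2 hS2 m2
    have x1 := e2 ht hh hS hb m
    have x2 := e2 ht2 hh2 hS2 hc m2
    obtain ⟨s1', k1⟩ : ∃ f : α → ℕ → ℕ → Bool, ∀ x a b, f x a b =
      dc (St (t x) (h x) (fun a => r x a = true) a b) := ⟨_, fun _ _ _ => rfl⟩
    obtain ⟨s2', k2⟩ : ∃ f : α → ℕ → ℕ → Bool, ∀ x a b, f x a b =
      dc (St (t2 x) (h2 x) (fun a => r2 x a = true) a b) := ⟨_, fun _ _ _ => rfl⟩
    obtain ⟨x1', k3⟩ : ∃ f : α → ℕ → ℕ → List β → Bool, ∀ x a c o, f x a c o =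
      dc (Ex (t x) (h x) (fun a => r x a = true) (fun a b => l x a b = true) (b x) a c o) :=
      ⟨_, fun _ _ _ _ => rfl⟩
    obtain ⟨x2', k4⟩ : ∃ f : α → ℕ → ℕ → List β → Bool, ∀ x a b o, f x a b o =
      dc (Ex (t2 x) (h2 x) (fun a => r2 x a = true) (fun a b => l x a b = true) (c x) a b o) :=
      ⟨_, fun _ _ _ _ => rfl⟩
    simp only [← k1, ← k2, ← k3, ← k4] at s1 s2 x1 x2
    refine dc_of (p := fun y : α × (ℕ × ℕ) × (ℕ × ℕ) =>
      ((¬ l y.1 y.2.1.2 y.2.1.1 = true ∨ y.2.1.2 = c y.1) ∧ s1' y.1 y.2.1.1 y.2.2.1 = true ∧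
        y.2.2.2 = y.2.1.2) ∨
      ((¬ l y.1 y.2.1.1 y.2.1.2 = true ∨ y.2.1.1 = b y.1) ∧ s2' y.1 y.2.1.2 y.2.2.2 = true ∧
        y.2.2.1 = y.2.1.1) ∨
      (l y.1 y.2.1.1 y.2.1.2 = true ∧ l y.1 y.2.1.2 y.2.1.1 = true ∧
        ∃ x ∈ b y.1 :: (DL y.1).map (t y.1), ∃ z ∈ c y.1 :: (DL y.1).map (t2 y.1),
        ∃ o1 ∈ [] :: (DL y.1).map (fun d => [d]), ∃ o2 ∈ [] :: (DL y.1).map (fun d => [d]),
        l y.1 y.2.1.1 x = true ∧ l y.1 x y.2.1.1 = true ∧ l y.1 y.2.1.1 z = true ∧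
        l y.1 z y.2.1.1 = true ∧ i y.1 y.2.1.1 x y.2.1.2 z = true ∧
        x1' y.1 x y.2.2.1 o1 = true ∧ x2' y.1 z y.2.2.2 o2 = true ∧
        ∀ d ∈ o1, ∀ e ∈ o2, ¬ e = rv d)) (by fun_prop) fun y => ?_
    simp only [k1, k2, k3, k4, dc_iff, Step]
    refine or_congr .rfl (or_congr .rfl (and_congr .rfl (and_congr .rfl
      ⟨fun ⟨x, _, z, _, o1, _, o2, _, a⟩ => ⟨x, z, o1, o2, a⟩, fun ⟨x, z, o1, o2, a⟩ => ?_⟩)))
    have e3 : ∀ {t h : β → ℕ} {r : β → Bool} {b x w : ℕ} {o : List β},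
        (∀ d, r d = true → d ∈ DL y.1) →
        Ex t h (fun a => r a = true) (fun a b => l y.1 a b = true) b x w o →
        x ∈ b :: (DL y.1).map t ∧ o ∈ [] :: (DL y.1).map fun d => [d] := by
      rintro t h r b x w o m (⟨rfl, rfl, -⟩ | ⟨d, rfl, a, rfl, -⟩)
      · simp
      · exact ⟨List.mem_cons_of_mem _ (List.mem_map_of_mem (m d a)),
          List.mem_cons_of_mem _ (List.mem_map_of_mem (f := fun d => [d]) (m d a))⟩
    have f1 := e3 (m _) a.2.2.2.2.2.1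
    have f2 := e3 (m2 _) a.2.2.2.2.2.2.1
    exact ⟨x, f1.1, z, f2.1, o1, f1.2, o2, f2.2, a⟩
  · rintro x ⟨a1, a2⟩ ⟨b1, b2⟩ s k
    rw [List.mem_product] at k ⊢
    have g1 : ∀ d, r x d = true → h x d ∈ u x :: b x :: (DL x).map (h x) := fun d e =>
      List.mem_cons_of_mem _ (List.mem_cons_of_mem _ (List.mem_map_of_mem (m x d e)))
    have g2 : ∀ d, r2 x d = true → h2 x d ∈ v x :: c x :: (DL x).map (h2 x) := fun d e =>
      List.mem_cons_of_mem _ (List.mem_cons_of_mem _ (List.mem_map_of_mem (m2 x d e)))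
    rcases s with ⟨-, ⟨d, e, -, rfl⟩, rfl⟩ | ⟨-, ⟨d, e, -, rfl⟩, rfl⟩ |
      ⟨-, -, _, _, _, _, -, -, -, -, -, e1, e2, -⟩
    · exact ⟨g1 d e, k.2⟩
    · exact ⟨k.1, g2 d e⟩
    · constructor
      · rcases e1 with ⟨-, -, rfl⟩ | ⟨d, -, e, -, rfl, -⟩
        · simp
        · exact g1 d e
      · rcases e2 with ⟨-, -, rfl⟩ | ⟨d, -, e, -, rfl, -⟩
        · simp
        · exact g2 d e

end Pool.Agent.H23.Ori
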