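import Pool.Agent.H23.Ori3
import Pool.Agent.H25.Bn

set_option autoImplicit false

namespace Pool.Agent.H23.Ori
open Relation Pool.Agent.H11.PT Pool.Agent.H25.BN

section
variable {V D : Type} {t h : D → V} {G S : D → Prop} {w : D → ℕ} {s u v : V} {P : V → ℕ}
  {p : List D}

/-- `P` is the distance from `s` -/
structure Pot (t h : D → V) (G : D → Prop) (w : D → ℕ) (s : V) (P : V → ℕ) : Prop where
  le : ∀ p v, Wk t h G s p v → P v ≤ (p.map w).sum
  ex : ∀ v, Re t h G s v → ∃ p, Wk t h G s p v ∧ (p.map w).sum = P v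

def Ti (t h : D → V) (G : D → Prop) (w : D → ℕ) (s : V) (P : V → ℕ) (d : D) : Prop :=
  G d ∧ Re t h G s (t d) ∧ P (h d) = P (t d) + w d

theorem Pot.tri (i : Pot t h G w s P) (a : Re t h G s u) (b : Wk t h G u p v) :
    P v ≤ P u + (p.map w).sum := by
  obtain ⟨q, c, e⟩ := i.ex u a
  simpa [e] using i.le _ _ (c.app b)

theorem ti_sum (b : Wk t h (Ti t h G w s P) u p v) : P v = P u + (p.map w).sum := by
  induction p generalizing u with
  | nil => cases b; simp
  | cons d p ih => obtain ⟨a, rfl, c⟩ := b; have := a.2.2; have := ih c; simp; omega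

theorem Pot.ti (i : Pot t h G w s P) (a : Re t h G s u) (b : Wk t h G u p v)
    (e : P u + (p.map w).sum ≤ P v) : Wk t h (Ti t h G w s P) u p v := by
  induction p generalizing u with
  | nil => exact b
  | cons d p ih =>
    obtain ⟨c, rfl, f⟩ := b
    have a' := a.trans (.one c)
    have g1 := i.tri a (p := [d]) ⟨c, rfl, rfl⟩
    have g2 := i.tri a' f
    simp at e g1
    exact ⟨⟨c, a, by omega⟩, rfl, ih a' f (by omega)⟩

theorem Pot.zero (i : Pot t h G w s P) : P s = 0 := by simpa using i.le [] s rfl

theorem top {rv : D → D} {a b : V} {Q : V → ℕ} (i : Inv t h rv) (i1 : Pot t h G w a P)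
    (i2 : Pot t h G w b Q) (r1 : Re t h G a b) (r2 : Re t h G b a) :
    CW t h t h (Ti t h G w a P) (Ti t h G w b Q) (fun d e => e = rv d) a b b a ↔
      ReflTransGen (Step t h h t (Ti t h G w a P) (Ti t h G w b Q) (fun d e => e = rv d)
        (fun u v => P u + Q v ≤ P v + Q u) (fun x x' y y' => CW t h t h
          (fun d => Ti t h G w a P d ∧ Ti t h G w b Q d)
          (fun d => Ti t h G w a P d ∧ Ti t h G w b Q d) (fun d e => e = rv d) x x' y' y) b b)
        (a, a) (b, b) := by
  have sw : ∀ {A B : D → Prop} {x x' y y'}, CW t h t h A B (fun d e => e = rv d) x x' y' y ↔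
      CW t h h t A B (fun d e => e = rv d) x x' y y' :=
    ⟨fun ⟨p, q, a, b, c⟩ => ⟨p, _, a, b.rev, by simpa using c⟩,
      fun ⟨p, q, a, b, c⟩ => ⟨p, _, a, b.rev, by simpa using c⟩⟩
  have u1 : ∀ d, Ti t h G w a P d → Q (h d) ≤ Q (t d) + w d := fun d c => by
    simpa using i2.tri (r2.trans c.2.1) (p := [d]) ⟨c.1, rfl, rfl⟩
  have u2 : ∀ d, Ti t h G w b Q d → P (h d) ≤ P (t d) + w d := fun d c => by
    simpa using i1.tri (r1.trans c.2.1) (p := [d]) ⟨c.1, rfl, rfl⟩
  rw [sw]
  refine dp (le := fun u v => P u + Q v ≤ P v + Q u) (fun _ => le_rfl)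
    (fun _ _ _ a b => by beta_reduce at a b ⊢; omega) (fun d c => ?_) (fun d c => ?_) ?_
    (fun x x' y y' _ _ _ _ _ _ => ?_) _ _ _ _
  · have := u1 d c; have := c.2.2; omega
  · have := u2 d c; have := c.2.2; omega
  · rintro d _ - - rfl
    simp [i.tr, i.hr]
  · rw [sw]
    refine iff_of_eq (congrArg₂ (fun A B => CW t h h t A B _ x x' y y') ?_ ?_) <;> ext d
    · exact and_congr_right fun c => ⟨fun e => by have := c.2.2; have := e.2.2; omega,
        fun e => ⟨c.1, r2.trans c.2.1, by have := c.2.2; have := u1 d c; omega⟩⟩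
    · rw [and_comm]
      exact and_congr_right fun c => ⟨fun e => by have := c.2.2; have := e.2.2; omega,
        fun e => ⟨c.1, r1.trans c.2.1, by have := c.2.2; have := u2 d c; omega⟩⟩

end

section
variable {D : Type} (t h w : D → ℕ) (L : List D) (s B : ℕ)

/-- Bellman-Ford -/
def bf : ℕ → ℕ → ℕ
  | 0, v => if v = s then 0 else B
  | k + 1, v => L.foldl (fun c d => if h d = v then min c (bf k (t d) + w d) else c) (bf k v)

theorem fmin (g : D → ℕ) (v c : ℕ) :
    L.foldl (fun c d => if h d = v then min c (g d) else c) c ≤ c ∧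
    (∀ d ∈ L, h d = v → L.foldl (fun c d => if h d = v then min c (g d) else c) c ≤ g d) ∧
    (L.foldl (fun c d => if h d = v then min c (g d) else c) c = c ∨ ∃ d ∈ L, h d = v ∧
      L.foldl (fun c d => if h d = v then min c (g d) else c) c = g d) := by
  induction L generalizing c with
  | nil => simp
  | cons d L ih =>
    have := ih (if h d = v then min c (g d) else c)
    simp only [List.foldl_cons, List.forall_mem_cons, List.exists_mem_cons_iff]
    generalize L.foldl _ _ = r at *
    grind

theorem bf_le (k v : ℕ) : bf t h w L s B k v ≤ B := by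
  induction k with
  | zero => rw [bf]; split <;> omega
  | succ k ih => exact (fmin h L _ _ _).1.trans ih

theorem bf_pot (hB : L.length * (L.map w).sum < B) :
    Pot t h (· ∈ L) w s (bf t h w L s B L.length) := by
  have a : ∀ k v, bf t h w L s B k v < B →
      ∃ p, Wk t h (· ∈ L) s p v ∧ (p.map w).sum = bf t h w L s B k v := fun k => by
    induction k with
    | zero =>
      intro v; rw [bf]; split
      · exact fun _ => ⟨[], by simp [Wk, *]⟩
      · simp
    | succ k ih =>
      intro v
      rw [bf]
      rcases (fmin h L (fun d => bf t h w L s B k (t d) + w d) v (bf t h w L s B k v)).2.2 with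
        e | ⟨d, a, rfl, e⟩ <;> rw [e]
      · exact ih v
      · intro c
        obtain ⟨p, f, g⟩ := ih (t d) (by omega)
        exact ⟨p ++ [d], f.app ⟨a, rfl, rfl⟩, by simp [g]⟩
  have b : ∀ k (p : List D) v, Wk h t (· ∈ L) v p s → p.length ≤ k →
      bf t h w L s B k v ≤ (p.map w).sum := fun k => by
    induction k with
    | zero =>
      intro p v a b
      obtain rfl : p = [] := by simpa using b
      cases a; simp [bf]
    | succ k ih =>
      intro p v a b
      have := fmin h L (fun d => bf t h w L s B k (t d) + w d) v (bf t h w L s B k v)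
      rw [bf]
      cases p with
      | nil => exact this.1.trans (ih [] v a (by simp))
      | cons d p =>
        have := this.2.1 d a.1 a.2.1
        have := ih p _ a.2.2 (by simpa using b)
        simp; omega
  have c : ∀ p v, Wk t h (· ∈ L) s p v → bf t h w L s B L.length v ≤ (p.map w).sum ∧
      bf t h w L s B L.length v < B := fun p v a => by
    obtain ⟨q, c, e, f⟩ := a.path
    have g : q.length ≤ L.length := ((f.of_cons.of_map _).subperm e.mem).length_le
    have k := b _ _ _ e.rev (by simpa)
    rw [List.map_reverse, List.sum_reverse] at k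
    have := List.sum_le_card_nsmul (q.map w) (L.map w).sum fun x m => by
      obtain ⟨d, m', rfl⟩ := List.mem_map.1 m
      exact List.single_le_sum (by simp) _ (List.mem_map_of_mem (e.mem d m'))
    have := Nat.mul_le_mul_right (L.map w).sum g
    exact ⟨k.trans ((c.map w).sum_le_sum (by simp)), by simp at *; omega⟩
  exact ⟨fun p v e => (c p v e).1, fun v ⟨p, e⟩ => a _ v (c p v e).2⟩

end

variable {α β : Type} [Enc α] [Enc β]

def bmul (a b : Bn) : Bn := ⟨a.v * b.v⟩

@[fun_prop] theorem PT_bmul {f g : α → Bn} (hf : PT f) (hg : PT g) :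
    PT fun x => bmul (f x) (g x) := by
  have h : PT fun x => (g x).v.bits.foldr
      (fun b c => badd (badd c c) (bif b then f x else ⟨0⟩)) ⟨0⟩ :=
    PT.foldr_add (g := fun x b c => badd (badd c c) (bif b then f x else ⟨0⟩))
      (by fun_prop) (by fun_prop) (by fun_prop) (fun x _ => f x) 12 (by fun_prop) (fun x c b => by
        have h1 : (badd (badd c c) (bif b then f x else ⟨0⟩)).v ≤ 2 * c.v + (f x).v := by
          cases b <;> simp [badd] <;> omega
        have h2 : (2 * c.v + (f x).v).size ≤ c.v.size + (f x).v.size + 2 := by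
          rw [Nat.size_le, pow_add, pow_add]
          have h1 := Nat.lt_size_self c.v
          have h2 := Nat.lt_size_self (f x).v
          have h3 : 0 < 2 ^ c.v.size := by positivity
          have h4 : 0 < 2 ^ (f x).v.size := by positivity
          nlinarith
        have := Nat.size_le_size h1
        simp only [sz_bn]; omega)
  refine h.of_eq fun x => ?_
  have : ∀ l : List Bool, l.foldr (fun b c => badd (badd c c) (bif b then f x else ⟨0⟩)) ⟨0⟩ =
      ⟨(f x).v * bin l⟩ := by
    intro l
    induction l with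
    | nil => rfl
    | cons b l ih =>
      rw [List.foldr_cons, ih, bin_cons]
      cases b <;> simp [badd] <;> ring
  rw [this, bin_bits]; rfl

theorem PT_bprod {l : α → List β} {f : α → β → ℕ} (hl : PT l)
    (hf : PT fun y : α × β => Bn.mk (f y.1 y.2)) : PT fun x => Bn.mk ((l x).map (f x)).prod := by
  have h : PT fun x => (l x).foldl (fun c b => bmul c ⟨f x b⟩) ⟨1⟩ :=
    PT.foldl_add (g := fun x c b => bmul c ⟨f x b⟩) hl (by fun_prop)
      (PT_bmul (by fun_prop) (hf.comp (g := fun p : α × Bn × β => (p.1, p.2.2)) (by fun_prop)))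
      (fun x b => Bn.mk (f x b)) 0 hf fun x c b => by
        have : (c.v * f x b).size ≤ c.v.size + (f x b).size := by
          rw [Nat.size_le, pow_add]
          exact Nat.mul_lt_mul'' (Nat.lt_size_self _) (Nat.lt_size_self _)
        simp only [sz_bn, bmul]; omega
  refine h.of_eq fun x => ?_
  have : ∀ (L : List β) (c : Bn), L.foldl (fun c b => bmul c ⟨f x b⟩) c =
      ⟨c.v * (L.map (f x)).prod⟩ := by
    intro L
    induction L with
    | nil => intro c; simp
    | cons b L ih => intro c; rw [List.foldl_cons, ih]; simp [bmul, mul_assoc]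
  simp [this]

theorem pt_bf {t h w : α → β → ℕ} {L : α → List β} {s B k v : α → ℕ} (hL : PT L)
    (ht : PT fun y : α × β => t y.1 y.2) (hh : PT fun y : α × β => h y.1 y.2)
    (hw : PT fun y : α × β => Bn.mk (w y.1 y.2)) (hs : PT s) (hB : PT fun x => Bn.mk (B x))
    (hk : PT k) (hv : PT v) : PT fun x => Bn.mk (bf (t x) (h x) (w x) (L x) (s x) (B x) (k x) (v x)) := by
  obtain ⟨W, hW⟩ : ∃ W : α → β → Bn, ∀ x d, W x d = ⟨w x d⟩ := ⟨_, fun _ _ => rfl⟩
  obtain ⟨B', hB'⟩ : ∃ W : α → Bn, ∀ x, W x = ⟨B x⟩ := ⟨_, fun _ => rfl⟩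
  simp only [← hW, ← hB'] at hw hB
  obtain ⟨n, hn⟩ : ∃ n : α → ℕ, ∀ x, n x = v x + ((L x).map (t x)).sum + 1 := ⟨_, fun _ => rfl⟩
  have pn : PT n := (show PT fun x => v x + ((L x).map (t x)).sum + 1 by fun_prop).of_eq
    fun x => (hn x).symm
  let g := fun x (T : List Bn) (u : ℕ) (c : Bn) d => if h x d = u then
    bif ble c (badd (T.getD (t x d) ⟨0⟩) (W x d)) then c else badd (T.getD (t x d) ⟨0⟩) (W x d) else c
  have a : PT fun y : (α × List Bn) × ℕ => (L y.1.1).foldl (g y.1.1 y.1.2 y.2) (y.1.2.getD y.2 ⟨0⟩) :=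
    PT.foldl_add (g := fun y : (α × List Bn) × ℕ => g y.1.1 y.1.2 y.2) (by fun_prop) (by fun_prop)
      (by simp only [g]; fun_prop) (fun _ _ => ()) 0 (by fun_prop) fun y c d => by
        simp only [g]
        split
        · cases e : ble c _
          · exact (sz_mono (by simp [ble] at e ⊢; omega)).trans (by omega : sz c ≤ _)
          · simp
        · omega
  let T := fun x j => (List.range (n x)).map fun u =>
    Bn.mk (bf (t x) (h x) (w x) (L x) (s x) (B x) j u)
  have e1 : ∀ x j u, u < n x → (T x j).getD u ⟨0⟩ =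
      ⟨bf (t x) (h x) (w x) (L x) (s x) (B x) j u⟩ := fun x j u a => by
    rw [List.getD_eq_getElem _ _ (by simpa [T])]; simp [T]
  have e2 : ∀ x j, ((List.range (n x)).map fun u => (L x).foldl (g x (T x j) u)
      ((T x j).getD u ⟨0⟩)) = T x (j + 1) := fun x j => by
    refine List.map_congr_left fun u a => ?_
    rw [e1 _ _ _ (List.mem_range.1 a), bf]
    have : ∀ (M : List β) (c : ℕ), M ⊆ L x → M.foldl (g x (T x j) u) ⟨c⟩ = ⟨M.foldl (fun c d =>
        if h x d = u then min c (bf (t x) (h x) (w x) (L x) (s x) (B x) j (t x d) + w x d)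
        else c) c⟩ := fun M => by
      induction M with
      | nil => simp
      | cons d M ih =>
        intro c m
        simp only [List.foldl_cons, List.cons_subset] at m ⊢
        rw [← ih _ m.2]
        congr 1
        have := List.single_le_sum (l := (L x).map (t x)) (by simp) _ (List.mem_map_of_mem m.1)
        simp only [g, e1 x j (t x d) (by rw [hn]; omega), hW, ble, badd]
        split
        · rw [min_def]; split <;> simp [*]
        · rfl
    exact this _ _ (List.Subset.refl _)
  have b : PT fun x => (fun T : List Bn => (List.range (n x)).map fun u => (L x).foldl (g x T u)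
      (T.getD u ⟨0⟩))^[k x] ((List.range (n x)).map fun u => if u = s x then ⟨0⟩ else B' x) :=
    PT.iterate (g := fun x (T : List Bn) => (List.range (n x)).map fun u => (L x).foldl (g x T u)
      (T.getD u ⟨0⟩)) hk (by fun_prop) (PT.map (by fun_prop) a) (fun x S => ∃ j, S = T x j)
      (fun x => List.replicate (n x) (B' x)) (by fun_prop)
      (fun x => ⟨0, List.map_congr_left fun u _ => by rw [bf, hB']; split <;> rfl⟩)
      (by rintro x _ ⟨j, rfl⟩; exact ⟨_, e2 x j⟩) (by
        rintro x _ ⟨j, rfl⟩
        refine sz_list_le _ _ _ (by simp [T]) fun e m => ?_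
        obtain ⟨u, -, rfl⟩ := List.mem_map.1 m
        exact sz_mono (by rw [hB']; exact bf_le _ _ _ _ _ _ _ _))
  refine (PT.getD b hv (PT.const ⟨0⟩)).of_eq fun x => ?_
  rw [← e1 x (k x) (v x) (by rw [hn]; omega)]
  congr 1
  induction k x with
  | zero => exact List.map_congr_left fun u _ => by rw [bf, hB']; split <;> rfl
  | succ j ih => rw [Function.iterate_succ_apply', ih, e2]

end Pool.Agent.H23.Ori
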