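import Mathlib

set_option autoImplicit false

namespace Pool.Agent.H23.Ori

/-- `p` is the list of arcs of a walk from `x` to `y` that uses only arcs satisfying `S`;
`t d` and `h d` are the tail and the head of the arc `d` -/
def Wk {V D : Type} (t h : D → V) (S : D → Prop) : V → List D → V → Prop
  | x, [], y => x = y
  | x, d :: p, y => S d ∧ t d = x ∧ Wk t h S (h d) p y

end Pool.Agent.H23.Ori
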