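import Mathlib

namespace Pool.Agent.H23.ProD

open Filter Topology Function

section I
variable {K : Type} [TopologicalSpace K] [CompactSpace K]

open Classical in
noncomputable def ind {M : Type} (φ : LocallyConstant K M) (m : M) : LocallyConstant K ℤ :=
  φ.map fun y => if y = m then 1 else 0

noncomputable def I (μ : LocallyConstant K ℤ →ₗ[ℤ] ℤ) {M : Type} [AddCommGroup M]
    (φ : LocallyConstant K M) : M :=
  ∑ m ∈ φ.range_finite.toFinset, μ (ind φ m) • m

theorem I_map (μ : LocallyConstant K ℤ →ₗ[ℤ] ℤ) {M M' : Type} [AddCommGroup M] [AddCommGroup M']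
    (φ : LocallyConstant K M) (h : M →+ M') : I μ (φ.map h) = h (I μ φ) := by
  classical
  rw [I, I, map_sum, ← Finset.sum_fiberwise_of_maps_to (s := φ.range_finite.toFinset)
    (t := (φ.map h).range_finite.toFinset) (g := h) (by
      simp only [Set.Finite.mem_toFinset]
      rintro _ ⟨x, rfl⟩; exact ⟨x, rfl⟩)]
  refine Finset.sum_congr rfl fun m' _ => ?_
  have : ind (φ.map h) m' = ∑ m ∈ φ.range_finite.toFinset with h m = m', ind φ m := by
    ext x
    rw [← LocallyConstant.evalₗ_apply ℤ, ← LocallyConstant.evalₗ_apply ℤ, map_sum]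
    simp [ind]
  rw [this, map_sum, Finset.sum_smul]
  refine Finset.sum_congr rfl fun m hm => ?_
  rw [map_zsmul, (Finset.mem_filter.1 hm).2]

theorem I_int (μ : LocallyConstant K ℤ →ₗ[ℤ] ℤ) (φ : LocallyConstant K ℤ) : I μ φ = μ φ := by
  have : φ = ∑ m ∈ φ.range_finite.toFinset, m • ind φ m := by
    ext x
    rw [← LocallyConstant.evalₗ_apply ℤ, ← LocallyConstant.evalₗ_apply ℤ, map_sum]
    simp only [map_zsmul]
    simp [ind]
  conv_rhs => rw [this, map_sum]
  simp only [I, map_zsmul, smul_eq_mul, mul_comm]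

end I

theorem unbounded {C ι A : Type} [AddCommGroup C] (b : Module.Basis ι ℤ C) (r : A → C)
    (N : A → ℕ) (h : ∀ S : Finset ι, ∃ a, ∃ i ∉ S, b.repr (r a) i ≠ 0) :
    ∃ μ : C →ₗ[ℤ] ℤ, ∀ k : ℕ, ∃ a, (k * N a : ℤ) < |μ (r a)| := by
  classical
  have step : ∀ (k : ℕ) (p : Finset ι × (ι → ℤ)), ∃ (q : Finset ι × (ι → ℤ)) (a : A), p.1 ⊆ q.1 ∧
      (∀ i ∈ p.1, q.2 i = p.2 i) ∧ (b.repr (r a)).support ⊆ q.1 ∧
      (k * N a : ℤ) < |b.constr ℤ q.2 (r a)| := by
    rintro k ⟨S, ν⟩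
    obtain ⟨a, i, hi, ha⟩ := h S
    refine ⟨(S ∪ (b.repr (r a)).support,
      ν + Pi.single i (b.repr (r a) i * (k * N a + |b.constr ℤ ν (r a)| + 1))), a,
      Finset.subset_union_left, fun j hj => ?_, Finset.subset_union_right, ?_⟩
    · simp [Pi.single_eq_of_ne (show j ≠ i from fun e => hi (e ▸ hj))]
    · have e : ∀ w : ℤ, b.constr ℤ (Pi.single i w : ι → ℤ) (r a) = b.repr (r a) i * w := fun w => by
        rw [Module.Basis.constr_apply, Finsupp.sum, Finset.sum_eq_single i] <;>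
          simp +contextual
      rw [map_add, LinearMap.add_apply, e]
      refine lt_of_lt_of_le ?_ (le_abs_self _)
      have h1 : 1 ≤ b.repr (r a) i * b.repr (r a) i := Int.add_one_le_of_lt (mul_self_pos.2 ha)
      have h2 := neg_abs_le (b.constr ℤ ν (r a))
      have h3 : (0 : ℤ) ≤ k * N a + |b.constr ℤ ν (r a)| + 1 := by positivity
      nlinarith
  choose f a f1 f2 f3 f4 using step
  let s : ℕ → Finset ι × (ι → ℤ) := fun n => Nat.rec (∅, 0) f n
  have ag : ∀ k m, k ≤ m → (s k).1 ⊆ (s m).1 ∧ ∀ i ∈ (s k).1, (s m).2 i = (s k).2 i := by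
    intro k m hkm
    induction hkm with
    | refl => exact ⟨le_rfl, fun _ _ => rfl⟩
    | step _ ih => exact ⟨ih.1.trans (f1 _ _), fun i hi => (f2 _ _ i (ih.1 hi)).trans (ih.2 i hi)⟩
  let ν : ι → ℤ := fun i => if h : ∃ k, i ∈ (s k).1 then (s h.choose).2 i else 0
  have hν : ∀ k, ∀ i ∈ (s k).1, ν i = (s k).2 i := by
    intro k i hi
    have h : ∃ k, i ∈ (s k).1 := ⟨k, hi⟩
    simp only [ν, dif_pos h]
    rw [← (ag _ _ (le_max_left h.choose k)).2 i h.choose_spec, (ag _ _ (le_max_right _ k)).2 i hi]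
  refine ⟨b.constr ℤ ν, fun k => ⟨a k (s k), ?_⟩⟩
  convert f4 k (s k) using 2
  rw [Module.Basis.constr_apply, Module.Basis.constr_apply]
  exact Finsupp.sum_congr fun i hi => by rw [hν (k + 1) i (f3 k _ hi)]

variable {G : Type} [AddCommGroup G] [UniformSpace G] [IsUniformAddGroup G]

noncomputable def q (K : Set G) (U : OpenAddSubgroup G) :
    LocallyConstant K (G ⧸ (U : AddSubgroup G)) :=
  ⟨fun x => QuotientAddGroup.mk x.1, (IsLocallyConstant.iff_continuous _).2
    (QuotientAddGroup.continuous_mk.comp continuous_subtype_val)⟩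

theorem kill [CompleteSpace G]
    (h1 : ∀ s ∈ nhds (0 : G), ∃ U : AddSubgroup G, IsOpen (U : Set G) ∧ (U : Set G) ⊆ s)
    {K : Set G} (hK : IsCompact K) (hc : AddSubgroup.closure K = ⊤)
    (h3 : ∀ H : AddSubgroup G, IsCompact (H : Set G) → H = ⊥) {x : G}
    (hx : ∀ a : G →L[ℤ] ℤ, a x = 0) : x = 0 := by
  have tb : TotallyBounded (AddSubgroup.zmultiples x : Set G) := by
    rw [totallyBounded_iff_subset_finite_iUnion_nhds_zero]
    intro s hs
    obtain ⟨U, hU, hs⟩ := h1 s hs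
    have : DiscreteTopology (G ⧸ U) := QuotientAddGroup.discreteTopology hU
    have fin : Module.Finite ℤ (G ⧸ U) := by
      refine Module.Finite.iff_addGroup_fg.2 (AddGroup.fg_iff.2 ⟨QuotientAddGroup.mk' U '' K, ?_,
        (hK.image QuotientAddGroup.continuous_mk).finite_of_discrete⟩)
      rw [← AddMonoidHom.map_closure, hc]
      exact AddSubgroup.map_top_of_surjective _ (QuotientAddGroup.mk'_surjective U)
    have tor : (QuotientAddGroup.mk x : G ⧸ U) ∈ Submodule.torsion ℤ (G ⧸ U) := by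
      by_contra hn
      obtain ⟨φ, hφ⟩ := Module.Projective.exists_dual_ne_zero ℤ
        (mt (Submodule.Quotient.mk_eq_zero _).1 hn)
      let ψ := φ.comp (Submodule.torsion ℤ (G ⧸ U)).mkQ
      exact hφ (hx ⟨ψ.comp (QuotientAddGroup.mk' U).toIntLinearMap,
        (continuous_of_discreteTopology (f := ψ)).comp QuotientAddGroup.continuous_mk⟩)
    obtain ⟨⟨n, hn⟩, e⟩ := tor
    have n0 : n ≠ 0 := nonZeroDivisors.ne_zero hn
    have hm : n • x ∈ U := (QuotientAddGroup.eq_zero_iff _).1 e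
    refine ⟨(fun k : ℤ => k • x) '' Set.Ico 0 |n|, (Set.finite_Ico _ _).image _, ?_⟩
    rintro _ ⟨k, rfl⟩
    simp only [Set.mem_iUnion]
    refine ⟨_, ⟨k % n, ⟨Int.emod_nonneg _ n0, Int.emod_lt_abs _ n0⟩, rfl⟩, _,
      hs (U.zsmul_mem hm (k / n)), ?_⟩
    simp only [vadd_eq_add, smul_smul, ← add_smul, Int.emod_add_ediv_mul]
  have := h3 (AddSubgroup.zmultiples x).topologicalClosure
    (tb.closure.isCompact_of_isClosed isClosed_closure)
  exact AddSubgroup.mem_bot.1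
    (this ▸ AddSubgroup.le_topologicalClosure _ (AddSubgroup.mem_zmultiples x))

noncomputable def res (K : Set G) : (G →L[ℤ] ℤ) →ₗ[ℤ] LocallyConstant K ℤ where
  toFun a := ⟨fun x => a x.1, (IsLocallyConstant.iff_continuous _).2
    (a.continuous.comp continuous_subtype_val)⟩
  map_add' _ _ := rfl
  map_smul' _ _ := rfl

theorem integ [CompleteSpace G]
    (h1 : ∀ s ∈ nhds (0 : G), ∃ U : AddSubgroup G, IsOpen (U : Set G) ∧ (U : Set G) ⊆ s)
    (K : Set G) [CompactSpace K] (μ : LocallyConstant K ℤ →ₗ[ℤ] ℤ) :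
    ∃ g : G, ∀ a : G →L[ℤ] ℤ, a g = μ (res K a) := by
  let S : OpenAddSubgroup G → Set G := fun U => {g | QuotientAddGroup.mk g = I μ (q K U)}
  have mono : ∀ U V : OpenAddSubgroup G, U ≤ V → S U ⊆ S V := by
    intro U V h g (hg : _ = _)
    have := I_map μ (q K U) (QuotientAddGroup.map (U : AddSubgroup G) (V : AddSubgroup G)
      (AddMonoidHom.id G) (fun _ hx => h hx))
    rw [← hg] at this
    exact this.symm
  have dir : Directed (· ≥ ·) fun U => 𝓟 (S U) := fun U V =>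
    ⟨U ⊓ V, principal_mono.2 (mono _ _ inf_le_left), principal_mono.2 (mono _ _ inf_le_right)⟩
  have : Nonempty (OpenAddSubgroup G) := ⟨⊤⟩
  have ne : (⨅ U, 𝓟 (S U)).NeBot := iInf_neBot_of_directed' dir fun U =>
    principal_neBot_iff.2 (QuotientAddGroup.mk_surjective _)
  have mem : ∀ U, S U ∈ ⨅ U, 𝓟 (S U) := fun U => mem_iInf_of_mem U (mem_principal_self _)
  have cau : Cauchy (⨅ U, 𝓟 (S U)) := by
    rw [IsUniformAddGroup.cauchy_iff_tendsto_swapped]
    refine ⟨ne, fun s hs => ?_⟩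
    obtain ⟨U, hU, hs⟩ := h1 s hs
    refine mem_map.2 (mem_of_superset (prod_mem_prod (mem ⟨U, hU⟩) (mem ⟨U, hU⟩)) ?_)
    rintro ⟨x, y⟩ ⟨hx : _ = _, hy : _ = _⟩
    exact hs (QuotientAddGroup.eq_iff_sub_mem.1 (hy.trans hx.symm))
  obtain ⟨g, hg⟩ := CompleteSpace.complete cau
  refine ⟨g, fun a => ?_⟩
  let U : OpenAddSubgroup G := ⟨a.toLinearMap.toAddMonoidHom.ker,
    (isOpen_discrete {0}).preimage a.continuous⟩
  have : DiscreteTopology (G ⧸ (U : AddSubgroup G)) := QuotientAddGroup.discreteTopology U.isOpen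
  have : g ∈ S U := ((isClosed_discrete {I μ (q K U)}).preimage
    QuotientAddGroup.continuous_mk).mem_of_tendsto (b := ⨅ U, 𝓟 (S U)) (f := id) hg (mem U)
  have e := I_map μ (q K U) (QuotientAddGroup.lift _ a.toLinearMap.toAddMonoidHom le_rfl)
  rw [← show _ = I μ (q K U) from this, I_int] at e
  exact e.symm

theorem main (G : Type) [AddCommGroup G] [UniformSpace G] [IsUniformAddGroup G]
    [T2Space G] [CompleteSpace G]
    (h1 : ∀ s ∈ nhds (0 : G), ∃ U : AddSubgroup G, IsOpen (U : Set G) ∧ (U : Set G) ⊆ s)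
    (h2 : ∃ K : Set G, IsCompact K ∧ AddSubgroup.closure K = ⊤)
    (h3 : ∀ H : AddSubgroup G, IsCompact (H : Set G) → H = ⊥) :
    DiscreteTopology G ∧ ∃ n : ℕ, Nonempty (G ≃+ (Fin n → ℤ)) := by
  classical
  obtain ⟨K, hK, hc⟩ := h2
  have : CompactSpace K := isCompact_iff_compactSpace.1 hK
  have : NonarchimedeanAddGroup G := ⟨fun s hs => by
    obtain ⟨U, hU, hs⟩ := h1 s hs; exact ⟨⟨U, hU⟩, hs⟩⟩
  have : Module.Free ℤ (LocallyConstant K ℤ) := LocallyConstant.freeOfProfinite (Profinite.of K)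
  let b := Module.Free.chooseBasis ℤ (LocallyConstant K ℤ)
  have bd : ∀ a : G →L[ℤ] ℤ, ∃ N : ℕ, ∀ x ∈ K, |a x| ≤ N := fun a => by
    obtain ⟨N, hN⟩ := (hK.image (continuous_abs.comp a.continuous)).bddAbove
    exact ⟨N.toNat, fun x hx => (hN ⟨x, hx, rfl⟩).trans (Int.self_le_toNat N)⟩
  choose N hN using bd
  have bg : ∀ g : G, ∃ n : ℕ, ∀ a : G →L[ℤ] ℤ, |a g| ≤ n * N a := fun g => by
    refine AddSubgroup.closure_induction (k := K)
      (p := fun g _ => ∃ n : ℕ, ∀ a : G →L[ℤ] ℤ, |a g| ≤ n * N a)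
      (fun x hx => ⟨1, fun a => by simpa using hN a x hx⟩) ⟨0, by simp⟩ ?_
      (fun x _ ⟨n, h⟩ => ⟨n, by simpa using h⟩) (hc ▸ AddSubgroup.mem_top g)
    rintro x y _ _ ⟨n, h⟩ ⟨m, h'⟩
    refine ⟨n + m, fun a => ?_⟩
    rw [map_add, Nat.cast_add, add_mul]
    exact (abs_add_le _ _).trans (add_le_add (h a) (h' a))
  obtain ⟨S, hS⟩ : ∃ S : Finset _, ∀ a, ∀ i ∉ S, b.repr (res K a) i = 0 := by
    by_contra h
    push Not at h
    obtain ⟨μ, hμ⟩ := unbounded b (res K) N h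
    obtain ⟨g, hg⟩ := integ h1 K μ
    obtain ⟨n, hn⟩ := bg g
    obtain ⟨a, ha⟩ := hμ n
    exact (hn a).not_gt (hg a ▸ ha)
  have fin : Module.Finite ℤ (G →L[ℤ] ℤ) := by
    refine Module.Finite.of_injective (N := S → ℤ)
      (LinearMap.pi fun i => (b.coord i.1).comp (res K)) ?_
    rw [injective_iff_map_eq_zero]
    intro a ha
    have : res K a = 0 := b.repr.map_eq_zero_iff.1 (Finsupp.ext fun i => by
      by_cases hi : i ∈ S
      exacts [congrFun ha ⟨i, hi⟩, hS a i hi])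
    ext g
    have h : AddSubgroup.closure K ≤ a.toLinearMap.toAddMonoidHom.ker :=
      (AddSubgroup.closure_le _).2 fun x hx =>
        show a x = 0 from DFunLike.congr_fun this (⟨x, hx⟩ : K)
    exact h (hc ▸ AddSubgroup.mem_top g)
  obtain ⟨T, hT⟩ := fin.fg_top
  have disc : DiscreteTopology G := by
    refine discreteTopology_of_isOpen_singleton_zero ?_
    convert isOpen_biInter_finset (s := T) (f := fun a : G →L[ℤ] ℤ => a ⁻¹' {0})
      fun a _ => (isOpen_discrete {0}).preimage a.continuous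
    ext x
    simp only [Set.mem_singleton_iff, Set.mem_iInter, Set.mem_preimage]
    refine ⟨fun h a _ => by simp [h], fun h => kill h1 hK hc h3 fun a => ?_⟩
    have ha : a ∈ Submodule.span ℤ (T : Set (G →L[ℤ] ℤ)) := by rw [hT]; trivial
    refine Submodule.span_induction (p := fun (a : G →L[ℤ] ℤ) _ => a x = 0) h rfl ?_ ?_ ha
    · intro a b _ _ h h'; simp [h, h']
    · intro c a _ h; simp [h]
  have : Module.Finite ℤ G :=
    Module.Finite.iff_addGroup_fg.2 (AddGroup.fg_iff.2 ⟨K, hc, hK.finite_of_discrete⟩)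
  have : NoZeroSMulDivisors ℤ G := ⟨fun {c x} h => or_iff_not_imp_left.2 fun hc' =>
    kill h1 hK hc h3 fun a => by simpa [hc'] using congrArg a h⟩
  exact ⟨disc, _, ⟨(Module.finBasis ℤ G).equivFun.toAddEquiv⟩⟩

end Pool.Agent.H23.ProD
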