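import Mathlib
import Pool.Agent.H23.CTools

namespace Pool.Agent.H23.QM
open Nat.Partrec (Code)
open Nat.Partrec.Code Denumerable

abbrev Tb := List ℕ × List ℕ

def col (n : ℕ) : ℕ := n.unpair.1
def vS (s n : ℕ) : ℕ := (evaln s (ofNat Code (col n)) n).getD 0 + 1
def cv (s n : ℕ) : Bool := (evaln s (ofNat Code (col n)) n).isSome
def ev (t e w : ℕ) : ℕ := (evaln t (ofNat Code e.unpair.1) w).getD 0
def sg (e : ℕ) : List ℕ := ofNat (List ℕ) e.unpair.2
def lw (w : ℕ) : List ℕ := ofNat (List ℕ) w.unpair.2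
def lv (T : Tb) (n : ℕ) : ℕ := bif Nat.blt n T.1.length then T.1.getD n 0 else col n + 1
def uu (T : Tb) (e : ℕ) : ℕ := T.2.getD e 0
def okp (s : ℕ) (T : Tb) (e j n k : ℕ) : Bool :=
  bif Nat.blt n (sg e).length then Nat.ble ((sg e).getD n 0) k
  else (!(Nat.ble (lv T n) j && Nat.ble (lv T n) (col n)) || Nat.ble (vS s n) k)
def ok (s : ℕ) (T : Tb) (e j w : ℕ) : Bool :=
  (lw w).all fun a => a == 0 || okp s T e j (a - 1).unpair.1 (a - 1).unpair.2
def dis (s : ℕ) (T : Tb) (t e : ℕ) : Bool :=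
  (List.range t).any fun w => (List.range t).any fun w' =>
    w.unpair.1 == w'.unpair.1 && ok s T e e w && ok s T e e w' && !(ev t e w == 0) &&
      !(ev t e w' == 0) && !(ev t e w == ev t e w')
def sup (s : ℕ) (T : Tb) (e : ℕ) : Bool :=
  (List.range (uu T e)).all fun x => (List.range s).any fun w =>
    w.unpair.1 == x && ok s T e (e + 1) w && !(ev s e w == 0)
def ex (s : ℕ) (T : Tb) (e : ℕ) : Bool := !dis s T s e && sup s T e
def nU (s : ℕ) (T : Tb) (e : ℕ) : ℕ :=
  bif dis s T (uu T e) e then uu T e else bif dis s T s e || sup s T e then s else uu T e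
def nL (s : ℕ) (T : Tb) (n : ℕ) : ℕ :=
  bif lv T n == col n + 1 then
    (bif cv s n && (List.range s).all fun m => !(col m == col n && lv T m == 0) then col n
      else lv T n)
  else bif ex s T (lv T n - 1) || Nat.ble (nU s T (lv T n - 1)) n then lv T n - 1 else lv T n
def St (s : ℕ) : Tb :=
  Nat.rec ([], []) (fun s T => ((List.range (s + 1)).map (nL s T), (List.range (s + 1)).map (nU s T))) s

section
variable {α : Type} [Primcodable α] {s t e j n k w : α → ℕ} {T : α → Tb}
@[fun_prop] theorem col_p (h : Primrec n) : Primrec fun a => col (n a) := by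
  unfold col; fun_prop
@[fun_prop] theorem vS_p (h : Primrec s) (h' : Primrec n) : Primrec fun a => vS (s a) (n a) := by
  unfold vS; fun_prop
@[fun_prop] theorem cv_p (h : Primrec s) (h' : Primrec n) : Primrec fun a => cv (s a) (n a) := by
  unfold cv; fun_prop
@[fun_prop] theorem ev_p (h : Primrec t) (h' : Primrec e) (h2 : Primrec w) :
    Primrec fun a => ev (t a) (e a) (w a) := by
  unfold ev; fun_prop
@[fun_prop] theorem sg_p (h : Primrec e) : Primrec fun a => sg (e a) := by
  unfold sg; fun_prop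
@[fun_prop] theorem lw_p (h : Primrec e) : Primrec fun a => lw (e a) := by
  unfold lw; fun_prop
@[fun_prop] theorem lv_p (h : Primrec T) (h' : Primrec n) : Primrec fun a => lv (T a) (n a) := by
  unfold lv; fun_prop
@[fun_prop] theorem uu_p (h : Primrec T) (h' : Primrec n) : Primrec fun a => uu (T a) (n a) := by
  unfold uu; fun_prop
@[fun_prop] theorem okp_p (h1 : Primrec s) (h2 : Primrec T) (h3 : Primrec e) (h4 : Primrec j)
    (h5 : Primrec n) (h6 : Primrec k) :
    Primrec fun a => okp (s a) (T a) (e a) (j a) (n a) (k a) := by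
  unfold okp; fun_prop
@[fun_prop] theorem ok_p (h1 : Primrec s) (h2 : Primrec T) (h3 : Primrec e) (h4 : Primrec j)
    (h5 : Primrec w) : Primrec fun a => ok (s a) (T a) (e a) (j a) (w a) := by
  unfold ok; fun_prop
@[fun_prop] theorem dis_p (h1 : Primrec s) (h2 : Primrec T) (h3 : Primrec t) (h4 : Primrec e) :
    Primrec fun a => dis (s a) (T a) (t a) (e a) := by
  unfold dis; fun_prop
@[fun_prop] theorem sup_p (h1 : Primrec s) (h2 : Primrec T) (h4 : Primrec e) :
    Primrec fun a => sup (s a) (T a) (e a) := by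
  unfold sup; fun_prop
@[fun_prop] theorem ex_p (h1 : Primrec s) (h2 : Primrec T) (h4 : Primrec e) :
    Primrec fun a => ex (s a) (T a) (e a) := by
  unfold ex; fun_prop
@[fun_prop] theorem nU_p (h1 : Primrec s) (h2 : Primrec T) (h4 : Primrec e) :
    Primrec fun a => nU (s a) (T a) (e a) := by
  unfold nU; fun_prop
@[fun_prop] theorem nL_p (h1 : Primrec s) (h2 : Primrec T) (h4 : Primrec e) :
    Primrec fun a => nL (s a) (T a) (e a) := by
  unfold nL; fun_prop
@[fun_prop] theorem St_p (h1 : Primrec s) : Primrec fun a => St (s a) := by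
  unfold St; fun_prop
end

def L (s n : ℕ) : ℕ := lv (St s) n
def U (s e : ℕ) : ℕ := uu (St s) e
def In (s j n : ℕ) : Prop := L s n ≤ j ∧ L s n ≤ col n
def OK (s e j w : ℕ) : Prop := ok s (St s) e j w = true
def Dis (s t e : ℕ) : Prop := dis s (St s) t e = true
def Ex (s e : ℕ) : Prop := ex s (St s) e = true

theorem cv_lt {s n : ℕ} (h : cv s n = true) : n < s := by
  obtain ⟨x, hx⟩ := Option.isSome_iff_exists.1 h
  exact evaln_bound hx

theorem ev_lt {t e w : ℕ} (h : ev t e w ≠ 0) : w < t := by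
  unfold ev at h
  cases h' : evaln t (ofNat Code e.unpair.1) w with
  | none => simp [h'] at h
  | some x => exact evaln_bound h'

theorem ev_mono {t t' e w : ℕ} (h : ev t e w ≠ 0) (ht : t ≤ t') : ev t' e w = ev t e w := by
  unfold ev at h ⊢
  cases h' : evaln t (ofNat Code e.unpair.1) w with
  | none => simp [h'] at h
  | some x => rw [show evaln t' _ w = some x from evaln_mono ht h']

theorem L_big (s n : ℕ) (h : s ≤ n) : L s n = col n + 1 := by
  cases s with
  | zero => rfl
  | succ s => simp [L, lv, St, cond_eq_ite, Nat.blt_eq, h.not_gt]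

theorem L_succ (s n : ℕ) : L (s + 1) n = nL s (St s) n := by
  by_cases h : n < s + 1
  · simp [L, lv, St, cond_eq_ite, Nat.blt_eq, h, List.getD_eq_getElem?_getD]
  · have h1 : lv (St s) n = col n + 1 := L_big s n (by omega)
    have h2 : cv s n = false := Bool.eq_false_iff.2 fun k => by have := cv_lt k; omega
    rw [L_big _ _ (by omega)]
    simp [nL, h1, h2]

theorem U_succ {s e : ℕ} (h : e ≤ s) : U (s + 1) e = nU s (St s) e := by
  simp [U, uu, St, Nat.lt_succ_of_le h, List.getD_eq_getElem?_getD]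

theorem U_le (s e : ℕ) : U s e ≤ s := by
  induction s with
  | zero => simp [U, uu, St]
  | succ s ih =>
    by_cases h : e ≤ s
    · rw [U_succ h, nU]
      change (bif _ then U s e else bif _ then s else U s e) ≤ _
      cases dis s (St s) (uu (St s) e) e <;> cases (dis s (St s) s e || sup s (St s) e) <;>
        simp <;> omega
    · rw [U, uu, List.getD_eq_default]
      · simp
      · simp [St]; omega

theorem OK_iff {s e j w : ℕ} : OK s e j w ↔ ∀ a, a + 1 ∈ lw w →
    if a.unpair.1 < (sg e).length then (sg e).getD a.unpair.1 0 ≤ a.unpair.2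
    else In s j a.unpair.1 → vS s a.unpair.1 ≤ a.unpair.2 := by
  have : ∀ n k, okp s (St s) e j n k = true ↔ if n < (sg e).length then (sg e).getD n 0 ≤ k
      else In s j n → vS s n ≤ k := fun n k => by
    by_cases h : n < (sg e).length
    · simp [okp, h, cond_eq_ite, Nat.blt_eq]
    · simp only [okp, h, cond_eq_ite, Nat.blt_eq, In, L, if_false, Bool.or_eq_true,
        Bool.not_eq_true', ← Bool.not_eq_true, Bool.and_eq_true, Nat.ble_eq]
      tauto
  simp only [OK, ok, List.all_eq_true, Bool.or_eq_true, beq_iff_eq, this]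
  refine ⟨fun h a ha => by simpa using h _ ha, fun h a ha => ?_⟩
  cases a with
  | zero => exact .inl rfl
  | succ a => exact .inr (h a ha)

theorem Dis_iff {s t e : ℕ} : Dis s t e ↔ ∃ w w', w.unpair.1 = w'.unpair.1 ∧ OK s e e w ∧
    OK s e e w' ∧ ev t e w ≠ 0 ∧ ev t e w' ≠ 0 ∧ ev t e w ≠ ev t e w' := by
  simp only [Dis, dis, OK, List.any_eq_true, List.mem_range, Bool.and_eq_true, beq_iff_eq,
    Bool.not_eq_true', beq_eq_false_iff_ne]
  exact ⟨fun ⟨w, _, w', _, h⟩ => ⟨w, w', by tauto⟩,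
    fun ⟨w, w', h⟩ => ⟨w, ev_lt h.2.2.2.1, w', ev_lt h.2.2.2.2.1, by tauto⟩⟩

theorem Ex_iff {s e : ℕ} : Ex s e ↔ ¬ Dis s s e ∧
    ∀ x < U s e, ∃ w, w.unpair.1 = x ∧ OK s e (e + 1) w ∧ ev s e w ≠ 0 := by
  simp only [Ex, ex, Dis, sup, OK, U, List.any_eq_true, List.all_eq_true, List.mem_range,
    Bool.and_eq_true, beq_iff_eq, Bool.not_eq_true', beq_eq_false_iff_ne, Bool.not_eq_true]
  exact and_congr_right fun _ => forall₂_congr fun x _ => ⟨fun ⟨w, _, h⟩ => ⟨w, by tauto⟩,
    fun ⟨w, h⟩ => ⟨w, ev_lt h.2.2, by tauto⟩⟩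

theorem Dis.mono {s t t' e : ℕ} (h : Dis s t e) (ht : t ≤ t') : Dis s t' e := by
  obtain ⟨w, w', h1, h2, h3, h4, h5, h6⟩ := Dis_iff.1 h
  exact Dis_iff.2 ⟨w, w', h1, h2, h3, by rwa [ev_mono h4 ht], by rwa [ev_mono h5 ht],
    by rwa [ev_mono h4 ht, ev_mono h5 ht]⟩

open Classical in
theorem U_eq {s e : ℕ} (h : e ≤ s) : U (s + 1) e =
    if ¬ Dis s (U s e) e ∧ (Dis s s e ∨ Ex s e) then s else U s e := by
  rw [U_succ h, nU]
  simp only [Dis, Ex, ex, U]
  cases dis s (St s) (uu (St s) e) e <;> cases dis s (St s) s e <;> cases sup s (St s) e <;> simp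

open Classical in
theorem L_eq (s n : ℕ) : L (s + 1) n = if L s n = col n + 1 then
    (if cv s n = true ∧ ∀ m < s, col m = col n → L s m ≠ 0 then col n else L s n)
    else if Ex s (L s n - 1) ∨ nU s (St s) (L s n - 1) ≤ n then L s n - 1 else L s n := by
  rw [L_succ, nL]
  simp [L, Ex, cond_eq_ite, Nat.ble_eq, imp_iff_not_or]

end Pool.Agent.H23.QM
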