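import Mathlib
import Pool.Agent.H23.QM1

namespace Pool.Agent.H23.QM
open Nat.Partrec (Code)
open Nat.Partrec.Code Denumerable

theorem L_le (s n : ℕ) : L s n ≤ col n + 1 := by
  induction s with
  | zero => exact le_rfl
  | succ s ih => rw [L_eq]; split_ifs <;> omega

theorem L_anti (n : ℕ) {s t : ℕ} (h : s ≤ t) : L t n ≤ L s n :=
  antitone_nat_of_succ_le (f := fun s => L s n) (fun s => by
    simp only [L_eq]; split_ifs <;> omega) h

theorem L_step (s n : ℕ) : L s n ≤ L (s + 1) n + 1 := by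
  rw [L_eq]; split_ifs <;> omega

theorem cv_mono {s t n : ℕ} (h : cv s n = true) (ht : s ≤ t) : cv t n = true ∧ vS t n = vS s n := by
  obtain ⟨x, hx⟩ := Option.isSome_iff_exists.1 h
  have : evaln t _ n = some x := evaln_mono ht hx
  simp [cv, vS, hx, this]

theorem iss {s n : ℕ} (h : L s n ≤ col n) : cv s n = true := by
  induction s with
  | zero => exact absurd h (Nat.not_succ_le_self _)
  | succ s ih =>
    refine (cv_mono ?_ s.le_succ).1
    by_contra k
    have := L_le s n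
    have h1 : L s n = col n + 1 := by
      by_contra h2
      exact k (ih (by omega))
    rw [L_eq, if_pos h1, if_neg fun h3 => k h3.1] at h
    omega

open Classical in
noncomputable def v (n : ℕ) : ℕ := if h : ∃ s, cv s n = true then vS h.choose n else 0

theorem v_eq {s n : ℕ} (h : cv s n = true) : vS s n = v n := by
  have k : ∃ s, cv s n = true := ⟨s, h⟩
  rw [v, dif_pos k, ← (cv_mono h (le_max_left s k.choose)).2,
    (cv_mono k.choose_spec (le_max_right _ _)).2]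

theorem In.mono {s t j j' n : ℕ} (h : In s j n) (ht : s ≤ t) (hj : j ≤ j') : In t j' n :=
  ⟨(L_anti n ht).trans (h.1.trans hj), (L_anti n ht).trans h.2⟩

def InF (j n : ℕ) : Prop := ∃ s, In s j n

def V (σ l : List ℕ) (R : ℕ → Prop) : Prop := ∀ a, a + 1 ∈ l →
  if a.unpair.1 < σ.length then σ.getD a.unpair.1 0 ≤ a.unpair.2
  else R a.unpair.1 → v a.unpair.1 ≤ a.unpair.2

theorem OK_V {s e j w : ℕ} : OK s e j w ↔ V (sg e) (lw w) (In s j) :=
  OK_iff.trans (forall₂_congr fun a _ => by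
    split_ifs
    · rfl
    · exact imp_congr_right fun h => by rw [v_eq (iss h.2)])

theorem lt_encode {a : ℕ} {l : List ℕ} (h : a ∈ l) : a < Encodable.encode l := by
  induction l with
  | nil => simp at h
  | cons b l ih =>
    rw [Encodable.encode_list_cons]
    rcases List.mem_cons.1 h with rfl | h
    · exact Nat.lt_succ_of_le (Nat.left_le_pair _ _)
    · exact (ih h).trans (Nat.lt_succ_of_le (Nat.right_le_pair _ _))

theorem V.mono {σ : List ℕ} {w : ℕ} {R R' : ℕ → Prop} (h : V σ (lw w) R)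
    (hR : ∀ n < w, R' n → R n) : V σ (lw w) R' := fun a ha => by
  have h1 := h a ha
  have h2 := lt_encode ha
  rw [lw, encode_ofNat] at h2
  have := Nat.unpair_right_le w
  have := Nat.unpair_left_le a
  split_ifs at h1 ⊢
  · exact h1
  · exact fun k => h1 (hR _ (by omega) k)

def Quiet (e s0 : ℕ) : Prop :=
  e ≤ s0 ∧ ∀ s ≥ s0, ∀ n, col n ≤ e → L (s + 1) n ≤ col n → L s n ≤ col n

variable {e s0 : ℕ}

theorem Quiet.drop (h : Quiet e s0) {s n : ℕ} (hs : s0 ≤ s) (hn : In (s + 1) e n) :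
    In s (e + 1) n := by
  have := L_step s n
  have := h.2 s hs n
  unfold In at *
  omega

theorem move {s n : ℕ} (hs : e ≤ s) (h1 : L s n = e + 1) (h2 : L s n ≤ col n) :
    L (s + 1) n ≤ e ↔ Ex s e ∨ U (s + 1) e ≤ n := by
  rw [L_eq, if_neg (by omega), h1, Nat.add_sub_cancel, ← U_succ hs]
  split_ifs with h <;> simp [h]

theorem Quiet.keep (h : Quiet e s0) {s w : ℕ} (hs : s0 ≤ s) (h1 : ¬ Ex s e)
    (h2 : w ≤ U (s + 1) e) (h3 : OK s e e w) : OK (s + 1) e e w := by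
  refine OK_V.2 ((OK_V.1 h3).mono fun n hn h4 => ?_)
  have h5 := h.drop hs h4
  refine ⟨?_, h5.2⟩
  by_contra k
  have := (move (h.1.trans hs) (le_antisymm h5.1 (not_le.1 k)) h5.2).1 h4.1
  rcases this with h6 | h6
  exacts [h1 h6, by omega]

theorem Quiet.frozen (h : Quiet e s0) {s : ℕ} (hs : s0 ≤ s) (hd : Dis s s e) :
    ∃ u w w', w.unpair.1 = w'.unpair.1 ∧ ev u e w ≠ 0 ∧ ev u e w' ≠ 0 ∧ ev u e w ≠ ev u e w' ∧
      ∀ t ≥ s, OK t e e w ∧ OK t e e w' ∧ U (t + 1) e = u := by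
  have h0 := h.1.trans hs
  have h1 : Dis s (U (s + 1) e) e ∧ U (s + 1) e ≤ s := by
    rw [U_eq h0]
    split_ifs with k
    · exact ⟨hd, le_rfl⟩
    · exact ⟨by tauto, U_le _ _⟩
  obtain ⟨w, w', h2, h3, h4, h5, h6, h7⟩ := Dis_iff.1 h1.1
  refine ⟨_, w, w', h2, h5, h6, h7, fun t ht => ?_⟩
  induction t, ht using Nat.le_induction with
  | base => exact ⟨h3, h4, rfl⟩
  | succ t ht ih =>
    have h8 : ¬ Ex t e := fun k => (Ex_iff.1 k).1
      ((Dis_iff.2 ⟨w, w', h2, ih.1, ih.2.1, h5, h6, h7⟩).mono (h1.2.trans ht))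
    have h9 := h.keep (hs.trans ht) h8 (ih.2.2 ▸ (ev_lt h5).le) ih.1
    have h10 := h.keep (hs.trans ht) h8 (ih.2.2 ▸ (ev_lt h6).le) ih.2.1
    refine ⟨h9, h10, ?_⟩
    rw [U_eq (by omega), if_neg, ih.2.2]
    exact fun k => k.1 (ih.2.2 ▸ Dis_iff.2 ⟨w, w', h2, h9, h10, h5, h6, h7⟩)

theorem U_const {s : ℕ} (hs : e ≤ s) (h : ∀ t ≥ s, ¬ Dis t t e ∧ ¬ Ex t e) (t : ℕ) (ht : s ≤ t) :
    U t e = U s e := by
  induction t, ht using Nat.le_induction with
  | base => rfl
  | succ t ht ih => rw [U_eq (hs.trans ht), if_neg (by have := h t ht; tauto), ih]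

theorem Quiet.stuck (h : Quiet e s0) : {n | InF (e + 1) n ∧ ¬ InF e n}.Finite := by
  have key : ∀ n, InF (e + 1) n → ¬ InF e n → ∃ s, ∀ t ≥ s, ¬ Ex t e ∧ n < U (t + 1) e := by
    rintro n ⟨s, hs⟩ h1
    refine ⟨max s e, fun t ht => ?_⟩
    have h2 := hs.mono (le_of_max_le_left ht) le_rfl
    have h3 : L t n = e + 1 := le_antisymm h2.1 (not_le.1 fun k => h1 ⟨t, k, h2.2⟩)
    simpa using (move (le_of_max_le_right ht) h3 h2.2).not.1
      fun k => h1 ⟨t + 1, k, (L_anti n t.le_succ).trans h2.2⟩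
  by_cases h1 : ∃ u s, ∀ t ≥ s, U (t + 1) e = u
  · obtain ⟨u, s, h1⟩ := h1
    refine (Set.finite_Iio u).subset fun n hn => ?_
    obtain ⟨t, ht⟩ := key n hn.1 hn.2
    exact h1 _ (le_max_left s t) ▸ (ht _ (le_max_right _ _)).2
  · refine Set.finite_empty.subset fun n hn => h1 ?_
    obtain ⟨s, hs⟩ := key n hn.1 hn.2
    by_cases h2 : ∃ t ≥ max s s0, Dis t t e
    · obtain ⟨t, h2, h3⟩ := h2
      obtain ⟨u, _, _, -, -, -, -, h4⟩ := h.frozen (le_of_max_le_right h2) h3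
      exact ⟨u, t, fun r hr => (h4 r hr).2.2⟩
    · exact ⟨_, max s s0, fun t ht => U_const (h.1.trans (le_max_right _ _))
        (fun r hr => ⟨fun k => h2 ⟨r, hr, k⟩, (hs r (le_of_max_le_left hr)).1⟩) _
          (ht.trans t.le_succ)⟩

theorem colfin {i : ℕ} (h : {n | InF i n ∧ ¬ InF 0 n}.Finite) :
    {n | col n = i ∧ ∃ s, L s n ≤ col n}.Finite := by
  by_cases h1 : ∃ m, col m = i ∧ InF 0 m
  · obtain ⟨m, h1, s1, h2, -⟩ := h1
    have h3 : m < s1 := not_le.1 fun k => by rw [L_big _ _ k] at h2; omega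
    refine (Set.finite_Iio s1).subset ?_
    rintro n ⟨h4, s, h5⟩
    induction s with
    | zero => exact absurd h5 (Nat.not_succ_le_self _)
    | succ s ih =>
      by_contra k
      have h6 : L s n = col n + 1 := le_antisymm (L_le _ _) (not_le.1 fun k' => k (ih k'))
      rw [L_eq, if_pos h6] at h5
      split_ifs at h5 with h7
      · have := cv_lt h7.1
        have h8 : s1 ≤ s := by simp at k; omega
        exact h7.2 m (by omega) (h1.trans h4.symm) (Nat.le_zero.1 ((L_anti m h8).trans h2))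
      · omega
  · exact h.subset fun n ⟨h2, s, h3⟩ => ⟨⟨s, h2 ▸ h3, h3⟩, fun k => h1 ⟨n, h2, k⟩⟩

theorem quiet_of (h : ∀ i ≤ e, {n | InF i n ∧ ¬ InF 0 n}.Finite) : ∃ s0, Quiet e s0 := by
  have h1 : {n | col n ≤ e ∧ ∃ s, L s n ≤ col n}.Finite :=
    ((Set.finite_Iic e).biUnion fun i hi => colfin (h i hi)).subset fun n hn =>
      Set.mem_biUnion hn.1 ⟨rfl, hn.2⟩
  have h2 : ∀ᶠ s in Filter.atTop, ∀ n ∈ {n | col n ≤ e ∧ ∃ s, L s n ≤ col n}, L s n ≤ col n :=
    (Filter.eventually_all_finite h1).2 fun n ⟨_, s, hs⟩ =>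
      Filter.eventually_atTop.2 ⟨s, fun t ht => (L_anti n ht).trans hs⟩
  obtain ⟨s, hs⟩ := Filter.eventually_atTop.1 h2
  exact ⟨max e s, le_max_left _ _, fun t ht n h3 h4 => hs t (le_of_max_le_right ht) n ⟨h3, _, h4⟩⟩

theorem fin_diff (j : ℕ) : {n | InF j n ∧ ¬ InF 0 n}.Finite := by
  induction j using Nat.strong_induction_on with
  | h j ih =>
    cases j with
    | zero => simp
    | succ e =>
      obtain ⟨s0, h⟩ := quiet_of fun i hi => ih i (Nat.lt_succ_of_le hi)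
      refine (h.stuck.union (ih e e.lt_succ_self)).subset fun n hn => ?_
      by_cases k : InF e n
      exacts [.inr ⟨k, hn.2⟩, .inl ⟨hn.1, k⟩]

theorem undom {u : ℕ → ℕ} (hu : Computable u) : ∃ n, InF 0 n ∧ v n = u n + 1 := by
  obtain ⟨c, hc⟩ := exists_code.1 (Partrec.nat_iff.1 hu.partrec)
  have key : ∀ n, col n = Encodable.encode c → ∃ s, cv s n = true ∧ v n = u n + 1 := fun n hn => by
    obtain ⟨s, hs⟩ := evaln_complete.1 (show u n ∈ c.eval n by simp [hc])
    have h1 : evaln s (ofNat Code (col n)) n = some (u n) := by rwa [hn, ofNat_encode]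
    have h2 : cv s n = true := by simp [cv, h1]
    exact ⟨s, h2, by rw [← v_eq h2, vS, h1]; rfl⟩
  by_contra h
  refine Set.infinite_of_injective_forall_mem (f := fun m => Nat.pair (Encodable.encode c) m)
    (fun _ _ k => (Nat.pair_eq_pair.1 k).2) (fun m => ?_) (colfin (fin_diff (Encodable.encode c)))
  have h1 : col (Nat.pair (Encodable.encode c) m) = Encodable.encode c := by simp [col]
  obtain ⟨s, h2, -⟩ := key _ h1
  refine ⟨h1, s + 1, ?_⟩
  by_cases h3 : L s (Nat.pair (Encodable.encode c) m) = col (Nat.pair (Encodable.encode c) m) + 1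
  · rw [L_eq, if_pos h3, if_pos ⟨h2, fun n _ h4 h5 => h ⟨n, ⟨s, h5.le, by omega⟩,
      (key n (h4.trans h1)).choose_spec.2⟩⟩]
  · have := L_le s (Nat.pair (Encodable.encode c) m)
    have := L_anti (Nat.pair (Encodable.encode c) m) (Nat.le_add_right s 1)
    omega

theorem outcome (e : ℕ) :
    (∃ t w w', w.unpair.1 = w'.unpair.1 ∧ V (sg e) (lw w) (InF e) ∧ V (sg e) (lw w') (InF e) ∧
      ev t e w ≠ 0 ∧ ev t e w' ≠ 0 ∧ ev t e w ≠ ev t e w') ∨
    (∃ x, ∀ t w, w.unpair.1 = x → V (sg e) (lw w) (InF (e + 1)) → ev t e w = 0) ∨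
    ∃ f, Computable f ∧ ∀ t w, V (sg e) (lw w) (InF e) → ev t e w ≠ 0 →
      ev t e w = f w.unpair.1 := by
  obtain ⟨s0, h⟩ := quiet_of fun i (_ : i ≤ e) => fin_diff i
  have lim : ∀ w s, (∀ t ≥ s, OK t e e w) → V (sg e) (lw w) (InF e) := fun w s hw a ha => by
    split_ifs with k
    · simpa only [k, if_true] using OK_V.1 (hw s le_rfl) a ha
    · rintro ⟨t, ht⟩
      have := OK_V.1 (hw _ (le_max_left s t)) a ha
      rw [if_neg k] at this
      exact this (ht.mono (le_max_right _ _) le_rfl)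
  have back : ∀ w j t, V (sg e) (lw w) (InF j) → OK t e j w := fun w j t hw =>
    OK_V.2 (hw.mono fun n _ k => ⟨t, k⟩)
  by_cases h1 : ∃ s ≥ s0, Dis s s e
  · obtain ⟨s, h1, h2⟩ := h1
    obtain ⟨u, w, w', h3, h4, h5, h6, h7⟩ := h.frozen h1 h2
    exact .inl ⟨u, w, w', h3, lim w s fun t ht => (h7 t ht).1, lim w' s fun t ht => (h7 t ht).2.1,
      h4, h5, h6⟩
  push Not at h1
  refine .inr (or_iff_not_imp_left.2 fun h2 => ?_)
  push Not at h2
  have h3 : ∀ s, ∃ t ≥ s, Ex t e := fun s => by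
    by_contra k
    push Not at k
    have k1 := U_const (h.1.trans (le_max_right s s0)) fun t ht =>
      ⟨h1 t (le_of_max_le_right ht), k t (le_of_max_le_left ht)⟩
    choose t w k2 k3 k4 using h2
    let r := max (max s s0) ((Finset.range (U (max s s0) e)).sup t)
    refine k r (by omega) (Ex_iff.2 ⟨h1 r (by omega), fun x hx => ⟨w x, k2 x, back _ _ _ (k3 x), ?_⟩⟩)
    rw [k1 r (le_max_left _ _)] at hx
    rw [ev_mono (k4 x) ((Finset.le_sup (Finset.mem_range.2 hx)).trans (le_max_right _ _))]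
    exact k4 x
  have hU : ∀ t ≥ s0, (Ex t e → U (t + 1) e = t) ∧ (¬ Ex t e → U (t + 1) e = U t e) :=
    fun t ht => by
      rw [U_eq (h.1.trans ht)]
      have := h1 t ht
      have : ¬ Dis t (U t e) e := fun k => this (k.mono (U_le _ _))
      refine ⟨fun k => if_pos (by tauto), fun k => if_neg (by tauto)⟩
  have mono : ∀ s ≥ s0, ∀ t ≥ s, U s e ≤ U t e := fun s hs t ht => by
    induction t, ht using Nat.le_induction with
    | base => rfl
    | succ t ht ih =>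
      by_cases k : Ex t e
      · rw [(hU t (hs.trans ht)).1 k]
        exact ih.trans (U_le _ _)
      · rwa [(hU t (hs.trans ht)).2 k]
  let P : ℕ → ℕ → Bool := fun x q => Nat.ble s0 q.unpair.1 && ex q.unpair.1 (St q.unpair.1) e &&
    Nat.blt x (uu (St q.unpair.1) e) && q.unpair.2.unpair.1 == x &&
    ok q.unpair.1 (St q.unpair.1) e (e + 1) q.unpair.2 && !(ev q.unpair.1 e q.unpair.2 == 0)
  have hP : ∀ x q, P x q = true ↔ s0 ≤ q.unpair.1 ∧ Ex q.unpair.1 e ∧ x < U q.unpair.1 e ∧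
      q.unpair.2.unpair.1 = x ∧ OK q.unpair.1 e (e + 1) q.unpair.2 ∧
      ev q.unpair.1 e q.unpair.2 ≠ 0 := fun x q => by
    simp [P, Ex, U, OK, and_assoc, Nat.blt_eq]
  have hex : ∀ x, ∃ q, P x q = true := fun x => by
    obtain ⟨s, h4, h5⟩ := h3 (max s0 (x + 1))
    obtain ⟨t, h6, h7⟩ := h3 (s + 1)
    have h8 : x < U t e := lt_of_lt_of_le (by rw [(hU s (by omega)).1 h5]; omega)
      (mono (s + 1) (by omega) t h6)
    obtain ⟨w, h9⟩ := (Ex_iff.1 h7).2 x h8
    exact ⟨Nat.pair t w, (hP _ _).2 (by simp only [Nat.unpair_pair]; exact ⟨by omega, h7, h8, h9⟩)⟩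
  have hc : Computable fun x => Nat.find (hex x) := Computable.find
    (ComputablePred.computable_iff.2 ⟨fun p : ℕ × ℕ => P p.1 p.2,
      (show Primrec _ by simp only [P]; fun_prop).to_comp, rfl⟩) hex
  refine ⟨fun x => ev (Nat.find (hex x)).unpair.1 e (Nat.find (hex x)).unpair.2,
    (show Primrec fun q : ℕ => ev q.unpair.1 e q.unpair.2 by fun_prop).to_comp.comp hc,
    fun r w k1 k2 => ?_⟩
  obtain ⟨p1, p2, p3, p4, p5, p6⟩ := (hP _ _).1 (Nat.find_spec (hex w.unpair.1))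
  beta_reduce
  generalize (Nat.find (hex w.unpair.1)).unpair.1 = s at *
  generalize (Nat.find (hex w.unpair.1)).unpair.2 = w0 at *
  have up : ∀ t ≥ s0, ∀ w, OK t e (e + 1) w → OK (t + 1) e e w ∧ OK t e e w := fun t ht w hw =>
    ⟨OK_V.2 ((OK_V.1 hw).mono fun n _ k => h.drop ht k),
      OK_V.2 ((OK_V.1 hw).mono fun n _ k => k.mono le_rfl e.le_succ)⟩
  have same : ∀ t ≥ s0, ∀ a b, a.unpair.1 = b.unpair.1 → OK t e e a → OK t e e b →
      ev t e a ≠ 0 → ev t e b ≠ 0 → ev t e a = ev t e b := fun t ht a b q1 q2 q3 q4 q5 =>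
    by_contra fun k => h1 t ht (Dis_iff.2 ⟨a, b, q1, q2, q3, q4, q5, k⟩)
  have chain : ∀ t ≥ s + 1, ∃ a, a.unpair.1 = w.unpair.1 ∧ OK t e e a ∧
      ev (U t e) e a = ev s e w0 := fun t ht => by
    induction t, ht using Nat.le_induction with
    | base => exact ⟨w0, p4, (up s p1 _ p5).1, by rw [(hU s p1).1 p2]⟩
    | succ t ht ih =>
      obtain ⟨a, q1, q2, q3⟩ := ih
      have q4 : s0 ≤ t := by omega
      by_cases k : Ex t e
      · obtain ⟨b, q5, q6, q7⟩ := (Ex_iff.1 k).2 _ (p3.trans_le (mono s p1 t (by omega)))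
        have q8 := ev_mono (q3 ▸ p6) (U_le t e)
        refine ⟨b, q5, (up t q4 _ q6).1, ?_⟩
        rw [(hU t q4).1 k, ← q3, ← q8]
        exact same t q4 b a (q5.trans q1.symm) (up t q4 _ q6).2 q2 q7 (by rwa [q8, q3])
      · rw [(hU t q4).2 k]
        exact ⟨a, q1, h.keep q4 k ((hU t q4).2 k ▸ (ev_lt (q3 ▸ p6)).le) q2, q3⟩
  obtain ⟨a, q1, q2, q3⟩ := chain (max r (s + 1)) (le_max_right _ _)
  have q4 := ev_mono (q3 ▸ p6) (U_le (max r (s + 1)) e)
  have q5 := ev_mono k2 (le_max_left r (s + 1))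
  rw [← q5, ← q3, ← q4]
  exact same _ (by omega) w a q1.symm (back _ _ _ k1) q2 (by rwa [q5]) (by rwa [q4, q3])

end Pool.Agent.H23.QM
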