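import Pool.Agent.H23.RDomDefs
import Pool.Agent.H23.Ori3

set_option autoImplicit false

namespace Pool.Agent.H23.RDom
open Pool.Agent.H11.PT Pool.Agent.H25.FP Pool.Agent.H23.Ori Finset

abbrev X := (ℕ × List (ℕ × ℕ)) × ℕ
abbrev Q := ℕ × ℕ × ℕ × ℕ

def Al (x : X) (q : Q) : Prop := q.2.2.1 < x.1.1 ∧ q.2.2.2 < x.1.1 ∧
  (q.1 = q.2.1 ∨ ¬ q.2.2.1 = q.2.2.2 ∧ ((q.2.2.1, q.2.2.2) ∈ x.1.2 ∨ (q.2.2.2, q.2.2.1) ∈ x.1.2))

theorem clique_iff (x : X) : CLIQUE x ↔ ∃ a : ℕ → ℕ, ∀ i < x.2, ∀ j < x.2, Al x (i, j, a i, a j) := by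
  constructor
  · rintro ⟨S, hc, hn⟩
    let e := (S.orderIsoOfFin hn)
    let a : ℕ → ℕ := fun i => if h : i < x.2 then (e ⟨i, h⟩).1.1 else 0
    refine ⟨a, fun i hi j hj => ?_⟩
    simp only [Al, a, hi, hj, dite_true]
    by_cases h : i = j
    · subst h; simp
    · have h1 : (e ⟨i, hi⟩).1 ≠ (e ⟨j, hj⟩).1 := fun g => h (by
        simpa using e.injective (Subtype.ext g))
      have h2 := hc (e ⟨i, hi⟩).2 (e ⟨j, hj⟩).2 h1
      simp only [gr, SimpleGraph.fromRel_adj] at h2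
      simpa [h, Fin.val_inj] using h2
  · rintro ⟨a, h⟩
    have h2 : ∀ i < x.2, ∀ j < x.2, i ≠ j → a i ≠ a j ∧ ((a i, a j) ∈ x.1.2 ∨ (a j, a i) ∈ x.1.2) :=
      fun i hi j hj hij => (h i hi j hj).2.2.resolve_left hij
    let f : Fin x.2 → Fin x.1.1 := fun i => ⟨a i, (h i i.2 i i.2).1⟩
    have hf : Function.Injective f := fun i j e => by
      by_contra hn
      exact (h2 i i.2 j j.2 (by simpa [Fin.val_inj] using hn)).1 (congrArg Fin.val e)
    refine ⟨Finset.univ.image f, ?_, by simp [Finset.card_image_of_injective _ hf]⟩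
    intro u hu v hv huv
    obtain ⟨i, _, rfl⟩ := Finset.mem_image.1 hu
    obtain ⟨j, _, rfl⟩ := Finset.mem_image.1 hv
    simp only [gr, SimpleGraph.fromRel_adj]
    exact ⟨huv, (h2 i i.2 j j.2 fun e => huv (congrArg f (Fin.ext e))).2⟩

def QL (x : X) : List Q :=
  List.range x.2 ×ˢ List.range x.2 ×ˢ List.range (x.1.1 + 1) ×ˢ List.range (x.1.1 + 1)
def qq (x : X) (p : ℕ) : Q := (QL x).getD p (0, 0, 0, 0)
def Cov (x : X) (q s : Q) : Prop :=
  Al x q ∨ (s.1 = q.1 ∧ ¬ s.2.2.1 = q.2.2.1) ∨ (s.1 = q.2.1 ∧ ¬ s.2.2.1 = q.2.2.2)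
def R0 (x : X) (u v : ℕ) : Prop := u < 4 * (QL x).length ∧
  ((u % 4 < 2 ∧ v = 4 * (QL x).length + (qq x (u / 4)).1) ∨ u % 4 = 2 ∧ v < 4 * (QL x).length ∧
    (v % 4 = 2 ∨ v = u + 1 ∨ v % 4 = 1 ∧ Cov x (qq x (u / 4)) (qq x (v / 4))))
noncomputable def red (x : X) : Inst := (4 * (QL x).length + x.2,
  (List.range (4 * (QL x).length + x.2) ×ˢ List.range (4 * (QL x).length + x.2)).filter fun e =>
    dc (R0 x e.1 e.2), x.2, (List.range x.2).map fun i => 4 * (QL x).length + i)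

theorem red_pt : PT red := by
  have h : PT QL := by unfold QL; fun_prop
  unfold red R0 Cov Al qq; fun_prop

variable {x : X}

theorem adj {u v : ℕ} : Adj (red x) u v ↔ u < 4 * (QL x).length + x.2 ∧ v < 4 * (QL x).length + x.2 ∧
    ¬ u = v ∧ (R0 x u v ∨ R0 x v u) := by
  simp only [Adj, red, List.mem_filter, List.mem_product, List.mem_range, dc_iff]
  tauto

theorem mQ {q : Q} : q ∈ QL x ↔ q.1 < x.2 ∧ q.2.1 < x.2 ∧ q.2.2.1 ≤ x.1.1 ∧ q.2.2.2 ≤ x.1.1 := by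
  obtain ⟨a, b, c, d⟩ := q
  simp [QL, Nat.lt_succ_iff]

theorem qm {p : ℕ} (h : p < (QL x).length) : qq x p ∈ QL x := by
  rw [qq, List.getD_eq_getElem _ _ h]; exact List.getElem_mem _

theorem qi {q : Q} (h : q ∈ QL x) : ∃ p < (QL x).length, qq x p = q := by
  obtain ⟨i, b, c⟩ := List.getElem_of_mem h
  exact ⟨i, b, (List.getD_eq_getElem _ _ b).trans c⟩

theorem valid : Valid (red x) := by
  refine ⟨List.nodup_range.map fun a b e => by simpa using e, fun z m => ?_, fun u => u % 4 = 2,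
    fun u a v b c d => ?_⟩
  · simp only [red, List.mem_map, List.mem_range] at m ⊢
    omega
  have k : ∀ u < (red x).1, u ∉ (red x).2.2.2 → u < 4 * (QL x).length := fun u a c => by
    by_contra e
    exact c (List.mem_map.2 ⟨u - 4 * (QL x).length, List.mem_range.2 (by simp only [red] at a; omega),
      by omega⟩)
  have := k u a c
  have := k v b d
  refine ⟨fun e f g => adj.2 ⟨a, b, g, .inl ⟨‹_›, .inr ⟨e, ‹_›, .inl f⟩⟩⟩, fun e f g => ?_⟩
  obtain ⟨-, -, -, ⟨-, g | g⟩ | ⟨-, g | g⟩⟩ := adj.1 g <;> omega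

theorem near2 {y : Inst} {u v : ℕ} : Near y 2 u v ↔ u = v ∨ Adj y u v ∨ ∃ w, Adj y u w ∧ Adj y w v := by
  simp only [Near, exists_eq_right, and_or_left, exists_or]
  tauto

theorem sound (h : Dom 2 (red x)) : CLIQUE x := by
  obtain ⟨S, -, s, h⟩ := h
  have : ∀ i, ∃ z, i < x.2 → z ∈ S ∧ (z = 4 * (QL x).length + i ∨ z < 4 * (QL x).length ∧ z % 4 < 2 ∧
      (qq x (z / 4)).1 = i) := fun i => by
    by_cases a : i < x.2
    · obtain ⟨p, b, c⟩ := qi (x := x) (q := (i, i, 0, 0)) (mQ.2 ⟨a, a, by simp, by simp⟩)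
      obtain ⟨z, m, d⟩ := h (4 * p) (by simp only [red]; omega)
      refine ⟨z, fun _ => ⟨m, ?_⟩⟩
      have e : (qq x (4 * p / 4)).1 = i := by rw [show 4 * p / 4 = p by omega, c]
      have n : ∀ w, Adj (red x) w (4 * p) → w = 4 * (QL x).length + i := fun w d => by
        obtain ⟨-, -, -, ⟨-, g | g⟩ | ⟨-, g | g⟩⟩ := adj.1 d <;> omega
      obtain rfl | d | ⟨w, d, f⟩ := near2.1 d
      · exact .inr ⟨by omega, by omega, e⟩
      · exact .inl (n z d)
      · rw [n w f] at d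
        obtain ⟨-, -, -, ⟨_, g | g⟩ | ⟨_, g | g⟩⟩ := adj.1 d <;> omega
    · exact ⟨0, fun b => absurd b a⟩
  choose f hf using this
  have sj := Finset.surj_on_of_inj_on_of_card_le (s := range x.2) (t := S) (fun i _ => f i)
    (fun i m => (hf i (mem_range.1 m)).1) (fun i j a b e => by
      have := (hf i (mem_range.1 a)).2
      have := (hf j (mem_range.1 b)).2
      simp only [e] at *
      omega) (by simpa [red] using s)
  have al : ∀ p, (qq x p).2.2.1 ≤ x.1.1 := fun p => by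
    by_cases a : p < (QL x).length
    · exact (mQ.1 (qm a)).2.2.1
    · rw [qq, List.getD_eq_default _ _ (by omega)]; simp
  refine (clique_iff x).2 ⟨fun i => (qq x (f i / 4)).2.2.1, fun i a j b => ?_⟩
  obtain ⟨p, c, e⟩ := qi (x := x) (q := (i, j, (qq x (f i / 4)).2.2.1, (qq x (f j / 4)).2.2.1))
    (mQ.2 ⟨a, b, al _, al _⟩)
  obtain ⟨z, m, d⟩ := h (4 * p + 3) (by simp only [red]; omega)
  obtain ⟨t, o, rfl⟩ := sj z m
  have l := (hf t (mem_range.1 o)).2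
  have n : ∀ w, Adj (red x) w (4 * p + 3) → w = 4 * p + 2 := fun w d => by
    obtain ⟨-, -, -, ⟨-, g | g⟩ | ⟨-, g | g⟩⟩ := adj.1 d <;> omega
  obtain d | d | ⟨w, d, g⟩ := near2.1 d
  · omega
  · have := n _ d; omega
  rw [n w g] at d
  obtain ⟨-, -, -, ⟨_, g | g⟩ | ⟨_, g | ⟨-, _, g | g | ⟨_, g⟩⟩⟩⟩ := adj.1 d <;> try omega
  rw [show (4 * p + 2) / 4 = p by omega, e] at g
  have l : (qq x (f t / 4)).1 = t := by omega
  obtain g | g | g := g
  · exact g
  · rw [l] at g; obtain ⟨rfl, g⟩ := g; exact absurd rfl g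
  · rw [l] at g; obtain ⟨rfl, g⟩ := g; exact absurd rfl g

theorem complete (h : CLIQUE x) : Dom 2 (red x) := by
  obtain ⟨a, h⟩ := (clique_iff x).1 h
  have : ∀ i, ∃ p, i < x.2 → p < (QL x).length ∧ qq x p = (i, i, a i, 0) := fun i => by
    by_cases b : i < x.2
    · obtain ⟨p, c⟩ := qi (x := x) (q := (i, i, a i, 0)) (mQ.2 ⟨b, b, (h i b i b).1.le, by simp⟩)
      exact ⟨p, fun _ => c⟩
    · exact ⟨0, fun c => absurd c b⟩
  choose p hp using this
  have e : ∀ i < x.2, qq x ((4 * p i + 1) / 4) = (i, i, a i, 0) := fun i b => by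
    rw [show (4 * p i + 1) / 4 = p i by omega, (hp i b).2]
  have ax : ∀ u < 4 * (QL x).length, u % 4 < 2 →
      Adj (red x) u (4 * (QL x).length + (qq x (u / 4)).1) := fun u b c =>
    adj.2 ⟨by omega, by have := (mQ.1 (qm (x := x) (p := u / 4) (by omega))).1; omega, by omega,
      .inl ⟨b, .inl ⟨c, rfl⟩⟩⟩
  have sx : ∀ i < x.2, Adj (red x) (4 * p i + 1) (4 * (QL x).length + i) := fun i b => by
    have := ax (4 * p i + 1) (by have := (hp i b).1; omega) (by omega)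
    rwa [e i b] at this
  have sy : ∀ {u v}, Adj (red x) u v → Adj (red x) v u := fun h =>
    ⟨h.2.1, h.1, Ne.symm h.2.2.1, h.2.2.2.symm⟩
  refine ⟨(range x.2).image fun i => 4 * p i + 1, fun s m => ?_, card_image_le.trans (by simp [red]),
    fun v b => ?_⟩
  · obtain ⟨i, b, rfl⟩ := mem_image.1 m
    have := (hp i (mem_range.1 b)).1
    simp only [red]; omega
  simp only [red] at b
  suffices ∃ i < x.2, Near (red x) 2 (4 * p i + 1) v by
    obtain ⟨i, c, d⟩ := this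
    exact ⟨_, mem_image_of_mem _ (mem_range.2 c), d⟩
  by_cases c : v < 4 * (QL x).length
  · have m := mQ.1 (qm (x := x) (p := v / 4) (by omega))
    by_cases d : v % 4 < 2
    · exact ⟨_, m.1, near2.2 (.inr (.inr ⟨_, sx _ m.1, sy (ax v c d)⟩))⟩
    obtain ⟨i, f, g⟩ : ∃ i < x.2, Cov x (qq x (v / 4)) (i, i, a i, 0) := by
      by_cases f : a (qq x (v / 4)).1 = (qq x (v / 4)).2.2.1
      · by_cases g : a (qq x (v / 4)).2.1 = (qq x (v / 4)).2.2.2
        · have := h _ m.1 _ m.2.1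
          rw [f, g] at this
          exact ⟨_, m.1, .inl this⟩
        · exact ⟨_, m.2.1, .inr (.inr ⟨rfl, g⟩)⟩
      · exact ⟨_, m.1, .inr (.inl ⟨rfl, f⟩)⟩
    have := (hp i f).1
    have k : Adj (red x) (4 * p i + 1) (4 * (v / 4) + 2) := adj.2 ⟨by omega, by omega, by omega,
      .inr ⟨by omega, .inr ⟨by omega, by omega, .inr (.inr ⟨by omega, by
        rwa [e i f, show (4 * (v / 4) + 2) / 4 = v / 4 by omega]⟩)⟩⟩⟩
    by_cases o : v % 4 = 2
    · exact ⟨i, f, near2.2 (.inr (.inl (by rwa [show 4 * (v / 4) + 2 = v by omega] at k)))⟩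
    · exact ⟨i, f, near2.2 (.inr (.inr ⟨_, k, adj.2 ⟨by omega, by omega, by omega,
        .inl ⟨by omega, .inr ⟨by omega, c, .inr (.inl (by omega))⟩⟩⟩⟩))⟩
  · have := sx (v - 4 * (QL x).length) (by omega)
    rw [show 4 * (QL x).length + (v - 4 * (QL x).length) = v by omega] at this
    exact ⟨_, by omega, near2.2 (.inr (.inl this))⟩

theorem w1 : W1Hard (fun y => Valid y ∧ Dom 2 y) fun y => y.2.2.2.length :=
  ⟨red, id, red_pt.polyTime, Computable.id, fun _ =>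
    ⟨⟨fun h => ⟨valid, complete h⟩, fun h => sound h.2⟩, by simp [red]⟩⟩

end Pool.Agent.H23.RDom
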