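import Pool.Agent.H25.W1Defs
import Pool.Agent.H25.FPTDefs

set_option autoImplicit false

namespace Pool.Agent.H23.RDom

/-- number of vertices, edge list, bound on the size, modulator -/
abbrev Inst := ℕ × List (ℕ × ℕ) × ℕ × List ℕ

/-- adjacency in the simple graph given by the edge list -/
def Adj (y : Inst) (u v : ℕ) : Prop :=
  u < y.1 ∧ v < y.1 ∧ ¬ u = v ∧ ((u, v) ∈ y.2.1 ∨ (v, u) ∈ y.2.1)

/-- distance at most `j` -/
def Near (y : Inst) : ℕ → ℕ → ℕ → Prop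
  | 0, u, v => u = v
  | j + 1, u, v => Near y j u v ∨ ∃ w, Adj y u w ∧ Near y j w v

/-- the last component lists distinct vertices whose deletion leaves a split graph -/
def Valid (y : Inst) : Prop :=
  y.2.2.2.Nodup ∧ (∀ x ∈ y.2.2.2, x < y.1) ∧ ∃ K : ℕ → Prop, ∀ u < y.1, ∀ v < y.1,
    u ∉ y.2.2.2 → v ∉ y.2.2.2 → (K u → K v → u ≠ v → Adj y u v) ∧ (¬ K u → ¬ K v → ¬ Adj y u v)

/-- there is an `r`-dominating set within the bound -/
def Dom (r : ℕ) (y : Inst) : Prop :=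
  ∃ S : Finset ℕ, (∀ s ∈ S, s < y.1) ∧ S.card ≤ y.2.2.1 ∧ ∀ v < y.1, ∃ s ∈ S, Near y r s v

end Pool.Agent.H23.RDom
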