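import Mathlib

set_option autoImplicit false

open FirstOrder FirstOrder.Language Set Filter Cardinal

namespace Pool.Agent.H23.RN

variable {L : FirstOrder.Language.{0, 0}} {M : Type} [L.Structure M]

theorem dep {α : Type} [DecidableEq α] (φ : L.Formula α) {v w : α → M}
    (h : ∀ a ∈ BoundedFormula.freeVarFinset φ, v a = w a) : φ.Realize v ↔ φ.Realize w := by
  unfold Formula.Realize
  rw [← BoundedFormula.realize_restrictFreeVar' (s := ↑(BoundedFormula.freeVarFinset φ)) subset_rfl,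
    ← BoundedFormula.realize_restrictFreeVar' (s := ↑(BoundedFormula.freeVarFinset φ)) (v := w)
      subset_rfl]
  have : (v ∘ (↑) : (↑(BoundedFormula.freeVarFinset φ) : Set α) → M) = w ∘ (↑) :=
    funext fun a => h a.1 a.2
  rw [this]

theorem supp {C : Set (ℕ → M)} (h : (∅ : Set M).Definable L C) (N : ℕ) :
    ∃ n, N ≤ n ∧ ∃ D : Set (Fin n → M), (∅ : Set M).Definable L D ∧
      ∀ v, v ∈ C ↔ (fun i : Fin n => v i) ∈ D := by
  obtain ⟨φ, rfl⟩ := empty_definable_iff.1 h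
  refine ⟨N + (BoundedFormula.freeVarFinset φ).sup id + 1, by omega, _,
    empty_definable_iff.2 ⟨BoundedFormula.restrictFreeVar φ fun a => ⟨a.1, ?_⟩, rfl⟩, fun v => ?_⟩
  · have := Finset.le_sup (f := id) a.2
    simp only [id] at this
    omega
  · refine Iff.symm ?_
    exact BoundedFormula.realize_restrictFreeVar (φ := φ) (v := fun i : Fin _ => v i.1) v
      fun a => rfl

variable [Nonempty M]

theorem omit_step {k : ℕ} (P : L.Formula (Fin k) → Prop)
    (H : ∀ D : Set (Fin k → M), (∅ : Set M).Definable L D → D.Nonempty →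
      ∃ ψ, P ψ ∧ ∃ v ∈ D, ¬ ψ.Realize v)
    {C : Set (ℕ → M)} (h : (∅ : Set M).Definable L C) (hne : C.Nonempty) (j : Fin k → ℕ) :
    ∃ C', (∅ : Set M).Definable L C' ∧ C'.Nonempty ∧ C' ⊆ C ∧
      ∃ ψ, P ψ ∧ ∀ v ∈ C', ¬ ψ.Realize (v ∘ j) := by
  obtain ⟨n, hn, D, hD, hC⟩ := supp h (Finset.univ.sup j + 1)
  let j' : Fin k → Fin n := fun i => ⟨j i, by
    have := Finset.le_sup (f := j) (Finset.mem_univ i)
    omega⟩
  obtain ⟨v0, hv0⟩ := hne
  obtain ⟨ψ, hψ, _, ⟨d, hd, rfl⟩, hw⟩ := H _ (hD.image_comp j') ⟨_, _, (hC v0).1 hv0, rfl⟩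
  refine ⟨C ∩ ((fun g => g ∘ j) ⁻¹' (Set.ofPred ψ.Realize))ᶜ,
    h.inter ((empty_definable_iff.2 ⟨ψ, rfl⟩).preimage_comp j).compl,
    ⟨fun i => if h : i < n then d ⟨i, h⟩ else v0 i, (hC _).2 ?_, ?_⟩, inter_subset_left,
    ψ, hψ, fun v hv => hv.2⟩
  · simpa using hd
  · intro h1
    apply hw
    have : ((fun i => if h : i < n then d ⟨i, h⟩ else v0 i) ∘ j) = d ∘ j' :=
      funext fun i => dif_pos (j' i).2
    have h2 : ψ.Realize ((fun i => if h : i < n then d ⟨i, h⟩ else v0 i) ∘ j) := h1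
    rw [this] at h2
    exact h2

theorem tv_step {C : Set (ℕ → M)} (h : (∅ : Set M).Definable L C) (hne : C.Nonempty)
    (φ : L.Formula (ℕ ⊕ Fin 1)) :
    ∃ C', (∅ : Set M).Definable L C' ∧ C'.Nonempty ∧ C' ⊆ C ∧
      ((∀ v ∈ C', ∀ y, ¬ φ.Realize (Sum.elim v y)) ∨
        ∃ r, ∀ v ∈ C', φ.Realize (Sum.elim v fun _ => v r)) := by
  classical
  by_cases h1 : ∀ v ∈ C, ∀ y, ¬ φ.Realize (Sum.elim v y)
  · exact ⟨C, h, hne, subset_rfl, Or.inl h1⟩
  push Not at h1
  obtain ⟨v0, hv0, y, hy⟩ := h1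
  obtain ⟨n, hn, D, hD, hC⟩ := supp h
    ((BoundedFormula.freeVarFinset φ).sup (Sum.elim id fun _ => 0) + 1)
  have e : ∀ v : ℕ → M, v ∘ (Sum.elim id fun _ : Fin 1 => n) = Sum.elim v fun _ => v n :=
    fun v => funext fun i => by cases i <;> rfl
  refine ⟨C ∩ ((fun g => g ∘ (Sum.elim id fun _ => n)) ⁻¹' (Set.ofPred φ.Realize)),
    h.inter ((empty_definable_iff.2 ⟨φ, rfl⟩).preimage_comp _),
    ⟨Function.update v0 n (y 0), (hC _).2 ?_, ?_⟩, inter_subset_left,
    Or.inr ⟨n, fun v hv => e v ▸ hv.2⟩⟩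
  · have : (fun i : Fin n => Function.update v0 n (y 0) i) = fun i : Fin n => v0 i :=
      funext fun i => Function.update_of_ne i.2.ne _ _
    rw [this]
    exact (hC _).1 hv0
  · refine (dep φ fun a ha => ?_).1 hy
    rcases a with a | a
    · have := Finset.le_sup (f := Sum.elim id fun _ : Fin 1 => 0) ha
      simp only [Sum.elim_inl, id] at this
      exact (Function.update_of_ne (show a ≠ n by omega) _ _).symm
    · simp [Subsingleton.elim a 0]

theorem ultra_equiv : (hyperfilter ℕ : Filter ℕ).Product (fun _ => M) ≅[L] M :=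
  elementarilyEquivalent_iff.2 fun φ => by
    rw [Ultraproduct.sentence_realize]
    exact eventually_const

theorem omitting [Countable L.Symbols] {k : ℕ} (P : L.Formula (Fin k) → Prop)
    (H : ∀ D : Set (Fin k → M), (∅ : Set M).Definable L D → D.Nonempty →
      ∃ ψ, P ψ ∧ ∃ v ∈ D, ¬ ψ.Realize v) :
    ∃ N : L.ElementarySubstructure ((hyperfilter ℕ : Filter ℕ).Product (fun _ => M)),
      Countable N ∧ ∀ v : Fin k → N, ∃ ψ, P ψ ∧ ¬ ψ.Realize v := by
  classical
  haveI : Nonempty (L.Formula (ℕ ⊕ Fin 1)) := ⟨⊤⟩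
  obtain ⟨t, ht⟩ := exists_surjective_nat (L.Formula (ℕ ⊕ Fin 1) × (Fin k → ℕ))
  have step : ∀ (C : {C : Set (ℕ → M) // (∅ : Set M).Definable L C ∧ C.Nonempty}) (n : ℕ),
      ∃ C' : {C : Set (ℕ → M) // (∅ : Set M).Definable L C ∧ C.Nonempty}, C'.1 ⊆ C.1 ∧
      (∃ ψ, P ψ ∧ ∀ v ∈ C'.1, ¬ ψ.Realize (v ∘ (t n).2)) ∧
      ((∀ v ∈ C'.1, ∀ y, ¬ (t n).1.Realize (Sum.elim v y)) ∨
        ∃ r, ∀ v ∈ C'.1, (t n).1.Realize (Sum.elim v fun _ => v r)) := by
    intro C n
    obtain ⟨C1, a1, a2, a3, ψ, a4, a5⟩ := omit_step P H C.2.1 C.2.2 (t n).2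
    obtain ⟨C2, b1, b2, b3, b4⟩ := tv_step a1 a2 (t n).1
    exact ⟨⟨C2, b1, b2⟩, b3.trans a3, ⟨ψ, a4, fun v hv => a5 v (b3 hv)⟩, b4⟩
  choose f hf using step
  let C : ℕ → {C : Set (ℕ → M) // (∅ : Set M).Definable L C ∧ C.Nonempty} := fun n =>
    Nat.rec ⟨univ, definable_univ, univ_nonempty⟩ (fun n C => f C n) n
  have hanti : Antitone fun n => (C n).1 := antitone_nat_of_succ_le fun n => (hf (C n) n).1
  choose v hv using fun n => (C n).2.2
  have ev : ∀ n, ∀ᶠ m in (hyperfilter ℕ : Filter ℕ), v m ∈ (f (C n) n).1 := fun n =>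
    hyperfilter_le_cofinite (by
      rw [Nat.cofinite_eq_atTop]
      filter_upwards [eventually_ge_atTop (n + 1)] with m hm using hanti hm (hv m))
  let c : ℕ → (hyperfilter ℕ : Filter ℕ).Product (fun _ => M) := fun r =>
    ((fun n => v n r : ∀ _ : ℕ, M) : (hyperfilter ℕ : Filter ℕ).Product (fun _ => M))
  have hA : L.MeetsDefinable (range c) := by
    rintro D ⟨y, hy⟩ hD
    obtain ⟨φ, hφ⟩ := definable_iff_exists_formula_sum.1 hD
    choose σ hσ using fun a : range c => a.2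
    have key : ∀ z : ∀ _ : ℕ, M, ((z : (hyperfilter ℕ : Filter ℕ).Product (fun _ => M)) ∈ D ↔
        ∀ᶠ n in (hyperfilter ℕ : Filter ℕ),
          (φ.relabel (Sum.map σ id)).Realize (Sum.elim (v n) fun _ => z n)) := by
      intro z
      have h1 := Set.ext_iff.1 hφ fun _ => (z : (hyperfilter ℕ : Filter ℕ).Product (fun _ => M))
      have h2 := Ultraproduct.realize_formula_cast (u := hyperfilter ℕ) (M := fun _ => M)
        (φ.relabel (Sum.map σ id)) (Sum.elim (fun r n => v n r) fun _ => z)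
      refine h1.trans (Iff.trans ?_ (h2.trans (eventually_congr (Eventually.of_forall fun n => ?_))))
      · rw [Formula.realize_relabel]
        refine iff_of_eq (congrArg φ.Realize (funext fun i => ?_))
        rcases i with i | i
        · exact (hσ i).symm
        · rfl
      · refine iff_of_eq (congrArg _ (funext fun i => ?_))
        cases i <;> rfl
    obtain ⟨z, rfl⟩ := Quotient.exists_rep y
    obtain ⟨n, hn⟩ := ht (φ.relabel (Sum.map σ id), fun _ => 0)
    have h3 := (hf (C n) n).2.2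
    rw [hn] at h3
    rcases h3 with h3 | ⟨r, h3⟩
    · obtain ⟨m, h4, h5⟩ := (((key z).1 hy).and (ev n)).exists
      exact absurd h4 (h3 _ h5 _)
    · exact ⟨c r, (key _).2 ((ev n).mono fun m hm => h3 _ hm), r, rfl⟩
  have hmem : ∀ x : hA.toElementarySubstructure, x.1 ∈ range c := fun x =>
    hA.closure_eq_self.subset x.2
  refine ⟨hA.toElementarySubstructure, ?_, fun w => ?_⟩
  · haveI := (countable_range c).to_subtype
    exact Function.Injective.countable (f := fun x : hA.toElementarySubstructure =>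
      (⟨x.1, hmem x⟩ : range c)) fun a b h => Subtype.ext (Subtype.mk.inj h)
  · choose j hj using fun i => hmem (w i)
    obtain ⟨n, hn⟩ := ht (⊤, j)
    obtain ⟨ψ, h1, h2⟩ := (hf (C n) n).2.1
    rw [hn] at h2
    refine ⟨ψ, h1, fun h3 => ?_⟩
    rw [← hA.toElementarySubstructure.subtype.map_formula] at h3
    have h4 : ψ.Realize fun i => c (j i) := by
      have : (fun i => c (j i)) = hA.toElementarySubstructure.subtype ∘ w := funext hj
      rwa [this]
    obtain ⟨m, h5, h6⟩ := (((Ultraproduct.realize_formula_cast (u := hyperfilter ℕ)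
      (M := fun _ => M) ψ fun i n => v n (j i)).1 h4).and (ev n)).exists
    exact h2 _ h6 h5

/-- same type -/
def Eqv (L : FirstOrder.Language.{0, 0}) {M : Type} [L.Structure M] {k : ℕ} (x y : Fin k → M) : Prop :=
  ∀ φ : L.Formula (Fin k), φ.Realize x ↔ φ.Realize y

theorem fin_types [Countable L.Symbols] [Infinite M]
    (hcat : Cardinal.Categorical (ℵ₀ : Cardinal.{0}) (L.completeTheory M)) (k : ℕ) :
    ∃ F : Finset (Fin k → M), ∀ x, ∃ y ∈ F, Eqv L x y := by
  classical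
  let s : Setoid (Fin k → M) := ⟨Eqv L, fun _ _ => Iff.rfl, fun h φ => (h φ).symm,
    fun h h' φ => (h φ).trans (h' φ)⟩
  by_cases hf : Finite (Quotient s)
  · haveI := Fintype.ofFinite (Quotient s)
    exact ⟨Finset.univ.image Quotient.out, fun x => ⟨_, Finset.mem_image_of_mem _
      (Finset.mem_univ (Quotient.mk s x)), s.symm (Quotient.mk_out x)⟩⟩
  exfalso
  haveI : Infinite (Quotient s) := not_finite_iff_infinite.1 hf
  let b : ℕ → Fin k → M := fun n => (Infinite.natEmbedding (Quotient s) n).out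
  have hb : ∀ m n, Eqv L (b m) (b n) → m = n := fun m n h =>
    (Infinite.natEmbedding (Quotient s)).injective (Quotient.out_equiv_out.1 h)
  let P : L.Formula (Fin k) → Prop := fun ψ => ∀ᶠ n in (hyperfilter ℕ : Filter ℕ), ψ.Realize (b n)
  have Pn : ∀ ψ : L.Formula (Fin k), ¬ P ψ → P ψ.not := fun ψ h =>
    (Ultrafilter.eventually_not.2 h).mono fun n hn => Formula.realize_not.2 hn
  obtain ⟨N2, c2, h2⟩ := omitting (M := M) P (by
    rintro D hD ⟨v, hv⟩
    obtain ⟨φ, rfl⟩ := empty_definable_iff.1 hD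
    by_cases h : P φ
    · by_contra hno
      push Not at hno
      have all : ∀ n, φ.Realize (b n) → ∀ ψ : L.Formula (Fin k), ψ.Realize (b n) ↔ P ψ :=
        fun n hn ψ => ⟨fun a => by_contra fun c => Formula.realize_not.1 (hno _ (Pn ψ c) _ hn) a,
          fun a => hno ψ a _ hn⟩
      obtain ⟨m, hm⟩ := h.exists
      obtain ⟨n, hn, hne⟩ := (h.and (hyperfilter_le_cofinite (eventually_cofinite_ne m))).exists
      exact hne (hb n m fun ψ => (all n hn ψ).trans (all m hm ψ).symm)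
    · exact ⟨φ.not, Pn φ h, v, hv, fun a => Formula.realize_not.1 a hv⟩)
  let β : Fin k → (hyperfilter ℕ : Filter ℕ).Product (fun _ => M) := fun i =>
    ((fun n => b n i : ∀ _ : ℕ, M) : (hyperfilter ℕ : Filter ℕ).Product (fun _ => M))
  haveI : Infinite ((hyperfilter ℕ : Filter ℕ).Product (fun _ => M)) :=
    (ultra_equiv (L := L)).symm.infinite
  obtain ⟨N1, s1, c1⟩ := exists_elementarySubstructure_card_eq L (range β) (ℵ₀ : Cardinal.{0}) le_rfl
    (by simpa using (finite_range β).countable.le_aleph0)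
    (by simpa [FirstOrder.Language.card] using (mk_le_aleph0 (α := L.Symbols))) (by simp)
  have e1 : N1 ≅[L] M := N1.elementarilyEquivalent.trans ultra_equiv
  have e2 : N2 ≅[L] M := N2.elementarilyEquivalent.trans ultra_equiv
  haveI : N1 ⊨ L.completeTheory M := e1.theory_model_iff.2 inferInstance
  haveI : N2 ⊨ L.completeTheory M := e2.theory_model_iff.2 inferInstance
  haveI : Infinite N2 := e2.symm.infinite
  obtain ⟨e⟩ := hcat (Theory.ModelType.of _ N1) (Theory.ModelType.of _ N2) (by simpa using c1)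
    (mk_eq_aleph0 N2)
  let w : Fin k → N1 := fun i => ⟨β i, s1 ⟨i, rfl⟩⟩
  obtain ⟨ψ, h3, h4⟩ := h2 (e ∘ w)
  apply h4
  refine (StrongHomClass.realize_formula e ψ).2 ?_
  refine (N1.subtype.map_formula ψ w).1 ?_
  exact (Ultraproduct.realize_formula_cast (u := hyperfilter ℕ) (M := fun _ => M) ψ
    fun i n => b n i).2 h3

theorem isolated {k : ℕ} (hF : ∃ F : Finset (Fin k → M), ∀ x, ∃ y ∈ F, Eqv L x y)
    (x : Fin k → M) : (∅ : Set M).Definable L {y | Eqv L x y} := by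
  classical
  obtain ⟨F, hF⟩ := hF
  have h1 : ∀ z : Fin k → M, ∃ D : Set (Fin k → M), (∅ : Set M).Definable L D ∧
      (∀ y, Eqv L x y → y ∈ D) ∧ (¬ Eqv L x z → ∀ y, Eqv L y z → y ∉ D) := by
    intro z
    by_cases h : Eqv L x z
    · exact ⟨univ, definable_univ, fun _ _ => trivial, fun a => absurd h a⟩
    · obtain ⟨φ, hφ⟩ := not_forall.1 h
      by_cases a : φ.Realize x
      · exact ⟨_, empty_definable_iff.2 ⟨φ, rfl⟩, fun y hy => (hy φ).1 a,
          fun _ y hy b => hφ ⟨fun _ => (hy φ).1 b, fun _ => a⟩⟩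
      · exact ⟨_, (empty_definable_iff.2 ⟨φ, rfl⟩).compl, fun y hy b => a ((hy φ).2 b),
          fun _ y hy b => hφ ⟨fun c => absurd c a, fun c => absurd ((hy φ).2 c) b⟩⟩
  choose D hD using h1
  have : {y | Eqv L x y} = ⋂ z ∈ F, D z := by
    ext y
    simp only [mem_iInter]
    refine ⟨fun h z _ => (hD z).2.1 y h, fun h => ?_⟩
    obtain ⟨z, hz, e⟩ := hF y
    by_contra c
    exact (hD z).2.2 (fun a => c fun φ => (a φ).trans (e φ).symm) y e (h z hz)
  rw [this]
  exact definable_biInter_finset (fun z => (hD z).1) F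

theorem extend {k : ℕ} (hF : ∃ F : Finset (Fin (k + 1) → M), ∀ x, ∃ y ∈ F, Eqv L x y)
    (x : Fin (k + 1) → M) (y : Fin k → M) (h : Eqv L (x ∘ Fin.castSucc) y) :
    ∃ y' : Fin (k + 1) → M, y' ∘ Fin.castSucc = y ∧ Eqv L x y' := by
  obtain ⟨φ, hφ⟩ := empty_definable_iff.1 ((isolated hF x).image_comp Fin.castSucc)
  have h1 : x ∘ Fin.castSucc ∈ Set.ofPred φ.Realize := hφ ▸ ⟨x, fun _ => Iff.rfl, rfl⟩
  have h2 : y ∈ Set.ofPred φ.Realize := (h φ).1 h1
  rw [← hφ] at h2
  obtain ⟨y', a, b⟩ := h2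
  exact ⟨y', b, a⟩

theorem Eqv.comp {k m : ℕ} {x y : Fin k → M} (h : Eqv L x y) (f : Fin m → Fin k) :
    Eqv L (x ∘ f) (y ∘ f) := fun φ => by
  rw [← Formula.realize_relabel, ← Formula.realize_relabel]; exact h _

end Pool.Agent.H23.RN
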