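import Mathlib

set_option autoImplicit false

open Set

namespace Pool.Agent.H23.UC

structure Pre (W : Type) where
  lab : List W → ℕ
  f : List W → ℕ → W

def In {W : Type} (l : List W) (A : Set W) : Prop := ∀ x ∈ l, x ∈ A

section
variable {W W' W'' : Type}

theorem In.mono {l : List W} {A B : Set W} (h : In l A) (hAB : A ⊆ B) : In l B :=
  fun x hx => hAB (h x hx)

theorem In.map {l : List W} {A : Set W} {B : Set W'} {e : W → W'} (h : In l A)
    (he : MapsTo e A B) : In (l.map e) B := fun x hx => by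
  obtain ⟨y, hy, rfl⟩ := List.mem_map.1 hx
  exact he (h y hy)

@[simp] theorem in_nil (A : Set W) : In [] A := fun _ h => by simp at h

@[simp] theorem in_cons {x : W} {l : List W} {A : Set W} : In (x :: l) A ↔ x ∈ A ∧ In l A := by
  simp [In]

theorem In.lift {e : W → W'} {A : Set W} {l : List W'} (h : In l (e '' A)) :
    ∃ l0, In l0 A ∧ l0.map e = l := by
  induction l with
  | nil => exact ⟨[], in_nil _, rfl⟩
  | cons x l ih =>
    obtain ⟨⟨y, hy, rfl⟩, h2⟩ := in_cons.1 h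
    obtain ⟨l0, a, rfl⟩ := ih h2
    exact ⟨y :: l0, in_cons.2 ⟨hy, a⟩, rfl⟩

theorem fin_lists {A : Set W} (hA : A.Finite) (n : ℕ) : {l : List W | In l A ∧ l.length ≤ n}.Finite := by
  have : Finite A := hA
  refine ((List.finite_length_le A n).image (List.map Subtype.val)).subset ?_
  rintro l ⟨h1, h2⟩
  rw [← Subtype.range_coe (s := A), ← image_univ] at h1
  obtain ⟨l0, -, rfl⟩ := h1.lift
  exact ⟨l0, by simpa using h2, rfl⟩

structure Emb (S : Pre W) (T : Pre W') (e : W → W') (A : Set W) : Prop where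
  inj : InjOn e A
  lab : ∀ l, In l A → T.lab (l.map e) = S.lab l
  f : ∀ l, In l A → ∀ k, T.f (l.map e) k = e (S.f l k)

def Ag (S T : Pre W) (A : Set W) : Prop := ∀ l, In l A → T.lab l = S.lab l ∧ T.f l = S.f l

theorem Ag.refl (S : Pre W) (A : Set W) : Ag S S A := fun _ _ => ⟨rfl, rfl⟩
theorem Ag.symm {S T : Pre W} {A : Set W} (h : Ag S T A) : Ag T S A :=
  fun l hl => ⟨(h l hl).1.symm, (h l hl).2.symm⟩
theorem Ag.mono {S T : Pre W} {A B : Set W} (h : Ag S T A) (hB : B ⊆ A) : Ag S T B :=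
  fun l hl => h l (hl.mono hB)
theorem Ag.trans {S T U : Pre W} {A : Set W} (h : Ag S T A) (h' : Ag T U A) : Ag S U A :=
  fun l hl => ⟨(h' l hl).1.trans (h l hl).1, (h' l hl).2.trans (h l hl).2⟩
theorem Ag.emb {S T : Pre W} {A : Set W} (h : Ag S T A) : Emb S T id A :=
  ⟨injOn_id _, fun l hl => by simp [(h l hl).1], fun l hl k => by simp [(h l hl).2]⟩

theorem Emb.mono {S : Pre W} {T : Pre W'} {e : W → W'} {A B : Set W} (h : Emb S T e A)
    (hB : B ⊆ A) : Emb S T e B :=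
  ⟨h.inj.mono hB, fun l hl => h.lab l (hl.mono hB), fun l hl => h.f l (hl.mono hB)⟩

theorem Emb.comp {S : Pre W} {T : Pre W'} {U : Pre W''} {e : W → W'} {e' : W' → W''} {A : Set W}
    {B : Set W'} (h' : Emb T U e' B) (h : Emb S T e A) (m : MapsTo e A B) : Emb S U (e' ∘ e) A :=
  ⟨h'.inj.comp h.inj m, fun l hl => by rw [← List.map_map, h'.lab _ (hl.map m), h.lab l hl],
    fun l hl k => by rw [← List.map_map, h'.f _ (hl.map m), h.f l hl]; rfl⟩

theorem Emb.ag {S : Pre W} {T U : Pre W'} {e : W → W'} {A : Set W} {B : Set W'} (h : Emb S T e A)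
    (h' : Ag T U B) (m : MapsTo e A B) : Emb S U e A := h'.emb.comp h m

def Closed (S : Pre W) (M : Set W) : Prop := ∀ l, In l M → ∀ k, S.f l k ∈ M

theorem map_inv {e : W → W'} {r : W' → W} {A : Set W} (hr : ∀ x ∈ A, r (e x) = x) {l : List W}
    (hl : In l A) : (l.map e).map r = l := by
  rw [List.map_map, List.map_congr_left (f := r ∘ e) (g := id) fun x hx => hr x (hl x hx),
    List.map_id]

theorem Emb.inv {S : Pre W} {T : Pre W'} {e : W → W'} {A : Set W} (h : Emb S T e A)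
    (hc : Closed S A) {r : W' → W} (hr : ∀ x ∈ A, r (e x) = x) : Emb T S r (e '' A) := by
  refine ⟨?_, fun l hl => ?_, fun l hl k => ?_⟩
  · rintro _ ⟨x, hx, rfl⟩ _ ⟨y, hy, rfl⟩ e'
    rw [hr x hx, hr y hy] at e'
    rw [e']
  · obtain ⟨l0, a, rfl⟩ := hl.lift
    rw [map_inv hr a, h.lab l0 a]
  · obtain ⟨l0, a, rfl⟩ := hl.lift
    rw [map_inv hr a, h.f l0 a, hr _ (hc l0 a k)]

theorem Emb.exists_inv {S : Pre W} {T : Pre W'} {e : W → W'} {A : Set W} (h : Emb S T e A) :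
    ∃ r : W' → W, ∀ x ∈ A, r (e x) = x :=
  have : Nonempty W := ⟨S.f [] 0⟩
  ⟨Function.invFunOn e A, fun _ hx => h.inj.leftInvOn_invFunOn hx⟩

theorem Emb.closed {S : Pre W} {T : Pre W'} {e : W → W'} {A : Set W} (h : Emb S T e A)
    (hc : Closed S A) : Closed T (e '' A) := fun l hl k => by
  obtain ⟨l0, a, rfl⟩ := hl.lift
  rw [h.f l0 a]
  exact mem_image_of_mem _ (hc l0 a k)

def Pre.c (S : Pre W) (x y : W) : ℕ := S.lab [x, y]

theorem Emb.c {S : Pre W} {T : Pre W'} {e : W → W'} {A : Set W} (h : Emb S T e A) {x y : W}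
    (hx : x ∈ A) (hy : y ∈ A) : T.c (e x) (e y) = S.c x y := h.lab [x, y] (by simp [hx, hy])

theorem Ag.c {S T : Pre W} {A : Set W} (h : Ag S T A) {x y : W}
    (hx : x ∈ A) (hy : y ∈ A) : T.c x y = S.c x y := h.emb.c hx hy

def Tri (S : Pre W) (M : Set W) : Prop :=
  ∀ x ∈ M, ∀ y ∈ M, ∀ z ∈ M, x ≠ y → y ≠ z → x ≠ z → ¬ (S.c x y = S.c y z ∧ S.c x y = S.c x z)

def FD (S : Pre W) (H : Set W) : Prop :=
  {l | In l H ∧ S.lab l ≠ 0}.Finite ∧ {p : List W × ℕ | In p.1 H ∧ S.f p.1 p.2 ≠ S.f [] 0}.Finite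

theorem FD.mono {S : Pre W} {H H' : Set W} (h : FD S H) (hH : H' ⊆ H) : FD S H' :=
  ⟨h.1.subset fun _ a => ⟨a.1.mono hH, a.2⟩, h.2.subset fun _ a => ⟨a.1.mono hH, a.2⟩⟩

def LF (S : Pre W) (M : Set W) : Prop :=
  ∀ X : Set W, X.Finite → X ⊆ M → ∃ H, H.Finite ∧ X ⊆ H ∧ H ⊆ M ∧ Closed S H ∧ FD S H

end

abbrev Code := Finset ℕ × (List ℕ →₀ ℕ) × (List ℕ × ℕ →₀ ℕ) × List ℕ

theorem exists_code : ∃ code : ℕ → Code, ∀ τ N, ∃ n, N ≤ n ∧ code n = τ := by
  obtain ⟨f, hf⟩ := exists_surjective_nat (Code × ℕ)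
  refine ⟨fun n => (f n).1, fun τ N => ?_⟩
  choose g hg using hf
  have hinf : (range fun i : ℕ => g (τ, i)).Infinite :=
    infinite_range_of_injective fun i j hij => by
      have := congrArg f hij
      simpa [hg] using this
  obtain ⟨_, ⟨i, rfl⟩, hi⟩ := hinf.exists_gt N
  exact ⟨_, hi.le, by simp [hg]⟩

noncomputable def code : ℕ → Code := exists_code.choose

def Bs (i : ℕ) : Set ℕ := ↑(code i).1
noncomputable def Bp (i : ℕ) : Pre ℕ := ⟨(code i).2.1, fun l k => (code i).2.2.1 (l, k)⟩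
noncomputable def al (i : ℕ) : List ℕ := (code i).2.2.2
def As (i : ℕ) : Set ℕ := {x | x ∈ al i}

def Task {W : Type} (i : ℕ) (S : Pre W) (M : Set W) : Prop :=
  ∀ y1 ∈ M, ∀ y2 ∈ M, ∀ z1 ∈ M, ∀ z2 ∈ M, ∀ e0 : ℕ → W, Emb (Bp i) S e0 (As i) →
    MapsTo e0 (As i) M → i < S.c y1 y2 → S.lab (y1 :: y2 :: y1 :: (al i).map e0) ≤ S.c z1 z2 →
    ∃ e, EqOn e e0 (As i) ∧ Emb (Bp i) S e (Bs i) ∧
      MapsTo e (Bs i) (range (S.f (z1 :: z2 :: y1 :: y2 :: (al i).map e0)))

def Base (i : ℕ) : Prop :=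
  As i ⊆ Bs i ∧ Closed (Bp i) (As i) ∧ Closed (Bp i) (Bs i) ∧ Tri (Bp i) (Bs i) ∧
    FD (Bp i) (Bs i) ∧ ∀ x ∈ Bs i, ∀ y ∈ Bs i, (Bp i).c x y ≤ i

def feas (i : ℕ) : Prop := Base i ∧ ∀ j : Fin i, feas j → Task j (Bp i) (Bs i)
decreasing_by exact j.2

structure Good {W : Type} (S : Pre W) (M : Set W) : Prop where
  cl : Closed S M
  tri : Tri S M
  lf : LF S M
  task : ∀ i, feas i → Task i S M

theorem feas.base {i : ℕ} (h : feas i) : Base i := by rw [feas] at h; exact h.1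

theorem feas.good {i : ℕ} (h : feas i) : Good (Bp i) (Bs i) := by
  rw [feas] at h
  obtain ⟨⟨-, -, a, b, c, d⟩, e⟩ := h
  refine ⟨a, b, fun X _ hX => ⟨_, Finset.finite_toSet _, hX, subset_rfl, a, c⟩, fun j hj => ?_⟩
  by_cases hji : j < i
  · exact e ⟨j, hji⟩ hj
  · intro y1 h1 y2 h2 _ _ _ _ _ _ _ h
    have := d y1 h1 y2 h2
    omega

section
variable {W W' : Type} {S : Pre W} {T : Pre W'}

theorem Good.fd {M : Set W} (h : Good S M) (hM : M.Finite) : FD S M := by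
  obtain ⟨H, -, a, -, -, b⟩ := h.lf M hM subset_rfl
  exact b.mono a

theorem in_al (i : ℕ) : In (al i) (As i) := fun _ h => h

theorem Good.mono {M N : Set W} (h : Good S M) (hN : N ⊆ M) (hc : Closed S N) : Good S N := by
  refine ⟨hc, fun x a y b z c => h.tri x (hN a) y (hN b) z (hN c), fun X a b => ?_,
    fun i hi y1 a y2 b z1 c z2 d e0 f g =>
      h.task i hi y1 (hN a) y2 (hN b) z1 (hN c) z2 (hN d) e0 f (g.mono_right hN)⟩
  obtain ⟨H, h1, h2, h3, h4, h5⟩ := h.lf X a (b.trans hN)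
  exact ⟨H ∩ N, h1.inter_of_left _, subset_inter h2 b, inter_subset_right,
    fun l hl k => ⟨h4 l (hl.mono inter_subset_left) k, hc l (hl.mono inter_subset_right) k⟩,
    h5.mono inter_subset_left⟩

theorem Good.loc {M : Set W} (h : ∀ X : Set W, X.Finite → X ⊆ M → ∃ N, X ⊆ N ∧ N ⊆ M ∧ Good S N) :
    Good S M := by
  refine ⟨fun l hl k => ?_, fun x a y b z c => ?_, fun X a b => ?_,
    fun i hi y1 a y2 b z1 c z2 d e0 f g => ?_⟩
  · obtain ⟨N, h1, h2, h3⟩ := h {x | x ∈ l} l.finite_toSet hl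
    exact h2 (h3.cl l h1 k)
  · obtain ⟨N, h1, h2, h3⟩ := h {x, y, z} (toFinite _) (by simp [insert_subset_iff, a, b, c])
    exact h3.tri x (h1 (by simp)) y (h1 (by simp)) z (h1 (by simp))
  · obtain ⟨N, h1, h2, h3⟩ := h X a b
    obtain ⟨H, k1, k2, k3, k4⟩ := h3.lf X a h1
    exact ⟨H, k1, k2, k3.trans h2, k4⟩
  · obtain ⟨N, h1, h2, h3⟩ := h ({y1, y2, z1, z2} ∪ e0 '' As i)
      ((toFinite _).union ((al i).finite_toSet.image _))
      (union_subset (by simp [insert_subset_iff, a, b, c, d]) g.image_subset)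
    exact h3.task i hi y1 (h1 (by simp)) y2 (h1 (by simp)) z1 (h1 (by simp)) z2 (h1 (by simp)) e0 f
      fun x hx => h1 (Or.inr (mem_image_of_mem _ hx))

theorem Good.map {M : Set W} {e : W → W'} (h : Good S M) (he : Emb S T e M) : Good T (e '' M) := by
  obtain ⟨r, hr⟩ := he.exists_inv
  have hi := he.inv h.cl hr
  have mr : MapsTo r (e '' M) M := by rintro _ ⟨x, hx, rfl⟩; rwa [hr x hx]
  refine ⟨he.closed h.cl, ?_, fun X a b => ?_, fun i hf => ?_⟩
  · rintro _ ⟨x, a, rfl⟩ _ ⟨y, b, rfl⟩ _ ⟨z, c, rfl⟩ h1 h2 h3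
    rw [he.c a b, he.c b c, he.c a c]
    exact h.tri x a y b z c (fun e => h1 (e ▸ rfl)) (fun e => h2 (e ▸ rfl)) (fun e => h3 (e ▸ rfl))
  · obtain ⟨H, h1, h2, h3, h4, h5⟩ := h.lf (r '' X) (a.image _) (mr.mono_left b).image_subset
    refine ⟨e '' H, h1.image _, fun x hx => ?_, image_mono h3, (he.mono h3).closed h4, ?_, ?_⟩
    · obtain ⟨y, hy, rfl⟩ := b hx
      exact mem_image_of_mem _ (hr y hy ▸ h2 (mem_image_of_mem r hx))
    · refine (h5.1.image (List.map e)).subset ?_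
      rintro l ⟨k1, k2⟩
      obtain ⟨l0, k3, rfl⟩ := k1.lift
      exact ⟨l0, ⟨k3, by rwa [he.lab l0 (k3.mono h3)] at k2⟩, rfl⟩
    · refine (h5.2.image (Prod.map (List.map e) id)).subset ?_
      rintro ⟨l, k⟩ ⟨k1, k2⟩
      obtain ⟨l0, k3, rfl⟩ := In.lift k1
      refine ⟨(l0, k), ⟨k3, fun e' => k2 ?_⟩, rfl⟩
      have := he.f [] (in_nil _) 0
      simp only [List.map_nil] at this e' ⊢
      rw [he.f l0 (k3.mono h3), e', this]
  · rintro _ ⟨y1, a, rfl⟩ _ ⟨y2, b, rfl⟩ _ ⟨z1, c, rfl⟩ _ ⟨z2, d, rfl⟩ e0 f g h1 h2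
    have m0 : MapsTo (r ∘ e0) (As i) M := mr.comp g
    have e1 : ∀ x ∈ As i, e (r (e0 x)) = e0 x := fun x hx => by
      obtain ⟨y, hy, e'⟩ := g hx
      rw [← e', hr y hy]
    have e2 : ((al i).map (r ∘ e0)).map e = (al i).map e0 := by
      rw [List.map_map]; exact List.map_congr_left e1
    have i1 : In ((al i).map (r ∘ e0)) M := (in_al i).map m0
    obtain ⟨e', k1, k2, k3⟩ := h.task i hf y1 a y2 b z1 c z2 d (r ∘ e0) (hi.comp f g) m0
      (by rwa [he.c a b] at h1) (by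
        rw [← he.c c d, ← he.lab _ (by simp [a, b, i1])]
        simpa only [List.map_cons, e2] using h2)
    have i2 : In (z1 :: z2 :: y1 :: y2 :: (al i).map (r ∘ e0)) M := by simp [a, b, c, d, i1]
    refine ⟨e ∘ e', fun x hx => ?_, he.comp k2 fun x hx => ?_, fun x hx => ?_⟩
    · rw [Function.comp_apply, k1 hx]; exact e1 x hx
    · obtain ⟨k, hk⟩ := k3 hx
      exact hk ▸ h.cl _ i2 k
    · obtain ⟨k, hk⟩ := k3 hx
      refine ⟨k, ?_⟩
      rw [Function.comp_apply, ← hk, ← he.f _ i2]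
      simp only [List.map_cons, e2]

theorem Good.ag {M : Set W} {S' : Pre W} (h : Good S M) (he : Ag S S' M) : Good S' M := by
  simpa using h.map he.emb

theorem Good.pull {M : Set W} {N : Set W'} {e : W → W'} (h : Good T N) (he : Emb S T e M)
    (hc : Closed S M) (m : MapsTo e M N) : Good S M := by
  obtain ⟨r, hr⟩ := he.exists_inv
  have := (h.mono m.image_subset (he.closed hc)).map (he.inv hc hr)
  rwa [image_image, image_congr (g := id) hr, image_id] at this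

theorem big_col (h : Tri S univ) [Infinite W] (n : ℕ) : ∃ x y, n < S.c x y := by
  have : ∀ D : Finset ℕ, ∀ X : Set W, X.Infinite → ∃ x ∈ X, ∃ y ∈ X, x ≠ y ∧ S.c x y ∉ D := by
    intro D
    induction D using Finset.strongInduction with
    | H D ih =>
      intro X hX
      by_contra! hc
      obtain ⟨x, hx⟩ := hX.nonempty
      obtain ⟨d, hd, hd'⟩ : ∃ d ∈ D, {y ∈ X \ {x} | S.c x y = d}.Infinite := by
        by_contra! h'
        refine (hX.sdiff (finite_singleton x)) ((D.finite_toSet.biUnion fun d hd => h' d hd).subset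
          fun y hy => mem_biUnion (hc x hx y hy.1 (Ne.symm hy.2)) ⟨hy, rfl⟩)
      obtain ⟨y, hy, z, hz, yz, e⟩ := ih (D.erase d) (Finset.erase_ssubset hd) _ hd'
      have := hc y hy.1.1 z hz.1.1 yz
      refine h x trivial y trivial z trivial (Ne.symm hy.1.2) yz (Ne.symm hz.1.2) ⟨?_, ?_⟩
      · rw [hy.2]; by_contra h'; exact e (Finset.mem_erase.2 ⟨Ne.symm h', this⟩)
      · rw [hy.2, hz.2]
  obtain ⟨x, -, y, -, -, e⟩ := this (Finset.range (n + 1)) univ infinite_univ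
  exact ⟨x, y, by simpa using e⟩

theorem col_bd (S : Pre W) {B : Set W} (hB : B.Finite) : ∃ n, ∀ x ∈ B, ∀ y ∈ B, S.c x y ≤ n := by
  obtain ⟨n, hn⟩ := ((hB.prod hB).image fun p => S.c p.1 p.2).bddAbove
  exact ⟨n, fun x hx y hy => hn ⟨(x, y), ⟨hx, hy⟩, rfl⟩⟩

/-- every infinite good structure is rich -/
theorem rich [Infinite W'] (hT : Good T univ) {A B : Set W} (hB : Good S B) (fB : B.Finite)
    (hAB : A ⊆ B) (cA : Closed S A) {e0 : W → W'} (h0 : Emb S T e0 A) :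
    ∃ e, EqOn e e0 A ∧ Emb S T e B := by
  classical
  obtain ⟨idx0, hidx0⟩ := countable_iff_exists_injOn.1 fB.countable
  set idx := Equiv.swap 0 (idx0 (S.f [] 0)) ∘ idx0 with hidx
  have inj : InjOn idx B := (Equiv.injective _).comp_injOn hidx0
  have i0 : idx (S.f [] 0) = 0 := by simp [hidx]
  have : Nonempty W := ⟨S.f [] 0⟩
  set r := Function.invFunOn idx B
  have hr : ∀ x ∈ B, r (idx x) = x := fun _ hx => inj.leftInvOn_invFunOn hx
  have fd := hB.fd fB
  obtain ⟨n, hn⟩ := col_bd S fB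
  have fA := fB.subset hAB
  let lab : List ℕ →₀ ℕ := Finsupp.ofSupportFinite
    (fun l => if In l (idx '' B) then S.lab (l.map r) else 0) (by
      refine (fd.1.image (List.map idx)).subset fun l hl => ?_
      by_cases h : In l (idx '' B)
      · obtain ⟨l0, a, rfl⟩ := h.lift
        exact ⟨l0, ⟨a, by simpa only [Function.mem_support, if_pos h, map_inv hr a] using hl⟩, rfl⟩
      · simp [h] at hl)
  let f : List ℕ × ℕ →₀ ℕ := Finsupp.ofSupportFinite
    (fun p => if In p.1 (idx '' B) then idx (S.f (p.1.map r) p.2) else 0) (by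
      refine (fd.2.image (Prod.map (List.map idx) id)).subset fun ⟨l, k⟩ hl => ?_
      by_cases h : In l (idx '' B)
      · obtain ⟨l0, a, rfl⟩ := h.lift
        refine ⟨(l0, k), ⟨a, fun e => ?_⟩, rfl⟩
        simp only [Function.mem_support, if_pos h, map_inv hr a] at hl e
        exact hl (e ▸ i0)
      · simp [h] at hl)
  obtain ⟨i, hi, hc⟩ := exists_code.choose_spec
    ((fB.image idx).toFinset, lab, f, (fA.image idx).toFinset.toList) n
  change code i = _ at hc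
  have eB : Bs i = idx '' B := by simp [Bs, hc]
  have eA : As i = idx '' A := by ext; simp [As, al, hc]
  have em : Emb S (Bp i) idx B := by
    refine ⟨inj, fun l hl => ?_, fun l hl k => ?_⟩
    · simp only [Bp, hc, lab, Finsupp.ofSupportFinite_coe, if_pos (hl.map (mapsTo_image idx B)),
        map_inv hr hl]
    · simp only [Bp, hc, f, Finsupp.ofSupportFinite_coe, if_pos (hl.map (mapsTo_image idx B)),
        map_inv hr hl]
  have g := hB.map em
  have hf : feas i := by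
    rw [feas, Base, eB, eA]
    refine ⟨⟨image_mono hAB, (em.mono hAB).closed cA, g.cl, g.tri, g.fd (fB.image _), ?_⟩,
      fun j hj => g.task j hj⟩
    rintro _ ⟨x, a, rfl⟩ _ ⟨y, b, rfl⟩
    rw [em.c a b]
    exact (hn x a y b).trans hi
  have e1 : Emb (Bp i) T (e0 ∘ r) (As i) := by
    rw [eA]
    refine h0.comp ((em.mono hAB).inv cA fun x hx => hr x (hAB hx)) ?_
    rintro _ ⟨x, hx, rfl⟩
    rwa [hr x (hAB hx)]
  obtain ⟨y1, y2, hy⟩ := big_col hT.tri i
  obtain ⟨z1, z2, hz⟩ := big_col hT.tri (T.lab (y1 :: y2 :: y1 :: (al i).map (e0 ∘ r)))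
  obtain ⟨e, k1, k2, -⟩ := hT.task i hf y1 trivial y2 trivial z1 trivial z2 trivial _ e1
    (mapsTo_univ _ _) hy hz.le
  refine ⟨e ∘ idx, fun x hx => ?_, k2.comp em (eB ▸ mapsTo_image idx B)⟩
  rw [Function.comp_apply, k1 (eA ▸ mem_image_of_mem idx hx), Function.comp_apply, hr x (hAB hx)]

end

end Pool.Agent.H23.UC
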