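import Mathlib
import Pool.Agent.H23.UC1

set_option autoImplicit false

open Set

namespace Pool.Agent.H23.UC

variable {I : Type} {ε : ℕ}

def Par (ε : ℕ) (S : Pre (I × ℕ)) (M : Set (I × ℕ)) : Prop :=
  ∀ x ∈ M, ∀ y ∈ M, x ≠ y → x.2 = y.2 → S.c x y % 2 = ε

theorem Par.ag {S T : Pre (I × ℕ)} {M : Set (I × ℕ)} (h : Par ε S M) (a : Ag S T M) : Par ε T M :=
  fun x hx y hy b c => by rw [a.c hx hy]; exact h x hx y hy b c

theorem glue (hε : ε < 2) {S1 S2 : Pre (I × ℕ)} {H B : Set (I × ℕ)} (fH : H.Finite) (fB : B.Finite)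
    (ag : Ag S1 S2 (H ∩ B)) (t1 : Tri S1 H) (t2 : Tri S2 B) (p1 : Par ε S1 H) (p2 : Par ε S2 B) :
    ∃ S, Ag S1 S H ∧ Ag S2 S B ∧ Tri S (H ∪ B) ∧ Par ε S (H ∪ B) := by
  classical
  obtain ⟨enc, henc⟩ := countable_iff_exists_injOn.1 (fin_lists (fH.union fB) 2).countable
  obtain ⟨n1, h1⟩ := col_bd S1 fH
  obtain ⟨n2, h2⟩ := col_bd S2 fB
  set S : Pre (I × ℕ) := ⟨fun l => if In l B then S2.lab l else if In l H then S1.lab l else
    2 * (n1 + n2 + 1 + enc l) + ε, fun l => if In l B then S2.f l else S1.f l⟩ with hS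
  have a2 : Ag S2 S B := fun l hl => by simp [hS, hl]
  have a1 : Ag S1 S H := fun l hl => by
    by_cases h : In l B
    · have := ag l fun x hx => ⟨hl x hx, h x hx⟩
      simp [hS, h, this.1, this.2]
    · simp [hS, hl, h]
  have cr : ∀ x y, ¬ (x ∈ H ∧ y ∈ H) → ¬ (x ∈ B ∧ y ∈ B) →
      S.c x y = 2 * (n1 + n2 + 1 + enc [x, y]) + ε := fun x y a b => by
    simp only [hS, Pre.c, in_cons, in_nil, and_true, if_neg a, if_neg b]
  have key : ∀ x ∈ H ∪ B, ∀ y ∈ H ∪ B, ∀ u ∈ H ∪ B, ∀ v ∈ H ∪ B, ¬ (x ∈ H ∧ y ∈ H) →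
      ¬ (x ∈ B ∧ y ∈ B) → S.c x y = S.c u v → x = u ∧ y = v := by
    intro x hx y hy u hu v hv a b e
    rw [cr x y a b] at e
    by_cases c : u ∈ H ∧ v ∈ H
    · have := h1 u c.1 v c.2
      rw [a1.c c.1 c.2] at e
      omega
    by_cases d : u ∈ B ∧ v ∈ B
    · have := h2 u d.1 v d.2
      rw [a2.c d.1 d.2] at e
      omega
    rw [cr u v c d] at e
    have := @henc [x, y] ⟨by simp [hx, hy, -mem_union], by simp⟩ [u, v]
      ⟨by simp [hu, hv, -mem_union], by simp⟩ (by omega)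
    simpa using this
  refine ⟨S, a1, a2, fun x hx y hy z hz xy yz xz ⟨e1, e2⟩ => ?_, fun x hx y hy xy e => ?_⟩
  · by_cases c : x ∈ H ∧ y ∈ H ∧ z ∈ H
    · rw [a1.c c.1 c.2.1, a1.c c.2.1 c.2.2] at e1
      rw [a1.c c.1 c.2.1, a1.c c.1 c.2.2] at e2
      exact t1 x c.1 y c.2.1 z c.2.2 xy yz xz ⟨e1, e2⟩
    by_cases d : x ∈ B ∧ y ∈ B ∧ z ∈ B
    · rw [a2.c d.1 d.2.1, a2.c d.2.1 d.2.2] at e1
      rw [a2.c d.1 d.2.1, a2.c d.1 d.2.2] at e2
      exact t2 x d.1 y d.2.1 z d.2.2 xy yz xz ⟨e1, e2⟩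
    have k1 := fun a b => xy (key x hx y hy y hy z hz a b e1).1
    have k2 := fun a b => xy (key y hy z hz x hx y hy a b e1.symm).1.symm
    have k3 := fun a b => yz (key x hx z hz x hx y hy a b e2.symm).2.symm
    simp only [mem_union] at hx hy hz
    tauto
  · by_cases c : x ∈ H ∧ y ∈ H
    · rw [a1.c c.1 c.2]; exact p1 x c.1 y c.2 xy e
    by_cases d : x ∈ B ∧ y ∈ B
    · rw [a2.c d.1 d.2]; exact p2 x d.1 y d.2 xy e
    rw [cr x y c d]
    omega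

structure St (I : Type) (ε : ℕ) where
  S : Pre (I × ℕ)
  H : Set (I × ℕ)
  P : Set (Set (I × ℕ))
  fH : H.Finite
  fP : P.Finite
  sub : ∀ Q ∈ P, Q ⊆ H
  good : ∀ Q ∈ P, Good S Q
  tri : Tri S H
  par : Par ε S H

def Sol1 (i : ℕ) (st : St I ε) (e0 : ℕ → I × ℕ) : Prop :=
  Emb (Bp i) st.S e0 (As i) →
    ∃ e, EqOn e e0 (As i) ∧ Emb (Bp i) st.S e (Bs i) ∧ ∃ R ∈ st.P, MapsTo e (Bs i) R

def Sol (n : ℕ) (st : St I ε) (Q : Set (I × ℕ)) : Prop :=
  ∀ i < n, feas i → ∀ e0, MapsTo e0 (As i) Q → Sol1 i st e0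

def D (st : St I ε) (Q : Set (I × ℕ)) : Prop :=
  ∃ m, (∀ x ∈ Q, ∀ y ∈ Q, st.S.c x y ≤ m) ∧ Sol m st Q

structure Ext (a : I) (s t : St I ε) : Prop where
  H : s.H ⊆ t.H
  P : s.P ⊆ t.P
  ag : Ag s.S t.S s.H
  col : ∀ x ∈ t.H, x ∉ s.H → x.1 = a

variable {a : I}

theorem Ext.trans {s t u : St I ε} (h : Ext a s t) (k : Ext a t u) : Ext a s u :=
  ⟨h.H.trans k.H, h.P.trans k.P, h.ag.trans (k.ag.mono h.H), fun x hx hx' => by
    by_cases b : x ∈ t.H
    · exact h.col x b hx'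
    · exact k.col x hx b⟩

theorem Sol1.mono {s t : St I ε} (h : Ext a s t) {i : ℕ} {e0 : ℕ → I × ℕ}
    (m : MapsTo e0 (As i) s.H) (k : Sol1 i s e0) : Sol1 i t e0 := fun b => by
  obtain ⟨e, c, d, R, f, g⟩ := k (b.ag h.ag.symm m)
  exact ⟨e, c, d.ag h.ag (g.mono_right (s.sub R f)), R, h.P f, g⟩

theorem Sol.mono {s t : St I ε} (h : Ext a s t) {n : ℕ} {Q : Set (I × ℕ)} (hQ : Q ⊆ s.H)
    (k : Sol n s Q) : Sol n t Q :=
  fun i hi hf e0 m => (k i hi hf e0 m).mono h (m.mono_right hQ)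

theorem D.mono {s t : St I ε} (h : Ext a s t) {Q : Set (I × ℕ)} (hQ : Q ⊆ s.H) (k : D s Q) :
    D t Q := by
  obtain ⟨m, b, c⟩ := k
  exact ⟨m, fun x hx y hy => by rw [h.ag.c (hQ hx) (hQ hy)]; exact b x hx y hy, c.mono h hQ⟩

def Step (a : I) (s t : St I ε) : Prop := Ext a s t ∧ ∀ Q ∈ t.P, Q ∉ s.P → D t Q

theorem Step.refl (s : St I ε) : Step a s s :=
  ⟨⟨subset_rfl, subset_rfl, Ag.refl _ _, fun _ b c => absurd b c⟩, fun _ b c => absurd b c⟩

theorem Step.trans {s t u : St I ε} (h : Step a s t) (k : Step a t u) : Step a s u :=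
  ⟨h.1.trans k.1, fun Q b c => by
    by_cases d : Q ∈ t.P
    · exact (h.2 Q d c).mono k.1 (t.sub Q d)
    · exact k.2 Q b d⟩

theorem goals {τ : Type} (G : τ → St I ε → Prop) (s : St I ε) {T : Set τ} (hT : T.Finite)
    (mono : ∀ x ∈ T, ∀ t u, Step a s t → Step a t u → G x t → G x u)
    (ach : ∀ x ∈ T, ∀ t, Step a s t → ∃ u, Step a t u ∧ G x u) :
    ∃ t, Step a s t ∧ ∀ x ∈ T, G x t := by
  induction T, hT using Set.Finite.induction_on with
  | empty => exact ⟨s, Step.refl s, by simp⟩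
  | @insert x T _ _ ih =>
    obtain ⟨t, h1, h2⟩ := ih (fun y hy => mono y (Or.inr hy)) (fun y hy => ach y (Or.inr hy))
    obtain ⟨u, h3, h4⟩ := ach x (Or.inl rfl) t h1
    refine ⟨u, h1.trans h3, ?_⟩
    rintro y (rfl | hy)
    · exact h4
    · exact mono y (Or.inr hy) t u h1 h3 (h2 y hy)

theorem addcopy (hε : ε < 2) (a : I) (s : St I ε) {i : ℕ} (hf : feas i) {e0 : ℕ → I × ℕ}
    (h0 : Emb (Bp i) s.S e0 (As i)) (m : MapsTo e0 (As i) s.H) :
    ∃ t, Ext a s t ∧ ∃ e, EqOn e e0 (As i) ∧ Emb (Bp i) t.S e (Bs i) ∧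
      t.P = insert (e '' Bs i) s.P := by
  classical
  obtain ⟨N, hN⟩ := (s.fH.image Prod.snd).bddAbove
  have hN' : ∀ x ∈ s.H, x.2 ≤ N := fun x hx => hN (mem_image_of_mem _ hx)
  set e : ℕ → I × ℕ := fun x => if x ∈ As i then e0 x else (a, N + 1 + x) with he
  have e1 : ∀ x ∈ As i, e x = e0 x := fun x hx => if_pos hx
  have e2 : ∀ x, x ∉ As i → e x = (a, N + 1 + x) := fun x hx => if_neg hx
  have sn : ∀ x y, (e x).2 = (e y).2 → x = y ∨ (x ∈ As i ∧ y ∈ As i) := fun x y h => by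
    by_cases hx : x ∈ As i <;> by_cases hy : y ∈ As i
    · exact Or.inr ⟨hx, hy⟩
    · have := hN' _ (m hx); rw [e1 x hx, e2 y hy] at h; simp only at h; omega
    · have := hN' _ (m hy); rw [e2 x hx, e1 y hy] at h; simp only at h; omega
    · rw [e2 x hx, e2 y hy] at h; simp only at h; omega
  have inj : InjOn e (Bs i) := fun x _ y _ h => (sn x y (congrArg Prod.snd h)).elim id
    fun b => h0.inj b.1 b.2 (by rwa [e1 x b.1, e1 y b.2] at h)
  set r := Function.invFunOn e (Bs i)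
  have hr : ∀ x ∈ Bs i, r (e x) = x := fun _ hx => inj.leftInvOn_invFunOn hx
  set S2 : Pre (I × ℕ) := ⟨fun l => (Bp i).lab (l.map r), fun l k => e ((Bp i).f (l.map r) k)⟩
    with hS2
  have em : Emb (Bp i) S2 e (Bs i) :=
    ⟨inj, fun l hl => by simp only [hS2, map_inv hr hl], fun l hl k => by
      simp only [hS2, map_inv hr hl]⟩
  obtain ⟨b1, b2, -, -, -, -⟩ := hf.base
  have ag0 : Ag s.S S2 (e '' As i) := fun l hl => by
    obtain ⟨l0, c, rfl⟩ := hl.lift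
    have d : l0.map e = l0.map e0 := List.map_congr_left fun x hx => e1 x (c x hx)
    refine ⟨by rw [em.lab l0 (c.mono b1), d, h0.lab l0 c], funext fun k => ?_⟩
    rw [em.f l0 (c.mono b1), d, h0.f l0 c, e1 _ (b2 l0 c k)]
  have sb : s.H ∩ e '' Bs i ⊆ e '' As i := by
    rintro _ ⟨c, x, -, rfl⟩
    refine mem_image_of_mem _ (by_contra fun hx => ?_)
    have := hN' _ c
    rw [e2 x hx] at this
    simp only at this
    omega
  have g := hf.good.map em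
  have fB : (e '' Bs i).Finite := (Finset.finite_toSet _).image _
  obtain ⟨S, a1, a2, t, p⟩ := glue hε s.fH fB (ag0.mono sb) s.tri g.tri s.par (by
    rintro _ ⟨x, hx, rfl⟩ _ ⟨y, hy, rfl⟩ xy h
    obtain rfl | ⟨c, d⟩ := sn x y h
    · exact absurd rfl xy
    · rw [ag0.c (mem_image_of_mem _ c) (mem_image_of_mem _ d)]
      exact s.par _ (e1 x c ▸ m c) _ (e1 y d ▸ m d) xy h)
  refine ⟨⟨S, s.H ∪ e '' Bs i, insert (e '' Bs i) s.P, s.fH.union fB, s.fP.insert _, ?_, ?_, t, p⟩,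
    ⟨subset_union_left, subset_insert _ _, a1, ?_⟩, e, e1, em.ag a2 (mapsTo_image _ _), rfl⟩
  · rintro Q (rfl | hQ)
    · exact subset_union_right
    · exact (s.sub Q hQ).trans subset_union_left
  · rintro Q (rfl | hQ)
    · exact g.ag a2
    · exact (s.good Q hQ).ag (a1.mono (s.sub Q hQ))
  · rintro _ (c | ⟨x, -, rfl⟩) d
    · exact absurd c d
    · rw [e2 x fun hx => d (e1 x hx ▸ m hx)]

theorem complete (hε : ε < 2) (a : I) (n : ℕ) : ∀ (s : St I ε) (Q : Set (I × ℕ)), Q ⊆ s.H →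
    ∃ t, Step a s t ∧ Sol n t Q := by
  induction n with
  | zero => exact fun s Q _ => ⟨s, Step.refl s, fun i hi => absurd hi (Nat.not_lt_zero _)⟩
  | succ n ih =>
    intro s Q hQ
    obtain ⟨s1, h1, h2⟩ := ih s Q hQ
    have hQ1 := hQ.trans h1.1.H
    obtain ⟨t, h3, h4⟩ := goals (a := a) (fun l t => feas n → ∀ e0, (al n).map e0 = l → Sol1 n t e0)
      s1 (fin_lists (s.fH.subset hQ) (al n).length)
      (fun l hl t u b c d hf e0 he => (d hf e0 he).mono c.1 fun x hx =>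
        b.1.H (hQ1 (hl.1 _ (he ▸ List.mem_map_of_mem hx)))) (fun l hl t b => by
        by_cases hx : feas n ∧ ∃ e0, (al n).map e0 = l ∧ Emb (Bp n) t.S e0 (As n)
        · obtain ⟨hf, e0, c, d⟩ := hx
          have m : ∀ e1 : ℕ → I × ℕ, (al n).map e1 = l → MapsTo e1 (As n) t.H := fun e1 c x hx =>
            b.1.H (hQ1 (hl.1 _ (c ▸ List.mem_map_of_mem hx)))
          obtain ⟨t1, k1, e, k2, k3, k4⟩ := addcopy hε a t hf d (m e0 c)
          have k5 : e '' Bs n ∈ t1.P := k4 ▸ mem_insert _ _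
          obtain ⟨t2, k6, k7⟩ := ih t1 _ (t1.sub _ k5)
          have k8 : Emb (Bp n) t2.S e (Bs n) :=
            k3.ag k6.1.ag ((mapsTo_image _ _).mono_right (t1.sub _ k5))
          refine ⟨t2, ⟨k1.trans k6.1, fun R c1 c2 => ?_⟩, fun _ e1 c1 _ =>
            ⟨e, fun x hx => (k2 hx).trans ?_, k8, _, k6.1.P k5, mapsTo_image _ _⟩⟩
          · by_cases c3 : R ∈ t1.P
            · rw [k4] at c3
              obtain rfl := c3.resolve_right c2
              refine ⟨n, ?_, k7⟩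
              rintro _ ⟨x, hx, rfl⟩ _ ⟨y, hy, rfl⟩
              rw [k8.c hx hy]
              exact hf.base.2.2.2.2.2 x hx y hy
            · exact k6.2 R c1 c3
          · exact List.map_inj_left.1 (c.trans c1.symm) x hx
        · exact ⟨t, Step.refl t, fun hf e0 c d => absurd ⟨hf, e0, c, d⟩ hx⟩)
    refine ⟨t, h1.trans h3, fun i hi hf e0 m => ?_⟩
    rcases Nat.lt_succ_iff_lt_or_eq.1 hi with hi | rfl
    · exact (h2.mono h3.1 hQ1) i hi hf e0 m
    · exact h4 _ ⟨(in_al i).map m, by simp⟩ hf e0 rfl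

theorem final (s : St I ε) (hne : s.P.Nonempty) (hD : ∀ Q ∈ s.P, D s Q) :
    ∃ S, Good S s.H ∧ Par ε S s.H ∧ ∀ Q ∈ s.P, Ag s.S S Q := by
  classical
  obtain ⟨n, hn⟩ := col_bd s.S s.fH
  set Λ := (Finset.range n).sup (fun i => (al i).length) + 4 with hΛ
  set o := s.S.f [] 0
  set L := s.fH.toFinset.toList
  set S : Pre (I × ℕ) := ⟨fun l => if (∃ Q ∈ s.P, In l Q) ∨ l.length = 2 then s.S.lab l else
    if l.length ≤ Λ then n + 1 else 0, fun l k => if ∃ Q ∈ s.P, In l Q then s.S.f l k else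
    if l.length ≤ Λ then L.getD k o else o⟩ with hS
  have ag : ∀ Q ∈ s.P, Ag s.S S Q := fun Q hQ l hl => by
    have : ∃ Q ∈ s.P, In l Q := ⟨Q, hQ, hl⟩
    exact ⟨if_pos (Or.inl this), funext fun k => if_pos this⟩
  have hc : ∀ x y, S.c x y = s.S.c x y := fun x y => if_pos (Or.inr rfl)
  obtain ⟨Q0, hQ0⟩ := hne
  have ho : o ∈ s.H := s.sub _ hQ0 ((s.good _ hQ0).cl [] (in_nil _) 0)
  have ho' : S.f [] 0 = o := congrFun (ag _ hQ0 [] (in_nil _)).2 0
  have cl : Closed S s.H := fun l hl k => by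
    simp only [hS]
    split_ifs with h1 h2
    · obtain ⟨Q, b, c⟩ := h1
      exact s.sub Q b ((s.good Q b).cl l c k)
    · rcases lt_or_ge k L.length with h | h
      · rw [List.getD_eq_getElem _ _ h]
        exact s.fH.mem_toFinset.1 (Finset.mem_toList.1 (List.getElem_mem h))
      · rwa [List.getD_eq_default _ _ h]
    · exact ho
  have fdQ : ∀ Q ∈ s.P, FD s.S Q := fun Q hQ => (s.good Q hQ).fd (s.fH.subset (s.sub Q hQ))
  have fd : FD S s.H := by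
    constructor
    · refine ((s.fP.biUnion fun Q hQ => (fdQ Q hQ).1).union (fin_lists s.fH Λ)).subset ?_
      rintro l ⟨h1, h2⟩
      by_cases h : l.length ≤ Λ
      · exact Or.inr ⟨h1, h⟩
      · by_cases h' : ∃ Q ∈ s.P, In l Q
        · obtain ⟨Q, b, c⟩ := h'
          exact Or.inl (mem_biUnion b ⟨c, (ag Q b l c).1 ▸ h2⟩)
        · have : l.length ≠ 2 := by omega
          simp [hS, h, h', this] at h2
    · refine ((s.fP.biUnion fun Q hQ => (fdQ Q hQ).2).union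
        ((fin_lists s.fH Λ).prod (finite_lt_nat L.length))).subset ?_
      rintro ⟨l, k⟩ ⟨h1, h2⟩
      rw [ho'] at h2
      by_cases h' : ∃ Q ∈ s.P, In l Q
      · obtain ⟨Q, b, c⟩ := h'
        exact Or.inl (mem_biUnion b ⟨c, (ag Q b l c).2 ▸ h2⟩)
      · simp only [hS, if_neg h'] at h2
        split_ifs at h2 with h
        · exact Or.inr ⟨⟨h1, h⟩, by_contra fun h3 => h2 (List.getD_eq_default _ _ (not_lt.1 h3))⟩
        · exact absurd rfl h2
  refine ⟨S, ⟨cl, fun x b y c z d => by simpa only [hc] using s.tri x b y c z d,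
    fun X _ hX => ⟨_, s.fH, hX, subset_rfl, cl, fd⟩, fun i hf => ?_⟩,
    fun x b y c => by simpa only [hc] using s.par x b y c, ag⟩
  intro y1 b1 y2 b2 z1 b3 z2 b4 e0 h0 m h1 h2
  rw [hc] at h1 h2
  have hi : (al i).length + 4 ≤ Λ := by
    have := Finset.le_sup (f := fun i => (al i).length)
      (Finset.mem_range.2 (h1.trans_le (hn y1 b1 y2 b2)))
    omega
  obtain ⟨Q, hQ, iQ⟩ : ∃ Q ∈ s.P, In (y1 :: y2 :: y1 :: (al i).map e0) Q := by
    by_contra h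
    have c1 : (y1 :: y2 :: y1 :: (al i).map e0).length ≤ Λ := by simp; omega
    have c2 : (y1 :: y2 :: y1 :: (al i).map e0).length ≠ 2 := by simp
    simp only [hS, h, c2, or_self, if_false, if_pos c1] at h2
    have := hn z1 b3 z2 b4
    omega
  rw [(ag Q hQ _ iQ).1] at h2
  by_cases h : ∃ R ∈ s.P, In (z1 :: z2 :: y1 :: y2 :: (al i).map e0) R
  · obtain ⟨R, hR, iR⟩ := h
    have iR' := iR
    simp only [in_cons] at iR'
    have m' : MapsTo e0 (As i) R := fun x hx => iR'.2.2.2.2 _ (List.mem_map_of_mem hx)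
    obtain ⟨e, k1, k2, k3⟩ := (s.good R hR).task i hf y1 iR'.2.2.1 y2 iR'.2.2.2.1 z1 iR'.1 z2
      iR'.2.1 e0 (h0.ag (ag R hR).symm m') m' h1 h2
    refine ⟨e, k1, k2.ag (ag R hR) fun x hx => ?_, by rwa [(ag R hR _ iR).2]⟩
    obtain ⟨k, hk⟩ := k3 hx
    exact hk ▸ (s.good R hR).cl _ iR k
  · simp only [in_cons] at iQ
    have m' : MapsTo e0 (As i) Q := fun x hx => iQ.2.2.2 _ (List.mem_map_of_mem hx)
    obtain ⟨μ, d1, d2⟩ := hD Q hQ
    obtain ⟨e, k1, k2, R, hR, k3⟩ := d2 i (h1.trans_le (d1 y1 iQ.1 y2 iQ.2.1)) hf e0 m'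
      (h0.ag (ag Q hQ).symm m')
    refine ⟨e, k1, k2.ag (ag R hR) k3, fun x hx => ?_⟩
    have c1 : (z1 :: z2 :: y1 :: y2 :: (al i).map e0).length ≤ Λ := by simp; omega
    obtain ⟨k, hk, e'⟩ := List.getElem_of_mem (show e x ∈ L by simpa [L] using s.sub R hR (k3 hx))
    refine ⟨k, ?_⟩
    simp only [hS, if_neg h, if_pos c1]
    rw [List.getD_eq_getElem _ _ hk, e']

theorem finish (hε : ε < 2) (a : I) (s : St I ε) (hne : s.P.Nonempty) :
    ∃ S H, H.Finite ∧ Good S H ∧ Par ε S H ∧ s.H ⊆ H ∧ (∀ Q ∈ s.P, Ag s.S S Q) ∧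
      ∀ x ∈ H, x ∉ s.H → x.1 = a := by
  obtain ⟨t, h1, h2⟩ := goals (a := a) (fun Q t => D t Q) s s.fP
    (fun Q hQ t u b c d => d.mono c.1 ((s.sub Q hQ).trans b.1.H)) (fun Q hQ t b => by
      obtain ⟨n, hn⟩ := col_bd t.S (s.fH.subset (s.sub Q hQ))
      have c := (s.sub Q hQ).trans b.1.H
      obtain ⟨u, d, e⟩ := complete hε a n t Q c
      exact ⟨u, d, n, fun x hx y hy => by rw [d.1.ag.c (c hx) (c hy)]; exact hn x hx y hy, e⟩)
  obtain ⟨S, k1, k2, k3⟩ := final t (hne.mono h1.1.P) fun Q hQ => by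
    by_cases b : Q ∈ s.P
    · exact h2 Q b
    · exact h1.2 Q hQ b
  exact ⟨S, t.H, t.fH, k1, k2, h1.1.H,
    fun Q hQ => (h1.1.ag.mono (s.sub Q hQ)).trans (k3 Q (h1.1.P hQ)), h1.1.col⟩

end Pool.Agent.H23.UC
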