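import Mathlib
import Pool.Agent.H23.UC2

set_option autoImplicit false

open Set FirstOrder

namespace Pool.Agent.H23.UC

section
variable {I : Type} {ε : ℕ}

def Le {W : Type} (p q : Pre W × Set W) : Prop := p.2 ⊆ q.2 ∧ Ag p.1 q.1 p.2

theorem Le.trans {W : Type} {p q r : Pre W × Set W} (h : Le p q) (k : Le q r) : Le p r :=
  ⟨h.1.trans k.1, h.2.trans (k.2.mono h.1)⟩

theorem union {ι : Type} [Nonempty ι] (p : ι → Pre (I × ℕ) × Set (I × ℕ)) (hd : Directed Le p)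
    (g : ∀ i, Good (p i).1 (p i).2) (pa : ∀ i, Par ε (p i).1 (p i).2) :
    ∃ S, (∀ i, Ag (p i).1 S (p i).2) ∧ Good S (⋃ i, (p i).2) ∧ Par ε S (⋃ i, (p i).2) := by
  classical
  obtain ⟨i0⟩ := ‹Nonempty ι›
  have : ∀ l : List (I × ℕ), ∃ j, ∀ i, In l (p i).2 → In l (p j).2 := fun l => by
    by_cases h : ∃ i, In l (p i).2
    · exact h.imp fun _ h _ _ => h
    · exact ⟨i0, fun i hi => absurd ⟨i, hi⟩ h⟩
  choose j hj using this
  set S : Pre (I × ℕ) := ⟨fun l => (p (j l)).1.lab l, fun l => (p (j l)).1.f l⟩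
  have ag : ∀ i, Ag (p i).1 S (p i).2 := fun i l hl => by
    obtain ⟨k, a, b⟩ := hd i (j l)
    have c := a.2 l hl
    have d := b.2 l (hj l i hl)
    exact ⟨d.1.symm.trans c.1, d.2.symm.trans c.2⟩
  have fin : ∀ X : Set (I × ℕ), X.Finite → X ⊆ ⋃ i, (p i).2 → ∃ i, X ⊆ (p i).2 := fun X a b => by
    have hd' : Directed (· ⊆ ·) fun i => (p i).2 := fun i k =>
      (hd i k).imp fun _ h => ⟨h.1.1, h.2.1⟩
    simpa using hd'.exists_mem_subset_of_finset_subset_biUnion (s := a.toFinset) (by simpa using b)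
  refine ⟨S, ag, Good.loc fun X a b => ?_, fun x hx y hy => ?_⟩
  · obtain ⟨i, hi⟩ := fin X a b
    exact ⟨_, hi, subset_iUnion (fun i => (p i).2) i, (g i).ag (ag i)⟩
  · obtain ⟨i, hi⟩ := fin {x, y} (toFinite _) (by simp [insert_subset_iff, hx, hy, -mem_iUnion])
    exact ((pa i).ag (ag i)) x (hi (by simp)) y (hi (by simp))

theorem extend (hε : ε < 2) (a : I) {S : Pre (I × ℕ)} {M : Set (I × ℕ)} (hM : M.Countable)
    (g : Good S M) (pa : Par ε S M) (ha : ∀ x ∈ M, x.1 ≠ a) :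
    ∃ S' M', Le (S, M) (S', M') ∧ Good S' M' ∧ Par ε S' M' ∧ (a, 0) ∈ M' := by
  let Inv : Pre (I × ℕ) × Set (I × ℕ) → Prop := fun p =>
    p.2.Finite ∧ Good p.1 p.2 ∧ Par ε p.1 p.2 ∧ (a, 0) ∈ p.2 ∧ Ag S p.1 (p.2 ∩ M)
  have start : ∃ p, Inv p := by
    obtain ⟨B, b1, -, b2, b3, -⟩ := g.lf ∅ finite_empty (empty_subset _)
    have gB := g.mono b2 b3
    obtain ⟨S1, a1, -, t, p⟩ := glue hε b1 (finite_singleton (a, 0)) (Ag.refl S _) gB.tri
      (by rintro _ rfl _ rfl _ _ h; exact absurd rfl h) (fun x hx y hy => pa x (b2 hx) y (b2 hy))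
      (by rintro _ rfl _ rfl h; exact absurd rfl h)
    obtain ⟨S2, H, k1, k2, k3, k4, k5, k6⟩ := finish hε a ⟨S1, _, {B}, b1.union (finite_singleton _),
      finite_singleton _, by rintro _ rfl; exact subset_union_left,
      by rintro _ rfl; exact gB.ag a1, t, p⟩ (singleton_nonempty _)
    refine ⟨(S2, H), k1, k2, k3, k4 (Or.inr rfl), (a1.trans (k5 B rfl)).mono fun x hx => ?_⟩
    by_contra h
    by_cases h' : x ∈ B ∪ {(a, 0)}
    · exact ha x hx.2 (by rw [h'.resolve_left h])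
    · exact ha x hx.2 (k6 x hx.1 h')
  have step : ∀ (p : {p // Inv p}) (x : M), ∃ q : {p // Inv p}, Le p.1 q.1 ∧ x.1 ∈ q.1.2 := by
    rintro ⟨⟨S0, H0⟩, i1, i2, i3, i4, i5⟩ ⟨x, hx⟩
    obtain ⟨B, b1, b0, b2, b3, -⟩ := g.lf (insert x (H0 ∩ M)) ((i1.inter_of_left _).insert x)
      (insert_subset hx inter_subset_right)
    have gB := g.mono b2 b3
    obtain ⟨S1, a1, a2, t, p⟩ := glue hε i1 b1 (i5.symm.mono (inter_subset_inter_right _ b2))
      i2.tri gB.tri i3 (fun x hx y hy => pa x (b2 hx) y (b2 hy))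
    obtain ⟨S2, H, k1, k2, k3, k4, k5, k6⟩ := finish hε a ⟨S1, _, {H0, B}, i1.union b1,
      toFinite _, by rintro _ (rfl | rfl); exacts [subset_union_left, subset_union_right],
      by rintro _ (rfl | rfl); exacts [i2.ag a1, gB.ag a2], t, p⟩ (insert_nonempty _ _)
    refine ⟨⟨(S2, H), k1, k2, k3, k4 (Or.inl i4),
      (a2.trans (k5 B (Or.inr rfl))).mono fun y hy => ?_⟩,
      ⟨subset_union_left.trans k4, a1.trans (k5 _ (Or.inl rfl))⟩, k4 (Or.inr (b0 (Or.inl rfl)))⟩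
    by_contra h
    by_cases h' : y ∈ H0 ∪ B
    · exact h (b0 (Or.inr ⟨h'.resolve_right h, hy.2⟩))
    · exact ha y hy.2 (k6 y hy.1 h')
  choose nx s1 s2 using step
  obtain ⟨p0, hp0⟩ := start
  have : Countable M := hM
  have : Nonempty M := ⟨⟨_, g.cl [] (in_nil _) 0⟩⟩
  obtain ⟨en, hen⟩ := exists_surjective_nat M
  let q : ℕ → {p // Inv p} := fun n => Nat.rec ⟨p0, hp0⟩ (fun n p => nx p (en n)) n
  have mono : ∀ m n, m ≤ n → Le (q m).1 (q n).1 := fun m n h => by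
    induction h with
    | refl => exact ⟨subset_rfl, Ag.refl _ _⟩
    | step _ ih => exact ih.trans (s1 _ _)
  obtain ⟨S', a1, a2, a3⟩ := union (ε := ε) (fun n => (q n).1)
    (fun m n => ⟨max m n, mono _ _ (le_max_left _ _), mono _ _ (le_max_right _ _)⟩)
    (fun n => (q n).2.2.1) (fun n => (q n).2.2.2.1)
  have sub : ∀ l, In l M → ∃ n, In l (q n).1.2 := fun l hl => by
    induction l with
    | nil => exact ⟨0, in_nil _⟩
    | cons x l ih =>
      obtain ⟨n, hn⟩ := ih (in_cons.1 hl).2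
      obtain ⟨m, hm⟩ := hen ⟨x, (in_cons.1 hl).1⟩
      have := s2 (q m) (en m)
      rw [hm] at this
      refine ⟨max n (m + 1), in_cons.2 ⟨(mono _ _ (le_max_right _ _)).1 ?_,
        hn.mono (mono _ _ (le_max_left _ _)).1⟩⟩
      simpa only [q, hm] using this
  refine ⟨S', _, ⟨fun x hx => ?_, fun l hl => ?_⟩, a2, a3, mem_iUnion.2 ⟨0, hp0.2.2.2.1⟩⟩
  · obtain ⟨n, hn⟩ := sub [x] (by simpa using hx)
    exact mem_iUnion.2 ⟨n, by simpa using hn⟩
  · obtain ⟨n, hn⟩ := sub l hl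
    have b := (q n).2.2.2.2.2 l fun x hx => ⟨hn x hx, hl x hx⟩
    have c := a1 n l hn
    exact ⟨c.1.trans b.1, c.2.trans b.2⟩

def Triv {W : Type} (S : Pre W) : Prop :=
  ∀ l, In l {S.f [] 0} → S.lab l = 0 ∧ ∀ k, S.f l k = S.f [] 0

theorem Triv.push {W W' : Type} {S : Pre W} {T : Pre W'} {e : W → W'} {A : Set W} (h : Triv S)
    (he : Emb S T e A) (hA : S.f [] 0 ∈ A) : Triv T := fun l hl => by
  have o : T.f [] 0 = e (S.f [] 0) := he.f [] (in_nil _) 0
  rw [o, ← image_singleton] at hl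
  obtain ⟨l0, a, rfl⟩ := hl.lift
  have b := a.mono (singleton_subset_iff.2 hA)
  exact ⟨by rw [he.lab l0 b, (h l0 a).1], fun k => by rw [he.f l0 b, (h l0 a).2, o]⟩

theorem Triv.pull {W W' : Type} {S : Pre W} {T : Pre W'} {e : W → W'} (h : Triv T)
    (he : Emb S T e univ) : Triv S := fun l hl => by
  have o : T.f [] 0 = e (S.f [] 0) := he.f [] (in_nil _) 0
  have a := h (l.map e) (hl.map (by rintro _ rfl; exact o.symm))
  have b := hl.mono (subset_univ _)
  exact ⟨by rw [← he.lab l b, a.1], fun k => he.inj trivial trivial (by rw [← he.f l b, a.2, o])⟩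

theorem exists_unc (hε : ε < 2) [Uncountable I] : ∃ (S : Pre (I × ℕ)) (M : Set (I × ℕ)),
    Good S M ∧ Par ε S M ∧ Triv S ∧ ¬ M.Countable := by
  obtain ⟨o⟩ : Nonempty (I × ℕ) := inferInstance
  let X := {p : Pre (I × ℕ) × Set (I × ℕ) // Good p.1 p.2 ∧ Par ε p.1 p.2 ∧ Triv p.1}
  have tr : ∀ (p : X) S, Ag p.1.1 S p.1.2 → Triv S := fun p S h =>
    p.2.2.2.push h.emb (p.2.1.cl [] (in_nil _) 0)
  have x0 : X := by
    refine ⟨(⟨fun _ => 0, fun _ _ => o⟩, {o}), ⟨fun _ _ _ => rfl, ?_,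
      fun X _ hX => ⟨_, finite_singleton _, hX, subset_rfl, fun _ _ _ => rfl, by simp [FD]⟩, ?_⟩, ?_,
      fun _ _ => ⟨rfl, fun _ => rfl⟩⟩
    · rintro _ rfl _ rfl _ _ h; exact absurd rfl h
    · intro i _ _ _ _ _ _ _ _ _ _ _ _ h; exact absurd h (Nat.not_lt_zero _)
    · rintro _ rfl _ rfl h; exact absurd rfl h
  obtain ⟨m, hm⟩ := exists_maximal_of_chains_bounded (r := fun p q : X => Le p.1 q.1)
    (fun c hc => by
      rcases c.eq_empty_or_nonempty with rfl | hne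
      · exact ⟨x0, by simp⟩
      have := hne.to_subtype
      obtain ⟨S, a1, a2, a3⟩ := union (ε := ε) (fun p : c => p.1.1) (fun p q => by
        by_cases e : p.1 = q.1
        · exact ⟨q, by simp only [e]; exact ⟨subset_rfl, Ag.refl _ _⟩, subset_rfl, Ag.refl _ _⟩
        · rcases hc p.2 q.2 e with h | h
          · exact ⟨q, h, subset_rfl, Ag.refl _ _⟩
          · exact ⟨p, ⟨subset_rfl, Ag.refl _ _⟩, h⟩) (fun p => p.1.2.1) (fun p => p.1.2.2.1)
      exact ⟨⟨(S, _), a2, a3, tr _ _ (a1 ⟨_, hne.some_mem⟩)⟩, fun p hp =>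
        ⟨subset_iUnion (fun p : c => p.1.1.2) ⟨p, hp⟩, a1 ⟨p, hp⟩⟩⟩) Le.trans
  refine ⟨_, _, m.2.1, m.2.2.1, m.2.2.2, fun hc => ?_⟩
  obtain ⟨a, ha⟩ : ∃ a : I, a ∉ Prod.fst '' m.1.2 := by
    by_contra! h
    exact not_countable_univ ((hc.image Prod.fst).mono fun a _ => h a)
  obtain ⟨S', M', k1, k2, k3, k4⟩ := extend hε a hc m.2.1 m.2.2.1
    fun x hx e => ha ⟨x, hx, e⟩
  exact ha ⟨_, (hm ⟨(S', M'), k2, k3, tr _ _ k1.2⟩ k1).1 k4, rfl⟩

end

theorem bf {α β : Type} [Countable α] [Nonempty α] [Countable β] [Nonempty β]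
    (P : Set (α × β) → Prop)
    (hb : ∀ R, P R → ∀ p ∈ R, ∀ q ∈ R, p.1 = q.1 ↔ p.2 = q.2)
    (h1 : ∀ R, P R → ∀ x, ∃ R', R ⊆ R' ∧ P R' ∧ ∃ y, (x, y) ∈ R')
    (h2 : ∀ R, P R → ∀ y, ∃ R', R ⊆ R' ∧ P R' ∧ ∃ x, (x, y) ∈ R')
    (R : Set (α × β)) (hR : P R) : ∃ g : α ≃ β,
      ∀ l : List α, ∃ R', P R' ∧ ∀ x ∈ l, (x, g x) ∈ R' := by
  obtain ⟨en, hen⟩ := exists_surjective_nat α
  obtain ⟨en', hen'⟩ := exists_surjective_nat β
  have step : ∀ (R : {R // P R}) (x : α) (y : β), ∃ R' : {R // P R}, R.1 ⊆ R'.1 ∧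
      (∃ y, (x, y) ∈ R'.1) ∧ ∃ x, (x, y) ∈ R'.1 := fun R x y => by
    obtain ⟨R1, a, b, y', c⟩ := h1 R.1 R.2 x
    obtain ⟨R2, a', b', c'⟩ := h2 R1 b y
    exact ⟨⟨R2, b'⟩, a.trans a', ⟨y', a' c⟩, c'⟩
  choose nx s1 s2 s3 using step
  let S : ℕ → {R // P R} := fun n => Nat.rec ⟨R, hR⟩ (fun n R => nx R (en n) (en' n)) n
  have mono : Monotone fun n => (S n).1 := monotone_nat_of_le_succ fun n => s1 _ _ _
  have d1 : ∀ x, ∃ y n, (x, y) ∈ (S n).1 := fun x => by
    obtain ⟨n, rfl⟩ := hen x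
    obtain ⟨y, hy⟩ := s2 (S n) (en n) (en' n)
    exact ⟨y, n + 1, hy⟩
  choose f hf using d1
  have key : ∀ x (p : α × β), (∃ n, p ∈ (S n).1) → (x = p.1 ↔ f x = p.2) := fun x p ⟨n, b⟩ => by
    obtain ⟨m, a⟩ := hf x
    exact hb _ (S (max m n)).2 _ (mono (le_max_left _ _) a) _ (mono (le_max_right _ _) b)
  refine ⟨Equiv.ofBijective f ⟨fun x y h => (key x _ (hf y)).2 h, fun y => ?_⟩, fun l => ?_⟩
  · obtain ⟨n, rfl⟩ := hen' y
    obtain ⟨x, hx⟩ := s3 (S n) (en n) (en' n)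
    exact ⟨x, (key x _ ⟨n + 1, hx⟩).1 rfl⟩
  · have : ∃ n, ∀ x ∈ l, (x, f x) ∈ (S n).1 := by
      induction l with
      | nil => exact ⟨0, by simp⟩
      | cons x l ih =>
        obtain ⟨n, hn⟩ := ih
        obtain ⟨m, hm⟩ := hf x
        refine ⟨max m n, fun y hy => ?_⟩
        rcases List.mem_cons.1 hy with rfl | hy
        · exact mono (le_max_left _ _) hm
        · exact mono (le_max_right _ _) (hn y hy)
    obtain ⟨n, hn⟩ := this
    exact ⟨_, (S n).2, hn⟩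

section
variable {W W' : Type} {S : Pre W} {T : Pre W'}

def PI (S : Pre W) (T : Pre W') (R : Set (W × W')) : Prop :=
  ∃ A e, A.Finite ∧ Closed S A ∧ Emb S T e A ∧ R = (fun x => (x, e x)) '' A

theorem PI.symm {R : Set (W × W')} (h : PI S T R) : PI T S (Prod.swap '' R) := by
  obtain ⟨A, e, a, b, c, rfl⟩ := h
  obtain ⟨r, hr⟩ := c.exists_inv
  refine ⟨e '' A, r, a.image _, c.closed b, c.inv b hr, ?_⟩
  rw [image_image, image_image]
  exact image_congr fun x hx => by simp [hr x hx]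

theorem PI.forth [Infinite W'] (hS : Good S univ) (hT : Good T univ) {R : Set (W × W')}
    (h : PI S T R) (x : W) : ∃ R', R ⊆ R' ∧ PI S T R' ∧ ∃ y, (x, y) ∈ R' := by
  obtain ⟨A, e, a, b, c, rfl⟩ := h
  obtain ⟨B, b1, b2, -, b3, -⟩ := hS.lf (insert x A) (a.insert x) (subset_univ _)
  have AB := (subset_insert _ _).trans b2
  obtain ⟨e', d1, d2⟩ := rich hT (hS.mono (subset_univ _) b3) b1 AB b c
  refine ⟨_, ?_, ⟨B, e', b1, b3, d2, rfl⟩, _, mem_image_of_mem _ (b2 (mem_insert _ _))⟩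
  rintro _ ⟨y, hy, rfl⟩
  exact ⟨y, AB hy, by simp [d1 hy]⟩

end

def L : Language := ⟨fun _ => ℕ, fun _ => ℕ⟩

noncomputable def pre (M : Type) [L.Structure M] : Pre M where
  lab l := Classical.epsilon fun k : ℕ => Language.Structure.RelMap (L := L)
    (n := (List.equivSigmaTuple l).1) k (List.equivSigmaTuple l).2
  f l k := Language.Structure.funMap (L := L)
    (n := (List.equivSigmaTuple l).1) k (List.equivSigmaTuple l).2

theorem eq_ofFn {M : Type} {n : ℕ} (x : Fin n → M) :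
    List.equivSigmaTuple (List.ofFn x) = ⟨n, x⟩ := List.equivSigmaTuple.apply_symm_apply ⟨n, x⟩

theorem pre_lab {M : Type} [L.Structure M] {n : ℕ} (x : Fin n → M) : (pre M).lab (List.ofFn x) =
    Classical.epsilon fun k : ℕ => Language.Structure.RelMap (L := L) (n := n) k x := by
  simp only [pre]; rw [eq_ofFn]

theorem pre_f {M : Type} [L.Structure M] {n : ℕ} (x : Fin n → M) (k : ℕ) :
    (pre M).f (List.ofFn x) k = Language.Structure.funMap (L := L) (n := n) k x := by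
  simp only [pre]; rw [eq_ofFn]

def U (M : Type) [L.Structure M] : Prop :=
  ∀ (n : ℕ) (x : Fin n → M), ∃! k : ℕ, Language.Structure.RelMap (L := L) (n := n) k x

theorem U.iff {M : Type} [L.Structure M] (h : U M) {n : ℕ} (x : Fin n → M) (k : ℕ) :
    Language.Structure.RelMap (L := L) (n := n) k x ↔ (pre M).lab (List.ofFn x) = k := by
  rw [pre_lab]
  have := Classical.epsilon_spec (h n x).exists
  exact ⟨fun a => (h n x).unique this a, fun a => a ▸ this⟩

theorem emb_of {M N : Type} [L.Structure M] [L.Structure N] (φ : M ↪[L] N) :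
    Emb (pre M) (pre N) φ univ := by
  refine ⟨φ.injective.injOn, fun l _ => ?_, fun l _ k => ?_⟩
  · rw [← List.ofFn_get l, List.map_ofFn, pre_lab, pre_lab]
    congr 1
    ext k
    exact φ.map_rel (n := l.length) k _
  · rw [← List.ofFn_get l, List.map_ofFn, pre_f, pre_f]
    exact (φ.map_fun (n := l.length) k _).symm

theorem U.of {M N : Type} [L.Structure M] [L.Structure N] (φ : M ↪[L] N) (h : U N) : U M :=
  fun n x => by simpa only [φ.map_rel (n := n)] using h n (φ ∘ x)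

def K (M : Type) [L.Structure M] : Prop := U M ∧ Good (pre M) univ ∧ Triv (pre M)

theorem K.of {M N : Type} [L.Structure M] [L.Structure N] (φ : M ↪[L] N) (h : K N) : K M :=
  ⟨h.1.of φ, h.2.1.pull (emb_of φ) (fun _ _ _ => trivial) (mapsTo_univ _ _),
    h.2.2.pull (emb_of φ)⟩

theorem cat (M N : Type) [L.Structure M] [L.Structure N] (hM : K M) (hN : K N)
    [Countable M] [Infinite M] [Countable N] [Infinite N] : Nonempty (L.Equiv M N) := by
  have h0 : PI (pre M) (pre N) _ := ⟨{(pre M).f [] 0}, fun _ => (pre N).f [] 0,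
    finite_singleton _, fun l hl k => (hM.2.2 l hl).2 k, ⟨injOn_singleton _ _, fun l hl => by
      rw [(hM.2.2 l hl).1, (hN.2.2 _ (hl.map fun _ _ => rfl)).1], fun l hl k =>
      (hN.2.2 _ (hl.map fun _ _ => rfl)).2 k⟩, rfl⟩
  obtain ⟨g, hg⟩ := bf (PI (pre M) (pre N)) (by
      rintro _ ⟨A, e, -, -, c, rfl⟩ _ ⟨x, hx, rfl⟩ _ ⟨y, hy, rfl⟩
      exact ⟨fun h => congrArg e h, fun h => c.inj hx hy h⟩)
    (fun R h x => h.forth hM.2.1 hN.2.1 x) (fun R h y => by
      obtain ⟨R', a, b, x, c⟩ := h.symm.forth hN.2.1 hM.2.1 y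
      exact ⟨Prod.swap '' R', fun p hp => ⟨p.swap, a (mem_image_of_mem _ hp), rfl⟩, b.symm,
        x, _, c, rfl⟩) _ h0
  have key : ∀ (l : List M) (x : M), ∃ A e, Closed (pre M) A ∧ Emb (pre M) (pre N) e A ∧ In l A ∧
      l.map g = l.map e ∧ g x = e x := fun l x => by
    obtain ⟨_, ⟨A, e, -, b, c, rfl⟩, d⟩ := hg (x :: l)
    have d' : ∀ y ∈ x :: l, y ∈ A ∧ g y = e y := fun y hy => by
      obtain ⟨z, hz, e'⟩ := d y hy
      obtain ⟨rfl, e2⟩ := Prod.mk.inj e'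
      exact ⟨hz, e2.symm⟩
    exact ⟨A, e, b, c, fun y hy => (d' y (List.mem_cons_of_mem _ hy)).1,
      List.map_congr_left fun y hy => (d' y (List.mem_cons_of_mem _ hy)).2, (d' x (by simp)).2⟩
  refine ⟨⟨g, fun {n} k x => ?_, fun {n} k x => ?_⟩⟩
  · obtain ⟨A, e, -, c, d, f, h⟩ := key (List.ofFn x) ((pre M).f (List.ofFn x) k)
    refine (congrArg g (pre_f x k).symm).trans (h.trans ((c.f _ d k).symm.trans ?_))
    rw [← f, List.map_ofFn]
    exact pre_f _ k
  · obtain ⟨A, e, -, c, d, f, -⟩ := key (List.ofFn x) ((pre M).f [] 0)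
    refine (hN.1.iff _ k).trans (Iff.trans ?_ (hM.1.iff _ k).symm)
    rw [← c.lab _ d, ← f, List.map_ofFn]
    rfl

theorem chain (M : Type) [L.Structure M] (C : Set (L.Substructure M)) (hne : C.Nonempty)
    (hc : IsChain (· ≤ ·) C) (h : ∀ S ∈ C, K ↥S) : K ↥(sSup C) := by
  have fin : ∀ X : Set ↥(sSup C), X.Finite → ∃ S, ∃ hS : S ∈ C,
      X ⊆ range (Language.Substructure.inclusion (le_sSup hS)) := fun X hX => by
    have hd : DirectedOn (fun S T : L.Substructure M => (S : Set M) ⊆ T) C := hc.directedOn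
    obtain ⟨S, hS, a⟩ := DirectedOn.exists_mem_subset_of_finset_subset_biUnion hne hd
      (s := (hX.image Subtype.val).toFinset) (by
        rw [Finite.coe_toFinset]
        rintro _ ⟨x, -, rfl⟩
        obtain ⟨S, a, b⟩ := (Language.Substructure.mem_sSup_of_directedOn hne hc.directedOn).1 x.2
        exact mem_biUnion a b)
    rw [Finite.coe_toFinset] at a
    exact ⟨S, hS, fun x hx => ⟨⟨x.1, a (mem_image_of_mem _ hx)⟩, rfl⟩⟩
  refine ⟨fun n x => ?_, Good.loc fun X hX _ => ?_, ?_⟩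
  · obtain ⟨S, hS, a⟩ := fin _ (finite_range x)
    choose y hy using fun i => a (mem_range_self i)
    have := (h S hS).1 n y
    simp only [← (Language.Substructure.inclusion (le_sSup hS)).map_rel (n := n)] at this
    rwa [show _ ∘ y = x from funext hy] at this
  · obtain ⟨S, hS, a⟩ := fin X hX
    exact ⟨_, a, subset_univ _, image_univ ▸ (h S hS).2.1.map (emb_of _)⟩
  · obtain ⟨S, hS⟩ := hne
    exact (h S hS).2.2.push (emb_of (Language.Substructure.inclusion (le_sSup hS))) trivial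

theorem model {ε : ℕ} (hε : ε < 2) : ∃ (M : Type) (_ : L.Structure M) (π : M → ℕ), K M ∧
    Cardinal.mk M = Cardinal.aleph 1 ∧ ∀ x y, x ≠ y → π x = π y → (pre M).c x y % 2 = ε := by
  set I := (Cardinal.aleph 1 : Cardinal.{0}).out
  have hI : Cardinal.mk I = Cardinal.aleph 1 := Cardinal.mk_out _
  have : Uncountable I := Cardinal.aleph0_lt_mk_iff.1 (hI ▸ Cardinal.aleph0_lt_aleph_one)
  obtain ⟨S, M, g, p, t, u⟩ := exists_unc (I := I) hε
  have io : ∀ {n : ℕ} (x : Fin n → M), In ((List.ofFn x).map Subtype.val) M := fun x y hy => by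
    obtain ⟨z, -, rfl⟩ := List.mem_map.1 hy
    exact z.2
  letI : L.Structure M := ⟨fun {n} k x => ⟨S.f ((List.ofFn x).map Subtype.val) k, g.cl _ (io x) k⟩,
    fun {n} k x => S.lab ((List.ofFn x).map Subtype.val) = k⟩
  have hU : U M := fun n x => ⟨_, rfl, fun _ h => h.symm⟩
  have em : Emb (pre M) S Subtype.val univ := by
    refine ⟨Subtype.val_injective.injOn, fun l _ => ?_, fun l _ k => ?_⟩
    · rw [← List.ofFn_get l]
      exact ((hU.iff _ _).1 rfl).symm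
    · rw [← List.ofFn_get l, pre_f]
      rfl
  refine ⟨M, inferInstance, fun x => x.1.2,
    ⟨hU, g.pull em (fun _ _ _ => trivial) fun x _ => x.2, t.pull em⟩, le_antisymm ?_ ?_,
    fun x y a b => ?_⟩
  · refine (Cardinal.mk_set_le M).trans ?_
    simp [hI, Cardinal.mul_eq_max, Cardinal.aleph0_le_aleph]
  · rw [← Cardinal.succ_aleph0, Order.succ_le_iff, ← not_le, Cardinal.le_aleph0_iff_set_countable]
    exact u
  · rw [← em.c trivial trivial]
    exact p _ x.2 _ y.2 (fun e => a (Subtype.ext e)) b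

theorem main : ¬ (∀ (L : FirstOrder.Language.{0, 0}), L.card ≤ Cardinal.aleph0 →
    ∀ (K : ∀ (M : Type) [L.Structure M], Prop),
      (∀ (M N : Type) [L.Structure M] [L.Structure N],
          Nonempty (L.Equiv M N) → K M → K N) →
      (∀ (M : Type) [L.Structure M] (S : L.Substructure M), K M → K ↥S) →
      (∀ (M : Type) [L.Structure M] (C : Set (L.Substructure M)),
          C.Nonempty → IsChain (· ≤ ·) C → (∀ S ∈ C, K ↥S) → K ↥(sSup C)) →
      (∀ (M N : Type) [L.Structure M] [L.Structure N], K M → K N →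
          Cardinal.mk M = Cardinal.aleph0 → Cardinal.mk N = Cardinal.aleph0 →
          Nonempty (L.Equiv M N)) →
      (∃ (M : Type) (i : L.Structure M), @K M i ∧ Cardinal.mk M = Cardinal.aleph 1) →
      ∀ (M N : Type) [L.Structure M] [L.Structure N], K M → K N →
        Cardinal.mk M = Cardinal.aleph 1 → Cardinal.mk N = Cardinal.aleph 1 →
        Nonempty (L.Equiv M N)) := by
  intro H
  obtain ⟨M, iM, π, k1, c1, p1⟩ := model (ε := 0) (by norm_num)
  obtain ⟨N, iN, ρ, k2, c2, p2⟩ := model (ε := 1) (by norm_num)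
  obtain ⟨φ⟩ := H L (by
      have : Countable L.Symbols := inferInstanceAs (Countable ((Σ _ : ℕ, ℕ) ⊕ (Σ _ : ℕ, ℕ)))
      exact Cardinal.mk_le_aleph0) K (fun M N _ _ ⟨φ⟩ h => h.of φ.symm.toEmbedding)
    (fun M _ S h => h.of S.subtype) chain (fun M N _ _ a b c d => by
      have := Cardinal.mk_le_aleph0_iff.1 c.le
      have := Cardinal.mk_le_aleph0_iff.1 d.le
      have := Cardinal.infinite_iff.2 c.ge
      have := Cardinal.infinite_iff.2 d.ge
      exact cat M N a b) ⟨M, iM, k1, c1⟩ M N k1 k2 c1 c2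
  have : Uncountable M := Cardinal.aleph0_lt_mk_iff.1 (c1 ▸ Cardinal.aleph0_lt_aleph_one)
  obtain ⟨x, y, xy, e⟩ := Function.not_injective_iff.1
    (not_injective_uncountable_countable fun x => (π x, ρ (φ x)))
  have a := p1 x y e (Prod.mk.inj xy).1
  have b := p2 (φ x) (φ y) (φ.injective.ne e) (Prod.mk.inj xy).2
  have c := (emb_of φ.toEmbedding).c (x := x) (y := y) trivial trivial
  change (pre N).c (φ x) (φ y) = _ at c
  omega

end Pool.Agent.H23.UC
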