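import Mathlib
import Pool.Agent.H23.RN
import Pool.Agent.H23.UC3

set_option autoImplicit false

open FirstOrder FirstOrder.Language Set Cardinal

namespace Pool.Agent.H23.RN

variable {L : FirstOrder.Language.{0, 0}} {M : Type} [L.Structure M] [Nonempty M]

def FT (L : FirstOrder.Language.{0, 0}) (M : Type) [L.Structure M] : Prop :=
  ∀ k, ∃ F : Finset (Fin k → M), ∀ x, ∃ y ∈ F, Eqv L x y

omit [Nonempty M] in
theorem transfer {N : Type} [L.Structure N] [N ⊨ L.completeTheory M] {α : Type} [Finite α]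
    (φ : L.Formula α) (h : ∀ x : α → M, φ.Realize x) (y : α → N) : φ.Realize y := by
  have a : M ⊨ ((φ.relabel Sum.inr).iAlls α : L.Sentence) := by
    simp only [Sentence.Realize, Formula.realize_iAlls, Formula.realize_relabel]
    exact fun i => h _
  have b := (realize_iff_of_model_completeTheory M N _).2 a
  simp only [Sentence.Realize, Formula.realize_iAlls, Formula.realize_relabel] at b
  exact b y

theorem isol (hF : FT L M) {N : Type} [L.Structure N] [N ⊨ L.completeTheory M] {α : Type}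
    [Finite α] (x : α → N) : ∃ φ : L.Formula α, φ.Realize x ∧ ∀ ψ : L.Formula α, ψ.Realize x →
      ∀ y : α → M, φ.Realize y → ψ.Realize y := by
  obtain ⟨k, ⟨e⟩⟩ := Finite.exists_equiv_fin α
  obtain ⟨F, hF'⟩ := hF k
  choose φ hφ using fun y : Fin k → M => empty_definable_iff.1 (isolated ⟨F, hF'⟩ y)
  have hφ' : ∀ y z, (φ y).Realize z ↔ Eqv L y z := fun y z => (Set.ext_iff.1 (hφ y) z).symm
  obtain ⟨y, hy⟩ := Formula.realize_iSup.1 (transfer (M := M) (Formula.iSup fun y : F => φ y)
    (fun z => by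
      obtain ⟨y, a, b⟩ := hF' z
      exact Formula.realize_iSup.2 ⟨⟨y, a⟩, (hφ' _ _).2 fun ψ => (b ψ).symm⟩) (x ∘ e.symm))
  refine ⟨(φ y).relabel e.symm, Formula.realize_relabel.2 hy, fun ψ hψ z hz => ?_⟩
  have key : ∀ z : α → M, ((φ y).relabel e.symm).Realize z →
      (ψ.Realize z ↔ ψ.Realize (y.1 ∘ e)) := fun z hz => by
    have := (hφ' _ _).1 (Formula.realize_relabel.1 hz) (ψ.relabel e)
    simp only [Formula.realize_relabel, Function.comp_assoc, e.symm_comp_self,
      Function.comp_id] at this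
    exact this.symm
  by_contra hn
  have := transfer (M := M) (((φ y).relabel e.symm).imp ψ.not) (fun w => by
    simp only [Formula.realize_imp, Formula.realize_not]
    exact fun a b => hn ((key z hz).2 ((key w a).1 b))) x
  simp only [Formula.realize_imp, Formula.realize_not] at this
  exact this (Formula.realize_relabel.2 hy) hψ

def PE (L : FirstOrder.Language.{0, 0}) {A B : Type} [L.Structure A] [L.Structure B]
    (R : Set (A × B)) : Prop :=
  R.Finite ∧ ∀ φ : L.Formula R, φ.Realize (fun p => p.1.1) → φ.Realize (fun p => p.1.2)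

section
variable {A B : Type} [L.Structure A] [L.Structure B]

theorem PE.app {R : Set (A × B)} (h : PE L R) {α : Type} {x : α → A} {y : α → B}
    (hx : ∀ i, (x i, y i) ∈ R) (φ : L.Formula α) : φ.Realize x ↔ φ.Realize y := by
  have : ∀ φ : L.Formula α, φ.Realize x → φ.Realize y := fun φ a =>
    (Formula.realize_relabel (g := fun i => (⟨_, hx i⟩ : R)) (v := fun p => p.1.2)).1
      (h.2 (φ.relabel fun i => ⟨_, hx i⟩) (Formula.realize_relabel.2 a))
  exact ⟨this φ, fun a => by_contra fun b =>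
    Formula.realize_not.1 (this φ.not (Formula.realize_not.2 b)) a⟩

theorem PE.symm {R : Set (A × B)} (h : PE L R) : PE L (Prod.swap '' R) :=
  ⟨h.1.image _, fun φ a => (h.app (x := fun p : Prod.swap '' R => p.1.2) (y := fun p => p.1.1)
    (by rintro ⟨_, p, hp, rfl⟩; exact hp) φ).2 a⟩

theorem PE.forth (hF : FT L M) [A ⊨ L.completeTheory M] [B ⊨ L.completeTheory M]
    {R : Set (A × B)} (h : PE L R) (x : A) : ∃ R', R ⊆ R' ∧ PE L R' ∧ ∃ y, (x, y) ∈ R' := by
  classical
  have : Finite R := h.1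
  obtain ⟨φ, a, b⟩ := isol hF (Sum.elim (fun p : R => p.1.1) fun _ : Unit => x)
  obtain ⟨y, hy⟩ := Formula.realize_iExs.1 (h.2 (φ.iExs Unit)
    (Formula.realize_iExs.2 ⟨fun _ => x, a⟩))
  refine ⟨insert (x, y ()) R, subset_insert _ _, ⟨h.1.insert _, fun ψ c => ?_⟩, _, mem_insert _ _⟩
  let j : ↥(insert (x, y ()) R) → R ⊕ Unit := fun p =>
    if hp : p.1 ∈ R then Sum.inl ⟨_, hp⟩ else Sum.inr ()
  have e1 : Sum.elim (fun p : R => p.1.1) (fun _ : Unit => x) ∘ j = fun p => p.1.1 := by
    funext p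
    by_cases hp : p.1 ∈ R
    · simp [j, hp]
    · simp only [j, Function.comp_apply, dif_neg hp, Sum.elim_inr]
      rw [p.2.resolve_right hp]
  have e2 : (fun a => Sum.elim (fun p : R => p.1.2) y a) ∘ j = fun p => p.1.2 := by
    funext p
    by_cases hp : p.1 ∈ R
    · simp [j, hp]
    · simp only [j, Function.comp_apply, dif_neg hp, Sum.elim_inr]
      rw [p.2.resolve_right hp]
  have := transfer (M := M) (φ.imp (ψ.relabel j)) (fun w => Formula.realize_imp.2
    (b _ (by rw [Formula.realize_relabel, e1]; exact c) w)) fun a => Sum.elim (fun p : R => p.1.2) y a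
  have := Formula.realize_imp.1 this hy
  rwa [Formula.realize_relabel, e2] at this

theorem PE.equiv (hF : FT L M) [A ⊨ L.completeTheory M] [B ⊨ L.completeTheory M]
    [Countable A] [Nonempty A] [Countable B] [Nonempty B] {R : Set (A × B)} (h : PE L R) :
    ∃ g : A ≃[L] B, ∀ p ∈ R, g p.1 = p.2 := by
  have bij : ∀ R : Set (A × B), PE L R → ∀ p ∈ R, ∀ q ∈ R, p.1 = q.1 ↔ p.2 = q.2 :=
    fun R h p hp q hq => by
      simpa using h.app (x := fun b => if b then p.1 else q.1) (y := fun b => if b then p.2 else q.2)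
        (by rintro (_ | _) <;> simpa) (Term.equal (Term.var true) (Term.var false))
  obtain ⟨g, hg⟩ := UC.bf (fun R' => R ⊆ R' ∧ PE L R') (fun R' h => bij R' h.2)
    (fun R' h x => by
      obtain ⟨R2, a, b, c⟩ := h.2.forth hF x
      exact ⟨R2, a, ⟨h.1.trans a, b⟩, c⟩) (fun R' h y => by
      obtain ⟨R2, a, b, x, c⟩ := h.2.symm.forth hF y
      have : R' ⊆ Prod.swap '' R2 := fun p hp => ⟨p.swap, a (mem_image_of_mem _ hp), rfl⟩
      exact ⟨_, this, ⟨h.1.trans this, b.symm⟩, x, _, c, rfl⟩) R ⟨subset_rfl, h⟩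
  let ee : A ↪ₑ[L] B := ⟨g, fun n φ x => by
    obtain ⟨R', a, b⟩ := hg (List.ofFn x)
    exact (a.2.app (fun i => b _ (by simp)) φ).symm⟩
  refine ⟨⟨g, ee.map_fun, ee.map_rel⟩, fun p hp => ?_⟩
  obtain ⟨R', a, b⟩ := hg [p.1]
  exact (bij R' a.2 _ (b _ (by simp)) p (a.1 hp)).1 rfl

end

theorem cat (hF : FT L M) : Cardinal.Categorical (ℵ₀ : Cardinal.{0}) (L.completeTheory M) := by
  intro A B a b
  have := mk_le_aleph0_iff.1 a.le
  have := mk_le_aleph0_iff.1 b.le
  have : PE L (∅ : Set (A × B)) := ⟨finite_empty, fun φ c => by_contra fun d => ?_⟩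
  · obtain ⟨g, -⟩ := this.equiv hF
    exact ⟨g⟩
  · by_cases e : φ.Realize (fun p => isEmptyElim p : _ → M)
    · exact d (transfer (M := M) φ (fun x => by rwa [Subsingleton.elim x _]) _)
    · exact Formula.realize_not.1 (transfer (M := M) φ.not
        (fun x => Formula.realize_not.2 (by rwa [Subsingleton.elim x _])) _) c

theorem homog (hF : FT L M) [Countable M] {k : ℕ} {x y : Fin k → M} (h : Eqv L x y) :
    ∃ g : M ≃[L] M, ∀ i, g (x i) = y i := by
  have : PE L (range fun i => (x i, y i)) := ⟨finite_range _, fun φ a => by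
    choose j hj using fun p : range fun i => (x i, y i) => p.2
    have e1 : x ∘ j = fun p => p.1.1 := funext fun p => congrArg Prod.fst (hj p)
    have e2 : y ∘ j = fun p => p.1.2 := funext fun p => congrArg Prod.snd (hj p)
    have := h (φ.relabel j)
    rw [Formula.realize_relabel, Formula.realize_relabel, e1, e2] at this
    exact this.1 a⟩
  obtain ⟨g, hg⟩ := this.equiv hF
  exact ⟨g, fun i => hg _ ⟨i, rfl⟩⟩

end Pool.Agent.H23.RN
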