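import Mathlib

set_option autoImplicit false

namespace Pool.Agent.H23.RelFree

open Polynomial

/-- The free nonassociative algebra without unit. -/
abbrev Fr (F : Type) [Field F] (X : Type) := FreeNonUnitalNonAssocAlgebra F X

section
variable {F : Type} [Field F]

/-- `f` vanishes identically on `A`. -/
def Van {X : Type} (A : Type) [NonUnitalNonAssocRing A] [Module F A] (f : Fr F X) : Prop :=
  ∀ φ : Fr F X →ₙₐ[F] A, φ f = 0

/-- The ideal `T_n` of the variety defined by `S`. -/
def T (S : Set (Fr F ℕ)) (n : ℕ) : Set (Fr F (Fin n)) :=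
  {f | ∀ (A : Type) [NonUnitalNonAssocRing A] [Module F A] [IsScalarTower F A A]
    [SMulCommClass F A A], (∀ g ∈ S, Van A g) → Van A f}

/-- `A` is the free algebra of rank `n` of the variety defined by `S`. -/
def IsFree (S : Set (Fr F ℕ)) (n : ℕ) (A : Type) [NonUnitalNonAssocRing A] [Module F A] : Prop :=
  ∃ π : Fr F (Fin n) →ₙₐ[F] A, Function.Surjective π ∧ ∀ f, π f = 0 ↔ f ∈ T S n

end

abbrev K := ZMod 2

noncomputable def G : K[X] →ₗ[K] K[X] := (basisMonomials K).constr K fun k =>
  if k % 2 = 0 then X ^ (k / 2 + 1) else if k = 1 then 0 else X ^ ((k - 3) / 2)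

theorem G_pow (k : ℕ) : G (X ^ k) =
    if k % 2 = 0 then X ^ (k / 2 + 1) else if k = 1 then 0 else X ^ ((k - 3) / 2) := by
  rw [X_pow_eq_monomial]
  exact (basisMonomials K).constr_basis K _ k

theorem G_sq (x : K[X]) : G (x * x) = X * x := by
  rw [← sq, ← ZMod.expand_card]
  induction x using Polynomial.induction_on' with
  | add p q i j => simp only [map_add, i, j, mul_add]
  | monomial n a =>
    rw [← smul_X_eq_monomial, map_smul, map_smul, map_pow, expand_X, ← pow_mul, G_pow]
    simp [pow_succ']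

theorem G_cu (x : K[X]) : G (X * (X * x) * (X * x)) = x := by
  rw [mul_assoc, ← sq, ← ZMod.expand_card]
  induction x using Polynomial.induction_on' with
  | add p q i j => simp only [map_add, i, j, mul_add]
  | monomial n a =>
    rw [← smul_X_eq_monomial, mul_smul_comm, map_smul, mul_smul_comm, map_smul, ← pow_succ',
      map_pow, expand_X, ← pow_mul, ← pow_succ', G_pow, if_neg (by omega), if_neg (by omega)]
    congr 2
    omega

def P := K[X]

noncomputable instance : AddCommGroup P := inferInstanceAs (AddCommGroup K[X])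
noncomputable instance : Module K P := inferInstanceAs (Module K K[X])

noncomputable instance : NonUnitalNonAssocRing P where
  mul (x y : K[X]) := G (x * y)
  left_distrib (x y z : K[X]) := (congrArg G (mul_add x y z)).trans (map_add G _ _)
  right_distrib (x y z : K[X]) := (congrArg G (add_mul x y z)).trans (map_add G _ _)
  zero_mul (x : K[X]) := (congrArg G (zero_mul x)).trans (map_zero G)
  mul_zero (x : K[X]) := (congrArg G (mul_zero x)).trans (map_zero G)

instance : IsScalarTower K P P :=
  ⟨fun a (x y : K[X]) => (congrArg G (smul_mul_assoc a x y)).trans (map_smul G _ _)⟩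
instance : SMulCommClass K P P :=
  ⟨fun a (x y : K[X]) => ((congrArg G (mul_smul_comm a x y)).trans (map_smul G _ _)).symm⟩

theorem ts (x : P) : x * x * (x * x) * (x * x) = x := by
  change G (G (G (_ * _) * G (_ * _)) * G (_ * _)) = x
  rw [G_sq, G_sq, G_cu]

theorem st : ∃ x : P, x * x * x * (x * x * x) ≠ x := ⟨(1 : K[X]), by
  have : G (G ((1 : K[X]) * 1) * 1) = 0 := by rw [G_sq]; simpa using G_pow 1
  change G (G (G (_ * _) * _) * G (G (_ * _) * _)) ≠ _
  rw [this]
  simp⟩

open FreeNonUnitalNonAssocAlgebra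

noncomputable def π : Fr K (Fin 1) →ₙₐ[K] (P → P) := lift K fun _ => id

noncomputable def pre (s : P → P) : (P → P) →ₙₐ[K] (P → P) where
  toFun g := g ∘ s
  map_smul' _ _ := rfl
  map_zero' := rfl
  map_add' _ _ := rfl
  map_mul' _ _ := rfl

noncomputable def evl (a : P) : (P → P) →ₙₐ[K] P where
  toFun g := g a
  map_smul' _ _ := rfl
  map_zero' := rfl
  map_add' _ _ := rfl
  map_mul' _ _ := rfl

theorem pre_pi (u f : Fr K (Fin 1)) : π f ∘ π u = π (lift K (fun _ => u) f) :=
  DFunLike.congr_fun (hom_ext K (F₁ := (pre (π u)).comp π) (F₂ := π.comp (lift K fun _ => u))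
    fun _ => by simp [pre, π]) f

abbrev A : Type := NonUnitalAlgHom.range π

theorem free : IsFree {g : Fr K ℕ | Van P g} 1 A := by
  have e : ∀ (φ : Fr K (Fin 1) →ₙₐ[K] P) f, φ f = π f (φ (of K 0)) := fun φ f =>
    DFunLike.congr_fun (hom_ext K (F₁ := φ) (F₂ := (evl (φ (of K 0))).comp π)
      fun i => by simp [π, evl, Subsingleton.elim i 0]) f
  refine ⟨NonUnitalAlgHom.rangeRestrict π, fun ⟨_, f, h⟩ => ⟨f, Subtype.ext h⟩, fun f =>
    Subtype.ext_iff.trans ⟨fun h B _ _ _ _ k φ => ?_, fun h => funext fun x => ?_⟩⟩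
  · refine Eq.trans ?_ (k (lift K (fun _ => of K 0) f) (fun ψ => (e (ψ.comp (lift K fun _ => of K 0))
      f).trans (congrFun h _)) (lift K fun _ => φ (of K 0)))
    exact DFunLike.congr_fun (hom_ext K (F₁ := φ) (F₂ := (lift K fun _ : ℕ => φ (of K 0)).comp
      (lift K fun _ => of K 0)) fun i => by simp [Subsingleton.elim i 0]) f
  · have := h P (fun _ => id) (lift K fun _ => x)
    rwa [e, lift_of_apply] at this

noncomputable def x : A := ⟨id, of K 0, lift_of_apply _ _ _⟩

theorem tsA (y : A) : y * y * (y * y) * (y * y) = y := Subtype.ext (funext fun _ => ts _)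

theorem stA : x * x * x * (x * x * x) ≠ x := fun h =>
  st.elim fun y k => k (congrFun (congrArg Subtype.val h) y)

noncomputable def sub (u : A) : A →ₙₐ[K] A where
  toFun g := ⟨g.1 ∘ u.1, by
    obtain ⟨_, f, rfl⟩ := g
    obtain ⟨_, u, rfl⟩ := u
    exact ⟨_, (pre_pi u f).symm⟩⟩
  map_smul' _ _ := rfl
  map_zero' := rfl
  map_add' _ _ := rfl
  map_mul' _ _ := rfl

end Pool.Agent.H23.RelFree
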