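import Mathlib
import Pool.Agent.H23.PR
import Pool.Agent.H23.CTools

set_option autoImplicit false

namespace Pool.Agent.H23.ResFin

open Nat.Partrec (Code)
open Nat.Partrec.Code

def nn (e : ℕ) : ℕ := 4 ^ (e + 1)

def trig (e s : ℕ) : Bool :=
  (List.range s).any fun x =>
    (evaln s (Denumerable.ofNat Code e) (Nat.pair e x)).isSome &&
    !(((evaln s (Denumerable.ofNat Code e) (Nat.pair e x)).getD 0).unpair.1 == x) &&
    (((evaln s (Denumerable.ofNat Code e) (Nat.pair e x)).getD 0).unpair.2 == x)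

theorem trig_iff (e s : ℕ) : trig e s = true ↔ ∃ x < s, ∃ v,
    v ∈ evaln s (Denumerable.ofNat Code e) (Nat.pair e x) ∧ v.unpair.1 ≠ x ∧ v.unpair.2 = x := by
  simp only [trig, List.any_eq_true, List.mem_range, Bool.and_eq_true, Option.isSome_iff_exists,
    Bool.not_eq_eq_eq_not, Bool.not_true, beq_eq_false_iff_ne, beq_iff_eq, Option.mem_def]
  constructor
  · rintro ⟨x, hx, ⟨⟨v, hv⟩, h1⟩, h2⟩
    rw [hv] at h1 h2
    exact ⟨x, hx, v, hv, h1, h2⟩
  · rintro ⟨x, hx, v, hv, h1, h2⟩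
    refine ⟨x, hx, ⟨⟨v, hv⟩, ?_⟩, ?_⟩ <;> rw [hv] <;> assumption

theorem trig_mono {e s t : ℕ} (h : s ≤ t) (hs : trig e s = true) : trig e t = true := by
  obtain ⟨x, hx, v, hv, h1⟩ := (trig_iff e s).1 hs
  exact (trig_iff e t).2 ⟨x, by omega, v, evaln_mono h hv, h1⟩

open Classical in
noncomputable def par (e : ℕ) : ℕ × ℕ × ℕ :=
  if h : ∃ s, trig e s = true then (Nat.find h, 3 ^ Nat.find h, 1) else (0, 1, 0)

noncomputable def qq (e : ℕ) : ℕ := 3 ^ ((par e).1 + 1)
noncomputable def b1 (e : ℕ) : ℕ := (par e).2.1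
noncomputable def b2 (e : ℕ) : ℕ := (par e).2.2

instance (e : ℕ) : NeZero (nn e) := ⟨by unfold nn; positivity⟩
instance (e : ℕ) : NeZero (qq e) := ⟨by unfold qq; positivity⟩

theorem b1_eq (e : ℕ) : b1 e = 3 ^ (par e).1 := by
  unfold b1 par; split_ifs <;> rfl

theorem two_b1 (e : ℕ) : (2 * b1 e : ZMod (qq e)) ≠ 0 := by
  intro h
  have h' : ((2 * b1 e : ℕ) : ZMod (qq e)) = 0 := by exact_mod_cast h
  rw [ZMod.natCast_eq_zero_iff, b1_eq, qq, pow_succ, mul_comm 2] at h'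
  have := Nat.le_of_dvd (by positivity) h'
  have : 0 < 3 ^ (par e).1 := by positivity
  omega

abbrev X (e : ℕ) := ZMod (nn e) × ZMod (qq e)

noncomputable def beta (e : ℕ) (i : ZMod (nn e)) : ZMod (qq e) :=
  if i = (4 ^ e : ℕ) then b1 e else if i = (2 * 4 ^ e : ℕ) then b2 e else 0

noncomputable def pT (e : ℕ) : Equiv.Perm (X e) where
  toFun p := (p.1 + 1, p.2)
  invFun p := (p.1 - 1, p.2)
  left_inv p := by simp
  right_inv p := by simp

noncomputable def pA (e : ℕ) : Equiv.Perm (X e) where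
  toFun p := (p.1, if p.1 = 0 then -p.2 else p.2)
  invFun p := (p.1, if p.1 = 0 then -p.2 else p.2)
  left_inv p := by by_cases h : p.1 = 0 <;> simp [h, Prod.ext_iff]
  right_inv p := by by_cases h : p.1 = 0 <;> simp [h, Prod.ext_iff]

noncomputable def pB (e : ℕ) : Equiv.Perm (X e) where
  toFun p := (p.1, p.2 + beta e p.1)
  invFun p := (p.1, p.2 - beta e p.1)
  left_inv p := by simp
  right_inv p := by simp

abbrev P := ∀ e, Equiv.Perm (X e)

noncomputable def gen : Fin 3 → P := ![pT, pA, pB]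

noncomputable def rho : FreeGroup (Fin 3) →* P := FreeGroup.lift gen

abbrev St := ℕ × Bool × (ℕ × ℕ) × (ℕ × ℕ)

def step (e : ℕ) (l : Fin 3 × Bool) (z : St) : St :=
  bif l.1.val == 0 then (bif l.2 then z.1 + 1 else z.1 + (nn e - 1), z.2)
  else bif l.1.val == 1 then
    (bif z.1 % nn e == 0 then
      (z.1, !z.2.1, (z.2.2.1.2, z.2.2.1.1), (z.2.2.2.2, z.2.2.2.1)) else z)
  else bif z.1 % nn e == 4 ^ e then
    (bif l.2 then (z.1, z.2.1, (z.2.2.1.1 + 1, z.2.2.1.2), z.2.2.2)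
      else (z.1, z.2.1, (z.2.2.1.1, z.2.2.1.2 + 1), z.2.2.2))
  else bif z.1 % nn e == 2 * 4 ^ e then
    (bif l.2 then (z.1, z.2.1, z.2.2.1, (z.2.2.2.1 + 1, z.2.2.2.2))
      else (z.1, z.2.1, z.2.2.1, (z.2.2.2.1, z.2.2.2.2 + 1)))
  else z

def run (e : ℕ) (L : List (Fin 3 × Bool)) (i : ℕ) : St :=
  L.foldr (step e) (i, false, (0, 0), (0, 0))

noncomputable def dd (e : ℕ) (z : St) : ZMod (qq e) :=
  ((z.2.2.1.1 : ZMod (qq e)) - z.2.2.1.2) * b1 e + ((z.2.2.2.1 : ZMod (qq e)) - z.2.2.2.2) * b2 e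

noncomputable def interp (e : ℕ) (z : St) (x : ZMod (qq e)) : X e :=
  (z.1, (bif z.2.1 then -x else x) + dd e z)

theorem cast_eq (e i r : ℕ) (hr : r < nn e) :
    ((i : ZMod (nn e)) = (r : ℕ)) ↔ i % nn e = r := by
  rw [ZMod.natCast_eq_natCast_iff', Nat.mod_eq_of_lt hr]

theorem r_lt (e : ℕ) : 4 ^ e < nn e ∧ 2 * 4 ^ e < nn e ∧ 0 < 4 ^ e := by
  have : 0 < 4 ^ e := by positivity
  unfold nn; rw [pow_succ]; omega

theorem beta_nat (e i : ℕ) : beta e (i : ℕ) =
    if i % nn e = 4 ^ e then (b1 e : ZMod (qq e)) else if i % nn e = 2 * 4 ^ e then b2 e else 0 := by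
  unfold beta
  simp only [cast_eq e i _ (r_lt e).1, cast_eq e i _ (r_lt e).2.1]

theorem step_interp (e : ℕ) (l : Fin 3 × Bool) (z : St) (x : ZMod (qq e)) :
    ((cond l.2 (gen l.1) (gen l.1)⁻¹ : P) e) (interp e z x) = interp e (step e l z) x := by
  obtain ⟨g, b⟩ := l
  obtain ⟨i, σ, ⟨p1, n1⟩, p2, n2⟩ := z
  have hn : ((nn e - 1 : ℕ) : ZMod (nn e)) = -1 := by
    rw [Nat.cast_sub (Nat.pos_of_ne_zero (NeZero.ne _))]; simp
  have h0 : ((i : ZMod (nn e)) = 0) ↔ i % nn e = 0 := by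
    simpa using cast_eq e i 0 (Nat.pos_of_ne_zero (NeZero.ne _))
  have hr := (r_lt e).2.2
  fin_cases g
  · cases b
    · simp [gen, pT, step, interp, dd, hn, Equiv.Perm.inv_def, sub_eq_add_neg]
    · simp [gen, pT, step, interp, dd]
  · have hA : ((cond b pA pA⁻¹ : P) e) = pA e := by cases b <;> rfl
    show ((cond b pA pA⁻¹ : P) e) _ = _
    rw [hA]
    by_cases h : i % nn e = 0
    · cases σ <;> simp [pA, step, interp, dd, h0, h] <;> ring
    · have : (i % nn e == 0) = false := by simpa using h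
      simp [pA, step, interp, h0, h, this]
  · by_cases h : i % nn e = 4 ^ e
    · cases b <;> simp [gen, pB, step, interp, dd, beta_nat, h, Equiv.Perm.inv_def] <;> ring
    · have h' : (i % nn e == 4 ^ e) = false := by simpa using h
      by_cases h2 : i % nn e = 2 * 4 ^ e
      · have h3 : ¬ (2 * 4 ^ e = 4 ^ e) := by omega
        have h4 : (2 * 4 ^ e == 4 ^ e) = false := beq_eq_false_iff_ne.2 h3
        cases b <;>
          simp [gen, pB, step, interp, dd, beta_nat, h2, h3, h4, Equiv.Perm.inv_def] <;> ring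
      · have h2' : (i % nn e == 2 * 4 ^ e) = false := by simpa using h2
        cases b <;> simp [gen, pB, step, interp, beta_nat, h, h', h2, h2', Equiv.Perm.inv_def]

theorem rho_mk (e : ℕ) (L : List (Fin 3 × Bool)) (i : ℕ) (x : ZMod (qq e)) :
    (rho (FreeGroup.mk L) e) ((i : ZMod (nn e)), x) = interp e (run e L i) x := by
  rw [rho, FreeGroup.lift_mk]
  induction L with
  | nil => simp [run, interp, dd]
  | cons l L ih =>
    rw [List.map_cons, List.prod_cons, Pi.mul_apply, Equiv.Perm.mul_apply, ih, step_interp]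
    rfl

def outK (e s : ℕ) (z : St) : Bool :=
  (trig e s && !trig e (s - 1) &&
    !((3 ^ s * z.2.2.1.1 + z.2.2.2.1) % 3 ^ (s + 1) ==
      (3 ^ s * z.2.2.1.2 + z.2.2.2.2) % 3 ^ (s + 1))) ||
  (!trig e s && !(z.2.2.1.1 % 3 == z.2.2.1.2 % 3) && Nat.blt z.2.2.2.1 (3 ^ s) &&
    Nat.blt z.2.2.2.2 (3 ^ s))

theorem par_trig {e : ℕ} (h : ∃ s, trig e s = true) :
    (par e).1 = Nat.find h ∧ b2 e = 1 := by
  unfold b2 par; rw [dif_pos h]; exact ⟨rfl, rfl⟩

theorem par_not {e : ℕ} (h : ¬ ∃ s, trig e s = true) : (par e).1 = 0 ∧ b2 e = 0 := by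
  unfold b2 par; rw [dif_neg h]; exact ⟨rfl, rfl⟩

theorem dd_zero (e : ℕ) (z : St) : dd e z = 0 ↔
    3 ^ (par e).1 * z.2.2.1.1 + b2 e * z.2.2.2.1 ≡
      3 ^ (par e).1 * z.2.2.1.2 + b2 e * z.2.2.2.2 [MOD 3 ^ ((par e).1 + 1)] := by
  rw [← qq, ← ZMod.natCast_eq_natCast_iff, dd, b1_eq]
  push_cast
  constructor <;> intro h <;> linear_combination h

theorem outK_iff (e : ℕ) (z : St) : (∃ s, outK e s z = true) ↔ dd e z ≠ 0 := by
  obtain ⟨i, σ, ⟨p1, n1⟩, p2, n2⟩ := z
  rw [Ne, dd_zero]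
  simp only [outK, Bool.or_eq_true, Bool.and_eq_true, Bool.not_eq_eq_eq_not, Bool.not_true,
    beq_eq_false_iff_ne, Nat.blt_eq]
  by_cases h : ∃ s, trig e s = true
  · obtain ⟨h1, h2⟩ := par_trig h
    rw [h1, h2, one_mul, one_mul]
    have hspec := Nat.find_spec h
    have hmin := fun m => Nat.find_min h (m := m)
    set m := Nat.find h
    constructor
    · rintro ⟨s, ⟨⟨t1, t2⟩, t3⟩ | ⟨⟨⟨t1, t2⟩, t3⟩, t4⟩⟩
      · have a1 : m ≤ s := by by_contra hc; exact hmin s (by omega) t1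
        have a2 : s = m := by
          by_contra hc
          have := trig_mono (show m ≤ s - 1 by omega) hspec
          simp [this] at t2
        rw [← a2]; exact t3
      · intro hc
        have a1 : s ≤ m := by
          by_contra hc
          have := trig_mono (show m ≤ s by omega) hspec
          simp [this] at t1
        have a2 : 3 ^ s ≤ 3 ^ m := Nat.pow_le_pow_right (by norm_num) a1
        have a3 : p2 = n2 := by
          have := Nat.ModEq.of_mul_right 3 (pow_succ 3 m ▸ hc)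
          unfold Nat.ModEq at this
          rwa [Nat.mul_add_mod, Nat.mul_add_mod, Nat.mod_eq_of_lt (by omega),
            Nat.mod_eq_of_lt (by omega)] at this
        rw [a3, pow_succ] at hc
        exact t2 (Nat.ModEq.mul_left_cancel' (by positivity) (Nat.ModEq.add_right_cancel' _ hc))
    · intro hc
      have m0 : m ≠ 0 := by intro h0; rw [h0] at hspec; simp [trig] at hspec
      exact ⟨m, Or.inl ⟨⟨hspec, by simpa using hmin (m - 1) (by omega)⟩, hc⟩⟩
  · obtain ⟨h1, h2⟩ := par_not h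
    rw [h1, h2]
    push Not at h
    simp only [pow_zero, one_mul, zero_mul, add_zero, zero_add, pow_one]
    constructor
    · rintro ⟨s, ⟨⟨t1, _⟩, _⟩ | ⟨⟨⟨_, t2⟩, _⟩, _⟩⟩
      · exact absurd t1 (h s)
      · exact t2
    · intro hc
      have : p2 + n2 < 3 ^ (p2 + n2) := Nat.lt_pow_self (by norm_num)
      exact ⟨p2 + n2, Or.inr ⟨⟨⟨by simpa using h _, hc⟩, by omega⟩, by omega⟩⟩

def nontriv (L : List (Fin 3 × Bool)) (k : ℕ) : Bool :=
  !((run k.unpair.1 L k.unpair.2.unpair.1).1 % nn k.unpair.1 ==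
      k.unpair.2.unpair.1 % nn k.unpair.1) ||
    (run k.unpair.1 L k.unpair.2.unpair.1).2.1 ||
    outK k.unpair.1 k.unpair.2.unpair.2 (run k.unpair.1 L k.unpair.2.unpair.1)

theorem nontriv_prim : Primrec fun q : List (Fin 3 × Bool) × ℕ => nontriv q.1 q.2 := by
  have hv : Primrec (Fin.val : Fin 3 → ℕ) := Primrec.fin_val
  have hs : Primrec fun q : ℕ × (Fin 3 × Bool) × St => step q.1 q.2.1 q.2.2 := by
    unfold step nn; fun_prop
  have hr : Primrec fun q : ℕ × List (Fin 3 × Bool) × ℕ => run q.1 q.2.1 q.2.2 := by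
    unfold run
    exact PR.foldr' (by fun_prop) (by fun_prop) (hs.comp (g := fun p :
      (ℕ × List (Fin 3 × Bool) × ℕ) × (Fin 3 × Bool) × St => (p.1.1, p.2.1, p.2.2)) (by fun_prop))
  have ht : Primrec fun q : ℕ × ℕ => trig q.1 q.2 := by unfold trig; fun_prop
  have ho : Primrec fun q : ℕ × ℕ × St => outK q.1 q.2.1 q.2.2 := by
    have h1 : Primrec fun q : ℕ × ℕ × St => trig q.1 q.2.1 :=
      ht.comp (g := fun q : ℕ × ℕ × St => (q.1, q.2.1)) (by fun_prop)
    have h2 : Primrec fun q : ℕ × ℕ × St => trig q.1 (q.2.1 - 1) :=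
      ht.comp (g := fun q : ℕ × ℕ × St => (q.1, q.2.1 - 1)) (by fun_prop)
    unfold outK
    exact PR.or' (PR.and' (PR.and' h1 (PR.not' h2)) (by fun_prop))
      (PR.and' (PR.and' (PR.and' (PR.not' h1) (by fun_prop)) (by fun_prop)) (by fun_prop))
  have h1 : Primrec fun q : List (Fin 3 × Bool) × ℕ =>
      run q.2.unpair.1 q.1 q.2.unpair.2.unpair.1 :=
    hr.comp (g := fun q : List (Fin 3 × Bool) × ℕ => (q.2.unpair.1, q.1, q.2.unpair.2.unpair.1))
      (by fun_prop)
  unfold nontriv nn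
  exact PR.or' (PR.or' (PR.not' (PR.beq' (PR.mod' (PR.fst' h1) (by fun_prop)) (by fun_prop)))
    (PR.fst' (PR.snd' h1))) (ho.comp (g := fun q : List (Fin 3 × Bool) × ℕ =>
      (q.2.unpair.1, q.2.unpair.2.unpair.2, run q.2.unpair.1 q.1 q.2.unpair.2.unpair.1))
      (PR.pair' (by fun_prop) (PR.pair' (by fun_prop) h1)))

theorem nontriv_iff (L : List (Fin 3 × Bool)) :
    (∃ k, nontriv L k = true) ↔ rho (FreeGroup.mk L) ≠ 1 := by
  simp only [nontriv, Bool.or_eq_true, Bool.not_eq_eq_eq_not, Bool.not_true,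
    beq_eq_false_iff_ne]
  constructor
  · rintro ⟨k, hk⟩ h1
    generalize k.unpair.1 = e at hk
    generalize k.unpair.2.unpair.1 = i at hk
    generalize k.unpair.2.unpair.2 = s at hk
    have hx : ∀ x, interp e (run e L i) x = ((i : ZMod (nn e)), x) := by
      intro x; rw [← rho_mk, h1]; rfl
    have h0 := hx 0
    have h2 := hx (b1 e)
    simp only [interp, Prod.mk.injEq] at h0 h2
    have hd : dd e (run e L i) = 0 := by
      have := h0.2
      cases hσ : (run e L i).2.1 <;> simpa [hσ] using this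
    rcases hk with (hk | hk) | hk
    · exact hk ((ZMod.natCast_eq_natCast_iff' _ _ _).1 h0.1)
    · have := h2.2
      rw [hk, hd] at this
      apply two_b1 e
      simp only [cond_true, add_zero] at this
      linear_combination -this
    · exact (outK_iff e _).1 ⟨s, hk⟩ hd
  · intro h
    by_contra hc
    push Not at hc
    apply h
    funext e
    ext1 p
    obtain ⟨i, x⟩ := p
    obtain ⟨j, rfl⟩ : ∃ j : ℕ, (j : ZMod (nn e)) = i := ⟨i.val, by simp⟩
    rw [rho_mk]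
    have h1 := fun s => hc (Nat.pair e (Nat.pair j s))
    simp only [Nat.unpair_pair] at h1
    have h2 : dd e (run e L j) = 0 := by
      by_contra h3
      obtain ⟨s, hs⟩ := (outK_iff e _).2 h3
      exact (h1 s).2 hs
    have h3 : (run e L j).2.1 = false := by simpa using (h1 0).1.2
    simp [interp, h2, h3, (ZMod.natCast_eq_natCast_iff' _ _ _).2 (h1 0).1.1]

noncomputable def cc (r : ℕ) : P := pT⁻¹ ^ r * pB * pT ^ r
noncomputable def ww (r : ℕ) : P := pA * cc r * pA⁻¹ * (cc r)⁻¹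

theorem pT_pow (e r : ℕ) (p : X e) : (pT e ^ r) p = (p.1 + r, p.2) := by
  induction r with
  | zero => simp
  | succ r ih => rw [pow_succ', Equiv.Perm.mul_apply, ih]; simp [pT, add_assoc]

theorem pTi_pow (e r : ℕ) (p : X e) : ((pT e)⁻¹ ^ r) p = (p.1 - r, p.2) := by
  rw [inv_pow, Equiv.Perm.inv_eq_iff_eq, pT_pow]; simp

theorem cc_apply (e r : ℕ) (p : X e) : cc r e p = (p.1, p.2 + beta e (p.1 + r)) := by
  simp only [cc, Pi.mul_apply, Pi.pow_apply, Pi.inv_apply, Equiv.Perm.mul_apply, pT_pow, pTi_pow]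
  simp [pB]

theorem cci_apply (e r : ℕ) (p : X e) : (cc r e)⁻¹ p = (p.1, p.2 - beta e (p.1 + r)) := by
  rw [Equiv.Perm.inv_eq_iff_eq, cc_apply]; simp

theorem ww_apply (e r : ℕ) (p : X e) :
    ww r e p = (p.1, if p.1 = 0 then p.2 - 2 * beta e r else p.2) := by
  have hA : (pA e)⁻¹ = pA e := rfl
  simp only [ww, Pi.mul_apply, Pi.inv_apply, Equiv.Perm.mul_apply, cci_apply, hA, cc_apply]
  by_cases h : p.1 = 0
  · simp [pA, h]; ring
  · simp [pA, h]

theorem ww_pow (e r k : ℕ) (p : X e) :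
    (ww r e ^ k) p = (p.1, if p.1 = 0 then p.2 - 2 * k * beta e r else p.2) := by
  induction k with
  | zero => simp
  | succ k ih =>
    rw [pow_succ', Equiv.Perm.mul_apply, ih, ww_apply]
    by_cases h : p.1 = 0
    · simp [h]; ring
    · simp [h]

theorem beta_r1 (e : ℕ) : beta e (4 ^ e : ℕ) = b1 e := by simp [beta]

theorem beta_r2 (e : ℕ) : beta e (2 * 4 ^ e : ℕ) = b2 e := by
  have := r_lt e
  have h3 : ¬ (2 * 4 ^ e = 4 ^ e) := by omega
  rw [beta_nat, Nat.mod_eq_of_lt this.2.1, if_neg h3, if_pos rfl]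

theorem beta_other {e e' : ℕ} (h : e' ≠ e) (c : ℕ) (hc : c = 1 ∨ c = 2) :
    beta e' (c * 4 ^ e : ℕ) = 0 := by
  have h1 := r_lt e'
  rw [beta_nat]
  rcases lt_or_gt_of_ne h with h | h
  · have : c * 4 ^ e % nn e' = 0 :=
      Nat.mod_eq_zero_of_dvd (Dvd.dvd.mul_left (pow_dvd_pow 4 h) c)
    rw [this, if_neg (by omega), if_neg (by omega)]
  · have h2 : nn e ≤ 4 ^ e' := Nat.pow_le_pow_right (by norm_num) h
    have h3 := r_lt e
    have h4 : c * 4 ^ e < 4 ^ e' := by rcases hc with rfl | rfl <;> omega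
    rw [Nat.mod_eq_of_lt (by omega), if_neg (by omega), if_neg (by omega)]

theorem w_ne_one (e : ℕ) : ww (4 ^ e) ≠ 1 := by
  intro h
  have := ww_apply e (4 ^ e) (0, 0)
  rw [h, beta_r1] at this
  apply two_b1 e
  simpa using this

theorem u_eq_one {e : ℕ} (h : ¬ ∃ s, trig e s = true) : ww (2 * 4 ^ e) = 1 := by
  funext e'
  ext1 p
  rw [ww_apply]
  by_cases he : e' = e
  · subst he; rw [beta_r2, (par_not h).2]; simp
  · rw [beta_other he 2 (Or.inr rfl)]; simp

theorem u_pow {e : ℕ} (h : ∃ s, trig e s = true) :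
    ww (2 * 4 ^ e) ^ (3 ^ (par e).1) = ww (4 ^ e) := by
  funext e'
  ext1 p
  rw [Pi.pow_apply, ww_pow, ww_apply]
  by_cases he : e' = e
  · subst he; rw [beta_r2, beta_r1, (par_trig h).2, b1_eq]; simp
  · have := beta_other he 1 (Or.inl rfl)
    rw [one_mul] at this
    rw [beta_other he 2 (Or.inr rfl), this]; simp

theorem main :
    ∃ (G : Type) (_ : Group G),
      Group.FG G ∧
      (∀ g : G, g ≠ 1 → ∃ H : Subgroup G, H.index ≠ 0 ∧ g ∉ H) ∧
      (∃ (n : ℕ) (π : FreeGroup (Fin n) →* G), Function.Surjective π ∧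
        REPred (fun w : List (Fin n × Bool) => π (FreeGroup.mk w) ≠ 1)) ∧
      ¬ ∃ f : G →* Equiv.Perm ℕ, Function.Injective f ∧
          ∀ g : G, Computable (⇑(f g) : ℕ → ℕ) := by
  refine ⟨rho.range, inferInstance, inferInstance, fun g hg => ?_,
    ⟨3, rho.rangeRestrict, rho.rangeRestrict_surjective, ?_⟩, ?_⟩
  · obtain ⟨e, he⟩ : ∃ e, g.1 e ≠ 1 := by
      by_contra hc
      push Not at hc
      exact hg (Subtype.ext (funext hc))
    refine ⟨((Pi.evalMonoidHom (fun e => Equiv.Perm (X e)) e).comp rho.range.subtype).ker, ?_, he⟩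
    rw [Subgroup.index_ker]
    exact Nat.card_pos.ne'
  · refine (CTools.re_of_exists nontriv nontriv_prim.to_comp).of_eq fun L => ?_
    rw [nontriv_iff, Ne, Ne, Subtype.ext_iff]
    rfl
  · rintro ⟨f, hf, hc⟩
    let t : rho.range := ⟨pT, FreeGroup.of 0, by simp [rho, gen]⟩
    let a : rho.range := ⟨pA, FreeGroup.of 1, by simp [rho, gen]⟩
    let b : rho.range := ⟨pB, FreeGroup.of 2, by simp [rho, gen]⟩
    let c : ℕ → rho.range := fun r => t⁻¹ ^ r * b * t ^ r
    let w : ℕ → rho.range := fun r => a * c r * a⁻¹ * (c r)⁻¹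
    have hw : ∀ r, (w r).1 = ww r := fun r => rfl
    have hconj : ∀ y : rho.range, Computable fun p : ℕ × ℕ => f (t⁻¹ ^ p.1 * y * t ^ p.1) p.2 := by
      intro y
      refine ((CTools.comp_iterate (hc t⁻¹)).comp (Computable.fst.pair
        ((hc y).comp (CTools.comp_iterate (hc t))))).of_eq fun p => ?_
      simp only [map_mul, map_pow, Equiv.Perm.mul_apply, Equiv.Perm.coe_pow]
    have hwc : Computable fun p : ℕ × ℕ => f (w p.1) p.2 := by
      refine ((hc a).comp ((hconj b).comp (Computable.fst.pair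
        ((hc a⁻¹).comp (hconj b⁻¹))))).of_eq fun p => ?_
      have : (c p.1)⁻¹ = t⁻¹ ^ p.1 * b⁻¹ * t ^ p.1 := by simp [c, mul_assoc]
      simp only [w, this, map_mul (f := f) (a * c p.1 * a⁻¹), map_mul (f := f) (a * c p.1),
        map_mul (f := f) a, Equiv.Perm.mul_apply, c]
    obtain ⟨F, hF⟩ : ∃ F : ℕ × ℕ → ℕ, ∀ p, F p = f (w p.1) p.2 := ⟨_, fun _ => rfl⟩
    have hFc : Computable F := hwc.of_eq fun p => (hF p).symm
    have hΦ : Computable fun z : ℕ => Nat.pair (F (4 ^ z.unpair.1, z.unpair.2))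
        (F (2 * 4 ^ z.unpair.1, z.unpair.2)) :=
      Primrec₂.natPair.to_comp.comp
        (hFc.comp (show Primrec fun z : ℕ => (4 ^ z.unpair.1, z.unpair.2) by fun_prop).to_comp)
        (hFc.comp (show Primrec fun z : ℕ => (2 * 4 ^ z.unpair.1, z.unpair.2) by fun_prop).to_comp)
    obtain ⟨cd, hcd⟩ := exists_code.1 (Partrec.nat_iff.1 hΦ.partrec)
    obtain ⟨e, he⟩ : ∃ e, Denumerable.ofNat Code e = cd := ⟨Encodable.encode cd, by simp⟩
    have hev : ∀ x, Nat.pair (f (w (4 ^ e)) x) (f (w (2 * 4 ^ e)) x) ∈ eval cd (Nat.pair e x) := by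
      intro x; rw [hcd]; simp [hF]
    by_cases h : ∃ s, trig e s = true
    · obtain ⟨s, hs⟩ := id h
      obtain ⟨x, _, v, hv, h1, h2⟩ := (trig_iff e s).1 hs
      rw [he] at hv
      rw [Part.mem_unique (evaln_sound hv) (hev x), Nat.unpair_pair] at h1 h2
      have : w (2 * 4 ^ e) ^ (3 ^ (par e).1) = w (4 ^ e) := Subtype.ext (u_pow h)
      apply h1
      show f (w (4 ^ e)) x = x
      rw [← this, map_pow, Equiv.Perm.coe_pow]
      exact Function.iterate_fixed h2 _
    · have h1 : w (2 * 4 ^ e) = 1 := Subtype.ext (u_eq_one h)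
      have h2 : f (w (4 ^ e)) ≠ 1 := fun h3 =>
        w_ne_one e (congrArg Subtype.val (hf (h3.trans f.map_one.symm)))
      obtain ⟨x, hx⟩ : ∃ x, f (w (4 ^ e)) x ≠ x := by
        by_contra hcon
        push Not at hcon
        exact h2 (Equiv.ext hcon)
      obtain ⟨k, hk⟩ := evaln_complete.1 (hev x)
      refine h ⟨max k (x + 1), (trig_iff _ _).2 ⟨x, by omega, _,
        he ▸ evaln_mono (le_max_left _ _) hk, by simpa using hx, by simp [h1]⟩⟩

end Pool.Agent.H23.ResFin
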