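import Mathlib

set_option autoImplicit false

namespace Pool.Agent.H23.Rewr

open Turing.ToPartrec

deriving instance Countable for Code

/-- Letters: operations on a stack of lists of naturals. -/
inductive L
  | N | a (b : Bool) | p (b : Bool) | U | Sw | Dup | DZ | H | T | F (c : Code) | K (c : Code)
  deriving Countable

open L

/-- Nonempty words. -/
abbrev Wd := L × List L

def sem {M : Type} [Mul M] (ι : L → M) (w : Wd) : M := w.2.foldl (fun t y => t * ι y) (ι w.1)

def two (b : Bool) : List (Wd × Wd) :=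
  [((p b, [a false]), (a false, [p b])), ((p b, [a true]), (a true, [p b])),
    ((a b, [N]), (N, [p b])), ((U, [a b]), (a b, [U])), ((Sw, [p b]), (a b, [Sw])),
    ((Dup, [p b, a b]), (a b, [Dup])), ((DZ, []), (a b, [DZ])),
    ((a b, []), (a b, [a false, T]))]

def basic : List (Wd × Wd) := two false ++ two true ++
  [((N, [N]), (N, [U])), ((U, []), (N, [Sw])), ((N, [N]), (N, [Dup])), ((a false, []), (N, [DZ])),
    ((H, [a true]), (a true, [H])), ((DZ, []), (a false, [H])), ((a false, []), (N, [H])),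
    ((T, []), (a true, [T])), ((N, []), (N, [T])), ((N, []), (N, [a false, T]))]

def rules : Code → List (Wd × Wd)
  | .zero' => [((a false, []), (F .zero', []))]
  | .succ => [((U, [H, a true]), (F .succ, []))]
  | .tail => [((T, []), (F .tail, []))]
  | .cons f g => ((Dup, [F g, Sw, F f, H]), (F (.cons f g), [])) :: (rules f ++ rules g)
  | .comp f g => ((F g, [F f]), (F (.comp f g), [])) :: (rules f ++ rules g)
  | .case f g => ((N, [F f]), (N, [F (.case f g)])) :: ((F f, []), (a false, [F (.case f g)])) ::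
      ((a false, [F g]), (a false, [a true, F (.case f g)])) ::
      ((a true, [F g]), (a true, [a true, F (.case f g)])) :: (rules f ++ rules g)
  | .fix f => ((F f, [K f]), (F (.fix f), [])) :: ((T, [F (.fix f)]), (a true, [K f])) ::
      ((a false, [T]), (a false, [K f])) :: ((N, []), (N, [K f])) :: rules f

section
variable {M : Type} [Monoid M] {ι : L → M}

inductive Enc (ι : L → M) : M → Prop
  | N : Enc ι (ι N)
  | a (b : Bool) {x : M} : Enc ι x → Enc ι (x * ι (a b))

def E (ι : L → M) : List ℕ → M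
  | [] => ι N
  | n :: v => E ι v * ι (a false) * ι (a true) ^ n

theorem enc_E (v : List ℕ) : Enc ι (E ι v) := by
  induction v with
  | nil => exact .N
  | cons n v ih =>
    induction n with
    | zero => simpa [E] using ih.a false
    | succ n ih => simpa [E, pow_succ, mul_assoc] using ih.a true

theorem sim [Preorder M] [MulLeftMono M] [MulRightMono M] (h : ∀ r ∈ basic, sem ι r.1 ≤ sem ι r.2) : (∀ v, ι (a false) ≤ E ι v * ι DZ) ∧
    ∀ c, (∀ r ∈ rules c, sem ι r.1 ≤ sem ι r.2) → ∀ v w, w ∈ c.eval v → E ι w ≤ E ι v * ι (F c) := by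
  have h2 : ∀ b, ∀ r ∈ two b, sem ι r.1 ≤ sem ι r.2 := fun b r hr => h r (by
    cases b <;> simp [basic, hr])
  simp only [two, List.forall_mem_cons, sem, List.foldl, forall_and] at h2
  obtain ⟨r1, r1', r2, r3, r5, r7, r9, r16, -⟩ := h2
  replace h := fun r hr => h r (List.mem_append_right _ hr)
  simp only [List.forall_mem_cons, sem, List.foldl] at h
  obtain ⟨r4, r6, r8, r10, r11, r12, r13, r14, r15, r17, -⟩ := h
  have A : ∀ b x, Enc ι x → ι (a b) * x ≤ x * ι (p b) := fun b x e => by
    induction e with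
    | N => exact r2 b
    | @a c x _ ih => calc
      _ ≤ x * (ι (p b) * ι (a c)) := by rw [← mul_assoc, ← mul_assoc]; gcongr
      _ ≤ _ := by cases c <;> rw [mul_assoc] <;> [grw [r1]; grw [r1']]
  have B : ∀ x, Enc ι x → ι N * x ≤ x * ι U := fun x e => by
    induction e with
    | N => exact r4
    | @a c x _ ih => calc
      _ ≤ x * (ι U * ι (a c)) := by rw [← mul_assoc, ← mul_assoc]; gcongr
      _ ≤ _ := by grw [mul_assoc, r3]
  have C : ∀ x y, Enc ι x → Enc ι y → y * x ≤ x * y * ι Sw := fun x y e e' => by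
    induction e' with
    | N => exact (B x e).trans (by rw [mul_assoc]; gcongr)
    | @a c y _ ih => calc
      _ ≤ y * x * ι (p c) := by grw [mul_assoc, mul_assoc, A c x e]
      _ ≤ x * y * (ι Sw * ι (p c)) := by rw [← mul_assoc]; gcongr
      _ ≤ _ := by grw [← mul_assoc x, mul_assoc (x * y), r5]
  have D : ∀ x, Enc ι x → x * x ≤ x * ι Dup := fun x e => by
    induction e with
    | N => exact r8
    | @a c x e ih => calc
      _ = x * (ι (a c) * x) * ι (a c) := by simp only [mul_assoc]
      _ ≤ x * (x * ι (p c)) * ι (a c) := by grw [A c x e]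
      _ ≤ x * (ι Dup * ι (p c) * ι (a c)) := by simp only [← mul_assoc]; gcongr
      _ ≤ _ := by grw [mul_assoc x, r7]
  have G : ∀ x, Enc ι x → ι (a false) ≤ x * ι DZ := fun x e => by
    induction e with
    | N => exact r10
    | a c _ ih => exact ih.trans (by rw [mul_assoc]; gcongr; exact r9 c)
  have I : ∀ x, Enc ι x → x ≤ x * ι (a false) * ι T := fun x e => by
    cases e with
    | N => exact r17
    | a c _ => simp only [mul_assoc]; gcongr; exact (r16 c).trans_eq (mul_assoc _ _ _)
  have hd : ∀ v : List ℕ, ι (a false) * ι (a true) ^ v.headI ≤ E ι v * ι H := fun v => by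
    rcases v with _ | ⟨n, v⟩
    · simpa [E] using r13
    induction n with
    | zero => simpa [E] using (G _ (enc_E v)).trans (by rw [mul_assoc]; gcongr)
    | succ n ih =>
      simp only [E, List.headI_cons, pow_succ, ← mul_assoc] at ih ⊢
      exact le_trans (b := E ι v * ι (a false) * ι (a true) ^ n * (ι H * ι (a true)))
        (by rw [← mul_assoc]; gcongr) (by rw [mul_assoc _ (ι (a true))]; gcongr)
  have tl : ∀ v : List ℕ, E ι v.tail ≤ E ι v * ι T := fun v => by
    rcases v with _ | ⟨n, v⟩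
    · exact r15
    induction n with
    | zero => simpa [E] using I _ (enc_E v)
    | succ n ih =>
      simp only [E, pow_succ, ← mul_assoc] at ih ⊢
      exact ih.trans (by rw [mul_assoc _ (ι (a true))]; gcongr)
  refine ⟨fun v => G _ (enc_E v), fun c => ?_⟩
  induction c with
  | zero' =>
    intro h v w e
    obtain rfl : w = 0 :: v := by simpa using e
    simp only [E, pow_zero, mul_one]
    gcongr
    exact h _ List.mem_cons_self
  | succ =>
    intro h v w e
    obtain rfl : w = [v.headI + 1] := by simpa using e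
    calc
      _ = ι N * (ι (a false) * ι (a true) ^ v.headI) * ι (a true) := by
        simp [E, pow_succ, mul_assoc]
      _ ≤ ι N * E ι v * ι H * ι (a true) := by grw [mul_assoc _ (E ι v), hd v]
      _ ≤ E ι v * (ι U * ι H * ι (a true)) := by
        simp only [← mul_assoc]; grw [B _ (enc_E v)]
      _ ≤ _ := by gcongr; exact h _ List.mem_cons_self
  | tail =>
    intro h v w e
    obtain rfl : w = v.tail := by simpa using e
    exact (tl v).trans (by gcongr; exact h _ List.mem_cons_self)
  | cons f g hf hg =>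
    intro h v w e
    simp only [rules, List.forall_mem_cons, List.forall_mem_append] at h
    obtain ⟨x, e1, y, e2, rfl⟩ : ∃ x ∈ f.eval v, ∃ y ∈ g.eval v, w = x.headI :: y := by
      simpa using e
    calc
      _ ≤ E ι y * E ι v * ι (F f) * ι H := by
        grw [E, mul_assoc, hd x, hf h.2.1 _ _ e1]
        simp only [mul_assoc, le_refl]
      _ ≤ E ι v * E ι y * ι Sw * ι (F f) * ι H := by grw [C _ _ (enc_E v) (enc_E y)]
      _ ≤ E ι v * (E ι v * ι (F g)) * ι Sw * ι (F f) * ι H := by gcongr; exact hg h.2.2 _ _ e2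
      _ ≤ E ι v * (ι Dup * ι (F g) * ι Sw * ι (F f) * ι H) := by
        simp only [← mul_assoc]; grw [D _ (enc_E v)]
      _ ≤ _ := by gcongr; exact h.1
  | comp f g hf hg =>
    intro h v w e
    simp only [rules, List.forall_mem_cons, List.forall_mem_append] at h
    obtain ⟨x, e1, e2⟩ : ∃ x ∈ g.eval v, w ∈ f.eval x := by simpa using e
    calc
      _ ≤ E ι x * ι (F f) := hf h.2.1 _ _ e2
      _ ≤ E ι v * (ι (F g) * ι (F f)) := by rw [← mul_assoc]; gcongr; exact hg h.2.2 _ _ e1
      _ ≤ _ := by gcongr; exact h.1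
  | case f g hf hg =>
    intro h v w e
    simp only [rules, List.forall_mem_cons, List.forall_mem_append, sem, List.foldl] at h
    obtain ⟨h1, h2, h3, h4, h5, h6⟩ := h
    rcases v with _ | ⟨_ | n, v⟩
    · exact (hf h5 [] w (by simpa using e)).trans h1
    · refine (hf h5 v w (by simpa using e)).trans ?_
      simp only [E, pow_zero, mul_one, mul_assoc]
      gcongr
    · refine (hg h6 (n :: v) w (by simpa using e)).trans ?_
      cases n <;> simp only [E, pow_zero, mul_one, pow_succ, one_mul, mul_assoc] at * <;> gcongr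
  | fix f hf =>
    intro h v w e
    simp only [rules, List.forall_mem_cons, sem, List.foldl] at h
    obtain ⟨h1, h2, h3, h4, h5⟩ := h
    have k : ∀ v x, x ∈ f.eval v → E ι w ≤ E ι x * ι (K f) → E ι w ≤ E ι v * ι (F f.fix) :=
      fun v x e l => l.trans <| le_trans (b := E ι v * (ι (F f) * ι (K f)))
        (by rw [← mul_assoc]; gcongr; exact hf h5 _ _ e) (by gcongr)
    rw [Code.fix_eval] at e
    refine PFun.fixInduction' e (C := fun v => E ι w ≤ E ι v * ι (F f.fix)) (fun v e => ?_)
      fun v v' _ e ih => ?_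
    all_goals
      obtain ⟨x, e1, e2⟩ := (Part.mem_map_iff _).1 e
      refine k v x e1 ?_
      rcases x with _ | ⟨_ | n, x⟩ <;> simp at e2 <;> subst e2
    · exact h4
    · refine (tl (0 :: x)).trans ?_
      simp only [E, pow_zero, mul_one, mul_assoc]
      gcongr
    · refine ih.trans (le_trans (b := E ι (n :: x) * (ι T * ι (F f.fix))) ?_ ?_)
      · rw [← mul_assoc]; gcongr; exact tl (n :: x)
      · simp only [E, pow_succ, mul_assoc]
        gcongr

end

/-- Binary relations under composition. -/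
def R (X : Type) := Set (X × X)

instance (X : Type) : Monoid (R X) where
  mul r s := {x | ∃ y, r (x.1, y) ∧ s (y, x.2)}
  one := {x | x.1 = x.2}
  mul_assoc _ _ _ := Set.ext fun ⟨_, _⟩ => ⟨fun ⟨u, ⟨v, i, j⟩, k⟩ => ⟨v, i, u, j, k⟩,
    fun ⟨v, i, u, j, k⟩ => ⟨u, ⟨v, i, j⟩, k⟩⟩
  one_mul _ := Set.ext fun ⟨_, _⟩ => ⟨fun ⟨_, i, j⟩ => by cases i; exact j, fun i => ⟨_, rfl, i⟩⟩
  mul_one _ := Set.ext fun ⟨_, _⟩ => ⟨fun ⟨_, i, j⟩ => by cases j; exact i, fun i => ⟨_, i, rfl⟩⟩

theorem R.mul_iff {X : Type} (r s : R X) (x : X × X) :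
    (r * s) x ↔ ∃ y, r (x.1, y) ∧ s (y, x.2) := Iff.rfl

def app : Bool → List ℕ → List ℕ
  | false, v => 0 :: v
  | true, v => (v.headI + 1) :: v.tail

open Stream' in
/-- The standard model. -/
def std : L → R (Stream' (List ℕ))
  | N, x => x.2 = cons [] x.1
  | a b, x => x.2 = cons (app b x.1.head) x.1.tail
  | p b, x => x.2 = cons x.1.head (cons (app b x.1.tail.head) x.1.tail.tail)
  | U, x => x.2 = cons x.1.head (cons [] x.1.tail)
  | Sw, x => x.2 = cons x.1.tail.head (cons x.1.head x.1.tail.tail)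
  | Dup, x => x.2 = cons x.1.head x.1
  | DZ, x => x.2 = cons (0 :: x.1.tail.head) x.1.tail.tail
  | H, x => x.2 = cons (x.1.head.headI :: x.1.tail.head) x.1.tail.tail
  | T, x => x.2 = cons x.1.head.tail x.1.tail
  | F c, x => ∃ w ∈ c.eval x.1.head, x.2 = cons w x.1.tail
  | K f, x => ∃ w ∈ (if x.1.head.headI = 0 then Part.some x.1.head.tail else
      f.fix.eval x.1.head.tail), x.2 = cons w x.1.tail

theorem std_basic : ∀ r ∈ basic, sem std r.1 = sem std r.2 := by
  simp only [basic, two, List.forall_mem_append, List.forall_mem_cons, sem, List.foldl,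
    List.not_mem_nil, false_imp_iff, implies_true, and_true]
  refine ⟨⟨?_, ?_⟩, ?_⟩ <;> repeat' constructor
  all_goals
    refine funext fun x => propext ?_
    simp [R.mul_iff, std, app]

theorem std_rules (c : Code) : ∀ r ∈ rules c, sem std r.1 = sem std r.2 := by
  induction c
  all_goals
    simp only [rules, List.forall_mem_append, List.forall_mem_cons, sem, List.foldl,
      List.not_mem_nil, false_imp_iff, implies_true, and_true] at *
    repeat' constructor
  all_goals first | assumption | skip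
  all_goals
    refine funext fun x => propext ?_
    simp [-Code.fix_eval, R.mul_iff, std, app]
  · exact ⟨fun ⟨_, _, ⟨i, j⟩, k⟩ => ⟨_, _, ⟨j, i⟩, k⟩, fun ⟨_, _, ⟨i, j⟩, k⟩ => ⟨_, _, ⟨j, i⟩, k⟩⟩
  · exact ⟨fun ⟨_, i, _, j, k⟩ => ⟨_, ⟨_, i, j⟩, k⟩, fun ⟨_, ⟨_, i, j⟩, k⟩ => ⟨_, i, _, j, k⟩⟩
  · rename_i f _
    have : ∀ v w, w ∈ f.fix.eval v ↔ ∃ u ∈ f.eval v,
        w ∈ if u.headI = 0 then Part.some u.tail else f.fix.eval u.tail := fun v w => by
      rw [Code.fix_eval, PFun.mem_fix_iff]
      simp only [Part.mem_map_iff]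
      constructor
      · rintro (⟨u, i, j⟩ | ⟨_, ⟨u, i, j⟩, k⟩) <;> refine ⟨u, i, ?_⟩ <;> split_ifs at j ⊢ <;>
          simp_all
      · rintro ⟨u, i, j⟩
        split_ifs at j with k
        · exact Or.inl ⟨u, i, by simpa [k, eq_comm] using j⟩
        · exact Or.inr ⟨_, ⟨u, i, if_neg k⟩, j⟩
    exact ⟨fun ⟨_, i, _, j, k⟩ => ⟨_, (this _ _).2 ⟨_, i, j⟩, k⟩, fun ⟨_, i, k⟩ =>
      let ⟨_, i, j⟩ := (this _ _).1 i; ⟨_, i, _, j, k⟩⟩

theorem std_E (v : List ℕ) : ∀ x, E std v x ↔ x.2 = Stream'.cons v x.1 := by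
  induction v with
  | nil => simp [E, std]
  | cons n v ih =>
    induction n with
    | zero => rw [E, pow_zero, mul_one]; simp [R.mul_iff, ih, std, app]
    | succ n ih =>
      intro x
      rw [E, pow_succ, ← mul_assoc, ← E, R.mul_iff]
      simp [ih, std, app]

theorem exists_undec : ∃ c : Code, ¬ ComputablePred fun n : ℕ => (c.eval [n]).Dom := by
  obtain ⟨c, hc⟩ := Code.exists_code (Nat.Partrec'.part_iff₁.2 (Nat.Partrec.Code.eval_part.comp
    (Computable.ofNat Nat.Partrec.Code) (Computable.const 0)))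
  refine ⟨c, fun h => ComputablePred.halting_problem 0 ?_⟩
  obtain ⟨f, hf, e⟩ := ComputablePred.computable_iff.1 h
  refine ComputablePred.computable_iff.2 ⟨_, hf.comp Computable.encode, funext fun d => ?_⟩
  rw [← congrFun e, show c.eval [Encodable.encode d] = _ from hc ⟨[Encodable.encode d], rfl⟩]
  simp [List.Vector.head]

end Pool.Agent.H23.Rewr
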