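import Mathlib

set_option autoImplicit false

namespace Pool.Agent.H23.SC
open Finset

def Skew (p : Finset ℕ → ℤ) : Prop :=
  ∀ X Y, p X + p Y ≤ p (X ∩ Y) + p (X ∪ Y) ∨ p X + p Y ≤ p (X \ Y) + p (Y \ X)

def μ (W X : Finset ℕ) : ℤ := ∑ x ∈ W, if x ∈ X then 1 else 0

def Cov (p : Finset ℕ → ℤ) (m : ℕ) (W : Finset ℕ) : Prop := ∀ X, p X ≤ m + μ W X

def Q (p : Finset ℕ → ℤ) (S : Finset ℕ) (a b : ℕ) (U : Finset ℕ) : Prop :=
  U ⊆ S ∧ Cov p b U ∧ Cov p a (S \ U)

def Good (p : Finset ℕ → ℤ) (S : Finset ℕ) (k : ℕ) : Prop := Skew p ∧ Cov p k ∅ ∧ Cov p 0 S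

theorem mu_eq (W X : Finset ℕ) : μ W X = (X ∩ W).card := by
  simp [μ, inter_comm]

theorem mu_mod (W X Y : Finset ℕ) : μ W (X ∩ Y) + μ W (X ∪ Y) = μ W X + μ W Y ∧
    μ W (X \ Y) + μ W (X ∩ Y) = μ W X ∧ μ W (Y \ X) + μ W (X ∩ Y) = μ W Y ∧
    0 ≤ μ W (X \ Y) ∧ 0 ≤ μ W (Y \ X) ∧ 0 ≤ μ W (X ∩ Y) := by
  simp only [μ, ← sum_add_distrib]
  refine ⟨?_, ?_, ?_, ?_, ?_, ?_⟩ <;> first
    | exact sum_congr rfl fun x _ => by grind
    | exact sum_nonneg fun x _ => by positivity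

theorem mu_pos {W X : Finset ℕ} {x : ℕ} (h : x ∈ W) (h' : x ∈ X) : 1 ≤ μ W X := by
  have : 0 < (X ∩ W).card := card_pos.2 ⟨x, mem_inter.2 ⟨h', h⟩⟩
  rw [mu_eq]; omega

theorem mu_sd {S U : Finset ℕ} (h : U ⊆ S) (X : Finset ℕ) : μ (S \ U) X + μ U X = μ S X :=
  sum_sdiff h

theorem mu_ins {W : Finset ℕ} {u : ℕ} (h : u ∉ W) (X : Finset ℕ) :
    μ (insert u W) X = (if u ∈ X then 1 else 0) + μ W X := sum_insert h

theorem mu_del {W : Finset ℕ} {u : ℕ} (h : u ∈ W) (X : Finset ℕ) :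
    μ (W.erase u) X + (if u ∈ X then 1 else 0) = μ W X := sum_erase_add _ _ h

theorem Cov.mono {p : Finset ℕ → ℤ} {m : ℕ} {W W' : Finset ℕ} (h : Cov p m W) (e : W ⊆ W') :
    Cov p m W' := fun X => by
  have := h X
  have := mu_sd e X
  have := mu_eq (W' \ W) X
  omega

theorem card_x {U : Finset ℕ} {u v : ℕ} (a : u ∉ U) (b : v ∈ U) :
    (insert u (U.erase v)).card = U.card := by
  rw [card_insert_of_notMem (by simp [a]), card_erase_add_one b]

def GM (F : Finset ℕ → Prop) : Prop := ∀ U U', F U → F U' →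
  (∀ u ∈ U', u ∉ U → F (insert u U) ∨ ∃ v ∈ U, v ∉ U' ∧ F (insert u (U.erase v))) ∧
  ∀ v ∈ U, v ∉ U' → F (U.erase v) ∨ ∃ u ∈ U', u ∉ U ∧ F (insert u (U.erase v))

def BM (F : Finset ℕ → Prop) : Prop := ∀ U U', F U → F U' →
  (∀ u ∈ U', u ∉ U → ∃ v ∈ U, v ∉ U' ∧ F (insert u (U.erase v))) ∧
  ∀ v ∈ U, v ∉ U' → ∃ u ∈ U', u ∉ U ∧ F (insert u (U.erase v))

section
variable {p : Finset ℕ → ℤ} {S U U' : Finset ℕ} {a b : ℕ}

theorem q_ins (g : Good p S (a + b)) (h : Q p S a b U) (h' : Q p S a b U') {u : ℕ} (hu : u ∈ U')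
    (hu' : u ∉ U) : Q p S a b (insert u U) ∨ ∃ v ∈ U, v ∉ U' ∧ Q p S a b (insert u (U.erase v)) := by
  classical
  obtain ⟨g1, g2, g3⟩ := g
  obtain ⟨h1, h2, h3⟩ := h
  have us : u ∈ S \ U := mem_sdiff.2 ⟨h'.1 hu, hu'⟩
  refine or_iff_not_imp_left.2 fun c => ?_
  have ex : ∃ n, ∃ Y : Finset ℕ, Y.card = n ∧ u ∈ Y ∧ p Y = a + μ (S \ U) Y := by
    by_contra! e
    refine c ⟨insert_subset (h'.1 hu) h1, h2.mono (subset_insert _ _), fun X => ?_⟩
    have := mu_del us X
    have := e _ X rfl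
    have := h3 X
    rw [sdiff_insert]
    grind
  obtain ⟨Y, y0, y1, y2⟩ := Nat.find_spec ex
  have mn : ∀ X, u ∈ X → p X = a + μ (S \ U) X → Y ⊆ X := fun X x1 x2 => by
    have := mu_mod (S \ U) X Y
    have := mu_pos us (mem_inter.2 ⟨x1, y1⟩)
    have := h3 (X ∩ Y)
    have := h3 (X ∪ Y)
    have := h3 (X \ Y)
    have := h3 (Y \ X)
    have := g1 X Y
    have := Nat.find_min' ex ⟨X ∩ Y, rfl, mem_inter.2 ⟨x1, y1⟩, by omega⟩
    exact inter_eq_right.1 (eq_of_subset_of_card_le inter_subset_right (by omega))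
  obtain ⟨v, v1, v2, v3⟩ : ∃ v ∈ Y, v ∈ U ∧ v ∉ U' := by
    by_contra! e
    have := h'.2.2 Y
    have := mu_del us Y
    have := card_le_card (show Y ∩ (S \ U') ⊆ Y ∩ (S \ U).erase u by intro x; grind only [mem_sdiff, mem_erase, mem_insert, mem_inter])
    simp only [mu_eq, if_pos y1] at *
    omega
  have hv : u ∉ U.erase v := by simp [hu']
  refine ⟨v, v2, v3, insert_subset (h'.1 hu) ((erase_subset _ _).trans h1), fun X => ?_, fun X => ?_⟩
  · have := mu_ins hv X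
    have := mu_del v2 X
    have := h2 X
    by_contra c
    obtain ⟨x1, x2, x3⟩ : v ∈ X ∧ u ∉ X ∧ p X = b + μ U X := by grind
    have := mu_mod (S \ U) X Y
    have := mu_mod U X Y
    have := mu_pos us (mem_sdiff.2 ⟨y1, x2⟩)
    have := mu_pos v2 (mem_inter.2 ⟨x1, v1⟩)
    have := g1 X Y
    have := g2 (X ∪ Y)
    have := g3 (X ∩ Y)
    have := mu_sd h1 (X ∩ Y)
    have := h2 (X \ Y)
    have := h3 (Y \ X)
    have := mu_mod (S \ U) Y X
    simp only [μ, sum_empty] at *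
    push_cast at *
    omega
  · have e : S \ insert u (U.erase v) = insert v ((S \ U).erase u) := by ext; grind only [mem_sdiff, mem_erase, mem_insert, subset_iff]
    have := mu_ins (show v ∉ (S \ U).erase u by simp [v2]) X
    have := mu_del us X
    have := h3 X
    have := fun a b => mn X a b v1
    rw [e]
    grind

theorem Q.compl (h : Q p S a b U) : Q p S b a (S \ U) :=
  ⟨sdiff_subset, h.2.2, by rw [Finset.sdiff_sdiff_eq_self h.1]; exact h.2.1⟩

theorem q_gm (g : Good p S (a + b)) : GM (Q p S a b) := fun U U' h h' =>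
  ⟨fun _ a b => q_ins g h h' a b, fun v x y => by
    have := h.1
    rcases q_ins (add_comm a b ▸ g) h.compl h'.compl (u := v) (by grind) (by grind) with
      e | ⟨u, e1, e2, e⟩
    · exact .inl (by convert e.compl using 1; ext; grind only [mem_sdiff, mem_erase, mem_insert, subset_iff])
    · exact .inr ⟨u, by grind, by grind, by convert e.compl using 1; ext; grind only [mem_sdiff, mem_erase, mem_insert, subset_iff]⟩⟩

theorem q_min (g : Good p S (a + b)) (h1 : U ⊆ S) (h2 : Cov p b U)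
    (h3 : ∀ v ∈ U, ¬ Cov p b (U.erase v)) : Q p S a b U := by
  refine ⟨h1, h2, fun Y => ?_⟩
  induction h : (Y ∩ U).card using Nat.strong_induction_on generalizing Y with | _ n ih => ?_
  have := g.2.2 Y
  have := mu_sd h1 Y
  rcases (Y ∩ U).eq_empty_or_nonempty with e | ⟨v, e⟩
  · have := mu_eq U Y
    simp [e] at *; omega
  obtain ⟨v1, v2⟩ := mem_inter.1 e
  obtain ⟨X, hX⟩ := not_forall.1 (h3 v v2)
  have := mu_del v2 X
  have := h2 X
  obtain ⟨x1, x2⟩ : v ∈ X ∧ p X = b + μ U X := by grind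
  have := ih _ (h ▸ card_lt_card (show (Y \ X) ∩ U ⊂ Y ∩ U from
    ⟨by intro x; grind only [mem_sdiff, mem_erase, mem_insert, mem_inter], fun c => by have := c e; grind⟩)) (Y \ X) rfl
  have := mu_mod (S \ U) X Y
  have := mu_mod U X Y
  have := g.1 X Y
  have := g.2.1 (X ∪ Y)
  have := g.2.2 (X ∩ Y)
  have := mu_sd h1 (X ∩ Y)
  have := h2 (X \ Y)
  simp only [μ, sum_empty] at *
  push_cast at *
  omega

theorem q_ex (g : Good p S (a + b)) : ∃ U, Q p S a b U := by
  classical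
  have ex : ∃ n, ∃ U : Finset ℕ, U.card = n ∧ U ⊆ S ∧ Cov p b U :=
    ⟨_, S, rfl, subset_rfl, fun X => by have := g.2.2 X; omega⟩
  obtain ⟨U, h0, h1, h2⟩ := Nat.find_spec ex
  refine ⟨U, q_min g h1 h2 fun v hv c => ?_⟩
  have := Nat.find_min' ex ⟨_, rfl, (erase_subset _ _).trans h1, c⟩
  have := card_erase_lt_of_mem hv
  omega

end

section
variable {F : Finset ℕ → Prop} {U U' : Finset ℕ}

theorem GM.up (g : GM F) (h : F U) (h' : F U') (e : U.card < U'.card) :
    ∃ u ∈ U', u ∉ U ∧ F (insert u U) := by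
  induction c : (U \ U').card generalizing U' with
  | zero =>
    obtain ⟨u, a, b⟩ := exists_mem_notMem_of_card_lt_card e
    have := sdiff_eq_empty_iff_subset.1 (card_eq_zero.1 c)
    exact ⟨u, a, b, ((g _ _ h h').1 u a b).elim id (by grind)⟩
  | succ n ih =>
    obtain ⟨v, hv⟩ := card_pos.1 (show 0 < (U \ U').card by omega)
    obtain ⟨v1, v2⟩ := mem_sdiff.1 hv
    have := card_erase_of_mem hv
    rcases (g _ _ h' h).1 v v1 v2 with f | ⟨u, a, b, f⟩
    · obtain ⟨u, a, b⟩ := ih f (by rw [card_insert_of_notMem v2]; omega)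
        (by rw [sdiff_insert]; omega)
      exact ⟨u, by grind only [mem_insert], b⟩
    · obtain ⟨w, c, d⟩ := ih f (by rwa [card_x v2 a]) (by
        rw [show U \ insert v (U'.erase u) = (U \ U').erase v by ext; grind only [mem_sdiff, mem_erase, mem_insert, subset_iff]]; omega)
      exact ⟨w, by grind only [mem_insert, mem_erase], d⟩

theorem GM.down (g : GM F) (h : F U) (h' : F U') (e : U'.card < U.card) :
    ∃ v ∈ U, v ∉ U' ∧ F (U.erase v) := by
  induction c : (U' \ U).card generalizing U' with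
  | zero =>
    obtain ⟨u, a, b⟩ := exists_mem_notMem_of_card_lt_card e
    have := sdiff_eq_empty_iff_subset.1 (card_eq_zero.1 c)
    exact ⟨u, a, b, ((g _ _ h h').2 u a b).elim id (by grind)⟩
  | succ n ih =>
    obtain ⟨v, hv⟩ := card_pos.1 (show 0 < (U' \ U).card by omega)
    obtain ⟨v1, v2⟩ := mem_sdiff.1 hv
    have := card_erase_of_mem hv
    rcases (g _ _ h' h).2 v v1 v2 with f | ⟨u, a, b, f⟩
    · obtain ⟨u, a, b, c⟩ := ih f (card_erase_le.trans_lt e) (by
        rw [show U'.erase v \ U = (U' \ U).erase v by ext; grind only [mem_sdiff, mem_erase, mem_insert, subset_iff]]; omega)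
      exact ⟨u, a, by grind only [mem_erase], c⟩
    · obtain ⟨w, c, d, g⟩ := ih f (by rwa [card_x b v1]) (by
        rw [show insert u (U'.erase v) \ U = (U' \ U).erase v by ext; grind only [mem_sdiff, mem_erase, mem_insert, subset_iff]]; omega)
      exact ⟨w, c, by grind only [mem_insert, mem_erase], g⟩

theorem GM.mid (g : GM F) (h : F U) (h' : F U') {t : ℕ} (e : U.card ≤ t) (e' : t ≤ U'.card) :
    ∃ W, F W ∧ W.card = t := by
  induction t, e using Nat.le_induction with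
  | base => exact ⟨U, h, rfl⟩
  | succ t e ih =>
    obtain ⟨W, a, b⟩ := ih (by omega)
    obtain ⟨u, -, c, d⟩ := g.up a h' (by omega)
    exact ⟨_, d, by rw [card_insert_of_notMem c, b]⟩

theorem GM.slice (g : GM F) (t : ℕ) : BM fun U => F U ∧ U.card = t := by
  rintro U U' ⟨h, e⟩ ⟨h', e'⟩
  refine ⟨fun u a b => ?_, fun v a b => ?_⟩
  · rcases (g _ _ h h').1 u a b with f | ⟨v, c, d, f⟩
    · obtain ⟨v, c, d, f⟩ := g.down f h' (by rw [card_insert_of_notMem b]; omega)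
      have c : v ∈ U := by grind only [mem_insert]
      exact ⟨v, c, d, by convert f using 1; ext; grind only [mem_sdiff, mem_erase, mem_insert, subset_iff], (card_x b c).trans e⟩
    · exact ⟨v, c, d, f, (card_x b c).trans e⟩
  · rcases (g _ _ h h').2 v a b with f | ⟨u, c, d, f⟩
    · obtain ⟨u, c, d, f⟩ := g.up f h' (by have := card_erase_add_one a; omega)
      have d : u ∉ U := by grind only [mem_erase]
      exact ⟨u, c, d, f, (card_x d a).trans e⟩
    · exact ⟨u, c, d, f, (card_x d a).trans e⟩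

theorem BM.loc (g : BM F) (h : F U) {H : Finset ℕ}
    (l : ∀ u ∈ H, u ∉ U → ∀ v ∈ U, v ∉ H → ¬ F (insert u (U.erase v))) (h' : F U') :
    μ U' H ≤ μ U H := by
  induction c : (U \ U').card using Nat.strong_induction_on generalizing U' with | _ n ih => ?_
  by_cases e : ∃ v ∈ U, v ∉ U' ∧ v ∈ H
  · obtain ⟨v, a, b, d⟩ := e
    obtain ⟨u, x, y, f⟩ := (g _ _ h' h).1 v a b
    have := ih _ (c ▸ card_lt_card (show U \ insert v (U'.erase u) ⊂ U \ U' from
      ⟨by intro x; grind only [mem_sdiff, mem_erase, mem_insert, mem_inter], fun c => by have := @c v; grind⟩)) f rfl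
    have := mu_ins (show v ∉ U'.erase u by simp [b]) H
    have := mu_del x H
    grind
  · rw [mu_eq, mu_eq]
    refine Int.ofNat_le.2 (card_le_card fun u hu => ?_)
    obtain ⟨a, b⟩ := mem_inter.1 hu
    by_contra d
    obtain ⟨v, x, y, f⟩ := (g _ _ h h').1 u b (by grind)
    exact l u a (by grind) v x (by grind) f

end

end Pool.Agent.H23.SC
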