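import Pool.Agent.H23.SC1

set_option autoImplicit false

namespace Pool.Agent.H23.SC
open Finset

def I1 (F : Finset ℕ → Prop) (B : Finset ℕ) (θ : ℕ → ℕ) : Prop :=
  F B ∧ ∀ u ∉ B, ∀ v ∈ B, F (insert u (B.erase v)) → θ u ≤ θ v + 1

def Inv (S : Finset ℕ) (F G : Finset ℕ → Prop) (B C : Finset ℕ) (θ : ℕ → ℕ) : Prop :=
  I1 F B θ ∧ I1 G C θ ∧ (∀ x ∈ B, x ∈ C → θ x = 0) ∧ ∀ x, θ x ≤ S.card

def Ψ (S B C : Finset ℕ) (θ : ℕ → ℕ) : ℕ := ∑ x ∈ S, if x ∈ B ∨ x ∈ C then 2 * θ x else θ x

section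
variable {S B C : Finset ℕ} {F G : Finset ℕ → Prop} {θ : ℕ → ℕ} {s t : ℕ}

theorem I1.push (g : BM F) (h : I1 F B θ) (hs : s ∉ B) (ht : t ∈ B) (f : F (insert s (B.erase t)))
    (e : θ t + 1 = θ s) : I1 F (insert s (B.erase t)) θ := by
  refine ⟨f, fun u a v b c => ?_⟩
  by_cases e1 : v = s
  · subst e1
    by_cases e2 : u = t
    · subst e2; omega
    have := h.2 u (by grind only [mem_insert, mem_erase]) t ht
      (by convert c using 1; ext; grind only [mem_insert, mem_erase])
    omega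
  have vb : v ∈ B ∧ v ≠ t := by grind only [mem_insert, mem_erase]
  by_cases e2 : u = t
  · subst e2
    have := h.2 s hs v vb.1 (by convert c using 1; ext; grind only [mem_insert, mem_erase])
    omega
  have ub : u ∉ B ∧ u ≠ s := by grind only [mem_insert, mem_erase]
  obtain ⟨x, x1, x2, x3⟩ := (g _ _ h.1 c).1 u (by simp) ub.1
  obtain ⟨y, y1, y2, y3⟩ := (g _ _ h.1 c).2 v vb.1 (by grind only [mem_insert, mem_erase])
  have := h.2 u ub.1 x x1 x3
  have := h.2 y y2 v vb.1 y3
  grind only [mem_insert, mem_erase]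

theorem I1.lift (h : I1 F B θ) (hs : s ∉ B)
    (e : ∀ t ∈ B, F (insert s (B.erase t)) → θ t + 1 ≠ θ s) :
    I1 F B fun x => θ x + if s = x then 1 else 0 := by
  refine ⟨h.1, fun u a v b c => ?_⟩
  have := h.2 u a v b c
  have := e v b
  grind

theorem Inv.symm (h : Inv S F G B C θ) : Inv S G F C B θ :=
  ⟨h.2.1, h.1, fun x a b => h.2.2.1 x b a, h.2.2.2⟩

theorem psi_symm : Ψ S B C θ = Ψ S C B θ := by simp [Ψ, or_comm]

theorem Inv.bd (h : Inv S F G B C θ) : Ψ S B C θ ≤ S.card * (2 * S.card) :=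
  sum_le_card_nsmul _ _ _ fun x _ => by have := h.2.2.2 x; split <;> omega

theorem Inv.push (g : BM F) (h : Inv S F G B C θ) (h0 : s ∈ S) (hs : s ∉ B) (hs' : s ∉ C)
    (h1 : t ∈ S) (ht : t ∈ B) (f : F (insert s (B.erase t))) (e : θ t + 1 = θ s) :
    Inv S F G (insert s (B.erase t)) C θ ∧ Ψ S B C θ < Ψ S (insert s (B.erase t)) C θ := by
  refine ⟨⟨h.1.push g hs ht f e, h.2.1, fun x a b => h.2.2.1 x
    (by grind only [mem_insert, mem_erase]) b, h.2.2.2⟩, ?_⟩
  have a : t ∈ S.erase s := by grind only [mem_erase]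
  unfold Ψ
  rw [← add_sum_erase _ _ h0, ← add_sum_erase _ _ a, ← add_sum_erase _ _ h0, ← add_sum_erase _ _ a,
    sum_congr rfl (g := fun x => if x ∈ insert s (B.erase t) ∨ x ∈ C then 2 * θ x else θ x)
    fun x hx => by grind only [mem_insert, mem_erase]]
  grind only [mem_insert, mem_erase]

theorem Inv.lift (h : Inv S F G B C θ) (h0 : s ∈ S) (hs : s ∉ B) (hs' : s ∉ C) (l : θ s < S.card)
    (e : ∀ t ∈ B, F (insert s (B.erase t)) → θ t + 1 ≠ θ s)
    (e' : ∀ t ∈ C, G (insert s (C.erase t)) → θ t + 1 ≠ θ s) :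
    Inv S F G B C (fun x => θ x + if s = x then 1 else 0) ∧
      Ψ S B C θ < Ψ S B C fun x => θ x + if s = x then 1 else 0 := by
  refine ⟨⟨h.1.lift hs e, h.2.1.lift hs' e', fun x a b => by have := h.2.2.1 x a b; grind,
    fun x => by have := h.2.2.2 x; grind⟩, sum_lt_sum (fun x _ => by grind) ⟨s, h0, by grind⟩⟩

theorem Inv.cert (g : BM F) (g' : BM G) (f : ∀ U, F U → U ⊆ S) (f' : ∀ U, G U → U ⊆ S)
    (h : Inv S F G B C θ) (h0 : s ∈ S) (hs : s ∉ B) (hs' : s ∉ C) (l : S.card ≤ θ s) :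
    ∃ H, ∀ U V, F U → G V → μ U H + μ V H < μ S H := by
  obtain ⟨j, j1, j2⟩ := exists_mem_notMem_of_card_lt_card (s := (S.erase s).image θ)
    (t := range S.card) (card_image_le.trans_lt (by simpa using card_erase_lt_of_mem h0))
  have j3 : ∀ x ∈ S, θ x ≠ j := fun x a b => by
    by_cases e : x = s
    · subst e; simp at j1; omega
    · exact j2 (mem_image.2 ⟨x, mem_erase.2 ⟨e, a⟩, b⟩)
  have key : ∀ {F B U}, BM F → (∀ U, F U → U ⊆ S) → I1 F B θ → F U →
      μ U (S.filter fun x => j < θ x) ≤ μ B (S.filter fun x => j < θ x) :=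
    fun g f h => g.loc h.1 fun u a b v c d e => by
      have := h.2 u b v c e
      have := f _ h.1 c
      have := j3 v this
      grind only [mem_filter]
  refine ⟨S.filter fun x => j < θ x, fun U V a b =>
    (add_le_add (key g f h.1 a) (key g' f' h.2.1 b)).trans_lt ?_⟩
  simp only [mu_eq, ← Nat.cast_add, Nat.cast_lt]
  rw [← card_union_of_disjoint (disjoint_left.2 fun x a b => by
    have := h.2.2.1 x; grind only [mem_inter, mem_filter])]
  refine card_lt_card ⟨by intro x; grind only [mem_inter, mem_filter, mem_union], fun c => ?_⟩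
  have := @c s
  grind only [mem_inter, mem_filter, mem_union, mem_range]

theorem cover (g : BM F) (g' : BM G) (f : ∀ U, F U → U ⊆ S) (f' : ∀ U, G U → U ⊆ S) (hB : F B)
    (hC : G C) (c : ∀ H, ∃ U V, F U ∧ G V ∧ μ S H ≤ μ U H + μ V H) :
    ∃ U V, F U ∧ G V ∧ S ⊆ U ∪ V := by
  suffices ∀ m B C θ, Inv S F G B C θ → S.card * (2 * S.card) < Ψ S B C θ + m →
      ∃ U V, F U ∧ G V ∧ S ⊆ U ∪ V from
    this _ B C (fun _ => 0) ⟨⟨hB, by simp⟩, ⟨hC, by simp⟩, by simp, by simp⟩
      (Nat.lt_add_left _ (Nat.lt_succ_self _))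
  intro m
  induction m with
  | zero => exact fun B C θ h l => by have := h.bd; omega
  | succ m ih =>
    intro B C θ h l
    by_contra n
    obtain ⟨s, a, b⟩ := not_subset.1 fun e => n ⟨B, C, h.1.1, h.2.1.1, e⟩
    rw [mem_union, not_or] at b
    by_cases e : S.card ≤ θ s
    · obtain ⟨H, e⟩ := h.cert g g' f f' a b.1 b.2 e
      obtain ⟨U, V, x, y, z⟩ := c H
      exact (e U V x y).not_ge z
    by_cases e1 : ∃ t ∈ B, F (insert s (B.erase t)) ∧ θ t + 1 = θ s
    · obtain ⟨t, x, y, z⟩ := e1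
      have := h.push g a b.1 b.2 (f _ h.1.1 x) x y z
      exact n (ih _ _ _ this.1 (by omega))
    by_cases e2 : ∃ t ∈ C, G (insert s (C.erase t)) ∧ θ t + 1 = θ s
    · obtain ⟨t, x, y, z⟩ := e2
      obtain ⟨h1, h2⟩ := h.symm.push g' a b.2 b.1 (f' _ h.2.1.1 x) x y z
      rw [psi_symm, @psi_symm S _ B] at h2
      exact n (ih _ _ _ h1.symm (by omega))
    have := h.lift a b.1 b.2 (by omega) (by grind) (by grind)
    exact n (ih _ _ _ this.1 (by omega))

end

def Col (p : Finset ℕ → ℤ) (S : Finset ℕ) (c : ℕ → ℕ) : Prop := ∀ X, p X ≤ ((X ∩ S).image c).card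

theorem Skew.sub {p g : Finset ℕ → ℤ} (h : Skew p) (a : ∀ X Y, g (X ∩ Y) + g (X ∪ Y) ≤ g X + g Y)
    (b : ∀ X Y, g (X \ Y) ≤ g X) : Skew fun X => p X - g X := fun X Y => by
  have := h X Y
  have := a X Y
  have := b X Y
  have := b Y X
  simp only
  omega

theorem Q.good {p : Finset ℕ → ℤ} {S U : Finset ℕ} {a b : ℕ} (g : Good p S (a + b))
    (h : Q p S a b U) : Good (fun X => p X - min (a : ℤ) (μ U X)) (S \ U) b := by
  refine ⟨g.1.sub (fun X Y => ?_) fun X Y => ?_, fun X => ?_, fun X => ?_⟩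
  · have := mu_mod U X Y; omega
  · have := mu_mod U X Y; omega
  · have := g.2.1 X
    have := h.2.1 X
    simp only [μ, sum_empty] at *
    push_cast at *
    omega
  · have := g.2.2 X
    have := h.2.2 X
    have := mu_sd h.1 X
    simp only
    omega

theorem ind (Z : ℕ → ℕ → Prop) (w : ℕ → Prop) (E : Prop) (z : ∀ N, Z 0 N → N = 0)
    (pick : ∀ S k p q, (E → p = q) → Good p S (1 + k) → Good q S (1 + k) → Z (k + 1) S.card →
      ∃ K, Q p S 1 k K ∧ Q q S 1 k K ∧ w K.card ∧ Z k (S \ K).card) (k : ℕ) :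
    ∀ S p q, (E → p = q) → Good p S k → Good q S k → Z k S.card → ∃ c : ℕ → ℕ, (∀ x ∈ S, c x < k) ∧
      (∀ j < k, w (S.filter fun x => c x = j).card) ∧ Col p S c ∧ Col q S c := by
  induction k with
  | zero =>
    intro S p q _ a b c
    obtain rfl := card_eq_zero.1 (z _ c)
    exact ⟨id, by simp, by simp, fun X => by simpa [μ] using a.2.1 X,
      fun X => by simpa [μ] using b.2.1 X⟩
  | succ k ih =>
    intro S p q e a b c
    rw [add_comm] at a b
    obtain ⟨K, k1, k2, k3, k4⟩ := pick S k p q e a b c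
    obtain ⟨c, c1, c2, c3, c4⟩ := ih _ _ _ (fun x => by rw [e x]) (k1.good a) (k2.good b) k4
    have key : ∀ p : Finset ℕ → ℤ, Col (fun X => p X - min ((1 : ℕ) : ℤ) (μ K X)) (S \ K) c →
        Col p S fun x => if x ∈ K then k else c x := fun p h X => by
      have h1 := h X
      have s1 : (X ∩ (S \ K)).image c ⊆ (X ∩ S).image fun x => if x ∈ K then k else c x := by
        intro y; grind only [mem_image, mem_inter, mem_sdiff]
      rcases (X ∩ K).eq_empty_or_nonempty with e | ⟨x, e⟩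
      · have := card_le_card s1
        simp only [mu_eq, e] at h1
        simp at h1; omega
      · have := card_lt_card ⟨s1, fun c => by
          have := @c k
          have := k1.1
          grind only [mem_image, mem_inter, mem_sdiff, subset_iff]⟩
        simp only at h1
        omega
    refine ⟨_, fun x hx => ?_, fun j hj => ?_, key p c3, key q c4⟩
    · have := c1 x; grind only [mem_sdiff]
    by_cases e : j = k
    · convert k3 using 2
      ext x
      have := c1 x
      have := @k1.1 x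
      grind only [mem_sdiff, mem_filter]
    · convert c2 j (by omega) using 2
      ext x
      grind only [mem_sdiff, mem_filter]

theorem Col.q {p : Finset ℕ → ℤ} {S : Finset ℕ} {c : ℕ → ℕ} {a b : ℕ} (h : Col p S c)
    (J : Finset ℕ) (h1 : J.card ≤ a) (h2 : ∀ x ∈ S, c x < J.card + b)
    (h3 : J ⊆ range (J.card + b)) : Q p S a b (S.filter fun x => c x ∈ J) := by
  refine ⟨filter_subset _ _, fun X => (h X).trans ?_, fun X => (h X).trans ?_⟩ <;>
    rw [mu_eq, ← Nat.cast_add, Nat.cast_le]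
  · refine (card_le_card (t := (range (J.card + b) \ J) ∪ (X ∩ S.filter fun x => c x ∈ J).image c)
      (by intro y; grind only [mem_image, mem_inter, mem_sdiff, mem_union, mem_filter,
        mem_range])).trans ((card_union_le _ _).trans (add_le_add ?_ card_image_le))
    simp [card_sdiff_of_subset h3]
  · exact (card_le_card (t := J ∪ (X ∩ (S \ S.filter fun x => c x ∈ J)).image c)
      (by intro y; grind only [mem_image, mem_inter, mem_sdiff, mem_union, mem_filter])).trans
      ((card_union_le _ _).trans (add_le_add h1 card_image_le))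

theorem avg {S : Finset ℕ} {c : ℕ → ℕ} {k : ℕ} (h : ∀ x ∈ S, c x < k + 1) (H : Finset ℕ) :
    (∃ j < k + 1, μ S H ≤ (k + 1) * μ (S.filter fun x => c x ∈ ({j} : Finset ℕ)) H) ∧
    ∃ j < k + 1, (k + 1) * μ (S.filter fun x => c x ∈ ({j} : Finset ℕ)) H ≤ μ S H := by
  have : ∑ j ∈ range (k + 1), ((k : ℤ) + 1) * μ (S.filter fun x => c x ∈ ({j} : Finset ℕ)) H =
      ∑ _j ∈ range (k + 1), μ S H := by
    simp only [← mul_sum, μ, mem_singleton]
    rw [sum_fiberwise_of_maps_to fun x hx => mem_range.2 (h x hx)]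
    simp
  simpa using And.intro (exists_le_of_sum_le (by simp) this.ge) (exists_le_of_sum_le (by simp) this.le)

theorem equi (n k : ℕ) (S : Finset ℕ) (p q : Finset ℕ → ℤ) (a : Good p S k) (b : Good q S k)
    (e : S.card = k * n) : ∃ c : ℕ → ℕ, (∀ x ∈ S, c x < k) ∧
      (∀ j < k, (S.filter fun x => c x = j).card = n) ∧ Col p S c ∧ Col q S c := by
  have cl : ∀ {p S c k j}, Col p S c → (∀ x ∈ S, c x < k + 1) → j < k + 1 →
      Q p S 1 k (S.filter fun x => c x ∈ ({j} : Finset ℕ)) := fun h a b =>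
    h.q _ (by simp) (by simpa [add_comm] using a) (by simpa [add_comm] using b)
  have sz : ∀ {S K : Finset ℕ} {k}, K ⊆ S → S.card = (k + 1) * n → K.card = n →
      (S \ K).card = k * n := fun h a b => by
    rw [card_sdiff_of_subset h, a, b, add_mul]; simp
  have c0 := ind (fun k N => k = 0 → N = 0) (fun _ => True) True (fun _ h => h rfl)
    fun S k p q e a _ _ => by
      obtain rfl := e trivial
      by_cases h : k = 0
      · subst h
        have : Q p S 1 0 S := ⟨subset_rfl, a.2.2, by simpa using a.2.1⟩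
        exact ⟨S, this, this, trivial, by simp⟩
      · obtain ⟨K, h⟩ := q_ex a
        exact ⟨K, h, h, trivial, by simp [*]⟩
  have c1 := ind (fun k N => N = k * n) (· = n) True (by simp) fun S k p q e a _ z => by
    obtain rfl := e trivial
    obtain ⟨c, c1, -, c2, -⟩ := c0 (k + 1) S p p (by simp) (add_comm 1 k ▸ a) (add_comm 1 k ▸ a)
      (by simp)
    obtain ⟨⟨i, i1, i2⟩, j, j1, j2⟩ := avg c1 S
    simp only [mu_eq, inter_self, inter_eq_right.2 (filter_subset _ _), z] at i2 j2
    obtain ⟨K, h, e⟩ := (q_gm a).mid (cl c2 c1 j1) (cl c2 c1 i1) (t := n)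
      (by push_cast at j2; exact_mod_cast le_of_mul_le_mul_left j2 (by positivity))
      (by push_cast at i2; exact_mod_cast le_of_mul_le_mul_left i2 (by positivity))
    exact ⟨K, h, h, e, sz h.1 z e⟩
  refine ind (fun k N => N = k * n) (· = n) False (by simp) (fun S k p q _ a b z => ?_) k S p q
    (by simp) a b e
  obtain ⟨c, e1, e2, e3, -⟩ := c1 (k + 1) S p p (by simp) (add_comm 1 k ▸ a) (add_comm 1 k ▸ a) z
  obtain ⟨d, d1, d2, d3, -⟩ := c1 (k + 1) S q q (by simp) (add_comm 1 k ▸ b) (add_comm 1 k ▸ b) z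
  have f1 : ∀ j < k + 1, Q p S 1 k (S.filter fun x => c x ∈ ({j} : Finset ℕ)) ∧
      (S.filter fun x => c x ∈ ({j} : Finset ℕ)).card = n := fun j h =>
    ⟨cl e3 e1 h, by simpa using e2 j h⟩
  have f2 : ∀ j < k + 1, Q q S k 1 (S \ S.filter fun x => d x ∈ ({j} : Finset ℕ)) ∧
      (S \ S.filter fun x => d x ∈ ({j} : Finset ℕ)).card = k * n := fun j h =>
    ⟨(cl d3 d1 h).compl, sz (filter_subset _ _) z (by simpa using d2 j h)⟩
  obtain ⟨U, V, ⟨u1, u2⟩, ⟨v1, v2⟩, h⟩ := cover ((q_gm a).slice n)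
    ((q_gm (add_comm 1 k ▸ b)).slice (k * n)) (fun _ h => h.1.1) (fun _ h => h.1.1)
    (f1 0 (by simp)) (f2 0 (by simp)) fun H => by
      obtain ⟨i, i1, i2⟩ := (avg e1 H).1
      obtain ⟨j, j1, j2⟩ := (avg d1 H).2
      refine ⟨_, _, f1 i i1, f2 j j1, ?_⟩
      have := mu_sd (filter_subset (fun x => d x ∈ ({j} : Finset ℕ)) S) H
      have := le_of_mul_le_mul_left (j2.trans i2) (by positivity)
      omega
  obtain rfl : S \ U = V := eq_of_subset_of_card_le (by
    intro x; grind only [mem_sdiff, mem_union, subset_iff]) (by rw [sz u1.1 z u2, v2])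
  exact ⟨U, u1, by simpa [Finset.sdiff_sdiff_eq_self u1.1] using v1.compl, u2, v2⟩

theorem char {p q : Finset ℕ → ℤ} {S : Finset ℕ} {a b m n : ℕ} (g : Good p S (a + b))
    (g' : Good q S (a + b)) (e : S.card = a * m + b * n) :
    (∃ c : ℕ → ℕ, (∀ x ∈ S, c x < a + b) ∧ (∀ j < a + b, (S.filter fun x => c x = j).card =
      if j < a then m else n) ∧ Col p S c ∧ Col q S c) ↔
    ∃ U, Q p S a b U ∧ Q q S a b U ∧ U.card = a * m := by
  refine ⟨fun ⟨c, c1, c2, c3, c4⟩ => ⟨_, c3.q (range a) (by simp) (by simpa) (by simp),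
    c4.q (range a) (by simp) (by simpa) (by simp), ?_⟩, fun ⟨U, u1, u2, u3⟩ => ?_⟩
  · rw [card_eq_sum_card_fiberwise (f := c) (t := range a) fun x h => by simpa using (mem_filter.1 h).2,
      sum_congr rfl (g := fun _ => m) fun j hj => ?_]
    · simp
    rw [mem_range] at hj
    rw [← if_pos (t := m) (e := n) hj, ← c2 j (by omega)]
    congr 1; ext; grind only [mem_filter, mem_range]
  obtain ⟨d, d1, d2, d3, d4⟩ := equi n b _ _ _ (u1.good g) (u2.good g')
    (by rw [card_sdiff_of_subset u1.1]; omega)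
  have gd : ∀ {p}, Good p S (a + b) → Col (fun X => p X - min (a : ℤ) (μ U X)) (S \ U) d →
      Good (fun X => p X - ((X ∩ (S \ U)).image d).card) U a := fun g h => by
    refine ⟨g.1.sub (fun X Y => ?_) fun X Y => ?_, fun X => ?_, fun X => ?_⟩
    · have := card_union_add_card_inter ((X ∩ (S \ U)).image d) ((Y ∩ (S \ U)).image d)
      have := card_le_card (show (X ∩ Y ∩ (S \ U)).image d ⊆ (X ∩ (S \ U)).image d ∩
        (Y ∩ (S \ U)).image d by intro y; grind only [mem_image, mem_inter])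
      rw [union_inter_distrib_right, image_union]
      omega
    · exact Int.ofNat_le.2 (card_le_card (by intro y; grind only [mem_image, mem_inter, mem_sdiff]))
    · have := h X
      simp only [μ, sum_empty] at *
      omega
    · have := h X
      simp only at *
      omega
  obtain ⟨c, c1, c2, c3, c4⟩ := equi m a _ _ _ (gd g d3) (gd g' d4) u3
  have := u1.1
  have key : ∀ p : Finset ℕ → ℤ, Col (fun X => p X - ((X ∩ (S \ U)).image d).card) U c →
      Col p S fun x => if x ∈ U then c x else a + d x := fun p h X => by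
    have h1 := h X
    have := card_le_card (show (X ∩ U).image c ∪ ((X ∩ (S \ U)).image d).image (a + ·) ⊆
      (X ∩ S).image fun x => if x ∈ U then c x else a + d x by
        intro y; grind only [mem_image, mem_inter, mem_sdiff, mem_union, subset_iff])
    rw [card_union_of_disjoint (disjoint_left.2 fun y => by grind only [mem_image, mem_inter]),
      card_image_of_injective _ (add_right_injective a)] at this
    simp only at h1
    omega
  refine ⟨_, fun x hx => ?_, fun j hj => ?_, key p c3, key q c4⟩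
  · have := c1 x
    have := d1 x
    grind only [mem_sdiff]
  split
  · rw [← c2 j ‹_›]
    congr 1; ext; grind only [mem_filter, subset_iff]
  · rw [← d2 (j - a) (by omega)]
    congr 1; ext x
    have := c1 x
    grind only [mem_filter, mem_sdiff]

end Pool.Agent.H23.SC
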