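import Mathlib

set_option autoImplicit false

namespace Pool.Agent.H23.SLP

open Finset Set TensorProduct

universe u

/-- Straight-line programs over a field `F` with initial results `B`: the list of the results of
the steps, the latest first. -/
inductive Prog {F : Type u} [Field F] (B : Set F) : List F → Prop
  | nil : Prog B []
  | add {l : List F} {y z : F} : Prog B l → y ∈ l ∨ y ∈ B → z ∈ l ∨ z ∈ B → Prog B ((y + z) :: l)
  | sub {l : List F} {y z : F} : Prog B l → y ∈ l ∨ y ∈ B → z ∈ l ∨ z ∈ B → Prog B ((y - z) :: l)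
  | mul {l : List F} {y z : F} : Prog B l → y ∈ l ∨ y ∈ B → z ∈ l ∨ z ∈ B → Prog B ((y * z) :: l)
  | div {l : List F} {y z : F} : Prog B l → y ∈ l ∨ y ∈ B → z ∈ l ∨ z ∈ B → z ≠ 0 →
      Prog B ((y / z) :: l)

/-- Abstract cost systems. -/
structure Sys {R : Type u} [CommRing R] (c : ℕ) (St : ℕ → Set R → Set R → Prop) : Prop where
  zero : ∀ B, St 0 ∅ B
  weak : ∀ {k k' T T' B B'}, St k T B → k ≤ k' → T' ⊆ T ∪ B' → B ⊆ B' → St k' T' B'
  trans : ∀ {k m T U B}, St k T B → St m U (B ∪ T) → St (k + m) U B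
  fma : ∀ {B x y z}, x ∈ B → y ∈ B → z ∈ B → St c {x + y * z} B

section
variable {R : Type u} [CommRing R] {c : ℕ} {St : ℕ → Set R → Set R → Prop} (S : Sys c St)
include S

theorem Sys.dot {ι : Type} [Fintype ι] {B : Set R} {x : R} {y z : ι → R} (hx : x ∈ B)
    (hy : ∀ i, y i ∈ B) (hz : ∀ i, z i ∈ B) : St (c * Fintype.card ι) {x + ∑ i, y i * z i} B := by
  classical
  rw [Fintype.card]
  induction (Finset.univ : Finset ι) using Finset.induction_on with
  | empty => exact S.weak (S.zero B) (by simp) (by simpa using hx) le_rfl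
  | insert i s h ih =>
    rw [sum_insert h, card_insert_of_notMem h, add_comm (y i * z i), ← add_assoc]
    exact S.trans ih (S.fma (.inr rfl) (.inl (hy i)) (.inl (hz i)))

theorem Sys.fam {ι : Type} [Fintype ι] {B : Set R} {k : ℕ} {T : ι → Set R}
    (h : ∀ i, St k (T i) B) : St (k * Fintype.card ι) (⋃ i, T i) B := by
  classical
  suffices ∀ s : Finset ι, St (k * s.card) (⋃ i ∈ s, T i) B by simpa using this Finset.univ
  intro s
  induction s using Finset.induction_on with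
  | empty => simpa using S.zero B
  | insert i s g ih =>
    rw [card_insert_of_notMem g]
    exact S.trans ih (S.weak (h i) le_rfl (by
      rw [Finset.set_biUnion_insert]; gcongr; exact subset_union_right) subset_union_left)

theorem Sys.dots {ι κ : Type} [Fintype ι] [Fintype κ] {B : Set R} {x : κ → R} {y z : κ → ι → R}
    (hx : ∀ j, x j ∈ B) (hy : ∀ j i, y j i ∈ B) (hz : ∀ j i, z j i ∈ B) :
    St (c * Fintype.card ι * Fintype.card κ) (range fun j => x j + ∑ i, y j i * z j i) B := by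
  rw [range_eq_iUnion]
  exact S.fam fun j => S.dot (hx j) (hy j) (hz j)

end

/-- A decomposition of the matrix multiplication tensor. -/
def Dec {R : Type u} [CommRing R] {ι ρ : Type} [DecidableEq ι] [Fintype ρ]
    (u v w : ρ → ι × ι → R) : Prop :=
  ∀ s t q, ∑ r, w r q * (u r s * v r t) = if q.1 = s.1 ∧ s.2 = t.1 ∧ t.2 = q.2 then 1 else 0

def MM {R : Type u} [CommRing R] (St : ℕ → Set R → Set R → Prop) (C : Set R) (κ : Type)
    [Fintype κ] (t : ℕ) : Prop :=
  ∀ (X Y : κ → κ → R) (B : Set R), C ⊆ B → (∀ i j, X i j ∈ B) → (∀ i j, Y i j ∈ B) →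
    St t (range fun p : κ × κ => ∑ j, X p.1 j * Y j p.2) B

section
variable {R : Type u} [CommRing R] {c : ℕ} {St : ℕ → Set R → Set R → Prop} (S : Sys c St)
  {C : Set R} (h0 : 0 ∈ C)
include S h0

theorem Sys.naive (κ : Type) [Fintype κ] : MM St C κ (c * Fintype.card κ ^ 3) :=
  fun X Y B h hX hY => by
  have := S.dots (x := fun _ : κ × κ => 0) (y := fun p j => X p.1 j) (z := fun p j => Y j p.2)
    (fun _ => h h0) (fun _ _ => hX _ _) fun _ _ => hY _ _
  simp only [zero_add, Fintype.card_prod] at this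
  convert this using 1
  ring

theorem Sys.emb {κ κ' : Type} [Fintype κ] [Fintype κ'] {t : ℕ}
    (e : Fintype.card κ' ≤ Fintype.card κ) (m : MM St C κ t) : MM St C κ' t :=
  fun X Y B h hX hY => by
  obtain ⟨f⟩ := Function.Embedding.nonempty_of_card_le e
  let ex : (κ' → κ' → R) → κ → κ → R := fun X =>
    Function.extend f (fun a => Function.extend f (X a) 0) 0
  have k : ∀ X : κ' → κ' → R, (∀ i j, X i j ∈ B) → ∀ i j, ex X i j ∈ B := fun X hX i j => by
    by_cases a : ∃ x, f x = i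
    · obtain ⟨i, rfl⟩ := a
      by_cases a : ∃ x, f x = j
      · obtain ⟨j, rfl⟩ := a
        simpa only [ex, f.injective.extend_apply] using hX i j
      · simpa only [ex, f.injective.extend_apply, Function.extend_apply' _ _ _ a, Pi.zero_apply] using h h0
    · simpa only [ex, Function.extend_apply' _ _ _ a, Pi.zero_apply] using h h0
  refine S.weak (m (ex X) (ex Y) B h (k X hX) (k Y hY)) le_rfl ?_ le_rfl
  rintro _ ⟨p, rfl⟩
  refine .inl ⟨(f p.1, f p.2), (Fintype.sum_of_injective f f.injective _ _ (fun i hi => ?_)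
    fun i => ?_).symm⟩
  · simp only [ex, f.injective.extend_apply]
    rw [Function.extend_apply' _ _ _ hi]; simp
  · simp only [ex, f.injective.extend_apply]

theorem Sys.step {ι ρ κ : Type} [Fintype ι] [DecidableEq ι] [Fintype ρ] [Fintype κ]
    {u v w : ρ → ι × ι → R} (d : Dec u v w) (hu : ∀ r s, u r s ∈ C) (hv : ∀ r s, v r s ∈ C)
    (hw : ∀ r s, w r s ∈ C) {t : ℕ} (m : MM St C κ t) : MM St C (ι × κ)
      (Fintype.card ρ * (t + 3 * c * Fintype.card ι ^ 2 * Fintype.card κ ^ 2)) :=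
  fun X Y B h hX hY => by
  let U : ρ × κ × κ → R := fun j => 0 + ∑ s, u j.1 s * X (s.1, j.2.1) (s.2, j.2.2)
  let V : ρ × κ × κ → R := fun j => 0 + ∑ s, v j.1 s * Y (s.1, j.2.1) (s.2, j.2.2)
  let P : ρ → κ × κ → R := fun r p => ∑ j, U (r, p.1, j) * V (r, j, p.2)
  have a1 : St _ (range U) B := S.dots (fun _ => h h0) (fun _ _ => h (hu _ _)) fun _ _ => hX _ _
  have a2 : St _ (range V) (B ∪ range U) := S.dots (fun _ => .inl (h h0))
    (fun _ _ => .inl (h (hv _ _))) fun _ _ => .inl (hY _ _)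
  have a3 : St _ (⋃ r, range (P r)) (B ∪ range U ∪ range V) := S.fam fun r =>
    m (fun i j => U (r, i, j)) (fun i j => V (r, i, j)) _ (fun _ a => .inl (.inl (h a)))
      (fun _ _ => .inl (.inr ⟨_, rfl⟩)) fun _ _ => .inr ⟨_, rfl⟩
  have a4 := S.dots (B := B ∪ range U ∪ range V ∪ ⋃ r, range (P r))
    (x := fun _ : (ι × κ) × ι × κ => 0) (y := fun p r => w r (p.1.1, p.2.1))
    (z := fun p r => P r (p.1.2, p.2.2)) (fun _ => .inl (.inl (.inl (h h0))))
    (fun _ _ => .inl (.inl (.inl (h (hw _ _))))) fun _ r => .inr (mem_iUnion.2 ⟨r, _, rfl⟩)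
  refine S.weak (S.trans a1 (S.trans a2 (S.trans a3 a4))) (le_of_eq ?_) ?_ le_rfl
  · simp only [Fintype.card_prod]; ring
  rintro _ ⟨p, rfl⟩
  refine .inl ⟨p, ?_⟩
  calc
    _ = ∑ j, ∑ s, ∑ t, (∑ r, w r (p.1.1, p.2.1) * (u r s * v r t)) *
        (X (s.1, p.1.2) (s.2, j) * Y (t.1, j) (t.2, p.2.2)) := by
      simp only [P, U, V, zero_add, sum_mul, mul_sum]
      rw [sum_comm]
      refine sum_congr rfl fun j _ => ?_
      rw [sum_comm]
      simp only [sum_comm (s := (Finset.univ : Finset ρ))]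
      rw [sum_comm]
      exact sum_congr rfl fun _ _ => sum_congr rfl fun _ _ => sum_congr rfl fun _ _ => by ring
    _ = _ := by
      simp only [d _ _ _, Fintype.sum_prod_type, ite_and, ite_mul, one_mul, zero_mul,
        sum_ite_eq, sum_ite_eq', Finset.mem_univ, if_true, sum_ite_irrel, sum_const_zero]
      exact sum_comm

theorem Sys.all {ι ρ : Type} [Fintype ι] [DecidableEq ι] [Fintype ρ]
    {u v w : ρ → ι × ι → R} (d : Dec u v w) (hu : ∀ r s, u r s ∈ C) (hv : ∀ r s, v r s ∈ C)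
    (hw : ∀ r s, w r s ∈ C) (e : Fintype.card ι ^ 2 ≤ Fintype.card ρ) (j : ℕ) :
    ∀ (κ : Type) [Fintype κ], Fintype.card κ ≤ Fintype.card ι ^ j →
      MM St C κ ((3 * c * Fintype.card ι ^ 2 + c) * (j + 1) * Fintype.card ρ ^ j) := by
  induction j with
  | zero =>
    intro κ _ h X Y B a b g
    exact S.weak (S.emb h0 (κ := Unit) h (S.naive h0 Unit) X Y B a b g) (by simp)
      subset_union_left le_rfl
  | succ j ih =>
    intro κ _ h X Y B a b g
    refine S.weak (S.emb h0 (by simpa [pow_succ'] using h) (S.step h0 d hu hv hw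
      (ih (Fin (Fintype.card ι ^ j)) (by simp))) X Y B a b g) ?_ subset_union_left le_rfl
    have : (Fintype.card ι ^ j) ^ 2 ≤ Fintype.card ρ ^ j := by
      rw [← pow_mul, mul_comm, pow_mul]; gcongr
    rw [Fintype.card_fin, pow_succ' _ j, mul_left_comm]
    gcongr
    grw [this]
    nlinarith [Nat.zero_le (c * Fintype.card ρ ^ j)]

end

/-- The cost system of straight-line programs. -/
def St {F : Type u} [Field F] (B₀ : Set F) (k : ℕ) (T B : Set F) : Prop :=
  ∀ l, Prog B₀ l → (∀ y ∈ B, y ∈ l ∨ y ∈ B₀) → ∃ l', Prog B₀ l' ∧ l'.length ≤ l.length + k ∧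
    (∀ y ∈ l, y ∈ l') ∧ ∀ y ∈ T, y ∈ l' ∨ y ∈ B₀

theorem sys_st {F : Type u} [Field F] (B₀ : Set F) : Sys 2 (St B₀) where
  zero _ l h _ := ⟨l, h, le_rfl, fun _ => id, by simp⟩
  weak h e a b l p q := (h l p fun y i => q y (b i)).imp fun _ ⟨i, j, k, m⟩ =>
    ⟨i, by omega, k, fun y n => (a n).elim (m y) fun n => (q y n).imp_left (k y)⟩
  trans h g l p q := by
    obtain ⟨l', i, j, k, m⟩ := h l p q
    obtain ⟨l'', i', j', k', m'⟩ := g l' i fun y n => n.elim (fun n => (q y n).imp_left (k y)) (m y)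
    exact ⟨l'', i', by omega, fun y n => k' y (k y n), m'⟩
  fma a b c l p q := ⟨_, (p.mul (q _ b) (q _ c)).add ((q _ a).imp_left (List.mem_cons_of_mem _))
    (.inl List.mem_cons_self), le_rfl, fun y n => by simp [n], by simp⟩

theorem Sys.lift {F A : Type u} [CommRing F] [CommRing A] [Algebra F A] {c : ℕ}
    {St : ℕ → Set F → Set F → Prop} (S : Sys c St) {ι : Type} [Fintype ι] (e : Module.Basis ι F A)
    {C : Set F} (h0 : 0 ∈ C) (hC : ∀ i j k, e.repr (e i * e j) k ∈ C) :
    Sys (2 * c * Fintype.card ι ^ 3) fun k T B =>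
      St k {y | ∃ x ∈ T, ∃ i, e.repr x i = y} ({y | ∃ x ∈ B, ∃ i, e.repr x i = y} ∪ C) where
  zero B := by simpa using S.zero _
  weak h a b g := S.weak h a (fun _ ⟨x, i, j⟩ => (b i).imp (fun i => ⟨x, i, j⟩)
    fun i => .inl ⟨x, i, j⟩) (union_subset_union_left _ fun _ ⟨x, i, j⟩ => ⟨x, g i, j⟩)
  trans h g := S.trans h (S.weak g le_rfl subset_union_left (by
    rintro _ (⟨x, i | i, j⟩ | i)
    exacts [.inl (.inl ⟨x, i, j⟩), .inr ⟨x, i, j⟩, .inl (.inr i)]))
  fma {B x y z} hx hy hz := by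
    have a1 := S.dots (B := {y | ∃ x ∈ B, ∃ i, e.repr x i = y} ∪ C) (ι := Unit)
      (x := fun _ : ι × ι × ι => 0) (y := fun p _ => e.repr z p.2.1)
      (z := fun p _ => e.repr (e p.1 * e p.2.1) p.2.2) (fun _ => .inr h0)
      (fun _ _ => .inl ⟨_, hz, _, rfl⟩) fun _ _ => .inr (hC _ _ _)
    simp only [zero_add, Finset.univ_unique, sum_singleton] at a1
    refine S.weak (S.trans a1 (S.dots (x := e.repr x) (y := fun _ (p : ι × ι) => e.repr y p.1)
      (z := fun k p => e.repr z p.2 * e.repr (e p.1 * e p.2) k) (fun _ => .inl (.inl ⟨_, hx, _, rfl⟩))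
      (fun _ _ => .inl (.inl ⟨_, hy, _, rfl⟩)) fun k p => .inr ⟨(p.1, p.2, k), rfl⟩))
      (le_of_eq ?_) ?_ le_rfl
    · simp only [Fintype.card_prod, Fintype.card_unit]; ring
    rintro _ ⟨_, rfl, k, rfl⟩
    refine .inl ⟨k, ?_⟩
    conv_rhs => rw [← e.sum_repr y, ← e.sum_repr z]
    simp only [sum_mul_sum, Fintype.sum_prod_type, map_add, map_sum, smul_mul_smul_comm, map_smul,
      Finsupp.coe_add, Pi.add_apply, Finsupp.coe_finsetSum, Finset.sum_apply, Finsupp.coe_smul,
      Pi.smul_apply, smul_eq_mul, mul_assoc]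

end Pool.Agent.H23.SLP
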