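import Pool.Agent.H11.Base1
import Pool.Agent.H11.GDefs

set_option autoImplicit false

namespace Pool.Agent.H23.SS
open Finset Pool.Agent.H11.PT

def SS (p : List (List Bool) × List Bool) : Prop :=
  ∃ σ : ℕ → Bool, (∑ j ∈ range p.1.length, if σ j then bin (p.1.getD j []) else 0) = bin p.2

def SV (p : List (List Bool) × List Bool) : Prop :=
  2 ≤ p.1.length ∧ (∀ j < p.1.length, 0 < bin (p.1.getD j []) ∧ bin (p.1.getD j []) < bin p.2) ∧
    bin p.2 < ∑ j ∈ range p.1.length, bin (p.1.getD j [])

def num (K : ℕ) (p : ℕ → Bool) : List Bool := (List.range K).flatMap fun t => [p t, false]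

theorem bin_num (K : ℕ) (p : ℕ → Bool) :
    bin (num K p) = ∑ t ∈ range K, (if p t then 1 else 0) * 4 ^ t := by
  have l : ∀ K, (num K p).length = 2 * K := fun K => by simp [num, mul_comm]
  induction K with
  | zero => simp [num, bin]
  | succ K ih =>
    have : num (K + 1) p = num K p ++ [p K, false] := by simp [num, List.range_succ]
    rw [this, sum_range_succ, ← ih, bin, List.map_append, Nat.ofDigits_append, List.length_map, l,
      pow_mul]
    cases p K <;> simp [bin, Nat.ofDigits]

theorem digits (K : ℕ) (c : ℕ → ℕ) (h : ∀ t < K, c t ≤ 3)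
    (e : ∑ t ∈ range K, c t * 4 ^ t = ∑ t ∈ range K, 1 * 4 ^ t) : ∀ t < K, c t = 1 := by
  induction K generalizing c with
  | zero => simp
  | succ K ih =>
    simp only [sum_range_succ', pow_succ, ← mul_assoc, ← sum_mul] at e
    have := h 0 (by omega)
    rintro (_ | t) ht
    · omega
    · exact ih (fun t => c (t + 1)) (fun t ht => h _ (by omega)) (by omega) t (by omega)

abbrev F := List (ℕ × ℕ × ℕ)

def nv (φ : F) : ℕ := (φ.map fun c => c.1 + c.2.1 + c.2.2).sum + 2

def mem (φ : F) (j t : ℕ) : Prop :=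
  (t < φ.length ∧ (j = (φ.getD t (0, 0, 0)).1 ∨ j = (φ.getD t (0, 0, 0)).2.1 ∨
    j = (φ.getD t (0, 0, 0)).2.2)) ∨ t = φ.length + j ∨ (nv φ ≤ j ∧ t + nv φ = φ.length + j)

instance (φ : F) (j t : ℕ) : Decidable (mem φ j t) := by unfold mem; infer_instance

def red (φ : F) : List (List Bool) × List Bool :=
  ((List.range (2 * nv φ)).map fun j => num (φ.length + nv φ) fun t => decide (mem φ j t),
    num (φ.length + nv φ) fun _ => true)

theorem hard_SS : HardFor InNP SV SS := by
  refine hard_ONE3.red red (by unfold red num mem nv; fun_prop) fun φ hd => ?_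
  have n2 : 2 ≤ nv φ := by simp [nv]
  have hl : (red φ).1.length = 2 * nv φ := by simp [red]
  have hb : ∀ j < 2 * nv φ, bin ((red φ).1.getD j []) =
      ∑ t ∈ range (φ.length + nv φ), (if mem φ j t then 1 else 0) * 4 ^ t := fun j h => by
    simp [red, List.getD_eq_getElem?_getD, h, bin_num]
  have ha : bin (red φ).2 = ∑ t ∈ range (φ.length + nv φ), 1 * 4 ^ t := by simp [red, bin_num]
  have hs : ∀ σ : ℕ → Bool, (∑ j ∈ range (2 * nv φ), if σ j then bin ((red φ).1.getD j []) else 0) =
      ∑ t ∈ range (φ.length + nv φ),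
        (∑ j ∈ range (2 * nv φ), if mem φ j t then (σ j).toNat else 0) * 4 ^ t := fun σ => by
    simp only [sum_mul]
    rw [sum_comm]
    refine sum_congr rfl fun j h => ?_
    rw [hb j (mem_range.1 h)]
    cases σ j <;> simp
  have one : ∀ (σ : ℕ → Bool) i, i < 2 * nv φ →
      ∑ j ∈ range (2 * nv φ), (if j = i then (σ j).toNat else 0) = (σ i).toNat := fun σ i h => by
    simp [h]
  have c1 : ∀ (σ : ℕ → Bool) t (h : t < φ.length), φ[t].1 + φ[t].2.1 + φ[t].2.2 < nv φ ∧
      (∑ j ∈ range (2 * nv φ), if mem φ j t then (σ j).toNat else 0) =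
      (σ φ[t].1).toNat + (σ φ[t].2.1).toNat + (σ φ[t].2.2).toNat := fun σ t h => by
    have a : φ[t].1 + φ[t].2.1 + φ[t].2.2 < nv φ := Nat.lt_succ_of_le (Nat.le_succ_of_le
      (List.single_le_sum (by simp) _ (List.mem_map.2 ⟨_, List.getElem_mem h, rfl⟩)))
    have := hd _ (List.getElem_mem h)
    refine ⟨a, ?_⟩
    rw [← one σ _ (show φ[t].1 < _ by omega), ← one σ _ (show φ[t].2.1 < _ by omega),
      ← one σ _ (show φ[t].2.2 < _ by omega), ← sum_add_distrib, ← sum_add_distrib]
    refine sum_congr rfl fun j _ => ?_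
    simp only [mem, List.getD_eq_getElem _ _ h]
    split_ifs <;> omega
  have c2 : ∀ (σ : ℕ → Bool) v, v < nv φ →
      (∑ j ∈ range (2 * nv φ), if mem φ j (φ.length + v) then (σ j).toNat else 0) =
      (σ v).toNat + (σ (nv φ + v)).toNat := fun σ v h => by
    rw [← one σ v (by omega), ← one σ (nv φ + v) (by omega), ← sum_add_distrib]
    refine sum_congr rfl fun j _ => ?_
    simp only [mem]
    split_ifs <;> omega
  refine ⟨⟨by omega, fun j h => ?_, ?_⟩, fun ⟨σ, h⟩ => ?_, fun ⟨σ, h⟩ => ?_⟩
  · rw [hl] at h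
    rw [hb j h, ha]
    refine ⟨sum_pos' (fun _ _ => Nat.zero_le _) ⟨φ.length + if j < nv φ then j else j - nv φ,
      mem_range.2 (by split <;> omega), ?_⟩, sum_lt_sum (fun t _ => by split <;> simp)
      ⟨φ.length + if j = 0 ∨ j = nv φ then 1 else 0, mem_range.2 (by split <;> omega), ?_⟩⟩
    · rw [if_pos (by unfold mem; split <;> omega)]; positivity
    · rw [if_neg (by unfold mem; split <;> omega)]; simp
  · have := hs fun _ => true
    simp only [if_true] at this
    rw [hl, this, ha]
    refine sum_lt_sum_of_nonempty ⟨0, by simp; omega⟩ fun t ht => Nat.mul_lt_mul_of_pos_right ?_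
      (by positivity)
    by_cases c : t < φ.length
    · rw [(c1 (fun _ => true) t c).2]; decide
    · obtain ⟨v, rfl⟩ := Nat.exists_eq_add_of_le (not_lt.1 c)
      rw [c2 (fun _ => true) v (by simpa using ht)]; decide
  · refine ⟨fun j => if j < nv φ then σ j else !σ (j - nv φ), ?_⟩
    rw [hl, hs, ha]
    refine sum_congr rfl fun t ht => congrArg (· * 4 ^ t) ?_
    by_cases c : t < φ.length
    · obtain ⟨a, b⟩ := c1 (fun j => if j < nv φ then σ j else !σ (j - nv φ)) t c
      rw [b, if_pos (by omega), if_pos (by omega), if_pos (by omega)]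
      exact h _ (List.getElem_mem c)
    · obtain ⟨v, rfl⟩ := Nat.exists_eq_add_of_le (not_lt.1 c)
      have : v < nv φ := by simpa using ht
      rw [c2 _ v this, if_pos this, if_neg (by omega), Nat.add_sub_cancel_left]
      cases σ v <;> rfl
  · rw [hl, hs, ha] at h
    refine ⟨σ, fun c hc => ?_⟩
    obtain ⟨t, ht, rfl⟩ := List.getElem_of_mem hc
    rw [← (c1 σ t ht).2]
    refine digits _ _ (fun t ht => ?_) h t (by omega)
    have := fun j => Bool.toNat_le (σ j)
    by_cases c : t < φ.length
    · rw [(c1 σ t c).2]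
      exact add_le_add (add_le_add (this _) (this _)) (this _)
    · obtain ⟨v, rfl⟩ := Nat.exists_eq_add_of_le (not_lt.1 c)
      rw [c2 σ v (by omega)]
      exact (add_le_add (this _) (this _)).trans (by omega)

end Pool.Agent.H23.SS
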