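import Mathlib

set_option autoImplicit false

open Topology Filter

namespace Pool.Agent.H23.SubB

/-- group topology from a base of subgroups -/
theorem sb {G : Type} [Group G] {ι : Type} [Nonempty ι] (V : ι → Subgroup G)
    (hd : ∀ i j, ∃ k, V k ≤ V i ∧ V k ≤ V j)
    (hc : ∀ g i, ∃ j, ∀ x ∈ V j, g * x * g⁻¹ ∈ V i) :
    ∃ t : TopologicalSpace G, @IsTopologicalGroup G t _ ∧
      ∀ U, U ∈ @nhds G t 1 ↔ ∃ i, (V i : Set G) ⊆ U := by
  let B : GroupFilterBasis G :=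
    { sets := Set.range fun i => (V i : Set G)
      nonempty := Set.range_nonempty _
      inter_sets := by
        rintro _ _ ⟨i, rfl⟩ ⟨j, rfl⟩
        obtain ⟨k, h1, h2⟩ := hd i j
        exact ⟨_, ⟨k, rfl⟩, Set.subset_inter h1 h2⟩
      one' := by rintro _ ⟨i, rfl⟩; exact (V i).one_mem
      mul' := by
        rintro _ ⟨i, rfl⟩
        refine ⟨_, ⟨i, rfl⟩, ?_⟩
        rintro _ ⟨a, ha, b, hb, rfl⟩
        exact (V i).mul_mem ha hb
      inv' := by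
        rintro _ ⟨i, rfl⟩
        exact ⟨_, ⟨i, rfl⟩, fun a ha => (V i).inv_mem ha⟩
      conj' := by
        rintro g _ ⟨i, rfl⟩
        obtain ⟨j, hj⟩ := hc g i
        exact ⟨_, ⟨j, rfl⟩, hj⟩ }
  refine ⟨B.topology, B.isTopologicalGroup, fun U => ?_⟩
  rw [B.nhds_one_hasBasis.mem_iff]
  constructor
  · rintro ⟨_, ⟨i, rfl⟩, h⟩; exact ⟨i, h⟩
  · rintro ⟨i, h⟩; exact ⟨_, ⟨i, rfl⟩, h⟩

end Pool.Agent.H23.SubB
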