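import Mathlib

set_option autoImplicit false

open Set

namespace Pool.Agent.H23.Tow

structure Val (v : ℚ → ℚ → ℚ) : Prop where
  min : ∀ x y z, x < y → y < z → v x z = min (v x y) (v y z)
  up : ∀ a m, ∃ y, a < y ∧ v a y = m
  dn : ∀ a m, ∃ y, y < a ∧ v y a = m
  mid : ∀ p q, p < q → ∃ y, p < y ∧ y < q ∧ v p y = v p q ∧ v y q = v p q

def T (i : ℚ) (a b : Lex (ℚ →₀ ℚ)) : Prop :=
  (∀ j < i, ofLex a j = ofLex b j) ∧ ofLex a i < ofLex b i

theorem T.uniq {i j : ℚ} {a b : Lex (ℚ →₀ ℚ)} (h : T i a b) (k : T j a b) : i = j := by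
  rcases lt_trichotomy i j with c | c | c
  · exact absurd (k.1 i c) h.2.ne
  · exact c
  · exact absurd (h.1 j c) k.2.ne

theorem T.trans {i j : ℚ} {a b c : Lex (ℚ →₀ ℚ)} (h : T i a b) (k : T j b c) : T (min i j) a c := by
  refine ⟨fun l hl => (h.1 l (lt_min_iff.1 hl).1).trans (k.1 l (lt_min_iff.1 hl).2), ?_⟩
  rcases lt_trichotomy i j with d | rfl | d
  · rw [min_eq_left d.le, ← k.1 i d]; exact h.2
  · rw [min_self]; exact h.2.trans k.2
  · rw [min_eq_right d.le, h.1 j d]; exact k.2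

theorem exists_val : ∃ v, Val v := by
  classical
  have lt : ∀ a b : Lex (ℚ →₀ ℚ), a < b ↔ ∃ i, T i a b := fun a b => Finsupp.Lex.lt_iff
  have up : ∀ (a : Lex (ℚ →₀ ℚ)) m, ∃ y, T m a y := fun a m =>
    ⟨toLex ((ofLex a).update m (ofLex a m + 1)), fun j hj => by simp [hj.ne], by simp⟩
  have dn : ∀ (a : Lex (ℚ →₀ ℚ)) m, ∃ y, T m y a := fun a m =>
    ⟨toLex ((ofLex a).update m (ofLex a m - 1)), fun j hj => by simp [hj.ne], by simp⟩
  have mid : ∀ (a b : Lex (ℚ →₀ ℚ)) m, T m a b → ∃ y, T m a y ∧ T m y b := fun a b m h =>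
    ⟨toLex ((ofLex a).update m ((ofLex a m + ofLex b m) / 2)),
      ⟨fun j hj => by simp [hj.ne], by have := h.2; simp; linarith⟩,
      fun j hj => by simp [hj.ne, h.1 j hj], by have := h.2; simp; linarith⟩
  have : DenselyOrdered (Lex (ℚ →₀ ℚ)) := ⟨fun a b h => by
    obtain ⟨i, hi⟩ := (lt a b).1 h
    obtain ⟨y, c, d⟩ := mid a b i hi
    exact ⟨y, (lt _ _).2 ⟨i, c⟩, (lt _ _).2 ⟨i, d⟩⟩⟩
  have : NoMinOrder (Lex (ℚ →₀ ℚ)) := ⟨fun a => (dn a 0).imp fun y h => (lt _ _).2 ⟨0, h⟩⟩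
  have : NoMaxOrder (Lex (ℚ →₀ ℚ)) := ⟨fun a => (up a 0).imp fun y h => (lt _ _).2 ⟨0, h⟩⟩
  have : Countable (Lex (ℚ →₀ ℚ)) := inferInstanceAs (Countable (ℚ →₀ ℚ))
  obtain ⟨e⟩ := Order.iso_of_countable_dense ℚ (Lex (ℚ →₀ ℚ))
  set v : ℚ → ℚ → ℚ := fun x y => Classical.epsilon fun i => T i (e x) (e y)
  have h1 : ∀ x y, x < y → T (v x y) (e x) (e y) := fun x y h =>
    Classical.epsilon_spec ((lt _ _).1 (e.strictMono h))
  have h2 : ∀ x y i, T i (e x) (e y) → x < y ∧ v x y = i := fun x y i h => by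
    have := e.lt_iff_lt.1 ((lt _ _).2 ⟨i, h⟩)
    exact ⟨this, (h1 x y this).uniq h⟩
  refine ⟨v, fun x y z a b => (h2 _ _ _ ((h1 x y a).trans (h1 y z b))).2, fun a m => ?_,
    fun a m => ?_, fun p q h => ?_⟩
  · obtain ⟨y, hy⟩ := up (e a) m
    exact ⟨e.symm y, h2 _ _ _ (by simpa using hy)⟩
  · obtain ⟨y, hy⟩ := dn (e a) m
    exact ⟨e.symm y, h2 _ _ _ (by simpa using hy)⟩
  · obtain ⟨y, a, b⟩ := mid _ _ _ (h1 p q h)
    have c := h2 p (e.symm y) _ (by simpa using a)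
    have d := h2 (e.symm y) q _ (by simpa using b)
    exact ⟨_, c.1, d.1, c.2, d.2⟩

noncomputable def v : ℚ → ℚ → ℚ := exists_val.choose
theorem hv : Val v := exists_val.choose_spec

def OI (R : Set (ℚ × ℚ)) : Prop := ∀ p ∈ R, ∀ q ∈ R, p.1 < q.1 ↔ p.2 < q.2

def D (R : Set (ℚ × ℚ)) : Set (ℚ × ℚ) :=
  {r | ∃ p ∈ R, ∃ q ∈ R, p.1 < q.1 ∧ r = (v p.1 q.1, v p.2 q.2)}

def Good (R : Set (ℚ × ℚ)) : Prop :=
  ∃ F : ℕ → Set (ℚ × ℚ), R ⊆ F 0 ∧ ∀ k, OI (F k) ∧ D (F k) ⊆ F (k + 1)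

variable {R S : Set (ℚ × ℚ)}

theorem OI.mono (h : OI S) (a : R ⊆ S) : OI R := fun p hp q hq => h p (a hp) q (a hq)

theorem OI.le (h : OI R) {p q : ℚ × ℚ} (hp : p ∈ R) (hq : q ∈ R) : p.1 ≤ q.1 ↔ p.2 ≤ q.2 := by
  rw [← not_lt, ← not_lt, h q hq p hp]

theorem OI.eq (h : OI R) {p q : ℚ × ℚ} (hp : p ∈ R) (hq : q ∈ R) : p.1 = q.1 ↔ p.2 = q.2 := by
  rw [le_antisymm_iff, le_antisymm_iff, h.le hp hq, h.le hq hp]

theorem D_mono (a : R ⊆ S) : D R ⊆ D S := fun _ ⟨p, hp, q, hq, h⟩ => ⟨p, a hp, q, a hq, h⟩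

theorem Good.mono (h : Good S) (a : R ⊆ S) : Good R := h.imp fun _ h => ⟨a.trans h.1, h.2⟩
theorem Good.oi (h : Good R) : OI R := let ⟨_, a, b⟩ := h; (b 0).1.mono a
theorem Good.d (h : Good R) : Good (D R) :=
  let ⟨F, a, b⟩ := h; ⟨fun k => F (k + 1), (D_mono a).trans (b 0).2, fun k => b (k + 1)⟩
theorem Good.of (a : OI R) (b : Good S) (c : D R ⊆ S) : Good R := by
  obtain ⟨F, d, e⟩ := b
  refine ⟨fun k => Nat.casesOn k R F, subset_rfl, fun k => ?_⟩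
  cases k with
  | zero => exact ⟨a, c.trans d⟩
  | succ k => exact e k

theorem OI.symm (h : OI R) : OI (Prod.swap '' R) := by
  rintro _ ⟨p, hp, rfl⟩ _ ⟨q, hq, rfl⟩; exact (h p hp q hq).symm

theorem D_symm (h : OI R) : D (Prod.swap '' R) = Prod.swap '' D R := by
  ext r
  constructor
  · rintro ⟨_, ⟨p, hp, rfl⟩, _, ⟨q, hq, rfl⟩, a, rfl⟩
    exact ⟨_, ⟨p, hp, q, hq, (h p hp q hq).2 a, rfl⟩, rfl⟩
  · rintro ⟨_, ⟨p, hp, q, hq, a, rfl⟩, rfl⟩
    exact ⟨_, mem_image_of_mem _ hp, _, mem_image_of_mem _ hq, (h p hp q hq).1 a, rfl⟩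

theorem Good.symm (h : Good R) : Good (Prod.swap '' R) :=
  let ⟨F, a, b⟩ := h
  ⟨fun k => Prod.swap '' F k, image_mono a, fun k =>
    ⟨(b k).1.symm, (D_symm (b k).1).subset.trans (image_mono (b k).2)⟩⟩

def cmp (R S : Set (ℚ × ℚ)) : Set (ℚ × ℚ) := {r | ∃ b, (r.1, b) ∈ R ∧ (b, r.2) ∈ S}

theorem Good.comp (h : Good R) (k : Good S) : Good (cmp R S) := by
  obtain ⟨F, a, b⟩ := h
  obtain ⟨G, c, d⟩ := k
  refine ⟨fun k => cmp (F k) (G k), fun r ⟨x, e, f⟩ => ⟨x, a e, c f⟩, fun k => ⟨?_, ?_⟩⟩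
  · rintro p ⟨x, e, f⟩ q ⟨y, g, h⟩
    exact ((b k).1 _ e _ g).trans ((d k).1 _ f _ h)
  · rintro _ ⟨p, ⟨x, e, f⟩, q, ⟨y, g, h⟩, l, rfl⟩
    exact ⟨v x y, (b k).2 ⟨_, e, _, g, l, rfl⟩, (d k).2 ⟨_, f, _, h, ((b k).1 _ e _ g).1 l, rfl⟩⟩

theorem good_diag : Good (diagonal ℚ) :=
  ⟨fun _ => diagonal ℚ, subset_rfl, fun _ => ⟨fun p hp q hq => by rw [hp, hq], by
    rintro _ ⟨p, hp, q, hq, -, rfl⟩
    rw [mem_diagonal_iff] at *
    rw [hp, hq]⟩⟩

theorem good_lt {p q : ℚ × ℚ} (a : p.1 < q.1) (b : p.2 < q.2) : Good {p, q} := by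
  have e : Good ∅ := good_diag.mono (empty_subset _)
  have s : ∀ r, Good {r} := fun r => Good.of (by rintro _ rfl _ rfl; simp) e (by
    rintro _ ⟨_, rfl, _, rfl, h, -⟩; exact absurd h (lt_irrefl _))
  refine Good.of ?_ (s (v p.1 q.1, v p.2 q.2)) ?_
  · rintro _ (rfl | rfl) _ (rfl | rfl) <;> simp [a, b, a.not_gt, b.not_gt]
  · rintro _ ⟨_, rfl | rfl, _, rfl | rfl, h, rfl⟩
    · exact absurd h (lt_irrefl _)
    · rfl
    · exact absurd h a.not_gt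
    · exact absurd h (lt_irrefl _)

def DA (A : Set ℚ) : Set ℚ := {r | ∃ x ∈ A, ∃ y ∈ A, x < y ∧ r = v x y}

theorem DA_fin {A : Set ℚ} (h : A.Finite) : (DA A).Finite :=
  ((h.prod h).image fun p => v p.1 p.2).subset fun _ ⟨x, a, y, b, _, e⟩ => ⟨(x, y), ⟨a, b⟩, e.symm⟩

theorem DA_card (A : Finset ℚ) : A.Nonempty → (DA A).ncard < A.card := by
  induction A using Finset.induction_on_max with
  | empty => simp
  | insert z s hz ih =>
    intro _
    rw [Finset.card_insert_of_notMem fun h => lt_irrefl _ (hz z h)]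
    rcases s.eq_empty_or_nonempty with rfl | hs
    · have : DA ↑(insert z (∅ : Finset ℚ)) = ∅ := by
        ext r; simp only [DA]; simp
      rw [this]; simp
    · have : DA ↑(insert z s) ⊆ insert (v (s.max' hs) z) (DA s) := by
        rintro _ ⟨x, a, y, b, c, rfl⟩
        simp only [Finset.coe_insert, mem_insert_iff, Finset.mem_coe] at a b
        rcases a with rfl | a
        · rcases b with rfl | b
          · exact absurd c (lt_irrefl _)
          · exact absurd (hz y b) c.not_gt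
        rcases b with rfl | b
        · rcases (s.le_max' x a).eq_or_lt with e | e
          · exact Or.inl (by rw [← e])
          · rw [hv.min x _ y e (hz _ (s.max'_mem hs))]
            rcases min_choice (v x (s.max' hs)) (v (s.max' hs) y) with f | f <;> rw [f]
            · exact Or.inr ⟨x, a, _, s.max'_mem hs, e, rfl⟩
            · exact Or.inl rfl
        · exact Or.inr ⟨x, a, y, b, c, rfl⟩
      have a := ncard_le_ncard this ((DA_fin s.finite_toSet).insert _)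
      have b := ncard_insert_le (v (s.max' hs) z) (DA s)
      have c := ih hs
      omega

theorem DA_lt {A : Set ℚ} (h : A.Finite) (hne : A.Nonempty) : (DA A).ncard < A.ncard := by
  have := DA_card h.toFinset (by simpa using hne)
  rwa [Finite.coe_toFinset, ← ncard_eq_toFinset_card _ h] at this

theorem fst_D : Prod.fst '' D R = DA (Prod.fst '' R) := by
  ext r
  constructor
  · rintro ⟨_, ⟨p, hp, q, hq, a, rfl⟩, rfl⟩
    exact ⟨_, mem_image_of_mem _ hp, _, mem_image_of_mem _ hq, a, rfl⟩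
  · rintro ⟨_, ⟨p, hp, rfl⟩, _, ⟨q, hq, rfl⟩, a, rfl⟩
    exact ⟨_, ⟨p, hp, q, hq, a, rfl⟩, rfl⟩

theorem D_fin (h : R.Finite) : (D R).Finite :=
  ((h.prod h).image fun p => (v p.1.1 p.2.1, v p.1.2 p.2.2)).subset
    fun _ ⟨x, a, y, b, _, e⟩ => ⟨(x, y), ⟨a, b⟩, e.symm⟩

def Lo (R : Set (ℚ × ℚ)) (x : ℚ) (p : ℚ × ℚ) : Prop :=
  p ∈ R ∧ p.1 < x ∧ ∀ r ∈ R, r.1 < x → r.1 ≤ p.1
def Hi (R : Set (ℚ × ℚ)) (x : ℚ) (p : ℚ × ℚ) : Prop :=
  p ∈ R ∧ x < p.1 ∧ ∀ r ∈ R, x < r.1 → p.1 ≤ r.1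

theorem exLo (h : R.Finite) {x : ℚ} {r : ℚ × ℚ} (a : r ∈ R) (b : r.1 < x) : ∃ p, Lo R x p := by
  obtain ⟨p, c, d⟩ := exists_max_image {r ∈ R | r.1 < x} Prod.fst (h.subset (sep_subset _ _))
    ⟨r, a, b⟩
  exact ⟨p, c.1, c.2, fun r a b => d r ⟨a, b⟩⟩

theorem exHi (h : R.Finite) {x : ℚ} {r : ℚ × ℚ} (a : r ∈ R) (b : x < r.1) : ∃ p, Hi R x p := by
  obtain ⟨p, c, d⟩ := exists_min_image {r ∈ R | x < r.1} Prod.fst (h.subset (sep_subset _ _))
    ⟨r, a, b⟩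
  exact ⟨p, c.1, c.2, fun r a b => d r ⟨a, b⟩⟩

theorem Lo.uniq (h : OI R) {x : ℚ} {p q : ℚ × ℚ} (a : Lo R x p) (b : Lo R x q) : p = q := by
  have := le_antisymm (b.2.2 p a.1 a.2.1) (a.2.2 q b.1 b.2.1)
  exact Prod.ext this ((h.eq a.1 b.1).1 this)

theorem Hi.uniq (h : OI R) {x : ℚ} {p q : ℚ × ℚ} (a : Hi R x p) (b : Hi R x q) : p = q := by
  have := le_antisymm (a.2.2 q b.1 b.2.1) (b.2.2 p a.1 a.2.1)
  exact Prod.ext this ((h.eq a.1 b.1).1 this)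

theorem OI.min (h : OI S) {p q : ℚ × ℚ} (a : p ∈ S) (b : q ∈ S) : (min p.1 q.1, min p.2 q.2) ∈ S := by
  rcases le_total p.1 q.1 with c | c
  · rwa [min_eq_left c, min_eq_left ((h.le a b).1 c)]
  · rwa [min_eq_right c, min_eq_right ((h.le b a).1 c)]

theorem fold (f : R.Finite) (o : OI R) (g : Good S) (s : D R ⊆ S) {x y : ℚ}
    (hx : ∀ r ∈ R, r.1 ≠ x) (lo : ∀ p, Lo R x p → p.2 < y ∧ (v p.1 x, v p.2 y) ∈ S)
    (hi : ∀ p, Hi R x p → y < p.2 ∧ (v x p.1, v y p.2) ∈ S) : Good (insert (x, y) R) := by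
  have l : ∀ r ∈ R, r.1 < x → r.2 < y ∧ (v r.1 x, v r.2 y) ∈ S := fun r a b => by
    obtain ⟨p, hp⟩ := exLo f a b
    rcases (hp.2.2 r a b).eq_or_lt with e | e
    · rw [Prod.ext e ((o.eq a hp.1).1 e)]; exact lo p hp
    · have e' := (o r a p hp.1).1 e
      rw [hv.min _ _ _ e hp.2.1, hv.min _ _ _ e' (lo p hp).1]
      exact ⟨e'.trans (lo p hp).1, g.oi.min (s ⟨r, a, p, hp.1, e, rfl⟩) (lo p hp).2⟩
  have u : ∀ r ∈ R, x < r.1 → y < r.2 ∧ (v x r.1, v y r.2) ∈ S := fun r a b => by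
    obtain ⟨p, hp⟩ := exHi f a b
    rcases (hp.2.2 r a b).eq_or_lt with e | e
    · rw [← Prod.ext e ((o.eq hp.1 a).1 e)]; exact hi p hp
    · have e' := (o p hp.1 r a).1 e
      rw [hv.min _ _ _ hp.2.1 e, hv.min _ _ _ (hi p hp).1 e']
      exact ⟨(hi p hp).1.trans e', g.oi.min (hi p hp).2 (s ⟨p, hp.1, r, a, e, rfl⟩)⟩
  refine Good.of ?_ g ?_
  · rintro p (rfl | a) q (rfl | b)
    · simp
    · exact ⟨fun c => (u q b c).1, fun c => (hx q b).lt_or_gt.resolve_left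
        fun d => (l q b d).1.not_gt c⟩
    · exact ⟨fun c => (l p a c).1, fun c => (hx p a).lt_or_gt.resolve_right
        fun d => (u p a d).1.not_gt c⟩
    · exact o p a q b
  · rintro _ ⟨p, rfl | a, q, rfl | b, c, rfl⟩
    · exact absurd c (lt_irrefl _)
    · exact (u q b c).2
    · exact (l p a c).2
    · exact s ⟨p, a, q, b, c, rfl⟩

theorem ext : ∀ n, ∀ R : Set (ℚ × ℚ), R.Finite → (Prod.fst '' R).ncard = n → Good R →
    ∀ x, ∃ y, Good (insert (x, y) R) := by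
  intro n
  induction n using Nat.strong_induction_on with
  | _ n ih =>
    intro R f hn g x
    by_cases hx : ∃ r ∈ R, r.1 = x
    · obtain ⟨r, a, rfl⟩ := hx
      exact ⟨r.2, by rwa [insert_eq_of_mem a]⟩
    push Not at hx
    rcases R.eq_empty_or_nonempty with rfl | hne
    · exact ⟨x, good_diag.mono (by simp)⟩
    have IH := ih _ (hn ▸ fst_D ▸ DA_lt (f.image _) (hne.image _)) (D R) (D_fin f) rfl g.d
    have o := g.oi
    by_cases h1 : ∃ p, Lo R x p <;> by_cases h2 : ∃ q, Hi R x q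
    · obtain ⟨p, hp⟩ := h1
      obtain ⟨q, hq⟩ := h2
      have pq := hp.2.1.trans hq.2.1
      have pq' := (o p hp.1 q hq.1).1 pq
      have m := hv.min _ _ _ hp.2.1 hq.2.1
      have dd : (v p.1 q.1, v p.2 q.2) ∈ D R := ⟨p, hp.1, q, hq.1, pq, rfl⟩
      suffices ∃ S y, Good S ∧ D R ⊆ S ∧ p.2 < y ∧ y < q.2 ∧ (v p.1 x, v p.2 y) ∈ S ∧
          (v x q.1, v y q.2) ∈ S by
        obtain ⟨S, y, a, b, c, d, e, h⟩ := this
        exact ⟨y, fold f o a b hx (fun p' h' => by rw [h'.uniq o hp]; exact ⟨c, e⟩)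
          fun q' h' => by rw [h'.uniq o hq]; exact ⟨d, h⟩⟩
      rcases lt_trichotomy (v p.1 x) (v x q.1) with c | c | c
      · obtain ⟨m', a⟩ := IH (v x q.1)
        obtain ⟨y, b, d⟩ := hv.dn q.2 m'
        rw [min_eq_left c.le] at m
        have e : v p.2 q.2 < m' := (a.oi _ (Or.inr dd) _ (Or.inl rfl)).1 (m ▸ c)
        have h : p.2 < y := by
          by_contra! h
          rcases h.eq_or_lt with rfl | h
          · exact e.ne d
          · rw [hv.min _ _ _ h pq'] at d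
            exact (min_le_right _ _).not_gt (d ▸ e)
        have k := hv.min _ _ _ h b
        rw [d] at k
        have k' : v p.2 y = v p.2 q.2 := by
          rcases min_choice (v p.2 y) m' with l | l <;> rw [l] at k
          · exact k.symm
          · exact absurd k e.ne
        exact ⟨_, y, a, subset_insert _ _, h, b, Or.inr (by rwa [k', ← m]), Or.inl (by rw [d])⟩
      · obtain ⟨y, a, b, d, e⟩ := hv.mid _ _ pq'
        rw [← c, min_self] at m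
        exact ⟨_, y, g.d, subset_rfl, a, b, by rwa [d, ← m], by rwa [e, ← c, ← m]⟩
      · obtain ⟨m', a⟩ := IH (v p.1 x)
        obtain ⟨y, b, d⟩ := hv.up p.2 m'
        rw [min_eq_right c.le] at m
        have e : v p.2 q.2 < m' := (a.oi _ (Or.inr dd) _ (Or.inl rfl)).1 (m ▸ c)
        have h : y < q.2 := by
          by_contra! h
          rcases h.eq_or_lt with rfl | h
          · exact e.ne d
          · rw [hv.min _ _ _ pq' h] at d
            exact (min_le_left _ _).not_gt (d ▸ e)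
        have k := hv.min _ _ _ b h
        rw [d] at k
        have k' : v y q.2 = v p.2 q.2 := by
          rcases min_choice m' (v y q.2) with l | l <;> rw [l] at k
          · exact absurd k e.ne
          · exact k.symm
        exact ⟨_, y, a, subset_insert _ _, b, h, Or.inl (by rw [d]), Or.inr (by rwa [k', ← m])⟩
    · obtain ⟨p, hp⟩ := h1
      obtain ⟨m', a⟩ := IH (v p.1 x)
      obtain ⟨y, b, d⟩ := hv.up p.2 m'
      exact ⟨y, fold f o a (subset_insert _ _) hx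
        (fun p' h' => by rw [h'.uniq o hp]; exact ⟨b, Or.inl (by rw [d])⟩) fun q h => absurd ⟨q, h⟩ h2⟩
    · obtain ⟨p, hp⟩ := h2
      obtain ⟨m', a⟩ := IH (v x p.1)
      obtain ⟨y, b, d⟩ := hv.dn p.2 m'
      exact ⟨y, fold f o a (subset_insert _ _) hx (fun q h => absurd ⟨q, h⟩ h1)
        fun p' h' => by rw [h'.uniq o hp]; exact ⟨b, Or.inl (by rw [d])⟩⟩
    · obtain ⟨r, hr⟩ := hne
      rcases (hx r hr).lt_or_gt with c | c
      · exact absurd (exLo f hr c) h1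
      · exact absurd (exHi f hr c) h2

theorem anti_l {p x y : ℚ} (a : p < x) (b : x ≤ y) : v p y ≤ v p x := by
  rcases b.eq_or_lt with rfl | b
  · rfl
  · rw [hv.min _ _ _ a b]; exact min_le_left _ _

theorem mono_r {q x y : ℚ} (a : y < q) (b : x ≤ y) : v x q ≤ v y q := by
  rcases b.eq_or_lt with rfl | b
  · rfl
  · rw [hv.min _ _ _ b a]; exact min_le_right _ _

theorem conv : ∀ n, ∀ R : Set (ℚ × ℚ), R.Finite → (Prod.fst '' R).ncard = n →
    ∀ x y y' z, Good (insert (x, y) R) → Good (insert (x, y') R) → y ≤ z → z ≤ y' →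
      Good (insert (x, z) R) := by
  intro n
  induction n using Nat.strong_induction_on with
  | _ n ih =>
    intro R f hn x y y' z g g' a b
    by_cases hx : ∃ r ∈ R, r.1 = x
    · obtain ⟨r, c, rfl⟩ := hx
      have e1 : y = r.2 := (g.oi.eq (Or.inl rfl) (Or.inr c)).1 rfl
      have e2 : y' = r.2 := (g'.oi.eq (Or.inl rfl) (Or.inr c)).1 rfl
      rwa [le_antisymm (b.trans_eq (e2.trans e1.symm)) a]
    push Not at hx
    rcases R.eq_empty_or_nonempty with rfl | hne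
    · have e : Good ∅ := good_diag.mono (empty_subset _)
      exact fold f e.oi e (by rintro _ ⟨_, h, -⟩; exact h) hx (fun _ h => h.1.elim)
        fun _ h => h.1.elim
    have IH := ih _ (hn ▸ fst_D ▸ DA_lt (f.image _) (hne.image _)) (D R) (D_fin f) rfl
    have gR := g.mono (subset_insert _ _)
    have o := gR.oi
    have sd : ∀ w, D R ⊆ D (insert (x, w) R) := fun _ => D_mono (subset_insert _ _)
    have lo : ∀ p, Lo R x p → p.2 < y ∧ Good (insert (v p.1 x, v p.2 z) (D R)) := fun p hp => by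
      have c : p.2 < y := (g.oi _ (Or.inr hp.1) _ (Or.inl rfl)).1 hp.2.1
      exact ⟨c, IH _ _ _ _
        (g'.d.mono (insert_subset ⟨_, Or.inr hp.1, _, Or.inl rfl, hp.2.1, rfl⟩ (sd _)))
        (g.d.mono (insert_subset ⟨_, Or.inr hp.1, _, Or.inl rfl, hp.2.1, rfl⟩ (sd _)))
        (anti_l (c.trans_le a) b) (anti_l c a)⟩
    have hi : ∀ p, Hi R x p → y' < p.2 ∧ Good (insert (v x p.1, v z p.2) (D R)) := fun p hp => by
      have c : y' < p.2 := (g'.oi _ (Or.inl rfl) _ (Or.inr hp.1)).1 hp.2.1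
      exact ⟨c, IH _ _ _ _
        (g.d.mono (insert_subset ⟨_, Or.inl rfl, _, Or.inr hp.1, hp.2.1, rfl⟩ (sd _)))
        (g'.d.mono (insert_subset ⟨_, Or.inl rfl, _, Or.inr hp.1, hp.2.1, rfl⟩ (sd _)))
        (mono_r (b.trans_lt c) a) (mono_r c b)⟩
    by_cases h1 : ∃ p, Lo R x p <;> by_cases h2 : ∃ q, Hi R x q
    · obtain ⟨p, hp⟩ := h1
      obtain ⟨q, hq⟩ := h2
      have pq := hp.2.1.trans hq.2.1
      have m := hv.min _ _ _ hp.2.1 hq.2.1
      have dd : (v p.1 q.1, v p.2 q.2) ∈ D R := ⟨p, hp.1, q, hq.1, pq, rfl⟩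
      rcases min_choice (v p.1 x) (v x q.1) with c | c <;> rw [c] at m
      · have e := ((lo p hp).2.oi.eq (Or.inr dd) (Or.inl rfl)).1 m
        exact fold f o (hi q hq).2 (subset_insert _ _) hx
          (fun p' h' => by rw [h'.uniq o hp]; exact ⟨(lo p hp).1.trans_le a, Or.inr (by
            simp only at e; rwa [← m, ← e])⟩)
          fun q' h' => by rw [h'.uniq o hq]; exact ⟨b.trans_lt (hi q hq).1, Or.inl rfl⟩
      · have e := ((hi q hq).2.oi.eq (Or.inr dd) (Or.inl rfl)).1 m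
        exact fold f o (lo p hp).2 (subset_insert _ _) hx
          (fun p' h' => by rw [h'.uniq o hp]; exact ⟨(lo p hp).1.trans_le a, Or.inl rfl⟩)
          fun q' h' => by rw [h'.uniq o hq]; exact ⟨b.trans_lt (hi q hq).1, Or.inr (by
            simp only at e; rwa [← m, ← e])⟩
    · obtain ⟨p, hp⟩ := h1
      exact fold f o (lo p hp).2 (subset_insert _ _) hx
        (fun p' h' => by rw [h'.uniq o hp]; exact ⟨(lo p hp).1.trans_le a, Or.inl rfl⟩)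
        fun q h => absurd ⟨q, h⟩ h2
    · obtain ⟨q, hq⟩ := h2
      exact fold f o (hi q hq).2 (subset_insert _ _) hx (fun q h => absurd ⟨q, h⟩ h1)
        fun q' h' => by rw [h'.uniq o hq]; exact ⟨b.trans_lt (hi q hq).1, Or.inl rfl⟩
    · obtain ⟨r, hr⟩ := hne
      rcases (hx r hr).lt_or_gt with c | c
      · exact absurd (exLo f hr c) h1
      · exact absurd (exHi f hr c) h2

theorem codes : ∀ (n : ℕ) (ι : Type) [Finite ι], ∃ (C : Type) (_ : Finite C)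
    (c : Set ι → (ι → ℚ) → C), ∀ s a b, (a '' s).ncard ≤ n → (b '' s).ncard ≤ n → c s a = c s b →
      Good ((fun i => (a i, b i)) '' s) := by
  intro n
  induction n with
  | zero =>
    refine fun ι _ => ⟨Unit, inferInstance, fun _ _ => (), fun s a b h _ _ => ?_⟩
    rw [Nat.le_zero, ncard_eq_zero (toFinite _), image_eq_empty] at h
    rw [h, image_empty]
    exact good_diag.mono (empty_subset _)
  | succ n ih =>
    intro ι _
    obtain ⟨C, _, c, hc⟩ := ih (ι × ι)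
    refine ⟨Set (ι × ι) × C, inferInstance, fun s a => ({p | p.1 ∈ s ∧ p.2 ∈ s ∧ a p.1 < a p.2},
      c {p | p.1 ∈ s ∧ p.2 ∈ s ∧ a p.1 < a p.2} fun p => v (a p.1) (a p.2)), fun s a b h1 h2 e => ?_⟩
    obtain ⟨e1, e2⟩ := Prod.mk.inj e
    have bd : ∀ a : ι → ℚ, (a '' s).ncard ≤ n + 1 → ((fun p : ι × ι => v (a p.1) (a p.2)) ''
        {p | p.1 ∈ s ∧ p.2 ∈ s ∧ a p.1 < a p.2}).ncard ≤ n := fun a h => by
      rcases s.eq_empty_or_nonempty with rfl | hne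
      · simp
      · have := DA_lt (toFinite (a '' s)) (hne.image _)
        refine le_trans (ncard_le_ncard ?_ (DA_fin (toFinite (a '' s)))) (by omega)
        rintro _ ⟨p, ⟨a1, a2, a3⟩, rfl⟩
        exact ⟨_, mem_image_of_mem _ a1, _, mem_image_of_mem _ a2, a3, rfl⟩
    have b2 := bd b h2
    rw [← e1] at e2 b2
    refine Good.of ?_ (hc _ _ _ (bd a h1) b2 e2) ?_
    · rintro _ ⟨i, hi, rfl⟩ _ ⟨j, hj, rfl⟩
      simpa [hi, hj] using Set.ext_iff.1 e1 (i, j)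
    · rintro _ ⟨_, ⟨i, hi, rfl⟩, _, ⟨j, hj, rfl⟩, h, rfl⟩
      exact ⟨(i, j), ⟨hi, hj, h⟩, rfl⟩

theorem classes (ι : Type) [Finite ι] : ∃ F : Set (ι → ℚ), F.Finite ∧
    ∀ a : ι → ℚ, ∃ b ∈ F, Good (range fun i => (a i, b i)) := by
  obtain ⟨C, _, c, hc⟩ := codes (Nat.card ι) ι
  have bd : ∀ a : ι → ℚ, (a '' univ).ncard ≤ Nat.card ι := fun a =>
    (ncard_image_le (toFinite _)).trans (ncard_univ ι).le
  refine ⟨range (Function.invFun (c univ)), finite_range _, fun a => ⟨_, ⟨c univ a, rfl⟩, ?_⟩⟩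
  rw [← image_univ]
  exact hc _ _ _ (bd _) (bd _) (Function.invFun_eq ⟨a, rfl⟩).symm

theorem good_loc (h : ∀ R' ⊆ R, R'.Finite → Good R') : Good R := by
  have : ∀ k, ∀ R' ⊆ D^[k] R, R'.Finite → Good R' := fun k => by
    induction k with
    | zero => exact h
    | succ k ih =>
      intro R' a b
      rw [Function.iterate_succ_apply'] at a
      choose! p hp q hq c using a
      refine (ih (p '' R' ∪ q '' R') (union_subset (image_subset_iff.2 hp) (image_subset_iff.2 hq))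
        ((b.image _).union (b.image _))).d.mono fun r hr => ?_
      exact ⟨_, Or.inl (mem_image_of_mem _ hr), _, Or.inr (mem_image_of_mem _ hr), c hr⟩
  refine ⟨fun k => D^[k] R, subset_rfl, fun k => ⟨fun p a q b => ?_,
    (Function.iterate_succ_apply' D k R).superset⟩⟩
  exact (this k {p, q} (by simp [insert_subset_iff, a, b]) (toFinite _)).oi p (by simp) q (by simp)

def Ψ (U : Set ℚ) : Set ℚ := {x | x ≤ 0 ∨ ∃ y, x ≤ y ∧ 0 < y ∧ v 0 y ∉ U}

theorem Ψ_low (U : Set ℚ) : IsLowerSet (Ψ U) := fun _ _ h a =>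
  a.imp h.trans fun ⟨y, b, c⟩ => ⟨y, h.trans b, c⟩

theorem exists_fix : ∃ U, U = Ψ (Ψ U) := by
  have : Antitone Ψ := fun U V h x a => a.imp_right fun ⟨y, b, c, d⟩ => ⟨y, b, c, fun e => d (h e)⟩
  exact ⟨_, (OrderHom.map_lfp ⟨Ψ ∘ Ψ, this.comp this⟩).symm⟩

structure Sit (U U' : Set ℚ) (R : Set (ℚ × ℚ)) : Prop where
  e1 : U = Ψ U'
  e2 : U' = Ψ U
  good : Good R
  t1 : ∀ x, ∃ y, (x, y) ∈ R
  t2 : ∀ y, ∃ x, (x, y) ∈ R
  pres : ∀ p ∈ R, p.1 ∈ U ↔ p.2 ∈ U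

variable {U U' : Set ℚ}

theorem mem_pos (h : IsLowerSet U) {x : ℚ} (hx : 0 < x) : x ∈ Ψ U ↔ v 0 x ∉ U :=
  ⟨fun a b => a.elim hx.not_ge fun ⟨_, c, _, e⟩ => e (h (anti_l hx c) b),
    fun a => Or.inr ⟨x, le_rfl, hx, a⟩⟩

theorem Sit.low (h : Sit U U' R) : IsLowerSet U' := h.e2 ▸ Ψ_low _

theorem Sit.out (h : Sit U U' R) {x : ℚ} : x ∉ U ↔ 0 < x ∧ v 0 x ∈ U' := by
  rw [h.e1]
  refine ⟨fun a => ?_, fun a b => (mem_pos h.low a.1).1 b a.2⟩
  have b : 0 < x := not_le.1 fun b => a (Or.inl b)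
  exact ⟨b, by_contra fun c => a ((mem_pos h.low b).2 c)⟩

theorem Sit.symm (h : Sit U U' R) : Sit U U' (Prod.swap '' R) :=
  ⟨h.e1, h.e2, h.good.symm, fun x => (h.t2 x).imp fun _ a => ⟨_, a, rfl⟩,
    fun x => (h.t1 x).imp fun _ a => ⟨_, a, rfl⟩, by
      rintro _ ⟨p, a, rfl⟩; exact (h.pres p a).symm⟩

theorem Sit.nomax (h : Sit U U' R) {t : ℚ} (ht : t ∈ U') : ∃ s ∈ U', t < s := by
  have lU : IsLowerSet U := h.e1 ▸ Ψ_low _
  rw [h.e2] at ht ⊢
  rcases le_or_gt t 0 with a | a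
  · obtain ⟨s, b, c⟩ := hv.up 0 0
    obtain ⟨u, d, e⟩ := hv.up 0 s
    exact ⟨u, (mem_pos lU d).2 (e ▸ h.out.2 ⟨b, c.symm ▸ h.e2 ▸ Or.inl le_rfl⟩), a.trans_lt d⟩
  · obtain ⟨u, d, e⟩ := hv.up t (v 0 t)
    refine ⟨u, (mem_pos lU (a.trans d)).2 ?_, d⟩
    rw [hv.min _ _ _ a d, e, min_self]
    exact (mem_pos lU a).1 ht

theorem Sit.inB (h : Sit U U' R) {b : ℚ} (hb : (0, b) ∈ R) :
    b = 0 ∨ (0 < b ∧ v 0 b ∉ U') ∨ (b < 0 ∧ v b 0 ∉ U') := by
  have bU : b ∈ U := (h.pres _ hb).1 (h.e1 ▸ Or.inl le_rfl)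
  rcases lt_trichotomy b 0 with a | a | a
  · refine Or.inr (Or.inr ⟨a, fun ht => ?_⟩)
    obtain ⟨x1, c, d⟩ := hv.up 0 (v b 0)
    obtain ⟨x0, e⟩ := h.t2 x1
    have f := h.out.1 (mt (h.pres _ e).1 (h.out.2 ⟨c, d ▸ ht⟩))
    obtain ⟨s, g, k⟩ := h.nomax f.2
    obtain ⟨y0, l, m⟩ := hv.up 0 s
    obtain ⟨y1, n⟩ := h.t1 y0
    have o := h.out.1 (mt (h.pres _ n).2 (h.out.2 ⟨l, m ▸ g⟩))
    have := (h.good.d.oi _ ⟨_, hb, _, e, f.1, rfl⟩ _ ⟨_, hb, _, n, l, rfl⟩).1 (m ▸ k)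
    simp only at this
    rw [hv.min _ _ _ a c, hv.min _ _ _ a o.1, d, min_self] at this
    exact (min_le_left _ _).not_gt this
  · exact Or.inl a
  · exact Or.inr (Or.inl ⟨a, fun c => h.out.2 ⟨a, c⟩ bU⟩)

theorem Sit.pres' (h : Sit U U' R) {p : ℚ × ℚ} (hp : p ∈ D R) (a : p.1 ∈ U') : p.2 ∈ U' := by
  obtain ⟨x, b, c⟩ := hv.up 0 p.1
  obtain ⟨y, d⟩ := h.t1 x
  obtain ⟨z, e⟩ := h.t1 0
  have f := h.out.1 (mt (h.pres _ d).2 (h.out.2 ⟨b, c ▸ a⟩))
  rw [← (h.good.d.oi.eq ⟨_, e, _, d, b, rfl⟩ hp).1 c]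
  have g : z < y := (h.good.oi _ e _ d).1 b
  rcases h.inB e with rfl | k | k
  · exact f.2
  · have := f.2
    rw [hv.min _ _ _ k.1 g] at this
    rcases min_choice (v 0 z) (v z y) with l | l <;> rw [l] at this
    · exact absurd this k.2
    · exact this
  · exact h.low (mono_r f.1 k.1.le) f.2

theorem Sit.d (h : Sit U U' R) : Sit U' U (D R) := by
  have t : ∀ {R}, Sit U U' R → ∀ x, ∃ y, (x, y) ∈ D R := fun h x => by
    obtain ⟨y, a, rfl⟩ := hv.up 0 x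
    obtain ⟨z, b⟩ := h.t1 0
    obtain ⟨w, c⟩ := h.t1 y
    exact ⟨_, _, b, _, c, a, rfl⟩
  refine ⟨h.e2, h.e1, h.good.d, t h, fun y => ?_, fun p hp => ⟨h.pres' hp, fun a => ?_⟩⟩
  · obtain ⟨x, a⟩ := t h.symm y
    rw [D_symm h.good.oi] at a
    obtain ⟨p, b, c⟩ := a
    exact ⟨x, by rwa [← Prod.swap_swap p, c] at b⟩
  · exact h.symm.pres' (p := p.swap) (D_symm h.good.oi ▸ mem_image_of_mem _ hp) a

theorem Sit.step (h : Sit U U' R) {x y : ℚ} (a : (x, y) ∈ R) (b : x < 0) (c : v x 0 ∈ U') :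
    (v x 0, v y 0) ∈ D R := by
  obtain ⟨z, e⟩ := h.t1 0
  have f : (v x 0, v y z) ∈ D R := ⟨_, a, _, e, b, rfl⟩
  have g : v y z ∈ U' := h.pres' f c
  have k : y < z := (h.good.oi _ a _ e).1 b
  rcases h.inB e with rfl | l | l
  · exact f
  · have m : y < 0 := not_le.1 fun m => l.2 (h.low (mono_r k m) g)
    rw [hv.min _ _ _ m l.1] at f g
    rcases min_choice (v y 0) (v 0 z) with n | n <;> rw [n] at f g
    · exact f
    · exact absurd g l.2
  · rwa [hv.min _ _ _ k l.1, min_eq_left (le_of_not_ge fun n => l.2 (h.low n g))]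

noncomputable def yy : ℕ → ℚ
  | 0 => 0
  | n + 1 => (hv.dn 0 (yy n)).choose

theorem yy_lt (n : ℕ) : yy (n + 1) < 0 := (hv.dn 0 (yy n)).choose_spec.1
theorem yy_v (n : ℕ) : v (yy (n + 1)) 0 = yy n := (hv.dn 0 (yy n)).choose_spec.2
theorem yy_le : ∀ n, yy n ≤ 0
  | 0 => le_rfl
  | n + 1 => (yy_lt n).le

theorem sep : ∀ (j k : ℕ) (U U' : Set ℚ) (R : Set (ℚ × ℚ)), Sit U U' R → j < k →
    (yy j, yy k) ∉ R := by
  intro j
  induction j with
  | zero =>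
    rintro (_ | k) U U' R h a b
    · exact lt_irrefl _ a
    · rcases h.inB b with c | c | c
      · exact (yy_lt k).ne c
      · exact (yy_lt k).not_gt c.1
      · exact c.2 (yy_v k ▸ h.e2 ▸ Or.inl (yy_le k))
  | succ j ih =>
    rintro (_ | k) U U' R h a b
    · exact Nat.not_lt_zero _ a
    · have := h.step b (yy_lt j) (yy_v j ▸ h.e2 ▸ Or.inl (yy_le j))
      rw [yy_v, yy_v] at this
      exact ih k _ _ _ h.d (by omega) this

end Pool.Agent.H23.Tow
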