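import Pool.Agent.H23.F3f
import Pool.Agent.H24.Bz1

set_option autoImplicit false

namespace Pool.Agent.H23.Tr
open List Pool.Agent.H23.F3 Pool.Agent.H25.FP

theorem zs {τ : Type} (L : List ((τ → ℕ) × (τ → ℕ))) (h : ∀ c ∈ L, ∀ t, c.1 t ≤ 2 ∧ c.2 t ≤ 2)
    (l : List τ) (e : ∀ c ∈ L, dl c.1 c.2 l = 0) : ∃ C : List (List τ), C.flatten ~ l ∧
      ∀ w ∈ C, 4 * w.length ≤ 2 ^ (2 * 2 ^ L.length) ∧ ∀ c ∈ L, dl c.1 c.2 w = 0 := by
  induction L with
  | nil => exact ⟨l.map fun t => [t], by rw [← flatMap_def, flatMap_singleton'], by simp⟩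
  | cons c L ih =>
    rw [forall_mem_cons] at h e
    obtain ⟨C, c1, c2⟩ := ih h.2 e.2
    obtain ⟨g, hg⟩ : ∃ g, 2 ^ (2 * 2 ^ L.length) = 4 * g := ⟨2 ^ (2 * 2 ^ L.length - 2), by
      rw [show 4 = 2 ^ 2 from rfl, ← pow_add]
      have := Nat.one_le_two_pow (n := L.length)
      congr 1; omega⟩
    have g0 : 0 < g := by have := Nat.one_le_two_pow (n := 2 * 2 ^ L.length); omega
    have k : ∀ D : List (List τ), D ⊆ C → dl (fun w => min (sm c.1 w) (2 * g))
        (fun w => min (sm c.2 w) (2 * g)) D = dl c.1 c.2 D.flatten := fun D m => by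
      induction D with
      | nil => rfl
      | cons w D ih =>
        have := (c2 w (m (by simp))).1
        have a := sum_le_card_nsmul (w.map c.1) 2 (by simpa using fun t _ => (h.1 t).1)
        have b := sum_le_card_nsmul (w.map c.2) 2 (by simpa using fun t _ => (h.1 t).2)
        simp only [length_map, smul_eq_mul] at a b
        rw [dl_cons, ih fun _ x => m (by simp [x]), flatten_cons, dl_app, dl_sm (l := w), sm, sm]
        omega
    obtain ⟨D, d1, d2⟩ := grp0 (l := C) (p := 2 * g) (by omega) (fun _ => min_le_right _ _)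
      (fun _ => min_le_right _ _) (by rw [k C (Subset.refl _), dl_perm c1, e.1])
    have s : ∀ w ∈ D, w ⊆ C := fun w m x y => d1.subset (mem_flatten.2 ⟨w, m, y⟩)
    have p : (D.map flatten).flatten ~ l := by rw [← flatten_flatten]; exact d1.flatten.trans c1
    refine ⟨_, p, forall_mem_map.2 fun w m => ⟨?_, forall_mem_cons.2 ⟨?_, fun c x => le_antisymm
      (dl_np fun u y => ((c2 u (s w m y)).2 c x).le) (dl_pos fun u y => ((c2 u (s w m y)).2 c x).ge)⟩⟩⟩
    · have := len_fm (l := w) (f := id) (c := g) fun u y => by have := (c2 u (s w m y)).1; simp; omega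
      have := Nat.mul_le_mul_right g (d2 w m).1
      rw [length_cons, pow_succ, ← mul_assoc, mul_two, pow_add, hg]
      rw [flatMap_id] at *
      nlinarith
    · obtain ⟨u, v, rfl⟩ := append_of_mem m
      have f : ∀ x ∈ u ++ w :: v, 0 ≤ dl c.1 c.2 x.flatten := fun x y => k x (s x y) ▸ (d2 x y).2
      have := dl_perm (a := c.1) (b := c.2) p
      have a := dl_pos (a := c.1) (b := c.2) (C := u.map flatten) (by
        simpa using fun x y => f x (by simp [y]))
      have b := dl_pos (a := c.1) (b := c.2) (C := v.map flatten) (by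
        simpa using fun x y => f x (by simp [y]))
      have := f w m
      have := e.1
      simp only [map_append, map_cons, flatten_append, flatten_cons, dl_app] at *
      omega

def val (w : ℕ → ℕ → ℤ) (z : List ℕ) : ℤ := (((range z.length).zip z).map fun q => w q.1 q.2).sum

def bal (t : ℕ) (z : List ℕ) : Prop :=
  ∀ τ ∈ range t, z.count (3 * τ) = z.count (3 * τ + 1) ∧ z.count (3 * τ) = z.count (3 * τ + 2)

variable {w : ℕ → ℕ → ℤ} {t m R a : ℕ} {o z : List ℕ}

theorem val_snoc (s : ℕ) : val w (z ++ [s]) = val w z + w z.length s := by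
  simp [val, range_succ, zip_append]

theorem val_map (N : ℕ) (y : ℕ → ℕ) :
    val w ((range N).map y) = ((range N).map fun i => w i (y i)).sum := by
  simp [val, zip_eq_zipWith, zipWith_map_right, Function.comp_def]

theorem as_map (z : List ℕ) : (range z.length).map (z.getD · 0) = z :=
  ext_getElem (by simp) fun i _ k => by simp [k]

theorem exch {M : ℕ} (ho : o.length = M + 3) (hz : z.length = M + 3) (b1 : bal t o) (b2 : bal t z)
    (m1 : ∀ s ∈ o, s < m) (m2 : ∀ s ∈ z, s < m) (hR : 2 ^ (2 * 2 ^ (2 * t)) ≤ R)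
    (h : ∀ y, y.length = M + 3 → y.drop M = o.drop M → bal t y → (∀ s ∈ y, s < m) →
      val w y ≤ val w o) : ∃ y, y.length = M + 3 ∧ bal t y ∧ (∀ s ∈ y, s < m) ∧ val w z ≤ val w y ∧
      ∀ k s, (o.take k).count s ≤ (y.take k).count s + R ∧
        (y.take k).count s ≤ (o.take k).count s + R := by
  obtain ⟨o, rfl⟩ : ∃ f : ℕ → ℕ, o = (range (M + 3)).map f := ⟨_, ho ▸ (as_map o).symm⟩
  obtain ⟨z, rfl⟩ : ∃ f : ℕ → ℕ, z = (range (M + 3)).map f := ⟨_, hz ▸ (as_map z).symm⟩
  have d : ∀ s s' (l : List ℕ), dl (fun i => (if z i = s' then 1 else 0) + if o i = s then 1 else 0)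
      (fun i => (if z i = s then 1 else 0) + if o i = s' then 1 else 0) l = (l.map z).count s +
      (l.map o).count s' - (l.map z).count s' - (l.map o).count s := fun s s' l => by
    induction l with
    | nil => rfl
    | cons i l ih => simp only [dl_cons, ih, map_cons, count_cons, beq_iff_eq]; split_ifs <;> omega
  obtain ⟨C, c1, c2⟩ := zs ((range t ×ˢ [1, 2]).map fun q =>
    (fun i => (if z i = 3 * q.1 + q.2 then 1 else 0) + if o i = 3 * q.1 then 1 else 0,
      fun i => (if z i = 3 * q.1 then 1 else 0) + if o i = 3 * q.1 + q.2 then 1 else 0))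
    (forall_mem_map.2 fun q _ i => by simp only; split_ifs <;> omega) (range (M + 3))
    (forall_mem_map.2 fun q x => by
      have := b1 q.1 (mem_product.1 x).1
      have := b2 q.1 (mem_product.1 x).1
      rcases (by simpa using (mem_product.1 x).2 : q.2 = 1 ∨ q.2 = 2) with e | e <;>
        simp only [d, e] <;> omega)
  have p := (filter_append_perm (fun u => u.any (M ≤ ·)) C).flatten.trans c1
  have l1 : (C.filter fun u => u.any (M ≤ ·)).length ≤ 3 := by
    have : C.flatten.countP (M ≤ ·) = 3 := by
      rw [c1.countP_eq, range_add, countP_append, countP_eq_zero.2 (by simp), zero_add,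
        countP_eq_length.2 (by simp)]; simp
    rw [← this]
    clear c1 c2 p this
    induction C with
    | nil => simp
    | cons u C ih =>
      rw [filter_cons, flatten_cons, countP_append]
      split_ifs with e
      · have := countP_pos_iff.2 (any_eq_true.1 e); simp only [length_cons]; omega
      · omega
  have l2 := (len_fm (f := id) (c := R / 4) fun u x => by
    have := (c2 u (mem_of_mem_filter x)).1
    simp [length_product, mul_comm t] at this ⊢; omega).trans (Nat.mul_le_mul_right _ l1)
  have z1 : ∀ τ ∈ range t, ∀ e ∈ [1, 2], _ := fun τ x e y => (d (3 * τ) (3 * τ + e) _).symm.trans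
    (le_antisymm (dl_np (C := C.filter fun u => u.any (M ≤ ·)) fun u k => ((c2 u (mem_of_mem_filter k)).2
      _ (mem_map_of_mem (a := (τ, e)) (mem_product.2 ⟨x, y⟩))).le) (dl_pos fun u k =>
      ((c2 u (mem_of_mem_filter k)).2 _ (mem_map_of_mem (a := (τ, e)) (mem_product.2 ⟨x, y⟩))).ge))
  have u1 : ∀ i ∈ (C.filter fun u => !u.any (M ≤ ·)).flatten, i < M := fun i x => by
    obtain ⟨u, x, y⟩ := mem_flatten.1 x
    simpa using (by simpa using (mem_filter.1 x).2 : ∀ i ∈ u, i < M) i y
  rw [flatMap_id] at l2
  rw [flatten_append] at p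
  generalize (C.filter _).flatten = U, (C.filter _).flatten = V at *
  have n := (nodup_append.1 (p.symm.nodup nodup_range)).2.2
  have k : ∀ {β : Type} (f g : ℕ → β), (range (M + 3)).map (fun i => if i ∈ U then f i else g i) ~
      U.map f ++ V.map g := fun f g => (p.symm.map _).trans (by
    rw [map_append, map_congr_left fun i x => if_pos x,
      map_congr_left fun i x => if_neg fun y => n i y i x rfl])
  have k' : ∀ {β : Type} (f : ℕ → β), (range (M + 3)).map f ~ U.map f ++ V.map f := fun f => by
    simpa using k f f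
  have bb : ∀ f g : ℕ → ℕ, (f = z ∧ g = o) ∨ (f = o ∧ g = z) →
      bal t ((range (M + 3)).map fun i => if i ∈ U then f i else g i) ∧
      ∀ s ∈ (range (M + 3)).map fun i => if i ∈ U then f i else g i, s < m := fun f g e => by
    refine ⟨fun τ x => ?_, forall_mem_map.2 fun i x => ?_⟩
    · have := b1 τ x
      have := b2 τ x
      have := z1 τ x 1 (by simp)
      have := z1 τ x 2 (by simp)
      simp only [(k _ _).count_eq, (k' o).count_eq, (k' z).count_eq, count_append] at *
      rcases e with ⟨rfl, rfl⟩ | ⟨rfl, rfl⟩ <;> omega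
    · have := m1 _ (mem_map_of_mem x)
      have := m2 _ (mem_map_of_mem x)
      rcases e with ⟨rfl, rfl⟩ | ⟨rfl, rfl⟩ <;> split_ifs <;> assumption
  have h1 := h _ (by simp) (by
    rw [← map_drop, ← map_drop]
    exact map_congr_left fun i x => if_pos ((mem_append.1 (p.symm.subset (mem_of_mem_drop x))).resolve_right
      fun y => by have := u1 i y; simp [range_add] at x; omega)) (bb o z (by simp)).1 (bb o z (by simp)).2
  refine ⟨_, by simp, (bb z o (by simp)).1, (bb z o (by simp)).2, ?_, fun j s => ?_⟩
  · simp only [val_map, apply_ite (w _), (k _ _).sum_eq, sum_append] at h1 ⊢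
    rw [(k' _).sum_eq, sum_append] at h1 ⊢
    omega
  · have : ∀ I : List ℕ, (I.map o).count s ≤ (I.map fun i => if i ∈ U then z i else o i).count s +
        (I.filter (· ∈ U)).length ∧ (I.map fun i => if i ∈ U then z i else o i).count s ≤
        (I.map o).count s + (I.filter (· ∈ U)).length := fun I => by
      induction I with
      | nil => simp
      | cons i I ih => by_cases x : i ∈ U <;> simp [x, count_cons] at ih ⊢ <;> split_ifs <;> omega
    have := this ((range (M + 3)).take j)
    have := ((((take_sublist j _).nodup (nodup_range (n := M + 3))).filter (· ∈ U)).subperm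
      (l₂ := U) fun i x => by simpa using (mem_filter.1 x).2).length_le
    simp only [← map_take]; omega

def best (w : ℕ → ℕ → ℤ) (L : List (List ℕ)) : Option (List ℕ) :=
  L.find? fun z => L.all fun y => val w y ≤ val w z

theorem best_spec {L : List (List ℕ)} (h : z ∈ L) : ∃ y ∈ L, best w L = some y ∧ val w z ≤ val w y := by
  obtain ⟨y, a, b⟩ := L.toFinset.exists_max_image (val w) ⟨z, by simpa⟩
  cases e : best w L with
  | none => exact absurd (by simpa using b) (find?_eq_none.1 e y (by simpa using a))
  | some y => exact ⟨y, mem_of_find?_eq_some e, rfl, by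
      simpa using all_eq_true.1 (find?_some (p := fun z => L.all fun y => val w y ≤ val w z) e) z h⟩

def step (w : ℕ → ℕ → ℤ) (m R a : ℕ) (o : List ℕ) (T : List (List ℕ)) : List (List ℕ) :=
  (enumL (2 * R + 1) m a).flatMap fun δ => (best w ((T.flatMap fun z => (range m).map fun s =>
    z ++ [s]).filter fun z => (range m).all fun s =>
      z.count s + R == (o.take z.length).count s + δ.getD s 0)).toList

theorem step_inv (k : ℕ) : ((step w m R a o)^[k] [[]]).length ≤ a + 1 ∧
    ∀ z ∈ (step w m R a o)^[k] [[]], z.length = k ∧ ∀ s ∈ z, s < m := by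
  induction k with
  | zero => simp
  | succ k ih =>
    rw [Function.iterate_succ_apply', step]
    refine ⟨(len_fm (c := 1) fun _ _ => Option.length_toList_le).trans (by
      have := (enumL_inv (2 * R + 1) m a).1; omega), forall_mem_flatMap.2 fun δ _ z x => ?_⟩
    obtain ⟨y, u, e⟩ := mem_flatMap.1 (mem_of_mem_filter (mem_of_find?_eq_some (Option.mem_toList.1 x)))
    obtain ⟨s, v, rfl⟩ := mem_map.1 e
    exact ⟨by simp [ih.2 y u], forall_mem_append.2 ⟨(ih.2 y u).2, by simpa using v⟩⟩

theorem step_ok (ha : (2 * R + 1) ^ m ≤ a) (h : ∀ s ∈ z, s < m) (b : ∀ k ≤ z.length, ∀ s,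
    (o.take k).count s ≤ (z.take k).count s + R ∧ (z.take k).count s ≤ (o.take k).count s + R) :
    ∃ y ∈ (step w m R a o)^[z.length] [[]], (∀ s < m, y.count s = z.count s) ∧ val w z ≤ val w y := by
  induction z using reverseRec with
  | nil => simp
  | append_singleton z s ih =>
    rw [forall_mem_append] at h
    obtain ⟨y, y1, y2, y3⟩ := ih h.1 fun k e s => by
      simpa [take_append_of_le_length e] using b k (by simp; omega) s
    have l := (step_inv (w := w) (m := m) (R := R) (a := a) (o := o) _).2 y y1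
    have b := b _ le_rfl
    rw [take_length] at b
    rw [length_append, length_singleton, Function.iterate_succ_apply'] at *
    obtain ⟨δ, hδ⟩ : ∃ δ, δ = (range m).map fun r => (z ++ [s]).count r + R -
      (o.take (z.length + 1)).count r := ⟨_, rfl⟩
    obtain ⟨x, x1, x2, x3⟩ := best_spec (w := w) (z := y ++ [s]) ((mem_filter (p := fun z => (range m).all fun s =>
      z.count s + R == (o.take z.length).count s + δ.getD s 0)).2 ⟨(mem_flatMap (f := fun z =>
      (range m).map fun s => z ++ [s])).2 ⟨y, y1, mem_map_of_mem (f := fun s => y ++ [s]) (mem_range.2 (h.2 s (by simp)))⟩, (by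
        simp only [all_eq_true, mem_range, beq_iff_eq, length_append, l.1, length_singleton]
        intro r e
        have := b r
        simp [hδ, e, y2 r e] at this ⊢; omega)⟩)
    have x4 : x ∈ step w m R a o ((step w m R a o)^[z.length] [[]]) := mem_flatMap.2 ⟨δ,
      mem_enumL ha _ (by simp [hδ]) (by
        simp only [hδ, forall_mem_map]
        intro r _; have := b r; omega), Option.mem_toList.2 x2⟩
    refine ⟨x, x4, fun r e => ?_, by rw [val_snoc, l.1] at *; omega⟩
    have l' := (step_inv (w := w) (m := m) (R := R) (a := a) (o := o) (z.length + 1)).2 x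
      (by rwa [Function.iterate_succ_apply'])
    have := all_eq_true.1 (mem_filter.1 x1).2 r (mem_range.2 e)
    have := b r
    simp [hδ, e, l'.1] at *; omega

open Pool.Agent.H23.Ori in
noncomputable def stage (w : ℕ → ℕ → ℤ) (t R a : ℕ) (x : List ℕ) : List ℕ :=
  (best w (((step w (3 * t) R a (x ++ [0, 1, 2]))^[x.length + 3] [[]]).filter fun z =>
    dc (bal t z))).getD (x ++ [0, 1, 2])

theorem stage_inv (ht : 0 < t) (k : ℕ) : ((stage w t R a)^[k] []).length = 3 * k ∧
    (∀ s ∈ (stage w t R a)^[k] [], s < 3 * t) ∧ bal t ((stage w t R a)^[k] []) := by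
  induction k with
  | zero => simp [bal]
  | succ k ih =>
    rw [Function.iterate_succ_apply', stage]
    cases e : best w _ with
    | none => exact ⟨by simp [ih]; omega, forall_mem_append.2 ⟨ih.2.1, by simp; omega⟩, fun τ x => by
        have := ih.2.2 τ x
        simp [count_cons]; split_ifs <;> omega⟩
    | some y =>
      have := mem_filter.1 (mem_of_find?_eq_some e)
      have k := (step_inv _).2 y this.1
      exact ⟨by simp [k, ih]; omega, k.2, Ori.dc_iff.1 this.2⟩

theorem stage_ok (ht : 0 < t) (hR : 2 ^ (2 * 2 ^ (2 * t)) ≤ R) (ha : (2 * R + 1) ^ (3 * t) ≤ a)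
    (k : ℕ) : ∀ z, z.length = 3 * k → (∀ s ∈ z, s < 3 * t) → bal t z →
      val w z ≤ val w ((stage w t R a)^[k] []) := by
  induction k with
  | zero => intro z e _ _; simp [length_eq_zero_iff.1 e]
  | succ k ih =>
    intro z e1 e2 e3
    obtain ⟨i1, i2, i3⟩ := stage_inv (w := w) (R := R) (a := a) ht k
    rw [Function.iterate_succ_apply', stage]
    generalize (stage w t R a)^[k] [] = x at *
    have c : ∀ x, bal t (x ++ [0, 1, 2]) ↔ bal t x := fun x => forall₂_congr fun τ _ => by
      simp [count_cons]; split_ifs <;> omega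
    obtain ⟨y, y1, y2, y3, y4, y5⟩ := exch (w := w) (o := x ++ [0, 1, 2]) (M := 3 * k) (by simp [i1])
      e1 ((c x).2 i3) e3 (forall_mem_append.2 ⟨i2, by simp; omega⟩) e2 hR fun y a b d e => by
        rw [← take_append_drop (3 * k) y, b, drop_left' i1] at d e ⊢
        have l : (y.take (3 * k)).length = 3 * k := by simp [a]
        have := ih _ l (forall_mem_append.1 e).1 ((c _).1 d)
        have f : ∀ x : List ℕ, x ++ [0, 1, 2] = x ++ [0] ++ [1] ++ [2] := by simp
        simp only [f, val_snoc, length_append, l, i1]; omega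
    obtain ⟨u, u1, u2, u3⟩ := step_ok (w := w) ha y3 fun k _ => y5 k
    obtain ⟨v, -, v1, v2⟩ := best_spec (w := w) ((mem_filter (p := fun z => Ori.dc (bal t z))).2
      ⟨u1, (Ori.dc_iff.2 fun τ x => by
      rw [mem_range] at x
      rw [u2 _ (by omega), u2 _ (by omega), u2 _ (by omega)]
      exact y2 τ (mem_range.2 x))⟩)
    rw [i1, ← y1, v1]
    exact y4.trans (u3.trans v2)

end Pool.Agent.H23.Tr
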