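import Pool.Agent.H24.Bz1

set_option autoImplicit false

namespace Pool.Agent.H23.Tr
open Pool.Agent.H11.PT Pool.Agent.H24.Bz

/-- a search problem `S` (input, acceptable output) is solved by one multi-stack Turing machine of
Mathlib within `f (κ x) * (|x| + 1) ^ c` steps, for a computable `f` and a constant `c` -/
def FPTsol {α β : Type} [Enc α] [Enc β] (S : α → β → Prop) (κ : α → ℕ) : Prop :=
  ∃ (V : α → β) (M : Turing.TM2ComputableAux Bool Bool) (f : ℕ → ℕ) (c : ℕ), Computable f ∧
    (∀ x, Nonempty (Turing.TM2OutputsInTime M.tm ((bits x).map M.inputAlphabet.invFun)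
      (some ((bits (V x)).map M.outputAlphabet.invFun)) (f (κ x) * ((bits x).length + 1) ^ c))) ∧
    ∀ x, S x (V x)

/-- the polyhedral distance: the largest `|a · (x - y)|` over the facet normals `a` -/
def dist (A : List (List ℤ)) (x y : List ℤ) : ℤ :=
  (A.map fun a => |((List.range a.length).map fun k =>
    a.getD k 0 * (x.getD k 0 - y.getD k 0)).sum|).foldr max 0

/-- the perimeter of the triangle on three points given by their positions in `P` -/
def per (A P : List (List ℤ)) (q : ℕ × ℕ × ℕ) : ℤ :=
  dist A (P.getD q.1 []) (P.getD q.2.1 []) + dist A (P.getD q.2.1 []) (P.getD q.2.2 []) +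
    dist A (P.getD q.2.2 []) (P.getD q.1 [])

/-- the triples use each of the positions `0, …, N - 1` exactly once -/
def IsPart (N : ℕ) (Q : List (ℕ × ℕ × ℕ)) : Prop :=
  (Q.flatMap fun q => [q.1, q.2.1, q.2.2]).Perm (List.range N)

/-- Max-3DM: input (facet normals, points); `Q` is a partition into triangles of largest total
perimeter -/
def Max3DM (I : List (List ℤ) × List (List ℤ)) (Q : List (ℕ × ℕ × ℕ)) : Prop :=
  3 ∣ I.2.length → IsPart I.2.length Q ∧ ∀ Q', IsPart I.2.length Q' →
    (Q'.map (per I.1 I.2)).sum ≤ (Q.map (per I.1 I.2)).sum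

end Pool.Agent.H23.Tr
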