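import Mathlib

set_option autoImplicit false

namespace Pool.Agent.Results.MP_2f9b3f_lc.Cex
open Finset

section defs
variable {n : ℕ}

/-- marginal scenarios -/
def Scen (M : Finset (Finset (Fin n))) : Prop :=
  ∅ ∈ M ∧ (∀ i, {i} ∈ M) ∧ ∀ S ∈ M, ∀ T ⊆ S, T ∈ M

/-- the polytope of marginal models; the variable `i` has the outcomes `Fin (k i)` -/
def Models (M : Finset (Finset (Fin n))) (k : Fin n → ℕ) :
    Set ((S : M) → ((i : S.1) → Fin (k i)) → ℝ) :=
  {p | (∀ S x, 0 ≤ p S x) ∧ (∀ S, ∑ x, p S x = 1) ∧ ∀ (S T : M) (h : S.1 ⊆ T.1) y,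
    p S y = ∑ x with (fun i : S.1 => x ⟨i, h i.2⟩) = y, p T x}

/-- Shannon entropy -/
noncomputable def ent {X : Type} [Fintype X] (q : X → ℝ) : ℝ := ∑ x, Real.negMulLog (q x)

/-- polymatroids -/
def Polym (f : Finset (Fin n) → ℝ) : Prop :=
  f ∅ = 0 ∧ (∀ S T, S ⊆ T → f S ≤ f T) ∧ ∀ S T, f (S ∪ T) + f (S ∩ T) ≤ f S + f T

end defs

def M : Finset (Finset (Fin 4)) := {∅, {0}, {1}, {2}, {3}, {0, 1}, {0, 2}, {0, 3}, {1, 2}, {1, 3}}

def W (S : Finset (Fin 4)) (x : Fin 4 → Fin 3) : ℕ :=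
  if S = ∅ then 4 else if S = {1, 2} then (if x 1 = 0 ↔ x 2 = 0 then 0 else 1) else
  if S = {1, 3} then (if x 1 + x 3 = 0 then if x 1 = 0 then 2 else 1 else 0) else
  if ∀ i ∈ S, ∀ j ∈ S, x i = x j then if ∀ i ∈ S, x i = 0 then 2 else 1 else 0

def w (S : M) (x : (i : S.1) → Fin 3) : ℕ := W S fun i => if h : i ∈ S.1 then x ⟨i, h⟩ else 0

noncomputable def p (S : M) (x : (i : S.1) → Fin 3) : ℝ := w S x / 4

def pr (u v : Fin 4) (a b : Fin 3) : (i : ({u, v} : Finset (Fin 4))) → Fin 3 :=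
  fun i => if i.1 = u then a else b

theorem bij_pr {u v : Fin 4} (h : u ≠ v) :
    Function.Bijective fun c : Fin 3 × Fin 3 => pr u v c.1 c.2 := by
  refine ⟨fun c d e => ?_, fun x => ⟨(x ⟨u, by simp⟩, x ⟨v, by simp⟩), funext fun ⟨i, hi⟩ => ?_⟩⟩
  · exact Prod.ext (by simpa [pr] using congrFun e ⟨u, by simp⟩)
      (by simpa [pr, h.symm] using congrFun e ⟨v, by simp⟩)
  · rcases mem_insert.1 hi with rfl | c
    · simp [pr]
    · obtain rfl := mem_singleton.1 c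
      simp [pr, h.symm]

theorem bij_sg (u : Fin 4) :
    Function.Bijective fun (a : Fin 3) (_ : ({u} : Finset (Fin 4))) => a :=
  ⟨fun _ _ e => congrFun e ⟨u, by simp⟩, fun x => ⟨x ⟨u, by simp⟩, funext fun _ =>
    congrArg x (Subsingleton.elim _ _)⟩⟩

theorem sum_pr {u v : Fin 4} (h : u ≠ v) (F : (({u, v} : Finset (Fin 4)) → Fin 3) → ℝ) :
    ∑ x, F x = ∑ a, ∑ b, F (pr u v a b) := by
  rw [← sum_product', univ_product_univ]
  exact (Fintype.sum_bijective _ (bij_pr h) _ _ fun _ => rfl).symm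

theorem sum_sg (u : Fin 4) (F : (({u} : Finset (Fin 4)) → Fin 3) → ℝ) :
    ∑ x, F x = ∑ a, F fun _ => a := (Fintype.sum_bijective _ (bij_sg u) _ _ fun _ => rfl).symm

theorem sg (u : Fin 4) : {u} ∈ M := by revert u; decide

theorem marg {q : (S : M) → ((i : S.1) → Fin 3) → ℝ} (h : q ∈ Models M fun _ => 3) {u v : Fin 4}
    (e : u ≠ v) (m : {u, v} ∈ M) (a : Fin 3) :
    q ⟨{u}, sg u⟩ (fun _ => a) = ∑ b, q ⟨_, m⟩ (pr u v a b) ∧
      q ⟨{v}, sg v⟩ (fun _ => a) = ∑ b, q ⟨_, m⟩ (pr u v b a) := by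
  constructor
  · rw [h.2.2 _ ⟨_, m⟩ (by simp), sum_filter, sum_pr e]
    simp [funext_iff, pr, forall_eq (p := fun i => (if i = u then _ else _) = a)]
  · rw [h.2.2 _ ⟨_, m⟩ (by simp), sum_filter, sum_pr e]
    simp [funext_iff, pr, forall_eq (p := fun i => (if i = u then _ else _) = a), e.symm]

theorem p_mem : p ∈ Models M fun _ => 3 := by
  refine ⟨fun S x => by unfold p; positivity, fun S => ?_, fun S T h y => ?_⟩
  · rw [show ∑ x, p S x = (∑ x, w S x : ℕ) / 4 by simp [p, sum_div],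
      (by decide +kernel : ∀ S : M, ∑ x, w S x = 4)]
    norm_num
  · rw [p, (by decide +kernel : ∀ (S T : M) (h : S.1 ⊆ T.1) y,
      w S y = ∑ x with (fun i : S.1 => x ⟨i, h i.2⟩) = y, w T x) S T h y]
    simp [p, sum_div]

theorem lin {q : (S : M) → ((i : S.1) → Fin 3) → ℝ} {c : ℝ}
    (t : ∑ a : Fin 3, q ⟨{0}, sg 0⟩ (fun _ => a) = 0)
    (h : ∀ {u v : Fin 4}, u ≠ v → ∀ (m : {u, v} ∈ M) (a : Fin 3),
      q ⟨{u}, sg u⟩ (fun _ => a) = ∑ b, q ⟨_, m⟩ (pr u v a b) ∧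
        q ⟨{v}, sg v⟩ (fun _ => a) = ∑ b, q ⟨_, m⟩ (pr u v b a))
    (z : ∀ S x, w S x = c → q S x = 0) (e : c = 0) (S : M) (n : S.1 ≠ ∅) : ∀ x, q S x = 0 := by
  have m1 := h (u := 0) (v := 1) (by decide) (by decide)
  have m2 := h (u := 0) (v := 2) (by decide) (by decide)
  have m3 := h (u := 0) (v := 3) (by decide) (by decide)
  have m4 := h (u := 1) (v := 2) (by decide) (by decide)
  have m5 := h (u := 1) (v := 3) (by decide) (by decide)
  have z1 := fun a b => z ⟨{0, 1}, by decide⟩ (pr 0 1 a b)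
  have z2 := fun a b => z ⟨{0, 2}, by decide⟩ (pr 0 2 a b)
  have z3 := fun a b => z ⟨{0, 3}, by decide⟩ (pr 0 3 a b)
  have z4 := fun a b => z ⟨{1, 2}, by decide⟩ (pr 1 2 a b)
  have z5 := fun a b => z ⟨{1, 3}, by decide⟩ (pr 1 3 a b)
  clear h z
  subst e
  simp +decide only [Fin.forall_fin_succ, Fin.sum_univ_three, IsEmpty.forall_iff, and_true,
    Fin.succ_zero_eq_one, Fin.succ_one_eq_two, Nat.cast_eq_zero,
    true_and, forall_const] at m1 m2 m3 m4 m5 z1 z2 z3 z4 z5 t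
  obtain ⟨S, hS⟩ := S
  simp only [M, mem_insert, mem_singleton] at hS
  rcases hS with rfl | rfl | rfl | rfl | rfl | rfl | rfl | rfl | rfl | rfl
  · exact (n rfl).elim
  iterate 4
    refine (bij_sg _).2.forall.2 ?_
    simp only [Fin.forall_fin_succ, IsEmpty.forall_iff, and_true, Fin.succ_zero_eq_one,
      Fin.succ_one_eq_two]
    grind only
  all_goals
    refine (bij_pr (by decide)).2.forall.2 ?_
    simp only [Prod.forall, Fin.forall_fin_succ, IsEmpty.forall_iff, and_true,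
      Fin.succ_zero_eq_one, Fin.succ_one_eq_two]
    grind only

theorem uniq {q : (S : M) → ((i : S.1) → Fin 3) → ℝ} (h : q ∈ Models M fun _ => 3)
    (z : ∀ S x, w S x = 0 → q S x = 0) : q = p := by
  funext S x
  by_cases n : S.1 = ∅
  · obtain ⟨S, hS⟩ := S
    obtain rfl : S = ∅ := n
    have a := h.2.1 ⟨∅, hS⟩
    have b := p_mem.2.1 ⟨∅, hS⟩
    rw [Fintype.sum_subsingleton _ x] at a b
    rw [a, b]
  refine sub_eq_zero.1 (lin (q := fun S x => q S x - p S x) (c := 0) ?_ (fun e m a => ?_)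
    (fun S x e => ?_) rfl S n x)
  · have a := h.2.1 ⟨{0}, sg 0⟩
    have b := p_mem.2.1 ⟨{0}, sg 0⟩
    rw [sum_sg] at a b
    rw [sum_sub_distrib, a, b, sub_self]
  · simp only [sum_sub_distrib, ← (marg h e m a).1, ← (marg h e m a).2, ← (marg p_mem e m a).1,
      ← (marg p_mem e m a).2, and_self]
  · rw [z S x (by exact_mod_cast e), p, e]; simp

theorem result : ∃ (n : ℕ) (M : Finset (Finset (Fin n))) (k : Fin n → ℕ), Scen M ∧ (∀ i, 0 < k i) ∧
    ∃ p ∈ (Models M k).extremePoints ℝ, ¬ ∃ f, Polym f ∧ ∀ S : M, f S.1 = ent (p S) := by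
  refine ⟨4, M, fun _ => 3, by unfold Scen; decide, by simp, p, mem_extremePoints_iff_left.2
    ⟨p_mem, fun q a r b ⟨c, d, c0, d0, _, e⟩ => uniq a fun S x z => ?_⟩, ?_⟩
  · have := congrFun (congrFun e S) x
    simp only [Pi.add_apply, Pi.smul_apply, smul_eq_mul, p, z] at this
    have := a.1 S x
    have := mul_nonneg d0.le (b.1 S x)
    nlinarith
  · rintro ⟨f, ⟨-, a, b⟩, c⟩
    have h1 := c ⟨{0}, by decide⟩
    have h2 := c ⟨{0, 1}, by decide⟩
    have h3 := c ⟨{0, 2}, by decide⟩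
    have h4 := c ⟨{1, 2}, by decide⟩
    have h5 := b {0, 1} {0, 2}
    have h6 := a {1, 2} ({0, 1} ∪ {0, 2}) (by decide)
    rw [show ({0, 1} ∩ {0, 2} : Finset (Fin 4)) = {0} by decide] at h5
    rw [ent, sum_sg] at h1
    rw [ent, sum_pr (by decide)] at h2 h3 h4
    have v1 : ∀ a, w ⟨{0}, by decide⟩ (fun _ => a) = if a = 0 then 2 else 1 := by decide
    have v2 : ∀ a b, w ⟨{0, 1}, by decide⟩ (pr 0 1 a b) =
      if a = b then if a = 0 then 2 else 1 else 0 := by decide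
    have v3 : ∀ a b, w ⟨{0, 2}, by decide⟩ (pr 0 2 a b) =
      if a = b then if a = 0 then 2 else 1 else 0 := by decide
    have v4 : ∀ a b, w ⟨{1, 2}, by decide⟩ (pr 1 2 a b) = if a = 0 ↔ b = 0 then 0 else 1 := by
      decide
    simp +decide only [p, v1, v2, v3, v4, Fin.sum_univ_three, if_true, if_false] at h1 h2 h3 h4
    norm_num [Real.negMulLog] at h1 h2 h3 h4
    have := Real.log_neg (x := 1 / 2) (by norm_num) (by norm_num)
    have l : Real.log (1 / 4) = 2 * Real.log (1 / 2) := by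
      rw [show (1 / 4 : ℝ) = (1 / 2) ^ 2 by norm_num, Real.log_pow]; norm_num
    linarith

end Pool.Agent.Results.MP_2f9b3f_lc.Cex
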