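import Mathlib

namespace Pool.Agent.H23.ZHeis
open Filter Topology

abbrev E := ℝ × ℝ × ℝ

/-- The real Heisenberg group. -/
def K := E

noncomputable instance : MetricSpace K := inferInstanceAs (MetricSpace E)
noncomputable instance : ChartedSpace E K := chartedSpaceSelf E

instance : Group K where
  mul a b := (a.1 + b.1, a.2.1 + b.2.1, a.2.2 + b.2.2 + a.1 * b.2.1)
  one := (0, 0, 0)
  inv a := (-a.1, -a.2.1, -a.2.2 + a.1 * a.2.1)
  mul_assoc a b c := Prod.ext (add_assoc _ _ _) (Prod.ext (add_assoc _ _ _) (by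
    change a.2.2 + b.2.2 + a.1 * b.2.1 + c.2.2 + (a.1 + b.1) * c.2.1 =
      a.2.2 + (b.2.2 + c.2.2 + b.1 * c.2.1) + a.1 * (b.2.1 + c.2.1)
    ring))
  one_mul a := Prod.ext (zero_add _) (Prod.ext (zero_add _) (by
    change 0 + a.2.2 + 0 * a.2.1 = a.2.2
    ring))
  mul_one a := Prod.ext (add_zero _) (Prod.ext (add_zero _) (by
    change a.2.2 + 0 + a.1 * 0 = a.2.2
    ring))
  inv_mul_cancel a := Prod.ext (neg_add_cancel _) (Prod.ext (neg_add_cancel _) (by
    change -a.2.2 + a.1 * a.2.1 + a.2.2 + -a.1 * a.2.1 = 0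
    ring))

instance lie : LieGroup (modelWithCornersSelf ℝ E) ⊤ K where
  toIsManifold := inferInstanceAs (IsManifold (modelWithCornersSelf ℝ E) ⊤ E)
  contMDiff_mul := by
    change ContMDiff ((modelWithCornersSelf ℝ E).prod (modelWithCornersSelf ℝ E))
      (modelWithCornersSelf ℝ E) ⊤ fun p : E × E =>
        ((p.1.1 + p.2.1, p.1.2.1 + p.2.2.1, p.1.2.2 + p.2.2.2 + p.1.1 * p.2.2.1) : E)
    rw [← modelWithCornersSelf_prod, chartedSpaceSelf_prod]
    exact ContDiff.contMDiff (by fun_prop)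
  contMDiff_inv := by
    change ContMDiff (modelWithCornersSelf ℝ E) (modelWithCornersSelf ℝ E) ⊤ fun a : E =>
        ((-a.1, -a.2.1, -a.2.2 + a.1 * a.2.1) : E)
    exact ContDiff.contMDiff (by fun_prop)

instance : IsTopologicalGroup K := topologicalGroup_of_lieGroup (modelWithCornersSelf ℝ E) ⊤

noncomputable def t : ℝ := liouvilleNumber 2

theorem indep (a b c : ℤ) (h : a + b * t + c * t ^ 2 = 0) : a = 0 ∧ b = 0 ∧ c = 0 := by
  have h1 : Transcendental ℤ t := by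
    simpa [t] using transcendental_liouvilleNumber (le_refl 2)
  have h2 := transcendental_iff.1 h1
    (Polynomial.C c * Polynomial.X ^ 2 + Polynomial.C b * Polynomial.X + Polynomial.C a)
    (by simp; linarith)
  have k := fun n => congrArg (fun p => Polynomial.coeff p n) h2
  have k0 := k 0
  have k1 := k 1
  have k2 := k 2
  simp only [Polynomial.coeff_add, Polynomial.coeff_C_mul, Polynomial.coeff_X_pow,
    Polynomial.coeff_X, Polynomial.coeff_C, Polynomial.coeff_zero] at k0 k1 k2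
  simp at k0 k1 k2
  exact ⟨k0, k1, k2⟩

def B : AddSubgroup (ℝ × ℝ) where
  carrier := {p | ∃ m n k : ℤ, p.1 = m + k * t ∧ p.2 = n + k * t ^ 2}
  zero_mem' := ⟨0, 0, 0, by simp, by simp⟩
  add_mem' := by
    rintro a b ⟨m, n, k, h1, h2⟩ ⟨m', n', k', h3, h4⟩
    exact ⟨m + m', n + n', k + k', by simp [h1, h3]; ring, by simp [h2, h4]; ring⟩
  neg_mem' := by
    rintro a ⟨m, n, k, h1, h2⟩
    exact ⟨-m, -n, -k, by simp [h1]; ring, by simp [h2]; ring⟩

def G : Subgroup K where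
  carrier := {a | (a.1, a.2.1) ∈ B}
  one_mem' := B.zero_mem
  mul_mem' ha hb := B.add_mem ha hb
  inv_mem' ha := B.neg_mem ha

theorem B_not_closed : ¬ IsClosed (B : Set (ℝ × ℝ)) := by
  intro h
  have := h.completeSpace_coe
  have hc : (B : Set (ℝ × ℝ)).Countable :=
    (Set.countable_range fun v : ℤ × ℤ × ℤ =>
      ((v.1 + v.2.2 * t, v.2.1 + v.2.2 * t ^ 2) : ℝ × ℝ)).mono
      (by rintro p ⟨m, n, k, h1, h2⟩; exact ⟨(m, n, k), Prod.ext h1.symm h2.symm⟩)
  have : Countable B := hc.to_subtype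
  obtain ⟨x, hx⟩ := nonempty_interior_of_iUnion_of_closed (f := fun x : B => ({x} : Set B))
    (fun _ => isClosed_singleton) (Set.iUnion_of_singleton _)
  have hd : DiscreteTopology B := by
    refine discreteTopology_of_isOpen_singleton_zero ?_
    have h1 : IsOpen ({x} : Set B) := by
      rw [← interior_eq_iff_isOpen]
      exact (hx.subset_singleton_iff.1 interior_subset)
    simpa using h1.preimage (continuous_add_const x)
  have hf : ((B : Set (ℝ × ℝ)) ∩ Set.Icc 0 1).Finite :=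
    (isCompact_Icc.inter_left h).finite (IsDiscrete.mono ⟨hd⟩ Set.inter_subset_left)
  refine Set.infinite_of_injective_forall_mem (f := fun k : ℤ =>
    ((Int.fract (k * t), Int.fract (k * t ^ 2)) : ℝ × ℝ)) (fun k l e => ?_) (fun k => ?_) hf
  · obtain ⟨z, hz⟩ := Int.fract_eq_fract.1 (congrArg Prod.fst e)
    have := (indep (-z) (k - l) 0 (by push_cast; linarith)).2.1
    omega
  · refine ⟨⟨-⌊k * t⌋, -⌊k * t ^ 2⌋, k, ?_, ?_⟩, ⟨Int.fract_nonneg _, Int.fract_nonneg _⟩,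
      (Int.fract_lt_one _).le, (Int.fract_lt_one _).le⟩ <;> simp only [Int.fract] <;> push_cast <;> ring

theorem G_not_closed : ¬ IsClosed (G : Set K) := fun h =>
  B_not_closed (h.preimage (f := fun p : ℝ × ℝ => ((p.1, p.2, 0) : E)) (by fun_prop))

theorem line {p : ℝ × ℝ} (hp : p ∈ B) (h0 : p ≠ 0) :
    ∃ δ > 0, ∀ q ∈ B, p.1 * q.2 - q.1 * p.2 = 0 → ‖q‖ < δ → q = 0 := by
  obtain ⟨m, n, k, h1, h2⟩ := hp
  obtain ⟨N, hN, hq⟩ : ∃ N : ℤ, N ≠ 0 ∧
      ∀ q ∈ B, p.1 * q.2 - q.1 * p.2 = 0 → ∃ M : ℤ, (N : ℝ) • q = (M : ℝ) • p := by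
    have key : ∀ q ∈ B, p.1 * q.2 - q.1 * p.2 = 0 → ∃ m' n' k' : ℤ, q.1 = m' + k' * t ∧
        q.2 = n' + k' * t ^ 2 ∧ (m : ℝ) * n' = m' * n ∧ (k : ℝ) * n' = k' * n ∧
        (m : ℝ) * k' = m' * k := by
      rintro q ⟨m', n', k', h3, h4⟩ h
      obtain ⟨a, b, c⟩ := indep (m * n' - m' * n) (k * n' - k' * n) (m * k' - m' * k)
        (by rw [h1, h2, h3, h4] at h; push_cast; linarith)
      exact ⟨m', n', k', h3, h4, by exact_mod_cast sub_eq_zero.1 a,
        by exact_mod_cast sub_eq_zero.1 b, by exact_mod_cast sub_eq_zero.1 c⟩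
    by_cases hm : m ≠ 0
    · refine ⟨m, hm, fun q hq h => ?_⟩
      obtain ⟨m', n', k', h3, h4, a, b, c⟩ := key q hq h
      refine ⟨m', Prod.ext ?_ ?_⟩ <;> simp [h1, h2, h3, h4]
      · linear_combination t * c
      · linear_combination a + t ^ 2 * c
    by_cases hn : n ≠ 0
    · refine ⟨n, hn, fun q hq h => ?_⟩
      obtain ⟨m', n', k', h3, h4, a, b, c⟩ := key q hq h
      refine ⟨n', Prod.ext ?_ ?_⟩ <;> simp [h1, h2, h3, h4]
      · linear_combination -a - t * b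
      · linear_combination -t ^ 2 * b
    · refine ⟨k, fun hk => h0 (Prod.ext ?_ ?_), fun q hq h => ?_⟩
      · simp_all
      · simp_all
      obtain ⟨m', n', k', h3, h4, a, b, c⟩ := key q hq h
      refine ⟨k', Prod.ext ?_ ?_⟩ <;> simp [h1, h2, h3, h4]
      · linear_combination -c
      · linear_combination b
  have hN' : (0 : ℝ) < |(N : ℝ)| := abs_pos.2 (by exact_mod_cast hN)
  refine ⟨‖p‖ / |(N : ℝ)|, div_pos (norm_pos_iff.2 h0) hN', fun q h3 h4 h5 => ?_⟩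
  obtain ⟨M, hM⟩ := hq q h3 h4
  have h6 := congrArg norm hM
  simp only [norm_smul, Real.norm_eq_abs] at h6
  rw [lt_div_iff₀ hN'] at h5
  have h7 : |(M : ℝ)| < 1 := by
    by_contra h
    nlinarith [norm_nonneg p]
  have h8 : M = 0 := Int.abs_lt_one_iff.1 (by exact_mod_cast h7)
  simpa [h8, hN] using hM

def z (s : ℝ) : G := ⟨(0, 0, s), B.zero_mem⟩

theorem z_cont : Continuous z :=
  Continuous.subtype_mk (f := fun s : ℝ => ((0, 0, s) : E)) (by fun_prop) _

theorem z_add (a b : ℝ) : z (a + b) = z a * z b :=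
  Subtype.ext (Prod.ext (add_zero _).symm (Prod.ext (add_zero _).symm (by
    change a + b = a + b + 0 * 0
    ring)))

theorem z_neg (a : ℝ) : z (-a) = (z a)⁻¹ :=
  Subtype.ext (Prod.ext neg_zero.symm (Prod.ext neg_zero.symm (by
    change -a = -a + 0 * 0
    ring)))

theorem comm (a b : G) : a * b * a⁻¹ * b⁻¹ = z (a.1.1 * b.1.2.1 - b.1.1 * a.1.2.1) := by
  refine Subtype.ext (Prod.ext ?_ (Prod.ext ?_ ?_))
  · change a.1.1 + b.1.1 + -a.1.1 + -b.1.1 = 0
    ring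
  · change a.1.2.1 + b.1.2.1 + -a.1.2.1 + -b.1.2.1 = 0
    ring
  · change a.1.2.2 + b.1.2.2 + a.1.1 * b.1.2.1 + (-a.1.2.2 + a.1.1 * a.1.2.1) +
      (a.1.1 + b.1.1) * -a.1.2.1 + (-b.1.2.2 + b.1.1 * b.1.2.1) +
      (a.1.1 + b.1.1 + -a.1.1) * -b.1.2.1 = a.1.1 * b.1.2.1 - b.1.1 * a.1.2.1
    ring

theorem propZ (H : Subgroup G) (hc : IsClosed (H : Set G))
    (h0 : TopologicalSpace.IsTopologicalBasis {s : Set H | IsClopen s}) : DiscreteTopology H := by
  let S : AddSubgroup ℝ :=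
    { carrier := {s | z s ∈ H}
      zero_mem' := H.one_mem
      add_mem' := fun ha hb => by simpa only [Set.mem_ofPred_eq, z_add] using H.mul_mem ha hb
      neg_mem' := fun ha => by simpa only [Set.mem_ofPred_eq, z_neg] using H.inv_mem ha }
  obtain ⟨ε, hε, h1⟩ : ∃ ε > 0, ∀ s, z s ∈ H → |s| < ε → s = 0 := by
    rcases S.dense_or_cyclic with h | ⟨a, h⟩
    · have hS : ∀ s, z s ∈ H := fun s =>
        (hc.preimage z_cont).closure_subset (h s)
      have := totallySeparatedSpace_of_t0_of_basis_clopen h0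
      have h2 := (isPreconnected_range (f := fun s => (⟨z s, hS s⟩ : H))
        (z_cont.subtype_mk _)).subsingleton ⟨0, rfl⟩ ⟨1, rfl⟩
      exact absurd (congrArg (fun x : H => x.1.1.2.2) h2) zero_ne_one
    · have h2 : ∀ s, z s ∈ H → ∃ n : ℤ, n • a = s := fun s hs =>
        AddSubgroup.mem_closure_singleton.1 (h ▸ (hs : s ∈ S))
      by_cases ha : a = 0
      · exact ⟨1, one_pos, fun s hs _ => by obtain ⟨n, rfl⟩ := h2 s hs; simp [ha]⟩
      refine ⟨|a|, abs_pos.2 ha, fun s hs h3 => ?_⟩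
      obtain ⟨n, rfl⟩ := h2 s hs
      rw [zsmul_eq_mul, abs_mul, mul_lt_iff_lt_one_left (abs_pos.2 ha)] at h3
      simp [Int.abs_lt_one_iff.1 (by exact_mod_cast h3)]
  obtain ⟨δ, hδ, h2⟩ : ∃ δ > 0, ∀ b ∈ H, ‖(b.1.1, b.1.2.1)‖ < δ → (b.1.1, b.1.2.1) = 0 := by
    by_cases h : ∀ b ∈ H, (b.1.1, b.1.2.1) = 0
    · exact ⟨1, one_pos, fun b hb _ => h b hb⟩
    push Not at h
    obtain ⟨a, ha, h⟩ := h
    obtain ⟨δ, hδ, h3⟩ := line a.2 h
    have hp := norm_pos_iff.2 h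
    refine ⟨min δ (ε / (2 * ‖(a.1.1, a.1.2.1)‖)), by positivity, fun b hb h4 =>
      h3 _ b.2 (h1 _ (comm a b ▸ H.mul_mem (H.mul_mem (H.mul_mem ha hb) (H.inv_mem ha))
        (H.inv_mem hb)) ?_) (h4.trans_le (min_le_left _ _))⟩
    have h5 := (lt_div_iff₀ (by positivity)).1 (h4.trans_le (min_le_right _ _))
    have a1 : |a.1.1| ≤ _ := norm_fst_le (a.1.1, a.1.2.1)
    have a2 : |a.1.2.1| ≤ _ := norm_snd_le (a.1.1, a.1.2.1)
    have b1 : |b.1.1| ≤ _ := norm_fst_le (b.1.1, b.1.2.1)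
    have b2 : |b.1.2.1| ≤ _ := norm_snd_le (b.1.1, b.1.2.1)
    refine (abs_sub _ _).trans_lt ?_
    rw [abs_mul, abs_mul]
    have := mul_le_mul a1 b2 (abs_nonneg _) hp.le
    have := mul_le_mul b1 a2 (abs_nonneg _) (norm_nonneg _)
    linarith
  refine discreteTopology_of_isOpen_singleton_one ?_
  suffices h : ({1} : Set H) = Metric.ball 1 (min δ ε) from h ▸ Metric.isOpen_ball
  refine Set.Subset.antisymm (Set.singleton_subset_iff.2 (Metric.mem_ball_self (lt_min hδ hε)))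
    fun b hb => ?_
  have h3 : ‖(show E from b.1.1)‖ < min δ ε :=
    (dist_zero_right (show E from b.1.1)).symm.trans_lt hb
  rw [Prod.norm_def, Prod.norm_def, max_lt_iff, max_lt_iff, lt_min_iff, lt_min_iff,
    lt_min_iff] at h3
  have h4 := h2 b.1 b.2 (max_lt h3.1.1 h3.2.1.1)
  have h5 : b.1 = z b.1.1.2.2 :=
    Subtype.ext (Prod.ext (Prod.ext_iff.1 h4).1 (Prod.ext (Prod.ext_iff.1 h4).2 rfl))
  exact Subtype.ext (h5.trans (congrArg z (h1 _ (h5 ▸ b.2) h3.2.2.2)))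

end Pool.Agent.H23.ZHeis
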